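import Pool.Agent.Mg.F61a8e3.G86875b

section

/-! Part K: the check of the classes from 1270 to 1717. -/

set_option autoImplicit false
set_option maxRecDepth 100000

namespace Pool.Agent.MP_61a8e3_al.G4.K

theorem chk3 : Rg (cls dat) 1270 1718 := by
  have h := Rg.nil (cls dat) 1270
  replace h := Rg.step 1270 14 1284 h rfl (by decide +kernel)
  replace h := Rg.step 1284 14 1298 h rfl (by decide +kernel)
  replace h := Rg.step 1298 14 1312 h rfl (by decide +kernel)
  replace h := Rg.step 1312 14 1326 h rfl (by decide +kernel)
  replace h := Rg.step 1326 14 1340 h rfl (by decide +kernel)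
  replace h := Rg.step 1340 14 1354 h rfl (by decide +kernel)
  replace h := Rg.step 1354 14 1368 h rfl (by decide +kernel)
  replace h := Rg.step 1368 14 1382 h rfl (by decide +kernel)
  replace h := Rg.step 1382 14 1396 h rfl (by decide +kernel)
  replace h := Rg.step 1396 14 1410 h rfl (by decide +kernel)
  replace h := Rg.step 1410 14 1424 h rfl (by decide +kernel)
  replace h := Rg.step 1424 14 1438 h rfl (by decide +kernel)
  replace h := Rg.step 1438 14 1452 h rfl (by decide +kernel)
  replace h := Rg.step 1452 14 1466 h rfl (by decide +kernel)
  replace h := Rg.step 1466 14 1480 h rfl (by decide +kernel)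
  replace h := Rg.step 1480 14 1494 h rfl (by decide +kernel)
  replace h := Rg.step 1494 14 1508 h rfl (by decide +kernel)
  replace h := Rg.step 1508 14 1522 h rfl (by decide +kernel)
  replace h := Rg.step 1522 14 1536 h rfl (by decide +kernel)
  replace h := Rg.step 1536 14 1550 h rfl (by decide +kernel)
  replace h := Rg.step 1550 14 1564 h rfl (by decide +kernel)
  replace h := Rg.step 1564 14 1578 h rfl (by decide +kernel)
  replace h := Rg.step 1578 14 1592 h rfl (by decide +kernel)
  replace h := Rg.step 1592 14 1606 h rfl (by decide +kernel)
  replace h := Rg.step 1606 14 1620 h rfl (by decide +kernel)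
  replace h := Rg.step 1620 14 1634 h rfl (by decide +kernel)
  replace h := Rg.step 1634 14 1648 h rfl (by decide +kernel)
  replace h := Rg.step 1648 14 1662 h rfl (by decide +kernel)
  replace h := Rg.step 1662 14 1676 h rfl (by decide +kernel)
  replace h := Rg.step 1676 14 1690 h rfl (by decide +kernel)
  replace h := Rg.step 1690 14 1704 h rfl (by decide +kernel)
  replace h := Rg.step 1704 14 1718 h rfl (by decide +kernel)
  exact h

end Pool.Agent.MP_61a8e3_al.G4.K

end

section

/-! Part K: the check of the classes from 2152 to 2599. -/

set_option autoImplicit false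
set_option maxRecDepth 100000

namespace Pool.Agent.MP_61a8e3_al.G4.K

theorem chk5 : Rg (cls dat) 2152 2600 := by
  have h := Rg.nil (cls dat) 2152
  replace h := Rg.step 2152 14 2166 h rfl (by decide +kernel)
  replace h := Rg.step 2166 14 2180 h rfl (by decide +kernel)
  replace h := Rg.step 2180 14 2194 h rfl (by decide +kernel)
  replace h := Rg.step 2194 14 2208 h rfl (by decide +kernel)
  replace h := Rg.step 2208 14 2222 h rfl (by decide +kernel)
  replace h := Rg.step 2222 14 2236 h rfl (by decide +kernel)
  replace h := Rg.step 2236 14 2250 h rfl (by decide +kernel)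
  replace h := Rg.step 2250 14 2264 h rfl (by decide +kernel)
  replace h := Rg.step 2264 14 2278 h rfl (by decide +kernel)
  replace h := Rg.step 2278 14 2292 h rfl (by decide +kernel)
  replace h := Rg.step 2292 14 2306 h rfl (by decide +kernel)
  replace h := Rg.step 2306 14 2320 h rfl (by decide +kernel)
  replace h := Rg.step 2320 14 2334 h rfl (by decide +kernel)
  replace h := Rg.step 2334 14 2348 h rfl (by decide +kernel)
  replace h := Rg.step 2348 14 2362 h rfl (by decide +kernel)
  replace h := Rg.step 2362 14 2376 h rfl (by decide +kernel)
  replace h := Rg.step 2376 14 2390 h rfl (by decide +kernel)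
  replace h := Rg.step 2390 14 2404 h rfl (by decide +kernel)
  replace h := Rg.step 2404 14 2418 h rfl (by decide +kernel)
  replace h := Rg.step 2418 14 2432 h rfl (by decide +kernel)
  replace h := Rg.step 2432 14 2446 h rfl (by decide +kernel)
  replace h := Rg.step 2446 14 2460 h rfl (by decide +kernel)
  replace h := Rg.step 2460 14 2474 h rfl (by decide +kernel)
  replace h := Rg.step 2474 14 2488 h rfl (by decide +kernel)
  replace h := Rg.step 2488 14 2502 h rfl (by decide +kernel)
  replace h := Rg.step 2502 14 2516 h rfl (by decide +kernel)
  replace h := Rg.step 2516 14 2530 h rfl (by decide +kernel)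
  replace h := Rg.step 2530 14 2544 h rfl (by decide +kernel)
  replace h := Rg.step 2544 14 2558 h rfl (by decide +kernel)
  replace h := Rg.step 2558 14 2572 h rfl (by decide +kernel)
  replace h := Rg.step 2572 14 2586 h rfl (by decide +kernel)
  replace h := Rg.step 2586 14 2600 h rfl (by decide +kernel)
  exact h

end Pool.Agent.MP_61a8e3_al.G4.K

end
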