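import Pool.Agent.Mg.F61a8e3.G86875b

/-! Part K: the check of the classes from 3048 to 3481. -/

set_option autoImplicit false
set_option maxRecDepth 100000

namespace Pool.Agent.MP_61a8e3_al.G4.K

theorem chk7 : Rg (cls dat) 3048 3482 := by
  have h := Rg.nil (cls dat) 3048
  replace h := Rg.step 3048 14 3062 h rfl (by decide +kernel)
  replace h := Rg.step 3062 14 3076 h rfl (by decide +kernel)
  replace h := Rg.step 3076 14 3090 h rfl (by decide +kernel)
  replace h := Rg.step 3090 14 3104 h rfl (by decide +kernel)
  replace h := Rg.step 3104 14 3118 h rfl (by decide +kernel)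
  replace h := Rg.step 3118 14 3132 h rfl (by decide +kernel)
  replace h := Rg.step 3132 14 3146 h rfl (by decide +kernel)
  replace h := Rg.step 3146 14 3160 h rfl (by decide +kernel)
  replace h := Rg.step 3160 14 3174 h rfl (by decide +kernel)
  replace h := Rg.step 3174 14 3188 h rfl (by decide +kernel)
  replace h := Rg.step 3188 14 3202 h rfl (by decide +kernel)
  replace h := Rg.step 3202 14 3216 h rfl (by decide +kernel)
  replace h := Rg.step 3216 14 3230 h rfl (by decide +kernel)
  replace h := Rg.step 3230 14 3244 h rfl (by decide +kernel)
  replace h := Rg.step 3244 14 3258 h rfl (by decide +kernel)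
  replace h := Rg.step 3258 14 3272 h rfl (by decide +kernel)
  replace h := Rg.step 3272 14 3286 h rfl (by decide +kernel)
  replace h := Rg.step 3286 14 3300 h rfl (by decide +kernel)
  replace h := Rg.step 3300 14 3314 h rfl (by decide +kernel)
  replace h := Rg.step 3314 14 3328 h rfl (by decide +kernel)
  replace h := Rg.step 3328 14 3342 h rfl (by decide +kernel)
  replace h := Rg.step 3342 14 3356 h rfl (by decide +kernel)
  replace h := Rg.step 3356 14 3370 h rfl (by decide +kernel)
  replace h := Rg.step 3370 14 3384 h rfl (by decide +kernel)
  replace h := Rg.step 3384 14 3398 h rfl (by decide +kernel)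
  replace h := Rg.step 3398 14 3412 h rfl (by decide +kernel)
  replace h := Rg.step 3412 14 3426 h rfl (by decide +kernel)
  replace h := Rg.step 3426 14 3440 h rfl (by decide +kernel)
  replace h := Rg.step 3440 14 3454 h rfl (by decide +kernel)
  replace h := Rg.step 3454 14 3468 h rfl (by decide +kernel)
  replace h := Rg.step 3468 14 3482 h rfl (by decide +kernel)
  exact h

end Pool.Agent.MP_61a8e3_al.G4.K
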