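import Mathlib

section

/-!
Part A (presentation of the stabiliser of the genus-4 surface relator by chord slides): definitions.

`F` is the free group on `X`, `L` the sixteen letters, `fl g` the first letter of the reduced word of
`g` (`none` for `g = 1`).  A vertex is an automorphism `β` together with a cyclic order `o` of the
sixteen letters and the symbol `none` (the Whitehead cycle of the word `β r3`).  A move cuts the
cycle into two arcs separating a letter `a` from its inverse and applies the Whitehead automorphism.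
-/

set_option autoImplicit false

namespace Pool.Agent.MP_61a8e3_al.G4.A


abbrev X : Type := Fin 4 ⊕ Fin 4
abbrev F : Type := FreeGroup X
abbrev L : Type := X × Bool

instance instReflBEqX : ReflBEq X := ⟨fun {a} => by revert a; decide⟩
instance instLawfulBEqX : LawfulBEq X := ⟨fun {a b} => by revert a b; decide⟩

/-- The inverse letter. -/
def bar (l : L) : L := (l.1, !l.2)

/-- The element of `F` given by a letter. -/
def el (l : L) : F := FreeGroup.mk [l]

/-- First letter of the reduced word. -/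
def fl (g : F) : Option L := g.toWord.head?

/-- The surface relator, exactly as in the frozen statements (genus 4). -/
def r3 : F :=
  (List.ofFn (fun i : Fin 4 => FreeGroup.of (Sum.inl i : Fin 4 ⊕ Fin 4) *
    FreeGroup.of (Sum.inr i : Fin 4 ⊕ Fin 4) * (FreeGroup.of (Sum.inl i : Fin 4 ⊕ Fin 4))⁻¹ *
    (FreeGroup.of (Sum.inr i : Fin 4 ⊕ Fin 4))⁻¹)).prod

@[simp] theorem bar_bar (l : L) : bar (bar l) = l := by simp [bar]
@[simp] theorem bar_fst (l : L) : (bar l).1 = l.1 := rfl
theorem bar_ne (l : L) : bar l ≠ l := by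
  rcases l with ⟨i, b⟩; cases b <;> simp [bar]
theorem bar_inj {l m : L} (h : bar l = bar m) : l = m := by
  simpa using congrArg bar h
theorem eq_or_bar {l m : L} (h : l.1 = m.1) : l = m ∨ l = bar m := by
  rcases l with ⟨i, b⟩; rcases m with ⟨j, c⟩
  simp only at h; subst h
  cases b <;> cases c <;> simp [bar]

theorem el_bar (l : L) : el (bar l) = (el l)⁻¹ := by
  simp [el, bar, FreeGroup.inv_mk, FreeGroup.invRev]

theorem el_true (i : X) : el (i, true) = FreeGroup.of i := rfl

/-- A map on letters compatible with inversion is the restriction of its lift. -/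
theorem lift_el {G : Type} [Group G] (φ : L → G) (h : ∀ l, φ (bar l) = (φ l)⁻¹) (l : L) :
    FreeGroup.lift (fun i => φ (i, true)) (el l) = φ l := by
  rcases l with ⟨i, b⟩
  cases b
  · have h1 : el (i, false) = (FreeGroup.of i)⁻¹ := el_bar (i, true)
    have h2 : φ (i, false) = (φ (i, true))⁻¹ := h (i, true)
    rw [h1, h2, map_inv, FreeGroup.lift_apply_of]
  · rw [el_true, FreeGroup.lift_apply_of]

theorem aut_ext {α β : MulAut F} (h : ∀ l : L, α (el l) = β (el l)) : α = β := by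
  have : α.toMonoidHom = β.toMonoidHom := FreeGroup.ext_hom _ _ (fun i => h (i, true))
  exact MulEquiv.toMonoidHom_injective this

/-- Relabellings: permutations of the letters commuting with inversion. -/
def W : Subgroup (Equiv.Perm L) where
  carrier := {π | ∀ l, π (bar l) = bar (π l)}
  mul_mem' := fun {a b} ha hb l => by
    simp only [Equiv.Perm.mul_apply]; rw [hb l, ha]
  one_mem' := fun _ => rfl
  inv_mem' := fun {a} ha l => by
    apply a.injective
    rw [ha]; simp

theorem W_bar (π : W) (l : L) : π.1 (bar l) = bar (π.1 l) := π.2 l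

/-- The endomorphism given by a relabelling. -/
def relH (π : W) : F →* F := FreeGroup.lift (fun i => el (π.1 (i, true)))

theorem relH_el (π : W) (l : L) : relH π (el l) = el (π.1 l) :=
  lift_el (fun l => el (π.1 l)) (fun l => by rw [W_bar, el_bar]) l

theorem relH_mul (π σ : W) (g : F) : relH (π * σ) g = relH π (relH σ g) := by
  have : relH (π * σ) = (relH π).comp (relH σ) := FreeGroup.ext_hom _ _ (fun i => by
    rw [MonoidHom.comp_apply, ← el_true, relH_el, relH_el, relH_el]; rfl)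
  rw [this]; rfl

theorem relH_one (g : F) : relH 1 g = g := by
  have : relH 1 = MonoidHom.id F := FreeGroup.ext_hom _ _ (fun i => by
    rw [← el_true, relH_el]; rfl)
  rw [this]; rfl

/-- The automorphism given by a relabelling. -/
def relA : W →* MulAut F where
  toFun π :=
    { toFun := relH π
      invFun := relH π⁻¹
      left_inv := fun g => by rw [← relH_mul, inv_mul_cancel, relH_one]
      right_inv := fun g => by rw [← relH_mul, mul_inv_cancel, relH_one]
      map_mul' := map_mul _ }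
  map_one' := MulEquiv.ext relH_one
  map_mul' π σ := MulEquiv.ext (relH_mul π σ)

theorem relA_el (π : W) (l : L) : relA π (el l) = el (π.1 l) := relH_el π l

/-- Image of a letter under the generalised Whitehead automorphism. -/
def whL (a : L) (χ : Option L → ℤ) (l : L) : F :=
  if l.1 = a.1 then el l
  else el a ^ (χ (some l) - χ none) * el l * el a ^ (χ none - χ (some (bar l)))

def whH (a : L) (χ : Option L → ℤ) : F →* F := FreeGroup.lift (fun i => whL a χ (i, true))

theorem whH_el (a : L) (χ : Option L → ℤ) (l : L) : whH a χ (el l) = whL a χ l :=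
  lift_el (whL a χ) (fun l => by
    unfold whL
    by_cases h : l.1 = a.1
    · simp [h, el_bar]
    · simp only [bar_fst, h, if_false, bar_bar, el_bar, mul_inv_rev, ← zpow_neg, neg_sub,
        mul_assoc]) l

theorem whH_self (a : L) (χ : Option L → ℤ) : whH a χ (el a) = el a := by
  rw [whH_el]; simp [whL]

theorem whH_add (a : L) (χ ψ : Option L → ℤ) (g : F) :
    whH a (χ + ψ) g = whH a χ (whH a ψ g) := by
  have : whH a (χ + ψ) = (whH a χ).comp (whH a ψ) := FreeGroup.ext_hom _ _ (fun i => by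
    rw [MonoidHom.comp_apply, ← el_true, whH_el, whH_el]
    unfold whL
    by_cases h : i = a.1
    · simp only [h, if_true]; rw [whH_el]; simp [whL]
    · simp only [h, if_false, map_mul, map_zpow, whH_self, whH_el, whL, Pi.add_apply]
      group)
  rw [this]; rfl

theorem whH_zero (a : L) (g : F) : whH a 0 g = g := by
  have : whH a 0 = MonoidHom.id F := FreeGroup.ext_hom _ _ (fun i => by
    rw [← el_true, whH_el]; simp [whL])
  rw [this]; rfl

/-- Generalised Whitehead automorphism: fixes `a`, and sends another letter `l` to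
`a ^ (χ l - χ none) * l * a ^ (χ none - χ (bar l))`. -/
def whZ (a : L) (χ : Option L → ℤ) : MulAut F where
  toFun := whH a χ
  invFun := whH a (-χ)
  left_inv := fun g => by rw [← whH_add, neg_add_cancel, whH_zero]
  right_inv := fun g => by rw [← whH_add, add_neg_cancel, whH_zero]
  map_mul' := map_mul _

theorem whZ_el (a : L) (χ : Option L → ℤ) (l : L) : whZ a χ (el l) = whL a χ l := whH_el a χ l

theorem whZ_add (a : L) (χ ψ : Option L → ℤ) : whZ a (χ + ψ) = whZ a χ * whZ a ψ :=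
  MulEquiv.ext (whH_add a χ ψ)

theorem whZ_zero (a : L) : whZ a 0 = 1 := MulEquiv.ext (whH_zero a)

/-- Indicator of a set of directions. -/
def ind (A : Finset (Option L)) (x : Option L) : ℤ := if x ∈ A then 1 else 0

/-- The Whitehead automorphism of the cut `A` with multiplier `a`. -/
def wh (a : L) (A : Finset (Option L)) : MulAut F := whZ a (ind A)

/-- The elementary slide automorphism `t ↦ a t`. -/
def sl (a t : L) : MulAut F := wh a {some a, some t}

/-- `q` follows `p` in the cyclic word `c`. -/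
def Nx {α : Type} (c : Cycle α) (p q : α) : Prop := ∃ U : List α, c = ↑(p :: q :: U)

/-- `A` is an arc of the cyclic word `c`. -/
def IsCut {α : Type} (c : Cycle α) (A : Finset α) : Prop :=
  ∃ I J : List α, c = ↑(I ++ J) ∧ ∀ x, x ∈ A ↔ x ∈ I

/-- `π` is the relabelling `b ↦ a ↦ bar b`, fixing the letters of the other generators. -/
def IsTri (π : W) (a b : L) : Prop :=
  π.1 b = a ∧ π.1 a = bar b ∧ ∀ l : L, l.1 ≠ a.1 → l.1 ≠ b.1 → π.1 l = l

/-- A system of chord slides: points over labelled cyclic words, with slides `R a` and relabellings,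
satisfying the elementary cells. -/
structure SlideSys (E : Type) where
  w : E → Cycle L
  R : L → Equiv.Perm E
  rl : W →* Equiv.Perm E
  nodup : ∀ e, (w e).Nodup
  full : ∀ e l, l ∈ w e
  nobar : ∀ e a, ¬ Nx (w e) a (bar a)
  w_R : ∀ e a t (U V : List L), w e = ↑(a :: t :: U ++ bar a :: V) →
    w (R a e) = ↑(a :: U ++ t :: bar a :: V)
  w_rl : ∀ (π : W) e, w (rl π e) = (w e).map π.1
  rl_R : ∀ (π : W) a, rl π * R a = R (π.1 a) * rl π
  comm : ∀ e a b t u, Nx (w e) a t → Nx (w e) b u → a ≠ b → t ≠ b → t ≠ bar b → u ≠ a →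
    u ≠ bar a → R a (R b e) = R b (R a e)
  pent : ∀ e a b u, Nx (w e) a b → Nx (w e) b u → u ≠ bar a →
    R b (R a (R a e)) = R a (R b e)
  pent2 : ∀ e a b u, Nx (w e) a (bar b) → Nx (w e) b u → u ≠ a → u ≠ bar a →
    R a (R a (R b e)) = R b (R a e)
  tri : ∀ e a b (π : W), Nx (w e) a b → IsTri π a b → R (bar a) (R b (R a e)) = rl π e
  twist : ∀ e a (U V : List L), w e = ↑(a :: U ++ bar a :: V) →
    (R a ^ U.length) e = (R (bar a) ^ V.length) e

/-- The general move of the chord `a`: `n` slides on the right, `m` on the left. -/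
def SlideSys.Mv {E : Type} (S : SlideSys E) (a : L) (m n : ℕ) : Equiv.Perm E :=
  (S.R (bar a))⁻¹ ^ m * S.R a ^ n

/-- The subgroup generated by all slides and relabellings. -/
def SlideSys.Lam {E : Type} (S : SlideSys E) : Subgroup (Equiv.Perm E) :=
  Subgroup.closure (Set.range S.R ∪ Set.range S.rl)

/-- Vertices. -/
@[ext] structure Vx where
  β : MulAut F
  o : Cycle (Option L)

/-- The value at the corner after a side. -/
def val (G : Option L → F) (w : F) : Option L → F
  | none => w⁻¹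
  | some l => el l * G (some (bar l))

/-- `o` is the Whitehead cycle of the word `β r3`. -/
def Good (v : Vx) : Prop :=
  v.o.Nodup ∧ (∀ x, x ∈ v.o) ∧
    ∃ G : Option L → F, G none = 1 ∧ ∀ p q, Nx v.o p q → G q = val G (v.β r3) p

/-- Forget the symbol `none`. -/
def red (o : Cycle (Option L)) : Cycle L :=
  Quotient.map' (s₁ := List.IsRotated.setoid _) (s₂ := List.IsRotated.setoid _)
    List.reduceOption (fun l l' h => by
      obtain ⟨n, rfl⟩ := h
      rw [← List.rotate_mod]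
      rcases Nat.eq_zero_or_pos l.length with h0 | h0
      · rw [List.length_eq_zero_iff.1 h0]; exact List.IsRotated.refl _
      · rw [List.rotate_eq_drop_append_take (Nat.mod_lt _ h0).le]
        conv_lhs => rw [← List.take_append_drop (n % l.length) l]
        rw [List.reduceOption_append, List.reduceOption_append]
        exact List.isRotated_append) o

theorem red_coe (l : List (Option L)) : red (l : Cycle (Option L)) = (l.reduceOption : Cycle L) :=
  rfl

/-- Number of letters in a block. -/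
def cnt (U : List (Option L)) : ℕ := U.reduceOption.length

/-- The move of the chord `a` along the cut `A` at the vertex level. -/
def VMov (v : Vx) (a : L) (A : Finset (Option L)) (m n : ℕ) (v' : Vx) : Prop :=
  ∃ X1 X2 Y1 Y2 : List (Option L),
    v.o = ↑(some a :: X1 ++ X2 ++ some (bar a) :: Y1 ++ Y2) ∧
    (∀ x, x ∈ A ↔ x = some a ∨ x ∈ X1 ∨ x ∈ Y2) ∧ m = cnt Y2 ∧ n = cnt X1 ∧
    v'.β = wh a A * v.β ∧ v'.o = ↑(some a :: X2 ++ X1 ++ some (bar a) :: Y2 ++ Y1)

/-- Relabelling of a vertex. -/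
def vact (π : W) (v : Vx) : Vx := ⟨relA π * v.β, v.o.map (Option.map π.1)⟩

/-- Relabelling of a set of directions. -/
def aact (π : W) (A : Finset (Option L)) : Finset (Option L) := A.image (Option.map π.1)

/-- The crossing set of the element `u` with the wall of `A`. -/
def cr (u : F) (A : Finset (Option L)) : Set F := {g | ¬ (fl g ∈ A ↔ fl (g * u) ∈ A)}

/-- Energy of a set of directions. -/
noncomputable def en (β : MulAut F) (A : Finset (Option L)) : ℕ :=
  ∑ i : X, (cr (β (FreeGroup.of i)) A).ncard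

/-- Energy of a vertex. -/
noncomputable def En (β : MulAut F) : ℕ := ∑ l : L, en β {some l}

/-- States: a vertex and a point. -/
@[ext] structure St (E : Type) where
  v : Vx
  e : E

section states
variable {E : Type} (S : SlideSys E)

def Ok (s : St E) : Prop := Good s.v ∧ S.w s.e = red s.v.o

def Mov (s : St E) (a : L) (A : Finset (Option L)) (s' : St E) : Prop :=
  ∃ m n, VMov s.v a A m n s'.v ∧ s'.e = S.Mv a m n s.e

def sact (π : W) (s : St E) : St E := ⟨vact π s.v, S.rl π s.e⟩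

def Adj (s s' : St E) : Prop := ∃ a A π s'', Mov S s a A s'' ∧ s' = sact S π s''

def Rch (s s' : St E) : Prop := Relation.ReflTransGen (Adj S) s s'

end states

/-- The letters `a_i`, `b_i` and their inverses. -/
def la (i : Fin 4) : L := (Sum.inl i, true)
def lb (i : Fin 4) : L := (Sum.inr i, true)
def lA (i : Fin 4) : L := (Sum.inl i, false)
def lB (i : Fin 4) : L := (Sum.inr i, false)

/-- The Whitehead cycle of `r3`, read from the symbol `none`. -/
def w0L : List L :=
  [lb 3, lA 3, lB 3, la 3, lb 2, lA 2, lB 2, la 2, lb 1, lA 1, lB 1, la 1,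
    lb 0, lA 0, lB 0, la 0]

def w0 : Cycle L := (w0L : Cycle L)

def o0 : Cycle (Option L) := ((none :: w0L.map some : List (Option L)) : Cycle (Option L))

def v0 : Vx := ⟨1, o0⟩

/-- The stabiliser of the conjugacy class of `r3`. -/
def G3 : Subgroup (MulAut F) where
  carrier := {γ | IsConj (γ r3) r3}
  mul_mem' := fun {a b} ha hb => by
    have h : IsConj (a (b r3)) (a r3) := a.toMonoidHom.map_isConj hb
    exact h.trans ha
  one_mem' := IsConj.refl _
  inv_mem' := fun {a} ha => by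
    have h : IsConj (a⁻¹ (a r3)) (a⁻¹ r3) := (a⁻¹).toMonoidHom.map_isConj ha
    have h2 : a⁻¹ (a r3) = r3 := MulAut.inv_apply_self F a r3
    rw [h2] at h
    exact h.symm

/-- Explicit paths of slides from the standard word: accumulated automorphism, accumulated
permutation, current cyclic word. -/
inductive Path {E : Type} (S : SlideSys E) : MulAut F → Equiv.Perm E → Cycle L → Prop
  | refl : Path S 1 1 w0
  | fwd (γ : MulAut F) (P : Equiv.Perm E) (a t : L) (U V : List L) :
      Path S γ P ↑(a :: t :: U ++ bar a :: V) →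
      Path S (sl a t * γ) (S.R a * P) ↑(a :: U ++ t :: bar a :: V)
  | bwd (γ : MulAut F) (P : Equiv.Perm E) (a t : L) (U V : List L) :
      Path S γ P ↑(a :: U ++ t :: bar a :: V) →
      Path S ((sl a t)⁻¹ * γ) ((S.R a)⁻¹ * P) ↑(a :: t :: U ++ bar a :: V)
  | rel (γ : MulAut F) (P : Equiv.Perm E) (c : Cycle L) (π : W) :
      Path S γ P c → Path S (relA π * γ) (S.rl π * P) (c.map π.1)

end Pool.Agent.MP_61a8e3_al.G4.A

end

section

/-!
Bridge from rooted tables to slide systems: definitions.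

A rooted table is a type `Xc` with a canonical labelled word `cw x` for each point and two
permutations: `T` (slide at the root) and `ρ` (move the root to the next letter).
-/

set_option autoImplicit false

namespace Pool.Agent.MP_61a8e3_al.G4.A

/-- Slide at the root: `a t U ā V ↦ a U t ā V`. -/
def slide : List L → List L
  | a :: t :: U => a :: (U.takeWhile (fun l => l != bar a) ++ t :: U.dropWhile (fun l => l != bar a))
  | u => u

/-- Inverse slide at the root: `a U t ā V ↦ a t U ā V`. -/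
def unslide : List L → List L
  | a :: U => match (U.takeWhile (fun l => l != bar a)).reverse with
    | t :: M => a :: t :: (M.reverse ++ U.dropWhile (fun l => l != bar a))
    | [] => a :: U
  | [] => []

/-- One signed slide at the root. -/
def sslide (s : Bool) (u : List L) : List L := if s then slide u else unslide u

/-- Simulation of signed slides at the letters `bs`, then moving the root to `f`: the final word. -/
def simW : List L → List (L × Bool) → L → List L
  | u, [], f => u.rotate (u.idxOf f)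
  | u, b :: bs, f => simW (sslide b.2 (u.rotate (u.idxOf b.1))) bs f

/-- The same simulation: the program (rotation exponents with signs, final exponent). -/
def simP : List L → List (L × Bool) → L → List (ℕ × Bool) × ℕ
  | u, [], f => ([], u.idxOf f)
  | u, b :: bs, f =>
    ((u.idxOf b.1, b.2) :: (simP (sslide b.2 (u.rotate (u.idxOf b.1))) bs f).1,
      (simP (sslide b.2 (u.rotate (u.idxOf b.1))) bs f).2)

/-- The letter moved by a signed slide at the root. -/
def mover (s : Bool) (u : List L) : L :=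
  (if s then u else unslide u).getD 1 (la 0)

/-- The same simulation: the automorphism. -/
def simA : List L → List (L × Bool) → MulAut F
  | _, [] => 1
  | u, b :: bs =>
    simA (sslide b.2 (u.rotate (u.idxOf b.1))) bs *
      (if b.2 then sl b.1 (mover b.2 (u.rotate (u.idxOf b.1)))
        else (sl b.1 (mover b.2 (u.rotate (u.idxOf b.1))))⁻¹)

/-- Running a program. -/
def run {Xc : Type} (T ρ : Equiv.Perm Xc) : List (ℕ × Bool) → ℕ → Xc → Xc
  | [], k, x => (ρ ^ k) x
  | j :: js, k, x => run T ρ js k ((if j.2 then T else T⁻¹) ((ρ ^ j.1) x))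

/-- The relabelling in the triangle cell. -/
def triF (a b l : L) : L :=
  if l = b then a else if l = a then bar b else if l = bar b then bar a else
    if l = bar a then b else l

/-- The successor of `b` in the cyclic word `u`. -/
def succL (u : List L) (b : L) : L := (u.rotate (u.idxOf b)).getD 1 b

/-- Forward slides. -/
def fw (bs : List L) : List (L × Bool) := bs.map (fun b => (b, true))

/-- The cells at a rooted word, except the triangle: pairs of letter sequences (applied from left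
to right); both sides end with the root at the old root letter. -/
def cells : List L → List (List L × List L)
  | a :: t :: U =>
    ((t :: U).take 8).filterMap (fun b =>
      if t ≠ b ∧ t ≠ bar b ∧ succL (a :: t :: U) b ≠ a ∧ succL (a :: t :: U) b ≠ bar a then
        some ([b, a], [a, b]) else none) ++
    (if succL (a :: t :: U) t ≠ bar a then [([a, a, t], [t, a])] else []) ++
    (if succL (a :: t :: U) (bar t) ≠ a ∧ succL (a :: t :: U) (bar t) ≠ bar a then
      [([bar t, a, a], [a, bar t])] else []) ++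
    (if (a :: t :: U).idxOf (bar a) ≤ 8 then
      [(List.replicate ((a :: t :: U).idxOf (bar a) - 1) a,
        List.replicate (15 - (a :: t :: U).idxOf (bar a)) (bar a))] else [])
  | _ => []

/-- All pairs of programs that have to agree at a rooted word. -/
def progs : List L → List ((List (ℕ × Bool) × ℕ) × (List (ℕ × Bool) × ℕ))
  | a :: t :: U =>
    (simP (a :: t :: U) (fw [a, t, bar a]) (bar t), ([], 0)) ::
      (cells (a :: t :: U)).map (fun c =>
        (simP (a :: t :: U) (fw c.1) a, simP (a :: t :: U) (fw c.2) a))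
  | _ => []

/-- The sixteen letters. -/
def allL : List L :=
  [la 0, lA 0, lb 0, lB 0, la 1, lA 1, lb 1, lB 1, la 2, lA 2, lb 2, lB 2,
    la 3, lA 3, lb 3, lB 3]

/-- The checks on a rooted word alone. -/
def okShape : List L → Bool
  | a :: t :: U =>
    ((a :: t :: U).length == 16) && allL.all (fun l => (a :: t :: U).contains l) &&
    (t != bar a) &&
    (simW (a :: t :: U) (fw [a, t, bar a]) (bar t) == (a :: t :: U).map (triF a t)) &&
    (cells (a :: t :: U)).all (fun c =>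
      simW (a :: t :: U) (fw c.1) a == simW (a :: t :: U) (fw c.2) a)
  | _ => false

/-- The unlabelled shape of a word: position of the inverse of each letter. -/
def shape (u : List L) : List ℕ := u.map (fun l => u.idxOf (bar l))

/-- A rooted table satisfying all cells. -/
structure Tab (Xc : Type) where
  cw : Xc → List L
  T : Equiv.Perm Xc
  ρ : Equiv.Perm Xc
  ok : ∀ x, okShape (cw x) = true
  sh_T : ∀ x, shape (cw (T x)) = shape (slide (cw x))
  sh_ρ : ∀ x, shape (cw (ρ x)) = shape ((cw x).rotate 1)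
  ρ16 : ∀ x, (ρ ^ 16) x = x
  cell : ∀ x, ∀ p ∈ progs (cw x), run T ρ p.1.1 p.1.2 x = run T ρ p.2.1 p.2.2 x

end Pool.Agent.MP_61a8e3_al.G4.A

end

section

set_option autoImplicit false

namespace Pool.Agent.MP_61a8e3_al.G4.A

variable {α β γ : Type}

theorem cyc_rot (U V : List α) : ((U ++ V : List α) : Cycle α) = ↑(V ++ U) := by
  exact Cycle.coe_eq_coe.2 List.isRotated_append

theorem cyc_of_eq {l l' : List α} (U V : List α) (h : l = U ++ V) (h' : l' = V ++ U) :
    (l : Cycle α) = ↑l' := by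
  rw [h, h', cyc_rot]

theorem ACyc_rot {l l' : List α} (h : (l : Cycle α) = ↑l') :
    ∃ U V, l = U ++ V ∧ l' = V ++ U := by
  obtain ⟨n, hn, rfl⟩ := List.isRotated_iff_mod.1 (Cycle.coe_eq_coe.1 h)
  exact ⟨l.take n, l.drop n, (List.take_append_drop n l).symm, List.rotate_eq_drop_append_take hn⟩

theorem ACyc_rep (c : Cycle α) : ∃ l : List α, c = ↑l :=
  Quotient.inductionOn' c fun l => ⟨l, rfl⟩

theorem cyc_head_inj {a : α} {U V : List α} (hn : (a :: U).Nodup)
    (h : ((a :: U : List α) : Cycle α) = ↑(a :: V)) : U = V := by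
  obtain ⟨P, Q, h1, h2⟩ := ACyc_rot h
  rcases P with _ | ⟨p, P⟩
  · simp only [List.nil_append, List.append_nil] at h1 h2
    exact List.tail_eq_of_cons_eq (h1.trans h2.symm)
  rcases Q with _ | ⟨q, Q⟩
  · simp only [List.nil_append, List.append_nil] at h1 h2
    exact List.tail_eq_of_cons_eq (h1.trans h2.symm)
  simp only [List.cons_append, List.cons.injEq] at h1 h2
  obtain ⟨rfl, rfl⟩ := h1
  obtain ⟨rfl, rfl⟩ := h2
  simp at hn

theorem exists_head {c : Cycle α} {a : α} (h : a ∈ c) : ∃ U : List α, c = ↑(a :: U) := by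
  obtain ⟨l, rfl⟩ := ACyc_rep c
  obtain ⟨s, t, rfl⟩ := List.append_of_mem (Cycle.mem_coe_iff.1 h)
  exact ⟨t ++ s, cyc_rot s (a :: t)⟩

theorem exists_split {c : Cycle α} {a b : α} (ha : a ∈ c) (hb : b ∈ c) (hab : a ≠ b) :
    ∃ U V : List α, c = ↑(a :: U ++ b :: V) := by
  obtain ⟨T, rfl⟩ := exists_head ha
  have h : b ∈ T := (List.mem_cons.1 (Cycle.mem_coe_iff.1 hb)).resolve_left hab.symm
  obtain ⟨s, t, rfl⟩ := List.append_of_mem h
  exact ⟨s, t, rfl⟩

theorem split_inj {b : α} {U V U' V' : List α} (hb : b ∉ U) (hb' : b ∉ U')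
    (h : U ++ b :: V = U' ++ b :: V') : U = U' ∧ V = V' := by
  induction U generalizing U' with
  | nil =>
    rcases U' with _ | ⟨u, U'⟩
    · simpa using h
    · simp only [List.nil_append, List.cons_append, List.cons.injEq] at h
      exact absurd (h.1 ▸ List.mem_cons_self) hb'
  | cons u U ih =>
    rcases U' with _ | ⟨u', U'⟩
    · simp only [List.nil_append, List.cons_append, List.cons.injEq] at h
      exact absurd (h.1 ▸ List.mem_cons_self) hb
    · simp only [List.cons_append, List.cons.injEq] at h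
      obtain ⟨h1, h2⟩ := ih (fun hh => hb (List.mem_cons_of_mem _ hh))
        (fun hh => hb' (List.mem_cons_of_mem _ hh)) h.2
      exact ⟨by rw [h.1, h1], h2⟩

theorem Nx_of_mid {c : Cycle α} {p q : α} (U V : List α) (h : c = ↑(U ++ p :: q :: V)) :
    Nx c p q := by
  exact ⟨V ++ U, h.trans (cyc_rot U (p :: q :: V))⟩

theorem Nx_wrap {c : Cycle α} {p q : α} (U : List α) (h : c = ↑(q :: U ++ [p])) : Nx c p q := by
  exact ⟨U, h.trans (cyc_rot (q :: U) [p])⟩

theorem Nx_cases {l : List α} {p q : α} (h : Nx (l : Cycle α) p q) :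
    (∃ U V, l = U ++ p :: q :: V) ∨ (∃ U, l = q :: U ++ [p]) := by
  obtain ⟨T, hT⟩ := h
  obtain ⟨P, Q, rfl, h2⟩ := ACyc_rot hT
  rcases Q with _ | ⟨x, _ | ⟨y, Q⟩⟩
  · exact Or.inl ⟨[], T, by simpa using h2.symm⟩
  · simp only [List.cons_append, List.nil_append, List.cons.injEq] at h2
    obtain ⟨rfl, rfl⟩ := h2
    exact Or.inr ⟨T, rfl⟩
  · simp only [List.cons_append, List.cons.injEq] at h2
    obtain ⟨rfl, rfl, rfl⟩ := h2
    exact Or.inl ⟨P, Q, rfl⟩

theorem Nx_unique {c : Cycle α} (hn : c.Nodup) {p q q' : α} (h : Nx c p q) (h' : Nx c p q') :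
    q = q' := by
  obtain ⟨U, rfl⟩ := h
  obtain ⟨U', h'⟩ := h'
  exact List.head_eq_of_cons_eq (cyc_head_inj (Cycle.nodup_coe_iff.1 hn) h')

theorem Nx_unique_left {c : Cycle α} (hn : c.Nodup) {p p' q : α} (h : Nx c p q)
    (h' : Nx c p' q) : p = p' := by
  obtain ⟨U, h⟩ := h
  obtain ⟨U', h'⟩ := h'
  have e : c = ↑(q :: (U ++ [p])) := h.trans (cyc_rot [p] (q :: U))
  have e' : c = ↑(q :: (U' ++ [p'])) := h'.trans (cyc_rot [p'] (q :: U'))
  rw [e] at hn e'
  have := List.append_inj_right' (cyc_head_inj (Cycle.nodup_coe_iff.1 hn) e') rfl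
  exact List.head_eq_of_cons_eq this

theorem Nx_ne {c : Cycle α} (hn : c.Nodup) {p q : α} (h : Nx c p q) : p ≠ q := by
  obtain ⟨U, rfl⟩ := h
  rintro rfl
  simpa using Cycle.nodup_coe_iff.1 hn

theorem Nx_exists {c : Cycle α} {a b : α} (ha : a ∈ c) (hb : b ∈ c) (hab : a ≠ b) :
    ∃ q, Nx c a q := by
  obtain ⟨U, V, h⟩ := exists_split ha hb hab
  rcases U with _ | ⟨q, U⟩
  · exact ⟨b, V, h⟩
  · exact ⟨q, U ++ b :: V, h⟩

theorem Nx_exists_left {c : Cycle α} {a b : α} (ha : a ∈ c) (hb : b ∈ c) (hab : a ≠ b) :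
    ∃ p, Nx c p a := by
  obtain ⟨U, V, h⟩ := exists_split hb ha hab.symm
  rcases List.eq_nil_or_concat' U with rfl | ⟨U, p, rfl⟩
  · exact ⟨b, V, h⟩
  · exact ⟨p, Nx_of_mid (b :: U) V (by simpa using h)⟩

theorem Nx_map (f : α → β) {c : Cycle α} {p q : α} (h : Nx c p q) :
    Nx (c.map f) (f p) (f q) := by
  obtain ⟨U, rfl⟩ := h
  exact ⟨U.map f, rfl⟩

theorem Nx_of_map (f : α → β) {c : Cycle α} {p' q' : β} (h : Nx (c.map f) p' q') :
    ∃ p q, Nx c p q ∧ f p = p' ∧ f q = q' := by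
  obtain ⟨l, rfl⟩ := ACyc_rep c
  rw [Cycle.map_coe] at h
  rcases Nx_cases h with ⟨U, V, h⟩ | ⟨U, h⟩
  · obtain ⟨l1, l2, rfl, -, h2⟩ := List.map_eq_append_iff.1 h
    obtain ⟨p, l3, rfl, hp, h3⟩ := List.map_eq_cons_iff.1 h2
    obtain ⟨q, l4, rfl, hq, -⟩ := List.map_eq_cons_iff.1 h3
    exact ⟨p, q, Nx_of_mid l1 l4 rfl, hp, hq⟩
  · obtain ⟨l1, l2, rfl, h1, h2⟩ := List.map_eq_append_iff.1 h
    obtain ⟨p, l3, rfl, hp, h3⟩ := List.map_eq_cons_iff.1 h2
    obtain ⟨q, l4, rfl, hq, -⟩ := List.map_eq_cons_iff.1 h1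
    obtain rfl := List.map_eq_nil_iff.1 h3
    exact ⟨p, q, Nx_wrap l4 rfl, hp, hq⟩

/-- A block that avoids `x` lies on one side of `x`. -/
theorem block_side {l U V : List α} {x : α} (h : l <:+: U ++ x :: V) (hx : x ∉ l) :
    l <:+: U ∨ l <:+: V := by
  obtain ⟨s, t, h⟩ := h
  rw [List.append_assoc] at h
  rcases List.append_eq_append_iff.1 h with ⟨a, rfl, h1⟩ | ⟨c, rfl, h1⟩
  · rcases List.append_eq_append_iff.1 h1 with ⟨a', rfl, -⟩ | ⟨c', rfl, h2⟩
    · exact Or.inl ⟨s, a', List.append_assoc _ _ _⟩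
    · rcases c' with _ | ⟨y, c'⟩
      · exact Or.inl ⟨s, [], by simp⟩
      · obtain rfl := List.head_eq_of_cons_eq h2
        exact absurd (by simp) hx
  · rcases c with _ | ⟨y, c⟩
    · rcases l with _ | ⟨y, l⟩
      · exact Or.inl ⟨[], U, rfl⟩
      · obtain rfl := List.head_eq_of_cons_eq h1
        exact absurd (by simp) hx
    · exact Or.inr ⟨c, t, by rw [List.append_assoc]; exact (List.tail_eq_of_cons_eq h1).symm⟩

/-- Values along a block: `G` of each entry is `vl` of the previous one; `u` comes in, `v` goes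
out. -/
def Blk (G vl : α → β) (U : List α) (u v : β) : Prop := U.map G ++ [v] = u :: U.map vl

theorem Blk_nil (G vl : α → β) (u v : β) : Blk G vl [] u v ↔ u = v := by
  simp [Blk, eq_comm]

theorem Blk_cons (G vl : α → β) (a : α) (U : List α) (u v : β) :
    Blk G vl (a :: U) u v ↔ G a = u ∧ Blk G vl U (vl a) v := by
  simp [Blk]

theorem Blk_append (G vl : α → β) (U V : List α) (u v : β) :
    Blk G vl (U ++ V) u v ↔ ∃ m, Blk G vl U u m ∧ Blk G vl V m v := by
  induction U generalizing u with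
  | nil => simp [Blk_nil]
  | cons a U ih =>
    simp only [List.cons_append, Blk_cons, ih]
    constructor
    · rintro ⟨h, m, h1, h2⟩
      exact ⟨m, ⟨h, h1⟩, h2⟩
    · rintro ⟨m, ⟨h, h1⟩, h2⟩
      exact ⟨h, m, h1, h2⟩

theorem Blk_map {G vl : α → β} {G' vl' : α → γ} (φ : β → γ) {U : List α} {u v : β}
    (h : ∀ x ∈ U, G' x = φ (G x) ∧ vl' x = φ (vl x)) (hb : Blk G vl U u v) :
    Blk G' vl' U (φ u) (φ v) := by
  induction U generalizing u with
  | nil =>
    rw [Blk_nil] at hb ⊢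
    rw [hb]
  | cons a U ih =>
    rw [Blk_cons] at hb ⊢
    obtain ⟨h1, h2⟩ := h a List.mem_cons_self
    rw [h1, h2, hb.1]
    exact ⟨rfl, ih (fun x hx => h x (List.mem_cons_of_mem _ hx)) hb.2⟩

theorem ACyc_blk (G vl : α → β) (p : α) (T : List α) (a : α)
    (h : ∀ U x y V, a :: (T ++ [p]) = U ++ x :: y :: V → G y = vl x) :
    Blk G vl (T ++ [p]) (vl a) (vl p) := by
  induction T generalizing a with
  | nil => exact (Blk_cons _ _ _ _ _ _).2 ⟨h [] a p [] rfl, (Blk_nil _ _ _ _).2 rfl⟩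
  | cons b T ih =>
    refine (Blk_cons _ _ _ _ _ _).2 ⟨h [] a b (T ++ [p]) rfl, ih b fun U x y V e => ?_⟩
    exact h (a :: U) x y V (by rw [List.cons_append, e]; rfl)

theorem Blk_iff_Nx (G vl : α → β) {l : List α} (hl : 2 ≤ l.length) :
    (∃ u, Blk G vl l u u) ↔ ∀ p q, Nx (l : Cycle α) p q → G q = vl p := by
  constructor
  · rintro ⟨u, hu⟩ p q h
    rcases Nx_cases h with ⟨U, V, rfl⟩ | ⟨U, rfl⟩
    · obtain ⟨m, -, h2⟩ := (Blk_append _ _ _ _ _ _).1 hu
      exact ((Blk_cons _ _ _ _ _ _).1 ((Blk_cons _ _ _ _ _ _).1 h2).2).1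
    · obtain ⟨m, h1, h2⟩ := (Blk_append _ _ _ _ _ _).1 hu
      rw [((Blk_cons _ _ _ _ _ _).1 h1).1]
      exact ((Blk_nil _ _ _ _).1 ((Blk_cons _ _ _ _ _ _).1 h2).2).symm
  · intro h
    rcases l with _ | ⟨a, T⟩
    · simp at hl
    rcases List.eq_nil_or_concat' T with rfl | ⟨T, p, rfl⟩
    · simp at hl
    refine ⟨vl p, (Blk_cons _ _ _ _ _ _).2 ⟨h p a (Nx_wrap T rfl), ACyc_blk G vl p T a ?_⟩⟩
    intro U x y V e
    exact h x y (Nx_of_mid U V (by rw [e]))

theorem IsCut.compl [Fintype α] [DecidableEq α] {c : Cycle α} (hn : c.Nodup) (hf : ∀ x, x ∈ c)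
    {A : Finset α} (h : IsCut c A) : IsCut c Aᶜ := by
  obtain ⟨I, J, rfl, h⟩ := h
  refine ⟨J, I, cyc_rot I J, fun x => ?_⟩
  have h1 := List.mem_append.1 (Cycle.mem_coe_iff.1 (hf x))
  have h2 := List.disjoint_of_nodup_append (Cycle.nodup_coe_iff.1 hn)
  rw [Finset.mem_compl, h]
  exact ⟨h1.resolve_left, fun hJ hI => h2 hI hJ⟩

theorem ACyc_cut_block {x : α} {T : List α} (hn : (x :: T).Nodup) {A : Finset α}
    (hA : IsCut ((x :: T : List α) : Cycle α) A) (hx : x ∉ A) :
    ∃ P I Q, T = P ++ (I ++ Q) ∧ ∀ y, y ∈ A ↔ y ∈ I := by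
  obtain ⟨I, J, e, h⟩ := hA
  have h1 : x ∈ ((I ++ J : List α) : Cycle α) := e ▸ Cycle.mem_coe_iff.2 List.mem_cons_self
  have h2 : x ∈ J :=
    (List.mem_append.1 (Cycle.mem_coe_iff.1 h1)).resolve_left fun hh => hx ((h x).2 hh)
  obtain ⟨Q, P, rfl⟩ := List.append_of_mem h2
  refine ⟨P, I, Q, cyc_head_inj hn (e.trans ?_), h⟩
  exact cyc_of_eq (I ++ Q) (x :: P) (List.append_assoc _ _ _).symm rfl

theorem ACyc_two_blocks {I Q a J Q' : List α} (hn : (I ++ Q).Nodup)
    (h : I ++ Q = a ++ (J ++ Q')) :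
    ∃ R K S, I ++ Q = R ++ (K ++ S) ∧ ∀ y, y ∈ K ↔ y ∈ I ∧ y ∈ J := by
  have hd := List.disjoint_of_nodup_append hn
  rcases List.append_eq_append_iff.1 h with ⟨a', rfl, rfl⟩ | ⟨I2, rfl, h1⟩
  · refine ⟨[], [], _, rfl, fun y => ⟨fun hy => absurd hy List.not_mem_nil, fun hy => ?_⟩⟩
    exact (hd hy.1 (by simp [hy.2])).elim
  · rcases List.append_eq_append_iff.1 h1 with ⟨I3, rfl, rfl⟩ | ⟨J2, rfl, rfl⟩
    · exact ⟨a, J, I3 ++ Q, by simp, fun y => ⟨fun hy => ⟨by simp [hy], hy⟩, fun hy => hy.2⟩⟩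
    · refine ⟨a, I2, J2 ++ Q', by simp, fun y => ⟨fun hy => ⟨by simp [hy], by simp [hy]⟩, ?_⟩⟩
      rintro ⟨h1, h2⟩
      rcases List.mem_append.1 h2 with h2 | h2
      · exact h2
      · exact (hd h1 (by simp [h2])).elim

theorem IsCut.inter [DecidableEq α] {c : Cycle α} (hn : c.Nodup) {A B : Finset α}
    (hA : IsCut c A) (hB : IsCut c B) {x : α} (hx : x ∈ c) (hxA : x ∉ A) (hxB : x ∉ B) :
    IsCut c (A ∩ B) := by
  obtain ⟨T, rfl⟩ := exists_head hx
  have hn' := Cycle.nodup_coe_iff.1 hn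
  obtain ⟨P, I, Q, e, hI⟩ := ACyc_cut_block hn' hA hxA
  obtain ⟨P', J, Q', e', hJ⟩ := ACyc_cut_block hn' hB hxB
  have hT : T.Nodup := hn'.of_cons
  have key : ∃ R K S, T = R ++ (K ++ S) ∧ ∀ y, y ∈ K ↔ y ∈ I ∧ y ∈ J := by
    rcases List.append_eq_append_iff.1 (e.symm.trans e') with ⟨a, rfl, h1⟩ | ⟨a, rfl, h1⟩
    · obtain ⟨R, K, S, h2, h3⟩ :=
        ACyc_two_blocks (List.Nodup.of_append_right (e ▸ hT : (P ++ (I ++ Q)).Nodup)) h1
      exact ⟨P ++ R, K, S, by rw [e, h2, List.append_assoc], h3⟩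
    · obtain ⟨R, K, S, h2, h3⟩ :=
        ACyc_two_blocks (List.Nodup.of_append_right (e' ▸ hT : (P' ++ (J ++ Q')).Nodup)) h1
      exact ⟨P' ++ R, K, S, by rw [e', h2, List.append_assoc], fun y => (h3 y).trans and_comm⟩
  obtain ⟨R, K, S, rfl, hK⟩ := key
  refine ⟨K, S ++ x :: R, cyc_of_eq (x :: R) (K ++ S) rfl (List.append_assoc _ _ _).symm,
    fun y => ?_⟩
  rw [Finset.mem_inter, hI, hJ, hK]

/-- A path with at most one colour change splits into two monochromatic pieces. -/
theorem path_split (P : α → Prop) {Q : List α} (hn : Q.Nodup)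
    (h : ∀ U p q V U' p' q' V', Q = U ++ p :: q :: V → ¬ (P p ↔ P q) →
      Q = U' ++ p' :: q' :: V' → ¬ (P p' ↔ P q') → q = q') :
    ∃ Q1 Q2, Q = Q1 ++ Q2 ∧ (∀ x ∈ Q1, ∀ y ∈ Q1, (P x ↔ P y)) ∧
      (∀ x ∈ Q2, ∀ y ∈ Q2, (P x ↔ P y)) := by
  induction Q with
  | nil => exact ⟨[], [], rfl, by simp, by simp⟩
  | cons a Q ih =>
    have hs : ∀ x ∈ [a], ∀ y ∈ [a], (P x ↔ P y) := by
      intro x hx y hy
      rw [List.mem_singleton.1 hx, List.mem_singleton.1 hy]
    obtain ⟨Q1, Q2, rfl, h1, h2⟩ := ih hn.of_cons fun U p q V U' p' q' V' e c e' c' =>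
      h (a :: U) p q V (a :: U') p' q' V' (by rw [e]; rfl) c (by rw [e']; rfl) c'
    rcases Q1 with _ | ⟨b, Q1⟩
    · exact ⟨[a], Q2, rfl, hs, h2⟩
    by_cases hab : P a ↔ P b
    · refine ⟨a :: b :: Q1, Q2, rfl, ?_, h2⟩
      have h3 : ∀ x ∈ a :: b :: Q1, (P x ↔ P b) := by
        intro x hx
        rcases List.mem_cons.1 hx with rfl | hx
        · exact hab
        · exact h1 x hx b List.mem_cons_self
      exact fun x hx y hy => (h3 x hx).trans (h3 y hy).symm
    rcases Q2 with _ | ⟨d, Q2⟩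
    · exact ⟨[a], b :: Q1, by simp, hs, h1⟩
    obtain ⟨Q3, e, he⟩ : ∃ Q3 e, b :: Q1 = Q3 ++ [e] :=
      (List.eq_nil_or_concat' (b :: Q1)).resolve_left (List.cons_ne_nil _ _)
    have hem : e ∈ b :: Q1 := by rw [he]; simp
    by_cases hed : P e ↔ P d
    · refine ⟨[a], b :: Q1 ++ d :: Q2, rfl, hs, ?_⟩
      have h3 : ∀ x ∈ b :: Q1 ++ d :: Q2, (P x ↔ P d) := by
        intro x hx
        rcases List.mem_append.1 hx with hx | hx
        · exact (h1 x hx e hem).trans hed
        · exact h2 x hx d List.mem_cons_self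
      exact fun x hx y hy => (h3 x hx).trans (h3 y hy).symm
    · obtain rfl := h [] a b (Q1 ++ d :: Q2) (a :: Q3) e d Q2 rfl hab (by rw [he]; simp) hed
      exact (List.disjoint_of_nodup_append hn.of_cons List.mem_cons_self List.mem_cons_self).elim

theorem cut_of_two {c : Cycle α} (hn : c.Nodup) {A : Finset α} (hA : ∀ x ∈ A, x ∈ c)
    (h : ∀ p q p' q' p'' q'', Nx c p q → ¬ (p ∈ A ↔ q ∈ A) → Nx c p' q' → ¬ (p' ∈ A ↔ q' ∈ A) →
      Nx c p'' q'' → ¬ (p'' ∈ A ↔ q'' ∈ A) → q = q' ∨ q = q'' ∨ q' = q'') : IsCut c A := by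
  have key : ∃ l : List α, c = ↑l ∧ ∀ U p q V U' p' q' V', l = U ++ p :: q :: V →
      ¬ (p ∈ A ↔ q ∈ A) → l = U' ++ p' :: q' :: V' → ¬ (p' ∈ A ↔ q' ∈ A) → q = q' := by
    by_cases hc : ∃ p q, Nx c p q ∧ ¬ (p ∈ A ↔ q ∈ A)
    · obtain ⟨p, q, ⟨T, hT⟩, hpq⟩ := hc
      have e : c = ↑(q :: T ++ [p]) := hT.trans (cyc_rot [p] (q :: T))
      have hn' : (q :: T ++ [p]).Nodup := Cycle.nodup_coe_iff.1 (e ▸ hn)
      have hq : ∀ U p' V, q :: T ++ [p] ≠ U ++ p' :: q :: V := by
        intro U p' V e'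
        have h1 : q ∉ T ++ [p] := (List.nodup_cons.1 hn').1
        rcases U with _ | ⟨u, U⟩
        · have e2 : T ++ [p] = q :: V := List.tail_eq_of_cons_eq e'
          exact h1 (by rw [e2]; simp)
        · have e2 : T ++ [p] = U ++ p' :: q :: V := List.tail_eq_of_cons_eq e'
          exact h1 (by rw [e2]; simp)
      refine ⟨_, e, fun U p1 q1 V U' p2 q2 V' e1 c1 e2 c2 => ?_⟩
      rcases h p q p1 q1 p2 q2 ⟨T, hT⟩ hpq (Nx_of_mid U V (by rw [e, e1])) c1
        (Nx_of_mid U' V' (by rw [e, e2])) c2 with rfl | rfl | h3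
      · exact absurd e1 (hq _ _ _)
      · exact absurd e2 (hq _ _ _)
      · exact h3
    · obtain ⟨l, rfl⟩ := ACyc_rep c
      refine ⟨l, rfl, fun U p q V U' p' q' V' e1 c1 _ _ => ?_⟩
      exact absurd ⟨p, q, Nx_of_mid U V (by rw [e1]), c1⟩ hc
  obtain ⟨l, rfl, hl⟩ := key
  obtain ⟨Q1, Q2, rfl, h1, h2⟩ := path_split (fun x => x ∈ A) (Cycle.nodup_coe_iff.1 hn) hl
  have hm : ∀ x ∈ A, x ∈ Q1 ∨ x ∈ Q2 := fun x hx =>
    List.mem_append.1 (Cycle.mem_coe_iff.1 (hA x hx))
  by_cases c1 : ∃ x ∈ Q1, x ∈ A <;> by_cases c2 : ∃ x ∈ Q2, x ∈ A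
  · obtain ⟨x, hx, hxA⟩ := c1
    obtain ⟨y, hy, hyA⟩ := c2
    refine ⟨Q1 ++ Q2, [], by rw [List.append_nil], fun z => ⟨fun hz => List.mem_append.2 (hm z hz),
      fun hz => ?_⟩⟩
    rcases List.mem_append.1 hz with hz | hz
    · exact (h1 x hx z hz).1 hxA
    · exact (h2 y hy z hz).1 hyA
  · obtain ⟨x, hx, hxA⟩ := c1
    exact ⟨Q1, Q2, rfl, fun z => ⟨fun hz => (hm z hz).resolve_right fun h' => c2 ⟨z, h', hz⟩,
      fun hz => (h1 x hx z hz).1 hxA⟩⟩
  · obtain ⟨y, hy, hyA⟩ := c2
    exact ⟨Q2, Q1, cyc_rot _ _, fun z => ⟨fun hz => (hm z hz).resolve_left fun h' => c1 ⟨z, h', hz⟩,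
      fun hz => (h2 y hy z hz).1 hyA⟩⟩
  · refine ⟨[], Q1 ++ Q2, rfl, fun z => ⟨fun hz => ?_, fun hz => absurd hz List.not_mem_nil⟩⟩
    rcases hm z hz with h' | h'
    · exact absurd ⟨z, h', hz⟩ c1
    · exact absurd ⟨z, h', hz⟩ c2

theorem cyc_ext {c c' : Cycle α} (hn : c.Nodup) (hn' : c'.Nodup) (hm : ∀ x, x ∈ c ↔ x ∈ c')
    (h : ∀ p q, Nx c p q → Nx c' p q) : c = c' := by
  have step : ∀ (U V P : List α) (a : α), c = ↑(P ++ a :: U) → c' = ↑(P ++ a :: V) →
      U.length = V.length → U = V := by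
    intro U
    induction U with
    | nil => exact fun V _ _ _ _ hl => (List.length_eq_zero_iff.1 hl.symm).symm
    | cons u U ih =>
      intro V P a e e' hl
      rcases V with _ | ⟨v, V⟩
      · simp at hl
      obtain rfl : u = v := Nx_unique hn' (h a u (Nx_of_mid P U e)) (Nx_of_mid P V e')
      rw [ih V (P ++ [a]) u (by simpa using e) (by simpa using e') (by simpa using hl)]
  obtain ⟨l, hl⟩ := ACyc_rep c
  rcases l with _ | ⟨a, U⟩
  · obtain ⟨l', rfl⟩ := ACyc_rep c'
    rcases l' with _ | ⟨a, V⟩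
    · exact hl
    · have := (hm a).2 (Cycle.mem_coe_iff.2 List.mem_cons_self)
      rw [hl] at this
      exact absurd (Cycle.mem_coe_iff.1 this) List.not_mem_nil
  · obtain ⟨V, hV⟩ := exists_head ((hm a).1 (hl ▸ Cycle.mem_coe_iff.2 List.mem_cons_self))
    have hp : (a :: U).Perm (a :: V) := by
      refine (List.perm_ext_iff_of_nodup (Cycle.nodup_coe_iff.1 (hl ▸ hn))
        (Cycle.nodup_coe_iff.1 (hV ▸ hn'))).2 fun x => ?_
      rw [← Cycle.mem_coe_iff, ← Cycle.mem_coe_iff, ← hl, ← hV]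
      exact hm x
    rw [hl, hV, step U V [] a hl hV (by simpa using hp.length_eq)]

theorem red_map (π : W) (o : Cycle (Option L)) :
    red (o.map (Option.map π.1)) = (red o).map π.1 := by
  obtain ⟨l, rfl⟩ := ACyc_rep o
  rw [Cycle.map_coe, red_coe, red_coe, Cycle.map_coe, List.reduceOption_map]

/-- The four-cycle `b ↦ a ↦ bar b ↦ bar a ↦ b`. -/
def ACyc_f (a b l : L) : L :=
  if l = b then a else if l = a then bar b else if l = bar b then bar a else
    if l = bar a then b else l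

/-- The inverse four-cycle. -/
def ACyc_g (a b l : L) : L :=
  if l = a then b else if l = bar b then a else if l = bar a then bar b else
    if l = b then bar a else l

theorem ACyc_fg (a b : L) (h : a.1 ≠ b.1) : (ACyc_f a b b = a ∧ ACyc_f a b a = bar b) ∧
    ∀ l, ACyc_g a b (ACyc_f a b l) = l ∧ ACyc_f a b (ACyc_g a b l) = l ∧
      ACyc_f a b (bar l) = bar (ACyc_f a b l) ∧ (l.1 ≠ a.1 → l.1 ≠ b.1 → ACyc_f a b l = l) := by
  have n1 : a ≠ b := fun e => h (by rw [e])
  have n2 : a ≠ bar b := fun e => h (by rw [e]; rfl)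
  have n3 : bar a ≠ b := fun e => h (by rw [← e]; rfl)
  have n4 : bar a ≠ bar b := fun e => n1 (bar_inj e)
  have n5 := bar_ne a
  have n6 := bar_ne b
  refine ⟨by simp [ACyc_f, n1], fun l => ?_⟩
  by_cases c1 : l = a
  · subst c1
    simp [ACyc_f, ACyc_g, n1, n3, n4, n5, n2.symm]
  by_cases c2 : l = b
  · subst c2
    simp [ACyc_f, ACyc_g, n1, n3, n4, n5, n6, n1.symm, n2.symm, n3.symm, n6.symm]
  by_cases c3 : l = bar a
  · subst c3
    simp [ACyc_f, ACyc_g, n1, n3, n4, n5, n6, n1.symm, n2.symm, n3.symm, n6.symm]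
  by_cases c4 : l = bar b
  · subst c4
    simp [ACyc_f, ACyc_g, n1, n4, n5, n6, n2.symm]
  have d1 : bar l ≠ a := fun e => c3 (by rw [← e, bar_bar])
  have d2 : bar l ≠ b := fun e => c4 (by rw [← e, bar_bar])
  have d3 : bar l ≠ bar a := fun e => c1 (bar_inj e)
  have d4 : bar l ≠ bar b := fun e => c2 (bar_inj e)
  simp [ACyc_f, ACyc_g, c1, c2, c3, c4, d1, d2, d3, d4]

theorem exists_tri {a b : L} (h : a.1 ≠ b.1) : ∃ π : W, IsTri π a b := by
  obtain ⟨h1, h2⟩ := ACyc_fg a b h
  exact ⟨⟨⟨ACyc_f a b, ACyc_g a b, fun l => (h2 l).1, fun l => (h2 l).2.1⟩,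
    fun l => (h2 l).2.2.1⟩, h1.1, h1.2, fun l => (h2 l).2.2.2⟩

end Pool.Agent.MP_61a8e3_al.G4.A

end

section

set_option autoImplicit false

namespace Pool.Agent.MP_61a8e3_al.G4.A

variable {E : Type} (S : SlideSys E)

theorem AE1_form (e : E) (a : L) :
    ∃ (t : L) (U V : List L), S.w e = ↑(a :: t :: U ++ bar a :: V) := by
  obtain ⟨U, V, h⟩ := exists_split (S.full e a) (S.full e (bar a)) (bar_ne a).symm
  rcases U with _ | ⟨t, U⟩
  · exact absurd ⟨V, h⟩ (S.nobar e a)
  · exact ⟨t, U, V, h⟩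

theorem AE1_nm {a b t : L} {U V : List L} (hn : (a :: U ++ t :: b :: V).Nodup) : b ∉ U ++ [t] := by
  have h : (U ++ [t] ++ b :: V).Nodup := by simpa using (List.nodup_cons.1 hn).2
  exact fun hb => List.disjoint_of_nodup_append h hb (by simp)

theorem commute_bar (a : L) : Commute (S.R a) (S.R (bar a)) := by
  refine Equiv.ext fun e => ?_
  obtain ⟨t, ht⟩ := Nx_exists (S.full e a) (S.full e (bar a)) (bar_ne a).symm
  obtain ⟨u, hu⟩ := Nx_exists (S.full e (bar a)) (S.full e a) (bar_ne a)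
  refine S.comm e a (bar a) t u ht hu (bar_ne a).symm ?_ ?_ ?_ (Nx_ne (S.nodup e) hu).symm
  · rintro rfl; exact S.nobar e a ht
  · rw [bar_bar]; exact (Nx_ne (S.nodup e) ht).symm
  · rintro rfl; exact S.nobar e (bar u) (by rwa [bar_bar])

theorem w_Rinv {e : E} {a t : L} {U V : List L} (h : S.w e = ↑(a :: U ++ t :: bar a :: V)) :
    S.w ((S.R a)⁻¹ e) = ↑(a :: t :: U ++ bar a :: V) := by
  obtain ⟨t', U', V', h'⟩ := AE1_form S ((S.R a)⁻¹ e) a
  have h1 := S.w_R _ _ _ _ _ h'
  rw [← Equiv.Perm.mul_apply, mul_inv_cancel, Equiv.Perm.one_apply] at h1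
  have hn := S.nodup e
  have hn' := hn
  rw [h, Cycle.nodup_coe_iff] at hn
  rw [h1, Cycle.nodup_coe_iff] at hn'
  have h2 : U ++ t :: bar a :: V = U' ++ t' :: bar a :: V' := cyc_head_inj hn (h.symm.trans h1)
  have h3 : (U ++ [t]) ++ bar a :: V = (U' ++ [t']) ++ bar a :: V' := by simpa using h2
  obtain ⟨h4, rfl⟩ := split_inj (AE1_nm hn) (AE1_nm hn') h3
  obtain ⟨rfl, h5⟩ := List.append_inj' h4 rfl
  obtain rfl : t = t' := by simpa using h5
  exact h'

theorem w_Rpow {e : E} {a : L} {X1 X2 Y : List L}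
    (h : S.w e = ↑(a :: X1 ++ X2 ++ bar a :: Y)) :
    S.w ((S.R a ^ X1.length) e) = ↑(a :: X2 ++ X1 ++ bar a :: Y) := by
  induction X1 generalizing e X2 with
  | nil => simpa using h
  | cons t X1 ih =>
    have h1 := S.w_R e a t (X1 ++ X2) Y (by simpa using h)
    have h2 := ih (e := S.R a e) (X2 := X2 ++ [t]) (by simpa using h1)
    rw [List.length_cons, pow_succ, Equiv.Perm.mul_apply]
    simpa using h2

theorem w_Rinvpow {e : E} {a : L} {X1 X2 Y : List L}
    (h : S.w e = ↑(a :: X2 ++ X1 ++ bar a :: Y)) :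
    S.w (((S.R a)⁻¹ ^ X1.length) e) = ↑(a :: X1 ++ X2 ++ bar a :: Y) := by
  induction X1 generalizing e X2 with
  | nil => simpa using h
  | cons t X1 ih =>
    have h1 := ih (e := e) (X2 := X2 ++ [t]) (by simpa using h)
    have h2 := w_Rinv S (U := X1 ++ X2) (t := t) (V := Y) (by simpa using h1)
    rw [List.length_cons, pow_succ', Equiv.Perm.mul_apply]
    simpa using h2

theorem w_Mv {e : E} {a : L} {X1 X2 Y1 Y2 : List L}
    (h : S.w e = ↑(a :: X1 ++ X2 ++ bar a :: Y1 ++ Y2)) :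
    S.w (S.Mv a Y2.length X1.length e) = ↑(a :: X2 ++ X1 ++ bar a :: Y2 ++ Y1) := by
  have h1 := w_Rpow S (X1 := X1) (X2 := X2) (Y := Y1 ++ Y2) (by simpa using h)
  have h2 := w_Rinvpow S (a := bar a) (X1 := Y2) (X2 := Y1) (Y := X2 ++ X1)
    (h1.trans (cyc_of_eq (a :: X2 ++ X1) (bar a :: Y1 ++ Y2) (by simp) (by simp)))
  exact h2.trans (cyc_of_eq (bar a :: Y2 ++ Y1) (a :: X2 ++ X1) (by simp) (by simp))

theorem Mv_zero (a : L) : S.Mv a 0 0 = 1 := by
  simp [SlideSys.Mv]

theorem Mv_add (a : L) (m n m' n' : ℕ) :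
    S.Mv a m n * S.Mv a m' n' = S.Mv a (m + m') (n + n') := by
  have hc : Commute (S.R a ^ n) ((S.R (bar a))⁻¹ ^ m') :=
    (commute_bar S a).inv_right.pow_pow n m'
  unfold SlideSys.Mv
  rw [pow_add, pow_add, mul_assoc, ← mul_assoc (S.R a ^ n), hc.eq]
  simp only [mul_assoc]

theorem AE1_twist {e : E} {a : L} {X1 X2 Y1 Y2 : List L}
    (h : S.w e = ↑(a :: X1 ++ X2 ++ bar a :: Y1 ++ Y2)) :
    (S.R a ^ (X2.length + X1.length)) e = (S.R (bar a) ^ (Y1.length + Y2.length)) e := by
  have h1 := S.twist e a (X1 ++ X2) (Y1 ++ Y2) (by simpa using h)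
  rwa [List.length_append, List.length_append, add_comm X1.length] at h1

theorem Mv_symm {e : E} {a : L} {X1 X2 Y1 Y2 : List L}
    (h : S.w e = ↑(a :: X1 ++ X2 ++ bar a :: Y1 ++ Y2)) :
    S.Mv a Y2.length X1.length e = S.Mv (bar a) X2.length Y1.length e := by
  have h1 := AE1_twist S h
  have hc : Commute (S.R a ^ X2.length) (S.R (bar a) ^ Y2.length) := (commute_bar S a).pow_pow _ _
  apply (S.R a ^ X2.length * S.R (bar a) ^ Y2.length).injective
  rw [← Equiv.Perm.mul_apply, ← Equiv.Perm.mul_apply]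
  have e1 : S.R a ^ X2.length * S.R (bar a) ^ Y2.length * S.Mv a Y2.length X1.length =
      S.R a ^ (X2.length + X1.length) := by
    unfold SlideSys.Mv
    rw [inv_pow, mul_assoc, mul_inv_cancel_left, pow_add]
  have e2 : S.R a ^ X2.length * S.R (bar a) ^ Y2.length * S.Mv (bar a) X2.length Y1.length =
      S.R (bar a) ^ (Y1.length + Y2.length) := by
    unfold SlideSys.Mv
    rw [hc.eq, bar_bar, inv_pow, mul_assoc, mul_inv_cancel_left, add_comm, pow_add]
  rw [e1, e2, h1]

theorem Mv_back {e : E} {a : L} {X1 X2 Y1 Y2 : List L}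
    (h : S.w e = ↑(a :: X1 ++ X2 ++ bar a :: Y1 ++ Y2)) :
    S.Mv a Y1.length X2.length (S.Mv a Y2.length X1.length e) = e := by
  rw [← Equiv.Perm.mul_apply, Mv_add]
  unfold SlideSys.Mv
  rw [Equiv.Perm.mul_apply, AE1_twist S h, ← Equiv.Perm.mul_apply, inv_pow, inv_mul_cancel]
  rfl

theorem rl_Mv (π : W) (a : L) (m n : ℕ) :
    S.rl π * S.Mv a m n = S.Mv (π.1 a) m n * S.rl π := by
  have h1 : SemiconjBy (S.rl π) (S.R a) (S.R (π.1 a)) := S.rl_R π a
  have h2 : SemiconjBy (S.rl π) (S.R (bar a)) (S.R (bar (π.1 a))) := by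
    rw [← W_bar]; exact S.rl_R π (bar a)
  exact ((h2.inv_right.pow_right m).mul_right (h1.pow_right n)).eq

theorem Mv_mem (a : L) (m n : ℕ) : S.Mv a m n ∈ S.Lam := by
  have h : ∀ b, S.R b ∈ S.Lam := fun b => Subgroup.subset_closure (Or.inl ⟨b, rfl⟩)
  exact mul_mem (pow_mem (inv_mem (h _)) m) (pow_mem (h a) n)

theorem rl_mem (π : W) : S.rl π ∈ S.Lam := by
  exact Subgroup.subset_closure (Or.inr ⟨π, rfl⟩)

/-- A slide of `a` over `t` keeps the other adjacencies. -/
theorem Nx_R {e : E} {a t p q : L} (ht : Nx (S.w e) a t) (h : Nx (S.w e) p q) (hpa : p ≠ a)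
    (hpt : p ≠ t) (hq : q ≠ bar a) : Nx (S.w (S.R a e)) p q := by
  obtain ⟨t', U, V, h'⟩ := AE1_form S e a
  obtain rfl : t = t' := Nx_unique (S.nodup e) ht ⟨U ++ bar a :: V, h'⟩
  have h1 := S.w_R _ _ _ _ _ h'
  have hn := S.nodup e
  rw [h'] at h
  rw [h', Cycle.nodup_coe_iff] at hn
  rcases Nx_cases h with ⟨U1, V1, h2⟩ | ⟨U1, h2⟩
  · rcases U1 with _ | ⟨x, _ | ⟨y, U2⟩⟩
    · exact absurd (List.cons.inj h2).1.symm hpa
    · exact absurd (List.cons.inj (List.cons.inj h2).2).1.symm hpt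
    · have h3 : U ++ bar a :: V = U2 ++ p :: q :: V1 := (List.cons.inj (List.cons.inj h2).2).2
      rcases List.append_eq_append_iff.1 h3 with ⟨A, rfl, h4⟩ | ⟨A, rfl, h4⟩
      · exact Nx_of_mid (a :: U ++ t :: A) V1 (h1.trans (by rw [h4]; simp))
      · rcases A with _ | ⟨x1, _ | ⟨x2, A⟩⟩
        · exact Nx_of_mid (a :: U2 ++ [t]) V1 (h1.trans (by rw [← List.nil_append (bar a :: V), ← h4]; simp))
        · exact absurd (List.cons.inj (List.cons.inj h4).2).1 hq
        · obtain ⟨rfl, h5⟩ := List.cons.inj h4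
          obtain ⟨rfl, -⟩ := List.cons.inj h5
          exact Nx_of_mid (a :: U2) (A ++ t :: bar a :: V) (h1.trans (by simp))
  · obtain ⟨rfl, h3⟩ := List.cons.inj h2
    obtain ⟨W, x, hW⟩ := (List.eq_nil_or_concat' (bar a :: V)).resolve_left (by simp)
    have h4 : (t :: U ++ W) ++ [x] = U1 ++ [p] := by
      rw [List.append_assoc, ← hW]; exact h3
    obtain rfl : x = p := by simpa using (List.append_inj' h4 rfl).2
    exact Nx_wrap (U ++ t :: W) (h1.trans (by rw [hW]; simp))

/-- A block `c :: X1` not containing `d` nor its successor `u` survives the slide of `d`, with `u`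
inserted before `bar d` if that letter is in the block. -/
theorem block_R {e : E} {c d u : L} {X1 U : List L} (h : S.w e = ↑(c :: X1 ++ U))
    (hu : Nx (S.w e) d u) (hd : d ∉ c :: X1) (hu' : u ∉ c :: X1) (hc : c ≠ bar d) :
    (bar d ∉ X1 → ∃ U' : List L, S.w (S.R d e) = ↑(c :: X1 ++ U')) ∧
    (∀ P Q, X1 = P ++ bar d :: Q →
      ∃ U' : List L, S.w (S.R d e) = ↑(c :: P ++ u :: bar d :: Q ++ U')) := by
  obtain ⟨U2, V1, rfl⟩ : ∃ U2 V1, U = U2 ++ d :: u :: V1 := by
    have hu2 := hu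
    rw [h] at hu2
    rcases Nx_cases hu2 with ⟨U1, V1, h2⟩ | ⟨U1, h2⟩
    · rcases List.append_eq_append_iff.1 h2 with ⟨A, -, h4⟩ | ⟨A, h3, h4⟩
      · exact ⟨A, V1, h4⟩
      · rcases A with _ | ⟨x, A⟩
        · exact ⟨[], V1, h4.symm⟩
        · obtain ⟨rfl, -⟩ := List.cons.inj h4
          exact absurd (by rw [h3]; simp) hd
    · obtain ⟨rfl, -⟩ := List.cons.inj h2
      exact absurd (by simp) hu'
  refine ⟨fun hb => ?_, ?_⟩
  · have hm := S.full e (bar d)
    rw [h, Cycle.mem_coe_iff] at hm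
    have hbu : bar d ≠ u := by rintro rfl; exact S.nobar e d hu
    simp only [List.cons_append, List.mem_cons, List.mem_append, hc.symm, hb, bar_ne d, hbu,
      false_or] at hm
    rcases hm with hm | hm
    · obtain ⟨P, Q, rfl⟩ := List.append_of_mem hm
      have h1 := S.w_R e d u (V1 ++ c :: X1 ++ P) Q
        (h.trans (cyc_of_eq (c :: X1 ++ P ++ bar d :: Q) (d :: u :: V1) (by simp) (by simp)))
      exact ⟨P ++ u :: bar d :: Q ++ d :: V1,
        h1.trans (cyc_of_eq (d :: V1) (c :: X1 ++ P ++ u :: bar d :: Q) (by simp) (by simp))⟩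
    · obtain ⟨P, Q, rfl⟩ := List.append_of_mem hm
      have h1 := S.w_R e d u P (Q ++ c :: X1 ++ U2)
        (h.trans (cyc_of_eq (c :: X1 ++ U2) (d :: u :: P ++ bar d :: Q) (by simp) (by simp)))
      exact ⟨U2 ++ d :: P ++ u :: bar d :: Q,
        h1.trans (cyc_of_eq (d :: P ++ u :: bar d :: Q) (c :: X1 ++ U2) (by simp) (by simp))⟩
  · rintro P Q rfl
    have h1 := S.w_R e d u (V1 ++ c :: P) (Q ++ U2)
      (h.trans (cyc_of_eq (c :: P ++ bar d :: Q ++ U2) (d :: u :: V1) (by simp) (by simp)))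
    exact ⟨U2 ++ d :: V1,
      h1.trans (cyc_of_eq (d :: V1) (c :: P ++ u :: bar d :: Q ++ U2) (by simp) (by simp))⟩

end Pool.Agent.MP_61a8e3_al.G4.A

end

section

set_option autoImplicit false

namespace Pool.Agent.MP_61a8e3_al.G4.A

variable {E : Type} (S : SlideSys E)

theorem AE2_split {e : E} {c : L} {X1 U : List L} (h : S.w e = ↑(c :: X1 ++ U))
    (hc : bar c ∉ X1) : ∃ X2 Y : List L, U = X2 ++ bar c :: Y := by
  have h1 := S.full e (bar c)
  rw [h, Cycle.mem_coe_iff, List.mem_append, List.mem_cons] at h1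
  rcases h1 with (h1 | h1) | h1
  · exact absurd h1 (bar_ne c)
  · exact absurd h1 hc
  · exact List.append_of_mem h1

theorem AE2_step {e : E} {c x : L} {X' X2 Y : List L}
    (h : S.w e = ↑(c :: (x :: X') ++ (X2 ++ bar c :: Y))) :
    S.w (S.R c e) = ↑(c :: X' ++ (X2 ++ x :: bar c :: Y)) := by
  have h1 := S.w_R e c x (X' ++ X2) Y (by rw [h]; simp)
  rw [h1]; simp

theorem AE2_step' {e : E} {c x : L} {X' U : List L} (h : S.w e = ↑(c :: (x :: X') ++ U))
    (hc : bar c ∉ x :: X') : ∃ U' : List L, S.w (S.R c e) = ↑(c :: X' ++ U') := by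
  obtain ⟨X2, Y, rfl⟩ := AE2_split S h hc
  exact ⟨_, AE2_step S h⟩

theorem AE2_nodup {e : E} {l : List L} (h : S.w e = ↑l) : l.Nodup := by
  have h1 := S.nodup e
  rwa [h, Cycle.nodup_coe_iff] at h1

theorem AE2_SGR (c d u : L) (h1 : d ≠ c) (h2 : d ≠ bar c) (h3 : u ≠ c) (h4 : u ≠ bar c) (n : ℕ) :
    ∀ (e : E) (X1 U : List L) (k : ℕ), X1.length = n → S.w e = ↑(c :: X1 ++ U) → bar c ∉ X1 →
      Nx (S.w e) d u → (d ∈ X1 ↔ u ∈ X1) →
      k + (if u ∈ X1 then 1 else 0) = X1.length + (if bar d ∈ X1 then 1 else 0) →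
      S.R d ((S.R c ^ X1.length) e) = (S.R c ^ k) (S.R d e) := by
  induction n using Nat.strong_induction_on with
  | _ n ih =>
  intro e X1 U k hn h hc hu h5 hk
  rcases X1 with _ | ⟨x, X'⟩
  · have : k = 0 := by simpa using hk
    subst this
    simp
  have hnd := AE2_nodup S h
  have hcx : Nx (S.w e) c x := ⟨X' ++ U, by rw [h]; simp⟩
  have hub : u ≠ bar d := fun hh => S.nobar e d (hh ▸ hu)
  have hdu : d ≠ u := Nx_ne (S.nodup e) hu
  have hdb : d ≠ bar d := (bar_ne d).symm
  have hxX : x ∉ X' := by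
    simp only [List.cons_append, List.nodup_cons, List.mem_append, not_or] at hnd
    exact hnd.2.1.1
  have hc' : bar c ∉ X' := fun hh => hc (List.mem_cons_of_mem _ hh)
  obtain ⟨X2, Y, rfl⟩ := AE2_split S h hc
  have he1 := AE2_step S h
  rw [List.length_cons] at hn
  by_cases hxd : x = d
  · subst hxd
    have huX : u ∈ X' := by
      have := h5.1 List.mem_cons_self
      rcases List.mem_cons.1 this with hh | hh
      · exact absurd hh.symm hdu
      · exact hh
    rcases X' with _ | ⟨y, X''⟩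
    · simp at huX
    have hy : Nx (S.w e) x y := Nx_of_mid [c] (X'' ++ (X2 ++ bar c :: Y)) (by rw [h]; simp)
    have hyu : y = u := Nx_unique (S.nodup e) hy hu
    subst hyu
    have he1' : S.w (S.R c e) = ↑(c :: (y :: X'') ++ ((X2 ++ [x]) ++ bar c :: Y)) := by
      rw [he1]; simp
    have he2 := AE2_step S he1'
    have hyX : y ∉ X'' := by
      simp only [List.cons_append, List.nodup_cons, List.mem_append, not_or] at hnd
      exact hnd.2.2.1.1
    have hxX' : x ∉ X'' := fun hh => hxX (List.mem_cons_of_mem _ hh)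
    have hc'' : bar c ∉ X'' := fun hh => hc' (List.mem_cons_of_mem _ hh)
    have hu2 : Nx (S.w (S.R c (S.R c e))) x y :=
      Nx_of_mid (c :: X'' ++ X2) (bar c :: Y) (by rw [he2]; simp)
    rw [List.length_cons] at hn
    have hb : bar x ∈ x :: y :: X'' ↔ bar x ∈ X'' := by
      simp only [List.mem_cons, hdb.symm, hub.symm, false_or]
    have hk2 : k = X''.length + (if bar x ∈ X'' then 1 else 0) + 1 := by
      rw [if_pos (List.mem_cons_of_mem _ List.mem_cons_self)] at hk
      simp only [hb, List.length_cons] at hk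
      omega
    have key := ih X''.length (by omega) (S.R c (S.R c e)) X'' _
      (X''.length + (if bar x ∈ X'' then 1 else 0)) rfl he2 hc'' hu2 (by simp [hxX', hyX])
      (by rw [if_neg hyX, add_zero])
    rw [S.pent e c x y hcx hu h4] at key
    rw [hk2, List.length_cons, List.length_cons, pow_succ, pow_succ, pow_succ]
    simpa only [Equiv.Perm.mul_apply] using key
  have hxu : x ≠ u := fun hh => h1 (Nx_unique_left (S.nodup e) hu (hh ▸ hcx))
  have hu1 : Nx (S.w (S.R c e)) d u := Nx_R S hcx hu h1 (Ne.symm hxd) h4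
  have h5' : d ∈ X' ↔ u ∈ X' := by
    simpa only [List.mem_cons, Ne.symm hxd, hxu.symm, false_or] using h5
  have hule : (if u ∈ X' then 1 else 0) ≤ X'.length := by
    split_ifs with hh
    · exact List.length_pos_of_mem hh
    · exact Nat.zero_le _
  have hu0 : u ∈ x :: X' ↔ u ∈ X' := by simp only [List.mem_cons, hxu.symm, false_or]
  simp only [hu0, List.length_cons] at hk
  by_cases hxb : x = bar d
  · subst hxb
    rw [if_pos List.mem_cons_self] at hk
    obtain ⟨k', rfl⟩ : ∃ k', k = k' + 2 := ⟨k - 2, by omega⟩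
    have key := ih X'.length (by omega) (S.R c e) X' _ k' rfl he1 hc' hu1 h5'
      (by rw [if_neg hxX]; omega)
    rw [← S.pent2 e c d u hcx hu h3 h4] at key
    rw [List.length_cons, pow_succ, pow_succ, pow_succ]
    simpa only [Equiv.Perm.mul_apply] using key
  · have hb : bar d ∈ x :: X' ↔ bar d ∈ X' := by
      simp only [List.mem_cons, Ne.symm hxb, false_or]
    simp only [hb] at hk
    obtain ⟨k', rfl⟩ : ∃ k', k = k' + 1 := ⟨k - 1, by omega⟩
    have key := ih X'.length (by omega) (S.R c e) X' _ k' rfl he1 hc' hu1 h5' (by omega)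
    rw [← S.comm e c d x u hcx hu h1.symm hxd hxb h3 h4] at key
    rw [List.length_cons, pow_succ, pow_succ]
    simpa only [Equiv.Perm.mul_apply] using key

/-- One slide of `d` against the passage of `c` over a block. -/
theorem SGR {e : E} {c d u : L} {X1 U : List L} {k : ℕ} (h : S.w e = ↑(c :: X1 ++ U))
    (hc : bar c ∉ X1) (hu : Nx (S.w e) d u) (h1 : d ≠ c) (h2 : d ≠ bar c) (h3 : u ≠ c)
    (h4 : u ≠ bar c) (h5 : d ∈ X1 ↔ u ∈ X1)
    (hk : k + (if u ∈ X1 then 1 else 0) = X1.length + (if bar d ∈ X1 then 1 else 0)) :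
    S.R d ((S.R c ^ X1.length) e) = (S.R c ^ k) (S.R d e) := by
  exact AE2_SGR S c d u h1 h2 h3 h4 _ e X1 U k rfl h hc hu h5 hk

/-- The passage of `d` over a block `Z` against the passage of `c` over a disjoint block. -/
theorem SGZ {e : E} {c d : L} {X1 U Z V : List L} (h : S.w e = ↑(c :: X1 ++ U))
    (hc : bar c ∉ X1) (hz : S.w e = ↑(d :: Z ++ V)) (h1 : d ≠ c) (h2 : d ≠ bar c)
    (h3 : d ∉ X1) (h4 : ∀ z ∈ Z, z ≠ c ∧ z ≠ bar c ∧ z ≠ bar d ∧ z ∉ X1) :
    (S.R d ^ Z.length) ((S.R c ^ X1.length) e) =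
      (S.R c ^ (X1.length + if bar d ∈ X1 then Z.length else 0)) ((S.R d ^ Z.length) e) := by
  induction Z generalizing e X1 U V with
  | nil => simp
  | cons u Z' ih =>
    have hu : Nx (S.w e) d u := ⟨Z' ++ V, by rw [hz]; simp⟩
    obtain ⟨u1, u2, -, u4⟩ := h4 u List.mem_cons_self
    have hdu : d ≠ u := Nx_ne (S.nodup e) hu
    have hnd := AE2_nodup S hz
    have huZ : u ∉ Z' := by
      simp only [List.cons_append, List.nodup_cons, List.mem_append, not_or] at hnd
      exact hnd.2.1.1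
    have h4' : ∀ z ∈ Z', z ≠ c ∧ z ≠ bar c ∧ z ≠ bar d ∧ z ∉ X1 :=
      fun z hz' => h4 z (List.mem_cons_of_mem _ hz')
    obtain ⟨V', hV'⟩ := AE2_step' S hz (fun hh => (h4 _ hh).2.2.1 rfl)
    have hs := SGR S (k := X1.length + (if bar d ∈ X1 then 1 else 0)) h hc hu h1 h2 u1 u2
      (by simp [h3, u4]) (by rw [if_neg u4, add_zero])
    have hcb : c ≠ bar d := fun hh => h2 (by rw [hh, bar_bar])
    obtain ⟨b1, b2⟩ := block_R S h hu (by simp [h1, h3]) (by simp [u1, u4]) hcb
    rw [List.length_cons, pow_succ, Equiv.Perm.mul_apply, Equiv.Perm.mul_apply, hs]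
    by_cases hb : bar d ∈ X1
    · obtain ⟨P, Q, hPQ⟩ := List.append_of_mem hb
      obtain ⟨U', hU'⟩ := b2 P Q hPQ
      have hmem : ∀ z, z ∈ P ++ u :: bar d :: Q ↔ z = u ∨ z ∈ X1 := by
        intro z
        rw [hPQ]
        simp only [List.mem_append, List.mem_cons]
        tauto
      have hlen : (P ++ u :: bar d :: Q).length = X1.length + 1 := by
        rw [hPQ]; simp only [List.length_append, List.length_cons]; omega
      have key := ih (e := S.R d e) (X1 := P ++ u :: bar d :: Q) (U := U') (V := V')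
        (by rw [hU']; simp) (by rw [hmem]; simp [u2.symm, hc]) hV' (by rw [hmem]; simp [hdu, h3])
        (fun z hz' => ⟨(h4' z hz').1, (h4' z hz').2.1, (h4' z hz').2.2.1, by
          rw [hmem]
          rintro (hh | hh)
          · exact huZ (hh ▸ hz')
          · exact (h4' z hz').2.2.2 hh⟩)
      rw [hlen, if_pos ((hmem _).2 (Or.inr hb))] at key
      rw [if_pos hb, if_pos hb, key]
      congr 2
      omega
    · obtain ⟨U', hU'⟩ := b1 hb
      have key := ih (e := S.R d e) hU' hc hV' h3 h4'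
      rw [if_neg hb] at key
      rw [if_neg hb, if_neg hb]
      exact key

end Pool.Agent.MP_61a8e3_al.G4.A

end

section

set_option autoImplicit false

namespace Pool.Agent.MP_61a8e3_al.G4.A

variable {E : Type} (S : SlideSys E)

theorem AE3_i1 (p : Equiv.Perm E) (n : ℕ) (x : E) : (p ^ n) ((p⁻¹ ^ n) x) = x := by
  rw [← Equiv.Perm.mul_apply, inv_pow, mul_inv_cancel, Equiv.Perm.one_apply]

theorem AE3_i2 (p : Equiv.Perm E) (n : ℕ) (x : E) : (p⁻¹ ^ n) ((p ^ n) x) = x := by
  rw [← Equiv.Perm.mul_apply, inv_pow, inv_mul_cancel, Equiv.Perm.one_apply]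

theorem AE3_add (p : Equiv.Perm E) (m n : ℕ) (x : E) : (p ^ (m + n)) x = (p ^ m) ((p ^ n) x) := by
  rw [pow_add, Equiv.Perm.mul_apply]

theorem AE3_sc {r p q : Equiv.Perm E} (h : SemiconjBy r p q) (x : E) : q (r x) = r (p x) := by
  rw [← Equiv.Perm.mul_apply, ← h.eq, Equiv.Perm.mul_apply]

theorem AE3_rl (π : W) {x y : L} (h : π.1 x = y) : SemiconjBy (S.rl π) (S.R x) (S.R y) :=
  h ▸ S.rl_R π x

theorem AE3_bar (a : L) (m n : ℕ) (x : E) :
    (S.R a ^ n) (((S.R (bar a))⁻¹ ^ m) x) = ((S.R (bar a))⁻¹ ^ m) ((S.R a ^ n) x) :=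
  AE3_sc (((commute_bar S a).inv_right.pow_pow n m).symm) x

theorem AE3_nd {e : E} {l : List L} (h : S.w e = ↑l) : l.Nodup := by
  have := S.nodup e
  rw [h] at this
  exact Cycle.nodup_coe_iff.1 this

/-- the word after a general move of `b`, seen from `bar b` and from a block away from it -/
theorem AE3_word {e : E} {b d : L} {X1 T1 Z T2 Y2 : List L}
    (h : S.w e = ↑(b :: X1 ++ T1 ++ d :: Z ++ T2 ++ Y2)) (hb : bar b ∈ T1 ∨ bar b ∈ T2) :
    ∃ U V : List L,
      S.w (((S.R (bar b))⁻¹ ^ Y2.length) ((S.R b ^ X1.length) e)) = ↑(bar b :: Y2 ++ U) ∧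
      S.w (((S.R (bar b))⁻¹ ^ Y2.length) ((S.R b ^ X1.length) e)) = ↑(d :: Z ++ V) := by
  rcases hb with hb | hb
  · obtain ⟨P, Q, rfl⟩ := List.append_of_mem hb
    have h1 := w_Mv S (a := b) (X1 := X1) (X2 := P) (Y1 := Q ++ d :: Z ++ T2) (Y2 := Y2)
      (h.trans (congrArg _ (by simp)))
    exact ⟨Q ++ d :: Z ++ T2 ++ b :: P ++ X1, T2 ++ b :: P ++ X1 ++ bar b :: Y2 ++ Q,
      h1.trans (cyc_of_eq (b :: P ++ X1) (bar b :: Y2 ++ Q ++ d :: Z ++ T2) (by simp) (by simp)),
      h1.trans (cyc_of_eq (b :: P ++ X1 ++ bar b :: Y2 ++ Q) (d :: Z ++ T2) (by simp) (by simp))⟩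
  · obtain ⟨P, Q, rfl⟩ := List.append_of_mem hb
    have h1 := w_Mv S (a := b) (X1 := X1) (X2 := T1 ++ d :: Z ++ P) (Y1 := Q) (Y2 := Y2)
      (h.trans (congrArg _ (by simp)))
    exact ⟨Q ++ b :: T1 ++ d :: Z ++ P ++ X1, P ++ X1 ++ bar b :: Y2 ++ Q ++ b :: T1,
      h1.trans (cyc_of_eq (b :: T1 ++ d :: Z ++ P ++ X1) (bar b :: Y2 ++ Q) (by simp) (by simp)),
      h1.trans (cyc_of_eq (b :: T1) (d :: Z ++ P ++ X1 ++ bar b :: Y2 ++ Q) (by simp) (by simp))⟩

theorem AE3_s1 {a b : L} {π : W} (hπ : IsTri π a b) (M : List L) : ∀ (e : E) (V : List L),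
    S.w e = ↑(a :: M ++ b :: V) → bar a ∈ V → bar b ∈ V →
    ((S.R (bar b))⁻¹ ^ M.length) (S.R b ((S.R a ^ (M.length + 1)) e)) =
      S.rl π (((S.R (bar b))⁻¹ ^ (M.length + 1)) e) := by
  induction M with
  | nil =>
    intro e V h _ _
    have h1 := S.tri e a b π ⟨V, h⟩ hπ
    have h2 : π.1 (bar b) = bar a := by rw [W_bar, hπ.1]
    simp only [List.length_nil, pow_zero, zero_add, pow_one, Equiv.Perm.one_apply]
    rw [← AE3_sc (AE3_rl S π h2).inv_right, ← h1]
    simp
  | cons u M ih =>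
    intro e V h ha hb
    have hn := AE3_nd S h
    obtain ⟨V1, V2, hV⟩ := List.append_of_mem ha
    obtain ⟨P, Q, hP⟩ := List.append_of_mem hb
    have h1 : S.w (S.R a e) = ↑(a :: M ++ b :: (V1 ++ u :: bar a :: V2)) :=
      (S.w_R e a u (M ++ b :: V1) V2 (h.trans (congrArg _ (by simp [hV])))).trans
        (congrArg _ (by simp))
    have h2 := ih _ _ h1 (by simp) (by rw [hV] at hb; simp at hb ⊢; tauto)
    have h3 := w_Rinvpow S (e := e) (a := bar b) (X1 := a :: u :: M) (X2 := Q) (Y := P)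
      (h.trans (cyc_of_eq (a :: u :: M ++ b :: P) (bar b :: Q) (by simp [hP]) (by simp)))
    have hu : Nx (S.w (((S.R (bar b))⁻¹ ^ (a :: u :: M).length) e)) a u :=
      Nx_of_mid [bar b] (M ++ Q ++ b :: P) (h3.trans (congrArg _ (by simp)))
    simp only [List.nodup_cons, List.nodup_append, List.mem_append, List.mem_cons,
      List.cons_append] at hn
    have hba : bar a ∉ a :: u :: M := by grind
    have h4 := SGR S (k := M.length + 1) (c := bar b) (X1 := a :: u :: M)
      (U := Q ++ bar (bar b) :: P)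
      (h3.trans (congrArg _ (by simp))) (by grind [bar_bar]) hu (by grind) (by grind [bar_bar])
      (by grind) (by grind [bar_bar]) (by simp) (by simp [hba])
    rw [AE3_i1] at h4
    rw [h4, AE3_i2] at h2
    rw [List.length_cons, pow_succ' (S.R (bar b))⁻¹ M.length, pow_succ (S.R a),
      Equiv.Perm.mul_apply, Equiv.Perm.mul_apply, h4, h2, AE3_sc (AE3_rl S π hπ.2.1).inv_right]
    exact congrArg _ (by simp)

theorem AE3_s2 {a b : L} {π : W} (hπ : IsTri π a b) {M Z V : List L} {e : E}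
    (h : S.w e = ↑(a :: M ++ b :: Z ++ V)) (ha : bar a ∈ V) (hb : bar b ∈ V) :
    ((S.R (bar b))⁻¹ ^ M.length) ((S.R b ^ (Z.length + 1))
        ((S.R a ^ (M.length + 1 + Z.length)) e)) =
      S.rl π (((S.R (bar b))⁻¹ ^ (M.length + 1)) ((S.R b ^ Z.length) e)) := by
  have hn := AE3_nd S h
  have h0 := AE3_s1 S hπ M e (Z ++ V) (h.trans (congrArg _ (by simp))) (by simp [ha])
    (by simp [hb])
  obtain ⟨V1, V2, hV⟩ := List.append_of_mem ha
  have h1 := w_Rpow S (e := e) (a := a) (X1 := M ++ [b]) (X2 := Z ++ V1) (Y := V2)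
    (h.trans (congrArg _ (by simp [hV])))
  rw [List.length_append, List.length_singleton] at h1
  simp only [List.nodup_cons, List.nodup_append, List.mem_append, List.mem_cons,
    List.cons_append] at hn
  have hab : bar b ≠ bar a := fun h => by have := bar_inj h; grind
  have h2 : S.w ((S.R a ^ (M.length + 1)) e) = ↑(b :: [bar a] ++ V2 ++ a :: Z ++ V1 ++ M) :=
    h1.trans (cyc_of_eq (a :: Z ++ V1 ++ M) (b :: bar a :: V2) (by simp) (by simp))
  have h3 := SGZ S (c := b) (d := a) (X1 := [bar a]) (Z := Z) (U := V2 ++ a :: Z ++ V1 ++ M)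
    (V := V1 ++ M ++ b :: bar a :: V2) (h2.trans (congrArg _ (by simp))) (by simpa using hab)
    (h1.trans (congrArg _ (by simp))) (by grind) (by grind) (by grind) (by grind)
  obtain ⟨U', V', h4, h5⟩ := AE3_word S h2 (by rw [hV] at hb; simp [hab] at hb; tauto)
  have h6 := SGZ S h4 (by grind [bar_bar]) h5 (by grind) (by grind [bar_bar]) (by grind)
    (by grind [bar_bar])
  have hba : bar a ∉ M := by grind
  simp only [List.length_singleton, pow_one, List.mem_singleton, if_true, hba, if_false,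
    add_zero, AE3_i1] at h3 h6
  rw [add_comm _ Z.length, AE3_add (S.R a), add_comm Z.length, ← h3, h6,
    AE3_i2, h0, AE3_sc ((AE3_rl S π hπ.1).pow_right _), AE3_bar]

/-- The general triangle. -/
theorem T1E {e : E} {a b : L} {U1 U2 U3 V : List L} {π : W}
    (h : S.w e = ↑(U1 ++ a :: U2 ++ b :: U3 ++ V)) (ha : bar a ∈ V) (hb : bar b ∈ V)
    (hπ : IsTri π a b) :
    S.Mv b U2.length (U3.length + 1 + U1.length)
        (S.Mv a U1.length (U2.length + 1 + U3.length) e) =
      S.rl π (S.Mv b (U1.length + 1 + U2.length) U3.length e) := by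
  have hn := AE3_nd S h
  obtain ⟨V1, V2, hV⟩ := List.append_of_mem ha
  have h1 := w_Rinvpow S (e := e) (a := bar a) (X1 := U1) (X2 := V2) (Y := U2 ++ b :: U3 ++ V1)
    (h.trans (cyc_of_eq (U1 ++ a :: U2 ++ b :: U3 ++ V1) (bar a :: V2) (by simp [hV]) (by simp)))
  rw [bar_bar] at h1
  simp only [List.nodup_cons, List.nodup_append, List.mem_append, List.mem_cons] at hn
  have hab : bar b ≠ bar a := fun h => by have := bar_inj h; grind
  have hb' : bar b ∈ V1 ∨ bar b ∈ V2 := by rw [hV] at hb; simpa [hab] using hb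
  have h0 := AE3_s2 S hπ (M := U2) (Z := U3) (V := V1 ++ bar a :: U1 ++ V2)
    (h1.trans (cyc_of_eq (bar a :: U1 ++ V2) (a :: U2 ++ b :: U3 ++ V1) (by simp) (by simp)))
    (by simp) (by simp; tauto)
  have h2 : S.w (((S.R (bar a))⁻¹ ^ U1.length) e) =
      ↑(b :: U3 ++ V1 ++ bar a :: U1 ++ V2 ++ a :: U2) :=
    h1.trans (cyc_of_eq (bar a :: U1 ++ V2 ++ a :: U2) (b :: U3 ++ V1) (by simp) (by simp))
  have h3 := SGZ S (c := b) (d := bar a) (X1 := U3) (Z := U1)
    (U := V1 ++ bar a :: U1 ++ V2 ++ a :: U2) (V := V2 ++ a :: U2 ++ b :: U3 ++ V1)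
    (h2.trans (congrArg _ (by simp))) (by grind) (h1.trans (congrArg _ (by simp))) (by grind)
    hab.symm (by grind) (by grind [bar_bar])
  obtain ⟨U', V', h4, h5⟩ := AE3_word S h2 hb'
  have h6 := SGZ S h4 (by grind [bar_bar]) h5 hab.symm (by grind [bar_bar]) (by grind)
    (by grind [bar_bar])
  have hba : a ∉ U3 := by grind
  simp only [bar_bar, List.mem_cons, true_or, if_true, hba, if_false, add_zero, AE3_i1,
    List.length_cons] at h3 h6
  have hp : π.1 (bar a) = b := by rw [W_bar, hπ.2.1, bar_bar]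
  simp only [SlideSys.Mv, Equiv.Perm.mul_apply]
  rw [← AE3_bar S a, add_comm _ U1.length, AE3_add (S.R b), ← AE3_bar S b, h0,
    AE3_sc ((AE3_rl S π hp).pow_right _), ← h3, h6,
    show U1.length + 1 + U2.length = U2.length + 1 + U1.length by omega, AE3_i2]

end Pool.Agent.MP_61a8e3_al.G4.A

end
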