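import Pool.Agent.Mg.F61a8e3.G3e7fde
import Mathlib
import Pool.Agent.MP_61a8e3_al.G4.KTy
import Pool.Agent.MP_61a8e3_al.G4.KC0
import Pool.Agent.MP_61a8e3_al.G4.KC1
import Pool.Agent.MP_61a8e3_al.G4.KC2
import Pool.Agent.MP_61a8e3_al.G4.KC3
import Pool.Agent.MP_61a8e3_al.G4.KC4
import Pool.Agent.MP_61a8e3_al.G4.KC5
import Pool.Agent.MP_61a8e3_al.G4.KC6
import Pool.Agent.MP_61a8e3_al.G4.KC7

section

set_option autoImplicit false

namespace Pool.Agent.MP_61a8e3_al.G4.A

/-- A word containing every letter exactly once. -/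
def Valid (u : List L) : Prop := u.Nodup ∧ ∀ l, l ∈ u

theorem mem_allL (l : L) : l ∈ allL := by revert l; decide

theorem Valid.length {u : List L} (h : Valid u) : u.length = 16 := by
  have : u.Perm allL := (List.perm_ext_iff_of_nodup h.1 (by decide)).2
    (fun l => ⟨fun _ => mem_allL l, fun _ => h.2 l⟩)
  rw [this.length_eq]; rfl

theorem valid_of_length {u : List L} (h : u.length = 16) (hm : ∀ l, l ∈ u) : Valid u := by
  have h1 : allL.Subperm u := List.subperm_of_subset (by decide) (fun l _ => hm l)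
  have h2 : allL.Perm u := h1.perm_of_length_le (by rw [h]; decide)
  exact ⟨h2.nodup_iff.1 (by decide), hm⟩

theorem Valid.perm {u v : List L} (h : Valid u) (hp : u.Perm v) : Valid v :=
  ⟨hp.nodup_iff.1 h.1, fun l => hp.mem_iff.1 (h.2 l)⟩

theorem Valid.map {u : List L} (h : Valid u) (π : Equiv.Perm L) : Valid (u.map π) :=
  ⟨h.1.map π.injective, fun l => List.mem_map.2 ⟨π.symm l, h.2 _, by simp⟩⟩

theorem Valid.rotate {u : List L} (h : Valid u) (k : ℕ) : Valid (u.rotate k) :=
  h.perm (List.rotate_perm u k).symm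

theorem valid_w0L : Valid w0L := ⟨by decide, by decide⟩

theorem BList_tw {a : L} {U V : List L} (h : a ∉ U) :
    (U ++ a :: V).takeWhile (fun l => l != a) = U ∧
      (U ++ a :: V).dropWhile (fun l => l != a) = a :: V := by
  induction U with
  | nil => simp
  | cons x U ih =>
    have hx : x ≠ a := fun e => h (by simp [e])
    have hU : a ∉ U := fun e => h (by simp [e])
    simp [List.takeWhile_cons, List.dropWhile_cons, hx, ih hU]

theorem slide_eq {a t : L} {U V : List L} (h : bar a ∉ U) :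
    slide (a :: t :: U ++ bar a :: V) = a :: U ++ t :: bar a :: V := by
  simp only [List.cons_append, slide, (BList_tw h).1, (BList_tw h).2]

theorem unslide_eq {a t : L} {U V : List L} (h : bar a ∉ U) (ht : t ≠ bar a) :
    unslide (a :: U ++ t :: bar a :: V) = a :: t :: U ++ bar a :: V := by
  have h' : bar a ∉ U ++ [t] := by simp [h, Ne.symm ht]
  have e : U ++ t :: bar a :: V = (U ++ [t]) ++ bar a :: V := by simp
  simp only [List.cons_append, unslide]
  rw [e, (BList_tw h').1, (BList_tw h').2]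
  simp

/-- A valid word whose second letter is not the inverse of the first has the slide pattern. -/
theorem Valid.pattern {a t : L} {U : List L} (h : Valid (a :: t :: U)) (ht : t ≠ bar a) :
    ∃ U1 V, U = U1 ++ bar a :: V ∧ bar a ∉ U1 := by
  have hm : bar a ∈ U := by
    have := h.2 (bar a)
    simpa [bar_ne a, Ne.symm ht] using this
  obtain ⟨U1, V, rfl⟩ := List.append_of_mem hm
  refine ⟨U1, V, rfl, fun h1 => ?_⟩
  have h2 := h.1
  simp only [List.nodup_cons, List.nodup_append, List.mem_cons] at h2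
  exact h2.2.2.2.2 _ h1 _ (Or.inl rfl) rfl

theorem slide_perm (u : List L) : (slide u).Perm u := by
  match u with
  | [] => exact List.Perm.refl _
  | [_] => exact List.Perm.refl _
  | a :: t :: U =>
    simp only [slide]
    refine List.Perm.cons _ (List.perm_middle.trans ?_)
    rw [List.takeWhile_append_dropWhile]

theorem slide_head (u : List L) : (slide u).head? = u.head? := by
  match u with
  | [] => rfl
  | [_] => rfl
  | a :: t :: U => rfl

theorem BList_ne (π : W) (a l : L) : (π.1 l != bar (π.1 a)) = (l != bar a) := by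
  rw [← W_bar]
  by_cases h : l = bar a
  · simp [h]
  · have : π.1 l ≠ π.1 (bar a) := fun e => h (π.1.injective e)
    rw [bne_iff_ne.2 h, bne_iff_ne.2 this]

theorem slide_map (π : W) (u : List L) : slide (u.map π.1) = (slide u).map π.1 := by
  match u with
  | [] => rfl
  | [_] => rfl
  | a :: t :: U =>
    simp only [slide, List.map_cons, List.map_append, List.takeWhile_map, List.dropWhile_map]
    have : ((fun l => l != bar (π.1 a)) ∘ π.1) = fun l => l != bar a :=
      funext (fun l => BList_ne π a l)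
    rw [this]

theorem idxOf_map (π : Equiv.Perm L) (b : L) (u : List L) :
    (u.map π).idxOf (π b) = u.idxOf b := by
  induction u with
  | nil => rfl
  | cons x u ih =>
    by_cases h : x = b
    · simp [h]
    · have : π x ≠ π b := fun e => h (π.injective e)
      simp [List.idxOf_cons, h, this, ih]

theorem shape_map (π : W) (u : List L) : shape (u.map π.1) = shape u := by
  unfold shape
  rw [List.map_map]
  apply List.map_congr_left
  intro l _
  simp only [Function.comp]
  rw [← W_bar, idxOf_map]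

theorem map_inj_of_valid {u : List L} (h : Valid u) {π σ : W} (e : u.map π.1 = u.map σ.1) :
    π = σ :=
  Subtype.ext (Equiv.ext (fun l => List.map_inj_left.1 e l (h.2 l)))

theorem iso_of_shape {u v : List L} (hu : Valid u) (hv : Valid v) (h : shape u = shape v) :
    ∃ π : W, v = u.map π.1 := by
  have hl : ∀ l, u.idxOf l < v.length := fun l => by
    rw [hv.length, ← hu.length]; exact List.idxOf_lt_length_of_mem (hu.2 l)
  have hlu : ∀ l, u.idxOf l < u.length := fun l => List.idxOf_lt_length_of_mem (hu.2 l)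
  let f : L → L := fun l => v[u.idxOf l]'(hl l)
  have hf : ∀ l, v.idxOf (f l) = u.idxOf l := fun l => List.Nodup.idxOf_getElem hv.1 _ _
  have hinj : Function.Injective f := by
    intro l m e
    have : u.idxOf l = u.idxOf m := by rw [← hf, ← hf, e]
    exact (List.idxOf_inj (hu.2 l)).1 this
  have hsh : ∀ l, u.idxOf (bar l) = v.idxOf (bar (f l)) := by
    intro l
    have h1 : (shape u)[u.idxOf l]? = (shape v)[u.idxOf l]? := by rw [h]
    unfold shape at h1
    rw [List.getElem?_map, List.getElem?_map, List.getElem?_eq_getElem (hlu l),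
      List.getElem?_eq_getElem (hl l)] at h1
    simpa [List.getElem_idxOf] using h1
  refine ⟨⟨Equiv.ofBijective f (Finite.injective_iff_bijective.1 hinj), fun l => ?_⟩, ?_⟩
  · show f (bar l) = bar (f l)
    have : v.idxOf (f (bar l)) = v.idxOf (bar (f l)) := by rw [hf, hsh]
    exact (List.idxOf_inj (hv.2 _)).1 this
  · apply List.ext_getElem
    · simp [hu.length, hv.length]
    · intro i h1 h2
      simp only [List.getElem_map]
      show v[i] = f _
      simp only [f]
      congr 1
      exact (List.Nodup.idxOf_getElem hu.1 _ _).symm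

theorem rotate_idxOf {u : List L} {b : L} (hb : b ∈ u) :
    ∃ U V, u = U ++ b :: V ∧ b ∉ U ∧ u.idxOf b = U.length ∧
      u.rotate (u.idxOf b) = b :: V ++ U := by
  induction u with
  | nil => simp at hb
  | cons x u ih =>
    by_cases h : x = b
    · subst h
      exact ⟨[], u, rfl, by simp, by simp, by simp⟩
    · obtain ⟨U, V, rfl, h1, h2, -⟩ := ih (by simpa [Ne.symm h] using hb)
      have h3 : (x :: (U ++ b :: V)).idxOf b = (x :: U).length := by
        rw [List.idxOf_cons_ne _ h, h2]; rfl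
      refine ⟨x :: U, V, rfl, by simp [Ne.symm h, h1], h3, ?_⟩
      rw [h3, ← List.cons_append, List.rotate_append_length_eq]

theorem head_rotate_idxOf {u : List L} {b : L} (hb : b ∈ u) :
    (u.rotate (u.idxOf b)).head? = some b := by
  obtain ⟨U, V, -, -, -, h⟩ := rotate_idxOf hb
  rw [h]; rfl

theorem idx_of_head {u : List L} (hu : Valid u) {a : L} {j : ℕ}
    (h : (u.rotate j).head? = some a) : j % 16 = u.idxOf a := by
  have hl := hu.length
  have hj : j % 16 < u.length := by rw [hl]; exact Nat.mod_lt _ (by norm_num)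
  rw [← List.rotate_mod, hl, List.head?_rotate hj, List.getElem?_eq_getElem hj] at h
  rw [← Option.some.inj h]
  exact (List.Nodup.idxOf_getElem hu.1 _ _).symm

theorem succL_eq {u : List L} (hu : Valid u) {b c : L} (h : Nx (u : Cycle L) b c) :
    succL u b = c := by
  obtain ⟨U, V, -, -, -, h4⟩ := rotate_idxOf (hu.2 b)
  obtain ⟨M, hM⟩ := h
  have h5 : ((b :: (V ++ U) : List L) : Cycle L) = ↑(b :: (c :: M)) := by
    rw [← hM, ← List.cons_append, ← h4]
    exact Cycle.coe_eq_coe.2 (List.IsRotated.symm ⟨_, rfl⟩)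
  have h6 : (b :: (V ++ U)).Nodup := by
    rw [← List.cons_append, ← h4]; exact (hu.rotate _).1
  have h7 := cyc_head_inj h6 h5
  unfold succL
  rw [h4, List.cons_append, h7]
  rfl

theorem okShape_iff {u : List L} (h : okShape u = true) :
    ∃ a t U, u = a :: t :: U ∧ Valid u ∧ t ≠ bar a ∧
      simW u (fw [a, t, bar a]) (bar t) = u.map (triF a t) ∧
      ∀ c ∈ cells u, simW u (fw c.1) a = simW u (fw c.2) a := by
  match u, h with
  | a :: t :: U, h =>
    simp only [okShape, Bool.and_eq_true, beq_iff_eq, List.all_eq_true, bne_iff_ne,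
      List.contains_iff_mem] at h
    exact ⟨a, t, U, rfl, valid_of_length h.1.1.1.1 (fun l => h.1.1.1.2 l (mem_allL l)),
      h.1.1.2, h.1.2, h.2⟩

theorem triF_eq {π : W} {a b : L} (h : IsTri π a b) (l : L) : π.1 l = triF a b l := by
  unfold triF
  split_ifs with h1 h2 h3 h4
  · rw [h1, h.1]
  · rw [h2, h.2.1]
  · rw [h3, W_bar, h.1]
  · rw [h4, W_bar, h.2.1, bar_bar]
  · apply h.2.2
    · intro e; rcases eq_or_bar e with e | e
      · exact h2 e
      · exact h4 e
    · intro e; rcases eq_or_bar e with e | e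
      · exact h1 e
      · exact h3 e

end Pool.Agent.MP_61a8e3_al.G4.A

end

section

/-!
Rooted tables described by positions.  `sh x i` is the position of the inverse of the letter at the
position `i` of the rooted word of `x`; the root is at the position `0`.
-/

set_option autoImplicit false

namespace Pool.Agent.MP_61a8e3_al.G4.A

/-- The new position of the letter at the position `p` after the slide at the root, when the
inverse of the root is at the position `k`. -/
def sp (k p : ℕ) : ℕ := if p = 1 then k - 1 else if 2 ≤ p ∧ p < k then p - 1 else p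

/-- Running a forward program. -/
def fwd {Xc : Type} (T : Xc → Xc) (ρ : Equiv.Perm Xc) : List ℕ → ℕ → Xc → Xc
  | [], k, x => (ρ ^ k) x
  | j :: js, k, x => fwd T ρ js k (T ((ρ ^ j) x))

/-- A rooted table given by positions. -/
structure NTab (Xc : Type) where
  sh : Xc → ℕ → ℕ
  T : Xc → Xc
  ρ : Equiv.Perm Xc
  surj : Function.Injective T → Function.Surjective T
  lt : ∀ x, ∀ i < 16, sh x i < 16
  inv : ∀ x, ∀ i < 16, sh x (sh x i) = i
  ne : ∀ x, ∀ i < 16, sh x i ≠ i
  adj : ∀ x, sh x 0 ≠ 1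
  sh_T : ∀ x, ∀ i < 16, sh (T x) (sp (sh x 0) i) = sp (sh x 0) (sh x i)
  sh_ρ : ∀ x, ∀ i < 16, sh (ρ x) i = (sh x ((i + 1) % 16) + 15) % 16
  ρ16 : ∀ x, (ρ ^ 16) x = x
  tri : ∀ x y z, y = (ρ ^ (sh x 0 - 1)) (T x) → z = (ρ ^ (sh y 0 - 1)) (T y) →
    (ρ ^ (sh z 0 - 1)) (T z) = x
  comm : ∀ x q y z, 2 ≤ q → q ≤ 8 → q ≠ sh x 1 → q + 1 ≠ sh x 0 → y = (ρ ^ q) x →
    z = (ρ ^ sp (sh x 0) q) (T x) →
    T ((ρ ^ sp (sh y 0) (16 - q)) (T y)) = (ρ ^ sp (sh z 0) (16 - sp (sh x 0) q)) (T z)
  pent : ∀ x y, sh x 0 ≠ 2 → y = (ρ ^ (sh x 0 - 2)) (T (T x)) →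
    (ρ ^ sp (sh y 0) (18 - sh x 0)) (T y) = T ((ρ ^ 15) (T (ρ x)))
  pent2 : ∀ x z, sh x 1 ≠ 15 → sh x 1 + 1 ≠ sh x 0 → z = (ρ ^ sp (sh x 0) (sh x 1)) (T x) →
    T (T ((ρ ^ (15 - sh x 1)) (T ((ρ ^ sh x 1) x)))) =
      (ρ ^ sp (sh z 0) (16 - sp (sh x 0) (sh x 1))) (T z)
  twist : ∀ x, 8 ≤ sh x 0 → ∃ n y, y = T^[n] x ∧
    T^[sh x 0 - 1] y = (ρ ^ (16 - sh x 0)) (T^[15 - sh x 0] ((ρ ^ sh x 0) y))

end Pool.Agent.MP_61a8e3_al.G4.A

end

section

/-!
Functions on `(ZMod 3)^4`, the Heisenberg group acting on them, its normaliser, and the gates.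
-/

set_option autoImplicit false

namespace Pool.Agent.MP_61a8e3_al.G4.C

abbrev I : Type := Fin 4 → ZMod 3
abbrev V : Type := I → ℂ
abbrev GV : Type := V ≃ₗ[ℂ] V

/-- A primitive cube root of unity. -/
noncomputable def om : ℂ := ⟨-1 / 2, Real.sqrt 3 / 2⟩

theorem om_sq : om ^ 2 = -1 - om := by
  have h : Real.sqrt 3 * Real.sqrt 3 = 3 := Real.mul_self_sqrt (by norm_num)
  apply Complex.ext
  · simp [om, pow_two]; linarith
  · simp [om, pow_two]; ring

theorem om_cube : om ^ 3 = 1 := by
  rw [pow_succ, om_sq]; linear_combination (-1 : ℂ) * om_sq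

theorem om_ne_zero : om ≠ 0 := fun h => by simpa [h] using om_cube

theorem om_ne_one : om ≠ 1 := fun h => by
  have := om_sq
  rw [h] at this
  norm_num at this

theorem om_pow_mod (n : ℕ) : om ^ (n % 3) = om ^ n := by
  conv_rhs => rw [← Nat.mod_add_div n 3, pow_add, pow_mul, om_cube, one_pow, mul_one]

/-- The additive character. -/
noncomputable def ch (t : ZMod 3) : ℂ := om ^ t.val

theorem ch_natCast (n : ℕ) : ch (n : ZMod 3) = om ^ n := by
  rw [ch, ZMod.val_natCast, om_pow_mod]

theorem ch_zero : ch 0 = 1 := by simp [ch]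

theorem ch_add (s t : ZMod 3) : ch (s + t) = ch s * ch t := by
  rw [ch, ch, ch, ZMod.val_add, om_pow_mod, pow_add]

theorem ch_neg_mul (s : ZMod 3) : ch (-s) * ch s = 1 := by
  rw [← ch_add, neg_add_cancel, ch_zero]

theorem ch_ne_zero (s : ZMod 3) : ch s ≠ 0 := pow_ne_zero _ om_ne_zero

/-- A monomial map. -/
noncomputable def mono (σ : I ≃ I) (q : I → ZMod 3) : GV where
  toFun v y := ch (q y) * v (σ y)
  invFun v y := ch (-q (σ.symm y)) * v (σ.symm y)
  map_add' v w := by funext y; simp [mul_add]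
  map_smul' c v := by funext y; simp [mul_left_comm]
  left_inv v := by
    funext y
    simp only [Equiv.apply_symm_apply]
    rw [← mul_assoc, ch_neg_mul, one_mul]
  right_inv v := by
    funext y
    simp only [Equiv.symm_apply_apply]
    rw [← mul_assoc, mul_comm (ch _), ch_neg_mul, one_mul]

theorem mono_apply (σ : I ≃ I) (q : I → ZMod 3) (v : V) (y : I) :
    mono σ q v y = ch (q y) * v (σ y) := rfl

/-- The standard pairing. -/
def dot (a b : I) : ZMod 3 := ∑ j, a j * b j

/-- The elements of the Heisenberg group. -/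
noncomputable def hei (c : ZMod 3) (a b : I) : GV :=
  mono (Equiv.addRight a) (fun y => c + dot b y)

theorem hei_apply (c : ZMod 3) (a b : I) (v : V) (y : I) :
    hei c a b v y = ch (c + dot b y) * v (y + a) := rfl

/-- The Heisenberg group as a set. -/
def HH : Set GV := {U | ∃ c a b, U = hei c a b}

/-- The elements of the normaliser whose determinant is a sixth root of unity. -/
def NN : Subgroup GV where
  carrier := {U | U ∈ Subgroup.normalizer HH ∧ LinearEquiv.det U ^ 6 = 1}
  mul_mem' := fun {a b} ha hb =>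
    ⟨mul_mem ha.1 hb.1, by rw [map_mul, mul_pow, ha.2, hb.2, one_mul]⟩
  one_mem' := ⟨one_mem _, by rw [map_one, one_pow]⟩
  inv_mem' := fun {a} ha => ⟨inv_mem ha.1, by rw [map_inv, inv_pow, ha.2, inv_one]⟩

/-- The lattice of translations. -/
def MM : AddSubgroup V :=
  AddSubgroup.closure {w | ∃ U ∈ NN, ∃ x : I, w = U (Pi.single x 1)}

/-- Linear maps in `NN`, as functions. -/
def IsLin (g : V → V) : Prop := ∃ U ∈ NN, ∀ v, g v = U v

/-- Affine maps with linear part in `NN` and translation part in `MM`. -/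
def IsAf (g : V → V) : Prop := ∃ U ∈ NN, ∃ b ∈ MM, ∀ v, g v = U v + b

/-- The second test vector. -/
noncomputable def xi (y : I) : ℂ :=
  if y = Pi.single 0 1 then 2 else if y = Pi.single 1 1 then 3 else
    if y = Pi.single 2 1 then 4 else if y = Pi.single 3 1 then 5 else 1

/-- The three test points. -/
noncomputable def pt (m : ℕ) : V :=
  if m = 0 then 0 else if m = 1 then (9 : ℂ) • Pi.single 0 1 else (9 : ℂ) • xi

/-- The digit of `c` in base four at the place `j`, modulo three. -/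
def dq (c j : ℕ) : ZMod 3 := ((c / 4 ^ j % 4 : ℕ) : ZMod 3)

/-- The affine function with the code `c`. -/
def af (c : ℕ) (y : I) : ZMod 3 :=
  dq c 0 * y 0 + dq c 1 * y 1 + dq c 2 * y 2 + dq c 3 * y 3 + dq c 4

/-- The quadratic function with the codes `c0`, `c1`, `c2`. -/
def qf (c0 c1 c2 : ℕ) (y : I) : ZMod 3 :=
  (dq c0 0 * (y 0 * y 0) + dq c0 1 * (y 0 * y 1) + dq c0 2 * (y 0 * y 2) + dq c0 3 * (y 0 * y 3) +
    dq c0 4 * y 0) +
  (dq c1 0 * (y 1 * y 1) + dq c1 1 * (y 1 * y 2) + dq c1 2 * (y 1 * y 3) + dq c1 3 * y 1 +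
    dq c1 4) +
  (dq c2 0 * (y 2 * y 2) + dq c2 1 * (y 2 * y 3) + dq c2 2 * y 2 + dq c2 3 * (y 3 * y 3) +
    dq c2 4 * y 3)

/-- Change of one coordinate. -/
def Rf (i : Fin 4) (c : ℕ) (v : V) : V := fun y => v (Function.update y i (af c y))

/-- Quadratic phase. -/
noncomputable def Df (c0 c1 c2 : ℕ) (v : V) : V := fun y => ch (qf c0 c1 c2 y) * v y

/-- The gate `om ^ s + X + X ^ 2` in the coordinate `i`. -/
noncomputable def Gf (i : Fin 4) (s : ℕ) (v : V) : V := fun y =>
  om ^ s * v y + v (Function.update y i (y i + 1)) + v (Function.update y i (y i + 2))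

end Pool.Agent.MP_61a8e3_al.G4.C

end

section

/-!
Part K (kernel check): definitions.

Numbers are read in base `2 ^ 16` (slots).  A state has 486 slots; the slot `x + 81 m + 162 f`
holds the coefficient of `om ^ f` in the entry `x` of the vector number `m`.  All checks are
numbers, and `0` means success.
-/

set_option autoImplicit false

namespace Pool.Agent.MP_61a8e3_al.G4.K

open C

/-- the digit in the slot `s` -/
def dig (y s : ℕ) : ℕ := y / 2 ^ (16 * s) % 2 ^ 16

/-- the index of a point -/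
def ix (y : I) : ℕ := (y 0).val + 3 * (y 1).val + 9 * (y 2).val + 27 * (y 3).val

/-- the vector number `m` of a state -/
noncomputable def vec (st m : ℕ) : V := fun y =>
  (dig st (ix y + 81 * m) : ℂ) + (dig st (ix y + 81 * m + 162) : ℂ) * om +
    (dig st (ix y + 81 * m + 324) : ℂ) * om ^ 2

/-- a state with digits at most `n` -/
def Bd (st n : ℕ) : Prop := st < 2 ^ (16 * 486) ∧ ∀ s, dig st s ≤ n

/-- a box -/
inductive Bx (α : Type)
  | mk (f : α)

/-- force a number -/
noncomputable def frc (x : ℕ) (k : ℕ → ℕ) : ℕ :=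
  Nat.rec (motive := fun _ => ℕ) (k (nat_lit 0)) (fun p _ => k (Nat.succ p)) x

theorem frc_eq (x : ℕ) (k : ℕ → ℕ) : frc x k = k x := by cases x <;> rfl

/-- the sum of the numbers `f (b + i)` with `i < n` -/
noncomputable def sumN (b n : ℕ) (f : ℕ → ℕ) : ℕ :=
  Nat.rec (motive := fun _ => ℕ) (nat_lit 0) (fun p ih => Nat.add (Nat.rec (motive := fun _ => ℕ)
      (f (nat_lit 0)) (fun p _ => f (Nat.succ p)) (Nat.add b p)) ih) n

theorem sumN_spec {b n : ℕ} {f : ℕ → ℕ} (h : sumN b n f = 0) (i : ℕ) (hi : i < n) :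
    f (b + i) = 0 := by
  induction n with
  | zero => omega
  | succ n ih =>
    change frc (b + n) f + sumN b n f = 0 at h
    rw [frc_eq, Nat.add_eq_zero_iff] at h
    rcases Nat.lt_succ_iff_lt_or_eq.1 hi with h' | rfl
    exacts [ih h.2 h', h.1]

/-- the coordinate `0` in each of the 81 slots -/
def b0 : ℕ := nat_lit 0x200010000000200010000000200010000000200010000000200010000000200010000000200010000000200010000000200010000000200010000000200010000000200010000000200010000000200010000000200010000000200010000000200010000000200010000000200010000000200010000000200010000000200010000000200010000000200010000000200010000000200010000000200010000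

/-- the coordinate `1` in each of the 81 slots -/
def b1 : ℕ := nat_lit 0x200020002000100010001000000000000000200020002000100010001000000000000000200020002000100010001000000000000000200020002000100010001000000000000000200020002000100010001000000000000000200020002000100010001000000000000000200020002000100010001000000000000000200020002000100010001000000000000000200020002000100010001000000000000

/-- the coordinate `2` in each of the 81 slots -/
def b2 : ℕ := nat_lit 0x200020002000200020002000200020002000100010001000100010001000100010001000000000000000000000000000000000000000200020002000200020002000200020002000100010001000100010001000100010001000000000000000000000000000000000000000200020002000200020002000200020002000100010001000100010001000100010001000000000000000000000000000000000000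

/-- the coordinate `3` in each of the 81 slots -/
def b3 : ℕ := nat_lit 0x200020002000200020002000200020002000200020002000200020002000200020002000200020002000200020002000200020002000100010001000100010001000100010001000100010001000100010001000100010001000100010001000100010001000100010001000000000000000000000000000000000000000000000000000000000000000000000000000000000000000000000000000000000000

/-- the product of the coordinates `0` and `0` modulo three -/
def q00 : ℕ := nat_lit 0x100010000000100010000000100010000000100010000000100010000000100010000000100010000000100010000000100010000000100010000000100010000000100010000000100010000000100010000000100010000000100010000000100010000000100010000000100010000000100010000000100010000000100010000000100010000000100010000000100010000000100010000000100010000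

/-- the product of the coordinates `0` and `1` modulo three -/
def q01 : ℕ := nat_lit 0x100020000000200010000000000000000000100020000000200010000000000000000000100020000000200010000000000000000000100020000000200010000000000000000000100020000000200010000000000000000000100020000000200010000000000000000000100020000000200010000000000000000000100020000000200010000000000000000000100020000000200010000000000000000

/-- the product of the coordinates `0` and `2` modulo three -/
def q02 : ℕ := nat_lit 0x100020000000100020000000100020000000200010000000200010000000200010000000000000000000000000000000000000000000100020000000100020000000100020000000200010000000200010000000200010000000000000000000000000000000000000000000100020000000100020000000100020000000200010000000200010000000200010000000000000000000000000000000000000000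

/-- the product of the coordinates `0` and `3` modulo three -/
def q03 : ℕ := nat_lit 0x100020000000100020000000100020000000100020000000100020000000100020000000100020000000100020000000100020000000200010000000200010000000200010000000200010000000200010000000200010000000200010000000200010000000200010000000000000000000000000000000000000000000000000000000000000000000000000000000000000000000000000000000000000000

/-- the product of the coordinates `1` and `1` modulo three -/
def q11 : ℕ := nat_lit 0x100010001000100010001000000000000000100010001000100010001000000000000000100010001000100010001000000000000000100010001000100010001000000000000000100010001000100010001000000000000000100010001000100010001000000000000000100010001000100010001000000000000000100010001000100010001000000000000000100010001000100010001000000000000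

/-- the product of the coordinates `1` and `2` modulo three -/
def q12 : ℕ := nat_lit 0x100010001000200020002000000000000000200020002000100010001000000000000000000000000000000000000000000000000000100010001000200020002000000000000000200020002000100010001000000000000000000000000000000000000000000000000000100010001000200020002000000000000000200020002000100010001000000000000000000000000000000000000000000000000

/-- the product of the coordinates `1` and `3` modulo three -/
def q13 : ℕ := nat_lit 0x100010001000200020002000000000000000100010001000200020002000000000000000100010001000200020002000000000000000200020002000100010001000000000000000200020002000100010001000000000000000200020002000100010001000000000000000000000000000000000000000000000000000000000000000000000000000000000000000000000000000000000000000000000000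

/-- the product of the coordinates `2` and `2` modulo three -/
def q22 : ℕ := nat_lit 0x100010001000100010001000100010001000100010001000100010001000100010001000000000000000000000000000000000000000100010001000100010001000100010001000100010001000100010001000100010001000000000000000000000000000000000000000100010001000100010001000100010001000100010001000100010001000100010001000000000000000000000000000000000000

/-- the product of the coordinates `2` and `3` modulo three -/
def q23 : ℕ := nat_lit 0x100010001000100010001000100010001000200020002000200020002000200020002000000000000000000000000000000000000000200020002000200020002000200020002000100010001000100010001000100010001000000000000000000000000000000000000000000000000000000000000000000000000000000000000000000000000000000000000000000000000000000000000000000000000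

/-- the product of the coordinates `3` and `3` modulo three -/
def q33 : ℕ := nat_lit 0x100010001000100010001000100010001000100010001000100010001000100010001000100010001000100010001000100010001000100010001000100010001000100010001000100010001000100010001000100010001000100010001000100010001000100010001000000000000000000000000000000000000000000000000000000000000000000000000000000000000000000000000000000000000

/-- digit 1 in the slots below 81 -/
def cO : ℕ := nat_lit 0x100010001000100010001000100010001000100010001000100010001000100010001000100010001000100010001000100010001000100010001000100010001000100010001000100010001000100010001000100010001000100010001000100010001000100010001000100010001000100010001000100010001000100010001000100010001000100010001000100010001000100010001000100010001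
def c15 : ℕ := Nat.mul cO 15
def c255 : ℕ := Nat.mul cO 255
def c511 : ℕ := Nat.mul cO 511
/-- digit 65535 in the slots below 486 -/
def cF : ℕ := nat_lit 0xffffffffffffffffffffffffffffffffffffffffffffffffffffffffffffffffffffffffffffffffffffffffffffffffffffffffffffffffffffffffffffffffffffffffffffffffffffffffffffffffffffffffffffffffffffffffffffffffffffffffffffffffffffffffffffffffffffffffffffffffffffffffffffffffffffffffffffffffffffffffffffffffffffffffffffffffffffffffffffffffffffffffffffffffffffffffffffffffffffffffffffffffffffffffffffffffffffffffffffffffffffffffffffffffffffffffffffffffffffffffffffffffffffffffffffffffffffffffffffffffffffffffffffffffffffffffffffffffffffffffffffffffffffffffffffffffffffffffffffffffffffffffffffffffffffffffffffffffffffffffffffffffffffffffffffffffffffffffffffffffffffffffffffffffffffffffffffffffffffffffffffffffffffffffffffffffffffffffffffffffffffffffffffffffffffffffffffffffffffffffffffffffffffffffffffffffffffffffffffffffffffffffffffffffffffffffffffff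ffffffffffffffffffffffffffffffffffffffffffffffffffffffffffffffffffffffffffffffffffffffffffffffffffffffffffffffffffffffffffffffffffffffffffffffffffffffffffffffffffffffffffffffffffffffffffffffffffffffffffffffffffffffffffffffffffffffffffffffffffffffffffffffffffffffffffffffffffffffffffffffffffffffffffffffffffffffffffffffffffffffffffffffffffffffffffffffffffffffffffffffffffffffffffffffffffffffffffffffffffffffffffffffffffffffffffffffffffffffffffffffffffffffffffffffffffffffffffffffffffffffffffffffffffffffffffffffffffffffffffffffffffffffffffffffffffffffffffffffffffffffffffffffffffffffffffffffffffffffffffffffffffffffffffffffffffffffffffffffffffffffffffffffffffffffffffffffffffffffffffffffffffffffffffffffffffffffffffffffffffffffffffffffffffffffffffffffffffffffffffffffffffffffffffffffffffffffffffffffffffffffffffffffffffffffffffffffffffffffffffffffffffffffffffffffffffffffffffffffffffffffffffffffffffffffffffffffffffffffffffffffffffffffffffffffffffffffffffffffffffffffffffffffffffffffffffffffffffffffffffffffffffffffffffffffffffffffffffffffffffffffffffffffffffffffffffffffffffffffffffffffffffffffffffffffffffffffffff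
/-- digit 65535 in the slots `81 r`, `r < 6` -/
def cR : ℕ := nat_lit 0xffff00000000000000000000000000000000000000000000000000000000000000000000000000000000000000000000000000000000000000000000000000000000000000000000000000000000000000000000000000000000000000000000000000000000000000000000000000000000000000000000000000000000000000000000000000000000000000000000000000000000000000000000000000000000ffff00000000000000000000000000000000000000000000000000000000000000000000000000000000000000000000000000000000000000000000000000000000000000000000000000000000000000000000000000000000000000000000000000000000000000000000000000000000000000000000000000000000000000000000000000000000000000000000000000000000000000000000000000000000ffff00000000000000000000000000000000000000000000000000000000000000000000000000000000000000000000000000000000000000000000000000000000000000000000000000000000000000000000000000000000000000000000000000000000000000000000000000000000000000000000000000000000000000000000000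000000000000000000000000000000000000000000000000000000000ffff00000000000000000000000000000000000000000000000000000000000000000000000000000000000000000000000000000000000000000000000000000000000000000000000000000000000000000000000000000000000000000000000000000000000000000000000000000000000000000000000000000000000000000000000000000000000000000000000000000000000000000000000000000000ffff00000000000000000000000000000000000000000000000000000000000000000000000000000000000000000000000000000000000000000000000000000000000000000000000000000000000000000000000000000000000000000000000000000000000000000000000000000000000000000000000000000000000000000000000000000000000000000000000000000000000000000000000000000000ffff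
/-- digit 65535 in the slots below 324 -/
def cL : ℕ := nat_lit 0xffffffffffffffffffffffffffffffffffffffffffffffffffffffffffffffffffffffffffffffffffffffffffffffffffffffffffffffffffffffffffffffffffffffffffffffffffffffffffffffffffffffffffffffffffffffffffffffffffffffffffffffffffffffffffffffffffffffffffffffffffffffffffffffffffffffffffffffffffffffffffffffffffffffffffffffffffffffffffffffffffffffffffffffffffffffffffffffffffffffffffffffffffffffffffffffffffffffffffffffffffffffffffffffffffffffffffffffffffffffffffffffffffffffffffffffffffffffffffffffffffffffffffffffffffffffffffffffffffffffffffffffffffffffffffffffffffffffffffffffffffffffffffffffffffffffffffffffffffffffffffffffffffffffffffffffffffffffffffffffffffffffffffffffffffffffffffffffffffffffffffffffffffffffffffffffffffffffffffffffffffffffffffffffffffffffffffffffffffffffffffffffffffffffffffffffffffffffffffffffffffffffffffffffffffffffffffffffffffffffffffffffffffffffffffffffffffffffffffffffffffffffffffffffffffffffffffffffffffffffffffffffffffffffffffffffffffffffffffffffffffffffffffffffffffffffffffffffffffffffffffffffffffffffffffffffffffffffffffffffffffffffffffffffffffffffffffffffffffffffffffffffffffffffffffffffffffffffffffffffffffffffffffffffffffffffffffffffffffffffffffffffffffffffffffffffffffffffffffffffffffffffffffffffffffffffffffffffffffffffffffffffffffffffffffffffffffffffffffffffffffffffffffffffff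
/-- digit 1 in the slots 0 and 162 -/
def cD : ℕ := nat_lit 0x1000000000000000000000000000000000000000000000000000000000000000000000000000000000000000000000000000000000000000000000000000000000000000000000000000000000000000000000000000000000000000000000000000000000000000000000000000000000000000000000000000000000000000000000000000000000000000000000000000000000000000000000000000000000000000000000000000000000000000000000000000000000000000000000000000000000000000000000000000000000000000000000000000000000000000000000000000000000000000000000000000000000000000000000000000000000000000000000000000000000000000000000000000000000000000000000000000000000000000000000000000000000000000000000000000000000000000000000001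
/-- digit 1 in the slots 0 and 81 -/
def cB : ℕ := Nat.add (Nat.pow 2 1296) 1
/-- digit 65280 in the slots below 486 -/
def cH : ℕ := nat_lit 0xff00ff00ff00ff00ff00ff00ff00ff00ff00ff00ff00ff00ff00ff00ff00ff00ff00ff00ff00ff00ff00ff00ff00ff00ff00ff00ff00ff00ff00ff00ff00ff00ff00ff00ff00ff00ff00ff00ff00ff00ff00ff00ff00ff00ff00ff00ff00ff00ff00ff00ff00ff00ff00ff00ff00ff00ff00ff00ff00ff00ff00ff00ff00ff00ff00ff00ff00ff00ff00ff00ff00ff00ff00ff00ff00ff00ff00ff00ff00ff00ff00ff00ff00ff00ff00ff00ff00ff00ff00ff00ff00ff00ff00ff00ff00ff00ff00ff00ff00ff00ff00ff00ff00ff00ff00ff00ff00ff00ff00ff00ff00ff00ff00ff00ff00ff00ff00ff00ff00ff00ff00ff00ff00ff00ff00ff00ff00ff00ff00ff00ff00ff00ff00ff00ff00ff00ff00ff00ff00ff00ff00ff00ff00ff00ff00ff00ff00ff00ff00ff00ff00ff00ff00ff00ff00ff00ff00ff00ff00ff00ff00ff00ff00ff00ff00ff00ff00ff00ff00ff00ff00ff00ff00ff00ff00ff00ff00ff00ff00ff00ff00ff00ff00ff00ff00ff00ff00ff00ff00ff00ff00ff00ff00ff00ff00ff00ff00ff00ff00ff00ff00ff00ff00ff00ff00ff00ff00ff00ff00ff00ff0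0ff00ff00ff00ff00ff00ff00ff00ff00ff00ff00ff00ff00ff00ff00ff00ff00ff00ff00ff00ff00ff00ff00ff00ff00ff00ff00ff00ff00ff00ff00ff00ff00ff00ff00ff00ff00ff00ff00ff00ff00ff00ff00ff00ff00ff00ff00ff00ff00ff00ff00ff00ff00ff00ff00ff00ff00ff00ff00ff00ff00ff00ff00ff00ff00ff00ff00ff00ff00ff00ff00ff00ff00ff00ff00ff00ff00ff00ff00ff00ff00ff00ff00ff00ff00ff00ff00ff00ff00ff00ff00ff00ff00ff00ff00ff00ff00ff00ff00ff00ff00ff00ff00ff00ff00ff00ff00ff00ff00ff00ff00ff00ff00ff00ff00ff00ff00ff00ff00ff00ff00ff00ff00ff00ff00ff00ff00ff00ff00ff00ff00ff00ff00ff00ff00ff00ff00ff00ff00ff00ff00ff00ff00ff00ff00ff00ff00ff00ff00ff00ff00ff00ff00ff00ff00ff00ff00ff00ff00ff00ff00ff00ff00ff00ff00ff00ff00ff00ff00ff00ff00ff00ff00ff00ff00ff00ff00ff00ff00ff00ff00ff00ff00ff00ff00ff00ff00ff00ff00ff00ff00ff00ff00ff00ff00ff00ff00ff00ff00ff00ff00ff00ff00ff00ff00ff00ff00ff00ff00ff00ff00ff00ff00ff00ff00ff00ff00ff00ff00ff00ff00ff00ff00ff00ff00ff00ff00ff00ff00ff00ff00ff00ff00ff00ff00ff00ff00ff00ff00ff00ff00ff00ff00ff00ff00ff00ff00ff00ff00ff00ff00ff00ff00ff00ff00ff00ff00ff00ff00ff00ff00ff00ff00ff00ff00ff00ff00ff00ff00ff00ff00ff00ff00ff00ff00ff00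
/-- digit 128 in the slots from 324 to 485 -/
def cC : ℕ := Nat.mul (Nat.div (Nat.sub cF cL) 65535) 128

/-- the state of the two test points -/
def st0 : ℕ := nat_lit 0x8000800080008000800080008000800080008000800080008000800080008000800080008000800080008000800080008000800080008000800080008000800080008000800080008000800080008000800080008000800080008000800080008000800080008000800080008000800080008000800080008000800080008000800080008000800080008000800080008000800080008000800080008000800080008000800080008000800080008000800080008000800080008000800080008000800080008000800080008000800080008000800080008000800080008000800080008000800080008000800080008000800080008000800080008000800080008000800080008000800080008000800080008000800080008000800080008000800080008000800080008000800080008000800080008000800080008000800080008000800080008000800080008000800080008000800080008000800080008000800080008000800080008000800080008000800080008000800080008000800080008000800080008000800080008000800080008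0008000800080008000800080008000800080008000800080008000800080008000800080008000800080008000800080008000800080008000800080008000800080008000800080008000800080008000800080008000800080008000800080008000800080008000800080008000800080008000800080008000800080008000800080008000800080008000800080008000800080008000800080008000800080008000800080008000800080008000800080008000800080008000800080008000800080008000800080008000800080008000800080008000800080008000800080008000800080008000800089008900890089008900890089008900890089008900890089008900890089008900890089008900890089008900890089008900890089008900890089008900890089008900890089008900890089008900890089008900890089008900890089008900890089008900ad0089008900890089008900890089008900890089008900890089008900890089008900a400890089008900890089009b0089009200b6008000800080008000800080008000800080008000800080008000800080008000800080008000800080008000800080008000800080008000800080008000800080008000800080008000800080008000800080008000800080008000800080008000800080008000800080008000800080008000800080008000800080008000800080008000800080008000800080008000800080008000800080008000800080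

/-- the state of the two test points after a translation -/
def sF : ℕ := nat_lit 0x8000800080008000800080008000800080008000800080008000800080008000800080008000800080008000800080008000800080008000800080008000800080008000800080008000800080008000800080008000800080008000800080008000800080008000800080008000800080008000800080008000800080008000800080008000800080008000800080008000800080008000800080008000800080008000800080008000800080008000800080008000800080008000800080008000800080008000800080008000800080008000800080008000800080008000800080008000800080008000800080008000800080008000800080008000800080008000800080008000800080008000800080008000800080008000800080008000800080008000800080008000800080008000800080008000800080008000800080008000800080008300830083007d007d007d007a00830080007d0083007d00860080008000830083007d0080007a00800080007d007d00800080008000800080008000800080008000800080007d0080007d0080007d00800080007d007d0080008000830080007d00830083008000800080007d007d007d0083008300830086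007d0083008300800083007d00800080008000800083008000830080008300800080008000800080008300830083007d007d007d007a00830080007d0083007d00860080008000830083007d0080007a00800080007d007d00800080008000800080008000800080008000800080007d0080007d0080007d00800080007d007d0080008000830080007d00830083008000800080007d007d007d0083008300830086007d0083008300800083007d0080008000800080008300800083008000830080008000890089008900890089008900890089008900890089008c0089008c0089008c00890089008c008c0089008900860089008c00860086008900890089008c008c008c0086008600860083008c0086008600890086008c008900890089008900860089008600890086008900ad008900890089008600860086008c008c008c008f00860089008c0086008c0083008900a400860086008c0089008f009b0089009500b90080008000800080008000800080008000800080008000830080008300800083008000800083008300800080007d00800083007d007d008000800080008300830083007d007d007d007a0083007d007d0080007d00830080008000800080007d0080007d0080007d00800080008000800080007d007d007d0083008300830086007d00800083007d0083007a00800080007d007d0083008000860080008000830083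

/-- a combination of five patterns -/
def tb (x0 x1 x2 x3 x4 c : ℕ) : ℕ :=
  Nat.add (Nat.add (Nat.add (Nat.add (Nat.mul (Nat.land c (nat_lit 3)) x0)
    (Nat.mul (Nat.land (Nat.shiftRight c (nat_lit 2)) (nat_lit 3)) x1))
    (Nat.mul (Nat.land (Nat.shiftRight c (nat_lit 4)) (nat_lit 3)) x2))
    (Nat.mul (Nat.land (Nat.shiftRight c (nat_lit 6)) (nat_lit 3)) x3))
    (Nat.mul (Nat.land (Nat.shiftRight c (nat_lit 8)) (nat_lit 3)) x4)

/-- reduction modulo three in each slot -/
def m3 (v : ℕ) : ℕ :=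
  Nat.sub v (Nat.mul (Nat.land (Nat.shiftRight (Nat.mul v (nat_lit 43)) (nat_lit 7)) c511)
      (nat_lit 3))

def tq0 (c : ℕ) : ℕ := Nat.mul (Nat.add (Nat.add (Nat.add (Nat.add (Nat.mul (Nat.land c
    (nat_lit 3)) q00) (Nat.mul (Nat.land (Nat.shiftRight c (nat_lit 2)) (nat_lit 3)) q01))
    (Nat.mul (Nat.land (Nat.shiftRight c (nat_lit 4)) (nat_lit 3)) q02)) (Nat.mul (Nat.land
    (Nat.shiftRight c (nat_lit 6)) (nat_lit 3)) q03)) (Nat.mul (Nat.land (Nat.shiftRight c
    (nat_lit 8)) (nat_lit 3)) b0)) (nat_lit 342)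
def tq1 (c : ℕ) : ℕ := Nat.mul (Nat.add (Nat.add (Nat.add (Nat.add (Nat.mul (Nat.land c
    (nat_lit 3)) q11) (Nat.mul (Nat.land (Nat.shiftRight c (nat_lit 2)) (nat_lit 3)) q12))
    (Nat.mul (Nat.land (Nat.shiftRight c (nat_lit 4)) (nat_lit 3)) q13)) (Nat.mul (Nat.land
    (Nat.shiftRight c (nat_lit 6)) (nat_lit 3)) b1)) (Nat.mul (Nat.land (Nat.shiftRight c
    (nat_lit 8)) (nat_lit 3)) cO)) (nat_lit 342)
def tq2 (c : ℕ) : ℕ := Nat.mul (Nat.add (Nat.add (Nat.add (Nat.add (Nat.mul (Nat.land c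
    (nat_lit 3)) q22) (Nat.mul (Nat.land (Nat.shiftRight c (nat_lit 2)) (nat_lit 3)) q23))
    (Nat.mul (Nat.land (Nat.shiftRight c (nat_lit 4)) (nat_lit 3)) b2)) (Nat.mul (Nat.land
    (Nat.shiftRight c (nat_lit 6)) (nat_lit 3)) q33)) (Nat.mul (Nat.land (Nat.shiftRight c
    (nat_lit 8)) (nat_lit 3)) b3)) (nat_lit 342)

/-- the two lowest bits of each digit are the value of a quadratic function -/
def dw (c0 c1 c2 : ℕ) : ℕ := Nat.shiftRight (Nat.add (Nat.add (tq0 c0) (tq1 c1)) (tq2 c2))
    (nat_lit 8)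
def dB1 (w : ℕ) : ℕ := Nat.mul (Nat.land w cO) cR
def dB2 (w : ℕ) : ℕ := Nat.mul (Nat.land (Nat.shiftRight w (nat_lit 1)) cO) cR

/-- two copies of a state -/
def dbl (st : ℕ) : ℕ := Nat.add st (Nat.shiftLeft st (nat_lit 7776))

def dsel (A1 A2 st w : ℕ) : ℕ :=
  Nat.add (Nat.add (Nat.land st (Nat.sub (Nat.sub cF A1) A2))
    (Nat.land (Nat.shiftRight w (nat_lit 5184)) A1)) (Nat.land (Nat.shiftRight w (nat_lit 2592)) A2)

def dse2 (u st : ℕ) : ℕ := Nat.add (Nat.add (Nat.land st (Nat.sub (Nat.sub cF (Nat.mul (Nat.land u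
    cO) cR)) (Nat.mul (Nat.land (Nat.shiftRight u (nat_lit 1)) cO) cR))) (Nat.land (Nat.shiftRight
    (Nat.add st (Nat.shiftLeft st (nat_lit 7776))) (nat_lit 5184)) (Nat.mul (Nat.land u cO) cR)))
    (Nat.land (Nat.shiftRight (Nat.add st (Nat.shiftLeft st (nat_lit 7776))) (nat_lit 2592))
    (Nat.mul (Nat.land (Nat.shiftRight u (nat_lit 1)) cO) cR))

/-- the phase gate -/
def Dop (c0 c1 c2 st : ℕ) : ℕ := Nat.add (Nat.add (Nat.land st (Nat.sub (Nat.sub cF (Nat.mul
    (Nat.land (Nat.shiftRight (Nat.add (Nat.add (tq0 c0) (tq1 c1)) (tq2 c2)) (nat_lit 8)) cO) cR))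
    (Nat.mul (Nat.land (Nat.shiftRight (Nat.shiftRight (Nat.add (Nat.add (tq0 c0) (tq1 c1)) (tq2
    c2)) (nat_lit 8)) (nat_lit 1)) cO) cR))) (Nat.land (Nat.shiftRight (Nat.add st (Nat.shiftLeft
    st (nat_lit 7776))) (nat_lit 5184)) (Nat.mul (Nat.land (Nat.shiftRight (Nat.add (Nat.add (tq0
    c0) (tq1 c1)) (tq2 c2)) (nat_lit 8)) cO) cR))) (Nat.land (Nat.shiftRight (Nat.add st
    (Nat.shiftLeft st (nat_lit 7776))) (nat_lit 2592)) (Nat.mul (Nat.land (Nat.shiftRight
    (Nat.shiftRight (Nat.add (Nat.add (tq0 c0) (tq1 c1)) (tq2 c2)) (nat_lit 8)) (nat_lit 1)) cO)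
    cR))

/-- the pattern of the coordinate `c % 4` -/
noncomputable def bl (c : ℕ) : ℕ :=
  Bool.rec (Bool.rec b0 b1 (Nat.beq (Nat.land c 3) 1)) (Bool.rec b2 b3 (Nat.beq (Nat.land c 3) 3))
    (Nat.ble 2 (Nat.land c 3))

def s1 (c : ℕ) : ℕ := Nat.mul 16 (Nat.pow 3 (Nat.land c 3))
def s2 (c : ℕ) : ℕ := Nat.mul 32 (Nat.pow 3 (Nat.land c 3))
def u1 (c : ℕ) : ℕ := Nat.add (Nat.pow 2 (s1 c)) 1
def u2 (c : ℕ) : ℕ := Nat.add (Nat.pow 2 (s2 c)) 1

/-- the mask of the slots where the pattern `w` has the value `k` -/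
def mk (k w : ℕ) : ℕ :=
  Nat.mul (Nat.sub cO (Nat.land (Nat.shiftRight (Nat.add (Nat.xor w (Nat.mul k cO)) c15) 4) cO)) cR

/-- the new coordinate plus four times the old coordinate -/
noncomputable def ru (c : ℕ) : ℕ :=
  Nat.add (m3 (tb b0 b1 b2 b3 cO (Nat.shiftRight c 2))) (Nat.mul (bl c) 4)

noncomputable def rA (c : ℕ) : ℕ := Nat.add (Nat.shiftRight (mk 4 (ru c)) (s1 c)) (mk 6 (ru c))
noncomputable def rB (c : ℕ) : ℕ := Nat.lor (mk 2 (ru c)) (Nat.shiftRight (mk 8 (ru c)) (s2 c))

/-- exchange the slots in the mask `M` with the slots `n` bits higher, where `u = 2 ^ n + 1` -/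
def swp (M u n x : ℕ) : ℕ :=
  Nat.xor x (Nat.mul (Nat.land (Nat.xor (Nat.shiftRight x n) x) M) u)

/-- the gate that changes one coordinate -/
def Rop (A B u1 u2 s1 s2 st : ℕ) : ℕ := Nat.xor (Nat.xor st (Nat.mul (Nat.land (Nat.xor
    (Nat.shiftRight st s1) st) A) u1)) (Nat.mul (Nat.land (Nat.xor (Nat.shiftRight (Nat.xor st
    (Nat.mul (Nat.land (Nat.xor (Nat.shiftRight st s1) st) A) u1)) s2) (Nat.xor st (Nat.mul
    (Nat.land (Nat.xor (Nat.shiftRight st s1) st) A) u1))) B) u2)

/-- the data of the gate are correct -/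
noncomputable def okR (x : RG) : ℕ :=
  Nat.add (Nat.add (Nat.add (Nat.add (Nat.add (Nat.add (Nat.xor x.A (rA x.c)) (Nat.xor x.B (rB
      x.c)))
    (Nat.xor x.u1 (u1 x.c))) (Nat.xor x.u2 (u2 x.c))) (Nat.xor x.s1 (s1 x.c)))
    (Nat.xor x.s2 (s2 x.c))) (Nat.sub 1 (x.c / 4 / 4 ^ (x.c % 4) % 4 % 3))

def ps (s : ℕ) : ℕ := Nat.mul 2592 (Nat.sub 3 s)
def pm (s : ℕ) : ℕ := Nat.sub (Nat.pow 2 (ps s)) 1
def pq (s : ℕ) : ℕ := Nat.mul 2592 s

/-- multiplication by `om ^ s` -/
def Pop (s st : ℕ) : ℕ :=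
  Nat.add (Nat.shiftRight st (ps s)) (Nat.shiftLeft (Nat.land st (pm s)) (pq s))

/-- multiplication by `2 + om` -/
def Top (st : ℕ) : ℕ :=
  Nat.add (Nat.add st st)
    (Nat.add (Nat.shiftRight st (nat_lit 5184)) (Nat.shiftLeft (Nat.land st cL) (nat_lit 2592)))

noncomputable def gz (c : ℕ) : ℕ := mk 0 (bl c)
def gu (c : ℕ) : ℕ := Nat.add (Nat.add (Nat.pow 2 (s2 c)) (Nat.pow 2 (s1 c))) 1

/-- the gate `om ^ s + X + X ^ 2` -/
def Gop (gu s2 gz ps pm pq st : ℕ) : ℕ :=
  Nat.add (Nat.sub (Nat.mul (Nat.land (Nat.shiftRight (Nat.mul st gu) s2) gz) gu) st)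
    (Nat.add (Nat.shiftRight st ps) (Nat.shiftLeft (Nat.land st pm) pq))

/-- the data of the gate are correct, where `c = i + 4 s` -/
noncomputable def okG (x : GG) : ℕ :=
  Nat.add (Nat.add (Nat.add (Nat.add (Nat.add (Nat.add (Nat.add (Nat.xor x.gu (gu x.c))
    (Nat.xor x.s2 (s2 x.c))) (Nat.xor x.gz (gz x.c))) (Nat.xor x.ps (ps (x.c / 4))))
    (Nat.xor x.pm (pm (x.c / 4)))) (Nat.xor x.pq (pq (x.c / 4)))) (Nat.sub 4 x.c)) (Nat.sub x.c 11)

/-- the translation code `t`, spread and multiplied by `dv` -/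
def off (dv t : ℕ) : ℕ :=
  Nat.mul (Nat.add (Nat.mul (Nat.add (Nat.land t c255)
    (Nat.shiftLeft (Nat.land (Nat.shiftRight t (nat_lit 8)) c255) (nat_lit 2592))) cB) cC) dv

/-- the translation vector of a code -/
noncomputable def trv (t : ℕ) : V := fun y =>
  ((dig t (ix y) % 256 : ℕ) : ℂ) - 128 + (((dig t (ix y) / 256 : ℕ) : ℂ) - 128) * om

def fin3 (W e dv z : ℕ) : ℕ :=
  Nat.mul e (Nat.sub (nat_lit 1) (Nat.add (Nat.add (Nat.mod W dv) (Nat.land e cH)) z))

def fin4 (W dv z : ℕ) : ℕ := Nat.mul (Nat.div W dv) (Nat.sub (nat_lit 1) (Nat.add (Nat.add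
    (Nat.mod W dv) (Nat.land (Nat.div W dv) cH)) z))

/-- exact division with range check; the result is zero (failure) or the new state -/
def finp (dv t z st : ℕ) : ℕ :=
  Nat.mul (Nat.div (Nat.sub (Nat.add (Nat.land st cL) (off dv t))
    (Nat.mul (Nat.shiftRight st (nat_lit 5184)) cD)) dv) (Nat.sub (nat_lit 1) (Nat.add (Nat.add
        (Nat.mod (Nat.sub (Nat.add (Nat.land st cL) (off dv t))
    (Nat.mul (Nat.shiftRight st (nat_lit 5184)) cD)) dv) (Nat.land (Nat.div (Nat.sub (Nat.add
        (Nat.land st cL) (off dv t))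
    (Nat.mul (Nat.shiftRight st (nat_lit 5184)) cD)) dv) cH)) z))

def finm (dv t z st : ℕ) : ℕ :=
  Nat.mul (Nat.div (Nat.sub (Nat.add (Nat.mul (Nat.shiftRight st (nat_lit 5184)) cD) (off dv t))
    (Nat.land st cL)) dv) (Nat.sub (nat_lit 1) (Nat.add (Nat.add (Nat.mod (Nat.sub (Nat.add
        (Nat.mul (Nat.shiftRight st (nat_lit 5184)) cD) (off dv t))
    (Nat.land st cL)) dv) (Nat.land (Nat.div (Nat.sub (Nat.add (Nat.mul (Nat.shiftRight st
        (nat_lit 5184)) cD) (off dv t))
    (Nat.land st cL)) dv) cH)) z))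

/-- the action of a label on states; a nonzero `z` means failure -/
noncomputable def app (l : Lb) : Bx (ℕ → ℕ → ℕ) :=
  Lb.rec (motive := fun _ => Bx (ℕ → ℕ → ℕ)) ⟨fun _ st => st⟩
    (fun dv t => ⟨fun z st => Nat.mul (Nat.div (Nat.sub (Nat.add (Nat.land st cL) (off dv t))
        (Nat.mul (Nat.shiftRight st (nat_lit 5184)) cD)) dv) (Nat.sub (nat_lit 1) (Nat.add
        (Nat.add (Nat.mod (Nat.sub (Nat.add (Nat.land st cL) (off dv t)) (Nat.mul (Nat.shiftRight
        st (nat_lit 5184)) cD)) dv) (Nat.land (Nat.div (Nat.sub (Nat.add (Nat.land st cL) (off dv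
        t)) (Nat.mul (Nat.shiftRight st (nat_lit 5184)) cD)) dv) cH)) z))⟩)
    (fun dv t => ⟨fun z st => Nat.mul (Nat.div (Nat.sub (Nat.add (Nat.mul (Nat.shiftRight st
        (nat_lit 5184)) cD) (off dv t)) (Nat.land st cL)) dv) (Nat.sub (nat_lit 1) (Nat.add
        (Nat.add (Nat.mod (Nat.sub (Nat.add (Nat.mul (Nat.shiftRight st (nat_lit 5184)) cD) (off
        dv t)) (Nat.land st cL)) dv) (Nat.land (Nat.div (Nat.sub (Nat.add (Nat.mul (Nat.shiftRight
        st (nat_lit 5184)) cD) (off dv t)) (Nat.land st cL)) dv) cH)) z))⟩)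
    (fun x _ ih => RG.rec (motive := fun _ => Bx (ℕ → ℕ → ℕ)) (fun _ A B u1 u2 s1 s2 =>
      ⟨fun z st => ih.1 z (Nat.xor (Nat.xor st (Nat.mul (Nat.land (Nat.xor (Nat.shiftRight st s1)
          st) A) u1)) (Nat.mul (Nat.land (Nat.xor (Nat.shiftRight (Nat.xor st (Nat.mul (Nat.land
          (Nat.xor (Nat.shiftRight st s1) st) A) u1)) s2) (Nat.xor st (Nat.mul (Nat.land (Nat.xor
          (Nat.shiftRight st s1) st) A) u1))) B) u2))⟩) x)
    (fun c0 c1 c2 _ ih => ⟨fun z st => ih.1 z (Nat.add (Nat.add (Nat.land st (Nat.sub (Nat.sub cF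
        (Nat.mul (Nat.land (Nat.shiftRight (Nat.add (Nat.add (tq0 c0) (tq1 c1)) (tq2 c2))
        (nat_lit 8)) cO) cR)) (Nat.mul (Nat.land (Nat.shiftRight (Nat.shiftRight (Nat.add (Nat.add
        (tq0 c0) (tq1 c1)) (tq2 c2)) (nat_lit 8)) (nat_lit 1)) cO) cR))) (Nat.land (Nat.shiftRight
        (Nat.add st (Nat.shiftLeft st (nat_lit 7776))) (nat_lit 5184)) (Nat.mul (Nat.land
        (Nat.shiftRight (Nat.add (Nat.add (tq0 c0) (tq1 c1)) (tq2 c2)) (nat_lit 8)) cO) cR)))
        (Nat.land (Nat.shiftRight (Nat.add st (Nat.shiftLeft st (nat_lit 7776))) (nat_lit 2592))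
        (Nat.mul (Nat.land (Nat.shiftRight (Nat.shiftRight (Nat.add (Nat.add (tq0 c0) (tq1 c1))
        (tq2 c2)) (nat_lit 8)) (nat_lit 1)) cO) cR)))⟩)
    (fun x _ ih => GG.rec (motive := fun _ => Bx (ℕ → ℕ → ℕ)) (fun _ gu s2 gz ps pm pq =>
      ⟨fun z st => ih.1 z (Nat.add (Nat.sub (Nat.mul (Nat.land (Nat.shiftRight (Nat.mul st gu) s2)
          gz) gu) st) (Nat.add (Nat.shiftRight st ps) (Nat.shiftLeft (Nat.land st pm) pq)))⟩) x)
    (fun s _ ih => ⟨fun z st => ih.1 z (Nat.add (Nat.shiftRight st (ps s)) (Nat.shiftLeft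
        (Nat.land st (pm s)) (pq s)))⟩)
    (fun _ ih => ⟨fun z st => ih.1 z (Nat.add (Nat.add st st) (Nat.add (Nat.shiftRight st
        (nat_lit 5184)) (Nat.shiftLeft (Nat.land st cL) (nat_lit 2592))))⟩) l

/-- apply a label to a state; zero means failure -/
noncomputable def ap (l : Lb) (s : ℕ) : ℕ := (app l).1 (Nat.sub (nat_lit 1) s) s

/-- the coordinate of a code -/
def co (c : ℕ) : Fin 4 := ⟨c % 4, Nat.mod_lt _ (by norm_num)⟩

/-- the map of a label -/
noncomputable def sem : Lb → V → V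
  | .e, v => v
  | .fp dv t, v => (dv : ℂ)⁻¹ • v + trv t
  | .fm dv t, v => (-(dv : ℂ)⁻¹) • v + trv t
  | .r x k, v => sem k (Rf (co x.c) (x.c / 4) v)
  | .d c0 c1 c2 k, v => sem k (Df c0 c1 c2 v)
  | .g x k, v => sem k (Gf (co x.c) (x.c / 4) v)
  | .p s k, v => sem k (om ^ s • v)
  | .t k, v => sem k ((2 + om) • v)

/-- well formed labels, after `n` dense gates -/
noncomputable def okL (l : Lb) : ℕ → ℕ :=
  Lb.rec (motive := fun _ => ℕ → ℕ) (fun n => n)
    (fun dv _ n => Nat.add (Nat.xor (Nat.mul dv dv) (Nat.pow (nat_lit 3) n)) (Nat.sub n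
        (nat_lit 4)))
    (fun dv _ n => Nat.add (Nat.xor (Nat.mul dv dv) (Nat.pow (nat_lit 3) n)) (Nat.sub n
        (nat_lit 4)))
    (fun x _ ih n => Nat.add (okR x) (ih n))
    (fun _ _ _ _ ih n => ih n)
    (fun x _ ih n => Nat.add (okG x) (ih (Nat.succ n)))
    (fun s _ ih n => Nat.add (Nat.sub s (nat_lit 2)) (ih n))
    (fun _ ih n => ih (Nat.succ n)) l

/-- the position map of a slide -/
noncomputable def spk (k p : ℕ) : ℕ :=
  Bool.rec (Bool.rec p (Nat.sub p (nat_lit 1)) (Bool.rec false (Nat.ble (Nat.succ p) k) (Nat.ble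
      (nat_lit 2) p)))
    (Nat.sub k (nat_lit 1)) (Nat.beq p (nat_lit 1))

/-- the selection of one value among sixteen -/
noncomputable def sel (α : Type) (j : ℕ) : Bx (T16 α → α) :=
  Bool.rec
    (Bool.rec
      (Bool.rec
        (Bool.rec ⟨fun r => r.1⟩ ⟨fun r => r.2⟩
          (Nat.ble (nat_lit 1) j))
        (Bool.rec ⟨fun r => r.3⟩ ⟨fun r => r.4⟩
          (Nat.ble (nat_lit 3) j))
        (Nat.ble (nat_lit 2) j))
      (Bool.rec
        (Bool.rec ⟨fun r => r.5⟩ ⟨fun r => r.6⟩
          (Nat.ble (nat_lit 5) j))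
        (Bool.rec ⟨fun r => r.7⟩ ⟨fun r => r.8⟩
          (Nat.ble (nat_lit 7) j))
        (Nat.ble (nat_lit 6) j))
      (Nat.ble (nat_lit 4) j))
    (Bool.rec
      (Bool.rec
        (Bool.rec ⟨fun r => r.9⟩ ⟨fun r => r.10⟩
          (Nat.ble (nat_lit 9) j))
        (Bool.rec ⟨fun r => r.11⟩ ⟨fun r => r.12⟩
          (Nat.ble (nat_lit 11) j))
        (Nat.ble (nat_lit 10) j))
      (Bool.rec
        (Bool.rec ⟨fun r => r.13⟩ ⟨fun r => r.14⟩
          (Nat.ble (nat_lit 13) j))
        (Bool.rec ⟨fun r => r.15⟩ ⟨fun r => r.16⟩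
          (Nat.ble (nat_lit 15) j))
        (Nat.ble (nat_lit 14) j))
      (Nat.ble (nat_lit 12) j))
    (Nat.ble (nat_lit 8) j)

/-- selection with a forced index -/
noncomputable def sA (α : Type) (j n : ℕ) : Bx (T16 α → α) :=
  Nat.rec (motive := fun _ => Bx (T16 α → α)) (sel α (nat_lit 0)) (fun p _ => sel α (Nat.succ p))
    (Nat.land (Nat.add j n) (nat_lit 15))

theorem sA_eq (α : Type) (j n : ℕ) : sA α j n = sel α ((j + n) % 16) := by
  have h : Nat.land (Nat.add j n) (nat_lit 15) = (j + n) % 16 :=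
    Nat.and_two_pow_sub_one_eq_mod (j + n) 4
  rw [← h, sA]
  cases Nat.land (Nat.add j n) (nat_lit 15) <;> rfl

/-- digit 1 in the slots below 16 -/
def o16 : ℕ := nat_lit 0x1000100010001000100010001000100010001000100010001000100010001
/-- digit 15 in the slots below 16 -/
def n16 : ℕ := nat_lit 0xf000f000f000f000f000f000f000f000f000f000f000f000f000f000f000f
/-- digit 65535 in the slots below 16 -/
def m16 : ℕ := nat_lit 0xffffffffffffffffffffffffffffffffffffffffffffffffffffffffffffffff
/-- digit `i` in the slot `i < 16` -/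
def i16 : ℕ := nat_lit 0xf000e000d000c000b000a0009000800070006000500040003000200010000
/-- the relative shape of the standard word -/
def std : ℕ := nat_lit 0xe000e00020002000e000e00020002000e000e00020002000e000e00020002

/-- digit `128 - n` in the slots below 16 -/
def g16 (n : ℕ) : ℕ := Nat.mul o16 (Nat.sub 128 n)
/-- digit 65535 in the slot 0 and in the slots from `k` to 15 -/
def fx (k : ℕ) : ℕ := Nat.add (Nat.sub m16 (Nat.sub (Nat.pow 2 (Nat.mul 16 k)) 1)) 65535
/-- digit 65535 in the slots from 2 to `k - 1` -/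
def md (k : ℕ) : ℕ := Nat.sub (Nat.pow 2 (Nat.mul 16 k)) 4294967296
def kb (k : ℕ) : ℕ := Nat.mul 16 (Nat.sub k 1)

/-- digit 1 in the slots where the digit of `a` is at least `n` -/
def ge (a n : ℕ) : ℕ := Nat.land (Nat.shiftRight (Nat.add a (g16 n)) (nat_lit 7)) o16

/-- the digits of `b` at the positions `spk k i` are the numbers `spk k (dig a i)` -/
def shc (k a b : ℕ) : ℕ :=
  Nat.xor (Nat.add (Nat.add (Nat.add (Nat.land b (fx k)) (Nat.land (Nat.shiftLeft b (nat_lit 16))
      (md k)))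
      (Nat.shiftLeft (Nat.land (Nat.shiftRight b (kb k)) (nat_lit 65535)) (nat_lit 16)))
      (Nat.mul (Nat.land (Nat.shiftRight (Nat.add a (g16 (nat_lit 2))) (nat_lit 7)) o16) (Nat.sub
          k (nat_lit 1))))
    (Nat.add (Nat.add a (Nat.land (Nat.shiftRight (Nat.add a (g16 k)) (nat_lit 7)) o16)) (Nat.mul
        (Nat.land (Nat.shiftRight (Nat.add a (g16 (nat_lit 1))) (nat_lit 7)) o16) (Nat.sub k
        (nat_lit 2))))

/-- apply a label `n` times -/
noncomputable def its (n : ℕ) (l : Lb) (s : ℕ) : ℕ :=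
  Nat.rec (motive := fun _ => ℕ) s (fun _ ih => ap l ih) n

section

variable (D : ℕ → Cl)

def ce (c : ℕ) : T16 En := (D c).en
def pe (c : ℕ) : ℕ := (D c).per
def sh2 (c : ℕ) : ℕ := Nat.add (D c).sh (Nat.shiftLeft (D c).sh (nat_lit 256))
/-- the relative positions of the inverse letters in the word `(c, j)` -/
def rel (c j : ℕ) : ℕ := Nat.land (Nat.shiftRight (sh2 D c) (Nat.mul j (nat_lit 16))) m16
/-- the positions of the inverse letters in the word `(c, j)` -/
def ab (c j : ℕ) : ℕ := Nat.land (Nat.add (Nat.land (Nat.shiftRight (sh2 D c) (Nat.mul j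
    (nat_lit 16))) m16) i16) n16
def td (c j : ℕ) : ℕ := Nat.land (Nat.shiftRight ((D c).dp) (Nat.mul j (nat_lit 4))) (nat_lit 15)

/-- move the root by `n` steps and slide -/
noncomputable def stp (c j n s : ℕ) (K : ℕ → ℕ → ℕ → ℕ → ℕ) : ℕ :=
  En.rec (motive := fun _ => ℕ) (fun x1 x2 x3 => K x1 x2 x3 s)
    (fun x0 x1 x2 x3 => K x1 x2 x3 ((app x0).1 (Nat.sub (nat_lit 1) s) s)) ((sA En j n).1 (ce D c))

/-- equality of nonzero states -/
def eqs (s s' : ℕ) : ℕ := Nat.add (Nat.xor s s') (Nat.sub (nat_lit 1) s)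

noncomputable def slw (c j s j' s' : ℕ) : ℕ :=
  Nat.add (Nat.xor (Nat.mod j (pe D c)) (Nat.mod j' (pe D c)))
    (eqs (its (Nat.div j (pe D c)) (D c).iso s) (its (Nat.div j' (pe D c)) (D c).iso s'))

/-- equality of points -/
noncomputable def fn (c j s c' j' s' : ℕ) : ℕ :=
  Nat.add (Nat.xor c c') (Bool.rec (slw D c j s j' s') (Nat.add (Nat.xor s s') (Nat.sub
      (nat_lit 1) s)) (Nat.beq j j'))

noncomputable def fE (c j s c' j' _k s' : ℕ) : ℕ := Nat.add (Nat.xor c c') (Bool.rec (slw D c j s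
    j' s') (Nat.add (Nat.xor s s') (Nat.sub (nat_lit 1) s)) (Nat.beq j j'))

/-- equality of points; the states are not compared when `m` is not zero -/
noncomputable def fm (m c j c' j' s' : ℕ) : ℕ :=
  Nat.add (Nat.xor c c') (Bool.rec (slw D c j st0 j' s')
    (Bool.rec (nat_lit 0) (Nat.xor st0 s') (Nat.beq m (nat_lit 0))) (Nat.beq j j'))

noncomputable def fT (m c j c' j' k' s' : ℕ) : ℕ :=
  Nat.add (Nat.xor c c') (Bool.rec (slw D c j st0 (Nat.land (Nat.add j' (Nat.sub k' (nat_lit 1)))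
      (nat_lit 15)) s') (Bool.rec (nat_lit 0) (Nat.xor st0 s') (Nat.beq m (nat_lit 0))) (Nat.beq j
      (Nat.land (Nat.add j' (Nat.sub k' (nat_lit 1))) (nat_lit 15))))

noncomputable def fS (c j s p c' j' k' s' : ℕ) : ℕ :=
  Nat.add (Nat.xor c c') (Bool.rec (slw D c j s (Nat.land (Nat.add j' (spk k' p)) (nat_lit 15))
      s') (Nat.add (Nat.xor s s') (Nat.sub (nat_lit 1) s)) (Nat.beq j (Nat.land (Nat.add j' (spk
      k' p)) (nat_lit 15))))

noncomputable def tr2 (c j c1 c2 j2 k2 s2 : ℕ) : ℕ :=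
  En.rec (motive := fun _ => ℕ) (fun x1 x2 x3 => (fT D (Nat.add (Nat.sub c c1) (Nat.sub c c2)) c
      j) x1 x2 x3 s2) (fun x0 x1 x2 x3 => (fT D (Nat.add (Nat.sub c c1) (Nat.sub c c2)) c j) x1 x2
      x3 ((app x0).1 (Nat.sub (nat_lit 1) s2) s2)) ((sA En j2 (Nat.sub k2 (nat_lit 1))).1 (ce D
      c2))

noncomputable def cTri (c j c1 j1 k s1 : ℕ) : ℕ :=
  En.rec (motive := fun _ => ℕ) (fun x1 x2 x3 => (tr2 D c j c1) x1 x2 x3 s1) (fun x0 x1 x2 x3 =>
      (tr2 D c j c1) x1 x2 x3 ((app x0).1 (Nat.sub (nat_lit 1) s1) s1)) ((sA En j1 (Nat.sub k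
      (nat_lit 1))).1 (ce D c1))

noncomputable def cm3 (c1 j1 k s1 q cb jb _kb sb : ℕ) : ℕ :=
  En.rec (motive := fun _ => ℕ) (fun x1 x2 x3 => (fS D cb jb sb (Nat.sub (nat_lit 16) (spk k q)))
      x1 x2 x3 s1) (fun x0 x1 x2 x3 => (fS D cb jb sb (Nat.sub (nat_lit 16) (spk k q))) x1 x2 x3
      ((app x0).1 (Nat.sub (nat_lit 1) s1) s1)) ((sA En j1 (spk k q)).1 (ce D c1))

noncomputable def cm2 (c1 j1 k s1 q ca ja ka sa : ℕ) : ℕ :=
  En.rec (motive := fun _ => ℕ) (fun x1 x2 x3 => (cm3 D c1 j1 k s1 q) x1 x2 x3 sa) (fun x0 x1 x2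
      x3 => (cm3 D c1 j1 k s1 q) x1 x2 x3 ((app x0).1 (Nat.sub (nat_lit 1) sa) sa)) ((sA En ja
      (spk ka (Nat.sub (nat_lit 16) q))).1 (ce D ca))

noncomputable def cComm (c j c1 j1 k s1 k1 q : ℕ) : ℕ :=
  Bool.rec (En.rec (motive := fun _ => ℕ) (fun x1 x2 x3 => (cm2 D c1 j1 k s1 q) x1 x2 x3 st0) (fun
      x0 x1 x2 x3 => (cm2 D c1 j1 k s1 q) x1 x2 x3 ((app x0).1 (Nat.sub (nat_lit 1) st0) st0))
      ((sA En j q).1 (ce D c))) (nat_lit 0)
    (Nat.beq (Nat.mul (Nat.xor q k1) (Nat.xor (Nat.succ q) k)) (nat_lit 0))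

noncomputable def pn4 (k cf je se ca ja _ka sa : ℕ) : ℕ :=
  En.rec (motive := fun _ => ℕ) (fun x1 x2 x3 => (fS D cf je se (Nat.sub (nat_lit 18) k)) x1 x2 x3
      sa) (fun x0 x1 x2 x3 => (fS D cf je se (Nat.sub (nat_lit 18) k)) x1 x2 x3 ((app x0).1
      (Nat.sub (nat_lit 1) sa) sa)) ((sA En ja (Nat.sub k (nat_lit 2))).1 (ce D ca))

noncomputable def pn3 (c1 j1 k s1 cf je _ke se : ℕ) : ℕ :=
  En.rec (motive := fun _ => ℕ) (fun x1 x2 x3 => (pn4 D k cf je se) x1 x2 x3 s1) (fun x0 x1 x2 x3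
      => (pn4 D k cf je se) x1 x2 x3 ((app x0).1 (Nat.sub (nat_lit 1) s1) s1)) ((sA En j1
      (nat_lit 0)).1 (ce D c1))

noncomputable def pn2 (c1 j1 k s1 cd jd _kd sd : ℕ) : ℕ :=
  En.rec (motive := fun _ => ℕ) (fun x1 x2 x3 => (pn3 D c1 j1 k s1) x1 x2 x3 sd) (fun x0 x1 x2 x3
      => (pn3 D c1 j1 k s1) x1 x2 x3 ((app x0).1 (Nat.sub (nat_lit 1) sd) sd)) ((sA En jd
      (nat_lit 15)).1 (ce D cd))

noncomputable def cPent (c j c1 j1 k s1 : ℕ) : ℕ :=
  Bool.rec (En.rec (motive := fun _ => ℕ) (fun x1 x2 x3 => (pn2 D c1 j1 k s1) x1 x2 x3 st0) (fun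
      x0 x1 x2 x3 => (pn2 D c1 j1 k s1) x1 x2 x3 ((app x0).1 (Nat.sub (nat_lit 1) st0) st0)) ((sA
      En j (nat_lit 1)).1 (ce D c))) (nat_lit 0) (Nat.beq k (nat_lit 2))

noncomputable def pp3 (c1 j1 k s1 k1 cb jb _kb sb : ℕ) : ℕ :=
  En.rec (motive := fun _ => ℕ) (fun x1 x2 x3 => (cm3 D c1 j1 k s1 k1) x1 x2 x3 sb) (fun x0 x1 x2
      x3 => (cm3 D c1 j1 k s1 k1) x1 x2 x3 ((app x0).1 (Nat.sub (nat_lit 1) sb) sb)) ((sA En jb
      (nat_lit 0)).1 (ce D cb))

noncomputable def pp2 (c1 j1 k s1 k1 ca ja _ka sa : ℕ) : ℕ :=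
  En.rec (motive := fun _ => ℕ) (fun x1 x2 x3 => (pp3 D c1 j1 k s1 k1) x1 x2 x3 sa) (fun x0 x1 x2
      x3 => (pp3 D c1 j1 k s1 k1) x1 x2 x3 ((app x0).1 (Nat.sub (nat_lit 1) sa) sa)) ((sA En ja
      (Nat.sub (nat_lit 15) k1)).1 (ce D ca))

noncomputable def cPent2 (c j c1 j1 k s1 k1 : ℕ) : ℕ :=
  Bool.rec (En.rec (motive := fun _ => ℕ) (fun x1 x2 x3 => (pp2 D c1 j1 k s1 k1) x1 x2 x3 st0)
      (fun x0 x1 x2 x3 => (pp2 D c1 j1 k s1 k1) x1 x2 x3 ((app x0).1 (Nat.sub (nat_lit 1) st0)
      st0)) ((sA En j k1).1 (ce D c))) (nat_lit 0)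
    (Nat.beq (Nat.mul (Nat.xor k1 (nat_lit 15)) (Nat.xor (Nat.succ k1) k)) (nat_lit 0))

/-- `n` slides -/
noncomputable def sls (n : ℕ) (K : ℕ → ℕ → ℕ → ℕ → ℕ) : ℕ → ℕ → ℕ → ℕ → ℕ :=
  Nat.rec (motive := fun _ => ℕ → ℕ → ℕ → ℕ → ℕ) K
    (fun _ ih c j _ s => En.rec (motive := fun _ => ℕ) (fun x1 x2 x3 => ih x1 x2 x3 s) (fun x0 x1
        x2 x3 => ih x1 x2 x3 ((app x0).1 (Nat.sub (nat_lit 1) s) s)) ((sA En j (nat_lit 0)).1 (ce
        D c))) n

noncomputable def tw3 (k c j s c' j' _k s' : ℕ) : ℕ :=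
  Nat.add (Nat.xor c c') (Bool.rec (slw D c j s (Nat.land (Nat.add j' (Nat.sub (nat_lit 16) k))
      (nat_lit 15)) s') (Nat.add (Nat.xor s s') (Nat.sub (nat_lit 1) s)) (Nat.beq j (Nat.land
      (Nat.add j' (Nat.sub (nat_lit 16) k)) (nat_lit 15))))

noncomputable def tw2 (c j k c2 j2 _k s2 : ℕ) : ℕ :=
  sls D (Nat.sub (nat_lit 15) k) (tw3 D k c2 j2 s2) c (Nat.add j k) (nat_lit 0) st0

noncomputable def cTw (c j c1 j1 k : ℕ) : ℕ :=
  Bool.rec (Bool.rec (Nat.xor (Nat.succ (Nat.land (Nat.shiftRight ((D c1).dp) (Nat.mul j1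
      (nat_lit 4))) (nat_lit 15))) (td D c j))
    (sls D (Nat.sub k (nat_lit 1)) (tw2 D c j k) c j (nat_lit 0) st0) (Nat.beq (td D c j)
        (nat_lit 0))) (nat_lit 0) (Nat.ble k (nat_lit 7))

/-- the entries beyond the period -/
noncomputable def cCmp (c j c1 j1 s1 : ℕ) : ℕ :=
  Bool.rec (nat_lit 0) (stp D c (Nat.sub j (pe D c)) (nat_lit 0) (ap (D c).iso st0) (fE D c1 j1 s1))
    (Nat.ble (pe D c) j)

/-- the shape of the standard word occurs only in the class `0` -/
def cUni (c j r : ℕ) : ℕ :=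
  Nat.mul (Nat.sub (nat_lit 1) (Nat.xor r std)) (Nat.add c (Nat.xor (Nat.land j (nat_lit 3))
      (nat_lit 2)))

/-- ranges and shapes -/
def cSh (c j c1 j1 k r : ℕ) : ℕ :=
  Nat.add (Nat.add (Nat.add (Nat.add (Nat.add (Nat.sub c1 (nat_lit 14117)) (Nat.sub j1
      (nat_lit 15)))
    (Nat.sub (nat_lit 2) k)) (Nat.xor k (Nat.land r (nat_lit 65535)))) (Nat.mul (Nat.sub
        (nat_lit 1) (Nat.xor r std)) (Nat.add c (Nat.xor (Nat.land j (nat_lit 3)) (nat_lit 2)))))
    (Nat.xor (Nat.add (Nat.add (Nat.add (Nat.land (Nat.land (Nat.add (Nat.land (Nat.shiftRight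
        (sh2 D c1) (Nat.mul j1 (nat_lit 16))) m16) i16) n16) (fx k)) (Nat.land (Nat.shiftLeft
        (Nat.land (Nat.add (Nat.land (Nat.shiftRight (sh2 D c1) (Nat.mul j1 (nat_lit 16))) m16)
        i16) n16) (nat_lit 16)) (md k))) (Nat.shiftLeft (Nat.land (Nat.shiftRight (Nat.land
        (Nat.add (Nat.land (Nat.shiftRight (sh2 D c1) (Nat.mul j1 (nat_lit 16))) m16) i16) n16)
        (kb k)) (nat_lit 65535)) (nat_lit 16))) (Nat.mul (Nat.land (Nat.shiftRight (Nat.add
        (Nat.land (Nat.add r i16) n16) (g16 (nat_lit 2))) (nat_lit 7)) o16) (Nat.sub k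
        (nat_lit 1)))) (Nat.add (Nat.add (Nat.land (Nat.add r i16) n16) (Nat.land (Nat.shiftRight
        (Nat.add (Nat.land (Nat.add r i16) n16) (g16 k)) (nat_lit 7)) o16)) (Nat.mul (Nat.land
        (Nat.shiftRight (Nat.add (Nat.land (Nat.add r i16) n16) (g16 (nat_lit 1))) (nat_lit 7))
        o16) (Nat.sub k (nat_lit 2)))))

noncomputable def ob2 (c j c1 j1 k s1 k1 : ℕ) : ℕ :=
  Nat.add (Nat.add (Nat.add (Nat.add (Nat.add (Nat.add (Nat.add (Nat.add (Nat.add (Nat.add
    (Nat.add (Nat.add (cSh D c j c1 j1 k (rel D c j)) (cTri D c j c1 j1 k s1))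
    (cComm D c j c1 j1 k s1 k1 (nat_lit 2))) (cComm D c j c1 j1 k s1 k1 (nat_lit 3)))
    (cComm D c j c1 j1 k s1 k1 (nat_lit 4))) (cComm D c j c1 j1 k s1 k1 (nat_lit 5)))
    (cComm D c j c1 j1 k s1 k1 (nat_lit 6))) (cComm D c j c1 j1 k s1 k1 (nat_lit 7)))
    (cComm D c j c1 j1 k s1 k1 (nat_lit 8))) (cPent D c j c1 j1 k s1)) (cPent2 D c j c1 j1 k s1 k1))
    (cTw D c j c1 j1 k)) (cCmp D c j c1 j1 s1)

noncomputable def ob1 (c j c1 j1 k s1 : ℕ) : ℕ :=
  Nat.rec (motive := fun _ => ℕ) ((ob2 D c j c1 j1 k s1) (nat_lit 0)) (fun p _ => (ob2 D c j c1 j1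
      k s1) (Nat.succ p)) (Nat.land (Nat.succ (Nat.shiftRight (rel D c j) (nat_lit 16)))
      (nat_lit 15))

/-- all checks at one rooted word -/
noncomputable def obj (c j : ℕ) : ℕ := En.rec (motive := fun _ => ℕ) (fun x1 x2 x3 => (ob1 D c j)
    x1 x2 x3 st0) (fun x0 x1 x2 x3 => (ob1 D c j) x1 x2 x3 ((app x0).1 (Nat.sub (nat_lit 1) st0)
    st0)) ((sA En j (nat_lit 0)).1 (ce D c))

def dg (a i : ℕ) : ℕ := Nat.land (Nat.shiftRight a (Nat.mul i (nat_lit 16))) (nat_lit 65535)

def cIn (a i : ℕ) : ℕ := Nat.xor (Nat.land (Nat.shiftRight a (Nat.mul (Nat.land (Nat.shiftRight a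
    (Nat.mul i (nat_lit 16))) (nat_lit 65535)) (nat_lit 16))) (nat_lit 65535)) i

/-- all checks for one class -/
noncomputable def cls (c : ℕ) : ℕ :=
  Nat.add (Nat.add (Nat.add (Nat.add (Nat.add (Nat.add
    (Nat.xor (Nat.land (D c).sh n16) (D c).sh) (sumN (nat_lit 0) (nat_lit 16) (cIn (ab D c
        (nat_lit 0)))))
    (Nat.sub (nat_lit 1) (pe D c))) (Nat.mod (nat_lit 16) (pe D c))) (Nat.xor (rel D c (pe D c))
        (D c).sh))
    (Nat.xor (its (Nat.div (nat_lit 16) (pe D c)) (D c).iso st0) st0)) (sumN (nat_lit 0)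
        (nat_lit 16) (obj D c))

noncomputable def okE (c j : ℕ) : ℕ :=
  En.rec (motive := fun _ => ℕ) (fun _ _ _ => (nat_lit 0)) (fun l _ _ _ => okL l (nat_lit 0))
    ((sA En j (nat_lit 0)).1 (ce D c))

/-- the labels of a class are well formed -/
noncomputable def lbs (c : ℕ) : ℕ := Nat.add (okL (D c).iso (nat_lit 0)) (sumN (nat_lit 0)
    (nat_lit 16) (okE D c))

/-- a forward program -/
noncomputable def prg (js : List ℕ) (K : ℕ → ℕ → ℕ → ℕ → ℕ) : ℕ → ℕ → ℕ → ℕ → ℕ :=
  List.rec (motive := fun _ => ℕ → ℕ → ℕ → ℕ → ℕ) K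
    (fun n _ ih c j _ s => En.rec (motive := fun _ => ℕ) (fun x1 x2 x3 => ih x1 x2 x3 s) (fun x0
        x1 x2 x3 => ih x1 x2 x3 ((app x0).1 (Nat.sub (nat_lit 1) s) s)) ((sA En j n).1 (ce D c)))
        js

/-- a final rotation by `f` steps and the comparison with the point `(c, j, s)` -/
noncomputable def fF (c j s f c' j' _k s' : ℕ) : ℕ := fn D c j s c' (Nat.add j' f) s'

/-- a forward program with the final rotation `f`, repeated `n` times -/
noncomputable def itp (js : List ℕ) (f n : ℕ) (K : ℕ → ℕ → ℕ → ℕ → ℕ) : ℕ → ℕ → ℕ → ℕ → ℕ :=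
  Nat.rec (motive := fun _ => ℕ → ℕ → ℕ → ℕ → ℕ) K
    (fun _ ih => prg D js fun c j k s => ih c (Nat.add j f) k s) n

/-- all checks -/
structure Ok : Prop where
  lab : ∀ c < 14118, lbs D c = 0
  cls : ∀ c < 14118, cls D c = 0

end

end Pool.Agent.MP_61a8e3_al.G4.K

end

section

/-! Part K: the data. -/

set_option autoImplicit false
set_option maxRecDepth 100000
set_option linter.all false

namespace Pool.Agent.MP_61a8e3_al.G4.K

noncomputable def aa0 : T16 (T16 Cl) := T16.mk
  a0 a1 a2 a3 a4 a5 a6 a7 a8 a9 a10 a11 a12 a13 a14 a15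
noncomputable def aa1 : T16 (T16 Cl) := T16.mk
  a16 a17 a18 a19 a20 a21 a22 a23 a24 a25 a26 a27 a28 a29 a30 a31
noncomputable def aa2 : T16 (T16 Cl) := T16.mk
  a32 a33 a34 a35 a36 a37 a38 a39 a40 a41 a42 a43 a44 a45 a46 a47
noncomputable def aa3 : T16 (T16 Cl) := T16.mk
  a48 a49 a50 a51 a52 a53 a54 a55 a56 a57 a58 a59 a60 a61 a62 a63
noncomputable def aa4 : T16 (T16 Cl) := T16.mk
  a64 a65 a66 a67 a68 a69 a70 a71 a72 a73 a74 a75 a76 a77 a78 a79
noncomputable def aa5 : T16 (T16 Cl) := T16.mk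
  a80 a81 a82 a83 a84 a85 a86 a87 a88 a89 a90 a91 a92 a93 a94 a95
noncomputable def aa6 : T16 (T16 Cl) := T16.mk
  a96 a97 a98 a99 a100 a101 a102 a103 a104 a105 a106 a107 a108 a109 a110 a111
noncomputable def aa7 : T16 (T16 Cl) := T16.mk
  a112 a113 a114 a115 a116 a117 a118 a119 a120 a121 a122 a123 a124 a125 a126 a127
noncomputable def aa8 : T16 (T16 Cl) := T16.mk
  a128 a129 a130 a131 a132 a133 a134 a135 a136 a137 a138 a139 a140 a141 a142 a143
noncomputable def aa9 : T16 (T16 Cl) := T16.mk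
  a144 a145 a146 a147 a148 a149 a150 a151 a152 a153 a154 a155 a156 a157 a158 a159
noncomputable def aa10 : T16 (T16 Cl) := T16.mk
  a160 a161 a162 a163 a164 a165 a166 a167 a168 a169 a170 a171 a172 a173 a174 a175
noncomputable def aa11 : T16 (T16 Cl) := T16.mk
  a176 a177 a178 a179 a180 a181 a182 a183 a184 a185 a186 a187 a188 a189 a190 a191
noncomputable def aa12 : T16 (T16 Cl) := T16.mk
  a192 a193 a194 a195 a196 a197 a198 a199 a200 a201 a202 a203 a204 a205 a206 a207
noncomputable def aa13 : T16 (T16 Cl) := T16.mk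
  a208 a209 a210 a211 a212 a213 a214 a215 a216 a217 a218 a219 a220 a221 a222 a223
noncomputable def aa14 : T16 (T16 Cl) := T16.mk
  a224 a225 a226 a227 a228 a229 a230 a231 a232 a233 a234 a235 a236 a237 a238 a239
noncomputable def aa15 : T16 (T16 Cl) := T16.mk
  a240 a241 a242 a243 a244 a245 a246 a247 a248 a249 a250 a251 a252 a253 a254 a255
noncomputable def aa16 : T16 (T16 Cl) := T16.mk
  a256 a257 a258 a259 a260 a261 a262 a263 a264 a265 a266 a267 a268 a269 a270 a271
noncomputable def aa17 : T16 (T16 Cl) := T16.mk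
  a272 a273 a274 a275 a276 a277 a278 a279 a280 a281 a282 a283 a284 a285 a286 a287
noncomputable def aa18 : T16 (T16 Cl) := T16.mk
  a288 a289 a290 a291 a292 a293 a294 a295 a296 a297 a298 a299 a300 a301 a302 a303
noncomputable def aa19 : T16 (T16 Cl) := T16.mk
  a304 a305 a306 a307 a308 a309 a310 a311 a312 a313 a314 a315 a316 a317 a318 a319
noncomputable def aa20 : T16 (T16 Cl) := T16.mk
  a320 a321 a322 a323 a324 a325 a326 a327 a328 a329 a330 a331 a332 a333 a334 a335
noncomputable def aa21 : T16 (T16 Cl) := T16.mk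
  a336 a337 a338 a339 a340 a341 a342 a343 a344 a345 a346 a347 a348 a349 a350 a351
noncomputable def aa22 : T16 (T16 Cl) := T16.mk
  a352 a353 a354 a355 a356 a357 a358 a359 a360 a361 a362 a363 a364 a365 a366 a367
noncomputable def aa23 : T16 (T16 Cl) := T16.mk
  a368 a369 a370 a371 a372 a373 a374 a375 a376 a377 a378 a379 a380 a381 a382 a383
noncomputable def aa24 : T16 (T16 Cl) := T16.mk
  a384 a385 a386 a387 a388 a389 a390 a391 a392 a393 a394 a395 a396 a397 a398 a399
noncomputable def aa25 : T16 (T16 Cl) := T16.mk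
  a400 a401 a402 a403 a404 a405 a406 a407 a408 a409 a410 a411 a412 a413 a414 a415
noncomputable def aa26 : T16 (T16 Cl) := T16.mk
  a416 a417 a418 a419 a420 a421 a422 a423 a424 a425 a426 a427 a428 a429 a430 a431
noncomputable def aa27 : T16 (T16 Cl) := T16.mk
  a432 a433 a434 a435 a436 a437 a438 a439 a440 a441 a442 a443 a444 a445 a446 a447
noncomputable def aa28 : T16 (T16 Cl) := T16.mk
  a448 a449 a450 a451 a452 a453 a454 a455 a456 a457 a458 a459 a460 a461 a462 a463
noncomputable def aa29 : T16 (T16 Cl) := T16.mk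
  a464 a465 a466 a467 a468 a469 a470 a471 a472 a473 a474 a475 a476 a477 a478 a479
noncomputable def aa30 : T16 (T16 Cl) := T16.mk
  a480 a481 a482 a483 a484 a485 a486 a487 a488 a489 a490 a491 a492 a493 a494 a495
noncomputable def aa31 : T16 (T16 Cl) := T16.mk
  a496 a497 a498 a499 a500 a501 a502 a503 a504 a505 a506 a507 a508 a509 a510 a511
noncomputable def aa32 : T16 (T16 Cl) := T16.mk
  a512 a513 a514 a515 a516 a517 a518 a519 a520 a521 a522 a523 a524 a525 a526 a527
noncomputable def aa33 : T16 (T16 Cl) := T16.mk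
  a528 a529 a530 a531 a532 a533 a534 a535 a536 a537 a538 a539 a540 a541 a542 a543
noncomputable def aa34 : T16 (T16 Cl) := T16.mk
  a544 a545 a546 a547 a548 a549 a550 a551 a552 a553 a554 a555 a556 a557 a558 a559
noncomputable def aa35 : T16 (T16 Cl) := T16.mk
  a560 a561 a562 a563 a564 a565 a566 a567 a568 a569 a570 a571 a572 a573 a574 a575
noncomputable def aa36 : T16 (T16 Cl) := T16.mk
  a576 a577 a578 a579 a580 a581 a582 a583 a584 a585 a586 a587 a588 a589 a590 a591
noncomputable def aa37 : T16 (T16 Cl) := T16.mk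
  a592 a593 a594 a595 a596 a597 a598 a599 a600 a601 a602 a603 a604 a605 a606 a607
noncomputable def aa38 : T16 (T16 Cl) := T16.mk
  a608 a609 a610 a611 a612 a613 a614 a615 a616 a617 a618 a619 a620 a621 a622 a623
noncomputable def aa39 : T16 (T16 Cl) := T16.mk
  a624 a625 a626 a627 a628 a629 a630 a631 a632 a633 a634 a635 a636 a637 a638 a639
noncomputable def aa40 : T16 (T16 Cl) := T16.mk
  a640 a641 a642 a643 a644 a645 a646 a647 a648 a649 a650 a651 a652 a653 a654 a655
noncomputable def aa41 : T16 (T16 Cl) := T16.mk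
  a656 a657 a658 a659 a660 a661 a662 a663 a664 a665 a666 a667 a668 a669 a670 a671
noncomputable def aa42 : T16 (T16 Cl) := T16.mk
  a672 a673 a674 a675 a676 a677 a678 a679 a680 a681 a682 a683 a684 a685 a686 a687
noncomputable def aa43 : T16 (T16 Cl) := T16.mk
  a688 a689 a690 a691 a692 a693 a694 a695 a696 a697 a698 a699 a700 a701 a702 a703
noncomputable def aa44 : T16 (T16 Cl) := T16.mk
  a704 a705 a706 a707 a708 a709 a710 a711 a712 a713 a714 a715 a716 a717 a718 a719
noncomputable def aa45 : T16 (T16 Cl) := T16.mk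
  a720 a721 a722 a723 a724 a725 a726 a727 a728 a729 a730 a731 a732 a733 a734 a735
noncomputable def aa46 : T16 (T16 Cl) := T16.mk
  a736 a737 a738 a739 a740 a741 a742 a743 a744 a745 a746 a747 a748 a749 a750 a751
noncomputable def aa47 : T16 (T16 Cl) := T16.mk
  a752 a753 a754 a755 a756 a757 a758 a759 a760 a761 a762 a763 a764 a765 a766 a767
noncomputable def aa48 : T16 (T16 Cl) := T16.mk
  a768 a769 a770 a771 a772 a773 a774 a775 a776 a777 a778 a779 a780 a781 a782 a783
noncomputable def aa49 : T16 (T16 Cl) := T16.mk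
  a784 a785 a786 a787 a788 a789 a790 a791 a792 a793 a794 a795 a796 a797 a798 a799
noncomputable def aa50 : T16 (T16 Cl) := T16.mk
  a800 a801 a802 a803 a804 a805 a806 a807 a808 a809 a810 a811 a812 a813 a814 a815
noncomputable def aa51 : T16 (T16 Cl) := T16.mk
  a816 a817 a818 a819 a820 a821 a822 a823 a824 a825 a826 a827 a828 a829 a830 a831
noncomputable def aa52 : T16 (T16 Cl) := T16.mk
  a832 a833 a834 a835 a836 a837 a838 a839 a840 a841 a842 a843 a844 a845 a846 a847
noncomputable def aa53 : T16 (T16 Cl) := T16.mk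
  a848 a849 a850 a851 a852 a853 a854 a855 a856 a857 a858 a859 a860 a861 a862 a863
noncomputable def aa54 : T16 (T16 Cl) := T16.mk
  a864 a865 a866 a867 a868 a869 a870 a871 a872 a873 a874 a875 a876 a877 a878 a879
noncomputable def aa55 : T16 (T16 Cl) := T16.mk
  a880 a881 a882 a882 a882 a882 a882 a882 a882 a882 a882 a882 a882 a882 a882 a882
noncomputable def aaa0 : T16 (T16 (T16 Cl)) := T16.mk
  aa0 aa1 aa2 aa3 aa4 aa5 aa6 aa7 aa8 aa9 aa10 aa11 aa12 aa13 aa14 aa15
noncomputable def aaa1 : T16 (T16 (T16 Cl)) := T16.mk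
  aa16 aa17 aa18 aa19 aa20 aa21 aa22 aa23 aa24 aa25 aa26 aa27 aa28 aa29 aa30 aa31
noncomputable def aaa2 : T16 (T16 (T16 Cl)) := T16.mk
  aa32 aa33 aa34 aa35 aa36 aa37 aa38 aa39 aa40 aa41 aa42 aa43 aa44 aa45 aa46 aa47
noncomputable def aaa3 : T16 (T16 (T16 Cl)) := T16.mk
  aa48 aa49 aa50 aa51 aa52 aa53 aa54 aa55 aa55 aa55 aa55 aa55 aa55 aa55 aa55 aa55
/-- the data -/
noncomputable def tree : T16 (T16 (T16 (T16 Cl))) := T16.mk
  aaa0 aaa1 aaa2 aaa3 aaa3 aaa3 aaa3 aaa3 aaa3 aaa3 aaa3 aaa3 aaa3 aaa3 aaa3 aaa3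

end Pool.Agent.MP_61a8e3_al.G4.K

end

section

/-! Part K: the table of classes as a function. -/

set_option autoImplicit false

namespace Pool.Agent.MP_61a8e3_al.G4.K

noncomputable def dat3 (c : ℕ) : T16 (T16 (T16 Cl)) := (sel _ c).1 tree

noncomputable def dat2 (c : ℕ) : T16 (T16 Cl) :=
  (sA _ c (nat_lit 0)).1 (Nat.rec (motive := fun _ => T16 (T16 (T16 Cl))) (dat3 (nat_lit 0))
    (fun p _ => dat3 (Nat.succ p)) (Nat.shiftRight c (nat_lit 4)))

noncomputable def dat1 (c : ℕ) : T16 Cl :=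
  (sA _ c (nat_lit 0)).1 (Nat.rec (motive := fun _ => T16 (T16 Cl)) (dat2 (nat_lit 0))
    (fun p _ => dat2 (Nat.succ p)) (Nat.shiftRight c (nat_lit 4)))

/-- the table of classes -/
noncomputable def dat (c : ℕ) : Cl :=
  (sA _ c (nat_lit 0)).1 (Nat.rec (motive := fun _ => T16 Cl) (dat1 (nat_lit 0))
    (fun p _ => dat1 (Nat.succ p)) (Nat.shiftRight c (nat_lit 4)))

end Pool.Agent.MP_61a8e3_al.G4.K

end

section

/-! Part K: ranges of successful checks. -/

set_option autoImplicit false

namespace Pool.Agent.MP_61a8e3_al.G4.K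

/-- the function `f` vanishes on the numbers from `a` to `b - 1` -/
def Rg (f : ℕ → ℕ) (a b : ℕ) : Prop := ∀ c, a ≤ c → c < b → f c = 0

theorem Rg.nil (f : ℕ → ℕ) (a : ℕ) : Rg f a a := fun c h1 h2 => absurd h2 (by omega)

theorem Rg.trans {f : ℕ → ℕ} {a b c : ℕ} (h : Rg f a b) (h' : Rg f b c) : Rg f a c := by
  intro x h1 h2
  by_cases hx : x < b
  exacts [h x h1 hx, h' x (by omega) h2]

theorem Rg.step {f : ℕ → ℕ} {a : ℕ} (b n b' : ℕ) (h : Rg f a b) (hb : Nat.beq b' (b + n) = true)
    (e : Nat.beq (sumN b n f) 0 = true) : Rg f a b' := by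
  refine h.trans fun x h1 h2 => ?_
  rw [Nat.beq_eq] at hb e
  have := sumN_spec e (x - b) (by omega)
  rwa [show b + (x - b) = x by omega] at this

end Pool.Agent.MP_61a8e3_al.G4.K

end

section

/-! Part K: the check of the classes from 12792 to 13239. -/

set_option autoImplicit false
set_option maxRecDepth 100000

namespace Pool.Agent.MP_61a8e3_al.G4.K

theorem chk29 : Rg (cls dat) 12792 13240 := by
  have h := Rg.nil (cls dat) 12792
  replace h := Rg.step 12792 14 12806 h rfl (by decide +kernel)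
  replace h := Rg.step 12806 14 12820 h rfl (by decide +kernel)
  replace h := Rg.step 12820 14 12834 h rfl (by decide +kernel)
  replace h := Rg.step 12834 14 12848 h rfl (by decide +kernel)
  replace h := Rg.step 12848 14 12862 h rfl (by decide +kernel)
  replace h := Rg.step 12862 14 12876 h rfl (by decide +kernel)
  replace h := Rg.step 12876 14 12890 h rfl (by decide +kernel)
  replace h := Rg.step 12890 14 12904 h rfl (by decide +kernel)
  replace h := Rg.step 12904 14 12918 h rfl (by decide +kernel)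
  replace h := Rg.step 12918 14 12932 h rfl (by decide +kernel)
  replace h := Rg.step 12932 14 12946 h rfl (by decide +kernel)
  replace h := Rg.step 12946 14 12960 h rfl (by decide +kernel)
  replace h := Rg.step 12960 14 12974 h rfl (by decide +kernel)
  replace h := Rg.step 12974 14 12988 h rfl (by decide +kernel)
  replace h := Rg.step 12988 14 13002 h rfl (by decide +kernel)
  replace h := Rg.step 13002 14 13016 h rfl (by decide +kernel)
  replace h := Rg.step 13016 14 13030 h rfl (by decide +kernel)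
  replace h := Rg.step 13030 14 13044 h rfl (by decide +kernel)
  replace h := Rg.step 13044 14 13058 h rfl (by decide +kernel)
  replace h := Rg.step 13058 14 13072 h rfl (by decide +kernel)
  replace h := Rg.step 13072 14 13086 h rfl (by decide +kernel)
  replace h := Rg.step 13086 14 13100 h rfl (by decide +kernel)
  replace h := Rg.step 13100 14 13114 h rfl (by decide +kernel)
  replace h := Rg.step 13114 14 13128 h rfl (by decide +kernel)
  replace h := Rg.step 13128 14 13142 h rfl (by decide +kernel)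
  replace h := Rg.step 13142 14 13156 h rfl (by decide +kernel)
  replace h := Rg.step 13156 14 13170 h rfl (by decide +kernel)
  replace h := Rg.step 13170 14 13184 h rfl (by decide +kernel)
  replace h := Rg.step 13184 14 13198 h rfl (by decide +kernel)
  replace h := Rg.step 13198 14 13212 h rfl (by decide +kernel)
  replace h := Rg.step 13212 14 13226 h rfl (by decide +kernel)
  replace h := Rg.step 13226 14 13240 h rfl (by decide +kernel)
  exact h

end Pool.Agent.MP_61a8e3_al.G4.K

end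

section

/-! Part K: the check of the classes from 13240 to 13687. -/

set_option autoImplicit false
set_option maxRecDepth 100000

namespace Pool.Agent.MP_61a8e3_al.G4.K

theorem chk30 : Rg (cls dat) 13240 13688 := by
  have h := Rg.nil (cls dat) 13240
  replace h := Rg.step 13240 14 13254 h rfl (by decide +kernel)
  replace h := Rg.step 13254 14 13268 h rfl (by decide +kernel)
  replace h := Rg.step 13268 14 13282 h rfl (by decide +kernel)
  replace h := Rg.step 13282 14 13296 h rfl (by decide +kernel)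
  replace h := Rg.step 13296 14 13310 h rfl (by decide +kernel)
  replace h := Rg.step 13310 14 13324 h rfl (by decide +kernel)
  replace h := Rg.step 13324 14 13338 h rfl (by decide +kernel)
  replace h := Rg.step 13338 14 13352 h rfl (by decide +kernel)
  replace h := Rg.step 13352 14 13366 h rfl (by decide +kernel)
  replace h := Rg.step 13366 14 13380 h rfl (by decide +kernel)
  replace h := Rg.step 13380 14 13394 h rfl (by decide +kernel)
  replace h := Rg.step 13394 14 13408 h rfl (by decide +kernel)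
  replace h := Rg.step 13408 14 13422 h rfl (by decide +kernel)
  replace h := Rg.step 13422 14 13436 h rfl (by decide +kernel)
  replace h := Rg.step 13436 14 13450 h rfl (by decide +kernel)
  replace h := Rg.step 13450 14 13464 h rfl (by decide +kernel)
  replace h := Rg.step 13464 14 13478 h rfl (by decide +kernel)
  replace h := Rg.step 13478 14 13492 h rfl (by decide +kernel)
  replace h := Rg.step 13492 14 13506 h rfl (by decide +kernel)
  replace h := Rg.step 13506 14 13520 h rfl (by decide +kernel)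
  replace h := Rg.step 13520 14 13534 h rfl (by decide +kernel)
  replace h := Rg.step 13534 14 13548 h rfl (by decide +kernel)
  replace h := Rg.step 13548 14 13562 h rfl (by decide +kernel)
  replace h := Rg.step 13562 14 13576 h rfl (by decide +kernel)
  replace h := Rg.step 13576 14 13590 h rfl (by decide +kernel)
  replace h := Rg.step 13590 14 13604 h rfl (by decide +kernel)
  replace h := Rg.step 13604 14 13618 h rfl (by decide +kernel)
  replace h := Rg.step 13618 14 13632 h rfl (by decide +kernel)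
  replace h := Rg.step 13632 14 13646 h rfl (by decide +kernel)
  replace h := Rg.step 13646 14 13660 h rfl (by decide +kernel)
  replace h := Rg.step 13660 14 13674 h rfl (by decide +kernel)
  replace h := Rg.step 13674 14 13688 h rfl (by decide +kernel)
  exact h

end Pool.Agent.MP_61a8e3_al.G4.K

end

section

set_option autoImplicit false

namespace Pool.Agent.MP_61a8e3_al.G4.A

theorem perm_apply_inv {α : Type} (f : Equiv.Perm α) (x : α) : f (f⁻¹ x) = x :=
  f.apply_symm_apply x

theorem perm_inv_apply {α : Type} (f : Equiv.Perm α) (x : α) : f⁻¹ (f x) = x :=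
  f.symm_apply_apply x

namespace Tab

variable {Xc : Type} (Tb : Tab Xc)

theorem valid (x : Xc) : Valid (Tb.cw x) := by
  obtain ⟨_, _, _, -, h, -⟩ := okShape_iff (Tb.ok x)
  exact h

theorem ex_T (x : Xc) : ∃ π : W, Tb.cw (Tb.T x) = (slide (Tb.cw x)).map π.1 :=
  iso_of_shape ((Tb.valid x).perm (slide_perm _).symm) (Tb.valid _) (Tb.sh_T x).symm

theorem ex_ρ (x : Xc) : ∃ π : W, Tb.cw (Tb.ρ x) = ((Tb.cw x).rotate 1).map π.1 :=
  iso_of_shape ((Tb.valid x).rotate 1) (Tb.valid _) (Tb.sh_ρ x).symm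

/-- Lift of a permutation of `Xc` to labelled points. -/
def lift (P : Equiv.Perm Xc) (τ : Xc → W) : Equiv.Perm (W × Xc) where
  toFun s := (s.1 * (τ s.2)⁻¹, P s.2)
  invFun s := (s.1 * τ (P⁻¹ s.2), P⁻¹ s.2)
  left_inv s := by simp
  right_inv s := by simp

noncomputable def T' : Equiv.Perm (W × Xc) := lift Tb.T (fun x => (Tb.ex_T x).choose)
noncomputable def ρ' : Equiv.Perm (W × Xc) := lift Tb.ρ (fun x => (Tb.ex_ρ x).choose)

/-- The labelled word of a labelled point. -/
def wd (s : W × Xc) : List L := (Tb.cw s.2).map s.1.1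

/-- Relabelling of a labelled point. -/
def lw (π : W) (s : W × Xc) : W × Xc := (π * s.1, s.2)

theorem wd_valid (s : W × Xc) : Valid (Tb.wd s) := (Tb.valid _).map _

theorem wd_lw (π : W) (s : W × Xc) : Tb.wd (lw π s) = (Tb.wd s).map π.1 := by
  simp [wd, lw]

theorem BSys_map (σ τ : W) (u : List L) : (u.map τ.1).map (σ * τ⁻¹).1 = u.map σ.1 := by
  rw [List.map_map]
  apply List.map_congr_left
  intro l _
  simp

theorem wd_T' (s : W × Xc) : Tb.wd (Tb.T' s) = slide (Tb.wd s) := by
  show (Tb.cw (Tb.T s.2)).map (s.1 * ((Tb.ex_T s.2).choose)⁻¹).1 = _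
  have h := (Tb.ex_T s.2).choose_spec
  generalize (Tb.ex_T s.2).choose = τ at h ⊢
  rw [h, BSys_map, wd, slide_map]

theorem wd_ρ' (s : W × Xc) : Tb.wd (Tb.ρ' s) = (Tb.wd s).rotate 1 := by
  show (Tb.cw (Tb.ρ s.2)).map (s.1 * ((Tb.ex_ρ s.2).choose)⁻¹).1 = _
  have h := (Tb.ex_ρ s.2).choose_spec
  generalize (Tb.ex_ρ s.2).choose = τ at h ⊢
  rw [h, BSys_map, wd, List.map_rotate]

theorem wd_pattern (s : W × Xc) : ∃ a t U V, Tb.wd s = a :: t :: U ++ bar a :: V ∧
    bar a ∉ U ∧ t ≠ bar a := by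
  obtain ⟨a, t, U, h, -, ht, -⟩ := okShape_iff (Tb.ok s.2)
  have h1 : Tb.wd s = s.1.1 a :: s.1.1 t :: U.map s.1.1 := by rw [wd, h]; rfl
  have h2 : s.1.1 t ≠ bar (s.1.1 a) := by
    rw [← W_bar]; exact fun e => ht (s.1.1.injective e)
  obtain ⟨U1, V, hU, hn⟩ := Valid.pattern (h1 ▸ Tb.wd_valid s) h2
  exact ⟨_, _, U1, V, by rw [h1, hU]; rfl, hn, h2⟩

theorem wd_T'inv (s : W × Xc) : Tb.wd (Tb.T'⁻¹ s) = unslide (Tb.wd s) := by
  obtain ⟨a, t, U, V, h, hn, ht⟩ := Tb.wd_pattern (Tb.T'⁻¹ s)
  have h1 := Tb.wd_T' (Tb.T'⁻¹ s)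
  rw [perm_apply_inv, h, slide_eq hn] at h1
  rw [h1, unslide_eq hn ht, h]

theorem ext' {s t : W × Xc} (h2 : s.2 = t.2) (h1 : Tb.wd s = Tb.wd t) : s = t := by
  refine Prod.ext ?_ h2
  unfold wd at h1
  rw [h2] at h1
  exact map_inj_of_valid (Tb.valid _) h1

theorem ρ'_pow (k : ℕ) (s : W × Xc) :
    ((Tb.ρ' ^ k) s).2 = (Tb.ρ ^ k) s.2 ∧ Tb.wd ((Tb.ρ' ^ k) s) = (Tb.wd s).rotate k := by
  induction k with
  | zero => simp
  | succ k ih =>
    rw [pow_succ', pow_succ', Equiv.Perm.mul_apply, Equiv.Perm.mul_apply, wd_ρ', ih.2,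
      List.rotate_rotate, ← ih.1]
    exact ⟨rfl, rfl⟩

theorem ρ'_16 : Tb.ρ' ^ 16 = 1 := by
  ext1 s
  apply Tb.ext'
  · rw [(Tb.ρ'_pow 16 s).1, Tb.ρ16]; rfl
  · rw [(Tb.ρ'_pow 16 s).2, ← (Tb.wd_valid s).length, List.rotate_length]; rfl

theorem lw_T' (π : W) (s : W × Xc) : Tb.T' (lw π s) = lw π (Tb.T' s) := by
  simp [T', lift, lw, mul_assoc]

theorem lw_T'inv (π : W) (s : W × Xc) : Tb.T'⁻¹ (lw π s) = lw π (Tb.T'⁻¹ s) := by
  rw [Equiv.Perm.inv_eq_iff_eq, lw_T', perm_apply_inv]

theorem lw_ρ' (π : W) (k : ℕ) (s : W × Xc) : (Tb.ρ' ^ k) (lw π s) = lw π ((Tb.ρ' ^ k) s) := by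
  induction k with
  | zero => rfl
  | succ k ih =>
    rw [pow_succ', Equiv.Perm.mul_apply, Equiv.Perm.mul_apply, ih]
    simp [ρ', lift, lw, mul_assoc]

/-- Move the root to the letter `b`. -/
noncomputable def go (b : L) (s : W × Xc) : W × Xc := (Tb.ρ' ^ ((Tb.wd s).idxOf b)) s

theorem wd_go (b : L) (s : W × Xc) :
    Tb.wd (Tb.go b s) = (Tb.wd s).rotate ((Tb.wd s).idxOf b) := (Tb.ρ'_pow _ s).2

theorem head_go (b : L) (s : W × Xc) : (Tb.wd (Tb.go b s)).head? = some b := by
  rw [wd_go]; exact head_rotate_idxOf ((Tb.wd_valid s).2 b)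

theorem eq_go {a : L} {s : W × Xc} {j : ℕ} (h : (Tb.wd ((Tb.ρ' ^ j) s)).head? = some a) :
    (Tb.ρ' ^ j) s = Tb.go a s := by
  rw [(Tb.ρ'_pow j s).2] at h
  rw [go, ← idx_of_head (Tb.wd_valid s) h, ← pow_eq_pow_mod j Tb.ρ'_16]

theorem go_pow (a : L) (k : ℕ) (s : W × Xc) : Tb.go a ((Tb.ρ' ^ k) s) = Tb.go a s := by
  have h := Tb.head_go a ((Tb.ρ' ^ k) s)
  rw [go, ← Equiv.Perm.mul_apply, ← pow_add] at h ⊢
  exact Tb.eq_go h

theorem go_go (a b : L) (s : W × Xc) : Tb.go a (Tb.go b s) = Tb.go a s := Tb.go_pow a _ s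

theorem go_self {a : L} {s : W × Xc} (h : (Tb.wd s).head? = some a) : Tb.go a s = s :=
  (Tb.eq_go (j := 0) h).symm

theorem go_lw (π : W) (b : L) (s : W × Xc) : Tb.go (π.1 b) (lw π s) = lw π (Tb.go b s) := by
  rw [go, go, wd_lw, idxOf_map, lw_ρ']

theorem go_lw_go (π : W) (a b : L) (s : W × Xc) :
    Tb.go a (lw π (Tb.go b s)) = Tb.go a (lw π s) := by
  have : lw π (Tb.go b s) = (Tb.ρ' ^ ((Tb.wd s).idxOf b)) (lw π s) := by rw [lw_ρ']; rfl
  rw [this, go_pow]

theorem cyc_go (b : L) (s : W × Xc) : (Tb.wd (Tb.go b s) : Cycle L) = Tb.wd s := by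
  rw [wd_go]; exact Cycle.coe_eq_coe.2 (List.IsRotated.symm ⟨_, rfl⟩)

theorem wd_go_of {a : L} {U : List L} {s : W × Xc} (h : (Tb.wd s : Cycle L) = ↑(a :: U)) :
    Tb.wd (Tb.go a s) = a :: U := by
  have h1 := Tb.head_go a s
  have h2 := (Tb.wd_valid (Tb.go a s)).1
  have h3 := Tb.cyc_go a s
  cases hw : Tb.wd (Tb.go a s) with
  | nil => rw [hw] at h1; simp at h1
  | cons x V =>
    rw [hw] at h1 h2 h3
    obtain rfl : x = a := by simpa using h1
    rw [cyc_head_inj h2 (h3.trans h)]

/-- Signed slide at the root. -/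
noncomputable def TT (b : Bool) : Equiv.Perm (W × Xc) := if b then Tb.T' else Tb.T'⁻¹

theorem head_T' (s : W × Xc) : (Tb.wd (Tb.T' s)).head? = (Tb.wd s).head? := by
  rw [wd_T', slide_head]

theorem head_T'inv (s : W × Xc) : (Tb.wd (Tb.T'⁻¹ s)).head? = (Tb.wd s).head? := by
  rw [← Tb.head_T' (Tb.T'⁻¹ s), perm_apply_inv]

/-- Points with the root at a fixed letter. -/
def E : Type := {s : W × Xc // (Tb.wd s).head? = some (lb 3)}

/-- Normal form. -/
noncomputable def nf (s : W × Xc) : Tb.E := ⟨Tb.go (lb 3) s, Tb.head_go _ s⟩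

theorem nf_val (e : Tb.E) : Tb.nf e.1 = e := Subtype.ext (Tb.go_self e.2)

theorem nf_go (b : L) (s : W × Xc) : Tb.nf (Tb.go b s) = Tb.nf s :=
  Subtype.ext (Tb.go_go _ b s)

theorem go_nf (b : L) (s : W × Xc) : Tb.go b (Tb.nf s).1 = Tb.go b s := Tb.go_go b _ s

noncomputable def R (a : L) : Equiv.Perm Tb.E where
  toFun e := Tb.nf (Tb.T' (Tb.go a e.1))
  invFun e := Tb.nf (Tb.T'⁻¹ (Tb.go a e.1))
  left_inv e := by
    simp only
    rw [go_nf, Tb.go_self (by rw [head_T', head_go]), perm_inv_apply, nf_go, nf_val]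
  right_inv e := by
    simp only
    rw [go_nf, Tb.go_self (by rw [head_T'inv, head_go]), perm_apply_inv, nf_go, nf_val]

theorem nf_lw_nf (π : W) (s : W × Xc) : Tb.nf (lw π (Tb.nf s).1) = Tb.nf (lw π s) :=
  Subtype.ext (Tb.go_lw_go π _ _ s)

theorem lw_lw (π σ : W) (s : W × Xc) : lw π (lw σ s) = lw (π * σ) s := by
  simp [lw, mul_assoc]

theorem lw_one (s : W × Xc) : lw 1 s = s := by simp [lw]

noncomputable def rl : W →* Equiv.Perm Tb.E where
  toFun π :=
    { toFun := fun e => Tb.nf (lw π e.1)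
      invFun := fun e => Tb.nf (lw π⁻¹ e.1)
      left_inv := fun e => by
        simp only
        rw [nf_lw_nf, lw_lw, inv_mul_cancel, lw_one, nf_val]
      right_inv := fun e => by
        simp only
        rw [nf_lw_nf, lw_lw, mul_inv_cancel, lw_one, nf_val] }
  map_one' := by
    ext1 e
    show Tb.nf (lw 1 e.1) = e
    rw [lw_one, nf_val]
  map_mul' π σ := by
    ext1 e
    show Tb.nf (lw (π * σ) e.1) = Tb.nf (lw π (Tb.nf (lw σ e.1)).1)
    rw [nf_lw_nf, lw_lw]

theorem R_nf (a : L) (s : W × Xc) : Tb.R a (Tb.nf s) = Tb.nf (Tb.T' (Tb.go a s)) := by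
  show Tb.nf (Tb.T' (Tb.go a (Tb.nf s).1)) = _
  rw [go_nf]

theorem Rinv_nf (a : L) (s : W × Xc) :
    (Tb.R a)⁻¹ (Tb.nf s) = Tb.nf (Tb.T'⁻¹ (Tb.go a s)) := by
  show Tb.nf (Tb.T'⁻¹ (Tb.go a (Tb.nf s).1)) = _
  rw [go_nf]

theorem rl_nf (π : W) (s : W × Xc) : Tb.rl π (Tb.nf s) = Tb.nf (lw π s) := Tb.nf_lw_nf π s

theorem cyc_nf (s : W × Xc) : (Tb.wd (Tb.nf s).1 : Cycle L) = Tb.wd s := Tb.cyc_go _ s

/-- Execution of a sequence of signed slides on labelled points. -/
noncomputable def exec : W × Xc → List (L × Bool) → L → W × Xc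
  | s, [], f => Tb.go f s
  | s, b :: bs, f => exec (Tb.TT b.2 (Tb.go b.1 s)) bs f

/-- The corresponding permutation. -/
noncomputable def RR : List (L × Bool) → Equiv.Perm Tb.E
  | [] => 1
  | b :: bs => RR bs * (if b.2 then Tb.R b.1 else (Tb.R b.1)⁻¹)

theorem wd_TT (b : Bool) (s : W × Xc) : Tb.wd (Tb.TT b s) = sslide b (Tb.wd s) := by
  cases b
  · exact Tb.wd_T'inv s
  · exact Tb.wd_T' s

theorem TT_snd (b : Bool) (s : W × Xc) :
    (Tb.TT b s).2 = (if b then Tb.T else Tb.T⁻¹) s.2 := by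
  cases b <;> rfl

theorem exec_spec (bs : List (L × Bool)) (f : L) (s : W × Xc) :
    Tb.wd (Tb.exec s bs f) = simW (Tb.wd s) bs f ∧
    (Tb.exec s bs f).2 = run Tb.T Tb.ρ (simP (Tb.wd s) bs f).1 (simP (Tb.wd s) bs f).2 s.2 ∧
    Tb.nf (Tb.exec s bs f) = Tb.RR bs (Tb.nf s) := by
  induction bs generalizing s with
  | nil => exact ⟨Tb.wd_go f s, (Tb.ρ'_pow _ s).1, Tb.nf_go f s⟩
  | cons b bs ih =>
    obtain ⟨h1, h2, h3⟩ := ih (Tb.TT b.2 (Tb.go b.1 s))
    rw [wd_TT, wd_go] at h1 h2
    refine ⟨h1, ?_, ?_⟩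
    · rw [TT_snd, go, (Tb.ρ'_pow _ s).1] at h2
      exact h2
    · rw [exec, h3, RR, Equiv.Perm.mul_apply]
      congr 1
      cases b.2
      · exact (Tb.Rinv_nf _ _).symm
      · exact (Tb.R_nf _ _).symm

theorem exec_lw (π : W) (bs : List L) (f : L) (s : W × Xc) :
    Tb.exec (lw π s) (fw (bs.map π.1)) (π.1 f) = lw π (Tb.exec s (fw bs) f) := by
  induction bs generalizing s with
  | nil => exact Tb.go_lw π f s
  | cons b bs ih =>
    show Tb.exec (Tb.T' (Tb.go (π.1 b) (lw π s))) (fw (bs.map π.1)) (π.1 f) =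
      lw π (Tb.exec (Tb.T' (Tb.go b s)) (fw bs) f)
    rw [go_lw, lw_T', ih]

theorem wd_one (x : Xc) : Tb.wd (1, x) = Tb.cw x := by simp [wd]

/-- The cells, at a labelled point. -/
theorem cellE (s : W × Xc) (bs1 bs2 : List L)
    (h : (bs1.map (s.1⁻¹).1, bs2.map (s.1⁻¹).1) ∈ cells (Tb.cw s.2)) :
    Tb.RR (fw bs1) (Tb.nf s) = Tb.RR (fw bs2) (Tb.nf s) := by
  obtain ⟨π, x⟩ := s
  obtain ⟨a, t, U, hx, -, -, -, hc⟩ := okShape_iff (Tb.ok x)
  have h0 : Tb.exec (1, x) (fw (bs1.map (π⁻¹).1)) a = Tb.exec (1, x) (fw (bs2.map (π⁻¹).1)) a := by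
    apply Tb.ext'
    · rw [(Tb.exec_spec _ _ _).2.1, (Tb.exec_spec _ _ _).2.1, wd_one]
      apply Tb.cell x (_, _)
      simp only at h
      rw [hx] at h ⊢
      exact List.mem_cons_of_mem _ (List.mem_map.2 ⟨_, h, rfl⟩)
    · rw [(Tb.exec_spec _ _ _).1, (Tb.exec_spec _ _ _).1, wd_one]
      exact hc _ h
  have e1 : ∀ bs : List L, (bs.map (π⁻¹).1).map π.1 = bs := fun bs => by
    rw [List.map_map]; conv_rhs => rw [← List.map_id bs]
    apply List.map_congr_left; intro l _; simp
  have h1 := congrArg (lw π) h0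
  rw [← exec_lw, ← exec_lw, e1, e1] at h1
  have e2 : lw π ((1 : W), x) = (π, x) := by simp [lw]
  rw [e2] at h1
  rw [← (Tb.exec_spec _ (π.1 a) _).2.2, ← (Tb.exec_spec _ (π.1 a) _).2.2, h1]

theorem cw_eq (s : W × Xc) : Tb.cw s.2 = (Tb.wd s).map (s.1⁻¹).1 := by
  rw [wd, List.map_map]; conv_lhs => rw [← List.map_id (Tb.cw s.2)]
  apply List.map_congr_left; intro l _; simp

theorem triE (s : W × Xc) {a b : L} {U : List L} (h : Tb.wd s = a :: b :: U) {π : W}
    (hπ : IsTri π a b) : Tb.RR (fw [a, b, bar a]) (Tb.nf s) = Tb.rl π (Tb.nf s) := by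
  obtain ⟨σ, x⟩ := s
  obtain ⟨a', t', U', hx, -, -, ht, -⟩ := okShape_iff (Tb.ok x)
  have hw : Tb.wd (σ, x) = σ.1 a' :: σ.1 t' :: U'.map σ.1 := by rw [wd, hx]; rfl
  rw [hw] at h
  obtain ⟨rfl, rfl, -⟩ : σ.1 a' = a ∧ σ.1 t' = b ∧ U'.map σ.1 = U := by simpa using h
  have hπ' : IsTri (σ⁻¹ * π * σ) a' t' := by
    refine ⟨by simp [hπ.1], by simp [hπ.2.1, ← W_bar], fun l h1 h2 => ?_⟩
    have h3 : ∀ m : L, l.1 ≠ m.1 → (σ.1 l).1 ≠ (σ.1 m).1 := by
      intro m hm e
      rcases eq_or_bar e with e | e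
      · exact hm (by rw [σ.1.injective e])
      · rw [← W_bar] at e; exact hm (by rw [σ.1.injective e]; rfl)
    simp [hπ.2.2 _ (h3 _ h1) (h3 _ h2)]
  have h0 : Tb.exec (1, x) (fw [a', t', bar a']) (bar t') = lw (σ⁻¹ * π * σ) (1, x) := by
    apply Tb.ext'
    · rw [(Tb.exec_spec _ _ _).2.1, wd_one]
      have := Tb.cell x (simP (Tb.cw x) (fw [a', t', bar a']) (bar t'), ([], 0)) (by
        rw [hx]; exact List.mem_cons_self)
      rw [this]; rfl
    · rw [(Tb.exec_spec _ _ _).1, wd_lw, wd_one, ht]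
      exact List.map_congr_left (fun l _ => (triF_eq hπ' l).symm)
  have h1 := congrArg (lw σ) h0
  rw [← exec_lw, lw_lw] at h1
  have e2 : lw σ ((1 : W), x) = (σ, x) := by simp [lw]
  have e3 : lw (σ * (σ⁻¹ * π * σ)) ((1 : W), x) = lw π (σ, x) := by simp [lw, mul_assoc]
  rw [e2, e3] at h1
  simp only [List.map_cons, List.map_nil, W_bar] at h1
  rw [← (Tb.exec_spec _ (bar (σ.1 t')) _).2.2, h1, rl_nf]

end Tab

end Pool.Agent.MP_61a8e3_al.G4.A

end

section

/-! Part K: digits in base `2 ^ 16`. -/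

set_option autoImplicit false

namespace Pool.Agent.MP_61a8e3_al.G4.K

theorem dig_lt (y s : ℕ) : dig y s < 2 ^ 16 := Nat.mod_lt _ (by norm_num)

theorem dig_zero_KSimd (y : ℕ) : dig y 0 = y % 2 ^ 16 := by simp [dig]

theorem dig_div_KSimd (y j s : ℕ) : dig (y / 2 ^ (16 * j)) s = dig y (s + j) := by
  unfold dig
  rw [Nat.div_div_eq_div_mul, ← pow_add, ← mul_add, add_comm j]

theorem dig_succ_KSimd (y s : ℕ) : dig y (s + 1) = dig (y / 2 ^ 16) s := by
  rw [← dig_div_KSimd, mul_one]

theorem dig_mod_KSimd (y m s : ℕ) (hs : s < m) : dig (y % 2 ^ (16 * m)) s = dig y s := by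
  unfold dig
  obtain ⟨c, rfl⟩ := Nat.exists_eq_add_of_lt hs
  rw [show 16 * (s + c + 1) = 16 * s + (16 + 16 * c) by ring, pow_add,
    Nat.mod_mul_right_div_self, pow_add, Nat.mod_mul_right_mod]

theorem zero_KSimd {x n s : ℕ} (h : x < 2 ^ (16 * n)) (hs : n ≤ s) : dig x s = 0 := by
  unfold dig
  rw [Nat.div_eq_of_lt (lt_of_lt_of_le h (Nat.pow_le_pow_right (by norm_num) (by omega))),
    Nat.zero_mod]

theorem big_KSimd {x n : ℕ} (h : x ≤ n) : x < 2 ^ (16 * n) :=
  lt_of_lt_of_le Nat.lt_two_pow_self (Nat.pow_le_pow_right (by norm_num) (by omega))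

theorem mod_sum_KSimd (n y : ℕ) :
    ∑ s ∈ Finset.range n, dig y s * 2 ^ (16 * s) = y % 2 ^ (16 * n) := by
  induction n with
  | zero => simp [Nat.mod_one]
  | succ n ih =>
    rw [Finset.sum_range_succ, ih, mul_add, pow_add, Nat.mod_mul, mul_one, dig,
      mul_comm (2 ^ (16 * n))]

theorem sum_lt_KSimd (n : ℕ) (d : ℕ → ℕ) (h : ∀ s < n, d s < 2 ^ 16) :
    ∑ t ∈ Finset.range n, d t * 2 ^ (16 * t) < 2 ^ (16 * n) := by
  induction n with
  | zero => simp
  | succ n ih =>
    have h1 := ih fun s hs => h s (by omega)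
    have h2 : (d n + 1) * 2 ^ (16 * n) ≤ 2 ^ 16 * 2 ^ (16 * n) :=
      Nat.mul_le_mul_right _ (h n (by omega))
    rw [Finset.sum_range_succ, mul_add, pow_add, mul_one, mul_comm (2 ^ (16 * n))]
    rw [add_mul, one_mul] at h2
    omega

/-- a number is the sum of its digits -/
theorem eq_sum_dig (n y : ℕ) (h : y < 2 ^ (16 * n)) :
    y = ∑ s ∈ Finset.range n, dig y s * 2 ^ (16 * s) := by
  rw [mod_sum_KSimd, Nat.mod_eq_of_lt h]

/-- the digits of a sum with small coefficients -/
theorem dig_sum (n : ℕ) (d : ℕ → ℕ) (h : ∀ s < n, d s < 2 ^ 16) (s : ℕ) :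
    dig (∑ t ∈ Finset.range n, d t * 2 ^ (16 * t)) s = if s < n then d s else 0 := by
  induction n with
  | zero => simp [dig]
  | succ n ih =>
    have h1 : ∀ s < n, d s < 2 ^ 16 := fun s hs => h s (by omega)
    have h2 := sum_lt_KSimd n d h1
    rcases lt_trichotomy s n with hs | rfl | hs
    · rw [if_pos (by omega), ← dig_mod_KSimd _ n s hs, Finset.sum_range_succ,
        Nat.add_mul_mod_self_right, dig_mod_KSimd _ n s hs, ih h1, if_pos hs]
    · rw [if_pos (by omega), Finset.sum_range_succ, dig,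
        Nat.add_mul_div_right _ _ (by positivity), Nat.div_eq_of_lt h2, zero_add,
        Nat.mod_eq_of_lt (h s (by omega))]
    · rw [if_neg (by omega)]
      exact zero_KSimd (sum_lt_KSimd (n + 1) d h) (by omega)

theorem sum_lt (n : ℕ) (d : ℕ → ℕ) (h : ∀ s < n, d s < 2 ^ 16) :
    ∑ t ∈ Finset.range n, d t * 2 ^ (16 * t) < 2 ^ (16 * n) := by
  exact sum_lt_KSimd n d h

theorem dig_land (x y s : ℕ) : dig (Nat.land x y) s = Nat.land (dig x s) (dig y s) := by
  refine Nat.eq_of_testBit_eq fun i => ?_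
  change (dig (x &&& y) s).testBit i = (dig x s &&& dig y s).testBit i
  unfold dig
  simp only [Nat.testBit_and, Nat.testBit_mod_two_pow, Nat.testBit_div_two_pow]
  cases decide (i < 16) <;> simp

theorem dig_shiftRight (x j s : ℕ) : dig (Nat.shiftRight x (16 * j)) s = dig x (s + j) := by
  change dig (x >>> (16 * j)) s = _
  rw [Nat.shiftRight_eq_div_pow, dig_div_KSimd]

theorem dig_ext {x y : ℕ} (h : ∀ s, dig x s = dig y s) : x = y := by
  refine (eq_sum_dig (x + y) x (big_KSimd (by omega))).trans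
    (Eq.trans ?_ (eq_sum_dig (x + y) y (big_KSimd (by omega))).symm)
  exact Finset.sum_congr rfl fun s _ => by rw [h s]

theorem dig_add (x y : ℕ) (h : ∀ s, dig x s + dig y s < 2 ^ 16) (s : ℕ) :
    dig (x + y) s = dig x s + dig y s := by
  induction s generalizing x y with
  | zero =>
    have h0 := h 0
    rw [dig_zero_KSimd, dig_zero_KSimd] at h0
    rw [dig_zero_KSimd, dig_zero_KSimd, dig_zero_KSimd, Nat.add_mod, Nat.mod_eq_of_lt h0]
  | succ s ih =>
    have h0 := h 0
    rw [dig_zero_KSimd, dig_zero_KSimd] at h0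
    rw [dig_succ_KSimd, dig_succ_KSimd, dig_succ_KSimd, Nat.add_div_eq_of_add_mod_lt h0]
    refine ih _ _ fun j => ?_
    rw [← dig_succ_KSimd, ← dig_succ_KSimd]
    exact h _

theorem dig_sub (x y : ℕ) (h : ∀ s, dig y s ≤ dig x s) (s : ℕ) :
    dig (x - y) s = dig x s - dig y s := by
  have h1 : ∀ t, dig (∑ t ∈ Finset.range x, (dig x t - dig y t) * 2 ^ (16 * t)) t =
      dig x t - dig y t := fun t => by
    rw [dig_sum x _ fun t _ => lt_of_le_of_lt (Nat.sub_le _ _) (dig_lt x t)]
    split_ifs with h2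
    · rfl
    · rw [zero_KSimd (big_KSimd (le_refl x)) (not_lt.1 h2), Nat.zero_sub]
  generalize ∑ t ∈ Finset.range x, (dig x t - dig y t) * 2 ^ (16 * t) = z at h1
  have h2 : y + z = x := dig_ext fun t => by
    have h3 := h t
    rw [dig_add y z (fun u => by
      have h4 := h u
      have h5 := dig_lt x u
      rw [h1]
      omega), h1]
    omega
  rw [← h1, show x - y = z by omega]

theorem dig_eq_zero_of_lt {x n s : ℕ} (h : x < 2 ^ (16 * n)) (hs : n ≤ s) : dig x s = 0 := by
  exact zero_KSimd h hs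

theorem lt_of_dig_eq_zero {x n : ℕ} (h : ∀ s, n ≤ s → dig x s = 0) : x < 2 ^ (16 * n) := by
  have h1 : x / 2 ^ (16 * n) = 0 := dig_ext fun s => by
    rw [dig_div_KSimd, h _ (by omega)]
    simp [dig]
  exact (Nat.div_eq_zero_iff_lt (by positivity)).1 h1

theorem dig_xor (x y s : ℕ) : dig (Nat.xor x y) s = Nat.xor (dig x s) (dig y s) := by
  refine Nat.eq_of_testBit_eq fun i => ?_
  change (dig (x ^^^ y) s).testBit i = (dig x s ^^^ dig y s).testBit i
  unfold dig
  simp only [Nat.testBit_mod_two_pow, Nat.testBit_div_two_pow, Nat.testBit_xor]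
  cases decide (i < 16) <;> simp

theorem dig_lor (x y s : ℕ) : dig (Nat.lor x y) s = Nat.lor (dig x s) (dig y s) := by
  refine Nat.eq_of_testBit_eq fun i => ?_
  change (dig (x ||| y) s).testBit i = (dig x s ||| dig y s).testBit i
  unfold dig
  simp only [Nat.testBit_mod_two_pow, Nat.testBit_div_two_pow, Nat.testBit_or]
  cases decide (i < 16) <;> simp

theorem dig_zero (s : ℕ) : dig 0 s = 0 := by simp [dig]

theorem dig_shiftLeft (x j s : ℕ) :
    dig (Nat.shiftLeft x (16 * j)) s = if s < j then 0 else dig x (s - j) := by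
  refine Nat.eq_of_testBit_eq fun i => ?_
  change (dig (x <<< (16 * j)) s).testBit i = _
  split_ifs with h
  · unfold dig
    simp only [Nat.testBit_mod_two_pow, Nat.testBit_div_two_pow, Nat.testBit_shiftLeft,
      Nat.zero_testBit]
    by_cases hi : i < 16
    · have : ¬ (i + 16 * s ≥ 16 * j) := by omega
      simp [this]
    · simp [hi]
  · unfold dig
    simp only [Nat.testBit_mod_two_pow, Nat.testBit_div_two_pow, Nat.testBit_shiftLeft]
    have h1 : i + 16 * s ≥ 16 * j := by omega
    have h2 : i + 16 * s - 16 * j = i + 16 * (s - j) := by omega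
    simp [h1, h2]

theorem dig_mul_pow (x j s : ℕ) :
    dig (x * 2 ^ (16 * j)) s = if s < j then 0 else dig x (s - j) := by
  rw [← dig_shiftLeft]
  change _ = dig (x <<< (16 * j)) s
  rw [Nat.shiftLeft_eq]

theorem dig_mul_small (x c : ℕ) (h : ∀ s, dig x s * c < 2 ^ 16) (s : ℕ) :
    dig (x * c) s = dig x s * c := by
  induction c generalizing s with
  | zero => simp [dig_zero]
  | succ c ih =>
    have h1 : ∀ t, dig x t * c < 2 ^ 16 := fun t =>
      lt_of_le_of_lt (Nat.mul_le_mul_left _ (Nat.le_succ c)) (h t)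
    rw [Nat.mul_succ, Nat.mul_succ, dig_add _ _ (fun t => ?_), ih h1]
    rw [ih h1, ← Nat.mul_succ]
    exact h t

/-- a shift by `r` bits followed by a mask with small digits -/
theorem dig_shr_land (x M r s : ℕ) (hr : r ≤ 16) (hM : dig M s < 2 ^ (16 - r)) :
    dig (Nat.land (Nat.shiftRight x r) M) s = Nat.land (dig x s / 2 ^ r) (dig M s) := by
  rw [dig_land]
  refine Nat.eq_of_testBit_eq fun i => ?_
  change (dig (x >>> r) s &&& dig M s).testBit i = (dig x s / 2 ^ r &&& dig M s).testBit i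
  rw [Nat.testBit_and, Nat.testBit_and]
  by_cases hi : i < 16 - r
  · congr 1
    unfold dig
    simp only [Nat.testBit_mod_two_pow, Nat.testBit_div_two_pow, Nat.testBit_shiftRight]
    have h1 : i < 16 := by omega
    have h2 : i + r < 16 := by omega
    have h3 : r + (i + 16 * s) = i + r + 16 * s := by omega
    simp [h1, h2, h3]
  · have : (dig M s).testBit i = false :=
      Nat.testBit_lt_two_pow (lt_of_lt_of_le hM (Nat.pow_le_pow_right (by norm_num) (by omega)))
    simp [this]

theorem land_full {a : ℕ} (h : a < 2 ^ 16) : Nat.land a 65535 = a := by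
  change a &&& (2 ^ 16 - 1) = a
  rw [Nat.and_two_pow_sub_one_eq_mod, Nat.mod_eq_of_lt h]

theorem land_zero' (a : ℕ) : Nat.land a 0 = 0 := Nat.and_zero a

/-- a mask with digits `0` and `65535` -/
theorem dig_mask (x M s : ℕ) (p : Prop) [Decidable p] (h : dig M s = if p then 65535 else 0) :
    dig (Nat.land x M) s = if p then dig x s else 0 := by
  rw [dig_land, h]
  split_ifs
  · exact land_full (dig_lt _ _)
  · exact land_zero' _

theorem xor_eq_zero {a b : ℕ} (h : Nat.xor a b = 0) : a = b := Nat.xor_eq_zero_iff.1 h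

theorem add_eq_zero' {a b : ℕ} (h : Nat.add a b = 0) : a = 0 ∧ b = 0 := Nat.add_eq_zero_iff.1 h

/-- the digits of `y` are given by `f` in the slots below `n` and vanish from `n` on -/
def Pat (n : ℕ) (f : ℕ → ℕ) (y : ℕ) : Prop := ∀ s, dig y s = if s < n then f s else 0

theorem pat_of {n : ℕ} {f : ℕ → ℕ} {y : ℕ} (h1 : y < 2 ^ (16 * n)) (h2 : ∀ s < n, dig y s = f s) :
    Pat n f y := fun s => by
  split_ifs with h
  exacts [h2 s h, dig_eq_zero_of_lt h1 (by omega)]

theorem Pat.lt {n : ℕ} {f : ℕ → ℕ} {y : ℕ} (h : Pat n f y) : y < 2 ^ (16 * n) :=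
  lt_of_dig_eq_zero fun s hs => by rw [h s, if_neg (by omega)]

/-- the point with the index `x` -/
def un (x : ℕ) : C.I := fun i => ((x / 3 ^ i.val : ℕ) : ZMod 3)

theorem ix_lt : ∀ y : C.I, ix y < 81 := by decide +kernel

theorem un_ix : ∀ y : C.I, un (ix y) = y := by decide +kernel

theorem ix_un : ∀ x < 81, ix (un x) = x := by decide +kernel

theorem val_ix : ∀ (y : C.I) (i : Fin 4), ix y / 3 ^ i.val % 3 = (y i).val := by decide +kernel

end Pool.Agent.MP_61a8e3_al.G4.K

end

section

/-! Part K: the digits of the constants. -/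

set_option autoImplicit false
set_option maxRecDepth 100000
set_option exponentiation.threshold 10000

namespace Pool.Agent.MP_61a8e3_al.G4.K

/-- the entries of the test vector -/
def xn (x : ℕ) : ℕ :=
  if x = 0 then 6 else if x = 1 then 2 else if x = 3 then 3 else if x = 9 then 4 else
    if x = 27 then 5 else 1

theorem pat_cO : Pat 81 (fun _ => 1) cO :=
  pat_of (by decide +kernel) (by decide +kernel)

theorem pat_c15 : Pat 81 (fun _ => 15) c15 :=
  pat_of (by decide +kernel) (by decide +kernel)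

theorem pat_c255 : Pat 81 (fun _ => 255) c255 :=
  pat_of (by decide +kernel) (by decide +kernel)

theorem pat_c511 : Pat 81 (fun _ => 511) c511 :=
  pat_of (by decide +kernel) (by decide +kernel)

theorem pat_b0 : Pat 81 (fun s => s / 3 ^ 0 % 3) b0 :=
  pat_of (by decide +kernel) (by decide +kernel)

theorem pat_b1 : Pat 81 (fun s => s / 3 ^ 1 % 3) b1 :=
  pat_of (by decide +kernel) (by decide +kernel)

theorem pat_b2 : Pat 81 (fun s => s / 3 ^ 2 % 3) b2 :=
  pat_of (by decide +kernel) (by decide +kernel)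

theorem pat_b3 : Pat 81 (fun s => s / 3 ^ 3 % 3) b3 :=
  pat_of (by decide +kernel) (by decide +kernel)

theorem pat_q00 : Pat 81 (fun s => s / 3 ^ 0 % 3 * (s / 3 ^ 0 % 3) % 3) q00 :=
  pat_of (by decide +kernel) (by decide +kernel)

theorem pat_q01 : Pat 81 (fun s => s / 3 ^ 0 % 3 * (s / 3 ^ 1 % 3) % 3) q01 :=
  pat_of (by decide +kernel) (by decide +kernel)

theorem pat_q02 : Pat 81 (fun s => s / 3 ^ 0 % 3 * (s / 3 ^ 2 % 3) % 3) q02 :=
  pat_of (by decide +kernel) (by decide +kernel)

theorem pat_q03 : Pat 81 (fun s => s / 3 ^ 0 % 3 * (s / 3 ^ 3 % 3) % 3) q03 :=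
  pat_of (by decide +kernel) (by decide +kernel)

theorem pat_q11 : Pat 81 (fun s => s / 3 ^ 1 % 3 * (s / 3 ^ 1 % 3) % 3) q11 :=
  pat_of (by decide +kernel) (by decide +kernel)

theorem pat_q12 : Pat 81 (fun s => s / 3 ^ 1 % 3 * (s / 3 ^ 2 % 3) % 3) q12 :=
  pat_of (by decide +kernel) (by decide +kernel)

theorem pat_q13 : Pat 81 (fun s => s / 3 ^ 1 % 3 * (s / 3 ^ 3 % 3) % 3) q13 :=
  pat_of (by decide +kernel) (by decide +kernel)

theorem pat_q22 : Pat 81 (fun s => s / 3 ^ 2 % 3 * (s / 3 ^ 2 % 3) % 3) q22 :=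
  pat_of (by decide +kernel) (by decide +kernel)

theorem pat_q23 : Pat 81 (fun s => s / 3 ^ 2 % 3 * (s / 3 ^ 3 % 3) % 3) q23 :=
  pat_of (by decide +kernel) (by decide +kernel)

theorem pat_q33 : Pat 81 (fun s => s / 3 ^ 3 % 3 * (s / 3 ^ 3 % 3) % 3) q33 :=
  pat_of (by decide +kernel) (by decide +kernel)

theorem pat_cF : Pat 486 (fun _ => 65535) cF :=
  pat_of (by decide +kernel) (by decide +kernel)

theorem pat_cR : Pat 486 (fun s => if s % 81 = 0 then 65535 else 0) cR :=
  pat_of (by decide +kernel) (by decide +kernel)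

theorem pat_cL : Pat 324 (fun _ => 65535) cL :=
  pat_of (by decide +kernel) (by decide +kernel)

theorem pat_cH : Pat 486 (fun _ => 65280) cH :=
  pat_of (by decide +kernel) (by decide +kernel)

theorem pat_cC : Pat 486 (fun s => if s < 324 then 0 else 128) cC :=
  pat_of (by decide +kernel) (by decide +kernel)

theorem pat_o16 : Pat 16 (fun _ => 1) o16 :=
  pat_of (by decide +kernel) (by decide +kernel)

theorem pat_n16 : Pat 16 (fun _ => 15) n16 :=
  pat_of (by decide +kernel) (by decide +kernel)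

theorem pat_m16 : Pat 16 (fun _ => 65535) m16 :=
  pat_of (by decide +kernel) (by decide +kernel)

theorem pat_i16 : Pat 16 (fun s => s) i16 :=
  pat_of (by decide +kernel) (by decide +kernel)

theorem pat_std : Pat 16 (fun s => if s % 4 < 2 then 2 else 14) std :=
  pat_of (by decide +kernel) (by decide +kernel)

theorem pat_st0 : Pat 486 (fun s => 128 + if 81 ≤ s ∧ s < 162 then 9 * xn (s - 81) else 0) st0 :=
  pat_of (by decide +kernel) (by decide +kernel)

theorem cD_eq : cD = 2 ^ (16 * 162) + 1 := by decide +kernel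

theorem cB_eq : cB = 2 ^ (16 * 81) + 1 := by decide +kernel

theorem cR_eq : cR = 65535 * (1 + 2 ^ (16 * 81) + 2 ^ (16 * 162) + 2 ^ (16 * 243) +
    2 ^ (16 * 324) + 2 ^ (16 * 405)) := by decide +kernel

theorem sF_lt : sF < 2 ^ (16 * 486) := by decide +kernel

theorem sF_le : ∀ s < 486, dig sF s ≤ 255 := by decide +kernel

theorem sF_tr : ∀ x < 81, ∀ f < 3,
    dig sF (x + 81 + 162 * f) = dig sF (x + 162 * f) + if f = 0 then 9 * xn x else 0 := by
  decide +kernel

theorem sF_zero : dig sF 0 = 131 ∧ dig sF 162 = 128 ∧ dig sF 324 = 128 := by decide +kernel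

end Pool.Agent.MP_61a8e3_al.G4.K

end

section

/-! Part K: the masks. -/

set_option autoImplicit false

namespace Pool.Agent.MP_61a8e3_al.G4.K

open C

theorem KMask_cat {y n : ℕ} (hy : y < 2 ^ (16 * n)) (z s : ℕ) :
    dig (y + z * 2 ^ (16 * n)) s = if s < n then dig y s else dig z (s - n) := by
  rw [dig_add _ _ fun t => ?_, dig_mul_pow]
  · split_ifs with h
    · rfl
    · rw [dig_eq_zero_of_lt hy (not_lt.1 h), zero_add]
  · rw [dig_mul_pow]
    split_ifs with h
    · exact dig_lt _ _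
    · rw [dig_eq_zero_of_lt hy (not_lt.1 h), zero_add]
      exact dig_lt _ _

/-- copies of a block of `n` slots -/
def KMask_rep (n y : ℕ) : ℕ → ℕ
  | 0 => 0
  | k + 1 => y + KMask_rep n y k * 2 ^ (16 * n)

theorem KMask_rep_mul (n y k : ℕ) : KMask_rep n y k = y * KMask_rep n 1 k := by
  induction k with
  | zero => rfl
  | succ k ih => rw [KMask_rep, KMask_rep, ih, mul_add, mul_one, mul_assoc]

theorem KMask_rep_dig {n y : ℕ} (hy : y < 2 ^ (16 * n)) (k s : ℕ) :
    dig (KMask_rep n y k) s = if s < n * k then dig y (s % n) else 0 := by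
  induction k generalizing s with
  | zero => rw [KMask_rep, dig_zero, if_neg (by omega)]
  | succ k ih =>
    rw [KMask_rep, KMask_cat hy, ih, Nat.mul_succ]
    by_cases h : s < n
    · rw [if_pos h, if_pos (by omega), Nat.mod_eq_of_lt h]
    · rw [if_neg h, ← Nat.mod_eq_sub_mod (not_lt.1 h)]
      exact if_congr (by omega) rfl rfl

theorem KMask_cR : cR = 65535 * KMask_rep 81 1 6 := by decide +kernel

theorem KMask_congr {n x : ℕ} {f g : ℕ → ℕ} (h : Pat n f x) (h' : ∀ s < n, f s = g s) :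
    Pat n g x := fun s => by
  rw [h s]
  split_ifs with hs
  exacts [h' s hs, rfl]

theorem KMask_add {n x y : ℕ} {f g : ℕ → ℕ} (hx : Pat n f x) (hy : Pat n g y)
    (h : ∀ s < n, f s + g s < 2 ^ 16) : Pat n (fun s => f s + g s) (Nat.add x y) := fun s => by
  change dig (x + y) s = _
  rw [dig_add _ _ fun t => ?_, hx s, hy s]
  · split_ifs <;> rfl
  · rw [hx t, hy t]
    split_ifs with ht
    exacts [h t ht, by norm_num]

theorem KMask_mul {n x : ℕ} {f : ℕ → ℕ} (hx : Pat n f x) (c : ℕ)
    (h : ∀ s < n, f s * c < 2 ^ 16) : Pat n (fun s => f s * c) (Nat.mul x c) := fun s => by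
  change dig (x * c) s = _
  rw [dig_mul_small _ _ fun t => ?_, hx s]
  · split_ifs
    exacts [rfl, zero_mul _]
  · rw [hx t]
    split_ifs with ht
    exacts [h t ht, by norm_num]

theorem KMask_mul' {n x : ℕ} {f : ℕ → ℕ} (hx : Pat n f x) (c : ℕ)
    (h : ∀ s < n, c * f s < 2 ^ 16) : Pat n (fun s => c * f s) (Nat.mul c x) := by
  have h1 := KMask_mul hx c fun s hs => by rw [mul_comm]; exact h s hs
  change Pat n _ (c * x)
  rw [mul_comm c x]
  exact KMask_congr h1 fun s _ => mul_comm _ _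

theorem KMask_sub {n x y : ℕ} {f g : ℕ → ℕ} (hx : Pat n f x) (hy : Pat n g y)
    (h : ∀ s < n, g s ≤ f s) : Pat n (fun s => f s - g s) (Nat.sub x y) := fun s => by
  change dig (x - y) s = _
  rw [dig_sub _ _ fun t => ?_, hx s, hy s]
  · split_ifs <;> rfl
  · rw [hx t, hy t]
    split_ifs with ht
    exacts [h t ht, le_rfl]

theorem KMask_shr {n M m : ℕ} (hM : Pat n (fun _ => m) M) (x r : ℕ) (hr : r ≤ 16)
    (hm : m < 2 ^ (16 - r)) :
    Pat n (fun s => Nat.land (dig x s / 2 ^ r) m) (Nat.land (Nat.shiftRight x r) M) := fun s => by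
  rw [dig_shr_land x M r s hr, hM s]
  · split_ifs
    exacts [rfl, land_zero' _]
  · rw [hM s]
    split_ifs
    exacts [hm, by positivity]

theorem KMask_val {n x s : ℕ} {f : ℕ → ℕ} (h : Pat n f x) (hs : s < n) : dig x s = f s := by
  rw [h s, if_pos hs]

theorem KMask_land3 (c : ℕ) : Nat.land c 3 = c % 4 := Nat.and_two_pow_sub_one_eq_mod c 2

theorem KMask_code (c j : ℕ) : Nat.land (Nat.shiftRight c (2 * j)) 3 = c / 4 ^ j % 4 := by
  rw [KMask_land3]
  change (c >>> (2 * j)) % 4 = _
  rw [Nat.shiftRight_eq_div_pow, pow_mul]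
  rfl

theorem KMask_le6 {a b : ℕ} (hb : b ≤ 2) : a % 4 * b ≤ 6 :=
  Nat.mul_le_mul (show a % 4 ≤ 3 by omega) hb

/-- the digits of a combination of five patterns -/
def KMask_cmb (f0 f1 f2 f3 f4 : ℕ → ℕ) (c s : ℕ) : ℕ :=
  c / 4 ^ 0 % 4 * f0 s + c / 4 ^ 1 % 4 * f1 s + c / 4 ^ 2 % 4 * f2 s + c / 4 ^ 3 % 4 * f3 s +
    c / 4 ^ 4 % 4 * f4 s

theorem KMask_tb {x0 x1 x2 x3 x4 : ℕ} {f0 f1 f2 f3 f4 : ℕ → ℕ} (h0 : Pat 81 f0 x0)
    (h1 : Pat 81 f1 x1) (h2 : Pat 81 f2 x2) (h3 : Pat 81 f3 x3) (h4 : Pat 81 f4 x4)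
    (g0 : ∀ s, f0 s ≤ 2) (g1 : ∀ s, f1 s ≤ 2) (g2 : ∀ s, f2 s ≤ 2) (g3 : ∀ s, f3 s ≤ 2)
    (g4 : ∀ s, f4 s ≤ 2) (c : ℕ) :
    Pat 81 (KMask_cmb f0 f1 f2 f3 f4 c) (tb x0 x1 x2 x3 x4 c) ∧
      ∀ s, KMask_cmb f0 f1 f2 f3 f4 c s ≤ 30 := by
  have k0 := fun s => KMask_le6 (a := c / 4 ^ 0) (g0 s)
  have k1 := fun s => KMask_le6 (a := c / 4 ^ 1) (g1 s)
  have k2 := fun s => KMask_le6 (a := c / 4 ^ 2) (g2 s)
  have k3 := fun s => KMask_le6 (a := c / 4 ^ 3) (g3 s)
  have k4 := fun s => KMask_le6 (a := c / 4 ^ 4) (g4 s)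
  have e : tb x0 x1 x2 x3 x4 c = Nat.add (Nat.add (Nat.add (Nat.add
      (Nat.mul (Nat.land (Nat.shiftRight c (2 * 0)) 3) x0)
      (Nat.mul (Nat.land (Nat.shiftRight c (2 * 1)) 3) x1))
      (Nat.mul (Nat.land (Nat.shiftRight c (2 * 2)) 3) x2))
      (Nat.mul (Nat.land (Nat.shiftRight c (2 * 3)) 3) x3))
      (Nat.mul (Nat.land (Nat.shiftRight c (2 * 4)) 3) x4) := rfl
  have b6 : ∀ {a : ℕ}, a ≤ 30 → a < 2 ^ 16 := fun h => lt_of_le_of_lt h (by norm_num)
  refine ⟨?_, fun s => ?_⟩
  · rw [e, KMask_code, KMask_code, KMask_code, KMask_code, KMask_code]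
    refine KMask_add (KMask_add (KMask_add (KMask_add
      (KMask_mul' h0 _ fun s _ => b6 ((k0 s).trans (by norm_num)))
      (KMask_mul' h1 _ fun s _ => b6 ((k1 s).trans (by norm_num))) fun s _ => b6 ?_)
      (KMask_mul' h2 _ fun s _ => b6 ((k2 s).trans (by norm_num))) fun s _ => b6 ?_)
      (KMask_mul' h3 _ fun s _ => b6 ((k3 s).trans (by norm_num))) fun s _ => b6 ?_)
      (KMask_mul' h4 _ fun s _ => b6 ((k4 s).trans (by norm_num))) fun s _ => b6 ?_
    all_goals linarith [k0 s, k1 s, k2 s, k3 s, k4 s]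
  · unfold KMask_cmb
    linarith [k0 s, k1 s, k2 s, k3 s, k4 s]

theorem KMask_m3d : ∀ v ≤ 127, Nat.land (v * 43 / 2 ^ 7) 511 * 3 ≤ v ∧
    v - Nat.land (v * 43 / 2 ^ 7) 511 * 3 = v % 3 := by decide +kernel

theorem KMask_m3 {x : ℕ} {f : ℕ → ℕ} (h : Pat 81 f x) (hf : ∀ s, f s ≤ 127) :
    Pat 81 (fun s => f s % 3) (m3 x) := by
  have e : m3 x = Nat.sub x (Nat.mul (Nat.land (Nat.shiftRight (Nat.mul x 43) 7) c511) 3) := rfl
  have h1 := KMask_mul h 43 fun s _ => by have := hf s; omega
  have h2 := KMask_congr (g := fun s => Nat.land (f s * 43 / 2 ^ 7) 511)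
    (KMask_shr pat_c511 (Nat.mul x 43) 7 (by norm_num) (by norm_num))
    fun s hs => by rw [KMask_val h1 hs]
  have h3 := KMask_mul h2 3 fun s _ => by
    have := hf s
    have := (KMask_m3d _ (hf s)).1
    omega
  rw [e]
  exact KMask_congr (KMask_sub h h3 fun s _ => (KMask_m3d _ (hf s)).1)
    fun s _ => (KMask_m3d _ (hf s)).2

theorem KMask_mkd : ∀ a ≤ 15, ∀ k ≤ 15, Nat.xor a k ≤ 15 ∧
    Nat.land ((Nat.xor a k + 15) / 2 ^ 4) 1 = if a = k then 0 else 1 := by decide +kernel

theorem KMask_qd : ∀ v ≤ 90, (Nat.land (v * 342 / 2 ^ 8) 1 = 1 ↔ v % 3 = 1) ∧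
    (Nat.land (v * 342 / 2 ^ 9) 1 = 1 ↔ v % 3 = 2) := by decide +kernel

theorem KMask_land1 (a : ℕ) : Nat.land a 1 ≤ 1 := Nat.and_le_right

theorem KMask_cast (a : ℕ) : ((a % 3 : ℕ) : ZMod 3) = a := ZMod.natCast_mod a 3

theorem KMask_cast_iff (v r : ℕ) (hr : r < 3) : ((v : ℕ) : ZMod 3) = (r : ℕ) ↔ v % 3 = r := by
  rw [ZMod.natCast_eq_natCast_iff', Nat.mod_eq_of_lt hr]

theorem mul_cR {x : ℕ} (hx : x < 2 ^ (16 * 81)) (h1 : ∀ s, dig x s ≤ 1) (s : ℕ) :
    dig (Nat.mul x cR) s = if s < 486 ∧ dig x (s % 81) = 1 then 65535 else 0 := by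
  have h2 := dig_mul_small x 65535 fun t => by have := h1 t; omega
  have h3 : x * 65535 < 2 ^ (16 * 81) := lt_of_dig_eq_zero fun t ht => by
    rw [h2, dig_eq_zero_of_lt hx ht]
  change dig (x * cR) s = _
  rw [KMask_cR, ← mul_assoc, ← KMask_rep_mul, KMask_rep_dig h3, h2]
  have h4 := h1 (s % 81)
  split_ifs <;> omega

theorem KMask_cR_pat {x : ℕ} {f : ℕ → ℕ} (h : Pat 81 f x) (hf : ∀ s < 81, f s ≤ 1) (s : ℕ) :
    dig (Nat.mul x cR) s = if s < 486 ∧ f (s % 81) = 1 then 65535 else 0 := by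
  rw [mul_cR h.lt fun t => ?_, KMask_val h (Nat.mod_lt _ (by norm_num))]
  rw [h t]
  split_ifs with ht
  exacts [hf t ht, zero_le_one]

theorem mk_spec {k w : ℕ} (hk : k ≤ 15) (hw : ∀ s, dig w s ≤ 15) (s : ℕ) :
    dig (mk k w) s = if s < 486 ∧ dig w (s % 81) = k then 65535 else 0 := by
  have h1 := KMask_mul' pat_cO k fun s _ => by omega
  have h2 : ∀ t, dig (Nat.xor w (Nat.mul k cO)) t ≤ 15 := fun t => by
    rw [dig_xor, h1 t]
    split_ifs
    · exact (KMask_mkd _ (hw t) _ ((mul_one k).trans_le hk)).1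
    · exact (KMask_mkd _ (hw t) _ (by omega)).1
  have h3 : ∀ t < 81, dig (Nat.add (Nat.xor w (Nat.mul k cO)) c15) t = Nat.xor (dig w t) k + 15 :=
    fun t ht => by
    change dig (_ + _) t = _
    rw [dig_add _ _ fun u => ?_, dig_xor, KMask_val h1 ht, KMask_val pat_c15 ht, mul_one]
    have := h2 u
    rw [pat_c15 u]
    beta_reduce
    split_ifs <;> omega
  have h4 := KMask_congr (g := fun t => if dig w t = k then 0 else 1)
    (KMask_shr pat_cO (Nat.add (Nat.xor w (Nat.mul k cO)) c15) 4 (by norm_num) (by norm_num))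
    fun t ht => by rw [h3 t ht]; exact (KMask_mkd _ (hw t) _ hk).2
  have h5 := KMask_sub pat_cO h4 fun t _ => by split_ifs <;> omega
  unfold mk
  rw [KMask_cR_pat h5 fun t _ => Nat.sub_le _ _]
  refine if_congr (and_congr_right fun _ => ?_) rfl rfl
  split_ifs with h <;> simp [h]

theorem s1_eq (c : ℕ) : s1 c = 16 * 3 ^ (c % 4) := by
  rw [← KMask_land3]; rfl

theorem s2_eq (c : ℕ) : s2 c = 16 * (2 * 3 ^ (c % 4)) := by
  rw [← KMask_land3, ← mul_assoc]; rfl

theorem bl_spec (c : ℕ) : Pat 81 (fun s => s / 3 ^ (c % 4) % 3) (bl c) := by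
  unfold bl
  rw [KMask_land3]
  have h : c % 4 < 4 := Nat.mod_lt _ (by norm_num)
  generalize c % 4 = i at h
  interval_cases i
  exacts [pat_b0, pat_b1, pat_b2, pat_b3]

theorem KMask_l3 (a : ℕ) : a % 3 ≤ 2 := by omega

theorem ru_spec (c : ℕ) :
    Pat 81 (fun s => (af (c / 4) (un s)).val + 4 * (s / 3 ^ (c % 4) % 3)) (ru c) := by
  obtain ⟨h1, h2⟩ := KMask_tb pat_b0 pat_b1 pat_b2 pat_b3 pat_cO (fun _ => KMask_l3 _)
    (fun _ => KMask_l3 _) (fun _ => KMask_l3 _) (fun _ => KMask_l3 _) (fun _ => one_le_two) (c / 4)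
  have e : Nat.shiftRight c 2 = c / 4 := Nat.shiftRight_eq_div_pow c 2
  unfold ru
  rw [e]
  refine KMask_congr (KMask_add (KMask_m3 h1 fun s => (h2 s).trans (by norm_num))
    (KMask_mul (bl_spec c) 4 fun s _ => by omega) fun s _ => by omega) fun s _ => ?_
  rw [mul_comm, ← ZMod.val_natCast]
  congr 2
  simp only [KMask_cmb, Nat.cast_add, Nat.cast_mul, KMask_cast, mul_one]
  rfl

theorem gz_spec (c s : ℕ) :
    dig (gz c) s = if s < 486 ∧ s % 81 / 3 ^ (c % 4) % 3 = 0 then 65535 else 0 := by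
  unfold gz
  rw [mk_spec (by norm_num) fun t => ?_, KMask_val (bl_spec c) (Nat.mod_lt _ (by norm_num))]
  rw [bl_spec c t]
  beta_reduce
  split_ifs <;> omega

theorem KMask_tq (c0 c1 c2 : ℕ) : ∃ v : ℕ → ℕ, (∀ s, v s ≤ 90) ∧
    (∀ s, ((v s : ℕ) : ZMod 3) = qf c0 c1 c2 (un s)) ∧
    Pat 81 (fun s => v s * 342) (Nat.add (Nat.add (tq0 c0) (tq1 c1)) (tq2 c2)) := by
  obtain ⟨h0, g0⟩ := KMask_tb pat_q00 pat_q01 pat_q02 pat_q03 pat_b0 (fun _ => KMask_l3 _)
    (fun _ => KMask_l3 _) (fun _ => KMask_l3 _) (fun _ => KMask_l3 _) (fun _ => KMask_l3 _) c0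
  obtain ⟨h1, g1⟩ := KMask_tb pat_q11 pat_q12 pat_q13 pat_b1 pat_cO (fun _ => KMask_l3 _)
    (fun _ => KMask_l3 _) (fun _ => KMask_l3 _) (fun _ => KMask_l3 _) (fun _ => one_le_two) c1
  obtain ⟨h2, g2⟩ := KMask_tb pat_q22 pat_q23 pat_b2 pat_q33 pat_b3 (fun _ => KMask_l3 _)
    (fun _ => KMask_l3 _) (fun _ => KMask_l3 _) (fun _ => KMask_l3 _) (fun _ => KMask_l3 _) c2
  have e0 : tq0 c0 = Nat.mul (tb q00 q01 q02 q03 b0 c0) 342 := rfl
  have e1 : tq1 c1 = Nat.mul (tb q11 q12 q13 b1 cO c1) 342 := rfl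
  have e2 : tq2 c2 = Nat.mul (tb q22 q23 b2 q33 b3 c2) 342 := rfl
  rw [e0, e1, e2]
  refine ⟨_, fun s => (add_le_add (add_le_add (g0 s) (g1 s)) (g2 s)).trans (by norm_num),
    fun s => ?_, KMask_congr (KMask_add (KMask_add
      (KMask_mul h0 342 fun s _ => by have := g0 s; omega)
      (KMask_mul h1 342 fun s _ => by have := g1 s; omega)
      fun s _ => by have := g0 s; have := g1 s; omega)
      (KMask_mul h2 342 fun s _ => by have := g2 s; omega)
      fun s _ => by have := g0 s; have := g1 s; have := g2 s; omega)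
      fun s _ => by rw [add_mul, add_mul]⟩
  simp only [KMask_cmb, Nat.cast_add, Nat.cast_mul, KMask_cast, mul_one]
  rfl

theorem dB1_spec (c0 c1 c2 s : ℕ) : dig (dB1 (dw c0 c1 c2)) s =
    if s < 486 ∧ qf c0 c1 c2 (un (s % 81)) = 1 then 65535 else 0 := by
  obtain ⟨v, h1, h2, h3⟩ := KMask_tq c0 c1 c2
  have e : dB1 (dw c0 c1 c2) = Nat.mul (Nat.land (Nat.shiftRight
    (Nat.add (Nat.add (tq0 c0) (tq1 c1)) (tq2 c2)) 8) cO) cR := rfl
  rw [e, KMask_cR_pat (KMask_shr pat_cO _ 8 (by norm_num) (by norm_num)) fun t _ => KMask_land1 _,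
    KMask_val h3 (Nat.mod_lt _ (by norm_num)), ← h2]
  refine if_congr (and_congr_right fun _ => ?_) rfl rfl
  rw [(KMask_qd _ (h1 _)).1, ← KMask_cast_iff _ 1 (by norm_num), Nat.cast_one]

theorem dB2_spec (c0 c1 c2 s : ℕ) : dig (dB2 (dw c0 c1 c2)) s =
    if s < 486 ∧ qf c0 c1 c2 (un (s % 81)) = 2 then 65535 else 0 := by
  obtain ⟨v, h1, h2, h3⟩ := KMask_tq c0 c1 c2
  have e : dB2 (dw c0 c1 c2) = Nat.mul (Nat.land (Nat.shiftRight (Nat.shiftRight
    (Nat.add (Nat.add (tq0 c0) (tq1 c1)) (tq2 c2)) 8) 1) cO) cR := rfl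
  have e' : ∀ x, Nat.shiftRight (Nat.shiftRight x 8) 1 = Nat.shiftRight x 9 := fun x =>
    (Nat.shiftRight_add x 8 1).symm
  rw [e, e', KMask_cR_pat (KMask_shr pat_cO _ 9 (by norm_num) (by norm_num))
    fun t _ => KMask_land1 _, KMask_val h3 (Nat.mod_lt _ (by norm_num)), ← h2]
  refine if_congr (and_congr_right fun _ => ?_) rfl rfl
  rw [(KMask_qd _ (h1 _)).2, ← KMask_cast_iff _ 2 (by norm_num), Nat.cast_ofNat]

end Pool.Agent.MP_61a8e3_al.G4.K

end

section

/-! Part K: the gate that changes one coordinate. -/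

set_option autoImplicit false

namespace Pool.Agent.MP_61a8e3_al.G4.K

open C

/-- the slot that is read by an exchange -/
def KGateR_sg (p : ℕ → Prop) [DecidablePred p] (d s : ℕ) : ℕ :=
  if p s then s + d else if d ≤ s ∧ p (s - d) then s - d else s

theorem KGateR_xor1 (a b : ℕ) : Nat.xor a (Nat.xor b a) = b := by
  change a ^^^ (b ^^^ a) = b
  rw [Nat.xor_comm b, ← Nat.xor_assoc, Nat.xor_self, Nat.zero_xor]

theorem KGateR_xor2 (a b : ℕ) : Nat.xor a (Nat.xor a b) = b := by
  change a ^^^ (a ^^^ b) = b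
  rw [← Nat.xor_assoc, Nat.xor_self, Nat.zero_xor]

theorem KGateR_swp {M d : ℕ} (p : ℕ → Prop) [DecidablePred p]
    (hM : ∀ s, dig M s = if p s then 65535 else 0) (hp : ∀ s, p s → ¬ p (s + d)) (x s : ℕ) :
    dig (swp M (2 ^ (16 * d) + 1) (16 * d) x) s = dig x (KGateR_sg p d s) := by
  have h0 : swp M (2 ^ (16 * d) + 1) (16 * d) x =
      Nat.xor x (Nat.land (Nat.xor (Nat.shiftRight x (16 * d)) x) M * (2 ^ (16 * d) + 1)) := rfl
  have h1 : ∀ u, dig (Nat.land (Nat.xor (Nat.shiftRight x (16 * d)) x) M) u =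
      if p u then Nat.xor (dig x (u + d)) (dig x u) else 0 := fun u => by
    rw [dig_mask _ _ _ _ (hM u), dig_xor, dig_shiftRight]
  rw [h0]
  generalize Nat.land (Nat.xor (Nat.shiftRight x (16 * d)) x) M = t at h1
  have h2 : ∀ u, p u → dig (t * 2 ^ (16 * d)) u = 0 := fun u hu => by
    rw [dig_mul_pow]
    split_ifs with h
    · rfl
    · rw [h1, if_neg fun h' => hp _ h' (by rwa [Nat.sub_add_cancel (not_lt.1 h)])]
  have h3 : ∀ u, ¬ p u → dig t u = 0 := fun u hu => by rw [h1, if_neg hu]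
  rw [dig_xor, mul_add, mul_one, dig_add _ _ fun u => ?_]
  · unfold KGateR_sg
    by_cases hs : p s
    · rw [h2 s hs, zero_add, h1, if_pos hs, if_pos hs, KGateR_xor1]
    · rw [h3 s hs, add_zero, if_neg hs, dig_mul_pow]
      by_cases h : s < d
      · rw [if_pos h, if_neg fun h' => absurd h'.1 (not_le.2 h)]
        exact Nat.xor_zero _
      · rw [if_neg h, h1]
        by_cases h' : p (s - d)
        · rw [if_pos h', if_pos ⟨not_lt.1 h, h'⟩, Nat.sub_add_cancel (not_lt.1 h), KGateR_xor2]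
        · rw [if_neg h', if_neg fun h'' => h' h''.2]
          exact Nat.xor_zero _
  · by_cases hu : p u
    · rw [h2 u hu, zero_add]
      exact dig_lt _ _
    · rw [h3 u hu, add_zero]
      exact dig_lt _ _

/-- the slots of the first exchange -/
def KGateR_pA (b w : ℕ → ℕ) (d s : ℕ) : Prop :=
  s < 486 ∧ ((b s = 0 ∧ w (s + d) = 0) ∨ (b s = 1 ∧ w s = 2))

/-- the slots of the second exchange -/
def KGateR_pB (b w : ℕ → ℕ) (d s : ℕ) : Prop :=
  s < 486 ∧ b s = 0 ∧ (w s = 2 ∨ w (s + 2 * d) = 0)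

instance (b w : ℕ → ℕ) (d : ℕ) : DecidablePred (KGateR_pA b w d) := fun _ => by
  unfold KGateR_pA; infer_instance

instance (b w : ℕ → ℕ) (d : ℕ) : DecidablePred (KGateR_pB b w d) := fun _ => by
  unfold KGateR_pB; infer_instance

section

variable {b w : ℕ → ℕ} {d : ℕ} (hb : ∀ s, b (s + d) = (b s + 1) % 3)

include hb

theorem KGateR_b2 (s : ℕ) : b (s + 2 * d) = (b s + 2) % 3 := by
  rw [two_mul, ← add_assoc, hb, hb]
  omega

theorem KGateR_hA (s : ℕ) (h : KGateR_pA b w d s) : ¬ KGateR_pA b w d (s + d) := fun h' => by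
  have h1 := hb s
  unfold KGateR_pA at h h'
  omega

theorem KGateR_hB (s : ℕ) (h : KGateR_pB b w d s) : ¬ KGateR_pB b w d (s + 2 * d) := fun h' => by
  have h1 := KGateR_b2 hb s
  unfold KGateR_pB at h h'
  omega

theorem KGateR_grp {x : ℕ} (hx : b x = 0) (hN : x + 2 * d < 486) (h0 : w x < 3)
    (h1 : w (x + d) < 3) (h2 : w (x + 2 * d) < 3) (h01 : w x ≠ w (x + d))
    (h02 : w x ≠ w (x + 2 * d)) (h12 : w (x + d) ≠ w (x + 2 * d)) {t : ℕ} (ht : t < 3) :
    KGateR_sg (KGateR_pA b w d) d (KGateR_sg (KGateR_pB b w d) (2 * d) (x + t * d)) =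
      x + w (x + t * d) * d := by
  have b1 : b (x + d) = 1 := by rw [hb, hx]
  have b2 : b (x + 2 * d) = 2 := by rw [KGateR_b2 hb, hx]
  have a0 : KGateR_sg (KGateR_pA b w d) d x = if w (x + d) = 0 then x + d else x := by
    have e1 : KGateR_pA b w d x ↔ w (x + d) = 0 := by unfold KGateR_pA; omega
    have e2 : ¬ (d ≤ x ∧ KGateR_pA b w d (x - d)) := fun h => by
      have h3 := hb (x - d)
      rw [Nat.sub_add_cancel h.1] at h3
      unfold KGateR_pA at h
      omega
    simp only [KGateR_sg, e1, if_neg e2]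
  have a1 : KGateR_sg (KGateR_pA b w d) d (x + d) =
      if w (x + d) = 2 then x + 2 * d else if w (x + d) = 0 then x else x + d := by
    have e1 : KGateR_pA b w d (x + d) ↔ w (x + d) = 2 := by unfold KGateR_pA; omega
    have e2 : KGateR_pA b w d x ↔ w (x + d) = 0 := by unfold KGateR_pA; omega
    simp only [KGateR_sg, Nat.add_sub_cancel, e1, e2, Nat.le_add_left, true_and, two_mul,
      add_assoc]
  have a2 : KGateR_sg (KGateR_pA b w d) d (x + 2 * d) =
      if w (x + d) = 2 then x + d else x + 2 * d := by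
    have e1 : ¬ KGateR_pA b w d (x + 2 * d) := by unfold KGateR_pA; omega
    have e2 : KGateR_pA b w d (x + d) ↔ w (x + d) = 2 := by unfold KGateR_pA; omega
    have e3 : x + 2 * d - d = x + d := by omega
    have e4 : d ≤ x + 2 * d := by omega
    simp only [KGateR_sg, if_neg e1, e3, e2, e4, true_and]
  have e0 : KGateR_pB b w d x ↔ (w x = 2 ∨ w (x + 2 * d) = 0) := by unfold KGateR_pB; omega
  have c0 : KGateR_sg (KGateR_pB b w d) (2 * d) x =
      if w x = 2 ∨ w (x + 2 * d) = 0 then x + 2 * d else x := by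
    have e2 : ¬ (2 * d ≤ x ∧ KGateR_pB b w d (x - 2 * d)) := fun h => by
      have h3 := KGateR_b2 hb (x - 2 * d)
      rw [Nat.sub_add_cancel h.1] at h3
      unfold KGateR_pB at h
      omega
    simp only [KGateR_sg, e0, if_neg e2]
  have c1 : KGateR_sg (KGateR_pB b w d) (2 * d) (x + d) = x + d := by
    have e1 : ¬ KGateR_pB b w d (x + d) := by unfold KGateR_pB; omega
    have e2 : ¬ (2 * d ≤ x + d ∧ KGateR_pB b w d (x + d - 2 * d)) := fun h => by
      have h3 := KGateR_b2 hb (x + d - 2 * d)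
      rw [Nat.sub_add_cancel h.1] at h3
      unfold KGateR_pB at h
      omega
    simp only [KGateR_sg, if_neg e1, if_neg e2]
  have c2 : KGateR_sg (KGateR_pB b w d) (2 * d) (x + 2 * d) =
      if w x = 2 ∨ w (x + 2 * d) = 0 then x else x + 2 * d := by
    have e1 : ¬ KGateR_pB b w d (x + 2 * d) := by unfold KGateR_pB; omega
    simp only [KGateR_sg, if_neg e1, Nat.add_sub_cancel, e0, Nat.le_add_left, true_and]
  have key : ∀ n k : ℕ, n = k → x + n * d = x + k * d := fun n k h => by rw [h]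
  obtain rfl | rfl | rfl : t = 0 ∨ t = 1 ∨ t = 2 := by omega
  · rw [zero_mul, add_zero, c0]
    split_ifs with h
    · rw [a2]
      split_ifs with h'
      · rw [key (w x) 1 (by omega), one_mul]
      · rw [key (w x) 2 (by omega)]
    · rw [a0]
      split_ifs with h'
      · rw [key (w x) 1 (by omega), one_mul]
      · rw [key (w x) 0 (by omega), zero_mul, add_zero]
  · rw [one_mul, c1, a1]
    split_ifs with h h'
    · rw [h]
    · rw [h', zero_mul, add_zero]
    · rw [key (w (x + d)) 1 (by omega), one_mul]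
  · rw [c2]
    split_ifs with h
    · rw [a0]
      split_ifs with h'
      · rw [key (w (x + 2 * d)) 1 (by omega), one_mul]
      · rw [key (w (x + 2 * d)) 0 (by omega), zero_mul, add_zero]
    · rw [a2]
      split_ifs with h'
      · rw [key (w (x + 2 * d)) 1 (by omega), one_mul]
      · rw [key (w (x + 2 * d)) 2 (by omega)]

theorem KGateR_out (hN : ∀ s < 486, b s < 2 → s + d < 486) {s : ℕ} (hs : 486 ≤ s) :
    KGateR_sg (KGateR_pA b w d) d (KGateR_sg (KGateR_pB b w d) (2 * d) s) = s := by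
  have e1 : ¬ KGateR_pB b w d s := by unfold KGateR_pB; omega
  have e2 : ¬ (2 * d ≤ s ∧ KGateR_pB b w d (s - 2 * d)) := fun h => by
    have h3 := hN (s - 2 * d)
    have h4 := hN (s - 2 * d + d)
    have h5 := hb (s - 2 * d)
    unfold KGateR_pB at h
    omega
  have e3 : ¬ KGateR_pA b w d s := by unfold KGateR_pA; omega
  have e4 : ¬ (d ≤ s ∧ KGateR_pA b w d (s - d)) := fun h => by
    have h3 := hN (s - d)
    unfold KGateR_pA at h
    omega
  simp only [KGateR_sg, if_neg e1, if_neg e2, if_neg e3, if_neg e4]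

end

/-- the old coordinate -/
def KGateR_b (c s : ℕ) : ℕ := s / 3 ^ (c % 4) % 3

/-- the new coordinate -/
def KGateR_w (c s : ℕ) : ℕ := (af (c / 4) (un (s % 81))).val

theorem KGateR_w_lt (c s : ℕ) : KGateR_w c s < 3 := ZMod.val_lt _

theorem KGateR_b_lt (c s : ℕ) : KGateR_b c s < 3 := Nat.mod_lt _ (by norm_num)

theorem KGateR_hb (c s : ℕ) : KGateR_b c (s + 3 ^ (c % 4)) = (KGateR_b c s + 1) % 3 := by
  unfold KGateR_b
  rw [Nat.add_div_right _ (by positivity)]
  omega

theorem KGateR_b_mod (c s : ℕ) : KGateR_b c (s % 81) = KGateR_b c s := by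
  unfold KGateR_b
  have h : c % 4 < 4 := Nat.mod_lt _ (by norm_num)
  generalize c % 4 = i at h
  interval_cases i <;> omega

theorem KGateR_hN (c : ℕ) : ∀ s < 486, KGateR_b c s < 2 → s + 3 ^ (c % 4) < 486 := by
  unfold KGateR_b
  have h : c % 4 < 4 := Nat.mod_lt _ (by norm_num)
  generalize c % 4 = i at h
  intro s hs
  interval_cases i <;> omega

theorem KGateR_mk (c : ℕ) {k : ℕ} (hk : k ≤ 15) (s : ℕ) : dig (mk k (ru c)) s =
    if s < 486 ∧ KGateR_w c s + 4 * KGateR_b c s = k then 65535 else 0 := by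
  have h1 : dig (ru c) (s % 81) = KGateR_w c s + 4 * KGateR_b c s := by
    rw [ru_spec c, if_pos (Nat.mod_lt _ (by norm_num)), ← KGateR_b_mod]
    rfl
  rw [mk_spec hk (fun u => ?_), h1]
  rw [ru_spec c]
  split_ifs
  · have h2 : (af (c / 4) (un u)).val < 3 := ZMod.val_lt _
    have h3 := KGateR_b_lt c u
    unfold KGateR_b at h3
    beta_reduce
    omega
  · omega

theorem KGateR_rA (c s : ℕ) : dig (rA c) s =
    if KGateR_pA (KGateR_b c) (KGateR_w c) (3 ^ (c % 4)) s then 65535 else 0 := by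
  have h0 : rA c = Nat.shiftRight (mk 4 (ru c)) (s1 c) + mk 6 (ru c) := rfl
  have h1 : ∀ u, dig (Nat.shiftRight (mk 4 (ru c)) (16 * 3 ^ (c % 4))) u + dig (mk 6 (ru c)) u =
      if KGateR_pA (KGateR_b c) (KGateR_w c) (3 ^ (c % 4)) u then 65535 else 0 := fun u => by
    rw [dig_shiftRight, KGateR_mk c (by norm_num), KGateR_mk c (by norm_num)]
    have h2 := KGateR_hb c u
    have h3 := KGateR_hN c u
    have h4 := KGateR_w_lt c u
    have h5 := KGateR_w_lt c (u + 3 ^ (c % 4))
    have h6 := KGateR_b_lt c u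
    have h7 : 0 < 3 ^ (c % 4) := by positivity
    clear h0
    by_cases h : KGateR_pA (KGateR_b c) (KGateR_w c) (3 ^ (c % 4)) u
    · rw [if_pos h]
      unfold KGateR_pA at h
      split_ifs <;> omega
    · rw [if_neg h]
      unfold KGateR_pA at h
      split_ifs <;> omega
  rw [h0, s1_eq, dig_add _ _ fun u => ?_, h1]
  rw [h1]
  split_ifs <;> norm_num

theorem KGateR_rB (c s : ℕ) : dig (rB c) s =
    if KGateR_pB (KGateR_b c) (KGateR_w c) (3 ^ (c % 4)) s then 65535 else 0 := by
  have h0 : rB c = Nat.lor (mk 2 (ru c)) (Nat.shiftRight (mk 8 (ru c)) (s2 c)) := rfl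
  rw [h0, s2_eq, dig_lor, dig_shiftRight, KGateR_mk c (by norm_num), KGateR_mk c (by norm_num)]
  have h2 := KGateR_b2 (KGateR_hb c) s
  have h3 := KGateR_hN c s
  have h4 := KGateR_w_lt c s
  have h5 := KGateR_w_lt c (s + 2 * 3 ^ (c % 4))
  have h6 := KGateR_b_lt c s
  have h7 := KGateR_hN c (s + 3 ^ (c % 4))
  have h8 := KGateR_hb c s
  by_cases h : KGateR_pB (KGateR_b c) (KGateR_w c) (3 ^ (c % 4)) s
  · rw [if_pos h]
    unfold KGateR_pB at h
    split_ifs
    · rfl
    · rfl
    · rfl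
    · omega
  · rw [if_neg h]
    unfold KGateR_pB at h
    split_ifs
    · omega
    · omega
    · omega
    · rfl

theorem KGateR_okR {x : RG} (h : okR x = 0) : x.A = rA x.c ∧ x.B = rB x.c ∧ x.u1 = u1 x.c ∧
    x.u2 = u2 x.c ∧ x.s1 = s1 x.c ∧ x.s2 = s2 x.c ∧
      1 - x.c / 4 / 4 ^ (x.c % 4) % 4 % 3 = 0 := by
  unfold okR at h
  obtain ⟨h, h7⟩ := add_eq_zero' h
  obtain ⟨h, h6⟩ := add_eq_zero' h
  obtain ⟨h, h5⟩ := add_eq_zero' h
  obtain ⟨h, h4⟩ := add_eq_zero' h
  obtain ⟨h, h3⟩ := add_eq_zero' h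
  obtain ⟨h1, h2⟩ := add_eq_zero' h
  exact ⟨xor_eq_zero h1, xor_eq_zero h2, xor_eq_zero h3, xor_eq_zero h4, xor_eq_zero h5,
    xor_eq_zero h6, h7⟩

theorem KGateR_dig {x : RG} (h : okR x = 0) (st s : ℕ) :
    dig (Rop x.A x.B x.u1 x.u2 x.s1 x.s2 st) s = dig st
      (KGateR_sg (KGateR_pA (KGateR_b x.c) (KGateR_w x.c) (3 ^ (x.c % 4))) (3 ^ (x.c % 4))
        (KGateR_sg (KGateR_pB (KGateR_b x.c) (KGateR_w x.c) (3 ^ (x.c % 4)))
          (2 * 3 ^ (x.c % 4)) s)) := by
  obtain ⟨h1, h2, h3, h4, h5, h6, -⟩ := KGateR_okR h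
  have h0 : Rop x.A x.B x.u1 x.u2 x.s1 x.s2 st = swp x.B x.u2 x.s2 (swp x.A x.u1 x.s1 st) := rfl
  have e1 : u1 x.c = 2 ^ s1 x.c + 1 := rfl
  have e2 : u2 x.c = 2 ^ s2 x.c + 1 := rfl
  rw [h0, h1, h2, h3, h4, h5, h6, e1, e2, s1_eq, s2_eq,
    KGateR_swp _ (KGateR_rB x.c) (KGateR_hB (KGateR_hb x.c)),
    KGateR_swp _ (KGateR_rA x.c) (KGateR_hA (KGateR_hb x.c))]

theorem KGateR_af (c : ℕ) (i : Fin 4) (y : I) (t : ZMod 3) :
    af c (Function.update y i t) = af c y + dq c i.val * (t - y i) := by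
  fin_cases i <;> simp [af] <;> ring

theorem KGateR_ix : ∀ (y : I) (i : Fin 4) (t : ZMod 3),
    ix (Function.update y i t) = ix (Function.update y i 0) + t.val * 3 ^ i.val := by
  decide +kernel

theorem KGateR_ne : ∀ r e a : ZMod 3, e ≠ 0 → (r + e * (0 - a)).val ≠ (r + e * (1 - a)).val ∧
    (r + e * (0 - a)).val ≠ (r + e * (2 - a)).val ∧
      (r + e * (1 - a)).val ≠ (r + e * (2 - a)).val := by decide

theorem KGateR_pt {c : ℕ} (he : dq (c / 4) (co c).val ≠ 0) (y : I) {o : ℕ} (ho : o < 6) :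
    KGateR_sg (KGateR_pA (KGateR_b c) (KGateR_w c) (3 ^ (c % 4))) (3 ^ (c % 4))
      (KGateR_sg (KGateR_pB (KGateR_b c) (KGateR_w c) (3 ^ (c % 4))) (2 * 3 ^ (c % 4))
        (ix y + 81 * o)) = ix (Function.update y (co c) (af (c / 4) y)) + 81 * o := by
  have h1 : ∀ t : ZMod 3, ix (Function.update y (co c) t) + 81 * o =
      ix (Function.update y (co c) 0) + 81 * o + t.val * 3 ^ (c % 4) := fun t => by
    rw [KGateR_ix y (co c) t, add_right_comm]
    rfl
  have h2 : ∀ z : I, KGateR_w c (ix z + 81 * o) = (af (c / 4) z).val := fun z => by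
    rw [KGateR_w, Nat.add_mul_mod_self_left, Nat.mod_eq_of_lt (ix_lt z), un_ix]
  have h3 : ∀ t : ZMod 3, KGateR_w c (ix (Function.update y (co c) 0) + 81 * o +
      t.val * 3 ^ (c % 4)) = (af (c / 4) y + dq (c / 4) (co c).val * (t - y (co c))).val :=
    fun t => by rw [← h1, h2, KGateR_af]
  have h4 : KGateR_b c (ix (Function.update y (co c) 0) + 81 * o) = 0 := by
    rw [← KGateR_b_mod, Nat.add_mul_mod_self_left, Nat.mod_eq_of_lt (ix_lt _)]
    refine (val_ix _ (co c)).trans ?_
    rw [Function.update_self]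
    rfl
  have h5 : ix (Function.update y (co c) 0) + 81 * o + 2 * 3 ^ (c % 4) < 486 := by
    have h6 := h1 2
    have h7 := ix_lt (Function.update y (co c) 2)
    have h8 : (2 : ZMod 3).val = 2 := rfl
    rw [h8] at h6
    omega
  have g0 := h3 0
  have g1 := h3 1
  have g2 := h3 2
  rw [show (0 : ZMod 3).val = 0 from rfl, zero_mul, add_zero] at g0
  rw [show (1 : ZMod 3).val = 1 from rfl, one_mul] at g1
  rw [show (2 : ZMod 3).val = 2 from rfl] at g2
  obtain ⟨n1, n2, n3⟩ := KGateR_ne (af (c / 4) y) _ (y (co c)) he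
  have h6 := KGateR_grp (w := KGateR_w c) (KGateR_hb c) h4 h5 (KGateR_w_lt _ _) (KGateR_w_lt _ _)
    (KGateR_w_lt _ _) (by rwa [g0, g1]) (by rwa [g0, g2]) (by rwa [g1, g2])
    (ZMod.val_lt (y (co c)))
  rw [← h1, Function.update_eq_self, h2, ← h1] at h6
  exact h6

theorem okR_dq {x : RG} (h : okR x = 0) : dq (x.c / 4) (co x.c).val ≠ 0 := by
  have h1 := (KGateR_okR h).2.2.2.2.2.2
  intro h2
  have h3 : 3 ∣ x.c / 4 / 4 ^ (x.c % 4) % 4 := (ZMod.natCast_eq_zero_iff _ 3).1 h2
  omega

theorem Rop_spec {x : RG} (h : okR x = 0) {st n : ℕ} (hb : Bd st n) :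
    Bd (Rop x.A x.B x.u1 x.u2 x.s1 x.s2 st) n ∧ ∀ m < 2,
      vec (Rop x.A x.B x.u1 x.u2 x.s1 x.s2 st) m = Rf (co x.c) (x.c / 4) (vec st m) := by
  refine ⟨⟨lt_of_dig_eq_zero fun s hs => ?_, fun s => ?_⟩, fun m hm => funext fun y => ?_⟩
  · rw [KGateR_dig h, KGateR_out (KGateR_hb x.c) (KGateR_hN x.c) hs]
    exact dig_eq_zero_of_lt hb.1 hs
  · rw [KGateR_dig h]
    exact hb.2 _
  · have e1 : ∀ z : I, ix z + 81 * m + 162 = ix z + 81 * (m + 2) := fun z => by ring
    have e2 : ∀ z : I, ix z + 81 * m + 324 = ix z + 81 * (m + 4) := fun z => by ring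
    simp only [vec, Rf, e1, e2]
    rw [KGateR_dig h, KGateR_dig h, KGateR_dig h, KGateR_pt (okR_dq h) y (by omega),
      KGateR_pt (okR_dq h) y (by omega), KGateR_pt (okR_dq h) y (by omega)]

end Pool.Agent.MP_61a8e3_al.G4.K

end

section

/-! Part K: the phase gates. -/

set_option autoImplicit false

namespace Pool.Agent.MP_61a8e3_al.G4.K

open C

theorem KGateD_val {z st s x : ℕ} (hs : s ≤ 2) (hx : x < 162)
    (h : ∀ f < 3, dig z (x + 162 * f) = dig st ((x + 162 * f + 162 * (3 - s)) % 486)) :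
    (dig z x : ℂ) + (dig z (x + 162) : ℂ) * om + (dig z (x + 324) : ℂ) * om ^ 2 =
      om ^ s * ((dig st x : ℂ) + (dig st (x + 162) : ℂ) * om + (dig st (x + 324) : ℂ) * om ^ 2) := by
  have h0 : dig z x = _ := h 0 (by omega)
  have h1 : dig z (x + 162) = _ := h 1 (by omega)
  have h2 : dig z (x + 324) = _ := h 2 (by omega)
  rw [h0, h1, h2]
  obtain rfl | rfl | rfl : s = 0 ∨ s = 1 ∨ s = 2 := by omega
  · rw [show (x + 162 * 0 + 162 * (3 - 0)) % 486 = x by omega,
      show (x + 162 * 1 + 162 * (3 - 0)) % 486 = x + 162 by omega,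
      show (x + 162 * 2 + 162 * (3 - 0)) % 486 = x + 324 by omega, pow_zero, one_mul]
  · rw [show (x + 162 * 0 + 162 * (3 - 1)) % 486 = x + 324 by omega,
      show (x + 162 * 1 + 162 * (3 - 1)) % 486 = x by omega,
      show (x + 162 * 2 + 162 * (3 - 1)) % 486 = x + 162 by omega]
    linear_combination (-(dig st (x + 324) : ℂ)) * om_cube
  · rw [show (x + 162 * 0 + 162 * (3 - 2)) % 486 = x + 162 by omega,
      show (x + 162 * 1 + 162 * (3 - 2)) % 486 = x + 324 by omega,
      show (x + 162 * 2 + 162 * (3 - 2)) % 486 = x by omega]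
    linear_combination (-(dig st (x + 162) : ℂ) - (dig st (x + 324) : ℂ) * om) * om_cube

theorem KGateD_dbl {st : ℕ} (hb : st < 2 ^ (16 * 486)) (t : ℕ) (ht : t < 972) :
    dig (dbl st) t = dig st (t % 486) := by
  have e : dbl st = st + Nat.shiftLeft st (16 * 486) := rfl
  rw [e, dig_add _ _ fun s => ?_, dig_shiftLeft]
  · split_ifs with h
    · rw [add_zero, Nat.mod_eq_of_lt h]
    · rw [dig_eq_zero_of_lt hb (not_lt.1 h), zero_add, show t % 486 = t - 486 by omega]
  · rw [dig_shiftLeft]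
    split_ifs with h
    · exact dig_lt _ _
    · rw [dig_eq_zero_of_lt hb (not_lt.1 h), zero_add]
      exact dig_lt _ _

theorem KGateD_tri : ∀ a : ZMod 3, (a = 0 ∧ a ≠ 1 ∧ a ≠ 2) ∨ (a ≠ 0 ∧ a = 1 ∧ a ≠ 2) ∨
    (a ≠ 0 ∧ a ≠ 1 ∧ a = 2) := by decide

theorem KGateD_if1 (p : Prop) [Decidable p] (a : ZMod 3) :
    (if p then 65535 else 0) - (if p ∧ a = 1 then 65535 else 0) -
      (if p ∧ a = 2 then 65535 else 0) = if p ∧ a = 0 then 65535 else 0 := by
  have := KGateD_tri a
  split_ifs <;> first | rfl | (exfalso; tauto)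

theorem KGateD_if2 (p : Prop) [Decidable p] (a : ZMod 3) :
    (if p ∧ a = 2 then 65535 else 0) ≤
      (if p then 65535 else 0) - (if p ∧ a = 1 then 65535 else 0) := by
  have := KGateD_tri a
  split_ifs <;> first | omega | (exfalso; tauto)

theorem KGateD_if3 (p : Prop) [Decidable p] (a : ZMod 3) {x y z n : ℕ} (hx : x < n) (hy : y < n)
    (hz : z < n) : (if p ∧ a = 0 then x else 0) + (if p ∧ a = 1 then y else 0) +
      (if p ∧ a = 2 then z else 0) < n := by
  have := KGateD_tri a
  split_ifs <;> first | omega | (exfalso; tauto)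

theorem KGateD_dsel {A1 A2 st : ℕ} (hb : st < 2 ^ (16 * 486)) (q : ℕ → ZMod 3)
    (h1 : ∀ s, dig A1 s = if s < 486 ∧ q s = 1 then 65535 else 0)
    (h2 : ∀ s, dig A2 s = if s < 486 ∧ q s = 2 then 65535 else 0) (t : ℕ) :
    dig (dsel A1 A2 st (dbl st)) t =
      if t < 486 then dig st ((t + 162 * (3 - (q t).val)) % 486) else 0 := by
  have e : dsel A1 A2 st (dbl st) = Nat.land st (cF - A1 - A2) +
      Nat.land (Nat.shiftRight (dbl st) (16 * 324)) A1 +
      Nat.land (Nat.shiftRight (dbl st) (16 * 162)) A2 := rfl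
  have hF : ∀ s, dig cF s = if s < 486 then 65535 else 0 := pat_cF
  rw [e]
  generalize cF = F at hF
  have g1 : ∀ s, dig (F - A1) s = dig F s - dig A1 s := dig_sub _ _ fun s => by
    rw [hF, h1]
    by_cases hs : s < 486 <;> simp [hs]
    split_ifs <;> omega
  have g2 : ∀ s, dig (F - A1 - A2) s = if s < 486 ∧ q s = 0 then 65535 else 0 := fun s => by
    rw [dig_sub _ _ fun s => ?_, g1, hF, h1, h2]
    · exact KGateD_if1 _ _
    · rw [g1, hF, h1, h2]
      exact KGateD_if2 _ _
  have a0 := fun s => dig_mask st _ s _ (g2 s)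
  have a1 := fun s => dig_mask (Nat.shiftRight (dbl st) (16 * 324)) _ s _ (h1 s)
  have a2 := fun s => dig_mask (Nat.shiftRight (dbl st) (16 * 162)) _ s _ (h2 s)
  have b0 := dig_lt st
  have b1 := dig_lt (Nat.shiftRight (dbl st) (16 * 324))
  have b2 := dig_lt (Nat.shiftRight (dbl st) (16 * 162))
  have c1 := dig_shiftRight (dbl st) 324
  have c2 := dig_shiftRight (dbl st) 162
  generalize Nat.shiftRight (dbl st) (16 * 324) = w1 at *
  generalize Nat.shiftRight (dbl st) (16 * 162) = w2 at *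
  generalize Nat.land st (F - A1 - A2) = x0 at *
  generalize Nat.land w1 A1 = x1 at *
  generalize Nat.land w2 A2 = x2 at *
  have d : ∀ s, dig x0 s + dig x1 s + dig x2 s < 2 ^ 16 := fun s => by
    rw [a0, a1, a2]
    exact KGateD_if3 _ _ (b0 s) (b1 s) (b2 s)
  have d1 : ∀ s, dig (x0 + x1) s = dig x0 s + dig x1 s := dig_add _ _ fun s => by
    have := d s
    omega
  rw [dig_add _ _ fun s => by rw [d1]; exact d s, d1, a0, a1, a2]
  by_cases ht : t < 486
  · rw [if_pos ht]
    rcases KGateD_tri (q t) with h | h | h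
    · rw [if_pos ⟨ht, h.1⟩, if_neg fun g => h.2.1 g.2, if_neg fun g => h.2.2 g.2, h.1,
        show (0 : ZMod 3).val = 0 from rfl, show (t + 162 * (3 - 0)) % 486 = t by omega]
      rfl
    · rw [if_neg fun g => h.1 g.2, if_pos ⟨ht, h.2.1⟩, if_neg fun g => h.2.2 g.2, h.2.1,
        show (1 : ZMod 3).val = 1 from rfl, c1, KGateD_dbl hb _ (by omega), zero_add, add_zero]
    · rw [if_neg fun g => h.1 g.2, if_neg fun g => h.2.1 g.2, if_pos ⟨ht, h.2.2⟩, h.2.2,
        show (2 : ZMod 3).val = 2 from rfl, c2, KGateD_dbl hb _ (by omega), zero_add, zero_add]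
  · rw [if_neg ht, if_neg fun g => ht g.1, if_neg fun g => ht g.1, if_neg fun g => ht g.1]

theorem KGateD_bd {z st n : ℕ} (hb : Bd st n) (r : ℕ → ℕ)
    (h : ∀ t, dig z t = if t < 486 then dig st (r t) else 0) : Bd z n := by
  refine ⟨lt_of_dig_eq_zero fun s hs => by rw [h, if_neg (by omega)], fun s => ?_⟩
  rw [h]
  split_ifs
  · exact hb.2 _
  · exact Nat.zero_le _

theorem Dop_spec (c0 c1 c2 : ℕ) {st n : ℕ} (hb : Bd st n) :
    Bd (Dop c0 c1 c2 st) n ∧ ∀ m < 2, vec (Dop c0 c1 c2 st) m = Df c0 c1 c2 (vec st m) := by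
  have e : Dop c0 c1 c2 st = dsel (dB1 (dw c0 c1 c2)) (dB2 (dw c0 c1 c2)) st (dbl st) := rfl
  have h := KGateD_dsel hb.1 (fun s => qf c0 c1 c2 (un (s % 81))) (dB1_spec c0 c1 c2)
    (dB2_spec c0 c1 c2)
  rw [← e] at h
  generalize Dop c0 c1 c2 st = z at h
  refine ⟨KGateD_bd hb _ h, fun m hm => funext fun y => ?_⟩
  have hy := ix_lt y
  have hv : (qf c0 c1 c2 y).val < 3 := ZMod.val_lt _
  refine KGateD_val (s := (qf c0 c1 c2 y).val) (x := ix y + 81 * m) (by omega) (by omega)
    fun f hf => ?_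
  rw [h, if_pos (by omega), show (ix y + 81 * m + 162 * f) % 81 = ix y by omega, un_ix]

theorem KGateD_land (st j t : ℕ) :
    dig (Nat.land st (2 ^ (16 * j) - 1)) t = if t < j then dig st t else 0 := by
  have e : Nat.land st (2 ^ (16 * j) - 1) = st % 2 ^ (16 * j) := Nat.and_two_pow_sub_one_eq_mod _ _
  rw [e]
  split_ifs with h
  · exact dig_mod_KSimd _ _ _ h
  · exact dig_eq_zero_of_lt (Nat.mod_lt _ (by positivity)) (not_lt.1 h)

theorem KGateD_rot {st a b : ℕ} (hab : a + b = 486) (hb : st < 2 ^ (16 * 486)) (t : ℕ) :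
    dig (Nat.shiftRight st (16 * a) + Nat.shiftLeft (Nat.land st (2 ^ (16 * a) - 1)) (16 * b)) t =
      if t < 486 then dig st ((t + a) % 486) else 0 := by
  have hz : ∀ s, 486 ≤ s → dig st s = 0 := fun s hs => dig_eq_zero_of_lt hb hs
  rw [dig_add _ _ fun s => ?_, dig_shiftRight, dig_shiftLeft, KGateD_land]
  · by_cases h1 : t < b
    · rw [if_pos h1, if_pos (by omega), add_zero, Nat.mod_eq_of_lt (by omega)]
    · rw [if_neg h1, hz _ (by omega), zero_add]
      by_cases h2 : t < 486
      · rw [if_pos h2, if_pos (by omega), show (t + a) % 486 = t - b by omega]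
      · rw [if_neg h2, if_neg (by omega)]
  · rw [dig_shiftRight, dig_shiftLeft]
    split_ifs with h1
    · exact dig_lt _ _
    · rw [hz _ (by omega), zero_add]
      exact dig_lt _ _

theorem Pop_dig {s : ℕ} (hs : s ≤ 2) {st : ℕ} (hb : st < 2 ^ (16 * 486)) (t : ℕ) :
    dig (Pop s st) t = if t < 486 then dig st ((t + 162 * (3 - s)) % 486) else 0 := by
  have e1 : ps s = 16 * (162 * (3 - s)) := by
    rw [← mul_assoc]
    rfl
  have e2 : pq s = 16 * (162 * s) := by
    rw [← mul_assoc]
    rfl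
  have e : Pop s st =
      Nat.shiftRight st (ps s) + Nat.shiftLeft (Nat.land st (2 ^ ps s - 1)) (pq s) := rfl
  rw [e, e1, e2]
  exact KGateD_rot (by omega) hb t

theorem Pop_spec {s : ℕ} (hs : s ≤ 2) {st n : ℕ} (hb : Bd st n) :
    Bd (Pop s st) n ∧ ∀ m < 2, vec (Pop s st) m = om ^ s • vec st m := by
  have h := Pop_dig hs hb.1
  generalize Pop s st = z at h
  refine ⟨KGateD_bd hb _ h, fun m hm => funext fun y => ?_⟩
  have hy := ix_lt y
  refine KGateD_val (x := ix y + 81 * m) hs (by omega) fun f hf => ?_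
  rw [h, if_pos (by omega)]

theorem KGateD_cL : cL = pm 1 := by decide +kernel

theorem Top_spec {st n : ℕ} (hn : 3 * n < 2 ^ 16) (hb : Bd st n) :
    Bd (Top st) (3 * n) ∧ ∀ m < 2, vec (Top st) m = (2 + om) • vec st m := by
  have e0 : Top st = st + st +
      (Nat.shiftRight st (ps 1) + Nat.shiftLeft (Nat.land st cL) (pq 1)) := rfl
  have e1 : Pop 1 st = Nat.shiftRight st (ps 1) + Nat.shiftLeft (Nat.land st (pm 1)) (pq 1) := rfl
  rw [KGateD_cL, ← e1] at e0
  obtain ⟨hp, hv⟩ := Pop_spec (s := 1) (by omega) hb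
  rw [e0]
  generalize Pop 1 st = z at hp hv
  have d1 : ∀ s, dig (st + st) s = dig st s + dig st s := dig_add _ _ fun s => by
    have := hb.2 s
    omega
  have d2 : ∀ s, dig (st + st + z) s = dig st s + dig st s + dig z s := fun s => by
    rw [dig_add _ _ fun s => ?_, d1]
    have := hb.2 s
    have := hp.2 s
    rw [d1]
    omega
  refine ⟨⟨lt_of_dig_eq_zero fun s hs => ?_, fun s => ?_⟩, fun m hm => funext fun y => ?_⟩
  · rw [d2, dig_eq_zero_of_lt hb.1 hs, dig_eq_zero_of_lt hp.1 hs]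
  · have := hb.2 s
    have := hp.2 s
    rw [d2]
    omega
  · have h := congrFun (hv m hm) y
    simp only [vec, Pi.smul_apply, smul_eq_mul, d2, Nat.cast_add] at h ⊢
    linear_combination h

end Pool.Agent.MP_61a8e3_al.G4.K

end
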