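import Pool.Agent.Mg.F61a8e3.Gf76338
import Pool.Agent.Mg.F61a8e3.G3e7fde
import Pool.Agent.Mg.F61a8e3.G86875b

section

set_option autoImplicit false

namespace Pool.Agent.MP_61a8e3_al.G4.D

open A

/-- The conjugate of the relator at the corner of a letter. -/
def DBase_rho (l : L) : F := G0 (some l) * r3 * (G0 (some l))⁻¹

/-- The pushes as a homomorphism from the free group. -/
def DBase_T : F →* MulAut F := FreeGroup.lift push

/-- Final segments used by the inverse dual basis. -/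
def DBase_sfx : Fin 4 → F :=
  ![1, FreeGroup.mk [lA 0, lb 0, la 0, lB 0],
    FreeGroup.mk [lA 0, lb 0, la 0, lB 0, lA 1, lb 1, la 1, lB 1],
    FreeGroup.mk [lA 0, lb 0, la 0, lB 0, lA 1, lb 1, la 1, lB 1, lA 2, lb 2, la 2, lB 2]]

/-- The inverse dual basis. -/
def DBase_D : X → F
  | .inl i => DBase_sfx i * FreeGroup.mk [lA i, lB i, la i] * (DBase_sfx i)⁻¹
  | .inr i => DBase_sfx i * FreeGroup.mk [lA i, lb i, la i, lB i, la i] * (DBase_sfx i)⁻¹

theorem DBase_t1 : ∀ x y : X, tw x (pa x) (pb x) (FreeGroup.of y) =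
    Mh (DBase_rho (x, true)) (dl (some (x, true))) (FreeGroup.of y) := by
  decide +kernel

theorem DBase_t2 : ∀ x y : X, tw x (pa x)⁻¹ (pb x)⁻¹ (FreeGroup.of y) =
    Mh (DBase_rho (x, false)) (dl (some (x, false))) (FreeGroup.of y) := by
  decide +kernel

theorem DBase_t3 : ∀ l : L, Mh (DBase_rho l) (dl (some l))
    (val G0 r3 (some l) * r3 * (val G0 r3 (some l))⁻¹) = DBase_rho l := by
  decide +kernel

theorem DBase_t4 : ∀ x : X, FreeGroup.lift gam (DBase_D x) = FreeGroup.of x := by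
  decide +kernel

theorem DBase_t5 : ∀ l : L,
    FreeGroup.lift DBase_D ((G0 (some l))⁻¹ * val G0 r3 (some l)) = el l := by
  decide +kernel

theorem DBase_t6 : FreeGroup.lift DBase_D r3 = FreeGroup.mk w0L := by
  decide +kernel

theorem DBase_t7 : Blk G0 (val G0 r3) (w0L.map some) r3⁻¹ 1 := by
  unfold Blk
  decide +kernel

theorem DBase_t8 : ∀ l : L, (w0L.map some).count (some l) = 1 := by
  decide +kernel

theorem DBase_t9 : (w0L.map some).count none = 0 := by
  decide +kernel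

theorem DBase_push (x : X) (g : F) :
    push x g = Mh (DBase_rho (x, true)) (dl (some (x, true))) g :=
  DFunLike.congr_fun (FreeGroup.ext_hom _ _ (DBase_t1 x)) g

theorem DBase_el (l : L) (g : F) : DBase_T (el l) g = Mh (DBase_rho l) (dl (some l)) g := by
  rcases l with ⟨x, b⟩
  cases b
  · have h : el (x, false) = (FreeGroup.of x)⁻¹ := el_bar (x, true)
    rw [h, map_inv, DBase_T, FreeGroup.lift_apply_of]
    exact DFunLike.congr_fun (FreeGroup.ext_hom _ _ (DBase_t2 x)) g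
  · rw [el_true, DBase_T, FreeGroup.lift_apply_of]
    exact DBase_push x g

theorem DBase_pr_rho (l : L) : pr (DBase_rho l) = 1 := by
  rw [DBase_rho, map_mul, map_mul, pr_r3, mul_one, map_inv, mul_inv_cancel]

theorem pr_push (x : X) (g : F) : pr (push x g) = pr g := by
  rw [DBase_push, pr_Mh (DBase_pr_rho _)]

theorem push_norm (x : X) : ∃ u : F, pr u = pr (gam x) ∧ u * push x r3 * u⁻¹ = r3 := by
  refine ⟨(G0 (some (x, true)))⁻¹ * push x (val G0 r3 (some (x, true))), ?_, ?_⟩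
  · rw [gam, map_mul, map_mul, pr_push]
  · have h := DBase_t3 (x, true)
    rw [← DBase_push, map_mul, map_mul, map_inv, DBase_rho] at h
    calc _ = (G0 (some (x, true)))⁻¹ * (push x (val G0 r3 (some (x, true))) * push x r3 *
          (push x (val G0 r3 (some (x, true))))⁻¹) * G0 (some (x, true)) := by group
      _ = r3 := by rw [h]; group

theorem closure_gam : Subgroup.closure (Set.range gam) = ⊤ := by
  rw [eq_top_iff, ← FreeGroup.closure_range_of, Subgroup.closure_le]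
  rintro _ ⟨x, rfl⟩
  rw [← FreeGroup.range_lift_eq_closure]
  exact ⟨DBase_D x, DBase_t4 x⟩

theorem DBase_blk (I : List L) : ∀ u v : F, Blk G0 (val G0 r3) (I.map some) u v →
    (∀ g, DBase_T (FreeGroup.mk I) g =
      Mh (u * r3 * u⁻¹) (fun p => ((I.map some).count p : ℤ)) g) ∧
    DBase_T (FreeGroup.mk I) (v * r3 * v⁻¹) = u * r3 * u⁻¹ := by
  induction I with
  | nil =>
    intro u v h
    rw [List.map_nil, Blk_nil] at h
    subst h
    rw [← FreeGroup.one_eq_mk, map_one]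
    exact ⟨fun g => (Mh_zero _ g).symm, rfl⟩
  | cons l I ih =>
    intro u v h
    rw [List.map_cons, Blk_cons] at h
    obtain ⟨rfl, h⟩ := h
    obtain ⟨h1, h2⟩ := ih _ _ h
    have e : FreeGroup.mk (l :: I) = el l * FreeGroup.mk I := rfl
    rw [e, map_mul]
    refine ⟨fun g => ?_, ?_⟩
    · rw [MulAut.mul_apply, h1, DBase_el, Mh_comp _ (DBase_t3 l)]
      congr 2
      funext p
      simp only [Pi.add_apply, dl, List.map_cons, List.count_cons, beq_iff_eq]
      by_cases hp : p = some l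
      · simp [hp, add_comm]
      · simp [hp, Ne.symm hp]
    · rw [MulAut.mul_apply, h2, DBase_el]
      exact DBase_t3 l

theorem DBase_rel : out (DBase_T (FreeGroup.mk w0L)) = 1 := by
  rw [← out_conj (r3⁻¹ * r3 * r3⁻¹⁻¹)]
  congr 1
  refine aut_ext fun l => ?_
  rw [(DBase_blk w0L _ _ DBase_t7).1, Mh_el]
  simp only [DBase_t8, DBase_t9, MulAut.conj_apply]
  simp

theorem DBase_nx (p q : Option L) (h : Nx o0 p q) : G0 q = val G0 r3 p := by
  refine (Blk_iff_Nx _ _ (l := none :: w0L.map some) (by decide)).1 ⟨1, ?_⟩ p q h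
  rw [Blk_cons]
  exact ⟨rfl, DBase_t7⟩

theorem exists_P : ∃ P : Pi →* Out, Inv P v0 := by
  have e : FreeGroup.lift (fun i => out (DBase_T (DBase_D i))) =
      (out.comp DBase_T).comp (FreeGroup.lift DBase_D) :=
    FreeGroup.ext_hom _ _ fun i => by simp
  have hr : ∀ r ∈ ({S.rel} : Set F), FreeGroup.lift (fun i => out (DBase_T (DBase_D i))) r = 1 := by
    rintro _ rfl
    rw [e, ← r3_rel, MonoidHom.comp_apply, DBase_t6]
    exact DBase_rel
  have hP : ∀ g, PresentedGroup.toGroup hr (pr g) = out (DBase_T (FreeGroup.lift DBase_D g)) :=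
    fun g => DFunLike.congr_fun e g
  refine ⟨PresentedGroup.toGroup hr, G0, rfl, DBase_nx, ?_⟩
  rintro (_ | l)
  · exact G2.at_none _ _
  · refine ⟨DBase_t3 l, DBase_T (el l), DBase_el l, ?_⟩
    rw [hP]
    change out (1⁻¹ * DBase_T (el l) * 1) =
      out (DBase_T (FreeGroup.lift DBase_D ((G0 (some l))⁻¹ * val G0 r3 (some l))))
    rw [DBase_t5, inv_one, one_mul, mul_one]

theorem DBase_eqs {G : Option L → F} (h : ∀ p q, Nx o0 p q → G q = val G r3 p) :
    ∃ u, Blk G (val G r3) (none :: w0L.map some) u u :=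
  (Blk_iff_Nx _ _ (by decide)).2 h

theorem DBase_unique {G : Option L → F}
    (h : ∀ p q, Nx o0 p q → G q = val G r3 p) : G = G0 := by
  obtain ⟨u, hu⟩ := DBase_eqs h
  obtain ⟨v, hv⟩ := DBase_eqs DBase_nx
  generalize G0 = G' at hv ⊢
  simp only [w0L, List.map_cons, List.map_nil, Blk_cons, Blk_nil, val] at hu hv
  have b1 : ∀ i, bar (la i) = lA i := fun _ => rfl
  have b2 : ∀ i, bar (lA i) = la i := fun _ => rfl
  have b3 : ∀ i, bar (lb i) = lB i := fun _ => rfl
  have b4 : ∀ i, bar (lB i) = lb i := fun _ => rfl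
  simp only [b1, b2, b3, b4] at hu hv
  obtain ⟨e0, e1, e2, e3, e4, e5, e6, e7, e8, e9, e10, e11, e12, e13, e14, e15, e16, e17⟩ := hu
  obtain ⟨f0, f1, f2, f3, f4, f5, f6, f7, f8, f9, f10, f11, f12, f13, f14, f15, f16, f17⟩ := hv
  have g1 : G (some (lb 3)) = G' (some (lb 3)) := e1.trans f1.symm
  have g4 : G (some (la 3)) = G' (some (la 3)) := by rw [e4, f4, g1]
  have g3 : G (some (lB 3)) = G' (some (lB 3)) := by rw [e3, f3, g4]
  have g2 : G (some (lA 3)) = G' (some (lA 3)) := by rw [e2, f2, g3]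
  have g5 : G (some (lb 2)) = G' (some (lb 2)) := by rw [e5, f5, g2]
  have g8 : G (some (la 2)) = G' (some (la 2)) := by rw [e8, f8, g5]
  have g7 : G (some (lB 2)) = G' (some (lB 2)) := by rw [e7, f7, g8]
  have g6 : G (some (lA 2)) = G' (some (lA 2)) := by rw [e6, f6, g7]
  have g9 : G (some (lb 1)) = G' (some (lb 1)) := by rw [e9, f9, g6]
  have g12 : G (some (la 1)) = G' (some (la 1)) := by rw [e12, f12, g9]
  have g11 : G (some (lB 1)) = G' (some (lB 1)) := by rw [e11, f11, g12]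
  have g10 : G (some (lA 1)) = G' (some (lA 1)) := by rw [e10, f10, g11]
  have g13 : G (some (lb 0)) = G' (some (lb 0)) := by rw [e13, f13, g10]
  have g16 : G (some (la 0)) = G' (some (la 0)) := by rw [e16, f16, g13]
  have g15 : G (some (lB 0)) = G' (some (lB 0)) := by rw [e15, f15, g16]
  have g14 : G (some (lA 0)) = G' (some (lA 0)) := by rw [e14, f14, g15]
  have g0 : G none = G' none := by rw [e0, f0, ← e17, ← f17, g14]
  funext q
  rcases q with _ | ⟨i | i, _ | _⟩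
  · exact g0
  all_goals fin_cases i
  all_goals assumption

theorem inv_o0 {P : Pi →* Out} {α : MulAut F} (hα : α r3 = r3) (h : Inv P ⟨α, o0⟩) (x : X) :
    out (α⁻¹ * push x * α) = P (pr (α⁻¹ (gam x))) := by
  obtain ⟨G, -, h1, h2⟩ := h
  simp only [hα] at h1
  obtain rfl := DBase_unique h1
  obtain ⟨-, τ, hτ, h3⟩ := h2 (some (x, true))
  simp only [hα] at hτ
  have e : τ = push x := MulEquiv.ext fun g => (hτ g).trans (DBase_push x g).symm
  rw [e] at h3
  exact h3

end Pool.Agent.MP_61a8e3_al.G4.D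

end

section

set_option autoImplicit false

namespace Pool.Agent.MP_61a8e3_al.G4.A

variable {E : Type} (S : SlideSys E)

theorem AMov3_fix {π : W} {a b : L} (h : IsTri π a b) {x : Option L} (h1 : x ≠ some a)
    (h2 : x ≠ some (bar a)) (h3 : x ≠ some b) (h4 : x ≠ some (bar b)) : Option.map π.1 x = x := by
  cases x with
  | none => rfl
  | some l =>
    refine congrArg some (h.2.2 l (fun e => ?_) fun e => ?_)
    · exact (eq_or_bar e).elim (fun e => h1 (e ▸ rfl)) fun e => h2 (e ▸ rfl)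
    · exact (eq_or_bar e).elim (fun e => h3 (e ▸ rfl)) fun e => h4 (e ▸ rfl)

theorem AMov3_map {π : W} {a b : L} (h : IsTri π a b) {U : List (Option L)} (h1 : some a ∉ U)
    (h2 : some (bar a) ∉ U) (h3 : some b ∉ U) (h4 : some (bar b) ∉ U) :
    U.map (Option.map π.1) = U :=
  (List.map_congr_left fun _ hx => AMov3_fix h (fun e => h1 (e ▸ hx)) (fun e => h2 (e ▸ hx))
    (fun e => h3 (e ▸ hx)) fun e => h4 (e ▸ hx)).trans (List.map_id _)

theorem AMov3_cnt (U V : List (Option L)) (a : L) :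
    cnt (U ++ some a :: V) = cnt U + 1 + cnt V := by
  simp only [cnt, List.reduceOption_append, List.reduceOption_cons_of_some, List.length_append,
    List.length_cons]
  omega

/-- the move given by an explicit decomposition -/
theorem AMov3_eq {s s' : St E} (hs : Ok S s) {a : L} {A : Finset (Option L)} (h : Mov S s a A s')
    {X1 X2 Y1 Y2 : List (Option L)}
    (ho : s.v.o = ↑(some a :: X1 ++ X2 ++ some (bar a) :: Y1 ++ Y2))
    (hA : ∀ x, x ∈ A ↔ x = some a ∨ x ∈ X1 ∨ x ∈ Y2) :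
    s' = ⟨⟨wh a A * s.v.β, ↑(some a :: X2 ++ X1 ++ some (bar a) :: Y2 ++ Y1)⟩,
      S.Mv a (cnt Y2) (cnt X1) s.e⟩ :=
  mov_unique S hs h ⟨_, _, ⟨X1, X2, Y1, Y2, ho, hA, rfl, rfl, rfl, rfl⟩, rfl⟩

theorem AMov3_one {s sa sb : St E} (hs : Ok S s) {a b : L} {A : Finset (Option L)}
    (ha : Mov S s a A sa) (hb : Mov S s b A sb) {U1 U2 U3 X2 Y1 : List (Option L)}
    (ho : s.v.o = ↑(some a :: (U2 ++ some b :: U3) ++ X2 ++ some (bar a) :: Y1 ++ U1))
    (hA : ∀ x, x ∈ A ↔ x = some a ∨ x ∈ U2 ++ some b :: U3 ∨ x ∈ U1) {π : W} (hπ : IsTri π a b) :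
    Mov S sa b (insert (some (bar a)) (A.erase (some a))) (sact S π sb) := by
  obtain ⟨a1, a2, -⟩ := ha.mem S hs
  obtain ⟨b1, b2, -⟩ := hb.mem S hs
  have hn := hs.1.1
  have hf := hs.1.2.1 (some (bar b))
  rw [ho] at hn hf
  rw [Cycle.nodup_coe_iff] at hn
  rw [Cycle.mem_coe_iff] at hf
  have hab : a ≠ b := by
    rintro rfl
    simp at hn
  have hab' : bar b ≠ bar a := fun e => hab (bar_inj e).symm
  have hm : some (bar b) ∈ X2 ∨ some (bar b) ∈ Y1 := by
    have := hA (some (bar b))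
    simp only [List.mem_append, List.mem_cons, Option.some.injEq] at hf this
    tauto
  have p1 : π.1 (bar a) = b := by rw [W_bar, hπ.2.1, bar_bar]
  have p2 : π.1 (bar b) = bar a := by rw [W_bar, hπ.1]
  have hA' : ∀ x, x ∈ A ↔ x = some b ∨ x ∈ U3 ∨ x ∈ U1 ++ some a :: U2 := fun x => by
    simp only [hA, List.mem_append, List.mem_cons]
    tauto
  have hA'' : ∀ x, x ∈ insert (some (bar a)) (A.erase (some a)) ↔
      x = some b ∨ x ∈ U3 ++ some (bar a) :: U1 ∨ x ∈ U2 := fun x => by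
    have : x = some a → ¬ (x ∈ U2 ∨ x = some b ∨ x ∈ U3 ∨ x ∈ U1) := by
      rintro rfl
      simp only [List.cons_append, List.nodup_cons, List.mem_append, List.mem_cons] at hn
      tauto
    simp only [Finset.mem_insert, Finset.mem_erase, hA, List.mem_append, List.mem_cons]
    tauto
  have hβ : relA π * (wh b A * s.v.β) =
      wh b (insert (some (bar a)) (A.erase (some a))) * (wh a A * s.v.β) := by
    rw [← mul_assoc, ← mul_assoc, wh_tri hab a1 a2 b1 b2 hπ]
  have he : S.rl π (S.Mv b (cnt (U1 ++ some a :: U2)) (cnt U3) s.e) =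
      S.Mv b (cnt U2) (cnt (U3 ++ some (bar a) :: U1))
        (S.Mv a (cnt U1) (cnt (U2 ++ some b :: U3)) s.e) := by
    simp only [AMov3_cnt]
    refine (T1E S (V := (X2 ++ some (bar a) :: Y1).reduceOption) ?_ ?_ ?_ hπ).symm
    · rw [hs.2, ho, red_coe]
      exact cyc_of_eq _ U1.reduceOption (List.reduceOption_append _ _)
        (by simp [List.reduceOption_append])
    · simp [List.reduceOption_mem_iff]
    · simpa only [List.reduceOption_mem_iff, List.mem_append, List.mem_cons, Option.some.injEq,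
        hab', false_or] using hm
  rw [AMov3_eq S hs ha ho hA]
  have hc := List.nodup_iff_count_le_one.1 hn
  have c1 := hc (some a)
  have c2 := hc (some (bar a))
  have c3 := hc (some b)
  have c4 := hc (some (bar b))
  have hM : ∀ U : List (Option L), U.count (some a) = 0 → U.count (some (bar a)) = 0 →
      U.count (some b) = 0 → U.count (some (bar b)) = 0 → U.map (Option.map π.1) = U :=
    fun U h1 h2 h3 h4 => AMov3_map hπ (List.count_eq_zero.1 h1) (List.count_eq_zero.1 h2)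
      (List.count_eq_zero.1 h3) (List.count_eq_zero.1 h4)
  rcases hm with hm | hm <;> obtain ⟨P, Q, rfl⟩ := List.append_of_mem hm <;>
    simp only [List.count_append, List.count_cons, beq_self_eq_true, if_true] at c1 c2 c3 c4 <;>
    have m1 := hM U1 (by omega) (by omega) (by omega) (by omega) <;>
    have m2 := hM U2 (by omega) (by omega) (by omega) (by omega) <;>
    have m3 := hM U3 (by omega) (by omega) (by omega) (by omega) <;>
    have m4 := hM P (by omega) (by omega) (by omega) (by omega) <;>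
    have m5 := hM Q (by omega) (by omega) (by omega) (by omega)
  · have m6 := hM Y1 (by omega) (by omega) (by omega) (by omega)
    rw [AMov3_eq S hs hb (X2 := P) (Y1 := Q ++ some (bar a) :: Y1) (ho.trans (cyc_of_eq
      (some a :: U2) (some b :: U3 ++ P ++ some (bar b) :: Q ++ some (bar a) :: Y1 ++ U1)
      (by simp) (by simp))) hA']
    refine ⟨_, _, ⟨U3 ++ some (bar a) :: U1, Y1 ++ some a :: P, Q, U2,
      cyc_of_eq (some a :: P ++ some (bar b) :: Q ++ U2) (some b :: U3 ++ some (bar a) :: U1 ++ Y1)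
        (by simp) (by simp), hA'', rfl, rfl, hβ, ?_⟩, he⟩
    exact (Cycle.map_coe _ _).trans (cyc_of_eq
      (some a :: P ++ U3 ++ some (bar a) :: U1 ++ some (bar b) :: U2 ++ Q) (some b :: Y1)
      (by simp [m1, m2, m3, m4, m5, m6, p1, p2, hπ.1, hπ.2.1]) (by simp))
  · have m6 := hM X2 (by omega) (by omega) (by omega) (by omega)
    rw [AMov3_eq S hs hb (X2 := X2 ++ some (bar a) :: P) (Y1 := Q) (ho.trans (cyc_of_eq
      (some a :: U2) (some b :: U3 ++ X2 ++ some (bar a) :: P ++ some (bar b) :: Q ++ U1)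
      (by simp) (by simp))) hA']
    refine ⟨_, _, ⟨U3 ++ some (bar a) :: U1, P, Q ++ some a :: X2, U2,
      cyc_of_eq (some a :: X2 ++ U2) (some b :: U3 ++ some (bar a) :: U1 ++ P ++ some (bar b) :: Q)
        (by simp) (by simp), hA'', rfl, rfl, hβ, ?_⟩, he⟩
    exact (Cycle.map_coe _ _).trans (cyc_of_eq (some a :: X2)
      (some b :: P ++ U3 ++ some (bar a) :: U1 ++ some (bar b) :: U2 ++ Q)
      (by simp [m1, m2, m3, m4, m5, m6, p1, p2, hπ.1, hπ.2.1]) (by simp))

theorem mov_T1 {s sa sb : St E} (hs : Ok S s) {a b : L} {A : Finset (Option L)}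
    (ha : Mov S s a A sa) (hb : Mov S s b A sb) (hab : a ≠ b) :
    ∃ π : W, Mov S sa b (insert (some (bar a)) (A.erase (some a))) (sact S π sb) := by
  obtain ⟨a1, a2, -⟩ := ha.mem S hs
  obtain ⟨b1, b2, -⟩ := hb.mem S hs
  have h1 : a.1 ≠ b.1 := fun e => (eq_or_bar e).elim hab fun e => b2 (e ▸ a1)
  obtain ⟨m, n, ⟨X1, X2, Y1, Y2, ho, hA, -⟩, -⟩ := id ha
  rcases (hA _).1 b1 with h | h | h
  · exact absurd (Option.some.inj h).symm hab
  · obtain ⟨U2, U3, rfl⟩ := List.append_of_mem h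
    obtain ⟨π, hπ⟩ := exists_tri h1
    exact ⟨π, AMov3_one S hs ha hb ho hA hπ⟩
  obtain ⟨U2, U3, rfl⟩ := List.append_of_mem h
  obtain ⟨π, hπ⟩ := exists_tri h1.symm
  have hf := hs.1.2.1 (some (bar b))
  rw [ho, Cycle.mem_coe_iff] at hf
  obtain ⟨P, Q, e⟩ : ∃ P Q, X2 ++ some (bar a) :: Y1 = P ++ some (bar b) :: Q := by
    refine List.append_of_mem ?_
    have := hA (some (bar b))
    simp only [List.mem_append, List.mem_cons] at hf this ⊢
    tauto
  have h2 := AMov3_one S hs hb ha (U1 := U2) (U2 := U3) (U3 := X1) (X2 := P) (Y1 := Q)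
    (ho.trans (cyc_of_eq (some a :: X1 ++ (X2 ++ some (bar a) :: Y1) ++ U2) (some b :: U3)
      (by simp) (by simp [e]))) (fun x => by
      simp only [hA, List.mem_append, List.mem_cons]
      tauto) hπ
  have h3 := mov_sact S (mov_compl S ((hs.mov S ha).sact S π) (mov_back S (hs.mov S hb) h2)) π⁻¹
  have p1 : π.1 b = bar a := hπ.2.1
  have p2 : π.1 (bar a) = bar b := by rw [W_bar, hπ.1]
  have p3 : π.1 (bar b) = a := by rw [W_bar, p1, bar_bar]
  rw [← sact_mul, inv_mul_cancel, sact_one, show (π⁻¹).1 (bar a) = b by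
    rw [← p1]; exact π.1.symm_apply_apply b] at h3
  refine ⟨π⁻¹, ?_⟩
  convert h3 using 1
  ext x
  have e1 : x = Option.map (π⁻¹).1 (Option.map π.1 x) := by
    cases x with
    | none => rfl
    | some l => exact congrArg some (π.1.symm_apply_apply l).symm
  conv_rhs => rw [e1, mem_aact]
  have n1 := bar_ne a
  have n2 := bar_ne b
  have n3 : bar a ≠ b := fun e => a2 (e ▸ b1)
  have n4 : bar b ≠ a := fun e => b2 (e ▸ a1)
  have n5 : bar b ≠ bar a := fun e => hab (bar_inj e).symm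
  by_cases e2 : x = some a
  · simp [e2, hπ.1, n1.symm, n2.symm, n3.symm]
  by_cases e3 : x = some (bar a)
  · simp [e3, p2, n4]
  by_cases e4 : x = some b
  · simp [e4, p1, n1, b1, hab.symm]
  by_cases e5 : x = some (bar b)
  · simp [e5, p3, n5, b2]
  rw [AMov3_fix hπ e4 e5 e2 e3]
  simp [e2, e3, e4, e5]

end Pool.Agent.MP_61a8e3_al.G4.A

end

section

set_option autoImplicit false

namespace Pool.Agent.MP_61a8e3_al.G4.A

variable {E : Type} (S : SlideSys E)

theorem AE4_occ {c : Cycle L} {l M : List L} (h : c = ↑M) (hl : l <:+: M) :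
    ∃ U : List L, c = ↑(l ++ U) := by
  obtain ⟨s, t, rfl⟩ := hl
  exact ⟨t ++ s, h.trans (cyc_of_eq s (l ++ t) (by simp) (by simp))⟩

theorem AE4_keep {l P Q Y : List L} {x : L} (hx : x ∉ l) (h : l <:+: P ++ x :: Q) :
    l <:+: P ++ x :: Y ++ Q := by
  rcases block_side h hx with h | h
  · exact h.trans ⟨[], x :: Y ++ Q, by simp⟩
  · exact h.trans ⟨P ++ x :: Y, [], by simp⟩

/-- The block before `a` is moved behind `bar a`. -/
theorem AE4_step {e : E} {a : L} {Y X G1 M G2 : List L}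
    (h : S.w e = ↑(Y ++ a :: X ++ G1 ++ M ++ G2)) (ha : bar a ∈ G1 ++ G2) :
    ∃ H1 H2 : List L, S.w (((S.R (bar a))⁻¹ ^ Y.length) e) = ↑(a :: X ++ H1 ++ M ++ H2) ∧
      ((bar a :: Y) <:+: H1 ∨ (bar a :: Y) <:+: H2) ∧
      ∀ l : List L, bar a ∉ l → (l <:+: G1 → l <:+: H1) ∧ (l <:+: G2 → l <:+: H2) := by
  rcases List.mem_append.1 ha with ha | ha
  · obtain ⟨P, Q, rfl⟩ := List.append_of_mem ha
    have h1 : S.w e = ↑(bar a :: (Q ++ M ++ G2) ++ Y ++ bar (bar a) :: (X ++ P)) :=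
      h.trans (cyc_of_eq (Y ++ a :: X ++ P) (bar a :: (Q ++ M ++ G2)) (by simp) (by simp))
    refine ⟨P ++ bar a :: Y ++ Q, G2, (w_Rinvpow S h1).trans
      (cyc_of_eq (bar a :: Y ++ (Q ++ M ++ G2)) (a :: (X ++ P)) (by simp) (by simp)),
      Or.inl ⟨P, Q, by simp⟩, fun l hl => ⟨AE4_keep hl, id⟩⟩
  · obtain ⟨P, Q, rfl⟩ := List.append_of_mem ha
    have h1 : S.w e = ↑(bar a :: Q ++ Y ++ bar (bar a) :: (X ++ G1 ++ M ++ P)) :=
      h.trans (cyc_of_eq (Y ++ a :: X ++ G1 ++ M ++ P) (bar a :: Q) (by simp) (by simp))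
    refine ⟨G1, P ++ bar a :: Y ++ Q, (w_Rinvpow S h1).trans
      (cyc_of_eq (bar a :: Y ++ Q) (a :: (X ++ G1 ++ M ++ P)) (by simp) (by simp)),
      Or.inr ⟨P, Q, by simp⟩, fun l hl => ⟨id, AE4_keep hl⟩⟩

/-- Two disjoint blocks. -/
theorem AE4_sq {e : E} {c d : L} {X Z : List L} (h : ∃ U : List L, S.w e = ↑(c :: X ++ U))
    (hz : ∃ V : List L, S.w e = ↑(d :: Z ++ V)) (h1 : d ≠ c) (h2 : d ≠ bar c)
    (x1 : bar c ∉ X) (x2 : d ∉ X) (x3 : bar d ∉ X) (z1 : c ∉ Z) (z2 : bar c ∉ Z)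
    (z3 : bar d ∉ Z) (z4 : ∀ z ∈ Z, z ∉ X) :
    (S.R d ^ Z.length) ((S.R c ^ X.length) e) = (S.R c ^ X.length) ((S.R d ^ Z.length) e) := by
  obtain ⟨U, h⟩ := h
  obtain ⟨V, hz⟩ := hz
  have := SGZ S h x1 hz h1 h2 x2 fun z hz =>
    ⟨fun h => z1 (h ▸ hz), fun h => z2 (h ▸ hz), fun h => z3 (h ▸ hz), z4 z hz⟩
  rwa [if_neg x3, add_zero] at this

theorem AE4_nodup {Y2 X1 G1 Z2 Z1 G2 : List L} {a b : L}
    (h : (Y2 ++ a :: X1 ++ G1 ++ Z2 ++ b :: Z1 ++ G2).Nodup) :
    a ≠ b ∧ (a ∉ Y2 ∧ a ∉ X1 ∧ a ∉ Z2 ∧ a ∉ Z1) ∧ (b ∉ Y2 ∧ b ∉ X1 ∧ b ∉ Z2 ∧ b ∉ Z1) ∧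
      (∀ g ∈ G1 ++ G2, g ≠ a ∧ g ≠ b ∧ g ∉ Y2 ∧ g ∉ X1 ∧ g ∉ Z2 ∧ g ∉ Z1) ∧
      (∀ z ∈ Z1, z ∉ X1 ∧ z ∉ Y2) ∧ (∀ z ∈ Z2, z ∉ X1 ∧ z ∉ Y2) := by
  classical
  have hc := List.nodup_iff_count_le_one.1 h
  simp only [List.count_append, List.count_cons, beq_iff_eq] at hc
  have key : ∀ {x : L} {l : List L}, x ∈ l → 1 ≤ l.count x := fun hx => List.count_pos_iff.2 hx
  have ha := hc a
  have hb := hc b
  rw [if_pos rfl] at ha hb
  refine ⟨fun hab => ?_, ⟨fun h => ?_, fun h => ?_, fun h => ?_, fun h => ?_⟩,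
    ⟨fun h => ?_, fun h => ?_, fun h => ?_, fun h => ?_⟩, fun g hg => ?_,
    fun z hz => ⟨fun h => ?_, fun h => ?_⟩, fun z hz => ⟨fun h => ?_, fun h => ?_⟩⟩
  · rw [if_pos hab.symm] at ha; omega
  · have := key h; omega
  · have := key h; omega
  · have := key h; omega
  · have := key h; omega
  · have := key h; omega
  · have := key h; omega
  · have := key h; omega
  · have := key h; omega
  · have h1 := key hg
    rw [List.count_append] at h1
    have h2 := hc g
    refine ⟨fun h => ?_, fun h => ?_, fun h => ?_, fun h => ?_, fun h => ?_, fun h => ?_⟩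
    · subst h; omega
    · subst h; omega
    · have := key h; omega
    · have := key h; omega
    · have := key h; omega
    · have := key h; omega
  · have := key h; have := key hz; have := hc z; omega
  · have := key h; have := key hz; have := hc z; omega
  · have := key h; have := key hz; have := hc z; omega
  · have := key h; have := key hz; have := hc z; omega

theorem AE4_alg {A A' B B' : Equiv.Perm E} {x : E} (hA : Commute A A') (hB : Commute B B')
    (h1 : B' (A x) = A (B' x)) (h2 : B' (A' x) = A' (B' x)) (h3 : B (A' x) = A' (B x))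
    (h4 : B (A x) = A (B x)) :
    (A'⁻¹ * A) ((B'⁻¹ * B) (A' (B' x))) = (B'⁻¹ * B) ((A'⁻¹ * A) (A' (B' x))) := by
  have a1 : ∀ y, (A'⁻¹ * A) (A' y) = A y := fun y => by
    rw [← Equiv.Perm.mul_apply, mul_assoc, hA.eq, inv_mul_cancel_left]
  have b1 : ∀ y, (B'⁻¹ * B) (B' y) = B y := fun y => by
    rw [← Equiv.Perm.mul_apply, mul_assoc, hB.eq, inv_mul_cancel_left]
  rw [a1, ← h1, b1, ← h2, b1, h3, a1, h4]

/-- The general square. -/
theorem SqE {e : E} {a b : L} {X1 Y2 Z1 Z2 G1 G2 : List L}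
    (h : S.w e = ↑(Y2 ++ a :: X1 ++ G1 ++ Z2 ++ b :: Z1 ++ G2)) (ha : bar a ∈ G1 ++ G2)
    (hb : bar b ∈ G1 ++ G2) :
    S.Mv a Y2.length X1.length (S.Mv b Z2.length Z1.length e) =
      S.Mv b Z2.length Z1.length (S.Mv a Y2.length X1.length e) := by
  have hn := S.nodup e
  rw [h, Cycle.nodup_coe_iff] at hn
  obtain ⟨hab, ⟨a1, a2, a3, a4⟩, ⟨b1, b2, b3, b4⟩, hG, z1, z2⟩ := AE4_nodup hn
  obtain ⟨-, c0, c1, c2, c3, c4⟩ := hG _ ha
  obtain ⟨d0, -, d1, d2, d3, d4⟩ := hG _ hb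
  have hbar : bar b ≠ bar a := fun h => hab (bar_inj h).symm
  obtain ⟨H1, H2, k1, k2, k3⟩ := AE4_step S (M := Z2 ++ b :: Z1) (G1 := G1) (G2 := G2) (X := X1)
    (Y := Y2) (h.trans (by simp)) ha
  have hb' : bar b ∈ H2 ++ H1 := by
    have := k3 [bar b] (by simpa using hbar.symm)
    simp only [List.singleton_infix_iff] at this
    rcases List.mem_append.1 hb with hb | hb
    · exact List.mem_append_right _ (this.1 hb)
    · exact List.mem_append_left _ (this.2 hb)
  obtain ⟨I1, I2, l1, l2, l3⟩ := AE4_step S (M := a :: X1) (G1 := H2) (G2 := H1) (X := Z1)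
    (Y := Z2) (k1.trans (cyc_of_eq (a :: X1 ++ H1) (Z2 ++ b :: Z1 ++ H2) (by simp) (by simp))) hb'
  have i1 : I1 <:+: b :: Z1 ++ I1 ++ a :: X1 ++ I2 := ⟨b :: Z1, a :: X1 ++ I2, by simp⟩
  have i2 : I2 <:+: b :: Z1 ++ I1 ++ a :: X1 ++ I2 := ⟨b :: Z1 ++ I1 ++ a :: X1, [], by simp⟩
  have oa := AE4_occ (l := a :: X1) l1 ⟨b :: Z1 ++ I1, I2, by simp⟩
  have ob := AE4_occ (l := b :: Z1) l1 ⟨[], I1 ++ a :: X1 ++ I2, by simp⟩
  have ob' := AE4_occ (l := bar b :: Z2) l1 (l2.elim (fun h => h.trans i1) fun h => h.trans i2)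
  have oa' := AE4_occ (l := bar a :: Y2) l1 (by
    have := l3 (bar a :: Y2) (by simp [hbar, d1])
    exact k2.elim (fun h => (this.2 h).trans i2) fun h => (this.1 h).trans i1)
  set x := ((S.R (bar b))⁻¹ ^ Z2.length) (((S.R (bar a))⁻¹ ^ Y2.length) e) with hx
  have he : e = (S.R (bar a) ^ Y2.length) ((S.R (bar b) ^ Z2.length) x) := by
    rw [hx, inv_pow, inv_pow]; simp
  have s1 := AE4_sq S oa ob' d0 hbar c2 d2 (by rwa [bar_bar]) a3 c3 (by rwa [bar_bar])
    fun z hz => (z2 z hz).1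
  have s2 := AE4_sq S oa' ob' hbar (by rwa [bar_bar]) (by rwa [bar_bar]) d1 (by rwa [bar_bar]) c3
    (by rwa [bar_bar]) (by rwa [bar_bar]) fun z hz => (z2 z hz).2
  have s3 := AE4_sq S oa' ob c0.symm (by rw [bar_bar]; exact hab.symm) (by rwa [bar_bar]) b1 d1 c4
    (by rwa [bar_bar]) d4 fun z hz => (z1 z hz).2
  have s4 := AE4_sq S oa ob hab.symm c0.symm c2 b2 d2 a4 c4 d4 fun z hz => (z1 z hz).1
  unfold SlideSys.Mv
  rw [inv_pow, inv_pow, he]
  exact AE4_alg ((commute_bar S a).pow_pow _ _) ((commute_bar S b).pow_pow _ _) s1 s2 s3 s4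

end Pool.Agent.MP_61a8e3_al.G4.A

end

section

set_option autoImplicit false

namespace Pool.Agent.MP_61a8e3_al.G4.A

/-- Two disjoint arcs of a cyclic word. -/
theorem AMov4_arcs {α : Type} {I J U V : List α} (hI : I ≠ []) (hJ : J ≠ [])
    (hn : (I ++ U).Nodup) (h : ((I ++ U : List α) : Cycle α) = ↑(J ++ V))
    (hd : ∀ x ∈ I, x ∉ J) : ∃ G1 G2, U = G1 ++ J ++ G2 := by
  obtain ⟨x, I', rfl⟩ := List.exists_cons_of_ne_nil hI
  obtain ⟨y, J', rfl⟩ := List.exists_cons_of_ne_nil hJ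
  have hx : x ∈ (y :: J') ++ V := by
    have h1 : x ∈ ((x :: I' ++ U : List α) : Cycle α) := by simp
    rw [h] at h1
    exact Cycle.mem_coe_iff.1 h1
  have hxV : x ∈ V := (List.mem_append.1 hx).resolve_left (hd x (by simp))
  obtain ⟨V1, V2, rfl⟩ := List.append_of_mem hxV
  have h2 : ((x :: (I' ++ U) : List α) : Cycle α) = ↑(x :: (V2 ++ ((y :: J') ++ V1))) :=
    h.trans (cyc_of_eq (y :: J' ++ V1) (x :: V2) (by simp) (by simp))
  have h3 := cyc_head_inj hn h2
  rcases List.append_eq_append_iff.1 h3 with ⟨c, -, h4⟩ | ⟨c, h4, h5⟩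
  · exact ⟨c, V1, by simp [h4]⟩
  · rcases c with _ | ⟨z, c⟩
    · exact ⟨[], V1, by simpa using h5.symm⟩
    · have h6 : y = z := by simpa using (List.cons.inj h5).1
      exact absurd (by simp [h6]) (hd z (by simp [h4]))

/-- Replace the symbol `x` by the block `R`. -/
def AMov4_sub (x : Option L) (R l : List (Option L)) : List (Option L) :=
  l.flatMap fun y => if y = x then R else [y]

theorem AMov4_sub_append (x : Option L) (R l l' : List (Option L)) :
    AMov4_sub x R (l ++ l') = AMov4_sub x R l ++ AMov4_sub x R l' := by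
  simp [AMov4_sub]

theorem AMov4_sub_cons (x y : Option L) (R l : List (Option L)) :
    AMov4_sub x R (y :: l) = (if y = x then R else [y]) ++ AMov4_sub x R l := by
  simp [AMov4_sub]

theorem AMov4_sub_not {x : Option L} (R : List (Option L)) {l : List (Option L)} (h : x ∉ l) :
    AMov4_sub x R l = l := by
  induction l with
  | nil => rfl
  | cons y l ih =>
    rw [List.mem_cons, not_or] at h
    rw [AMov4_sub_cons, if_neg (Ne.symm h.1), ih h.2]
    rfl

theorem AMov4_sub_mem {x y : Option L} (R : List (Option L)) {l : List (Option L)} (h : y ∈ l)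
    (hne : y ≠ x) : y ∈ AMov4_sub x R l :=
  List.mem_flatMap.2 ⟨y, h, by simp [hne]⟩

theorem AMov4_sub_comm {x y : Option L} {R T : List (Option L)} (hxy : x ≠ y) (hx : x ∉ T)
    (hy : y ∉ R) (l : List (Option L)) :
    AMov4_sub x R (AMov4_sub y T l) = AMov4_sub y T (AMov4_sub x R l) := by
  induction l with
  | nil => rfl
  | cons z l ih =>
    rw [AMov4_sub_cons, AMov4_sub_cons, AMov4_sub_append, AMov4_sub_append, ih]
    congr 1
    by_cases h1 : z = x
    · subst h1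
      rw [if_neg hxy, if_pos rfl, AMov4_sub_not _ hy, AMov4_sub_cons, if_pos rfl]
      simp [AMov4_sub]
    · by_cases h2 : z = y
      · subst h2
        rw [if_neg h1, if_pos rfl, AMov4_sub_not _ hx, AMov4_sub_cons, if_pos rfl]
        simp [AMov4_sub]
      · rw [if_neg h1, if_neg h2, AMov4_sub_not _ (by simpa using Ne.symm h1),
          AMov4_sub_not _ (by simpa using Ne.symm h2)]

/-- A move in substitution form. -/
theorem AMov4_mk {v : Vx} (hn : v.o.Nodup) {a : L} {A : Finset (Option L)}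
    {Y2 X1 U : List (Option L)} (h : v.o = ↑(Y2 ++ some a :: X1 ++ U)) (hU : some (bar a) ∈ U)
    (hA : ∀ x, x ∈ A ↔ x = some a ∨ x ∈ X1 ∨ x ∈ Y2) :
    VMov v a A (cnt Y2) (cnt X1) ⟨wh a A * v.β,
      ↑(some a :: AMov4_sub (some (bar a)) (X1 ++ some (bar a) :: Y2) U)⟩ := by
  obtain ⟨P, Q, rfl⟩ := List.append_of_mem hU
  rw [h, Cycle.nodup_coe_iff] at hn
  have h1 : (P ++ some (bar a) :: Q).Nodup := (List.nodup_append.1 hn).2.1
  have h2 := List.nodup_middle.1 h1
  rw [List.nodup_cons, List.mem_append, not_or] at h2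
  refine ⟨X1, P, Q, Y2, h.trans (cyc_of_eq Y2 (some a :: X1 ++ (P ++ some (bar a) :: Q))
    (by simp) (by simp)), hA, rfl, rfl, rfl, ?_⟩
  dsimp only
  rw [AMov4_sub_append, AMov4_sub_cons, if_pos rfl, AMov4_sub_not _ h2.1.1,
    AMov4_sub_not _ h2.1.2]
  simp

variable {E : Type} (S : SlideSys E)

theorem mov_Sq {s s1 s2 : St E} (hs : Ok S s) {a b : L} {A B : Finset (Option L)}
    (h1 : Mov S s a A s1) (h2 : Mov S s b B s2) (hd : Disjoint A B)
    (ha : some (bar a) ∉ B) (hb : some (bar b) ∉ A) :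
    ∃ s4, Mov S s1 b B s4 ∧ Mov S s2 a A s4 := by
  obtain ⟨haA, haA', -, -⟩ := Mov.mem S hs h1
  obtain ⟨hbB, hbB', -, -⟩ := Mov.mem S hs h2
  have hs1 := Ok.mov S hs h1
  have hs2 := Ok.mov S hs h2
  obtain ⟨m, n, hv1, he1⟩ := h1
  obtain ⟨m', n', hv2, he2⟩ := h2
  obtain ⟨X1, X2, Y1, Y2, ho, hA, -⟩ := id hv1
  obtain ⟨Z1, W2, W1, Z2, ho', hB, -⟩ := id hv2
  have hn := hs.1.1
  have hoA : s.v.o = ↑((Y2 ++ some a :: X1) ++ (X2 ++ some (bar a) :: Y1)) :=
    ho.trans (cyc_of_eq (some a :: X1 ++ (X2 ++ some (bar a) :: Y1)) Y2 (by simp) (by simp))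
  have hoB : s.v.o = ↑((Z2 ++ some b :: Z1) ++ (W2 ++ some (bar b) :: W1)) :=
    ho'.trans (cyc_of_eq (some b :: Z1 ++ (W2 ++ some (bar b) :: W1)) Z2 (by simp) (by simp))
  have hI : ∀ x, x ∈ Y2 ++ some a :: X1 ↔ x ∈ A := fun x => by
    rw [hA]; simp only [List.mem_append, List.mem_cons]; tauto
  have hJ : ∀ x, x ∈ Z2 ++ some b :: Z1 ↔ x ∈ B := fun x => by
    rw [hB]; simp only [List.mem_append, List.mem_cons]; tauto
  obtain ⟨G1, G2, hG⟩ := AMov4_arcs (by simp) (by simp)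
    (Cycle.nodup_coe_iff.1 (hoA ▸ hn)) (hoA.symm.trans hoB)
    fun x hx hx' => Finset.disjoint_left.1 hd ((hI x).1 hx) ((hJ x).1 hx')
  rw [hG] at hoA
  have hout : ∀ x, x ∉ A → x ∉ B → x ∈ G1 ∨ x ∈ G2 := by
    intro x hxA hxB
    have h3 := hs.1.2.1 x
    rw [hoA, Cycle.mem_coe_iff, List.mem_append, hI, List.mem_append, List.mem_append, hJ] at h3
    tauto
  have hGa := hout _ haA' ha
  have hGb := hout _ hb hbB'
  have hab : (some a : Option L) ≠ some b := fun h => Finset.disjoint_left.1 hd haA (h ▸ hbB)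
  have hbar : (some (bar a) : Option L) ≠ some (bar b) := fun h =>
    hab (congrArg some (bar_inj (Option.some.inj h)))
  have hab' : (some a : Option L) ≠ some (bar b) := fun h => hb (h ▸ haA)
  have hba' : (some b : Option L) ≠ some (bar a) := fun h => ha (h ▸ hbB)
  have haJ : some (bar a) ∉ Z2 ++ some b :: Z1 := fun h => ha ((hJ _).1 h)
  have hbI : some (bar b) ∉ Y2 ++ some a :: X1 := fun h => hb ((hI _).1 h)
  have haR : some (bar a) ∉ Z1 ++ some (bar b) :: Z2 := by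
    simp only [List.mem_append, List.mem_cons] at haJ ⊢
    tauto
  have hbR : some (bar b) ∉ X1 ++ some (bar a) :: Y2 := by
    have := hbar.symm
    simp only [List.mem_append, List.mem_cons] at hbI ⊢
    tauto
  have hoB' : s.v.o = ↑(Z2 ++ some b :: Z1 ++ (G2 ++ (Y2 ++ some a :: X1) ++ G1)) :=
    hoA.trans (cyc_of_eq (Y2 ++ some a :: X1 ++ G1) (Z2 ++ some b :: Z1 ++ G2) (by simp) (by simp))
  obtain ⟨rfl, rfl, e1⟩ := vmov_unique hs.1 hv1
    (AMov4_mk hn hoA (by simp only [List.mem_append]; tauto) hA)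
  obtain ⟨rfl, rfl, e2⟩ := vmov_unique hs.1 hv2
    (AMov4_mk hn hoB' (by simp only [List.mem_append]; tauto) hB)
  set σ := AMov4_sub (some (bar a)) (X1 ++ some (bar a) :: Y2) with hσ
  set τ := AMov4_sub (some (bar b)) (Z1 ++ some (bar b) :: Z2) with hτ
  have o1 : s1.v.o = ↑(Z2 ++ some b :: Z1 ++ (σ G2 ++ some a :: σ G1)) := by
    rw [e1]
    dsimp only
    rw [hσ, AMov4_sub_append, AMov4_sub_append, AMov4_sub_not _ haJ]
    exact cyc_of_eq (some a :: σ G1) (Z2 ++ some b :: Z1 ++ σ G2) (by simp [hσ]) (by simp [hσ])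
  have o2 : s2.v.o = ↑(Y2 ++ some a :: X1 ++ (τ G1 ++ some b :: τ G2)) := by
    rw [e2]
    dsimp only
    rw [hτ, AMov4_sub_append, AMov4_sub_append, AMov4_sub_not _ hbI]
    exact cyc_of_eq (some b :: τ G2) (Y2 ++ some a :: X1 ++ τ G1) (by simp [hτ]) (by simp [hτ])
  have m1 := AMov4_mk hs1.1.1 o1 (by
    rcases hGb with h | h
    · exact List.mem_append_right _ (List.mem_cons_of_mem _ (AMov4_sub_mem _ h hbar.symm))
    · exact List.mem_append_left _ (AMov4_sub_mem _ h hbar.symm)) hB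
  have m2 := AMov4_mk hs2.1.1 o2 (by
    rcases hGa with h | h
    · exact List.mem_append_left _ (AMov4_sub_mem _ h hbar)
    · exact List.mem_append_right _ (List.mem_cons_of_mem _ (AMov4_sub_mem _ h hbar))) hA
  refine ⟨⟨_, S.Mv b (cnt Z2) (cnt Z1) s1.e⟩, ⟨_, _, m1, rfl⟩, cnt Y2, cnt X1, ?_, ?_⟩
  · convert m2 using 1
    refine Vx.ext ?_ ?_
    · dsimp only
      rw [e1, e2]
      dsimp only
      rw [← mul_assoc, ← mul_assoc, wh_comm hd haA haA' hbB hbB' ha hb]
    · dsimp only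
      rw [AMov4_sub_append, AMov4_sub_append, AMov4_sub_cons, AMov4_sub_cons, if_neg hab',
        if_neg hba', hσ, hτ, AMov4_sub_comm hbar haR hbR, AMov4_sub_comm hbar haR hbR]
      exact cyc_of_eq (some b :: τ (σ G2)) (some a :: τ (σ G1)) (by simp [hσ, hτ])
        (by simp [hσ, hτ])
  · dsimp only
    rw [he1, he2]
    refine (SqE S (G1 := G1.reduceOption) (G2 := G2.reduceOption) ?_ ?_ ?_).symm
    · rw [hs.2, hoA, red_coe]
      simp [List.reduceOption_append]
    · simpa [List.reduceOption_mem_iff] using hGa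
    · simpa [List.reduceOption_mem_iff] using hGb

end Pool.Agent.MP_61a8e3_al.G4.A

end

section

set_option autoImplicit false

namespace Pool.Agent.MP_61a8e3_al.G4.A

variable {E : Type} (S : SlideSys E)

/-- Connected in one step, or in two steps through a lower state. -/
def APeak_Con (s s1 s2 : St E) : Prop :=
  Adj S s1 s2 ∨ ∃ m, Adj S s1 m ∧ Adj S m s2 ∧ En m.v.β < En s.v.β

theorem APeak_symm {s s1 s2 : St E} (h2 : Ok S s2) (h : APeak_Con S s s2 s1) :
    APeak_Con S s s1 s2 := by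
  rcases h with h | ⟨m, h, h', e⟩
  · exact Or.inl (adj_symm S h2 h)
  · exact Or.inr ⟨m, adj_symm S (Ok.adj S h2 h) h', adj_symm S h2 h, e⟩

theorem APeak_unl {s s' : St E} {π : W} (h : Adj S (sact S π s) s') : Adj S s s' := by
  simpa only [← sact_mul, inv_mul_cancel, sact_one] using adj_sact S h π⁻¹ 1

theorem APeak_unr {s s' : St E} {π : W} (h : Adj S s (sact S π s')) : Adj S s s' := by
  simpa only [← sact_mul, inv_mul_cancel, sact_one] using adj_sact S h 1 π⁻¹

theorem APeak_En {s s' : St E} (hs : Ok S s) {a : L} {A : Finset (Option L)}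
    (h : Mov S s a A s') :
    En s'.v.β + 2 * en s.v.β {some a} = En s.v.β + 2 * en s.v.β A := by
  obtain ⟨h1, h2, -, h3⟩ := Mov.mem S hs h
  rw [h3, En_wh _ h1 h2]

theorem APeak_in {s s1 s2 : St E} (hs : Ok S s) {a b : L} {A B : Finset (Option L)}
    (h1 : Mov S s a A s1) (h2 : Mov S s b B s2) (hd : Disjoint A B) (hab : b ≠ bar a)
    (ha : some (bar a) ∈ B)
    (he : en s.v.β B < en s.v.β {some a} ∨ (some (bar b) ∉ A ∧
      en s.v.β A + en s.v.β B < en s.v.β {some a} + en s.v.β {some b})) :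
    APeak_Con S s s1 s2 := by
  obtain ⟨a1, a2, -, -⟩ := Mov.mem S hs h1
  obtain ⟨b1, b2, b3, -⟩ := Mov.mem S hs h2
  have haB : some a ∉ B := Finset.disjoint_left.1 hd a1
  have hne : a ≠ b := fun h => haB (h ▸ b1)
  obtain ⟨m, hm⟩ := mov_exists S hs b3 ha (by rwa [bar_bar])
  have hm' := mov_compl S hs hm
  rw [bar_bar] at hm'
  have k1 := mov_T2 S hs h1 hm' (Finset.subset_compl_iff_disjoint_right.2 hd)
  obtain ⟨π, k2⟩ := mov_T1 S hs hm h2 hab.symm
  have e1 := APeak_En S hs hm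
  rw [en_bar] at e1
  rcases he with he | ⟨hb, he⟩
  · exact Or.inr ⟨m, adj_of_mov S k1, APeak_unr S (adj_of_mov S k2), by omega⟩
  have om := Ok.mov S hs hm
  have k3 := mov_back S (Ok.mov S hs h1) k1
  obtain ⟨-, -, c3, -⟩ := Mov.mem S om k3
  have hba : bar b ≠ a := fun h => hab (by rw [← h, bar_bar])
  obtain ⟨s4, k4⟩ := mov_exists S om (a := b) c3 (by simp [hab, hne.symm, b1])
    (by simp [hba, hb, b2])
  obtain ⟨σ, k5⟩ := mov_T1 S om k3 k4 hne
  have k6 := mov_T2 S om k2 k4 fun x hx => by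
    simp only [bar_bar, Finset.mem_insert, Finset.mem_erase, Finset.mem_compl, Finset.mem_sdiff]
      at hx ⊢
    tauto
  refine Or.inr ⟨s4, APeak_unr S (adj_of_mov S k5), adj_symm S (Ok.mov S hs h2)
    (APeak_unl S (adj_of_mov S k6)), ?_⟩
  have e2 := APeak_En S om k3
  have e3 := APeak_En S om k4
  have e4 := APeak_En S hs h1
  have e5 := en_wh_self s.v.β ha (by rwa [bar_bar])
  have e6 := en_wh_letter s.v.β (l := b) ha (by rwa [bar_bar]) fun h =>
    (eq_or_bar h).elim hab fun h => hne (by rw [h, bar_bar])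
  rw [← (Mov.mem S hs hm).2.2.2] at e5 e6
  rw [en_bar] at e5
  omega

theorem APeak_NC {s s1 s2 : St E} (hs : Ok S s) {a b : L} {A B : Finset (Option L)}
    (h1 : Mov S s a A s1) (h2 : Mov S s b B s2) (hd : Disjoint A B)
    (he : en s.v.β A + en s.v.β B < en s.v.β {some a} + en s.v.β {some b}) :
    APeak_Con S s s1 s2 := by
  obtain ⟨a1, a2, -, a4⟩ := Mov.mem S hs h1
  obtain ⟨b1, b2, -, -⟩ := Mov.mem S hs h2
  have o2 := Ok.mov S hs h2
  by_cases hab : b = bar a
  · have := mov_compl S hs h2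
    rw [hab, bar_bar] at this
    exact Or.inl (adj_of_mov S
      (mov_T2 S hs h1 this (Finset.subset_compl_iff_disjoint_right.2 hd)))
  have hba : a ≠ bar b := fun h => hab (by rw [h, bar_bar])
  by_cases ha : some (bar a) ∈ B <;> by_cases hb : some (bar b) ∈ A
  · by_cases h : en s.v.β B < en s.v.β {some a}
    · exact APeak_in S hs h1 h2 hd hab ha (Or.inl h)
    · exact APeak_symm S o2 (APeak_in S hs h2 h1 hd.symm hba hb (Or.inl (by omega)))
  · exact APeak_in S hs h1 h2 hd hab ha (Or.inr ⟨hb, he⟩)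
  · exact APeak_symm S o2 (APeak_in S hs h2 h1 hd.symm hba hb (Or.inr ⟨ha, by omega⟩))
  · obtain ⟨s4, k1, k2⟩ := mov_Sq S hs h1 h2 hd ha hb
    refine Or.inr ⟨s4, adj_of_mov S k1, adj_symm S o2 (adj_of_mov S k2), ?_⟩
    have e1 := APeak_En S (Ok.mov S hs h1) k1
    have e2 := APeak_En S hs h1
    have e3 := en_wh_out s.v.β a1 a2 hd.symm ha
    have e4 := en_wh_letter s.v.β (l := b) a1 a2 fun h =>
      (eq_or_bar h).elim (fun h => Finset.disjoint_left.1 hd a1 (h ▸ b1)) hab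
    rw [← a4] at e3 e4
    omega

theorem APeak_path {s s1 s2 : St E} (e1 : En s1.v.β < En s.v.β) (h : APeak_Con S s s1 s2) :
    Relation.ReflTransGen (fun x y : St E => Adj S x y ∧ En x.v.β < En s.v.β) s1 s2 := by
  rcases h with h | ⟨m, h, h', e⟩
  · exact .single ⟨h, e1⟩
  · exact .tail (.single ⟨h, e1⟩) ⟨h', e⟩

theorem APeak_corner {s s1 s2 : St E} (hs : Ok S s) {a b : L} {A B : Finset (Option L)}
    (h1 : Mov S s a A s1) (h2 : Mov S s b B s2) (e1 : En s1.v.β < En s.v.β)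
    (e2 : En s2.v.β ≤ En s.v.β) (hP : ¬ Relation.ReflTransGen
      (fun x y : St E => Adj S x y ∧ En x.v.β < En s.v.β) s1 s2) (c : L) (h3 : some c ∉ A)
    (h4 : some c ∉ B) (h5 : some (bar c) ∈ A ∨ some (bar c) ∈ B) :
    en s.v.β {some c} ≤ en s.v.β (Aᶜ ∩ Bᶜ) := by
  have k1 := APeak_En S hs h1
  have k2 := APeak_En S hs h2
  by_contra hlt
  by_cases hd : Disjoint A B
  · exact hP (APeak_path S e1 (APeak_NC S hs h1 h2 hd (by omega)))
  obtain ⟨x, hx, hx'⟩ := Finset.not_disjoint_iff.1 hd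
  obtain ⟨n1, n2, -⟩ := hs.1
  obtain ⟨m, hm⟩ := mov_exists S hs (a := c) (IsCut.inter n1
    (IsCut.compl n1 n2 (Mov.mem S hs h1).2.2.1) (IsCut.compl n1 n2 (Mov.mem S hs h2).2.2.1) (n2 x)
    (by simpa using hx) (by simpa using hx')) (by simp [h3, h4]) (by simpa [imp_iff_not_or] using h5)
  have k3 := APeak_En S hs hm
  exact hP ((APeak_path S e1 (APeak_NC S hs h1 hm
    (Finset.disjoint_left.2 fun y hy => by simp [hy]) (by omega))).trans
    (APeak_path S (by omega) (APeak_NC S hs hm h2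
      (Finset.disjoint_right.2 fun y hy => by simp [hy]) (by omega))))

theorem APeak_mov {s s1 s2 : St E} (hs : Ok S s) {a b : L} {A B : Finset (Option L)}
    (h1 : Mov S s a A s1) (h2 : Mov S s b B s2) (e1 : En s1.v.β < En s.v.β)
    (e2 : En s2.v.β ≤ En s.v.β) :
    Relation.ReflTransGen (fun x y : St E => Adj S x y ∧ En x.v.β < En s.v.β) s1 s2 := by
  by_contra hP
  obtain ⟨a1, a2, -, -⟩ := Mov.mem S hs h1
  obtain ⟨b1, b2, -, -⟩ := Mov.mem S hs h2
  have h1' := mov_compl S hs h1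
  have h2' := mov_compl S hs h2
  have c1 := APeak_corner S hs h1 h2 e1 e2 hP
  have c2 := APeak_corner S hs h1' h2 e1 e2 hP
  have c3 := APeak_corner S hs h1 h2' e1 e2 hP
  have c4 := APeak_corner S hs h1' h2' e1 e2 hP
  simp only [compl_compl, Finset.mem_compl, not_not] at c2 c3 c4
  have k1 := APeak_En S hs h1
  have k2 := APeak_En S hs h2
  have k3 := en_submod s.v.β A B
  have k4 := en_submod s.v.β A Bᶜ
  rw [← en_compl _ (A ∪ _), Finset.compl_union] at k3 k4
  rw [compl_compl, en_compl] at k4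
  have d1 : en s.v.β {some a} ≤ en s.v.β (A ∩ B) ∧ some a ∈ B ∨
      en s.v.β {some a} ≤ en s.v.β (A ∩ Bᶜ) ∧ some a ∉ B := by
    by_cases h : some a ∈ B
    exacts [Or.inl ⟨c4 a a1 h (Or.inl a2), h⟩, Or.inr ⟨c2 a a1 h (Or.inl a2), h⟩]
  have d2 : en s.v.β {some a} ≤ en s.v.β (Aᶜ ∩ B) ∨ en s.v.β {some a} ≤ en s.v.β (Aᶜ ∩ Bᶜ) := by
    rw [← en_bar]
    by_cases h : some (bar a) ∈ B
    exacts [Or.inl (c3 _ a2 h (Or.inl (by rwa [bar_bar]))),
      Or.inr (c1 _ a2 h (Or.inl (by rwa [bar_bar])))]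
  have d3 : en s.v.β {some b} ≤ en s.v.β (A ∩ B) ∨ en s.v.β {some b} ≤ en s.v.β (Aᶜ ∩ B) := by
    by_cases h : some b ∈ A
    exacts [Or.inl (c4 b h b1 (Or.inr b2)), Or.inr (c3 b h b1 (Or.inr b2))]
  have d4 : en s.v.β {some b} ≤ en s.v.β (A ∩ Bᶜ) ∨ en s.v.β {some b} ≤ en s.v.β (Aᶜ ∩ Bᶜ) := by
    rw [← en_bar]
    by_cases h : some (bar b) ∈ A
    exacts [Or.inl (c2 _ h b2 (Or.inr (by rwa [bar_bar]))),
      Or.inr (c1 _ h b2 (Or.inr (by rwa [bar_bar])))]
  rcases d1 with ⟨d1, -⟩ | ⟨d1, -⟩ <;> omega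

theorem peak {s s1 s2 : St E} (hs : Ok S s) (h1 : Adj S s s1) (h2 : Adj S s s2)
    (e1 : En s1.v.β < En s.v.β) (e2 : En s2.v.β ≤ En s.v.β) :
    Relation.ReflTransGen (fun x y : St E => Adj S x y ∧ En x.v.β < En s.v.β) s1 s2 := by
  obtain ⟨a, A, π, t1, h1, rfl⟩ := h1
  obtain ⟨b, B, σ, t2, h2, rfl⟩ := h2
  have f1 : En (sact S π t1).v.β = En t1.v.β := En_relA _ _
  have f2 : En (sact S σ t2).v.β = En t2.v.β := En_relA _ _
  have o1 := Ok.mov S hs h1
  have g1 : En t1.v.β < En s.v.β := by omega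
  have g2 : En t2.v.β ≤ En s.v.β := by omega
  have k := (APeak_mov S hs h1 h2 g1 g2).cases_tail
  refine .head ⟨adj_symm S o1 (adj_refl_sact S o1 π), e1⟩ ?_
  rcases k with k | ⟨m, h, h', e⟩
  · rw [k]
    exact .single ⟨adj_refl_sact S o1 σ, g1⟩
  · exact h.tail ⟨by simpa only [sact_one] using adj_sact S h' 1 σ, e⟩

end Pool.Agent.MP_61a8e3_al.G4.A

end

section

set_option autoImplicit false

namespace Pool.Agent.MP_61a8e3_al.G4.A

variable {E : Type} (S : SlideSys E)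

theorem ABase_le (u : F) (T : Finset F) (h : ∀ g ∈ T, ∃ l : L, g ∈ cr u {some l}) :
    T.card ≤ ∑ l : L, (cr u {some l}).ncard := by
  classical
  have h1 : T ⊆ Finset.univ.biUnion fun l : L => (cr_finite u {some l}).toFinset := by
    intro g hg
    obtain ⟨l, hl⟩ := h g hg
    exact Finset.mem_biUnion.2 ⟨l, Finset.mem_univ _, (Set.Finite.mem_toFinset _).2 hl⟩
  refine (Finset.card_le_card h1).trans (Finset.card_biUnion_le.trans_eq ?_)
  exact Finset.sum_congr rfl fun l _ => (Set.ncard_eq_toFinset_card _ _).symm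

theorem ABase_fl {u : F} (hu : u ≠ 1) : ∃ l, fl u = some l :=
  Option.ne_none_iff_exists'.1 fun h => hu (fl_eq_none.1 h)

theorem ABase_one {u : F} (hu : u ≠ 1) : ∃ l : L, (1 : F) ∈ cr u {some l} := by
  obtain ⟨l, hl⟩ := ABase_fl hu
  exact ⟨l, by simp [cr, fl_one, hl]⟩

theorem ABase_inv {u : F} (hu : u ≠ 1) : ∃ l : L, u⁻¹ ∈ cr u {some l} := by
  obtain ⟨l, hl⟩ := ABase_fl (inv_ne_one.2 hu)
  exact ⟨l, by simp [cr, fl_one, hl]⟩

theorem ABase_el_ne (l : L) : el l ≠ 1 := fun h => by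
  have := fl_el l
  rw [h, fl_one] at this
  exact absurd this (by simp)

theorem ABase_two {u : F} (hu : u ≠ 1) : 2 ≤ ∑ l : L, (cr u {some l}).ncard := by
  classical
  have h := ABase_le u {1, u⁻¹} (by
    intro g hg
    rcases Finset.mem_insert.1 hg with rfl | hg
    · exact ABase_one hu
    · rw [Finset.mem_singleton.1 hg]
      exact ABase_inv hu)
  rwa [Finset.card_pair (inv_ne_one.2 hu).symm] at h

theorem ABase_three {u : F} (hu : u ≠ 1) (hl : ∀ l, u ≠ el l) :
    3 ≤ ∑ l : L, (cr u {some l}).ncard := by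
  classical
  obtain ⟨l, hfl⟩ := ABase_fl hu
  have h3 : (el l)⁻¹ ∈ cr u {some (bar l)} := by
    have h1 : fl (el (bar l) * u) ≠ some (bar l) := fun h => by
      rw [fl_el_mul, bar_bar] at h
      exact h hfl
    rw [← el_bar]
    simp [cr, fl_el, h1]
  have h := ABase_le u {1, u⁻¹, (el l)⁻¹} (by
    intro g hg
    rcases Finset.mem_insert.1 hg with rfl | hg
    · exact ABase_one hu
    rcases Finset.mem_insert.1 hg with rfl | hg
    · exact ABase_inv hu
    · rw [Finset.mem_singleton.1 hg]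
      exact ⟨_, h3⟩)
  rwa [Finset.card_eq_three.2 ⟨_, _, _, (inv_ne_one.2 hu).symm,
    (inv_ne_one.2 (ABase_el_ne l)).symm, fun h => hl l (inv_injective h), rfl⟩] at h

theorem ABase_letter {β : MulAut F} (h : ∀ l : L, en β {some l} ≤ 1) (i : X) :
    ∃ l, β (FreeGroup.of i) = el l := by
  by_contra hc
  have hne : ∀ j : X, β (FreeGroup.of j) ≠ 1 := fun j h =>
    ABase_el_ne (j, true) (β.injective (h.trans (map_one β).symm))
  have h1 : ∑ _j : X, 2 < ∑ j : X, ∑ l : L, (cr (β (FreeGroup.of j)) {some l}).ncard :=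
    Finset.sum_lt_sum (fun j _ => ABase_two (hne j))
      ⟨i, Finset.mem_univ _, ABase_three (hne i) fun l hl => hc ⟨l, hl⟩⟩
  rw [Finset.sum_comm] at h1
  have h2 : ∑ l : L, ∑ j : X, (cr (β (FreeGroup.of j)) {some l}).ncard ≤ ∑ _l : L, 1 :=
    Finset.sum_le_sum fun l _ => h l
  have h3 := h1.trans_le h2
  simp at h3

theorem ABase_rel {β : MulAut F} (h : ∀ l : L, en β {some l} ≤ 1) : ∃ π : W, β = relA π := by
  have h1 : ∀ l : L, ∃ m, β (el l) = el m := by
    rintro ⟨i, b⟩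
    obtain ⟨m, hm⟩ := ABase_letter h i
    cases b
    · refine ⟨bar m, ?_⟩
      have h1 : el (i, false) = (FreeGroup.of i)⁻¹ := el_bar (i, true)
      rw [h1, map_inv, hm, el_bar]
    · exact ⟨m, hm⟩
  choose p hp using h1
  have hinj : Function.Injective p := fun l m hlm =>
    el_inj (β.injective (by rw [hp, hp, hlm]))
  refine ⟨⟨Equiv.ofBijective p (Finite.injective_iff_bijective.1 hinj), fun l => ?_⟩,
    aut_ext fun l => ?_⟩
  · refine el_inj ?_
    change el (p (bar l)) = el (bar (p l))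
    rw [← hp, el_bar, el_bar, map_inv, hp]
  · rw [relA_el, hp]
    rfl

theorem base_of_small {v : Vx} (hg : Good v) (h : ∀ l : L, en v.β {some l} ≤ 1) :
    ∃ π : W, v = vact π v0 := by
  obtain ⟨π, hπ⟩ := ABase_rel h
  have h1 : (vact π⁻¹ v).β = 1 := by
    change relA π⁻¹ * v.β = 1
    rw [hπ, ← map_mul, inv_mul_cancel, map_one]
  have h2 : Good ⟨1, (vact π⁻¹ v).o⟩ := by
    rw [← h1]
    exact hg.vact π⁻¹
  have h3 : vact π⁻¹ v = v0 := Vx.ext h1 (o0_unique h2)
  exact ⟨π, by rw [← h3, ← vact_mul, mul_inv_cancel, vact_one]⟩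

theorem ABase_single {A : Finset (Option L)} {a : L} (h0 : none ∉ A) (ha : some a ∈ A)
    (h : en 1 A ≤ 1) : A = {some a} := by
  rw [en_one h0] at h
  exact Finset.eq_singleton_iff_unique_mem.2
    ⟨ha, fun x hx => Finset.card_le_one.1 h x hx _ ha⟩

theorem base_adj {e : E} (he : S.w e = w0) (π : W) {s' : St E}
    (h : Adj S (sact S π ⟨v0, e⟩) s') (hE : En s'.v.β ≤ En 1) :
    ∃ σ : W, s' = sact S σ ⟨v0, e⟩ := by
  have hok : Ok S ⟨v0, e⟩ := ⟨good_v0, he.trans red_o0.symm⟩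
  have h1 := adj_sact S h π⁻¹ 1
  rw [← sact_mul, inv_mul_cancel, sact_one, sact_one] at h1
  obtain ⟨a, A, τ, s'', hm, rfl⟩ := h1
  obtain ⟨ha, hb, -, hβ⟩ := Mov.mem S hok hm
  have h2 : En (wh a A * 1) ≤ En 1 := by
    have : En (sact S τ s'').v.β = En s''.v.β := En_relA _ τ
    rw [this, hβ] at hE
    exact hE
  have h3 := En_wh 1 ha hb
  rw [en_one (A := {some a}) (by simp), Finset.card_singleton] at h3
  have h4 : en 1 A ≤ 1 := by omega
  refine ⟨τ, congrArg (sact S τ) ?_⟩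
  by_cases h0 : none ∈ A
  · have h5 : Aᶜ = {some (bar a)} :=
      ABase_single (by simpa using h0) (Finset.mem_compl.2 hb) (by rwa [en_compl])
    have h6 := mov_compl S hok hm
    rw [h5] at h6
    exact mov_unique S hok h6 (mov_triv S hok _)
  · rw [ABase_single h0 ha h4] at hm
    exact mov_unique S hok hm (mov_triv S hok _)

theorem vact_v0_inj {π σ : W} (h : vact π v0 = vact σ v0) : π = σ := by
  have h1 : relA π * 1 = relA σ * 1 := congrArg Vx.β h
  rw [mul_one, mul_one] at h1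
  refine Subtype.ext (Equiv.ext fun l => el_inj ?_)
  rw [← relA_el, ← relA_el, h1]

end Pool.Agent.MP_61a8e3_al.G4.A

end

section

set_option autoImplicit false

namespace Pool.Agent.MP_61a8e3_al.G4.A

/-- Abstract monodromy theorem. -/
theorem monodromy {T V : Type} (p : T → V) (N : V → ℕ) (A : T → T → Prop) (B : T → Prop)
    (n0 : ℕ) (symm : ∀ s t, A s t → A t s)
    (lift : ∀ s s' t, A s s' → p t = p s → ∃ t', A t t' ∧ p t' = p s' ∧ (t' = s' → t = s))
    (pk : ∀ s s1 s2, A s s1 → A s s2 → N (p s1) < N (p s) → N (p s2) ≤ N (p s) →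
      Relation.ReflTransGen (fun x y => A x y ∧ N (p x) < N (p s)) s1 s2)
    (hB0 : ∀ s, B s → N (p s) = n0)
    (hB1 : ∀ s s', B s → A s s' → N (p s') ≤ N (p s) → B s')
    (hB2 : ∀ s t, B s → B t → p s = p t → s = t)
    {b b' s t : T} (hb : B b) (hb' : B b') (hs : Relation.ReflTransGen A b s)
    (ht : Relation.ReflTransGen A b' t) (h : p s = p t) : s = t := by
  have _ := hB0
  let Γ : T → Prop := fun s =>
    ∃ c, B c ∧ Relation.ReflTransGen (fun x y => A x y ∧ N (p y) < N (p x)) s c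
  have cs : ∀ s, Γ s → B s ∨ ∃ s1, A s s1 ∧ N (p s1) < N (p s) ∧ Γ s1 := by
    rintro s ⟨c, hc, h1⟩
    rcases h1.cases_head with rfl | ⟨s1, h2, h3⟩
    · exact Or.inl hc
    · exact Or.inr ⟨s1, h2.1, h2.2, c, hc, h3⟩
  have C : ∀ n s, N (p s) < n → Γ s → ∀ s', A s s' → Γ s' := by
    intro n
    induction n with
    | zero => intro s h; omega
    | succ n ih =>
      intro s hn hs s' h1
      rcases lt_or_ge (N (p s)) (N (p s')) with h2 | h2
      · obtain ⟨c, hc, h3⟩ := hs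
        exact ⟨c, hc, h3.head ⟨symm _ _ h1, h2⟩⟩
      rcases cs s hs with h3 | ⟨s1, h3, h4, h5⟩
      · exact ⟨s', hB1 s s' h3 h1 h2, .refl⟩
      · have h6 := pk s s1 s' h3 h1 h4 h2
        clear h1 h2
        induction h6 with
        | refl => exact h5
        | tail _ h7 ih2 => exact ih _ (by omega) ih2 _ h7.1
  have U : ∀ n s t, N (p s) < n → Γ s → Γ t → p s = p t → s = t := by
    intro n
    induction n with
    | zero => intro s t h; omega
    | succ n ih =>
      have key : ∀ s t s1, N (p s) < n + 1 → Γ t → p s = p t → A s s1 → N (p s1) < N (p s) →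
          Γ s1 → s = t := fun s t s1 hn ht h h1 h2 h3 => by
        obtain ⟨t1, h4, h5, h6⟩ := lift s s1 t h1 h.symm
        exact (h6 (ih s1 t1 (by omega) h3 (C _ t (Nat.lt_succ_self _) ht t1 h4) h5.symm).symm).symm
      intro s t hn hs ht h
      rcases cs s hs with h1 | ⟨s1, h1, h2, h3⟩
      · rcases cs t ht with h4 | ⟨t1, h4, h5, h6⟩
        · exact hB2 s t h1 h4 h
        · exact (key t s t1 (h ▸ hn) hs h.symm h4 h5 h6).symm
      · exact key s t s1 hn ht h h1 h2 h3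
  have R : ∀ b s, B b → Relation.ReflTransGen A b s → Γ s := fun b s hb hs => by
    induction hs with
    | refl => exact ⟨b, hb, .refl⟩
    | tail _ h1 ih => exact C _ _ (Nat.lt_succ_self _) ih _ h1
  exact U _ s t (Nat.lt_succ_self _) (R b s hb hs) (R b' t hb' ht) h

variable {E : Type} (S : SlideSys E)

theorem AMono_sub {r : St E → St E → Prop} (hr : ∀ x y, r x y → Adj S x y) {a b : St E}
    (ha : Ok S a) (h : Relation.ReflTransGen r a b) : ∃ hb : Ok S b,
      Relation.ReflTransGen (fun x y : {s : St E // Ok S s} => r x.1 y.1) ⟨a, ha⟩ ⟨b, hb⟩ := by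
  induction h with
  | refl => exact ⟨ha, .refl⟩
  | tail _ h1 ih =>
    obtain ⟨h2, h3⟩ := ih
    exact ⟨Ok.adj S h2 (hr _ _ h1), h3.tail h1⟩

theorem rch_unique {e0 e e' : E} (h0 : S.w e0 = w0) {v : Vx} (h : Rch S ⟨v0, e0⟩ ⟨v, e⟩)
    (h' : Rch S ⟨v0, e0⟩ ⟨v, e'⟩) : e = e' := by
  have ok0 : Ok S ⟨v0, e0⟩ := ⟨good_v0, h0.trans red_o0.symm⟩
  obtain ⟨k1, r1⟩ := AMono_sub S (fun _ _ h => h) ok0 h
  obtain ⟨k2, r2⟩ := AMono_sub S (fun _ _ h => h) ok0 h'
  have hb : ∃ π, (⟨v0, e0⟩ : St E) = sact S π ⟨v0, e0⟩ := ⟨1, (sact_one S _).symm⟩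
  have n0 : ∀ π : W, En (sact S π ⟨v0, e0⟩).v.β = En 1 := fun π => En_relA 1 π
  have key := monodromy (T := {s : St E // Ok S s}) (fun s => s.1.v) (fun v => En v.β)
    (fun s t => Adj S s.1 t.1) (fun s => ∃ π, s.1 = sact S π ⟨v0, e0⟩) (En 1)
    (fun s t h => adj_symm S s.2 h)
    (fun s s' t h ht => by
      obtain ⟨t', h1, h2, h3⟩ := adj_lift S h ht
      exact ⟨⟨t', Ok.adj S t.2 h1⟩, h1, h2, fun h4 => Subtype.ext (h3 (congrArg Subtype.val h4))⟩)
    (fun s s1 s2 h1 h2 e1 e2 =>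
      (AMono_sub S (fun _ _ h => h.1) s1.2 (peak S s.2 h1 h2 e1 e2)).2)
    (fun s ⟨π, h⟩ => by rw [h, n0])
    (fun s s' ⟨π, h⟩ h1 h2 => by
      rw [h] at h1 h2
      exact base_adj S h0 π h1 (h2.trans (n0 π).le))
    (fun s t ⟨π, h1⟩ ⟨σ, h2⟩ h3 => by
      rw [h1, h2] at h3
      exact Subtype.ext (by rw [h1, h2, vact_v0_inj h3]))
    (b := ⟨_, ok0⟩) (b' := ⟨_, ok0⟩) hb hb r1 r2 rfl
  exact congrArg (fun s : {s : St E // Ok S s} => s.1.e) key

theorem rch_exists {v : Vx} (hg : Good v) :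
    ∃ P ∈ S.Lam, ∀ e0, S.w e0 = w0 → Rch S ⟨v0, e0⟩ ⟨v, P e0⟩ := by
  induction hn : En v.β using Nat.strong_induction_on generalizing v with
  | _ n ih =>
    by_cases h : ∀ l : L, en v.β {some l} ≤ 1
    · obtain ⟨π, rfl⟩ := base_of_small hg h
      exact ⟨S.rl π, rl_mem S π, fun e0 h0 => Relation.ReflTransGen.single
        (adj_refl_sact S (s := ⟨v0, e0⟩) ⟨good_v0, h0.trans red_o0.symm⟩ π)⟩
    · push Not at h
      obtain ⟨a, ha⟩ := h
      obtain ⟨c, A, h1, h2, h3, h4⟩ := descent hg ha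
      obtain ⟨m, k, v', h5⟩ := vmov_exists hg h1 h2 h3
      have h6 : v'.β = wh c A * v.β := by
        obtain ⟨_, _, _, _, _, _, _, _, h7, _⟩ := h5
        exact h7
      have h7 := En_wh v.β h2 h3
      obtain ⟨P, hP, h8⟩ := ih (En v'.β) (by rw [h6]; omega) (hg.vmov h5) rfl
      obtain ⟨m', k', h9, -⟩ := vmov_back S hg h5
      exact ⟨S.Mv c m' k' * P, mul_mem (Mv_mem S c m' k') hP, fun e0 h0 =>
        (h8 e0 h0).tail (adj_of_mov S ⟨m', k', h9, rfl⟩)⟩

end Pool.Agent.MP_61a8e3_al.G4.A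

end

section

set_option autoImplicit false

namespace Pool.Agent.MP_61a8e3_al.G4.D

open A

theorem DMain_ex_r3 (z : X) : ex z r3 = 1 := by
  simp only [r3, List.ofFn_succ, List.ofFn_zero, List.prod_cons, List.prod_nil, map_mul, map_inv,
    map_one, mul_inv_cancel_comm, mul_inv_cancel, mul_one]

theorem DMain_ex_pr (z : X) {g h : F} (e : pr g = pr h) : ex z g = ex z h := by
  have hr : ∀ r ∈ ({S.rel} : Set F), FreeGroup.lift
      (fun x => if x = z then Multiplicative.ofAdd (1 : ℤ) else 1) r = 1 := by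
    rintro r rfl
    exact DMain_ex_r3 z
  have key : (PresentedGroup.toGroup hr).comp pr = ex z :=
    FreeGroup.ext_hom _ _ fun x => by
      rw [MonoidHom.comp_apply]
      exact (PresentedGroup.toGroup.of hr).trans (by simp [ex])
  rw [← key, MonoidHom.comp_apply, MonoidHom.comp_apply, e]

theorem inner_of_id {E : Type} (S : SlideSys E) (e0 : E) (he0 : S.w e0 = w0) {α : MulAut F}
    (hα : α r3 = r3) (h : ∀ x, pr (α x) = pr x) : ∃ c : F, α = MulAut.conj c := by
  obtain ⟨P, hP⟩ := exists_P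
  obtain ⟨Pm, -, hr⟩ := rch_exists S (good_of_fix hα)
  have ok0 : Ok S ⟨v0, e0⟩ := ⟨good_v0, he0.trans red_o0.symm⟩
  have hi : Inv P ⟨α, o0⟩ := Inv.rch S ok0 (hr e0 he0) hP
  refine cent (fun z w => DMain_ex_pr z (h w)) fun x => ?_
  have h1 := inv_o0 hα hi x
  have h2 := inv_o0 (α := 1) rfl hP x
  have h3 : pr (α⁻¹ (gam x)) = pr (gam x) := by
    rw [← h (α⁻¹ (gam x)), MulAut.apply_inv_self]
  have h4 : out (α⁻¹ * push x * α) = out (push x) := by
    rw [h1, h3]
    simpa using h2.symm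
  obtain ⟨c, hc⟩ := out_eq h4
  refine ⟨α c, fun w => ?_⟩
  have h5 : α⁻¹ (push x (α w)) = c * push x w * c⁻¹ := by
    simpa using DFunLike.congr_fun hc w
  have h6 := congrArg α h5
  rw [MulAut.apply_inv_self] at h6
  rw [h6, map_mul, map_mul, map_inv]

theorem DMain_conj_mem (c : F) : (MulAut.conj c : MulAut F) ∈ G3 :=
  (isConj_iff.2 ⟨c, rfl⟩ : IsConj r3 (c * r3 * c⁻¹)).symm

theorem DMain_push_mem (x : X) : push x ∈ G3 := by
  obtain ⟨u, -, hu⟩ := push_norm x
  exact isConj_iff.2 ⟨u, hu⟩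

/-- Elements of the surface group whose conjugation is realised in the kernel. -/
def DMain_K {Q : Type} [Group Q] (Φ : G3 →* Q) : Subgroup Pi where
  carrier := {g | ∃ τ : G3, (τ : MulAut F) r3 = r3 ∧ Φ τ = 1 ∧
    ∀ x, pr ((τ : MulAut F) x) = g * pr x * g⁻¹}
  one_mem' := ⟨1, rfl, map_one _, fun x => by simp⟩
  mul_mem' := by
    rintro a b ⟨σ, h1, h2, h3⟩ ⟨τ, k1, k2, k3⟩
    refine ⟨σ * τ, ?_, by rw [map_mul, h2, k2, mul_one], fun x => ?_⟩
    · rw [Subgroup.coe_mul, MulAut.mul_apply, k1, h1]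
    · rw [Subgroup.coe_mul, MulAut.mul_apply, h3, k3]
      group
  inv_mem' := by
    rintro a ⟨σ, h1, h2, h3⟩
    refine ⟨σ⁻¹, ?_, by rw [map_inv, h2, inv_one], fun x => ?_⟩
    · rw [Subgroup.coe_inv]
      conv_lhs => rw [← h1]
      exact MulAut.inv_apply_self F _ _
    · have := h3 ((σ : MulAut F)⁻¹ x)
      rw [MulAut.apply_inv_self] at this
      rw [Subgroup.coe_inv, this]
      group

theorem DMain_K_top {Q : Type} [Group Q] (Φ : G3 →* Q)
    (hinn : ∀ (γ : G3) (c : F), (γ : MulAut F) = MulAut.conj c → Φ γ = 1)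
    (hpush : ∀ (γ : G3) (x : X), (γ : MulAut F) = push x → Φ γ = 1) (g : Pi) :
    g ∈ DMain_K Φ := by
  obtain ⟨w, rfl⟩ := PresentedGroup.mk_surjective _ g
  have hle : Subgroup.closure (Set.range gam) ≤ (DMain_K Φ).comap pr := by
    rw [Subgroup.closure_le]
    rintro _ ⟨x, rfl⟩
    obtain ⟨u, hu1, hu2⟩ := push_norm x
    refine ⟨(⟨MulAut.conj u, DMain_conj_mem u⟩ : G3) * (⟨push x, DMain_push_mem x⟩ : G3), ?_, ?_,
      fun y => ?_⟩
    · exact hu2
    · rw [map_mul, hinn _ u rfl, hpush _ x rfl, mul_one]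
    · change pr (u * push x y * u⁻¹) = _
      rw [map_mul, map_mul, map_inv, hu1, pr_push]
  rw [closure_gam] at hle
  exact hle (Subgroup.mem_top w)

theorem kerD {E : Type} (S : SlideSys E) (e0 : E) (he0 : S.w e0 = w0) {Q : Type} [Group Q]
    (Φ : G3 →* Q) (hinn : ∀ (γ : G3) (c : F), (γ : MulAut F) = MulAut.conj c → Φ γ = 1)
    (hpush : ∀ (γ : G3) (x : X), (γ : MulAut F) = push x → Φ γ = 1)
    (α : G3) (g : Pi) (h : ∀ x, pr ((α : MulAut F) x) = g * pr x * g⁻¹) : Φ α = 1 := by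
  obtain ⟨c, hc⟩ := isConj_iff.1 (show IsConj ((α : MulAut F) r3) r3 from α.2)
  obtain ⟨τ, t1, t2, t3⟩ := DMain_K_top Φ hinn hpush (pr c * g)
  let γ : G3 := ⟨MulAut.conj c, DMain_conj_mem c⟩
  have hv : ∀ x, ((τ⁻¹ * (γ * α) : G3) : MulAut F) x =
      (τ : MulAut F)⁻¹ (c * (α : MulAut F) x * c⁻¹) := fun x => rfl
  have hinv : ∀ y, pr ((τ : MulAut F)⁻¹ y) = (pr c * g)⁻¹ * pr y * (pr c * g) := fun y => by
    have := t3 ((τ : MulAut F)⁻¹ y)
    rw [MulAut.apply_inv_self] at this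
    rw [this]
    group
  obtain ⟨d, hd⟩ := inner_of_id S e0 he0 (α := ((τ⁻¹ * (γ * α) : G3) : MulAut F))
    (by
      rw [hv, hc]
      conv_lhs => rw [← t1]
      exact MulAut.inv_apply_self F _ _)
    (fun x => by
      rw [hv, hinv, map_mul, map_mul, map_inv, h]
      group)
  have h1 := hinn _ d hd
  rwa [map_mul, map_mul, map_inv, t2, hinn γ c rfl, inv_one, one_mul, one_mul] at h1

end Pool.Agent.MP_61a8e3_al.G4.D

end

section

set_option autoImplicit false

namespace Pool.Agent.MP_61a8e3_al.G4.A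

theorem ACent_list {α : Type} {u w : List α} (hw : w.Nodup) (h : u ++ w = w ++ u) :
    u = [] ∨ ∃ v, u = w ++ v := by
  rcases List.append_eq_append_iff.1 h with ⟨a, h1, h2⟩ | ⟨b, h1, -⟩
  · cases u with
    | nil => exact Or.inl rfl
    | cons x u' =>
      cases a with
      | nil => exact Or.inr ⟨[], by simpa using h1.symm⟩
      | cons y a' =>
        exfalso
        have e : x = y := by
          have := h1.symm.trans h2
          simp only [List.cons_append, List.cons.injEq] at this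
          exact this.1
        subst e
        rw [h1, List.cons_append, List.nodup_cons] at hw
        exact hw.1 (by simp)
  · exact Or.inr ⟨b, h1⟩

theorem ACent_step {ρ g : F} (hn : ρ.toWord.Nodup) (h1 : ρ ≠ 1) (h : g * ρ = ρ * g)
    (hf : fl ρ ≠ fl g⁻¹) : g = 1 ∨ (ρ⁻¹ * g).norm < g.norm := by
  have e1 := toWord_mul_of_ne hf
  have e2 : g.toWord ++ ρ.toWord = ρ.toWord ++ g.toWord := by
    have hs := FreeGroup.toWord_mul_sublist ρ g
    rw [← h, e1] at hs
    exact hs.eq_of_length (by rw [List.length_append, List.length_append, add_comm])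
  rcases ACent_list hn e2 with h0 | ⟨v, hv⟩
  · exact Or.inl (FreeGroup.toWord_eq_nil_iff.1 h0)
  · right
    have e3 : ρ⁻¹ * g = FreeGroup.mk v := by
      rw [inv_mul_eq_iff_eq_mul]
      conv_lhs => rw [← FreeGroup.mk_toWord (x := g), hv, ← FreeGroup.mul_mk, FreeGroup.mk_toWord]
    have e4 : g.norm = ρ.norm + v.length := by
      unfold FreeGroup.norm
      rw [hv, List.length_append]
    have e5 : ρ.norm ≠ 0 := fun h0 => h1 (FreeGroup.norm_eq_zero.1 h0)
    have e6 : (FreeGroup.mk v).norm ≤ v.length := FreeGroup.norm_mk_le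
    rw [e3]
    omega

theorem ACent_word : r3.toWord =
    [la 0, lb 0, lA 0, lB 0, la 1, lb 1, lA 1, lB 1, la 2, lb 2, lA 2, lB 2,
      la 3, lb 3, lA 3, lB 3] := by
  rw [r3_eq, FreeGroup.toWord_mk]
  decide

theorem ACent_word' : r3⁻¹.toWord =
    [lb 3, la 3, lB 3, lA 3, lb 2, la 2, lB 2, lA 2, lb 1, la 1, lB 1, lA 1,
      lb 0, la 0, lB 0, lA 0] := by
  rw [FreeGroup.toWord_inv, ACent_word]
  decide

theorem cent_r3 {g : F} (h : g * r3 = r3 * g) : ∃ k : ℤ, g = r3 ^ k := by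
  induction hn : g.norm using Nat.strong_induction_on generalizing g with
  | _ n ih =>
    subst hn
    have n1 : r3.toWord.Nodup := by rw [ACent_word]; decide
    have n2 : r3⁻¹.toWord.Nodup := by rw [ACent_word']; decide
    have f1 : fl r3 = some (la 0) := by rw [fl, ACent_word]; rfl
    have f2 : fl r3⁻¹ = some (lb 3) := by rw [fl, ACent_word']; rfl
    have r1 : r3 ≠ 1 := fun e => by
      rw [e, fl_one] at f1
      cases f1
    have hc : Commute g r3 := h
    by_cases hf : fl r3 = fl g⁻¹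
    · have hf' : fl r3⁻¹ ≠ fl g⁻¹ := by
        rw [← hf, f1, f2]
        decide
      rcases ACent_step n2 (inv_ne_one.2 r1) hc.inv_right.eq hf' with h0 | hlt
      · exact ⟨0, by rw [h0, zpow_zero]⟩
      · rw [inv_inv] at hlt
        obtain ⟨k, hk⟩ := ih _ hlt ((Commute.refl r3).mul_left hc).eq rfl
        refine ⟨-1 + k, ?_⟩
        rw [zpow_add, ← hk, zpow_neg_one, inv_mul_cancel_left]
    · rcases ACent_step n1 r1 h hf with h0 | hlt
      · exact ⟨0, by rw [h0, zpow_zero]⟩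
      · obtain ⟨k, hk⟩ := ih _ hlt ((Commute.refl r3).inv_left.mul_left hc).eq rfl
        refine ⟨1 + k, ?_⟩
        rw [zpow_add, ← hk, zpow_one, mul_inv_cancel_left]

end Pool.Agent.MP_61a8e3_al.G4.A

end

section

set_option autoImplicit false

namespace Pool.Agent.MP_61a8e3_al.G4.A

def AMain_Act {E : Type} (S : SlideSys E) (γ : MulAut F) (e e' : E) : Prop :=
  ∃ c : F, Rch S ⟨v0, e⟩ ⟨⟨MulAut.conj c * γ, o0⟩, e'⟩

theorem AMain_ok {E : Type} (S : SlideSys E) {e : E} (he : S.w e = w0) : Ok S ⟨v0, e⟩ :=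
  ⟨good_v0, he.trans red_o0.symm⟩

theorem AMain_w {E : Type} (S : SlideSys E) {γ : MulAut F} {e e' : E} (he : S.w e = w0)
    (h : AMain_Act S γ e e') : S.w e' = w0 := by
  obtain ⟨c, h⟩ := h
  exact (Ok.rch S (AMain_ok S he) h).2.trans red_o0

theorem AMain_total {E : Type} (S : SlideSys E) (γ : G3) :
    ∃ P ∈ S.Lam, ∀ e, S.w e = w0 → AMain_Act S γ e (P e) := by
  obtain ⟨c, hc⟩ := isConj_iff.1 (show IsConj ((γ : MulAut F) r3) r3 from γ.2)
  have hg : Good ⟨MulAut.conj c * (γ : MulAut F), o0⟩ := good_of_fix (by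
    rw [MulAut.mul_apply, MulAut.conj_apply, hc])
  obtain ⟨P, hP, h⟩ := rch_exists S hg
  exact ⟨P, hP, fun e he => ⟨c, h e he⟩⟩

theorem AMain_fun {E : Type} (S : SlideSys E) {γ : MulAut F} {e e' e'' : E} (he : S.w e = w0)
    (h : AMain_Act S γ e e') (h' : AMain_Act S γ e e'') : e' = e'' := by
  obtain ⟨c, h⟩ := h
  obtain ⟨c', h'⟩ := h'
  have ok := Ok.rch S (AMain_ok S he) h
  have ok' := Ok.rch S (AMain_ok S he) h'
  have f1 := fix_of_good ok.1
  have f2 := fix_of_good ok'.1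
  rw [MulAut.mul_apply, MulAut.conj_apply] at f1 f2
  have hc : c' * c⁻¹ * r3 = r3 * (c' * c⁻¹) := by
    have : γ r3 = c⁻¹ * r3 * c := by
      conv_rhs => rw [← f1]
      group
    rw [this] at f2
    conv_rhs => rw [← f2]
    group
  obtain ⟨k, hk⟩ := cent_r3 hc
  have h2 := rch_loop_zpow S ok k
  rw [← mul_assoc, ← map_mul, ← hk, inv_mul_cancel_right] at h2
  exact rch_unique S he (h.trans h2) h'

theorem AMain_comp {E : Type} (S : SlideSys E) {γ γ' : MulAut F} {e e' e'' : E}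
    (h : AMain_Act S γ e e') (h' : AMain_Act S γ' e' e'') : AMain_Act S (γ' * γ) e e'' := by
  obtain ⟨c, h⟩ := h
  obtain ⟨c', h'⟩ := h'
  have h2 := rch_shift S h' (MulAut.conj c * γ)
  simp only [v0, one_mul] at h2
  rw [ALoop_conj] at h2
  exact ⟨c' * γ' c, h.trans h2⟩

theorem AMain_one {E : Type} (S : SlideSys E) (e : E) : AMain_Act S 1 e e :=
  ⟨1, by rw [map_one, one_mul]; exact Relation.ReflTransGen.refl⟩

/-- Part A: a slide system gives an action of the stabiliser of the conjugacy class of `r3` on the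
fibre over the standard word; explicit slide paths compute it up to inner automorphisms. -/
theorem mainA {E : Type} (S : SlideSys E) :
    ∃ Φ : G3 →* Equiv.Perm {e : E // S.w e = w0},
      (∀ γ : G3, ∃ P ∈ S.Lam, ∀ e, ((Φ γ e : {e : E // S.w e = w0}) : E) = P e) ∧
      (∀ (γ : G3) (γ0 : MulAut F) (P : Equiv.Perm E) (c : F), Path S γ0 P w0 →
        (γ : MulAut F) = MulAut.conj c * γ0 →
        ∀ e, ((Φ γ e : {e : E // S.w e = w0}) : E) = P e) := by
  choose P hP hA using AMain_total S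
  let φ : G3 →* Function.End {e : E // S.w e = w0} :=
    { toFun := fun γ e => ⟨P γ e, AMain_w S e.2 (hA γ e e.2)⟩
      map_one' := funext fun e => Subtype.ext (AMain_fun S e.2 (hA 1 e e.2) (AMain_one S _))
      map_mul' := fun γ' γ => funext fun e => Subtype.ext (AMain_fun S e.2 (hA (γ' * γ) e e.2)
        (AMain_comp S (hA γ e e.2) (hA γ' _ (AMain_w S e.2 (hA γ e e.2))))) }
  refine ⟨φ.toHomPerm, fun γ => ⟨P γ, hP γ, fun e => rfl⟩, fun γ γ0 Q c hp hγ e => ?_⟩
  change P γ e = Q e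
  obtain ⟨d, o, h1, h2⟩ := rch_path S hp e.2
  have ok := Ok.rch S (AMain_ok S e.2) h1
  obtain ⟨d', h3⟩ := rch_to_o0 S ok (ok.2.trans h2)
  refine AMain_fun S e.2 (hA γ e e.2) ⟨d' * d * c⁻¹, ?_⟩
  have : MulAut.conj (d' * d * c⁻¹) * (γ : MulAut F) = MulAut.conj d' * (MulAut.conj d * γ0) := by
    rw [hγ, ← mul_assoc, ← map_mul, inv_mul_cancel_right, map_mul, mul_assoc]
  rw [this]
  exact h1.trans h3

end Pool.Agent.MP_61a8e3_al.G4.A

end

section

set_option autoImplicit false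

namespace Pool.Agent.MP_61a8e3_al.G4.A

theorem succL_map (π : Equiv.Perm L) (u : List L) (b : L) :
    succL (u.map π) (π b) = π (succL u b) := by
  unfold succL
  rw [idxOf_map, ← List.map_rotate, List.getD_map]

theorem idx_add {u : List L} (hu : Valid u) {a b : L} {U : List L} (h : u = a :: U) (hab : a ≠ b) :
    u.idxOf b + (u.rotate (u.idxOf b)).idxOf a = 16 := by
  obtain ⟨P, Q, h1, h2, h3, h4⟩ := rotate_idxOf (hu.2 b)
  have hl := hu.length
  rw [h4, h3]
  cases P with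
  | nil => rw [h] at h1; simp at h1; exact absurd h1.1 hab
  | cons x P =>
    rw [h] at h1
    obtain ⟨rfl, h5⟩ : a = x ∧ U = P ++ b :: Q := by simpa using h1
    have hn := hu.1
    rw [h, h5] at hn hl
    have h6 : a ∉ b :: Q := fun e => (List.nodup_cons.1 hn).1 (List.mem_append_right _ e)
    rw [List.idxOf_append_of_notMem h6]
    simp at hl ⊢
    omega

namespace Tab

variable {Xc : Type} (Tb : Tab Xc)

theorem RR_replicate (a : L) (n : ℕ) : Tb.RR (fw (List.replicate n a)) = Tb.R a ^ n := by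
  induction n with
  | zero => rfl
  | succ n ih =>
    show Tb.RR (fw (List.replicate n a)) * Tb.R a = _
    rw [ih, pow_succ]

theorem go_Nx {e : Tb.E} {a t : L} (h : Nx (Tb.wd e.1 : Cycle L) a t) :
    ∃ U, Tb.wd (Tb.go a e.1) = a :: t :: U := by
  obtain ⟨U, hU⟩ := h
  exact ⟨U, Tb.wd_go_of hU⟩

theorem nf_go_e (e : Tb.E) (a : L) : Tb.nf (Tb.go a e.1) = e := by rw [nf_go, nf_val]

theorem comm_aux (e : Tb.E) {a b t u : L} (ht : Nx (Tb.wd e.1 : Cycle L) a t)
    (hu : Nx (Tb.wd e.1 : Cycle L) b u) (h1 : a ≠ b) (h2 : t ≠ b) (h3 : t ≠ bar b) (h4 : u ≠ a)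
    (h5 : u ≠ bar a) (hi : (Tb.wd (Tb.go a e.1)).idxOf b ≤ 8) :
    Tb.R a (Tb.R b e) = Tb.R b (Tb.R a e) := by
  obtain ⟨U, hU⟩ := Tb.go_Nx ht
  have hs : succL (Tb.wd (Tb.go a e.1)) b = u :=
    succL_eq (Tb.wd_valid _) (by rw [cyc_go]; exact hu)
  have hb : b ∈ (t :: U).take 8 := by
    have hm := (Tb.wd_valid (Tb.go a e.1)).2 b
    rw [hU] at hi hm
    rw [List.idxOf_cons_ne _ h1] at hi
    have hm' : b ∈ t :: U := by simpa [Ne.symm h1] using hm
    exact (List.mem_take_iff_idxOf_lt hm').2 (by omega)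
  have := Tb.cellE (Tb.go a e.1) [b, a] [a, b] (by
    generalize Tb.go a e.1 = s at hU hs
    rw [cw_eq, hU]
    have hs' := succL_map (s.1⁻¹).1 (Tb.wd s) b
    rw [hs, hU] at hs'
    have inj := (s.1⁻¹).1.injective
    simp only [List.map_cons, List.map_nil, cells, List.mem_append, List.mem_filterMap] at hs' ⊢
    refine Or.inl (Or.inl (Or.inl ⟨(s.1⁻¹).1 b, ?_, ?_⟩))
    · rw [← List.map_cons, ← List.map_take]; exact List.mem_map_of_mem hb
    · rw [hs', ← W_bar, ← W_bar, if_pos ⟨inj.ne h2, inj.ne h3, inj.ne h4, inj.ne h5⟩])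
  rw [nf_go_e] at this
  exact this

theorem twist_aux (e : Tb.E) {a : L} {U V : List L}
    (h : (Tb.wd e.1 : Cycle L) = ↑(a :: U ++ bar a :: V)) (hi : U.length ≤ 7) :
    (Tb.R a ^ U.length) e = (Tb.R (bar a) ^ V.length) e := by
  have hw : Tb.wd (Tb.go a e.1) = a :: (U ++ bar a :: V) := Tb.wd_go_of h
  have hv := Tb.wd_valid (Tb.go a e.1)
  have hl := hv.length
  have hn := hv.1
  rw [hw] at hl hn
  have hi2 : (Tb.wd (Tb.go a e.1)).idxOf (bar a) = U.length + 1 := by
    have h6 : bar a ∉ U := by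
      intro e
      simp only [List.nodup_cons, List.nodup_append, List.mem_cons] at hn
      exact hn.2.2.2 _ e _ (Or.inl rfl) rfl
    rw [hw, List.idxOf_cons_ne _ (bar_ne a).symm, List.idxOf_append_of_notMem h6]
    simp
  have := Tb.cellE (Tb.go a e.1) (List.replicate U.length a) (List.replicate V.length (bar a)) (by
    generalize Tb.go a e.1 = s at hw hi2
    obtain ⟨a', t', U', V', hp, -, -⟩ := Tb.wd_pattern s
    have hi3 := idxOf_map (s.1⁻¹).1 (bar a) (Tb.wd s)
    rw [hi2, W_bar] at hi3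
    have ha : a' = a := by rw [hw] at hp; simp at hp; exact hp.1.symm
    subst ha
    rw [cw_eq]
    rw [hp] at hi3 ⊢
    simp only [List.cons_append, List.map_cons, cells, List.mem_append, List.map_replicate]
      at hi3 ⊢
    refine Or.inr ?_
    rw [hi3, if_pos (by omega), W_bar]
    simp at hl
    have e1 : U.length + 1 - 1 = U.length := by omega
    have e2 : 15 - (U.length + 1) = V.length := by omega
    rw [e1, e2]
    exact List.mem_singleton.2 rfl)
  rw [nf_go_e, RR_replicate, RR_replicate] at this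
  exact this

/-- The slide system of a rooted table. -/
noncomputable def sys : SlideSys Tb.E where
  w e := (Tb.wd e.1 : Cycle L)
  R := Tb.R
  rl := Tb.rl
  nodup e := (Tb.wd_valid e.1).1
  full e l := (Tb.wd_valid e.1).2 l
  nobar e a h := by
    obtain ⟨U, hU⟩ := Tb.go_Nx h
    obtain ⟨a', t', U', V', hp, -, ht⟩ := Tb.wd_pattern (Tb.go a e.1)
    rw [hU] at hp
    simp only [List.cons_append, List.cons.injEq] at hp
    exact ht (by rw [← hp.2.1, hp.1])
  w_R e a t U V h := by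
    have hw := Tb.wd_go_of h
    have hn := (Tb.wd_valid (Tb.go a e.1)).1
    rw [hw] at hn
    have h6 : bar a ∉ U := by
      intro e
      simp only [List.append_eq, List.cons_append, List.nodup_cons, List.nodup_append,
        List.mem_cons] at hn
      exact hn.2.2.2.2 _ e _ (Or.inl rfl) rfl
    show (Tb.wd (Tb.nf (Tb.T' (Tb.go a e.1))).1 : Cycle L) = _
    rw [cyc_nf, wd_T', hw]
    exact congrArg _ (slide_eq h6)
  w_rl π e := by
    show (Tb.wd (Tb.nf (lw π e.1)).1 : Cycle L) = _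
    rw [cyc_nf, wd_lw]; rfl
  rl_R π a := by
    ext1 e
    show Tb.rl π (Tb.nf (Tb.T' (Tb.go a e.1))) = Tb.R (π.1 a) (Tb.nf (lw π e.1))
    rw [rl_nf, R_nf, go_lw, lw_T']
  comm e a b t u ht hu h1 h2 h3 h4 h5 := by
    by_cases hi : (Tb.wd (Tb.go a e.1)).idxOf b ≤ 8
    · exact Tb.comm_aux e ht hu h1 h2 h3 h4 h5 hi
    · refine (Tb.comm_aux e hu ht h1.symm h4 h5 h2 h3 ?_).symm
      obtain ⟨U, hU⟩ := Tb.go_Nx ht
      have := idx_add (Tb.wd_valid (Tb.go a e.1)) hU h1
      rw [← wd_go, go_go] at this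
      omega
  pent e a b u ht hu h1 := by
    obtain ⟨U, hU⟩ := Tb.go_Nx ht
    have hs : succL (Tb.wd (Tb.go a e.1)) b = u :=
      succL_eq (Tb.wd_valid _) (by rw [cyc_go]; exact hu)
    have := Tb.cellE (Tb.go a e.1) [a, a, b] [b, a] (by
      generalize Tb.go a e.1 = s at hU hs
      rw [cw_eq, hU]
      have hs' := succL_map (s.1⁻¹).1 (Tb.wd s) b
      rw [hs, hU] at hs'
      have inj := (s.1⁻¹).1.injective
      simp only [List.map_cons, List.map_nil, cells, List.mem_append] at hs' ⊢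
      refine Or.inl (Or.inl (Or.inr ?_))
      rw [hs', ← W_bar, if_pos (inj.ne h1)]
      exact List.mem_singleton.2 rfl)
    rw [nf_go_e] at this
    exact this
  pent2 e a b u ht hu h1 h2 := by
    obtain ⟨U, hU⟩ := Tb.go_Nx ht
    have hs : succL (Tb.wd (Tb.go a e.1)) b = u :=
      succL_eq (Tb.wd_valid _) (by rw [cyc_go]; exact hu)
    have := Tb.cellE (Tb.go a e.1) [b, a, a] [a, b] (by
      generalize Tb.go a e.1 = s at hU hs
      rw [cw_eq, hU]
      have hs' := succL_map (s.1⁻¹).1 (Tb.wd s) b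
      rw [hs, hU] at hs'
      have inj := (s.1⁻¹).1.injective
      simp only [List.map_cons, List.map_nil, cells, List.mem_append, W_bar, bar_bar] at hs' ⊢
      refine Or.inl (Or.inr ?_)
      rw [hs', ← W_bar, if_pos ⟨inj.ne h1, inj.ne h2⟩]
      exact List.mem_singleton.2 rfl)
    rw [nf_go_e] at this
    exact this
  tri e a b π ht hπ := by
    obtain ⟨U, hU⟩ := Tb.go_Nx ht
    have := Tb.triE (Tb.go a e.1) hU hπ
    rw [nf_go_e] at this
    exact this
  twist e a U V h := by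
    by_cases hi : U.length ≤ 7
    · exact Tb.twist_aux e h hi
    · have h' : (Tb.wd e.1 : Cycle L) = ↑(bar a :: V ++ bar (bar a) :: U) := by
        rw [h, bar_bar]; exact cyc_of_eq (a :: U) (bar a :: V) rfl rfl
      have hl : (Tb.wd e.1 : Cycle L).length = 16 := (Tb.wd_valid e.1).length
      rw [h] at hl
      simp at hl
      have := Tb.twist_aux e h' (by omega)
      rw [bar_bar] at this
      exact this.symm

/-- The fibre over the standard word. -/
def X0 : Type := {x : Xc // shape (Tb.cw x) = shape w0L}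

theorem wd_of_w0 {e : Tb.E} (h : Tb.sys.w e = w0) : Tb.wd e.1 = w0L := by
  have := Tb.wd_go_of (a := lb 3) (s := e.1) h
  rw [Tb.go_self e.2] at this
  exact this

theorem ex_lab (x : Tb.X0) : ∃ π : W, w0L = (Tb.cw x.1).map π.1 :=
  iso_of_shape (Tb.valid _) valid_w0L x.2

/-- The fibre of the slide system is the fibre of the table. -/
noncomputable def fib : {e : Tb.E // Tb.sys.w e = w0} ≃ Tb.X0 where
  toFun e := ⟨e.1.1.2, by rw [← Tb.wd_of_w0 e.2, wd, shape_map]⟩
  invFun x := ⟨⟨((Tb.ex_lab x).choose, x.1), by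
      rw [wd, ← (Tb.ex_lab x).choose_spec]; rfl⟩,
    by show (Tb.wd _ : Cycle L) = _; rw [wd, ← (Tb.ex_lab x).choose_spec]; rfl⟩
  left_inv e := by
    apply Subtype.ext; apply Subtype.ext
    refine Tb.ext' rfl ?_
    rw [Tb.wd_of_w0 e.2]
    exact (Tb.ex_lab _).choose_spec.symm
  right_inv x := rfl

/-- Elements of `Lam` act on the table coordinate through words in `T` and `ρ` that depend only on
the labelled word. -/
theorem lam_spec {P : Equiv.Perm Tb.E} (hP : P ∈ Tb.sys.Lam) (u : List L) :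
    ∃ g ∈ Subgroup.closure ({Tb.T, Tb.ρ} : Set (Equiv.Perm Xc)), ∃ u' : List L,
      ∀ e : Tb.E, Tb.wd e.1 = u → (P e).1.2 = g e.1.2 ∧ Tb.wd (P e).1 = u' := by
  have hT : Tb.T ∈ Subgroup.closure ({Tb.T, Tb.ρ} : Set (Equiv.Perm Xc)) :=
    Subgroup.subset_closure (by simp)
  have hρ : Tb.ρ ∈ Subgroup.closure ({Tb.T, Tb.ρ} : Set (Equiv.Perm Xc)) :=
    Subgroup.subset_closure (by simp)
  have key : ∀ (b : L × Bool) (u : List L),
      ∃ g ∈ Subgroup.closure ({Tb.T, Tb.ρ} : Set (Equiv.Perm Xc)), ∃ u' : List L,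
      ∀ e : Tb.E, Tb.wd e.1 = u → ((if b.2 then Tb.R b.1 else (Tb.R b.1)⁻¹) e).1.2 = g e.1.2 ∧
        Tb.wd ((if b.2 then Tb.R b.1 else (Tb.R b.1)⁻¹) e).1 = u' := by
    intro b u
    refine ⟨Tb.ρ ^ (simP u [b] (lb 3)).2 * (if b.2 then Tb.T else Tb.T⁻¹) * Tb.ρ ^ (u.idxOf b.1),
      mul_mem (mul_mem (pow_mem hρ _) (by split_ifs; exacts [hT, inv_mem hT])) (pow_mem hρ _),
      simW u [b] (lb 3), fun e he => ?_⟩
    obtain ⟨h1, h2, h3⟩ := Tb.exec_spec [b] (lb 3) e.1
    have h4 : Tb.nf (Tb.exec e.1 [b] (lb 3)) = ⟨Tb.exec e.1 [b] (lb 3), Tb.head_go _ _⟩ :=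
      Tb.nf_val ⟨_, _⟩
    rw [h4, nf_val, RR, RR, one_mul] at h3
    rw [← h3, ← he]
    exact ⟨h2, h1⟩
  have keyr : ∀ (π : W) (u : List L),
      ∃ g ∈ Subgroup.closure ({Tb.T, Tb.ρ} : Set (Equiv.Perm Xc)), ∃ u' : List L,
      ∀ e : Tb.E, Tb.wd e.1 = u → (Tb.rl π e).1.2 = g e.1.2 ∧ Tb.wd (Tb.rl π e).1 = u' := by
    intro π u
    refine ⟨Tb.ρ ^ ((u.map π.1).idxOf (lb 3)), pow_mem hρ _,
      (u.map π.1).rotate ((u.map π.1).idxOf (lb 3)), fun e he => ?_⟩
    show (Tb.go (lb 3) (lw π e.1)).2 = _ ∧ Tb.wd (Tb.go (lb 3) (lw π e.1)) = _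
    rw [wd_go, go, (Tb.ρ'_pow _ _).1, wd_lw, he]
    exact ⟨rfl, rfl⟩
  induction hP using Subgroup.closure_induction_left generalizing u with
  | one => exact ⟨1, one_mem _, u, fun e he => ⟨rfl, he⟩⟩
  | mul_left x hx y _ ih =>
    obtain ⟨g, hg, u', h⟩ := ih u
    rcases hx with ⟨a, rfl⟩ | ⟨π, rfl⟩
    · obtain ⟨g', hg', u'', h'⟩ := key (a, true) u'
      refine ⟨g' * g, mul_mem hg' hg, u'', fun e he => ?_⟩
      have := h' (y e) (h e he).2
      rw [(h e he).1] at this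
      exact this
    · obtain ⟨g', hg', u'', h'⟩ := keyr π u'
      refine ⟨g' * g, mul_mem hg' hg, u'', fun e he => ?_⟩
      have := h' (y e) (h e he).2
      rw [(h e he).1] at this
      exact this
  | inv_mul_cancel x hx y _ ih =>
    obtain ⟨g, hg, u', h⟩ := ih u
    rcases hx with ⟨a, rfl⟩ | ⟨π, rfl⟩
    · obtain ⟨g', hg', u'', h'⟩ := key (a, false) u'
      refine ⟨g' * g, mul_mem hg' hg, u'', fun e he => ?_⟩
      have := h' (y e) (h e he).2
      rw [(h e he).1] at this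
      exact this
    · obtain ⟨g', hg', u'', h'⟩ := keyr π⁻¹ u'
      refine ⟨g' * g, mul_mem hg' hg, u'', fun e he => ?_⟩
      have := h' (y e) (h e he).2
      rw [(h e he).1, map_inv] at this
      exact this

theorem path_sim (bs : List (L × Bool)) (f : L) (s : W × Xc) {γ : MulAut F}
    {P : Equiv.Perm Tb.E} (h : Path Tb.sys γ P (Tb.wd s : Cycle L)) :
    Path Tb.sys (simA (Tb.wd s) bs * γ) (Tb.RR bs * P) (simW (Tb.wd s) bs f : Cycle L) := by
  induction bs generalizing s γ P with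
  | nil =>
    rw [simA, RR, one_mul, one_mul, simW, ← wd_go, cyc_go]
    exact h
  | cons b bs ih =>
    rw [simA, RR, simW, mul_assoc, mul_assoc, ← wd_go, ← wd_TT]
    apply ih
    rw [← Tb.cyc_go b.1 s] at h
    have hh := Tb.head_go b.1 s
    generalize Tb.go b.1 s = s' at h hh ⊢
    obtain ⟨b1, b2⟩ := b
    cases b2
    · obtain ⟨a, t, U, V, hp, hn, ht⟩ := Tb.wd_pattern (Tb.T'⁻¹ s')
      have h1 := Tb.wd_T' (Tb.T'⁻¹ s')
      rw [perm_apply_inv, hp, slide_eq hn] at h1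
      obtain rfl : a = b1 := by rw [h1] at hh; simpa using hh
      have h2 : mover false (Tb.wd s') = t := by
        rw [h1, mover, if_neg (by simp), unslide_eq hn ht]; rfl
      simp only [h2, TT, Bool.false_eq_true, if_false]
      rw [hp]
      rw [h1] at h
      exact Path.bwd γ P a t U V h
    · obtain ⟨a, t, U, V, hp, hn, ht⟩ := Tb.wd_pattern s'
      obtain rfl : a = b1 := by rw [hp] at hh; simpa using hh
      have h2 : mover true (Tb.wd s') = t := by rw [hp]; rfl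
      simp only [h2, TT, if_true]
      rw [wd_T', hp, slide_eq hn]
      rw [hp] at h
      exact Path.fwd γ P a t U V h

end Tab

/-- Parts A and B together: a rooted table satisfying the cells gives an action of the stabiliser of
the conjugacy class of `r3` on the fibre over the standard word.  Every element acts through a word
in `T` and `ρ`, and an explicit sequence of signed slides realising `γ` up to a relabelling and an
inner automorphism computes the action. -/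
theorem mainAB {Xc : Type} (Tb : Tab Xc) :
    ∃ Φ : G3 →* Equiv.Perm Tb.X0,
      (∀ γ : G3, ∃ g ∈ Subgroup.closure ({Tb.T, Tb.ρ} : Set (Equiv.Perm Xc)),
        ∀ x : Tb.X0, (Φ γ x).1 = g x.1) ∧
      (∀ (γ : G3) (bs : List (L × Bool)) (f : L) (π : W) (c : F),
        (simW w0L bs f).map π.1 = w0L →
        (γ : MulAut F) = MulAut.conj c * (relA π * simA w0L bs) →
        ∀ x : Tb.X0, (Φ γ x).1 = run Tb.T Tb.ρ (simP w0L bs f).1 (simP w0L bs f).2 x.1) := by
  obtain ⟨Φ, h1, h2⟩ := mainA Tb.sys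
  refine ⟨(Tb.fib.permCongrHom : _ →* _).comp Φ, fun γ => ?_, fun γ bs f π c hw hγ x => ?_⟩
  · obtain ⟨P, hP, h⟩ := h1 γ
    obtain ⟨g, hg, u', h'⟩ := Tb.lam_spec hP w0L
    refine ⟨g, hg, fun x => ?_⟩
    show (Φ γ (Tb.fib.symm x)).1.1.2 = _
    rw [h, (h' _ (Tb.wd_of_w0 (Tb.fib.symm x).2)).1]
    rfl
  · show (Φ γ (Tb.fib.symm x)).1.1.2 = _
    have hs := Tb.wd_of_w0 (Tb.fib.symm x).2
    have hp := Tb.path_sim bs f (Tb.fib.symm x).1.1 (γ := 1) (P := 1) (by rw [hs]; exact Path.refl)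
    rw [hs, mul_one, mul_one] at hp
    have hp2 := Path.rel _ _ _ π hp
    rw [Cycle.map_coe, hw] at hp2
    rw [h2 γ _ _ c hp2 hγ]
    obtain ⟨e1, e2, e3⟩ := Tb.exec_spec bs f (Tb.fib.symm x).1.1
    rw [Tb.nf_val, hs] at *
    show (Tb.rl π (Tb.RR bs (Tb.fib.symm x).1)).1.2 = _
    rw [← e3, Tb.rl_nf]
    show (Tb.go (lb 3) (Tab.lw π _)).2 = _
    rw [Tb.go_self (by rw [Tb.wd_lw, e1, hw]; rfl)]
    exact e2

end Pool.Agent.MP_61a8e3_al.G4.A

end
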