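import Pool.Agent.Mg.F61a8e3.G86875b

section

/-! Part K: the check of the classes from 1718 to 2151. -/

set_option autoImplicit false
set_option maxRecDepth 100000

namespace Pool.Agent.MP_61a8e3_al.G4.K

theorem chk4 : Rg (cls dat) 1718 2152 := by
  have h := Rg.nil (cls dat) 1718
  replace h := Rg.step 1718 14 1732 h rfl (by decide +kernel)
  replace h := Rg.step 1732 14 1746 h rfl (by decide +kernel)
  replace h := Rg.step 1746 14 1760 h rfl (by decide +kernel)
  replace h := Rg.step 1760 14 1774 h rfl (by decide +kernel)
  replace h := Rg.step 1774 14 1788 h rfl (by decide +kernel)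
  replace h := Rg.step 1788 14 1802 h rfl (by decide +kernel)
  replace h := Rg.step 1802 14 1816 h rfl (by decide +kernel)
  replace h := Rg.step 1816 14 1830 h rfl (by decide +kernel)
  replace h := Rg.step 1830 14 1844 h rfl (by decide +kernel)
  replace h := Rg.step 1844 14 1858 h rfl (by decide +kernel)
  replace h := Rg.step 1858 14 1872 h rfl (by decide +kernel)
  replace h := Rg.step 1872 14 1886 h rfl (by decide +kernel)
  replace h := Rg.step 1886 14 1900 h rfl (by decide +kernel)
  replace h := Rg.step 1900 14 1914 h rfl (by decide +kernel)
  replace h := Rg.step 1914 14 1928 h rfl (by decide +kernel)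
  replace h := Rg.step 1928 14 1942 h rfl (by decide +kernel)
  replace h := Rg.step 1942 14 1956 h rfl (by decide +kernel)
  replace h := Rg.step 1956 14 1970 h rfl (by decide +kernel)
  replace h := Rg.step 1970 14 1984 h rfl (by decide +kernel)
  replace h := Rg.step 1984 14 1998 h rfl (by decide +kernel)
  replace h := Rg.step 1998 14 2012 h rfl (by decide +kernel)
  replace h := Rg.step 2012 14 2026 h rfl (by decide +kernel)
  replace h := Rg.step 2026 14 2040 h rfl (by decide +kernel)
  replace h := Rg.step 2040 14 2054 h rfl (by decide +kernel)
  replace h := Rg.step 2054 14 2068 h rfl (by decide +kernel)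
  replace h := Rg.step 2068 14 2082 h rfl (by decide +kernel)
  replace h := Rg.step 2082 14 2096 h rfl (by decide +kernel)
  replace h := Rg.step 2096 14 2110 h rfl (by decide +kernel)
  replace h := Rg.step 2110 14 2124 h rfl (by decide +kernel)
  replace h := Rg.step 2124 14 2138 h rfl (by decide +kernel)
  replace h := Rg.step 2138 14 2152 h rfl (by decide +kernel)
  exact h

end Pool.Agent.MP_61a8e3_al.G4.K

end

section

/-! Part K: the check of the classes from 11910 to 12357. -/

set_option autoImplicit false
set_option maxRecDepth 100000

namespace Pool.Agent.MP_61a8e3_al.G4.K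

theorem chk27 : Rg (cls dat) 11910 12358 := by
  have h := Rg.nil (cls dat) 11910
  replace h := Rg.step 11910 14 11924 h rfl (by decide +kernel)
  replace h := Rg.step 11924 14 11938 h rfl (by decide +kernel)
  replace h := Rg.step 11938 14 11952 h rfl (by decide +kernel)
  replace h := Rg.step 11952 14 11966 h rfl (by decide +kernel)
  replace h := Rg.step 11966 14 11980 h rfl (by decide +kernel)
  replace h := Rg.step 11980 14 11994 h rfl (by decide +kernel)
  replace h := Rg.step 11994 14 12008 h rfl (by decide +kernel)
  replace h := Rg.step 12008 14 12022 h rfl (by decide +kernel)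
  replace h := Rg.step 12022 14 12036 h rfl (by decide +kernel)
  replace h := Rg.step 12036 14 12050 h rfl (by decide +kernel)
  replace h := Rg.step 12050 14 12064 h rfl (by decide +kernel)
  replace h := Rg.step 12064 14 12078 h rfl (by decide +kernel)
  replace h := Rg.step 12078 14 12092 h rfl (by decide +kernel)
  replace h := Rg.step 12092 14 12106 h rfl (by decide +kernel)
  replace h := Rg.step 12106 14 12120 h rfl (by decide +kernel)
  replace h := Rg.step 12120 14 12134 h rfl (by decide +kernel)
  replace h := Rg.step 12134 14 12148 h rfl (by decide +kernel)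
  replace h := Rg.step 12148 14 12162 h rfl (by decide +kernel)
  replace h := Rg.step 12162 14 12176 h rfl (by decide +kernel)
  replace h := Rg.step 12176 14 12190 h rfl (by decide +kernel)
  replace h := Rg.step 12190 14 12204 h rfl (by decide +kernel)
  replace h := Rg.step 12204 14 12218 h rfl (by decide +kernel)
  replace h := Rg.step 12218 14 12232 h rfl (by decide +kernel)
  replace h := Rg.step 12232 14 12246 h rfl (by decide +kernel)
  replace h := Rg.step 12246 14 12260 h rfl (by decide +kernel)
  replace h := Rg.step 12260 14 12274 h rfl (by decide +kernel)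
  replace h := Rg.step 12274 14 12288 h rfl (by decide +kernel)
  replace h := Rg.step 12288 14 12302 h rfl (by decide +kernel)
  replace h := Rg.step 12302 14 12316 h rfl (by decide +kernel)
  replace h := Rg.step 12316 14 12330 h rfl (by decide +kernel)
  replace h := Rg.step 12330 14 12344 h rfl (by decide +kernel)
  replace h := Rg.step 12344 14 12358 h rfl (by decide +kernel)
  exact h

end Pool.Agent.MP_61a8e3_al.G4.K

end
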