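import Pool.Agent.Mg.F61a8e3.G86875b

/-! Part K: the check of the classes from 10132 to 10579. -/

set_option autoImplicit false
set_option maxRecDepth 100000

namespace Pool.Agent.MP_61a8e3_al.G4.K

theorem chk23 : Rg (cls dat) 10132 10580 := by
  have h := Rg.nil (cls dat) 10132
  replace h := Rg.step 10132 14 10146 h rfl (by decide +kernel)
  replace h := Rg.step 10146 14 10160 h rfl (by decide +kernel)
  replace h := Rg.step 10160 14 10174 h rfl (by decide +kernel)
  replace h := Rg.step 10174 14 10188 h rfl (by decide +kernel)
  replace h := Rg.step 10188 14 10202 h rfl (by decide +kernel)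
  replace h := Rg.step 10202 14 10216 h rfl (by decide +kernel)
  replace h := Rg.step 10216 14 10230 h rfl (by decide +kernel)
  replace h := Rg.step 10230 14 10244 h rfl (by decide +kernel)
  replace h := Rg.step 10244 14 10258 h rfl (by decide +kernel)
  replace h := Rg.step 10258 14 10272 h rfl (by decide +kernel)
  replace h := Rg.step 10272 14 10286 h rfl (by decide +kernel)
  replace h := Rg.step 10286 14 10300 h rfl (by decide +kernel)
  replace h := Rg.step 10300 14 10314 h rfl (by decide +kernel)
  replace h := Rg.step 10314 14 10328 h rfl (by decide +kernel)
  replace h := Rg.step 10328 14 10342 h rfl (by decide +kernel)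
  replace h := Rg.step 10342 14 10356 h rfl (by decide +kernel)
  replace h := Rg.step 10356 14 10370 h rfl (by decide +kernel)
  replace h := Rg.step 10370 14 10384 h rfl (by decide +kernel)
  replace h := Rg.step 10384 14 10398 h rfl (by decide +kernel)
  replace h := Rg.step 10398 14 10412 h rfl (by decide +kernel)
  replace h := Rg.step 10412 14 10426 h rfl (by decide +kernel)
  replace h := Rg.step 10426 14 10440 h rfl (by decide +kernel)
  replace h := Rg.step 10440 14 10454 h rfl (by decide +kernel)
  replace h := Rg.step 10454 14 10468 h rfl (by decide +kernel)
  replace h := Rg.step 10468 14 10482 h rfl (by decide +kernel)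
  replace h := Rg.step 10482 14 10496 h rfl (by decide +kernel)
  replace h := Rg.step 10496 14 10510 h rfl (by decide +kernel)
  replace h := Rg.step 10510 14 10524 h rfl (by decide +kernel)
  replace h := Rg.step 10524 14 10538 h rfl (by decide +kernel)
  replace h := Rg.step 10538 14 10552 h rfl (by decide +kernel)
  replace h := Rg.step 10552 14 10566 h rfl (by decide +kernel)
  replace h := Rg.step 10566 14 10580 h rfl (by decide +kernel)
  exact h

end Pool.Agent.MP_61a8e3_al.G4.K
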