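import Pool.Agent.Mg.F61a8e3.G86875b

/-! Part K: the check of the classes from 9250 to 9697. -/

set_option autoImplicit false
set_option maxRecDepth 100000

namespace Pool.Agent.MP_61a8e3_al.G4.K

theorem chk21 : Rg (cls dat) 9250 9698 := by
  have h := Rg.nil (cls dat) 9250
  replace h := Rg.step 9250 14 9264 h rfl (by decide +kernel)
  replace h := Rg.step 9264 14 9278 h rfl (by decide +kernel)
  replace h := Rg.step 9278 14 9292 h rfl (by decide +kernel)
  replace h := Rg.step 9292 14 9306 h rfl (by decide +kernel)
  replace h := Rg.step 9306 14 9320 h rfl (by decide +kernel)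
  replace h := Rg.step 9320 14 9334 h rfl (by decide +kernel)
  replace h := Rg.step 9334 14 9348 h rfl (by decide +kernel)
  replace h := Rg.step 9348 14 9362 h rfl (by decide +kernel)
  replace h := Rg.step 9362 14 9376 h rfl (by decide +kernel)
  replace h := Rg.step 9376 14 9390 h rfl (by decide +kernel)
  replace h := Rg.step 9390 14 9404 h rfl (by decide +kernel)
  replace h := Rg.step 9404 14 9418 h rfl (by decide +kernel)
  replace h := Rg.step 9418 14 9432 h rfl (by decide +kernel)
  replace h := Rg.step 9432 14 9446 h rfl (by decide +kernel)
  replace h := Rg.step 9446 14 9460 h rfl (by decide +kernel)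
  replace h := Rg.step 9460 14 9474 h rfl (by decide +kernel)
  replace h := Rg.step 9474 14 9488 h rfl (by decide +kernel)
  replace h := Rg.step 9488 14 9502 h rfl (by decide +kernel)
  replace h := Rg.step 9502 14 9516 h rfl (by decide +kernel)
  replace h := Rg.step 9516 14 9530 h rfl (by decide +kernel)
  replace h := Rg.step 9530 14 9544 h rfl (by decide +kernel)
  replace h := Rg.step 9544 14 9558 h rfl (by decide +kernel)
  replace h := Rg.step 9558 14 9572 h rfl (by decide +kernel)
  replace h := Rg.step 9572 14 9586 h rfl (by decide +kernel)
  replace h := Rg.step 9586 14 9600 h rfl (by decide +kernel)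
  replace h := Rg.step 9600 14 9614 h rfl (by decide +kernel)
  replace h := Rg.step 9614 14 9628 h rfl (by decide +kernel)
  replace h := Rg.step 9628 14 9642 h rfl (by decide +kernel)
  replace h := Rg.step 9642 14 9656 h rfl (by decide +kernel)
  replace h := Rg.step 9656 14 9670 h rfl (by decide +kernel)
  replace h := Rg.step 9670 14 9684 h rfl (by decide +kernel)
  replace h := Rg.step 9684 14 9698 h rfl (by decide +kernel)
  exact h

end Pool.Agent.MP_61a8e3_al.G4.K
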