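import Pool.Agent.Mg.F61a8e3.G86875b
import Mathlib

section

/-! Part K: the check of the classes from 7038 to 7471. -/

set_option autoImplicit false
set_option maxRecDepth 100000

namespace Pool.Agent.MP_61a8e3_al.G4.K

theorem chk16 : Rg (cls dat) 7038 7472 := by
  have h := Rg.nil (cls dat) 7038
  replace h := Rg.step 7038 14 7052 h rfl (by decide +kernel)
  replace h := Rg.step 7052 14 7066 h rfl (by decide +kernel)
  replace h := Rg.step 7066 14 7080 h rfl (by decide +kernel)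
  replace h := Rg.step 7080 14 7094 h rfl (by decide +kernel)
  replace h := Rg.step 7094 14 7108 h rfl (by decide +kernel)
  replace h := Rg.step 7108 14 7122 h rfl (by decide +kernel)
  replace h := Rg.step 7122 14 7136 h rfl (by decide +kernel)
  replace h := Rg.step 7136 14 7150 h rfl (by decide +kernel)
  replace h := Rg.step 7150 14 7164 h rfl (by decide +kernel)
  replace h := Rg.step 7164 14 7178 h rfl (by decide +kernel)
  replace h := Rg.step 7178 14 7192 h rfl (by decide +kernel)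
  replace h := Rg.step 7192 14 7206 h rfl (by decide +kernel)
  replace h := Rg.step 7206 14 7220 h rfl (by decide +kernel)
  replace h := Rg.step 7220 14 7234 h rfl (by decide +kernel)
  replace h := Rg.step 7234 14 7248 h rfl (by decide +kernel)
  replace h := Rg.step 7248 14 7262 h rfl (by decide +kernel)
  replace h := Rg.step 7262 14 7276 h rfl (by decide +kernel)
  replace h := Rg.step 7276 14 7290 h rfl (by decide +kernel)
  replace h := Rg.step 7290 14 7304 h rfl (by decide +kernel)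
  replace h := Rg.step 7304 14 7318 h rfl (by decide +kernel)
  replace h := Rg.step 7318 14 7332 h rfl (by decide +kernel)
  replace h := Rg.step 7332 14 7346 h rfl (by decide +kernel)
  replace h := Rg.step 7346 14 7360 h rfl (by decide +kernel)
  replace h := Rg.step 7360 14 7374 h rfl (by decide +kernel)
  replace h := Rg.step 7374 14 7388 h rfl (by decide +kernel)
  replace h := Rg.step 7388 14 7402 h rfl (by decide +kernel)
  replace h := Rg.step 7402 14 7416 h rfl (by decide +kernel)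
  replace h := Rg.step 7416 14 7430 h rfl (by decide +kernel)
  replace h := Rg.step 7430 14 7444 h rfl (by decide +kernel)
  replace h := Rg.step 7444 14 7458 h rfl (by decide +kernel)
  replace h := Rg.step 7458 14 7472 h rfl (by decide +kernel)
  exact h

end Pool.Agent.MP_61a8e3_al.G4.K

end

section

/-! The Heisenberg group and criteria for membership in `NN`. -/

set_option autoImplicit false

namespace Pool.Agent.MP_61a8e3_al.G4.C

theorem CHei_dot_left (a : I) : dot 0 a = 0 := by simp [dot]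

theorem CHei_dot_right (a : I) : dot a 0 = 0 := by simp [dot]

theorem CHei_cases : ∀ m : ZMod 3, m = 0 ∨ m = 1 ∨ m = 1 + 1 := by decide

theorem CHei_ch {t : ZMod 3} (h : ch t = 1) : t = 0 := by
  have h1 : ch 1 = om := by simpa using ch_natCast 1
  rcases CHei_cases t with rfl | rfl | rfl
  · rfl
  · exact absurd (h1 ▸ h) om_ne_one
  · rw [ch_add, h1] at h
    exact absurd (by linear_combination om_cube - om * h) om_ne_one

theorem CHei_ind {P : I → Prop} (h0 : P 0) (h1 : ∀ a b, P a → P b → P (a + b))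
    (h2 : ∀ j, P (Pi.single j 1)) (a : I) : P a := by
  refine Pi.single_induction P a h0 h1 fun j m => ?_
  rcases CHei_cases m with rfl | rfl | rfl
  · rwa [Pi.single_zero]
  · exact h2 j
  · rw [Pi.single_add]
    exact h1 _ _ (h2 j) (h2 j)

theorem CHei_scal (c : ZMod 3) (v : V) : hei c 0 0 v = ch c • v := by
  funext y
  simp [hei_apply, CHei_dot_left]

theorem hei_mul (c c' : ZMod 3) (a b a' b' : I) :
    hei c a b * hei c' a' b' = hei (c + c' + dot b' a) (a + a') (b + b') := by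
  ext v y
  have e : c + c' + dot b' a + dot (b + b') y = c + dot b y + (c' + dot b' (y + a)) := by
    simp only [dot, Pi.add_apply, add_mul, mul_add, Finset.sum_add_distrib]
    ring
  rw [LinearEquiv.mul_apply, hei_apply, hei_apply, hei_apply, e, ch_add (c + dot b y), add_assoc,
    mul_assoc]

theorem hei_zero : hei 0 0 0 = 1 := by
  ext v y
  simp [CHei_scal, ch_zero]

theorem HH_finite : HH.Finite := by
  refine (Set.finite_range fun t : ZMod 3 × I × I => hei t.1 t.2.1 t.2.2).subset ?_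
  rintro _ ⟨c, a, b, rfl⟩
  exact ⟨(c, a, b), rfl⟩

/-- It suffices to conjugate in one direction. -/
theorem mem_normalizer_of {U : GV} (h : ∀ c a b, ∃ c' a' b', U * hei c a b = hei c' a' b' * U) :
    U ∈ Subgroup.normalizer HH := by
  have := HH_finite.to_subtype
  refine Subgroup.mem_normalizer_fintype ?_
  rintro _ ⟨c, a, b, rfl⟩
  obtain ⟨c', a', b', e⟩ := h c a b
  exact ⟨c', a', b', by rw [e, mul_inv_cancel_right]⟩

/-- It suffices to treat the generators. -/
theorem mem_normalizer_of_gen {U : GV}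
    (hX : ∀ j : Fin 4, ∃ c' a' b', U * hei 0 (Pi.single j 1) 0 = hei c' a' b' * U)
    (hZ : ∀ j : Fin 4, ∃ c' a' b', U * hei 0 0 (Pi.single j 1) = hei c' a' b' * U) :
    U ∈ Subgroup.normalizer HH := by
  let P : GV → Prop := fun h => ∃ c' a' b', U * h = hei c' a' b' * U
  have mul : ∀ g h, P g → P h → P (g * h) := by
    rintro g h ⟨c, a, b, e⟩ ⟨c', a', b', e'⟩
    exact ⟨_, _, _, by rw [← mul_assoc, e, mul_assoc, e', ← mul_assoc, hei_mul]⟩
  have sc : ∀ c, P (hei c 0 0) := fun c => ⟨c, 0, 0, LinearEquiv.ext fun v => by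
    simp only [LinearEquiv.mul_apply, CHei_scal, map_smul]⟩
  have h1 := CHei_ind (P := fun a => P (hei 0 a 0)) (sc 0) (fun a b ha hb => by
    simpa [hei_mul, CHei_dot_left] using mul _ _ ha hb) hX
  have h2 := CHei_ind (P := fun a => P (hei 0 0 a)) (sc 0) (fun a b ha hb => by
    simpa [hei_mul, CHei_dot_right] using mul _ _ ha hb) hZ
  refine mem_normalizer_of fun c a b => ?_
  simpa [hei_mul, CHei_dot_left, CHei_dot_right] using mul _ _ (sc c) (mul _ _ (h2 b) (h1 a))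

theorem det_of_pow {U : GV} (h : U ^ 6 = 1) : LinearEquiv.det U ^ 6 = 1 := by
  rw [← map_pow, h, map_one]

theorem IsLin.comp {f g : V → V} (hf : IsLin f) (hg : IsLin g) : IsLin (fun v => f (g v)) := by
  obtain ⟨U, hU, e⟩ := hf
  obtain ⟨U', hU', e'⟩ := hg
  exact ⟨U * U', mul_mem hU hU', fun v => by simp only [e, e', LinearEquiv.mul_apply]⟩

theorem isLin_id : IsLin (fun v => v) := by
  exact ⟨1, one_mem _, fun _ => rfl⟩

/-- Sixth roots of unity. -/
theorem isLin_smul {z : ℂ} (hz : z ^ 6 = 1) : IsLin (fun v => z • v) := by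
  have h0 : z ≠ 0 := fun h => by simp [h] at hz
  have e : ∀ v, LinearEquiv.smulOfNeZero ℂ V z h0 v = z • v := fun _ => rfl
  refine ⟨LinearEquiv.smulOfNeZero ℂ V z h0, ⟨mem_normalizer_of fun c a b =>
    ⟨c, a, b, LinearEquiv.ext fun v => ?_⟩, det_of_pow (LinearEquiv.ext fun v => ?_)⟩,
    fun _ => rfl⟩
  · simp only [LinearEquiv.mul_apply, e, map_smul]
  · simp only [pow_succ, pow_zero, one_mul, LinearEquiv.mul_apply, e, smul_smul]
    rw [show z * (z * (z * (z * (z * z)))) = 1 by linear_combination hz, one_smul]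
    rfl

/-- An element commuting with the Heisenberg group is a scalar. -/
theorem scalar_of_comm {U : GV} (h : ∀ c a b, U * hei c a b = hei c a b * U) :
    ∃ z : ℂ, ∀ v, U v = z • v := by
  have h1 : ∀ b, hei 0 0 b (Pi.single 0 1) = Pi.single 0 1 := fun b => by
    funext y
    rw [hei_apply, add_zero, zero_add]
    by_cases hy : y = 0
    · rw [hy, CHei_dot_right, ch_zero, one_mul]
    · rw [Pi.single_eq_of_ne hy, mul_zero]
  have h2 : U (Pi.single 0 1) = U (Pi.single 0 1) 0 • Pi.single 0 1 := by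
    funext y
    by_cases hy : y = 0
    · simp [hy]
    · rw [Pi.smul_apply, Pi.single_eq_of_ne hy, smul_zero]
      by_contra h0
      refine hy (funext fun j => CHei_ch ?_)
      have h3 := congrFun (LinearEquiv.congr_fun (h 0 0 (Pi.single j 1)) (Pi.single 0 1)) y
      rw [LinearEquiv.mul_apply, LinearEquiv.mul_apply, h1, hei_apply, add_zero, zero_add] at h3
      have h4 : dot (Pi.single j 1) y = y j := by simp [dot, Pi.single_apply]
      rw [h4] at h3
      exact mul_right_cancel₀ h0 (by rw [one_mul]; exact h3.symm)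
  have h3 : ∀ x : I, (Pi.single x 1 : V) = hei 0 (-x) 0 (Pi.single 0 1) := fun x => by
    funext y
    simp [hei_apply, CHei_dot_left, ch_zero, Pi.single_apply, add_neg_eq_zero]
  generalize U (Pi.single 0 1) 0 = z at h2
  have h4 : ∀ x : I, U (Pi.single x 1) = z • Pi.single x 1 := fun x => by
    rw [h3, ← LinearEquiv.mul_apply, h, LinearEquiv.mul_apply, h2, map_smul]
  refine ⟨z, fun v => Pi.single_induction (fun v => U v = z • v) v (by simp)
    (fun f g hf hg => by rw [map_add, hf, hg, smul_add]) fun x m => ?_⟩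
  have h5 : (Pi.single x m : V) = m • Pi.single x 1 := by
    rw [← Pi.single_smul', smul_eq_mul, mul_one]
  rw [h5, map_smul, h4, smul_comm]

theorem NN_finite : (NN : Set GV).Finite := by
  refine Set.Finite.of_finite_fibers
    (fun (U : GV) (t : ZMod 3 × I × I) => U * hei t.1 t.2.1 t.2.2 * U⁻¹) ?_ ?_
  · refine (Set.Finite.pi' fun _ => HH_finite).subset ?_
    rintro _ ⟨U, hU, rfl⟩ t
    exact (hU.1 _).1 ⟨_, _, _, rfl⟩
  · rintro _ ⟨U, hU, rfl⟩
    have hS : {z : ℂ | z ^ (Module.finrank ℂ V * 6) = 1}.Finite := by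
      refine (Polynomial.nthRoots (Module.finrank ℂ V * 6) (1 : ℂ)).finite_toSet.subset
        fun z hz => ?_
      exact (Polynomial.mem_nthRoots (Nat.mul_pos Module.finrank_pos (by norm_num))).2 hz
    refine (hS.biUnion (t := fun z => {W : GV | ∀ v, W v = z • U v}) fun z _ =>
      Set.Subsingleton.finite fun W h W' h' =>
        LinearEquiv.ext fun v => (h v).trans (h' v).symm).subset ?_
    rintro W ⟨hW, e⟩
    obtain ⟨z, hz⟩ := scalar_of_comm (U := U⁻¹ * W) fun c a b => by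
      have h1 : W * hei c a b * W⁻¹ = U * hei c a b * U⁻¹ := congrFun e (c, a, b)
      rw [mul_assoc, ← inv_mul_cancel_right (W * hei c a b) W, h1]
      group
    have h2 : LinearEquiv.det (U⁻¹ * W) ^ 6 = 1 := (mul_mem (inv_mem hU) hW : U⁻¹ * W ∈ NN).2
    have h3 : ((U⁻¹ * W : GV) : V →ₗ[ℂ] V) = z • LinearMap.id := LinearMap.ext hz
    have h4 := congrArg Units.val h2
    rw [Units.val_pow_eq_pow_val, LinearEquiv.coe_det, h3, LinearMap.det_smul, LinearMap.det_id,
      mul_one, ← pow_mul, Units.val_one] at h4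
    refine Set.mem_biUnion h4 fun v => ?_
    rw [← map_smul, ← hz, ← LinearEquiv.mul_apply, mul_inv_cancel_left]

end Pool.Agent.MP_61a8e3_al.G4.C

end

section

/-! Rigidity: affine maps with linear part in `NN` are determined by three values. -/

set_option autoImplicit false

namespace Pool.Agent.MP_61a8e3_al.G4.C

theorem CRig_hei_single (c : ZMod 3) (a b x : I) :
    hei c a b (Pi.single x 1) = ch (c + dot b (x - a)) • (Pi.single (x - a) 1 : V) := by
  funext y
  rw [hei_apply, Pi.smul_apply, smul_eq_mul]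
  by_cases h : y = x - a
  · subst h
    simp
  · have h' : y + a ≠ x := fun e => h (by rw [← e]; simp)
    rw [Pi.single_eq_of_ne h, Pi.single_eq_of_ne h']
    simp

theorem CRig_shift (x y : I) :
    hei 0 (-x) 0 (Pi.single y 1) = (Pi.single (x + y) 1 : V) := by
  rw [CRig_hei_single]
  have h1 : dot 0 (y - -x) = 0 := by simp [dot]
  have h2 : y - -x = x + y := by rw [sub_neg_eq_add, add_comm]
  rw [h1, add_zero, ch_zero, one_smul, h2]

theorem CRig_conj {U : GV} (hU : U ∈ NN) (x : I) :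
    ∃ c a b, ∀ v, U (hei 0 (-x) 0 v) = hei c a b (U v) := by
  have h := (Subgroup.mem_set_normalizer_iff.1 hU.1 (hei 0 (-x) 0)).1 ⟨0, -x, 0, rfl⟩
  obtain ⟨c, a, b, h⟩ := h
  refine ⟨c, a, b, fun v => ?_⟩
  have h2 : U * hei 0 (-x) 0 = hei c a b * U := by
    rw [← h]; simp
  have h3 := congrArg (fun W : GV => W v) h2
  simpa using h3

theorem CRig_sum (v : V) : v = ∑ x, v x • (Pi.single x 1 : V) := by
  funext y
  simp [Finset.sum_apply, Pi.single_apply]

theorem CRig_ch (t : ZMod 3) (h : (ch t).im = 0) : ch t = 1 := by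
  have h3 : Real.sqrt 3 ≠ 0 := by positivity
  have ht : t = 0 ∨ t = 1 ∨ t = 2 := by clear h; revert t; decide
  rcases ht with rfl | rfl | rfl
  · exact ch_zero
  · have e : ch 1 = om := by
      have := ch_natCast 1
      simpa using this
    rw [e] at h
    simp [om] at h
  · have e : ch 2 = -1 - om := by
      have := ch_natCast 2
      rw [om_sq] at this
      simpa using this
    rw [e] at h
    simp [om] at h

theorem CRig_xi_nat (y : I) : ∃ n : ℕ, 0 < n ∧ xi y = n := by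
  unfold xi
  split_ifs
  · exact ⟨2, by norm_num, by norm_num⟩
  · exact ⟨3, by norm_num, by norm_num⟩
  · exact ⟨4, by norm_num, by norm_num⟩
  · exact ⟨5, by norm_num, by norm_num⟩
  · exact ⟨1, by norm_num, by norm_num⟩

theorem CRig_xi_single (j : Fin 4) : xi (Pi.single j 1) = ((j.val + 2 : ℕ) : ℂ) := by
  have h10 : (Pi.single 1 1 : I) ≠ Pi.single 0 1 := by decide
  have h20 : (Pi.single 2 1 : I) ≠ Pi.single 0 1 := by decide
  have h30 : (Pi.single 3 1 : I) ≠ Pi.single 0 1 := by decide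
  have h21 : (Pi.single 2 1 : I) ≠ Pi.single 1 1 := by decide
  have h31 : (Pi.single 3 1 : I) ≠ Pi.single 1 1 := by decide
  have h32 : (Pi.single 3 1 : I) ≠ Pi.single 2 1 := by decide
  have hj : j = 0 ∨ j = 1 ∨ j = 2 ∨ j = 3 := by revert j; decide
  rcases hj with rfl | rfl | rfl | rfl
  · rw [xi, if_pos rfl]; norm_num
  · rw [xi, if_neg h10, if_pos rfl]; norm_num
  · rw [xi, if_neg h20, if_neg h21, if_pos rfl]; norm_num
  · rw [xi, if_neg h30, if_neg h31, if_neg h32, if_pos rfl]; norm_num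

theorem CRig_xi_inj (j : Fin 4) (y : I) (h : xi y = xi (Pi.single j 1)) :
    y = Pi.single j 1 := by
  have key : ∀ k : Fin 4, y = Pi.single k 1 → y = Pi.single j 1 := by
    intro k hk
    rw [hk, CRig_xi_single, CRig_xi_single] at h
    have h2 : k.val + 2 = j.val + 2 := by exact_mod_cast h
    have h3 : k = j := Fin.ext (by omega)
    rw [hk, h3]
  by_cases h0 : y = Pi.single 0 1
  · exact key 0 h0
  by_cases h1 : y = Pi.single 1 1
  · exact key 1 h1
  by_cases h2 : y = Pi.single 2 1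
  · exact key 2 h2
  by_cases h3 : y = Pi.single 3 1
  · exact key 3 h3
  rw [CRig_xi_single, xi, if_neg h0, if_neg h1, if_neg h2, if_neg h3] at h
  have h4 : 1 = j.val + 2 := by exact_mod_cast h
  omega

theorem CRig_single_mem (x : I) : (Pi.single x 1 : V) ∈ MM :=
  AddSubgroup.subset_closure ⟨1, one_mem _, x, rfl⟩

theorem rigid_lin {U : GV} (hU : U ∈ NN) (h0 : U (Pi.single 0 1) = Pi.single 0 1)
    (h1 : U xi = xi) : U = 1 := by
  choose c a b hc using CRig_conj hU
  have hs : ∀ x, U (Pi.single x 1) =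
      ch (c x + dot (b x) (0 - a x)) • (Pi.single (0 - a x) 1 : V) := by
    intro x
    have h := hc x (Pi.single 0 1)
    rw [CRig_shift, add_zero, h0, CRig_hei_single] at h
    exact h
  set g : I → ZMod 3 := fun x => c x + dot (b x) (0 - a x) with hg
  set al : I → I := fun x => 0 - a x with hal
  have hs' : ∀ x, U (Pi.single x 1) = ch (g x) • (Pi.single (al x) 1 : V) := hs
  have hadd : ∀ x y, al (x + y) = al x + al y := by
    intro x y
    have h := hc x (Pi.single y 1)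
    rw [CRig_shift, hs', hs', map_smul, CRig_hei_single] at h
    have h2 := congrFun h (al (x + y))
    by_contra hne
    have hne' : al (x + y) ≠ al y - a x := by
      intro e
      apply hne
      rw [e]
      simp only [hal]
      abel
    simp only [Pi.smul_apply, Pi.single_eq_same, Pi.single_eq_of_ne hne', smul_eq_mul, mul_one,
      mul_zero] at h2
    exact ch_ne_zero _ h2
  have hinj : Function.Injective al := by
    intro x y hxy
    have h : U (ch (g y) • Pi.single x 1) = U (ch (g x) • Pi.single y 1) := by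
      rw [map_smul, map_smul, hs', hs', hxy, smul_comm]
    have h2 := congrFun (U.injective h) x
    by_contra hne
    simp only [Pi.smul_apply, Pi.single_eq_same, Pi.single_eq_of_ne hne, smul_eq_mul, mul_one,
      mul_zero] at h2
    exact ch_ne_zero _ h2
  have hxi : ∀ x, xi (al x) = xi x * ch (g x) := by
    intro x
    have h : U xi = ∑ y, xi y • (ch (g y) • (Pi.single (al y) 1 : V)) := by
      conv_lhs => rw [CRig_sum xi]
      rw [map_sum]
      refine Finset.sum_congr rfl fun y _ => ?_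
      rw [map_smul, hs']
    rw [h1] at h
    have h2 := congrFun h (al x)
    rw [h2, Finset.sum_apply, Finset.sum_eq_single x]
    · simp
    · intro y _ hy
      have hne : al x ≠ al y := fun e => hy (hinj e).symm
      simp [Pi.single_eq_of_ne hne]
    · intro hx
      exact absurd (Finset.mem_univ x) hx
  have hch : ∀ x, ch (g x) = 1 := by
    intro x
    apply CRig_ch
    obtain ⟨n, hn, e⟩ := CRig_xi_nat x
    obtain ⟨m, _, e'⟩ := CRig_xi_nat (al x)
    have h := congrArg Complex.im (hxi x)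
    rw [e, e'] at h
    have hn' : (n : ℝ) ≠ 0 := by exact_mod_cast hn.ne'
    simpa [hn'] using h
  have hfix : ∀ j : Fin 4, al (Pi.single j 1) = Pi.single j 1 := by
    intro j
    apply CRig_xi_inj
    rw [hxi, hch, mul_one]
  have hid : ∀ x, al x = x := by
    intro x
    let f : I →+ I := AddMonoidHom.mk' al hadd
    have hx : x = ∑ j, (x j).val • (Pi.single j 1 : I) := by
      funext k
      rw [Finset.sum_apply, Finset.sum_eq_single k]
      · rw [Pi.smul_apply, Pi.single_eq_same, nsmul_eq_mul, mul_one, ZMod.natCast_zmod_val]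
      · intro j _ hj
        rw [Pi.smul_apply, Pi.single_eq_of_ne hj.symm, smul_zero]
      · intro hk
        exact absurd (Finset.mem_univ k) hk
    have h : f x = ∑ j, (x j).val • (Pi.single j 1 : I) := by
      conv_lhs => rw [hx]
      rw [map_sum]
      refine Finset.sum_congr rfl fun j _ => ?_
      rw [map_nsmul]
      exact congrArg _ (hfix j)
    rw [← hx] at h
    exact h
  apply LinearEquiv.ext
  intro v
  conv_lhs => rw [CRig_sum v]
  rw [map_sum]
  have h : ∀ x, U (v x • (Pi.single x 1 : V)) = v x • (Pi.single x 1 : V) := by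
    intro x
    rw [map_smul, hs', hch, hid, one_smul]
  rw [Finset.sum_congr rfl fun x _ => h x, ← CRig_sum v]
  rfl

theorem IsAf.ext {g g' : V → V} (hg : IsAf g) (hg' : IsAf g')
    (h : ∀ m < 3, g (pt m) = g' (pt m)) : g = g' := by
  obtain ⟨U, hU, b, _, e⟩ := hg
  obtain ⟨U', hU', b', _, e'⟩ := hg'
  have h0 := h 0 (by norm_num)
  have h1 := h 1 (by norm_num)
  have h2 := h 2 (by norm_num)
  have p0 : pt 0 = 0 := by simp [pt]
  have p1 : pt 1 = (9 : ℂ) • Pi.single 0 1 := by simp [pt]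
  have p2 : pt 2 = (9 : ℂ) • xi := by simp [pt]
  rw [e, e', p0, map_zero, map_zero, zero_add, zero_add] at h0
  subst h0
  rw [e, e', p1, add_left_inj, map_smul, map_smul] at h1
  rw [e, e', p2, add_left_inj, map_smul, map_smul] at h2
  have h9 : (9 : ℂ) ≠ 0 := by norm_num
  have h1' := smul_right_injective V h9 h1
  have h2' := smul_right_injective V h9 h2
  have hW : U'⁻¹ * U = 1 := by
    apply rigid_lin (mul_mem (inv_mem hU') hU)
    · change U'.symm (U _) = _
      rw [h1', LinearEquiv.symm_apply_apply]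
    · change U'.symm (U _) = _
      rw [h2', LinearEquiv.symm_apply_apply]
  have hUU : U' = U := inv_mul_eq_one.1 hW
  funext v
  rw [e, e', hUU]

theorem MM_map {U : GV} (hU : U ∈ NN) {b : V} (hb : b ∈ MM) : U b ∈ MM := by
  induction hb using AddSubgroup.closure_induction with
  | mem w hw =>
    obtain ⟨W, hW, x, rfl⟩ := hw
    exact AddSubgroup.subset_closure ⟨U * W, mul_mem hU hW, x, rfl⟩
  | zero => rw [map_zero]; exact zero_mem _
  | add v w _ _ hv hw => rw [map_add]; exact add_mem hv hw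
  | neg v _ hv => rw [map_neg]; exact neg_mem hv

theorem mem_MM (a b : I → ℤ) : (fun y => (a y : ℂ) + (b y : ℂ) * om : V) ∈ MM := by
  have h6 : om ^ 6 = 1 := by
    rw [show 6 = 3 * 2 from rfl, pow_mul, om_cube, one_pow]
  obtain ⟨W, hW, e⟩ := isLin_smul h6
  have h : (fun y => (a y : ℂ) + (b y : ℂ) * om : V) =
      ∑ y, (a y • (Pi.single y 1 : V) + b y • W (Pi.single y 1)) := by
    funext z
    simp only [← e]
    simp [Finset.sum_apply, Pi.single_apply, Finset.sum_add_distrib, mul_comm]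
  rw [h]
  refine sum_mem fun y _ => add_mem (zsmul_mem (CRig_single_mem y) _) (zsmul_mem ?_ _)
  exact MM_map hW (CRig_single_mem y)

theorem IsAf.comp {f g : V → V} (hf : IsAf f) (hg : IsAf g) : IsAf (fun v => f (g v)) := by
  obtain ⟨U, hU, b, hb, e⟩ := hf
  obtain ⟨U', hU', b', hb', e'⟩ := hg
  refine ⟨U * U', mul_mem hU hU', U b' + b, add_mem (MM_map hU hb') hb, fun v => ?_⟩
  change f (g v) = U (U' v) + (U b' + b)
  rw [e, e', map_add, add_assoc]

theorem isAf_id : IsAf (fun v => v) := by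
  exact ⟨1, one_mem _, 0, zero_mem _, fun v => (add_zero v).symm⟩

theorem IsLin.isAf {g : V → V} (hg : IsLin g) {b : V} (hb : b ∈ MM) :
    IsAf (fun v => g v + b) := by
  obtain ⟨U, hU, e⟩ := hg
  exact ⟨U, hU, b, hb, fun v => congrArg (· + b) (e v)⟩

theorem isAf_add {b : V} (hb : b ∈ MM) : IsAf (fun v => v + b) := by
  exact ⟨1, one_mem _, b, hb, fun _ => rfl⟩

theorem IsAf.bijective {g : V → V} (hg : IsAf g) : Function.Bijective g := by
  obtain ⟨U, _, b, _, e⟩ := hg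
  have h : g = (fun w => w + b) ∘ U := funext e
  rw [h]
  exact (Equiv.addRight b).bijective.comp U.bijective

/-- The inverse of an affine map. -/
theorem IsAf.inv {g g' : V → V} (hg : IsAf g) (h : ∀ v, g (g' v) = v) : IsAf g' := by
  obtain ⟨U, hU, b, hb, e⟩ := hg
  refine ⟨U⁻¹, inv_mem hU, -(U⁻¹ b), neg_mem (MM_map (inv_mem hU) hb), fun v => ?_⟩
  have h2 := h v
  rw [e] at h2
  change g' v = U.symm v + -(U.symm b)
  rw [← h2, map_add, LinearEquiv.symm_apply_apply, h2]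
  abel

end Pool.Agent.MP_61a8e3_al.G4.C

end

section

/-!
A single vector with trivial stabiliser in the normaliser of the Heisenberg group.
-/

set_option autoImplicit false

namespace Pool.Agent.MP_61a8e3_al.G4.C

/-- The test vector. -/
noncomputable def xj (y : I) : ℂ := if y = 0 then 6 else xi y

/-- The Hermitian form. -/
noncomputable def CRig1_B (v w : V) : ℂ := ∑ y, (starRingEnd ℂ) (v y) * w y

theorem CRig1_conj_ch (t : ZMod 3) : (starRingEnd ℂ) (ch t) * ch t = 1 := by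
  have h3 : Real.sqrt 3 * Real.sqrt 3 = 3 := Real.mul_self_sqrt (by norm_num)
  have h : (starRingEnd ℂ) om * om = 1 := by
    apply Complex.ext
    · simp [om]; linarith
    · simp [om]; ring
  rw [ch, map_pow, ← mul_pow, h, one_pow]

theorem CRig1_ch_inj {s t : ZMod 3} (h : ch s = ch t) : s = t := by
  have h1 : ch (-t + s) = 1 := by rw [ch_add, h, ch_neg_mul]
  exact (neg_add_eq_zero.1 (CHei_ch h1)).symm

theorem CRig1_hei (c : ZMod 3) (a b : I) (v w : V) :
    CRig1_B (hei c a b v) (hei c a b w) = CRig1_B v w := by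
  rw [CRig1_B, CRig1_B, ← Equiv.sum_comp (Equiv.addRight a) fun y => (starRingEnd ℂ) (v y) * w y]
  refine Finset.sum_congr rfl fun y _ => ?_
  rw [hei_apply, hei_apply, map_mul, mul_mul_mul_comm, CRig1_conj_ch, one_mul]
  rfl

theorem CRig1_smul (s t : ℂ) (v w : V) :
    CRig1_B (s • v) (t • w) = (starRingEnd ℂ) s * t * CRig1_B v w := by
  simp only [CRig1_B, Finset.mul_sum, Pi.smul_apply, smul_eq_mul, map_mul]
  exact Finset.sum_congr rfl fun y _ => by ring

theorem CRig1_sum (f g : I → V) :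
    CRig1_B (∑ x, f x) (∑ x, g x) = ∑ x, ∑ x', CRig1_B (f x) (g x') := by
  simp only [CRig1_B, Finset.sum_apply, map_sum, Finset.sum_mul_sum]
  rw [Finset.sum_comm]
  exact Finset.sum_congr rfl fun x _ => Finset.sum_comm

theorem CRig1_conj {U : GV} (hU : U ∈ NN) (c : ZMod 3) (a b : I) :
    ∃ c' a' b', ∀ v, U (hei c a b v) = hei c' a' b' (U v) := by
  obtain ⟨c', a', b', h⟩ := (Subgroup.mem_set_normalizer_iff.1 hU.1 (hei c a b)).1 ⟨c, a, b, rfl⟩
  refine ⟨c', a', b', fun v => ?_⟩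
  have h2 : U * hei c a b = hei c' a' b' * U := by
    rw [← h]; simp
  have h3 := congrArg (fun W : GV => W v) h2
  simpa using h3

theorem CRig1_Z (j : Fin 4) (v : V) (y : I) : hei 0 0 (Pi.single j 1) v y = ch (y j) * v y := by
  simp [hei_apply, dot, Pi.single_apply]

theorem CRig1_Z_single (j : Fin 4) (x : I) :
    hei 0 0 (Pi.single j 1) (Pi.single x 1) = ch (x j) • (Pi.single x 1 : V) := by
  rw [CRig_hei_single]
  simp [dot, Pi.single_apply]

/-- Elements of the normaliser multiply the form by a constant. -/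
theorem CRig1_scal {U : GV} (hU : U ∈ NN) :
    ∃ z : ℂ, ∀ v w, CRig1_B (U v) (U w) = z * CRig1_B v w := by
  have hinv : ∀ c a b v w, CRig1_B (U (hei c a b v)) (U (hei c a b w)) = CRig1_B (U v) (U w) := by
    intro c a b v w
    obtain ⟨c', a', b', h⟩ := CRig1_conj hU c a b
    rw [h, h, CRig1_hei]
  have hne : ∀ x y : I, y ≠ x → CRig1_B (U (Pi.single x 1)) (U (Pi.single y 1)) = 0 := by
    intro x y hxy
    obtain ⟨j, hj⟩ := Function.ne_iff.1 hxy
    have h := hinv 0 0 (Pi.single j 1) (Pi.single x 1) (Pi.single y 1)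
    rw [CRig1_Z_single, CRig1_Z_single, map_smul, map_smul, CRig1_smul] at h
    by_contra h0
    have h1 : (starRingEnd ℂ) (ch (x j)) * ch (y j) = 1 :=
      mul_right_cancel₀ h0 (h.trans (one_mul _).symm)
    refine hj (CRig1_ch_inj ?_)
    linear_combination ch (x j) * h1 - ch (y j) * CRig1_conj_ch (x j)
  have heq : ∀ x : I, CRig1_B (U (Pi.single x 1)) (U (Pi.single x 1)) =
      CRig1_B (U (Pi.single 0 1)) (U (Pi.single 0 1)) := by
    intro x
    rw [← hinv 0 (-x) 0 (Pi.single 0 1), CRig_shift, add_zero]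
  refine ⟨CRig1_B (U (Pi.single 0 1)) (U (Pi.single 0 1)), fun v w => ?_⟩
  conv_lhs => rw [CRig_sum v, CRig_sum w, map_sum, map_sum, CRig1_sum]
  rw [CRig1_B.eq_1 v w, Finset.mul_sum]
  refine Finset.sum_congr rfl fun x _ => ?_
  rw [Finset.sum_eq_single x]
  · rw [map_smul, map_smul, CRig1_smul, heq, mul_comm]
  · intro y _ hy
    rw [map_smul, map_smul, CRig1_smul, hne x y hy, mul_zero]
  · intro hx
    exact absurd (Finset.mem_univ x) hx

def CRig1_n (y : I) : ℤ :=
  if y = 0 then 6 else if y = Pi.single 0 1 then 2 else if y = Pi.single 1 1 then 3 else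
    if y = Pi.single 2 1 then 4 else if y = Pi.single 3 1 then 5 else 1

def CRig1_p (t : ZMod 3) : ℤ := if t = 0 then 1 else if t = 1 then 0 else -1

def CRig1_q (t : ZMod 3) : ℤ := if t = 0 then 0 else if t = 1 then 1 else -1

def CRig1_P : Fin 5 → I := ![0, Pi.single 0 1, Pi.single 1 1, Pi.single 2 1, Pi.single 3 1]

def CRig1_w : Fin 5 → ℤ := ![5, 1, 2, 3, 4]

def CRig1_S (χ : ZMod 3 → ℤ) (c : ZMod 3) (a b : I) : ℤ :=
  (if b = 0 then 81 * χ c else 0) + ∑ k, CRig1_w k *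
    (χ (c + dot b (CRig1_P k)) * CRig1_n (CRig1_P k + a) + χ (c + dot b (CRig1_P k - a)))

theorem CRig1_xj (y : I) : xj y = CRig1_n y := by
  unfold xj xi CRig1_n
  split_ifs <;> simp

theorem CRig1_pq (t : ZMod 3) : ch t = CRig1_p t + CRig1_q t * om := by
  have h1 : ch 1 = om := by simpa using ch_natCast 1
  rcases CHei_cases t with rfl | rfl | rfl
  · simp [ch_zero, CRig1_p, CRig1_q]
  · have h : (1 : ZMod 3) ≠ 0 := by decide
    simp [h1, CRig1_p, CRig1_q, h]
  · rw [ch_add, h1, show CRig1_p (1 + 1) = -1 by decide, show CRig1_q (1 + 1) = -1 by decide]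
    push_cast
    linear_combination om_sq

theorem CRig1_fin :
    (∀ y, CRig1_n y = 1 + ∑ k, if y = CRig1_P k then CRig1_w k else 0) ∧
    (∀ y, 0 < CRig1_n y) ∧ (∀ k, 0 ≤ CRig1_w k) ∧ (∀ t, CRig1_p t ≤ 1) ∧
    (∀ j : Fin 4, 61 ≤ CRig1_S CRig1_p 0 0 (Pi.single j 1) ∧
      0 < CRig1_S CRig1_q 0 0 (Pi.single j 1)) ∧
    (∀ c a, CRig1_S CRig1_p c a 0 < 61 ∨ CRig1_S CRig1_q c a 0 ≤ 0) ∧
    (∀ a, a = 0 ∨ ∑ k, CRig1_w k * (CRig1_n (CRig1_P k + a) + 1) < 61) ∧
    (∀ c b, ∀ j : Fin 4, CRig1_S CRig1_p c 0 b = CRig1_S CRig1_p 0 0 (Pi.single j 1) →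
      CRig1_S CRig1_q c 0 b = CRig1_S CRig1_q 0 0 (Pi.single j 1) →
      c = 0 ∧ b = Pi.single j 1) := by
  refine ⟨?_, ?_, ?_, ?_, ?_, ?_, ?_, ?_⟩ <;> decide +kernel

theorem CRig1_uniq {c : ZMod 3} {a b : I} {j : Fin 4}
    (hp : CRig1_S CRig1_p c a b = CRig1_S CRig1_p 0 0 (Pi.single j 1))
    (hq : CRig1_S CRig1_q c a b = CRig1_S CRig1_q 0 0 (Pi.single j 1)) :
    c = 0 ∧ a = 0 ∧ b = Pi.single j 1 := by
  obtain ⟨-, hn, hw, hp1, hv, hb, ha, h0⟩ := CRig1_fin
  obtain ⟨h1, h2⟩ := hv j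
  rw [← hp] at h1
  rw [← hq] at h2
  by_cases hb0 : b = 0
  · subst hb0
    rcases hb c a with h | h <;> omega
  rcases ha a with rfl | h
  · exact ⟨(h0 c b j hp hq).1, rfl, (h0 c b j hp hq).2⟩
  refine absurd (h1.trans ?_) (not_le.2 h)
  rw [CRig1_S, if_neg hb0, zero_add]
  refine Finset.sum_le_sum fun k _ => mul_le_mul_of_nonneg_left (add_le_add ?_ (hp1 _)) (hw k)
  exact mul_le_of_le_one_left (hn _).le (hp1 _)

theorem CRig1_exp (f : I → ℂ) :
    ∑ y, (CRig1_n y : ℂ) * f y = ∑ y, f y + ∑ k, CRig1_w k * f (CRig1_P k) := by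
  have h : ∀ y, (CRig1_n y : ℂ) * f y =
      f y + ∑ k, if y = CRig1_P k then CRig1_w k * f y else 0 := by
    intro y
    rw [CRig1_fin.1 y]
    push_cast
    rw [add_mul, one_mul, Finset.sum_mul]
    simp only [ite_mul, zero_mul]
  rw [Finset.sum_congr rfl fun y _ => h y, Finset.sum_add_distrib, Finset.sum_comm]
  simp

theorem CRig1_chsum (c : ZMod 3) (a b : I) :
    ∑ y, ch (c + dot b (y - a)) = if b = 0 then 81 * ch c else 0 := by
  split_ifs with hb
  · subst hb
    simp [CHei_dot_left]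
  · obtain ⟨j, hj⟩ := Function.ne_iff.1 hb
    have h := Equiv.sum_comp (Equiv.addRight (Pi.single j 1 : I)) fun y => ch (c + dot b (y - a))
    have h2 : ∀ y, ch (c + dot b (Equiv.addRight (Pi.single j 1 : I) y - a)) =
        ch (b j) * ch (c + dot b (y - a)) := by
      intro y
      rw [← ch_add]
      congr 1
      simp only [dot, Equiv.coe_addRight, Pi.sub_apply, Pi.add_apply, mul_sub, mul_add,
        Finset.sum_sub_distrib, Finset.sum_add_distrib, Pi.single_apply, mul_ite, mul_one, mul_zero,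
        Finset.sum_ite_eq', Finset.mem_univ, if_true]
      ring
    rw [Finset.sum_congr rfl fun y _ => h2 y, ← Finset.mul_sum] at h
    by_contra h0
    exact hj (CHei_ch (mul_right_cancel₀ h0 (h.trans (one_mul _).symm)))

theorem CRig1_F (c : ZMod 3) (a b : I) :
    CRig1_B xj (hei c a b xj) = CRig1_S CRig1_p c a b + CRig1_S CRig1_q c a b * om := by
  have h1 : ∑ y, ch (c + dot b y) * (CRig1_n (y + a) : ℂ) =
      ∑ y, (CRig1_n y : ℂ) * ch (c + dot b (y - a)) := by
    rw [← Equiv.sum_comp (Equiv.addRight a) fun y => (CRig1_n y : ℂ) * ch (c + dot b (y - a))]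
    exact Finset.sum_congr rfl fun y _ => by simp [mul_comm]
  simp only [CRig1_B, hei_apply, CRig1_xj, map_intCast]
  rw [CRig1_exp, h1, CRig1_exp, CRig1_chsum]
  simp only [CRig1_S, CRig1_pq, Fin.sum_univ_five]
  split_ifs <;> push_cast <;> ring

theorem CRig1_ind {x y x' y' : ℤ} (h : (x : ℂ) + y * om = x' + y' * om) : x = x' ∧ y = y' := by
  have h3 : Real.sqrt 3 ≠ 0 := by positivity
  have h1 := congrArg Complex.im h
  have hy : y = y' := by simpa [om, h3] using h1
  rw [hy, add_left_inj] at h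
  exact ⟨by exact_mod_cast h, hy⟩

theorem rigid1 {U : GV} (hU : U ∈ NN) (h : U xj = xj) : U = 1 := by
  have hn := CRig1_fin.2.1
  obtain ⟨z, hz⟩ := CRig1_scal hU
  have h0 : CRig1_B xj xj ≠ 0 := by
    have h1 : 0 < ∑ y, CRig1_n y * CRig1_n y :=
      Finset.sum_pos (fun y _ => mul_pos (hn y) (hn y)) Finset.univ_nonempty
    simp only [CRig1_B, CRig1_xj, map_intCast]
    exact_mod_cast h1.ne'
  have hz1 : z = 1 := by
    have h1 := hz xj xj
    rw [h] at h1
    exact mul_right_cancel₀ h0 (h1.symm.trans (one_mul _).symm)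
  have hc : ∀ (j : Fin 4) v, U (hei 0 0 (Pi.single j 1) v) = hei 0 0 (Pi.single j 1) (U v) := by
    intro j
    obtain ⟨c, a, b, hh⟩ := CRig1_conj hU 0 0 (Pi.single j 1)
    have h1 := hz xj (hei 0 0 (Pi.single j 1) xj)
    rw [hh, h, hz1, one_mul, CRig1_F, CRig1_F] at h1
    obtain ⟨rfl, rfl, rfl⟩ := CRig1_uniq (CRig1_ind h1).1 (CRig1_ind h1).2
    exact hh
  have hs : ∀ x y : I, y ≠ x → U (Pi.single x 1) y = 0 := by
    intro x y hxy
    obtain ⟨j, hj⟩ := Function.ne_iff.1 hxy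
    have h1 := congrFun (hc j (Pi.single x 1)) y
    rw [CRig1_Z_single, map_smul, CRig1_Z, Pi.smul_apply, smul_eq_mul] at h1
    by_contra h2
    exact hj (CRig1_ch_inj (mul_right_cancel₀ h2 h1)).symm
  have hv : ∀ (v : V) y, U v y = v y * U (Pi.single y 1) y := by
    intro v y
    conv_lhs => rw [CRig_sum v, map_sum, Finset.sum_apply]
    rw [Finset.sum_eq_single y]
    · rw [map_smul, Pi.smul_apply, smul_eq_mul]
    · intro x _ hx
      rw [map_smul, Pi.smul_apply, hs x y hx.symm, smul_zero]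
    · intro hy
      exact absurd (Finset.mem_univ y) hy
  ext v y
  have h1 := hv xj y
  have h2 : xj y ≠ 0 := by
    rw [CRig1_xj]
    exact_mod_cast (hn y).ne'
  rw [h] at h1
  rw [hv, ← mul_left_cancel₀ h2 ((mul_one _).trans h1), mul_one]
  rfl

theorem IsAf.ext2 {g g' : V → V} (hg : IsAf g) (hg' : IsAf g') (h0 : g 0 = g' 0)
    (h1 : g ((9 : ℂ) • xj) = g' ((9 : ℂ) • xj)) : g = g' := by
  obtain ⟨U, hU, b, _, e⟩ := hg
  obtain ⟨U', hU', b', _, e'⟩ := hg'
  rw [e, e', map_zero, map_zero, zero_add, zero_add] at h0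
  subst h0
  rw [e, e', add_left_inj, map_smul, map_smul] at h1
  have h1' := smul_right_injective V (by norm_num : (9 : ℂ) ≠ 0) h1
  have hW : U'⁻¹ * U = 1 := by
    apply rigid1 (mul_mem (inv_mem hU') hU)
    change U'.symm (U _) = _
    rw [h1', LinearEquiv.symm_apply_apply]
  have hUU : U' = U := inv_mul_eq_one.1 hW
  funext v
  rw [e, e', hUU]

end Pool.Agent.MP_61a8e3_al.G4.C

end

section

/-! Part K: the meaning of the data. -/

set_option autoImplicit false

namespace Pool.Agent.MP_61a8e3_al.G4.K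

open C

def En.tl : En → Lb
  | .i _ _ _ => .e
  | .n l _ _ _ => l

def En.tc : En → ℕ
  | .i c _ _ => c
  | .n _ c _ _ => c

def En.tj : En → ℕ
  | .i _ j _ => j
  | .n _ _ j _ => j

def En.tk : En → ℕ
  | .i _ _ k => k
  | .n _ _ _ k => k

/-- the state `s` holds the values of `g` at the two test points -/
def Rep (s : ℕ) (g : V → V) : Prop := Bd s 255 ∧ vec s 0 = g 0 ∧ vec s 1 = g ((9 : ℂ) • xj)

/-- the state `s` is zero (failure) or represents the affine map `g` -/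
def Rp (s : ℕ) (g : V → V) : Prop := IsAf g ∧ (s ≠ 0 → Rep s g)

/-- points: class, rotation, vector -/
abbrev Pt : Type := ℕ × ℕ × V

variable (D : ℕ → Cl)

/-- the entry at the rotation `n` of the class `c` -/
noncomputable def ent (c n : ℕ) : En := (sel En (n % 16)).1 (ce D c)

/-- the relative position of the inverse of the letter number `n` -/
def kof (c n : ℕ) : ℕ := dig (D c).sh (n % 16)

/-- the position of the inverse of the letter at the position `i` in the word `(c, j)` -/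
def shp (c j i : ℕ) : ℕ := (i + kof D c (j + i)) % 16

/-- the point reached from `(c, 0, v)` by `n` rotations -/
noncomputable def E (c n : ℕ) (v : V) : Pt := (c, n % pe D c, (sem (D c).iso)^[n / pe D c] v)

/-- the slide -/
noncomputable def T0 (x : Pt) : Pt :=
  E D (ent D x.1 x.2.1).tc (ent D x.1 x.2.1).tj (sem (ent D x.1 x.2.1).tl x.2.2)

/-- the rotation -/
noncomputable def R0 (x : Pt) : Pt := E D x.1 (x.2.1 + 1) x.2.2

/-- the shape -/
def sh0 (x : Pt) (i : ℕ) : ℕ := shp D x.1 x.2.1 i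

/-- forward programs -/
noncomputable def fw0 : List ℕ → ℕ → Pt → Pt
  | [], k, x => (R0 D)^[k] x
  | j :: js, k, x => fw0 js k (T0 D ((R0 D)^[j] x))

/-- valid indices -/
def Ix : Type := {a : ℕ × ℕ // a.1 < 14118 ∧ a.2 < pe D a.1}

/-- the point of a valid index -/
def io (x : Ix D × V) : Pt := (x.1.1.1, x.1.1.2, x.2)

theorem ap_e (s : ℕ) : ap .e s = s := rfl

theorem stp_eq (c j n s : ℕ) (K : ℕ → ℕ → ℕ → ℕ → ℕ) :
    stp D c j n s K = K (ent D c (j + n)).tc (ent D c (j + n)).tj (ent D c (j + n)).tk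
      (ap (ent D c (j + n)).tl s) := by
  have h : stp D c j n s K = En.rec (motive := fun _ => ℕ) (fun c' j' k => K c' j' k s)
      (fun l c' j' k => K c' j' k (ap l s)) ((sA En j n).1 (ce D c)) := rfl
  rw [h, sA_eq, ent]
  cases (sel En ((j + n) % 16)).1 (ce D c) <;> rfl

theorem ent_mod (c n : ℕ) : ent D c (n % 16) = ent D c n := by rw [ent, ent, Nat.mod_mod]

theorem kof_mod (c n : ℕ) : kof D c (n % 16) = kof D c n := by rw [kof, kof, Nat.mod_mod]

/-- the facts on one rooted word -/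
structure Gd (c j : ℕ) : Prop where
  tc : (ent D c j).tc < 14118
  tj : (ent D c j).tj < 16
  tk : (ent D c j).tk = kof D c j
  two : 2 ≤ kof D c j
  ok : okL (ent D c j).tl 0 = 0
  sh : ∀ i < 16, shp D (ent D c j).tc (ent D c j).tj (A.sp (kof D c j) i) =
    A.sp (kof D c j) (shp D c j i)
  uni : (∀ i < 16, shp D c j i = [2, 3, 0, 1, 6, 7, 4, 5, 10, 11, 8, 9, 14, 15, 12, 13].getD i 0) →
    c = 0 ∧ j % 4 = 2
  tri : cTri D c j (ent D c j).tc (ent D c j).tj (kof D c j) (ap (ent D c j).tl st0) = 0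
  comm : ∀ q, 2 ≤ q → q ≤ 8 → cComm D c j (ent D c j).tc (ent D c j).tj (kof D c j)
    (ap (ent D c j).tl st0) (shp D c j 1) q = 0
  pent : cPent D c j (ent D c j).tc (ent D c j).tj (kof D c j) (ap (ent D c j).tl st0) = 0
  pent2 : cPent2 D c j (ent D c j).tc (ent D c j).tj (kof D c j) (ap (ent D c j).tl st0)
    (shp D c j 1) = 0
  tw : cTw D c j (ent D c j).tc (ent D c j).tj (kof D c j) = 0
  cmp : cCmp D c j (ent D c j).tc (ent D c j).tj (ap (ent D c j).tl st0) = 0

/-- the facts on one class -/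
structure Gc (c : ℕ) : Prop where
  le : ∀ n, kof D c n ≤ 15
  inv : ∀ j, ∀ i < 16, shp D c j (shp D c j i) = i
  pos : 0 < pe D c
  dvd : pe D c ∣ 16
  per : ∀ n, kof D c (n + pe D c) = kof D c n
  ok : okL (D c).iso 0 = 0
  ord : its (16 / pe D c) (D c).iso st0 = st0
  gd : ∀ j < 16, Gd D c j

/-- the facts on all classes -/
def Good : Prop := ∀ c < 14118, Gc D c

end Pool.Agent.MP_61a8e3_al.G4.K

end

section

/-! Part K: the dense gates. -/

set_option autoImplicit false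

namespace Pool.Agent.MP_61a8e3_al.G4.K

open C

theorem KGateG_tri (y d : ℕ) (h : ∀ s, (if s < 2 * d then 0 else dig y (s - 2 * d)) +
    (if s < d then 0 else dig y (s - d)) + dig y s < 2 ^ 16) (s : ℕ) :
    dig (y * (2 ^ (16 * (2 * d)) + 2 ^ (16 * d) + 1)) s = (if s < 2 * d then 0 else
      dig y (s - 2 * d)) + (if s < d then 0 else dig y (s - d)) + dig y s := by
  have h1 := dig_add (y * 2 ^ (16 * (2 * d))) (y * 2 ^ (16 * d)) fun s => by
    rw [dig_mul_pow, dig_mul_pow]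
    exact lt_of_le_of_lt (Nat.le_add_right _ _) (h s)
  simp only [dig_mul_pow] at h1
  rw [mul_add, mul_add, mul_one, dig_add _ _ fun s => by rw [h1]; exact h s, h1]

/-- the slot of the point with the coordinate moved by `k` -/
def KGateG_nn (d k s : ℕ) : ℕ := s - s % 81 / d % 3 * d + (s % 81 / d % 3 + k) % 3 * d

theorem KGateG_le (d s : ℕ) : s % 81 / d % 3 * d ≤ s % 81 :=
  (Nat.mul_le_mul_right _ (Nat.mod_le _ _)).trans (Nat.div_mul_le_self _ _)

theorem KGateG_shift (d k s j : ℕ) : KGateG_nn d k (s + 81 * j) = KGateG_nn d k s + 81 * j := by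
  have h := (KGateG_le d s).trans (Nat.mod_le _ _)
  unfold KGateG_nn
  rw [Nat.add_mul_mod_self_left]
  omega

theorem KGateG_ix : ∀ (y : I) (i : Fin 4),
    KGateG_nn (3 ^ i.val) 1 (ix y) = ix (Function.update y i (y i + 1)) ∧
      KGateG_nn (3 ^ i.val) 2 (ix y) = ix (Function.update y i (y i + 2)) := by
  decide +kernel

theorem KGateG_ar {i : ℕ} (hi : i < 4) (s : ℕ) :
    ((¬ s < 3 ^ i ∧ s - 3 ^ i < 486 ∧ (s - 3 ^ i) % 81 / 3 ^ i % 3 = 0) ↔
      s < 486 ∧ s % 81 / 3 ^ i % 3 = 1) ∧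
    ((¬ s < 2 * 3 ^ i ∧ s - 2 * 3 ^ i < 486 ∧ (s - 2 * 3 ^ i) % 81 / 3 ^ i % 3 = 0) ↔
      s < 486 ∧ s % 81 / 3 ^ i % 3 = 2) := by
  by_cases hs : s < 540
  · revert i s
    decide +kernel
  · have : 3 ^ i ≤ 3 ^ 3 := Nat.pow_le_pow_right (by norm_num) (by omega)
    omega

theorem KGateG_sum {i : ℕ} (hi : i < 4) (y Z : ℕ → ℕ)
    (hZ : ∀ s, Z s = if s < 486 ∧ s % 81 / 3 ^ i % 3 = 0 then
      y s + y (s + 3 ^ i) + y (s + 2 * 3 ^ i) else 0) (s : ℕ) :
    (if s < 2 * 3 ^ i then 0 else Z (s - 2 * 3 ^ i)) + (if s < 3 ^ i then 0 else Z (s - 3 ^ i)) +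
      Z s = if s < 486 then y (KGateG_nn (3 ^ i) 1 s) + y (KGateG_nn (3 ^ i) 2 s) + y s else 0 := by
  obtain ⟨h1, h2⟩ := KGateG_ar hi s
  have h3 := (KGateG_le (3 ^ i) s).trans (Nat.mod_le _ _)
  simp only [hZ, ← ite_not (s < _), ← ite_and, h1, h2, KGateG_nn]
  generalize 3 ^ i = d at *
  have h4 : s % 81 / d % 3 < 3 := Nat.mod_lt _ (by norm_num)
  generalize s % 81 / d % 3 = b at *
  by_cases hs : s < 486
  · interval_cases b
    · simp [hs]
      ring
    · rw [one_mul] at h3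
      simp [hs, Nat.sub_add_cancel h3]
      ring
    · simp [hs, Nat.sub_add_cancel h3]
  · simp [hs]

theorem KGateG_dig (c : ℕ) {st n : ℕ} (hn : 3 * n < 2 ^ 16) (hb : Bd st n) (s : ℕ) :
    dig (Nat.sub (Nat.mul (Nat.land (Nat.shiftRight (Nat.mul st (gu c)) (s2 c)) (gz c)) (gu c)) st)
      s = if s < 486 then dig st (KGateG_nn (3 ^ (c % 4)) 1 s) +
        dig st (KGateG_nn (3 ^ (c % 4)) 2 s) else 0 := by
  have hg : gu c = 2 ^ (16 * (2 * 3 ^ (c % 4))) + 2 ^ (16 * 3 ^ (c % 4)) + 1 := by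
    rw [← s1_eq, ← s2_eq]
    rfl
  have h1 := KGateG_tri st (3 ^ (c % 4)) fun s => by
    have := hb.2 (s - 2 * 3 ^ (c % 4))
    have := hb.2 (s - 3 ^ (c % 4))
    have := hb.2 s
    split_ifs <;> omega
  rw [← hg] at h1
  generalize hZ : Nat.land (Nat.shiftRight (Nat.mul st (gu c)) (s2 c)) (gz c) = Z
  have h2 := KGateG_sum (Nat.mod_lt c (by norm_num : 0 < 4)) (dig st) (dig Z) fun s => by
    rw [← hZ, dig_mask _ _ _ _ (gz_spec c s), s2_eq, dig_shiftRight]
    refine if_congr Iff.rfl ((h1 _).trans ?_) rfl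
    rw [if_neg (by omega), if_neg (by omega), Nat.add_sub_cancel,
      show s + 2 * 3 ^ (c % 4) - 3 ^ (c % 4) = s + 3 ^ (c % 4) by omega]
  have h3 := KGateG_tri Z (3 ^ (c % 4)) fun s => by
    have := hb.2 (KGateG_nn (3 ^ (c % 4)) 1 s)
    have := hb.2 (KGateG_nn (3 ^ (c % 4)) 2 s)
    have := hb.2 s
    rw [h2]
    split_ifs <;> omega
  simp only [← hg, h2] at h3
  have h4 : ∀ s, ¬ s < 486 → dig st s = 0 := fun s hs => dig_eq_zero_of_lt hb.1 (by omega)
  refine (dig_sub (Z * gu c) st (fun s => ?_) s).trans ?_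
  · rw [h3]
    split_ifs with h
    · omega
    · exact (h4 s h).le
  · rw [h3]
    split_ifs <;> omega

theorem KGateG_ok {x : GG} (h : okG x = 0) : x.gu = gu x.c ∧ x.s2 = s2 x.c ∧ x.gz = gz x.c ∧
    x.ps = ps (x.c / 4) ∧ x.pm = pm (x.c / 4) ∧ x.pq = pq (x.c / 4) ∧ 4 - x.c = 0 ∧
      x.c - 11 = 0 := by
  obtain ⟨h, h8⟩ := add_eq_zero' h
  obtain ⟨h, h7⟩ := add_eq_zero' h
  obtain ⟨h, h6⟩ := add_eq_zero' h
  obtain ⟨h, h5⟩ := add_eq_zero' h
  obtain ⟨h, h4⟩ := add_eq_zero' h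
  obtain ⟨h, h3⟩ := add_eq_zero' h
  obtain ⟨h1, h2⟩ := add_eq_zero' h
  exact ⟨xor_eq_zero h1, xor_eq_zero h2, xor_eq_zero h3, xor_eq_zero h4, xor_eq_zero h5,
    xor_eq_zero h6, h7, h8⟩

theorem okG_s {x : GG} (h : okG x = 0) : x.c / 4 = 1 ∨ x.c / 4 = 2 := by
  obtain ⟨-, -, -, -, -, -, h1, h2⟩ := KGateG_ok h
  omega

theorem Gop_spec {x : GG} (h : okG x = 0) {st n : ℕ} (hn : 3 * n < 2 ^ 16) (hb : Bd st n) :
    Bd (Gop x.gu x.s2 x.gz x.ps x.pm x.pq st) (3 * n) ∧ ∀ m < 2,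
      vec (Gop x.gu x.s2 x.gz x.ps x.pm x.pq st) m = Gf (co x.c) (x.c / 4) (vec st m) := by
  obtain ⟨h1, h2, h3, h4, h5, h6, -, -⟩ := KGateG_ok h
  have hs : x.c / 4 ≤ 2 := by have := okG_s h; omega
  obtain ⟨p1, p2⟩ := Pop_spec hs hb
  have e : Gop x.gu x.s2 x.gz x.ps x.pm x.pq st = Nat.sub (Nat.mul (Nat.land (Nat.shiftRight
      (Nat.mul st (gu x.c)) (s2 x.c)) (gz x.c)) (gu x.c)) st + Pop (x.c / 4) st := by
    rw [h1, h2, h3, h4, h5, h6]
    rfl
  have d1 := KGateG_dig x.c hn hb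
  generalize Nat.sub _ st = A at e d1
  generalize Pop (x.c / 4) st = B at e p1 p2
  have d2 : ∀ s, dig A s + dig B s ≤ 3 * n := fun s => by
    have := hb.2 (KGateG_nn (3 ^ (x.c % 4)) 1 s)
    have := hb.2 (KGateG_nn (3 ^ (x.c % 4)) 2 s)
    have := p1.2 s
    rw [d1]
    split_ifs <;> omega
  have d3 := dig_add A B fun s => lt_of_le_of_lt (d2 s) hn
  rw [e]
  refine ⟨⟨lt_of_dig_eq_zero fun s hs => ?_, fun s => (d3 s).trans_le (d2 s)⟩, fun m hm => ?_⟩
  · rw [d3, d1, if_neg (by omega), dig_eq_zero_of_lt p1.1 hs]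
  · funext y
    have hy := ix_lt y
    obtain ⟨u1, u2⟩ := KGateG_ix y (co x.c)
    have d4 : ∀ j < 6, dig (A + B) (ix y + 81 * j) =
        dig st (ix (Function.update y (co x.c) (y (co x.c) + 1)) + 81 * j) +
        dig st (ix (Function.update y (co x.c) (y (co x.c) + 2)) + 81 * j) +
        dig B (ix y + 81 * j) := fun j hj => by
      rw [d3, d1, if_pos (by omega), KGateG_shift, KGateG_shift, ← u1, ← u2]
      rfl
    have d5 := d4 m (by omega)
    have d6 := d4 (m + 2) (by omega)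
    have d7 := d4 (m + 4) (by omega)
    simp only [mul_add, ← add_assoc, Nat.reduceMul] at d6 d7
    have d8 := congrFun (p2 m hm) y
    simp only [Pi.smul_apply, smul_eq_mul] at d8
    rw [Gf, ← d8]
    simp only [vec, d5, d6, d7, Nat.cast_add]
    ring

end Pool.Agent.MP_61a8e3_al.G4.K

end

section

/-! Part K: the final normalisation. -/

set_option autoImplicit false

namespace Pool.Agent.MP_61a8e3_al.G4.K

open C

/-- the digits of the offset before the multiplication -/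
def KFinG (t s : ℕ) : ℕ :=
  if s < 162 then dig t (s % 81) % 256 else if s < 324 then dig t (s % 81) / 256 else
    if s < 486 then 128 else 0

theorem KFin_div_lt (t s : ℕ) : dig t s / 256 < 256 := by
  have := dig_lt t s
  omega

theorem KFinG_le (t s : ℕ) : KFinG t s ≤ 255 := by
  have h := KFin_div_lt t (s % 81)
  unfold KFinG
  split_ifs <;> omega

theorem KFin_land255 (a : ℕ) : Nat.land a 255 = a % 256 := by
  change a &&& (2 ^ 8 - 1) = a % 2 ^ 8
  rw [Nat.and_two_pow_sub_one_eq_mod]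

theorem KFin_digA (t s : ℕ) :
    dig (Nat.land t c255) s = if s < 81 then dig t s % 256 else 0 := by
  rw [dig_land, pat_c255 s]
  split_ifs
  · exact KFin_land255 _
  · exact land_zero' _

theorem KFin_digB (t s : ℕ) :
    dig (Nat.land (Nat.shiftRight t 8) c255) s = if s < 81 then dig t s / 256 else 0 := by
  have h := pat_c255 s
  rw [dig_shr_land t c255 8 s (by omega) (by rw [h]; split_ifs <;> norm_num), h]
  split_ifs
  · rw [KFin_land255]
    exact Nat.mod_eq_of_lt (KFin_div_lt t s)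
  · exact land_zero' _

theorem KFin_mul_succ_pow (x j c : ℕ) (hc : c = 2 ^ (16 * j) + 1)
    (h : ∀ s, (if s < j then 0 else dig x (s - j)) + dig x s < 2 ^ 16) (s : ℕ) :
    dig (x * c) s = (if s < j then 0 else dig x (s - j)) + dig x s := by
  rw [hc, mul_add, mul_one, dig_add _ _ (fun u => by rw [dig_mul_pow]; exact h u), dig_mul_pow]

theorem KFin_digC (t s : ℕ) :
    dig (Nat.land t c255 + Nat.shiftLeft (Nat.land (Nat.shiftRight t 8) c255) (16 * 162)) s =
      if s < 81 then dig t s % 256 else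
        if 162 ≤ s ∧ s < 243 then dig t (s - 162) / 256 else 0 := by
  have h : ∀ u, dig (Nat.land t c255) u +
      dig (Nat.shiftLeft (Nat.land (Nat.shiftRight t 8) c255) (16 * 162)) u =
      if u < 81 then dig t u % 256 else
        if 162 ≤ u ∧ u < 243 then dig t (u - 162) / 256 else 0 := fun u => by
    rw [KFin_digA, dig_shiftLeft, KFin_digB]
    split_ifs <;> omega
  rw [dig_add _ _ fun u => ?_, h]
  rw [h]
  have h1 := KFin_div_lt t (u - 162)
  split_ifs <;> omega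

theorem KFin_digD (t x : ℕ) (hx : ∀ s, dig x s = if s < 81 then dig t s % 256 else
    if 162 ≤ s ∧ s < 243 then dig t (s - 162) / 256 else 0) (s : ℕ) :
    dig (x * cB) s = if s < 324 then KFinG t s else 0 := by
  have h : ∀ u, (if u < 81 then 0 else dig x (u - 81)) + dig x u =
      if u < 324 then KFinG t u else 0 := fun u => by
    rw [hx, hx]
    unfold KFinG
    by_cases h1 : u < 81
    · rw [Nat.mod_eq_of_lt h1]
      split_ifs <;> omega
    by_cases h2 : u < 162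
    · rw [show u % 81 = u - 81 by omega]
      split_ifs <;> omega
    by_cases h3 : u < 243
    · rw [show u % 81 = u - 162 by omega]
      split_ifs <;> omega
    by_cases h4 : u < 324
    · rw [show u % 81 = u - 81 - 162 by omega]
      split_ifs <;> omega
    · split_ifs <;> omega
  rw [KFin_mul_succ_pow x 81 cB cB_eq (fun u => ?_), h]
  rw [h]
  have := KFinG_le t u
  split_ifs <;> omega

theorem KFin_digE (t x : ℕ) (hx : ∀ s, dig x s = if s < 324 then KFinG t s else 0) (s : ℕ) :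
    dig (x + cC) s = KFinG t s := by
  have h : ∀ u, dig x u + dig cC u = KFinG t u := fun u => by
    rw [hx, pat_cC u]
    beta_reduce
    unfold KFinG
    split_ifs <;> omega
  rw [dig_add _ _ fun u => ?_, h]
  rw [h]
  have := KFinG_le t u
  omega

theorem KFin_off_eq (dv t : ℕ) : off dv t = ((Nat.land t c255 +
    Nat.shiftLeft (Nat.land (Nat.shiftRight t 8) c255) (16 * 162)) * cB + cC) * dv := rfl

theorem KFin_dig_off {dv : ℕ} (h9 : dv ≤ 9) (t s : ℕ) : dig (off dv t) s = KFinG t s * dv := by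
  have h := KFin_digE t _ (KFin_digD t _ (KFin_digC t))
  rw [KFin_off_eq, dig_mul_small _ _ (fun u => ?_), h]
  rw [h]
  exact lt_of_le_of_lt (Nat.mul_le_mul (KFinG_le t u) h9) (by norm_num)

theorem KFin_digP (st s : ℕ) : dig (Nat.land st cL) s = if s < 324 then dig st s else 0 :=
  dig_mask st cL s _ (pat_cL s)

theorem KFin_digQ {st : ℕ} (hb : Bd st 20655) (s : ℕ) :
    dig (Nat.shiftRight st (16 * 324) * cD) s =
      if s < 324 then dig st (s % 162 + 324) else 0 := by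
  have h : ∀ u, (if u < 162 then 0 else dig (Nat.shiftRight st (16 * 324)) (u - 162)) +
      dig (Nat.shiftRight st (16 * 324)) u =
      if u < 324 then dig st (u % 162 + 324) else 0 := fun u => by
    rw [dig_shiftRight, dig_shiftRight]
    by_cases h1 : u < 162
    · rw [if_pos h1, if_pos (by omega), Nat.mod_eq_of_lt h1, zero_add]
    rw [if_neg h1, dig_eq_zero_of_lt hb.1 (show 486 ≤ u + 324 by omega), add_zero]
    by_cases h2 : u < 324
    · rw [if_pos h2, show u % 162 = u - 162 by omega]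
    · rw [if_neg h2, dig_eq_zero_of_lt hb.1 (show 486 ≤ u - 162 + 324 by omega)]
  rw [KFin_mul_succ_pow _ 162 cD cD_eq (fun u => ?_), h]
  rw [h]
  have := hb.2 (u % 162 + 324)
  split_ifs <;> omega

theorem KFin_high {a : ℕ} (ha : a < 2 ^ 16) (h : Nat.land a 65280 = 0) : a ≤ 255 := by
  have h1 : (a &&& 65280) / 2 ^ 8 = 0 := by
    change (Nat.land a 65280) / 2 ^ 8 = 0
    rw [h, Nat.zero_div]
  rw [Nat.and_div_two_pow] at h1
  have h2 : Nat.land (a / 2 ^ 8) 255 = 0 := h1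
  rw [KFin_land255] at h2
  omega

theorem KFin_fin3 {W e dv z : ℕ} (h : fin3 W e dv z ≠ 0) :
    W % dv = 0 ∧ Nat.land e cH = 0 ∧ z = 0 ∧ fin3 W e dv z = e := by
  have h1 : fin3 W e dv z = e * (1 - (W % dv + Nat.land e cH + z)) := rfl
  rw [h1] at h ⊢
  generalize W % dv = a at h ⊢
  generalize Nat.land e cH = b at h ⊢
  have h2 : 1 - (a + b + z) ≠ 0 := fun h3 => h (by rw [h3, mul_zero])
  have h3 : a = 0 := by omega
  have h4 : b = 0 := by omega
  have h5 : z = 0 := by omega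
  subst h3 h4 h5
  simp

theorem KFin_core {dv : ℕ} (h0 : 0 < dv) (h9 : dv ≤ 9) (t z U Y : ℕ)
    (hU : ∀ s, dig U s ≤ 20655) (hU0 : ∀ s, 324 ≤ s → dig U s = 0)
    (hY : ∀ s, dig Y s ≤ 20655) (hY0 : ∀ s, 324 ≤ s → dig Y s = 0) {r : ℕ}
    (hr : r = fin3 (U + off dv t - Y) ((U + off dv t - Y) / dv) dv z) (h : r ≠ 0) :
    Bd r 255 ∧ ∀ s, dig r s * dv + dig Y s = dig U s + KFinG t s * dv := by
  have hX : ∀ s, dig (U + off dv t) s = dig U s + KFinG t s * dv := fun s => by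
    rw [dig_add _ _ fun u => ?_, KFin_dig_off h9]
    rw [KFin_dig_off h9]
    have h1 := Nat.mul_le_mul (KFinG_le t u) h9
    have h2 := hU u
    omega
  generalize U + off dv t = X at hX hr
  have hYl : Y < 2 ^ (16 * 324) := lt_of_dig_eq_zero hY0
  have hXl : X < 2 ^ (16 * 486) := lt_of_dig_eq_zero fun s hs => by
    rw [hX, hU0 s (by omega), KFinG, if_neg (by omega), if_neg (by omega), if_neg (by omega),
      zero_mul, add_zero]
  have hYX : Y ≤ X := by
    by_contra h1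
    have h2 := dig_eq_zero_of_lt (lt_trans (not_le.1 h1) hYl) (show 324 ≤ 485 by omega)
    rw [hX, KFinG, if_neg (by omega), if_neg (by omega), if_pos (by omega)] at h2
    omega
  rw [hr] at h
  obtain ⟨h1, h2, -, h3⟩ := KFin_fin3 h
  rw [h3] at hr
  have h4 : r * dv + Y = X := by
    rw [hr, Nat.div_mul_cancel (Nat.dvd_of_mod_eq_zero h1), Nat.sub_add_cancel hYX]
  have h5 : r < 2 ^ (16 * 486) :=
    lt_of_le_of_lt (hr ▸ le_trans (Nat.div_le_self _ _) (Nat.sub_le _ _)) hXl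
  rw [← hr] at h2
  have h6 : ∀ s, dig r s ≤ 255 := fun s => by
    by_cases hs : s < 486
    · refine KFin_high (dig_lt _ _) ?_
      have h7 := dig_land r cH s
      rw [h2, dig_zero, pat_cH s, if_pos hs] at h7
      exact h7.symm
    · rw [dig_eq_zero_of_lt h5 (not_lt.1 hs)]
      exact Nat.zero_le _
  have h7 : ∀ s, dig (r * dv) s = dig r s * dv := dig_mul_small _ _ fun u =>
    lt_of_le_of_lt (Nat.mul_le_mul (h6 u) h9) (by norm_num)
  refine ⟨⟨h5, h6⟩, fun s => ?_⟩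
  rw [← hX, ← h4, dig_add _ _ fun u => ?_, h7]
  rw [h7]
  have h8 := Nat.mul_le_mul (h6 u) h9
  have h10 := hY u
  omega

theorem KFin_finp (dv t z st : ℕ) : finp dv t z st =
    fin3 (Nat.land st cL + off dv t - Nat.shiftRight st (16 * 324) * cD)
      ((Nat.land st cL + off dv t - Nat.shiftRight st (16 * 324) * cD) / dv) dv z := rfl

theorem KFin_finm (dv t z st : ℕ) : finm dv t z st =
    fin3 (Nat.shiftRight st (16 * 324) * cD + off dv t - Nat.land st cL)
      ((Nat.shiftRight st (16 * 324) * cD + off dv t - Nat.land st cL) / dv) dv z := rfl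

theorem KFin_P_le {st : ℕ} (hb : Bd st 20655) (s : ℕ) : dig (Nat.land st cL) s ≤ 20655 := by
  rw [KFin_digP]
  split_ifs
  exacts [hb.2 _, Nat.zero_le _]

theorem KFin_P_zero (st s : ℕ) (hs : 324 ≤ s) : dig (Nat.land st cL) s = 0 := by
  rw [KFin_digP, if_neg (by omega)]

theorem KFin_Q_le {st : ℕ} (hb : Bd st 20655) (s : ℕ) :
    dig (Nat.shiftRight st (16 * 324) * cD) s ≤ 20655 := by
  rw [KFin_digQ hb]
  split_ifs
  exacts [hb.2 _, Nat.zero_le _]

theorem KFin_Q_zero {st : ℕ} (hb : Bd st 20655) (s : ℕ) (hs : 324 ≤ s) :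
    dig (Nat.shiftRight st (16 * 324) * cD) s = 0 := by
  rw [KFin_digQ hb, if_neg (by omega)]

theorem KFinG_0 (t x m : ℕ) (hx : x < 81) (hm : m < 2) :
    KFinG t (x + 81 * m) = dig t x % 256 := by
  rw [KFinG, if_pos (by omega), show (x + 81 * m) % 81 = x by omega]

theorem KFinG_1 (t x m : ℕ) (hx : x < 81) (hm : m < 2) :
    KFinG t (x + 81 * m + 162) = dig t x / 256 := by
  rw [KFinG, if_neg (by omega), if_pos (by omega), show (x + 81 * m + 162) % 81 = x by omega]

theorem KFinG_2 (t x m : ℕ) (hx : x < 81) (hm : m < 2) :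
    KFinG t (x + 81 * m + 324) = 128 := by
  rw [KFinG, if_neg (by omega), if_neg (by omega), if_pos (by omega)]

theorem KFin_algp {d e0 e1 e2 a0 a1 a2 u v : ℕ} (hd : 0 < d) (h0 : e0 * d + a2 = a0 + u * d)
    (h1 : e1 * d + a2 = a1 + v * d) (h2 : e2 * d + 0 = 0 + 128 * d) :
    (e0 : ℂ) + e1 * om + e2 * om ^ 2 =
      (d : ℂ)⁻¹ * (a0 + a1 * om + a2 * om ^ 2) + (u - 128 + (v - 128) * om) := by
  have hd' : (d : ℂ) ≠ 0 := by exact_mod_cast hd.ne'
  have g0 : (e0 : ℂ) * d + a2 = a0 + u * d := by exact_mod_cast h0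
  have g1 : (e1 : ℂ) * d + a2 = a1 + v * d := by exact_mod_cast h1
  have g2 : (e2 : ℂ) * d + 0 = 0 + 128 * d := by exact_mod_cast h2
  refine mul_left_cancel₀ hd' ?_
  rw [mul_add (d : ℂ) ((d : ℂ)⁻¹ * _), mul_inv_cancel_left₀ hd', om_sq]
  linear_combination g0 + om * g1 + (-1 - om) * g2

theorem KFin_algm {d e0 e1 e2 a0 a1 a2 u v : ℕ} (hd : 0 < d) (h0 : e0 * d + a0 = a2 + u * d)
    (h1 : e1 * d + a1 = a2 + v * d) (h2 : e2 * d + 0 = 0 + 128 * d) :
    (e0 : ℂ) + e1 * om + e2 * om ^ 2 =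
      -(d : ℂ)⁻¹ * (a0 + a1 * om + a2 * om ^ 2) + (u - 128 + (v - 128) * om) := by
  have hd' : (d : ℂ) ≠ 0 := by exact_mod_cast hd.ne'
  have g0 : (e0 : ℂ) * d + a0 = a2 + u * d := by exact_mod_cast h0
  have g1 : (e1 : ℂ) * d + a1 = a2 + v * d := by exact_mod_cast h1
  have g2 : (e2 : ℂ) * d + 0 = 0 + 128 * d := by exact_mod_cast h2
  refine mul_left_cancel₀ hd' ?_
  rw [neg_mul, mul_add (d : ℂ) (-((d : ℂ)⁻¹ * _)), mul_neg, mul_inv_cancel_left₀ hd', om_sq]
  linear_combination g0 + om * g1 + (-1 - om) * g2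

theorem finp_spec {dv : ℕ} (h0 : 0 < dv) (h9 : dv ≤ 9) (t z : ℕ) {st : ℕ} (hb : Bd st 20655)
    (h : finp dv t z st ≠ 0) : Bd (finp dv t z st) 255 ∧
      ∀ m < 2, vec (finp dv t z st) m = (dv : ℂ)⁻¹ • vec st m + trv t := by
  obtain ⟨h1, h2⟩ := KFin_core h0 h9 t z _ _ (KFin_P_le hb) (KFin_P_zero st) (KFin_Q_le hb)
    (KFin_Q_zero hb) (KFin_finp dv t z st) h
  refine ⟨h1, fun m hm => funext fun y => ?_⟩
  have hx := ix_lt y
  have g0 := h2 (ix y + 81 * m)
  have g1 := h2 (ix y + 81 * m + 162)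
  have g2 := h2 (ix y + 81 * m + 324)
  rw [KFin_digQ hb, KFin_digP, if_pos (by omega), if_pos (by omega), KFinG_0 t _ m hx hm,
    Nat.mod_eq_of_lt (show ix y + 81 * m < 162 by omega)] at g0
  rw [KFin_digQ hb, KFin_digP, if_pos (by omega), if_pos (by omega), KFinG_1 t _ m hx hm,
    show (ix y + 81 * m + 162) % 162 = ix y + 81 * m by omega] at g1
  rw [KFin_Q_zero hb _ (by omega), KFin_P_zero _ _ (by omega), KFinG_2 t _ m hx hm] at g2
  exact KFin_algp h0 g0 g1 g2

theorem finm_spec {dv : ℕ} (h0 : 0 < dv) (h9 : dv ≤ 9) (t z : ℕ) {st : ℕ} (hb : Bd st 20655)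
    (h : finm dv t z st ≠ 0) : Bd (finm dv t z st) 255 ∧
      ∀ m < 2, vec (finm dv t z st) m = (-(dv : ℂ)⁻¹) • vec st m + trv t := by
  obtain ⟨h1, h2⟩ := KFin_core h0 h9 t z _ _ (KFin_Q_le hb) (KFin_Q_zero hb) (KFin_P_le hb)
    (KFin_P_zero st) (KFin_finm dv t z st) h
  refine ⟨h1, fun m hm => funext fun y => ?_⟩
  have hx := ix_lt y
  have g0 := h2 (ix y + 81 * m)
  have g1 := h2 (ix y + 81 * m + 162)
  have g2 := h2 (ix y + 81 * m + 324)
  rw [KFin_digQ hb, KFin_digP, if_pos (by omega), if_pos (by omega), KFinG_0 t _ m hx hm,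
    Nat.mod_eq_of_lt (show ix y + 81 * m < 162 by omega)] at g0
  rw [KFin_digQ hb, KFin_digP, if_pos (by omega), if_pos (by omega), KFinG_1 t _ m hx hm,
    show (ix y + 81 * m + 162) % 162 = ix y + 81 * m by omega] at g1
  rw [KFin_Q_zero hb _ (by omega), KFin_P_zero _ _ (by omega), KFinG_2 t _ m hx hm] at g2
  exact KFin_algm h0 g0 g1 g2

theorem finp_z {dv t z st : ℕ} (h : finp dv t z st ≠ 0) : z = 0 := by
  rw [KFin_finp] at h
  exact (KFin_fin3 h).2.2.1

theorem finm_z {dv t z st : ℕ} (h : finm dv t z st ≠ 0) : z = 0 := by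
  rw [KFin_finm] at h
  exact (KFin_fin3 h).2.2.1

end Pool.Agent.MP_61a8e3_al.G4.K

end

section

/-! The gates lie in `NN`. -/

set_option autoImplicit false

namespace Pool.Agent.MP_61a8e3_al.G4.C

theorem CGate_af_update (c : ℕ) (i : Fin 4) (y : I) (t : ZMod 3) :
    af c (Function.update y i t) = af c y + dq c i.val * (t - y i) := by
  fin_cases i <;> simp [af] <;> ring

theorem CGate_af_add (c : ℕ) (y a : I) : af c (y + a) = af c y + (af c a - dq c 4) := by
  simp only [af, Pi.add_apply]; ring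

/-- The substitution. -/
def CGate_tau (i : Fin 4) (c : ℕ) (y : I) : I := Function.update y i (af c y)

theorem CGate_iter (i : Fin 4) (c : ℕ) (y : I) (k : ℕ) :
    (CGate_tau i c)^[k] y = Function.update y i
      ((fun t => (af c y - dq c i.val * y i) + dq c i.val * t)^[k] (y i)) := by
  induction k with
  | zero => simp
  | succ k ih =>
    rw [Function.iterate_succ_apply', Function.iterate_succ_apply', ih, CGate_tau,
      CGate_af_update, Function.update_idem]
    congr 1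
    ring

theorem CGate_six : ∀ r e t : ZMod 3, e ≠ 0 → (fun t => r + e * t)^[6] t = t := by decide

theorem CGate_sq : ∀ e : ZMod 3, e ≠ 0 → e * e = 1 := by decide

theorem CGate_iter6 (i : Fin 4) (c : ℕ) (h : dq c i.val ≠ 0) (y : I) :
    (CGate_tau i c)^[6] y = y := by
  rw [CGate_iter, CGate_six _ _ _ h, Function.update_eq_self]

/-- The substitution as a bijection. -/
def CGate_sig (i : Fin 4) (c : ℕ) (h : dq c i.val ≠ 0) : I ≃ I where
  toFun := CGate_tau i c
  invFun := (CGate_tau i c)^[5]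
  left_inv y := by
    rw [← Function.iterate_succ_apply]; exact CGate_iter6 i c h y
  right_inv y := by
    rw [← Function.iterate_succ_apply' (CGate_tau i c)]; exact CGate_iter6 i c h y

theorem CGate_perm_pow (σ : I ≃ I) (n : ℕ) (v : V) (y : I) :
    (mono σ (fun _ => 0) ^ n) v y = v (σ^[n] y) := by
  induction n generalizing v with
  | zero => simp
  | succ n ih =>
    rw [pow_succ, LinearEquiv.mul_apply, ih, mono_apply, ch_zero, one_mul,
      Function.iterate_succ_apply']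

theorem CGate_dot_tau (i : Fin 4) (c : ℕ) (b y : I) :
    dot b (CGate_tau i c y) = b i * dq c 4 +
      dot (fun j => Function.update b i 0 j + b i * dq c j.val) y := by
  fin_cases i <;> simp [dot, CGate_tau, af, Fin.sum_univ_four] <;> ring

theorem CGate_tau_add (i : Fin 4) (c : ℕ) (h : dq c i.val ≠ 0) (a y : I) :
    CGate_tau i c (y + Function.update a i
      (dq c i.val * (a i - (af c a - dq c 4 - dq c i.val * a i)))) = CGate_tau i c y + a := by
  funext j
  by_cases hj : j = i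
  · subst hj
    simp only [CGate_tau, Function.update_self, Pi.add_apply]
    rw [CGate_af_add, CGate_af_update]
    linear_combination (a j - (af c a - dq c 4 - dq c j.val * a j)) * CGate_sq _ h
  · simp [CGate_tau, Function.update_of_ne hj]

theorem isLin_R (i : Fin 4) (c : ℕ) (h : dq c i.val ≠ 0) : IsLin (Rf i c) := by
  refine ⟨mono (CGate_sig i c h) (fun _ => 0), ⟨mem_normalizer_of fun c0 a b => ?_,
    det_of_pow ?_⟩, fun v => ?_⟩
  · refine ⟨c0 + b i * dq c 4, Function.update a i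
      (dq c i.val * (a i - (af c a - dq c 4 - dq c i.val * a i))),
      fun j => Function.update b i 0 j + b i * dq c j.val, ?_⟩
    ext v y
    simp only [LinearEquiv.mul_apply, mono_apply, hei_apply, ch_zero, one_mul]
    change ch (c0 + dot b (CGate_tau i c y)) * v (CGate_tau i c y + a) = _ * v (CGate_tau i c _)
    rw [CGate_tau_add i c h, CGate_dot_tau, add_assoc]
  · ext v y
    rw [CGate_perm_pow]
    change v ((CGate_tau i c)^[6] y) = v y
    rw [CGate_iter6 i c h]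
  · funext y
    rw [mono_apply, ch_zero, one_mul]
    rfl

theorem CGate_diag_pow (q : I → ZMod 3) (n : ℕ) (v : V) (y : I) :
    (mono (Equiv.refl I) q ^ n) v y = ch (n * q y) * v y := by
  induction n generalizing v with
  | zero => simp [ch_zero]
  | succ n ih =>
    rw [pow_succ, LinearEquiv.mul_apply, ih, mono_apply, ← mul_assoc, ← ch_add]
    push_cast
    rw [add_mul, one_mul]
    rfl

theorem CGate_qf (c0 c1 c2 : ℕ) (a y : I) :
    qf c0 c1 c2 y = (qf c0 c1 c2 0 - qf c0 c1 c2 a) +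
      dot (fun j => qf c0 c1 c2 (Pi.single j 1) - qf c0 c1 c2 (Pi.single j 1 + a) -
        (qf c0 c1 c2 0 - qf c0 c1 c2 a)) y + qf c0 c1 c2 (y + a) := by
  simp [qf, dot, Fin.sum_univ_four]
  ring

theorem CGate_dot_add_left (b b' y : I) : dot (b + b') y = dot b y + dot b' y := by
  simp [dot, add_mul, Finset.sum_add_distrib]

theorem CGate_dot_add (b y y' : I) : dot b (y + y') = dot b y + dot b y' := by
  simp [dot, mul_add, Finset.sum_add_distrib]

theorem CGate_dot_single (b : I) (i : Fin 4) : dot b (Pi.single i 1) = b i := by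
  simp [dot, Pi.single_apply]

theorem isLin_D (c0 c1 c2 : ℕ) : IsLin (Df c0 c1 c2) := by
  refine ⟨mono (Equiv.refl I) (qf c0 c1 c2), ⟨mem_normalizer_of fun c a b => ?_,
    det_of_pow ?_⟩, fun v => rfl⟩
  · refine ⟨c + (qf c0 c1 c2 0 - qf c0 c1 c2 a), a,
      b + (fun j => qf c0 c1 c2 (Pi.single j 1) - qf c0 c1 c2 (Pi.single j 1 + a) -
        (qf c0 c1 c2 0 - qf c0 c1 c2 a)), ?_⟩
    ext v y
    simp only [LinearEquiv.mul_apply, mono_apply, hei_apply, Equiv.refl_apply]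
    rw [← mul_assoc, ← mul_assoc, ← ch_add, ← ch_add, CGate_dot_add_left]
    congr 2
    linear_combination CGate_qf c0 c1 c2 a y
  · ext v y
    rw [CGate_diag_pow]
    have : ((6 : ℕ) : ZMod 3) = 0 := by decide
    rw [this, zero_mul, ch_zero, one_mul]
    rfl

theorem CGate_upd (i : Fin 4) (y : I) (t : ZMod 3) :
    Function.update y i (y i + t) = y + Pi.single i t := by
  funext j
  by_cases hj : j = i
  · subst hj; simp
  · simp [hj]

theorem CGate_e3 (i : Fin 4) (y : I) :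
    y + Pi.single i 1 + Pi.single i 1 + Pi.single i 1 = y := by
  funext j
  by_cases hj : j = i
  · subst hj
    have h3 : (1 + 1 + 1 : ZMod 3) = 0 := by decide
    simp only [Pi.add_apply, Pi.single_eq_same]
    linear_combination h3
  · simp [hj]

theorem CGate_Gf (i : Fin 4) (s : ℕ) (v : V) (y : I) :
    Gf i s v y = om ^ s * v y + v (y + Pi.single i 1) + v (y + Pi.single i 1 + Pi.single i 1) := by
  rw [Gf, CGate_upd, CGate_upd, add_assoc y, ← Pi.single_add]
  rfl

theorem CGate_idem_pow {A : Type*} [Ring A] [Algebra ℂ A] {P : A} (hP : P * P = P) (x z : ℂ)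
    (n : ℕ) : (x • (1 - P) + z • P) ^ n = x ^ n • (1 - P) + z ^ n • P := by
  induction n with
  | zero => simp
  | succ n ih =>
    rw [pow_succ, ih]
    simp only [add_mul, mul_add, smul_mul_assoc, mul_smul_comm, mul_sub, sub_mul, hP, one_mul,
      mul_one, smul_sub, smul_add, smul_smul, pow_succ]
    module

/-- The averaging projection. -/
noncomputable def CGate_P (i : Fin 4) : Module.End ℂ V where
  toFun v y := (v y + v (y + Pi.single i 1) + v (y + Pi.single i 1 + Pi.single i 1)) / 3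
  map_add' v w := by funext y; simp only [Pi.add_apply]; ring
  map_smul' c v := by funext y; simp only [Pi.smul_apply, smul_eq_mul, RingHom.id_apply]; ring

theorem CGate_P_apply (i : Fin 4) (v : V) (y : I) : CGate_P i v y =
    (v y + v (y + Pi.single i 1) + v (y + Pi.single i 1 + Pi.single i 1)) / 3 := rfl

theorem CGate_P_idem (i : Fin 4) : CGate_P i * CGate_P i = CGate_P i := by
  refine LinearMap.ext fun v => funext fun y => ?_
  rw [Module.End.mul_apply]
  simp only [CGate_P_apply, CGate_e3]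
  ring

/-- The gate as an endomorphism. -/
noncomputable def CGate_U (i : Fin 4) (s : ℕ) : Module.End ℂ V :=
  ((om - 1)⁻¹ * (om ^ s - 1)) • (1 - CGate_P i) + ((om - 1)⁻¹ * (om ^ s + 2)) • CGate_P i

theorem CGate_U_apply (i : Fin 4) (s : ℕ) (v : V) (y : I) : CGate_U i s v y = (om - 1)⁻¹ *
    (om ^ s * v y + v (y + Pi.single i 1) + v (y + Pi.single i 1 + Pi.single i 1)) := by
  simp only [CGate_U, LinearMap.add_apply, LinearMap.smul_apply, LinearMap.sub_apply,
    Module.End.one_apply, Pi.add_apply, Pi.smul_apply, Pi.sub_apply, smul_eq_mul, CGate_P_apply]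
  ring

theorem CGate_U_pow (i : Fin 4) (s : ℕ) (hs : s = 1 ∨ s = 2) : CGate_U i s ^ 6 = 1 := by
  have h1 : om - 1 ≠ 0 := sub_ne_zero.2 om_ne_one
  have h6 : (om ^ 2) ^ 6 = 1 := by
    rw [← pow_mul, show 2 * 6 = 3 * 4 from rfl, pow_mul, om_cube, one_pow]
  have hx : ((om - 1)⁻¹ * (om ^ s - 1)) ^ 6 = 1 := by
    rcases hs with rfl | rfl
    · rw [pow_one, inv_mul_cancel₀ h1, one_pow]
    · have : (om - 1)⁻¹ * (om ^ 2 - 1) = -om ^ 2 := by
        rw [inv_mul_eq_iff_eq_mul₀ h1]; linear_combination om_cube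
      rw [this, Even.neg_pow (by decide), h6]
  have hz : ((om - 1)⁻¹ * (om ^ s + 2)) ^ 6 = 1 := by
    rcases hs with rfl | rfl
    · have : (om - 1)⁻¹ * (om ^ 1 + 2) = om ^ 2 := by
        rw [inv_mul_eq_iff_eq_mul₀ h1]; linear_combination om_sq - om_cube
      rw [this, h6]
    · have : (om - 1)⁻¹ * (om ^ 2 + 2) = -1 := by
        rw [inv_mul_eq_iff_eq_mul₀ h1]; linear_combination om_sq
      rw [this]; norm_num
  rw [CGate_U, CGate_idem_pow (CGate_P_idem i), hx, hz]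
  simp

/-- The gate as an automorphism. -/
noncomputable def CGate_E (i : Fin 4) (s : ℕ) (hs : s = 1 ∨ s = 2) : GV :=
  LinearEquiv.ofLinearMap (CGate_U i s) (CGate_U i s ^ 5 : Module.End ℂ V)
    (by
      have h := CGate_U_pow i s hs
      rw [pow_succ'] at h
      exact h)
    (by
      have h := CGate_U_pow i s hs
      rw [pow_succ] at h
      exact h)

theorem CGate_E_apply (i : Fin 4) (s : ℕ) (hs : s = 1 ∨ s = 2) (v : V) :
    CGate_E i s hs v = CGate_U i s v := rfl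

theorem CGate_comm (i : Fin 4) (s : ℕ) (hs : s = 1 ∨ s = 2) (a b : I) (hb : b i = 0) :
    CGate_E i s hs * hei 0 a b = hei 0 a b * CGate_E i s hs := by
  ext v y
  simp only [LinearEquiv.mul_apply, CGate_E_apply, CGate_U_apply, hei_apply, CGate_dot_add,
    CGate_dot_single, hb, add_zero, add_right_comm _ a]
  ring

theorem isLin_G (i : Fin 4) (s : ℕ) (hs : s = 1 ∨ s = 2) :
    IsLin (fun v => (om - 1)⁻¹ • Gf i s v) := by
  refine ⟨CGate_E i s hs, ⟨mem_normalizer_of_gen (fun j => ⟨_, _, _, CGate_comm i s hs _ _ rfl⟩)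
    fun j => ?_, det_of_pow ?_⟩, fun v => ?_⟩
  · by_cases hj : i = j
    · subst hj
      have c1 : ch 1 = om := by simpa using ch_natCast 1
      have hii : (Pi.single i 1 : I) i = 1 := by simp
      rcases hs with rfl | rfl
      · refine ⟨1, Pi.single i 1 + Pi.single i 1, Pi.single i 1, ?_⟩
        ext v y
        simp only [LinearEquiv.mul_apply, CGate_E_apply, CGate_U_apply, hei_apply, CGate_dot_add,
          CGate_dot_single, hii, add_zero, zero_add, ← add_assoc, CGate_e3, ch_add, c1]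
        ring
      · refine ⟨1 + 1, Pi.single i 1, Pi.single i 1, ?_⟩
        ext v y
        simp only [LinearEquiv.mul_apply, CGate_E_apply, CGate_U_apply, hei_apply, CGate_dot_add,
          CGate_dot_single, hii, add_zero, zero_add, ← add_assoc, CGate_e3, ch_add, c1]
        linear_combination (-((om - 1)⁻¹ * om * ch (dot (Pi.single i 1) y) *
          v (y + Pi.single i 1))) * om_cube
    · exact ⟨_, _, _, CGate_comm i s hs _ _ (by simp [hj])⟩
  · refine LinearEquiv.ext fun v => ?_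
    rw [LinearEquiv.pow_apply]
    have h := congrArg (fun f : Module.End ℂ V => f v) (CGate_U_pow i s hs)
    simp only [Module.End.pow_apply] at h
    exact h
  · funext y
    rw [CGate_E_apply, CGate_U_apply, ← CGate_Gf]
    rfl

end Pool.Agent.MP_61a8e3_al.G4.C

end

section

/-! Part K: labels acting on states. -/

set_option autoImplicit false

namespace Pool.Agent.MP_61a8e3_al.G4.K

open C

theorem KApp_e (z st : ℕ) : (app .e).1 z st = st := rfl
theorem KApp_fp (dv t z st : ℕ) : (app (.fp dv t)).1 z st = finp dv t z st := rfl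
theorem KApp_fm (dv t z st : ℕ) : (app (.fm dv t)).1 z st = finm dv t z st := rfl
theorem KApp_r (x : RG) (k : Lb) (z st : ℕ) :
    (app (.r x k)).1 z st = (app k).1 z (Rop x.A x.B x.u1 x.u2 x.s1 x.s2 st) := by
  cases x; rfl
theorem KApp_d (c0 c1 c2 : ℕ) (k : Lb) (z st : ℕ) :
    (app (.d c0 c1 c2 k)).1 z st = (app k).1 z (Dop c0 c1 c2 st) := rfl
theorem KApp_g (x : GG) (k : Lb) (z st : ℕ) :
    (app (.g x k)).1 z st = (app k).1 z (Gop x.gu x.s2 x.gz x.ps x.pm x.pq st) := by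
  cases x; rfl
theorem KApp_p (s : ℕ) (k : Lb) (z st : ℕ) :
    (app (.p s k)).1 z st = (app k).1 z (Pop s st) := rfl
theorem KApp_t (k : Lb) (z st : ℕ) : (app (.t k)).1 z st = (app k).1 z (Top st) := rfl

theorem KApp_ok_e {n : ℕ} (h : okL .e n = 0) : n = 0 := h

theorem KApp_ok_f {dv n : ℕ}
    (h : Nat.add (Nat.xor (Nat.mul dv dv) (Nat.pow 3 n)) (Nat.sub n 4) = 0) :
    dv * dv = 3 ^ n ∧ n ≤ 4 :=
  ⟨xor_eq_zero (add_eq_zero' h).1, Nat.sub_eq_zero_iff_le.1 (add_eq_zero' h).2⟩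

theorem KApp_ok_fp {dv t n : ℕ} (h : okL (.fp dv t) n = 0) : dv * dv = 3 ^ n ∧ n ≤ 4 :=
  KApp_ok_f h

theorem KApp_ok_fm {dv t n : ℕ} (h : okL (.fm dv t) n = 0) : dv * dv = 3 ^ n ∧ n ≤ 4 :=
  KApp_ok_f h

theorem KApp_ok_r {x : RG} {k : Lb} {n : ℕ} (h : okL (.r x k) n = 0) :
    okR x = 0 ∧ okL k n = 0 := add_eq_zero' (a := okR x) (b := okL k n) h

theorem KApp_ok_d {c0 c1 c2 : ℕ} {k : Lb} {n : ℕ} (h : okL (.d c0 c1 c2 k) n = 0) :
    okL k n = 0 := h

theorem KApp_ok_g {x : GG} {k : Lb} {n : ℕ} (h : okL (.g x k) n = 0) :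
    okG x = 0 ∧ okL k (n + 1) = 0 := add_eq_zero' (a := okG x) (b := okL k (n + 1)) h

theorem KApp_ok_p {s : ℕ} {k : Lb} {n : ℕ} (h : okL (.p s k) n = 0) : s ≤ 2 ∧ okL k n = 0 :=
  have h' := add_eq_zero' (a := s - 2) (b := okL k n) h
  ⟨Nat.sub_eq_zero_iff_le.1 h'.1, h'.2⟩

theorem KApp_ok_t {k : Lb} {n : ℕ} (h : okL (.t k) n = 0) : okL k (n + 1) = 0 := h

theorem KApp_le (l : Lb) : ∀ n, okL l n = 0 → n ≤ 4 := by
  induction l with
  | e => intro n h; rw [KApp_ok_e h]; omega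
  | fp dv t => exact fun n h => (KApp_ok_fp h).2
  | fm dv t => exact fun n h => (KApp_ok_fm h).2
  | r x k ih => exact fun n h => ih n (KApp_ok_r h).2
  | d c0 c1 c2 k ih => exact fun n h => ih n (KApp_ok_d h)
  | g x k ih => exact fun n h => (Nat.le_succ n).trans (ih _ (KApp_ok_g h).2)
  | p s k ih => exact fun n h => ih n (KApp_ok_p h).2
  | t k ih => exact fun n h => (Nat.le_succ n).trans (ih _ (KApp_ok_t h))

theorem KApp_dv {dv n : ℕ} (h : dv * dv = 3 ^ n) (hn : n ≤ 4) :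
    (0 < dv ∧ dv ≤ 9) ∧ ((dv : ℂ)⁻¹ * (om - 1) ^ n) ^ 6 = 1 := by
  have h1 : 3 ^ n ≤ 3 ^ 4 := Nat.pow_le_pow_right (by norm_num) hn
  have h9 : dv ≤ 9 := by nlinarith
  have h6 : (om - 1) ^ 6 = -27 := by
    have e : (om - 1) ^ 2 = -3 * om := by linear_combination om_sq
    calc (om - 1) ^ 6 = ((om - 1) ^ 2) ^ 3 := by ring
      _ = -27 * om ^ 3 := by rw [e]; ring
      _ = -27 := by rw [om_cube, mul_one]
  rw [mul_pow, ← pow_mul, mul_comm n, pow_mul, h6]
  interval_cases n <;> interval_cases dv <;> first | omega | norm_num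

theorem KApp_trv (t : ℕ) : trv t ∈ MM := by
  have e : trv t = fun y => (((((dig t (ix y) % 256 : ℕ) : ℤ) - 128 : ℤ) : ℂ) +
      ((((dig t (ix y) / 256 : ℕ) : ℤ) - 128 : ℤ) : ℂ) * om) := by
    funext y
    simp only [trv, Int.cast_sub, Int.cast_natCast, Int.cast_ofNat]
  rw [e]
  exact mem_MM _ _

theorem KApp_af (l : Lb) : ∀ n, okL l n = 0 → ∀ h : V → V, IsLin h →
    IsAf (fun v => sem l ((om - 1) ^ n • h v)) := by
  induction l with
  | e =>
    intro n hn h hh
    rw [KApp_ok_e hn]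
    simpa [sem] using hh.isAf (zero_mem _)
  | fp dv t =>
    intro n hn h hh
    have h1 := (KApp_dv (KApp_ok_fp hn).1 (KApp_ok_fp hn).2).2
    simpa only [sem, smul_smul] using ((isLin_smul h1).comp hh).isAf (KApp_trv t)
  | fm dv t =>
    intro n hn h hh
    have h1 := (KApp_dv (KApp_ok_fm hn).1 (KApp_ok_fm hn).2).2
    have h2 : (-(dv : ℂ)⁻¹ * (om - 1) ^ n) ^ 6 = 1 := by
      rw [neg_mul, Even.neg_pow (by norm_num), h1]
    simpa only [sem, smul_smul] using ((isLin_smul h2).comp hh).isAf (KApp_trv t)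
  | r x k ih =>
    intro n hn h hh
    exact ih n (KApp_ok_r hn).2 _ ((isLin_R _ _ (okR_dq (KApp_ok_r hn).1)).comp hh)
  | d c0 c1 c2 k ih =>
    intro n hn h hh
    have e : ∀ w : V, Df c0 c1 c2 ((om - 1) ^ n • w) = (om - 1) ^ n • Df c0 c1 c2 w := fun w => by
      funext y
      simp only [Df, Pi.smul_apply, smul_eq_mul]
      ring
    simpa only [sem, e] using ih n (KApp_ok_d hn) _ ((isLin_D c0 c1 c2).comp hh)
  | g x k ih =>
    intro n hn h hh
    have h0 : om - 1 ≠ 0 := sub_ne_zero.2 om_ne_one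
    have e : ∀ w : V, Gf (co x.c) (x.c / 4) ((om - 1) ^ n • w) =
        (om - 1) ^ (n + 1) • (om - 1)⁻¹ • Gf (co x.c) (x.c / 4) w := fun w => by
      rw [smul_smul, pow_succ, mul_assoc, mul_inv_cancel₀ h0, mul_one]
      funext y
      simp only [Gf, Pi.smul_apply, smul_eq_mul]
      ring
    simpa only [sem, e] using
      ih _ (KApp_ok_g hn).2 _ ((isLin_G (co x.c) _ (okG_s (KApp_ok_g hn).1)).comp hh)
  | p s k ih =>
    intro n hn h hh
    have h1 : (om ^ s) ^ 6 = 1 := by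
      rw [← pow_mul, show s * 6 = 3 * (2 * s) by ring, pow_mul, om_cube, one_pow]
    have e : ∀ w : V, om ^ s • (om - 1) ^ n • w = (om - 1) ^ n • om ^ s • w := fun w =>
      smul_comm _ _ _
    simpa only [sem, e] using ih n (KApp_ok_p hn).2 _ ((isLin_smul h1).comp hh)
  | t k ih =>
    intro n hn h hh
    have h1 : (om ^ 2) ^ 6 = 1 := by
      rw [← pow_mul, show 2 * 6 = 3 * 4 by norm_num, pow_mul, om_cube, one_pow]
    have e : ∀ w : V, (2 + om) • (om - 1) ^ n • w = (om - 1) ^ (n + 1) • om ^ 2 • w := fun w => by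
      rw [smul_smul, smul_smul]
      congr 1
      linear_combination (om - 1) ^ n * om_sq - (om - 1) ^ n * om_cube
    simpa only [sem, e] using ih _ (KApp_ok_t hn) _ ((isLin_smul h1).comp hh)

theorem KApp_sr (n : ℕ) : Nat.shiftRight 0 n = 0 := Nat.zero_shiftRight n
theorem KApp_sl (n : ℕ) : Nat.shiftLeft 0 n = 0 := Nat.zero_shiftLeft n
theorem KApp_land (n : ℕ) : Nat.land 0 n = 0 := Nat.zero_and n
theorem KApp_mul (n : ℕ) : Nat.mul 0 n = 0 := Nat.zero_mul n
theorem KApp_xor : Nat.xor 0 0 = 0 := rfl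
theorem KApp_add : Nat.add 0 0 = 0 := rfl
theorem KApp_sub : Nat.sub 0 0 = 0 := rfl

theorem KApp_R0 (A B u1 u2 s1 s2 : ℕ) : Rop A B u1 u2 s1 s2 0 = 0 := by
  unfold Rop
  rw [KApp_sr, KApp_xor, KApp_land, KApp_mul, KApp_xor, KApp_sr, KApp_xor, KApp_land, KApp_mul,
    KApp_xor]

theorem KApp_D0 (c0 c1 c2 : ℕ) : Dop c0 c1 c2 0 = 0 := by
  unfold Dop
  rw [KApp_land, KApp_sl, KApp_add, KApp_sr, KApp_sr, KApp_land, KApp_land, KApp_add]

theorem KApp_G0 (gu s2 gz ps pm pq : ℕ) : Gop gu s2 gz ps pm pq 0 = 0 := by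
  unfold Gop
  rw [KApp_mul, KApp_sr, KApp_land, KApp_mul, KApp_sub, KApp_sr, KApp_land, KApp_sl, KApp_add]

theorem KApp_P0 (s : ℕ) : Pop s 0 = 0 := by
  unfold Pop
  rw [KApp_sr, KApp_land, KApp_sl, KApp_add]

theorem KApp_T0 : Top 0 = 0 := by
  unfold Top
  rw [KApp_sr, KApp_land, KApp_sl, KApp_add]

theorem KApp_ne (l : Lb) (z : ℕ) : ∀ st, (app l).1 z st ≠ 0 → z = 0 ∨ st ≠ 0 := by
  induction l with
  | e => exact fun st h => Or.inr h
  | fp dv t => exact fun st h => Or.inl (finp_z (KApp_fp dv t z st ▸ h))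
  | fm dv t => exact fun st h => Or.inl (finm_z (KApp_fm dv t z st ▸ h))
  | r x k ih =>
    intro st h
    rw [KApp_r] at h
    exact (ih _ h).imp_right fun h' e => h' (by rw [e, KApp_R0])
  | d c0 c1 c2 k ih =>
    intro st h
    rw [KApp_d] at h
    exact (ih _ h).imp_right fun h' e => h' (by rw [e, KApp_D0])
  | g x k ih =>
    intro st h
    rw [KApp_g] at h
    exact (ih _ h).imp_right fun h' e => h' (by rw [e, KApp_G0])
  | p s k ih =>
    intro st h
    rw [KApp_p] at h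
    exact (ih _ h).imp_right fun h' e => h' (by rw [e, KApp_P0])
  | t k ih =>
    intro st h
    rw [KApp_t] at h
    exact (ih _ h).imp_right fun h' e => h' (by rw [e, KApp_T0])

theorem KApp_mono {st n n' : ℕ} (h : Bd st n) (hn : n ≤ n') : Bd st n' :=
  ⟨h.1, fun s => (h.2 s).trans hn⟩

theorem KApp_pow {n : ℕ} (hn : n ≤ 4) : 255 * 3 ^ n ≤ 20655 := by
  have h1 : 3 ^ n ≤ 3 ^ 4 := Nat.pow_le_pow_right (by norm_num) hn
  omega

theorem KApp_spec (l : Lb) (z : ℕ) : ∀ n st, okL l n = 0 → Bd st (255 * 3 ^ n) →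
    (app l).1 z st ≠ 0 →
      Bd ((app l).1 z st) 255 ∧ ∀ m < 2, vec ((app l).1 z st) m = sem l (vec st m) := by
  induction l with
  | e =>
    intro n st hn hb _
    rw [KApp_ok_e hn] at hb
    exact ⟨hb, fun _ _ => rfl⟩
  | fp dv t =>
    intro n st hn hb h
    have h1 := (KApp_dv (KApp_ok_fp hn).1 (KApp_ok_fp hn).2).1
    rw [KApp_fp] at h ⊢
    exact finp_spec h1.1 h1.2 t z (KApp_mono hb (KApp_pow (KApp_ok_fp hn).2)) h
  | fm dv t =>
    intro n st hn hb h
    have h1 := (KApp_dv (KApp_ok_fm hn).1 (KApp_ok_fm hn).2).1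
    rw [KApp_fm] at h ⊢
    exact finm_spec h1.1 h1.2 t z (KApp_mono hb (KApp_pow (KApp_ok_fm hn).2)) h
  | r x k ih =>
    intro n st hn hb h
    rw [KApp_r] at h ⊢
    obtain ⟨h1, h2⟩ := Rop_spec (KApp_ok_r hn).1 hb
    obtain ⟨h3, h4⟩ := ih n _ (KApp_ok_r hn).2 h1 h
    exact ⟨h3, fun m hm => by rw [h4 m hm, h2 m hm, sem]⟩
  | d c0 c1 c2 k ih =>
    intro n st hn hb h
    rw [KApp_d] at h ⊢
    obtain ⟨h1, h2⟩ := Dop_spec c0 c1 c2 hb
    obtain ⟨h3, h4⟩ := ih n _ (KApp_ok_d hn) h1 h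
    exact ⟨h3, fun m hm => by rw [h4 m hm, h2 m hm, sem]⟩
  | g x k ih =>
    intro n st hn hb h
    rw [KApp_g] at h ⊢
    have h0 := KApp_pow (KApp_le _ _ (KApp_ok_g hn).2)
    have e : 255 * 3 ^ (n + 1) = 3 * (255 * 3 ^ n) := by ring
    obtain ⟨h1, h2⟩ := Gop_spec (KApp_ok_g hn).1 (by omega) hb
    obtain ⟨h3, h4⟩ := ih (n + 1) _ (KApp_ok_g hn).2 (e ▸ h1) h
    exact ⟨h3, fun m hm => by rw [h4 m hm, h2 m hm, sem]⟩
  | p s k ih =>
    intro n st hn hb h
    rw [KApp_p] at h ⊢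
    obtain ⟨h1, h2⟩ := Pop_spec (KApp_ok_p hn).1 hb
    obtain ⟨h3, h4⟩ := ih n _ (KApp_ok_p hn).2 h1 h
    exact ⟨h3, fun m hm => by rw [h4 m hm, h2 m hm, sem]⟩
  | t k ih =>
    intro n st hn hb h
    rw [KApp_t] at h ⊢
    have h0 := KApp_pow (KApp_le _ _ (KApp_ok_t hn))
    have e : 255 * 3 ^ (n + 1) = 3 * (255 * 3 ^ n) := by ring
    obtain ⟨h1, h2⟩ := Top_spec (by omega) hb
    obtain ⟨h3, h4⟩ := ih (n + 1) _ (KApp_ok_t hn) (e ▸ h1) h
    exact ⟨h3, fun m hm => by rw [h4 m hm, h2 m hm, sem]⟩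

theorem KApp_xn : ∀ y : I, CRig1_n y = (xn (ix y) : ℕ) := by decide +kernel

theorem KApp_xj (y : I) : xj y = (xn (ix y) : ℕ) := by
  rw [CRig1_xj, KApp_xn, Int.cast_natCast]

theorem KApp_xn_le (x : ℕ) : xn x ≤ 6 := by
  unfold xn
  split_ifs <;> omega

theorem KApp_vec (st m : ℕ) : vec st m ∈ MM := by
  have e : vec st m = fun y =>
      ((((dig st (ix y + 81 * m) : ℤ) - (dig st (ix y + 81 * m + 324) : ℤ) : ℤ) : ℂ) +
      (((dig st (ix y + 81 * m + 162) : ℤ) - (dig st (ix y + 81 * m + 324) : ℤ) : ℤ) : ℂ) * om) := by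
    funext y
    simp only [vec, Int.cast_sub, Int.cast_natCast, om_sq]
    ring
  rw [e]
  exact mem_MM _ _

theorem isAf_sem {l : Lb} (h : okL l 0 = 0) : IsAf (sem l) := by
  simpa using KApp_af l 0 h _ isLin_id

theorem ap_ne {l : Lb} {s : ℕ} (h : ap l s ≠ 0) : s ≠ 0 := by
  rintro rfl
  rcases KApp_ne l _ _ h with h | h
  · exact absurd h (by decide)
  · exact h rfl

theorem ap_spec {l : Lb} (hl : okL l 0 = 0) {s : ℕ} (hb : Bd s 255) (h : ap l s ≠ 0) :
    Bd (ap l s) 255 ∧ ∀ m < 2, vec (ap l s) m = sem l (vec s m) :=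
  KApp_spec l _ 0 s hl hb h

theorem Rp.ap {l : Lb} (hl : okL l 0 = 0) {s : ℕ} {g : V → V} (h : Rp s g) :
    Rp (ap l s) (fun v => sem l (g v)) := by
  refine ⟨(isAf_sem hl).comp h.1, fun h0 => ?_⟩
  obtain ⟨h1, h2, h3⟩ := h.2 (ap_ne h0)
  obtain ⟨h4, h5⟩ := ap_spec hl h1 h0
  exact ⟨h4, by rw [h5 0 (by norm_num), h2], by rw [h5 1 (by norm_num), h3]⟩

theorem Rp.its {l : Lb} (hl : okL l 0 = 0) {s : ℕ} {g : V → V} (h : Rp s g) (n : ℕ) :
    Rp (its n l s) (fun v => (sem l)^[n] (g v)) := by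
  induction n with
  | zero => exact h
  | succ n ih =>
    simp only [Function.iterate_succ_apply']
    exact ih.ap hl

theorem st0_ne : st0 ≠ 0 := by
  intro h
  have h1 := pat_st0 0
  rw [h, dig_zero] at h1
  simp at h1

theorem rp_st0 : Rp st0 (fun v => v) := by
  refine ⟨isAf_id, fun _ => ⟨⟨pat_st0.lt, fun s => ?_⟩, funext fun y => ?_, funext fun y => ?_⟩⟩
  · have := KApp_xn_le (s - 81)
    rw [pat_st0 s]
    dsimp only
    split_ifs <;> omega
  · have := ix_lt y
    rw [vec, pat_st0, pat_st0, pat_st0, if_pos (by omega), if_pos (by omega), if_pos (by omega)]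
    dsimp only
    rw [if_neg (by omega), if_neg (by omega), if_neg (by omega), om_sq]
    simp only [Pi.zero_apply]
    push_cast
    ring
  · have := ix_lt y
    rw [vec, pat_st0, pat_st0, pat_st0, if_pos (by omega), if_pos (by omega), if_pos (by omega)]
    dsimp only
    rw [if_pos (by omega), if_neg (by omega), if_neg (by omega), om_sq,
      show ix y + 81 * 1 - 81 = ix y by omega]
    simp only [Pi.smul_apply, smul_eq_mul, KApp_xj]
    push_cast
    ring

theorem rp_sF : Rp sF (fun v => v + vec sF 0) := by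
  refine ⟨isAf_add (KApp_vec _ _), fun _ => ⟨⟨sF_lt, fun s => ?_⟩, (zero_add _).symm,
    funext fun y => ?_⟩⟩
  · by_cases h : s < 486
    · exact sF_le s h
    · rw [dig_eq_zero_of_lt sF_lt (by omega)]; omega
  · have h0 := sF_tr _ (ix_lt y) 0 (by norm_num)
    have h1 := sF_tr _ (ix_lt y) 1 (by norm_num)
    have h2 := sF_tr _ (ix_lt y) 2 (by norm_num)
    simp only [Pi.add_apply, Pi.smul_apply, smul_eq_mul, KApp_xj, vec]
    generalize sF = w at *
    simp only [mul_zero, add_zero, mul_one, if_true, one_ne_zero, if_false, OfNat.ofNat_ne_zero,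
      Nat.reduceMul] at h0 h1 h2 ⊢
    rw [h0, h1, h2]
    push_cast
    ring

theorem vec_sF_ne : vec sF 0 ≠ 0 := by
  intro h
  have h1 := congrFun h 0
  have h2 : ix 0 = 0 := rfl
  simp only [vec, h2, mul_zero, add_zero, zero_add, sF_zero.1, sF_zero.2.1, sF_zero.2.2, om_sq,
    Pi.zero_apply] at h1
  have h3 : (3 : ℂ) = 0 := by
    push_cast at h1
    linear_combination h1
  norm_num at h3

theorem Rp.ext {s : ℕ} {g g' : V → V} (h : Rp s g) (h' : Rp s g') (hs : s ≠ 0) : g = g' := by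
  obtain ⟨-, h1, h2⟩ := h.2 hs
  obtain ⟨-, h3, h4⟩ := h'.2 hs
  exact h.1.ext2 h'.1 (h1.symm.trans h3) (h2.symm.trans h4)

theorem eqs_spec {s s' : ℕ} {g g' : V → V} (h : Rp s g) (h' : Rp s' g') (e : eqs s s' = 0) :
    g = g' := by
  obtain ⟨h1, h2⟩ := add_eq_zero' (a := Nat.xor s s') (b := 1 - s) e
  obtain rfl := xor_eq_zero h1
  exact h.ext h' (by omega)

end Pool.Agent.MP_61a8e3_al.G4.K

end

section

/-! Part K: shapes. -/

set_option autoImplicit false

namespace Pool.Agent.MP_61a8e3_al.G4.K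

theorem KShape_fx : ∀ k < 16, 2 ≤ k → fx k < 2 ^ (16 * 16) ∧
    ∀ s < 16, dig (fx k) s = if s = 0 ∨ k ≤ s then 65535 else 0 := by decide +kernel

theorem KShape_md : ∀ k < 16, md k < 2 ^ (16 * 16) ∧
    ∀ s < 16, dig (md k) s = if 2 ≤ s ∧ s < k then 65535 else 0 := by decide +kernel

theorem KShape_g : ∀ n < 16, g16 n < 2 ^ (16 * 16) ∧ ∀ s < 16, dig (g16 n) s = 128 - n := by
  decide +kernel

theorem KShape_ge {a n : ℕ} (hn : n < 16) (ha : ∀ s, dig a s ≤ 15) (s : ℕ) :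
    dig (ge a n) s = if s < 16 ∧ n ≤ dig a s then 1 else 0 := by
  have h1 := pat_of (KShape_g n hn).1 (KShape_g n hn).2
  have h2 : dig (a + g16 n) s = dig a s + dig (g16 n) s := dig_add _ _ (fun t => by
    have h3 := ha t
    rw [h1 t]
    dsimp only
    split_ifs <;> omega) s
  have h3 : ge a n = Nat.land (Nat.shiftRight (a + g16 n) 7) o16 := rfl
  have h4 := ha s
  rw [h3, dig_shr_land _ _ _ _ (by norm_num) (by
    rw [pat_o16 s]
    split_ifs <;> norm_num), h2, h1 s, pat_o16 s]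
  dsimp only
  by_cases hs : s < 16
  · rw [if_pos hs, if_pos hs]
    by_cases h5 : n ≤ dig a s
    · rw [if_pos ⟨hs, h5⟩, show (dig a s + (128 - n)) / 2 ^ 7 = 1 by omega]
      decide
    · rw [if_neg fun h => h5 h.2, show (dig a s + (128 - n)) / 2 ^ 7 = 0 by omega]
      decide
  · rw [if_neg hs, if_neg hs, if_neg fun h => hs h.1]
    exact land_zero' _

theorem KShape_mul {a n c : ℕ} (hn : n < 16) (ha : ∀ s, dig a s ≤ 15) (hc : c ≤ 15) (s : ℕ) :
    dig (ge a n * c) s = if s < 16 ∧ n ≤ dig a s then c else 0 := by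
  rw [dig_mul_small _ _ (fun t => by
    rw [KShape_ge hn ha]
    split_ifs <;> omega), KShape_ge hn ha]
  split_ifs <;> omega

theorem KShape_low (x s : ℕ) : dig (Nat.land x 65535) s = if s = 0 then dig x 0 else 0 := by
  have h1 : Pat 1 (fun _ => 65535) 65535 := pat_of (by norm_num) (by decide +kernel)
  rw [dig_mask x 65535 s (s = 0) (by
    rw [h1 s]
    dsimp only
    split_ifs <;> omega)]
  split_ifs with h
  · rw [h]
  · rfl

theorem spk_eq (k p : ℕ) : spk k p = A.sp k p := by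
  unfold spk A.sp
  by_cases h1 : p = 1
  · subst h1
    rfl
  have e1 : Nat.beq p (nat_lit 1) = false := by
    rw [← Bool.not_eq_true, Nat.beq_eq]
    exact h1
  rw [e1, if_neg h1]
  by_cases h2 : 2 ≤ p
  · have e2 : Nat.ble (nat_lit 2) p = true := Nat.ble_eq_true_of_le h2
    rw [e2]
    by_cases h3 : p < k
    · have e3 : Nat.ble (Nat.succ p) k = true := Nat.ble_eq_true_of_le h3
      rw [e3, if_pos ⟨h2, h3⟩]
      rfl
    · have e3 : Nat.ble (Nat.succ p) k = false := by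
        rw [← Bool.not_eq_true, Nat.ble_eq]
        exact h3
      rw [e3, if_neg fun h => h3 h.2]
  · have e2 : Nat.ble (nat_lit 2) p = false := by
      rw [← Bool.not_eq_true, Nat.ble_eq]
      exact h2
    rw [e2, if_neg fun h => h2 h.1]

theorem shc_spec {k a b : ℕ} (h2 : 2 ≤ k) (hk : k ≤ 15) (ha : ∀ s, dig a s ≤ 15)
    (hb : ∀ s, dig b s ≤ 15) (ha' : a < 2 ^ (16 * 16)) (h : shc k a b = 0) :
    ∀ i < 16, dig b (A.sp k i) = A.sp k (dig a i) := by
  intro i hi
  have e : Nat.land b (fx k) + Nat.land (Nat.shiftLeft b (16 * 1)) (md k) +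
      Nat.shiftLeft (Nat.land (Nat.shiftRight b (16 * (k - 1))) 65535) (16 * 1) +
      ge a 2 * (k - 1) = a + ge a k + ge a 1 * (k - 2) := xor_eq_zero h
  have p1 : ∀ s, dig (Nat.land b (fx k)) s =
      if s < 16 ∧ (s = 0 ∨ k ≤ s) then dig b s else 0 := fun s => dig_mask _ _ _ _ (by
    rw [pat_of (KShape_fx k (by omega) h2).1 (KShape_fx k (by omega) h2).2 s]
    dsimp only
    split_ifs <;> omega)
  have p2 : ∀ s, dig (Nat.land (Nat.shiftLeft b (16 * 1)) (md k)) s =
      if 2 ≤ s ∧ s < k then dig b (s - 1) else 0 := fun s => by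
    rw [dig_mask _ _ _ (2 ≤ s ∧ s < k) (by
      rw [pat_of (KShape_md k (by omega)).1 (KShape_md k (by omega)).2 s]
      dsimp only
      split_ifs <;> omega), dig_shiftLeft]
    split_ifs <;> omega
  have p3 : ∀ s, dig (Nat.shiftLeft (Nat.land (Nat.shiftRight b (16 * (k - 1))) 65535) (16 * 1)) s =
      if s = 1 then dig b (k - 1) else 0 := fun s => by
    rw [dig_shiftLeft, KShape_low, dig_shiftRight, zero_add]
    split_ifs <;> omega
  have p4 := KShape_mul (c := k - 1) (show 2 < 16 by norm_num) ha (by omega)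
  have p5 := KShape_ge (show k < 16 by omega) ha
  have p6 := KShape_mul (c := k - 2) (show 1 < 16 by norm_num) ha (by omega)
  generalize Nat.land b (fx k) = x1 at e p1
  generalize Nat.land (Nat.shiftLeft b (16 * 1)) (md k) = x2 at e p2
  generalize Nat.shiftLeft (Nat.land (Nat.shiftRight b (16 * (k - 1))) 65535) (16 * 1) = x3 at e p3
  generalize ge a 2 * (k - 1) = x4 at e p4
  generalize ge a k = x5 at e p5
  generalize ge a 1 * (k - 2) = x6 at e p6
  have q1 : ∀ s, dig x1 s ≤ 15 := fun s => by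
    rw [p1]
    split_ifs
    exacts [hb _, Nat.zero_le _]
  have q2 : ∀ s, dig x2 s ≤ 15 := fun s => by
    rw [p2]
    split_ifs
    exacts [hb _, Nat.zero_le _]
  have q3 : ∀ s, dig x3 s ≤ 15 := fun s => by
    rw [p3]
    split_ifs
    exacts [hb _, Nat.zero_le _]
  have q4 : ∀ s, dig x4 s ≤ 15 := fun s => by
    rw [p4]
    split_ifs <;> omega
  have q5 : ∀ s, dig x5 s ≤ 15 := fun s => by
    rw [p5]
    split_ifs <;> omega
  have q6 : ∀ s, dig x6 s ≤ 15 := fun s => by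
    rw [p6]
    split_ifs <;> omega
  have r1 := dig_add x1 x2 fun s => by
    have := q1 s
    have := q2 s
    omega
  have r2 := dig_add (x1 + x2) x3 fun s => by
    have := q1 s
    have := q2 s
    have := q3 s
    rw [r1]
    omega
  have r3 := dig_add (x1 + x2 + x3) x4 fun s => by
    have := q1 s
    have := q2 s
    have := q3 s
    have := q4 s
    rw [r2, r1]
    omega
  have r4 := dig_add a x5 fun s => by
    have := ha s
    have := q5 s
    omega
  have r5 := dig_add (a + x5) x6 fun s => by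
    have := ha s
    have := q5 s
    have := q6 s
    rw [r4]
    omega
  have e' := congrArg (dig · i) e
  simp only [r3, r2, r1, r5, r4] at e'
  have e1 : dig x1 i + dig x2 i + dig x3 i = dig b (A.sp k i) := by
    rw [p1, p2, p3, A.sp]
    split_ifs <;> omega
  rw [e1, p4, p5, p6] at e'
  generalize dig b (A.sp k i) = y at e' ⊢
  rw [A.sp]
  split_ifs at e' ⊢ <;> omega

variable (D : ℕ → Cl)

theorem sh_pat {c : ℕ} (h : Nat.xor (Nat.land (D c).sh n16) (D c).sh = 0) :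
    Pat 16 (kof D c) (D c).sh ∧ ∀ n, kof D c n ≤ 15 := by
  have h1 : ∀ s, dig (D c).sh s = Nat.land (dig (D c).sh s) (if s < 16 then 15 else 0) :=
    fun s => by rw [← pat_n16 s, ← dig_land, xor_eq_zero h]
  refine ⟨fun s => ?_, fun n => ?_⟩
  · split_ifs with hs
    · rw [kof, Nat.mod_eq_of_lt hs]
    · rw [h1, if_neg hs]
      exact land_zero' _
  · rw [kof, h1, if_pos (Nat.mod_lt _ (by norm_num))]
    exact Nat.and_le_right

theorem rel_pat {c : ℕ} (h : Nat.xor (Nat.land (D c).sh n16) (D c).sh = 0) {j : ℕ} (hj : j ≤ 16) :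
    Pat 16 (fun i => kof D c (j + i)) (rel D c j) := by
  obtain ⟨h1, h2⟩ := sh_pat D h
  have e : rel D c j = Nat.land (Nat.shiftRight ((D c).sh + Nat.shiftLeft (D c).sh (16 * 16))
      (16 * j)) m16 := by
    rw [mul_comm 16 j]
    rfl
  intro s
  rw [e, dig_mask _ _ _ _ (pat_m16 s), dig_shiftRight, dig_add _ _ (fun t => by
    have h3 := h2 t
    have h4 := h2 (t - 16)
    rw [dig_shiftLeft, h1 t, h1 (t - 16)]
    split_ifs <;> omega), dig_shiftLeft, h1 (s + j), h1 (s + j - 16)]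
  by_cases hs : s < 16
  · rw [if_pos hs, if_pos hs]
    by_cases h3 : s + j < 16
    · rw [if_pos h3, if_pos h3, add_zero, add_comm]
    · rw [if_neg h3, if_neg h3, if_pos (by omega), zero_add]
      unfold kof
      congr 1
      omega
  · rw [if_neg hs, if_neg hs]

theorem ab_pat {c : ℕ} (h : Nat.xor (Nat.land (D c).sh n16) (D c).sh = 0) {j : ℕ} (hj : j ≤ 16) :
    Pat 16 (shp D c j) (ab D c j) := by
  have h1 := rel_pat D h hj
  have h2 := (sh_pat D h).2
  have e : ab D c j = Nat.land (rel D c j + i16) n16 := rfl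
  intro s
  rw [e, dig_land, dig_add _ _ (fun t => by
    have h3 := h2 (j + t)
    rw [h1 t, pat_i16 t]
    dsimp only
    split_ifs <;> omega), h1 s, pat_i16 s, pat_n16 s]
  split_ifs
  · rw [shp, add_comm s]
    exact Nat.and_two_pow_sub_one_eq_mod _ 4
  · exact land_zero' _

theorem std_shp {c : ℕ} (h : ∀ n, kof D c n ≤ 15) (j : ℕ) :
    (∀ i < 16, kof D c (j + i) = dig std i) ↔
      ∀ i < 16, shp D c j i = [2, 3, 0, 1, 6, 7, 4, 5, 10, 11, 8, 9, 14, 15, 12, 13].getD i 0 := by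
  refine forall₂_congr fun i hi => ?_
  have h1 := h (j + i)
  rw [pat_std i, if_pos hi, shp]
  generalize kof D c (j + i) = x at h1 ⊢
  revert x i
  decide +kernel

end Pool.Agent.MP_61a8e3_al.G4.K

end

section

/-! Part K: slides and rotations of points. -/

set_option autoImplicit false

namespace Pool.Agent.MP_61a8e3_al.G4.K

open C

theorem KEmb_div {p : ℕ} (hp : 0 < p) (n : ℕ) : (n % p + 1) / p + n / p = (n + 1) / p := by
  conv_rhs => rw [← Nat.mod_add_div n p, Nat.add_right_comm, Nat.add_mul_div_left _ _ hp]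

theorem KEmb_kof {D : ℕ → Cl} {c : ℕ} (h : Gc D c) (m t : ℕ) :
    kof D c (m + pe D c * t) = kof D c m := by
  induction t with
  | zero => rfl
  | succ t ih => rw [Nat.mul_succ, ← add_assoc, h.per, ih]

theorem KEmb_sub {D : ℕ → Cl} {c n : ℕ} (hp : 0 < pe D c) (hn : pe D c ≤ n) (v : V) :
    E D c n v = E D c (n - pe D c) (sem (D c).iso v) := by
  rw [E, E, Nat.mod_eq_sub_mod hn, Nat.div_eq_sub_div hp hn, Function.iterate_succ_apply]

variable {D : ℕ → Cl} (h : Good D) {c : ℕ} (hc : c < 14118)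
include h hc

theorem E_lt {j : ℕ} (hj : j < pe D c) (v : V) : E D c j v = (c, j, v) := by
  rw [E, Nat.mod_eq_of_lt hj, Nat.div_eq_of_lt hj, Function.iterate_zero_apply]

theorem R0_E (n : ℕ) (v : V) : R0 D (E D c n v) = E D c (n + 1) v := by
  change E D c (n % pe D c + 1) ((sem (D c).iso)^[n / pe D c] v) = _
  rw [E, E, Nat.mod_add_mod, ← Function.iterate_add_apply, KEmb_div (h c hc).pos]

theorem R0_it (q n : ℕ) (v : V) : (R0 D)^[q] (E D c n v) = E D c (n + q) v := by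
  induction q with
  | zero => rfl
  | succ q ih => rw [Function.iterate_succ_apply', ih, R0_E h hc, add_assoc]

theorem E_mod (n : ℕ) (v : V) : E D c (n % 16) v = E D c n v := by
  have hg := h c hc
  have h1 := rp_st0.its hg.ok (16 / pe D c)
  rw [hg.ord] at h1
  have h2 : (sem (D c).iso)^[16 / pe D c] = id := h1.ext rp_st0 st0_ne
  have h3 : n / pe D c = n % 16 / pe D c + 16 / pe D c * (n / 16) := by
    obtain ⟨t, ht⟩ := hg.dvd
    have h4 : 16 / pe D c = t := Nat.div_eq_of_eq_mul_right hg.pos ht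
    rw [h4, ← Nat.add_mul_div_left _ _ hg.pos, ← mul_assoc, ← ht, Nat.mod_add_div]
  rw [E, E, Nat.mod_mod_of_dvd _ hg.dvd, h3, Function.iterate_add_apply, Function.iterate_mul, h2,
    Function.iterate_id, id]

theorem E_inj {n : ℕ} {v w : V} (e : E D c n v = E D c n w) : v = w :=
  ((isAf_sem (h c hc).ok).bijective.1.iterate (n / pe D c)) (congrArg (fun x : Pt => x.2.2) e)

theorem sh0_E (n : ℕ) (v : V) (i : ℕ) : sh0 D (E D c n v) i = shp D c n i := by
  change shp D c (n % pe D c) i = _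
  rw [shp, shp, ← KEmb_kof (h c hc) (n % pe D c + i) (n / pe D c), Nat.add_right_comm,
    Nat.mod_add_div]

theorem shp_zero (n : ℕ) : shp D c n 0 = kof D c n := by
  have := (h c hc).le n
  rw [shp, zero_add, add_zero, Nat.mod_eq_of_lt (by omega)]

theorem gd_mod (n : ℕ) : Gd D c (n % 16) := (h c hc).gd _ (Nat.mod_lt _ (by norm_num))

theorem slw_spec {j s j' s' : ℕ} {g g' : V → V} (hs : Rp s g) (hs' : Rp s' g')
    (e : slw D c j s j' s' = 0) (v : V) : E D c j (g v) = E D c j' (g' v) := by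
  obtain ⟨e1, e2⟩ := add_eq_zero' e
  have e3 : j % pe D c = j' % pe D c := xor_eq_zero e1
  have e4 := congrFun (eqs_spec (hs.its (h c hc).ok _) (hs'.its (h c hc).ok _) e2) v
  exact Prod.ext rfl (Prod.ext e3 e4)

theorem fn_spec {j s c' j' s' : ℕ} {g g' : V → V} (hs : Rp s g) (hs' : Rp s' g')
    (e : fn D c j s c' j' s' = 0) (v : V) : E D c j (g v) = E D c' j' (g' v) := by
  have e0 : Nat.add (Nat.xor c c') (Bool.rec (slw D c j s j' s') (eqs s s') (Nat.beq j j')) = 0 := e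
  obtain ⟨e1, e2⟩ := add_eq_zero' e0
  obtain rfl := xor_eq_zero e1
  cases hb : Nat.beq j j' with
  | false =>
    rw [hb] at e2
    exact slw_spec h hc hs hs' e2 v
  | true =>
    rw [hb] at e2
    rw [Nat.eq_of_beq_eq_true hb, eqs_spec hs hs' e2]

theorem T0_E (n : ℕ) (v : V) :
    T0 D (E D c n v) = E D (ent D c n).tc (ent D c n).tj (sem (ent D c n).tl v) := by
  have key : ∀ m, m < 16 → ∀ v, T0 D (E D c m v) =
      E D (ent D c m).tc (ent D c m).tj (sem (ent D c m).tl v) := fun m => by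
    induction m using Nat.strong_induction_on with
    | _ m ih =>
      intro hm v
      have hg := h c hc
      rcases lt_or_ge m (pe D c) with h1 | h1
      · rw [E_lt h hc h1]
        rfl
      · have h2 := hg.gd m hm
        have h3 := hg.gd (m - pe D c) (by omega)
        have h4 := h2.cmp
        rw [cCmp, Nat.ble_eq_true_of_le h1] at h4
        change stp D c (m - pe D c) 0 _ _ = 0 at h4
        rw [stp_eq, add_zero] at h4
        have h5 := hg.pos
        rw [KEmb_sub hg.pos h1, ih _ (by omega) (by omega)]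
        exact (fn_spec h h2.tc (rp_st0.ap h2.ok) ((rp_st0.ap hg.ok).ap h3.ok) h4 v).symm
  rw [← E_mod h hc, key _ (Nat.mod_lt _ (by norm_num)), ent_mod]

theorem stp_spec {j n s : ℕ} {K : ℕ → ℕ → ℕ → ℕ → ℕ} {g : V → V} (hs : Rp s g)
    (e : stp D c j n s K = 0) : ∃ c' j' s' g', c' < 14118 ∧ j' < 16 ∧ Rp s' g' ∧
      K c' j' (kof D c (j + n)) s' = 0 ∧ c' = (ent D c (j + n)).tc ∧ j' = (ent D c (j + n)).tj ∧
      ∀ v, T0 D (E D c (j + n) (g v)) = E D c' j' (g' v) := by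
  have hg := gd_mod h hc (j + n)
  have h1 := hg.tc
  have h2 := hg.tj
  have h3 := hg.tk
  have h4 := hg.ok
  rw [ent_mod] at h1 h2 h3 h4
  rw [kof_mod] at h3
  rw [stp_eq, h3] at e
  exact ⟨_, _, _, _, h1, h2, hs.ap h4, e, rfl, rfl, fun v => T0_E h hc _ _⟩

end Pool.Agent.MP_61a8e3_al.G4.K

end

section

/-! Part K: the triangles and the twists. -/

set_option autoImplicit false

namespace Pool.Agent.MP_61a8e3_al.G4.K

open C

/-- one step of a triangle -/
noncomputable def KCell1_G (D : ℕ → Cl) (x : Pt) : Pt := (R0 D)^[sh0 D x 0 - 1] (T0 D x)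

theorem KCell1_land (a : ℕ) : Nat.land a 15 = a % 16 := Nat.and_two_pow_sub_one_eq_mod a 4

theorem KCell1_rec {a b : ℕ} {t : Bool} (e : Bool.rec (motive := fun _ => ℕ) a b t = 0) :
    t = false ∧ a = 0 ∨ t = true ∧ b = 0 := by
  cases t
  exacts [Or.inl ⟨rfl, e⟩, Or.inr ⟨rfl, e⟩]

section

variable {D : ℕ → Cl} (h : Good D)
include h

theorem KCell1_stp {c j n s : ℕ} (hc : c < 14118) {K : ℕ → ℕ → ℕ → ℕ → ℕ} {g : V → V}
    (hs : Rp s g) (e : stp D c j n s K = 0) : ∃ c' j' k s' g', c' < 14118 ∧ Rp s' g' ∧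
      K c' j' k s' = 0 ∧ ∀ v, KCell1_G D (E D c (j + n) (g v)) = E D c' (j' + (k - 1)) (g' v) := by
  obtain ⟨c', j', s', g', h1, -, h2, h3, -, -, h4⟩ := stp_spec h hc hs e
  exact ⟨c', j', _, s', g', h1, h2, h3, fun v => by
    rw [KCell1_G, h4, sh0_E h hc, shp_zero h hc, R0_it h h1]⟩

theorem KCell1_tri (c : ℕ) : c < 14118 → ∀ j v,
    KCell1_G D (KCell1_G D (KCell1_G D (E D c j v))) = E D c j v := by
  induction c using Nat.strong_induction_on with
  | _ c ih =>
  intro hc j v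
  rw [← E_mod h hc j]
  have e0 := (stp_eq D c (j % 16) 0 st0 (cTri D c (j % 16))).trans
    ((gd_mod h hc j).tk ▸ (gd_mod h hc j).tri)
  generalize j % 16 = j at e0
  obtain ⟨c1, j1, k1, s1, g1, a1, b1, e1, f1⟩ := KCell1_stp h hc rp_st0 e0
  obtain ⟨c2, j2, k2, s2, g2, a2, b2, e2, f2⟩ :=
    KCell1_stp h a1 (n := k1 - 1) (K := tr2 D c j c1) b1 e1
  obtain ⟨c3, j3, k3, s3, g3, a3, b3, e3, f3⟩ :=
    KCell1_stp h a2 (n := k2 - 1) (K := fT D (c - c1 + (c - c2)) c j) b2 e2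
  obtain ⟨e4, e5⟩ := add_eq_zero' (show fm D (c - c1 + (c - c2)) c j c3
    (Nat.land (j3 + (k3 - 1)) 15) s3 = 0 from e3)
  obtain rfl := xor_eq_zero e4
  rw [KCell1_land] at e5
  simp only [add_zero] at f1
  have f4 : ∀ v, KCell1_G D (KCell1_G D (KCell1_G D (E D c j v))) =
      E D c ((j3 + (k3 - 1)) % 16) (g3 v) := fun v => by rw [f1, f2, f3, E_mod h hc]
  rcases KCell1_rec e5 with ⟨-, e6⟩ | ⟨e6, e7⟩
  · rw [f4]
    exact (slw_spec h hc rp_st0 b3 e6 v).symm
  rw [← Nat.eq_of_beq_eq_true e6] at f4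
  rw [f4]
  refine congrArg _ ?_
  rcases KCell1_rec e7 with ⟨e8, -⟩ | ⟨-, e8⟩
  · have e9 : c - c1 + (c - c2) ≠ 0 := Nat.ne_of_beq_eq_false e8
    rcases (by omega : c1 < c ∨ c2 < c) with l | l
    · refine b1.1.bijective.1 (E_inj h a1 (n := j1 + (k1 - 1)) ?_)
      rw [← f1, ← f4, f1, ih c1 l a1]
    · refine b2.1.bijective.1 (E_inj h a2 (n := j2 + (k2 - 1)) ?_)
      rw [← f2, ← f1, ← f4, f1, f2, ih c2 l a2]
  · exact (congrFun (Rp.ext rp_st0 (xor_eq_zero e8 ▸ b3) st0_ne) v).symm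

theorem KCell1_sls (n : ℕ) {K : ℕ → ℕ → ℕ → ℕ → ℕ} : ∀ {c j k s : ℕ} {g : V → V}, c < 14118 →
    Rp s g → sls D n K c j k s = 0 → ∃ c' j' k' s' g', c' < 14118 ∧ Rp s' g' ∧
      K c' j' k' s' = 0 ∧ ∀ v, (T0 D)^[n] (E D c j (g v)) = E D c' j' (g' v) := by
  induction n with
  | zero => exact fun hc hs e => ⟨_, _, _, _, _, hc, hs, e, fun _ => rfl⟩
  | succ n ih =>
    intro c j k s g hc hs e
    obtain ⟨c1, j1, s1, g1, a1, -, b1, e1, -, -, f1⟩ :=
      stp_spec h hc (j := j) (n := 0) (K := sls D n K) hs e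
    obtain ⟨c2, j2, k2, s2, g2, a2, b2, e2, f2⟩ := ih a1 b1 e1
    exact ⟨c2, j2, k2, s2, g2, a2, b2, e2, fun v => by
      rw [Function.iterate_succ_apply, ← f2, ← f1, add_zero]⟩

theorem KCell1_tw {k : ℕ} (hk : 8 ≤ k) (d : ℕ) : ∀ c j v, c < 14118 → j < 16 → td D c j = d →
    kof D c j = k → ∃ n y, y = (T0 D)^[n] (E D c j v) ∧
      (T0 D)^[k - 1] y = (R0 D)^[16 - k] ((T0 D)^[15 - k] ((R0 D)^[k] y)) := by
  induction d using Nat.strong_induction_on with
  | _ d ih =>
  intro c j v hc hj hd e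
  have G := (h c hc).gd j hj
  have e0 := G.tw
  rw [e] at e0
  rcases KCell1_rec e0 with ⟨-, e1⟩ | ⟨e1, -⟩
  swap
  · exact absurd (Nat.le_of_ble_eq_true e1) (show ¬ k ≤ 7 by omega)
  rcases KCell1_rec e1 with ⟨-, e2⟩ | ⟨-, e2⟩
  · have e3 : td D (ent D c j).tc (ent D c j).tj + 1 = td D c j := xor_eq_zero e2
    have e4 := G.sh 0 (by norm_num)
    rw [shp_zero h hc, e, show A.sp k 0 = 0 by simp [A.sp], shp_zero h G.tc,
      show A.sp k k = k by simp [A.sp, show k ≠ 1 by omega]] at e4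
    obtain ⟨n, y, h1, h2⟩ := ih _ (by omega) _ _ (sem (ent D c j).tl v) G.tc G.tj rfl e4
    exact ⟨n + 1, y, by rw [Function.iterate_succ_apply, T0_E h hc, h1], h2⟩
  · obtain ⟨c2, j2, k2, s2, g2, a2, b2, e3, f2⟩ := KCell1_sls h (k - 1) hc rp_st0 e2
    obtain ⟨c3, j3, k3, s3, g3, a3, b3, e4, f3⟩ := KCell1_sls h (15 - k)
      (K := tw3 D k c2 j2 s2) (j := j + k) hc rp_st0 e3
    have e5 := fn_spec h a2 b2 b3
      (show fn D c2 j2 s2 c3 (Nat.land (j3 + (16 - k)) 15) s3 = 0 from e4) v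
    refine ⟨0, _, rfl, ?_⟩
    rw [Function.iterate_zero_apply, f2, R0_it h hc, f3, R0_it h a3, e5, KCell1_land, E_mod h a3]

end

variable {D : ℕ → Cl} (h : Good D) {c : ℕ} (hc : c < 14118)
include h hc

theorem tri0 (j : ℕ) (v : V) (x y z : Pt) (hx : x = E D c j v)
    (hy : y = (R0 D)^[sh0 D x 0 - 1] (T0 D x)) (hz : z = (R0 D)^[sh0 D y 0 - 1] (T0 D y)) :
    (R0 D)^[sh0 D z 0 - 1] (T0 D z) = x := by
  subst hx hy hz
  exact KCell1_tri h c hc j v

theorem twist0 (j : ℕ) (v : V) (x : Pt) (hx : x = E D c j v) (hk : 8 ≤ sh0 D x 0) :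
    ∃ n y, y = (T0 D)^[n] x ∧ (T0 D)^[sh0 D x 0 - 1] y =
      (R0 D)^[16 - sh0 D x 0] ((T0 D)^[15 - sh0 D x 0] ((R0 D)^[sh0 D x 0] y)) := by
  subst hx
  rw [sh0_E h hc, shp_zero h hc] at hk ⊢
  rw [← E_mod h hc j]
  exact KCell1_tw h hk _ c _ v hc (Nat.mod_lt _ (by norm_num)) rfl (kof_mod D c j)

end Pool.Agent.MP_61a8e3_al.G4.K

end

section

/-! Part K: the squares and the pentagons. -/

set_option autoImplicit false

namespace Pool.Agent.MP_61a8e3_al.G4.K

open C

theorem KCell2_skip {a t : ℕ} (e : (Bool.rec a 0 (Nat.beq t 0) : ℕ) = 0) (ht : t ≠ 0) : a = 0 := by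
  cases hb : Nat.beq t 0 with
  | false => rw [hb] at e; exact e
  | true => exact absurd (Nat.eq_of_beq_eq_true hb) ht

theorem KCell2_mul {a b a' b' : ℕ} (h1 : a ≠ b) (h2 : a' ≠ b') :
    Nat.mul (Nat.xor a b) (Nat.xor a' b') ≠ 0 := by
  intro e
  rcases Nat.mul_eq_zero.1 e with e | e
  · exact h1 (Nat.xor_eq_zero_iff.1 e)
  · exact h2 (Nat.xor_eq_zero_iff.1 e)

theorem KCell2_cComm (D : ℕ → Cl) (c j c1 j1 k s1 k1 q : ℕ) : cComm D c j c1 j1 k s1 k1 q =
    Bool.rec (stp D c j q st0 (cm2 D c1 j1 k s1 q)) 0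
      (Nat.beq (Nat.mul (Nat.xor q k1) (Nat.xor (q + 1) k)) 0) := rfl

theorem KCell2_cm2 (D : ℕ → Cl) (c1 j1 k s1 q ca ja ka sa : ℕ) : cm2 D c1 j1 k s1 q ca ja ka sa =
    stp D ca ja (spk ka (16 - q)) sa (cm3 D c1 j1 k s1 q) := rfl

theorem KCell2_cm3 (D : ℕ → Cl) (c1 j1 k s1 q cb jb kb sb : ℕ) : cm3 D c1 j1 k s1 q cb jb kb sb =
    stp D c1 j1 (spk k q) s1 (fS D cb jb sb (16 - spk k q)) := rfl

theorem KCell2_fS (D : ℕ → Cl) (c j s p c' j' k' s' : ℕ) : fS D c j s p c' j' k' s' =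
    fn D c j s c' (Nat.land (j' + spk k' p) 15) s' := rfl

theorem KCell2_cPent (D : ℕ → Cl) (c j c1 j1 k s1 : ℕ) : cPent D c j c1 j1 k s1 =
    Bool.rec (stp D c j 1 st0 (pn2 D c1 j1 k s1)) 0 (Nat.beq k 2) := rfl

theorem KCell2_pn2 (D : ℕ → Cl) (c1 j1 k s1 cd jd kd sd : ℕ) : pn2 D c1 j1 k s1 cd jd kd sd =
    stp D cd jd 15 sd (pn3 D c1 j1 k s1) := rfl

theorem KCell2_pn3 (D : ℕ → Cl) (c1 j1 k s1 cf je ke se : ℕ) : pn3 D c1 j1 k s1 cf je ke se =
    stp D c1 j1 0 s1 (pn4 D k cf je se) := rfl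

theorem KCell2_pn4 (D : ℕ → Cl) (k cf je se ca ja ka sa : ℕ) : pn4 D k cf je se ca ja ka sa =
    stp D ca ja (k - 2) sa (fS D cf je se (18 - k)) := rfl

theorem KCell2_cPent2 (D : ℕ → Cl) (c j c1 j1 k s1 k1 : ℕ) : cPent2 D c j c1 j1 k s1 k1 =
    Bool.rec (stp D c j k1 st0 (pp2 D c1 j1 k s1 k1)) 0
      (Nat.beq (Nat.mul (Nat.xor k1 15) (Nat.xor (k1 + 1) k)) 0) := rfl

theorem KCell2_pp2 (D : ℕ → Cl) (c1 j1 k s1 k1 ca ja ka sa : ℕ) :
    pp2 D c1 j1 k s1 k1 ca ja ka sa = stp D ca ja (15 - k1) sa (pp3 D c1 j1 k s1 k1) := rfl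

theorem KCell2_pp3 (D : ℕ → Cl) (c1 j1 k s1 k1 cb jb kb sb : ℕ) :
    pp3 D c1 j1 k s1 k1 cb jb kb sb = stp D cb jb 0 sb (cm3 D c1 j1 k s1 k1) := rfl

theorem KCell2_land (a : ℕ) : Nat.land a 15 = a % 16 := Nat.and_two_pow_sub_one_eq_mod a 4

/-- a last slide, a last rotation and the comparison -/
theorem KCell2_last {D : ℕ → Cl} (h : Good D) {c1 j1 n s1 cb jb sb p : ℕ} {g1 gb : V → V}
    (h1 : c1 < 14118) (hb : cb < 14118) (r1 : Rp s1 g1) (rb : Rp sb gb)
    (e : stp D c1 j1 n s1 (fS D cb jb sb p) = 0) (v : V) :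
    (R0 D)^[A.sp (sh0 D ((R0 D)^[n] (E D c1 j1 (g1 v))) 0) p]
      (T0 D ((R0 D)^[n] (E D c1 j1 (g1 v)))) = E D cb jb (gb v) := by
  obtain ⟨c', j', s', g', hc', -, r', e', -, -, t'⟩ := stp_spec h h1 r1 e
  rw [KCell2_fS, KCell2_land, spk_eq] at e'
  rw [R0_it h h1, sh0_E h h1, shp_zero h h1, t', R0_it h hc', fn_spec h hb rb r' e' v,
    E_mod h hc']

variable {D : ℕ → Cl} (h : Good D) {c : ℕ} (hc : c < 14118)
include h hc

theorem comm0 (j : ℕ) (v : V) (x : Pt) (hx : x = E D c j v) (q : ℕ) (y z : Pt) (h2 : 2 ≤ q)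
    (h8 : q ≤ 8) (h1 : q ≠ sh0 D x 1) (h0 : q + 1 ≠ sh0 D x 0) (hy : y = (R0 D)^[q] x)
    (hz : z = (R0 D)^[A.sp (sh0 D x 0) q] (T0 D x)) :
    T0 D ((R0 D)^[A.sp (sh0 D y 0) (16 - q)] (T0 D y)) =
      (R0 D)^[A.sp (sh0 D z 0) (16 - A.sp (sh0 D x 0) q)] (T0 D z) := by
  have gd := gd_mod h hc j
  rw [← E_mod h hc j] at hx
  generalize j % 16 = i at hx gd
  subst hx
  have e := gd.comm q h2 h8
  rw [sh0_E h hc] at h1
  rw [sh0_E h hc, shp_zero h hc] at h0 hz
  rw [sh0_E h hc, shp_zero h hc]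
  rw [KCell2_cComm] at e
  obtain ⟨ca, ja, sa, ga, hca, -, ra, ea, -, -, ta⟩ :=
    stp_spec h hc rp_st0 (KCell2_skip e (KCell2_mul h1 h0))
  rw [KCell2_cm2, spk_eq] at ea
  obtain ⟨cb, jb, sb, gb, hcb, -, rb, eb, -, -, tb⟩ := stp_spec h hca ra ea
  rw [KCell2_cm3, spk_eq] at eb
  have l := KCell2_last h gd.tc hcb (rp_st0.ap gd.ok) rb eb v
  rw [T0_E h hc] at hz
  rw [hz, l, hy, R0_it h hc, sh0_E h hc, shp_zero h hc, ta v, R0_it h hca, tb v]

theorem pent0 (j : ℕ) (v : V) (x : Pt) (hx : x = E D c j v) (y : Pt) (h2 : sh0 D x 0 ≠ 2)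
    (hy : y = (R0 D)^[sh0 D x 0 - 2] (T0 D (T0 D x))) :
    (R0 D)^[A.sp (sh0 D y 0) (18 - sh0 D x 0)] (T0 D y) =
      T0 D ((R0 D)^[15] (T0 D (R0 D x))) := by
  have gd := gd_mod h hc j
  rw [← E_mod h hc j] at hx
  generalize j % 16 = i at hx gd
  subst hx
  have e := gd.pent
  rw [sh0_E h hc, shp_zero h hc] at h2 hy
  rw [sh0_E h hc i, shp_zero h hc]
  rw [KCell2_cPent] at e
  have e0 : stp D c i 1 st0 (pn2 D (ent D c i).tc (ent D c i).tj (kof D c i)
      (ap (ent D c i).tl st0)) = 0 := by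
    cases hb : Nat.beq (kof D c i) 2 with
    | false => rw [hb] at e; exact e
    | true => exact absurd (Nat.eq_of_beq_eq_true hb) h2
  obtain ⟨cd, jd, sd, gd', hcd, -, rd, ed, -, -, td⟩ := stp_spec h hc rp_st0 e0
  rw [KCell2_pn2] at ed
  obtain ⟨cf, je, se, ge, hcf, -, re, ee, -, -, te⟩ := stp_spec h hcd rd ed
  rw [KCell2_pn3] at ee
  obtain ⟨ca, ja, sa, ga, hca, -, ra, ea, -, -, ta⟩ := stp_spec h gd.tc (rp_st0.ap gd.ok) ee
  rw [KCell2_pn4] at ea
  have l := KCell2_last h hca hcf ra re ea v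
  have ta' := ta v
  rw [Nat.add_zero] at ta'
  rw [T0_E h hc, ta'] at hy
  rw [hy, l, R0_E h hc, td v, R0_it h hcd, te v]

theorem pent20 (j : ℕ) (v : V) (x : Pt) (hx : x = E D c j v) (z : Pt) (h1 : sh0 D x 1 ≠ 15)
    (h0 : sh0 D x 1 + 1 ≠ sh0 D x 0)
    (hz : z = (R0 D)^[A.sp (sh0 D x 0) (sh0 D x 1)] (T0 D x)) :
    T0 D (T0 D ((R0 D)^[15 - sh0 D x 1] (T0 D ((R0 D)^[sh0 D x 1] x)))) =
      (R0 D)^[A.sp (sh0 D z 0) (16 - A.sp (sh0 D x 0) (sh0 D x 1))] (T0 D z) := by
  have gd := gd_mod h hc j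
  rw [← E_mod h hc j] at hx
  generalize j % 16 = i at hx gd
  subst hx
  have e := gd.pent2
  rw [sh0_E h hc] at h1
  rw [sh0_E h hc, sh0_E h hc, shp_zero h hc] at h0 hz
  rw [sh0_E h hc i v 1, sh0_E h hc i v 0, shp_zero h hc]
  rw [KCell2_cPent2] at e
  obtain ⟨ca, ja, sa, ga, hca, -, ra, ea, -, -, ta⟩ :=
    stp_spec h hc rp_st0 (KCell2_skip e (KCell2_mul h1 h0))
  rw [KCell2_pp2] at ea
  obtain ⟨cb, jb, sb, gb, hcb, -, rb, eb, -, -, tb⟩ := stp_spec h hca ra ea
  rw [KCell2_pp3] at eb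
  obtain ⟨cc, jc, sc, gc, hcc, -, rc, ec, -, -, tc⟩ := stp_spec h hcb rb eb
  rw [KCell2_cm3, spk_eq] at ec
  have l := KCell2_last h gd.tc hcc (rp_st0.ap gd.ok) rc ec v
  have tc' := tc v
  rw [Nat.add_zero] at tc'
  rw [T0_E h hc] at hz
  rw [hz, l, R0_it h hc, ta v, R0_it h hca, tb v, tc']

end Pool.Agent.MP_61a8e3_al.G4.K

end

section

/-! Groups acting by affine maps with finitely many linear parts on finitely many lattices. -/

set_option autoImplicit false

namespace Pool.Agent.MP_61a8e3_al.G4.D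

/-- A homomorphism to the integers with a nonzero value can be rescaled to a surjection. -/
theorem surj_of_ne {Λ : Type} [Group Λ] (f : Λ →* Multiplicative ℤ) (a : Λ) (ha : f a ≠ 1) :
    ∃ f' : Λ →* Multiplicative ℤ, Function.Surjective f' ∧ ∀ α, f α = 1 → f' α = 1 := by
  obtain ⟨d, hd⟩ := Int.subgroup_cyclic (Subgroup.toAddSubgroup' f.range)
  have hmem : ∀ n : ℤ, Multiplicative.ofAdd n ∈ f.range ↔ d ∣ n := by
    intro n
    have : n ∈ Subgroup.toAddSubgroup' f.range ↔ d ∣ n := by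
      rw [hd, AddSubgroup.mem_closure_singleton]
      constructor
      · rintro ⟨k, rfl⟩; exact ⟨k, by simp [mul_comm]⟩
      · rintro ⟨k, rfl⟩; exact ⟨k, by simp [mul_comm]⟩
    exact this
  have hdv : ∀ α, d ∣ (f α).toAdd := fun α => (hmem _).1 ⟨α, rfl⟩
  have hd0 : d ≠ 0 := by
    rintro rfl
    exact ha (Multiplicative.toAdd.injective (zero_dvd_iff.1 (hdv a)))
  refine ⟨⟨⟨fun α => Multiplicative.ofAdd ((f α).toAdd / d), by simp⟩, fun x y => ?_⟩, ?_, ?_⟩
  · simp only [map_mul, toAdd_mul]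
    rw [Int.add_ediv_of_dvd_right (hdv y), ofAdd_add]
  · intro n
    obtain ⟨α, hα⟩ := (hmem (d * n.toAdd)).2 (dvd_mul_right _ _)
    refine ⟨α, ?_⟩
    show Multiplicative.ofAdd ((f α).toAdd / d) = n
    rw [hα, toAdd_ofAdd, Int.mul_ediv_cancel_left _ hd0, ofAdd_toAdd]
  · intro α hα
    show Multiplicative.ofAdd ((f α).toAdd / d) = 1
    rw [hα]; simp

theorem aff_fin {G Y Θ V : Type} [Group G] [Finite Θ] [AddCommGroup V] (e : Θ × V ≃ Y)
    (𝒜 : Set (V →+ V)) (h𝒜 : 𝒜.Finite) (Φ : G →* Equiv.Perm Y)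
    (h : ∀ (γ : G) (θ : Θ), ∃ θ' : Θ, ∃ A ∈ 𝒜, ∃ b : V, ∀ v, Φ γ (e (θ, v)) = e (θ', A v + b))
    (θ0 : Θ) (γ0 : G) (b0 : V) (h0 : ∀ v, Φ γ0 (e (θ0, v)) = e (θ0, v + b0))
    (ℓ : V →+ ℤ) (hℓ : ℓ b0 ≠ 0) :
    ∃ Λ : Subgroup G, Λ.FiniteIndex ∧ ∃ f : Λ →* Multiplicative ℤ, Function.Surjective f ∧
      ∀ α : Λ, Φ α = 1 → f α = 1 := by
  let Λ : Subgroup G :=
    { carrier := {γ | ∃ b, ∀ v, Φ γ (e (θ0, v)) = e (θ0, v + b)}
      mul_mem' := by
        rintro x y ⟨b, hb⟩ ⟨c, hc⟩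
        exact ⟨c + b, fun v => by rw [map_mul, Equiv.Perm.mul_apply, hc, hb, add_assoc]⟩
      one_mem' := ⟨0, fun v => by simp⟩
      inv_mem' := by
        rintro x ⟨b, hb⟩
        refine ⟨-b, fun v => ?_⟩
        rw [map_inv, Equiv.Perm.inv_eq_iff_eq, hb, neg_add_cancel_right] }
  have hΛ : Λ.FiniteIndex := by
    choose θ A hA b hb using h
    have : Finite 𝒜 := h𝒜
    have key : ∀ x y : G, θ x θ0 = θ y θ0 → A x θ0 = A y θ0 → x⁻¹ * y ∈ Λ := by
      intro x y h1 h2
      have h3 : θ x⁻¹ (θ x θ0) = θ0 := by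
        have h4 := hb x⁻¹ (θ x θ0) (A x θ0 0 + b x θ0)
        rw [← hb, map_inv, Equiv.Perm.coe_inv, Equiv.symm_apply_apply] at h4
        exact (congrArg Prod.fst (e.injective h4)).symm
      have h5 := hb x⁻¹ (θ x θ0) (b y θ0)
      rw [h3, map_inv, Equiv.Perm.inv_eq_iff_eq, hb] at h5
      have h6 := congrArg Prod.snd (e.injective h5)
      refine ⟨A x⁻¹ (θ x θ0) (b y θ0) + b x⁻¹ (θ x θ0), fun v => ?_⟩
      rw [map_mul, Equiv.Perm.mul_apply, map_inv, Equiv.Perm.inv_eq_iff_eq, hb, hb, ← h1, ← h2,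
        map_add (A x θ0) v, add_assoc]
      simp only [] at h6
      rw [← h6]
    have : Finite (G ⧸ Λ) := by
      refine Finite.of_injective
        (fun q : G ⧸ Λ => ((θ q.out θ0, ⟨A q.out θ0, hA _ _⟩) : Θ × 𝒜)) fun p q hpq => ?_
      have h1 := key p.out q.out (congrArg Prod.fst hpq)
        (congrArg Subtype.val (congrArg Prod.snd hpq))
      rw [← QuotientGroup.out_eq' p, ← QuotientGroup.out_eq' q]
      exact QuotientGroup.eq.2 h1
    exact Subgroup.finiteIndex_of_finite_quotient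
  have hu : ∀ (γ : G) (b c : V), (∀ v, Φ γ (e (θ0, v)) = e (θ0, v + b)) →
      (∀ v, Φ γ (e (θ0, v)) = e (θ0, v + c)) → b = c := by
    intro γ b c hb hc
    simpa using congrArg Prod.snd (e.injective ((hb 0).symm.trans (hc 0)))
  choose t ht using fun α : Λ => α.2
  let f : Λ →* Multiplicative ℤ := MonoidHom.mk' (fun α => Multiplicative.ofAdd (ℓ (t α)))
    (fun x y => by
      have : t (x * y) = t y + t x := hu (x * y : Λ) _ _ (ht _) fun v => by
        rw [Subgroup.coe_mul, map_mul, Equiv.Perm.mul_apply, ht, ht, add_assoc]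
      rw [this, map_add, add_comm, ofAdd_add])
  obtain ⟨f', h1, h2⟩ := surj_of_ne f ⟨γ0, b0, h0⟩ (fun h1 => hℓ (by
    rw [← hu γ0 _ _ (ht ⟨γ0, b0, h0⟩) h0]
    exact Multiplicative.ofAdd.injective h1))
  refine ⟨Λ, hΛ, f', h1, fun α hα => h2 α ?_⟩
  have : t α = 0 := hu α _ _ (ht α) fun v => by rw [hα]; simp
  show Multiplicative.ofAdd (ℓ (t α)) = 1
  rw [this, map_zero]; rfl

/-- Additive maps of a lattice that preserve a function with finite level sets are finite in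
number. -/
theorem finite_isom {ι R β : Type} [Fintype ι] [DecidableEq ι] [Ring R] (q : (ι → R) → β)
    (hq : ∀ n, {v | q v = n}.Finite) :
    {A : (ι → R) →+ (ι → R) | (∀ (r : R) v, A (r • v) = r • A v) ∧ ∀ v, q (A v) = q v}.Finite := by
  refine Set.Finite.of_finite_image (f := fun A i => A (Pi.single i 1)) ?_ ?_
  · refine (Set.Finite.pi' fun i => hq (q (Pi.single i 1))).subset ?_
    rintro _ ⟨A, hA, rfl⟩ i
    exact hA.2 _
  · intro A hA B hB hAB
    refine AddMonoidHom.ext fun v => ?_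
    have hv : v = ∑ i, v i • (Pi.single i 1 : ι → R) := by
      ext j; simp [Finset.sum_apply, Pi.single_apply]
    rw [hv, map_sum, map_sum]
    refine Finset.sum_congr rfl fun i _ => ?_
    rw [hA.1, hB.1]
    exact congrArg _ (congrFun hAB i)

/-- Level sets of the standard norm on Gaussian vectors, pulled back by an injective map. -/
theorem finite_level {ι V : Type} [Fintype ι] (B : V → ι → GaussianInt) (hB : Function.Injective B)
    (n : ℤ) : {v | ∑ i, (B v i).norm = n}.Finite := by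
  have h1 : {z : GaussianInt | z.norm ≤ n}.Finite := by
    refine Set.Finite.of_finite_image (f := fun z => (z.re, z.im)) ?_
      (fun a _ b _ h => Zsqrtd.ext (congrArg Prod.fst h) (congrArg Prod.snd h))
    refine ((Set.finite_Icc (-n) n).prod (Set.finite_Icc (-n) n)).subset ?_
    rintro _ ⟨z, hz, rfl⟩
    simp only [Set.mem_ofPred_eq, Zsqrtd.norm_def] at hz
    simp only [Set.mem_prod, Set.mem_Icc]
    refine ⟨⟨?_, ?_⟩, ?_, ?_⟩ <;> nlinarith [sq_nonneg (z.re - 1), sq_nonneg (z.re + 1),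
      sq_nonneg (z.im - 1), sq_nonneg (z.im + 1), Int.le_self_sq z.re, Int.le_self_sq z.im,
      Int.le_self_sq (-z.re), Int.le_self_sq (-z.im), sq_nonneg z.re, sq_nonneg z.im]
  refine Set.Finite.of_finite_image (f := B) ?_ hB.injOn
  refine (Set.Finite.pi' fun _ => h1).subset ?_
  rintro _ ⟨v, hv, rfl⟩ i
  simp only [Set.mem_ofPred_eq] at hv ⊢
  rw [← hv]
  exact Finset.single_le_sum (f := fun i => (B v i).norm)
    (fun j _ => GaussianInt.norm_nonneg _) (Finset.mem_univ i)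

end Pool.Agent.MP_61a8e3_al.G4.D

end

section

/-! A group acting by affine maps with a non trivial translation virtually maps onto the
integers. -/

set_option autoImplicit false

namespace Pool.Agent.MP_61a8e3_al.G4.C

theorem CFin_fg : MM.FG := by
  refine (AddSubgroup.fg_iff _).2 ⟨_, rfl, ?_⟩
  refine ((NN_finite.prod (Set.finite_univ (α := I))).image
    (fun p : GV × I => p.1 (Pi.single p.2 1))).subset ?_
  rintro w ⟨U, hU, x, rfl⟩
  exact ⟨(U, x), ⟨hU, Set.mem_univ _⟩, rfl⟩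

theorem exists_fun {b : V} (hb : b ∈ MM) (h0 : b ≠ 0) : ∃ ℓ : MM →+ ℤ, ℓ ⟨b, hb⟩ ≠ 0 := by
  have h1 : AddGroup.FG MM := (AddGroup.fg_iff_addSubgroup_fg MM).2 CFin_fg
  have h2 : Module.Finite ℤ MM := Module.Finite.iff_addGroup_fg.2 h1
  have h3 : Module.Free ℤ MM := Module.free_of_finite_type_torsion_free'
  by_contra hc
  push Not at hc
  have h4 : (⟨b, hb⟩ : MM) = 0 :=
    (Module.Free.chooseBasis ℤ MM).forall_coord_eq_zero_iff.1 fun i =>
      hc ((Module.Free.chooseBasis ℤ MM).coord i).toAddMonoidHom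
  exact h0 (congrArg Subtype.val h4)

theorem fin_hom {G Y : Type} [Group G] (e : V ≃ Y) (Φ : G →* Equiv.Perm Y)
    (h : ∀ γ, IsAf (fun v => e.symm (Φ γ (e v)))) (γ0 : G) (b0 : V) (hb : b0 ≠ 0)
    (h0 : ∀ v, Φ γ0 (e v) = e (v + b0)) :
    ∃ Λ : Subgroup G, Λ.FiniteIndex ∧ ∃ f : Λ →* Multiplicative ℤ, Function.Surjective f ∧
      ∀ α : Λ, Φ α = 1 → f α = 1 := by
  choose A hA b hbM hAb using h
  have hΦ : ∀ γ v, Φ γ (e v) = e (A γ v + b γ) := fun γ v => by
    rw [← hAb γ v, Equiv.apply_symm_apply]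
  let Λ : Subgroup G :=
    { carrier := {γ | ∃ c, ∀ v, Φ γ (e v) = e (v + c)}
      mul_mem' := by
        rintro x y ⟨c, hc⟩ ⟨d, hd⟩
        exact ⟨d + c, fun v => by rw [map_mul, Equiv.Perm.mul_apply, hd, hc, add_assoc]⟩
      one_mem' := ⟨0, fun v => by simp⟩
      inv_mem' := by
        rintro x ⟨c, hc⟩
        refine ⟨-c, fun v => ?_⟩
        rw [map_inv, Equiv.Perm.inv_eq_iff_eq, hc, neg_add_cancel_right] }
  have hΛ : Λ.FiniteIndex := by
    have : Finite (NN : Set GV) := NN_finite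
    have key : ∀ x y : G, A x = A y → x⁻¹ * y ∈ Λ := by
      intro x y h2
      refine ⟨(A x).symm (b y - b x), fun v => ?_⟩
      rw [map_mul, Equiv.Perm.mul_apply, map_inv, Equiv.Perm.inv_eq_iff_eq, hΦ, hΦ, ← h2,
        map_add (A x), LinearEquiv.apply_symm_apply, add_assoc, sub_add_cancel]
    have : Finite (G ⧸ Λ) := by
      refine Finite.of_injective
        (fun q : G ⧸ Λ => (⟨A q.out, hA _⟩ : (NN : Set GV))) fun p q hpq => ?_
      have h1 := key p.out q.out (congrArg Subtype.val hpq)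
      rw [← QuotientGroup.out_eq' p, ← QuotientGroup.out_eq' q]
      exact QuotientGroup.eq.2 h1
    exact Subgroup.finiteIndex_of_finite_quotient
  have hu : ∀ (γ : G) (c : V), (∀ v, Φ γ (e v) = e (v + c)) → c = b γ := by
    intro γ c hc
    simpa using e.injective ((hc 0).symm.trans (hΦ γ 0))
  have ht : ∀ (α : Λ) v, Φ α (e v) = e (v + b α) := by
    rintro ⟨α, c, hc⟩ v
    rw [← hu α c hc]
    exact hc v
  have hb0 : b0 = b γ0 := hu γ0 b0 h0
  obtain ⟨ℓ, hℓ⟩ := exists_fun (hbM γ0) (hb0 ▸ hb)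
  let f : Λ →* Multiplicative ℤ :=
    MonoidHom.mk' (fun α => Multiplicative.ofAdd (ℓ ⟨b α, hbM α⟩)) (fun x y => by
      have h1 : b y + b x = b (x * y : Λ) := hu (x * y : Λ) _ fun v => by
        rw [Subgroup.coe_mul, map_mul, Equiv.Perm.mul_apply, ht, ht, add_assoc]
      have h2 : (⟨b (x * y : Λ), hbM _⟩ : MM) = ⟨b x, hbM x⟩ + ⟨b y, hbM y⟩ :=
        Subtype.ext (h1.symm.trans (add_comm _ _))
      rw [h2, map_add, ofAdd_add])
  obtain ⟨f', h1, h2⟩ := D.surj_of_ne f ⟨γ0, b0, h0⟩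
    (fun h1 => hℓ (Multiplicative.ofAdd.injective h1))
  refine ⟨Λ, hΛ, f', h1, fun α hα => h2 α ?_⟩
  have h3 : (0 : V) = b α := hu α _ fun v => by rw [hα]; simp
  have h4 : (⟨b α, hbM α⟩ : MM) = 0 := Subtype.ext h3.symm
  show Multiplicative.ofAdd (ℓ ⟨b α, hbM α⟩) = 1
  rw [h4, map_zero]; rfl

/-- Fibrewise affine permutations. -/
def FibAf {ι : Type} (g : ι × V → ι × V) : Prop :=
  ∀ i, ∃ i' f, IsAf f ∧ ∀ v, g (i, v) = (i', f v)

theorem FibAf.surjective {ι : Type} [Finite ι] {g : ι × V → ι × V} (hg : FibAf g)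
    (hi : Function.Injective g) : Function.Surjective g := by
  choose t f hf hgf using hg
  have hs : ∀ i w, ∃ v, g (i, v) = (t i, w) := fun i w => by
    obtain ⟨v, hv⟩ := (hf i).bijective.2 w
    exact ⟨v, by rw [hgf, hv]⟩
  have ht : Function.Injective t := fun i j hij => by
    obtain ⟨v, hv⟩ := hs i 0
    obtain ⟨w, hw⟩ := hs j 0
    exact congrArg Prod.fst (hi (a₁ := (i, v)) (a₂ := (j, w)) (by rw [hv, hw, hij]))
  rintro ⟨j, w⟩
  obtain ⟨i, rfl⟩ := (Finite.injective_iff_surjective.1 ht) j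
  obtain ⟨v, hv⟩ := hs i w
  exact ⟨(i, v), hv⟩

theorem fibAf_closure {ι : Type} (s : Set (Equiv.Perm (ι × V))) (hs : ∀ g ∈ s, FibAf g)
    (g : Equiv.Perm (ι × V)) (hg : g ∈ Subgroup.closure s) : FibAf g := by
  induction hg using Subgroup.closure_induction with
  | mem x hx => exact hs x hx
  | one => exact fun i => ⟨i, fun v => v, isAf_id, fun v => rfl⟩
  | mul x y _ _ hx hy =>
    intro i
    obtain ⟨j, f, hf, e⟩ := hy i
    obtain ⟨k, f', hf', e'⟩ := hx j
    exact ⟨k, fun v => f' (f v), hf'.comp hf, fun v => by rw [Equiv.Perm.mul_apply, e, e']⟩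
  | inv x _ hx =>
    intro i
    obtain ⟨⟨j, w⟩, hj⟩ := x.surjective (i, 0)
    obtain ⟨k, f, hf, e⟩ := hx j
    have hk : k = i := by rw [e] at hj; exact congrArg Prod.fst hj
    subst hk
    choose f' hf' using hf.bijective.2
    refine ⟨j, f', hf.inv hf', fun v => ?_⟩
    rw [Equiv.Perm.inv_eq_iff_eq, e, hf']

end Pool.Agent.MP_61a8e3_al.G4.C

end

section

/-! Part K: the rooted table. -/

set_option autoImplicit false

namespace Pool.Agent.MP_61a8e3_al.G4.K

open C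

theorem KTab_inj {D : ℕ → Cl} : Function.Injective (io D) := by
  rintro ⟨⟨⟨c, j⟩, h1⟩, v⟩ ⟨⟨⟨c', j'⟩, h2⟩, v'⟩ e
  simp only [io, Prod.mk.injEq] at e
  obtain ⟨rfl, rfl, rfl⟩ := e
  rfl

theorem KTab_it {g : V → V} (hg : IsAf g) (n : ℕ) : IsAf g^[n] := by
  induction n with
  | zero => exact isAf_id
  | succ n ih => exact ih.comp hg

theorem KTab_lt {D : ℕ → Cl} (h : Good D) (i : Ix D) : i.1.2 < 16 :=
  i.2.2.trans_le (Nat.le_of_dvd (by norm_num) (h _ i.2.1).dvd)

theorem KTab_fin {D : ℕ → Cl} (h : Good D) : Finite (Ix D) :=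
  Finite.of_injective (fun i : Ix D => ((⟨i.1.1, i.2.1⟩, ⟨i.1.2, KTab_lt h i⟩) : Fin 14118 × Fin 16))
    fun i j e => by
      simp only [Prod.mk.injEq, Fin.mk.injEq] at e
      exact Subtype.ext (Prod.ext e.1 e.2)

/-- the lift of a point -/
noncomputable def KTab_lift {D : ℕ → Cl} (h : Good D) (c : ℕ) (hc : c < 14118) (n : ℕ) (v : V) :
    Ix D × V :=
  (⟨(c, n % pe D c), hc, Nat.mod_lt _ (h c hc).pos⟩, (sem (D c).iso)^[n / pe D c] v)

theorem exists_ntab {D : ℕ → Cl} (h : Good D) : ∃ N : A.NTab (Ix D × V),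
    (∀ x, io D (N.T x) = T0 D (io D x)) ∧ (∀ x, io D (N.ρ x) = R0 D (io D x)) ∧
    (∀ x i, N.sh x i = sh0 D (io D x) i) ∧ FibAf N.T ∧ FibAf N.ρ := by
  have := KTab_fin h
  have gd : ∀ i : Ix D, Gd D i.1.1 i.1.2 := fun i => (h _ i.2.1).gd _ (KTab_lt h i)
  have hE : ∀ x : Ix D × V, io D x = E D x.1.1.1 x.1.1.2 x.2 := fun x =>
    (E_lt h x.1.2.1 x.1.2.2 x.2).symm
  obtain ⟨T, hT, aT⟩ : ∃ T : Ix D × V → Ix D × V, (∀ x, io D (T x) = T0 D (io D x)) ∧ FibAf T :=
    ⟨fun x => KTab_lift h _ (gd x.1).tc (ent D x.1.1.1 x.1.1.2).tj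
      (sem (ent D x.1.1.1 x.1.1.2).tl x.2), fun _ => rfl, fun i =>
        ⟨(KTab_lift h _ (gd i).tc (ent D i.1.1 i.1.2).tj 0).1, _,
        (KTab_it (isAf_sem (h _ (gd i).tc).ok) ((ent D i.1.1 i.1.2).tj /
          pe D (ent D i.1.1 i.1.2).tc)).comp
          (isAf_sem (gd i).ok), fun _ => rfl⟩⟩
  obtain ⟨R, hR, aR⟩ : ∃ R : Ix D × V → Ix D × V, (∀ x, io D (R x) = R0 D (io D x)) ∧ FibAf R :=
    ⟨fun x => KTab_lift h _ x.1.2.1 (x.1.1.2 + 1) x.2, fun _ => rfl, fun i =>
      ⟨(KTab_lift h _ i.2.1 (i.1.2 + 1) 0).1, _,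
        KTab_it (isAf_sem (h _ i.2.1).ok) ((i.1.2 + 1) / pe D i.1.1), fun _ => rfl⟩⟩
  have hTn : ∀ n x, io D (T^[n] x) = (T0 D)^[n] (io D x) := fun n =>
    Function.Semiconj.iterate_right hT n
  have hRn : ∀ n x, io D (R^[n] x) = (R0 D)^[n] (io D x) := fun n =>
    Function.Semiconj.iterate_right hR n
  have h16 : ∀ x, R^[16] x = x := fun x => KTab_inj (by
    rw [hRn, hE, R0_it h x.1.2.1, ← E_mod h x.1.2.1, Nat.add_mod_right, E_mod h x.1.2.1])
  obtain ⟨ρ, hρ⟩ : ∃ ρ : Equiv.Perm (Ix D × V), ⇑ρ = R :=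
    ⟨⟨R, R^[15], h16, fun x => (Function.iterate_succ_apply' R 15 x).symm.trans (h16 x)⟩, rfl⟩
  subst hρ
  have hP : ∀ n x, io D ((ρ ^ n) x) = (R0 D)^[n] (io D x) := fun n x => by
    rw [Equiv.Perm.coe_pow, hRn]
  have kk : ∀ (i : Ix D) n, 2 ≤ kof D i.1.1 n ∧ kof D i.1.1 n ≤ 15 := fun i n =>
    ⟨kof_mod D _ n ▸ (gd_mod h i.2.1 n).two, (h _ i.2.1).le n⟩
  refine ⟨{ sh := fun x i => sh0 D (io D x) i
            T := T
            ρ := ρ
            surj := aT.surjective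
            lt := fun x i _ => Nat.mod_lt _ (by norm_num)
            inv := fun x i hi => (h _ x.1.2.1).inv _ i hi
            ne := fun x i hi => ?_
            adj := fun x => ?_
            sh_T := fun x i hi => ?_
            sh_ρ := fun x i hi => ?_
            ρ16 := fun x => by rw [Equiv.Perm.coe_pow, h16]
            tri := fun x y z hy hz => KTab_inj ?_
            comm := fun x q y z h2 h8 h1 h0 hy hz => KTab_inj ?_
            pent := fun x y h2 hy => KTab_inj ?_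
            pent2 := fun x z h1 h0 hz => KTab_inj ?_
            twist := fun x hk => ?_ }, hT, hR, fun _ _ => rfl, aT, aR⟩
  · have := kk x.1 (x.1.1.2 + i)
    change (i + kof D x.1.1.1 (x.1.1.2 + i)) % 16 ≠ i
    omega
  · have := kk x.1 (x.1.1.2 + 0)
    change (0 + kof D x.1.1.1 (x.1.1.2 + 0)) % 16 ≠ 1
    omega
  · have e : sh0 D (io D x) 0 = kof D x.1.1.1 x.1.1.2 := shp_zero h x.1.2.1 _
    rw [hT, e]
    exact (sh0_E h (gd x.1).tc _ _ _).trans ((gd x.1).sh i hi)
  · rw [hR]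
    refine (sh0_E h x.1.2.1 _ _ _).trans ?_
    have e : kof D x.1.1.1 (x.1.1.2 + (i + 1) % 16) = kof D x.1.1.1 (x.1.1.2 + 1 + i) := by
      rw [← kof_mod, ← kof_mod D _ (x.1.1.2 + 1 + i)]
      congr 1
      omega
    change (i + kof D x.1.1.1 (x.1.1.2 + 1 + i)) % 16 =
      (((i + 1) % 16 + kof D x.1.1.1 (x.1.1.2 + (i + 1) % 16)) % 16 + 15) % 16
    rw [e]
    omega
  · rw [hP, hT]
    exact tri0 h x.1.2.1 _ _ _ (io D y) (io D z) (hE x) (by rw [hy, hP, hT])
      (by rw [hz, hP, hT])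
  · rw [hT, hP, hT, hP, hT]
    exact comm0 h x.1.2.1 _ _ _ (hE x) q (io D y) (io D z) h2 h8 h1 h0 (by rw [hy, hP])
      (by rw [hz, hP, hT])
  · rw [hP, hT, hT, hP, hT, hR]
    exact pent0 h x.1.2.1 _ _ _ (hE x) (io D y) h2 (by rw [hy, hP, hT, hT])
  · rw [hT, hT, hP, hT, hP, hP, hT]
    exact pent20 h x.1.2.1 _ _ _ (hE x) (io D z) h1 h0 (by rw [hz, hP, hT])
  · obtain ⟨n, y, hy, e⟩ := twist0 h x.1.2.1 _ _ _ (hE x) hk
    refine ⟨n, _, rfl, KTab_inj ?_⟩
    simp only [hTn, hP, ← hy]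
    exact e

end Pool.Agent.MP_61a8e3_al.G4.K

end

section

/-! Part K: what the checks say. -/

set_option autoImplicit false

namespace Pool.Agent.MP_61a8e3_al.G4.K

theorem KGood_low (x : ℕ) : Nat.land x (nat_lit 65535) = x % 2 ^ 16 :=
  Nat.and_two_pow_sub_one_eq_mod x 16

theorem KGood_dg (a i : ℕ) : dg a i = dig a i := by
  rw [dg, KGood_low, dig, mul_comm]
  exact congrArg (· % 2 ^ 16) (Nat.shiftRight_eq_div_pow a (i * 16))

theorem KGood_cIn {a i : ℕ} (h : cIn a i = 0) : dig a (dig a i) = i := by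
  have h1 : Nat.xor (dg a (dg a i)) i = 0 := h
  rw [KGood_dg, KGood_dg] at h1
  exact xor_eq_zero h1

theorem KGood_le {f : ℕ → ℕ} {y : ℕ} (h : Pat 16 f y) (hf : ∀ s, f s < 16) (s : ℕ) :
    dig y s ≤ 15 := by
  rw [h s]
  split_ifs
  · exact Nat.le_of_lt_succ (hf s)
  · exact Nat.zero_le _

variable {D : ℕ → Cl}

theorem KGood_shp (c j i : ℕ) : shp D c j i < 16 := Nat.mod_lt _ (by norm_num)

theorem KGood_cls {c : ℕ} (h : cls D c = 0) : Nat.xor (Nat.land (D c).sh n16) (D c).sh = 0 ∧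
    (∀ i < 16, cIn (ab D c 0) i = 0) ∧ 1 - pe D c = 0 ∧ 16 % pe D c = 0 ∧
    rel D c (pe D c) = (D c).sh ∧ its (16 / pe D c) (D c).iso st0 = st0 ∧
    ∀ j < 16, obj D c j = 0 := by
  obtain ⟨h, h7⟩ := add_eq_zero' h
  obtain ⟨h, h6⟩ := add_eq_zero' h
  obtain ⟨h, h5⟩ := add_eq_zero' h
  obtain ⟨h, h4⟩ := add_eq_zero' h
  obtain ⟨h, h3⟩ := add_eq_zero' h
  obtain ⟨h1, h2⟩ := add_eq_zero' h
  refine ⟨h1, fun i hi => ?_, h3, h4, xor_eq_zero h5, xor_eq_zero h6, fun j hj => ?_⟩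
  · exact Nat.zero_add i ▸ sumN_spec h2 i hi
  · exact Nat.zero_add j ▸ sumN_spec h7 j hj

theorem KGood_okE (c j : ℕ) : okE D c j = okL (ent D c j).tl 0 := by
  have h : okE D c j = En.rec (motive := fun _ => ℕ) (fun _ _ _ => 0) (fun l _ _ _ => okL l 0)
      ((sA En j 0).1 (ce D c)) := rfl
  rw [h, sA_eq, ent, Nat.add_zero]
  cases (sel En (j % 16)).1 (ce D c) <;> rfl

theorem KGood_obj {c j : ℕ} (h0 : Nat.xor (Nat.land (D c).sh n16) (D c).sh = 0) (hj : j ≤ 16) :
    obj D c j = ob2 D c j (ent D c j).tc (ent D c j).tj (ent D c j).tk (ap (ent D c j).tl st0)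
      (shp D c j 1) := by
  have h1 : obj D c j = stp D c j 0 st0 (ob1 D c j) := rfl
  have h2 : ∀ c1 j1 k s1, ob1 D c j c1 j1 k s1 = frc (Nat.land (Nat.succ
      (Nat.shiftRight (rel D c j) 16)) 15) (ob2 D c j c1 j1 k s1) := fun _ _ _ _ => rfl
  have h3 : ∀ r : ℕ, Nat.land (Nat.succ (Nat.shiftRight r 16)) 15 = (1 + dig r 1) % 16 := fun r => by
    have h4 : Nat.land (Nat.succ (Nat.shiftRight r 16)) 15 = (r >>> 16 + 1) % 2 ^ 4 :=
      Nat.and_two_pow_sub_one_eq_mod _ 4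
    rw [h4, Nat.shiftRight_eq_div_pow, dig, mul_one]
    generalize r / 2 ^ 16 = x
    omega
  rw [h1, stp_eq, h2, frc_eq, Nat.add_zero, h3, rel_pat D h0 hj 1, if_pos (by norm_num), shp]

theorem KGood_cSh {c j c1 j1 k : ℕ} (h : cSh D c j c1 j1 k (rel D c j) = 0) :
    c1 < 14118 ∧ j1 < 16 ∧ 2 ≤ k ∧ k = dig (rel D c j) 0 ∧
      (rel D c j = std → c = 0 ∧ j % 4 = 2) ∧ shc k (ab D c j) (ab D c1 j1) = 0 := by
  obtain ⟨h, h6⟩ := add_eq_zero' h
  obtain ⟨h, h5⟩ := add_eq_zero' h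
  obtain ⟨h, h4⟩ := add_eq_zero' h
  obtain ⟨h, h3⟩ := add_eq_zero' h
  obtain ⟨h1, h2⟩ := add_eq_zero' h
  have a1 : c1 - 14117 = 0 := h1
  have a2 : j1 - 15 = 0 := h2
  have a3 : 2 - k = 0 := h3
  refine ⟨by omega, by omega, by omega, ?_, fun e => ?_, h6⟩
  · rw [xor_eq_zero h4, KGood_low, dig_zero_KSimd]
  · have a4 : Nat.xor std std = 0 := Nat.xor_self std
    rw [e, a4] at h5
    obtain ⟨b1, b2⟩ := add_eq_zero' ((Nat.one_mul _).symm.trans h5)
    exact ⟨b1, (Nat.and_two_pow_sub_one_eq_mod j 2).symm.trans (xor_eq_zero b2)⟩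

theorem KGood_gd (h : Ok D) {c j : ℕ} (hc : c < 14118) (hj : j < 16) : Gd D c j := by
  obtain ⟨h0, -, -, -, -, -, h7⟩ := KGood_cls (h.cls c hc)
  have h1 := h7 j hj
  rw [KGood_obj h0 hj.le] at h1
  obtain ⟨h1, b13⟩ := add_eq_zero' h1
  obtain ⟨h1, b12⟩ := add_eq_zero' h1
  obtain ⟨h1, b11⟩ := add_eq_zero' h1
  obtain ⟨h1, b10⟩ := add_eq_zero' h1
  obtain ⟨h1, b9⟩ := add_eq_zero' h1
  obtain ⟨h1, b8⟩ := add_eq_zero' h1
  obtain ⟨h1, b7⟩ := add_eq_zero' h1
  obtain ⟨h1, b6⟩ := add_eq_zero' h1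
  obtain ⟨h1, b5⟩ := add_eq_zero' h1
  obtain ⟨h1, b4⟩ := add_eq_zero' h1
  obtain ⟨h1, b3⟩ := add_eq_zero' h1
  obtain ⟨h1, b2⟩ := add_eq_zero' h1
  obtain ⟨a1, a2, a3, a4, a5, a6⟩ := KGood_cSh h1
  have hr := rel_pat D h0 hj.le
  have hk : (ent D c j).tk = kof D c j := by
    rw [a4, hr 0, if_pos (by norm_num)]
    rfl
  rw [hk] at a3 a6 b2 b3 b4 b5 b6 b7 b8 b9 b10 b11 b12
  have hle := (sh_pat D h0).2
  refine ⟨a1, a2, hk, a3, ?_, fun i hi => ?_, fun hu => a5 (dig_ext fun s => ?_), b2,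
    fun q q1 q2 => ?_, b10, b11, b12, b13⟩
  · rw [← KGood_okE]
    exact Nat.zero_add j ▸ sumN_spec (add_eq_zero' (h.lab c hc)).2 j hj
  · have p1 := ab_pat D h0 hj.le
    have p2 := ab_pat D (KGood_cls (h.cls _ a1)).1 a2.le
    have p3 := shc_spec a3 (hle j) (KGood_le p1 (KGood_shp _ _)) (KGood_le p2 (KGood_shp _ _))
      p1.lt a6 i hi
    have p4 : A.sp (kof D c j) i < 16 := by
      have := hle j
      unfold A.sp
      split_ifs <;> omega
    rwa [p1 i, p2 _, if_pos hi, if_pos p4] at p3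
  · rw [hr s]
    split_ifs with hs
    · exact (std_shp D hle j).2 hu s hs
    · rw [pat_std s, if_neg hs]
  · interval_cases q
    exacts [b3, b4, b5, b6, b7, b8, b9]

theorem Ok.good {D : ℕ → Cl} (h : Ok D) : Good D := by
  intro c hc
  obtain ⟨h0, h2, h3, h4, h5, h6, -⟩ := KGood_cls (h.cls c hc)
  obtain ⟨hp, hle⟩ := sh_pat D h0
  have hd : pe D c ∣ 16 := Nat.dvd_of_mod_eq_zero h4
  refine ⟨hle, fun j i hi => ?_, by omega, hd, fun n => ?_, (add_eq_zero' (h.lab c hc)).1, h6,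
    fun j hj => KGood_gd h hc hj⟩
  · have p1 := ab_pat D h0 (Nat.zero_le 16)
    have hn : (j + i) % 16 < 16 := Nat.mod_lt _ (by norm_num)
    have p2 := KGood_cIn (h2 _ hn)
    rw [p1 ((j + i) % 16), if_pos hn, p1, if_pos (KGood_shp _ _ _)] at p2
    simp only [shp, Nat.zero_add, kof_mod] at p2 ⊢
    rw [← kof_mod D c (j + (i + _) % 16), show (j + (i + kof D c (j + i)) % 16) % 16 =
      ((j + i) % 16 + kof D c (j + i)) % 16 by omega, kof_mod]
    omega
  · have hn : n % 16 < 16 := Nat.mod_lt _ (by norm_num)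
    have p1 := rel_pat D h0 (Nat.le_of_dvd (by norm_num) hd) (n % 16)
    rw [h5, hp, if_pos hn, if_pos hn, kof_mod] at p1
    rw [p1, ← kof_mod D c (n + _)]
    refine Eq.trans ?_ (kof_mod D c (pe D c + n % 16))
    congr 1
    omega

theorem Ok.std {D : ℕ → Cl} (h : Ok D) (h0 : rel D 0 2 = std) : ∀ i < 16,
    shp D 0 2 i = [2, 3, 0, 1, 6, 7, 4, 5, 10, 11, 8, 9, 14, 15, 12, 13].getD i 0 := by
  have h1 := (KGood_cls (h.cls 0 (by norm_num))).1
  refine (std_shp D (sh_pat D h1).2 2).1 fun i hi => ?_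
  rw [← h0, rel_pat D h1 (by norm_num) i, if_pos hi]

end Pool.Agent.MP_61a8e3_al.G4.K

end
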