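import Pool.Agent.Mg.F61a8e3.G86875b

section

/-! Part K: the check of the classes from 3482 to 3929. -/

set_option autoImplicit false
set_option maxRecDepth 100000

namespace Pool.Agent.MP_61a8e3_al.G4.K

theorem chk8 : Rg (cls dat) 3482 3930 := by
  have h := Rg.nil (cls dat) 3482
  replace h := Rg.step 3482 14 3496 h rfl (by decide +kernel)
  replace h := Rg.step 3496 14 3510 h rfl (by decide +kernel)
  replace h := Rg.step 3510 14 3524 h rfl (by decide +kernel)
  replace h := Rg.step 3524 14 3538 h rfl (by decide +kernel)
  replace h := Rg.step 3538 14 3552 h rfl (by decide +kernel)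
  replace h := Rg.step 3552 14 3566 h rfl (by decide +kernel)
  replace h := Rg.step 3566 14 3580 h rfl (by decide +kernel)
  replace h := Rg.step 3580 14 3594 h rfl (by decide +kernel)
  replace h := Rg.step 3594 14 3608 h rfl (by decide +kernel)
  replace h := Rg.step 3608 14 3622 h rfl (by decide +kernel)
  replace h := Rg.step 3622 14 3636 h rfl (by decide +kernel)
  replace h := Rg.step 3636 14 3650 h rfl (by decide +kernel)
  replace h := Rg.step 3650 14 3664 h rfl (by decide +kernel)
  replace h := Rg.step 3664 14 3678 h rfl (by decide +kernel)
  replace h := Rg.step 3678 14 3692 h rfl (by decide +kernel)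
  replace h := Rg.step 3692 14 3706 h rfl (by decide +kernel)
  replace h := Rg.step 3706 14 3720 h rfl (by decide +kernel)
  replace h := Rg.step 3720 14 3734 h rfl (by decide +kernel)
  replace h := Rg.step 3734 14 3748 h rfl (by decide +kernel)
  replace h := Rg.step 3748 14 3762 h rfl (by decide +kernel)
  replace h := Rg.step 3762 14 3776 h rfl (by decide +kernel)
  replace h := Rg.step 3776 14 3790 h rfl (by decide +kernel)
  replace h := Rg.step 3790 14 3804 h rfl (by decide +kernel)
  replace h := Rg.step 3804 14 3818 h rfl (by decide +kernel)
  replace h := Rg.step 3818 14 3832 h rfl (by decide +kernel)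
  replace h := Rg.step 3832 14 3846 h rfl (by decide +kernel)
  replace h := Rg.step 3846 14 3860 h rfl (by decide +kernel)
  replace h := Rg.step 3860 14 3874 h rfl (by decide +kernel)
  replace h := Rg.step 3874 14 3888 h rfl (by decide +kernel)
  replace h := Rg.step 3888 14 3902 h rfl (by decide +kernel)
  replace h := Rg.step 3902 14 3916 h rfl (by decide +kernel)
  replace h := Rg.step 3916 14 3930 h rfl (by decide +kernel)
  exact h

end Pool.Agent.MP_61a8e3_al.G4.K

end

section

/-! Part K: the check of the classes from 8368 to 8801. -/

set_option autoImplicit false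
set_option maxRecDepth 100000

namespace Pool.Agent.MP_61a8e3_al.G4.K

theorem chk19 : Rg (cls dat) 8368 8802 := by
  have h := Rg.nil (cls dat) 8368
  replace h := Rg.step 8368 14 8382 h rfl (by decide +kernel)
  replace h := Rg.step 8382 14 8396 h rfl (by decide +kernel)
  replace h := Rg.step 8396 14 8410 h rfl (by decide +kernel)
  replace h := Rg.step 8410 14 8424 h rfl (by decide +kernel)
  replace h := Rg.step 8424 14 8438 h rfl (by decide +kernel)
  replace h := Rg.step 8438 14 8452 h rfl (by decide +kernel)
  replace h := Rg.step 8452 14 8466 h rfl (by decide +kernel)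
  replace h := Rg.step 8466 14 8480 h rfl (by decide +kernel)
  replace h := Rg.step 8480 14 8494 h rfl (by decide +kernel)
  replace h := Rg.step 8494 14 8508 h rfl (by decide +kernel)
  replace h := Rg.step 8508 14 8522 h rfl (by decide +kernel)
  replace h := Rg.step 8522 14 8536 h rfl (by decide +kernel)
  replace h := Rg.step 8536 14 8550 h rfl (by decide +kernel)
  replace h := Rg.step 8550 14 8564 h rfl (by decide +kernel)
  replace h := Rg.step 8564 14 8578 h rfl (by decide +kernel)
  replace h := Rg.step 8578 14 8592 h rfl (by decide +kernel)
  replace h := Rg.step 8592 14 8606 h rfl (by decide +kernel)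
  replace h := Rg.step 8606 14 8620 h rfl (by decide +kernel)
  replace h := Rg.step 8620 14 8634 h rfl (by decide +kernel)
  replace h := Rg.step 8634 14 8648 h rfl (by decide +kernel)
  replace h := Rg.step 8648 14 8662 h rfl (by decide +kernel)
  replace h := Rg.step 8662 14 8676 h rfl (by decide +kernel)
  replace h := Rg.step 8676 14 8690 h rfl (by decide +kernel)
  replace h := Rg.step 8690 14 8704 h rfl (by decide +kernel)
  replace h := Rg.step 8704 14 8718 h rfl (by decide +kernel)
  replace h := Rg.step 8718 14 8732 h rfl (by decide +kernel)
  replace h := Rg.step 8732 14 8746 h rfl (by decide +kernel)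
  replace h := Rg.step 8746 14 8760 h rfl (by decide +kernel)
  replace h := Rg.step 8760 14 8774 h rfl (by decide +kernel)
  replace h := Rg.step 8774 14 8788 h rfl (by decide +kernel)
  replace h := Rg.step 8788 14 8802 h rfl (by decide +kernel)
  exact h

end Pool.Agent.MP_61a8e3_al.G4.K

end
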