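import Pool.Agent.Mg.F61a8e3.G86875b

section

/-! Part K: the check of the classes from 6590 to 7037. -/

set_option autoImplicit false
set_option maxRecDepth 100000

namespace Pool.Agent.MP_61a8e3_al.G4.K

theorem chk15 : Rg (cls dat) 6590 7038 := by
  have h := Rg.nil (cls dat) 6590
  replace h := Rg.step 6590 14 6604 h rfl (by decide +kernel)
  replace h := Rg.step 6604 14 6618 h rfl (by decide +kernel)
  replace h := Rg.step 6618 14 6632 h rfl (by decide +kernel)
  replace h := Rg.step 6632 14 6646 h rfl (by decide +kernel)
  replace h := Rg.step 6646 14 6660 h rfl (by decide +kernel)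
  replace h := Rg.step 6660 14 6674 h rfl (by decide +kernel)
  replace h := Rg.step 6674 14 6688 h rfl (by decide +kernel)
  replace h := Rg.step 6688 14 6702 h rfl (by decide +kernel)
  replace h := Rg.step 6702 14 6716 h rfl (by decide +kernel)
  replace h := Rg.step 6716 14 6730 h rfl (by decide +kernel)
  replace h := Rg.step 6730 14 6744 h rfl (by decide +kernel)
  replace h := Rg.step 6744 14 6758 h rfl (by decide +kernel)
  replace h := Rg.step 6758 14 6772 h rfl (by decide +kernel)
  replace h := Rg.step 6772 14 6786 h rfl (by decide +kernel)
  replace h := Rg.step 6786 14 6800 h rfl (by decide +kernel)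
  replace h := Rg.step 6800 14 6814 h rfl (by decide +kernel)
  replace h := Rg.step 6814 14 6828 h rfl (by decide +kernel)
  replace h := Rg.step 6828 14 6842 h rfl (by decide +kernel)
  replace h := Rg.step 6842 14 6856 h rfl (by decide +kernel)
  replace h := Rg.step 6856 14 6870 h rfl (by decide +kernel)
  replace h := Rg.step 6870 14 6884 h rfl (by decide +kernel)
  replace h := Rg.step 6884 14 6898 h rfl (by decide +kernel)
  replace h := Rg.step 6898 14 6912 h rfl (by decide +kernel)
  replace h := Rg.step 6912 14 6926 h rfl (by decide +kernel)
  replace h := Rg.step 6926 14 6940 h rfl (by decide +kernel)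
  replace h := Rg.step 6940 14 6954 h rfl (by decide +kernel)
  replace h := Rg.step 6954 14 6968 h rfl (by decide +kernel)
  replace h := Rg.step 6968 14 6982 h rfl (by decide +kernel)
  replace h := Rg.step 6982 14 6996 h rfl (by decide +kernel)
  replace h := Rg.step 6996 14 7010 h rfl (by decide +kernel)
  replace h := Rg.step 7010 14 7024 h rfl (by decide +kernel)
  replace h := Rg.step 7024 14 7038 h rfl (by decide +kernel)
  exact h

end Pool.Agent.MP_61a8e3_al.G4.K

end

section

/-! Part K: the check of the classes from 11028 to 11461. -/

set_option autoImplicit false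
set_option maxRecDepth 100000

namespace Pool.Agent.MP_61a8e3_al.G4.K

theorem chk25 : Rg (cls dat) 11028 11462 := by
  have h := Rg.nil (cls dat) 11028
  replace h := Rg.step 11028 14 11042 h rfl (by decide +kernel)
  replace h := Rg.step 11042 14 11056 h rfl (by decide +kernel)
  replace h := Rg.step 11056 14 11070 h rfl (by decide +kernel)
  replace h := Rg.step 11070 14 11084 h rfl (by decide +kernel)
  replace h := Rg.step 11084 14 11098 h rfl (by decide +kernel)
  replace h := Rg.step 11098 14 11112 h rfl (by decide +kernel)
  replace h := Rg.step 11112 14 11126 h rfl (by decide +kernel)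
  replace h := Rg.step 11126 14 11140 h rfl (by decide +kernel)
  replace h := Rg.step 11140 14 11154 h rfl (by decide +kernel)
  replace h := Rg.step 11154 14 11168 h rfl (by decide +kernel)
  replace h := Rg.step 11168 14 11182 h rfl (by decide +kernel)
  replace h := Rg.step 11182 14 11196 h rfl (by decide +kernel)
  replace h := Rg.step 11196 14 11210 h rfl (by decide +kernel)
  replace h := Rg.step 11210 14 11224 h rfl (by decide +kernel)
  replace h := Rg.step 11224 14 11238 h rfl (by decide +kernel)
  replace h := Rg.step 11238 14 11252 h rfl (by decide +kernel)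
  replace h := Rg.step 11252 14 11266 h rfl (by decide +kernel)
  replace h := Rg.step 11266 14 11280 h rfl (by decide +kernel)
  replace h := Rg.step 11280 14 11294 h rfl (by decide +kernel)
  replace h := Rg.step 11294 14 11308 h rfl (by decide +kernel)
  replace h := Rg.step 11308 14 11322 h rfl (by decide +kernel)
  replace h := Rg.step 11322 14 11336 h rfl (by decide +kernel)
  replace h := Rg.step 11336 14 11350 h rfl (by decide +kernel)
  replace h := Rg.step 11350 14 11364 h rfl (by decide +kernel)
  replace h := Rg.step 11364 14 11378 h rfl (by decide +kernel)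
  replace h := Rg.step 11378 14 11392 h rfl (by decide +kernel)
  replace h := Rg.step 11392 14 11406 h rfl (by decide +kernel)
  replace h := Rg.step 11406 14 11420 h rfl (by decide +kernel)
  replace h := Rg.step 11420 14 11434 h rfl (by decide +kernel)
  replace h := Rg.step 11434 14 11448 h rfl (by decide +kernel)
  replace h := Rg.step 11448 14 11462 h rfl (by decide +kernel)
  exact h

end Pool.Agent.MP_61a8e3_al.G4.K

end
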