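import Pool.Agent.Mg.F61a8e3.G86875b

/-! Part K: the check of the classes from 11462 to 11909. -/

set_option autoImplicit false
set_option maxRecDepth 100000

namespace Pool.Agent.MP_61a8e3_al.G4.K

theorem chk26 : Rg (cls dat) 11462 11910 := by
  have h := Rg.nil (cls dat) 11462
  replace h := Rg.step 11462 14 11476 h rfl (by decide +kernel)
  replace h := Rg.step 11476 14 11490 h rfl (by decide +kernel)
  replace h := Rg.step 11490 14 11504 h rfl (by decide +kernel)
  replace h := Rg.step 11504 14 11518 h rfl (by decide +kernel)
  replace h := Rg.step 11518 14 11532 h rfl (by decide +kernel)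
  replace h := Rg.step 11532 14 11546 h rfl (by decide +kernel)
  replace h := Rg.step 11546 14 11560 h rfl (by decide +kernel)
  replace h := Rg.step 11560 14 11574 h rfl (by decide +kernel)
  replace h := Rg.step 11574 14 11588 h rfl (by decide +kernel)
  replace h := Rg.step 11588 14 11602 h rfl (by decide +kernel)
  replace h := Rg.step 11602 14 11616 h rfl (by decide +kernel)
  replace h := Rg.step 11616 14 11630 h rfl (by decide +kernel)
  replace h := Rg.step 11630 14 11644 h rfl (by decide +kernel)
  replace h := Rg.step 11644 14 11658 h rfl (by decide +kernel)
  replace h := Rg.step 11658 14 11672 h rfl (by decide +kernel)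
  replace h := Rg.step 11672 14 11686 h rfl (by decide +kernel)
  replace h := Rg.step 11686 14 11700 h rfl (by decide +kernel)
  replace h := Rg.step 11700 14 11714 h rfl (by decide +kernel)
  replace h := Rg.step 11714 14 11728 h rfl (by decide +kernel)
  replace h := Rg.step 11728 14 11742 h rfl (by decide +kernel)
  replace h := Rg.step 11742 14 11756 h rfl (by decide +kernel)
  replace h := Rg.step 11756 14 11770 h rfl (by decide +kernel)
  replace h := Rg.step 11770 14 11784 h rfl (by decide +kernel)
  replace h := Rg.step 11784 14 11798 h rfl (by decide +kernel)
  replace h := Rg.step 11798 14 11812 h rfl (by decide +kernel)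
  replace h := Rg.step 11812 14 11826 h rfl (by decide +kernel)
  replace h := Rg.step 11826 14 11840 h rfl (by decide +kernel)
  replace h := Rg.step 11840 14 11854 h rfl (by decide +kernel)
  replace h := Rg.step 11854 14 11868 h rfl (by decide +kernel)
  replace h := Rg.step 11868 14 11882 h rfl (by decide +kernel)
  replace h := Rg.step 11882 14 11896 h rfl (by decide +kernel)
  replace h := Rg.step 11896 14 11910 h rfl (by decide +kernel)
  exact h

end Pool.Agent.MP_61a8e3_al.G4.K
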