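import Pool.Agent.Mg.F61a8e3.G86875b

section

/-! Part K: the check of the classes from 0 to 387. -/

set_option autoImplicit false
set_option maxRecDepth 100000

namespace Pool.Agent.MP_61a8e3_al.G4.K

theorem chk0 : Rg (cls dat) 0 388 := by
  have h := Rg.nil (cls dat) 0
  replace h := Rg.step 0 10 10 h rfl (by decide +kernel)
  replace h := Rg.step 10 10 20 h rfl (by decide +kernel)
  replace h := Rg.step 20 10 30 h rfl (by decide +kernel)
  replace h := Rg.step 30 10 40 h rfl (by decide +kernel)
  replace h := Rg.step 40 10 50 h rfl (by decide +kernel)
  replace h := Rg.step 50 10 60 h rfl (by decide +kernel)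
  replace h := Rg.step 60 10 70 h rfl (by decide +kernel)
  replace h := Rg.step 70 10 80 h rfl (by decide +kernel)
  replace h := Rg.step 80 14 94 h rfl (by decide +kernel)
  replace h := Rg.step 94 14 108 h rfl (by decide +kernel)
  replace h := Rg.step 108 14 122 h rfl (by decide +kernel)
  replace h := Rg.step 122 14 136 h rfl (by decide +kernel)
  replace h := Rg.step 136 14 150 h rfl (by decide +kernel)
  replace h := Rg.step 150 14 164 h rfl (by decide +kernel)
  replace h := Rg.step 164 14 178 h rfl (by decide +kernel)
  replace h := Rg.step 178 14 192 h rfl (by decide +kernel)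
  replace h := Rg.step 192 14 206 h rfl (by decide +kernel)
  replace h := Rg.step 206 14 220 h rfl (by decide +kernel)
  replace h := Rg.step 220 14 234 h rfl (by decide +kernel)
  replace h := Rg.step 234 14 248 h rfl (by decide +kernel)
  replace h := Rg.step 248 14 262 h rfl (by decide +kernel)
  replace h := Rg.step 262 14 276 h rfl (by decide +kernel)
  replace h := Rg.step 276 14 290 h rfl (by decide +kernel)
  replace h := Rg.step 290 14 304 h rfl (by decide +kernel)
  replace h := Rg.step 304 14 318 h rfl (by decide +kernel)
  replace h := Rg.step 318 14 332 h rfl (by decide +kernel)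
  replace h := Rg.step 332 14 346 h rfl (by decide +kernel)
  replace h := Rg.step 346 14 360 h rfl (by decide +kernel)
  replace h := Rg.step 360 14 374 h rfl (by decide +kernel)
  replace h := Rg.step 374 14 388 h rfl (by decide +kernel)
  exact h

end Pool.Agent.MP_61a8e3_al.G4.K

end

section

/-! Part K: the check of the classes from 4378 to 4811. -/

set_option autoImplicit false
set_option maxRecDepth 100000

namespace Pool.Agent.MP_61a8e3_al.G4.K

theorem chk10 : Rg (cls dat) 4378 4812 := by
  have h := Rg.nil (cls dat) 4378
  replace h := Rg.step 4378 14 4392 h rfl (by decide +kernel)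
  replace h := Rg.step 4392 14 4406 h rfl (by decide +kernel)
  replace h := Rg.step 4406 14 4420 h rfl (by decide +kernel)
  replace h := Rg.step 4420 14 4434 h rfl (by decide +kernel)
  replace h := Rg.step 4434 14 4448 h rfl (by decide +kernel)
  replace h := Rg.step 4448 14 4462 h rfl (by decide +kernel)
  replace h := Rg.step 4462 14 4476 h rfl (by decide +kernel)
  replace h := Rg.step 4476 14 4490 h rfl (by decide +kernel)
  replace h := Rg.step 4490 14 4504 h rfl (by decide +kernel)
  replace h := Rg.step 4504 14 4518 h rfl (by decide +kernel)
  replace h := Rg.step 4518 14 4532 h rfl (by decide +kernel)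
  replace h := Rg.step 4532 14 4546 h rfl (by decide +kernel)
  replace h := Rg.step 4546 14 4560 h rfl (by decide +kernel)
  replace h := Rg.step 4560 14 4574 h rfl (by decide +kernel)
  replace h := Rg.step 4574 14 4588 h rfl (by decide +kernel)
  replace h := Rg.step 4588 14 4602 h rfl (by decide +kernel)
  replace h := Rg.step 4602 14 4616 h rfl (by decide +kernel)
  replace h := Rg.step 4616 14 4630 h rfl (by decide +kernel)
  replace h := Rg.step 4630 14 4644 h rfl (by decide +kernel)
  replace h := Rg.step 4644 14 4658 h rfl (by decide +kernel)
  replace h := Rg.step 4658 14 4672 h rfl (by decide +kernel)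
  replace h := Rg.step 4672 14 4686 h rfl (by decide +kernel)
  replace h := Rg.step 4686 14 4700 h rfl (by decide +kernel)
  replace h := Rg.step 4700 14 4714 h rfl (by decide +kernel)
  replace h := Rg.step 4714 14 4728 h rfl (by decide +kernel)
  replace h := Rg.step 4728 14 4742 h rfl (by decide +kernel)
  replace h := Rg.step 4742 14 4756 h rfl (by decide +kernel)
  replace h := Rg.step 4756 14 4770 h rfl (by decide +kernel)
  replace h := Rg.step 4770 14 4784 h rfl (by decide +kernel)
  replace h := Rg.step 4784 14 4798 h rfl (by decide +kernel)
  replace h := Rg.step 4798 14 4812 h rfl (by decide +kernel)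
  exact h

end Pool.Agent.MP_61a8e3_al.G4.K

end
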