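import Pool.Agent.Mg.F61a8e3.G86875b

section

/-! Part K: the check of the classes from 822 to 1269. -/

set_option autoImplicit false
set_option maxRecDepth 100000

namespace Pool.Agent.MP_61a8e3_al.G4.K

theorem chk2 : Rg (cls dat) 822 1270 := by
  have h := Rg.nil (cls dat) 822
  replace h := Rg.step 822 14 836 h rfl (by decide +kernel)
  replace h := Rg.step 836 14 850 h rfl (by decide +kernel)
  replace h := Rg.step 850 14 864 h rfl (by decide +kernel)
  replace h := Rg.step 864 14 878 h rfl (by decide +kernel)
  replace h := Rg.step 878 14 892 h rfl (by decide +kernel)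
  replace h := Rg.step 892 14 906 h rfl (by decide +kernel)
  replace h := Rg.step 906 14 920 h rfl (by decide +kernel)
  replace h := Rg.step 920 14 934 h rfl (by decide +kernel)
  replace h := Rg.step 934 14 948 h rfl (by decide +kernel)
  replace h := Rg.step 948 14 962 h rfl (by decide +kernel)
  replace h := Rg.step 962 14 976 h rfl (by decide +kernel)
  replace h := Rg.step 976 14 990 h rfl (by decide +kernel)
  replace h := Rg.step 990 14 1004 h rfl (by decide +kernel)
  replace h := Rg.step 1004 14 1018 h rfl (by decide +kernel)
  replace h := Rg.step 1018 14 1032 h rfl (by decide +kernel)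
  replace h := Rg.step 1032 14 1046 h rfl (by decide +kernel)
  replace h := Rg.step 1046 14 1060 h rfl (by decide +kernel)
  replace h := Rg.step 1060 14 1074 h rfl (by decide +kernel)
  replace h := Rg.step 1074 14 1088 h rfl (by decide +kernel)
  replace h := Rg.step 1088 14 1102 h rfl (by decide +kernel)
  replace h := Rg.step 1102 14 1116 h rfl (by decide +kernel)
  replace h := Rg.step 1116 14 1130 h rfl (by decide +kernel)
  replace h := Rg.step 1130 14 1144 h rfl (by decide +kernel)
  replace h := Rg.step 1144 14 1158 h rfl (by decide +kernel)
  replace h := Rg.step 1158 14 1172 h rfl (by decide +kernel)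
  replace h := Rg.step 1172 14 1186 h rfl (by decide +kernel)
  replace h := Rg.step 1186 14 1200 h rfl (by decide +kernel)
  replace h := Rg.step 1200 14 1214 h rfl (by decide +kernel)
  replace h := Rg.step 1214 14 1228 h rfl (by decide +kernel)
  replace h := Rg.step 1228 14 1242 h rfl (by decide +kernel)
  replace h := Rg.step 1242 14 1256 h rfl (by decide +kernel)
  replace h := Rg.step 1256 14 1270 h rfl (by decide +kernel)
  exact h

end Pool.Agent.MP_61a8e3_al.G4.K

end

section

/-! Part K: the check of the classes from 12358 to 12791. -/

set_option autoImplicit false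
set_option maxRecDepth 100000

namespace Pool.Agent.MP_61a8e3_al.G4.K

theorem chk28 : Rg (cls dat) 12358 12792 := by
  have h := Rg.nil (cls dat) 12358
  replace h := Rg.step 12358 14 12372 h rfl (by decide +kernel)
  replace h := Rg.step 12372 14 12386 h rfl (by decide +kernel)
  replace h := Rg.step 12386 14 12400 h rfl (by decide +kernel)
  replace h := Rg.step 12400 14 12414 h rfl (by decide +kernel)
  replace h := Rg.step 12414 14 12428 h rfl (by decide +kernel)
  replace h := Rg.step 12428 14 12442 h rfl (by decide +kernel)
  replace h := Rg.step 12442 14 12456 h rfl (by decide +kernel)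
  replace h := Rg.step 12456 14 12470 h rfl (by decide +kernel)
  replace h := Rg.step 12470 14 12484 h rfl (by decide +kernel)
  replace h := Rg.step 12484 14 12498 h rfl (by decide +kernel)
  replace h := Rg.step 12498 14 12512 h rfl (by decide +kernel)
  replace h := Rg.step 12512 14 12526 h rfl (by decide +kernel)
  replace h := Rg.step 12526 14 12540 h rfl (by decide +kernel)
  replace h := Rg.step 12540 14 12554 h rfl (by decide +kernel)
  replace h := Rg.step 12554 14 12568 h rfl (by decide +kernel)
  replace h := Rg.step 12568 14 12582 h rfl (by decide +kernel)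
  replace h := Rg.step 12582 14 12596 h rfl (by decide +kernel)
  replace h := Rg.step 12596 14 12610 h rfl (by decide +kernel)
  replace h := Rg.step 12610 14 12624 h rfl (by decide +kernel)
  replace h := Rg.step 12624 14 12638 h rfl (by decide +kernel)
  replace h := Rg.step 12638 14 12652 h rfl (by decide +kernel)
  replace h := Rg.step 12652 14 12666 h rfl (by decide +kernel)
  replace h := Rg.step 12666 14 12680 h rfl (by decide +kernel)
  replace h := Rg.step 12680 14 12694 h rfl (by decide +kernel)
  replace h := Rg.step 12694 14 12708 h rfl (by decide +kernel)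
  replace h := Rg.step 12708 14 12722 h rfl (by decide +kernel)
  replace h := Rg.step 12722 14 12736 h rfl (by decide +kernel)
  replace h := Rg.step 12736 14 12750 h rfl (by decide +kernel)
  replace h := Rg.step 12750 14 12764 h rfl (by decide +kernel)
  replace h := Rg.step 12764 14 12778 h rfl (by decide +kernel)
  replace h := Rg.step 12778 14 12792 h rfl (by decide +kernel)
  exact h

end Pool.Agent.MP_61a8e3_al.G4.K

end
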