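import Pool.Agent.Mg.F61a8e3.G86875b

/-! Part K: the check of the classes from 10580 to 11027. -/

set_option autoImplicit false
set_option maxRecDepth 100000

namespace Pool.Agent.MP_61a8e3_al.G4.K

theorem chk24 : Rg (cls dat) 10580 11028 := by
  have h := Rg.nil (cls dat) 10580
  replace h := Rg.step 10580 14 10594 h rfl (by decide +kernel)
  replace h := Rg.step 10594 14 10608 h rfl (by decide +kernel)
  replace h := Rg.step 10608 14 10622 h rfl (by decide +kernel)
  replace h := Rg.step 10622 14 10636 h rfl (by decide +kernel)
  replace h := Rg.step 10636 14 10650 h rfl (by decide +kernel)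
  replace h := Rg.step 10650 14 10664 h rfl (by decide +kernel)
  replace h := Rg.step 10664 14 10678 h rfl (by decide +kernel)
  replace h := Rg.step 10678 14 10692 h rfl (by decide +kernel)
  replace h := Rg.step 10692 14 10706 h rfl (by decide +kernel)
  replace h := Rg.step 10706 14 10720 h rfl (by decide +kernel)
  replace h := Rg.step 10720 14 10734 h rfl (by decide +kernel)
  replace h := Rg.step 10734 14 10748 h rfl (by decide +kernel)
  replace h := Rg.step 10748 14 10762 h rfl (by decide +kernel)
  replace h := Rg.step 10762 14 10776 h rfl (by decide +kernel)
  replace h := Rg.step 10776 14 10790 h rfl (by decide +kernel)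
  replace h := Rg.step 10790 14 10804 h rfl (by decide +kernel)
  replace h := Rg.step 10804 14 10818 h rfl (by decide +kernel)
  replace h := Rg.step 10818 14 10832 h rfl (by decide +kernel)
  replace h := Rg.step 10832 14 10846 h rfl (by decide +kernel)
  replace h := Rg.step 10846 14 10860 h rfl (by decide +kernel)
  replace h := Rg.step 10860 14 10874 h rfl (by decide +kernel)
  replace h := Rg.step 10874 14 10888 h rfl (by decide +kernel)
  replace h := Rg.step 10888 14 10902 h rfl (by decide +kernel)
  replace h := Rg.step 10902 14 10916 h rfl (by decide +kernel)
  replace h := Rg.step 10916 14 10930 h rfl (by decide +kernel)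
  replace h := Rg.step 10930 14 10944 h rfl (by decide +kernel)
  replace h := Rg.step 10944 14 10958 h rfl (by decide +kernel)
  replace h := Rg.step 10958 14 10972 h rfl (by decide +kernel)
  replace h := Rg.step 10972 14 10986 h rfl (by decide +kernel)
  replace h := Rg.step 10986 14 11000 h rfl (by decide +kernel)
  replace h := Rg.step 11000 14 11014 h rfl (by decide +kernel)
  replace h := Rg.step 11014 14 11028 h rfl (by decide +kernel)
  exact h

end Pool.Agent.MP_61a8e3_al.G4.K
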