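import Pool.Agent.Mg.F61a8e3.G86875b

section

/-! Part K: the check of the classes from 2600 to 3047. -/

set_option autoImplicit false
set_option maxRecDepth 100000

namespace Pool.Agent.MP_61a8e3_al.G4.K

theorem chk6 : Rg (cls dat) 2600 3048 := by
  have h := Rg.nil (cls dat) 2600
  replace h := Rg.step 2600 14 2614 h rfl (by decide +kernel)
  replace h := Rg.step 2614 14 2628 h rfl (by decide +kernel)
  replace h := Rg.step 2628 14 2642 h rfl (by decide +kernel)
  replace h := Rg.step 2642 14 2656 h rfl (by decide +kernel)
  replace h := Rg.step 2656 14 2670 h rfl (by decide +kernel)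
  replace h := Rg.step 2670 14 2684 h rfl (by decide +kernel)
  replace h := Rg.step 2684 14 2698 h rfl (by decide +kernel)
  replace h := Rg.step 2698 14 2712 h rfl (by decide +kernel)
  replace h := Rg.step 2712 14 2726 h rfl (by decide +kernel)
  replace h := Rg.step 2726 14 2740 h rfl (by decide +kernel)
  replace h := Rg.step 2740 14 2754 h rfl (by decide +kernel)
  replace h := Rg.step 2754 14 2768 h rfl (by decide +kernel)
  replace h := Rg.step 2768 14 2782 h rfl (by decide +kernel)
  replace h := Rg.step 2782 14 2796 h rfl (by decide +kernel)
  replace h := Rg.step 2796 14 2810 h rfl (by decide +kernel)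
  replace h := Rg.step 2810 14 2824 h rfl (by decide +kernel)
  replace h := Rg.step 2824 14 2838 h rfl (by decide +kernel)
  replace h := Rg.step 2838 14 2852 h rfl (by decide +kernel)
  replace h := Rg.step 2852 14 2866 h rfl (by decide +kernel)
  replace h := Rg.step 2866 14 2880 h rfl (by decide +kernel)
  replace h := Rg.step 2880 14 2894 h rfl (by decide +kernel)
  replace h := Rg.step 2894 14 2908 h rfl (by decide +kernel)
  replace h := Rg.step 2908 14 2922 h rfl (by decide +kernel)
  replace h := Rg.step 2922 14 2936 h rfl (by decide +kernel)
  replace h := Rg.step 2936 14 2950 h rfl (by decide +kernel)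
  replace h := Rg.step 2950 14 2964 h rfl (by decide +kernel)
  replace h := Rg.step 2964 14 2978 h rfl (by decide +kernel)
  replace h := Rg.step 2978 14 2992 h rfl (by decide +kernel)
  replace h := Rg.step 2992 14 3006 h rfl (by decide +kernel)
  replace h := Rg.step 3006 14 3020 h rfl (by decide +kernel)
  replace h := Rg.step 3020 14 3034 h rfl (by decide +kernel)
  replace h := Rg.step 3034 14 3048 h rfl (by decide +kernel)
  exact h

end Pool.Agent.MP_61a8e3_al.G4.K

end

section

/-! Part K: the check of the classes from 3930 to 4377. -/

set_option autoImplicit false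
set_option maxRecDepth 100000

namespace Pool.Agent.MP_61a8e3_al.G4.K

theorem chk9 : Rg (cls dat) 3930 4378 := by
  have h := Rg.nil (cls dat) 3930
  replace h := Rg.step 3930 14 3944 h rfl (by decide +kernel)
  replace h := Rg.step 3944 14 3958 h rfl (by decide +kernel)
  replace h := Rg.step 3958 14 3972 h rfl (by decide +kernel)
  replace h := Rg.step 3972 14 3986 h rfl (by decide +kernel)
  replace h := Rg.step 3986 14 4000 h rfl (by decide +kernel)
  replace h := Rg.step 4000 14 4014 h rfl (by decide +kernel)
  replace h := Rg.step 4014 14 4028 h rfl (by decide +kernel)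
  replace h := Rg.step 4028 14 4042 h rfl (by decide +kernel)
  replace h := Rg.step 4042 14 4056 h rfl (by decide +kernel)
  replace h := Rg.step 4056 14 4070 h rfl (by decide +kernel)
  replace h := Rg.step 4070 14 4084 h rfl (by decide +kernel)
  replace h := Rg.step 4084 14 4098 h rfl (by decide +kernel)
  replace h := Rg.step 4098 14 4112 h rfl (by decide +kernel)
  replace h := Rg.step 4112 14 4126 h rfl (by decide +kernel)
  replace h := Rg.step 4126 14 4140 h rfl (by decide +kernel)
  replace h := Rg.step 4140 14 4154 h rfl (by decide +kernel)
  replace h := Rg.step 4154 14 4168 h rfl (by decide +kernel)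
  replace h := Rg.step 4168 14 4182 h rfl (by decide +kernel)
  replace h := Rg.step 4182 14 4196 h rfl (by decide +kernel)
  replace h := Rg.step 4196 14 4210 h rfl (by decide +kernel)
  replace h := Rg.step 4210 14 4224 h rfl (by decide +kernel)
  replace h := Rg.step 4224 14 4238 h rfl (by decide +kernel)
  replace h := Rg.step 4238 14 4252 h rfl (by decide +kernel)
  replace h := Rg.step 4252 14 4266 h rfl (by decide +kernel)
  replace h := Rg.step 4266 14 4280 h rfl (by decide +kernel)
  replace h := Rg.step 4280 14 4294 h rfl (by decide +kernel)
  replace h := Rg.step 4294 14 4308 h rfl (by decide +kernel)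
  replace h := Rg.step 4308 14 4322 h rfl (by decide +kernel)
  replace h := Rg.step 4322 14 4336 h rfl (by decide +kernel)
  replace h := Rg.step 4336 14 4350 h rfl (by decide +kernel)
  replace h := Rg.step 4350 14 4364 h rfl (by decide +kernel)
  replace h := Rg.step 4364 14 4378 h rfl (by decide +kernel)
  exact h

end Pool.Agent.MP_61a8e3_al.G4.K

end
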