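import Pool.Agent.Mg.F61a8e3.G86875b

section

/-! Part K: the check of the classes from 4812 to 5259. -/

set_option autoImplicit false
set_option maxRecDepth 100000

namespace Pool.Agent.MP_61a8e3_al.G4.K

theorem chk11 : Rg (cls dat) 4812 5260 := by
  have h := Rg.nil (cls dat) 4812
  replace h := Rg.step 4812 14 4826 h rfl (by decide +kernel)
  replace h := Rg.step 4826 14 4840 h rfl (by decide +kernel)
  replace h := Rg.step 4840 14 4854 h rfl (by decide +kernel)
  replace h := Rg.step 4854 14 4868 h rfl (by decide +kernel)
  replace h := Rg.step 4868 14 4882 h rfl (by decide +kernel)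
  replace h := Rg.step 4882 14 4896 h rfl (by decide +kernel)
  replace h := Rg.step 4896 14 4910 h rfl (by decide +kernel)
  replace h := Rg.step 4910 14 4924 h rfl (by decide +kernel)
  replace h := Rg.step 4924 14 4938 h rfl (by decide +kernel)
  replace h := Rg.step 4938 14 4952 h rfl (by decide +kernel)
  replace h := Rg.step 4952 14 4966 h rfl (by decide +kernel)
  replace h := Rg.step 4966 14 4980 h rfl (by decide +kernel)
  replace h := Rg.step 4980 14 4994 h rfl (by decide +kernel)
  replace h := Rg.step 4994 14 5008 h rfl (by decide +kernel)
  replace h := Rg.step 5008 14 5022 h rfl (by decide +kernel)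
  replace h := Rg.step 5022 14 5036 h rfl (by decide +kernel)
  replace h := Rg.step 5036 14 5050 h rfl (by decide +kernel)
  replace h := Rg.step 5050 14 5064 h rfl (by decide +kernel)
  replace h := Rg.step 5064 14 5078 h rfl (by decide +kernel)
  replace h := Rg.step 5078 14 5092 h rfl (by decide +kernel)
  replace h := Rg.step 5092 14 5106 h rfl (by decide +kernel)
  replace h := Rg.step 5106 14 5120 h rfl (by decide +kernel)
  replace h := Rg.step 5120 14 5134 h rfl (by decide +kernel)
  replace h := Rg.step 5134 14 5148 h rfl (by decide +kernel)
  replace h := Rg.step 5148 14 5162 h rfl (by decide +kernel)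
  replace h := Rg.step 5162 14 5176 h rfl (by decide +kernel)
  replace h := Rg.step 5176 14 5190 h rfl (by decide +kernel)
  replace h := Rg.step 5190 14 5204 h rfl (by decide +kernel)
  replace h := Rg.step 5204 14 5218 h rfl (by decide +kernel)
  replace h := Rg.step 5218 14 5232 h rfl (by decide +kernel)
  replace h := Rg.step 5232 14 5246 h rfl (by decide +kernel)
  replace h := Rg.step 5246 14 5260 h rfl (by decide +kernel)
  exact h

end Pool.Agent.MP_61a8e3_al.G4.K

end

section

/-! Part K: the check of the classes from 8802 to 9249. -/

set_option autoImplicit false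
set_option maxRecDepth 100000

namespace Pool.Agent.MP_61a8e3_al.G4.K

theorem chk20 : Rg (cls dat) 8802 9250 := by
  have h := Rg.nil (cls dat) 8802
  replace h := Rg.step 8802 14 8816 h rfl (by decide +kernel)
  replace h := Rg.step 8816 14 8830 h rfl (by decide +kernel)
  replace h := Rg.step 8830 14 8844 h rfl (by decide +kernel)
  replace h := Rg.step 8844 14 8858 h rfl (by decide +kernel)
  replace h := Rg.step 8858 14 8872 h rfl (by decide +kernel)
  replace h := Rg.step 8872 14 8886 h rfl (by decide +kernel)
  replace h := Rg.step 8886 14 8900 h rfl (by decide +kernel)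
  replace h := Rg.step 8900 14 8914 h rfl (by decide +kernel)
  replace h := Rg.step 8914 14 8928 h rfl (by decide +kernel)
  replace h := Rg.step 8928 14 8942 h rfl (by decide +kernel)
  replace h := Rg.step 8942 14 8956 h rfl (by decide +kernel)
  replace h := Rg.step 8956 14 8970 h rfl (by decide +kernel)
  replace h := Rg.step 8970 14 8984 h rfl (by decide +kernel)
  replace h := Rg.step 8984 14 8998 h rfl (by decide +kernel)
  replace h := Rg.step 8998 14 9012 h rfl (by decide +kernel)
  replace h := Rg.step 9012 14 9026 h rfl (by decide +kernel)
  replace h := Rg.step 9026 14 9040 h rfl (by decide +kernel)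
  replace h := Rg.step 9040 14 9054 h rfl (by decide +kernel)
  replace h := Rg.step 9054 14 9068 h rfl (by decide +kernel)
  replace h := Rg.step 9068 14 9082 h rfl (by decide +kernel)
  replace h := Rg.step 9082 14 9096 h rfl (by decide +kernel)
  replace h := Rg.step 9096 14 9110 h rfl (by decide +kernel)
  replace h := Rg.step 9110 14 9124 h rfl (by decide +kernel)
  replace h := Rg.step 9124 14 9138 h rfl (by decide +kernel)
  replace h := Rg.step 9138 14 9152 h rfl (by decide +kernel)
  replace h := Rg.step 9152 14 9166 h rfl (by decide +kernel)
  replace h := Rg.step 9166 14 9180 h rfl (by decide +kernel)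
  replace h := Rg.step 9180 14 9194 h rfl (by decide +kernel)
  replace h := Rg.step 9194 14 9208 h rfl (by decide +kernel)
  replace h := Rg.step 9208 14 9222 h rfl (by decide +kernel)
  replace h := Rg.step 9222 14 9236 h rfl (by decide +kernel)
  replace h := Rg.step 9236 14 9250 h rfl (by decide +kernel)
  exact h

end Pool.Agent.MP_61a8e3_al.G4.K

end
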