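import Pool.Agent.Mg.F61a8e3.G86875b

/-! Part K: the check of the classes from 9698 to 10131. -/

set_option autoImplicit false
set_option maxRecDepth 100000

namespace Pool.Agent.MP_61a8e3_al.G4.K

theorem chk22 : Rg (cls dat) 9698 10132 := by
  have h := Rg.nil (cls dat) 9698
  replace h := Rg.step 9698 14 9712 h rfl (by decide +kernel)
  replace h := Rg.step 9712 14 9726 h rfl (by decide +kernel)
  replace h := Rg.step 9726 14 9740 h rfl (by decide +kernel)
  replace h := Rg.step 9740 14 9754 h rfl (by decide +kernel)
  replace h := Rg.step 9754 14 9768 h rfl (by decide +kernel)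
  replace h := Rg.step 9768 14 9782 h rfl (by decide +kernel)
  replace h := Rg.step 9782 14 9796 h rfl (by decide +kernel)
  replace h := Rg.step 9796 14 9810 h rfl (by decide +kernel)
  replace h := Rg.step 9810 14 9824 h rfl (by decide +kernel)
  replace h := Rg.step 9824 14 9838 h rfl (by decide +kernel)
  replace h := Rg.step 9838 14 9852 h rfl (by decide +kernel)
  replace h := Rg.step 9852 14 9866 h rfl (by decide +kernel)
  replace h := Rg.step 9866 14 9880 h rfl (by decide +kernel)
  replace h := Rg.step 9880 14 9894 h rfl (by decide +kernel)
  replace h := Rg.step 9894 14 9908 h rfl (by decide +kernel)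
  replace h := Rg.step 9908 14 9922 h rfl (by decide +kernel)
  replace h := Rg.step 9922 14 9936 h rfl (by decide +kernel)
  replace h := Rg.step 9936 14 9950 h rfl (by decide +kernel)
  replace h := Rg.step 9950 14 9964 h rfl (by decide +kernel)
  replace h := Rg.step 9964 14 9978 h rfl (by decide +kernel)
  replace h := Rg.step 9978 14 9992 h rfl (by decide +kernel)
  replace h := Rg.step 9992 14 10006 h rfl (by decide +kernel)
  replace h := Rg.step 10006 14 10020 h rfl (by decide +kernel)
  replace h := Rg.step 10020 14 10034 h rfl (by decide +kernel)
  replace h := Rg.step 10034 14 10048 h rfl (by decide +kernel)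
  replace h := Rg.step 10048 14 10062 h rfl (by decide +kernel)
  replace h := Rg.step 10062 14 10076 h rfl (by decide +kernel)
  replace h := Rg.step 10076 14 10090 h rfl (by decide +kernel)
  replace h := Rg.step 10090 14 10104 h rfl (by decide +kernel)
  replace h := Rg.step 10104 14 10118 h rfl (by decide +kernel)
  replace h := Rg.step 10118 14 10132 h rfl (by decide +kernel)
  exact h

end Pool.Agent.MP_61a8e3_al.G4.K
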