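import Pool.Agent.Mg.F61a8e3.G86875b

section

/-! Part K: the check of the classes from 5260 to 5707. -/

set_option autoImplicit false
set_option maxRecDepth 100000

namespace Pool.Agent.MP_61a8e3_al.G4.K

theorem chk12 : Rg (cls dat) 5260 5708 := by
  have h := Rg.nil (cls dat) 5260
  replace h := Rg.step 5260 14 5274 h rfl (by decide +kernel)
  replace h := Rg.step 5274 14 5288 h rfl (by decide +kernel)
  replace h := Rg.step 5288 14 5302 h rfl (by decide +kernel)
  replace h := Rg.step 5302 14 5316 h rfl (by decide +kernel)
  replace h := Rg.step 5316 14 5330 h rfl (by decide +kernel)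
  replace h := Rg.step 5330 14 5344 h rfl (by decide +kernel)
  replace h := Rg.step 5344 14 5358 h rfl (by decide +kernel)
  replace h := Rg.step 5358 14 5372 h rfl (by decide +kernel)
  replace h := Rg.step 5372 14 5386 h rfl (by decide +kernel)
  replace h := Rg.step 5386 14 5400 h rfl (by decide +kernel)
  replace h := Rg.step 5400 14 5414 h rfl (by decide +kernel)
  replace h := Rg.step 5414 14 5428 h rfl (by decide +kernel)
  replace h := Rg.step 5428 14 5442 h rfl (by decide +kernel)
  replace h := Rg.step 5442 14 5456 h rfl (by decide +kernel)
  replace h := Rg.step 5456 14 5470 h rfl (by decide +kernel)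
  replace h := Rg.step 5470 14 5484 h rfl (by decide +kernel)
  replace h := Rg.step 5484 14 5498 h rfl (by decide +kernel)
  replace h := Rg.step 5498 14 5512 h rfl (by decide +kernel)
  replace h := Rg.step 5512 14 5526 h rfl (by decide +kernel)
  replace h := Rg.step 5526 14 5540 h rfl (by decide +kernel)
  replace h := Rg.step 5540 14 5554 h rfl (by decide +kernel)
  replace h := Rg.step 5554 14 5568 h rfl (by decide +kernel)
  replace h := Rg.step 5568 14 5582 h rfl (by decide +kernel)
  replace h := Rg.step 5582 14 5596 h rfl (by decide +kernel)
  replace h := Rg.step 5596 14 5610 h rfl (by decide +kernel)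
  replace h := Rg.step 5610 14 5624 h rfl (by decide +kernel)
  replace h := Rg.step 5624 14 5638 h rfl (by decide +kernel)
  replace h := Rg.step 5638 14 5652 h rfl (by decide +kernel)
  replace h := Rg.step 5652 14 5666 h rfl (by decide +kernel)
  replace h := Rg.step 5666 14 5680 h rfl (by decide +kernel)
  replace h := Rg.step 5680 14 5694 h rfl (by decide +kernel)
  replace h := Rg.step 5694 14 5708 h rfl (by decide +kernel)
  exact h

end Pool.Agent.MP_61a8e3_al.G4.K

end

section

/-! Part K: the check of the classes from 6142 to 6589. -/

set_option autoImplicit false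
set_option maxRecDepth 100000

namespace Pool.Agent.MP_61a8e3_al.G4.K

theorem chk14 : Rg (cls dat) 6142 6590 := by
  have h := Rg.nil (cls dat) 6142
  replace h := Rg.step 6142 14 6156 h rfl (by decide +kernel)
  replace h := Rg.step 6156 14 6170 h rfl (by decide +kernel)
  replace h := Rg.step 6170 14 6184 h rfl (by decide +kernel)
  replace h := Rg.step 6184 14 6198 h rfl (by decide +kernel)
  replace h := Rg.step 6198 14 6212 h rfl (by decide +kernel)
  replace h := Rg.step 6212 14 6226 h rfl (by decide +kernel)
  replace h := Rg.step 6226 14 6240 h rfl (by decide +kernel)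
  replace h := Rg.step 6240 14 6254 h rfl (by decide +kernel)
  replace h := Rg.step 6254 14 6268 h rfl (by decide +kernel)
  replace h := Rg.step 6268 14 6282 h rfl (by decide +kernel)
  replace h := Rg.step 6282 14 6296 h rfl (by decide +kernel)
  replace h := Rg.step 6296 14 6310 h rfl (by decide +kernel)
  replace h := Rg.step 6310 14 6324 h rfl (by decide +kernel)
  replace h := Rg.step 6324 14 6338 h rfl (by decide +kernel)
  replace h := Rg.step 6338 14 6352 h rfl (by decide +kernel)
  replace h := Rg.step 6352 14 6366 h rfl (by decide +kernel)
  replace h := Rg.step 6366 14 6380 h rfl (by decide +kernel)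
  replace h := Rg.step 6380 14 6394 h rfl (by decide +kernel)
  replace h := Rg.step 6394 14 6408 h rfl (by decide +kernel)
  replace h := Rg.step 6408 14 6422 h rfl (by decide +kernel)
  replace h := Rg.step 6422 14 6436 h rfl (by decide +kernel)
  replace h := Rg.step 6436 14 6450 h rfl (by decide +kernel)
  replace h := Rg.step 6450 14 6464 h rfl (by decide +kernel)
  replace h := Rg.step 6464 14 6478 h rfl (by decide +kernel)
  replace h := Rg.step 6478 14 6492 h rfl (by decide +kernel)
  replace h := Rg.step 6492 14 6506 h rfl (by decide +kernel)
  replace h := Rg.step 6506 14 6520 h rfl (by decide +kernel)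
  replace h := Rg.step 6520 14 6534 h rfl (by decide +kernel)
  replace h := Rg.step 6534 14 6548 h rfl (by decide +kernel)
  replace h := Rg.step 6548 14 6562 h rfl (by decide +kernel)
  replace h := Rg.step 6562 14 6576 h rfl (by decide +kernel)
  replace h := Rg.step 6576 14 6590 h rfl (by decide +kernel)
  exact h

end Pool.Agent.MP_61a8e3_al.G4.K

end
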