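import Mathlib
import Pool.Agent.Mg.F61a8e3.G3e7fde

section

/-! Definitions for part S (Nielsen lifting for the genus 4 surface group). -/

namespace Pool.Agent.MP_61a8e3_al.G4.S

open FreeGroup

abbrev X := Fin 4 ⊕ Fin 4
abbrev F := FreeGroup X
abbrev Lt := X × Bool

/-- The surface relator. -/
abbrev rel : F :=
  (List.ofFn (fun i : Fin 4 => FreeGroup.of (Sum.inl i : Fin 4 ⊕ Fin 4) *
    FreeGroup.of (Sum.inr i : Fin 4 ⊕ Fin 4) * (FreeGroup.of (Sum.inl i : Fin 4 ⊕ Fin 4))⁻¹ *
    (FreeGroup.of (Sum.inr i : Fin 4 ⊕ Fin 4))⁻¹)).prod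

abbrev Pi := PresentedGroup ({rel} : Set F)

/-- The projection onto the surface group. -/
abbrev pr : F →* Pi := PresentedGroup.mk ({rel} : Set F)

/-- The relator as a word. -/
def rw0 : List Lt :=
  [(.inl 0, true), (.inr 0, true), (.inl 0, false), (.inr 0, false),
   (.inl 1, true), (.inr 1, true), (.inl 1, false), (.inr 1, false),
   (.inl 2, true), (.inr 2, true), (.inl 2, false), (.inr 2, false),
   (.inl 3, true), (.inr 3, true), (.inl 3, false), (.inr 3, false)]

/-- The relator (`true`) or its inverse (`false`) as a word. -/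
def rws (b : Bool) : List Lt := cond b rw0 (invRev rw0)

/-- Inverse dart. -/
def iv {E : Type} (d : E × Bool) : E × Bool := (d.1, !d.2)

/-- Renaming (or labelling) of darts. -/
def lb {E E' : Type} (f : E → E') (d : E × Bool) : E' × Bool := (f d.1, d.2)

/-- Every dart occurs at most once, and the darts come in inverse pairs. -/
def Good {E : Type} (L : List (E × Bool)) : Prop := L.Nodup ∧ ∀ d ∈ L, iv d ∈ L

/-- `f d` is the start vertex of the dart `d`; `L` is a path from `a` to `b`. -/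
def Path {E Ω : Type} (f : E × Bool → Ω) : Ω → List (E × Bool) → Ω → Prop
  | a, [], b => a = b
  | a, d :: L, b => f d = a ∧ Path f (f (iv d)) L b

/-- All faces are closed paths. -/
def Closed {E Ω : Type} (f : E × Bool → Ω) (Cs : List (List (E × Bool))) : Prop :=
  ∀ C ∈ Cs, ∃ a, Path f a C a

/-- `f` is a potential for the cochain `c` on the family of faces `Cs`. -/
def Pot {E Γ Ω : Type} [Group Γ] [MulAction Γ Ω] (c : E → Γ) (f : E × Bool → Ω)
    (Cs : List (List (E × Bool))) : Prop :=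
  Closed f Cs ∧ ∀ e, (e, true) ∈ Cs.flatten → f (e, true) = c e • f (e, false)

/-- `g` is a product of `n` conjugates of the relator or of its inverse. -/
def PC (n : ℕ) (g : F) : Prop :=
  ∃ l : List F, l.length = n ∧ (∀ z ∈ l, IsConj rel z ∨ IsConj rel⁻¹ z) ∧ l.prod = g

/-- A labelled family of faces forming a closed surface. -/
structure Faces {E : Type} (lab : E → X) (Cs : List (List (E × Bool))) : Prop where
  good : Good Cs.flatten
  labC : ∀ C ∈ Cs, ∃ b, C.map (lb lab) ~r rws b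

/-- Two faces of opposite signs share an edge. -/
def Dipole {E : Type} (lab : E → X) (Cs : List (List (E × Bool))) : Prop :=
  ∃ C ∈ Cs, ∃ C' ∈ Cs, ∃ b, ∃ d, C.map (lb lab) ~r rws b ∧ C'.map (lb lab) ~r rws (!b) ∧
    d ∈ C ∧ iv d ∈ C'

/-- Around the start vertex of every dart all sixteen labels occur. -/
def WalkP {E : Type} (lab : E → X) (Cs : List (List (E × Bool))) : Prop :=
  ∀ d ∈ Cs.flatten, ∀ l : Lt, ∃ d' ∈ Cs.flatten, lb lab d' = l ∧
    ∀ (Ω : Type) (f : E × Bool → Ω), Closed f Cs → f d = f d'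

/-- A folded configuration for the endomorphism `φ`. -/
structure Final {E : Type} (φ : F →* F) (lab : E → X)
    (P : List (List (E × Bool) × FreeGroup E)) (ψ : F →* FreeGroup E) : Prop where
  faces : Faces lab (P.map Prod.fst)
  conj : ∀ p ∈ P, IsConj (mk p.1) p.2
  prod : ψ rel = (P.map Prod.snd).prod
  lifts : ∀ x, FreeGroup.map lab (ψ x) = φ x
  pot : ∀ (Γ Ω : Type) [Group Γ] [MulAction Γ Ω] (c : E → Γ) (ω : Ω),
    (∀ x, FreeGroup.lift c (ψ x) • ω = ω) → (∀ p ∈ P, FreeGroup.lift c p.2 • ω = ω) →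
    ∃ f : E × Bool → Ω, Pot c f (P.map Prod.fst)

@[simp] theorem iv_iv {E : Type} (d : E × Bool) : iv (iv d) = d := by
  cases d; simp [iv]

theorem iv_ne {E : Type} (d : E × Bool) : iv d ≠ d := by
  rcases d with ⟨e, b⟩; cases b <;> simp [iv]

theorem iv_inj {E : Type} {d d' : E × Bool} (h : iv d = iv d') : d = d' := by
  rw [← iv_iv d, h, iv_iv]

theorem lb_iv {E E' : Type} (f : E → E') (d : E × Bool) : lb f (iv d) = iv (lb f d) := rfl

theorem map_mk_lb {E E' : Type} (f : E → E') (L : List (E × Bool)) :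
    FreeGroup.map f (mk L) = mk (L.map (lb f)) := FreeGroup.map.mk

theorem invRev_eq {E : Type} (L : List (E × Bool)) : invRev L = (L.map iv).reverse := rfl

theorem mem_invRev {E : Type} {L : List (E × Bool)} {d : E × Bool} :
    d ∈ invRev L ↔ iv d ∈ L := by
  rw [invRev_eq, List.mem_reverse, List.mem_map]
  constructor
  · rintro ⟨x, hx, rfl⟩; simpa using hx
  · intro h; exact ⟨_, h, iv_iv d⟩

theorem mk_rw0 : mk rw0 = rel := by decide

theorem mk_rws (b : Bool) : mk (rws b) = cond b rel rel⁻¹ := by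
  cases b
  · simp only [rws, cond_false, ← inv_mk, mk_rw0]
  · exact mk_rw0

theorem pr_rel : pr rel = 1 :=
  (PresentedGroup.mk_eq_one_iff).2 (Subgroup.subset_normalClosure rfl)

theorem isConj_mk_of_isRotated {E : Type} {L L' : List (E × Bool)} (h : L ~r L') :
    IsConj (mk L) (mk L') := by
  obtain ⟨A, B, rfl, rfl⟩ : ∃ A B, L = A ++ B ∧ L' = B ++ A := by
    obtain ⟨n, hn, rfl⟩ := List.isRotated_iff_mod.1 h
    exact ⟨L.take n, L.drop n, (List.take_append_drop n L).symm, List.rotate_eq_drop_append_take hn⟩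
  rw [← mul_mk, ← mul_mk]
  exact isConj_iff.2 ⟨(mk A)⁻¹, by group⟩

theorem path_append {E Ω : Type} (f : E × Bool → Ω) (L L' : List (E × Bool)) (a b : Ω) :
    Path f a (L ++ L') b ↔ ∃ m, Path f a L m ∧ Path f m L' b := by
  induction L generalizing a with
  | nil => simp [Path]
  | cons d L ih =>
    simp only [List.cons_append, Path, ih]
    constructor
    · rintro ⟨h, m, h1, h2⟩; exact ⟨m, ⟨h, h1⟩, h2⟩
    · rintro ⟨m, ⟨h, h1⟩, h2⟩; exact ⟨h, m, h1, h2⟩

theorem path_invRev {E Ω : Type} (f : E × Bool → Ω) (L : List (E × Bool)) (a b : Ω)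
    (h : Path f a L b) : Path f b (invRev L) a := by
  induction L generalizing a with
  | nil => simpa [Path] using Eq.symm h
  | cons d L ih =>
    rw [invRev_cons, path_append]
    refine ⟨f (iv d), ih _ h.2, ?_⟩
    have : invRev [d] = [iv d] := rfl
    rw [this]
    exact ⟨rfl, by simpa [Path] using h.1⟩

theorem path_rotate {E Ω : Type} (f : E × Bool → Ω) {L L' : List (E × Bool)} (h : L ~r L')
    (hL : ∃ a, Path f a L a) : ∃ a, Path f a L' a := by
  obtain ⟨A, B, rfl, rfl⟩ : ∃ A B, L = A ++ B ∧ L' = B ++ A := by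
    obtain ⟨n, hn, rfl⟩ := List.isRotated_iff_mod.1 h
    exact ⟨L.take n, L.drop n, (List.take_append_drop n L).symm, List.rotate_eq_drop_append_take hn⟩
  obtain ⟨a, ha⟩ := hL
  obtain ⟨m, h1, h2⟩ := (path_append f A B a a).1 ha
  exact ⟨m, (path_append f B A m m).2 ⟨a, h2, h1⟩⟩

theorem path_map {E E' Ω : Type} (f : E' × Bool → Ω) (ρ : E → E') (L : List (E × Bool))
    (a b : Ω) : Path f a (L.map (lb ρ)) b ↔ Path (fun d => f (lb ρ d)) a L b := by
  induction L generalizing a with
  | nil => simp [Path]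
  | cons d L ih => simp only [List.map_cons, Path, ih, lb_iv]

end Pool.Agent.MP_61a8e3_al.G4.S

end

section

/-! Part D (the kernel of the map to the outer automorphism group of the surface group is
generated by inner automorphisms and pushes): definitions. -/

set_option autoImplicit false

namespace Pool.Agent.MP_61a8e3_al.G4.D

open A

abbrev Pi := S.Pi
abbrev pr : F →* Pi := S.pr

theorem r3_rel : r3 = S.rel := rfl

theorem pr_r3 : pr r3 = 1 := S.pr_rel

/-- Kill one generator. -/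
def kil (s : X) : F →* F := FreeGroup.lift fun x => if x = s then 1 else FreeGroup.of x

/-- Exponent sum of one generator. -/
def ex (z : X) : F →* Multiplicative ℤ :=
  FreeGroup.lift fun x => if x = z then Multiplicative.ofAdd 1 else 1

/-- The endomorphism `s ↦ b⁻¹ * s * a` fixing the other generators. -/
def tw (s : X) (a b : F) : F →* F :=
  FreeGroup.lift fun x => if x = s then b⁻¹ * FreeGroup.of s * a else FreeGroup.of x

/-- A word of minimal length in its conjugacy class. -/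
def MinC (W : List L) : Prop := ∀ g : F, IsConj (FreeGroup.mk W) g → W.length ≤ g.norm

theorem tw_kil (s : X) (a b g : F) : tw s a b (kil s g) = kil s g := by
  have : (tw s a b).comp (kil s) = kil s := FreeGroup.ext_hom _ _ fun x => by
    by_cases h : x = s <;> simp [tw, kil, h]
  exact DFunLike.congr_fun this g

theorem tw_fix {s : X} (a b : F) {g : F} (h : kil s g = g) : tw s a b g = g := by
  rw [← h, tw_kil]

theorem tw_self (s : X) (a b : F) : tw s a b (FreeGroup.of s) = b⁻¹ * FreeGroup.of s * a := by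
  simp [tw]

theorem tw_ne {s x : X} (a b : F) (h : x ≠ s) : tw s a b (FreeGroup.of x) = FreeGroup.of x := by
  simp [tw, h]

theorem tw_tw {s : X} {a b : F} (a' b' : F) (ha : kil s a = a) (hb : kil s b = b) (g : F) :
    tw s a' b' (tw s a b g) = tw s (a' * a) (b' * b) g := by
  have : (tw s a' b').comp (tw s a b) = tw s (a' * a) (b' * b) :=
    FreeGroup.ext_hom _ _ fun x => by
      by_cases h : x = s
      · subst h
        simp only [MonoidHom.comp_apply, tw_self, map_mul, map_inv, tw_fix a' b' ha,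
          tw_fix a' b' hb]
        group
      · simp only [MonoidHom.comp_apply, tw_ne _ _ h]
  exact DFunLike.congr_fun this g

theorem tw_one (s : X) (g : F) : tw s 1 1 g = g := by
  have : tw s 1 1 = MonoidHom.id F := FreeGroup.ext_hom _ _ fun x => by
    by_cases h : x = s <;> simp [tw, h]
  exact DFunLike.congr_fun this g

/-- The commutator block of the handle `j` in the inverse of the relator. -/
def cm (j : Fin 4) : F := FreeGroup.mk [lb j, la j, lB j, lA j]

def pa : X → F
  | .inl i => el (lb i)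
  | .inr i => el (lA i)

def pb : X → F
  | .inl i => cm (i + 3) * cm (i + 2) * cm (i + 1) * el (lb i)
  | .inr i => el (lA i) * (cm (i + 3) * cm (i + 2) * cm (i + 1))

theorem kil_pa : ∀ x : X, kil x (pa x) = pa x := by decide
theorem kil_pb : ∀ x : X, kil x (pb x) = pb x := by decide

/-- The push across the side `x`. -/
def push (x : X) : MulAut F where
  toFun := tw x (pa x) (pb x)
  invFun := tw x (pa x)⁻¹ (pb x)⁻¹
  left_inv := fun g => by
    rw [tw_tw _ _ (kil_pa x) (kil_pb x), inv_mul_cancel, inv_mul_cancel, tw_one]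
  right_inv := fun g => by
    rw [tw_tw _ _ (by rw [map_inv, kil_pa]) (by rw [map_inv, kil_pb]), mul_inv_cancel,
      mul_inv_cancel, tw_one]
  map_mul' := map_mul _

theorem push_apply (x : X) (g : F) : push x g = tw x (pa x) (pb x) g := rfl

/-- Multiple push. -/
def Mh (ρ : F) (χ : Option L → ℤ) : F →* F :=
  FreeGroup.lift fun i => ρ ^ (χ (some (i, true)) - χ none) * FreeGroup.of i *
    ρ ^ (χ none - χ (some (i, false)))

/-- Indicator of one direction. -/
def dl (q p : Option L) : ℤ := if p = q then 1 else 0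

instance inn_normal : (MulAut.conj : F →* MulAut F).range.Normal :=
  ⟨by
    rintro _ ⟨c, rfl⟩ β
    exact ⟨β c, by ext g; simp⟩⟩

abbrev Out := MulAut F ⧸ (MulAut.conj : F →* MulAut F).range

def out : MulAut F →* Out := QuotientGroup.mk' _

theorem out_conj (c : F) : out (MulAut.conj c) = 1 :=
  (QuotientGroup.eq_one_iff _).2 ⟨c, rfl⟩

theorem out_eq {α β : MulAut F} (h : out α = out β) : ∃ c : F, α = MulAut.conj c * β := by
  have h1 : out (α * β⁻¹) = 1 := by rw [map_mul, map_inv, h, mul_inv_cancel]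
  obtain ⟨c, hc⟩ := (QuotientGroup.eq_one_iff _).1 h1
  exact ⟨c, by rw [hc]; group⟩

/-- The multiple push from the corner `u` to the corner `v` is the transported push. -/
def G2 (P : Pi →* Out) (β : MulAut F) (u v : F) (χ : Option L → ℤ) : Prop :=
  Mh (u * β r3 * u⁻¹) χ (v * β r3 * v⁻¹) = u * β r3 * u⁻¹ ∧
    ∃ τ : MulAut F, (∀ g, τ g = Mh (u * β r3 * u⁻¹) χ g) ∧
      out (β⁻¹ * τ * β) = P (pr (β⁻¹ (u⁻¹ * v)))

/-- The invariant carried along moves. -/
def Inv (P : Pi →* Out) (v : Vx) : Prop :=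
  ∃ G : Option L → F, G none = 1 ∧ (∀ p q, Nx v.o p q → G q = val G (v.β r3) p) ∧
    ∀ q, G2 P v.β (G q) (val G (v.β r3) q) (dl q)

/-- The inverse of the relator as a word. -/
def cW : List L :=
    [lb 3, la 3, lB 3, lA 3, lb 2, la 2, lB 2, lA 2, lb 1, la 1, lB 1, lA 1,
      lb 0, la 0, lB 0, lA 0]

/-- Corner values at the base vertex. -/
def G0 : Option L → F
  | none => 1
  | some l => FreeGroup.mk (cW.dropWhile (fun m => m ≠ l))

/-- Dual generators. -/
def gam (x : X) : F := (G0 (some (x, true)))⁻¹ * val G0 r3 (some (x, true))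

/-- The outer automorphism group of the surface group, as in the frozen statements. -/
abbrev OutPi := MulAut Pi ⧸ Subgroup.normalClosure (Set.range (MulAut.conj : Pi →* MulAut Pi))

end Pool.Agent.MP_61a8e3_al.G4.D

end

section

set_option autoImplicit false

namespace Pool.Agent.MP_61a8e3_al.G4.D

open A

theorem DFree1_single (l : L) :
    FreeGroup.mk [l] = if l.2 = true then FreeGroup.of l.1 else (FreeGroup.of l.1)⁻¹ := by
  obtain ⟨x, b⟩ := l
  cases b
  · simp only [Bool.false_eq_true, if_false]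
    rfl
  · simp only [if_true]
    rfl

theorem DFree1_cons (l : L) (W : List L) :
    FreeGroup.mk (l :: W) = FreeGroup.mk [l] * FreeGroup.mk W := by
  rw [FreeGroup.mul_mk]; rfl

theorem DFree1_kil_of (s x : X) :
    kil s (FreeGroup.of x) = if x = s then 1 else FreeGroup.of x := by
  simp [kil]

theorem DFree1_kil_single (s : X) (l : L) :
    kil s (FreeGroup.mk [l]) = if l.1 = s then 1 else FreeGroup.mk [l] := by
  rw [DFree1_single]
  by_cases h : l.1 = s <;> by_cases hb : l.2 = true <;>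
    simp [h, hb, DFree1_kil_of]

theorem DFree1_kil_filter (s : X) (W : List L) :
    kil s (FreeGroup.mk W) = FreeGroup.mk (W.filter (fun l => decide (l.1 ≠ s))) := by
  induction W with
  | nil =>
    have : (FreeGroup.mk ([] : List L) : F) = 1 := rfl
    rw [List.filter_nil, this, _root_.map_one]
  | cons l W ih =>
    rw [DFree1_cons, _root_.map_mul, ih, DFree1_kil_single]
    by_cases h : l.1 = s
    · rw [if_pos h, one_mul, List.filter_cons_of_neg (by simp [h])]
    · rw [if_neg h, List.filter_cons_of_pos (by simp [h]), ← DFree1_cons]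

theorem kil_mk {s : X} {W : List L} (h : ∀ l ∈ W, l.1 ≠ s) :
    kil s (FreeGroup.mk W) = FreeGroup.mk W := by
  rw [DFree1_kil_filter, List.filter_eq_self.2]
  intro l hl
  simpa using h l hl

theorem kil_fix_iff {s : X} {g : F} : kil s g = g ↔ ∀ l ∈ g.toWord, l.1 ≠ s := by
  constructor
  · intro h l hl
    have h1 : g = FreeGroup.mk (g.toWord.filter (fun l => decide (l.1 ≠ s))) := by
      rw [← DFree1_kil_filter, FreeGroup.mk_toWord, h]
    have h2 : g.toWord = FreeGroup.reduce (g.toWord.filter (fun l => decide (l.1 ≠ s))) := by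
      conv_lhs => rw [h1]
      rw [FreeGroup.toWord_mk]
    have h3 : List.Sublist g.toWord (g.toWord.filter (fun l => decide (l.1 ≠ s))) := by
      conv_lhs => rw [h2]
      exact FreeGroup.Red.sublist FreeGroup.reduce.red
    have h4 := h3.subset hl
    simpa using (List.mem_filter.1 h4).2
  · intro h
    have := kil_mk h
    rwa [FreeGroup.mk_toWord] at this

theorem kil_kil (s t : X) (g : F) : kil s (kil t g) = kil t (kil s g) := by
  have : (kil s).comp (kil t) = (kil t).comp (kil s) := FreeGroup.ext_hom _ _ fun x => by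
    by_cases h : x = s <;> by_cases h' : x = t <;>
      simp only [MonoidHom.comp_apply, DFree1_kil_of, h, h', if_true, if_false,
        _root_.map_one] <;> simp_all [DFree1_kil_of]
  exact DFunLike.congr_fun this g

theorem kil_idem (s : X) (g : F) : kil s (kil s g) = kil s g := by
  have : (kil s).comp (kil s) = kil s := FreeGroup.ext_hom _ _ fun x => by
    by_cases h : x = s <;> simp [DFree1_kil_of, h]
  exact DFunLike.congr_fun this g

theorem ex_kil {z : X} {g : F} (h : kil z g = g) : ex z g = 1 := by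
  have : (ex z).comp (kil z) = 1 := FreeGroup.ext_hom _ _ fun x => by
    by_cases h : x = z <;> simp [DFree1_kil_of, ex, h]
  rw [← h]
  exact DFunLike.congr_fun this g

theorem DFree1_pow_mk {α : Type} (x : α) (W : List (α × Bool)) (h : ∀ l ∈ W, l.1 = x) :
    ∃ k : ℤ, FreeGroup.mk W = FreeGroup.of x ^ k := by
  induction W with
  | nil => exact ⟨0, by rw [zpow_zero]; rfl⟩
  | cons l W ih =>
    obtain ⟨k, hk⟩ := ih (fun m hm => h m (List.mem_cons_of_mem _ hm))
    have hl : l.1 = x := h l List.mem_cons_self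
    obtain ⟨y, b⟩ := l
    simp only at hl
    subst hl
    have hc : FreeGroup.mk ((y, b) :: W) = FreeGroup.mk [(y, b)] * FreeGroup.mk W := by
      rw [FreeGroup.mul_mk]; rfl
    cases b
    · refine ⟨-1 + k, ?_⟩
      rw [hc, hk, zpow_add, zpow_neg_one]
      rfl
    · refine ⟨1 + k, ?_⟩
      rw [hc, hk, zpow_add, zpow_one]
      rfl

theorem pow_of_fix {x : X} {g : F} (h : ∀ z, z ≠ x → kil z g = g) :
    ∃ k : ℤ, g = FreeGroup.of x ^ k := by
  have h1 : ∀ l ∈ g.toWord, l.1 = x := by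
    intro l hl
    by_contra hne
    exact (kil_fix_iff.1 (h l.1 hne)) l hl rfl
  obtain ⟨k, hk⟩ := DFree1_pow_mk x g.toWord h1
  exact ⟨k, by rw [← hk, FreeGroup.mk_toWord]⟩

theorem DFree1_free_cyc {α : Type} (hc : ∀ a b : FreeGroup α, a * b = b * a) :
    ∃ t : FreeGroup α, ∀ g : FreeGroup α, ∃ k : ℤ, g = t ^ k := by
  classical
  have hsub : ∀ a b : α, a = b := by
    intro a b
    by_contra hab
    let f : FreeGroup α →* Equiv.Perm (Fin 3) :=
      FreeGroup.lift fun x => if x = a then Equiv.swap 0 1 else Equiv.swap 1 2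
    have h1 := congrArg f (hc (FreeGroup.of a) (FreeGroup.of b))
    have hb : ¬ b = a := fun h => hab h.symm
    simp only [f, _root_.map_mul, FreeGroup.lift_apply_of, if_true, hb, if_false] at h1
    revert h1
    decide
  by_cases hne : Nonempty α
  · obtain ⟨x⟩ := hne
    refine ⟨FreeGroup.of x, fun g => ?_⟩
    obtain ⟨k, hk⟩ := DFree1_pow_mk x g.toWord (fun l _ => hsub _ _)
    exact ⟨k, by rw [← hk, FreeGroup.mk_toWord]⟩
  · refine ⟨1, fun g => ⟨0, ?_⟩⟩
    rw [zpow_zero, ← FreeGroup.mk_toWord (x := g)]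
    cases hg : g.toWord with
    | nil => rfl
    | cons l W => exact absurd ⟨l.1⟩ hne

theorem comm_cyc {u v : F} (h : Commute u v) : ∃ (t : F) (i j : ℤ), u = t ^ i ∧ v = t ^ j := by
  classical
  let H : Subgroup F := Subgroup.closure {u, v}
  have hu : u ∈ H := Subgroup.subset_closure (by simp)
  have hv : v ∈ H := Subgroup.subset_closure (by simp)
  have hcomm : ∀ a ∈ H, ∀ b ∈ H, a * b = b * a := by
    have h1 : ∀ a ∈ ({u, v} : Set F), ∀ b ∈ H, a * b = b * a := by
      intro a ha b hb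
      have : H ≤ Subgroup.centralizer {a} := by
        refine (Subgroup.closure_le _).2 ?_
        intro c hc
        rw [SetLike.mem_coe, Subgroup.mem_centralizer_iff]
        intro d hd
        rw [Set.mem_singleton_iff] at hd
        subst hd
        rcases ha with rfl | rfl <;> rcases hc with rfl | rfl
        · rfl
        · exact h.eq
        · exact h.eq.symm
        · rfl
      exact Subgroup.mem_centralizer_iff.1 (this hb) a rfl
    intro a ha b hb
    have : H ≤ Subgroup.centralizer {b} := by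
      refine (Subgroup.closure_le _).2 ?_
      intro c hc
      rw [SetLike.mem_coe, Subgroup.mem_centralizer_iff]
      intro d hd
      rw [Set.mem_singleton_iff] at hd
      subst hd
      exact (h1 c hc d hb).symm
    exact (Subgroup.mem_centralizer_iff.1 (this ha) b rfl).symm
  let e := IsFreeGroup.toFreeGroup H
  have hc : ∀ a b : FreeGroup (IsFreeGroup.Generators H), a * b = b * a := by
    intro a b
    apply e.symm.injective
    rw [_root_.map_mul, _root_.map_mul]
    exact Subtype.ext (hcomm _ (e.symm a).2 _ (e.symm b).2)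
  obtain ⟨t, ht⟩ := DFree1_free_cyc hc
  obtain ⟨i, hi⟩ := ht (e ⟨u, hu⟩)
  obtain ⟨j, hj⟩ := ht (e ⟨v, hv⟩)
  refine ⟨(e.symm t : H), i, j, ?_, ?_⟩
  · have : (⟨u, hu⟩ : H) = e.symm t ^ i := by
      rw [← _root_.map_zpow, ← hi, MulEquiv.symm_apply_apply]
    have h2 := congrArg Subtype.val this
    simpa using h2
  · have : (⟨v, hv⟩ : H) = e.symm t ^ j := by
      rw [← _root_.map_zpow, ← hj, MulEquiv.symm_apply_apply]
    have h2 := congrArg Subtype.val this
    simpa using h2

end Pool.Agent.MP_61a8e3_al.G4.D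

end

section

set_option autoImplicit false

namespace Pool.Agent.MP_61a8e3_al.G4.D

open A

theorem exists_minC (w : F) : ∃ W : List L, MinC W ∧ IsConj (FreeGroup.mk W) w := by
  classical
  have hex : ∃ m : ℕ, ∃ g : F, IsConj g w ∧ g.norm = m := ⟨_, w, IsConj.refl _, rfl⟩
  obtain ⟨g, hg, e⟩ := Nat.find_spec hex
  refine ⟨g.toWord, fun k hk => ?_, by rwa [FreeGroup.mk_toWord]⟩
  rw [FreeGroup.mk_toWord] at hk
  have := Nat.find_min' hex ⟨k, hk.symm.trans hg, rfl⟩
  rwa [← e] at this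

theorem MinC.rot {U V : List L} (h : MinC (U ++ V)) : MinC (V ++ U) := by
  intro g hg
  rw [List.length_append, add_comm, ← List.length_append]
  refine h g (IsConj.trans ?_ hg)
  rw [← FreeGroup.mul_mk, ← FreeGroup.mul_mk]
  exact isConj_iff.2 ⟨FreeGroup.mk V, by group⟩

theorem MinC.reduced {W : List L} (h : MinC W) : FreeGroup.IsReduced W := by
  refine FreeGroup.IsReduced.of_reduce_eq ?_
  have h1 : W.length ≤ (FreeGroup.reduce W).length := h _ (IsConj.refl _)
  have h2 : (FreeGroup.reduce W).Sublist W := FreeGroup.reduce.red.sublist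
  exact h2.eq_of_length (le_antisymm h2.length_le h1)

theorem MinC.reduced_snoc {l : L} {V : List L} (h : MinC (l :: V)) :
    FreeGroup.IsReduced (l :: V ++ [l]) := by
  by_cases hV : V = []
  · subst hV
    simp
  · have h1 : FreeGroup.IsReduced ([l] ++ V) := h.reduced
    have h2 : FreeGroup.IsReduced (V ++ [l]) := (MinC.rot (U := [l]) h).reduced
    exact h1.append_overlap h2 hV

theorem DFree2_mul (p : L → Bool) (x y : F) :
    (x * y).toWord.countP p ≤ x.toWord.countP p + y.toWord.countP p := by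
  rw [← List.countP_append]
  exact (FreeGroup.toWord_mul_sublist x y).countP_le

theorem DFree2_inv (f : X → Bool) (x : F) :
    x⁻¹.toWord.countP (fun l => f l.1) = x.toWord.countP (fun l => f l.1) := by
  rw [FreeGroup.toWord_inv, FreeGroup.invRev, List.countP_reverse, List.countP_map]
  rfl

theorem DFree2_pow (p : L → Bool) (x : F) (m : ℕ) :
    (x ^ m).toWord.countP p ≤ m * x.toWord.countP p := by
  induction m with
  | zero => simp
  | succ m ih =>
    rw [pow_succ, Nat.succ_mul]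
    exact (DFree2_mul p _ _).trans (by omega)

theorem DFree2_rep (p : L → Bool) (V : List L) (m : ℕ) :
    (List.replicate m V).flatten.countP p = m * V.countP p := by
  induction m with
  | zero => simp
  | succ m ih => rw [List.replicate_succ, List.flatten_cons, List.countP_append, ih]; ring

theorem stable {V : List L} (hV : FreeGroup.IsCyclicallyReduced V) {k : F}
    (h : IsConj (FreeGroup.mk V) k) (f : X → Bool) :
    V.countP (fun l => f l.1) ≤ k.toWord.countP (fun l => f l.1) := by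
  obtain ⟨c, hc⟩ := isConj_iff.1 h.symm
  have key : ∀ m : ℕ, m * V.countP (fun l => f l.1) ≤
      m * k.toWord.countP (fun l => f l.1) + 2 * c.toWord.countP (fun l => f l.1) := by
    intro m
    have e : (FreeGroup.mk V ^ m).toWord = (List.replicate m V).flatten := by
      rw [FreeGroup.pow_mk, FreeGroup.toWord_mk, (hV.flatten_replicate m).isReduced.reduce_eq]
    rw [← DFree2_rep, ← e, ← hc, conj_pow]
    have h1 := DFree2_mul (fun l => f l.1) (c * k ^ m) c⁻¹
    have h2 := DFree2_mul (fun l => f l.1) c (k ^ m)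
    have h3 := DFree2_pow (fun l => f l.1) k m
    have h4 := DFree2_inv f c
    exact h1.trans ((add_le_add (h2.trans (add_le_add le_rfl h3)) h4.le).trans (le_of_eq (by ring)))
  by_contra hlt
  have := key (2 * c.toWord.countP (fun l => f l.1) + 1)
  nlinarith

theorem finite_norm_le (n : ℕ) : {g : F | g.norm ≤ n}.Finite :=
  (List.finite_length_le L n).preimage (f := fun g : F => g.toWord)
    FreeGroup.toWord_injective.injOn

end Pool.Agent.MP_61a8e3_al.G4.D

end

section

set_option autoImplicit false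

namespace Pool.Agent.MP_61a8e3_al.G4.D

open A

abbrev T3 := Bool × F × Bool

/-- The word of a list of segments. -/
def wd (s : X) (D : List T3) : List L := D.flatMap fun p => (s, p.1) :: p.2.1.toWord

/-- Matching signs along a list of segments. -/
def Ch : Bool → List T3 → Bool → Prop
  | a, [], b => a = b
  | a, p :: D, b => p.1 = a ∧ Ch p.2.2 D b

def Loc (s : X) (p : T3) : Prop := kil s p.2.1 = p.2.1 ∧ (p.2.2 = !p.1 → p.2.1 ≠ 1)

theorem wd_cons (s : X) (p : T3) (D : List T3) :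
    wd s (p :: D) = (s, p.1) :: p.2.1.toWord ++ wd s D := rfl

theorem seg_glue {s : X} {e e' : Bool} {U R : List L} (hU : FreeGroup.IsReduced U)
    (hs : ∀ l ∈ U, l.1 ≠ s) (hne : e' = !e → U ≠ []) (hR : FreeGroup.IsReduced ((s, e') :: R)) :
    FreeGroup.IsReduced ((s, e) :: U ++ (s, e') :: R) := by
  unfold FreeGroup.IsReduced at *
  rw [List.isChain_append]
  refine ⟨?_, hR, ?_⟩
  · rw [List.isChain_cons]
    exact ⟨fun y hy h => absurd h.symm (hs y (List.mem_of_mem_head? hy)), hU⟩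
  · intro x hx y hy h
    obtain rfl : (s, e') = y := by simpa using hy
    rcases List.mem_cons.1 (List.mem_of_mem_getLast? hx) with h1 | h1
    · by_cases hU0 : U = []
      · subst h1
        by_contra h2
        exact hne (by cases e <;> cases e' <;> simp_all) hU0
      · rw [List.getLast?_cons_of_ne_nil hU0] at hx
        exact absurd h (hs x (List.mem_of_mem_getLast? hx))
    · exact absurd h (hs x h1)

theorem seg_red {s : X} (D : List T3) : ∀ {a b : Bool}, Ch a D b → (∀ p ∈ D, Loc s p) →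
    ∃ R, wd s D ++ [(s, b)] = (s, a) :: R ∧ FreeGroup.IsReduced ((s, a) :: R) := by
  induction D with
  | nil =>
    intro a b h _
    obtain rfl : a = b := h
    exact ⟨[], rfl, FreeGroup.IsReduced.singleton⟩
  | cons p D ih =>
    intro a b h hl
    obtain ⟨rfl, h⟩ := h
    obtain ⟨R, h1, h2⟩ := ih h (fun q hq => hl q (List.mem_cons_of_mem _ hq))
    obtain ⟨h3, h4⟩ := hl p List.mem_cons_self
    refine ⟨p.2.1.toWord ++ (s, p.2.2) :: R, ?_, ?_⟩
    · rw [wd_cons, List.append_assoc, h1]; rfl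
    · exact seg_glue FreeGroup.isReduced_toWord (kil_fix_iff.1 h3)
        (fun h h' => h4 h (FreeGroup.toWord_eq_nil_iff.1 h')) h2

theorem seg_cyc {s : X} {D : List T3} {a : Bool} (h : Ch a D a) (hl : ∀ p ∈ D, Loc s p) :
    FreeGroup.IsCyclicallyReduced (wd s D) := by
  obtain ⟨R, h1, h2⟩ := seg_red D h hl
  rw [← h1] at h2
  unfold FreeGroup.IsReduced at h2
  rw [List.isChain_append] at h2
  refine ⟨h2.1, fun x hx y hy => h2.2.2 x hx y ?_⟩
  cases hw : wd s D with
  | nil => rw [hw] at hy; simp at hy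
  | cons c V =>
    rw [hw] at hy h1
    obtain rfl : c = y := by simpa using hy
    simpa using (List.cons.inj h1).1.symm

theorem seg_dec {s : X} (b : Bool) (V : List L) : ∀ (U : List L) (a : Bool),
    (∀ l ∈ U, l.1 ≠ s) → FreeGroup.IsReduced ((s, a) :: U ++ (V ++ [(s, b)])) →
    ∃ D : List T3, D ≠ [] ∧ Ch a D b ∧ (∀ p ∈ D, Loc s p) ∧ wd s D = (s, a) :: U ++ V := by
  have key : ∀ (U R : List L) (a e : Bool), (∀ l ∈ U, l.1 ≠ s) →
      FreeGroup.IsReduced ((s, a) :: U ++ (s, e) :: R) →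
      (FreeGroup.mk U).toWord = U ∧ Loc s (a, FreeGroup.mk U, e) := by
    intro U R a e hU h
    have h1 : FreeGroup.IsReduced U := (List.IsChain.left_of_append h).tail
    have h2 : (FreeGroup.mk U).toWord = U := by rw [FreeGroup.toWord_mk, h1.reduce_eq]
    refine ⟨h2, kil_mk hU, fun he h3 => ?_⟩
    simp only [] at he h3
    rw [h3, FreeGroup.toWord_one] at h2
    subst h2 he
    have := (FreeGroup.isReduced_cons_cons.1 h).1 rfl
    cases a <;> simp at this
  induction V with
  | nil =>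
    intro U a hU h
    obtain ⟨h1, h2⟩ := key U [] a b hU h
    refine ⟨[(a, FreeGroup.mk U, b)], by simp, ⟨rfl, rfl⟩, by simpa using h2, ?_⟩
    rw [wd_cons]; simp only [h1]; rfl
  | cons l V ih =>
    intro U a hU h
    by_cases hl : l.1 = s
    · obtain ⟨x, e⟩ := l
      obtain rfl : x = s := hl
      obtain ⟨h1, h2⟩ := key U _ a e hU h
      obtain ⟨D, -, h3, h4, h5⟩ := ih [] e (by simp) (List.IsChain.right_of_append h)
      refine ⟨(a, FreeGroup.mk U, e) :: D, by simp, ⟨rfl, h3⟩, ?_, ?_⟩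
      · intro p hp
        rcases List.mem_cons.1 hp with rfl | hp
        · exact h2
        · exact h4 p hp
      · rw [wd_cons, h5]; simp only [h1]; rfl
    · obtain ⟨D, h1, h2, h3, h4⟩ := ih (U ++ [l]) a (by
        intro m hm
        rcases List.mem_append.1 hm with hm | hm
        · exact hU m hm
        · rw [List.mem_singleton.1 hm]; exact hl) (by simpa using h)
      exact ⟨D, h1, h2, h3, by simpa using h4⟩

/-- Action of the twist on a segment. -/
def act (a b : F) (p : T3) : T3 := (p.1, cond p.1 a b * p.2.1 * (cond (!p.2.2) a b)⁻¹, p.2.2)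

theorem tw_el (s : X) (a b : F) (e : Bool) :
    tw s a b (el (s, e)) = (cond (!e) a b)⁻¹ * el (s, e) * cond e a b := by
  cases e
  · have : el (s, false) = (FreeGroup.of s)⁻¹ := el_bar (s, true)
    rw [this, map_inv, tw_self]; simp only [cond_false, Bool.not_false, cond_true]; group
  · exact tw_self s a b

theorem mk_wd_cons (s : X) (p : T3) (D : List T3) :
    FreeGroup.mk (wd s (p :: D)) = el (s, p.1) * p.2.1 * FreeGroup.mk (wd s D) := by
  rw [wd_cons, ← FreeGroup.mul_mk]
  congr 1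
  conv_rhs => rw [← FreeGroup.mk_toWord (x := p.2.1)]
  rfl

theorem act_mk {s : X} (a b : F) (D : List T3) : ∀ {e e' : Bool}, Ch e D e' →
    (∀ p ∈ D, Loc s p) → tw s a b (FreeGroup.mk (wd s D)) =
      (cond (!e) a b)⁻¹ * FreeGroup.mk (wd s (D.map (act a b))) * cond (!e') a b := by
  induction D with
  | nil =>
    intro e e' h _
    obtain rfl : e = e' := h
    have : FreeGroup.mk (wd s []) = 1 := rfl
    simp [this]
  | cons p D ih =>
    intro e e' h hl
    obtain ⟨rfl, h⟩ := h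
    rw [List.map_cons, mk_wd_cons, mk_wd_cons, map_mul, map_mul, tw_el,
      tw_fix a b (hl p List.mem_cons_self).1, ih h (fun q hq => hl q (List.mem_cons_of_mem _ hq))]
    simp only [act]
    group

theorem act_ch (a b : F) (D : List T3) : ∀ {e e' : Bool}, Ch e D e' → Ch e (D.map (act a b)) e' := by
  induction D with
  | nil => intro e e' h; exact h
  | cons p D ih => intro e e' h; exact ⟨h.1, ih h.2⟩

theorem act_loc {s : X} {a b : F} (ha : kil s a = a) (hb : kil s b = b) {p : T3} (h : Loc s p) :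
    Loc s (act a b p) := by
  have hc : ∀ e : Bool, kil s (cond e a b) = cond e a b := fun e => by cases e <;> assumption
  refine ⟨by simp only [act, map_mul, map_inv, hc, h.1], fun he h1 => h.2 he ?_⟩
  simp only [act] at he h1
  rw [he, Bool.not_not] at h1
  simpa using h1

theorem norm_le_wd (s : X) {D : List T3} {p : T3} (h : p ∈ D) : p.2.1.norm ≤ (wd s D).length := by
  obtain ⟨D1, D2, rfl⟩ := List.append_of_mem h
  simp only [wd, List.flatMap_append, List.flatMap_cons, List.length_append, List.length_cons,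
    FreeGroup.norm]
  omega

theorem seg_pigeon {x y u : F} {K : ℕ} (h : ∀ n : ℕ, (x ^ n * u * (y ^ n)⁻¹).norm ≤ K) :
    u⁻¹ * x * u = y := by
  obtain ⟨n, m, hnm, he⟩ := Set.Finite.exists_lt_map_eq_of_forall_mem
    (f := fun n : ℕ => x ^ n * u * (y ^ n)⁻¹) h (finite_norm_le K)
  obtain ⟨d, rfl⟩ := Nat.exists_eq_add_of_lt hnm
  have h1 : (u⁻¹ * x * u) ^ (d + 1) = y ^ (d + 1) := by
    have h2 : (u⁻¹ * x * u) ^ (d + 1) = u⁻¹ * x ^ (d + 1) * u := by
      simpa using conj_pow (a := u⁻¹) (b := x) (i := d + 1)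
    have h3 : x ^ (d + 1) * u = u * y ^ (d + 1) := by
      calc x ^ (d + 1) * u = (x ^ n)⁻¹ * (x ^ (n + d + 1) * u * (y ^ (n + d + 1))⁻¹) *
            y ^ (n + d + 1) := by group
        _ = u * y ^ (d + 1) := by rw [← he]; group
    rw [h2, mul_assoc, h3]; group
  exact pow_left_injective (Nat.succ_ne_zero d) h1

theorem ex_comm {z : X} {u c : F} (h : Commute u c) (hc : c ≠ 1) (hz : ex z c = 1) :
    ex z u = 1 := by
  obtain ⟨t, i, j, rfl, rfl⟩ := comm_cyc h
  have hj : j ≠ 0 := fun h => hc (by rw [h, zpow_zero])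
  rw [map_zpow] at hz ⊢
  have h1 : j * (ex z t).toAdd = 0 := by simpa using congrArg Multiplicative.toAdd hz
  have h2 : ex z t = 1 := by
    rcases mul_eq_zero.1 h1 with h | h
    · exact absurd h hj
    · exact Multiplicative.toAdd.injective h
  rw [h2, one_zpow]

theorem seg {s : X} {a b : F} (ha : kil s a = a) (hb : kil s b = b) (hab : ¬ IsConj a b)
    (ha1 : a ≠ 1) (hb1 : b ≠ 1) {W : List L} (hW : MinC W) (hs : ∃ l ∈ W, l.1 = s)
    (h : IsConj (tw s a b (FreeGroup.mk W)) (FreeGroup.mk W)) :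
    (∃ u : F, u ≠ 1 ∧ Commute u b ∧ ∀ l ∈ u.toWord, l ∈ W) ∧
      ∀ z, z ≠ s → ex z a = 1 → ex z b = 1 → ex z (FreeGroup.mk W) = 1 := by
  obtain ⟨⟨x, e0⟩, hl, hx⟩ := hs
  obtain rfl : x = s := hx
  obtain ⟨U, V, rfl⟩ := List.append_of_mem hl
  have hW' : MinC ((x, e0) :: (V ++ U)) := MinC.rot hW
  obtain ⟨D, hD0, hD, hL, hwd⟩ := seg_dec e0 (V ++ U) [] e0 (by simp) hW'.reduced_snoc
  have hc : IsConj (FreeGroup.mk (wd x D)) (FreeGroup.mk (U ++ (x, e0) :: V)) := by
    rw [hwd]
    exact S.isConj_mk_of_isRotated (List.isRotated_append (l := (x, e0) :: V) (l' := U))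
  have h1 : IsConj (tw x a b (FreeGroup.mk (wd x D))) (FreeGroup.mk (wd x D)) :=
    (((tw x a b).map_isConj hc).trans h).trans hc.symm
  have hn : ∀ n : ℕ, IsConj (tw x (a ^ n) (b ^ n) (FreeGroup.mk (wd x D)))
      (FreeGroup.mk (wd x D)) := by
    intro n
    induction n with
    | zero => rw [pow_zero, pow_zero, tw_one]
    | succ n ih =>
      rw [pow_succ, pow_succ, ← tw_tw _ _ ha hb]
      exact ((tw x (a ^ n) (b ^ n)).map_isConj h1).trans ih
  have hall : ∀ p ∈ D, p.2.1⁻¹ * cond p.1 a b * p.2.1 = cond (!p.2.2) a b := by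
    intro p hp
    refine seg_pigeon (K := (FreeGroup.mk (wd x D)).toWord.length) fun n => ?_
    have hcp : ∀ e : Bool, cond e (a ^ n) (b ^ n) = cond e a b ^ n := fun e => by cases e <;> rfl
    have h2 : IsConj (FreeGroup.mk (wd x (D.map (act (a ^ n) (b ^ n)))))
        (FreeGroup.mk (wd x D)) := by
      refine IsConj.trans ?_ (hn n)
      rw [act_mk _ _ D hD hL]
      exact isConj_iff.2 ⟨(cond (!e0) (a ^ n) (b ^ n))⁻¹, by rw [inv_inv]⟩
    have h3 := stable (seg_cyc (act_ch (a ^ n) (b ^ n) D hD) (fun q hq => by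
      obtain ⟨q', hq', rfl⟩ := List.mem_map.1 hq
      exact act_loc (by rw [map_pow, ha]) (by rw [map_pow, hb]) (hL q' hq'))) h2 (fun _ => true)
    simp only [List.countP_true] at h3
    have h4 := norm_le_wd x (List.mem_map_of_mem (f := act (a ^ n) (b ^ n)) hp)
    simp only [act, hcp] at h4
    exact h4.trans h3
  have hgood : ∀ p ∈ D, p.2.2 = !p.1 ∧ p.2.1 ≠ 1 ∧ Commute p.2.1 (cond p.1 a b) := by
    rintro ⟨e, u, e'⟩ hp
    have h2 := hall _ hp
    simp only [] at h2 ⊢
    have h3 : e' = !e := by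
      by_contra h3
      apply hab
      have h4 : IsConj (cond e a b) (cond (!e') a b) := isConj_iff.2 ⟨u⁻¹, by rw [inv_inv, h2]⟩
      cases e <;> cases e' <;> simp at h3
      · exact h4.symm
      · exact h4
    refine ⟨h3, (hL _ hp).2 h3, ?_⟩
    rw [h3, Bool.not_not] at h2
    show u * cond e a b = cond e a b * u
    conv_lhs => rw [← h2]
    group
  constructor
  · have : ∃ p ∈ D, p.1 = false := by
      cases D with
      | nil => exact absurd rfl hD0
      | cons p D =>
        cases hp : p.1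
        · exact ⟨p, List.mem_cons_self, hp⟩
        · have h2 := (hgood p List.mem_cons_self).1
          obtain ⟨h3, h4⟩ := hD
          rw [h2, ← h3, hp] at h4
          cases D with
          | nil => exact absurd h4 (by simp [Ch])
          | cons q D => exact ⟨q, by simp, h4.1⟩
    obtain ⟨p, hp, hp1⟩ := this
    obtain ⟨-, h2, h3⟩ := hgood p hp
    rw [hp1] at h3
    refine ⟨p.2.1, h2, h3, fun l hl => ?_⟩
    have : l ∈ wd x D := List.mem_flatMap.2 ⟨p, hp, List.mem_cons_of_mem _ hl⟩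
    rw [hwd] at this
    simp only [List.cons_append, List.nil_append, List.mem_cons, List.mem_append] at this ⊢
    tauto
  · intro z hz hza hzb
    rw [← isConj_iff_eq.1 ((ex z).map_isConj hc)]
    have hs : ∀ e : Bool, ex z (el (x, e)) = 1 := by
      have h2 : ex z (FreeGroup.of x) = 1 := by simp [ex, hz.symm]
      intro e
      cases e
      · have : el (x, false) = (FreeGroup.of x)⁻¹ := el_bar (x, true)
        rw [this, map_inv, h2, inv_one]
      · exact h2
    clear hwd hc h1 hn hall hD hD0 hL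
    induction D with
    | nil => exact map_one _
    | cons p D ih =>
      rw [mk_wd_cons, map_mul, map_mul, hs, ih (fun q hq => hgood q (List.mem_cons_of_mem _ hq)),
        ex_comm (hgood p List.mem_cons_self).2.2 (by cases p.1 <;> assumption)
          (by cases p.1 <;> assumption)]
      rfl

end Pool.Agent.MP_61a8e3_al.G4.D

end

section

set_option autoImplicit false

namespace Pool.Agent.MP_61a8e3_al.G4.D

open A

/-- The handle of a generator. -/
def DOnly_hd : X → Fin 4 := Sum.elim id id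

theorem DOnly_d1 : ∀ s : X, kil s.swap (pa s) = 1 ∧ kil s.swap (pb s) ≠ 1 := by decide

theorem DOnly_d2 : ∀ s : X, pa s ≠ 1 ∧ pb s ≠ 1 := by decide

theorem DOnly_d3 : ∀ s x : X, DOnly_hd x ≠ DOnly_hd s → ex x (pa s) = 1 ∧ ex x (pb s) = 1 := by
  decide

theorem DOnly_d4 : ∀ s t : X, DOnly_hd t ≠ DOnly_hd s → kil t (pb s) ≠ pb s := by decide

theorem DOnly_d5 : ∀ s y : X, ∃ t : X, DOnly_hd t ≠ DOnly_hd s ∧ t ≠ y := by decide

theorem DOnly_nc (s : X) : ¬ IsConj (pa s) (pb s) := fun h => by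
  have h1 := (kil s.swap).map_isConj h
  rw [(DOnly_d1 s).1, isConj_one_right] at h1
  exact (DOnly_d1 s).2 h1

theorem onlyL {α : MulAut F} (hex : ∀ z w, ex z (α w) = ex z w)
    (hc : ∀ x : X, ∃ u : F, ∀ w, push x (α w) = u * α (push x w) * u⁻¹) {x y : X} {w : F}
    (hw : ∀ z, z ≠ x → z ≠ y → kil z w = w) (hx : ex x w ≠ 1) :
    ∃ k : F, IsConj (α w) k ∧ ∀ z, z ≠ x → z ≠ y → kil z k = k := by
  obtain ⟨W, hW, hWc⟩ := exists_minC (α w)
  have hxW : ex x (FreeGroup.mk W) ≠ 1 := by
    rw [isConj_iff_eq.1 ((ex x).map_isConj hWc), hex]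
    exact hx
  have C : ∀ s, s ≠ x → s ≠ y → (∃ l ∈ W, l.1 = s) →
      DOnly_hd x = DOnly_hd s ∧ ∀ t, DOnly_hd t ≠ DOnly_hd s → ∃ l ∈ W, l.1 = t := by
    intro s hsx hsy hs
    obtain ⟨u, hu⟩ := hc s
    have h1 : tw s (pa s) (pb s) (α w) = u * α w * u⁻¹ := by
      have := hu w
      rwa [push_apply, push_apply, tw_fix _ _ (hw s hsx hsy)] at this
    have h2 : IsConj (tw s (pa s) (pb s) (FreeGroup.mk W)) (FreeGroup.mk W) := by
      refine ((tw s (pa s) (pb s)).map_isConj hWc).trans (IsConj.trans ?_ hWc.symm)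
      exact (isConj_iff.2 ⟨u, h1.symm⟩).symm
    obtain ⟨⟨v, hv1, hvb, hvW⟩, h3⟩ := seg (kil_pa s) (kil_pb s) (DOnly_nc s) (DOnly_d2 s).1
      (DOnly_d2 s).2 hW hs h2
    refine ⟨?_, fun t ht => ?_⟩
    · by_contra hne
      exact hxW (h3 x hsx.symm (DOnly_d3 s x hne).1 (DOnly_d3 s x hne).2)
    · by_contra hno
      have hk : kil t v = v := kil_fix_iff.2 fun l hl h => hno ⟨l, hvW l hl, h⟩
      obtain ⟨r, i, j, hi, hj⟩ := comm_cyc hvb
      have hi0 : i ≠ 0 := fun h => hv1 (by rw [hi, h, zpow_zero])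
      rw [hi, _root_.map_zpow] at hk
      have hr : kil t r = r := zpow_left_injective hi0 hk
      exact DOnly_d4 s t ht (by rw [hj, _root_.map_zpow, hr])
  refine ⟨FreeGroup.mk W, hWc.symm, fun z hzx hzy => kil_mk fun l hl h => ?_⟩
  obtain ⟨h1, h2⟩ := C z hzx hzy ⟨l, hl, h⟩
  obtain ⟨t, ht, hty⟩ := DOnly_d5 z y
  have htx : t ≠ x := fun e => ht (e ▸ h1)
  exact ht ((C t htx hty (h2 t ht)).1.symm.trans h1)

end Pool.Agent.MP_61a8e3_al.G4.D

end

section

set_option autoImplicit false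

namespace Pool.Agent.MP_61a8e3_al.G4.D

open A

theorem DPair_comm (l : L) : Commute (FreeGroup.of l.1 : F) (el l) := by
  rcases l with ⟨i, b⟩
  cases b
  · have h1 : el (i, false) = (FreeGroup.of i)⁻¹ := el_bar (i, true)
    rw [h1]
    exact (Commute.refl _).inv_right
  · exact Commute.refl _

theorem DPair_cyc {x y : X} {G : List L} (hG : FreeGroup.IsReduced G)
    (h1 : ∀ l ∈ G.head?, l.1 ≠ x) (h2 : ∀ l ∈ G.getLast?, l.1 ≠ y) :
    FreeGroup.IsCyclicallyReduced ((x, true) :: (G ++ (y, true) :: FreeGroup.invRev G)) := by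
  have hI : FreeGroup.IsReduced (FreeGroup.invRev G) :=
    FreeGroup.IsReduced.of_reduce_eq (by rw [FreeGroup.reduce_invRev, hG.reduce_eq])
  have h3 : ∀ l ∈ (FreeGroup.invRev G).head?, l.1 ≠ y := by
    intro l hl
    rw [FreeGroup.invRev, List.head?_reverse, List.getLast?_map, Option.mem_def,
      Option.map_eq_some_iff] at hl
    obtain ⟨m, hm, rfl⟩ := hl
    exact h2 m hm
  have h4 : ∀ l ∈ (FreeGroup.invRev G).getLast?, l.1 ≠ x := by
    intro l hl
    rw [FreeGroup.invRev, List.getLast?_reverse, List.head?_map, Option.mem_def,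
      Option.map_eq_some_iff] at hl
    obtain ⟨m, hm, rfl⟩ := hl
    exact h1 m hm
  refine ⟨?_, ?_⟩
  · unfold FreeGroup.IsReduced at *
    rw [List.isChain_cons, List.isChain_append, List.isChain_cons]
    refine ⟨?_, hG, ⟨fun l hl h => absurd h.symm (h3 l hl), hI⟩, ?_⟩
    · intro l hl h
      cases G with
      | nil =>
        obtain rfl : (y, true) = l := by simpa using hl
        rfl
      | cons m t =>
        obtain rfl : m = l := by simpa using hl
        exact absurd h.symm (h1 m rfl)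
    · intro a ha b hb h
      obtain rfl : (y, true) = b := by simpa using hb
      exact absurd h (h2 a ha)
  · intro a ha b hb h
    obtain rfl : (x, true) = b := by simpa using hb
    rw [← List.cons_append, List.getLast?_append_of_ne_nil _ (List.cons_ne_nil _ _)] at ha
    cases hw : FreeGroup.invRev G with
    | nil =>
      rw [hw] at ha
      obtain rfl : (y, true) = a := by simpa using ha
      rfl
    | cons m t =>
      rw [hw, List.getLast?_cons_cons, ← hw] at ha
      exact absurd h (h4 a ha)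

theorem DPair_aux {x y z : X} (hzx : z ≠ x) (hzy : z ≠ y) {k : F}
    (hk : kil z k = k) (n : ℕ) : ∀ G : List L, G.length = n → FreeGroup.IsReduced G →
      IsConj (FreeGroup.of x * (FreeGroup.mk G * FreeGroup.of y * (FreeGroup.mk G)⁻¹)) k →
      ∀ l ∈ G, l.1 ≠ z := by
  induction n with
  | zero =>
    intro G hG _ _ l hl
    rw [List.length_eq_zero_iff.1 hG] at hl
    exact absurd hl List.not_mem_nil
  | succ n ih =>
    intro G hG hr h
    by_cases h1 : ∀ l ∈ G.head?, l.1 ≠ x
    · by_cases h2 : ∀ l ∈ G.getLast?, l.1 ≠ y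
      · have e : FreeGroup.mk ((x, true) :: (G ++ (y, true) :: FreeGroup.invRev G)) =
            FreeGroup.of x * (FreeGroup.mk G * FreeGroup.of y * (FreeGroup.mk G)⁻¹) := by
          simp only [FreeGroup.of, FreeGroup.inv_mk, FreeGroup.mul_mk, List.append_assoc,
            List.singleton_append]
        have h3 := stable (DPair_cyc hr h1 h2) (e ▸ h) fun t => decide (t = z)
        have h4 : k.toWord.countP (fun l => decide (l.1 = z)) = 0 :=
          List.countP_eq_zero.2 fun l hl => by simpa using kil_fix_iff.1 hk l hl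
        rw [h4, Nat.le_zero, List.countP_eq_zero] at h3
        intro l hl
        simpa using h3 l (List.mem_cons_of_mem _ (List.mem_append_left _ hl))
      · push Not at h2
        obtain ⟨m, hm, hmy⟩ := h2
        obtain ⟨T, rfl⟩ := List.getLast?_eq_some_iff.1 hm
        have e : FreeGroup.mk (T ++ [m]) = FreeGroup.mk T * el m := FreeGroup.mul_mk.symm
        have hc : Commute (FreeGroup.of y : F) (el m) := hmy ▸ DPair_comm m
        have e2 : FreeGroup.mk T * el m * FreeGroup.of y * (FreeGroup.mk T * el m)⁻¹ =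
            FreeGroup.mk T * FreeGroup.of y * (FreeGroup.mk T)⁻¹ := by
          rw [mul_assoc (FreeGroup.mk T), ← hc.eq]
          group
        rw [e, e2] at h
        have h3 := ih T (by simpa using hG) (List.isChain_append.1 hr).1 h
        intro l hl
        rcases List.mem_append.1 hl with hl | hl
        · exact h3 l hl
        · rw [List.mem_singleton.1 hl, hmy]
          exact hzy.symm
    · push Not at h1
      obtain ⟨m, hm, hmx⟩ := h1
      obtain ⟨T, rfl⟩ := List.head?_eq_some_iff.1 hm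
      have e : FreeGroup.mk (m :: T) = el m * FreeGroup.mk T :=
        (FreeGroup.mul_mk (L₁ := [m])).symm
      have hc : Commute (FreeGroup.of x : F) (el m) := hmx ▸ DPair_comm m
      have e2 : FreeGroup.of x * (el m * FreeGroup.mk T * FreeGroup.of y *
          (el m * FreeGroup.mk T)⁻¹) = el m * (FreeGroup.of x *
            (FreeGroup.mk T * FreeGroup.of y * (FreeGroup.mk T)⁻¹)) * (el m)⁻¹ := by
        rw [← mul_assoc (el m) (FreeGroup.of x), ← hc.eq]
        group
      rw [e, e2] at h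
      have h3 := ih T (by simpa using hG) (List.IsChain.tail hr)
        ((isConj_iff.2 ⟨el m, rfl⟩).trans h)
      intro l hl
      rcases List.mem_cons.1 hl with rfl | hl
      · rw [hmx]
        exact hzx.symm
      · exact h3 l hl

set_option linter.unusedVariables false in
theorem pair {x y z : X} (hxy : x ≠ y) (hzx : z ≠ x) (hzy : z ≠ y) {g k : F}
    (h : IsConj (FreeGroup.of x * (g * FreeGroup.of y * g⁻¹)) k) (hk : kil z k = k) :
    kil z g = g :=
  kil_fix_iff.2 (DPair_aux hzx hzy hk _ g.toWord rfl FreeGroup.isReduced_toWord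
    (by rwa [FreeGroup.mk_toWord]))

end Pool.Agent.MP_61a8e3_al.G4.D

end

section

set_option autoImplicit false

namespace Pool.Agent.MP_61a8e3_al.G4.D

open A

theorem DCent_third : ∀ x z : X, ∃ y : X, y ≠ x ∧ y ≠ z := by decide

theorem DCent_ex_self (x : X) : ex x (FreeGroup.of x) = Multiplicative.ofAdd 1 := by simp [ex]

theorem DCent_ex_ne {x y : X} (h : y ≠ x) : ex x (FreeGroup.of y) = 1 := by simp [ex, h]

theorem DCent_ex_conj (x : X) {u v : F} (h : IsConj u v) : ex x u = ex x v :=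
  isConj_iff_eq.1 ((ex x).map_isConj h)

theorem DCent_kil_ne {x y : X} (h : y ≠ x) : kil x (FreeGroup.of y) = FreeGroup.of y := by
  simp [kil, h]

theorem inner_of_pairs {α : MulAut F} (g : X → F)
    (hg : ∀ x, α (FreeGroup.of x) = g x * FreeGroup.of x * (g x)⁻¹)
    (hp : ∀ x y z : X, x ≠ y → z ≠ x → z ≠ y → kil z ((g x)⁻¹ * g y) = (g x)⁻¹ * g y) :
    ∃ c : F, α = MulAut.conj c := by
  have s0 : ∀ x y : X, x ≠ y → (∃ i : ℤ, kil y ((g x)⁻¹ * g y) = FreeGroup.of x ^ i) ∧
      ∃ i : ℤ, kil x ((g x)⁻¹ * g y) = FreeGroup.of y ^ i := fun x y hxy => by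
    refine ⟨pow_of_fix fun t ht => ?_, pow_of_fix fun t ht => ?_⟩
    · by_cases h : t = y
      · rw [h, kil_idem]
      · rw [kil_kil, hp x y t hxy ht h]
    · by_cases h : t = x
      · rw [h, kil_idem]
      · rw [kil_kil, hp x y t hxy h ht]
  have s1 : ∀ x z : X, ∃ i j : ℤ, x ≠ z →
      g z = g x * FreeGroup.of x ^ i * FreeGroup.of z ^ j := fun x z => by
    by_cases hxz : x = z
    · exact ⟨0, 0, fun h => (h hxz).elim⟩
    obtain ⟨y, h1, h2⟩ := DCent_third x z
    obtain ⟨i, hi⟩ := (s0 x y h1.symm).1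
    obtain ⟨j, hj⟩ := (s0 y z h2).2
    refine ⟨i, j, fun _ => ?_⟩
    rw [mul_assoc, ← hi, ← hj, ← map_mul, mul_assoc, mul_inv_cancel_left, hp x z y hxz h1 h2,
      mul_inv_cancel_left]
  obtain ⟨x, z, hxz⟩ : ∃ x z : X, x ≠ z := ⟨.inl 0, .inr 0, by decide⟩
  choose i j hij using s1 x
  have s2 : ∀ y, x ≠ y → i y = i z := fun y hy => by
    by_cases h : y = z
    · rw [h]
    have h1 := ex_kil (hp y z x h hy hxz)
    rw [hij y hy, hij z hxz] at h1
    simp only [map_mul, map_inv, map_zpow, DCent_ex_self, DCent_ex_ne hy.symm,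
      DCent_ex_ne hxz.symm, one_zpow, mul_one] at h1
    have h2 := congrArg Multiplicative.toAdd (mul_left_cancel (inv_mul_eq_one.1 h1))
    simpa using h2
  refine ⟨g x * FreeGroup.of x ^ i z, MulEquiv.toMonoidHom_injective
    (FreeGroup.ext_hom _ _ fun y => ?_)⟩
  change α (FreeGroup.of y) = _ * FreeGroup.of y * _⁻¹
  rw [hg]
  by_cases h : x = y
  · subst h
    group
  · rw [hij y h, s2 y h]
    group

theorem cent {α : MulAut F} (hex : ∀ z w, ex z (α w) = ex z w)
    (hc : ∀ x : X, ∃ u : F, ∀ w, push x (α w) = u * α (push x w) * u⁻¹) :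
    ∃ c : F, α = MulAut.conj c := by
  have s1 : ∀ x : X, ∃ g : F, α (FreeGroup.of x) = g * FreeGroup.of x * g⁻¹ := fun x => by
    obtain ⟨k, h1, h2⟩ := onlyL hex hc (x := x) (y := x) (w := FreeGroup.of x)
      (fun z hz _ => DCent_kil_ne hz.symm) (by rw [DCent_ex_self]; decide)
    obtain ⟨n, rfl⟩ := pow_of_fix fun z hz => h2 z hz hz
    have h3 := congrArg Multiplicative.toAdd (DCent_ex_conj x h1)
    rw [hex, map_zpow, DCent_ex_self] at h3
    obtain rfl : 1 = n := by simpa using h3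
    rw [zpow_one] at h1
    obtain ⟨c, hc⟩ := isConj_iff.1 h1.symm
    exact ⟨c, hc.symm⟩
  choose g hg using s1
  refine inner_of_pairs g hg fun x y z hxy hzx hzy => ?_
  obtain ⟨k, h1, h2⟩ := onlyL hex hc (x := x) (y := y) (w := FreeGroup.of x * FreeGroup.of y)
    (fun z hz hz' => by rw [map_mul, DCent_kil_ne hz.symm, DCent_kil_ne hz'.symm])
    (by rw [map_mul, DCent_ex_self, DCent_ex_ne hxy.symm]; decide)
  refine pair hxy hzx hzy (IsConj.trans (isConj_iff.2 ⟨g x, ?_⟩) h1) (h2 z hzx hzy)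
  rw [map_mul, hg, hg]
  group

end Pool.Agent.MP_61a8e3_al.G4.D

end

section

set_option autoImplicit false

namespace Pool.Agent.MP_61a8e3_al.G4.D

open A

theorem Mh_el (ρ : F) (χ : Option L → ℤ) (l : L) :
    Mh ρ χ (el l) = ρ ^ (χ (some l) - χ none) * el l * ρ ^ (χ none - χ (some (bar l))) :=
  lift_el (fun l => ρ ^ (χ (some l) - χ none) * el l * ρ ^ (χ none - χ (some (bar l))))
    (fun l => by simp only [bar_bar, el_bar]; group) l

theorem Mh_of (ρ : F) (χ : Option L → ℤ) (i : X) :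
    Mh ρ χ (FreeGroup.of i) = ρ ^ (χ (some (i, true)) - χ none) * FreeGroup.of i *
      ρ ^ (χ none - χ (some (i, false))) := FreeGroup.lift_apply_of

theorem Mh_zero (ρ g : F) : Mh ρ 0 g = g := by
  have : Mh ρ 0 = MonoidHom.id F := FreeGroup.ext_hom _ _ fun i => by simp [Mh_of]
  rw [this]; rfl

theorem Mh_none (ρ g : F) : Mh ρ (dl none) g = ρ⁻¹ * g * ρ := by
  have : Mh ρ (dl none) = (MulAut.conj ρ⁻¹).toMonoidHom := FreeGroup.ext_hom _ _ fun i => by
    simp [Mh_of, dl]
  rw [this]; simp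

theorem Mh_comp {ρ ρ' : F} {χ : Option L → ℤ} (ψ : Option L → ℤ) (h : Mh ρ χ ρ' = ρ) (g : F) :
    Mh ρ χ (Mh ρ' ψ g) = Mh ρ (χ + ψ) g := by
  have : (Mh ρ χ).comp (Mh ρ' ψ) = Mh ρ (χ + ψ) := FreeGroup.ext_hom _ _ fun i => by
    simp only [MonoidHom.comp_apply, Mh_of, map_mul, map_zpow, h, Pi.add_apply]
    group
  exact DFunLike.congr_fun this g

theorem pr_Mh {ρ : F} (h : pr ρ = 1) (χ : Option L → ℤ) (g : F) : pr (Mh ρ χ g) = pr g := by
  have : pr.comp (Mh ρ χ) = pr := FreeGroup.ext_hom _ _ fun i => by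
    simp only [MonoidHom.comp_apply, Mh_of, map_mul, map_zpow, h, one_zpow, one_mul, mul_one]
  exact DFunLike.congr_fun this g

variable {P : Pi →* Out} {β : MulAut F}

theorem G2.refl (P : Pi →* Out) (β : MulAut F) (u : F) : G2 P β u u 0 :=
  ⟨Mh_zero _ _, 1, fun g => (Mh_zero _ g).symm, by simp⟩

theorem G2.comp {u m v : F} {χ ψ : Option L → ℤ} (h1 : G2 P β u m χ) (h2 : G2 P β m v ψ) :
    G2 P β u v (χ + ψ) := by
  obtain ⟨a1, τ1, b1, c1⟩ := h1
  obtain ⟨a2, τ2, b2, c2⟩ := h2
  refine ⟨by rw [← Mh_comp ψ a1, a2, a1], τ1 * τ2, fun g => ?_, ?_⟩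
  · rw [MulAut.mul_apply, b1, b2, Mh_comp ψ a1]
  · have e1 : β⁻¹ * (τ1 * τ2) * β = (β⁻¹ * τ1 * β) * (β⁻¹ * τ2 * β) := by group
    have e2 : u⁻¹ * v = (u⁻¹ * m) * (m⁻¹ * v) := by group
    rw [e1, e2, map_mul, c1, c2, map_mul β⁻¹ (u⁻¹ * m), map_mul pr, map_mul P]

theorem G2.at_none (P : Pi →* Out) (β : MulAut F) : G2 P β 1 (β r3)⁻¹ (dl none) := by
  refine ⟨by rw [Mh_none]; group, MulAut.conj (β r3)⁻¹, fun g => by rw [Mh_none]; simp, ?_⟩
  have e1 : β⁻¹ * MulAut.conj (β r3)⁻¹ * β = MulAut.conj r3⁻¹ := by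
    ext g; simp
  rw [e1, out_conj]
  simp [pr_r3]

theorem G2.blk {G vl : Option L → F} {I : List (Option L)} {u v : F} (hb : Blk G vl I u v)
    (h : ∀ q ∈ I, G2 P β (G q) (vl q) (dl q)) : G2 P β u v (fun p => (I.count p : ℤ)) := by
  induction I generalizing u with
  | nil =>
    obtain rfl := (Blk_nil _ _ _ _).1 hb
    exact G2.refl P β u
  | cons q I ih =>
    obtain ⟨rfl, h2⟩ := (Blk_cons _ _ _ _ _ _).1 hb
    have := (h q List.mem_cons_self).comp (ih h2 fun p hp => h p (List.mem_cons_of_mem _ hp))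
    convert this using 1
    funext p
    simp only [List.count_cons, Pi.add_apply, dl, beq_iff_eq, eq_comm (a := q)]
    split_ifs <;> simp [add_comm]

end Pool.Agent.MP_61a8e3_al.G4.D

end

section

set_option autoImplicit false

namespace Pool.Agent.MP_61a8e3_al.G4.A

theorem fl_one : fl 1 = none := rfl

theorem fl_eq_none {g : F} : fl g = none ↔ g = 1 := by
  simp [fl, List.head?_eq_none_iff]

theorem fl_el (l : L) : fl (el l) = some l := rfl

theorem el_inj {l m : L} (h : el l = el m) : l = m := by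
  have := congrArg fl h
  simpa [fl_el] using this

theorem AFree_red {l m : L} : (l.1 = m.1 → l.2 = m.2) ↔ m ≠ bar l := by
  rcases l with ⟨i, b⟩; rcases m with ⟨j, c⟩
  cases b <;> cases c <;> simp [bar, eq_comm]

theorem AFree_mul (g k : F) : g * k = FreeGroup.mk (g.toWord ++ k.toWord) := by
  rw [← FreeGroup.mul_mk, FreeGroup.mk_toWord, FreeGroup.mk_toWord]

theorem toWord_el_mul {l : L} {g : F} (h : fl g ≠ some (bar l)) :
    (el l * g).toWord = l :: g.toWord := by
  rw [FreeGroup.toWord_mul]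
  have h0 : (el l).toWord = [l] := rfl
  rw [h0, List.singleton_append]
  apply FreeGroup.IsReduced.reduce_eq
  have hr : FreeGroup.IsReduced g.toWord := FreeGroup.isReduced_toWord
  unfold fl at h
  cases hw : g.toWord with
  | nil => exact FreeGroup.IsReduced.singleton
  | cons m t =>
    rw [hw] at h hr
    rw [FreeGroup.isReduced_cons_cons]
    refine ⟨AFree_red.2 ?_, hr⟩
    intro hm; apply h; simp [hm]

theorem AFree_split {g : F} {l : L} (h : fl g = some l) :
    ∃ g', g = el l * g' ∧ fl g' ≠ some (bar l) ∧ g.toWord = l :: g'.toWord := by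
  have hr : FreeGroup.IsReduced g.toWord := FreeGroup.isReduced_toWord
  unfold fl at h
  cases hw : g.toWord with
  | nil => simp [hw] at h
  | cons m t =>
    rw [hw] at h hr
    simp only [List.head?_cons, Option.some.injEq] at h
    subst h
    have ht : FreeGroup.IsReduced t := List.IsChain.tail hr
    have htw : (FreeGroup.mk t).toWord = t := by
      rw [FreeGroup.toWord_mk, ht.reduce_eq]
    refine ⟨FreeGroup.mk t, ?_, ?_, by rw [htw]⟩
    · rw [el, FreeGroup.mul_mk, List.singleton_append, ← hw, FreeGroup.mk_toWord]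
    · unfold fl; rw [htw]
      cases t with
      | nil => simp
      | cons n t' =>
        rw [FreeGroup.isReduced_cons_cons] at hr
        simpa using AFree_red.1 hr.1

theorem fl_el_mul (l : L) (g : F) : fl (el l * g) = some l ↔ fl g ≠ some (bar l) := by
  constructor
  · intro h h'
    obtain ⟨g', rfl, hg', -⟩ := AFree_split h'
    rw [← mul_assoc, el_bar, mul_inv_cancel, one_mul] at h
    exact hg' (by simpa using h)
  · intro h
    unfold fl; rw [toWord_el_mul h]; rfl

theorem fl_induction {P : F → Prop} (h1 : P 1)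
    (hs : ∀ l g, fl g ≠ some (bar l) → P g → P (el l * g)) (g : F) : P g := by
  induction hn : g.toWord.length generalizing g with
  | zero =>
    rw [List.length_eq_zero_iff, FreeGroup.toWord_eq_nil_iff] at hn
    rw [hn]; exact h1
  | succ n ih =>
    cases hf : fl g with
    | none => rw [fl_eq_none.1 hf]; exact h1
    | some l =>
      obtain ⟨g', hg, hg', hw⟩ := AFree_split hf
      rw [hw] at hn
      rw [hg]
      exact hs l g' hg' (ih g' (by simpa using hn))

theorem toWord_mul_of_ne {g k : F} (h : fl k ≠ fl g⁻¹) :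
    (g * k).toWord = g.toWord ++ k.toWord := by
  rw [FreeGroup.toWord_mul]
  apply FreeGroup.IsReduced.reduce_eq
  have hg : FreeGroup.IsReduced g.toWord := FreeGroup.isReduced_toWord
  have hk : FreeGroup.IsReduced k.toWord := FreeGroup.isReduced_toWord
  unfold fl at h
  rw [FreeGroup.toWord_inv] at h
  unfold FreeGroup.IsReduced at *
  rw [List.isChain_append]
  refine ⟨hg, hk, ?_⟩
  intro x hx y hy
  rw [AFree_red]
  intro hxy
  apply h
  rw [Option.mem_def] at hx hy
  rw [hy, hxy, FreeGroup.invRev, List.head?_reverse, List.getLast?_map, hx]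
  rfl

theorem fl_mul_of_ne {g k : F} (hg : g ≠ 1) (h : fl k ≠ fl g⁻¹) : fl (g * k) = fl g := by
  unfold fl
  rw [toWord_mul_of_ne h]
  cases hw : g.toWord with
  | nil => exact absurd (FreeGroup.toWord_eq_nil_iff.1 hw) hg
  | cons m t => rfl

theorem norm_mul_of_ne {g k : F} (h : fl k ≠ fl g⁻¹) : (g * k).norm = g.norm + k.norm := by
  unfold FreeGroup.norm
  rw [toWord_mul_of_ne h, List.length_append]

/-- The elements whose first letter changes under right multiplication by `u`. -/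
def Sw (u : F) : Set F := {g | fl g ≠ fl (g * u)}

theorem Sw_el {l : L} {g : F} (h : g ∈ Sw (el l)) : g = 1 ∨ g = (el l)⁻¹ := by
  by_contra hc
  push Not at hc
  obtain ⟨h1, h2⟩ := hc
  apply h
  by_cases hf : fl (el l) = fl g⁻¹
  · have h3 : g * el l ≠ 1 := fun h => h2 (eq_inv_of_mul_eq_one_left h)
    have h4 : fl (el (bar l)) ≠ fl (g * el l)⁻¹ := by
      rw [fl_el, mul_inv_rev, ← el_bar]
      intro h5
      have := (fl_el_mul (bar l) g⁻¹).1 h5.symm
      apply this
      rw [← hf, fl_el, bar_bar]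
    have h6 := fl_mul_of_ne h3 h4
    rw [el_bar, mul_inv_cancel_right] at h6
    exact h6
  · exact (fl_mul_of_ne h1 hf).symm

theorem Sw_mk (l : List L) (g : F) (h : g ∈ Sw (FreeGroup.mk l)) :
    ∃ k, k ≤ l.length ∧ g = (FreeGroup.mk (l.take k))⁻¹ := by
  induction l generalizing g with
  | nil =>
    exfalso; apply h
    rw [← FreeGroup.one_eq_mk, mul_one]
  | cons x t ih =>
    have hx : FreeGroup.mk (x :: t) = el x * FreeGroup.mk t := by
      rw [el, FreeGroup.mul_mk]; rfl
    by_cases h1 : g ∈ Sw (el x)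
    · rcases Sw_el h1 with h2 | h2
      · exact ⟨0, Nat.zero_le _, by rw [h2, List.take_zero, ← FreeGroup.one_eq_mk, inv_one]⟩
      · exact ⟨1, by simp, by rw [h2]; rfl⟩
    · have h2 : g * el x ∈ Sw (FreeGroup.mk t) := by
        intro h3
        apply h
        have h4 : fl g = fl (g * el x) := not_not.1 h1
        rw [hx, ← mul_assoc, ← h3, h4]
      obtain ⟨k, hk, hg⟩ := ih _ h2
      refine ⟨k + 1, by simpa using hk, ?_⟩
      have h5 : FreeGroup.mk ((x :: t).take (k + 1)) = el x * FreeGroup.mk (t.take k) := by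
        rw [el, FreeGroup.mul_mk]; rfl
      rw [h5, mul_inv_rev, ← hg, mul_inv_cancel_right]

theorem Sw_finite (u : F) : (Sw u).Finite := by
  refine Set.Finite.subset ((Set.finite_Iic u.toWord.length).image
    (fun k => (FreeGroup.mk (u.toWord.take k))⁻¹)) ?_
  intro g hg
  obtain ⟨k, hk, rfl⟩ := Sw_mk u.toWord g (by rwa [FreeGroup.mk_toWord])
  exact ⟨k, hk, rfl⟩

theorem cr_subset (u : F) (A : Finset (Option L)) : cr u A ⊆ Sw u := by
  intro g hg h
  apply hg
  rw [h]

theorem cr_finite (u : F) (A : Finset (Option L)) : (cr u A).Finite :=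
  (Sw_finite u).subset (cr_subset u A)

theorem fl_relA (π : W) (g : F) : fl (relA π g) = (fl g).map π.1 := by
  induction g using fl_induction with
  | h1 => rw [map_one]; rfl
  | hs l g hg ih =>
    rw [map_mul, relA_el, (fl_el_mul l g).2 hg, Option.map_some]
    apply (fl_el_mul _ _).2
    rw [ih, ← W_bar]
    intro h
    apply hg
    cases hf : fl g with
    | none => rw [hf] at h; simp at h
    | some m =>
      rw [hf] at h
      simp only [Option.map_some, Option.some.injEq] at h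
      rw [π.1.injective h]

theorem exists_fl (x : Option L) : ∃ g : F, fl g = x := by
  cases x with
  | none => exact ⟨1, rfl⟩
  | some l => exact ⟨el l, rfl⟩

theorem r3_eq : r3 = FreeGroup.mk
    [la 0, lb 0, lA 0, lB 0, la 1, lb 1, lA 1, lB 1, la 2, lb 2, lA 2, lB 2,
      la 3, lb 3, lA 3, lB 3] := by
  decide

end Pool.Agent.MP_61a8e3_al.G4.A

end

section

set_option autoImplicit false

namespace Pool.Agent.MP_61a8e3_al.G4.A

theorem AWh_eq {a l : L} (χ : Option L → ℤ) (h : l.1 = a.1) : whZ a χ (el l) = el l := by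
  rw [whZ_el, whL, if_pos h]

theorem whZ_self (a : L) (χ : Option L → ℤ) : whZ a χ (el a) = el a := by
  exact AWh_eq χ rfl

theorem whZ_self_bar (a : L) (χ : Option L → ℤ) : whZ a χ (el (bar a)) = el (bar a) := by
  exact AWh_eq χ rfl

theorem whZ_of_ne {a l : L} (χ : Option L → ℤ) (h : l.1 ≠ a.1) :
    whZ a χ (el l) =
      el a ^ (χ (some l) - χ none) * el l * el a ^ (χ none - χ (some (bar l))) := by
  rw [whZ_el, whL, if_neg h]

theorem whZ_congr (a : L) {χ ψ : Option L → ℤ}
    (h : ∀ l : L, l.1 ≠ a.1 → χ (some l) - χ none = ψ (some l) - ψ none) :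
    whZ a χ = whZ a ψ := by
  refine aut_ext fun l => ?_
  by_cases hl : l.1 = a.1
  · rw [AWh_eq χ hl, AWh_eq ψ hl]
  · rw [whZ_of_ne χ hl, whZ_of_ne ψ hl, h l hl, ← neg_sub (χ (some (bar l))), h (bar l) hl,
      neg_sub]

theorem whZ_bar (a : L) (χ : Option L → ℤ) : whZ (bar a) χ = whZ a (-χ) := by
  refine aut_ext fun l => ?_
  by_cases hl : l.1 = a.1
  · rw [AWh_eq (a := bar a) χ hl, AWh_eq _ hl]
  · rw [whZ_of_ne (a := bar a) χ hl, whZ_of_ne _ hl, el_bar a]
    simp only [Pi.neg_apply]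
    group

theorem AWh_ind1 {A : Finset (Option L)} {x : Option L} (h : x ∈ A) : ind A x = 1 := if_pos h

theorem AWh_ind0 {A : Finset (Option L)} {x : Option L} (h : x ∉ A) : ind A x = 0 := if_neg h

theorem AWh_ind_congr {A B : Finset (Option L)} {x y : Option L} (h : x ∈ A ↔ y ∈ B) :
    ind A x = ind B y := by
  simp only [ind, h]

theorem AWh_compl (A : Finset (Option L)) (x : Option L) : ind Aᶜ x = 1 - ind A x := by
  by_cases h : x ∈ A
  · rw [AWh_ind1 h, AWh_ind0 (by simpa using h)]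
    rfl
  · rw [AWh_ind0 h, AWh_ind1 (by simpa using h)]
    rfl

theorem wh_compl (a : L) (A : Finset (Option L)) : wh (bar a) Aᶜ = wh a A := by
  rw [wh, wh, whZ_bar]
  refine whZ_congr a fun l _ => ?_
  simp only [Pi.neg_apply, AWh_compl]
  ring

theorem wh_single (a : L) : wh a {some a} = 1 := by
  rw [wh, ← whZ_zero a]
  refine whZ_congr a fun l hl => ?_
  rw [AWh_ind0 (x := none) (by simp), AWh_ind0 (x := some l) (by
    intro h
    rw [Finset.mem_singleton, Option.some.injEq] at h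
    exact hl (congrArg Prod.fst h))]
  rfl

theorem mem_aact (π : W) (A : Finset (Option L)) (x : Option L) :
    Option.map π.1 x ∈ aact π A ↔ x ∈ A := by
  exact (Option.map_injective π.1.injective).mem_finset_image

theorem AWh_fst (π : W) (l a : L) : (π.1 l).1 = (π.1 a).1 ↔ l.1 = a.1 := by
  constructor
  · intro h
    rcases eq_or_bar h with h | h
    · rw [π.1.injective h]
    · rw [← W_bar] at h
      rw [π.1.injective h, bar_fst]
  · intro h
    rcases eq_or_bar h with h | h
    · rw [h]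
    · rw [h, W_bar, bar_fst]

theorem wh_relA (π : W) (a : L) (A : Finset (Option L)) :
    relA π * wh a A = wh (π.1 a) (aact π A) * relA π := by
  refine aut_ext fun l => ?_
  rw [MulAut.mul_apply, MulAut.mul_apply, relA_el, wh, wh]
  by_cases hl : l.1 = a.1
  · rw [AWh_eq _ hl, AWh_eq _ ((AWh_fst π l a).2 hl), relA_el]
  · rw [whZ_of_ne _ hl, whZ_of_ne _ (mt (AWh_fst π l a).1 hl), ← W_bar,
      AWh_ind_congr (x := some (π.1 l)) (mem_aact π A (some l)),
      AWh_ind_congr (x := some (π.1 (bar l))) (mem_aact π A (some (bar l))),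
      AWh_ind_congr (A := aact π A) (x := none) (mem_aact π A none)]
    simp only [map_mul, map_zpow, relA_el]

/-- Adding the symbol `none` to the cut composes with a conjugation. -/
theorem wh_insert_none (a : L) {A : Finset (Option L)} (h : none ∉ A) :
    wh a (insert none A) = MulAut.conj (el a)⁻¹ * wh a A := by
  refine aut_ext fun l => ?_
  rw [MulAut.mul_apply, MulAut.conj_apply, wh, wh]
  by_cases hl : l.1 = a.1
  · rw [AWh_eq _ hl, AWh_eq _ hl]
    rcases eq_or_bar hl with e | e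
    · rw [e]
      group
    · rw [e, el_bar]
      group
  · have e : ∀ x : L, ind (insert none A) (some x) = ind A (some x) := fun x =>
      AWh_ind_congr (by simp)
    rw [whZ_of_ne _ hl, whZ_of_ne _ hl, e, e, AWh_ind0 h,
      AWh_ind1 (Finset.mem_insert_self none A)]
    group

/-- The statement of the first-letter formula for the pair `x = fl g`, `y` = new first letter. -/
def AWh_P (a : L) (A : Finset (Option L)) (x y : Option L) : Prop :=
  (x ∈ A → y = some a) ∧ (x ∉ A → x ≠ some (bar a) → y = x) ∧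
    (x = some (bar a) → y = some (bar a) ∨ (y ∈ A ∧ y ≠ some a))

theorem AWh_P_ne {a l : L} {A : Finset (Option L)} {x y : Option L} (h : AWh_P a A x y)
    (hl : l.1 ≠ a.1) (hA : some l ∉ A) (hx : x ≠ some l) : y ≠ some l := by
  have h1 : some a ≠ some l := fun e => hl (congrArg Prod.fst (Option.some.inj e)).symm
  have h2 : some (bar a) ≠ some l := fun e => hl (congrArg Prod.fst (Option.some.inj e)).symm
  by_cases hxA : x ∈ A
  · rw [h.1 hxA]
    exact h1
  · by_cases hxa : x = some (bar a)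
    · rcases h.2.2 hxa with e | e
      · rw [e]
        exact h2
      · exact fun e' => hA (e' ▸ e.1)
    · rw [h.2.1 hxA hxa]
      exact hx

theorem AWh_P_step {a : L} {A : Finset (Option L)} (ha : some a ∈ A) (hb : some (bar a) ∉ A)
    {x : Option L} {u : F} (hx : x ≠ some (bar a)) (h : AWh_P a A x (fl u)) :
    AWh_P a A (some a) (fl (el a * u)) ∧ AWh_P (bar a) Aᶜ (some a) (fl u) := by
  have hne : some a ≠ some (bar a) := fun e => bar_ne a (Option.some.inj e).symm
  have h1 : fl u = some a ∨ (fl u ∉ A ∧ fl u ≠ some (bar a)) := by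
    by_cases hxA : x ∈ A
    · exact Or.inl (h.1 hxA)
    · rw [h.2.1 hxA hx]
      exact Or.inr ⟨hxA, hx⟩
  refine ⟨⟨fun _ => (fl_el_mul a u).2 ?_, fun h => absurd ha h, fun h => absurd h hne⟩,
    fun h => absurd ha (by simpa using h), fun _ h => absurd (by rw [bar_bar]) h, fun _ => ?_⟩
  · rcases h1 with e | e
    · rw [e]
      exact hne
    · exact e.2
  · simpa using h1

theorem AWh_P_other {a l : L} {A : Finset (Option L)} (hl : l.1 ≠ a.1) (hA : some l ∈ A)
    {u : F} (h : fl u = some l) :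
    AWh_P a A (some l) (fl (el a * u)) ∧ AWh_P (bar a) Aᶜ (some l) (fl u) := by
  have h1 : some l ≠ some a := fun e => hl (congrArg Prod.fst (Option.some.inj e))
  have h2 : some l ≠ some (bar a) := fun e => hl (by rw [Option.some.inj e, bar_fst])
  refine ⟨⟨fun _ => (fl_el_mul a u).2 (h ▸ h2), fun h => absurd hA h, fun h => absurd h h2⟩,
    fun h => absurd hA (by simpa using h), fun _ _ => h, fun h => absurd h (by
      rw [bar_bar]
      exact h1)⟩

theorem AWh_fl {a : L} {A : Finset (Option L)} (ha : some a ∈ A) (hb : some (bar a) ∉ A) (g : F) :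
    AWh_P a A (fl g) (fl (el a ^ ind A none * wh a A g)) ∧
      AWh_P (bar a) Aᶜ (fl g) (fl ((el a)⁻¹ * (el a ^ ind A none * wh a A g))) := by
  induction g using fl_induction with
  | h1 =>
    rw [map_one, mul_one, fl_one]
    by_cases hD : none ∈ A
    · rw [AWh_ind1 hD, zpow_one, inv_mul_cancel, fl_one, fl_el]
      simp [AWh_P, hD]
    · rw [AWh_ind0 hD, zpow_zero, mul_one, ← el_bar, fl_one, fl_el]
      simp [AWh_P, hD]
  | hs l g hg ih =>
    rw [(fl_el_mul l g).2 hg, map_mul]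
    by_cases hl : l.1 = a.1
    · rw [wh, AWh_eq _ hl, ← wh]
      rcases eq_or_bar hl with e | e
      · subst e
        have e1 : el l ^ ind A none * (el l * wh l A g) = el l * (el l ^ ind A none * wh l A g) := by
          group
        rw [e1, inv_mul_cancel_left]
        exact AWh_P_step ha hb hg ih.1
      · subst e
        have e1 : el a ^ ind A none * (el (bar a) * wh a A g) =
            (el a)⁻¹ * (el a ^ ind A none * wh a A g) := by
          rw [el_bar]
          group
        have h := AWh_P_step (a := bar a) (A := Aᶜ) (by simpa using hb) (by simpa using ha) hg ih.2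
        rw [bar_bar, compl_compl, el_bar] at h
        rw [e1]
        exact h.symm
    · have h1 : fl (el l * (el a ^ (ind A none - ind A (some (bar l))) * wh a A g)) = some l := by
        rw [fl_el_mul]
        by_cases hA : some (bar l) ∈ A
        · have e1 : el a ^ (ind A none - ind A (some (bar l))) * wh a A g =
              (el a)⁻¹ * (el a ^ ind A none * wh a A g) := by
            rw [AWh_ind1 hA]
            group
          rw [e1]
          exact AWh_P_ne ih.2 hl (by simpa using hA) hg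
        · rw [AWh_ind0 hA, sub_zero]
          exact AWh_P_ne ih.1 hl hA hg
      have e1 : el a ^ ind A none * (wh a A (el l) * wh a A g) = el a ^ ind A (some l) *
          (el l * (el a ^ (ind A none - ind A (some (bar l))) * wh a A g)) := by
        rw [wh, whZ_of_ne _ hl]
        group
      rw [e1]
      by_cases hA : some l ∈ A
      · rw [AWh_ind1 hA, zpow_one, inv_mul_cancel_left]
        exact AWh_P_other hl hA h1
      · have h := AWh_P_other (a := bar a) (A := Aᶜ) hl (by simpa using hA) h1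
        rw [bar_bar, compl_compl, el_bar a] at h
        rw [AWh_ind0 hA, zpow_zero, one_mul]
        exact h.symm

/-- The first-letter formula. -/
theorem fl_wh {a : L} {A : Finset (Option L)} (ha : some a ∈ A) (hb : some (bar a) ∉ A) (g : F) :
    (fl g ∈ A → fl (el a ^ ind A none * wh a A g) = some a) ∧
    (fl g ∉ A → fl g ≠ some (bar a) → fl (el a ^ ind A none * wh a A g) = fl g) ∧
    (fl g = some (bar a) → fl (el a ^ ind A none * wh a A g) = some (bar a) ∨
      (fl (el a ^ ind A none * wh a A g) ∈ A ∧ fl (el a ^ ind A none * wh a A g) ≠ some a)) := by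
  exact (AWh_fl ha hb g).1

theorem AWh_ext {α β : MulAut F} (a b : L) (ha : α (el a) = β (el a)) (hb : α (el b) = β (el b))
    (h : ∀ l : L, l.1 ≠ a.1 → l.1 ≠ b.1 → α (el l) = β (el l)) : α = β := by
  refine aut_ext fun l => ?_
  by_cases h1 : l.1 = a.1
  · rcases eq_or_bar h1 with e | e
    · rw [e, ha]
    · rw [e, el_bar, map_inv, map_inv, ha]
  by_cases h2 : l.1 = b.1
  · rcases eq_or_bar h2 with e | e
    · rw [e, hb]
    · rw [e, el_bar, map_inv, map_inv, hb]
  exact h l h1 h2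

theorem AWh_cases {A B : Finset (Option L)} (hd : Disjoint A B) (x : Option L) :
    (ind A x = 0 ∧ ind B x = 0) ∨ (ind A x = 1 ∧ ind B x = 0) ∨ (ind A x = 0 ∧ ind B x = 1) := by
  by_cases h1 : x ∈ A
  · exact Or.inr (Or.inl ⟨AWh_ind1 h1, AWh_ind0 (Finset.disjoint_left.1 hd h1)⟩)
  · by_cases h2 : x ∈ B
    · exact Or.inr (Or.inr ⟨AWh_ind0 h1, AWh_ind1 h2⟩)
    · exact Or.inl ⟨AWh_ind0 h1, AWh_ind0 h2⟩

theorem AWh_cases' (A : Finset (Option L)) (x : Option L) : ind A x = 0 ∨ ind A x = 1 := by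
  by_cases h1 : x ∈ A
  · exact Or.inr (AWh_ind1 h1)
  · exact Or.inl (AWh_ind0 h1)

/-- Two Whitehead automorphisms with disjoint cuts commute. -/
theorem wh_comm {a b : L} {A B : Finset (Option L)} (hd : Disjoint A B) (ha : some a ∈ A)
    (ha' : some (bar a) ∉ A) (hb : some b ∈ B) (hb' : some (bar b) ∉ B)
    (h1 : some (bar a) ∉ B) (h2 : some (bar b) ∉ A) : wh a A * wh b B = wh b B * wh a A := by
  have h3 : some a ∉ B := Finset.disjoint_left.1 hd ha
  have h4 : some b ∉ A := Finset.disjoint_right.1 hd hb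
  have hab : a.1 ≠ b.1 := fun h => by
    rcases eq_or_bar h with e | e
    · exact h3 (e ▸ hb)
    · exact h2 (e ▸ ha)
  refine AWh_ext a b ?_ ?_ fun l l1 l2 => ?_
  · simp only [wh, MulAut.mul_apply, whZ_self, whZ_of_ne _ hab, whZ_of_ne _ hab.symm, map_mul,
      map_zpow, AWh_ind0 h1, AWh_ind0 h2, AWh_ind0 h3, AWh_ind0 h4]
    rcases AWh_cases hd none with e | e | e <;> rw [e.1, e.2] <;> group
  · simp only [wh, MulAut.mul_apply, whZ_self, whZ_of_ne _ hab, whZ_of_ne _ hab.symm, map_mul,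
      map_zpow, AWh_ind0 h1, AWh_ind0 h2, AWh_ind0 h3, AWh_ind0 h4]
    rcases AWh_cases hd none with e | e | e <;> rw [e.1, e.2] <;> group
  · simp only [wh, MulAut.mul_apply, whZ_of_ne _ hab, whZ_of_ne _ hab.symm, map_mul,
      map_zpow, AWh_ind0 h1, AWh_ind0 h2, AWh_ind0 h3, AWh_ind0 h4, whZ_of_ne _ l1,
      whZ_of_ne _ l2]
    rcases AWh_cases hd none with e | e | e <;> rcases AWh_cases hd (some l) with e' | e' | e' <;>
      rcases AWh_cases hd (some (bar l)) with e'' | e'' | e'' <;>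
      rw [e.1, e.2, e'.1, e'.2, e''.1, e''.2] <;> group

/-- The triangle identity. -/
theorem wh_tri {a b : L} {A : Finset (Option L)} {π : W} (hab : a ≠ b) (ha : some a ∈ A)
    (ha' : some (bar a) ∉ A) (hb : some b ∈ A) (hb' : some (bar b) ∉ A) (hπ : IsTri π a b) :
    wh b (insert (some (bar a)) (A.erase (some a))) * wh a A = relA π * wh b A := by
  have hne : a.1 ≠ b.1 := fun h => by
    rcases eq_or_bar h with e | e
    · exact hab e
    · exact hb' (e ▸ ha)
  set A' := insert (some (bar a)) (A.erase (some a)) with hA'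
  have e0 : ind A' none = ind A none := AWh_ind_congr (by simp [hA'])
  have e1 : ind A' (some a) = 0 := AWh_ind0 (by simp [hA', (bar_ne a).symm])
  have e2 : ind A' (some (bar a)) = 1 := AWh_ind1 (Finset.mem_insert_self _ _)
  have e3 : ∀ l : L, l.1 ≠ a.1 → ind A' (some l) = ind A (some l) := fun l hl => by
    have k1 : l ≠ a := fun e => hl (congrArg Prod.fst e)
    have k2 : l ≠ bar a := fun e => hl (by rw [e, bar_fst])
    exact AWh_ind_congr (by simp [hA', k1, k2])
  refine AWh_ext a b ?_ ?_ fun l l1 l2 => ?_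
  · simp only [wh, MulAut.mul_apply, whZ_self, whZ_of_ne _ hne, map_mul, map_zpow, e0, e1, e2,
      AWh_ind1 ha, AWh_ind0 ha', relA_el, hπ.1, hπ.2.1, el_bar]
    rcases AWh_cases' A none with e | e <;> rw [e] <;> group
  · simp only [wh, MulAut.mul_apply, whZ_self, whZ_of_ne _ hne, whZ_of_ne _ hne.symm, map_mul,
      map_zpow, e0, e1, e2, AWh_ind1 hb, AWh_ind0 hb', relA_el, hπ.1]
    rcases AWh_cases' A none with e | e <;> rw [e] <;> group
  · simp only [wh, MulAut.mul_apply, whZ_of_ne _ hne, whZ_of_ne _ l1, whZ_of_ne _ l2, map_mul,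
      map_zpow, e0, e1, e2, e3 l l1, e3 (bar l) l1, relA_el, hπ.1, hπ.2.2 l l1 l2]
    rcases AWh_cases' A none with e | e <;> rcases AWh_cases' A (some l) with e' | e' <;>
      rcases AWh_cases' A (some (bar l)) with e'' | e'' <;> rw [e, e', e''] <;> group

end Pool.Agent.MP_61a8e3_al.G4.A

end

section

set_option autoImplicit false

namespace Pool.Agent.MP_61a8e3_al.G4.D

open A

variable {P : Pi →* Out} {β : MulAut F}

theorem DWh_gen (σ : MulAut F) (c : F) {u v : F} {χ χ' : Option L → ℤ} (h : G2 P β u v χ)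
    (key : ∀ ρ : F, ∀ l : L, Mh (c * σ ρ * c⁻¹) χ' (σ (el l)) = σ (Mh ρ χ (el l)))
    (hc : ∀ ρ : F, Mh (c * σ ρ * c⁻¹) χ' c * σ ρ * (Mh (c * σ ρ * c⁻¹) χ' c)⁻¹ =
      c * σ ρ * c⁻¹) :
    G2 P (σ * β) (c * σ u) (c * σ v) χ' := by
  obtain ⟨h1, τ, h2, h3⟩ := h
  have e : ∀ w : F, c * σ w * (σ * β) r3 * (c * σ w)⁻¹ = c * σ (w * β r3 * w⁻¹) * c⁻¹ := by
    intro w
    rw [MulAut.mul_apply, _root_.map_mul, _root_.map_mul, _root_.map_inv]
    group
  have K : ∀ ρ g : F, Mh (c * σ ρ * c⁻¹) χ' (σ g) = σ (Mh ρ χ g) := by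
    intro ρ g
    have : (Mh (c * σ ρ * c⁻¹) χ').comp σ.toMonoidHom = σ.toMonoidHom.comp (Mh ρ χ) :=
      FreeGroup.ext_hom _ _ fun i => key ρ (i, true)
    exact DFunLike.congr_fun this g
  unfold G2
  rw [e u, e v]
  refine ⟨?_, σ * τ * σ⁻¹, fun g => ?_, ?_⟩
  · rw [_root_.map_mul (Mh _ χ'), _root_.map_mul (Mh _ χ'), _root_.map_inv (Mh _ χ'), K, h1, hc]
  · rw [MulAut.mul_apply, MulAut.mul_apply, h2, ← K, MulAut.apply_inv_self]
  · have e1 : (σ * β)⁻¹ * (σ * τ * σ⁻¹) * (σ * β) = β⁻¹ * τ * β := by group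
    have e2 : (c * σ u)⁻¹ * (c * σ v) = σ (u⁻¹ * v) := by
      rw [_root_.map_mul, _root_.map_inv]
      group
    rw [e1, e2, h3, mul_inv_rev, MulAut.mul_apply, MulAut.inv_apply_self]

theorem DWh_dl_self (q : Option L) : dl q q = 1 := if_pos rfl

theorem DWh_dl_ne {q p : Option L} (h : p ≠ q) : dl q p = 0 := if_neg h

theorem DWh_dl_none (l : L) : dl (some l) none = 0 := if_neg (by simp)

theorem DWh_dl_fst {l m : L} (h : m.1 ≠ l.1) : dl (some l) (some m) = 0 :=
  if_neg fun e => h (congrArg Prod.fst (Option.some.inj e))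

theorem DWh_fix (ρ : F) {l m : L} (h : m.1 ≠ l.1) : Mh ρ (dl (some l)) (el m) = el m := by
  rw [Mh_el, DWh_dl_none, DWh_dl_fst h, DWh_dl_fst (m := bar m) h]
  simp

theorem DWh_push (ρ : F) (l : L) : Mh ρ (dl (some l)) (el l) = ρ * el l := by
  rw [Mh_el, DWh_dl_none, DWh_dl_self,
    DWh_dl_ne (fun e => bar_ne l (Option.some.inj e))]
  simp

theorem DWh_dl_map (π : W) (q p : Option L) : dl (q.map π.1) (p.map π.1) = dl q p := by
  simp only [dl, (Option.map_injective π.1.injective).eq_iff]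

/-- It is enough to check one of the two letters of each generator. -/
theorem DWh_bar {S T : F → F} (hS : ∀ g, S g⁻¹ = (S g)⁻¹) (hT : ∀ g, T g⁻¹ = (T g)⁻¹) {l : L}
    (h : S (el l) = T (el l)) : S (el (bar l)) = T (el (bar l)) := by
  rw [el_bar, hS, hT, h]

theorem G2.wh_ne {a l : L} (χ : Option L → ℤ) (hl : l.1 ≠ a.1) {u v : F}
    (h : G2 P β u v (dl (some l))) :
    G2 P (whZ a χ * β) (el a ^ (χ none - χ (some l)) * whZ a χ u)
      (el a ^ (χ none - χ (some l)) * whZ a χ v) (dl (some l)) := by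
  have hfix : ∀ ρ : F, Mh ρ (dl (some l)) (el a) = el a := fun ρ => DWh_fix ρ hl.symm
  refine DWh_gen (whZ a χ) _ h (fun ρ m => ?_) (fun ρ => ?_)
  · have main : Mh (el a ^ (χ none - χ (some l)) * whZ a χ ρ * (el a ^ (χ none - χ (some l)))⁻¹)
        (dl (some l)) (whZ a χ (el l)) = whZ a χ (Mh ρ (dl (some l)) (el l)) := by
      rw [DWh_push, _root_.map_mul, whZ_of_ne χ hl, _root_.map_mul, _root_.map_mul, map_zpow,
        map_zpow, hfix, DWh_push]
      group
    by_cases hm : m.1 = l.1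
    · rcases eq_or_bar hm with rfl | rfl
      · exact main
      · exact DWh_bar (S := fun g => Mh _ _ (whZ a χ g)) (T := fun g => whZ a χ (Mh _ _ g))
          (fun g => by simp only [_root_.map_inv]) (fun g => by simp only [_root_.map_inv]) main
    · rw [DWh_fix ρ hm]
      by_cases hma : m.1 = a.1
      · rw [AWh_eq χ hma, DWh_fix _ hm]
      · rw [whZ_of_ne χ hma, _root_.map_mul, _root_.map_mul, map_zpow, map_zpow, hfix,
          DWh_fix _ hm]
  · rw [map_zpow, hfix]

theorem G2.wh_self {a : L} {χ : Option L → ℤ} (h1 : χ (some a) = 1) (h0 : χ (some (bar a)) = 0)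
    (h01 : ∀ q, χ q = 0 ∨ χ q = 1) {u v : F} (h : G2 P β u v χ) :
    G2 P (whZ a χ * β) (el a ^ χ none * whZ a χ u) (el a ^ χ none * whZ a χ v)
      (dl (some a)) := by
  refine DWh_gen (whZ a χ) _ h (fun ρ m => ?_) (fun ρ => ?_)
  · have main : Mh (el a ^ χ none * whZ a χ ρ * (el a ^ χ none)⁻¹) (dl (some a))
        (whZ a χ (el a)) = whZ a χ (Mh ρ χ (el a)) := by
      rw [whZ_self, DWh_push, Mh_el, _root_.map_mul, _root_.map_mul, map_zpow, map_zpow,
        whZ_self, h1, h0]
      rcases h01 none with e | e <;> rw [e] <;> group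
    by_cases hm : m.1 = a.1
    · rcases eq_or_bar hm with rfl | rfl
      · exact main
      · exact DWh_bar (S := fun g => Mh _ _ (whZ a χ g)) (T := fun g => whZ a χ (Mh _ _ g))
          (fun g => by simp only [_root_.map_inv]) (fun g => by simp only [_root_.map_inv]) main
    · rw [Mh_el ρ, _root_.map_mul (whZ a χ), _root_.map_mul (whZ a χ), map_zpow, map_zpow,
        whZ_of_ne χ hm, _root_.map_mul, _root_.map_mul, map_zpow, map_zpow, DWh_push,
        DWh_fix _ hm]
      rcases h01 none with e | e <;> rcases h01 (some m) with e1 | e1 <;>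
        rcases h01 (some (bar m)) with e2 | e2 <;> rw [e, e1, e2] <;> group
  · rw [map_zpow, DWh_push]
    rcases h01 none with e | e <;> rw [e] <;> group

theorem G2.rel (π : W) {q : Option L} {u v : F} (h : G2 P β u v (dl q)) :
    G2 P (relA π * β) (relA π u) (relA π v) (dl (q.map π.1)) := by
  have := DWh_gen (χ' := dl (q.map π.1)) (relA π) 1 h (fun ρ m => by
      have e1 := DWh_dl_map π q (some m)
      have e2 := DWh_dl_map π q (some (bar m))
      have e3 := DWh_dl_map π q none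
      rw [Option.map_some] at e1 e2
      rw [Option.map_none] at e3
      rw [one_mul, inv_one, mul_one, relA_el, Mh_el, Mh_el, _root_.map_mul, _root_.map_mul,
        map_zpow, map_zpow, relA_el, ← W_bar, e1, e2, e3])
    (fun ρ => by simp)
  rwa [one_mul, one_mul] at this

end Pool.Agent.MP_61a8e3_al.G4.D

end

section

set_option autoImplicit false

namespace Pool.Agent.MP_61a8e3_al.G4.A

/-- The letters of the relator. -/
def AGood_r : List L :=
    [la 0, lb 0, lA 0, lB 0, la 1, lb 1, lA 1, lB 1, la 2, lb 2, lA 2, lB 2,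
      la 3, lb 3, lA 3, lB 3]

/-- The standard cycle as a list. -/
def AGood_o : List (Option L) := none :: w0L.map some

/-- Inverses of the initial segments. -/
def AGood_g (k : ℕ) : F := (FreeGroup.mk (AGood_r.take k))⁻¹

/-- The standard labelling of the corners. -/
def AGood_G : Option L → F
  | none => 1
  | some (Sum.inl i, false) => AGood_g (4 * i + 1)
  | some (Sum.inr i, false) => AGood_g (4 * i + 2)
  | some (Sum.inl i, true) => AGood_g (4 * i + 3)
  | some (Sum.inr i, true) => AGood_g (4 * i + 4)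

theorem AGood_r3 : r3 = FreeGroup.mk AGood_r := r3_eq

theorem AGood_o0 : o0 = (AGood_o : Cycle (Option L)) := rfl

theorem AGood_nodup : o0.Nodup := by
  rw [AGood_o0, Cycle.nodup_coe_iff]
  decide +kernel

theorem AGood_full (x : Option L) : x ∈ o0 := by
  rw [AGood_o0, Cycle.mem_coe_iff]
  revert x
  decide +kernel

theorem good_of_fix {β : MulAut F} (h : β r3 = r3) : Good ⟨β, o0⟩ := by
  refine ⟨AGood_nodup, AGood_full, AGood_G, rfl, ?_⟩
  change ∀ p q, Nx (AGood_o : Cycle (Option L)) p q → AGood_G q = val AGood_G (β r3) p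
  rw [h, AGood_r3]
  refine (Blk_iff_Nx _ _ (by decide)).1 ⟨1, ?_⟩
  unfold Blk
  decide +kernel

theorem fix_of_good {β : MulAut F} (h : Good ⟨β, o0⟩) : β r3 = r3 := by
  obtain ⟨-, -, G, h0, h⟩ := h
  change ∀ p q, Nx (AGood_o : Cycle (Option L)) p q → G q = val G (β r3) p at h
  generalize β r3 = w at h
  obtain ⟨u, hu⟩ := (Blk_iff_Nx _ _ (by decide)).2 h
  simp only [AGood_o, w0L, List.map_cons, List.map_nil, Blk_cons, Blk_nil, val] at hu
  obtain ⟨e0, e1, e2, e3, e4, e5, e6, e7, e8, e9, e10, e11, e12, e13, e14, e15, e16, e17⟩ := hu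
  have b1 : ∀ i, bar (la i) = lA i := fun _ => rfl
  have b2 : ∀ i, bar (lA i) = la i := fun _ => rfl
  have b3 : ∀ i, bar (lb i) = lB i := fun _ => rfl
  have b4 : ∀ i, bar (lB i) = lb i := fun _ => rfl
  simp only [b1, b2, b3, b4] at e2 e3 e4 e5 e6 e7 e8 e9 e10 e11 e12 e13 e14 e15 e16 e17
  rw [← e0, h0, e14, e15, e16, e13, e10, e11, e12, e9, e6, e7, e8, e5, e2, e3, e4, e1] at e17
  simp only [← mul_assoc, el, FreeGroup.mul_mk, List.cons_append, List.nil_append] at e17
  rw [r3_eq]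
  exact (mul_inv_eq_one.1 e17).symm

theorem good_v0 : Good v0 := good_of_fix rfl

theorem Good.shift {v : Vx} (h : Good v) {γ : MulAut F} (hγ : γ r3 = r3) :
    Good ⟨v.β * γ, v.o⟩ := by
  obtain ⟨h1, h2, G, h0, h⟩ := h
  refine ⟨h1, h2, G, h0, ?_⟩
  change ∀ p q, Nx v.o p q → G q = val G (v.β (γ r3)) p
  rw [hγ]
  exact h

theorem VMov.mem {v v' : Vx} {a : L} {A : Finset (Option L)} {m n : ℕ} (hg : Good v)
    (h : VMov v a A m n v') : some a ∈ A ∧ some (bar a) ∉ A ∧ IsCut v.o A := by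
  obtain ⟨X1, X2, Y1, Y2, ho, hA, -⟩ := h
  have hn := hg.1
  rw [ho, Cycle.nodup_coe_iff] at hn
  refine ⟨(hA _).2 (Or.inl rfl), fun hb => ?_, Y2 ++ some a :: X1, X2 ++ some (bar a) :: Y1, ?_,
    fun x => ?_⟩
  · simp only [List.nodup_append, List.nodup_cons, List.mem_append, List.mem_cons] at hn
    rcases (hA _).1 hb with h1 | h1 | h1
    · exact bar_ne a (Option.some.inj h1)
    · exact hn.1.2.2 _ (Or.inl (Or.inr h1)) _ (Or.inl rfl) rfl
    · exact hn.2.2 _ (Or.inr (Or.inl rfl)) _ h1 rfl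
  · rw [ho]
    exact cyc_of_eq _ Y2 rfl (by simp)
  · rw [hA]
    simp only [List.mem_append, List.mem_cons]
    tauto

theorem AGood_val {a : L} {A : Finset (Option L)} {G G' : Option L → F} {w : F}
    (hG : ∀ q, q ≠ some a → q ≠ some (bar a) →
      G' q = el a ^ (ind A none - ind A q) * wh a A (G q))
    {x : Option L} (h1 : x ≠ some a) (h2 : x ≠ some (bar a)) :
    val G' (wh a A w) x = el a ^ (ind A none - ind A x) * wh a A (val G w x) := by
  rcases x with _ | l
  · simp [val]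
  · have hl : l.1 ≠ a.1 := fun e => (eq_or_bar e).elim (fun e => h1 (by rw [e]))
      fun e => h2 (by rw [e])
    have h3 : some (bar l) ≠ some a := fun e => hl (congrArg Prod.fst (Option.some.inj e) :)
    have h4 : some (bar l) ≠ some (bar a) := fun e =>
      hl (congrArg Prod.fst (Option.some.inj e) :)
    simp only [val]
    rw [hG _ h3 h4, map_mul]
    unfold wh
    rw [whZ_of_ne _ hl]
    group

theorem Good.vmov {v v' : Vx} {a : L} {A : Finset (Option L)} {m n : ℕ} (hg : Good v)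
    (h : VMov v a A m n v') : Good v' := by
  obtain ⟨X1, X2, Y1, Y2, ho, hA, -, -, hβ, ho'⟩ := h
  obtain ⟨hn, hf, G, h0, h⟩ := hg
  have hp : (some a :: X2 ++ X1 ++ some (bar a) :: Y2 ++ Y1).Perm
      (some a :: X1 ++ X2 ++ some (bar a) :: Y1 ++ Y2) := by
    rw [List.perm_iff_count]
    intro x
    simp only [List.count_append, List.count_cons]
    omega
  rw [ho, Cycle.nodup_coe_iff] at hn
  rw [ho] at h
  obtain ⟨u0, hu⟩ := (Blk_iff_Nx _ _ (by simp; omega)).2 h
  simp only [Blk_append, Blk_cons] at hu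
  obtain ⟨u5, ⟨u3, ⟨u2, ⟨e0, b1⟩, b2⟩, e3, b3⟩, b4⟩ := hu
  have hab : some (bar a) ≠ some a := fun e => bar_ne a (Option.some.inj e)
  let G' : Option L → F := fun q =>
    if q = some a then el a ^ ind A none * wh a A u5
    else if q = some (bar a) then el a ^ (ind A none - 1) * wh a A u2
    else el a ^ (ind A none - ind A q) * wh a A (G q)
  have hG : ∀ q, q ≠ some a → q ≠ some (bar a) →
      G' q = el a ^ (ind A none - ind A q) * wh a A (G q) := fun q h1 h2 => by
    simp only [G', if_neg h1, if_neg h2]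
  have hGa : G' (some a) = el a ^ ind A none * wh a A u5 := by simp only [G', if_true]
  have hGb : G' (some (bar a)) = el a ^ (ind A none - 1) * wh a A u2 := by
    simp only [G', if_neg hab, if_true]
  have hblk : ∀ (U : List (Option L)) (c : ℤ) (u u' : F),
      (∀ x ∈ U, x ≠ some a ∧ x ≠ some (bar a) ∧ ind A x = c) → Blk G (val G (v.β r3)) U u u' →
      Blk G' (val G' (wh a A (v.β r3))) U (el a ^ (ind A none - c) * wh a A u)
        (el a ^ (ind A none - c) * wh a A u') := fun U c u u' hU hb =>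
    Blk_map (fun g => el a ^ (ind A none - c) * wh a A g) (fun x hx => by
      obtain ⟨h1, h2, h3⟩ := hU x hx
      rw [hG x h1 h2, AGood_val hG h1 h2, h3]
      exact ⟨rfl, rfl⟩) hb
  have hn' := hn
  simp only [List.nodup_append, List.nodup_cons, List.mem_append, List.mem_cons] at hn'
  obtain ⟨⟨⟨⟨n1, -⟩, -, n2⟩, ⟨n3, -⟩, n4⟩, -, n5⟩ := hn'
  have c1 := hblk X1 1 _ _ (fun x hx => ⟨fun e => n1 (e ▸ hx),
    n4 x (Or.inl (Or.inr hx)) _ (Or.inl rfl), if_pos ((hA x).2 (Or.inr (Or.inl hx)))⟩) b1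
  have c2 := hblk X2 0 _ _ (fun x hx => ⟨(n2 _ (Or.inl rfl) x hx).symm,
    n4 x (Or.inr hx) _ (Or.inl rfl), if_neg fun hx' => by
      rcases (hA x).1 hx' with h1 | h1 | h1
      · exact n2 x (Or.inl h1) x hx rfl
      · exact n2 x (Or.inr h1) x hx rfl
      · exact n5 x (Or.inl (Or.inr hx)) x h1 rfl⟩) b2
  have c3 := hblk Y1 0 _ _ (fun x hx => ⟨(n4 _ (Or.inl (Or.inl rfl)) x (Or.inr hx)).symm,
    fun e => n3 (e ▸ hx), if_neg fun hx' => by
      rcases (hA x).1 hx' with h1 | h1 | h1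
      · exact n4 x (Or.inl (Or.inl h1)) x (Or.inr hx) rfl
      · exact n4 x (Or.inl (Or.inr h1)) x (Or.inr hx) rfl
      · exact n5 x (Or.inr (Or.inr hx)) x h1 rfl⟩) b3
  have c4 := hblk Y2 1 _ _ (fun x hx => ⟨(n5 _ (Or.inl (Or.inl (Or.inl rfl))) x hx).symm,
    (n5 _ (Or.inr (Or.inl rfl)) x hx).symm, if_pos ((hA x).2 (Or.inr (Or.inr hx)))⟩) b4
  have hw : wh a A (el a) = el a := whZ_self a _
  refine ⟨?_, fun x => ?_, G', ?_, ?_⟩
  · rw [ho', Cycle.nodup_coe_iff]
    exact hp.nodup_iff.2 hn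
  · have := hf x
    rw [ho, Cycle.mem_coe_iff] at this
    rw [ho', Cycle.mem_coe_iff]
    exact hp.mem_iff.2 this
  · rw [hG none (by simp) (by simp), h0]
    simp
  · rw [ho', hβ]
    change ∀ p q, _ → G' q = val G' (wh a A (v.β r3)) p
    refine (Blk_iff_Nx _ _ (by simp; omega)).1 ⟨el a ^ ind A none * wh a A u5, ?_⟩
    simp only [Blk_append, Blk_cons]
    refine ⟨el a ^ (ind A none - 1) * wh a A u0, ⟨el a ^ (ind A none - 1) * wh a A u2,
      ⟨el a ^ (ind A none - 0) * wh a A u3, ⟨hGa, ?_⟩, ?_⟩, hGb, ?_⟩, ?_⟩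
    · convert c2 using 1
      simp only [val]
      rw [hGb]
      group
    · convert c1 using 1
      simp only [val]
      rw [e3, map_mul, hw]
      group
    · convert c4 using 1
      simp only [val]
      rw [bar_bar, hGa, el_bar]
      group
    · convert c3 using 1
      · simp only [val]
        rw [bar_bar, e0, el_bar, map_mul, map_inv, hw]
        group
      · rw [sub_zero]

theorem Good.vact {v : Vx} (hg : Good v) (π : W) : Good (vact π v) := by
  obtain ⟨hn, hf, G, h0, h⟩ := hg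
  have hi : Function.Injective (Option.map π.1) := Option.map_injective π.1.injective
  have hc : ∀ x : Option L, Option.map π.1.symm (Option.map π.1 x) = x := fun x => by
    cases x <;> simp
  refine ⟨?_, fun x => ?_, fun q => relA π (G (q.map π.1.symm)), ?_, fun p' q' hpq => ?_⟩
  · change (v.o.map (Option.map π.1)).Nodup
    generalize v.o = o at hn
    induction o using Quotient.inductionOn' with
    | h l => exact List.Nodup.map hi hn
  · change x ∈ v.o.map (Option.map π.1)
    rw [Cycle.mem_map]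
    exact ⟨x.map π.1.symm, hf _, by cases x <;> simp⟩
  · simp [h0]
  · obtain ⟨p, q, h1, rfl, rfl⟩ := Nx_of_map _ hpq
    change relA π (G _) = val _ (relA π (v.β r3)) _
    rw [hc, h p q h1]
    rcases p with _ | l
    · simp [val]
    · simp only [val, Option.map_some]
      rw [map_mul, relA_el, ← W_bar, Equiv.symm_apply_apply]

theorem AGood_fl {K : Option L → F} (h0 : K none = 1)
    (h : ∀ l, ∃ p, p ≠ some (bar l) ∧ K (some l) = el l * K p) (q : Option L) :
    fl (K q) = q := by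
  classical
  by_contra hq
  obtain ⟨x, hx, hmax⟩ := Finset.exists_max_image
    (Finset.univ.filter fun x : Option L => fl (K x) ≠ x) (fun x => (K x).norm)
    ⟨q, Finset.mem_filter.2 ⟨Finset.mem_univ _, hq⟩⟩
  have hx' := (Finset.mem_filter.1 hx).2
  rcases x with _ | l
  · exact hx' (by rw [h0, fl_one])
  · obtain ⟨p, hp, e⟩ := h l
    have h1 : fl (K p) = some (bar l) := by
      by_contra h2
      exact hx' (by rw [e]; exact (fl_el_mul l _).2 h2)
    have h2 := hmax p (Finset.mem_filter.2 ⟨Finset.mem_univ _, fun e' => hp (e' ▸ h1)⟩)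
    have h3 : K p = el (bar l) * K (some l) := by rw [e, el_bar, inv_mul_cancel_left]
    have h4 := toWord_el_mul (l := bar l) (g := K (some l)) (by rw [bar_bar]; exact hx')
    simp only [FreeGroup.norm] at h2
    rw [h3, h4, List.length_cons] at h2
    omega

/-- Each corner of the cycle is realised by a translate of the segment from `1` to `β r3`. -/
theorem Good.wit {v : Vx} (hg : Good v) :
    ∃ G : Option L → F, (∀ q, fl (G q) = q) ∧ ∀ p q, Nx v.o p q → fl (G q * v.β r3) = p := by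
  obtain ⟨hn, hf, G, h0, h⟩ := hg
  refine ⟨G, AGood_fl h0 fun l => ?_, fun p q hpq => ?_⟩
  · obtain ⟨q, hq⟩ := Nx_exists (hf (some (bar l))) (hf none) (by simp)
    refine ⟨q, (Nx_ne hn hq).symm, ?_⟩
    rw [h _ _ hq]
    simp only [val]
    rw [bar_bar, el_bar, mul_inv_cancel_left]
  · rw [h p q hpq]
    refine AGood_fl (K := fun p => val G (v.β r3) p * v.β r3) (by simp [val]) (fun l => ?_) p
    obtain ⟨p', hp'⟩ := Nx_exists_left (hf (some (bar l))) (hf none) (by simp)
    refine ⟨p', Nx_ne hn hp', ?_⟩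
    rw [← h _ _ hp']
    simp only [val, mul_assoc]

theorem AGood_sw {g : F} (h : g ∈ Sw r3) : ∃ k : Fin 17, g = AGood_g k := by
  rw [AGood_r3] at h
  obtain ⟨k, hk, e⟩ := Sw_mk _ _ h
  exact ⟨⟨k, Nat.lt_succ_of_le hk⟩, e⟩

theorem AGood_nx (k : Fin 17) : Nx o0 (fl (AGood_g k * r3)) (fl (AGood_g k)) := by
  have h : ∀ k : Fin 17, ∃ j : Fin 17, (AGood_o.rotate j).take 2 =
      [fl (AGood_g k * FreeGroup.mk AGood_r), fl (AGood_g k)] := by decide +kernel
  obtain ⟨j, hj⟩ := h k
  refine ⟨(AGood_o.rotate j).drop 2, ?_⟩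
  have e := List.take_append_drop 2 (AGood_o.rotate j)
  rw [hj] at e
  rw [AGood_o0, AGood_r3, Cycle.coe_eq_coe]
  exact ⟨j, e.symm⟩

theorem o0_unique {o : Cycle (Option L)} (h : Good ⟨1, o⟩) : o = o0 := by
  obtain ⟨G, h1, h2⟩ := h.wit
  refine cyc_ext h.1 AGood_nodup (fun x => iff_of_true (h.2.1 x) (AGood_full x)) fun p q hpq => ?_
  have h3 : fl (G q * r3) = p := h2 p q hpq
  obtain ⟨k, hk⟩ := AGood_sw (g := G q) (by
    change fl (G q) ≠ fl (G q * r3)
    rw [h1, h3]
    exact (Nx_ne h.1 hpq).symm)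
  have := AGood_nx k
  rwa [← hk, h1, h3] at this

theorem cr_r3 (j : X) : ∃ h1 h2 : F, ∀ h ∈ cr r3 {some (j, true)}, h = h1 ∨ h = h2 := by
  have key : ∀ j : X, ∃ k1 k2 : Fin 17, ∀ k : Fin 17, ¬ (fl (AGood_g k) = some (j, true) ↔
      fl (AGood_g k * FreeGroup.mk AGood_r) = some (j, true)) → k = k1 ∨ k = k2 := by
    decide +kernel
  obtain ⟨k1, k2, hk⟩ := key j
  refine ⟨AGood_g k1, AGood_g k2, fun g hg => ?_⟩
  obtain ⟨k, rfl⟩ := AGood_sw (cr_subset _ _ hg)
  have h1 : ¬ (fl (AGood_g k) ∈ ({some (j, true)} : Finset (Option L)) ↔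
      fl (AGood_g k * r3) ∈ ({some (j, true)} : Finset (Option L))) := hg
  rw [Finset.mem_singleton, Finset.mem_singleton, AGood_r3] at h1
  rcases hk k h1 with rfl | rfl
  · exact Or.inl rfl
  · exact Or.inr rfl

theorem red_o0 : red o0 = w0 := rfl

end Pool.Agent.MP_61a8e3_al.G4.A

end

section

set_option autoImplicit false

namespace Pool.Agent.MP_61a8e3_al.G4.A

variable {E : Type} (S : SlideSys E)

theorem vmov_exists {v : Vx} (hg : Good v) {a : L} {A : Finset (Option L)} (hc : IsCut v.o A)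
    (ha : some a ∈ A) (hb : some (bar a) ∉ A) : ∃ m n v', VMov v a A m n v' := by
  obtain ⟨I, J, ho, hI⟩ := hc
  obtain ⟨Y2, X1, rfl⟩ := List.append_of_mem ((hI _).1 ha)
  have hJ : some (bar a) ∈ J := by
    have h := hg.2.1 (some (bar a))
    rw [ho, Cycle.mem_coe_iff, List.mem_append] at h
    exact h.resolve_left (fun h' => hb ((hI _).2 h'))
  obtain ⟨X2, Y1, rfl⟩ := List.append_of_mem hJ
  refine ⟨cnt Y2, cnt X1, ⟨wh a A * v.β, ↑(some a :: X2 ++ X1 ++ some (bar a) :: Y2 ++ Y1)⟩,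
    X1, X2, Y1, Y2, ?_, fun x => ?_, rfl, rfl, rfl, rfl⟩
  · rw [ho]
    exact cyc_of_eq Y2 (some a :: X1 ++ X2 ++ some (bar a) :: Y1) (by simp) (by simp)
  · rw [hI]
    simp only [List.mem_append, List.mem_cons]
    tauto

theorem AMov1_split {α : Type} (P : α → Prop) {U1 U2 V1 V2 : List α} (h : U1 ++ U2 = V1 ++ V2)
    (h1 : ∀ x ∈ U1, P x) (h2 : ∀ x ∈ U2, ¬ P x) (h3 : ∀ x ∈ V1, P x) (h4 : ∀ x ∈ V2, ¬ P x) :
    U1 = V1 ∧ U2 = V2 := by
  rcases List.append_eq_append_iff.1 h with ⟨T, rfl, rfl⟩ | ⟨T, rfl, rfl⟩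
  · have : T = [] := List.eq_nil_iff_forall_not_mem.2 fun x hx =>
      h2 x (List.mem_append_left _ hx) (h3 x (List.mem_append_right _ hx))
    simp [this]
  · have : T = [] := List.eq_nil_iff_forall_not_mem.2 fun x hx =>
      h4 x (List.mem_append_left _ hx) (h1 x (List.mem_append_right _ hx))
    simp [this]

theorem AMov1_facts {α : Type} {a b : α} {A : Finset α} {X1 X2 Y1 Y2 : List α}
    (hn : (a :: X1 ++ X2 ++ b :: Y1 ++ Y2).Nodup)
    (hA : ∀ x, x ∈ A ↔ x = a ∨ x ∈ X1 ∨ x ∈ Y2) :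
    b ∉ X1 ++ X2 ∧ (∀ x ∈ X1, x ∈ A) ∧ (∀ x ∈ X2, ¬ x ∈ A) ∧ (∀ x ∈ Y1, x ∉ A) ∧
      ∀ x ∈ Y2, ¬ x ∉ A := by
  simp only [List.nodup_append, List.nodup_cons, List.mem_append, List.mem_cons] at hn
  simp only [hA, List.mem_append]
  grind

/-- The decomposition in a move is determined by the letter and the cut. -/
theorem decomp_unique {a : L} {A : Finset (Option L)}
    {X1 X2 Y1 Y2 X1' X2' Y1' Y2' : List (Option L)}
    (hn : (some a :: X1 ++ X2 ++ some (bar a) :: Y1 ++ Y2).Nodup)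
    (h : ((some a :: X1 ++ X2 ++ some (bar a) :: Y1 ++ Y2 : List (Option L)) : Cycle (Option L)) =
      ↑(some a :: X1' ++ X2' ++ some (bar a) :: Y1' ++ Y2'))
    (hA : ∀ x, x ∈ A ↔ x = some a ∨ x ∈ X1 ∨ x ∈ Y2)
    (hA' : ∀ x, x ∈ A ↔ x = some a ∨ x ∈ X1' ∨ x ∈ Y2') :
    X1 = X1' ∧ X2 = X2' ∧ Y1 = Y1' ∧ Y2 = Y2' := by
  have hn' : (some a :: X1' ++ X2' ++ some (bar a) :: Y1' ++ Y2').Nodup := by
    rw [← Cycle.nodup_coe_iff, ← h, Cycle.nodup_coe_iff]; exact hn
  obtain ⟨a1, a2, a3, a4, a5⟩ := AMov1_facts hn hA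
  obtain ⟨b1, b2, b3, b4, b5⟩ := AMov1_facts hn' hA'
  have e : (X1 ++ X2) ++ some (bar a) :: (Y1 ++ Y2) =
      (X1' ++ X2') ++ some (bar a) :: (Y1' ++ Y2') :=
    cyc_head_inj (a := some a) (by simpa using hn) (by simpa using h)
  obtain ⟨e1, e2⟩ := split_inj a1 b1 e
  obtain ⟨f1, f2⟩ := AMov1_split (· ∈ A) e1 a2 a3 b2 b3
  obtain ⟨f3, f4⟩ := AMov1_split (· ∉ A) e2 a4 a5 b4 b5
  exact ⟨f1, f2, f3, f4⟩

theorem vmov_unique {v v1 v2 : Vx} (hg : Good v) {a : L} {A : Finset (Option L)}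
    {m n m' n' : ℕ} (h1 : VMov v a A m n v1) (h2 : VMov v a A m' n' v2) :
    m = m' ∧ n = n' ∧ v1 = v2 := by
  obtain ⟨X1, X2, Y1, Y2, ho, hA, rfl, rfl, hβ, ho1⟩ := h1
  obtain ⟨X1', X2', Y1', Y2', ho', hA', rfl, rfl, hβ', ho2⟩ := h2
  have hn := hg.1
  rw [ho, Cycle.nodup_coe_iff] at hn
  obtain ⟨rfl, rfl, rfl, rfl⟩ := decomp_unique hn (ho.symm.trans ho') hA hA'
  exact ⟨rfl, rfl, Vx.ext (hβ.trans hβ'.symm) (ho1.trans ho2.symm)⟩

theorem mov_unique {s s1 s2 : St E} (hs : Ok S s) {a : L} {A : Finset (Option L)}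
    (h1 : Mov S s a A s1) (h2 : Mov S s a A s2) : s1 = s2 := by
  obtain ⟨m, n, h1, e1⟩ := h1
  obtain ⟨m', n', h2, e2⟩ := h2
  obtain ⟨rfl, rfl, e⟩ := vmov_unique hs.1 h1 h2
  exact St.ext e (e1.trans e2.symm)

theorem mov_exists {s : St E} (hs : Ok S s) {a : L} {A : Finset (Option L)}
    (hc : IsCut s.v.o A) (ha : some a ∈ A) (hb : some (bar a) ∉ A) : ∃ s', Mov S s a A s' := by
  obtain ⟨m, n, v', h⟩ := vmov_exists hs.1 hc ha hb
  exact ⟨⟨v', S.Mv a m n s.e⟩, m, n, h, rfl⟩

theorem Mov.mem {s s' : St E} (hs : Ok S s) {a : L} {A : Finset (Option L)}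
    (h : Mov S s a A s') :
    some a ∈ A ∧ some (bar a) ∉ A ∧ IsCut s.v.o A ∧ s'.v.β = wh a A * s.v.β := by
  obtain ⟨m, n, h, -⟩ := h
  obtain ⟨h1, h2, h3⟩ := VMov.mem hs.1 h
  obtain ⟨_, _, _, _, -, -, -, -, hβ, -⟩ := h
  exact ⟨h1, h2, h3, hβ⟩

theorem Ok.mov {s s' : St E} (hs : Ok S s) {a : L} {A : Finset (Option L)}
    (h : Mov S s a A s') : Ok S s' := by
  obtain ⟨m, n, h, he⟩ := h
  refine ⟨Good.vmov hs.1 h, ?_⟩
  obtain ⟨X1, X2, Y1, Y2, ho, -, rfl, rfl, -, ho'⟩ := h
  have h1 := hs.2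
  rw [ho, red_coe] at h1
  simp only [List.reduceOption_append, List.reduceOption_cons_of_some] at h1
  rw [he, ho', red_coe]
  simp only [List.reduceOption_append, List.reduceOption_cons_of_some]
  exact w_Mv S h1

theorem Ok.sact {s : St E} (hs : Ok S s) (π : W) : Ok S (sact S π s) := by
  refine ⟨Good.vact hs.1 π, ?_⟩
  show S.w (S.rl π s.e) = red (s.v.o.map (Option.map π.1))
  rw [S.w_rl, red_map, hs.2]

theorem Ok.adj {s s' : St E} (hs : Ok S s) (h : Adj S s s') : Ok S s' := by
  obtain ⟨a, A, π, s'', h, rfl⟩ := h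
  exact Ok.sact S (Ok.mov S hs h) π

theorem Ok.rch {s s' : St E} (hs : Ok S s) (h : Rch S s s') : Ok S s' := by
  induction h with
  | refl => exact hs
  | tail _ h ih => exact Ok.adj S ih h

theorem vact_one (v : Vx) : vact 1 v = v := by
  obtain ⟨β, o⟩ := v
  refine Vx.ext (by simp [vact]) ?_
  show o.map (Option.map (1 : W).1) = o
  induction o using Quotient.inductionOn' with
  | h l =>
    have : Option.map (1 : W).1 = id := by funext x; cases x <;> rfl
    rw [this]
    show ((l.map id : List (Option L)) : Cycle (Option L)) = ↑l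
    rw [List.map_id]

theorem vact_mul (π σ : W) (v : Vx) : vact (π * σ) v = vact π (vact σ v) := by
  obtain ⟨β, o⟩ := v
  refine Vx.ext (by simp [vact, mul_assoc]) ?_
  show o.map (Option.map (π * σ).1) = (o.map (Option.map σ.1)).map (Option.map π.1)
  induction o using Quotient.inductionOn' with
  | h l =>
    have : Option.map (π * σ).1 = Option.map π.1 ∘ Option.map σ.1 := by
      funext x; cases x <;> rfl
    rw [this]
    show ((l.map (Option.map π.1 ∘ Option.map σ.1) : List (Option L)) : Cycle (Option L)) =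
      ↑((l.map (Option.map σ.1)).map (Option.map π.1))
    rw [List.map_map]

theorem sact_one (s : St E) : sact S 1 s = s := by
  refine St.ext (vact_one _) ?_
  show S.rl 1 s.e = s.e
  rw [map_one]; rfl

theorem sact_mul (π σ : W) (s : St E) : sact S (π * σ) s = sact S π (sact S σ s) := by
  refine St.ext (vact_mul _ _ _) ?_
  show S.rl (π * σ) s.e = S.rl π (S.rl σ s.e)
  rw [map_mul]; rfl

theorem AMov1_cnt (f : L → L) (U : List (Option L)) : cnt (U.map (Option.map f)) = cnt U := by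
  unfold cnt
  rw [List.reduceOption_map, List.length_map]

theorem vmov_vact {v v' : Vx} {a : L} {A : Finset (Option L)} {m n : ℕ}
    (h : VMov v a A m n v') (π : W) : VMov (vact π v) (π.1 a) (aact π A) m n (vact π v') := by
  obtain ⟨X1, X2, Y1, Y2, ho, hA, rfl, rfl, hβ, ho'⟩ := h
  have hi : Function.Injective (Option.map π.1 : Option L → Option L) :=
    Option.map_injective π.1.injective
  refine ⟨X1.map (Option.map π.1), X2.map (Option.map π.1), Y1.map (Option.map π.1),
    Y2.map (Option.map π.1), ?_, fun x => ?_, (AMov1_cnt _ _).symm, (AMov1_cnt _ _).symm, ?_, ?_⟩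
  · show v.o.map (Option.map π.1) = _
    rw [ho, Cycle.map_coe]
    simp [W_bar]
  · obtain ⟨y, rfl⟩ : ∃ y, x = Option.map π.1 y :=
      ⟨Option.map π.1.symm x, by cases x <;> simp⟩
    rw [mem_aact, hA, List.mem_map_of_injective hi, List.mem_map_of_injective hi]
    have : Option.map π.1 y = some (π.1 a) ↔ y = some a := hi.eq_iff (b := some a)
    rw [this]
  · show relA π * v'.β = wh (π.1 a) (aact π A) * (relA π * v.β)
    rw [hβ, ← mul_assoc, wh_relA, mul_assoc]
  · show v'.o.map (Option.map π.1) = _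
    rw [ho', Cycle.map_coe]
    simp [W_bar]

theorem mov_sact {s s' : St E} {a : L} {A : Finset (Option L)} (h : Mov S s a A s') (π : W) :
    Mov S (sact S π s) (π.1 a) (aact π A) (sact S π s') := by
  obtain ⟨m, n, h, he⟩ := h
  refine ⟨m, n, vmov_vact h π, ?_⟩
  show S.rl π s'.e = S.Mv (π.1 a) m n (S.rl π s.e)
  rw [he, ← Equiv.Perm.mul_apply, rl_Mv, Equiv.Perm.mul_apply]

theorem mov_triv {s : St E} (hs : Ok S s) (a : L) : Mov S s a {some a} s := by
  obtain ⟨U, V, h⟩ := exists_split (hs.1.2.1 (some a)) (hs.1.2.1 (some (bar a)))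
    (fun h => bar_ne a (Option.some.inj h).symm)
  refine ⟨0, 0, ⟨[], U, V, [], by simpa using h, by simp, rfl, rfl, ?_, by simpa using h⟩, ?_⟩
  · rw [wh_single, one_mul]
  · rw [Mv_zero]; rfl

end Pool.Agent.MP_61a8e3_al.G4.A

end

section

set_option autoImplicit false

namespace Pool.Agent.MP_61a8e3_al.G4.D

open A

variable {P : Pi →* Out}

theorem DMove_count {I : List (Option L)} (hn : I.Nodup) {A : Finset (Option L)}
    (h : ∀ x, x ∈ A ↔ x ∈ I) : (fun p => (I.count p : ℤ)) = ind A := by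
  funext p
  by_cases hp : p ∈ I
  · rw [List.count_eq_one_of_mem hn hp, AWh_ind1 ((h p).2 hp)]
    rfl
  · rw [List.count_eq_zero_of_not_mem hp, AWh_ind0 fun hx => hp ((h p).1 hx)]
    rfl

theorem Inv.vmov {v v' : Vx} {a : L} {A : Finset (Option L)} {m n : ℕ} (hg : Good v)
    (h : VMov v a A m n v') (hi : Inv P v) : Inv P v' := by
  obtain ⟨X1, X2, Y1, Y2, ho, hA, -, -, hβ, ho'⟩ := h
  obtain ⟨hn, hf, -⟩ := hg
  obtain ⟨G, h0, h, h2⟩ := hi
  rw [ho, Cycle.nodup_coe_iff] at hn
  rw [ho] at h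
  obtain ⟨u0, hu⟩ := (Blk_iff_Nx _ _ (by simp; omega)).2 h
  simp only [Blk_append, Blk_cons] at hu
  obtain ⟨u5, ⟨u3, ⟨u2, ⟨e0, b1⟩, b2⟩, e3, b3⟩, b4⟩ := hu
  have hab : some (bar a) ≠ some a := fun e => bar_ne a (Option.some.inj e)
  let G' : Option L → F := fun q =>
    if q = some a then el a ^ ind A none * wh a A u5
    else if q = some (bar a) then el a ^ (ind A none - 1) * wh a A u2
    else el a ^ (ind A none - ind A q) * wh a A (G q)
  have hG : ∀ q, q ≠ some a → q ≠ some (bar a) →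
      G' q = el a ^ (ind A none - ind A q) * wh a A (G q) := fun q h1 h2 => by
    simp only [G', if_neg h1, if_neg h2]
  have hGa : G' (some a) = el a ^ ind A none * wh a A u5 := by simp only [G', if_true]
  have hGb : G' (some (bar a)) = el a ^ (ind A none - 1) * wh a A u2 := by
    simp only [G', if_neg hab, if_true]
  have hblk : ∀ (U : List (Option L)) (c : ℤ) (u u' : F),
      (∀ x ∈ U, x ≠ some a ∧ x ≠ some (bar a) ∧ ind A x = c) → Blk G (val G (v.β r3)) U u u' →
      Blk G' (val G' (wh a A (v.β r3))) U (el a ^ (ind A none - c) * wh a A u)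
        (el a ^ (ind A none - c) * wh a A u') := fun U c u u' hU hb =>
    Blk_map (fun g => el a ^ (ind A none - c) * wh a A g) (fun x hx => by
      obtain ⟨h1, h2, h3⟩ := hU x hx
      rw [hG x h1 h2, AGood_val hG h1 h2, h3]
      exact ⟨rfl, rfl⟩) hb
  have hn' := hn
  simp only [List.nodup_append, List.nodup_cons, List.mem_append, List.mem_cons] at hn'
  obtain ⟨⟨⟨⟨n1, -⟩, -, n2⟩, ⟨n3, -⟩, n4⟩, -, n5⟩ := hn'
  have c1 := hblk X1 1 _ _ (fun x hx => ⟨fun e => n1 (e ▸ hx),
    n4 x (Or.inl (Or.inr hx)) _ (Or.inl rfl), if_pos ((hA x).2 (Or.inr (Or.inl hx)))⟩) b1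
  have c2 := hblk X2 0 _ _ (fun x hx => ⟨(n2 _ (Or.inl rfl) x hx).symm,
    n4 x (Or.inr hx) _ (Or.inl rfl), if_neg fun hx' => by
      rcases (hA x).1 hx' with h1 | h1 | h1
      · exact n2 x (Or.inl h1) x hx rfl
      · exact n2 x (Or.inr h1) x hx rfl
      · exact n5 x (Or.inl (Or.inr hx)) x h1 rfl⟩) b2
  have c3 := hblk Y1 0 _ _ (fun x hx => ⟨(n4 _ (Or.inl (Or.inl rfl)) x (Or.inr hx)).symm,
    fun e => n3 (e ▸ hx), if_neg fun hx' => by
      rcases (hA x).1 hx' with h1 | h1 | h1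
      · exact n4 x (Or.inl (Or.inl h1)) x (Or.inr hx) rfl
      · exact n4 x (Or.inl (Or.inr h1)) x (Or.inr hx) rfl
      · exact n5 x (Or.inr (Or.inr hx)) x h1 rfl⟩) b3
  have c4 := hblk Y2 1 _ _ (fun x hx => ⟨(n5 _ (Or.inl (Or.inl (Or.inl rfl))) x hx).symm,
    (n5 _ (Or.inr (Or.inl rfl)) x hx).symm, if_pos ((hA x).2 (Or.inr (Or.inr hx)))⟩) b4
  have hw : wh a A (el a) = el a := whZ_self a _
  refine ⟨G', ?_, ?_, fun q => ?_⟩
  · rw [hG none (by simp) (by simp), h0]
    simp
  · rw [ho', hβ]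
    change ∀ p q, _ → G' q = val G' (wh a A (v.β r3)) p
    refine (Blk_iff_Nx _ _ (by simp; omega)).1 ⟨el a ^ ind A none * wh a A u5, ?_⟩
    simp only [Blk_append, Blk_cons]
    refine ⟨el a ^ (ind A none - 1) * wh a A u0, ⟨el a ^ (ind A none - 1) * wh a A u2,
      ⟨el a ^ (ind A none - 0) * wh a A u3, ⟨hGa, ?_⟩, ?_⟩, hGb, ?_⟩, ?_⟩
    · convert c2 using 1
      simp only [val]
      rw [hGb]
      group
    · convert c1 using 1
      simp only [val]
      rw [e3, map_mul, hw]
      group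
    · convert c4 using 1
      simp only [val]
      rw [bar_bar, hGa, el_bar]
      group
    · convert c3 using 1
      · simp only [val]
        rw [bar_bar, e0, el_bar, map_mul, map_inv, hw]
        group
      · rw [sub_zero]
  · rw [hβ]
    change G2 P (wh a A * v.β) (G' q) (val G' (wh a A (v.β r3)) q) (dl q)
    have hI : (Y2 ++ some a :: X1).Nodup ∧ (X2 ++ some (bar a) :: Y1).Nodup ∧
        ∀ x ∈ X2 ++ some (bar a) :: Y1, x ∉ Y2 ++ some a :: X1 := by
      have hp : (some a :: X1 ++ X2 ++ some (bar a) :: Y1 ++ Y2).Perm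
          ((X2 ++ some (bar a) :: Y1) ++ (Y2 ++ some a :: X1)) := by
        rw [List.perm_iff_count]
        intro x
        simp only [List.count_append, List.count_cons]
        omega
      have := List.nodup_append.1 (hp.nodup_iff.1 hn)
      exact ⟨this.2.1, this.1, fun x hx hx' => this.2.2 x hx x hx' rfl⟩
    have hA1 : ∀ x, x ∈ A ↔ x ∈ Y2 ++ some a :: X1 := fun x => by
      rw [hA]
      simp only [List.mem_append, List.mem_cons]
      tauto
    have hA2 : ∀ x, x ∈ Aᶜ ↔ x ∈ X2 ++ some (bar a) :: Y1 := fun x => by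
      rw [Finset.mem_compl, hA1]
      refine ⟨fun hx => ?_, hI.2.2 x⟩
      have := hf x
      rw [ho, Cycle.mem_coe_iff] at this
      simp only [List.mem_append, List.mem_cons] at this hx ⊢
      tauto
    have ha1 : ind A (some a) = 1 := AWh_ind1 ((hA1 _).2 (by simp))
    have ha0 : ind A (some (bar a)) = 0 :=
      AWh_ind0 (Finset.mem_compl.1 ((hA2 _).2 (by simp)))
    by_cases q1 : q = some a
    · subst q1
      have hb : Blk G (val G (v.β r3)) (Y2 ++ some a :: X1) u5 u2 :=
        (Blk_append _ _ _ _ _ _).2 ⟨u0, b4, (Blk_cons _ _ _ _ _ _).2 ⟨e0, b1⟩⟩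
      have g1 := G2.blk hb fun q _ => h2 q
      rw [DMove_count hI.1 hA1] at g1
      have g2 := G2.wh_self ha1 ha0 (AWh_cases' A) g1
      have e : val G' (wh a A (v.β r3)) (some a) = el a ^ ind A none * wh a A u2 := by
        simp only [val]
        rw [hGb]
        group
      rw [hGa, e]
      exact g2
    by_cases q2 : q = some (bar a)
    · subst q2
      have hb : Blk G (val G (v.β r3)) (X2 ++ some (bar a) :: Y1) u2 u5 :=
        (Blk_append _ _ _ _ _ _).2 ⟨u3, b2, (Blk_cons _ _ _ _ _ _).2 ⟨e3, b3⟩⟩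
      have g1 := G2.blk hb fun q _ => h2 q
      rw [DMove_count hI.2.1 hA2] at g1
      have g2 := G2.wh_self (a := bar a) (by rw [AWh_compl, ha0]; rfl)
        (by rw [bar_bar, AWh_compl, ha1]; rfl) (AWh_cases' Aᶜ) g1
      have e : val G' (wh a A (v.β r3)) (some (bar a)) =
          el a ^ (ind A none - 1) * wh a A u5 := by
        simp only [val]
        rw [bar_bar, hGa, el_bar]
        group
      have e1 : whZ (bar a) (ind Aᶜ) = wh a A := wh_compl a A
      have e2 : el (bar a) ^ ind Aᶜ none = el a ^ (ind A none - 1) := by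
        rw [el_bar, AWh_compl]
        group
      rw [e1, e2] at g2
      rw [hGb, e]
      exact g2
    rcases q with _ | l
    · have e : G' none = 1 := by
        rw [hG none (by simp) (by simp), h0]
        simp
      rw [e]
      exact G2.at_none P (wh a A * v.β)
    · have hl : l.1 ≠ a.1 := fun e => (eq_or_bar e).elim (fun e => q1 (by rw [e]))
        fun e => q2 (by rw [e])
      rw [hG _ q1 q2, AGood_val hG q1 q2]
      exact G2.wh_ne (ind A) hl (h2 (some l))

theorem Inv.vact {v : Vx} (hi : Inv P v) (π : W) : Inv P (vact π v) := by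
  obtain ⟨G, h0, h, h2⟩ := hi
  have hc : ∀ x : Option L, Option.map π.1.symm (Option.map π.1 x) = x := fun x => by
    cases x <;> simp
  have hv : ∀ p : Option L, val (fun q => relA π (G (q.map π.1.symm))) (relA π (v.β r3))
      (p.map π.1) = relA π (val G (v.β r3) p) := fun p => by
    rcases p with _ | l
    · simp [val]
    · simp only [val, Option.map_some]
      rw [map_mul, relA_el, ← W_bar, Equiv.symm_apply_apply]
  refine ⟨fun q => relA π (G (q.map π.1.symm)), ?_, fun p' q' hpq => ?_, fun q' => ?_⟩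
  · simp [h0]
  · obtain ⟨p, q, h1, rfl, rfl⟩ := Nx_of_map _ hpq
    change relA π (G _) = val _ (relA π (v.β r3)) _
    rw [hc, h p q h1, hv]
  · obtain ⟨q, rfl⟩ : ∃ q : Option L, q' = q.map π.1 :=
      ⟨q'.map π.1.symm, by cases q' <;> simp⟩
    change G2 P (relA π * v.β) (relA π (G _)) (val _ (relA π (v.β r3)) _) _
    rw [hc, hv]
    exact G2.rel π (h2 q)

theorem Inv.rch {E : Type} (S : SlideSys E) {s s' : St E} (hs : Ok S s) (h : Rch S s s')
    (hi : Inv P s.v) : Inv P s'.v := by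
  induction h with
  | refl => exact hi
  | tail h1 h2 ih =>
    obtain ⟨a, A, π, s'', ⟨m, n, hm, -⟩, rfl⟩ := h2
    exact Inv.vact (Inv.vmov (Ok.rch S hs h1).1 hm ih) π

end Pool.Agent.MP_61a8e3_al.G4.D

end

section

set_option autoImplicit false

namespace Pool.Agent.MP_61a8e3_al.G4.A

variable {E : Type} (S : SlideSys E)

/-- Exactly one of six statements holds. -/
def AMov2_One (p0 p1 p2 p3 p4 p5 : Prop) : Prop :=
  (p0 ∧ ¬ p1 ∧ ¬ p2 ∧ ¬ p3 ∧ ¬ p4 ∧ ¬ p5) ∨ (¬ p0 ∧ p1 ∧ ¬ p2 ∧ ¬ p3 ∧ ¬ p4 ∧ ¬ p5) ∨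
  (¬ p0 ∧ ¬ p1 ∧ p2 ∧ ¬ p3 ∧ ¬ p4 ∧ ¬ p5) ∨ (¬ p0 ∧ ¬ p1 ∧ ¬ p2 ∧ p3 ∧ ¬ p4 ∧ ¬ p5) ∨
  (¬ p0 ∧ ¬ p1 ∧ ¬ p2 ∧ ¬ p3 ∧ p4 ∧ ¬ p5) ∨ (¬ p0 ∧ ¬ p1 ∧ ¬ p2 ∧ ¬ p3 ∧ ¬ p4 ∧ p5)

theorem AMov2_one {p0 p1 p2 p3 p4 p5 : Prop} (k1 : p0 → ¬ p1) (k2 : p0 ∨ p1 → ¬ p2)
    (k3 : p3 → ¬ p4) (k4 : (p0 ∨ p1) ∨ p2 → ¬ (p3 ∨ p4))
    (k5 : ((p0 ∨ p1) ∨ p2) ∨ p3 ∨ p4 → ¬ p5) (h : (((p0 ∨ p1) ∨ p2) ∨ p3 ∨ p4) ∨ p5) :
    AMov2_One p0 p1 p2 p3 p4 p5 := by
  unfold AMov2_One
  by_cases h0 : p0 <;> by_cases h1 : p1 <;> by_cases h2 : p2 <;> by_cases h3 : p3 <;>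
    by_cases h4 : p4 <;> by_cases h5 : p5 <;> simp_all

theorem AMov2_p1 {p0 p1 p2 p3 p4 p5 : Prop} (h : AMov2_One p0 p1 p2 p3 p4 p5) :
    ¬ (p0 ∨ p1 ∨ p5) ↔ p3 ∨ p4 ∨ p2 := by
  rcases h with h | h | h | h | h | h <;> simp [h]

theorem AMov2_p2 {p0 p1 p2 p3 p4 p5 : Prop} (h : AMov2_One p0 p1 p2 p3 p4 p5) :
    p0 ∨ ¬ p3 ∧ ¬ (p0 ∨ p1 ∨ p5) ↔ p0 ∨ p2 ∨ p4 := by
  rcases h with h | h | h | h | h | h <;> simp [h]

theorem AMov2_p3 {p0 p1 p2 p3 p4 p5 : Prop} (h : AMov2_One p0 p1 p2 p3 p4 p5) (h3 : p3) :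
    ¬ (p1 ∨ p2) := by
  rcases h with h | h | h | h | h | h <;> simp_all

theorem AMov2_p4 {p0 p1 p2 p3 p4 p5 : Prop} (h : AMov2_One p0 p1 p2 p3 p4 p5)
    (h1 : p0 ∨ p1 ∨ p5) (h2 : p2 ∨ p4) : False := by
  rcases h with h | h | h | h | h | h <;> simp_all

theorem AMov2_p5 {p0 p1 p2 p3 p4 p5 q r : Prop} (h : AMov2_One p0 p1 (q ∨ p2) p3 (p4 ∨ r) p5) :
    p0 ∨ (p0 ∨ (p1 ∨ q) ∨ r ∨ p5) ∧ ¬ (p0 ∨ p1 ∨ p5) ↔ p0 ∨ q ∨ r := by
  rcases h with h | h | h | h | h | h <;> simp_all

theorem AMov2_part {α : Type} {a b : α} {X1 X2 Y1 Y2 : List α}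
    (hn : (a :: X1 ++ X2 ++ b :: Y1 ++ Y2).Nodup) (x : α)
    (hx : x ∈ a :: X1 ++ X2 ++ b :: Y1 ++ Y2) :
    AMov2_One (x = a) (x ∈ X1) (x ∈ X2) (x = b) (x ∈ Y1) (x ∈ Y2) := by
  simp only [List.nodup_append, List.nodup_cons, List.mem_append, List.mem_cons] at hn hx
  obtain ⟨⟨⟨⟨h1, -⟩, -, h2⟩, ⟨h3, -⟩, h4⟩, -, h5⟩ := hn
  exact AMov2_one (fun e => e ▸ h1) (fun p q => h2 x p x q rfl) (fun e => e ▸ h3)
    (fun p q => h4 x p x q rfl) (fun p q => h5 x p x q rfl) hx

theorem AMov2_good {v : Vx} (hg : Good v) {l : List (Option L)} (h : v.o = ↑l) :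
    l.Nodup ∧ ∀ x, x ∈ l := by
  refine ⟨?_, fun x => ?_⟩
  · have := hg.1
    rwa [h, Cycle.nodup_coe_iff] at this
  · have := hg.2.1 x
    rwa [h, Cycle.mem_coe_iff] at this

theorem AMov2_red (a b : L) (X1 X2 Y1 Y2 : List (Option L)) :
    red ((some a :: X1 ++ X2 ++ some b :: Y1 ++ Y2 : List (Option L)) : Cycle (Option L)) =
      ↑(a :: X1.reduceOption ++ X2.reduceOption ++ b :: Y1.reduceOption ++ Y2.reduceOption) := by
  rw [red_coe]
  simp only [List.reduceOption_append, List.reduceOption_cons_of_some]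

theorem AMov2_cnt (U V : List (Option L)) : cnt (U ++ V) = cnt U + cnt V := by
  simp only [cnt, List.reduceOption_append, List.length_append]

theorem AMov2_ne {a l : L} (h : l.1 ≠ a.1) : some l ≠ some a ∧ some l ≠ some (bar a) := by
  constructor
  · intro e
    exact h (by rw [Option.some.inj e])
  · intro e
    exact h (by rw [Option.some.inj e, bar_fst])

theorem AMov2_wh_back (a : L) (A : Finset (Option L)) :
    wh a (insert (some a) (Aᶜ.erase (some (bar a)))) * wh a A = 1 := by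
  rw [wh, wh, ← whZ_add, ← whZ_zero a]
  refine whZ_congr a fun l hl => ?_
  obtain ⟨h1, h2⟩ := AMov2_ne hl
  by_cases h3 : some l ∈ A <;> by_cases h4 : none ∈ A <;>
    simp only [Pi.add_apply, Pi.zero_apply, ind, Finset.mem_insert, Finset.mem_erase,
      Finset.mem_compl, h1, h3, h4] <;> simp [h2]

theorem AMov2_wh_T2 (a : L) {A B : Finset (Option L)} (hAB : A ⊆ B) :
    wh a (insert (some a) (B \ A)) * wh a A = wh a B := by
  rw [wh, wh, wh, ← whZ_add]
  refine whZ_congr a fun l hl => ?_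
  obtain ⟨h1, -⟩ := AMov2_ne hl
  have key : ∀ x, x ≠ some a → (ind (insert (some a) (B \ A)) + ind A) x = ind B x := by
    intro x hx
    by_cases h3 : x ∈ A
    · simp [ind, hx, h3, hAB h3]
    · by_cases h4 : x ∈ B <;> simp [ind, hx, h3, h4]
  rw [key _ h1, key none (by simp)]

theorem mov_compl {s s' : St E} (hs : Ok S s) {a : L} {A : Finset (Option L)}
    (h : Mov S s a A s') : Mov S s (bar a) Aᶜ s' := by
  obtain ⟨m, n, ⟨X1, X2, Y1, Y2, ho, hA, rfl, rfl, hβ, ho'⟩, he⟩ := h
  obtain ⟨hn, hf⟩ := AMov2_good hs.1 ho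
  refine ⟨cnt X2, cnt Y1, ⟨Y1, Y2, X1, X2, ?_, fun x => ?_, rfl, rfl, ?_, ?_⟩, ?_⟩
  · rw [ho, bar_bar]
    exact cyc_of_eq (some a :: X1 ++ X2) (some (bar a) :: Y1 ++ Y2) (by simp) (by simp)
  · rw [Finset.mem_compl, hA]
    exact AMov2_p1 (AMov2_part hn x (hf x))
  · rw [hβ, wh_compl]
  · rw [ho', bar_bar]
    exact cyc_of_eq (some a :: X2 ++ X1) (some (bar a) :: Y2 ++ Y1) (by simp) (by simp)
  · rw [he]
    exact Mv_symm S (by rw [hs.2, ho, AMov2_red])

theorem vmov_back {v v' : Vx} (hg : Good v) {a : L} {A : Finset (Option L)} {m n : ℕ}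
    (h : VMov v a A m n v') :
    ∃ m' n', VMov v' a (insert (some a) (Aᶜ.erase (some (bar a)))) m' n' v ∧
      ∀ e, S.w e = red v.o → S.Mv a m' n' (S.Mv a m n e) = e := by
  obtain ⟨X1, X2, Y1, Y2, ho, hA, rfl, rfl, hβ, ho'⟩ := h
  obtain ⟨hn, hf⟩ := AMov2_good hg ho
  refine ⟨cnt Y1, cnt X2, ⟨X2, X1, Y2, Y1, ho', fun x => ?_, rfl, rfl, ?_, ho⟩, fun e he => ?_⟩
  · rw [Finset.mem_insert, Finset.mem_erase, Finset.mem_compl, hA]
    exact AMov2_p2 (AMov2_part hn x (hf x))
  · rw [hβ, ← mul_assoc, AMov2_wh_back, one_mul]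
  · exact Mv_back S (by rw [he, ho, AMov2_red])

theorem mov_back {s s' : St E} (hs : Ok S s) {a : L} {A : Finset (Option L)}
    (h : Mov S s a A s') : Mov S s' a (insert (some a) (Aᶜ.erase (some (bar a)))) s := by
  obtain ⟨m, n, hv, he⟩ := h
  obtain ⟨m', n', hv', hb⟩ := vmov_back S hs.1 hv
  exact ⟨m', n', hv', by rw [he, hb _ hs.2]⟩

theorem mov_T2 {s s1 s2 : St E} (hs : Ok S s) {a : L} {A B : Finset (Option L)}
    (h1 : Mov S s a A s1) (h2 : Mov S s a B s2) (hAB : A ⊆ B) :
    Mov S s1 a (insert (some a) (B \ A)) s2 := by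
  obtain ⟨m, n, ⟨X1, X2, Y1, Y2, ho, hA, rfl, rfl, hβ, ho1⟩, he⟩ := h1
  obtain ⟨m', n', ⟨X1', X2', Y1', Y2', ho', hB, rfl, rfl, hβ', ho2⟩, he'⟩ := h2
  obtain ⟨hn, hf⟩ := AMov2_good hs.1 ho
  obtain ⟨hn', hf'⟩ := AMov2_good hs.1 ho'
  have hp := fun x => AMov2_part hn x (hf x)
  have hp' := fun x => AMov2_part hn' x (hf' x)
  have e1 : X1 ++ X2 ++ some (bar a) :: (Y1 ++ Y2) = X1' ++ X2' ++ some (bar a) :: (Y1' ++ Y2') :=
    cyc_head_inj (a := some a) (by simpa using hn) (by simpa using ho.symm.trans ho')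
  obtain ⟨e2, e3⟩ := split_inj
    (by rw [List.mem_append]; exact AMov2_p3 (hp _) rfl)
    (by rw [List.mem_append]; exact AMov2_p3 (hp' _) rfl) e1
  obtain ⟨M, rfl, rfl⟩ : ∃ M, X1' = X1 ++ M ∧ X2 = M ++ X2' := by
    rcases List.append_eq_append_iff.1 e2 with h | ⟨M, h1, h2⟩
    · exact h
    · have hM : M = [] := by
        refine List.eq_nil_iff_forall_not_mem.2 fun x hx => ?_
        have h3 : x ∈ X1 := by rw [h1]; simp [hx]
        have h4 : x ∈ X2' := by rw [h2]; simp [hx]
        exact AMov2_p4 (hp' x) ((hB x).1 (hAB ((hA x).2 (Or.inr (Or.inl h3))))) (Or.inl h4)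
      subst hM
      exact ⟨[], by simpa using h1.symm, by simpa using h2.symm⟩
  obtain ⟨N, rfl, rfl⟩ : ∃ N, Y1 = Y1' ++ N ∧ Y2' = N ++ Y2 := by
    rcases List.append_eq_append_iff.1 e3 with ⟨N, h1, h2⟩ | h
    · have hN : N = [] := by
        refine List.eq_nil_iff_forall_not_mem.2 fun x hx => ?_
        have h3 : x ∈ Y2 := by rw [h2]; simp [hx]
        have h4 : x ∈ Y1' := by rw [h1]; simp [hx]
        exact AMov2_p4 (hp' x) ((hB x).1 (hAB ((hA x).2 (Or.inr (Or.inr h3))))) (Or.inr h4)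
      subst hN
      exact ⟨[], by simpa using h1.symm, by simpa using h2.symm⟩
    · exact h
  refine ⟨cnt N, cnt M, ⟨M, X2' ++ X1, Y2 ++ Y1', N, ?_, fun x => ?_, rfl, rfl, ?_, ?_⟩, ?_⟩
  · rw [ho1]; simp only [List.append_assoc, List.cons_append]
  · have h3 := hp x
    rw [Finset.mem_insert, Finset.mem_sdiff, hA, hB]
    simp only [List.mem_append] at h3 ⊢
    exact AMov2_p5 h3
  · rw [hβ', hβ, ← mul_assoc, AMov2_wh_T2 a hAB]
  · rw [ho2]; simp only [List.append_assoc, List.cons_append]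
  · rw [he', he, ← Equiv.Perm.mul_apply, Mv_add, AMov2_cnt, AMov2_cnt, add_comm (cnt X1)]

theorem adj_of_mov {s s' : St E} {a : L} {A : Finset (Option L)} (h : Mov S s a A s') :
    Adj S s s' := by
  exact ⟨a, A, 1, s', h, (sact_one S s').symm⟩

theorem adj_sact {s s' : St E} (h : Adj S s s') (π σ : W) :
    Adj S (sact S π s) (sact S σ s') := by
  obtain ⟨a, A, τ, s'', h, rfl⟩ := h
  refine ⟨_, _, σ * τ * π⁻¹, _, mov_sact S h π, ?_⟩
  rw [← sact_mul, ← sact_mul, inv_mul_cancel_right]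

theorem adj_refl_sact {s : St E} (hs : Ok S s) (π : W) : Adj S s (sact S π s) := by
  exact ⟨la 0, _, π, s, mov_triv S hs _, rfl⟩

theorem adj_symm {s s' : St E} (hs : Ok S s) (h : Adj S s s') : Adj S s' s := by
  obtain ⟨a, A, π, s'', h, rfl⟩ := h
  refine ⟨_, _, π⁻¹, _, mov_sact S (mov_back S hs h) π, ?_⟩
  rw [← sact_mul, inv_mul_cancel, sact_one]

theorem rch_symm {s s' : St E} (hs : Ok S s) (h : Rch S s s') : Rch S s' s := by
  induction h with
  | refl => exact Relation.ReflTransGen.refl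
  | tail h1 h2 ih => exact Relation.ReflTransGen.head (adj_symm S (Ok.rch S hs h1) h2) ih

/-- Moves depend only on the vertex, and are injective on the fibre. -/
theorem adj_lift {s s' t : St E} (h : Adj S s s') (ht : t.v = s.v) :
    ∃ t', Adj S t t' ∧ t'.v = s'.v ∧ (t' = s' → t = s) := by
  obtain ⟨a, A, π, s'', ⟨m, n, hv, he⟩, rfl⟩ := h
  refine ⟨sact S π ⟨s''.v, S.Mv a m n t.e⟩, ⟨a, A, π, _, ⟨m, n, ht ▸ hv, rfl⟩, rfl⟩, rfl,
    fun e => St.ext ht ?_⟩
  have h1 : S.rl π (S.Mv a m n t.e) = S.rl π s''.e := congrArg St.e e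
  rw [he] at h1
  exact (S.Mv a m n).injective ((S.rl π).injective h1)

/-- Precomposition with an automorphism preserves adjacency. -/
theorem adj_shift {s s' : St E} (h : Adj S s s') (γ : MulAut F) :
    Adj S ⟨⟨s.v.β * γ, s.v.o⟩, s.e⟩ ⟨⟨s'.v.β * γ, s'.v.o⟩, s'.e⟩ := by
  obtain ⟨a, A, π, s'', ⟨m, n, ⟨X1, X2, Y1, Y2, ho, hA, hm, hn, hβ, ho'⟩, he⟩, rfl⟩ := h
  refine ⟨a, A, π, ⟨⟨s''.v.β * γ, s''.v.o⟩, s''.e⟩,
    ⟨m, n, ⟨X1, X2, Y1, Y2, ho, hA, hm, hn, ?_, ho'⟩, he⟩, ?_⟩
  · show s''.v.β * γ = wh a A * (s.v.β * γ)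
    rw [hβ, mul_assoc]
  · simp only [sact, vact, mul_assoc]

theorem rch_shift {s s' : St E} (h : Rch S s s') (γ : MulAut F) :
    Rch S ⟨⟨s.v.β * γ, s.v.o⟩, s.e⟩ ⟨⟨s'.v.β * γ, s'.v.o⟩, s'.e⟩ := by
  induction h with
  | refl => exact Relation.ReflTransGen.refl
  | tail _ h2 ih => exact Relation.ReflTransGen.tail ih (adj_shift S h2 γ)

end Pool.Agent.MP_61a8e3_al.G4.A

end

section

set_option autoImplicit false

namespace Pool.Agent.MP_61a8e3_al.G4.A

theorem en_transport (β ω : MulAut F) (h : F) {A B : Finset (Option L)}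
    (H : ∀ g, fl g ∈ A ↔ fl (h * ω g) ∈ B) : en (ω * β) B = en β A := by
  refine Finset.sum_congr rfl fun i _ => ?_
  have e : cr (β (FreeGroup.of i)) A =
      (ω.toEquiv.trans (Equiv.mulLeft h)) ⁻¹' cr ((ω * β) (FreeGroup.of i)) B := by
    ext g
    show ¬ (fl g ∈ A ↔ fl (g * β (FreeGroup.of i)) ∈ A) ↔
      ¬ (fl (h * ω g) ∈ B ↔ fl (h * ω g * ω (β (FreeGroup.of i))) ∈ B)
    rw [H, H, map_mul, mul_assoc]
  rw [e, Set.ncard_preimage_of_injective_subset_range (Equiv.injective _)
    (by rw [Equiv.range_eq_univ]; exact Set.subset_univ _)]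

theorem en_compl (β : MulAut F) (A : Finset (Option L)) : en β Aᶜ = en β A := by
  refine Finset.sum_congr rfl fun i _ => ?_
  congr 1
  ext g
  simp only [cr, Set.mem_ofPred_eq, Finset.mem_compl, not_iff_not]

theorem en_bar (β : MulAut F) (a : L) : en β {some (bar a)} = en β {some a} := by
  rw [← en_compl, ← en_transport β 1 (el a) (B := {some a}), one_mul]
  intro g
  rw [Finset.mem_compl, Finset.mem_singleton, Finset.mem_singleton, MulAut.one_apply, fl_el_mul]

theorem en_submod (β : MulAut F) (A B : Finset (Option L)) :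
    en β (A ∩ B) + en β (A ∪ B) ≤ en β A + en β B := by
  unfold en
  rw [← Finset.sum_add_distrib, ← Finset.sum_add_distrib]
  refine Finset.sum_le_sum fun i _ => ?_
  rw [← Set.ncard_union_add_ncard_inter _ _ (cr_finite _ _) (cr_finite _ _),
    ← Set.ncard_union_add_ncard_inter _ _ (cr_finite _ A) (cr_finite _ B)]
  refine add_le_add (Set.ncard_le_ncard (fun g => ?_) ((cr_finite _ A).union (cr_finite _ B)))
    (Set.ncard_le_ncard (fun g => ?_) ((cr_finite _ A).inter_of_left _))
  · simp only [cr, Set.mem_union, Set.mem_ofPred_eq, Finset.mem_inter, Finset.mem_union]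
    tauto
  · simp only [cr, Set.mem_inter_iff, Set.mem_ofPred_eq, Finset.mem_inter, Finset.mem_union]
    tauto

theorem en_pos (β : MulAut F) {A : Finset (Option L)} {x y : Option L} (hx : x ∈ A)
    (hy : y ∉ A) : 0 < en β A := by
  by_contra hn
  have h0 : en β A = 0 := by omega
  have h1 : ∀ i g, fl g ∈ A ↔ fl (g * β (FreeGroup.of i)) ∈ A := fun i g => by
    have := (Set.ncard_eq_zero (cr_finite _ _)).1
      (Finset.sum_eq_zero_iff.1 h0 i (Finset.mem_univ i))
    by_contra h
    exact Set.notMem_empty g (this ▸ h)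
  have h2 : ∀ u g, fl g ∈ A ↔ fl (g * β u) ∈ A := fun u => by
    induction u using FreeGroup.induction_on with
    | C1 => intro g; rw [map_one, mul_one]
    | of i => exact h1 i
    | inv_of i ih =>
      intro g
      rw [ih (g * β (FreeGroup.of i)⁻¹), map_inv, inv_mul_cancel_right]
    | mul u v ihu ihv =>
      intro g
      rw [ihu g, ihv, map_mul, mul_assoc]
  obtain ⟨g, rfl⟩ := exists_fl x
  obtain ⟨k, rfl⟩ := exists_fl y
  have h3 := (h2 (β.symm (g⁻¹ * k)) g).1 hx
  rw [MulEquiv.apply_symm_apply, mul_inv_cancel_left] at h3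
  exact hy h3

theorem en_wh_self (β : MulAut F) {a : L} {A : Finset (Option L)} (ha : some a ∈ A)
    (hb : some (bar a) ∉ A) : en (wh a A * β) {some a} = en β A := by
  refine en_transport β _ (el a ^ ind A none) fun g => ?_
  obtain ⟨h1, h2, h3⟩ := fl_wh ha hb g
  rw [Finset.mem_singleton]
  refine ⟨h1, fun e => ?_⟩
  by_contra hn
  by_cases h : fl g = some (bar a)
  · rcases h3 h with h4 | h4
    · exact bar_ne a (Option.some.inj (h4.symm.trans e))
    · exact h4.2 e
  · exact hn ((h2 hn h).symm.trans e ▸ ha)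

theorem en_wh_out (β : MulAut F) {a : L} {A J : Finset (Option L)} (ha : some a ∈ A)
    (hb : some (bar a) ∉ A) (hJ : Disjoint J A) (hJ' : some (bar a) ∉ J) :
    en (wh a A * β) J = en β J := by
  refine en_transport β _ (el a ^ ind A none) fun g => ?_
  obtain ⟨h1, h2, h3⟩ := fl_wh ha hb g
  have hd : ∀ x ∈ A, x ∉ J := fun x hx => Finset.disjoint_right.1 hJ hx
  by_cases hA : fl g ∈ A
  · exact iff_of_false (hd _ hA) (h1 hA ▸ hd _ ha)
  · by_cases h : fl g = some (bar a)
    · refine iff_of_false (h ▸ hJ') ?_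
      rcases h3 h with h4 | h4
      · exact h4 ▸ hJ'
      · exact hd _ h4.1
    · rw [h2 hA h]

theorem en_wh_in (β : MulAut F) {a : L} {A J : Finset (Option L)} (ha : some a ∈ A)
    (hb : some (bar a) ∉ A) (hJ : J ⊆ A) (hJ' : some a ∉ J) :
    en (wh a A * β) J = en β J := by
  rw [← wh_compl]
  refine en_wh_out β (Finset.mem_compl.2 hb) ?_
    (Finset.disjoint_left.2 fun x hx h => Finset.mem_compl.1 h (hJ hx)) ?_
  · rw [bar_bar]
    exact fun h => Finset.mem_compl.1 h ha
  · rwa [bar_bar]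

theorem en_wh_letter (β : MulAut F) {a l : L} {A : Finset (Option L)} (ha : some a ∈ A)
    (hb : some (bar a) ∉ A) (hl : l.1 ≠ a.1) : en (wh a A * β) {some l} = en β {some l} := by
  by_cases h : some l ∈ A
  · refine en_wh_in β ha hb (Finset.singleton_subset_iff.2 h) fun e => hl ?_
    rw [← Option.some.inj (Finset.mem_singleton.1 e)]
  · refine en_wh_out β ha hb (Finset.disjoint_singleton_left.2 h) fun e => hl ?_
    rw [← Option.some.inj (Finset.mem_singleton.1 e), bar_fst]

theorem AEn_split (β : MulAut F) (a : L) : En β = 2 * en β {some a} +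
    ∑ l ∈ Finset.univ.filter (fun l : L => l.1 ≠ a.1), en β {some l} := by
  have e : Finset.univ.filter (fun l : L => l.1 = a.1) = {bar a, a} := by
    ext l
    simp only [Finset.mem_filter, Finset.mem_univ, true_and, Finset.mem_insert,
      Finset.mem_singleton]
    refine ⟨fun h => (eq_or_bar h).symm, ?_⟩
    rintro (rfl | rfl) <;> rfl
  rw [En, ← Finset.sum_filter_add_sum_filter_not _ (fun l : L => l.1 = a.1), e,
    Finset.sum_pair (bar_ne a), en_bar, two_mul]

theorem En_wh (β : MulAut F) {a : L} {A : Finset (Option L)} (ha : some a ∈ A)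
    (hb : some (bar a) ∉ A) :
    En (wh a A * β) + 2 * en β {some a} = En β + 2 * en β A := by
  rw [AEn_split _ a, AEn_split β a, en_wh_self β ha hb,
    Finset.sum_congr rfl fun l hl => en_wh_letter β ha hb (Finset.mem_filter.1 hl).2]
  omega

theorem en_relA (β : MulAut F) (π : W) (A : Finset (Option L)) :
    en (relA π * β) (aact π A) = en β A := by
  refine en_transport β _ 1 fun g => ?_
  rw [one_mul, fl_relA, mem_aact]

theorem En_relA (β : MulAut F) (π : W) : En (relA π * β) = En β := by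
  unfold En
  rw [← Equiv.sum_comp π.1]
  refine Finset.sum_congr rfl fun l _ => ?_
  rw [← en_relA β π {some l}, aact, Finset.image_singleton]
  rfl

theorem AEn_cr {A : Finset (Option L)} (h : none ∉ A) (l : L) : (cr (el l) A).ncard =
    (if some l ∈ A then 1 else 0) + if some (bar l) ∈ A then 1 else 0 := by
  have h1 : (1 : F) ∈ cr (el l) A ↔ some l ∈ A := by
    simp only [cr, Set.mem_ofPred_eq, one_mul, fl_one, fl_el, h, false_iff, not_not]
  have h2 : el (bar l) ∈ cr (el l) A ↔ some (bar l) ∈ A := by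
    have e : el (bar l) * el l = 1 := by rw [el_bar, inv_mul_cancel]
    simp only [cr, Set.mem_ofPred_eq, e, fl_one, fl_el, h, iff_false, not_not]
  have h3 : ∀ g ∈ cr (el l) A, g = 1 ∨ g = el (bar l) := fun g hg => by
    rw [el_bar]; exact Sw_el (cr_subset _ _ hg)
  have h4 : (1 : F) ≠ el (bar l) := fun e => by
    have := fl_el (bar l)
    rw [← e, fl_one] at this
    cases this
  split_ifs with a b b
  · refine Eq.trans ?_ (Set.ncard_pair h4)
    congr 1
    refine Set.Subset.antisymm h3 ?_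
    rintro g (rfl | rfl)
    exacts [h1.2 a, h2.2 b]
  · refine Set.ncard_eq_one.2 ⟨1, Set.eq_singleton_iff_unique_mem.2 ⟨h1.2 a, fun g hg => ?_⟩⟩
    exact (h3 g hg).resolve_right fun e => b (h2.1 (e ▸ hg))
  · refine Set.ncard_eq_one.2 ⟨_, Set.eq_singleton_iff_unique_mem.2 ⟨h2.2 b, fun g hg => ?_⟩⟩
    exact (h3 g hg).resolve_left fun e => a (h1.1 (e ▸ hg))
  · rw [Set.eq_empty_of_forall_notMem fun g hg =>
      (h3 g hg).elim (fun e => a (h1.1 (e ▸ hg))) fun e => b (h2.1 (e ▸ hg)), Set.ncard_empty]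

/-- At the identity the energy counts letters. -/
theorem en_one {A : Finset (Option L)} (h : none ∉ A) : en 1 A = A.card := by
  have e : A.card = ∑ x : Option L, if x ∈ A then 1 else 0 := by
    rw [← Finset.card_filter, Finset.filter_mem_eq_inter, Finset.univ_inter]
  rw [e, Fintype.sum_option, if_neg h, zero_add, Fintype.sum_prod_type]
  refine Finset.sum_congr rfl fun i _ => ?_
  rw [Fintype.sum_bool]
  exact AEn_cr h (i, true)

end Pool.Agent.MP_61a8e3_al.G4.A

end

section

set_option autoImplicit false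

namespace Pool.Agent.MP_61a8e3_al.G4.A

theorem ADesc1_fl_inv {g : F} {l : L} (h : some l ≠ fl g⁻¹) :
    fl (g * el l)⁻¹ = some (bar l) := by
  rw [mul_inv_rev, ← el_bar, fl_el_mul, bar_bar]
  exact h.symm

theorem ADesc1_norm_el (l : L) : (el l).norm = 1 := by
  have h : fl (1 : F) ≠ some (bar l) := by rw [fl_one]; simp
  have := toWord_el_mul h
  rw [mul_one] at this
  unfold FreeGroup.norm
  rw [this]; simp

theorem ADesc1_norm {g : F} {l : L} (h : some l ≠ fl g⁻¹) :
    (g * el l).norm = g.norm + 1 := by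
  rw [norm_mul_of_ne (by rw [fl_el]; exact h), ADesc1_norm_el]

theorem ADesc1_split {g : F} {l : L} (h : fl g = some l) :
    ∃ g', g = el l * g' ∧ fl g' ≠ some (bar l) := by
  refine ⟨(el l)⁻¹ * g, by group, ?_⟩
  rw [← fl_el_mul]
  have : el l * ((el l)⁻¹ * g) = g := by group
  rw [this, h]

theorem ADesc1_bound (κ : F → Prop) (k : F) : ∀ g : F, fl k ≠ fl g⁻¹ → ¬ (κ (g * k) ↔ κ g) →
    ∃ (h : F) (l : L), ¬ (κ h ↔ κ (h * el l)) ∧ g.norm ≤ h.norm := by
  induction k using fl_induction with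
  | h1 => intro g _ h; simp at h
  | hs l k hk ih =>
    intro g hg h
    have h1 : fl (el l * k) = some l := (fl_el_mul l k).2 hk
    rw [h1] at hg
    by_cases h2 : κ g ↔ κ (g * el l)
    · obtain ⟨h', m, h3, h4⟩ := ih (g * el l) (by rw [ADesc1_fl_inv hg]; exact hk) (by
        rw [mul_assoc, ← h2]; exact h)
      refine ⟨h', m, h3, ?_⟩
      rw [ADesc1_norm hg] at h4
      omega
    · exact ⟨g, l, h2, le_rfl⟩

theorem ADesc1_one (κ : F → Prop) (hfin : ∀ l : L, {g : F | ¬ (κ g ↔ κ (g * el l))}.Finite)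
    (l0 : L) (hnm : ∃ g k, fl g = some l0 ∧ fl k = some l0 ∧ ¬ (κ g ↔ κ k)) :
    ∃ (z : F) (c : L), (∀ k, fl k ≠ some c → fl (z * k) = some l0) ∧
      (∀ g k, fl g = fl k → fl g ≠ some c → (κ (z * g) ↔ κ (z * k))) ∧
      (∃ k, fl k ≠ some c ∧ ¬ (κ (z * k) ↔ κ z)) := by
  classical
  let N : Set F := {g | fl g = some l0 ∧ ∃ k, fl k ≠ fl g⁻¹ ∧ ¬ (κ (g * k) ↔ κ g)}
  have hne : el l0 ∈ N := by
    obtain ⟨g, k, hg, hk, h⟩ := hnm
    obtain ⟨g', rfl, hg'⟩ := ADesc1_split hg
    obtain ⟨k', rfl, hk'⟩ := ADesc1_split hk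
    refine ⟨fl_el l0, ?_⟩
    rw [← el_bar, fl_el]
    by_cases h1 : κ (el l0 * g') ↔ κ (el l0)
    · exact ⟨k', hk', fun h2 => h (h1.trans h2.symm)⟩
    · exact ⟨g', hg', h1⟩
  have hB : (⋃ l : L, {g : F | ¬ (κ g ↔ κ (g * el l))}).Finite := Set.finite_iUnion hfin
  obtain ⟨M, hM⟩ := (hB.image FreeGroup.norm).bddAbove
  have hbdd : BddAbove (FreeGroup.norm '' N) := by
    refine ⟨M, ?_⟩
    rintro _ ⟨g, ⟨_, k, hk, h⟩, rfl⟩
    obtain ⟨h', l, h1, h2⟩ := ADesc1_bound κ k g hk h
    exact h2.trans (hM ⟨h', Set.mem_iUnion.2 ⟨l, h1⟩, rfl⟩)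
  obtain ⟨z, hz, hzn⟩ := Nat.sSup_mem (s := FreeGroup.norm '' N) ⟨_, el l0, hne, rfl⟩ hbdd
  have hmax : ∀ g ∈ N, g.norm ≤ z.norm := fun g hg => by
    rw [hzn]; exact le_csSup hbdd ⟨g, hg, rfl⟩
  obtain ⟨hz0, hzk⟩ := hz
  have hz1 : z ≠ 1 := by
    rintro rfl
    rw [fl_one] at hz0
    simp at hz0
  obtain ⟨c, hc⟩ : ∃ c, fl z⁻¹ = some c := by
    rcases h : fl z⁻¹ with _ | c
    · exact absurd (inv_eq_one.1 (fl_eq_none.1 h)) hz1
    · exact ⟨c, rfl⟩
  refine ⟨z, c, fun k hk => ?_, fun g k hgk hg => ?_, ?_⟩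
  · rw [fl_mul_of_ne hz1 (by rw [hc]; exact hk), hz0]
  · rcases hm : fl g with _ | m
    · rw [fl_eq_none.1 hm, fl_eq_none.1 (hgk ▸ hm : fl k = none)]
    · have hm' : fl k = some m := hgk ▸ hm
      have hmc : some m ≠ fl z⁻¹ := by rw [hc, ← hm]; exact hg
      have hnot : z * el m ∉ N := fun h => by
        have := hmax _ h
        rw [ADesc1_norm hmc] at this
        omega
      have hmono : ∀ k', fl k' ≠ some (bar m) → (κ (z * (el m * k')) ↔ κ (z * el m)) := by
        intro k' hk'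
        by_contra h
        refine hnot ⟨?_, k', ?_, ?_⟩
        · rw [fl_mul_of_ne hz1 (by rw [fl_el]; exact hmc), hz0]
        · rw [ADesc1_fl_inv hmc]; exact hk'
        · rw [mul_assoc]; exact h
      obtain ⟨g', rfl, hg'⟩ := ADesc1_split hm
      obtain ⟨k', rfl, hk'⟩ := ADesc1_split hm'
      exact (hmono g' hg').trans (hmono k' hk').symm
  · rw [← hc]; exact hzk

/-- In a half-tree that is not monochromatic there is an extreme vertex. -/
theorem extreme (κ : F → Prop) (hfin : ∀ l : L, {g : F | ¬ (κ g ↔ κ (g * el l))}.Finite)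
    (v : F) (l0 : L)
    (hnm : ∃ g k, fl g = some l0 ∧ fl k = some l0 ∧ ¬ (κ (v * g) ↔ κ (v * k))) :
    ∃ (z : F) (c : L), (∀ k, fl k ≠ some c → fl (v⁻¹ * (z * k)) = some l0) ∧
      (∀ g k, fl g = fl k → fl g ≠ some c → (κ (z * g) ↔ κ (z * k))) ∧
      (∃ k, fl k ≠ some c ∧ ¬ (κ (z * k) ↔ κ z)) := by
  obtain ⟨z, c, h1, h2, h3⟩ := ADesc1_one (fun g => κ (v * g)) (fun l => by
    refine Set.Finite.subset ((hfin l).preimage (f := fun g => v * g)
      (mul_right_injective v).injOn) ?_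
    intro g hg
    simpa [mul_assoc] using hg) l0 hnm
  refine ⟨v * z, c, fun k hk => ?_, fun g k hgk hg => ?_, ?_⟩
  · have : v⁻¹ * (v * z * k) = z * k := by group
    rw [this]; exact h1 k hk
  · simpa [mul_assoc] using h2 g k hgk hg
  · simpa [mul_assoc] using h3

/-- Parity of the number of crossings. -/
noncomputable def ADesc1_par (j : X) (u : F) : ZMod 2 :=
  ((cr u {some (j, true)}).ncard : ZMod 2)

theorem ADesc1_symm {s t : Set F} (hs : s.Finite) (ht : t.Finite) :
    (((symmDiff s t).ncard : ℕ) : ZMod 2) = s.ncard + t.ncard := by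
  have h1 := Set.ncard_inter_add_ncard_sdiff_eq_ncard s t hs
  have h2 := Set.ncard_inter_add_ncard_sdiff_eq_ncard t s ht
  have h3 : (symmDiff s t).ncard = (s \ t).ncard + (t \ s).ncard := by
    rw [symmDiff_def]
    exact Set.ncard_union_eq disjoint_sdiff_sdiff hs.sdiff ht.sdiff
  rw [Set.inter_comm] at h2
  rw [h3, ← h1, ← h2]
  push_cast
  have h4 : ∀ x : ZMod 2, x + x = 0 := by decide
  linear_combination (-1 : ZMod 2) * h4 ((s ∩ t).ncard : ZMod 2)

theorem ADesc1_par_mul (j : X) (u w : F) :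
    ADesc1_par j (u * w) = ADesc1_par j u + ADesc1_par j w := by
  unfold ADesc1_par
  have h1 : cr (u * w) {some (j, true)} =
      symmDiff (cr u {some (j, true)}) ((fun g => g * u⁻¹) '' cr w {some (j, true)}) := by
    ext g
    have h2 : g ∈ (fun g => g * u⁻¹) '' cr w {some (j, true)} ↔
        g * u ∈ cr w {some (j, true)} := by
      constructor
      · rintro ⟨x, hx, rfl⟩
        simpa using hx
      · intro h
        exact ⟨g * u, h, by simp⟩
    rw [Set.mem_symmDiff, h2]
    simp only [cr, Set.mem_ofPred_eq, ← mul_assoc]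
    tauto
  rw [h1, ADesc1_symm (cr_finite _ _) ((cr_finite _ _).image _),
    Set.ncard_image_of_injective _ (mul_left_injective u⁻¹)]

theorem ADesc1_par_one (j : X) : ADesc1_par j 1 = 0 := by
  have := ADesc1_par_mul j 1 1
  rw [mul_one] at this
  exact left_eq_add.1 this

theorem ADesc1_par_inv (j : X) (u : F) : ADesc1_par j u⁻¹ = ADesc1_par j u := by
  have := ADesc1_par_mul j u u⁻¹
  rw [mul_inv_cancel, ADesc1_par_one] at this
  revert this
  generalize ADesc1_par j u = x
  generalize ADesc1_par j u⁻¹ = y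
  revert x y
  decide

theorem ADesc1_par_true (j i : X) : ADesc1_par j (el (i, true)) = if i = j then 1 else 0 := by
  unfold ADesc1_par
  have hinv : fl (el (i, true))⁻¹ = some (i, false) := by
    rw [← el_bar, fl_el]; rfl
  split_ifs with h
  · subst h
    have : cr (el (i, true)) {some (i, true)} = {1} := by
      ext g
      constructor
      · intro hg
        rcases Sw_el (cr_subset _ _ hg) with rfl | rfl
        · rfl
        · exfalso
          apply hg
          rw [inv_mul_cancel, fl_one, hinv]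
          simp
      · rintro rfl
        show ¬ _
        rw [one_mul, fl_one, fl_el]
        simp
    rw [this]; simp
  · have : cr (el (i, true)) {some (j, true)} = ∅ := by
      ext g
      constructor
      · intro hg
        rcases Sw_el (cr_subset _ _ hg) with rfl | rfl
        · exfalso
          apply hg
          rw [one_mul, fl_one, fl_el]
          simp [h]
        · exfalso
          apply hg
          rw [inv_mul_cancel, fl_one, hinv]
          simp
      · intro h; exact h.elim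
    rw [this]; simp

theorem ADesc1_par_el (j : X) (l : L) : ADesc1_par j (el l) = if l.1 = j then 1 else 0 := by
  rcases l with ⟨i, b⟩
  cases b
  · have h1 : el (i, false) = (el (i, true))⁻¹ := el_bar (i, true)
    rw [h1, ADesc1_par_inv, ADesc1_par_true]
  · exact ADesc1_par_true j i

theorem ADesc1_expand (β : MulAut F) (i : X) (w : F) :
    ADesc1_par i (β w) = ∑ j : X, ADesc1_par j w * ADesc1_par i (β (el (j, true))) := by
  induction w using fl_induction with
  | h1 => simp [ADesc1_par_one]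
  | hs l g _ ih =>
    rw [map_mul, ADesc1_par_mul, ih]
    simp only [ADesc1_par_mul, add_mul, Finset.sum_add_distrib, ADesc1_par_el, ite_mul, one_mul,
      zero_mul, Finset.sum_ite_eq, Finset.mem_univ, if_true]
    congr 1
    rcases l with ⟨j, b⟩
    cases b
    · have h1 : el (j, false) = (el (j, true))⁻¹ := el_bar (j, true)
      rw [h1, map_inv, ADesc1_par_inv]
    · rfl

/-- Every letter crosses some wall of the other basis an odd number of times. -/
theorem exists_odd (β : MulAut F) (a : L) :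
    ∃ j : X, Odd (cr (β⁻¹ (el a)) {some (j, true)}).ncard := by
  by_contra h
  have h0 : ∀ j, ADesc1_par j (β⁻¹ (el a)) = 0 := fun j => by
    have h1 : Even (cr (β⁻¹ (el a)) {some (j, true)}).ncard :=
      Nat.not_odd_iff_even.1 (fun h2 => h ⟨j, h2⟩)
    exact (ZMod.natCast_eq_zero_iff_even).2 h1
  have h1 := ADesc1_expand β a.1 (β⁻¹ (el a))
  rw [MulAut.apply_inv_self, ADesc1_par_el] at h1
  simp only [h0, zero_mul, Finset.sum_const_zero, if_true] at h1
  exact one_ne_zero h1

end Pool.Agent.MP_61a8e3_al.G4.A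

end

section

set_option autoImplicit false

namespace Pool.Agent.MP_61a8e3_al.G4.A

/-- The colouring by the wall of the generator `j` of the basis `β`. -/
def ADesc2_k (β : MulAut F) (j : X) (g : F) : Prop := fl (β⁻¹ g) = some (j, true)

theorem ADesc2_cr (β : MulAut F) (j : X) (u g : F) :
    ¬ (ADesc2_k β j g ↔ ADesc2_k β j (g * u)) ↔ β⁻¹ g ∈ cr (β⁻¹ u) {some (j, true)} := by
  simp only [ADesc2_k, cr, Set.mem_ofPred_eq, Finset.mem_singleton, map_mul]

theorem ADesc2_K1 (β : MulAut F) (j i : X) (g : F)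
    (h : ¬ (ADesc2_k β j g ↔ ADesc2_k β j (g * β (FreeGroup.of i)))) : i = j ∧ g = 1 := by
  rw [ADesc2_cr, MulAut.inv_apply_self, ← el_true] at h
  rcases Sw_el (cr_subset _ _ h) with h1 | h1
  · refine ⟨?_, by simpa using h1⟩
    rw [h1] at h
    simp only [cr, Set.mem_ofPred_eq, Finset.mem_singleton, one_mul, fl_one, fl_el] at h
    simpa using h
  · exfalso
    rw [h1] at h
    simp only [cr, Set.mem_ofPred_eq, Finset.mem_singleton, inv_mul_cancel, fl_one] at h
    rw [← el_bar, fl_el] at h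
    simp [bar] at h

theorem ADesc2_K2 (β : MulAut F) (j : X) : ∃ h1 h2 : F, ∀ g,
    ¬ (ADesc2_k β j g ↔ ADesc2_k β j (g * β r3)) → g = h1 ∨ g = h2 := by
  obtain ⟨h1, h2, h⟩ := cr_r3 j
  refine ⟨β h1, β h2, fun g hg => ?_⟩
  rw [ADesc2_cr, MulAut.inv_apply_self] at hg
  rcases h _ hg with e | e
  · left; rw [← e, MulAut.apply_inv_self]
  · right; rw [← e, MulAut.apply_inv_self]

theorem ADesc2_image (β : MulAut F) (j : X) (u : F) :
    {g : F | ¬ (ADesc2_k β j g ↔ ADesc2_k β j (g * u))} =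
      β '' cr (β⁻¹ u) {some (j, true)} := by
  ext g
  rw [Set.mem_ofPred_eq, ADesc2_cr]
  constructor
  · exact fun h => ⟨_, h, MulAut.apply_inv_self _ _ _⟩
  · rintro ⟨k, hk, rfl⟩
    rwa [MulAut.inv_apply_self]

theorem ADesc2_change {α : Type} (P : α → Prop) {Q : List α} {x y : α} (hx : x ∈ Q) (hy : y ∈ Q)
    (h : ¬ (P x ↔ P y)) : ∃ U p q V, Q = U ++ p :: q :: V ∧ ¬ (P p ↔ P q) := by
  by_contra hc
  have key : ∀ (Q : List α) (a : α), (¬ ∃ U p q V, a :: Q = U ++ p :: q :: V ∧ ¬ (P p ↔ P q)) →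
      ∀ z ∈ a :: Q, (P z ↔ P a) := by
    intro Q
    induction Q with
    | nil => intro a _ z hz; rw [List.mem_singleton.1 hz]
    | cons b Q ih =>
      intro a hn z hz
      rcases List.mem_cons.1 hz with rfl | hz
      · rfl
      · have h1 : P a ↔ P b := by
          by_contra h1
          exact hn ⟨[], a, b, Q, rfl, h1⟩
        rw [h1]
        refine ih b ?_ z hz
        rintro ⟨U, p, q, V, e, h2⟩
        exact hn ⟨a :: U, p, q, V, by rw [e]; rfl, h2⟩
  rcases Q with _ | ⟨a, Q⟩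
  · simp at hx
  · exact h ((key Q a hc x hx).trans (key Q a hc y hy).symm)

theorem ADesc2_odd {a : L} {A : Finset (Option L)} (h : Odd (cr (el a) A).ncard) :
    ¬ (some a ∈ A ↔ some (bar a) ∈ A) := by
  intro hi
  have h1 : (1 : F) ∈ cr (el a) A ↔ ¬ (none ∈ A ↔ some a ∈ A) := by
    simp only [cr, Set.mem_ofPred_eq, one_mul, fl_one, fl_el]
  have h2 : (el a)⁻¹ ∈ cr (el a) A ↔ ¬ (none ∈ A ↔ some a ∈ A) := by
    simp only [cr, Set.mem_ofPred_eq, inv_mul_cancel, fl_one]
    rw [← el_bar, fl_el, ← hi]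
    tauto
  have hne : (1 : F) ≠ (el a)⁻¹ := fun e => by
    have := congrArg fl e
    rw [← el_bar, fl_el, fl_one] at this
    simp at this
  by_cases hc : none ∈ A ↔ some a ∈ A
  · have e : cr (el a) A = ∅ := by
      refine Set.eq_empty_of_forall_notMem fun g hg => ?_
      rcases Sw_el (cr_subset _ _ hg) with rfl | rfl
      · exact h1.1 hg hc
      · exact h2.1 hg hc
    rw [e] at h
    simp at h
  · have e : cr (el a) A = {1, (el a)⁻¹} := by
      ext g
      constructor
      · exact fun hg => Sw_el (cr_subset _ _ hg)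
      · rintro (rfl | rfl)
        · exact h1.2 hc
        · exact h2.2 hc
    rw [e, Set.ncard_pair hne] at h
    exact absurd h (by decide)

theorem ADesc2_caseA {v : Vx} (hg : Good v) {a : L} (ha : 2 ≤ en v.β {some a}) {j : X}
    (hj : Odd (cr (v.β⁻¹ (el a)) {some (j, true)}).ncard) {z : F}
    (hz : ∀ g k, fl g = fl k → (ADesc2_k v.β j (z * g) ↔ ADesc2_k v.β j (z * k))) :
    ∃ (c : L) (A : Finset (Option L)), IsCut v.o A ∧ some c ∈ A ∧ some (bar c) ∉ A ∧
      en v.β A < en v.β {some c} := by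
  classical
  obtain ⟨G, hG, hGw⟩ := hg.wit
  obtain ⟨h1, h2, hK2⟩ := ADesc2_K2 v.β j
  set A : Finset (Option L) :=
    Finset.univ.filter fun x => ∃ g, fl g = x ∧ ADesc2_k v.β j (z * g) with hAdef
  have hA : ∀ g, fl g ∈ A ↔ ADesc2_k v.β j (z * g) := fun g => by
    simp only [hAdef, Finset.mem_filter, Finset.mem_univ, true_and]
    exact ⟨fun ⟨k, hk, h⟩ => (hz k g hk).1 h, fun h => ⟨g, rfl, h⟩⟩
  have hcr : ∀ u g, g ∈ cr u A ↔
      ¬ (ADesc2_k v.β j (z * g) ↔ ADesc2_k v.β j (z * g * u)) := fun u g => by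
    simp only [cr, Set.mem_ofPred_eq, hA, mul_assoc]
  have hen : en v.β A ≤ 1 := by
    have h : ∀ i, (cr (v.β (FreeGroup.of i)) A).ncard ≤ if i = j then 1 else 0 := fun i => by
      split_ifs with hi
      · rw [Set.ncard_le_one (cr_finite _ _)]
        intro g hg k hk
        have e1 := (ADesc2_K1 _ _ _ _ ((hcr _ _).1 hg)).2
        have e2 := (ADesc2_K1 _ _ _ _ ((hcr _ _).1 hk)).2
        exact mul_left_cancel (e1.trans e2.symm)
      · have e : cr (v.β (FreeGroup.of i)) A = ∅ :=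
          Set.eq_empty_of_forall_notMem fun g hg => hi (ADesc2_K1 _ _ _ _ ((hcr _ _).1 hg)).1
        rw [e, Set.ncard_empty]
    refine (Finset.sum_le_sum fun i _ => h i).trans ?_
    simp
  have hcut : IsCut v.o A := by
    have key : ∀ p q, Nx v.o p q → ¬ (p ∈ A ↔ q ∈ A) → z * G q = h1 ∨ z * G q = h2 :=
      fun p q hn hc => by
        refine hK2 _ fun h => hc ?_
        rw [← hGw p q hn, hA, ← mul_assoc, ← h, ← hA, hG]
    have inj : ∀ q q', z * G q = z * G q' → q = q' := fun q q' h => by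
      rw [← hG q, mul_left_cancel h, hG]
    refine cut_of_two hg.1 (fun x _ => hg.2.1 x) fun p q p' q' p'' q'' n1 c1 n2 c2 n3 c3 => ?_
    rcases key _ _ n1 c1 with e1 | e1 <;> rcases key _ _ n2 c2 with e2 | e2 <;>
      rcases key _ _ n3 c3 with e3 | e3
    all_goals first
      | exact Or.inl (inj _ _ (e1.trans e2.symm))
      | exact Or.inr (Or.inl (inj _ _ (e1.trans e3.symm)))
      | exact Or.inr (Or.inr (inj _ _ (e2.trans e3.symm)))
  have hodd : Odd (cr (el a) A).ncard := by
    have e : (fun g => z * g) '' cr (el a) A = v.β '' cr (v.β⁻¹ (el a)) {some (j, true)} := by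
      rw [← ADesc2_image]
      ext g
      constructor
      · rintro ⟨k, hk, rfl⟩
        exact (hcr _ _).1 hk
      · intro h
        refine ⟨z⁻¹ * g, (hcr _ _).2 ?_, mul_inv_cancel_left z g⟩
        rwa [mul_inv_cancel_left]
    rw [← Set.ncard_image_of_injective _ (mul_right_injective z), e,
      Set.ncard_image_of_injective _ v.β.injective]
    exact hj
  have h3 := ADesc2_odd hodd
  by_cases h4 : some a ∈ A
  · exact ⟨a, A, hcut, h4, fun h => h3 (iff_of_true h4 h), by omega⟩
  · refine ⟨bar a, A, hcut, ?_, by rwa [bar_bar], by rw [en_bar]; omega⟩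
    by_contra h
    exact h3 (iff_of_false h4 h)

/-- The colour of a direction at the vertex `z`. -/
def ADesc2_col (κ : F → Prop) (z : F) (x : Option L) : Prop := ∃ g, fl g = x ∧ κ (z * g)

theorem ADesc2_col_iff {κ : F → Prop} {z : F} {c : L}
    (h : ∀ g k, fl g = fl k → fl g ≠ some c → (κ (z * g) ↔ κ (z * k))) {g : F}
    (hg : fl g ≠ some c) : ADesc2_col κ z (fl g) ↔ κ (z * g) :=
  ⟨fun ⟨k, hk, h'⟩ => (h g k hk.symm hg).2 h', fun h' => ⟨g, rfl, h'⟩⟩

theorem ADesc2_head {v : Vx} (hg : Good v) (c : L) :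
    ∃ Q : List (Option L), v.o = ↑(some c :: Q) ∧ Q.Nodup ∧ ∀ x, x ∈ Q ↔ x ≠ some c := by
  obtain ⟨Q, hQ⟩ := exists_head (hg.2.1 (some c))
  have hn := hg.1
  rw [hQ, Cycle.nodup_coe_iff, List.nodup_cons] at hn
  refine ⟨Q, hQ, hn.2, fun x => ⟨fun hx e => hn.1 (e ▸ hx), fun hx => ?_⟩⟩
  have := hg.2.1 x
  rw [hQ, Cycle.mem_coe_iff, List.mem_cons] at this
  exact this.resolve_left hx

theorem ADesc2_step {κ : F → Prop} {z w : F} {c : L} {o : Cycle (Option L)} {G : Option L → F}
    (hG : ∀ q, fl (G q) = q) (hGw : ∀ p q, Nx o p q → fl (G q * w) = p)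
    (h : ∀ g k, fl g = fl k → fl g ≠ some c → (κ (z * g) ↔ κ (z * k)))
    {Q U V : List (Option L)} {p q : Option L} (ho : o = ↑(some c :: Q))
    (hQ : ∀ x, x ∈ Q ↔ x ≠ some c) (e : Q = U ++ p :: q :: V)
    (hc : ¬ (ADesc2_col κ z p ↔ ADesc2_col κ z q)) :
    q ≠ some c ∧ ¬ (κ (z * G q) ↔ κ (z * G q * w)) := by
  have hp : p ≠ some c := (hQ p).1 (by simp [e])
  have hq : q ≠ some c := (hQ q).1 (by simp [e])
  have hn : Nx o p q := Nx_of_mid (some c :: U) V (by rw [ho, e]; rfl)
  refine ⟨hq, fun hi => hc ?_⟩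
  have h1 := hGw p q hn
  have h2 := ADesc2_col_iff h (g := G q * w) (by rwa [h1])
  have h3 := ADesc2_col_iff h (g := G q) (by rwa [hG])
  rw [h1] at h2
  rw [hG] at h3
  rw [h2, h3, hi, mul_assoc]

theorem ADesc2_two {κ : F → Prop} {z : F} {c : L}
    (h : ∀ g k, fl g = fl k → fl g ≠ some c → (κ (z * g) ↔ κ (z * k)))
    (h' : ∃ k, fl k ≠ some c ∧ ¬ (κ (z * k) ↔ κ z)) :
    ∃ x y, x ≠ some c ∧ y ≠ some c ∧ ¬ (ADesc2_col κ z x ↔ ADesc2_col κ z y) := by
  obtain ⟨k, hk, hk'⟩ := h'
  have h1 : fl 1 ≠ some c := by simp [fl_one]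
  refine ⟨fl k, fl 1, hk, h1, ?_⟩
  rwa [ADesc2_col_iff h hk, ADesc2_col_iff h h1, mul_one]

theorem ADesc2_bad {κ : F → Prop} {z : F}
    (h : ¬ ∀ g k, fl g = fl k → (κ (z * g) ↔ κ (z * k))) :
    ∃ l : L, ∃ g k, fl g = some l ∧ fl k = some l ∧ ¬ (κ (z * g) ↔ κ (z * k)) := by
  push Not at h
  obtain ⟨g, k, e, h⟩ := h
  rcases hl : fl g with _ | l
  · exfalso
    have e1 := fl_eq_none.1 hl
    have e2 := fl_eq_none.1 (e.symm.trans hl)
    rw [e1, e2] at h
    tauto
  · exact ⟨l, g, k, hl, e.symm.trans hl, by tauto⟩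

theorem ADesc2_sum (β : MulAut F) {c : L} {A1 A2 : Finset (Option L)} (h1 : some c ∉ A1)
    (h2 : some c ∉ A2) (hd : ∀ x, x ∈ A1 → x ∉ A2)
    (h : ∀ i g, fl g ≠ some c → fl (g * β (FreeGroup.of i)) ≠ some c →
      (fl g ∈ A1 ↔ fl (g * β (FreeGroup.of i)) ∈ A1) ∧
      (fl g ∈ A2 ↔ fl (g * β (FreeGroup.of i)) ∈ A2)) :
    en β A1 + en β A2 ≤ en β {some c} := by
  unfold en
  rw [← Finset.sum_add_distrib]
  refine Finset.sum_le_sum fun i _ => ?_
  have sub : ∀ A : Finset (Option L), some c ∉ A →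
      (∀ g, fl g ≠ some c → fl (g * β (FreeGroup.of i)) ≠ some c →
        (fl g ∈ A ↔ fl (g * β (FreeGroup.of i)) ∈ A)) →
      cr (β (FreeGroup.of i)) A ⊆ cr (β (FreeGroup.of i)) {some c} := fun A hA hh g hg hi => by
    simp only [Finset.mem_singleton] at hi
    by_cases e : fl g = some c
    · refine hg ?_
      rw [e, hi.1 e]
    · exact hg (hh g e fun e' => e (hi.2 e'))
  have s1 := sub A1 h1 fun g a b => (h i g a b).1
  have s2 := sub A2 h2 fun g a b => (h i g a b).2
  have hdis : Disjoint (cr (β (FreeGroup.of i)) A1) (cr (β (FreeGroup.of i)) A2) := by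
    rw [Set.disjoint_left]
    intro g g1 g2
    have g3 := s1 g1
    simp only [cr, Set.mem_ofPred_eq, Finset.mem_singleton] at g1 g2 g3
    have a1 := hd (fl g)
    have a2 := hd (fl (g * β (FreeGroup.of i)))
    by_cases e : fl g = some c
    · rw [e] at g1 g2
      tauto
    · have e' : fl (g * β (FreeGroup.of i)) = some c := by tauto
      rw [e'] at g1 g2
      tauto
  rw [← Set.ncard_union_eq hdis (cr_finite _ _) (cr_finite _ _)]
  exact Set.ncard_le_ncard (Set.union_subset s1 s2) (cr_finite _ _)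

theorem ADesc2_caseB {v : Vx} (hg : Good v) {j : X}
    (hz : ∀ z, ¬ ∀ g k, fl g = fl k → (ADesc2_k v.β j (z * g) ↔ ADesc2_k v.β j (z * k))) :
    ∃ (c : L) (A : Finset (Option L)), IsCut v.o A ∧ some c ∈ A ∧ some (bar c) ∉ A ∧
      en v.β A < en v.β {some c} := by
  obtain ⟨G, hG, hGw⟩ := hg.wit
  obtain ⟨h1, h2, hK2⟩ := ADesc2_K2 v.β j
  have hK1 := ADesc2_K1 v.β j
  have hfin : ∀ l : L,
      {g : F | ¬ (ADesc2_k v.β j g ↔ ADesc2_k v.β j (g * el l))}.Finite := fun l => by
    rw [ADesc2_image]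
    exact (cr_finite _ _).image _
  generalize ADesc2_k v.β j = κ at hz hK1 hK2 hfin
  obtain ⟨l0, hl0⟩ := ADesc2_bad (hz 1)
  obtain ⟨z, c, E1, E2, E3⟩ := extreme κ hfin 1 l0 hl0
  obtain ⟨l1, hl1⟩ := ADesc2_bad (hz z)
  have e1 : l1 = c := by
    by_contra hne
    obtain ⟨g, k, a1, a2, a3⟩ := hl1
    exact a3 (E2 g k (a1.trans a2.symm) (by rw [a1]; simpa using hne))
  rw [e1] at hl1
  obtain ⟨z2, c2, F1, F2, F3⟩ := extreme κ hfin z c hl1
  obtain ⟨t, ht, ht'⟩ : ∃ t, fl (z⁻¹ * t) = some c ∧ (t = h1 ∨ t = h2) := by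
    obtain ⟨Q, ho, -, hQ⟩ := ADesc2_head hg c2
    obtain ⟨x, y, hx, hy, hxy⟩ := ADesc2_two F2 F3
    obtain ⟨U, p, q, V, e, hc⟩ := ADesc2_change _ ((hQ x).2 hx) ((hQ y).2 hy) hxy
    obtain ⟨a1, a2⟩ := ADesc2_step hG hGw F2 ho hQ e hc
    exact ⟨z2 * G q, F1 _ (by rwa [hG]), hK2 _ a2⟩
  obtain ⟨Q, ho, hn, hQ⟩ := ADesc2_head hg c
  obtain ⟨x, y, hx, hy, hxy⟩ := ADesc2_two E2 E3
  obtain ⟨Q1, Q2, eQ, m1, m2⟩ := path_split (ADesc2_col κ z) hn
    fun U p q V U' p' q' V' e hc e' hc' => by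
      obtain ⟨a1, a2⟩ := ADesc2_step hG hGw E2 ho hQ e hc
      obtain ⟨b1, b2⟩ := ADesc2_step hG hGw E2 ho hQ e' hc'
      have ne : ∀ s, s ≠ some c → z * G s ≠ t := fun s hs e => by
        rw [← e, inv_mul_cancel_left, hG] at ht
        exact hs ht
      have n1 := ne q a1
      have n2 := ne q' b1
      have h : z * G q = z * G q' := by
        rcases hK2 _ a2 with a | a <;> rcases hK2 _ b2 with b | b <;> rcases ht' with d | d
        all_goals first
          | exact a.trans b.symm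
          | exact absurd (a.trans d.symm) n1
          | exact absurd (b.trans d.symm) n2
      rw [← hG q, mul_left_cancel h, hG]
  have hm : ∀ s, s ≠ some c ↔ s ∈ Q1 ∨ s ∈ Q2 := fun s => by
    rw [← hQ, eQ, List.mem_append]
  have hd : ∀ s, s ∈ Q1 → s ∉ Q2 := fun s a b => by
    rw [eQ] at hn
    exact List.disjoint_of_nodup_append hn a b
  obtain ⟨x1, x2, hx1, hx2, h12⟩ : ∃ x1 x2, x1 ∈ Q1 ∧ x2 ∈ Q2 ∧
      ¬ (ADesc2_col κ z x1 ↔ ADesc2_col κ z x2) := by
    rcases (hm x).1 hx with a | a <;> rcases (hm y).1 hy with b | b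
    · exact absurd (m1 x a y b) hxy
    · exact ⟨x, y, a, b, hxy⟩
    · exact ⟨y, x, b, a, fun h => hxy h.symm⟩
    · exact absurd (m2 x a y b) hxy
  have c1 : some c ∉ Q1.toFinset := fun h =>
    (hm _).2 (Or.inl (List.mem_toFinset.1 h)) rfl
  have c2 : some c ∉ Q2.toFinset := fun h =>
    (hm _).2 (Or.inr (List.mem_toFinset.1 h)) rfl
  have hsum : en v.β Q1.toFinset + en v.β Q2.toFinset ≤ en v.β {some c} := by
    refine ADesc2_sum v.β c1 c2 (fun s a b => hd s (List.mem_toFinset.1 a) (List.mem_toFinset.1 b))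
      fun i g a b => ?_
    have hk : ADesc2_col κ z (fl g) ↔ ADesc2_col κ z (fl (g * v.β (FreeGroup.of i))) := by
      rw [ADesc2_col_iff E2 a, ADesc2_col_iff E2 b, ← mul_assoc]
      by_contra hc
      have h3 := E1 g a
      rw [(hK1 i _ hc).2, mul_one, inv_one, fl_one] at h3
      simp at h3
    simp only [List.mem_toFinset]
    rcases (hm _).1 a with a' | a' <;> rcases (hm _).1 b with b' | b'
    · exact ⟨iff_of_true a' b', iff_of_false (hd _ a') (hd _ b')⟩
    · exact absurd ((m1 _ hx1 _ a').trans (hk.trans (m2 _ b' _ hx2))) h12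
    · exact absurd ((m1 _ hx1 _ b').trans (hk.symm.trans (m2 _ a' _ hx2))) h12
    · exact ⟨iff_of_false (fun h => hd _ h a') (fun h => hd _ h b'), iff_of_true a' b'⟩
  have p1 := en_pos v.β (List.mem_toFinset.2 hx1) c1
  have p2 := en_pos v.β (List.mem_toFinset.2 hx2) c2
  rcases (hm (some (bar c))).1 (by simpa using bar_ne c) with a | a
  · refine ⟨bar c, Q1.toFinset, ⟨Q1, Q2 ++ [some c], ?_, fun s => List.mem_toFinset⟩,
      List.mem_toFinset.2 a, by rwa [bar_bar], by rw [en_bar]; omega⟩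
    rw [ho, eQ]
    exact cyc_of_eq [some c] (Q1 ++ Q2) rfl (by simp)
  · refine ⟨bar c, Q2.toFinset, ⟨Q2, some c :: Q1, ?_, fun s => List.mem_toFinset⟩,
      List.mem_toFinset.2 a, by rwa [bar_bar], by rw [en_bar]; omega⟩
    rw [ho, eQ]
    exact cyc_of_eq (some c :: Q1) Q2 rfl rfl

theorem descent {v : Vx} (hg : Good v) {a : L} (ha : 2 ≤ en v.β {some a}) :
    ∃ (c : L) (A : Finset (Option L)), IsCut v.o A ∧ some c ∈ A ∧ some (bar c) ∉ A ∧
      en v.β A < en v.β {some c} := by
  obtain ⟨j, hj⟩ := exists_odd v.β a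
  by_cases h : ∃ z, ∀ g k, fl g = fl k → (ADesc2_k v.β j (z * g) ↔ ADesc2_k v.β j (z * k))
  · obtain ⟨z, hz⟩ := h
    exact ADesc2_caseA hg ha hj hz
  · exact ADesc2_caseB hg fun z hz => h ⟨z, hz⟩

end Pool.Agent.MP_61a8e3_al.G4.A

end

section

/-! Subdivision of edges labelled by words. -/

namespace Pool.Agent.MP_61a8e3_al.G4.S

open FreeGroup

abbrev SE (T : Type) := (T × ℕ) × X

/-- A word written with fresh edges. -/
def Wf {T : Type} (t : T) : ℕ → List Lt → List (SE T × Bool)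
  | _, [] => []
  | n, l :: L => (((t, n), l.1), l.2) :: Wf t (n + 1) L

theorem Wf_lab {T : Type} (t : T) (n : ℕ) (L : List Lt) :
    (Wf t n L).map (lb Prod.snd) = L := by
  induction L generalizing n with
  | nil => rfl
  | cons l L ih => simp only [Wf, List.map_cons, ih]; rfl

theorem Wf_mem {T : Type} (t : T) (n : ℕ) (L : List Lt) (d : SE T × Bool) (h : d ∈ Wf t n L) :
    d.1.1.1 = t ∧ n ≤ d.1.1.2 := by
  induction L generalizing n with
  | nil => simp [Wf] at h
  | cons l L ih =>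
    rcases List.mem_cons.1 h with rfl | h
    · exact ⟨rfl, le_rfl⟩
    · exact ⟨(ih _ h).1, by have := (ih _ h).2; omega⟩

theorem Wf_idx {T : Type} (t : T) (n : ℕ) (L : List Lt) :
    ((Wf t n L).map (fun d => d.1.1.2)).Nodup := by
  induction L generalizing n with
  | nil => simp [Wf]
  | cons l L ih =>
    simp only [Wf, List.map_cons, List.nodup_cons]
    refine ⟨fun h => ?_, ih _⟩
    obtain ⟨d, hd, h⟩ := List.mem_map.1 h
    have := (Wf_mem _ _ _ _ hd).2
    omega

theorem Wf_not_iv {T : Type} (t : T) (n : ℕ) (L : List Lt) (d : SE T × Bool)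
    (h : d ∈ Wf t n L) : iv d ∉ Wf t n L := fun h' =>
  iv_ne d (List.inj_on_of_nodup_map (Wf_idx t n L) h' h rfl)

theorem path_congr {E Ω : Type} (f g : E × Bool → Ω) (L : List (E × Bool)) (a b : Ω)
    (h : ∀ d ∈ L, f d = g d ∧ f (iv d) = g (iv d)) (hp : Path f a L b) : Path g a L b := by
  induction L generalizing a with
  | nil => exact hp
  | cons d L ih =>
    obtain ⟨h1, h2⟩ := h d List.mem_cons_self
    exact ⟨h1 ▸ hp.1, h2 ▸ ih _ (fun x hx => h x (List.mem_cons_of_mem _ hx)) hp.2⟩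

theorem Wf_pot {T Γ Ω : Type} [Group Γ] [MulAction Γ Ω] (c : SE T → Γ) (t : T) (L : List Lt) :
    ∀ (n : ℕ) (a : Ω), ∃ f : SE T × Bool → Ω,
      Path f a (Wf t n L) ((FreeGroup.lift c (mk (Wf t n L)))⁻¹ • a) ∧
      ∀ e s, (e, s) ∈ Wf t n L → f (e, true) = c e • f (e, false) := by
  classical
  induction L with
  | nil =>
    intro n a
    refine ⟨fun _ => a, ?_, fun e s h => by simp [Wf] at h⟩
    simp [Wf, Path, ← one_eq_mk]
  | cons l L ih =>
    intro n a
    rcases l with ⟨x, b⟩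
    set g : Γ := cond b (c ((t, n), x)) (c ((t, n), x))⁻¹ with hg
    obtain ⟨f', h1, h2⟩ := ih (n + 1) (g⁻¹ • a)
    refine ⟨fun d => if d.1.1.2 = n then (if d.2 = b then a else g⁻¹ • a) else f' d, ?_, ?_⟩
    · refine ⟨by simp, ?_⟩
      have e1 : FreeGroup.lift c (mk (Wf t n ((x, b) :: L))) =
          g * FreeGroup.lift c (mk (Wf t (n + 1) L)) := by
        simp only [Wf, lift_mk, List.map_cons, List.prod_cons, hg]
      rw [e1, mul_inv_rev, mul_smul]
      have e2 : (if (iv (((t, n), x), b)).1.1.2 = n then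
          (if (iv (((t, n), x), b)).2 = b then a else g⁻¹ • a) else f' (iv (((t, n), x), b))) =
          g⁻¹ • a := by simp [iv]
      simp only [] at e2 ⊢
      rw [e2]
      refine path_congr f' _ _ _ _ (fun d hd => ?_) h1
      have := (Wf_mem _ _ _ _ hd).2
      have h3 : ¬ d.1.1.2 = n := by omega
      simp [iv, h3]
    · intro e s h
      rcases List.mem_cons.1 h with h | h
      · obtain ⟨rfl, rfl⟩ := Prod.mk.inj h
        cases s <;> simp [hg]
      · have := (Wf_mem _ _ _ _ h).2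
        have h3 : ¬ e.1.2 = n := by simp only [] at this; omega
        simp only [h3, if_false]
        exact h2 e s h

variable {T : Type} (blk : T → List Lt)

/-- The subdivided dart. -/
def ex (s : T × Bool) : List (SE T × Bool) :=
  cond s.2 (Wf s.1 0 (blk s.1)) (invRev (Wf s.1 0 (blk s.1)))

/-- The subdivision homomorphism. -/
def sg : FreeGroup T →* FreeGroup (SE T) := FreeGroup.lift fun t => mk (Wf t 0 (blk t))

theorem mk_ex (L : List (T × Bool)) : mk (L.flatMap (ex blk)) = sg blk (mk L) := by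
  induction L with
  | nil => simp [← one_eq_mk]
  | cons s L ih =>
    rw [List.flatMap_cons, ← mul_mk, ih]
    rcases s with ⟨t, b⟩
    cases b <;> simp [sg, ex, lift_mk, inv_mk]

theorem map_sg (g : FreeGroup T) :
    FreeGroup.map Prod.snd (sg blk g) = FreeGroup.lift (fun t => mk (blk t)) g := by
  have : (FreeGroup.map Prod.snd).comp (sg blk) = FreeGroup.lift (fun t => mk (blk t)) := by
    ext t
    simp only [MonoidHom.comp_apply, sg, lift_apply_of, map_mk_lb, Wf_lab]
  exact DFunLike.congr_fun this g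

theorem ex_iv (s : T × Bool) : ex blk (iv s) = invRev (ex blk s) := by
  rcases s with ⟨t, b⟩
  cases b <;> simp [ex, iv]

theorem mem_ex {s : T × Bool} {d : SE T × Bool} (h : d ∈ ex blk s) :
    (s.2 = true ∧ d ∈ Wf s.1 0 (blk s.1)) ∨ (s.2 = false ∧ iv d ∈ Wf s.1 0 (blk s.1)) := by
  rcases s with ⟨t, b⟩
  cases b
  · exact Or.inr ⟨rfl, mem_invRev.1 h⟩
  · exact Or.inl ⟨rfl, h⟩

theorem nodup_invRev {E : Type} {L : List (E × Bool)} (h : L.Nodup) : (invRev L).Nodup := by
  rw [invRev_eq, List.nodup_reverse]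
  exact h.map fun _ _ => iv_inj

theorem sub_good (L : List (T × Bool)) (h : Good L) : Good (L.flatMap (ex blk)) := by
  constructor
  · rw [List.nodup_flatMap]
    constructor
    · rintro ⟨t, b⟩ -
      have := (Wf_idx t 0 (blk t)).of_map
      cases b
      · exact nodup_invRev this
      · exact this
    · refine List.Pairwise.imp ?_ h.1
      rintro ⟨t, b⟩ ⟨t', b'⟩ hne d hd hd'
      apply hne
      rcases mem_ex blk hd with ⟨h1, h2⟩ | ⟨h1, h2⟩ <;>
        rcases mem_ex blk hd' with ⟨h3, h4⟩ | ⟨h3, h4⟩ <;>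
        have h5 := (Wf_mem _ _ _ _ h2).1 <;> have h6 := (Wf_mem _ _ _ _ h4).1 <;>
        simp only [iv] at h1 h2 h3 h4 h5 h6 <;> subst h1 h3 <;>
        obtain rfl : t = t' := h5.symm.trans h6
      · rfl
      · exact (Wf_not_iv _ _ _ _ h2 h4).elim
      · exact (Wf_not_iv _ _ _ _ h4 h2).elim
      · rfl
  · intro d hd
    obtain ⟨s, hs, hd⟩ := List.mem_flatMap.1 hd
    refine List.mem_flatMap.2 ⟨iv s, h.2 s hs, ?_⟩
    rw [ex_iv, mem_invRev, iv_iv]; exact hd

theorem sub_pot {Γ Ω : Type} [Group Γ] [MulAction Γ Ω] (c : SE T → Γ)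
    (Cs : List (List (T × Bool))) (hg : Good Cs.flatten) (f0 : T × Bool → Ω)
    (h : Pot (fun t => FreeGroup.lift c (mk (Wf t 0 (blk t)))) f0 Cs) :
    ∃ f : SE T × Bool → Ω, Pot c f (Cs.map (List.flatMap (ex blk))) := by
  choose ft h1 h2 using fun t => Wf_pot c t (blk t) 0 (f0 (t, true))
  have key : ∀ t, (t, true) ∈ Cs.flatten →
      Path (fun d => ft d.1.1.1 d) (f0 (t, true)) (Wf t 0 (blk t)) (f0 (t, false)) := by
    intro t ht
    have h3 := h1 t
    have h4 : (FreeGroup.lift c (mk (Wf t 0 (blk t))))⁻¹ • f0 (t, true) = f0 (t, false) := by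
      rw [h.2 t ht, inv_smul_smul]
    rw [h4] at h3
    refine path_congr _ _ _ _ _ (fun d hd => ?_) h3
    have := (Wf_mem _ _ _ _ hd).1
    simp only [iv, this, and_self]
  have key2 : ∀ s ∈ Cs.flatten,
      Path (fun d => ft d.1.1.1 d) (f0 s) (ex blk s) (f0 (iv s)) := by
    rintro ⟨t, b⟩ hs
    cases b
    · exact path_invRev _ _ _ _ (key t (hg.2 _ hs))
    · exact key t hs
  have key3 : ∀ L : List (T × Bool), (∀ s ∈ L, s ∈ Cs.flatten) → ∀ a b, Path f0 a L b →
      Path (fun d => ft d.1.1.1 d) a (L.flatMap (ex blk)) b := by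
    intro L
    induction L with
    | nil => intro _ a b hp; exact hp
    | cons s L ih =>
      intro hL a b hp
      rw [List.flatMap_cons, path_append]
      exact ⟨f0 (iv s), hp.1 ▸ key2 s (hL s List.mem_cons_self),
        ih (fun x hx => hL x (List.mem_cons_of_mem _ hx)) _ _ hp.2⟩
  refine ⟨fun d => ft d.1.1.1 d, ?_, ?_⟩
  · intro C hC
    obtain ⟨C0, hC0, rfl⟩ := List.mem_map.1 hC
    obtain ⟨a, ha⟩ := h.1 C0 hC0
    exact ⟨a, key3 C0 (fun s hs => List.mem_flatten.2 ⟨C0, hC0, hs⟩) a a ha⟩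
  · intro e he
    obtain ⟨C, hC, he⟩ := List.mem_flatten.1 he
    obtain ⟨C0, -, rfl⟩ := List.mem_map.1 hC
    obtain ⟨s, -, he⟩ := List.mem_flatMap.1 he
    rcases mem_ex blk he with ⟨-, h3⟩ | ⟨-, h3⟩
    · have := (Wf_mem _ _ _ _ h3).1
      simp only [] at this ⊢
      rw [this]; exact h2 _ e _ h3
    · have := (Wf_mem _ _ _ _ h3).1
      simp only [iv] at this h3 ⊢
      rw [this]; exact h2 _ e _ h3

theorem flatten_sub (Cs : List (List (T × Bool))) :
    (Cs.map (List.flatMap (ex blk))).flatten = Cs.flatten.flatMap (ex blk) := by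
  induction Cs with
  | nil => rfl
  | cons C Cs ih => simp only [List.map_cons, List.flatten_cons, List.flatMap_append, ih]

end Pool.Agent.MP_61a8e3_al.G4.S

end

section

/-! Folding the face with trivial label. -/

namespace Pool.Agent.MP_61a8e3_al.G4.S

open FreeGroup

theorem fold_split {E : Type} (lab : E → X) (Q : List (E × Bool)) (hne : Q ≠ [])
    (h : mk (Q.map (lb lab)) = 1) :
    ∃ Q1 Q2 : List (E × Bool), ∃ e e' : E, ∃ b : Bool,
      Q = Q1 ++ (e, b) :: (e', !b) :: Q2 ∧ lab e' = lab e := by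
  have hr : Red (Q.map (lb lab)) [] := by
    have h1 : reduce (Q.map (lb lab)) = [] := by
      have := congrArg toWord h
      rwa [toWord_mk, toWord_one] at this
    rw [← h1]; exact reduce.red
  rcases Relation.ReflTransGen.cases_head hr with h0 | ⟨L, hs, -⟩
  · exact absurd (List.map_eq_nil_iff.1 h0) hne
  · generalize hq : Q.map (lb lab) = W at hs
    obtain ⟨L1, L2, x, b⟩ := hs
    rename_i L1 L2 x b
    obtain ⟨Q1, Q', rfl, -, h2⟩ := List.map_eq_append_iff.1 hq
    obtain ⟨d, Q'', rfl, hd, h3⟩ := List.map_eq_cons_iff.1 h2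
    obtain ⟨d', Q2, rfl, hd', -⟩ := List.map_eq_cons_iff.1 h3
    rcases d with ⟨e, c⟩
    rcases d' with ⟨e', c'⟩
    simp only [lb, Prod.mk.injEq] at hd hd'
    obtain ⟨h1, rfl⟩ := hd
    obtain ⟨h4, rfl⟩ := hd'
    exact ⟨Q1, Q2, e, e', c, rfl, h4.trans h1.symm⟩

open Classical in
/-- The renaming of one fold. -/
noncomputable def ren {E : Type} (e e' : E) (x : E) : E := if x = e' then e else x

theorem ren_left {E : Type} (e e' : E) : ren e e' e = e := by
  unfold ren; split_ifs <;> rfl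

theorem ren_right {E : Type} (e e' : E) : ren e e' e' = e := by
  unfold ren; simp

theorem ren_cases {E : Type} (e e' x : E) : ren e e' x = x ∨ (x = e' ∧ ren e e' x = e) := by
  unfold ren; split_ifs with h
  · exact Or.inr ⟨h, rfl⟩
  · exact Or.inl rfl

theorem fold_good {E : Type} (e e' : E) (b : Bool) (R : List (E × Bool))
    (h : Good ((e, b) :: (e', !b) :: R)) : Good (R.map (lb (ren e e'))) := by
  obtain ⟨hn, hc⟩ := h
  rw [List.nodup_cons, List.nodup_cons] at hn
  obtain ⟨h1, h2, h3⟩ := hn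
  have h1' : (e, b) ∉ R := fun h => h1 (List.mem_cons_of_mem _ h)
  constructor
  · refine List.Nodup.map_on ?_ h3
    rintro ⟨x, s⟩ hx ⟨y, t⟩ hy hxy
    simp only [lb, Prod.mk.injEq] at hxy
    obtain ⟨hxy, rfl⟩ := hxy
    have key : ∀ s : Bool, (e, s) ∈ R → (e', s) ∈ R → False := by
      intro s ha hb
      by_cases hs : s = b
      · exact h1' (hs ▸ ha)
      · have : s = !b := by cases s <;> cases b <;> simp_all
        exact h2 (this ▸ hb)
    rcases ren_cases e e' x with hx1 | ⟨hx1, hx2⟩ <;>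
      rcases ren_cases e e' y with hy1 | ⟨hy1, hy2⟩
    · rw [← hx1, ← hy1, hxy]
    · have : x = e := by rw [← hx1, hxy, hy2]
      exact (key s (this ▸ hx) (hy1 ▸ hy)).elim
    · have : y = e := by rw [← hy1, ← hxy, hx2]
      exact (key s (this ▸ hy) (hx1 ▸ hx)).elim
    · rw [hx1, hy1]
  · intro z hz
    obtain ⟨x, hx, rfl⟩ := List.mem_map.1 hz
    rw [← lb_iv]
    have hx' := hc x (List.mem_cons_of_mem _ (List.mem_cons_of_mem _ hx))
    rcases List.mem_cons.1 hx' with hx1 | hx'
    · have h4 := hc (e', !b) (List.mem_cons_of_mem _ List.mem_cons_self)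
      rcases List.mem_cons.1 h4 with h5 | h4
      · exact absurd (by rw [← iv_inj (h5.trans hx1.symm)] at hx; exact hx) h2
      rcases List.mem_cons.1 h4 with h5 | h4
      · exact absurd h5 (iv_ne _)
      refine List.mem_map.2 ⟨_, h4, ?_⟩
      rw [hx1]; simp [lb, iv, ren_left, ren_right]
    rcases List.mem_cons.1 hx' with hx1 | hx'
    · have h4 := hc (e, b) List.mem_cons_self
      rcases List.mem_cons.1 h4 with h5 | h4
      · exact absurd h5 (iv_ne _)
      rcases List.mem_cons.1 h4 with h5 | h4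
      · exact absurd (by rw [← iv_inj (h5.trans hx1.symm)] at hx; exact hx) h1'
      refine List.mem_map.2 ⟨_, h4, ?_⟩
      rw [hx1]; simp [lb, iv, ren_left, ren_right]
    · exact List.mem_map.2 ⟨_, hx', rfl⟩

theorem fold_pot {E Γ Ω : Type} [Group Γ] [MulAction Γ Ω] (e e' : E) (b : Bool)
    (Q1 Q2 : List (E × Bool)) (Cs : List (List (E × Bool)))
    (hg : Good ((Q1 ++ (e, b) :: (e', !b) :: Q2) ++ Cs.flatten)) (c : E → Γ) (f : E × Bool → Ω)
    (h : Pot (c ∘ ren e e') f ((Q1 ++ (e, b) :: (e', !b) :: Q2) :: Cs)) :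
    Pot c f (((Q1 ++ Q2) :: Cs).map (List.map (lb (ren e e')))) := by
  obtain ⟨hcl, hed⟩ := h
  obtain ⟨a, ha⟩ := hcl _ List.mem_cons_self
  obtain ⟨m, hp1, hp2, hp3, hp4⟩ := (path_append f _ _ _ _).1 ha
  have m1 : (e, b) ∈ (Q1 ++ (e, b) :: (e', !b) :: Q2) ++ Cs.flatten := by simp
  have m2 : (e', !b) ∈ (Q1 ++ (e, b) :: (e', !b) :: Q2) ++ Cs.flatten := by simp
  have k1 : f (e, true) = c e • f (e, false) := by
    have := hed e (by
      rw [List.flatten_cons]
      cases b
      · exact hg.2 _ m1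
      · exact m1)
    simpa [ren_left] using this
  have k2 : f (e', true) = c e • f (e', false) := by
    have := hed e' (by
      rw [List.flatten_cons]
      cases b
      · exact m2
      · exact hg.2 _ m2)
    simpa [ren_right] using this
  have k3 : ∀ s, f (e', s) = f (e, s) := by
    cases b
    · have h1 : f (e', true) = f (e, true) := hp3
      have h2 : f (e', false) = f (e, false) := by
        rw [k1, k2] at h1; exact smul_left_cancel _ h1
      intro s; cases s <;> assumption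
    · have h2 : f (e', false) = f (e, false) := hp3
      have h1 : f (e', true) = f (e, true) := by rw [k1, k2, h2]
      intro s; cases s <;> assumption
  have hf : (fun d => f (lb (ren e e') d)) = f := by
    funext d
    rcases d with ⟨x, s⟩
    rcases ren_cases e e' x with h1 | ⟨h1, h2⟩
    · simp only [lb, h1]
    · simp only [lb, h2]; rw [h1, k3]
  constructor
  · intro C hC
    obtain ⟨C0, hC0, rfl⟩ := List.mem_map.1 hC
    simp only [path_map, hf]
    rcases List.mem_cons.1 hC0 with rfl | hC0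
    · refine ⟨a, (path_append f _ _ _ _).2 ⟨m, hp1, ?_⟩⟩
      have : f (iv (e', !b)) = m := by
        rw [← hp2, ← k3]; simp [iv]
      rwa [this] at hp4
    · exact hcl _ (List.mem_cons_of_mem _ hC0)
  · intro x hx
    rw [← List.map_flatten] at hx
    obtain ⟨⟨y, s⟩, hy, hyx⟩ := List.mem_map.1 hx
    simp only [lb, Prod.mk.injEq] at hyx
    obtain ⟨rfl, rfl⟩ := hyx
    have h1 := hed y (by
      simp only [List.flatten_cons, List.mem_append, List.mem_cons] at hy ⊢
      tauto)
    have h2 := congrFun hf (y, true)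
    have h3 := congrFun hf (y, false)
    simp only [lb] at h2 h3
    rw [h2, h3]; exact h1

theorem lb_comp {E E' E'' : Type} (f : E → E') (g : E' → E'') (L : List (E × Bool)) :
    (L.map (lb f)).map (lb g) = L.map (lb (g ∘ f)) := by
  rw [List.map_map]; rfl

theorem fold {E : Type} (lab : E → X) (n : ℕ) : ∀ (Q : List (E × Bool))
    (Cs : List (List (E × Bool))), Q.length ≤ n → Good (Q ++ Cs.flatten) →
    mk (Q.map (lb lab)) = 1 →
    ∃ ρ : E → E, (∀ e, lab (ρ e) = lab e) ∧ mk (Q.map (lb ρ)) = 1 ∧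
      Good (Cs.map (List.map (lb ρ))).flatten ∧
      ∀ (Γ Ω : Type) [Group Γ] [MulAction Γ Ω] (c : E → Γ) (f : E × Bool → Ω),
        Pot (c ∘ ρ) f (Q :: Cs) → Pot c f (Cs.map (List.map (lb ρ))) := by
  have hid : ∀ Cs : List (List (E × Bool)), Cs.map (List.map (lb id)) = Cs := by
    intro Cs
    have : (List.map (lb (id : E → E))) = id := by
      funext L; exact List.map_id L
    rw [this, List.map_id]
  have base : ∀ (Cs : List (List (E × Bool))), Good ([] ++ Cs.flatten) →
      ∃ ρ : E → E, (∀ e, lab (ρ e) = lab e) ∧ mk (([] : List (E × Bool)).map (lb ρ)) = 1 ∧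
      Good (Cs.map (List.map (lb ρ))).flatten ∧
      ∀ (Γ Ω : Type) [Group Γ] [MulAction Γ Ω] (c : E → Γ) (f : E × Bool → Ω),
        Pot (c ∘ ρ) f ([] :: Cs) → Pot c f (Cs.map (List.map (lb ρ))) := by
    intro Cs hg
    refine ⟨id, fun _ => rfl, rfl, by rw [hid]; exact hg, ?_⟩
    intro Γ Ω _ _ c f h
    rw [hid]
    exact ⟨fun C hC => h.1 C (List.mem_cons_of_mem _ hC), h.2⟩
  induction n with
  | zero =>
    intro Q Cs hn hg _
    obtain rfl : Q = [] := List.eq_nil_of_length_eq_zero (by omega)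
    exact base Cs hg
  | succ n ih =>
    intro Q Cs hn hg hq
    by_cases hne : Q = []
    · subst hne; exact base Cs hg
    obtain ⟨Q1, Q2, e, e', b, rfl, hl⟩ := fold_split lab Q hne hq
    have hlab : lab ∘ ren e e' = lab := by
      funext x
      rcases ren_cases e e' x with h1 | ⟨h1, h2⟩
      · simp only [Function.comp, h1]
      · simp only [Function.comp, h2]; rw [h1, hl]
    have hg1 : Good ((e, b) :: (e', !b) :: (Q1 ++ Q2 ++ Cs.flatten)) := by
      have hp : List.Perm ((Q1 ++ (e, b) :: (e', !b) :: Q2) ++ Cs.flatten)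
          ((e, b) :: (e', !b) :: (Q1 ++ Q2 ++ Cs.flatten)) := by
        rw [← List.cons_append, ← List.cons_append]
        refine List.Perm.append_right _ ?_
        exact List.perm_middle.trans (List.Perm.cons _ List.perm_middle)
      exact ⟨hp.nodup_iff.1 hg.1, fun d hd => hp.mem_iff.1 (hg.2 d (hp.mem_iff.2 hd))⟩
    have hg2 := fold_good e e' b _ hg1
    have hmk : ∀ {E' : Type} (g : E → E'), g e' = g e →
        mk ((Q1 ++ (e, b) :: (e', !b) :: Q2).map (lb g)) = mk ((Q1 ++ Q2).map (lb g)) := by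
      intro E' g hge
      simp only [List.map_append, List.map_cons, lb, hge]
      exact Quot.sound Red.Step.not
    obtain ⟨ρ, h1, h2, h3, h4⟩ := ih ((Q1 ++ Q2).map (lb (ren e e')))
      (Cs.map (List.map (lb (ren e e'))))
      (by simp only [List.length_map, List.length_append, List.length_cons] at hn ⊢; omega)
      (by rwa [← List.map_flatten, ← List.map_append])
      (by rw [lb_comp, hlab, ← hmk lab hl]; exact hq)
    have hC : (Cs.map (List.map (lb (ren e e')))).map (List.map (lb ρ)) =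
        Cs.map (List.map (lb (ρ ∘ ren e e'))) := by
      rw [List.map_map]
      exact List.map_congr_left fun L _ => lb_comp _ _ L
    refine ⟨ρ ∘ ren e e', fun x => ?_, ?_, hC ▸ h3, ?_⟩
    · simp only [Function.comp]; rw [h1]; exact congrFun hlab x
    · rw [hmk _ (by simp only [Function.comp, ren_left, ren_right]), ← lb_comp]; exact h2
    · intro Γ Ω _ _ c f h
      rw [← hC]
      exact h4 Γ Ω c f (fold_pot e e' b Q1 Q2 Cs hg (c ∘ ρ) f h)

end Pool.Agent.MP_61a8e3_al.G4.S

end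

section

/-! The initial configuration and the folded configuration. -/

namespace Pool.Agent.MP_61a8e3_al.G4.S

open FreeGroup

theorem pc_range {n : ℕ} {g : F} (h : PC n g) : ∃ (u : ℕ → F) (ε : ℕ → Bool),
    g = ((List.range n).map (fun j => u j * mk (rws (ε j)) * (u j)⁻¹)).prod := by
  obtain ⟨l, rfl, h, rfl⟩ := h
  have : ∀ j : ℕ, ∃ (u : F) (ε : Bool), ∀ hj : j < l.length,
      l[j] = u * mk (rws ε) * u⁻¹ := by
    intro j
    by_cases hj : j < l.length
    · rcases h _ (List.getElem_mem hj) with h1 | h1 <;> obtain ⟨u, hu⟩ := isConj_iff.1 h1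
      · exact ⟨u, true, fun _ => by rw [mk_rws]; exact hu.symm⟩
      · exact ⟨u, false, fun _ => by rw [mk_rws]; exact hu.symm⟩
    · exact ⟨1, true, fun h => absurd h hj⟩
  choose u ε hu using this
  refine ⟨u, ε, congrArg List.prod (List.ext_getElem (by simp) fun i h1 h2 => ?_)⟩
  simp only [List.getElem_map, List.getElem_range]
  exact hu i h1

abbrev T0 := X ⊕ ℕ × Bool

/-- A lollipop. -/
def lol (j : ℕ) : List (T0 × Bool) :=
  [(.inr (j, true), true), (.inr (j, false), true), (.inr (j, true), false)]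

def Q0 (n : ℕ) : List (T0 × Bool) :=
  rw0.map (lb Sum.inl) ++ invRev ((List.range n).flatMap lol)

def C0 (j : ℕ) : List (T0 × Bool) := [(.inr (j, false), true)]

theorem mem_lols (n : ℕ) (d : T0 × Bool) : d ∈ (List.range n).flatMap lol ↔
    ∃ j < n, d = (.inr (j, true), true) ∨ d = (.inr (j, false), true) ∨
      d = (.inr (j, true), false) := by
  simp [lol]

theorem mem_C0 (n : ℕ) (d : T0 × Bool) : d ∈ ((List.range n).map C0).flatten ↔
    ∃ j < n, d = (.inr (j, false), true) := by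
  simp only [List.mem_flatten, List.mem_map, List.mem_range]
  constructor
  · rintro ⟨_, ⟨j, hj, rfl⟩, h⟩
    exact ⟨j, hj, by simpa [C0] using h⟩
  · rintro ⟨j, hj, rfl⟩
    exact ⟨_, ⟨j, hj, rfl⟩, by simp [C0]⟩

theorem mem_rw0 : ∀ l : Lt, l ∈ rw0 := by
  rintro ⟨x | x, b⟩ <;> fin_cases x <;> cases b <;> simp [rw0]

theorem mem_inl (d : T0 × Bool) : d ∈ rw0.map (lb Sum.inl) ↔ ∃ x, d.1 = .inl x := by
  constructor
  · intro h
    obtain ⟨l, -, rfl⟩ := List.mem_map.1 h
    exact ⟨_, rfl⟩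
  · rintro ⟨x, hx⟩
    exact List.mem_map.2 ⟨(x, d.2), mem_rw0 _, by rw [lb, ← hx]⟩

theorem init_good (n : ℕ) : Good (Q0 n ++ ((List.range n).map C0).flatten) := by
  constructor
  · rw [List.nodup_append, Q0, List.nodup_append]
    refine ⟨⟨?_, nodup_invRev ?_, ?_⟩, ?_, ?_⟩
    · refine List.Nodup.map ?_ (by decide)
      rintro ⟨x, b⟩ ⟨y, c⟩ h
      simpa [lb] using h
    · rw [List.nodup_flatMap]
      refine ⟨fun j _ => by simp [lol], List.Pairwise.imp ?_ List.nodup_range⟩
      intro j k hne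
      simp [Function.onFun, lol, hne.symm]
    · intro d hd d' hd' h
      subst h
      obtain ⟨x, hx⟩ := (mem_inl d).1 hd
      obtain ⟨j, -, h⟩ := (mem_lols n _).1 (mem_invRev.1 hd')
      rcases d with ⟨t, b⟩
      simp only [] at hx
      subst hx
      simp [iv] at h
    · rw [← List.flatMap_def, List.nodup_flatMap]
      refine ⟨fun j _ => by simp [C0], List.Pairwise.imp ?_ List.nodup_range⟩
      intro j k hne
      simp [Function.onFun, C0, hne.symm]
    · intro d hd d' hd' h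
      subst h
      obtain ⟨j, -, rfl⟩ := (mem_C0 n _).1 hd'
      rcases List.mem_append.1 hd with hd | hd
      · obtain ⟨x, hx⟩ := (mem_inl _).1 hd
        simp at hx
      · obtain ⟨j, -, h⟩ := (mem_lols n _).1 (mem_invRev.1 hd)
        simp [iv] at h
  · intro d hd
    simp only [Q0, List.mem_append, mem_invRev, mem_lols, mem_C0, mem_inl, iv_iv] at hd ⊢
    rcases hd with (hd | ⟨j, hj, hd⟩) | ⟨j, hj, rfl⟩
    · exact Or.inl (Or.inl hd)
    · rcases hd with hd | hd | hd
      · refine Or.inl (Or.inr ⟨j, hj, Or.inr (Or.inr ?_)⟩)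
        rw [← iv_iv d, hd]; rfl
      · exact Or.inr ⟨j, hj, hd⟩
      · refine Or.inl (Or.inr ⟨j, hj, Or.inl ?_⟩)
        rw [← iv_iv d, hd]; rfl
    · exact Or.inl (Or.inr ⟨j, hj, Or.inr (Or.inl rfl)⟩)

theorem mk_flatMap {E ι : Type} (l : List ι) (g : ι → List (E × Bool)) :
    mk (l.flatMap g) = (l.map (fun j => mk (g j))).prod := by
  induction l with
  | nil => rfl
  | cons j l ih => rw [List.flatMap_cons, ← mul_mk, ih, List.map_cons, List.prod_cons]

theorem mk_lol (j : ℕ) : mk (lol j) =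
    of (.inr (j, true)) * of (.inr (j, false)) * (of (.inr (j, true)))⁻¹ := rfl

theorem init_pot {Γ Ω : Type} [Group Γ] [MulAction Γ Ω] (n : ℕ) (c : T0 → Γ) (ω : Ω)
    (h1 : ∀ x, c (.inl x) • ω = ω)
    (h2 : ∀ j < n, (c (.inr (j, true)) * c (.inr (j, false)) * (c (.inr (j, true)))⁻¹) • ω = ω) :
    ∃ f : T0 × Bool → Ω, Pot c f (Q0 n :: (List.range n).map C0) := by
  let f : T0 × Bool → Ω := fun d => match d with
    | (.inl _, _) => ω
    | (.inr (_, true), true) => ω
    | (.inr (j, true), false) => (c (.inr (j, true)))⁻¹ • ω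
    | (.inr (j, false), _) => (c (.inr (j, true)))⁻¹ • ω
  have p1 : ∀ L : List Lt, Path f ω (L.map (lb Sum.inl)) ω := by
    intro L
    induction L with
    | nil => rfl
    | cons l L ih => exact ⟨rfl, ih⟩
  have p2 : ∀ L : List ℕ, Path f ω (L.flatMap lol) ω := by
    intro L
    induction L with
    | nil => rfl
    | cons l L ih => exact ⟨rfl, rfl, rfl, ih⟩
  refine ⟨f, ?_, ?_⟩
  · intro C hC
    rcases List.mem_cons.1 hC with rfl | hC
    · exact ⟨ω, (path_append _ _ _ _ _).2 ⟨ω, p1 _, path_invRev _ _ _ _ (p2 _)⟩⟩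
    · obtain ⟨j, -, rfl⟩ := List.mem_map.1 hC
      exact ⟨_, rfl, rfl⟩
  · rintro (x | ⟨j, b⟩) he
    · exact (h1 x).symm
    · cases b
      · have hj : j < n := by
          simp only [List.flatten_cons, Q0, List.mem_append, mem_invRev, mem_lols, mem_C0,
            mem_inl, iv] at he
          rcases he with (he | ⟨k, hk, he⟩) | ⟨k, hk, he⟩
          · simp at he
          · simp at he
          · obtain rfl : j = k := by simpa using he
            exact hk
        have := h2 j hj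
        show (c (.inr (j, true)))⁻¹ • ω = c (.inr (j, false)) • (c (.inr (j, true)))⁻¹ • ω
        rw [mul_smul, mul_smul] at this
        rw [inv_smul_eq_iff, this]
      · show ω = c (.inr (j, true)) • (c (.inr (j, true)))⁻¹ • ω
        rw [smul_inv_smul]

theorem lift_map {E E' Γ : Type} [Group Γ] (c : E' → Γ) (ρ : E → E') (g : FreeGroup E) :
    FreeGroup.lift c (FreeGroup.map ρ g) = FreeGroup.lift (c ∘ ρ) g := by
  have : (FreeGroup.lift c).comp (FreeGroup.map ρ) = FreeGroup.lift (c ∘ ρ) := by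
    ext t; simp
  exact DFunLike.congr_fun this g

theorem exists_final (φ : F →* F) (n : ℕ) (h : PC n (φ rel)) :
    ∃ (E : Type) (lab : E → X) (P : List (List (E × Bool) × FreeGroup E))
      (ψ : F →* FreeGroup E), P.length = n ∧ Final φ lab P ψ := by
  obtain ⟨u, ε, hu⟩ := pc_range h
  let blk : T0 → List Lt := Sum.elim (fun x => (φ (of x)).toWord)
    (fun p => cond p.2 (u p.1).toWord (rws (ε p.1)))
  have hτ : ∀ g : F, FreeGroup.lift (fun t => mk (blk t)) (FreeGroup.map Sum.inl g) = φ g := by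
    intro g
    have : (FreeGroup.lift (fun t => mk (blk t))).comp (FreeGroup.map Sum.inl) = φ := by
      ext x : 1; simp [blk, mk_toWord]
    exact DFunLike.congr_fun this g
  have hQ : mk (Q0 n) = FreeGroup.map Sum.inl rel *
      (((List.range n).map (fun j => mk (lol j))).prod)⁻¹ := by
    rw [Q0, ← mul_mk, ← inv_mk, mk_flatMap, ← map_mk_lb, mk_rw0]
  have hg := sub_good blk _ (init_good n)
  rw [List.flatMap_append, ← flatten_sub] at hg
  obtain ⟨ρ, r1, r2, r3, r4⟩ := fold (Prod.snd : SE T0 → X) _ _ _ le_rfl hg (by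
    rw [← map_mk_lb, mk_ex, map_sg, hQ, _root_.map_mul, hτ,
      _root_.map_inv, hu, map_list_prod, List.map_map, mul_inv_eq_one]
    refine congrArg List.prod (List.map_congr_left fun j _ => ?_)
    simp [mk_lol, blk, mk_toWord])
  have hρ : ∀ g, FreeGroup.map Prod.snd (FreeGroup.map ρ g) =
      FreeGroup.map (Prod.snd : SE T0 → X) g := by
    intro g
    rw [FreeGroup.map.comp]
    congr 2
    funext e; exact r1 e
  have hP : ((List.range n).map (fun j => (((C0 j).flatMap (ex blk)).map (lb ρ),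
      FreeGroup.map ρ (sg blk (mk (lol j)))))).map Prod.fst =
      (((List.range n).map C0).map (List.flatMap (ex blk))).map (List.map (lb ρ)) := by
    simp only [List.map_map]; rfl
  refine ⟨SE T0, Prod.snd, (List.range n).map (fun j => (((C0 j).flatMap (ex blk)).map (lb ρ),
      FreeGroup.map ρ (sg blk (mk (lol j))))),
    (FreeGroup.map ρ).comp ((sg blk).comp (FreeGroup.map Sum.inl)), by simp,
    ⟨hP ▸ r3, ?_⟩, ?_, ?_, ?_, ?_⟩
  · intro C hC
    obtain ⟨p, hp, rfl⟩ := List.mem_map.1 hC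
    obtain ⟨j, -, rfl⟩ := List.mem_map.1 hp
    refine ⟨ε j, ?_⟩
    have : (Prod.snd : SE T0 → X) ∘ ρ = Prod.snd := funext r1
    simp only [lb_comp, this, C0, List.flatMap_cons, List.flatMap_nil, List.append_nil, ex,
      cond_true, Wf_lab]
    exact List.IsRotated.refl _
  · intro p hp
    obtain ⟨j, -, rfl⟩ := List.mem_map.1 hp
    simp only []
    rw [← map_mk_lb, mk_ex]
    refine MonoidHom.map_isConj _ (MonoidHom.map_isConj _ ?_)
    exact isConj_iff.2 ⟨of (.inr (j, true)), rfl⟩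
  · rw [← map_mk_lb, mk_ex, hQ, _root_.map_mul, _root_.map_mul, _root_.map_inv, _root_.map_inv,
      mul_inv_eq_one] at r2
    rw [MonoidHom.comp_apply, MonoidHom.comp_apply, r2]
    simp only [map_list_prod, List.map_map]
    rfl
  · intro x
    simp only [MonoidHom.comp_apply]
    rw [hρ, map_sg, hτ]
  · intro Γ Ω _ _ c ω h1 h2
    obtain ⟨f0, hf0⟩ := init_pot n
      (fun t => FreeGroup.lift (c ∘ ρ) (mk (Wf t 0 (blk t)))) ω
      (fun x => by
        have := h1 (of x)
        simpa only [MonoidHom.comp_apply, lift_map, sg, FreeGroup.map.of, lift_apply_of]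
          using this)
      (fun j hj => by
        have := h2 _ (List.mem_map.2 ⟨j, List.mem_range.2 hj, rfl⟩)
        simpa only [lift_map, sg, mk_lol, _root_.map_mul, _root_.map_inv, lift_apply_of]
          using this)
    obtain ⟨f, hf⟩ := sub_pot blk (c ∘ ρ) (Q0 n :: (List.range n).map C0) (init_good n) f0 hf0
    exact ⟨f, hP ▸ r4 Γ Ω c f hf⟩

end Pool.Agent.MP_61a8e3_al.G4.S

end

section

/-! Free groups of finite rank are Hopfian. -/

namespace Pool.Agent.MP_61a8e3_al.G4.S

open FreeGroup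

theorem SHopf_perm {α : Type} (B : Set (FreeGroup α)) (hB : B.Finite) (x : α) :
    ∃ σ : Equiv.Perm B, ∀ (g : B) (h : of x * g.1 ∈ B), σ g = ⟨of x * g.1, h⟩ := by
  have : Finite B := hB
  obtain ⟨σ, hσ⟩ := Equiv.Perm.exists_extending_pair
    (fun g : {g : B // of x * g.1 ∈ B} => g.1)
    (fun g : {g : B // of x * g.1 ∈ B} => (⟨of x * g.1.1, g.2⟩ : B))
    Subtype.val_injective (by
      intro a b hab
      have h1 : of x * a.1.1 = of x * b.1.1 := congrArg Subtype.val hab
      exact Subtype.ext (Subtype.ext (mul_left_cancel h1)))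
  exact ⟨σ, fun g h => hσ ⟨g, h⟩⟩

theorem SHopf_res {α : Type} (w : FreeGroup α) (hw : w ≠ 1) :
    ∃ (Q : Type) (_ : Group Q) (_ : Finite Q) (η : FreeGroup α →* Q), η w ≠ 1 := by
  classical
  obtain ⟨L, rfl⟩ : ∃ L, mk L = w := ⟨w.toWord, mk_toWord⟩
  let B : Set (FreeGroup α) := (fun s => mk s) '' {s | s ∈ L.tails}
  have hB : B.Finite := (List.finite_toSet L.tails).image _
  have : Finite B := hB
  have hmem : ∀ s, s <:+ L → mk s ∈ B := fun s hs => ⟨s, (List.mem_tails s L).2 hs, rfl⟩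
  choose σ hσ using SHopf_perm B hB
  have h1 : (1 : FreeGroup α) ∈ B := hmem [] List.nil_suffix
  have key : ∀ s (hs : s <:+ L), (FreeGroup.lift σ (mk s)) ⟨1, h1⟩ = ⟨mk s, hmem s hs⟩ := by
    intro s
    induction s with
    | nil => intro hs; rfl
    | cons d s ih =>
      intro hs
      have hs' : s <:+ L := (List.suffix_cons d s).trans hs
      have e : mk (d :: s) = mk [d] * mk s := by rw [mul_mk]; rfl
      rcases d with ⟨x, b⟩
      cases b with
      | true =>
        have e2 : mk ((x, true) :: s) = of x * mk s := e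
        have hm : of x * mk s ∈ B := e2 ▸ hmem _ hs
        have : (FreeGroup.lift σ (mk ((x, true) :: s))) ⟨1, h1⟩ = ⟨of x * mk s, hm⟩ := by
          rw [e2, _root_.map_mul, Equiv.Perm.mul_apply, ih hs', FreeGroup.lift_apply_of]
          exact hσ x ⟨mk s, hmem s hs'⟩ hm
        rw [this]
        exact Subtype.ext e2.symm
      | false =>
        have e2 : mk ((x, false) :: s) = (of x)⁻¹ * mk s := by
          rw [e]; rfl
        have e3 : of x * mk ((x, false) :: s) = mk s := by rw [e2]; group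
        have hm : of x * mk ((x, false) :: s) ∈ B := e3 ▸ hmem _ hs'
        have h4 := hσ x ⟨mk ((x, false) :: s), hmem _ hs⟩ hm
        have h5 : (FreeGroup.lift σ (mk ((x, false) :: s))) = (σ x)⁻¹ * FreeGroup.lift σ (mk s) := by
          rw [e2, _root_.map_mul, _root_.map_inv, FreeGroup.lift_apply_of]
        rw [h5, Equiv.Perm.mul_apply, ih hs', Equiv.Perm.inv_eq_iff_eq, h4]
        exact Subtype.ext e3.symm
  refine ⟨Equiv.Perm B, inferInstance, inferInstance, FreeGroup.lift σ, fun h => hw ?_⟩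
  have h2 := key L List.suffix_rfl
  rw [h] at h2
  exact (congrArg Subtype.val h2).symm

theorem hopf {α : Type} [Finite α] (φ : FreeGroup α →* FreeGroup α)
    (h : Function.Surjective φ) : Function.Injective φ := by
  rw [injective_iff_map_eq_one]
  intro w hw
  by_contra hne
  obtain ⟨Q, _, _, η, hη⟩ := SHopf_res w hne
  have : Finite (FreeGroup α →* Q) := Finite.of_equiv _ (FreeGroup.lift (α := α) (β := Q))
  have hinj : Function.Injective (fun ψ : FreeGroup α →* Q => ψ.comp φ) := by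
    intro a b hab
    ext x
    obtain ⟨y, hy⟩ := h (of x)
    have := DFunLike.congr_fun hab y
    simpa [hy] using this
  obtain ⟨ψ, hψ⟩ := Finite.injective_iff_surjective.1 hinj η
  apply hη
  rw [← hψ]
  simp [hw]

end Pool.Agent.MP_61a8e3_al.G4.S

end

section

/-! A lift of an automorphism of the surface group does not kill the relator. -/

namespace Pool.Agent.MP_61a8e3_al.G4.S

open FreeGroup

/-- The Heisenberg group modulo two. -/
@[ext] structure SHeis_H where
  a : ZMod 2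
  b : ZMod 2
  c : ZMod 2

instance : Mul SHeis_H := ⟨fun u v => ⟨u.a + v.a, u.b + v.b, u.c + v.c + u.a * v.b⟩⟩
instance : One SHeis_H := ⟨⟨0, 0, 0⟩⟩
instance : Inv SHeis_H := ⟨fun u => ⟨-u.a, -u.b, -u.c + u.a * u.b⟩⟩

@[simp] theorem SHeis_mul_a (u v : SHeis_H) : (u * v).a = u.a + v.a := rfl
@[simp] theorem SHeis_mul_b (u v : SHeis_H) : (u * v).b = u.b + v.b := rfl
@[simp] theorem SHeis_mul_c (u v : SHeis_H) : (u * v).c = u.c + v.c + u.a * v.b := rfl
@[simp] theorem SHeis_one_a : (1 : SHeis_H).a = 0 := rfl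
@[simp] theorem SHeis_one_b : (1 : SHeis_H).b = 0 := rfl
@[simp] theorem SHeis_one_c : (1 : SHeis_H).c = 0 := rfl
@[simp] theorem SHeis_inv_a (u : SHeis_H) : u⁻¹.a = -u.a := rfl
@[simp] theorem SHeis_inv_b (u : SHeis_H) : u⁻¹.b = -u.b := rfl
@[simp] theorem SHeis_inv_c (u : SHeis_H) : u⁻¹.c = -u.c + u.a * u.b := rfl

instance : Group SHeis_H := Group.ofLeftAxioms
  (fun u v w => by ext <;> simp <;> ring)
  (fun u => by ext <;> simp)
  (fun u => by
    ext <;> simp only [SHeis_mul_a, SHeis_mul_b, SHeis_mul_c, SHeis_inv_a, SHeis_inv_b,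
      SHeis_inv_c, SHeis_one_a, SHeis_one_b, SHeis_one_c] <;> ring)

/-- The first coordinate. -/
def SHeis_A : SHeis_H →* Multiplicative (ZMod 2) where
  toFun u := Multiplicative.ofAdd u.a
  map_one' := rfl
  map_mul' _ _ := rfl

/-- The second coordinate. -/
def SHeis_B : SHeis_H →* Multiplicative (ZMod 2) where
  toFun u := Multiplicative.ofAdd u.b
  map_one' := rfl
  map_mul' _ _ := rfl

theorem SHeis_rel {G : Type*} [Group G] (f : F →* G) :
    f rel = (f (of (.inl 0)) * f (of (.inr 0)) * (f (of (.inl 0)))⁻¹ * (f (of (.inr 0)))⁻¹) *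
      ((f (of (.inl 1)) * f (of (.inr 1)) * (f (of (.inl 1)))⁻¹ * (f (of (.inr 1)))⁻¹) *
      ((f (of (.inl 2)) * f (of (.inr 2)) * (f (of (.inl 2)))⁻¹ * (f (of (.inr 2)))⁻¹) *
      (f (of (.inl 3)) * f (of (.inr 3)) * (f (of (.inl 3)))⁻¹ * (f (of (.inr 3)))⁻¹))) := by
  simp only [rel, List.ofFn_succ, List.ofFn_zero, List.prod_cons, List.prod_nil,
    MonoidHom.map_mul, MonoidHom.map_inv, mul_one]
  rfl

/-- The character dual to the generator `x0`. -/
def SHeis_chi (x0 : X) : Pi →* Multiplicative (ZMod 2) :=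
  PresentedGroup.toGroup (f := fun x => Multiplicative.ofAdd (if x = x0 then 1 else 0)) (by
    intro r hr
    rw [Set.mem_singleton_iff.1 hr, SHeis_rel]
    simp)

theorem SHeis_chi_of (x0 x : X) :
    SHeis_chi x0 (pr (of x)) = Multiplicative.ofAdd (if x = x0 then 1 else 0) :=
  PresentedGroup.toGroup.of _

theorem heis (θ : MulAut Pi) (φ : F →* F) (h : ∀ x, pr (φ x) = θ (pr x)) : φ rel ≠ 1 := by
  intro h0
  let l : F →* Multiplicative (ZMod 2) :=
    ((SHeis_chi (.inl 0)).comp θ.symm.toMonoidHom).comp pr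
  let m : F →* Multiplicative (ZMod 2) :=
    ((SHeis_chi (.inr 0)).comp θ.symm.toMonoidHom).comp pr
  let η : F →* SHeis_H := FreeGroup.lift fun x => ⟨(l (of x)).toAdd, (m (of x)).toAdd, 0⟩
  have hA : SHeis_A.comp η = l := FreeGroup.ext_hom _ _ fun x => by simp [η, SHeis_A]
  have hB : SHeis_B.comp η = m := FreeGroup.ext_hom _ _ fun x => by simp [η, SHeis_B]
  have ha : ∀ x, (η (φ (of x))).a = if x = .inl 0 then 1 else 0 := fun x => by
    have h1 : SHeis_A (η (φ (of x))) = l (φ (of x)) := DFunLike.congr_fun hA _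
    have h2 : l (φ (of x)) = SHeis_chi (.inl 0) (pr (of x)) := by
      change SHeis_chi (.inl 0) (θ.symm (pr (φ (of x)))) = _
      rw [h, MulEquiv.symm_apply_apply]
    rw [h2, SHeis_chi_of] at h1
    exact Multiplicative.ofAdd.injective h1
  have hb : ∀ x, (η (φ (of x))).b = if x = .inr 0 then 1 else 0 := fun x => by
    have h1 : SHeis_B (η (φ (of x))) = m (φ (of x)) := DFunLike.congr_fun hB _
    have h2 : m (φ (of x)) = SHeis_chi (.inr 0) (pr (of x)) := by
      change SHeis_chi (.inr 0) (θ.symm (pr (φ (of x)))) = _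
      rw [h, MulEquiv.symm_apply_apply]
    rw [h2, SHeis_chi_of] at h1
    exact Multiplicative.ofAdd.injective h1
  have h3 := SHeis_rel (η.comp φ)
  have h4 : (η.comp φ) rel = 1 := by
    rw [MonoidHom.comp_apply, h0]
    exact η.map_one
  rw [h4] at h3
  have h5 := congrArg SHeis_H.c h3
  simp [ha, hb] at h5
  revert h5
  generalize (η (φ (of (Sum.inl 0)))).c = c1
  generalize (η (φ (of (Sum.inr 0)))).c = c2
  generalize (η (φ (of (Sum.inl 1)))).c = c3
  generalize (η (φ (of (Sum.inr 1)))).c = c4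
  generalize (η (φ (of (Sum.inl 2)))).c = c5
  generalize (η (φ (of (Sum.inr 2)))).c = c6
  generalize (η (φ (of (Sum.inl 3)))).c = c7
  generalize (η (φ (of (Sum.inr 3)))).c = c8
  revert c1 c2 c3 c4 c5 c6 c7 c8
  decide

end Pool.Agent.MP_61a8e3_al.G4.S

end

section

namespace Pool.Agent.MP_61a8e3_al.G4.S

open FreeGroup

theorem SDipole_rot_eq {α : Type} {x : α} {A B : List α} (hx : x ∉ A)
    (h : (x :: A) ~r (x :: B)) : A = B := by
  obtain ⟨n, hn, h⟩ := List.isRotated_iff_mod.1 h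
  rw [List.rotate_eq_drop_append_take hn] at h
  cases n with
  | zero => simpa using h
  | succ k =>
    simp only [List.drop_succ_cons, List.take_succ_cons] at h
    rcases hd : A.drop k with _ | ⟨y, ys⟩
    · rw [hd] at h
      have h2 : A.take k = A := by
        conv_rhs => rw [← List.take_append_drop k A, hd, List.append_nil]
      simpa [h2] using h
    · rw [hd] at h
      have hy : y = x := by
        simp only [List.cons_append, List.cons.injEq] at h
        exact h.1
      exact absurd (List.mem_of_mem_drop (i := k) (by rw [hd, hy]; simp)) hx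

theorem SDipole_invRev_rot {E : Type} {L L' : List (E × Bool)} (h : L ~r L') :
    invRev L ~r invRev L' := by
  rw [invRev_eq, invRev_eq]
  exact (h.map iv).reverse

theorem SDipole_invRev_rws (b : Bool) : invRev (rws b) = rws (!b) := by
  cases b
  · simp [rws]
  · simp [rws]

theorem SDipole_nodup (b : Bool) : (rws b).Nodup := by
  cases b <;> decide

theorem SDipole_not_rot (b : Bool) : ¬ (rws b ~r rws (!b)) := by
  cases b <;> decide

theorem SDipole_rot_of_mem {α : Type} {x : α} {C : List α} (h : x ∈ C) :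
    ∃ A, C ~r (x :: A) := by
  obtain ⟨s, t, rfl⟩ := List.append_of_mem h
  exact ⟨t ++ s, by simpa using List.isRotated_append (l := s) (l' := x :: t)⟩

theorem SDipole_mk_cons {E : Type} (x : E × Bool) (L : List (E × Bool)) :
    mk (x :: L) = mk [x] * mk L := by
  rw [mul_mk]; rfl

theorem SDipole_mk_iv {E : Type} (x : E × Bool) : mk [iv x] = (mk [x])⁻¹ := by
  rw [inv_mk]; rfl

theorem SDipole_agree {E : Type} (lab : E → X) (a : FreeGroup E →* F) (e : E)
    (ha : ∀ e', e' ≠ e → a (of e') = of (lab e')) (L : List (E × Bool))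
    (hL : ∀ x ∈ L, x.1 ≠ e) : a (mk L) = mk (L.map (lb lab)) := by
  induction L with
  | nil => exact _root_.map_one a
  | cons x L ih =>
    rw [List.map_cons, SDipole_mk_cons, SDipole_mk_cons (lb lab x), _root_.map_mul,
      ih (fun y hy => hL y (List.mem_cons_of_mem _ hy))]
    congr 1
    have hx := ha x.1 (hL x List.mem_cons_self)
    rcases x with ⟨e', _ | _⟩
    · have h1 : mk [(e', false)] = (of e')⁻¹ := SDipole_mk_iv (e', true)
      have h2 : mk [lb lab (e', false)] = (of (lab e'))⁻¹ := SDipole_mk_iv (lab e', true)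
      rw [h1, h2, _root_.map_inv, hx]
    · exact hx

theorem SDipole_prod_filter {G : Type} [Group G] [DecidableEq G] (l : List G) :
    (l.filter (fun z => z ≠ 1)).prod = l.prod := by
  induction l with
  | nil => rfl
  | cons x l ih =>
    by_cases hx : x = 1
    · simpa [hx] using ih
    · simp only [ne_eq, decide_not] at ih
      simp [hx, ih]

theorem SDipole_edge {E : Type} {d x : E × Bool} (h : x.1 = d.1) : x = d ∨ x = iv d := by
  rcases x with ⟨e, b⟩
  rcases d with ⟨e', b'⟩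
  simp only at h
  subst h
  cases b <;> cases b' <;> simp [iv]

theorem SDipole_pr_one {L : List Lt} {b : Bool} (h : L ~r rws b) : pr (mk L) = 1 := by
  have h1 := pr.map_isConj (isConj_mk_of_isRotated h)
  have h2 : pr (mk (rws b)) = 1 := by
    rw [mk_rws]
    cases b
    · simp only [cond_false, _root_.map_inv, pr_rel, inv_one]
    · exact pr_rel
  rw [h2] at h1
  exact isConj_one_left.1 h1

theorem dipole {E : Type} {φ : F →* F} {lab : E → X} {P : List (List (E × Bool) × FreeGroup E)}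
    {ψ : F →* FreeGroup E} (h : Final φ lab P ψ) (hd : Dipole lab (P.map Prod.fst)) :
    ∃ φ' : F →* F, (∀ x, pr (φ' x) = pr (φ x)) ∧ ∃ n < P.length, PC n (φ' rel) := by
  classical
  obtain ⟨C, hC, C', hC', b, d, hCb, hCb', hdC, hdC'⟩ := hd
  have hne : C ≠ C' := by
    rintro rfl
    exact SDipole_not_rot b (hCb.symm.trans hCb')
  obtain ⟨hnd, hpw⟩ := List.nodup_flatten.1 h.faces.good.1
  have hdis : ∀ D ∈ P.map Prod.fst, ∀ D' ∈ P.map Prod.fst, D ≠ D' → List.Disjoint D D' :=
    haveI : Std.Symm (List.Disjoint : List (E × Bool) → List (E × Bool) → Prop) :=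
      ⟨fun _ _ hh => List.Disjoint.symm hh⟩
    fun D hD D' hD' hn => hpw.forall hD hD' hn
  obtain ⟨A, hA⟩ := SDipole_rot_of_mem hdC
  obtain ⟨B, hB⟩ := SDipole_rot_of_mem hdC'
  have hAn : d ∉ A := (List.nodup_cons.1 (hA.nodup_iff.1 (hnd C hC))).1
  have hBn : iv d ∉ B := (List.nodup_cons.1 (hB.nodup_iff.1 (hnd C' hC'))).1
  have hAe : ∀ x ∈ A, x.1 ≠ d.1 := by
    intro x hx he
    rcases SDipole_edge he with rfl | rfl
    · exact hAn hx
    · exact hdis C hC C' hC' hne (hA.mem_iff.2 (List.mem_cons_of_mem _ hx)) hdC'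
  have hBe : ∀ x ∈ B, x.1 ≠ d.1 := by
    intro x hx he
    rcases SDipole_edge he with rfl | rfl
    · exact hdis C hC C' hC' hne hdC (hB.mem_iff.2 (List.mem_cons_of_mem _ hx))
    · exact hBn hx
  have hLA : (lb lab d :: A.map (lb lab)) ~r rws b := (hA.map (lb lab)).symm.trans hCb
  have hLB : (iv (lb lab d) :: B.map (lb lab)) ~r rws (!b) := (hB.map (lb lab)).symm.trans hCb'
  have hLA' : (iv (lb lab d) :: invRev (A.map (lb lab))) ~r rws (!b) := by
    have h1 := SDipole_invRev_rot hLA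
    rw [SDipole_invRev_rws, invRev_cons] at h1
    exact (List.isRotated_append (l := [iv (lb lab d)]) (l' := invRev (A.map (lb lab)))).trans h1
  have hBA : B.map (lb lab) = invRev (A.map (lb lab)) :=
    SDipole_rot_eq (List.nodup_cons.1 (hLB.nodup_iff.2 (SDipole_nodup _))).1
      (hLB.trans hLA'.symm)
  let g : F := cond d.2 (mk (A.map (lb lab)))⁻¹ (mk (A.map (lb lab)))
  let a : FreeGroup E →* F := FreeGroup.lift (fun e' => if e' = d.1 then g else of (lab e'))
  have ha : ∀ e', e' ≠ d.1 → a (of e') = of (lab e') := by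
    intro e' he'
    simp [a, he']
  have hae : a (of d.1) = g := by simp [a]
  have had : a (mk [d]) = (mk (A.map (lb lab)))⁻¹ := by
    rcases d with ⟨e, _ | _⟩
    · have h1 : mk [(e, false)] = (of e)⁻¹ := SDipole_mk_iv (e, true)
      rw [h1, _root_.map_inv, hae]
      rfl
    · exact hae
  have hpr : ∀ y, pr (a y) = pr (FreeGroup.map lab y) := by
    have : pr.comp a = pr.comp (FreeGroup.map lab) := by
      refine FreeGroup.ext_hom _ _ (fun e' => ?_)
      simp only [MonoidHom.comp_apply, FreeGroup.map.of]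
      by_cases he' : e' = d.1
      · subst he'
        have h1 := SDipole_pr_one hLA
        rw [SDipole_mk_cons, _root_.map_mul] at h1
        rw [hae]
        rcases d with ⟨e, _ | _⟩
        · have h2 : mk [lb lab (e, false)] = (of (lab e))⁻¹ := SDipole_mk_iv (lab e, true)
          rw [h2, _root_.map_inv] at h1
          exact (inv_mul_eq_one.1 h1).symm
        · have h2 : mk [lb lab (e, true)] = of (lab e) := rfl
          rw [h2] at h1
          show pr (mk (A.map (lb lab)))⁻¹ = pr (of (lab e))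
          rw [_root_.map_inv]
          exact (eq_inv_of_mul_eq_one_left h1).symm
      · rw [ha e' he']
    exact fun y => DFunLike.congr_fun this y
  have hone : ∀ p ∈ P, p.1 = C ∨ p.1 = C' → a p.2 = 1 := by
    intro p hp hc
    have h1 := a.map_isConj (h.conj p hp)
    have h2 : a (mk p.1) = 1 := by
      rcases hc with hc | hc
      · have h3 := a.map_isConj (isConj_mk_of_isRotated hA)
        rw [SDipole_mk_cons, _root_.map_mul, had, SDipole_agree lab a d.1 ha A hAe,
          inv_mul_cancel] at h3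
        rw [hc]
        exact isConj_one_left.1 h3
      · have h3 := a.map_isConj (isConj_mk_of_isRotated hB)
        rw [SDipole_mk_cons, _root_.map_mul, SDipole_mk_iv, _root_.map_inv, had,
          SDipole_agree lab a d.1 ha B hBe, hBA, ← inv_mk, inv_inv, mul_inv_cancel] at h3
        rw [hc]
        exact isConj_one_left.1 h3
    rw [h2] at h1
    exact isConj_one_right.1 h1
  refine ⟨a.comp ψ, fun x => by rw [MonoidHom.comp_apply, hpr, h.lifts], ?_⟩
  refine ⟨(((P.map Prod.snd).map a).filter (fun z => z ≠ 1)).length, ?_, _, rfl, ?_, ?_⟩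
  · obtain ⟨p, hp, hpC⟩ := List.mem_map.1 hC
    have : (((P.map Prod.snd).map a).filter (fun z => z ≠ 1)).length <
        ((P.map Prod.snd).map a).length := by
      refine List.length_filter_lt_length_iff_exists.2 ⟨a p.2, ?_, ?_⟩
      · exact List.mem_map_of_mem (List.mem_map_of_mem hp)
      · simp [hone p hp (Or.inl hpC)]
    simpa using this
  · intro z hz
    obtain ⟨hz, hz1⟩ := List.mem_filter.1 hz
    obtain ⟨w, hw, rfl⟩ := List.mem_map.1 hz
    obtain ⟨p, hp, rfl⟩ := List.mem_map.1 hw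
    have hz1 : a p.2 ≠ 1 := by simpa using hz1
    have hpm : p.1 ∈ P.map Prod.fst := List.mem_map_of_mem hp
    have h1 : p.1 ≠ C := fun hc => hz1 (hone p hp (Or.inl hc))
    have h2 : p.1 ≠ C' := fun hc => hz1 (hone p hp (Or.inr hc))
    have hpe : ∀ x ∈ p.1, x.1 ≠ d.1 := by
      intro x hx he
      rcases SDipole_edge he with rfl | rfl
      · exact hdis _ hpm C hC h1 hx hdC
      · exact hdis _ hpm C' hC' h2 hx hdC'
    obtain ⟨b', hb'⟩ := h.faces.labC _ hpm
    have h3 := a.map_isConj (h.conj p hp)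
    rw [SDipole_agree lab a d.1 ha p.1 hpe] at h3
    have h4 := (isConj_mk_of_isRotated hb').symm.trans h3
    rw [mk_rws] at h4
    cases b'
    · exact Or.inr h4
    · exact Or.inl h4
  · rw [SDipole_prod_filter, MonoidHom.comp_apply, h.prod, map_list_prod]

end Pool.Agent.MP_61a8e3_al.G4.S

end

section

namespace Pool.Agent.MP_61a8e3_al.G4.S

open FreeGroup

/-- The cyclic successor of `iv l` in the word `rws b`. -/
def SWalk_nu (b : Bool) (l : Lt) : Lt :=
  (rws b).getD (((rws b).idxOf (iv l) + 1) % 16) l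

theorem SWalk_len (b : Bool) : (rws b).length = 16 := by
  cases b <;> rfl

theorem SWalk_succ : ∀ (b : Bool) (k : Fin 16) (l l2 : Lt),
    ((rws b).rotate k).take 2 = [l, l2] → l2 = SWalk_nu b (iv l) := by
  decide +kernel

theorem SWalk_trans : ∀ (b : Bool) (l l' : Lt), ∃ k : Fin 16, (SWalk_nu b)^[k] l = l' := by
  decide +kernel

theorem SWalk_step {E : Type} {lab : E → X} {Cs : List (List (E × Bool))} (h : Faces lab Cs)
    (hd : ¬ Dipole lab Cs) (b : Bool) {C : List (E × Bool)} (hC : C ∈ Cs)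
    (hb : C.map (lb lab) ~r rws b) {d : E × Bool} (hdC : d ∈ C) :
    ∃ C' ∈ Cs, C'.map (lb lab) ~r rws b ∧ ∃ d' ∈ C', lb lab d' = SWalk_nu b (lb lab d) ∧
      ∀ (Ω : Type) (f : E × Bool → Ω), Closed f Cs → f d = f d' := by
  have h1 : iv d ∈ Cs.flatten := h.good.2 d (List.mem_flatten.2 ⟨C, hC, hdC⟩)
  obtain ⟨C', hC', hdC'⟩ := List.mem_flatten.1 h1
  obtain ⟨b', hb'⟩ := h.labC C' hC'
  have hbb : b' = b := by
    by_contra hne
    have : b' = !b := by cases b <;> cases b' <;> simp_all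
    exact hd ⟨C, hC, C', hC', b, d, hb, this ▸ hb', hdC, hdC'⟩
  subst hbb
  refine ⟨C', hC', hb', ?_⟩
  obtain ⟨A, B, hAB⟩ := List.append_of_mem hdC'
  have hrot : C' ~r iv d :: (B ++ A) := by
    rw [hAB]
    exact List.isRotated_append
  have hlen : (iv d :: (B ++ A)).length = 16 := by
    rw [← hrot.perm.length_eq, ← List.length_map (f := lb lab), hb'.perm.length_eq, SWalk_len]
  obtain ⟨d2, B', hB'⟩ : ∃ d2 B', B ++ A = d2 :: B' := by
    rcases hBA : B ++ A with _ | ⟨d2, B'⟩
    · rw [hBA] at hlen; simp at hlen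
    · exact ⟨d2, B', rfl⟩
  rw [hB'] at hrot
  refine ⟨d2, hrot.symm.mem_iff.1 (by simp), ?_, ?_⟩
  · have h2 : rws b' ~r (iv d :: d2 :: B').map (lb lab) := hb'.symm.trans (hrot.map _)
    obtain ⟨n, hn⟩ := h2
    have h3 : (rws b').rotate (n % 16) = (iv d :: d2 :: B').map (lb lab) := by
      rw [← hn, ← SWalk_len b', List.rotate_mod]
    have h4 := SWalk_succ b' ⟨n % 16, Nat.mod_lt _ (by norm_num)⟩ (lb lab (iv d)) (lb lab d2)
      (by rw [h3]; rfl)
    rw [h4, lb_iv, iv_iv]
  · intro Ω f hf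
    obtain ⟨a, ha⟩ := path_rotate f hrot (hf C' hC')
    have h5 := ha.2.1
    rw [iv_iv] at h5
    exact h5.symm

theorem SWalk_iter {E : Type} {lab : E → X} {Cs : List (List (E × Bool))} (h : Faces lab Cs)
    (hd : ¬ Dipole lab Cs) (b : Bool) {C : List (E × Bool)} (hC : C ∈ Cs)
    (hb : C.map (lb lab) ~r rws b) {d : E × Bool} (hdC : d ∈ C) (k : ℕ) :
    ∃ C' ∈ Cs, C'.map (lb lab) ~r rws b ∧ ∃ d' ∈ C', lb lab d' = (SWalk_nu b)^[k] (lb lab d) ∧
      ∀ (Ω : Type) (f : E × Bool → Ω), Closed f Cs → f d = f d' := by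
  induction k with
  | zero => exact ⟨C, hC, hb, d, hdC, rfl, fun _ _ _ => rfl⟩
  | succ k ih =>
    obtain ⟨C1, hC1, hb1, d1, hd1, hl1, hf1⟩ := ih
    obtain ⟨C2, hC2, hb2, d2, hd2, hl2, hf2⟩ := SWalk_step h hd b hC1 hb1 hd1
    refine ⟨C2, hC2, hb2, d2, hd2, ?_, fun Ω f hf => (hf1 Ω f hf).trans (hf2 Ω f hf)⟩
    rw [hl2, hl1, Function.iterate_succ_apply']

theorem walk {E : Type} {lab : E → X} {Cs : List (List (E × Bool))} (h : Faces lab Cs)
    (hd : ¬ Dipole lab Cs) : WalkP lab Cs := by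
  intro d hdm l
  obtain ⟨C, hC, hdC⟩ := List.mem_flatten.1 hdm
  obtain ⟨b, hb⟩ := h.labC C hC
  obtain ⟨k, hk⟩ := SWalk_trans b (lb lab d) l
  obtain ⟨C', hC', -, d', hd', hl, hf⟩ := SWalk_iter h hd b hC hb hdC k
  exact ⟨d', List.mem_flatten.2 ⟨C', hC', hd'⟩, hl.trans hk, hf⟩

end Pool.Agent.MP_61a8e3_al.G4.S

end

section

/-! A folded configuration whose vertices see all sixteen labels has at most one face. -/

namespace Pool.Agent.MP_61a8e3_al.G4.S

open FreeGroup

theorem SCount_countP {E : Type} (lab : E → X) (p : Lt → Bool) (k : ℕ)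
    (hp : ∀ b, (rws b).countP p = k) (Cs : List (List (E × Bool)))
    (h : ∀ C ∈ Cs, ∃ b, C.map (lb lab) ~r rws b) :
    Cs.flatten.countP (fun d => p (lb lab d)) = k * Cs.length := by
  induction Cs with
  | nil => simp
  | cons C Cs ih =>
    rw [List.flatten_cons, List.countP_append, ih (fun C' hC' => h C' (List.mem_cons_of_mem _ hC')),
      List.length_cons]
    obtain ⟨b, hb⟩ := h C List.mem_cons_self
    have h1 := hb.perm.countP_eq p
    rw [List.countP_map, hp b] at h1
    have h2 : C.countP (fun d => p (lb lab d)) = k := h1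
    rw [h2]; ring

theorem SCount_card {α : Type} [DecidableEq α] (D : List α) (hD : D.Nodup) (p : α → Bool) :
    Nat.card {d : α // d ∈ D ∧ p d = true} = D.countP p := by
  have h1 : Nat.card {d : α // d ∈ D ∧ p d = true} = Nat.card (D.filter p).toFinset := by
    refine Nat.card_congr (Equiv.subtypeEquivRight ?_)
    intro d
    simp
  rw [h1, Nat.card_eq_fintype_card, Fintype.card_coe, List.toFinset_card_of_nodup (hD.filter p),
    List.countP_eq_length_filter]

theorem SCount_finite {α : Type} (D : List α) (p : α → Bool) :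
    Finite {d : α // d ∈ D ∧ p d = true} := by
  have : ({d : α | d ∈ D ∧ p d = true} : Set α).Finite :=
    (List.finite_toSet D).subset (fun d hd => hd.1)
  exact this

theorem SCount_lift_mul {E Γ : Type} [CommGroup Γ] (c c' : E → Γ) (w : FreeGroup E) :
    FreeGroup.lift (c * c') w = FreeGroup.lift c w * FreeGroup.lift c' w := by
  have : FreeGroup.lift (c * c') = FreeGroup.lift c * FreeGroup.lift c' := by
    apply FreeGroup.ext_hom
    intro a
    simp
  rw [this]; rfl

open Classical in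
/-- Extension by one of a function on the positive darts of `D`. -/
noncomputable def SCount_ext {E : Type} (D : List (E × Bool)) :
    ({d : E × Bool // d ∈ D ∧ d.2 = true} → ℤˣ) →* (E → ℤˣ) where
  toFun c e := if h : (e, true) ∈ D then c ⟨(e, true), h, rfl⟩ else 1
  map_one' := by
    funext e
    by_cases h : (e, true) ∈ D <;> simp [h]
  map_mul' c c' := by
    funext e
    by_cases h : (e, true) ∈ D <;> simp [h]

theorem SCount_ext_apply {E : Type} (D : List (E × Bool))
    (c : {d : E × Bool // d ∈ D ∧ d.2 = true} → ℤˣ) (e : E) (h : (e, true) ∈ D) :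
    SCount_ext D c e = c ⟨(e, true), h, rfl⟩ := by
  simp [SCount_ext, h]

/-- Evaluation of a cochain on a family of words. -/
noncomputable def SCount_ev {E I : Type} (w : I → FreeGroup E) : (E → ℤˣ) →* (I → ℤˣ) where
  toFun c i := FreeGroup.lift c (w i)
  map_one' := by
    funext i
    have h := SCount_lift_mul (1 : E → ℤˣ) 1 (w i)
    rw [mul_one] at h
    exact left_eq_mul.1 h
  map_mul' c c' := by
    funext i
    exact SCount_lift_mul c c' (w i)

theorem count {E : Type} {φ : F →* F} {lab : E → X} {P : List (List (E × Bool) × FreeGroup E)}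
    {ψ : F →* FreeGroup E} (h : Final φ lab P ψ) (hw : WalkP lab (P.map Prod.fst)) :
    P.length ≤ 1 := by
  classical
  set Cs := P.map Prod.fst with hCs
  have hlen : Cs.length = P.length := by simp [hCs]
  have hnd : Cs.flatten.Nodup := h.faces.good.1
  have hS : Nat.card {d : E × Bool // d ∈ Cs.flatten ∧ d.2 = true} = 8 * P.length := by
    rw [SCount_card _ hnd (fun d => d.2), ← hlen]
    exact SCount_countP lab (fun l => l.2) 8 (by decide) Cs h.faces.labC
  have hT : Nat.card {d : E × Bool // d ∈ Cs.flatten ∧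
      decide (lb lab d = (Sum.inl 0, true)) = true} = 1 * P.length := by
    rw [SCount_card _ hnd (fun d => decide (lb lab d = (Sum.inl 0, true))), ← hlen]
    exact SCount_countP lab (fun l => decide (l = (Sum.inl 0, true))) 1 (by decide) Cs
      h.faces.labC
  have := SCount_finite Cs.flatten (fun d => d.2)
  have := SCount_finite Cs.flatten (fun d => decide (lb lab d = (Sum.inl 0, true)))
  let w : Fin P.length ⊕ X → FreeGroup E := Sum.elim (fun j => (P.get j).2) (fun x => ψ (of x))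
  let Θ := (SCount_ev w).comp (SCount_ext Cs.flatten)
  have hpot : ∀ c : Θ.ker, ∃ f : E × Bool → ℤˣ, Pot (SCount_ext Cs.flatten c.1) f Cs := by
    rintro ⟨c, hc⟩
    have hc' : ∀ i, FreeGroup.lift (SCount_ext Cs.flatten c) (w i) = 1 := fun i =>
      congrFun (MonoidHom.mem_ker.1 hc) i
    refine h.pot ℤˣ ℤˣ _ 1 ?_ ?_
    · intro x
      have h1 : (FreeGroup.lift (SCount_ext Cs.flatten c)).comp ψ = 1 := by
        apply FreeGroup.ext_hom
        intro a
        exact hc' (Sum.inr a)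
      have h2 : FreeGroup.lift (SCount_ext Cs.flatten c) (ψ x) = 1 := DFunLike.congr_fun h1 x
      rw [h2, one_smul]
    · intro p hp
      obtain ⟨j, rfl⟩ := List.mem_iff_get.1 hp
      have h2 : FreeGroup.lift (SCount_ext Cs.flatten c) (P.get j).2 = 1 := hc' (Sum.inl j)
      rw [h2, one_smul]
  choose f hf using hpot
  let r : Θ.ker → ({d : E × Bool // d ∈ Cs.flatten ∧
      decide (lb lab d = (Sum.inl 0, true)) = true} → ℤˣ) := fun c d => f c d.1
  have hr : Function.Injective r := by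
    intro c c' hcc
    have key : ∀ d ∈ Cs.flatten, f c d = f c' d := by
      intro d hd
      obtain ⟨d', hd', hl, hall⟩ := hw d hd (Sum.inl 0, true)
      rw [hall _ _ (hf c).1, hall _ _ (hf c').1]
      exact congrFun hcc ⟨d', hd', decide_eq_true hl⟩
    apply Subtype.ext
    funext ⟨⟨e, b⟩, hd, hb⟩
    have hb' : b = true := hb
    subst hb'
    have h1 := (hf c).2 e hd
    have h2 := (hf c').2 e hd
    have hd2 : (e, false) ∈ Cs.flatten := h.faces.good.2 _ hd
    rw [SCount_ext_apply _ _ _ hd] at h1 h2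
    rw [key _ hd, key _ hd2, h2] at h1
    exact (mul_right_cancel h1).symm
  have c2 : Nat.card ℤˣ = 2 := by rw [Nat.card_eq_fintype_card, Fintype.card_units_int]
  have hk : Nat.card Θ.ker ≤ 2 ^ (1 * P.length) := by
    have := Nat.card_le_card_of_injective r hr
    rwa [Nat.card_fun, c2, hT] at this
  have hi : Θ.ker.index ≤ 2 ^ (P.length + 8) := by
    rw [Subgroup.index_ker]
    have := Nat.card_le_card_of_injective _ (Subtype.val_injective (p := fun x => x ∈ Θ.range))
    rw [Nat.card_fun, c2, Nat.card_sum] at this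
    simpa using this
  have hm := Subgroup.card_mul_index Θ.ker
  rw [Nat.card_fun, c2, hS] at hm
  have h3 : 2 ^ (8 * P.length) ≤ 2 ^ (1 * P.length + (P.length + 8)) := by
    rw [← hm, pow_add]
    exact Nat.mul_le_mul hk hi
  have h4 := (Nat.pow_le_pow_iff_right (by norm_num : 1 < 2)).1 h3
  omega

end Pool.Agent.MP_61a8e3_al.G4.S

end

section

/-! One face: the endomorphism is surjective and preserves the relator up to conjugacy and
inversion. -/

namespace Pool.Agent.MP_61a8e3_al.G4.S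

open FreeGroup

theorem SSurj_nodup (b : Bool) : (rws b).Nodup := by
  cases b <;> decide

theorem SSurj_mem (b : Bool) (l : Lt) : l ∈ rws b := by
  have h0 : ∀ l : Lt, l ∈ rw0 := by
    rintro ⟨x | x, s⟩ <;> fin_cases x <;> cases s <;> simp [rw0]
  cases b
  · exact mem_invRev.2 (h0 _)
  · exact h0 _

theorem SSurj_lift {E : Type} (lab : E → X) (w : FreeGroup E) :
    FreeGroup.lift (fun e => (FreeGroup.of (lab e) : F)) w = FreeGroup.map lab w := by
  have : FreeGroup.lift (fun e => (FreeGroup.of (lab e) : F)) = FreeGroup.map lab := by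
    ext e
    simp
  rw [this]

theorem SSurj_top {G : Type} [Group G] (H : Subgroup G) (q : G ⧸ H)
    (hq : ∀ g : G, g • q = q) : H = ⊤ := by
  induction q using QuotientGroup.induction_on with
  | H t =>
    rw [eq_top_iff]
    intro g _
    have h := hq (t * g * t⁻¹)
    rw [MulAction.Quotient.smul_mk, smul_eq_mul, eq_comm, QuotientGroup.eq] at h
    have e : t⁻¹ * (t * g * t⁻¹ * t) = g := by group
    rwa [e] at h

theorem surj {E : Type} {φ : F →* F} {lab : E → X} {P : List (List (E × Bool) × FreeGroup E)}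
    {ψ : F →* FreeGroup E} (h : Final φ lab P ψ) (hw : WalkP lab (P.map Prod.fst))
    (h1 : P.length = 1) :
    Function.Surjective φ ∧ (IsConj (φ rel) rel ∨ IsConj (φ rel) rel⁻¹) := by
  obtain ⟨⟨C, z⟩, rfl⟩ := List.length_eq_one_iff.1 h1
  have hz : ψ rel = z := by simpa using h.prod
  have hcz : IsConj (mk C) z := h.conj (C, z) (List.mem_singleton.2 rfl)
  obtain ⟨b, hb⟩ := h.faces.labC C (by simp)
  have hgood : Good C := by simpa using h.faces.good
  have hφ : φ rel = FreeGroup.map lab z := by rw [← h.lifts rel, hz]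
  constructor
  · have hfix : ∀ x : F, φ x • ((1 : F) : F ⧸ φ.range) = ((1 : F) : F ⧸ φ.range) := by
      intro x
      rw [MulAction.Quotient.smul_mk, smul_eq_mul, eq_comm, QuotientGroup.eq]
      exact ⟨x, by simp⟩
    obtain ⟨f, hcl, hf⟩ := h.pot F (F ⧸ φ.range) (fun e => FreeGroup.of (lab e))
      ((1 : F) : F ⧸ φ.range)
      (fun x => by rw [SSurj_lift, h.lifts]; exact hfix x)
      (fun p hp => by
        rw [List.mem_singleton.1 hp, SSurj_lift]
        show FreeGroup.map lab z • _ = _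
        rw [← hφ]; exact hfix rel)
    have hfl : (List.map Prod.fst [(C, z)]).flatten = C := by simp
    have hnd : (C.map (lb lab)).Nodup := hb.nodup_iff.2 (SSurj_nodup b)
    have hconst : ∀ d ∈ C, ∀ d' ∈ C, f d = f d' := by
      intro d hd d' hd'
      obtain ⟨d'', hd'', hl, hc⟩ := hw d (by rw [hfl]; exact hd) (lb lab d')
      rw [hfl] at hd''
      have := List.inj_on_of_nodup_map hnd hd'' hd' hl
      rw [← this]
      exact hc _ f hcl
    have hall : ∀ l : Lt, ∃ d ∈ C, lb lab d = l := fun l =>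
      List.mem_map.1 (hb.mem_iff.2 (SSurj_mem b l))
    obtain ⟨d0, hd0, -⟩ := hall (.inl 0, true)
    have hgen : ∀ x : X, (FreeGroup.of x : F) • f d0 = f d0 := by
      intro x
      obtain ⟨⟨e, s⟩, hd, hl⟩ := hall (x, true)
      have hs : s = true := congrArg Prod.snd hl
      have he : lab e = x := congrArg Prod.fst hl
      subst hs
      have hd' : (e, false) ∈ C := hgood.2 _ hd
      have := hf e (by rw [hfl]; exact hd)
      rw [hconst _ hd _ hd0, hconst _ hd' _ hd0] at this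
      rw [← he]
      exact this.symm
    have hst : ∀ g : F, g • f d0 = f d0 := by
      intro g
      have hg : g ∈ MulAction.stabilizer F (f d0) := by
        induction g using FreeGroup.induction_on with
        | C1 => exact one_mem _
        | of x => exact hgen x
        | inv_of x hx => exact inv_mem hx
        | mul x y hx hy => exact mul_mem hx hy
      exact hg
    exact MonoidHom.range_eq_top.1 (SSurj_top _ _ hst)
  · have h2 : IsConj (φ rel) (mk (rws b)) := by
      rw [hφ]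
      refine ((FreeGroup.map lab).map_isConj hcz).symm.trans ?_
      rw [map_mk_lb]
      exact isConj_mk_of_isRotated hb
    rw [mk_rws] at h2
    cases b
    · exact Or.inr h2
    · exact Or.inl h2

end Pool.Agent.MP_61a8e3_al.G4.S

end

section

/-! Nielsen lifting: every automorphism of the genus 4 surface group lifts to an automorphism of
the free group that fixes the conjugacy class of the relator up to inversion. -/

namespace Pool.Agent.MP_61a8e3_al.G4.S

open FreeGroup

theorem pc_of_pr_eq_one (g : F) (h : pr g = 1) : ∃ n, PC n g := by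
  have hg : g ∈ Subgroup.normalClosure ({rel} : Set F) := (PresentedGroup.mk_eq_one_iff).1 h
  refine Subgroup.closure_induction (p := fun g _ => ∃ n, PC n g) ?_ ?_ ?_ ?_ hg
  · intro x hx
    obtain ⟨a, ha, hx⟩ := Group.mem_conjugatesOfSet_iff.1 hx
    obtain rfl : a = rel := ha
    exact ⟨1, [x], rfl, by simpa using Or.inl hx, by simp⟩
  · exact ⟨0, [], rfl, by simp, rfl⟩
  · rintro x y - - ⟨n, l, -, hl, rfl⟩ ⟨m, l', -, hl', rfl⟩
    refine ⟨_, l ++ l', rfl, fun z hz => ?_, List.prod_append⟩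
    rcases List.mem_append.1 hz with hz | hz
    · exact hl z hz
    · exact hl' z hz
  · rintro x - ⟨n, l, -, hl, rfl⟩
    refine ⟨_, (l.map fun z => z⁻¹).reverse, rfl, fun z hz => ?_, (List.prod_inv_reverse l).symm⟩
    obtain ⟨w, hw, rfl⟩ := List.mem_map.1 (List.mem_reverse.1 hz)
    rcases hl w hw with h1 | h1 <;> obtain ⟨u, rfl⟩ := isConj_iff.1 h1
    · exact Or.inr (isConj_iff.2 ⟨u, by group⟩)
    · exact Or.inl (isConj_iff.2 ⟨u, by group⟩)

theorem lift_aux (θ : MulAut Pi) (n : ℕ) : ∀ φ : F →* F, (∀ x, pr (φ x) = θ (pr x)) →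
    PC n (φ rel) → ∃ α : MulAut F, (IsConj (α rel) rel ∨ IsConj (α rel) rel⁻¹) ∧
      ∀ x, pr (α x) = θ (pr x) := by
  induction n using Nat.strong_induction_on with
  | _ n ih =>
    intro φ hφ hn
    obtain ⟨E, lab, P, ψ, rfl, hF⟩ := exists_final φ n hn
    by_cases hd : Dipole lab (P.map Prod.fst)
    · obtain ⟨φ', h1, m, hm, h2⟩ := dipole hF hd
      exact ih m hm φ' (fun x => (h1 x).trans (hφ x)) h2
    · have hw := walk hF.faces hd
      have hc := count hF hw
      have h0 : P.length ≠ 0 := by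
        intro h0
        obtain rfl : P = [] := List.eq_nil_of_length_eq_zero h0
        apply heis θ φ hφ
        rw [← hF.lifts, hF.prod]
        exact _root_.map_one _
      obtain ⟨h1, h2⟩ := surj hF hw (by omega)
      exact ⟨MulEquiv.ofBijective φ ⟨hopf φ h1, h1⟩, h2, hφ⟩

theorem liftS (θ : MulAut Pi) : ∃ α : MulAut F,
    (IsConj (α rel) rel ∨ IsConj (α rel) rel⁻¹) ∧ ∀ x, pr (α x) = θ (pr x) := by
  choose y hy using fun x : X => PresentedGroup.mk_surjective ({rel} : Set F) (θ (pr (of x)))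
  have h : ∀ x, pr (FreeGroup.lift y x) = θ (pr x) := by
    have : pr.comp (FreeGroup.lift y) = θ.toMonoidHom.comp pr := by
      ext x : 1
      simpa using hy x
    exact fun x => DFunLike.congr_fun this x
  obtain ⟨n, hn⟩ := pc_of_pr_eq_one (FreeGroup.lift y rel) (by rw [h, pr_rel, _root_.map_one])
  exact lift_aux θ n _ h hn

end Pool.Agent.MP_61a8e3_al.G4.S

end

section

set_option autoImplicit false

namespace Pool.Agent.MP_61a8e3_al.G4.D

open A

theorem DGlue_surj : Function.Surjective (pr : F →* Pi) := PresentedGroup.mk_surjective _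

theorem DGlue_ker (α : G3) : pr ((α : MulAut F) r3) = 1 := by
  have h : IsConj ((α : MulAut F) r3) r3 := α.2
  have h2 := pr.map_isConj h
  rw [pr_r3] at h2
  exact isConj_one_left.1 h2

theorem DGlue_lift (α : G3) :
    FreeGroup.lift (fun x : X => pr ((α : MulAut F) (FreeGroup.of x))) =
      pr.comp (α : MulAut F).toMonoidHom :=
  FreeGroup.ext_hom _ _ fun x => by simp

/-- The endomorphism of the surface group induced by an element of `G3`. -/
def DGlue_d (α : G3) : Pi →* Pi :=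
  PresentedGroup.toGroup (f := fun x : X => pr ((α : MulAut F) (FreeGroup.of x))) (by
    intro r hr
    have hr' : r = r3 := hr
    rw [hr', DGlue_lift]
    exact DGlue_ker α)

theorem DGlue_d_pr (α : G3) (x : F) : DGlue_d α (pr x) = pr ((α : MulAut F) x) := by
  have : (DGlue_d α).comp pr = pr.comp (α : MulAut F).toMonoidHom :=
    FreeGroup.ext_hom _ _ fun z => by
      show DGlue_d α (PresentedGroup.of z) = pr ((α : MulAut F) (FreeGroup.of z))
      unfold DGlue_d
      rw [PresentedGroup.toGroup.of]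
  exact DFunLike.congr_fun this x

/-- The automorphism of the surface group induced by an element of `G3`. -/
def DGlue_e (α : G3) : MulAut Pi where
  toFun := DGlue_d α
  invFun := DGlue_d α⁻¹
  left_inv := fun y => by
    obtain ⟨x, rfl⟩ := DGlue_surj y
    rw [DGlue_d_pr, DGlue_d_pr, Subgroup.coe_inv, MulAut.inv_apply_self]
  right_inv := fun y => by
    obtain ⟨x, rfl⟩ := DGlue_surj y
    rw [DGlue_d_pr, DGlue_d_pr, Subgroup.coe_inv, MulAut.apply_inv_self]
  map_mul' := map_mul _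

theorem DGlue_e_pr (α : G3) (x : F) : DGlue_e α (pr x) = pr ((α : MulAut F) x) :=
  DGlue_d_pr α x

/-- The map to the automorphism group of the surface group. -/
def DGlue_m0 : G3 →* MulAut Pi :=
  MonoidHom.mk' DGlue_e fun α β => by
    ext y
    obtain ⟨x, rfl⟩ := DGlue_surj y
    rw [MulAut.mul_apply, DGlue_e_pr, DGlue_e_pr, DGlue_e_pr, Subgroup.coe_mul, MulAut.mul_apply]

theorem DGlue_m0_pr (α : G3) (x : F) : DGlue_m0 α (pr x) = pr ((α : MulAut F) x) :=
  DGlue_d_pr α x

/-- The projection to the outer automorphism group. -/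
abbrev DGlue_q : MulAut Pi →* OutPi := QuotientGroup.mk' _

/-- The map to the outer automorphism group of the surface group. -/
def DGlue_m : G3 →* OutPi := DGlue_q.comp DGlue_m0

theorem DGlue_inn {θ : MulAut Pi} (h : DGlue_q θ = 1) : ∃ g : Pi, MulAut.conj g = θ := by
  have h1 : θ ∈ Subgroup.normalClosure (Set.range (MulAut.conj : Pi →* MulAut Pi)) :=
    (QuotientGroup.eq_one_iff _).1 h
  haveI : (MulAut.conj : Pi →* MulAut Pi).range.Normal :=
    ⟨by
      rintro _ ⟨c, rfl⟩ β
      exact ⟨β c, by ext g; simp⟩⟩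
  have h2 : Subgroup.normalClosure (Set.range (MulAut.conj : Pi →* MulAut Pi)) ≤
      (MulAut.conj : Pi →* MulAut Pi).range :=
    Subgroup.normalClosure_le_normal fun _ hx => hx
  exact h2 h1

theorem DGlue_mem {θ : MulAut Pi} {α : MulAut F} (h : IsConj (α r3) r3)
    (h2 : ∀ x, pr (α x) = θ (pr x)) : DGlue_q θ ∈ DGlue_m.range := by
  refine ⟨⟨α, h⟩, ?_⟩
  have : DGlue_m0 ⟨α, h⟩ = θ := by
    ext y
    obtain ⟨x, rfl⟩ := DGlue_surj y
    rw [DGlue_m0_pr]
    exact h2 x
  show DGlue_q (DGlue_m0 ⟨α, h⟩) = DGlue_q θ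
  rw [this]

theorem DGlue_two {θ₁ θ₂ : MulAut Pi} {α₁ α₂ : MulAut F} (h₁ : IsConj (α₁ r3) r3⁻¹)
    (h₂ : IsConj (α₂ r3) r3⁻¹) (e₁ : ∀ x, pr (α₁ x) = θ₁ (pr x))
    (e₂ : ∀ x, pr (α₂ x) = θ₂ (pr x)) : (DGlue_q θ₁)⁻¹ * DGlue_q θ₂ ∈ DGlue_m.range := by
  rw [← map_inv, ← map_mul]
  refine DGlue_mem (α := α₁⁻¹ * α₂) ?_ ?_
  · have h3 : IsConj (α₂ r3) (α₁ r3) := h₂.trans h₁.symm
    have h4 : IsConj (α₁⁻¹ (α₂ r3)) (α₁⁻¹ (α₁ r3)) := (α₁⁻¹).toMonoidHom.map_isConj h3
    rw [MulAut.inv_apply_self] at h4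
    exact h4
  · intro x
    rw [MulAut.mul_apply, MulAut.mul_apply, ← e₂]
    apply θ₁.injective
    rw [← e₁, MulAut.apply_inv_self, MulAut.apply_inv_self]

theorem DGlue_fin : DGlue_m.range.FiniteIndex := by
  let T : Set OutPi := {o | ∃ (θ : MulAut Pi) (α : MulAut F), DGlue_q θ = o ∧
    IsConj (α r3) r3⁻¹ ∧ ∀ x, pr (α x) = θ (pr x)}
  have hT : ((QuotientGroup.mk : OutPi → OutPi ⧸ DGlue_m.range) '' T).Subsingleton := by
    rintro _ ⟨_, ⟨θ₁, α₁, rfl, h₁, e₁⟩, rfl⟩ _ ⟨_, ⟨θ₂, α₂, rfl, h₂, e₂⟩, rfl⟩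
    exact QuotientGroup.eq.2 (DGlue_two h₁ h₂ e₁ e₂)
  have hU : (Set.univ : Set (OutPi ⧸ DGlue_m.range)) ⊆
      {((1 : OutPi) : OutPi ⧸ DGlue_m.range)} ∪
        (QuotientGroup.mk : OutPi → OutPi ⧸ DGlue_m.range) '' T := by
    intro z _
    obtain ⟨o, rfl⟩ := QuotientGroup.mk_surjective z
    obtain ⟨θ, rfl⟩ := QuotientGroup.mk'_surjective _ o
    obtain ⟨α, h, e⟩ := S.liftS θ
    rcases h with h | h
    · left
      have h1 : DGlue_q θ ∈ DGlue_m.range := DGlue_mem h e
      refine Set.mem_singleton_iff.2 (Eq.symm (QuotientGroup.eq.2 ?_))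
      rw [inv_one, one_mul]
      exact h1
    · right
      exact ⟨DGlue_q θ, ⟨θ, α, rfl, h, e⟩, rfl⟩
  haveI : Finite (OutPi ⧸ DGlue_m.range) :=
    Set.finite_univ_iff.1 (((Set.finite_singleton _).union hT.finite).subset hU)
  exact Subgroup.finiteIndex_of_finite_quotient

theorem DGlue_map (Λ : Subgroup G3) (hΛ : Λ.FiniteIndex) : (Λ.map DGlue_m).FiniteIndex := by
  have h1 : (Λ.map DGlue_m.rangeRestrict).index ≠ 0 := fun h =>
    hΛ.index_ne_zero (Nat.eq_zero_of_zero_dvd
      (h ▸ Subgroup.index_map_dvd Λ DGlue_m.rangeRestrict_surjective))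
  have h2 : (Λ.map DGlue_m.rangeRestrict).map DGlue_m.range.subtype = Λ.map DGlue_m := by
    rw [Subgroup.map_map]
    rfl
  refine ⟨?_⟩
  rw [← h2, Subgroup.index_map_subtype]
  exact mul_ne_zero h1 DGlue_fin.index_ne_zero

theorem glue (Λ : Subgroup G3) (hΛ : Λ.FiniteIndex) {H : Type} [Group H] (f : Λ →* H)
    (hk : ∀ (α : Λ) (g : Pi), (∀ x, pr (((α : G3) : MulAut F) x) = g * pr x * g⁻¹) → f α = 1) :
    ∃ Γ : Subgroup OutPi, Γ.FiniteIndex ∧ ∃ φ : Γ →* H, φ.range = f.range := by
  refine ⟨Λ.map DGlue_m, DGlue_map Λ hΛ, ?_⟩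
  have hs : Function.Surjective (DGlue_m.subgroupMap Λ) := DGlue_m.subgroupMap_surjective Λ
  have hker : (DGlue_m.subgroupMap Λ).ker ≤ f.ker := by
    intro α hα
    have h1 : DGlue_m (α : G3) = 1 := congrArg Subtype.val (MonoidHom.mem_ker.1 hα)
    obtain ⟨g, hg⟩ := DGlue_inn (θ := DGlue_m0 (α : G3)) h1
    refine MonoidHom.mem_ker.2 (hk α g fun x => ?_)
    rw [← DGlue_m0_pr, ← hg, MulAut.conj_apply]
  let φ : Λ.map DGlue_m →* H :=
    (DGlue_m.subgroupMap Λ).liftOfSurjective hs ⟨f, hker⟩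
  have hφ : ∀ α : Λ, φ (DGlue_m.subgroupMap Λ α) = f α := fun α =>
    MonoidHom.liftOfRightInverse_comp_apply _ _ _ _ α
  refine ⟨φ, ?_⟩
  ext y
  constructor
  · rintro ⟨z, rfl⟩
    obtain ⟨α, rfl⟩ := hs z
    exact ⟨α, (hφ α).symm⟩
  · rintro ⟨α, rfl⟩
    exact ⟨_, hφ α⟩

end Pool.Agent.MP_61a8e3_al.G4.D

end

section

set_option autoImplicit false

namespace Pool.Agent.MP_61a8e3_al.G4.A

variable {E : Type} (S : SlideSys E)

/-- Moving the symbol `none` across the next letter. -/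
theorem rch_step {β : MulAut F} {e : E} {a : L} {U V : List (Option L)}
    (hs : Ok S ⟨⟨β, ↑(none :: some a :: U ++ some (bar a) :: V)⟩, e⟩) :
    Adj S ⟨⟨β, ↑(none :: some a :: U ++ some (bar a) :: V)⟩, e⟩
      ⟨⟨MulAut.conj (el a)⁻¹ * β, ↑(none :: V ++ some a :: U ++ [some (bar a)])⟩, e⟩ := by
  have _ := hs
  refine adj_of_mov S (a := a) (A := insert none {some a}) ⟨0, 0, ⟨[], U, V, [none], ?_, ?_, rfl,
    rfl, ?_, ?_⟩, ?_⟩
  · exact cyc_of_eq [none] (some a :: U ++ some (bar a) :: V) (by simp) (by simp)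
  · intro x
    simp [or_comm]
  · rw [wh_insert_none a (by simp), wh_single, mul_one]
  · exact cyc_of_eq (none :: V) (some a :: U ++ [some (bar a)]) (by simp) (by simp)
  · simp [SlideSys.Mv]

/-- from the stage `T` of the loop one reaches the base cycle -/
def ALoop_P (T : List L) (d : F) : Prop :=
  ∀ (β : MulAut F) (e : E), Ok S ⟨⟨β, ↑(none :: T.map some)⟩, e⟩ →
    Rch S ⟨⟨β, ↑(none :: T.map some)⟩, e⟩ ⟨⟨MulAut.conj d * β, o0⟩, e⟩

theorem ALoop_base : ALoop_P S w0L 1 := fun β e _ => by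
  rw [map_one, one_mul]
  exact Relation.ReflTransGen.refl

theorem ALoop_back {T T' : List L} {d : F} (a : L) (j : ℕ) (h : ALoop_P S T' d)
    (h1 : T = a :: T.tail.take j ++ bar a :: T.drop (j + 2))
    (h2 : T' = T.drop (j + 2) ++ a :: T.tail.take j ++ [bar a]) :
    ALoop_P S T (d * (el a)⁻¹) := by
  generalize T.tail.take j = U at h1 h2
  generalize T.drop (j + 2) = V at h1 h2
  subst h1 h2
  intro β e hs
  have e1 : none :: (a :: U ++ bar a :: V).map some =
      none :: some a :: U.map some ++ some (bar a) :: V.map some := by simp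
  have e2 : none :: (V ++ a :: U ++ [bar a]).map some =
      none :: V.map some ++ some a :: U.map some ++ [some (bar a)] := by simp
  rw [e1] at hs ⊢
  have h3 := rch_step S hs
  have h4 := h (MulAut.conj (el a)⁻¹ * β) e
  rw [e2, ← mul_assoc, ← map_mul] at h4
  exact Relation.ReflTransGen.head h3 (h4 (Ok.adj S hs h3))

theorem ALoop_all : ALoop_P S w0L r3 ∧ ∀ k < 16, ∃ d, ALoop_P S (w0L.rotate k) d := by
  have h13 := ALoop_back S (T := w0L.rotate 13) (lA 0) 1 (ALoop_base S) (by decide) (by decide)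
  have h14 := ALoop_back S (T := w0L.rotate 14) (lB 0) 13 h13 (by decide) (by decide)
  have h15 := ALoop_back S (T := w0L.rotate 15) (la 0) 13 h14 (by decide) (by decide)
  have h12 := ALoop_back S (T := w0L.rotate 12) (lb 0) 1 h15 (by decide) (by decide)
  have h9 := ALoop_back S (T := w0L.rotate 9) (lA 1) 1 h12 (by decide) (by decide)
  have h10 := ALoop_back S (T := w0L.rotate 10) (lB 1) 13 h9 (by decide) (by decide)
  have h11 := ALoop_back S (T := w0L.rotate 11) (la 1) 13 h10 (by decide) (by decide)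
  have h8 := ALoop_back S (T := w0L.rotate 8) (lb 1) 1 h11 (by decide) (by decide)
  have h5 := ALoop_back S (T := w0L.rotate 5) (lA 2) 1 h8 (by decide) (by decide)
  have h6 := ALoop_back S (T := w0L.rotate 6) (lB 2) 13 h5 (by decide) (by decide)
  have h7 := ALoop_back S (T := w0L.rotate 7) (la 2) 13 h6 (by decide) (by decide)
  have h4 := ALoop_back S (T := w0L.rotate 4) (lb 2) 1 h7 (by decide) (by decide)
  have h1 := ALoop_back S (T := w0L.rotate 1) (lA 3) 1 h4 (by decide) (by decide)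
  have h2 := ALoop_back S (T := w0L.rotate 2) (lB 3) 13 h1 (by decide) (by decide)
  have h3 := ALoop_back S (T := w0L.rotate 3) (la 3) 13 h2 (by decide) (by decide)
  have h0 := ALoop_back S (T := w0L) (lb 3) 1 h3 (by decide) (by decide)
  refine ⟨?_, fun k hk => ?_⟩
  · convert h0 using 1
    rw [r3_eq]
    decide
  · interval_cases k
    exacts [⟨_, h0⟩, ⟨_, h1⟩, ⟨_, h2⟩, ⟨_, h3⟩, ⟨_, h4⟩, ⟨_, h5⟩, ⟨_, h6⟩, ⟨_, h7⟩, ⟨_, h8⟩,
      ⟨_, h9⟩, ⟨_, h10⟩, ⟨_, h11⟩, ⟨_, h12⟩, ⟨_, h13⟩, ⟨_, h14⟩, ⟨_, h15⟩]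

theorem ALoop_some {T : List (Option L)} (h : none ∉ T) : T = T.reduceOption.map some := by
  induction T with
  | nil => rfl
  | cons x T ih =>
    cases x with
    | none => simp at h
    | some l =>
      rw [List.reduceOption_cons_of_some, List.map_cons, ← ih fun h' => h (List.mem_cons_of_mem _ h')]

theorem rch_to_o0 {β : MulAut F} {o : Cycle (Option L)} {e : E} (hs : Ok S ⟨⟨β, o⟩, e⟩)
    (he : S.w e = w0) : ∃ d : F, Rch S ⟨⟨β, o⟩, e⟩ ⟨⟨MulAut.conj d * β, o0⟩, e⟩ := by
  obtain ⟨T, rfl⟩ : ∃ T : List (Option L), o = ↑(none :: T) := exists_head (hs.1.2.1 none)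
  have hn : (none :: T).Nodup := Cycle.nodup_coe_iff.1 hs.1.1
  have h1 : (w0L : Cycle L) = ↑T.reduceOption := he.symm.trans hs.2
  obtain ⟨k, hk⟩ : w0L ~r T.reduceOption := Cycle.coe_eq_coe.1 h1
  rw [← List.rotate_mod] at hk
  obtain ⟨d, hd⟩ := (ALoop_all S).2 (k % w0L.length) (Nat.mod_lt _ (by decide))
  rw [ALoop_some (List.nodup_cons.1 hn).1, ← hk] at hs ⊢
  exact ⟨d, hd β e hs⟩

theorem rch_loop {β : MulAut F} {e : E} (hs : Ok S ⟨⟨β, o0⟩, e⟩) :
    Rch S ⟨⟨β, o0⟩, e⟩ ⟨⟨MulAut.conj r3 * β, o0⟩, e⟩ := (ALoop_all S).1 β e hs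

theorem rch_loop_zpow {β : MulAut F} {e : E} (hs : Ok S ⟨⟨β, o0⟩, e⟩) (k : ℤ) :
    Rch S ⟨⟨β, o0⟩, e⟩ ⟨⟨MulAut.conj (r3 ^ k) * β, o0⟩, e⟩ := by
  have hok : ∀ j : ℤ, Ok S ⟨⟨MulAut.conj (r3 ^ j) * β, o0⟩, e⟩ := fun j =>
    ⟨good_of_fix (by
      rw [MulAut.mul_apply, fix_of_good hs.1, MulAut.conj_apply]
      group), hs.2⟩
  have hst : ∀ j : ℤ, Rch S ⟨⟨MulAut.conj (r3 ^ j) * β, o0⟩, e⟩
      ⟨⟨MulAut.conj (r3 ^ (j + 1)) * β, o0⟩, e⟩ := fun j => by
    have h := rch_loop S (hok j)
    rwa [← mul_assoc, ← map_mul, ← zpow_one_add, add_comm] at h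
  induction k using Int.induction_on with
  | zero =>
    rw [zpow_zero, map_one, one_mul]
    exact Relation.ReflTransGen.refl
  | succ k ih => exact ih.trans (hst k)
  | pred k ih =>
    have h := rch_symm S (hok _) (hst (-k - 1))
    rw [sub_add_cancel] at h
    exact ih.trans h

theorem ALoop_split {T : List (Option L)} {U V : List L} {x : L}
    (h : T.reduceOption = U ++ x :: V) :
    ∃ T1 T2, T = T1 ++ some x :: T2 ∧ T1.reduceOption = U ∧ T2.reduceOption = V := by
  induction T generalizing U with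
  | nil => simp at h
  | cons y T ih =>
    cases y with
    | none =>
      obtain ⟨T1, T2, rfl, h1, h2⟩ := ih (U := U) h
      exact ⟨none :: T1, T2, rfl, h1, h2⟩
    | some y =>
      rw [List.reduceOption_cons_of_some] at h
      cases U with
      | nil =>
        obtain ⟨rfl, h2⟩ := List.cons.inj h
        exact ⟨[], T, rfl, rfl, h2⟩
      | cons u U =>
        obtain ⟨rfl, h2⟩ := List.cons.inj h
        obtain ⟨T1, T2, rfl, h1, h2⟩ := ih h2
        exact ⟨some y :: T1, T2, rfl, by rw [List.reduceOption_cons_of_some, h1], h2⟩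

theorem ALoop_head {s : St E} (hs : Ok S s) {a : L} {U : List L}
    (h : red s.v.o = ↑(a :: U)) : ∃ T, s.v.o = ↑(some a :: T) ∧ T.reduceOption = U := by
  obtain ⟨T, hT⟩ := exists_head (hs.1.2.1 (some a))
  refine ⟨T, hT, ?_⟩
  have hn := S.nodup s.e
  rw [hs.2, h] at hn
  rw [hT, red_coe, List.reduceOption_cons_of_some] at h
  exact (cyc_head_inj (Cycle.nodup_coe_iff.1 hn) h.symm).symm

theorem ALoop_wh (a t : L) {T : List (Option L)} (h : T.reduceOption = []) :
    ∃ (A : Finset (Option L)) (c : F), (∀ x, x ∈ A ↔ x = some a ∨ x = some t ∨ x ∈ T) ∧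
      wh a A = MulAut.conj c * sl a t := by
  have hT : ∀ x ∈ T, x = none := fun x hx => by
    cases x with
    | none => rfl
    | some l =>
      have := List.reduceOption_mem_iff.2 hx
      rw [h] at this
      simp at this
  by_cases hn : none ∈ T
  · refine ⟨insert none {some a, some t}, (el a)⁻¹, fun x => ?_, wh_insert_none a (by simp)⟩
    simp only [Finset.mem_insert, Finset.mem_singleton]
    constructor
    · rintro (rfl | h | h)
      exacts [Or.inr (Or.inr hn), Or.inl h, Or.inr (Or.inl h)]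
    · rintro (h | h | h)
      exacts [Or.inr (Or.inl h), Or.inr (Or.inr h), Or.inl (hT x h)]
  · refine ⟨{some a, some t}, 1, fun x => ?_, by rw [map_one, one_mul, sl]⟩
    simp only [Finset.mem_insert, Finset.mem_singleton]
    constructor
    · rintro (h | h)
      exacts [Or.inl h, Or.inr (Or.inl h)]
    · rintro (h | h | h)
      exacts [Or.inl h, Or.inr h, absurd (hT x h ▸ h) hn]

theorem ALoop_sl (a t : L) : sl (bar a) t = (sl a t)⁻¹ := by
  refine eq_inv_of_mul_eq_one_left ?_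
  rw [sl, sl, wh, wh, whZ_bar, ← whZ_add, ← whZ_zero a]
  refine whZ_congr a fun l hl => ?_
  have h1 : l ≠ a := fun h => hl (by rw [h])
  have h2 : l ≠ bar a := fun h => hl (by rw [h, bar_fst])
  simp [ind, h1, h2]

theorem ALoop_conj (ω γ : MulAut F) (c d : F) :
    MulAut.conj c * ω * (MulAut.conj d * γ) = MulAut.conj (c * ω d) * (ω * γ) := by
  ext g
  simp [mul_assoc]

theorem rch_path {γ : MulAut F} {P : Equiv.Perm E} {c : Cycle L} (h : Path S γ P c) {e : E}
    (he : S.w e = w0) :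
    ∃ (d : F) (o : Cycle (Option L)),
      Rch S ⟨v0, e⟩ ⟨⟨MulAut.conj d * γ, o⟩, P e⟩ ∧ red o = c := by
  have h0 : Ok S ⟨v0, e⟩ := ⟨good_v0, he.trans red_o0.symm⟩
  induction h with
  | refl =>
    refine ⟨1, o0, ?_, red_o0⟩
    rw [map_one, one_mul]
    exact Relation.ReflTransGen.refl
  | fwd γ P a t U V _ ih =>
    obtain ⟨d, o, hr, ho⟩ := ih
    obtain ⟨T, hT, h1⟩ := ALoop_head S (Ok.rch S h0 hr) (a := a) (U := t :: U ++ bar a :: V) ho
    obtain ⟨T1, T2, rfl, h2, h3⟩ := ALoop_split (U := []) h1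
    obtain ⟨X2, Y, rfl, h4, h5⟩ := ALoop_split h3
    obtain ⟨A, c, hA, hc⟩ := ALoop_wh a t h2
    refine ⟨c * sl a t d, ((some a :: X2 ++ (T1 ++ [some t]) ++ some (bar a) :: [] ++ Y :
        List (Option L)) : Cycle (Option L)),
      hr.tail (adj_of_mov S (a := a) (A := A) ⟨0, 1, ⟨T1 ++ [some t], X2, Y, [], ?_, ?_, rfl, ?_,
        ?_, rfl⟩, ?_⟩), ?_⟩
    · rw [hT]
      simp
    · intro x
      rw [hA]
      simp [or_comm]
    · simp [cnt, List.reduceOption_append, h2]
    · simp only [hc, ALoop_conj]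
    · simp [SlideSys.Mv]
    · rw [red_coe]
      simp [List.reduceOption_append, h2, h4, h5]
  | bwd γ P a t U V _ ih =>
    obtain ⟨d, o, hr, ho⟩ := ih
    obtain ⟨T, hT, h1⟩ := ALoop_head S (Ok.rch S h0 hr) (a := a) (U := U ++ t :: bar a :: V) ho
    obtain ⟨T1, T2, rfl, h2, h3⟩ := ALoop_split h1
    obtain ⟨T3, T4, rfl, h4, h5⟩ := ALoop_split (U := []) h3
    obtain ⟨A, c, hA, hc⟩ := ALoop_wh (bar a) t h4
    rw [ALoop_sl] at hc
    refine ⟨c * (sl a t)⁻¹ d,
      ((some (bar a) :: T4 ++ [] ++ some (bar (bar a)) :: (some t :: T3) ++ T1 :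
        List (Option L)) : Cycle (Option L)),
      hr.tail (adj_of_mov S (a := bar a) (A := A) ⟨1, 0, ⟨[], T4, T1, some t :: T3, ?_, ?_, ?_,
        rfl, ?_, rfl⟩, ?_⟩), ?_⟩
    · rw [hT]
      exact cyc_of_eq (some a :: T1 ++ some t :: T3) (some (bar a) :: T4) (by simp) (by simp)
    · intro x
      rw [hA]
      simp
    · simp [cnt, h4]
    · simp only [hc, ALoop_conj]
    · simp [SlideSys.Mv]
    · rw [red_coe]
      exact cyc_of_eq (bar a :: V) (a :: t :: U)
        (by simp [List.reduceOption_append, h2, h4, h5]) (by simp)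
  | rel γ P c π _ ih =>
    obtain ⟨d, o, hr, ho⟩ := ih
    refine ⟨relA π d, o.map (Option.map π.1), hr.tail ?_, by rw [red_map, ho]⟩
    have h1 := adj_refl_sact S (Ok.rch S h0 hr) π
    have h2 := ALoop_conj (relA π) γ 1 d
    rw [map_one, one_mul, one_mul] at h2
    rw [← h2]
    exact h1

end Pool.Agent.MP_61a8e3_al.G4.A

end
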