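import Pool.Agent.Mg.F61a8e3.G86875b

/-! Part K: the labels are well formed. -/

set_option autoImplicit false
set_option maxRecDepth 100000

namespace Pool.Agent.MP_61a8e3_al.G4.K

theorem dat_lab0 :
    Nat.beq (sumN 0 119 fun h => sumN (Nat.mul 119 h) 119 (lbs dat)) 0 = true := by
  decide +kernel

theorem dat_lab (c : ℕ) (hc : c < 14118) : lbs dat c = 0 := by
  have h1 := sumN_spec (Nat.eq_of_beq_eq_true dat_lab0) (c / 119) (by omega)
  have h2 := sumN_spec h1 (c % 119) (Nat.mod_lt _ (by norm_num))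
  rwa [show Nat.mul 119 (0 + c / 119) + c % 119 = c by
    rw [Nat.zero_add]; exact Nat.div_add_mod c 119] at h2

end Pool.Agent.MP_61a8e3_al.G4.K
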