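import Pool.Agent.Mg.F61a8e3.G86875b

section

/-! Part K: the check of the classes from 5708 to 6141. -/

set_option autoImplicit false
set_option maxRecDepth 100000

namespace Pool.Agent.MP_61a8e3_al.G4.K

theorem chk13 : Rg (cls dat) 5708 6142 := by
  have h := Rg.nil (cls dat) 5708
  replace h := Rg.step 5708 14 5722 h rfl (by decide +kernel)
  replace h := Rg.step 5722 14 5736 h rfl (by decide +kernel)
  replace h := Rg.step 5736 14 5750 h rfl (by decide +kernel)
  replace h := Rg.step 5750 14 5764 h rfl (by decide +kernel)
  replace h := Rg.step 5764 14 5778 h rfl (by decide +kernel)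
  replace h := Rg.step 5778 14 5792 h rfl (by decide +kernel)
  replace h := Rg.step 5792 14 5806 h rfl (by decide +kernel)
  replace h := Rg.step 5806 14 5820 h rfl (by decide +kernel)
  replace h := Rg.step 5820 14 5834 h rfl (by decide +kernel)
  replace h := Rg.step 5834 14 5848 h rfl (by decide +kernel)
  replace h := Rg.step 5848 14 5862 h rfl (by decide +kernel)
  replace h := Rg.step 5862 14 5876 h rfl (by decide +kernel)
  replace h := Rg.step 5876 14 5890 h rfl (by decide +kernel)
  replace h := Rg.step 5890 14 5904 h rfl (by decide +kernel)
  replace h := Rg.step 5904 14 5918 h rfl (by decide +kernel)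
  replace h := Rg.step 5918 14 5932 h rfl (by decide +kernel)
  replace h := Rg.step 5932 14 5946 h rfl (by decide +kernel)
  replace h := Rg.step 5946 14 5960 h rfl (by decide +kernel)
  replace h := Rg.step 5960 14 5974 h rfl (by decide +kernel)
  replace h := Rg.step 5974 14 5988 h rfl (by decide +kernel)
  replace h := Rg.step 5988 14 6002 h rfl (by decide +kernel)
  replace h := Rg.step 6002 14 6016 h rfl (by decide +kernel)
  replace h := Rg.step 6016 14 6030 h rfl (by decide +kernel)
  replace h := Rg.step 6030 14 6044 h rfl (by decide +kernel)
  replace h := Rg.step 6044 14 6058 h rfl (by decide +kernel)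
  replace h := Rg.step 6058 14 6072 h rfl (by decide +kernel)
  replace h := Rg.step 6072 14 6086 h rfl (by decide +kernel)
  replace h := Rg.step 6086 14 6100 h rfl (by decide +kernel)
  replace h := Rg.step 6100 14 6114 h rfl (by decide +kernel)
  replace h := Rg.step 6114 14 6128 h rfl (by decide +kernel)
  replace h := Rg.step 6128 14 6142 h rfl (by decide +kernel)
  exact h

end Pool.Agent.MP_61a8e3_al.G4.K

end

section

/-! Part K: the check of the classes from 13688 to 14117. -/

set_option autoImplicit false
set_option maxRecDepth 100000

namespace Pool.Agent.MP_61a8e3_al.G4.K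

theorem chk31 : Rg (cls dat) 13688 14118 := by
  have h := Rg.nil (cls dat) 13688
  replace h := Rg.step 13688 14 13702 h rfl (by decide +kernel)
  replace h := Rg.step 13702 14 13716 h rfl (by decide +kernel)
  replace h := Rg.step 13716 14 13730 h rfl (by decide +kernel)
  replace h := Rg.step 13730 14 13744 h rfl (by decide +kernel)
  replace h := Rg.step 13744 14 13758 h rfl (by decide +kernel)
  replace h := Rg.step 13758 14 13772 h rfl (by decide +kernel)
  replace h := Rg.step 13772 14 13786 h rfl (by decide +kernel)
  replace h := Rg.step 13786 14 13800 h rfl (by decide +kernel)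
  replace h := Rg.step 13800 14 13814 h rfl (by decide +kernel)
  replace h := Rg.step 13814 14 13828 h rfl (by decide +kernel)
  replace h := Rg.step 13828 14 13842 h rfl (by decide +kernel)
  replace h := Rg.step 13842 14 13856 h rfl (by decide +kernel)
  replace h := Rg.step 13856 14 13870 h rfl (by decide +kernel)
  replace h := Rg.step 13870 14 13884 h rfl (by decide +kernel)
  replace h := Rg.step 13884 14 13898 h rfl (by decide +kernel)
  replace h := Rg.step 13898 14 13912 h rfl (by decide +kernel)
  replace h := Rg.step 13912 14 13926 h rfl (by decide +kernel)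
  replace h := Rg.step 13926 14 13940 h rfl (by decide +kernel)
  replace h := Rg.step 13940 14 13954 h rfl (by decide +kernel)
  replace h := Rg.step 13954 14 13968 h rfl (by decide +kernel)
  replace h := Rg.step 13968 14 13982 h rfl (by decide +kernel)
  replace h := Rg.step 13982 14 13996 h rfl (by decide +kernel)
  replace h := Rg.step 13996 14 14010 h rfl (by decide +kernel)
  replace h := Rg.step 14010 14 14024 h rfl (by decide +kernel)
  replace h := Rg.step 14024 14 14038 h rfl (by decide +kernel)
  replace h := Rg.step 14038 14 14052 h rfl (by decide +kernel)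
  replace h := Rg.step 14052 14 14066 h rfl (by decide +kernel)
  replace h := Rg.step 14066 14 14080 h rfl (by decide +kernel)
  replace h := Rg.step 14080 14 14094 h rfl (by decide +kernel)
  replace h := Rg.step 14094 14 14108 h rfl (by decide +kernel)
  replace h := Rg.step 14108 10 14118 h rfl (by decide +kernel)
  exact h

end Pool.Agent.MP_61a8e3_al.G4.K

end
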