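import Pool.Agent.Mg.F61a8e3.G86875b
import Pool.Agent.Mg.F61a8e3.G959d3c
import Pool.Agent.Mg.F61a8e3.Ga1121e
import Pool.Agent.Mg.F61a8e3.G0220ef
import Pool.Agent.Mg.F61a8e3.G397eee
import Pool.Agent.Mg.F61a8e3.Gd9a758
import Pool.Agent.Mg.F61a8e3.G0ac071
import Pool.Agent.Mg.F61a8e3.G6c36de
import Pool.Agent.Mg.F61a8e3.Gdee495
import Pool.Agent.Mg.F61a8e3.Gf33285
import Pool.Agent.Mg.F61a8e3.Gfeb58e
import Pool.Agent.Mg.F61a8e3.G8556b4
import Pool.Agent.Mg.F61a8e3.G5ea7a8
import Pool.Agent.Mg.F61a8e3.Gc224f7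
import Pool.Agent.Mg.F61a8e3.G4ebe8a
import Pool.Agent.Mg.F61a8e3.Gf1ba45
import Pool.Agent.Mg.F61a8e3.G411e8a
import Pool.Agent.Mg.F61a8e3.Gbf43b3
import Pool.Agent.Mg.F61a8e3.G8592a8
import Pool.Agent.Mg.F61a8e3.Gf9feb3
import Pool.Agent.Mg.F61a8e3.G23bc42
import Pool.Agent.Mg.F61a8e3.Gf76338
import Pool.Agent.MP_61a8e3_al.TTw

section

/-! Part K: the check of the classes from 388 to 821. -/

set_option autoImplicit false
set_option maxRecDepth 100000

namespace Pool.Agent.MP_61a8e3_al.G4.K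

theorem chk1 : Rg (cls dat) 388 822 := by
  have h := Rg.nil (cls dat) 388
  replace h := Rg.step 388 14 402 h rfl (by decide +kernel)
  replace h := Rg.step 402 14 416 h rfl (by decide +kernel)
  replace h := Rg.step 416 14 430 h rfl (by decide +kernel)
  replace h := Rg.step 430 14 444 h rfl (by decide +kernel)
  replace h := Rg.step 444 14 458 h rfl (by decide +kernel)
  replace h := Rg.step 458 14 472 h rfl (by decide +kernel)
  replace h := Rg.step 472 14 486 h rfl (by decide +kernel)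
  replace h := Rg.step 486 14 500 h rfl (by decide +kernel)
  replace h := Rg.step 500 14 514 h rfl (by decide +kernel)
  replace h := Rg.step 514 14 528 h rfl (by decide +kernel)
  replace h := Rg.step 528 14 542 h rfl (by decide +kernel)
  replace h := Rg.step 542 14 556 h rfl (by decide +kernel)
  replace h := Rg.step 556 14 570 h rfl (by decide +kernel)
  replace h := Rg.step 570 14 584 h rfl (by decide +kernel)
  replace h := Rg.step 584 14 598 h rfl (by decide +kernel)
  replace h := Rg.step 598 14 612 h rfl (by decide +kernel)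
  replace h := Rg.step 612 14 626 h rfl (by decide +kernel)
  replace h := Rg.step 626 14 640 h rfl (by decide +kernel)
  replace h := Rg.step 640 14 654 h rfl (by decide +kernel)
  replace h := Rg.step 654 14 668 h rfl (by decide +kernel)
  replace h := Rg.step 668 14 682 h rfl (by decide +kernel)
  replace h := Rg.step 682 14 696 h rfl (by decide +kernel)
  replace h := Rg.step 696 14 710 h rfl (by decide +kernel)
  replace h := Rg.step 710 14 724 h rfl (by decide +kernel)
  replace h := Rg.step 724 14 738 h rfl (by decide +kernel)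
  replace h := Rg.step 738 14 752 h rfl (by decide +kernel)
  replace h := Rg.step 752 14 766 h rfl (by decide +kernel)
  replace h := Rg.step 766 14 780 h rfl (by decide +kernel)
  replace h := Rg.step 780 14 794 h rfl (by decide +kernel)
  replace h := Rg.step 794 14 808 h rfl (by decide +kernel)
  replace h := Rg.step 808 14 822 h rfl (by decide +kernel)
  exact h

end Pool.Agent.MP_61a8e3_al.G4.K

end

section

/-! Part K: all checks succeed. -/

set_option autoImplicit false

namespace Pool.Agent.MP_61a8e3_al.G4.K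

theorem dat_cls : Rg (cls dat) 0 14118 :=
  chk0 |>.trans chk1 |>.trans chk2 |>.trans chk3 |>.trans chk4 |>.trans chk5
    |>.trans chk6 |>.trans chk7 |>.trans chk8 |>.trans chk9 |>.trans chk10
    |>.trans chk11 |>.trans chk12 |>.trans chk13 |>.trans chk14 |>.trans chk15
    |>.trans chk16 |>.trans chk17 |>.trans chk18 |>.trans chk19 |>.trans chk20
    |>.trans chk21 |>.trans chk22 |>.trans chk23 |>.trans chk24 |>.trans chk25
    |>.trans chk26 |>.trans chk27 |>.trans chk28 |>.trans chk29 |>.trans chk30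
    |>.trans chk31

theorem dat_ok : Ok dat := ⟨dat_lab, fun c hc => dat_cls c (Nat.zero_le _) hc⟩

end Pool.Agent.MP_61a8e3_al.G4.K

end

section

/-! Assembly of parts A, B, D, S: from a rooted table on which the eight pushes act trivially to
finite-index subgroups of the outer automorphism group of the surface group. -/

set_option autoImplicit false

namespace Pool.Agent.MP_61a8e3_al.G4.D

open A

theorem mainABD {Xc : Type} (Tb : Tab Xc) (x0 : Tb.X0)
    (hp : ∀ x : X, ∃ (bs : List (L × Bool)) (f : L) (π : W) (c : F),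
      (simW w0L bs f).map π.1 = w0L ∧ push x = MulAut.conj c * (relA π * simA w0L bs) ∧
      ∀ y : Tb.X0, run Tb.T Tb.ρ (simP w0L bs f).1 (simP w0L bs f).2 y.1 = y.1) :
    ∃ Φ : G3 →* Equiv.Perm Tb.X0,
      (∀ γ : G3, ∃ g ∈ Subgroup.closure ({Tb.T, Tb.ρ} : Set (Equiv.Perm Xc)),
        ∀ x : Tb.X0, (Φ γ x).1 = g x.1) ∧
      (∀ (γ : G3) (bs : List (L × Bool)) (f : L) (π : W) (c : F),
        (simW w0L bs f).map π.1 = w0L →
        (γ : MulAut F) = MulAut.conj c * (relA π * simA w0L bs) →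
        ∀ x : Tb.X0, (Φ γ x).1 = run Tb.T Tb.ρ (simP w0L bs f).1 (simP w0L bs f).2 x.1) ∧
      ∀ (Λ : Subgroup G3), Λ.FiniteIndex → ∀ (H : Type) [Group H] (f : Λ →* H),
        (∀ α : Λ, Φ α = 1 → f α = 1) →
        ∃ Γ : Subgroup OutPi, Γ.FiniteIndex ∧ ∃ φ : Γ →* H, φ.range = f.range := by
  obtain ⟨Φ, h1, h2⟩ := mainAB Tb
  refine ⟨Φ, h1, h2, fun Λ hΛ H _ f hf => glue Λ hΛ f fun α g hg => hf α ?_⟩
  refine kerD Tb.sys (Tb.fib.symm x0).1 (Tb.fib.symm x0).2 Φ (fun γ c hγ => ?_)
    (fun γ x hγ => ?_) α g hg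
  · ext y
    have := h2 γ [] (lb 3) 1 c (by rw [OneMemClass.coe_one, Equiv.Perm.coe_one, List.map_id]; decide)
      (by rw [hγ, map_one, one_mul]; exact (mul_one _).symm) y
    exact Subtype.ext this
  · obtain ⟨bs, f, π, c, e1, e2, e3⟩ := hp x
    ext y
    exact Subtype.ext ((h2 γ bs f π c e1 (hγ.trans e2) y).trans (e3 y))

end Pool.Agent.MP_61a8e3_al.G4.D

end

section

/-! Positions of letters under slides and rotations; words with a given shape. -/

set_option autoImplicit false

namespace Pool.Agent.MP_61a8e3_al.G4.A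

theorem NShape_lt {u : List L} (hu : Valid u) (b : L) : u.idxOf b < 16 := by
  rw [← hu.length]
  exact List.idxOf_lt_length_of_mem (hu.2 b)

theorem NShape_idx {u : List L} (hu : Valid u) {i : ℕ} {b : L} (h : u[i]? = some b) :
    u.idxOf b = i := by
  obtain ⟨hi, rfl⟩ := List.getElem?_eq_some_iff.1 h
  exact List.Nodup.idxOf_getElem hu.1 _ _

theorem NShape_get {u : List L} (hu : Valid u) (b : L) : u[u.idxOf b]? = some b :=
  List.getElem?_idxOf (hu.2 b)

theorem NShape_iff {u : List L} (hu : Valid u) (p : ℕ → ℕ) :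
    shape u = (List.range 16).map p ↔ ∀ b, u.idxOf (bar b) = p (u.idxOf b) := by
  constructor
  · intro h b
    have h1 : (shape u)[u.idxOf b]? = ((List.range 16).map p)[u.idxOf b]? := by rw [h]
    unfold shape at h1
    rw [List.getElem?_map, List.getElem?_map, NShape_get hu,
      List.getElem?_range (NShape_lt hu b)] at h1
    exact Option.some.inj h1
  · intro h
    apply List.ext_getElem
    · simp [shape, hu.length]
    · intro i h1 h2
      simp only [shape, List.getElem_map, List.getElem_range]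
      rw [h, List.Nodup.idxOf_getElem hu.1]

theorem NShape_equiv (q : Fin 16 → Fin 16) (hinv : ∀ i, q (q i) = i) (hne : ∀ i, q i ≠ i) :
    ∃ g : L ≃ Fin 16, ∀ l, g (bar l) = q (g l) := by
  let Φ : {i : Fin 16 // i < q i} × Bool → Fin 16 := fun x => if x.2 = true then x.1.1 else q x.1.1
  have hq : Function.Injective q := fun i j e => by rw [← hinv i, e, hinv]
  have hΦ : Function.Bijective Φ := by
    constructor
    · rintro ⟨⟨i, hi⟩, _ | _⟩ ⟨⟨j, hj⟩, _ | _⟩ e <;> simp only [Φ, if_true, Bool.false_eq_true,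
        if_false] at e
      · obtain rfl := hq e
        rfl
      · subst e
        rw [hinv] at hj
        exact absurd hi (not_lt.2 hj.le)
      · subst e
        rw [hinv] at hi
        exact absurd hj (not_lt.2 hi.le)
      · subst e
        rfl
    · intro i
      rcases lt_or_gt_of_ne (hne i) with h | h
      · exact ⟨(⟨q i, by rwa [hinv]⟩, false), hinv i⟩
      · exact ⟨(⟨i, h⟩, true), rfl⟩
  have hc := Fintype.card_of_bijective hΦ
  rw [Fintype.card_prod, Fintype.card_bool, Fintype.card_fin] at hc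
  have hX : Fintype.card X = Fintype.card {i : Fin 16 // i < q i} := by
    rw [show Fintype.card X = 8 from rfl]
    omega
  let e := Fintype.equivOfCardEq hX
  refine ⟨(e.prodCongr (Equiv.refl Bool)).trans (Equiv.ofBijective Φ hΦ), ?_⟩
  rintro ⟨x, _ | _⟩
  · exact (hinv _).symm
  · rfl

theorem exists_word (p : ℕ → ℕ) (hlt : ∀ i < 16, p i < 16) (hinv : ∀ i < 16, p (p i) = i)
    (hne : ∀ i < 16, p i ≠ i) : ∃ u : List L, Valid u ∧ shape u = (List.range 16).map p := by
  obtain ⟨g, hg⟩ := NShape_equiv (fun i => ⟨p i, hlt i i.2⟩) (fun i => Fin.ext (hinv i i.2))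
    fun i e => hne i i.2 (congrArg Fin.val e)
  have hv : Valid (List.ofFn g.symm) :=
    ⟨List.nodup_ofFn.2 g.symm.injective, fun l => List.mem_ofFn.2 ⟨g l, g.symm_apply_apply l⟩⟩
  have hi : ∀ b, (List.ofFn g.symm).idxOf b = g b := fun b => NShape_idx hv (by
    rw [List.getElem?_ofFn, dif_pos (g b).2]
    exact congrArg some (g.symm_apply_apply b))
  refine ⟨_, hv, (NShape_iff hv p).2 fun b => ?_⟩
  rw [hi, hi, hg]

theorem idxOf_rot {u : List L} (hu : Valid u) {k : ℕ} (hk : k ≤ 16) (b : L) :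
    (u.rotate k).idxOf b = (u.idxOf b + 16 - k) % 16 := by
  have h1 := NShape_lt hu b
  refine NShape_idx (hu.rotate k) ?_
  rw [List.getElem?_rotate (by rw [hu.length]; omega), hu.length,
    show ((u.idxOf b + 16 - k) % 16 + k) % 16 = u.idxOf b by omega]
  exact NShape_get hu b

theorem idxOf_slide {a t : L} {U : List L} (hu : Valid (a :: t :: U)) (ht : t ≠ bar a) (b : L) :
    (slide (a :: t :: U)).idxOf b =
      sp ((a :: t :: U).idxOf (bar a)) ((a :: t :: U).idxOf b) := by
  obtain ⟨U1, V, rfl, h1⟩ := hu.pattern ht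
  have e := slide_eq (t := t) (V := V) h1
  simp only [List.cons_append] at e
  have hn := hu.1
  simp only [List.nodup_cons, List.mem_cons, List.mem_append, not_or] at hn
  have hk : (a :: t :: (U1 ++ bar a :: V)).idxOf (bar a) = U1.length + 2 := by
    rw [List.idxOf_cons_ne _ (bar_ne a).symm, List.idxOf_cons_ne _ ht,
      List.idxOf_append_of_notMem h1, List.idxOf_cons_self]
  rw [e, hk]
  unfold sp
  by_cases ha : a = b
  · subst ha
    simp
  rw [List.idxOf_cons_ne _ ha, List.idxOf_cons_ne _ ha]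
  by_cases hb : t = b
  · subst hb
    rw [List.idxOf_append_of_notMem hn.2.1.1]
    simp
  rw [List.idxOf_cons_ne _ hb]
  by_cases hU : b ∈ U1
  · have := List.idxOf_lt_length_of_mem hU
    rw [List.idxOf_append_of_mem hU, List.idxOf_append_of_mem hU]
    split_ifs <;> omega
  · rw [List.idxOf_append_of_notMem hU, List.idxOf_append_of_notMem hU, List.idxOf_cons_ne _ hb]
    split_ifs <;> omega

/-- Reading the shape. -/
theorem shape_iff {u : List L} (hu : Valid u) (p : ℕ → ℕ) :
    shape u = (List.range 16).map p ↔ ∀ b, u.idxOf (bar b) = p (u.idxOf b) :=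
  NShape_iff hu p

theorem sp_lt {k p : ℕ} (hk : k < 16) (hp : p < 16) : sp k p < 16 := by
  unfold sp
  split_ifs <;> omega

theorem sp_surj {k : ℕ} (h2 : 2 ≤ k) (hk : k < 16) (j : ℕ) (hj : j < 16) :
    ∃ i < 16, sp k i = j := by
  by_cases h1 : j = k - 1
  · exact ⟨1, by omega, by rw [h1]; rfl⟩
  by_cases h3 : 1 ≤ j ∧ j < k - 1
  · refine ⟨j + 1, by omega, ?_⟩
    unfold sp
    split_ifs <;> omega
  · refine ⟨j, hj, ?_⟩
    unfold sp
    split_ifs <;> omega

theorem sp_inj {k i j : ℕ} (h2 : 2 ≤ k) (h : sp k i = sp k j) : i = j := by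
  unfold sp at h
  split_ifs at h <;> omega

theorem shape_rot {u : List L} (hu : Valid u) {p p' : ℕ → ℕ}
    (h : shape u = (List.range 16).map p) (hp : ∀ i < 16, p' i = (p ((i + 1) % 16) + 15) % 16) :
    shape (u.rotate 1) = (List.range 16).map p' := by
  refine (shape_iff (hu.rotate 1) p').2 fun b => ?_
  have h1 := NShape_lt hu b
  rw [idxOf_rot hu (by omega), idxOf_rot hu (by omega), hp _ (by omega),
    show ((u.idxOf b + 16 - 1) % 16 + 1) % 16 = u.idxOf b by omega, (shape_iff hu p).1 h b]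
  omega

theorem shape_slide {u : List L} (hu : Valid u) {p p' : ℕ → ℕ}
    (h : shape u = (List.range 16).map p) (h1 : p 0 ≠ 1)
    (hp : ∀ i < 16, p' (sp (p 0) i) = sp (p 0) (p i)) :
    shape (slide u) = (List.range 16).map p' := by
  have hs := (shape_iff hu p).1 h
  match u, hu, hs with
  | [], hu, _ => exact absurd hu.length (by simp)
  | [_], hu, _ => exact absurd hu.length (by simp)
  | a :: t :: U, hu, hs =>
    have h0 := hs a
    rw [List.idxOf_cons_self] at h0
    have ht : t ≠ bar a := fun e => h1 (by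
      rw [← h0, ← e]
      exact NShape_idx hu rfl)
    refine (shape_iff (hu.perm (slide_perm _).symm) p').2 fun b => ?_
    rw [idxOf_slide hu ht, idxOf_slide hu ht, h0, hp _ (NShape_lt hu b), hs b]

/-- The successor of a letter sits at the next position. -/
theorem idxOf_succL {u : List L} (hu : Valid u) (b : L) :
    u.idxOf (succL u b) = (u.idxOf b + 1) % 16 := by
  have h1 : 1 < u.length := by rw [hu.length]; omega
  have h2 : (u.idxOf b + 1) % 16 < u.length := by rw [hu.length]; omega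
  refine NShape_idx hu ?_
  unfold succL
  rw [List.getD_eq_getElem?_getD, List.getElem?_rotate h1, hu.length, add_comm 1,
    List.getElem?_eq_getElem h2]
  rfl

end Pool.Agent.MP_61a8e3_al.G4.A

end

section

/-! Position tables: the slide is injective and the twist cells hold everywhere. -/

set_option autoImplicit false

namespace Pool.Agent.MP_61a8e3_al.G4.A

namespace NTab

variable {Xc : Type} (N : NTab Xc)

theorem sh_pow (x : Xc) {k : ℕ} (hk : k ≤ 16) (i : ℕ) (hi : i < 16) :
    N.sh ((N.ρ ^ k) x) i = (N.sh x ((i + k) % 16) + 16 - k) % 16 := by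
  induction k generalizing i with
  | zero =>
    have h := N.lt x i hi
    rw [pow_zero, Equiv.Perm.one_apply, show (i + 0) % 16 = i by omega]
    omega
  | succ k ih =>
    rw [pow_succ', Equiv.Perm.mul_apply, N.sh_ρ _ i hi, ih (by omega) _ (by omega),
      show ((i + 1) % 16 + k) % 16 = (i + (k + 1)) % 16 by omega]
    omega

theorem two_le (x : Xc) : 2 ≤ N.sh x 0 := by
  have h1 := N.ne x 0 (by norm_num)
  have h2 := N.adj x
  omega

theorem le_fourteen (x : Xc) : N.sh x 0 ≤ 14 := by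
  have h1 := N.lt x 0 (by norm_num)
  by_contra h
  have h2 := N.inv x 0 (by norm_num)
  rw [show N.sh x 0 = 15 by omega] at h2
  refine N.adj ((N.ρ ^ 15) x) ?_
  rw [N.sh_pow x (by norm_num) 0 (by norm_num), show (0 + 15) % 16 = 15 from rfl, h2]

theorem NTwist_sp {k : ℕ} (hk : 2 ≤ k) : sp k k = k := by
  rw [sp, if_neg (by omega), if_neg (by omega)]

theorem sh_T0 (x : Xc) : N.sh (N.T x) 0 = N.sh x 0 := by
  have h := N.sh_T x 0 (by norm_num)
  rwa [NTwist_sp (N.two_le x), sp, if_neg (by omega), if_neg (by omega)] at h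

theorem inj : Function.Injective N.T := by
  intro x y h
  have h0 : N.sh x 0 = N.sh y 0 := by rw [← N.sh_T0 x, h, N.sh_T0]
  exact (N.tri x _ _ rfl rfl).symm.trans (N.tri y _ _ (by rw [h0, h]) rfl)

theorem NTwist_flip {x : Xc} {k : ℕ} (h : N.sh x 0 = k) : N.sh ((N.ρ ^ k) x) 0 = 16 - k := by
  have h1 := N.two_le x
  have h2 := N.le_fourteen x
  have h3 := N.inv x 0 (by norm_num)
  rw [h] at h1 h2 h3
  rw [N.sh_pow x (by omega) 0 (by norm_num), show (0 + k) % 16 = k by omega, h3]
  omega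

theorem NTwist_can {j k : ℕ} (h : j + k = 16) (x : Xc) : (N.ρ ^ j) ((N.ρ ^ k) x) = x := by
  rw [← Equiv.Perm.mul_apply, ← pow_add, h, N.ρ16]

theorem NTwist_comm0 {w : Xc} {k : ℕ} (h : N.sh w 0 = k) (hk : k ≤ 8) :
    N.T ((N.ρ ^ (16 - k)) (N.T ((N.ρ ^ k) w))) = (N.ρ ^ (16 - k)) (N.T ((N.ρ ^ k) (N.T w))) := by
  have h1 := N.two_le w
  have h3 := N.inv w 0 (by norm_num)
  have h4 := N.inv w 1 (by norm_num)
  rw [h] at h1 h3
  have h5 := N.comm w k _ _ h1 hk (fun e => by rw [← e, h3] at h4; omega) (by omega) rfl rfl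
  rwa [h, NTwist_sp h1, N.NTwist_flip h, N.NTwist_flip ((N.sh_T0 w).trans h),
    NTwist_sp (by omega)] at h5

theorem NTwist_comm {w : Xc} {k : ℕ} (h : N.sh w 0 = k) :
    N.T ((N.ρ ^ (16 - k)) (N.T ((N.ρ ^ k) w))) = (N.ρ ^ (16 - k)) (N.T ((N.ρ ^ k) (N.T w))) := by
  by_cases hk : k ≤ 8
  · exact N.NTwist_comm0 h hk
  have h2 := N.le_fourteen w
  have h3 := N.NTwist_comm0 (N.NTwist_flip h) (by omega)
  rw [show 16 - (16 - k) = k by omega, N.NTwist_can (by omega)] at h3
  rw [h3, N.NTwist_can (by omega)]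

theorem NTwist_iter {k : ℕ} (n : ℕ) {w : Xc} (h : N.sh w 0 = k) :
    N.T ((N.ρ ^ (16 - k)) (N.T^[n] ((N.ρ ^ k) w))) =
      (N.ρ ^ (16 - k)) (N.T^[n] ((N.ρ ^ k) (N.T w))) := by
  have h2 := N.le_fourteen w
  induction n generalizing w with
  | zero => simp only [Function.iterate_zero_apply, N.NTwist_can (show 16 - k + k = 16 by omega)]
  | succ n ih =>
    have h3 : N.sh ((N.ρ ^ (16 - k)) (N.T ((N.ρ ^ k) w))) 0 = k :=
      (N.NTwist_flip ((N.sh_T0 _).trans (N.NTwist_flip h))).trans (by omega)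
    have h4 := ih h3 (N.le_fourteen _)
    rwa [N.NTwist_comm h, N.NTwist_can (by omega), N.NTwist_can (by omega)] at h4

theorem NTwist_back {k : ℕ} (n : ℕ) {w : Xc} (h : N.sh w 0 = k)
    (h1 : N.T^[k - 1] (N.T^[n] w) = (N.ρ ^ (16 - k)) (N.T^[15 - k] ((N.ρ ^ k) (N.T^[n] w)))) :
    N.T^[k - 1] w = (N.ρ ^ (16 - k)) (N.T^[15 - k] ((N.ρ ^ k) w)) := by
  induction n generalizing w with
  | zero => exact h1
  | succ n ih =>
    have h2 := ih ((N.sh_T0 w).trans h) h1
    rw [← N.NTwist_iter _ h, ← Function.iterate_succ_apply, Function.iterate_succ_apply'] at h2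
    exact N.inj h2

theorem NTwist_big {k : ℕ} {w : Xc} (h : N.sh w 0 = k) (hk : 8 ≤ k) :
    N.T^[k - 1] w = (N.ρ ^ (16 - k)) (N.T^[15 - k] ((N.ρ ^ k) w)) := by
  obtain ⟨n, y, rfl, h1⟩ := N.twist w (by omega)
  rw [h] at h1
  exact N.NTwist_back n h h1

theorem twist_all (x : Xc) :
    N.T^[N.sh x 0 - 1] x =
      (N.ρ ^ (16 - N.sh x 0)) (N.T^[15 - N.sh x 0] ((N.ρ ^ N.sh x 0) x)) := by
  by_cases hk : 8 ≤ N.sh x 0
  · exact N.NTwist_big rfl hk
  have h1 := N.two_le x
  have h2 := N.NTwist_big (N.NTwist_flip (x := x) rfl) (by omega)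
  rw [show 16 - (16 - N.sh x 0) = N.sh x 0 by omega, N.NTwist_can (by omega),
    show 16 - N.sh x 0 - 1 = 15 - N.sh x 0 by omega,
    show 15 - (16 - N.sh x 0) = N.sh x 0 - 1 by omega] at h2
  rw [h2, N.NTwist_can (by omega)]

end NTab

end Pool.Agent.MP_61a8e3_al.G4.A

end

section

/-! The cells hold on the level of words for every valid word without a letter followed by its
inverse. -/

set_option autoImplicit false

namespace Pool.Agent.MP_61a8e3_al.G4.A

open Equiv in
theorem NWord_map {α : Type} [DecidableEq α] (π : Perm α) :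
    ∀ u : List α, (u.map π).formPerm = π * u.formPerm * π⁻¹
  | [] => by simp
  | [_] => by simp
  | x :: y :: l => by
    have ih := NWord_map π (y :: l)
    rw [List.map_cons] at ih
    rw [List.map_cons, List.map_cons, List.formPerm_cons_cons, List.formPerm_cons_cons, ih,
      swap_apply_apply]
    group

open Equiv in
theorem NWord_pent {α : Type} [DecidableEq α] {σ : Perm α} {a t s A T : α} (h1 : σ a = t)
    (h2 : σ t = s) (n1 : a ≠ t) (n2 : a ≠ s) (n3 : t ≠ s) (n4 : s ≠ A) (_n5 : s ≠ T) (_n6 : t ≠ A)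
    (n7 : t ≠ T) (n8 : A ≠ T) :
    swap s T * (swap s A * (swap t A * σ * swap a t) * swap a s) * swap t s =
      swap t A * (swap s T * σ * swap t s) * swap a t := by
  have e1 : swap a t * swap a s * swap t s = swap t a * (swap t s * swap a t) := by
    ext x; simp only [Perm.mul_apply, swap_apply_def]; grind
  have e2 : σ * swap t a = swap s t * σ := by
    rw [mul_swap_eq_swap_mul, h1, h2]
  have e3 : swap s T * swap s A * swap t A * swap s t = swap t A * swap s T := by
    ext x; simp only [Perm.mul_apply, swap_apply_def]; grind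
  calc _ = swap s T * swap s A * swap t A * σ * (swap a t * swap a s * swap t s) := by
        simp only [mul_assoc]
    _ = swap s T * swap s A * swap t A * (σ * swap t a) * (swap t s * swap a t) := by
        rw [e1]; simp only [mul_assoc]
    _ = swap s T * swap s A * swap t A * swap s t * σ * (swap t s * swap a t) := by
        rw [e2]; simp only [mul_assoc]
    _ = _ := by rw [e3]; simp only [mul_assoc]

open Equiv in
theorem NWord_pent2 {α : Type} [DecidableEq α] {σ : Perm α} {a t r A T : α} (h1 : σ a = t)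
    (h2 : σ T = r) (n1 : a ≠ t) (n2 : a ≠ r) (n3 : t ≠ r) (n4 : r ≠ A) (n5 : r ≠ T) (n6 : t ≠ A)
    (n7 : t ≠ T) (n8 : a ≠ T) :
    swap t A * (swap r A * (swap r t * σ * swap T r) * swap a r) * swap a t =
      swap r t * (swap t A * σ * swap a t) * swap T r := by
  have e1 : swap T r * swap a r * swap a t = swap a T * (swap a t * swap T r) := by
    ext x; simp only [Perm.mul_apply, swap_apply_def]; grind
  have e2 : σ * swap a T = swap t r * σ := by
    rw [mul_swap_eq_swap_mul, h1, h2]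
  have e3 : swap t A * swap r A * swap r t * swap t r = swap r t * swap t A := by
    ext x; simp only [Perm.mul_apply, swap_apply_def]; grind
  calc _ = swap t A * swap r A * swap r t * σ * (swap T r * swap a r * swap a t) := by
        simp only [mul_assoc]
    _ = swap t A * swap r A * swap r t * (σ * swap a T) * (swap a t * swap T r) := by
        rw [e1]; simp only [mul_assoc]
    _ = swap t A * swap r A * swap r t * swap t r * σ * (swap a t * swap T r) := by
        rw [e2]; simp only [mul_assoc]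
    _ = _ := by rw [e3]; simp only [mul_assoc]

open Equiv in
theorem NWord_comm {α : Type} [DecidableEq α] {σ : Perm α} {a t b s A B : α} (n1 : t ≠ s)
    (n2 : t ≠ B) (n3 : A ≠ s) (n4 : A ≠ B) (n5 : b ≠ a) (n6 : b ≠ t) (n7 : s ≠ a) :
    swap t A * (swap s B * σ * swap b s) * swap a t =
      swap s B * (swap t A * σ * swap a t) * swap b s := by
  have e1 : swap b s * swap a t = swap a t * swap b s := by
    ext x; simp only [Perm.mul_apply, swap_apply_def]; grind
  have e3 : swap t A * swap s B = swap s B * swap t A := by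
    ext x; simp only [Perm.mul_apply, swap_apply_def]; grind
  calc _ = swap t A * swap s B * σ * (swap b s * swap a t) := by simp only [mul_assoc]
    _ = _ := by rw [e1, e3]; simp only [mul_assoc]

/-- The slide on the level of successor permutations. -/
theorem formPerm_slide {a t : L} {U : List L} (hu : Valid (a :: t :: U)) (ht : t ≠ bar a) :
    (slide (a :: t :: U)).formPerm =
      Equiv.swap t (bar a) * (a :: t :: U).formPerm * Equiv.swap a t := by
  obtain ⟨U1, V, rfl, h1⟩ := hu.pattern ht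
  have hs := slide_eq (t := t) (V := V) h1
  have hv : Valid (a :: U1 ++ t :: bar a :: V) := by
    rw [← hs]; exact hu.perm (slide_perm _).symm
  have e1 : (a :: t :: (U1 ++ bar a :: V)).formPerm =
      (U1 ++ bar a :: V ++ [a]).formPerm * Equiv.swap a t := by
    rw [← List.formPerm_append_pair]
    exact List.formPerm_eq_of_isRotated hu.1
      (List.isRotated_append (l := [a, t]) (l' := U1 ++ bar a :: V))
  have e2 : (a :: U1 ++ t :: bar a :: V).formPerm =
      Equiv.swap t (bar a) * (bar a :: (V ++ a :: U1)).formPerm := by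
    rw [← List.formPerm_cons_cons]
    exact List.formPerm_eq_of_isRotated hv.1
      (List.isRotated_append (l := a :: U1) (l' := t :: bar a :: V))
  have hn : (U1 ++ bar a :: V ++ [a]).Nodup := by
    have h2 : (a :: (U1 ++ bar a :: V)).Nodup :=
      hu.1.sublist ((List.sublist_cons_self t _).cons_cons a)
    exact (List.perm_append_singleton a _).nodup_iff.2 h2
  have e3 : (U1 ++ bar a :: V ++ [a]).formPerm = (bar a :: (V ++ a :: U1)).formPerm := by
    refine List.formPerm_eq_of_isRotated hn ?_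
    have := List.isRotated_append (l := U1) (l' := bar a :: V ++ [a])
    simpa using this
  rw [show a :: t :: (U1 ++ bar a :: V) = a :: t :: U1 ++ bar a :: V from rfl, hs, e2,
    show a :: t :: U1 ++ bar a :: V = a :: t :: (U1 ++ bar a :: V) from rfl, e1, e3]
  simp only [mul_assoc, Equiv.swap_mul_self, mul_one]

theorem NWord_rot {w : List L} (hw : Valid w) (b : L) :
    ∃ U, w.rotate (w.idxOf b) = b :: w.formPerm b :: U := by
  have hv := hw.rotate (w.idxOf b)
  have hp := List.formPerm_rotate w hw.1 (w.idxOf b)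
  obtain ⟨U, V, -, -, -, h⟩ := rotate_idxOf (hw.2 b)
  rw [h, List.cons_append] at hv hp ⊢
  have hl := hv.length
  match hM : V ++ U with
  | [] => simp [hM] at hl
  | c :: M =>
    rw [hM] at hv hp
    exact ⟨M, by rw [← hp, List.formPerm_apply_head _ _ _ hv.1]⟩

theorem NWord_succ {w : List L} (hw : Valid w) (b : L) : succL w b = w.formPerm b := by
  obtain ⟨U, h⟩ := NWord_rot hw b
  rw [succL, h]; rfl

theorem NWord_ne {w : List L} (hw : Valid w) (b : L) : w.formPerm b ≠ b := by
  obtain ⟨U, h⟩ := NWord_rot hw b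
  have := (hw.rotate (w.idxOf b)).1
  rw [h] at this
  intro e
  simp [e] at this

theorem NWord_step {w : List L} (hw : Valid w) {b s : L} {σ : Equiv.Perm L} (hσ : w.formPerm = σ)
    (hs : σ b = s) (hb : s ≠ bar b) (bs : List L) (f : L) :
    ∃ w', Valid w' ∧ w'.formPerm = Equiv.swap s (bar b) * σ * Equiv.swap b s ∧
      simW w (fw (b :: bs)) f = simW w' (fw bs) f := by
  subst hσ
  subst hs
  obtain ⟨U, h⟩ := NWord_rot hw b
  have hv := hw.rotate (w.idxOf b)
  have hp := List.formPerm_rotate w hw.1 (w.idxOf b)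
  refine ⟨slide (w.rotate (w.idxOf b)), hv.perm (slide_perm _).symm, ?_, rfl⟩
  rw [h] at hv hp ⊢
  rw [formPerm_slide hv hb, hp]

theorem NWord_fin {v w : List L} (hv : Valid v) (hw : Valid w) (h : v.formPerm = w.formPerm)
    (f : L) : simW v (fw []) f = simW w (fw []) f := by
  show v.rotate (v.idxOf f) = w.rotate (w.idxOf f)
  have hr : v ~r w := by
    rcases (List.formPerm_eq_formPerm_iff hv.1 hw.1).1 h with h1 | h1
    · exact h1
    · have := hv.length; omega
  obtain ⟨U, hU⟩ := NWord_rot hv f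
  obtain ⟨V, hV⟩ := NWord_rot hw f
  have hn := (hv.rotate (v.idxOf f)).1
  have h2 : v.rotate (v.idxOf f) ~r w.rotate (w.idxOf f) :=
    (List.IsRotated.symm ⟨_, rfl⟩).trans (hr.trans ⟨_, rfl⟩)
  rw [hU, hV] at h2 ⊢
  rw [hU] at hn
  rw [cyc_head_inj hn (Cycle.coe_eq_coe.2 h2)]

theorem NWord_rep {a : L} (V : List L) (f : L) : ∀ (n : ℕ) (U : List L), U ≠ [] → bar a ∉ U →
    simW (a :: U ++ bar a :: V) (fw (List.replicate n a)) f =
      simW (a :: U.rotate n ++ bar a :: V) (fw []) f
  | 0, U, _, _ => by simp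
  | _ + 1, [], h, _ => absurd rfl h
  | n + 1, t :: U, _, h => by
    have h1 : bar a ∉ U := fun e => h (List.mem_cons_of_mem _ e)
    have ih := NWord_rep (a := a) V f n (U ++ [t]) (by simp) (by simpa [or_comm] using h)
    rw [List.rotate_cons_succ, ← ih]
    show simW (slide ((a :: t :: U ++ bar a :: V).rotate
      ((a :: t :: U ++ bar a :: V).idxOf a))) _ f = _
    rw [show (a :: t :: U ++ bar a :: V).idxOf a = 0 by simp, List.rotate_zero, slide_eq h1]
    simp [fw]

theorem NWord_first {w : List L} {b : L} (hb : b ∈ w) (bs : List L) (f : L) :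
    simW w (fw (b :: bs)) f = simW (w.rotate (w.idxOf b)) (fw (b :: bs)) f := by
  obtain ⟨U, V, -, -, -, h⟩ := rotate_idxOf hb
  show simW (slide (w.rotate (w.idxOf b))) _ f =
    simW (slide ((w.rotate (w.idxOf b)).rotate ((w.rotate (w.idxOf b)).idxOf b))) _ f
  rw [h]
  simp

theorem NWord_twist {a t : L} {U : List L} (hu : Valid (a :: t :: U)) (ht : t ≠ bar a)
    (hk : (a :: t :: U).idxOf (bar a) ≤ 8) :
    simW (a :: t :: U) (fw (List.replicate ((a :: t :: U).idxOf (bar a) - 1) a)) a =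
      simW (a :: t :: U) (fw (List.replicate (15 - (a :: t :: U).idxOf (bar a)) (bar a))) a := by
  obtain ⟨U1, V, rfl, h1⟩ := hu.pattern ht
  have h2 : bar a ∉ a :: t :: U1 := by simp [h1, bar_ne a, Ne.symm ht]
  have h3 : (a :: t :: (U1 ++ bar a :: V)).idxOf (bar a) = (a :: t :: U1).length := by
    rw [← List.cons_append, ← List.cons_append, List.idxOf_append_of_notMem h2]
    simp
  have hl := hu.length
  simp only [List.length_cons, List.length_append] at hl
  have h4 : (a :: t :: (U1 ++ bar a :: V)).rotate ((a :: t :: (U1 ++ bar a :: V)).idxOf (bar a)) =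
      bar a :: V ++ bar (bar a) :: t :: U1 := by
    rw [h3, ← List.cons_append, ← List.cons_append, List.rotate_append_length_eq, bar_bar]
  have hv := hu.rotate ((a :: t :: (U1 ++ bar a :: V)).idxOf (bar a))
  have hp := List.formPerm_rotate _ hu.1 ((a :: t :: (U1 ++ bar a :: V)).idxOf (bar a))
  rw [h4] at hv hp
  have h5 : bar (bar a) ∉ V := by
    have := hu.1
    rw [bar_bar]
    intro e
    simp [e] at this
  rw [h3] at hk
  simp only [List.length_cons] at hk
  have h6 : V ≠ [] := by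
    rintro rfl
    simp at hl
    omega
  have e1 : (a :: t :: (U1 ++ bar a :: V)).idxOf (bar a) - 1 = (t :: U1).length := by
    rw [h3]; simp
  obtain ⟨m, hm⟩ : ∃ m, V.length = m + 1 := ⟨V.length - 1, by omega⟩
  have e2 : 15 - (a :: t :: (U1 ++ bar a :: V)).idxOf (bar a) = m + 1 := by
    rw [h3]; simp only [List.length_cons]; omega
  have l1 := NWord_rep (a := a) V a (t :: U1).length (t :: U1) (by simp)
    (fun e => h2 (List.mem_cons_of_mem _ e))
  have l2 := NWord_rep (a := bar a) (t :: U1) a (m + 1) V h6 h5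
  rw [List.rotate_length] at l1
  rw [← hm, List.rotate_length, hm] at l2
  rw [e1, e2, List.replicate_succ, NWord_first (hu.2 (bar a)), h4, ← List.replicate_succ, l2]
  exact l1.trans (NWord_fin hu hv hp.symm a)

theorem NWord_tri {a t : L} {U : List L} (hu : Valid (a :: t :: U)) (ht : t ≠ bar a) :
    simW (a :: t :: U) (fw [a, t, bar a]) (bar t) = (a :: t :: U).map (triF a t) := by
  have h0 : (a :: t :: U).formPerm a = t := List.formPerm_apply_head _ _ _ hu.1
  have n1 : t ≠ a := h0 ▸ NWord_ne hu a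
  have n2 : bar a ≠ bar t := fun e => n1 (bar_inj e).symm
  have n3 : bar t ≠ a := fun e => ht (by rw [← e, bar_bar])
  have n4 := bar_ne a
  have n5 := bar_ne t
  obtain ⟨w1, v1, p1, s1⟩ := NWord_step hu rfl h0 ht [t, bar a] (bar t)
  obtain ⟨w2, v2, p2, s2⟩ := NWord_step v1 p1 (b := t) (s := bar a)
    (by simp [-List.formPerm_cons_cons, h0]) n2 [bar a] (bar t)
  obtain ⟨w3, v3, p3, s3⟩ := NWord_step v2 p2 (b := bar a) (s := bar t)
    (by simp [-List.formPerm_cons_cons, h0]) (by rw [bar_bar]; exact n3) [] (bar t)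
  rw [bar_bar] at p3
  set π : Equiv.Perm L := Equiv.swap (bar t) a * Equiv.swap (bar a) (bar t) * Equiv.swap t (bar a)
    with hπ
  have e1 : triF a t = π := by
    funext x
    simp only [hπ, triF, Equiv.Perm.mul_apply, Equiv.swap_apply_def]
    grind
  have e2 : π⁻¹ = Equiv.swap a t * Equiv.swap t (bar a) * Equiv.swap (bar a) (bar t) := by
    refine inv_eq_of_mul_eq_one_right (Equiv.ext fun x => ?_)
    simp only [hπ, Equiv.Perm.mul_apply, Equiv.swap_apply_def, Equiv.Perm.one_apply]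
    grind
  have e3 : w3.formPerm = ((a :: t :: U).map π).formPerm := by
    rw [NWord_map, p3, e2, hπ]
    simp only [mul_assoc]
  rw [s1, s2, s3, NWord_fin v3 (hu.map π) e3, e1]
  have e4 : π a = bar t := by rw [← e1]; simp [triF, n1.symm]
  show List.rotate _ (List.idxOf _ _) = _
  rw [List.map_cons, e4]
  simp

theorem okShape_of_valid {u : List L} (hu : Valid u) (h : ∀ a, succL u a ≠ bar a) :
    okShape u = true := by
  have hl := hu.length
  match u, hu, h, hl with
  | a :: t :: s :: U, hu, h, hl =>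
    simp only [NWord_succ hu] at h
    have h0 : (a :: t :: s :: U).formPerm a = t := List.formPerm_apply_head _ _ _ hu.1
    have ht : t ≠ bar a := h0 ▸ h a
    have n1 : t ≠ a := h0 ▸ NWord_ne hu a
    have n2 : bar a ≠ bar t := fun e => n1 (bar_inj e).symm
    have n3 : bar t ≠ a := fun e => ht (by rw [← e, bar_bar])
    have n4 := bar_ne a
    have n5 := bar_ne t
    have hinj : ∀ b, b ≠ a → (a :: t :: s :: U).formPerm b ≠ t := fun b hb e =>
      hb ((a :: t :: s :: U).formPerm.injective (e.trans h0.symm))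
    simp only [okShape, Bool.and_eq_true, beq_iff_eq, List.all_eq_true, bne_iff_ne,
      List.contains_iff_mem]
    refine ⟨⟨⟨⟨hl, fun l _ => hu.2 l⟩, ht⟩, NWord_tri hu ht⟩, fun c hc => ?_⟩
    simp only [cells, List.mem_append, List.mem_filterMap, NWord_succ hu] at hc
    generalize hσ : (a :: t :: s :: U).formPerm = σ at h h0 hinj hc
    have hne : ∀ b, σ b ≠ b := fun b => hσ ▸ NWord_ne hu b
    rcases hc with ((⟨b, hb, hc⟩ | hc) | hc) | hc
    · split_ifs at hc with hd
      obtain rfl := Option.some.inj hc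
      obtain ⟨d1, d2, d3, d4⟩ := hd
      have d5 : b ≠ a := by
        rintro rfl
        exact (List.nodup_cons.1 hu.1).1 (List.mem_of_mem_take hb)
      have d6 := hinj b d5
      obtain ⟨w1, v1, p1, s1⟩ := NWord_step hu hσ rfl (h b) [a] a
      obtain ⟨w2, v2, p2, s2⟩ := NWord_step v1 p1 (b := a) (s := t) (by
        simp [Equiv.swap_apply_of_ne_of_ne d5.symm d3.symm, h0,
          Equiv.swap_apply_of_ne_of_ne d6.symm d2]) ht [] a
      obtain ⟨w3, v3, p3, s3⟩ := NWord_step hu hσ h0 ht [b] a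
      obtain ⟨w4, v4, p4, s4⟩ := NWord_step v3 p3 (b := b) (s := σ b) (by
        simp [Equiv.swap_apply_of_ne_of_ne d5 d1.symm,
          Equiv.swap_apply_of_ne_of_ne d6 d4]) (h b) [] a
      rw [s1, s2, s3, s4]
      refine NWord_fin v2 v4 ?_ a
      rw [p2, p4]
      exact NWord_comm d6.symm d2 d4.symm (fun e => d5 (bar_inj e).symm) d5 d1.symm d3
    · split_ifs at hc with hd
      · obtain rfl := List.mem_singleton.1 hc
        have d0 : σ t = s := by
          rw [← hσ, ← List.formPerm_rotate_one _ hu.1]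
          exact List.formPerm_apply_head _ _ _ (hu.rotate 1).1
        have d1 : σ t ≠ a := by
          rw [d0]
          rintro rfl
          have := hu.1
          simp at this
        have d2 := hne t
        have d3 := h t
        obtain ⟨w1, v1, p1, s1⟩ := NWord_step hu hσ h0 ht [a, t] a
        obtain ⟨w2, v2, p2, s2⟩ := NWord_step v1 p1 (b := a) (s := σ t) (by
          simp [Equiv.swap_apply_of_ne_of_ne d2 hd]) hd [t] a
        obtain ⟨w3, v3, p3, s3⟩ := NWord_step v2 p2 (b := t) (s := σ t) (by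
          simp [Equiv.swap_apply_of_ne_of_ne n1 d2.symm, h0]) d3 [] a
        obtain ⟨w4, v4, p4, s4⟩ := NWord_step hu hσ rfl d3 [a] a
        obtain ⟨w5, v5, p5, s5⟩ := NWord_step v4 p4 (b := a) (s := t) (by
          simp [Equiv.swap_apply_of_ne_of_ne n1.symm d1.symm, h0,
            Equiv.swap_apply_of_ne_of_ne d2.symm n5.symm]) ht [] a
        rw [s1, s2, s3, s4, s5]
        refine NWord_fin v3 v5 ?_ a
        rw [p3, p5]
        exact NWord_pent h0 rfl n1.symm d1.symm d2.symm hd d3 ht n5.symm n2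
      · simp at hc
    · split_ifs at hc with hd
      · obtain rfl := List.mem_singleton.1 hc
        obtain ⟨d1, d2⟩ := hd
        have d3 := hinj _ n3
        have d4 := hne (bar t)
        obtain ⟨w1, v1, p1, s1⟩ := NWord_step hu hσ rfl (h (bar t)) [a, a] a
        rw [bar_bar] at p1
        obtain ⟨w2, v2, p2, s2⟩ := NWord_step v1 p1 (b := a) (s := σ (bar t)) (by
          simp [Equiv.swap_apply_of_ne_of_ne n3.symm d1.symm, h0]) d2 [a] a
        obtain ⟨w3, v3, p3, s3⟩ := NWord_step v2 p2 (b := a) (s := t) (by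
          simp [Equiv.swap_apply_of_ne_of_ne d3.symm ht]) ht [] a
        obtain ⟨w4, v4, p4, s4⟩ := NWord_step hu hσ h0 ht [bar t] a
        obtain ⟨w5, v5, p5, s5⟩ := NWord_step v4 p4 (b := bar t) (s := σ (bar t)) (by
          simp [Equiv.swap_apply_of_ne_of_ne n3 n5,
            Equiv.swap_apply_of_ne_of_ne d3 d2]) (h (bar t)) [] a
        rw [bar_bar] at p5
        rw [s1, s2, s3, s4, s5]
        refine NWord_fin v3 v5 ?_ a
        rw [p3, p5]
        exact NWord_pent2 h0 rfl n1.symm d1.symm d3.symm d2 d4 ht n5.symm n3.symm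
      · simp at hc
    · split_ifs at hc with hd
      · obtain rfl := List.mem_singleton.1 hc
        exact NWord_twist hu ht hd
      · simp at hc

end Pool.Agent.MP_61a8e3_al.G4.A

end

section

/-! A position table gives a rooted table. -/

set_option autoImplicit false

namespace Pool.Agent.MP_61a8e3_al.G4.A

section NMainAux

variable {Xc : Type} (N : NTab Xc)

/-- The slide as a permutation. -/
noncomputable def NMain_T : Equiv.Perm Xc := Equiv.ofBijective N.T ⟨N.inj, N.surj N.inj⟩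

/-- The word `w` has the shape prescribed by the point `y`. -/
def NMain_Goes (w : List L) (y : Xc) : Prop :=
  Valid w ∧ shape w = (List.range 16).map (N.sh y)

/-- Running the program of a letter sequence. -/
noncomputable def NMain_R (w : List L) (bs : List L) (f : L) (y : Xc) : Xc :=
  run (NMain_T N) N.ρ (simP w (fw bs) f).1 (simP w (fw bs) f).2 y

variable {N}

theorem NMain_lt {w : List L} (hw : Valid w) (b : L) : w.idxOf b < 16 := by
  rw [← hw.length]; exact List.idxOf_lt_length_of_mem (hw.2 b)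

theorem NMain_bar {w : List L} {y : Xc} (h : NMain_Goes N w y) (b : L) :
    w.idxOf (bar b) = N.sh y (w.idxOf b) := (shape_iff h.1 _).1 h.2 b

theorem NMain_rot {w : List L} {y : Xc} (h : NMain_Goes N w y) (k : ℕ) :
    NMain_Goes N (w.rotate k) ((N.ρ ^ k) y) := by
  induction k with
  | zero => simpa using h
  | succ k ih =>
    rw [← List.rotate_rotate, pow_succ', Equiv.Perm.mul_apply]
    exact ⟨ih.1.rotate 1, shape_rot ih.1 ih.2 (N.sh_ρ _)⟩

theorem NMain_slide {w : List L} {y : Xc} (h : NMain_Goes N w y) :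
    NMain_Goes N (slide w) (N.T y) :=
  ⟨h.1.perm (slide_perm w).symm, shape_slide h.1 h.2 (N.adj y) (N.sh_T y)⟩

theorem NMain_two {w : List L} (hw : Valid w) : ∃ a t U, w = a :: t :: U := by
  have := hw.length
  match w, this with
  | a :: t :: U, _ => exact ⟨a, t, U, rfl⟩

theorem NMain_one {a t : L} {U : List L} (hw : Valid (a :: t :: U)) :
    (a :: t :: U).idxOf t = 1 := by
  have h : a ≠ t := by
    intro e
    have := hw.1
    simp [e] at this
  simp [List.idxOf_cons_ne _ h]

theorem NMain_pos {w : List L} {y : Xc} (h : NMain_Goes N w y) (c : L) :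
    (slide w).idxOf c = sp (N.sh y 0) (w.idxOf c) := by
  obtain ⟨a, t, U, rfl⟩ := NMain_two h.1
  have h0 : (a :: t :: U).idxOf (bar a) = N.sh y 0 := by rw [NMain_bar h]; simp
  have ht : t ≠ bar a := by
    intro e
    apply N.adj y
    rw [← h0, ← e, NMain_one h.1]
  rw [idxOf_slide h.1 ht, h0]

theorem NMain_nil (w : List L) (f : L) (y : Xc) :
    NMain_R N w [] f y = (N.ρ ^ w.idxOf f) y := rfl

theorem NMain_step {w : List L} {y : Xc} (h : NMain_Goes N w y) (b : L) {q : ℕ}
    (hq : w.idxOf b = q) :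
    ∃ w', NMain_Goes N w' (N.T ((N.ρ ^ q) y)) ∧ w'.idxOf b = 0 ∧
      w'.idxOf (bar b) = N.sh ((N.ρ ^ q) y) 0 ∧
      (∀ c, w'.idxOf c = sp (N.sh ((N.ρ ^ q) y) 0) ((w.idxOf c + 16 - q) % 16)) ∧
      ∀ bs f, NMain_R N w (b :: bs) f y = NMain_R N w' bs f (N.T ((N.ρ ^ q) y)) := by
  have hl := NMain_lt h.1 b
  have h1 := NMain_rot h q
  have h2 : ∀ c, (slide (w.rotate q)).idxOf c =
      sp (N.sh ((N.ρ ^ q) y) 0) ((w.idxOf c + 16 - q) % 16) := fun c => by
    rw [NMain_pos h1, idxOf_rot h.1 (by omega)]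
  have h3 : (slide (w.rotate q)).idxOf b = 0 := by
    rw [h2, hq]
    have : (q + 16 - q) % 16 = 0 := by omega
    rw [this]; simp [sp]
  refine ⟨slide (w.rotate q), NMain_slide h1, h3, ?_, h2, fun bs f => ?_⟩
  · rw [NMain_bar (NMain_slide h1), h3, N.sh_T0]
  · subst hq; rfl

theorem NMain_root {w : List L} {y : Xc} (h : NMain_Goes N w y) (b : L) (hq : w.idxOf b = 0) :
    ∃ w', NMain_Goes N w' (N.T y) ∧ w'.idxOf b = 0 ∧ w'.idxOf (bar b) = N.sh y 0 ∧
      (∀ c, w'.idxOf c = sp (N.sh y 0) (w.idxOf c)) ∧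
      ∀ bs f, NMain_R N w (b :: bs) f y = NMain_R N w' bs f (N.T y) := by
  obtain ⟨w', h1, h2, h3, h4, h5⟩ := NMain_step h b hq
  simp only [pow_zero, Equiv.Perm.one_apply] at h1 h3 h4 h5
  refine ⟨w', h1, h2, h3, fun c => ?_, h5⟩
  have := NMain_lt h.1 c
  rw [h4]; congr 1; omega

theorem NMain_rep (b : L) (n : ℕ) : ∀ {w : List L} {y : Xc}, NMain_Goes N w y → w.idxOf b = 0 →
    NMain_R N w (List.replicate n b) b y = N.T^[n] y ∧
      NMain_R N w (List.replicate n b) (bar b) y = (N.ρ ^ N.sh y 0) (N.T^[n] y) := by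
  induction n with
  | zero =>
    intro w y h hq
    simp only [List.replicate_zero, NMain_nil, NMain_bar h, hq]
    simp
  | succ n ih =>
    intro w y h hq
    obtain ⟨w', h1, h2, -, -, h5⟩ := NMain_root h b hq
    simp only [List.replicate_succ, h5, Function.iterate_succ_apply]
    simpa only [N.sh_T0] using ih h1 h2

/-- The sequence `[a, b]` from a word with root `a`. -/
theorem NMain_ab {w : List L} {x : Xc} (h : NMain_Goes N w x) {a b : L} {q : ℕ}
    (ha : w.idxOf a = 0) (hb : w.idxOf b = q) (h2 : 2 ≤ q) :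
    NMain_R N w [a, b] a x =
      (N.ρ ^ sp (N.sh ((N.ρ ^ sp (N.sh x 0) q) (N.T x)) 0) (16 - sp (N.sh x 0) q))
        (N.T ((N.ρ ^ sp (N.sh x 0) q) (N.T x))) := by
  obtain ⟨w1, g1, a1, -, p1, r1⟩ := NMain_root h a ha
  obtain ⟨w2, -, -, -, p2, r2⟩ := NMain_step g1 b (hb ▸ p1 b : w1.idxOf b = sp (N.sh x 0) q)
  have e : 1 ≤ sp (N.sh x 0) q := by unfold sp; split_ifs <;> omega
  rw [r1, r2, NMain_nil, p2, a1]
  congr 3
  omega

theorem NMain_cell {a t : L} {U : List L} {x : Xc} (h : NMain_Goes N (a :: t :: U) x) :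
    NMain_R N (a :: t :: U) [a, t, bar a] (bar t) x = x ∧
      ∀ c ∈ cells (a :: t :: U),
        NMain_R N (a :: t :: U) c.1 a x = NMain_R N (a :: t :: U) c.2 a x := by
  have ha : (a :: t :: U).idxOf a = 0 := by simp
  have ht := NMain_one h.1
  have hba : (a :: t :: U).idxOf (bar a) = N.sh x 0 := by rw [NMain_bar h, ha]
  have hbt : (a :: t :: U).idxOf (bar t) = N.sh x 1 := by rw [NMain_bar h, ht]
  have k2 := N.two_le x
  have k14 := N.le_fourteen x
  have hinj : ∀ b c : L, (a :: t :: U).idxOf b = (a :: t :: U).idxOf c → b = c :=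
    fun b c e => (List.idxOf_inj (h.1.2 b)).1 e
  constructor
  · obtain ⟨w1, g1, -, b1, p1, r1⟩ := NMain_root h a ha
    have e1 : w1.idxOf t = N.sh x 0 - 1 := by rw [p1, ht]; simp [sp]
    obtain ⟨w2, g2, -, b2, p2, r2⟩ := NMain_step g1 t e1
    set y := (N.ρ ^ (N.sh x 0 - 1)) (N.T x) with hy
    have y2 := N.two_le y
    have e2 : w2.idxOf (bar a) = N.sh y 0 - 1 := by
      rw [p2, b1]
      have : (N.sh x 0 + 16 - (N.sh x 0 - 1)) % 16 = 1 := by omega
      rw [this]; simp [sp]
    obtain ⟨w3, -, -, -, p3, r3⟩ := NMain_step g2 (bar a) e2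
    set z := (N.ρ ^ (N.sh y 0 - 1)) (N.T y) with hz
    have e3 : w3.idxOf (bar t) = N.sh z 0 - 1 := by
      rw [p3, b2]
      have : (N.sh y 0 + 16 - (N.sh y 0 - 1)) % 16 = 1 := by omega
      rw [this]; simp [sp]
    rw [r1, r2, r3, NMain_nil, e3]
    exact N.tri x y z hy hz
  · intro c hc
    simp only [cells, List.mem_append, List.mem_filterMap] at hc
    rcases hc with ((⟨b, hb, hc⟩ | hc) | hc) | hc
    · split_ifs at hc with hs
      obtain rfl := Option.some.inj hc
      obtain ⟨s1, s2, -, s4⟩ := hs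
      have hm : b ∈ t :: U := List.mem_of_mem_take hb
      have hab : a ≠ b := by
        rintro rfl
        exact (List.nodup_cons.1 h.1.1).1 hm
      have q8 : (a :: t :: U).idxOf b ≤ 8 := by
        rw [List.idxOf_cons_ne _ hab]
        exact (List.mem_take_iff_idxOf_lt hm).1 hb
      have q0 : (a :: t :: U).idxOf b ≠ 0 := fun e => hab (hinj _ _ (ha.trans e.symm))
      have q1 : (a :: t :: U).idxOf b ≠ 1 := fun e => s1 (hinj _ _ (ht.trans e.symm))
      have q2 : (a :: t :: U).idxOf b ≠ N.sh x 1 := fun e =>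
        s2 (by rw [hinj _ _ (e.trans hbt.symm), bar_bar])
      have q3 : (a :: t :: U).idxOf b + 1 ≠ N.sh x 0 := fun e =>
        s4 (hinj _ _ (by rw [idxOf_succL h.1, hba]; omega))
      generalize hq : (a :: t :: U).idxOf b = q at q8 q0 q1 q2 q3
      obtain ⟨w1, g1, -, -, p1, r1⟩ := NMain_step h b hq
      have e1 : w1.idxOf a = sp (N.sh ((N.ρ ^ q) x) 0) (16 - q) := by
        rw [p1, ha]; congr 1; omega
      obtain ⟨w2, -, a2, -, -, r2⟩ := NMain_step g1 a e1
      show NMain_R N _ [b, a] a x = NMain_R N _ [a, b] a x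
      rw [NMain_ab h ha hq (by omega), r1, r2, NMain_nil, a2, pow_zero, Equiv.Perm.one_apply]
      exact N.comm x q _ _ (by omega) q8 q2 q3 rfl rfl
    · split_ifs at hc with hs
      · obtain rfl := List.mem_singleton.1 hc
        have k3 : N.sh x 0 ≠ 2 := fun e =>
          hs (hinj _ _ (by rw [idxOf_succL h.1, hba, ht, e]))
        obtain ⟨w1, g1, a1, -, p1, r1⟩ := NMain_root h a ha
        obtain ⟨w2, g2, a2, -, p2, r2⟩ := NMain_root g1 a a1
        have e2 : w2.idxOf t = N.sh x 0 - 2 := by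
          rw [p2, p1, ht, N.sh_T0]
          unfold sp
          split_ifs <;> omega
        obtain ⟨w3, -, -, -, p3, r3⟩ := NMain_step g2 t e2
        obtain ⟨v1, f1, -, -, o1, s1⟩ := NMain_step h t ht
        have e4 : v1.idxOf a = 15 := by
          rw [o1, ha]
          have := N.le_fourteen ((N.ρ ^ 1) x)
          unfold sp
          split_ifs <;> omega
        obtain ⟨v2, -, c2, -, -, s2⟩ := NMain_step f1 a e4
        show NMain_R N _ [a, a, t] a x = NMain_R N _ [t, a] a x
        rw [r1, r2, r3, NMain_nil, p3, a2, s1, s2, NMain_nil, c2, pow_zero, Equiv.Perm.one_apply,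
          pow_one]
        have : (0 + 16 - (N.sh x 0 - 2)) % 16 = 18 - N.sh x 0 := by omega
        rw [this]
        exact N.pent x _ k3 rfl
      · simp at hc
    · split_ifs at hc with hs
      · obtain rfl := List.mem_singleton.1 hc
        have l1 := N.lt x 1 (by norm_num)
        have l2 := N.inv x 1 (by norm_num)
        have l3 := N.ne x 1 (by norm_num)
        have l4 : N.sh x 1 ≠ 0 := fun e => N.adj x (by rwa [e] at l2)
        have l5 : N.sh x 1 ≠ 15 := fun e =>
          hs.1 (hinj _ _ (by rw [idxOf_succL h.1, hbt, ha, e]))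
        have l6 : N.sh x 1 + 1 ≠ N.sh x 0 := fun e =>
          hs.2 (hinj _ _ (by rw [idxOf_succL h.1, hbt, hba]; omega))
        obtain ⟨w1, g1, -, -, p1, r1⟩ := NMain_step h (bar t) hbt
        have e0 : N.sh ((N.ρ ^ N.sh x 1) x) 0 = 17 - N.sh x 1 := by
          rw [N.sh_pow x l1.le 0 (by norm_num), zero_add, Nat.mod_eq_of_lt l1, l2]
          omega
        have e1 : w1.idxOf a = 15 - N.sh x 1 := by
          rw [p1, ha, e0]
          unfold sp
          split_ifs <;> omega
        obtain ⟨w2, g2, a2, -, -, r2⟩ := NMain_step g1 a e1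
        obtain ⟨w3, -, a3, -, -, r3⟩ := NMain_root g2 a a2
        show NMain_R N _ [bar t, a, a] a x = NMain_R N _ [a, bar t] a x
        rw [NMain_ab h ha hbt (by omega), r1, r2, r3, NMain_nil, a3, pow_zero,
          Equiv.Perm.one_apply]
        exact N.pent2 x _ l5 l6 rfl
      · simp at hc
    · split_ifs at hc with hs
      · obtain rfl := List.mem_singleton.1 hc
        obtain ⟨m, hm⟩ : ∃ m, 15 - N.sh x 0 = m + 1 := ⟨14 - N.sh x 0, by omega⟩
        obtain ⟨w1, g1, a1, -, -, r1⟩ := NMain_step h (bar a) hba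
        have e0 : N.sh ((N.ρ ^ N.sh x 0) x) 0 = 16 - N.sh x 0 := by
          rw [N.sh_pow x (by omega) 0 (by norm_num), zero_add,
            Nat.mod_eq_of_lt (N.lt x 0 (by norm_num)), N.inv x 0 (by norm_num)]
          omega
        have e1 := (NMain_rep (bar a) m g1 a1).2
        rw [bar_bar, N.sh_T0, e0] at e1
        show NMain_R N _ (List.replicate _ a) a x = NMain_R N _ (List.replicate _ (bar a)) a x
        rw [hba, (NMain_rep a _ h ha).1, N.twist_all, hm, List.replicate_succ, r1, e1,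
          Function.iterate_succ_apply]
      · simp at hc

end NMainAux

theorem run_fwd {Xc : Type} (T ρ : Equiv.Perm Xc) (js : List ℕ) (k : ℕ) (x : Xc) :
    run T ρ (js.map fun j => (j, true)) k x = fwd T ρ js k x := by
  induction js generalizing x with
  | nil => rfl
  | cons j js ih => exact ih _

theorem NTab.exists_tab {Xc : Type} (N : NTab Xc) :
    ∃ Tb : Tab Xc, (∀ x, Tb.T x = N.T x) ∧ Tb.ρ = N.ρ ∧
      ∀ x, shape (Tb.cw x) = (List.range 16).map (N.sh x) := by
  choose cw hv hs using fun x => exists_word (N.sh x) (N.lt x) (N.inv x) (N.ne x)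
  have hg : ∀ x, NMain_Goes N (cw x) x := fun x => ⟨hv x, hs x⟩
  refine ⟨⟨cw, NMain_T N, N.ρ, fun x => okShape_of_valid (hv x) fun b e => ?_, fun x => ?_,
    fun x => ?_, N.ρ16, fun x p hp => ?_⟩, fun _ => rfl, rfl, hs⟩
  · have h1 := idxOf_succL (hv x) b
    have h2 := NMain_lt (hv x) b
    rw [e, NMain_bar (hg x)] at h1
    apply N.adj ((N.ρ ^ (cw x).idxOf b) x)
    rw [N.sh_pow x h2.le 0 (by norm_num), zero_add, Nat.mod_eq_of_lt h2, h1]
    omega
  · rw [hs, (NMain_slide (hg x)).2]; rfl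
  · rw [hs]
    simpa using (NMain_rot (hg x) 1).2.symm
  · obtain ⟨a, t, U, e⟩ := NMain_two (hv x)
    have h := hg x
    rw [e] at h hp
    obtain ⟨h1, h2⟩ := NMain_cell h
    simp only [progs, List.mem_cons, List.mem_map] at hp
    rcases hp with rfl | ⟨c, hc, rfl⟩
    · exact h1
    · exact h2 c hc

end Pool.Agent.MP_61a8e3_al.G4.A

end

section

/-! Forward programs for the eight pushes and for one closed loop of slides. -/

set_option autoImplicit false

namespace Pool.Agent.MP_61a8e3_al.G4.K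

open A

/-- A relabelling from two explicit maps. -/
def mkW (f g : L → L) (h : ∀ l, g (f l) = l ∧ f (g l) = l ∧ f (bar l) = bar (f l)) : W :=
  ⟨⟨f, g, fun l => (h l).1, fun l => (h l).2.1⟩, fun l => (h l).2.2⟩

/-- The index of the handle of a side. -/
def hd : X → Fin 4
  | .inl i => i
  | .inr i => i

theorem tri_ok : ∀ (i : Fin 4) (l : L), triF (la i) (lb i) (triF (lb i) (la i) l) = l ∧
    triF (lb i) (la i) (triF (la i) (lb i) l) = l ∧
    triF (lb i) (la i) (bar l) = bar (triF (lb i) (la i) l) := by decide +kernel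

/-- The relabelling at the end of a push. -/
def pushW (x : X) : W := mkW _ _ (tri_ok (hd x))

/-- The commutator block of a handle. -/
def blk (j : Fin 4) : List L := [la j, lb j, lA j, lB j]

/-- Forward slides realising the push across a side. -/
def pushF : X → List L
  | .inl i => lB i :: blk (i + 1) ++ blk (i + 2) ++ blk (i + 3) ++ [lA i, lB i]
  | .inr i => blk (i + 1) ++ blk (i + 2) ++ blk (i + 3) ++ [la i, lB i, la i]

/-- The final root letter. -/
def pushE (x : X) : L := if hd x = 3 then la 3 else lb 3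

/-- The forward programs of the eight pushes. -/
def pushP : X → List ℕ × ℕ
  | .inl 0 => ([14, 12, 12, 1, 1, 12, 12, 1, 1, 12, 12, 1, 1, 11, 1], 1)
  | .inl 1 => ([10, 12, 12, 1, 1, 12, 12, 1, 1, 12, 12, 1, 1, 11, 1], 5)
  | .inl 2 => ([6, 12, 12, 1, 1, 12, 12, 1, 1, 12, 12, 1, 1, 11, 1], 9)
  | .inl 3 => ([2, 12, 12, 1, 1, 12, 12, 1, 1, 12, 12, 1, 1, 11, 1], 13)
  | .inr 0 => ([11, 12, 1, 1, 12, 12, 1, 1, 12, 12, 1, 1, 12, 15, 13], 4)
  | .inr 1 => ([7, 12, 1, 1, 12, 12, 1, 1, 12, 12, 1, 1, 12, 15, 13], 8)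
  | .inr 2 => ([3, 12, 1, 1, 12, 12, 1, 1, 12, 12, 1, 1, 12, 15, 13], 12)
  | .inr 3 => ([15, 12, 1, 1, 12, 12, 1, 1, 12, 12, 1, 1, 12, 15, 13], 0)

theorem pushF_word : ∀ x : X, (simW w0L (fw (pushF x)) (pushE x)).map (pushW x).1 = w0L := by
  decide +kernel

theorem pushF_aut_aux : ∀ (x : X) (l : L),
    D.push x (el l) = relA (pushW x) (simA w0L (fw (pushF x)) (el l)) := by
  decide +kernel

theorem pushF_aut (x : X) : D.push x = relA (pushW x) * simA w0L (fw (pushF x)) :=
  aut_ext (pushF_aut_aux x)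

theorem pushF_prog : ∀ x : X, simP w0L (fw (pushF x)) (pushE x) =
    ((pushP x).1.map fun j => (j, true), (pushP x).2) := by decide +kernel

/-- A closed sequence of forward slides. -/
def loopF : List L := [la 0, lB 0, lB 0, lb 1, lA 0, lb 0, lA 3, lA 0, lA 0]

/-- Its program; the final exponent is `10`. -/
def loopP : List ℕ := [15, 15, 0, 7, 8, 14, 15, 1, 0]

/-- The final word of the loop. -/
def loopU : List L :=
  [lb 3, lB 0, lB 3, lb 0, la 0, lA 3, lA 0, la 3, lb 2, lA 2, lB 2, la 2, lb 1, lA 1, lB 1, la 1]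

theorem loop_ok : ∀ l : L,
    loopU.getD (w0L.idxOf (w0L.getD (loopU.idxOf l) l)) (w0L.getD (loopU.idxOf l) l) = l ∧
    w0L.getD (loopU.idxOf (loopU.getD (w0L.idxOf l) l)) (loopU.getD (w0L.idxOf l) l) = l ∧
    w0L.getD (loopU.idxOf (bar l)) (bar l) = bar (w0L.getD (loopU.idxOf l) l) := by
  decide +kernel

/-- The relabelling at the end of the loop. -/
def loopW : W :=
  mkW (fun l => w0L.getD (loopU.idxOf l) l) (fun l => loopU.getD (w0L.idxOf l) l) loop_ok

theorem loopF_word : (simW w0L (fw loopF) (lb 3)).map loopW.1 = w0L := by decide +kernel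

theorem loopF_prog : simP w0L (fw loopF) (lb 3) = (loopP.map fun j => (j, true), 10) := by
  decide +kernel

/-- The conjugator for the image of the relator. -/
def loopC : F := FreeGroup.mk [lB 2, lA 3, lb 2, la 2, lb 2, lA 2, lB 2, la 3]

theorem loopF_fix : loopC * r3 * loopC⁻¹ = relA loopW (simA w0L (fw loopF) r3) := by
  decide +kernel

theorem loopF_mem : relA loopW * simA w0L (fw loopF) ∈ G3 :=
  (isConj_iff.2 ⟨_, loopF_fix⟩ : IsConj r3 (relA loopW (simA w0L (fw loopF) r3))).symm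

theorem shape_w0L : shape w0L = [2, 3, 0, 1, 6, 7, 4, 5, 10, 11, 8, 9, 14, 15, 12, 13] := by
  decide +kernel

/-- Everything the table side needs, with forward programs only. -/
theorem mainT {Xc : Type} (Tb : Tab Xc) (x0 : Tb.X0)
    (hp : ∀ x : X, ∀ y : Tb.X0, fwd Tb.T Tb.ρ (pushP x).1 (pushP x).2 y.1 = y.1) :
    ∃ Φ : G3 →* Equiv.Perm Tb.X0,
      (∀ γ : G3, ∃ g ∈ Subgroup.closure ({Tb.T, Tb.ρ} : Set (Equiv.Perm Xc)),
        ∀ x : Tb.X0, (Φ γ x).1 = g x.1) ∧
      (∃ g0 : G3, ∀ y : Tb.X0, (Φ g0 y).1 = (fwd Tb.T Tb.ρ loopP 10)^[9] y.1) ∧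
      ∀ (Λ : Subgroup G3), Λ.FiniteIndex → ∀ (H : Type) [Group H] (f : Λ →* H),
        (∀ α : Λ, Φ α = 1 → f α = 1) →
        ∃ Γ : Subgroup D.OutPi, Γ.FiniteIndex ∧ ∃ φ : Γ →* H, φ.range = f.range := by
  obtain ⟨Φ, h1, h2, h3⟩ := D.mainABD Tb x0 (fun x =>
    ⟨fw (pushF x), pushE x, pushW x, 1, pushF_word x,
      by rw [map_one, one_mul]; exact pushF_aut x,
      fun y => by rw [pushF_prog, run_fwd]; exact hp x y⟩)
  refine ⟨Φ, h1, ⟨(⟨_, loopF_mem⟩ : G3) ^ 9, ?_⟩, h3⟩
  have h : ∀ y : Tb.X0, (Φ ⟨_, loopF_mem⟩ y).1 = fwd Tb.T Tb.ρ loopP 10 y.1 := fun y => by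
    have := h2 ⟨_, loopF_mem⟩ (fw loopF) (lb 3) loopW 1 loopF_word (by rw [map_one, one_mul]) y
    rw [loopF_prog, run_fwd] at this
    exact this
  generalize (9 : ℕ) = n
  induction n with
  | zero => intro y; simp
  | succ n ih =>
    intro y
    rw [pow_succ, map_mul, Equiv.Perm.mul_apply, ih, h, Function.iterate_succ_apply]

end Pool.Agent.MP_61a8e3_al.G4.K

end

section

/-! Part K: the checks at the standard word and the check of the labels. -/

set_option autoImplicit false
set_option maxRecDepth 100000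

namespace Pool.Agent.MP_61a8e3_al.G4.K

open A

theorem dat_end : pe dat 0 = 4 ∧ rel dat 0 2 = std ∧
    (∀ x : X, prg dat (pushP x).1 (fF dat 0 2 st0 (pushP x).2) 0 2 0 st0 = 0) ∧
    itp dat loopP 10 9 (fE dat 0 2 sF) 0 2 0 st0 = 0 := by
  decide +kernel

end Pool.Agent.MP_61a8e3_al.G4.K

end

section

/-! Part K: from checked data to a subgroup of finite index. -/

set_option autoImplicit false

namespace Pool.Agent.MP_61a8e3_al.G4.K

open C

theorem KGlue_prg (D : ℕ → Cl) (n : ℕ) (js : List ℕ) (K : ℕ → ℕ → ℕ → ℕ → ℕ) (c j k s : ℕ) :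
    prg D (n :: js) K c j k s = stp D c j n s (prg D js K) := rfl

theorem KGlue_itp (D : ℕ → Cl) (js : List ℕ) (f n : ℕ) (K : ℕ → ℕ → ℕ → ℕ → ℕ) :
    itp D js f (n + 1) K = prg D js fun c j k s => itp D js f n K c (j + f) k s := rfl

theorem KGlue_fF (D : ℕ → Cl) (c j s f c' j' k s' : ℕ) :
    fF D c j s f c' j' k s' = fn D c j s c' (j' + f) s' := rfl

theorem KGlue_fE (D : ℕ → Cl) (c j s c' j' k s' : ℕ) :
    fE D c j s c' j' k s' = fn D c j s c' j' s' := rfl

theorem KGlue_inj {D : ℕ → Cl} : Function.Injective (io D) := by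
  rintro ⟨⟨⟨a, b⟩, h⟩, v⟩ ⟨⟨⟨a', b'⟩, h'⟩, v'⟩ e
  simp only [io, Prod.mk.injEq] at e
  obtain ⟨rfl, rfl, rfl⟩ := e
  rfl

theorem KGlue_fwd {D : ℕ → Cl} {T : Ix D × V → Ix D × V} {ρ : Equiv.Perm (Ix D × V)}
    (hT : ∀ x, io D (T x) = T0 D (io D x)) (hρ : ∀ x, io D (ρ x) = R0 D (io D x))
    (js : List ℕ) (k : ℕ) (x : Ix D × V) : io D (A.fwd T ρ js k x) = fw0 D js k (io D x) := by
  have h1 : ∀ n x, io D ((ρ ^ n) x) = (R0 D)^[n] (io D x) := fun n x => by
    rw [Equiv.Perm.coe_pow]
    exact Function.Semiconj.iterate_right hρ n x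
  induction js generalizing x with
  | nil => exact h1 k x
  | cons j js ih => rw [A.fwd, ih, hT, h1, fw0]

theorem prg_spec {D : ℕ → Cl} (h : Good D) (js : List ℕ) (f : ℕ) {K : ℕ → ℕ → ℕ → ℕ → ℕ}
    {c j k s : ℕ} {g : V → V} (hc : c < 14118) (hs : Rp s g) (e : prg D js K c j k s = 0) :
    ∃ c' j' k' s' g', c' < 14118 ∧ Rp s' g' ∧ K c' j' k' s' = 0 ∧
      ∀ v, fw0 D js f (E D c j (g v)) = E D c' (j' + f) (g' v) := by
  induction js generalizing c j k s g with
  | nil => exact ⟨c, j, k, s, g, hc, hs, e, fun v => R0_it h hc f j (g v)⟩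
  | cons n js ih =>
    rw [KGlue_prg] at e
    obtain ⟨c1, j1, s1, g1, h1, -, h2, h3, -, -, h4⟩ := stp_spec h hc hs e
    obtain ⟨c2, j2, k2, s2, g2, h5, h6, h7, h8⟩ := ih h1 h2 h3
    exact ⟨c2, j2, k2, s2, g2, h5, h6, h7, fun v => by rw [fw0, R0_it h hc, h4, h8]⟩

theorem itp_spec {D : ℕ → Cl} (h : Good D) (js : List ℕ) (f n : ℕ) {K : ℕ → ℕ → ℕ → ℕ → ℕ}
    {c j k s : ℕ} {g : V → V} (hc : c < 14118) (hs : Rp s g) (e : itp D js f n K c j k s = 0) :
    ∃ c' j' k' s' g', c' < 14118 ∧ Rp s' g' ∧ K c' j' k' s' = 0 ∧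
      ∀ v, (fw0 D js f)^[n] (E D c j (g v)) = E D c' j' (g' v) := by
  induction n generalizing c j k s g with
  | zero => exact ⟨c, j, k, s, g, hc, hs, e, fun v => rfl⟩
  | succ n ih =>
    rw [KGlue_itp] at e
    obtain ⟨c1, j1, k1, s1, g1, h1, h2, h3, h4⟩ := prg_spec h js f hc hs e
    obtain ⟨c2, j2, k2, s2, g2, h5, h6, h7, h8⟩ := ih h1 h2 h3
    exact ⟨c2, j2, k2, s2, g2, h5, h6, h7, fun v => by rw [Function.iterate_succ_apply, h4, h8]⟩

theorem final_of_ok {Dt : ℕ → Cl} (h : Ok Dt) (h4 : pe Dt 0 = 4) (h0 : rel Dt 0 2 = std)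
    (hp : ∀ x : A.X, prg Dt (pushP x).1 (fF Dt 0 2 st0 (pushP x).2) 0 2 0 st0 = 0)
    (hl : itp Dt loopP 10 9 (fE Dt 0 2 sF) 0 2 0 st0 = 0) :
    ∃ Γ : Subgroup D.OutPi, Γ.FiniteIndex ∧
      ∃ φ : Γ →* Multiplicative ℤ, Function.Surjective φ := by
  have G := h.good
  have hc : 0 < 14118 := by norm_num
  have h2 : 2 < pe Dt 0 := by rw [h4]; norm_num
  obtain ⟨N, hT, hρ, hsh, aT, aρ⟩ := exists_ntab G
  obtain ⟨Tb, tT, tρ, tsh⟩ := N.exists_tab
  let i0 : Ix Dt := ⟨(0, 2), hc, h2⟩
  have hX : ∀ x : Ix Dt × V, A.shape (Tb.cw x) = A.shape A.w0L ↔ ∀ i < 16,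
      shp Dt x.1.1.1 x.1.1.2 i =
        [2, 3, 0, 1, 6, 7, 4, 5, 10, 11, 8, 9, 14, 15, 12, 13].getD i 0 := fun x => by
    rw [tsh, shape_w0L]
    have h1 : ∀ i, N.sh x i = shp Dt x.1.1.1 x.1.1.2 i := hsh x
    constructor
    · intro e i hi
      rw [← e, ← h1, List.getD_eq_getElem _ _ (by simpa using hi), List.getElem_map,
        List.getElem_range]
    · intro e
      rw [List.map_congr_left fun i hi => (h1 i).trans (e i (List.mem_range.1 hi))]
      rfl
  have key : ∀ y : Tb.X0, y.1.1 = i0 := by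
    rintro ⟨⟨⟨⟨c, j⟩, h5, h6⟩, v⟩, hy⟩
    obtain ⟨h7, h8⟩ := ((G c h5).gd j
      (h6.trans_le (Nat.le_of_dvd (by norm_num) (G c h5).dvd))).uni ((hX _).1 hy)
    subst h7
    have h9 : j < 4 := h4 ▸ h6
    obtain rfl : j = 2 := by omega
    rfl
  let e : V ≃ Tb.X0 :=
    { toFun := fun v => ⟨(i0, v), (hX _).2 (h.std h0)⟩
      invFun := fun y => y.1.2
      left_inv := fun _ => rfl
      right_inv := fun y => Subtype.ext (Prod.ext (key y).symm rfl) }
  have he : ∀ v, io Dt (e v).1 = E Dt 0 2 v := fun v => (E_lt G hc h2 v).symm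
  have hT' : ∀ x, io Dt (Tb.T x) = T0 Dt (io Dt x) := fun x => by rw [tT, hT]
  have hρ' : ∀ x, io Dt (Tb.ρ x) = R0 Dt (io Dt x) := fun x => by rw [tρ, hρ]
  obtain ⟨Φ, h1, ⟨g0, hg0⟩, h3⟩ := mainT Tb (e 0) (fun x y => by
    obtain ⟨v, rfl⟩ := e.surjective y
    obtain ⟨c', j', k', s', g', -, r1, r2, r3⟩ :=
      prg_spec G (pushP x).1 (pushP x).2 hc rp_st0 (hp x)
    rw [KGlue_fF] at r2
    apply KGlue_inj
    rw [KGlue_fwd hT' hρ', he]
    exact (r3 v).trans (fn_spec G hc rp_st0 r1 r2 v).symm)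
  obtain ⟨Λ, hΛ, f, hf, hk⟩ := fin_hom e Φ (fun γ => by
    obtain ⟨g, hg, hγ⟩ := h1 γ
    obtain ⟨i', f, hf, hv⟩ := fibAf_closure _ (by
      rintro g (rfl | rfl)
      · rw [funext tT]; exact aT
      · rw [tρ]; exact aρ) g hg i0
    have : (fun v => e.symm (Φ γ (e v))) = f := funext fun v => by
      show (Φ γ (e v)).1.2 = _
      rw [hγ]
      exact congrArg Prod.snd (hv v)
    rw [this]
    exact hf) g0 _ vec_sF_ne (fun v => by
      obtain ⟨c', j', k', s', g', -, r1, r2, r3⟩ := itp_spec G loopP 10 9 hc rp_st0 hl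
      rw [KGlue_fE] at r2
      apply Subtype.ext
      apply KGlue_inj
      rw [hg0, Function.Semiconj.iterate_right (KGlue_fwd hT' hρ' loopP 10) 9, he, he]
      exact (r3 v).trans (fn_spec G hc rp_sF r1 r2 v).symm)
  obtain ⟨Γ, hΓ, φ, hφ⟩ := h3 Λ hΛ (Multiplicative ℤ) f hk
  refine ⟨Γ, hΓ, φ, ?_⟩
  rw [← MonoidHom.range_eq_top, hφ, MonoidHom.range_eq_top]
  exact hf

end Pool.Agent.MP_61a8e3_al.G4.K

end

section

/-! The final assembly in genus four. -/

set_option autoImplicit false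

namespace Pool.Agent.MP_61a8e3_al.G4.K

theorem main_cyc : ∃ Γ : Subgroup D.OutPi, Γ.FiniteIndex ∧ ∀ h : ℕ, 1 ≤ h →
    ∃ φ : Γ →* Tw.Out (Tw.Surf h), Nonempty (φ.range ≃* Multiplicative ℤ) := by
  obtain ⟨Γ, hΓ, f, hf⟩ := final_of_ok dat_ok dat_end.1 dat_end.2.1 dat_end.2.2.1 dat_end.2.2.2
  refine ⟨Γ, hΓ, fun h hh => ?_⟩
  obtain ⟨j, hj⟩ := Tw.exists_inj_int h hh
  refine ⟨j.comp f, ⟨?_⟩⟩
  have e : (j.comp f).range = j.range := by
    rw [MonoidHom.range_comp, MonoidHom.range_eq_top.2 hf, ← MonoidHom.range_eq_map]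
  exact (MulEquiv.subgroupCongr e).trans (MonoidHom.ofInjective hj).symm

end Pool.Agent.MP_61a8e3_al.G4.K

end
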