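import Pool.Agent.Mg.F61a8e3.Gabd557

section

/-! Part T: the checks on words, classes congruent to 2 modulo 16. -/

set_option autoImplicit false

namespace Pool.Agent.MP_61a8e3_al.T

theorem obs2 :
    dat.objC 2 = true ∧
    dat.objC 18 = true ∧
    dat.objC 34 = true ∧
    dat.objC 50 = true ∧
    dat.objC 66 = true ∧
    dat.objC 82 = true ∧
    dat.objC 98 = true ∧
    dat.objC 114 = true ∧
    dat.objC 130 = true :=
  ⟨by decide +kernel,
   by decide +kernel,
   by decide +kernel,
   by decide +kernel,
   by decide +kernel,
   by decide +kernel,
   by decide +kernel,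
   by decide +kernel,
   by decide +kernel⟩

end Pool.Agent.MP_61a8e3_al.T

end

section

/-! Part T: the checks on words, classes congruent to 6 modulo 16. -/

set_option autoImplicit false

namespace Pool.Agent.MP_61a8e3_al.T

theorem obs6 :
    dat.objC 6 = true ∧
    dat.objC 22 = true ∧
    dat.objC 38 = true ∧
    dat.objC 54 = true ∧
    dat.objC 70 = true ∧
    dat.objC 86 = true ∧
    dat.objC 102 = true ∧
    dat.objC 118 = true :=
  ⟨by decide +kernel,
   by decide +kernel,
   by decide +kernel,
   by decide +kernel,
   by decide +kernel,
   by decide +kernel,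
   by decide +kernel,
   by decide +kernel⟩

end Pool.Agent.MP_61a8e3_al.T

end

section

/-! Part T: the checks on words, classes congruent to 10 modulo 16. -/

set_option autoImplicit false

namespace Pool.Agent.MP_61a8e3_al.T

theorem obs10 :
    dat.objC 10 = true ∧
    dat.objC 26 = true ∧
    dat.objC 42 = true ∧
    dat.objC 58 = true ∧
    dat.objC 74 = true ∧
    dat.objC 90 = true ∧
    dat.objC 106 = true ∧
    dat.objC 122 = true :=
  ⟨by decide +kernel,
   by decide +kernel,
   by decide +kernel,
   by decide +kernel,
   by decide +kernel,
   by decide +kernel,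
   by decide +kernel,
   by decide +kernel⟩

end Pool.Agent.MP_61a8e3_al.T

end

section

/-! Part T: the checks on words, classes congruent to 14 modulo 16. -/

set_option autoImplicit false

namespace Pool.Agent.MP_61a8e3_al.T

theorem obs14 :
    dat.objC 14 = true ∧
    dat.objC 30 = true ∧
    dat.objC 46 = true ∧
    dat.objC 62 = true ∧
    dat.objC 78 = true ∧
    dat.objC 94 = true ∧
    dat.objC 110 = true ∧
    dat.objC 126 = true :=
  ⟨by decide +kernel,
   by decide +kernel,
   by decide +kernel,
   by decide +kernel,
   by decide +kernel,
   by decide +kernel,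
   by decide +kernel,
   by decide +kernel⟩

end Pool.Agent.MP_61a8e3_al.T

end
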