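import Pool.Agent.Mg.F61a8e3.Gabd557

section

/-! Part T: the checks on words, classes congruent to 1 modulo 16. -/

set_option autoImplicit false

namespace Pool.Agent.MP_61a8e3_al.T

theorem obs1 :
    dat.objC 1 = true ∧
    dat.objC 17 = true ∧
    dat.objC 33 = true ∧
    dat.objC 49 = true ∧
    dat.objC 65 = true ∧
    dat.objC 81 = true ∧
    dat.objC 97 = true ∧
    dat.objC 113 = true ∧
    dat.objC 129 = true :=
  ⟨by decide +kernel,
   by decide +kernel,
   by decide +kernel,
   by decide +kernel,
   by decide +kernel,
   by decide +kernel,
   by decide +kernel,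
   by decide +kernel,
   by decide +kernel⟩

end Pool.Agent.MP_61a8e3_al.T

end

section

/-! Part T: the checks on words, classes congruent to 5 modulo 16. -/

set_option autoImplicit false

namespace Pool.Agent.MP_61a8e3_al.T

theorem obs5 :
    dat.objC 5 = true ∧
    dat.objC 21 = true ∧
    dat.objC 37 = true ∧
    dat.objC 53 = true ∧
    dat.objC 69 = true ∧
    dat.objC 85 = true ∧
    dat.objC 101 = true ∧
    dat.objC 117 = true :=
  ⟨by decide +kernel,
   by decide +kernel,
   by decide +kernel,
   by decide +kernel,
   by decide +kernel,
   by decide +kernel,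
   by decide +kernel,
   by decide +kernel⟩

end Pool.Agent.MP_61a8e3_al.T

end

section

/-! Part T: the checks on words, classes congruent to 9 modulo 16. -/

set_option autoImplicit false

namespace Pool.Agent.MP_61a8e3_al.T

theorem obs9 :
    dat.objC 9 = true ∧
    dat.objC 25 = true ∧
    dat.objC 41 = true ∧
    dat.objC 57 = true ∧
    dat.objC 73 = true ∧
    dat.objC 89 = true ∧
    dat.objC 105 = true ∧
    dat.objC 121 = true :=
  ⟨by decide +kernel,
   by decide +kernel,
   by decide +kernel,
   by decide +kernel,
   by decide +kernel,
   by decide +kernel,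
   by decide +kernel,
   by decide +kernel⟩

end Pool.Agent.MP_61a8e3_al.T

end

section

/-! Part T: the checks on words, classes congruent to 13 modulo 16. -/

set_option autoImplicit false

namespace Pool.Agent.MP_61a8e3_al.T

theorem obs13 :
    dat.objC 13 = true ∧
    dat.objC 29 = true ∧
    dat.objC 45 = true ∧
    dat.objC 61 = true ∧
    dat.objC 77 = true ∧
    dat.objC 93 = true ∧
    dat.objC 109 = true ∧
    dat.objC 125 = true :=
  ⟨by decide +kernel,
   by decide +kernel,
   by decide +kernel,
   by decide +kernel,
   by decide +kernel,
   by decide +kernel,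
   by decide +kernel,
   by decide +kernel⟩

end Pool.Agent.MP_61a8e3_al.T

end
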