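import Mathlib

section

/-!
Part A (presentation of the stabiliser of the genus-3 surface relator by chord slides): definitions.

`F` is the free group on `X`, `L` the twelve letters, `fl g` the first letter of the reduced word of
`g` (`none` for `g = 1`).  A vertex is an automorphism `β` together with a cyclic order `o` of the
twelve letters and the symbol `none` (the Whitehead cycle of the word `β r3`).  A move cuts the
cycle into two arcs separating a letter `a` from its inverse and applies the Whitehead automorphism.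
-/

set_option autoImplicit false

namespace Pool.Agent.MP_61a8e3_al.A


abbrev X : Type := Fin 3 ⊕ Fin 3
abbrev F : Type := FreeGroup X
abbrev L : Type := X × Bool

instance instReflBEqX : ReflBEq X := ⟨fun {a} => by revert a; decide⟩
instance instLawfulBEqX : LawfulBEq X := ⟨fun {a b} => by revert a b; decide⟩

/-- The inverse letter. -/
def bar (l : L) : L := (l.1, !l.2)

/-- The element of `F` given by a letter. -/
def el (l : L) : F := FreeGroup.mk [l]

/-- First letter of the reduced word. -/
def fl (g : F) : Option L := g.toWord.head?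

/-- The surface relator, exactly as in the frozen statements (genus 3). -/
def r3 : F :=
  (List.ofFn (fun i : Fin 3 => FreeGroup.of (Sum.inl i : Fin 3 ⊕ Fin 3) *
    FreeGroup.of (Sum.inr i : Fin 3 ⊕ Fin 3) * (FreeGroup.of (Sum.inl i : Fin 3 ⊕ Fin 3))⁻¹ *
    (FreeGroup.of (Sum.inr i : Fin 3 ⊕ Fin 3))⁻¹)).prod

@[simp] theorem bar_bar (l : L) : bar (bar l) = l := by simp [bar]
@[simp] theorem bar_fst (l : L) : (bar l).1 = l.1 := rfl
theorem bar_ne (l : L) : bar l ≠ l := by
  rcases l with ⟨i, b⟩; cases b <;> simp [bar]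
theorem bar_inj {l m : L} (h : bar l = bar m) : l = m := by
  simpa using congrArg bar h
theorem eq_or_bar {l m : L} (h : l.1 = m.1) : l = m ∨ l = bar m := by
  rcases l with ⟨i, b⟩; rcases m with ⟨j, c⟩
  simp only at h; subst h
  cases b <;> cases c <;> simp [bar]

theorem el_bar (l : L) : el (bar l) = (el l)⁻¹ := by
  simp [el, bar, FreeGroup.inv_mk, FreeGroup.invRev]

theorem el_true (i : X) : el (i, true) = FreeGroup.of i := rfl

/-- A map on letters compatible with inversion is the restriction of its lift. -/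
theorem lift_el {G : Type} [Group G] (φ : L → G) (h : ∀ l, φ (bar l) = (φ l)⁻¹) (l : L) :
    FreeGroup.lift (fun i => φ (i, true)) (el l) = φ l := by
  rcases l with ⟨i, b⟩
  cases b
  · have h1 : el (i, false) = (FreeGroup.of i)⁻¹ := el_bar (i, true)
    have h2 : φ (i, false) = (φ (i, true))⁻¹ := h (i, true)
    rw [h1, h2, map_inv, FreeGroup.lift_apply_of]
  · rw [el_true, FreeGroup.lift_apply_of]

theorem aut_ext {α β : MulAut F} (h : ∀ l : L, α (el l) = β (el l)) : α = β := by
  have : α.toMonoidHom = β.toMonoidHom := FreeGroup.ext_hom _ _ (fun i => h (i, true))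
  exact MulEquiv.toMonoidHom_injective this

/-- Relabellings: permutations of the letters commuting with inversion. -/
def W : Subgroup (Equiv.Perm L) where
  carrier := {π | ∀ l, π (bar l) = bar (π l)}
  mul_mem' := fun {a b} ha hb l => by
    simp only [Equiv.Perm.mul_apply]; rw [hb l, ha]
  one_mem' := fun _ => rfl
  inv_mem' := fun {a} ha l => by
    apply a.injective
    rw [ha]; simp

theorem W_bar (π : W) (l : L) : π.1 (bar l) = bar (π.1 l) := π.2 l

/-- The endomorphism given by a relabelling. -/
def relH (π : W) : F →* F := FreeGroup.lift (fun i => el (π.1 (i, true)))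

theorem relH_el (π : W) (l : L) : relH π (el l) = el (π.1 l) :=
  lift_el (fun l => el (π.1 l)) (fun l => by rw [W_bar, el_bar]) l

theorem relH_mul (π σ : W) (g : F) : relH (π * σ) g = relH π (relH σ g) := by
  have : relH (π * σ) = (relH π).comp (relH σ) := FreeGroup.ext_hom _ _ (fun i => by
    rw [MonoidHom.comp_apply, ← el_true, relH_el, relH_el, relH_el]; rfl)
  rw [this]; rfl

theorem relH_one (g : F) : relH 1 g = g := by
  have : relH 1 = MonoidHom.id F := FreeGroup.ext_hom _ _ (fun i => by
    rw [← el_true, relH_el]; rfl)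
  rw [this]; rfl

/-- The automorphism given by a relabelling. -/
def relA : W →* MulAut F where
  toFun π :=
    { toFun := relH π
      invFun := relH π⁻¹
      left_inv := fun g => by rw [← relH_mul, inv_mul_cancel, relH_one]
      right_inv := fun g => by rw [← relH_mul, mul_inv_cancel, relH_one]
      map_mul' := map_mul _ }
  map_one' := MulEquiv.ext relH_one
  map_mul' π σ := MulEquiv.ext (relH_mul π σ)

theorem relA_el (π : W) (l : L) : relA π (el l) = el (π.1 l) := relH_el π l

/-- Image of a letter under the generalised Whitehead automorphism. -/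
def whL (a : L) (χ : Option L → ℤ) (l : L) : F :=
  if l.1 = a.1 then el l
  else el a ^ (χ (some l) - χ none) * el l * el a ^ (χ none - χ (some (bar l)))

def whH (a : L) (χ : Option L → ℤ) : F →* F := FreeGroup.lift (fun i => whL a χ (i, true))

theorem whH_el (a : L) (χ : Option L → ℤ) (l : L) : whH a χ (el l) = whL a χ l :=
  lift_el (whL a χ) (fun l => by
    unfold whL
    by_cases h : l.1 = a.1
    · simp [h, el_bar]
    · simp only [bar_fst, h, if_false, bar_bar, el_bar, mul_inv_rev, ← zpow_neg, neg_sub,
        mul_assoc]) l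

theorem whH_self (a : L) (χ : Option L → ℤ) : whH a χ (el a) = el a := by
  rw [whH_el]; simp [whL]

theorem whH_add (a : L) (χ ψ : Option L → ℤ) (g : F) :
    whH a (χ + ψ) g = whH a χ (whH a ψ g) := by
  have : whH a (χ + ψ) = (whH a χ).comp (whH a ψ) := FreeGroup.ext_hom _ _ (fun i => by
    rw [MonoidHom.comp_apply, ← el_true, whH_el, whH_el]
    unfold whL
    by_cases h : i = a.1
    · simp only [h, if_true]; rw [whH_el]; simp [whL]
    · simp only [h, if_false, map_mul, map_zpow, whH_self, whH_el, whL, Pi.add_apply]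
      group)
  rw [this]; rfl

theorem whH_zero (a : L) (g : F) : whH a 0 g = g := by
  have : whH a 0 = MonoidHom.id F := FreeGroup.ext_hom _ _ (fun i => by
    rw [← el_true, whH_el]; simp [whL])
  rw [this]; rfl

/-- Generalised Whitehead automorphism: fixes `a`, and sends another letter `l` to
`a ^ (χ l - χ none) * l * a ^ (χ none - χ (bar l))`. -/
def whZ (a : L) (χ : Option L → ℤ) : MulAut F where
  toFun := whH a χ
  invFun := whH a (-χ)
  left_inv := fun g => by rw [← whH_add, neg_add_cancel, whH_zero]
  right_inv := fun g => by rw [← whH_add, add_neg_cancel, whH_zero]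
  map_mul' := map_mul _

theorem whZ_el (a : L) (χ : Option L → ℤ) (l : L) : whZ a χ (el l) = whL a χ l := whH_el a χ l

theorem whZ_add (a : L) (χ ψ : Option L → ℤ) : whZ a (χ + ψ) = whZ a χ * whZ a ψ :=
  MulEquiv.ext (whH_add a χ ψ)

theorem whZ_zero (a : L) : whZ a 0 = 1 := MulEquiv.ext (whH_zero a)

/-- Indicator of a set of directions. -/
def ind (A : Finset (Option L)) (x : Option L) : ℤ := if x ∈ A then 1 else 0

/-- The Whitehead automorphism of the cut `A` with multiplier `a`. -/
def wh (a : L) (A : Finset (Option L)) : MulAut F := whZ a (ind A)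

/-- The elementary slide automorphism `t ↦ a t`. -/
def sl (a t : L) : MulAut F := wh a {some a, some t}

/-- `q` follows `p` in the cyclic word `c`. -/
def Nx {α : Type} (c : Cycle α) (p q : α) : Prop := ∃ U : List α, c = ↑(p :: q :: U)

/-- `A` is an arc of the cyclic word `c`. -/
def IsCut {α : Type} (c : Cycle α) (A : Finset α) : Prop :=
  ∃ I J : List α, c = ↑(I ++ J) ∧ ∀ x, x ∈ A ↔ x ∈ I

/-- `π` is the relabelling `b ↦ a ↦ bar b`, fixing the letters of the other generators. -/
def IsTri (π : W) (a b : L) : Prop :=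
  π.1 b = a ∧ π.1 a = bar b ∧ ∀ l : L, l.1 ≠ a.1 → l.1 ≠ b.1 → π.1 l = l

/-- A system of chord slides: points over labelled cyclic words, with slides `R a` and relabellings,
satisfying the elementary cells. -/
structure SlideSys (E : Type) where
  w : E → Cycle L
  R : L → Equiv.Perm E
  rl : W →* Equiv.Perm E
  nodup : ∀ e, (w e).Nodup
  full : ∀ e l, l ∈ w e
  nobar : ∀ e a, ¬ Nx (w e) a (bar a)
  w_R : ∀ e a t (U V : List L), w e = ↑(a :: t :: U ++ bar a :: V) →
    w (R a e) = ↑(a :: U ++ t :: bar a :: V)
  w_rl : ∀ (π : W) e, w (rl π e) = (w e).map π.1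
  rl_R : ∀ (π : W) a, rl π * R a = R (π.1 a) * rl π
  comm : ∀ e a b t u, Nx (w e) a t → Nx (w e) b u → a ≠ b → t ≠ b → t ≠ bar b → u ≠ a →
    u ≠ bar a → R a (R b e) = R b (R a e)
  pent : ∀ e a b u, Nx (w e) a b → Nx (w e) b u → u ≠ bar a →
    R b (R a (R a e)) = R a (R b e)
  pent2 : ∀ e a b u, Nx (w e) a (bar b) → Nx (w e) b u → u ≠ a → u ≠ bar a →
    R a (R a (R b e)) = R b (R a e)
  tri : ∀ e a b (π : W), Nx (w e) a b → IsTri π a b → R (bar a) (R b (R a e)) = rl π e
  twist : ∀ e a (U V : List L), w e = ↑(a :: U ++ bar a :: V) →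
    (R a ^ U.length) e = (R (bar a) ^ V.length) e

/-- The general move of the chord `a`: `n` slides on the right, `m` on the left. -/
def SlideSys.Mv {E : Type} (S : SlideSys E) (a : L) (m n : ℕ) : Equiv.Perm E :=
  (S.R (bar a))⁻¹ ^ m * S.R a ^ n

/-- The subgroup generated by all slides and relabellings. -/
def SlideSys.Lam {E : Type} (S : SlideSys E) : Subgroup (Equiv.Perm E) :=
  Subgroup.closure (Set.range S.R ∪ Set.range S.rl)

/-- Vertices. -/
@[ext] structure Vx where
  β : MulAut F
  o : Cycle (Option L)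

/-- The value at the corner after a side. -/
def val (G : Option L → F) (w : F) : Option L → F
  | none => w⁻¹
  | some l => el l * G (some (bar l))

/-- `o` is the Whitehead cycle of the word `β r3`. -/
def Good (v : Vx) : Prop :=
  v.o.Nodup ∧ (∀ x, x ∈ v.o) ∧
    ∃ G : Option L → F, G none = 1 ∧ ∀ p q, Nx v.o p q → G q = val G (v.β r3) p

/-- Forget the symbol `none`. -/
def red (o : Cycle (Option L)) : Cycle L :=
  Quotient.map' (s₁ := List.IsRotated.setoid _) (s₂ := List.IsRotated.setoid _)
    List.reduceOption (fun l l' h => by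
      obtain ⟨n, rfl⟩ := h
      rw [← List.rotate_mod]
      rcases Nat.eq_zero_or_pos l.length with h0 | h0
      · rw [List.length_eq_zero_iff.1 h0]; exact List.IsRotated.refl _
      · rw [List.rotate_eq_drop_append_take (Nat.mod_lt _ h0).le]
        conv_lhs => rw [← List.take_append_drop (n % l.length) l]
        rw [List.reduceOption_append, List.reduceOption_append]
        exact List.isRotated_append) o

theorem red_coe (l : List (Option L)) : red (l : Cycle (Option L)) = (l.reduceOption : Cycle L) :=
  rfl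

/-- Number of letters in a block. -/
def cnt (U : List (Option L)) : ℕ := U.reduceOption.length

/-- The move of the chord `a` along the cut `A` at the vertex level. -/
def VMov (v : Vx) (a : L) (A : Finset (Option L)) (m n : ℕ) (v' : Vx) : Prop :=
  ∃ X1 X2 Y1 Y2 : List (Option L),
    v.o = ↑(some a :: X1 ++ X2 ++ some (bar a) :: Y1 ++ Y2) ∧
    (∀ x, x ∈ A ↔ x = some a ∨ x ∈ X1 ∨ x ∈ Y2) ∧ m = cnt Y2 ∧ n = cnt X1 ∧
    v'.β = wh a A * v.β ∧ v'.o = ↑(some a :: X2 ++ X1 ++ some (bar a) :: Y2 ++ Y1)

/-- Relabelling of a vertex. -/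
def vact (π : W) (v : Vx) : Vx := ⟨relA π * v.β, v.o.map (Option.map π.1)⟩

/-- Relabelling of a set of directions. -/
def aact (π : W) (A : Finset (Option L)) : Finset (Option L) := A.image (Option.map π.1)

/-- The crossing set of the element `u` with the wall of `A`. -/
def cr (u : F) (A : Finset (Option L)) : Set F := {g | ¬ (fl g ∈ A ↔ fl (g * u) ∈ A)}

/-- Energy of a set of directions. -/
noncomputable def en (β : MulAut F) (A : Finset (Option L)) : ℕ :=
  ∑ i : X, (cr (β (FreeGroup.of i)) A).ncard

/-- Energy of a vertex. -/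
noncomputable def En (β : MulAut F) : ℕ := ∑ l : L, en β {some l}

/-- States: a vertex and a point. -/
@[ext] structure St (E : Type) where
  v : Vx
  e : E

section states
variable {E : Type} (S : SlideSys E)

def Ok (s : St E) : Prop := Good s.v ∧ S.w s.e = red s.v.o

def Mov (s : St E) (a : L) (A : Finset (Option L)) (s' : St E) : Prop :=
  ∃ m n, VMov s.v a A m n s'.v ∧ s'.e = S.Mv a m n s.e

def sact (π : W) (s : St E) : St E := ⟨vact π s.v, S.rl π s.e⟩

def Adj (s s' : St E) : Prop := ∃ a A π s'', Mov S s a A s'' ∧ s' = sact S π s''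

def Rch (s s' : St E) : Prop := Relation.ReflTransGen (Adj S) s s'

end states

/-- The letters `a_i`, `b_i` and their inverses. -/
def la (i : Fin 3) : L := (Sum.inl i, true)
def lb (i : Fin 3) : L := (Sum.inr i, true)
def lA (i : Fin 3) : L := (Sum.inl i, false)
def lB (i : Fin 3) : L := (Sum.inr i, false)

/-- The Whitehead cycle of `r3`, read from the symbol `none`. -/
def w0L : List L :=
  [lb 2, lA 2, lB 2, la 2, lb 1, lA 1, lB 1, la 1, lb 0, lA 0, lB 0, la 0]

def w0 : Cycle L := (w0L : Cycle L)

def o0 : Cycle (Option L) := ((none :: w0L.map some : List (Option L)) : Cycle (Option L))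

def v0 : Vx := ⟨1, o0⟩

/-- The stabiliser of the conjugacy class of `r3`. -/
def G3 : Subgroup (MulAut F) where
  carrier := {γ | IsConj (γ r3) r3}
  mul_mem' := fun {a b} ha hb => by
    have h : IsConj (a (b r3)) (a r3) := a.toMonoidHom.map_isConj hb
    exact h.trans ha
  one_mem' := IsConj.refl _
  inv_mem' := fun {a} ha => by
    have h : IsConj (a⁻¹ (a r3)) (a⁻¹ r3) := (a⁻¹).toMonoidHom.map_isConj ha
    have h2 : a⁻¹ (a r3) = r3 := MulAut.inv_apply_self F a r3
    rw [h2] at h
    exact h.symm

/-- Explicit paths of slides from the standard word: accumulated automorphism, accumulated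
permutation, current cyclic word. -/
inductive Path {E : Type} (S : SlideSys E) : MulAut F → Equiv.Perm E → Cycle L → Prop
  | refl : Path S 1 1 w0
  | fwd (γ : MulAut F) (P : Equiv.Perm E) (a t : L) (U V : List L) :
      Path S γ P ↑(a :: t :: U ++ bar a :: V) →
      Path S (sl a t * γ) (S.R a * P) ↑(a :: U ++ t :: bar a :: V)
  | bwd (γ : MulAut F) (P : Equiv.Perm E) (a t : L) (U V : List L) :
      Path S γ P ↑(a :: U ++ t :: bar a :: V) →
      Path S ((sl a t)⁻¹ * γ) ((S.R a)⁻¹ * P) ↑(a :: t :: U ++ bar a :: V)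
  | rel (γ : MulAut F) (P : Equiv.Perm E) (c : Cycle L) (π : W) :
      Path S γ P c → Path S (relA π * γ) (S.rl π * P) (c.map π.1)

end Pool.Agent.MP_61a8e3_al.A

end

section

/-!
Bridge from rooted tables to slide systems: definitions.

A rooted table is a type `Xc` with a canonical labelled word `cw x` for each point and two
permutations: `T` (slide at the root) and `ρ` (move the root to the next letter).
-/

set_option autoImplicit false

namespace Pool.Agent.MP_61a8e3_al.A

/-- Slide at the root: `a t U ā V ↦ a U t ā V`. -/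
def slide : List L → List L
  | a :: t :: U => a :: (U.takeWhile (fun l => l != bar a) ++ t :: U.dropWhile (fun l => l != bar a))
  | u => u

/-- Inverse slide at the root: `a U t ā V ↦ a t U ā V`. -/
def unslide : List L → List L
  | a :: U => match (U.takeWhile (fun l => l != bar a)).reverse with
    | t :: M => a :: t :: (M.reverse ++ U.dropWhile (fun l => l != bar a))
    | [] => a :: U
  | [] => []

/-- One signed slide at the root. -/
def sslide (s : Bool) (u : List L) : List L := if s then slide u else unslide u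

/-- Simulation of signed slides at the letters `bs`, then moving the root to `f`: the final word. -/
def simW : List L → List (L × Bool) → L → List L
  | u, [], f => u.rotate (u.idxOf f)
  | u, b :: bs, f => simW (sslide b.2 (u.rotate (u.idxOf b.1))) bs f

/-- The same simulation: the program (rotation exponents with signs, final exponent). -/
def simP : List L → List (L × Bool) → L → List (ℕ × Bool) × ℕ
  | u, [], f => ([], u.idxOf f)
  | u, b :: bs, f =>
    ((u.idxOf b.1, b.2) :: (simP (sslide b.2 (u.rotate (u.idxOf b.1))) bs f).1,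
      (simP (sslide b.2 (u.rotate (u.idxOf b.1))) bs f).2)

/-- The letter moved by a signed slide at the root. -/
def mover (s : Bool) (u : List L) : L :=
  (if s then u else unslide u).getD 1 (la 0)

/-- The same simulation: the automorphism. -/
def simA : List L → List (L × Bool) → MulAut F
  | _, [] => 1
  | u, b :: bs =>
    simA (sslide b.2 (u.rotate (u.idxOf b.1))) bs *
      (if b.2 then sl b.1 (mover b.2 (u.rotate (u.idxOf b.1)))
        else (sl b.1 (mover b.2 (u.rotate (u.idxOf b.1))))⁻¹)

/-- Running a program. -/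
def run {Xc : Type} (T ρ : Equiv.Perm Xc) : List (ℕ × Bool) → ℕ → Xc → Xc
  | [], k, x => (ρ ^ k) x
  | j :: js, k, x => run T ρ js k ((if j.2 then T else T⁻¹) ((ρ ^ j.1) x))

/-- The relabelling in the triangle cell. -/
def triF (a b l : L) : L :=
  if l = b then a else if l = a then bar b else if l = bar b then bar a else
    if l = bar a then b else l

/-- The successor of `b` in the cyclic word `u`. -/
def succL (u : List L) (b : L) : L := (u.rotate (u.idxOf b)).getD 1 b

/-- Forward slides. -/
def fw (bs : List L) : List (L × Bool) := bs.map (fun b => (b, true))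

/-- The cells at a rooted word, except the triangle: pairs of letter sequences (applied from left
to right); both sides end with the root at the old root letter. -/
def cells : List L → List (List L × List L)
  | a :: t :: U =>
    ((t :: U).take 6).filterMap (fun b =>
      if t ≠ b ∧ t ≠ bar b ∧ succL (a :: t :: U) b ≠ a ∧ succL (a :: t :: U) b ≠ bar a then
        some ([b, a], [a, b]) else none) ++
    (if succL (a :: t :: U) t ≠ bar a then [([a, a, t], [t, a])] else []) ++
    (if succL (a :: t :: U) (bar t) ≠ a ∧ succL (a :: t :: U) (bar t) ≠ bar a then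
      [([bar t, a, a], [a, bar t])] else []) ++
    (if (a :: t :: U).idxOf (bar a) ≤ 6 then
      [(List.replicate ((a :: t :: U).idxOf (bar a) - 1) a,
        List.replicate (11 - (a :: t :: U).idxOf (bar a)) (bar a))] else [])
  | _ => []

/-- All pairs of programs that have to agree at a rooted word. -/
def progs : List L → List ((List (ℕ × Bool) × ℕ) × (List (ℕ × Bool) × ℕ))
  | a :: t :: U =>
    (simP (a :: t :: U) (fw [a, t, bar a]) (bar t), ([], 0)) ::
      (cells (a :: t :: U)).map (fun c =>
        (simP (a :: t :: U) (fw c.1) a, simP (a :: t :: U) (fw c.2) a))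
  | _ => []

/-- The twelve letters. -/
def allL : List L :=
  [la 0, lA 0, lb 0, lB 0, la 1, lA 1, lb 1, lB 1, la 2, lA 2, lb 2, lB 2]

/-- The checks on a rooted word alone. -/
def okShape : List L → Bool
  | a :: t :: U =>
    ((a :: t :: U).length == 12) && allL.all (fun l => (a :: t :: U).contains l) &&
    (t != bar a) &&
    (simW (a :: t :: U) (fw [a, t, bar a]) (bar t) == (a :: t :: U).map (triF a t)) &&
    (cells (a :: t :: U)).all (fun c =>
      simW (a :: t :: U) (fw c.1) a == simW (a :: t :: U) (fw c.2) a)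
  | _ => false

/-- The unlabelled shape of a word: position of the inverse of each letter. -/
def shape (u : List L) : List ℕ := u.map (fun l => u.idxOf (bar l))

/-- A rooted table satisfying all cells. -/
structure Tab (Xc : Type) where
  cw : Xc → List L
  T : Equiv.Perm Xc
  ρ : Equiv.Perm Xc
  ok : ∀ x, okShape (cw x) = true
  sh_T : ∀ x, shape (cw (T x)) = shape (slide (cw x))
  sh_ρ : ∀ x, shape (cw (ρ x)) = shape ((cw x).rotate 1)
  ρ12 : ∀ x, (ρ ^ 12) x = x
  cell : ∀ x, ∀ p ∈ progs (cw x), run T ρ p.1.1 p.1.2 x = run T ρ p.2.1 p.2.2 x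

end Pool.Agent.MP_61a8e3_al.A

end

section

/-!
Part T (kernel check of the table of affine maps): definitions.

Numbers are read in base `B = 2 ^ 16` (slots).  A code holds an 8 x 9 matrix of Gaussian integers
(the last column is the translation) and a target index; `spr` spreads it so that the entry
`(i, k)` sits in the slot `9 (8 - k) + 162 i` (real parts) and `9 (8 - k) + 162 (i + 8)`
(imaginary parts), with offset 8.  A state is a pair of numbers with the entry `(k, j)` in the slot
`9 k + j`, with offset 128.  One step multiplies a state by a spread code (Kronecker substitution).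
-/

set_option autoImplicit false

namespace Pool.Agent.MP_61a8e3_al.T

open A

/-- sum over i < 16 of 2 ^ (2556 i) -/
def m1 : ℕ := nat_lit 0x10000000000000000000000000000000000000000000000000000000000000000000000000000000000000000000000000000000000000000000000000000000000000000000000000000000000000000000000000000000000000000000000000000000000000000000000000000000000000000000000000000000000000000000000000000000000000000000000000000000000000000000000000000000000000000000000000000000000000000000000000000000000000000000000000000000000000000000000000000000000000000000000000000000000000000000000000000000000000000000000000000000000000000000000000000000000000000000000000000000000000000000000000000000000000000000000000000000000000000000000000000000000000000000000000000000000000010000000000000000000000000000000000000000000000000000000000000000000000000000000000000000000000000000000000000000000000000000000000000000000000000000000000000000000000000000000000000000000000000000000000000000000000000000000000000000000000000000000000000000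00000000000000000000000000000000000000000000000000000000000000000000000000000000000000000000000000000000000000000000000000000000000000000000000000000000000000000000000000000000000000000000000000000000000000000000000000000000000000000000000000000000000000000000000000000000000000000000000000000000000000000000000000000000000000000000000000000000000000000000000000000000000000000000001000000000000000000000000000000000000000000000000000000000000000000000000000000000000000000000000000000000000000000000000000000000000000000000000000000000000000000000000000000000000000000000000000000000000000000000000000000000000000000000000000000000000000000000000000000000000000000000000000000000000000000000000000000000000000000000000000000000000000000000000000000000000000000000000000000000000000000000000000000000000000000000000000000000000000000000000000000000000000000000000000000000000000000000000000000000000000000000000000000000000000000000000000000000000000000000000000000000000000000000000000000000000000000000000000000000000001000000000000000000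00000000000000000000000000000000000000000000000000000000000000000000000000000000000000000000000000000000000000000000000000000000000000000000000000000000000000000000000000000000000000000000000000000000000000000000000000000000000000000000000000000000000000000000000000000000000000000000000000000000000000000000000000000000000000000000000000000000000000000000000000000000000000000000000000000000000000000000000000000000000000000000000000000000000000000000000000000000000000000000000000000000000000000000000000000000000000000000000000000000000000000000000000000000000000000000000000000000000000000000000000000000000000000000100000000000000000000000000000000000000000000000000000000000000000000000000000000000000000000000000000000000000000000000000000000000000000000000000000000000000000000000000000000000000000000000000000000000000000000000000000000000000000000000000000000000000000000000000000000000000000000000000000000000000000000000000000000000000000000000000000000000000000000000000000000000000000000000000000000000000000000000000000000000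00000000000000000000000000000000000000000000000000000000000000000000000000000000000000000000000000000000000000000000000000000000000000000000000000000000000000000000000000000000000000000000000000000000000000000000000000010000000000000000000000000000000000000000000000000000000000000000000000000000000000000000000000000000000000000000000000000000000000000000000000000000000000000000000000000000000000000000000000000000000000000000000000000000000000000000000000000000000000000000000000000000000000000000000000000000000000000000000000000000000000000000000000000000000000000000000000000000000000000000000000000000000000000000000000000000000000000000000000000000000000000000000000000000000000000000000000000000000000000000000000000000000000000000000000000000000000000000000000000000000000000000000000000000000000000000000000000000000000000000000000000000000000000010000000000000000000000000000000000000000000000000000000000000000000000000000000000000000000000000000000000000000000000000000000000000000000000000000000000000000000000000000000000000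00000000000000000000000000000000000000000000000000000000000000000000000000000000000000000000000000000000000000000000000000000000000000000000000000000000000000000000000000000000000000000000000000000000000000000000000000000000000000000000000000000000000000000000000000000000000000000000000000000000000000000000000000000000000000000000000000000000000000000000000000000000000000000000000000000000000000000000000000000000000000000000000000000000000000000000000001000000000000000000000000000000000000000000000000000000000000000000000000000000000000000000000000000000000000000000000000000000000000000000000000000000000000000000000000000000000000000000000000000000000000000000000000000000000000000000000000000000000000000000000000000000000000000000000000000000000000000000000000000000000000000000000000000000000000000000000000000000000000000000000000000000000000000000000000000000000000000000000000000000000000000000000000000000000000000000000000000000000000000000000000000000000000000000000000000000000000000000000000000000000000000000000000000000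00000000000000000000000000000000000000000000000000000000100000000000000000000000000000000000000000000000000000000000000000000000000000000000000000000000000000000000000000000000000000000000000000000000000000000000000000000000000000000000000000000000000000000000000000000000000000000000000000000000000000000000000000000000000000000000000000000000000000000000000000000000000000000000000000000000000000000000000000000000000000000000000000000000000000000000000000000000000000000000000000000000000000000000000000000000000000000000000000000000000000000000000000000000000000000000000000000000000000000000000000000000000000000000000000000000000000000000000000000000000000000000000000000000000000000000000100000000000000000000000000000000000000000000000000000000000000000000000000000000000000000000000000000000000000000000000000000000000000000000000000000000000000000000000000000000000000000000000000000000000000000000000000000000000000000000000000000000000000000000000000000000000000000000000000000000000000000000000000000000000000000000000000000000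00000000000000000000000000000000000000000000000000000000000000000000000000000000000000000000000000000000000000000000000000000000000000000000000000000000000000000000000000000000000000000000000000000000000000000000000000000000000000000000000000000000000000000000000000000000000000000000000000000010000000000000000000000000000000000000000000000000000000000000000000000000000000000000000000000000000000000000000000000000000000000000000000000000000000000000000000000000000000000000000000000000000000000000000000000000000000000000000000000000000000000000000000000000000000000000000000000000000000000000000000000000000000000000000000000000000000000000000000000000000000000000000000000000000000000000000000000000000000000000000000000000000000000000000000000000000000000000000000000000000000000000000000000000000000000000000000000000000000000000000000000000000000000000000000000000000000000000000000000000000000000000000000000000000000000000010000000000000000000000000000000000000000000000000000000000000000000000000000000000000000000000000000000000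00000000000000000000000000000000000000000000000000000000000000000000000000000000000000000000000000000000000000000000000000000000000000000000000000000000000000000000000000000000000000000000000000000000000000000000000000000000000000000000000000000000000000000000000000000000000000000000000000000000000000000000000000000000000000000000000000000000000000000000000000000000000000000000000000000000000000000000000000000000000000000000000000000000000000000000000000000000000000000000000000000000000000000000000000000000000000000000000000001000000000000000000000000000000000000000000000000000000000000000000000000000000000000000000000000000000000000000000000000000000000000000000000000000000000000000000000000000000000000000000000000000000000000000000000000000000000000000000000000000000000000000000000000000000000000000000000000000000000000000000000000000000000000000000000000000000000000000000000000000000000000000000000000000000000000000000000000000000000000000000000000000000000000000000000000000000000000000000000000000000000000000000000000000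000000000000000000000000000000000000000000000000000000000000000000000000000000000000000000000000000000000000000000000000000000000001000000000000000000000000000000000000000000000000000000000000000000000000000000000000000000000000000000000000000000000000000000000000000000000000000000000000000000000000000000000000000000000000000000000000000000000000000000000000000000000000000000000000000000000000000000000000000000000000000000000000000000000000000000000000000000000000000000000000000000000000000000000000000000000000000000000000000000000000000000000000000000000000000000000000000000000000000000000000000000000000000000000000000000000000000000000000000000000000000000000000000000000000000000000000000000000000000000000000000000000000000000000000000000000000000000000000001000000000000000000000000000000000000000000000000000000000000000000000000000000000000000000000000000000000000000000000000000000000000000000000000000000000000000000000000000000000000000000000000000000000000000000000000000000000000000000000000000000000000000000000000000000000000000000000000000000000000000000000000000000000000000000000000000000000000000000000000000000000000000000000000000000000000000000000000000000000000000000000000000000000000000000000000000000000000000000000000000000000000000000000000000000000000000000000000000000000000000000000000000000000000000000000000000000000000000000000000000000000000000000000000000000000000001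

/-- sum over i < 16 of (2 ^ 36 - 1) 2 ^ (2592 i) -/
def k1 : ℕ := nat_lit 0xfffffffff000000000000000000000000000000000000000000000000000000000000000000000000000000000000000000000000000000000000000000000000000000000000000000000000000000000000000000000000000000000000000000000000000000000000000000000000000000000000000000000000000000000000000000000000000000000000000000000000000000000000000000000000000000000000000000000000000000000000000000000000000000000000000000000000000000000000000000000000000000000000000000000000000000000000000000000000000000000000000000000000000000000000000000000000000000000000000000000000000000000000000000000000000000000000000000000000000000000000000000000000000000000000000000000000000000000000000fffffffff00000000000000000000000000000000000000000000000000000000000000000000000000000000000000000000000000000000000000000000000000000000000000000000000000000000000000000000000000000000000000000000000000000000000000000000000000000000000000000000000000000000000000000000000000000000000000000000000000000000000000000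0000000000000000000000000000000000000000000000000000000000000000000000000000000000000000000000000000000000000000000000000000000000000000000000000000000000000000000000000000000000000000000000000000000000000000000000000000000000000000000000000000000000000000000000000000000000000000000000000000000000000000000000000000000000000000000000fffffffff000000000000000000000000000000000000000000000000000000000000000000000000000000000000000000000000000000000000000000000000000000000000000000000000000000000000000000000000000000000000000000000000000000000000000000000000000000000000000000000000000000000000000000000000000000000000000000000000000000000000000000000000000000000000000000000000000000000000000000000000000000000000000000000000000000000000000000000000000000000000000000000000000000000000000000000000000000000000000000000000000000000000000000000000000000000000000000000000000000000000000000000000000000000000000000000000000000000000000000000000000000000000000000000000000000000000000fffffffff0000000000000000000000000000000000000000000000000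00000000000000000000000000000000000000000000000000000000000000000000000000000000000000000000000000000000000000000000000000000000000000000000000000000000000000000000000000000000000000000000000000000000000000000000000000000000000000000000000000000000000000000000000000000000000000000000000000000000000000000000000000000000000000000000000000000000000000000000000000000000000000000000000000000000000000000000000000000000000000000000000000000000000000000000000000000000000000000000000000000000000000000000000000000000000000000000000000000000000000000000000000000000000000000000000000000000000000fffffffff000000000000000000000000000000000000000000000000000000000000000000000000000000000000000000000000000000000000000000000000000000000000000000000000000000000000000000000000000000000000000000000000000000000000000000000000000000000000000000000000000000000000000000000000000000000000000000000000000000000000000000000000000000000000000000000000000000000000000000000000000000000000000000000000000000000000000000000000000000000000000000000000000000000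000000000000000000000000000000000000000000000000000000000000000000000000000000000000000000000000000000000000000000000000000000000000000000000000000000000000000000000000000000000000000000000000000000fffffffff000000000000000000000000000000000000000000000000000000000000000000000000000000000000000000000000000000000000000000000000000000000000000000000000000000000000000000000000000000000000000000000000000000000000000000000000000000000000000000000000000000000000000000000000000000000000000000000000000000000000000000000000000000000000000000000000000000000000000000000000000000000000000000000000000000000000000000000000000000000000000000000000000000000000000000000000000000000000000000000000000000000000000000000000000000000000000000000000000000000000000000000000000000000000000000000000000000000000000000000000000000000000000000000000000000000000000fffffffff00000000000000000000000000000000000000000000000000000000000000000000000000000000000000000000000000000000000000000000000000000000000000000000000000000000000000000000000000000000000000000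0000000000000000000000000000000000000000000000000000000000000000000000000000000000000000000000000000000000000000000000000000000000000000000000000000000000000000000000000000000000000000000000000000000000000000000000000000000000000000000000000000000000000000000000000000000000000000000000000000000000000000000000000000000000000000000000000000000000000000000000000000000000000000000000000000000000000000000000000000000000000000000000000000000000000000000000fffffffff0000000000000000000000000000000000000000000000000000000000000000000000000000000000000000000000000000000000000000000000000000000000000000000000000000000000000000000000000000000000000000000000000000000000000000000000000000000000000000000000000000000000000000000000000000000000000000000000000000000000000000000000000000000000000000000000000000000000000000000000000000000000000000000000000000000000000000000000000000000000000000000000000000000000000000000000000000000000000000000000000000000000000000000000000000000000000000000000000000000000000000000000000000000000000000000000000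00000000000000000000000000000000000000000000000000000000000000fffffffff000000000000000000000000000000000000000000000000000000000000000000000000000000000000000000000000000000000000000000000000000000000000000000000000000000000000000000000000000000000000000000000000000000000000000000000000000000000000000000000000000000000000000000000000000000000000000000000000000000000000000000000000000000000000000000000000000000000000000000000000000000000000000000000000000000000000000000000000000000000000000000000000000000000000000000000000000000000000000000000000000000000000000000000000000000000000000000000000000000000000000000000000000000000000000000000000000000000000000000000000000000000000000000000000000000000000000fffffffff000000000000000000000000000000000000000000000000000000000000000000000000000000000000000000000000000000000000000000000000000000000000000000000000000000000000000000000000000000000000000000000000000000000000000000000000000000000000000000000000000000000000000000000000000000000000000000000000000000000000000000000000000000000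000000000000000000000000000000000000000000000000000000000000000000000000000000000000000000000000000000000000000000000000000000000000000000000000000000000000000000000000000000000000000000000000000000000000000000000000000000000000000000000000000000000000000000000000000000000000000000000000000000000000000000000000000000fffffffff000000000000000000000000000000000000000000000000000000000000000000000000000000000000000000000000000000000000000000000000000000000000000000000000000000000000000000000000000000000000000000000000000000000000000000000000000000000000000000000000000000000000000000000000000000000000000000000000000000000000000000000000000000000000000000000000000000000000000000000000000000000000000000000000000000000000000000000000000000000000000000000000000000000000000000000000000000000000000000000000000000000000000000000000000000000000000000000000000000000000000000000000000000000000000000000000000000000000000000000000000000000000000000000000000000000000000fffffffff00000000000000000000000000000000000000000000000000000000000000000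0000000000000000000000000000000000000000000000000000000000000000000000000000000000000000000000000000000000000000000000000000000000000000000000000000000000000000000000000000000000000000000000000000000000000000000000000000000000000000000000000000000000000000000000000000000000000000000000000000000000000000000000000000000000000000000000000000000000000000000000000000000000000000000000000000000000000000000000000000000000000000000000000000000000000000000000000000000000000000000000000000000000000000000000000000000000000000000000000000000000000000000000000000000000000000000000fffffffff0000000000000000000000000000000000000000000000000000000000000000000000000000000000000000000000000000000000000000000000000000000000000000000000000000000000000000000000000000000000000000000000000000000000000000000000000000000000000000000000000000000000000000000000000000000000000000000000000000000000000000000000000000000000000000000000000000000000000000000000000000000000000000000000000000000000000000000000000000000000000000000000000000000000000000000000000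00000000000000000000000000000000000000000000000000000000000000000000000000000000000000000000000000000000000000000000000000000000000000000000000000000000000000000000000000000000000000fffffffff000000000000000000000000000000000000000000000000000000000000000000000000000000000000000000000000000000000000000000000000000000000000000000000000000000000000000000000000000000000000000000000000000000000000000000000000000000000000000000000000000000000000000000000000000000000000000000000000000000000000000000000000000000000000000000000000000000000000000000000000000000000000000000000000000000000000000000000000000000000000000000000000000000000000000000000000000000000000000000000000000000000000000000000000000000000000000000000000000000000000000000000000000000000000000000000000000000000000000000000000000000000000000000000000000000000000000fffffffff000000000000000000000000000000000000000000000000000000000000000000000000000000000000000000000000000000000000000000000000000000000000000000000000000000000000000000000000000000000000000000000000000000000000000000000000000000000000000000000000000000000000000000000000000000000000000000000000000000000000000000000000000000000000000000000000000000000000000000000000000000000000000000000000000000000000000000000000000000000000000000000000000000000000000000000000000000000000000000000000000000000000000000000000000000000000000000000000000000000000000000000000000000000000000000000000000000000000000000000000000000000000000000000000000000000000000fffffffff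

/-- sum over k < 9 of 2 ^ (140 k) -/
def m2 : ℕ := nat_lit 0x10000000000000000000000000000000000100000000000000000000000000000000001000000000000000000000000000000000010000000000000000000000000000000000100000000000000000000000000000000001000000000000000000000000000000000010000000000000000000000000000000000100000000000000000000000000000000001

/-- digit 15 at the slots 9 k + 162 i, k < 9, i < 16 -/
def k2 : ℕ := nat_lit 0xf00000000000000000000000000000000000f00000000000000000000000000000000000f00000000000000000000000000000000000f00000000000000000000000000000000000f00000000000000000000000000000000000f00000000000000000000000000000000000f00000000000000000000000000000000000f00000000000000000000000000000000000f0000000000000000000000000000000000000000000000000000000000000000000000000000000000000000000000000000000000000000000000000000000000000000000000000000000000000000000000000000000000000000000000000000000000000000000000000000000000000000000000000000000000000000000000000000000000000000000000000000000000000000000000000000000000000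0000000000000000000000000000000000f00000000000000000000000000000000000f00000000000000000000000000000000000f00000000000000000000000000000000000f00000000000000000000000000000000000f00000000000000000000000000000000000f00000000000000000000000000000000000f00000000000000000000000000000000000f00000000000000000000000000000000000f00000000000000000000000000000000000000000000000000000000000000000000000000000000000000000000000000000000000000000000000000000000000000000000000000000000000000000000000000000000000000000000000000000000000000000000000000000000000000000000000000000000000000000000000000000000000000000000000000000000000000000000000000000000000000000000000000000000000000000000000f00000000000000000000000000000000000f00000000000000000000000000000000000f00000000000000000000000000000000000f00000000000000000000000000000000000f00000000000000000000000000000000000f00000000000000000000000000000000000f00000000000000000000000000000000000f00000000000000000000000000000000000f000000000000000000000000000000000000000000000000000000000000000000000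00000000000000000000000000000000000000000000000000000000000000000000000000000000000000000000000000000000000000000000000000000000000000000000000000000000000000000000000000000000000000000000000000000000000000000000000000000000000000000000000000000000000000000000000000000000000000000000000000f00000000000000000000000000000000000f00000000000000000000000000000000000f00000000000000000000000000000000000f00000000000000000000000000000000000f00000000000000000000000000000000000f00000000000000000000000000000000000f00000000000000000000000000000000000f00000000000000000000000000000000000f00000000000000000000000000000000000000000000000000000000000000000000000000000000000000000000000000000000000000000000000000000000000000000000000000000000000000000000000000000000000000000000000000000000000000000000000000000000000000000000000000000000000000000000000000000000000000000000000000000000000000000000000000000000000000000000000000000000000000000000000f00000000000000000000000000000000000f00000000000000000000000000000000000f00000000000000000000000000000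000000f00000000000000000000000000000000000f00000000000000000000000000000000000f00000000000000000000000000000000000f00000000000000000000000000000000000f00000000000000000000000000000000000f00000000000000000000000000000000000000000000000000000000000000000000000000000000000000000000000000000000000000000000000000000000000000000000000000000000000000000000000000000000000000000000000000000000000000000000000000000000000000000000000000000000000000000000000000000000000000000000000000000000000000000000000000000000000000000000000000000000000000000000000f00000000000000000000000000000000000f00000000000000000000000000000000000f00000000000000000000000000000000000f00000000000000000000000000000000000f00000000000000000000000000000000000f00000000000000000000000000000000000f00000000000000000000000000000000000f00000000000000000000000000000000000f0000000000000000000000000000000000000000000000000000000000000000000000000000000000000000000000000000000000000000000000000000000000000000000000000000000000000000000000000000000000000000000000000000000000000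0000000000000000000000000000000000000000000000000000000000000000000000000000000000000000000000000000000000000000000000000000000000000000000000000000000000f00000000000000000000000000000000000f00000000000000000000000000000000000f00000000000000000000000000000000000f00000000000000000000000000000000000f00000000000000000000000000000000000f00000000000000000000000000000000000f00000000000000000000000000000000000f00000000000000000000000000000000000f00000000000000000000000000000000000000000000000000000000000000000000000000000000000000000000000000000000000000000000000000000000000000000000000000000000000000000000000000000000000000000000000000000000000000000000000000000000000000000000000000000000000000000000000000000000000000000000000000000000000000000000000000000000000000000000000000000000000000000000000f00000000000000000000000000000000000f00000000000000000000000000000000000f00000000000000000000000000000000000f00000000000000000000000000000000000f00000000000000000000000000000000000f00000000000000000000000000000000000f000000000000000000000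00000000000000f00000000000000000000000000000000000f00000000000000000000000000000000000000000000000000000000000000000000000000000000000000000000000000000000000000000000000000000000000000000000000000000000000000000000000000000000000000000000000000000000000000000000000000000000000000000000000000000000000000000000000000000000000000000000000000000000000000000000000000000000000000000000000000000000000000000000000f00000000000000000000000000000000000f00000000000000000000000000000000000f00000000000000000000000000000000000f00000000000000000000000000000000000f00000000000000000000000000000000000f00000000000000000000000000000000000f00000000000000000000000000000000000f00000000000000000000000000000000000f00000000000000000000000000000000000000000000000000000000000000000000000000000000000000000000000000000000000000000000000000000000000000000000000000000000000000000000000000000000000000000000000000000000000000000000000000000000000000000000000000000000000000000000000000000000000000000000000000000000000000000000000000000000000000000000000000000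000000000000000000f00000000000000000000000000000000000f00000000000000000000000000000000000f00000000000000000000000000000000000f00000000000000000000000000000000000f00000000000000000000000000000000000f00000000000000000000000000000000000f00000000000000000000000000000000000f00000000000000000000000000000000000f00000000000000000000000000000000000000000000000000000000000000000000000000000000000000000000000000000000000000000000000000000000000000000000000000000000000000000000000000000000000000000000000000000000000000000000000000000000000000000000000000000000000000000000000000000000000000000000000000000000000000000000000000000000000000000000000000000000000000000000000f00000000000000000000000000000000000f00000000000000000000000000000000000f00000000000000000000000000000000000f00000000000000000000000000000000000f00000000000000000000000000000000000f00000000000000000000000000000000000f00000000000000000000000000000000000f00000000000000000000000000000000000f0000000000000000000000000000000000000000000000000000000000000000000000000000000000000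0000000000000000000000000000000000000000000000000000000000000000000000000000000000000000000000000000000000000000000000000000000000000000000000000000000000000000000000000000000000000000000000000000000000000000000000000000000000000000000000000000000000000000000000000000000000f00000000000000000000000000000000000f00000000000000000000000000000000000f00000000000000000000000000000000000f00000000000000000000000000000000000f00000000000000000000000000000000000f00000000000000000000000000000000000f00000000000000000000000000000000000f00000000000000000000000000000000000f00000000000000000000000000000000000000000000000000000000000000000000000000000000000000000000000000000000000000000000000000000000000000000000000000000000000000000000000000000000000000000000000000000000000000000000000000000000000000000000000000000000000000000000000000000000000000000000000000000000000000000000000000000000000000000000000000000000000000000000000f00000000000000000000000000000000000f00000000000000000000000000000000000f00000000000000000000000000000000000f000000000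00000000000000000000000000f00000000000000000000000000000000000f00000000000000000000000000000000000f00000000000000000000000000000000000f00000000000000000000000000000000000f00000000000000000000000000000000000000000000000000000000000000000000000000000000000000000000000000000000000000000000000000000000000000000000000000000000000000000000000000000000000000000000000000000000000000000000000000000000000000000000000000000000000000000000000000000000000000000000000000000000000000000000000000000000000000000000000000000000000000000000000f00000000000000000000000000000000000f00000000000000000000000000000000000f00000000000000000000000000000000000f00000000000000000000000000000000000f00000000000000000000000000000000000f00000000000000000000000000000000000f00000000000000000000000000000000000f00000000000000000000000000000000000f00000000000000000000000000000000000000000000000000000000000000000000000000000000000000000000000000000000000000000000000000000000000000000000000000000000000000000000000000000000000000000000000000000000000000000000000000000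000000000000000000000000000000000000000000000000000000000000000000000000000000000000000000000000000000000000000000000000000000000000000000f00000000000000000000000000000000000f00000000000000000000000000000000000f00000000000000000000000000000000000f00000000000000000000000000000000000f00000000000000000000000000000000000f00000000000000000000000000000000000f00000000000000000000000000000000000f00000000000000000000000000000000000f00000000000000000000000000000000000000000000000000000000000000000000000000000000000000000000000000000000000000000000000000000000000000000000000000000000000000000000000000000000000000000000000000000000000000000000000000000000000000000000000000000000000000000000000000000000000000000000000000000000000000000000000000000000000000000000000000000000000000000000000f00000000000000000000000000000000000f00000000000000000000000000000000000f00000000000000000000000000000000000f00000000000000000000000000000000000f00000000000000000000000000000000000f00000000000000000000000000000000000f00000000000000000000000000000000000f00000000000000000000000000000000000f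

/-- B ^ 1296 minus digit 8 at the slots 9 k + 162 i, k < 9, i < 8 -/
def cA : ℕ := nat_lit 0xfffffffffffffffffffffffffffffffffffffffffffffffffffffffffffffffffffffffffffffffffffffffffffffffffffffffffffffffffffffffffffffffffffffffffffffffffffffffffffffffffffffffffffffffffffffffffffffffffffffffffffffffffffffffffffffffffffffffffffffffffffffffffffffffffffffffffffffffffffffffffffffffffffffffffffffffffffffffffffffffffffffffffffffffffffffffffffffffffffffff7fffffffffffffffffffffffffffffffffff7fffffffffffffffffffffffffffffffffff7fffffffffffffffffffffffffffffffffff7fffffffffffffffffffffffffffffffffff7fffffffffffffffffffffffffffffffffff7fffffffffffffffffffffffffffffffffff7fffffffffffffffffffffffffffffffffff7fffffffffffffffffffffffffffffffffff7fffffffffffffffffffffffffffffffffffffffffffffffffffffffffffffffffffffffffffffffffffffffffffffffffffffffffffffffffffffffffffffffffffffffffffffffffffffffffffffffffffffffffffffffffffffffffffffffffffffffffffffffffffffffffffffffffffffffffffffffffffffffffffffffffffffffffffffffffffffffffffffffffffffffff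ffffffffffffffffffffffffffffffffffffffffffffffffffffffffffffff7fffffffffffffffffffffffffffffffffff7fffffffffffffffffffffffffffffffffff7fffffffffffffffffffffffffffffffffff7fffffffffffffffffffffffffffffffffff7fffffffffffffffffffffffffffffffffff7fffffffffffffffffffffffffffffffffff7fffffffffffffffffffffffffffffffffff7fffffffffffffffffffffffffffffffffff7fffffffffffffffffffffffffffffffffffffffffffffffffffffffffffffffffffffffffffffffffffffffffffffffffffffffffffffffffffffffffffffffffffffffffffffffffffffffffffffffffffffffffffffffffffffffffffffffffffffffffffffffffffffffffffffffffffffffffffffffffffffffffffffffffffffffffffffffffffffffffffffffffffffffffffffffffffffffffffffffffffffffffffffffffffffffffffffffffffffff7fffffffffffffffffffffffffffffffffff7fffffffffffffffffffffffffffffffffff7fffffffffffffffffffffffffffffffffff7fffffffffffffffffffffffffffffffffff7fffffffffffffffffffffffffffffffffff7fffffffffffffffffffffffffffffffffff7fffffffffffffffffffffffffffffffffff7fffffffffffffffffffffffffffffffffff7fffffffffffffffffffffffffffffffffffffffff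ffffffffffffffffffffffffffffffffffffffffffffffffffffffffffffffffffffffffffffffffffffffffffffffffffffffffffffffffffffffffffffffffffffffffffffffffffffffffffffffffffffffffffffffffffffffffffffffffffffffffffffffffffffffffffffffffffffffffffffffffffffffffffffffffffffffffffffffffffffffffffffffffffffffffffffffffffffffffffffff7fffffffffffffffffffffffffffffffffff7fffffffffffffffffffffffffffffffffff7fffffffffffffffffffffffffffffffffff7fffffffffffffffffffffffffffffffffff7fffffffffffffffffffffffffffffffffff7fffffffffffffffffffffffffffffffffff7fffffffffffffffffffffffffffffffffff7fffffffffffffffffffffffffffffffffff7fffffffffffffffffffffffffffffffffffffffffffffffffffffffffffffffffffffffffffffffffffffffffffffffffffffffffffffffffffffffffffffffffffffffffffffffffffffffffffffffffffffffffffffffffffffffffffffffffffffffffffffffffffffffffffffffffffffffffffffffffffffffffffffffffffffffffffffffffffffffffffffffffffffffffffffffffffffffffffffffffffffffffffffffffffffffffffffffffffffff7fffffffffffffffffffffffffffffffffff7fffffffffffffffffffffffffffffffffff7f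ffffffffffffffffffffffffffffffffff7fffffffffffffffffffffffffffffffffff7fffffffffffffffffffffffffffffffffff7fffffffffffffffffffffffffffffffffff7fffffffffffffffffffffffffffffffffff7fffffffffffffffffffffffffffffffffff7fffffffffffffffffffffffffffffffffffffffffffffffffffffffffffffffffffffffffffffffffffffffffffffffffffffffffffffffffffffffffffffffffffffffffffffffffffffffffffffffffffffffffffffffffffffffffffffffffffffffffffffffffffffffffffffffffffffffffffffffffffffffffffffffffffffffffffffffffffffffffffffffffffffffffffffffffffffffffffffffffffffffffffffffffffffffffffffffffffffff7fffffffffffffffffffffffffffffffffff7fffffffffffffffffffffffffffffffffff7fffffffffffffffffffffffffffffffffff7fffffffffffffffffffffffffffffffffff7fffffffffffffffffffffffffffffffffff7fffffffffffffffffffffffffffffffffff7fffffffffffffffffffffffffffffffffff7fffffffffffffffffffffffffffffffffff7fffffffffffffffffffffffffffffffffffffffffffffffffffffffffffffffffffffffffffffffffffffffffffffffffffffffffffffffffffffffffffffffffffffffffffffffffffffffffffffffffffffffffffffffff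ffffffffffffffffffffffffffffffffffffffffffffffffffffffffffffffffffffffffffffffffffffffffffffffffffffffffffffffffffffffffffffffffffffffffffffffffffffffffffffffffffffffffffffffffffffff7fffffffffffffffffffffffffffffffffff7fffffffffffffffffffffffffffffffffff7fffffffffffffffffffffffffffffffffff7fffffffffffffffffffffffffffffffffff7fffffffffffffffffffffffffffffffffff7fffffffffffffffffffffffffffffffffff7fffffffffffffffffffffffffffffffffff7fffffffffffffffffffffffffffffffffff7fffffffffffffffffffffffffffffffffffffffffffffffffffffffffffffffffffffffffffffffffffffffffffffffffffffffffffffffffffffffffffffffffffffffffffffffffffffffffffffffffffffffffffffffffffffffffffffffffffffffffffffffffffffffffffffffffffffffffffffffffffffffffffffffffffffffffffffffffffffffffffffffffffffffffffffffffffffffffffffffffffffffffffffffffffffffffffffffffffffff7fffffffffffffffffffffffffffffffffff7fffffffffffffffffffffffffffffffffff7fffffffffffffffffffffffffffffffffff7fffffffffffffffffffffffffffffffffff7fffffffffffffffffffffffffffffffffff7fffffffffffffffffffffffffffffffffff7fffffffffffffffffffffffffffffffffff7fffffffffffffffffffffffffffffffffff8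

/-- B ^ 81 + B ^ 80 minus digit 128 at the slots below 72 -/
def cBr : ℕ := nat_lit 0x10000ffffffffffffffffffffffffffffffffff7fff7fff7fff7fff7fff7fff7fff7fff7fff7fff7fff7fff7fff7fff7fff7fff7fff7fff7fff7fff7fff7fff7fff7fff7fff7fff7fff7fff7fff7fff7fff7fff7fff7fff7fff7fff7fff7fff7fff7fff7fff7fff7fff7fff7fff7fff7fff7fff7fff7fff7fff7fff7fff7fff7fff7fff7fff7fff7fff7fff7fff7fff7fff7fff7fff7fff7fff7fff7fff7fff7fff80

/-- B ^ 81 minus digit 128 at the slots below 72 -/
def cBi : ℕ := nat_lit 0xffffffffffffffffffffffffffffffffffffff7fff7fff7fff7fff7fff7fff7fff7fff7fff7fff7fff7fff7fff7fff7fff7fff7fff7fff7fff7fff7fff7fff7fff7fff7fff7fff7fff7fff7fff7fff7fff7fff7fff7fff7fff7fff7fff7fff7fff7fff7fff7fff7fff7fff7fff7fff7fff7fff7fff7fff7fff7fff7fff7fff7fff7fff7fff7fff7fff7fff7fff7fff7fff7fff7fff7fff7fff7fff7fff7fff7fff80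

/-- digit 2 ^ 15 + 128 at all slots below 1458 -/
def bias : ℕ := nat_lit 0x80808080808080808080808080808080808080808080808080808080808080808080808080808080808080808080808080808080808080808080808080808080808080808080808080808080808080808080808080808080808080808080808080808080808080808080808080808080808080808080808080808080808080808080808080808080808080808080808080808080808080808080808080808080808080808080808080808080808080808080808080808080808080808080808080808080808080808080808080808080808080808080808080808080808080808080808080808080808080808080808080808080808080808080808080808080808080808080808080808080808080808080808080808080808080808080808080808080808080808080808080808080808080808080808080808080808080808080808080808080808080808080808080808080808080808080808080808080808080808080808080808080808080808080808080808080808080808080808080808080808080808080808080808080808080808080808080808080808080808080808080808080808080808080808080808080808080808080808080808080808080808080808080808080808080808080808080808080808080808080808080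80808080808080808080808080808080808080808080808080808080808080808080808080808080808080808080808080808080808080808080808080808080808080808080808080808080808080808080808080808080808080808080808080808080808080808080808080808080808080808080808080808080808080808080808080808080808080808080808080808080808080808080808080808080808080808080808080808080808080808080808080808080808080808080808080808080808080808080808080808080808080808080808080808080808080808080808080808080808080808080808080808080808080808080808080808080808080808080808080808080808080808080808080808080808080808080808080808080808080808080808080808080808080808080808080808080808080808080808080808080808080808080808080808080808080808080808080808080808080808080808080808080808080808080808080808080808080808080808080808080808080808080808080808080808080808080808080808080808080808080808080808080808080808080808080808080808080808080808080808080808080808080808080808080808080808080808080808080808080808080808080808080808080808080808080808080808080808080808080808080808080808080808080808080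80808080808080808080808080808080808080808080808080808080808080808080808080808080808080808080808080808080808080808080808080808080808080808080808080808080808080808080808080808080808080808080808080808080808080808080808080808080808080808080808080808080808080808080808080808080808080808080808080808080808080808080808080808080808080808080808080808080808080808080808080808080808080808080808080808080808080808080808080808080808080808080808080808080808080808080808080808080808080808080808080808080808080808080808080808080808080808080808080808080808080808080808080808080808080808080808080808080808080808080808080808080808080808080808080808080808080808080808080808080808080808080808080808080808080808080808080808080808080808080808080808080808080808080808080808080808080808080808080808080808080808080808080808080808080808080808080808080808080808080808080808080808080808080808080808080808080808080808080808080808080808080808080808080808080808080808080808080808080808080808080808080808080808080808080808080808080808080808080808080808080808080808080808080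80808080808080808080808080808080808080808080808080808080808080808080808080808080808080808080808080808080808080808080808080808080808080808080808080808080808080808080808080808080808080808080808080808080808080808080808080808080808080808080808080808080808080808080808080808080808080808080808080808080808080808080808080808080808080808080808080808080808080808080808080808080808080808080808080808080808080808080808080808080808080808080808080808080808080808080808080808080808080808080808080808080808080808080808080808080808080808080808080808080808080808080808080808080808080808080808080808080808080808080808080808080808080808080808080808080808080808080808080808080808080808080808080808080808080808080808080808080808080808080808080808080808080808080808080808080808080808080808080808080808080808080808080808080808080808080808080808080808080808080808080808080808080808080808080808080808080808080808080808080808080808080808080808080808080808080808080808080808080808080808080808080808080808080808080808080808080808080808080808080808080808080808080808080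80808080808080808080808080808080808080808080808080808080808080808080808080808080808080808080808080808080808080808080808080808080808080808080808080808080808080808080808080808080808080808080808080808080808080808080808080808080808080808080808080808080808080808080808080808080808080808080808080808080808080808080808080808080808080808080808080808080808080808080808080808080808080808080808080808080808080808080808080808080808080808080808080808080808080808080808080808080808080808080808080808080808080808080808080808080808080808080808080808080808080808080808080808080808080808080808080808080808080808080808080808080808080808080808080808080808080808080808080808080808080808080808080808080808080808080808080808080808080808080808080808080808080808080808080808080808080808080808080808080808080808080808080808080808080808080808080808080808080808080808080808080808080808080808080808080808080808080808080808080808080808080808080808080808080808080808080808080808080808080808080808080808080808080808080808080808080808080808080808080808080808080808080808080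80808080808080808080808080808080808080808080808080808080808080808080808080808080808080808080808080808080808080808080808080808080808080808080808080808080808080808080808080808080808080808080808080808080808080808080808080808080808080808080808080808080808080808080808080808080808080808080808080808080808080808080808080808080808080808080808080808080808080808080808080808080808080808080808080808080808080808080808080808080808080808080808080808080808080808080808080808080808080808080808080808080808080808080808080808080808080808080808080808080808080808080808080808080808080808080808080808080808080808080808080808080808080808080808080808080808080808080808080808080808080808080808080808080808080808080808080808080808080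

/-- digit 65535 at the slots 162 i + j, j < 9, i < 8 -/
def km : ℕ := nat_lit 0xffffffffffffffffffffffffffffffffffff000000000000000000000000000000000000000000000000000000000000000000000000000000000000000000000000000000000000000000000000000000000000000000000000000000000000000000000000000000000000000000000000000000000000000000000000000000000000000000000000000000000000000000000000000000000000000000000000000000000000000000000000000000000000000000000000000000000000000000000000000000000000000000000000000000000000000000000000000000000000000000000000000000000000000000000000000000000000000000000000000000000000000000000000000000000000000000000000000000000000000000000000000000000000000000000000000000000000000000000000000000000000ffffffffffffffffffffffffffffffffffff0000000000000000000000000000000000000000000000000000000000000000000000000000000000000000000000000000000000000000000000000000000000000000000000000000000000000000000000000000000000000000000000000000000000000000000000000000000000000000000000000000000000000000000000000000000000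00000000000000000000000000000000000000000000000000000000000000000000000000000000000000000000000000000000000000000000000000000000000000000000000000000000000000000000000000000000000000000000000000000000000000000000000000000000000000000000000000000000000000000000000000000000000000000000000000000000000000000000000000000000000000000000000000ffffffffffffffffffffffffffffffffffff000000000000000000000000000000000000000000000000000000000000000000000000000000000000000000000000000000000000000000000000000000000000000000000000000000000000000000000000000000000000000000000000000000000000000000000000000000000000000000000000000000000000000000000000000000000000000000000000000000000000000000000000000000000000000000000000000000000000000000000000000000000000000000000000000000000000000000000000000000000000000000000000000000000000000000000000000000000000000000000000000000000000000000000000000000000000000000000000000000000000000000000000000000000000000000000000000000000000000000000000000000000000ffffffffffffffffffffffffffffffffffff000000000000000000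000000000000000000000000000000000000000000000000000000000000000000000000000000000000000000000000000000000000000000000000000000000000000000000000000000000000000000000000000000000000000000000000000000000000000000000000000000000000000000000000000000000000000000000000000000000000000000000000000000000000000000000000000000000000000000000000000000000000000000000000000000000000000000000000000000000000000000000000000000000000000000000000000000000000000000000000000000000000000000000000000000000000000000000000000000000000000000000000000000000000000000000000000000000000000000000000000000000000000000ffffffffffffffffffffffffffffffffffff00000000000000000000000000000000000000000000000000000000000000000000000000000000000000000000000000000000000000000000000000000000000000000000000000000000000000000000000000000000000000000000000000000000000000000000000000000000000000000000000000000000000000000000000000000000000000000000000000000000000000000000000000000000000000000000000000000000000000000000000000000000000000000000000000000000000000000000000000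0000000000000000000000000000000000000000000000000000000000000000000000000000000000000000000000000000000000000000000000000000000000000000000000000000000000000000000000000000000000000000000000000000000000ffffffffffffffffffffffffffffffffffff000000000000000000000000000000000000000000000000000000000000000000000000000000000000000000000000000000000000000000000000000000000000000000000000000000000000000000000000000000000000000000000000000000000000000000000000000000000000000000000000000000000000000000000000000000000000000000000000000000000000000000000000000000000000000000000000000000000000000000000000000000000000000000000000000000000000000000000000000000000000000000000000000000000000000000000000000000000000000000000000000000000000000000000000000000000000000000000000000000000000000000000000000000000000000000000000000000000000000000000000000000000000ffffffffffffffffffffffffffffffffffff000000000000000000000000000000000000000000000000000000000000000000000000000000000000000000000000000000000000000000000000000000000000000000000000000000000000000000000000000000000000000000000000000000000000000000000000000000000000000000000000000000000000000000000000000000000000000000000000000000000000000000000000000000000000000000000000000000000000000000000000000000000000000000000000000000000000000000000000000000000000000000000000000000000000000000000000000000000000000000000000000000000000000000000000000000000000000000000000000000000000000000000000000000000000000000000000000000000000000000000000000000000000ffffffffffffffffffffffffffffffffffff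

/-- B ^ 153 - 1 -/
def md : ℕ := nat_lit 0xffffffffffffffffffffffffffffffffffffffffffffffffffffffffffffffffffffffffffffffffffffffffffffffffffffffffffffffffffffffffffffffffffffffffffffffffffffffffffffffffffffffffffffffffffffffffffffffffffffffffffffffffffffffffffffffffffffffffffffffffffffffffffffffffffffffffffffffffffffffffffffffffffffffffffffffffffffffffffffffffffffffffffffffffffffffffffffffffffffffffffffffffffffffffffffffffffffffffffffffffffffffffffffffffffffffffffffffffffffffffffffffffffffffffffffffffffffffffffffffffffffffffffffffffffffffffffffffffffffffffffffffffffffffffffffffffffffffffffffffffffffffffffffffffffffffffffffffffffffffffffffffffffff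

/-- digit 65280 at the slots below 72 -/
def hi : ℕ := nat_lit 0xff00ff00ff00ff00ff00ff00ff00ff00ff00ff00ff00ff00ff00ff00ff00ff00ff00ff00ff00ff00ff00ff00ff00ff00ff00ff00ff00ff00ff00ff00ff00ff00ff00ff00ff00ff00ff00ff00ff00ff00ff00ff00ff00ff00ff00ff00ff00ff00ff00ff00ff00ff00ff00ff00ff00ff00ff00ff00ff00ff00ff00ff00ff00ff00ff00ff00ff00ff00ff00ff00ff00ff00

/-- digit 32768 at the slots below 72 -/
def pat : ℕ := nat_lit 0x800080008000800080008000800080008000800080008000800080008000800080008000800080008000800080008000800080008000800080008000800080008000800080008000800080008000800080008000800080008000800080008000800080008000800080008000800080008000800080008000800080008000800080008000800080008000800080008000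

/-- B ^ 1296 - 1 -/
def lowA : ℕ := nat_lit 0xffffffffffffffffffffffffffffffffffffffffffffffffffffffffffffffffffffffffffffffffffffffffffffffffffffffffffffffffffffffffffffffffffffffffffffffffffffffffffffffffffffffffffffffffffffffffffffffffffffffffffffffffffffffffffffffffffffffffffffffffffffffffffffffffffffffffffffffffffffffffffffffffffffffffffffffffffffffffffffffffffffffffffffffffffffffffffffffffffffffffffffffffffffffffffffffffffffffffffffffffffffffffffffffffffffffffffffffffffffffffffffffffffffffffffffffffffffffffffffffffffffffffffffffffffffffffffffffffffffffffffffffffffffffffffffffffffffffffffffffffffffffffffffffffffffffffffffffffffffffffffffffffffffffffffffffffffffffffffffffffffffffffffffffffffffffffffffffffffffffffffffffffffffffffffffffffffffffffffffffffffffffffffffffffffffffffffffffffffffffffffffffffffffffffffffffffffffffffffffffffffffffffffffffffffffffffffffffffffffffffffffffffffffffffffffffffffffffffffffffffffffffffffffffffffffffffffffffffffffffffffffffffffffffffffffffffffffffffffffffffffffffffffffffffffffffffffffffff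ffffffffffffffffffffffffffffffffffffffffffffffffffffffffffffffffffffffffffffffffffffffffffffffffffffffffffffffffffffffffffffffffffffffffffffffffffffffffffffffffffffffffffffffffffffffffffffffffffffffffffffffffffffffffffffffffffffffffffffffffffffffffffffffffffffffffffffffffffffffffffffffffffffffffffffffffffffffffffffffffffffffffffffffffffffffffffffffffffffffffffffffffffffffffffffffffffffffffffffffffffffffffffffffffffffffffffffffffffffffffffffffffffffffffffffffffffffffffffffffffffffffffffffffffffffffffffffffffffffffffffffffffffffffffffffffffffffffffffffffffffffffffffffffffffffffffffffffffffffffffffffffffffffffffffffffffffffffffffffffffffffffffffffffffffffffffffffffffffffffffffffffffffffffffffffffffffffffffffffffffffffffffffffffffffffffffffffffffffffffffffffffffffffffffffffffffffffffffffffffffffffffffffffffffffffffffffffffffffffffffffffffffffffffffffffffffffffffffffffffffffffffffffffffffffffffffffffffffffffffffffffffffffffffffffffffffffffffffffffffffffffffffffffffffffffffffffffffffffffffffffffffffffffffffffffffffffffffffffffffff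ffffffffffffffffffffffffffffffffffffffffffffffffffffffffffffffffffffffffffffffffffffffffffffffffffffffffffffffffffffffffffffffffffffffffffffffffffffffffffffffffffffffffffffffffffffffffffffffffffffffffffffffffffffffffffffffffffffffffffffffffffffffffffffffffffffffffffffffffffffffffffffffffffffffffffffffffffffffffffffffffffffffffffffffffffffffffffffffffffffffffffffffffffffffffffffffffffffffffffffffffffffffffffffffffffffffffffffffffffffffffffffffffffffffffffffffffffffffffffffffffffffffffffffffffffffffffffffffffffffffffffffffffffffffffffffffffffffffffffffffffffffffffffffffffffffffffffffffffffffffffffffffffffffffffffffffffffffffffffffffffffffffffffffffffffffffffffffffffffffffffffffffffffffffffffffffffffffffffffffffffffffffffffffffffffffffffffffffffffffffffffffffffffffffffffffffffffffffffffffffffffffffffffffffffffffffffffffffffffffffffffffffffffffffffffffffffffffffffffffffffffffffffffffffffffffffffffffffffffffffffffffffffffffffffffffffffffffffffffffffffffffffffffffffffffffffffffffffffffffffffffffffffffffffffffffffffffffffffffffffff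ffffffffffffffffffffffffffffffffffffffffffffffffffffffffffffffffffffffffffffffffffffffffffffffffffffffffffffffffffffffffffffffffffffffffffffffffffffffffffffffffffffffffffffffffffffffffffffffffffffffffffffffffffffffffffffffffffffffffffffffffffffffffffffffffffffffffffffffffffffffffffffffffffffffffffffffffffffffffffffffffffffffffffffffffffffffffffffffffffffffffffffffffffffffffffffffffffffffffffffffffffffffffffffffffffffffffffffffffffffffffffffffffffffffffffffffffffffffffffffffffffffffffffffffffffffffffffffffffffffffffffffffffffffffffffffffffffffffffffffffffffffffffffffffffffffffffffffffffffffffffffffffffffffffffffffffffffffffffffffffffffffffffffffffffffffffffffffffffffffffffffffffffffffffffffffffffffffffffffffffffffffffffffffffffffffffffffffffffffffffffffffffffffffffffffffffffffffffffffffffffffffffffffffffffffffffffffffffffffffffffffffffffffffffffffffffffffffffffffffffffffffffffffffffffffffffffffffffffffffffffffffffffffffffffffffffffffffffffffffffffffffffffffffffffffffffffffffffffffffffffffffffffffffffffffffffffffffffffffffffff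ffffffffffffffffffffffffffffffffffffffffffffffffffffffffffffffffffffffffffffffffffffffffffffffffffffffffffffffffffffffffffffffffffffffffffffffffffffffffffffffffffffffffffffffffffffffffffffffffffffffffffffffffffffffffffffffffffffffffffffffffffffffffffffffffffffffffffffffffffffffffffffffffffffffffffffffffffffffffffffffffffffffffffffffffffffffffffffffffffffffffffffffffffffffffffffffffffffffffffffffffffffffffffffffffffffffffffffffffffffffffffffffffffffffffffffffffffffffffffffffffffffffffffffffffffffffffffffffffffffffffffffffffffffffffffffffffffffffffffffffffffffffffffffffffffffffffffffffffffffffffffffffffffffffffffffffffffffffffffffffffffffffffffffffffffffffffffffffffffffffffffffffffffffffffffffffffffffffffffffffffffffffffffffffffffffffffffffffffffffffffffffffffffffffffffffffffffffffffffffffffffffffffffffffffffffffffffffffffffffffffffffffffffffffffffffffffffffffffffffffffffffffffffffffffffffffffffffffffffffffffffffffffffffffffffffffffffffffffffffffffffffffffffffffffffffffffffffffffffffffffffffffffffffffffffffffffffffffffffffffffffffffffffffffffffffffffffffffff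

/-- real part of the identity state -/
def idr : ℕ := nat_lit 0x8000810080008000800080008000800080008000800081008000800080008000800080008000800080008100800080008000800080008000800080008000810080008000800080008000800080008000800081008000800080008000800080008000800080008100800080008000800080008000800080008000810080008000800080008000800080008000800081

/-- imaginary part of the identity state -/
def idi : ℕ := nat_lit 0x8000800080008000800080008000800080008000800080008000800080008000800080008000800080008000800080008000800080008000800080008000800080008000800080008000800080008000800080008000800080008000800080008000800080008000800080008000800080008000800080008000800080008000800080008000800080008000800080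

/-- digit 65535 at the slots 9 k + j, j < 8, k < 8 -/
def keep : ℕ := nat_lit 0xffffffffffffffffffffffffffffffff0000ffffffffffffffffffffffffffffffff0000ffffffffffffffffffffffffffffffff0000ffffffffffffffffffffffffffffffff0000ffffffffffffffffffffffffffffffff0000ffffffffffffffffffffffffffffffff0000ffffffffffffffffffffffffffffffff0000ffffffffffffffffffffffffffffffff

/-- digit 128 at the slots 9 k + 8, k < 8 -/
def col128 : ℕ := nat_lit 0x8000000000000000000000000000000000008000000000000000000000000000000000008000000000000000000000000000000000008000000000000000000000000000000000008000000000000000000000000000000000008000000000000000000000000000000000008000000000000000000000000000000000008000000000000000000000000000000000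

/-- digit 120 at the slots below 72 -/
def o120 : ℕ := nat_lit 0x7800780078007800780078007800780078007800780078007800780078007800780078007800780078007800780078007800780078007800780078007800780078007800780078007800780078007800780078007800780078007800780078007800780078007800780078007800780078007800780078007800780078007800780078007800780078007800780078

/-- digit 256 at the slots below 72 -/
def o256 : ℕ := nat_lit 0x10001000100010001000100010001000100010001000100010001000100010001000100010001000100010001000100010001000100010001000100010001000100010001000100010001000100010001000100010001000100010001000100010001000100010001000100010001000100010001000100010001000100010001000100010001000100010001000100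

/-- sum over i < 8 of B ^ (9 + 161 i) -/
def mT : ℕ := nat_lit 0x1000000000000000000000000000000000000000000000000000000000000000000000000000000000000000000000000000000000000000000000000000000000000000000000000000000000000000000000000000000000000000000000000000000000000000000000000000000000000000000000000000000000000000000000000000000000000000000000000000000000000000000000000000000000000000000000000000000000000000000000000000000000000000000000000000000000000000000000000000000000000000000000000000000000000000000000000000000000000000000000000000000000000000000000000000000000000000000000000000000000000000000000000000000000000000000000000000000000000000000000000000000000000000000000000000000000000000000010000000000000000000000000000000000000000000000000000000000000000000000000000000000000000000000000000000000000000000000000000000000000000000000000000000000000000000000000000000000000000000000000000000000000000000000000000000000000000000000000000000000000000000000000000000000000000000000000000000000000000000000000000000000000000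00000000000000000000000000000000000000000000000000000000000000000000000000000000000000000000000000000000000000000000000000000000000000000000000000000000000000000000000000000000000000000000000000000000000000000000000000000000000000000000000000000000000000000000000000000000000000000000000000000000000000000000000000010000000000000000000000000000000000000000000000000000000000000000000000000000000000000000000000000000000000000000000000000000000000000000000000000000000000000000000000000000000000000000000000000000000000000000000000000000000000000000000000000000000000000000000000000000000000000000000000000000000000000000000000000000000000000000000000000000000000000000000000000000000000000000000000000000000000000000000000000000000000000000000000000000000000000000000000000000000000000000000000000000000000000000000000000000000000000000000000000000000000000000000000000000000000000000000000000000000000000000000000000000000000000000000000000000000000000000000100000000000000000000000000000000000000000000000000000000000000000000000000000000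00000000000000000000000000000000000000000000000000000000000000000000000000000000000000000000000000000000000000000000000000000000000000000000000000000000000000000000000000000000000000000000000000000000000000000000000000000000000000000000000000000000000000000000000000000000000000000000000000000000000000000000000000000000000000000000000000000000000000000000000000000000000000000000000000000000000000000000000000000000000000000000000000000000000000000000000000000000000000000000000000000000000000000000000000000000000000000000000000000000000000000000000000000000000100000000000000000000000000000000000000000000000000000000000000000000000000000000000000000000000000000000000000000000000000000000000000000000000000000000000000000000000000000000000000000000000000000000000000000000000000000000000000000000000000000000000000000000000000000000000000000000000000000000000000000000000000000000000000000000000000000000000000000000000000000000000000000000000000000000000000000000000000000000000000000000000000000000000000000000000000000000000000000000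0000000000000000000000000000000000000000000000000000000000000000000000000000000000000000000000000000000000000000000000000000000000000000000000000000000000000000000000010000000000000000000000000000000000000000000000000000000000000000000000000000000000000000000000000000000000000000000000000000000000000000000000000000000000000000000000000000000000000000000000000000000000000000000000000000000000000000000000000000000000000000000000000000000000000000000000000000000000000000000000000000000000000000000000000000000000000000000000000000000000000000000000000000000000000000000000000000000000000000000000000000000000000000000000000000000000000000000000000000000000000000000000000000000000000000000000000000000000000000000000000000000000000000000000000000000000000000000000000000000000000000000000000000000000000000000100000000000000000000000000000000000000000000000000000000000000000000000000000000000000000000000000000000000000000000000000000000000000000000000000000000000000000000000000000000000000000000000000000000000000000000000000000000000000000000000000000000000000000000000000000000000000000000000000000000000000000000000000000000000000000000000000000000000000000000000000000000000000000000000000000000000000000000000000000000000000000000000000000000000000000000000000000000000000000000000000000000000000000000000000000000000000000000000000000000000000000000000000000000000000000000000000000000000000000000000000000000000000000000000000000000000000000001000000000000000000000000000000000000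

/-- digit 8 at the slots 162 i, i < 16 -/
def off8 : ℕ := nat_lit 0x8000000000000000000000000000000000000000000000000000000000000000000000000000000000000000000000000000000000000000000000000000000000000000000000000000000000000000000000000000000000000000000000000000000000000000000000000000000000000000000000000000000000000000000000000000000000000000000000000000000000000000000000000000000000000000000000000000000000000000000000000000000000000000000000000000000000000000000000000000000000000000000000000000000000000000000000000000000000000000000000000000000000000000000000000000000000000000000000000000000000000000000000000000000000000000000000000000000000000000000000000000000000000000000000000000000000000000000000008000000000000000000000000000000000000000000000000000000000000000000000000000000000000000000000000000000000000000000000000000000000000000000000000000000000000000000000000000000000000000000000000000000000000000000000000000000000000000000000000000000000000000000000000000000000000000000000000000000000000000000000000000000000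00000000000000000000000000000000000000000000000000000000000000000000000000000000000000000000000000000000000000000000000000000000000000000000000000000000000000000000000000000000000000000000000000000000000000000000000000000000000000000000000000000000000000000000000000000000000000000000000000000000000000000000000000000000000000800000000000000000000000000000000000000000000000000000000000000000000000000000000000000000000000000000000000000000000000000000000000000000000000000000000000000000000000000000000000000000000000000000000000000000000000000000000000000000000000000000000000000000000000000000000000000000000000000000000000000000000000000000000000000000000000000000000000000000000000000000000000000000000000000000000000000000000000000000000000000000000000000000000000000000000000000000000000000000000000000000000000000000000000000000000000000000000000000000000000000000000000000000000000000000000000000000000000000000000000000000000000000000000000000000000000000000000000800000000000000000000000000000000000000000000000000000000000000000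00000000000000000000000000000000000000000000000000000000000000000000000000000000000000000000000000000000000000000000000000000000000000000000000000000000000000000000000000000000000000000000000000000000000000000000000000000000000000000000000000000000000000000000000000000000000000000000000000000000000000000000000000000000000000000000000000000000000000000000000000000000000000000000000000000000000000000000000000000000000000000000000000000000000000000000000000000000000000000000000000000000000000000000000000000000000000000000000000000000000000000000000000000000000000000000000000000080000000000000000000000000000000000000000000000000000000000000000000000000000000000000000000000000000000000000000000000000000000000000000000000000000000000000000000000000000000000000000000000000000000000000000000000000000000000000000000000000000000000000000000000000000000000000000000000000000000000000000000000000000000000000000000000000000000000000000000000000000000000000000000000000000000000000000000000000000000000000000000000000000000000000000000000000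00000000000000000000000000000000000000000000000000000000000000000000000000000000000000000000000000000000000000000000000000000000000000000000000000000000000000000000000000000000000000000000008000000000000000000000000000000000000000000000000000000000000000000000000000000000000000000000000000000000000000000000000000000000000000000000000000000000000000000000000000000000000000000000000000000000000000000000000000000000000000000000000000000000000000000000000000000000000000000000000000000000000000000000000000000000000000000000000000000000000000000000000000000000000000000000000000000000000000000000000000000000000000000000000000000000000000000000000000000000000000000000000000000000000000000000000000000000000000000000000000000000000000000000000000000000000000000000000000000000000000000000000000000000000000000000000000000000000000000000008000000000000000000000000000000000000000000000000000000000000000000000000000000000000000000000000000000000000000000000000000000000000000000000000000000000000000000000000000000000000000000000000000000000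00000000000000000000000000000000000000000000000000000000000000000000000000000000000000000000000000000000000000000000000000000000000000000000000000000000000000000000000000000000000000000000000000000000000000000000000000000000000000000000000000000000000000000000000000000000000000000000000000000000000000000000000000000000000000000000000000000000000000000000000000000000000000000000000000000000000000000000000000000000000000000000000000000000000000800000000000000000000000000000000000000000000000000000000000000000000000000000000000000000000000000000000000000000000000000000000000000000000000000000000000000000000000000000000000000000000000000000000000000000000000000000000000000000000000000000000000000000000000000000000000000000000000000000000000000000000000000000000000000000000000000000000000000000000000000000000000000000000000000000000000000000000000000000000000000000000000000000000000000000000000000000000000000000000000000000000000000000000000000000000000000000000000000000000000000000000000000000000000000000000000000000000000000000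00000000000000000000000000000000000000000000000000000080000000000000000000000000000000000000000000000000000000000000000000000000000000000000000000000000000000000000000000000000000000000000000000000000000000000000000000000000000000000000000000000000000000000000000000000000000000000000000000000000000000000000000000000000000000000000000000000000000000000000000000000000000000000000000000000000000000000000000000000000000000000000000000000000000000000000000000000000000000000000000000000000000000000000000000000000000000000000000000000000000000000000000000000000000000000000000000000000000000000000000000000000000000000000000000000000000000000000000000000000000000000000000000000000000000000000000000000080000000000000000000000000000000000000000000000000000000000000000000000000000000000000000000000000000000000000000000000000000000000000000000000000000000000000000000000000000000000000000000000000000000000000000000000000000000000000000000000000000000000000000000000000000000000000000000000000000000000000000000000000000000000000000000000000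00000000000000000000000000000000000000000000000000000000000000000000000000000000000000000000000000000000000000000000000000000000000000000000000000000000000000000000000000000000000000000000000000000000000000000000000000000000000000000000000000000000000000000000000000000000000000000000000000000000000000000000008000000000000000000000000000000000000000000000000000000000000000000000000000000000000000000000000000000000000000000000000000000000000000000000000000000000000000000000000000000000000000000000000000000000000000000000000000000000000000000000000000000000000000000000000000000000000000000000000000000000000000000000000000000000000000000000000000000000000000000000000000000000000000000000000000000000000000000000000000000000000000000000000000000000000000000000000000000000000000000000000000000000000000000000000000000000000000000000000000000000000000000000000000000000000000000000000000000000000000000000000000000000000000000000000000000000000000000000008000000000000000000000000000000000000000000000000000000000000000000000000000000000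00000000000000000000000000000000000000000000000000000000000000000000000000000000000000000000000000000000000000000000000000000000000000000000000000000000000000000000000000000000000000000000000000000000000000000000000000000000000000000000000000000000000000000000000000000000000000000000000000000000000000000000000000000000000000000000000000000000000000000000000000000000000000000000000000000000000000000000000000000000000000000000000000000000000000000000000000000000000000000000000000000000000000000000000000000000000000000000000000000000000000000000000000000000000000800000000000000000000000000000000000000000000000000000000000000000000000000000000000000000000000000000000000000000000000000000000000000000000000000000000000000000000000000000000000000000000000000000000000000000000000000000000000000000000000000000000000000000000000000000000000000000000000000000000000000000000000000000000000000000000000000000000000000000000000000000000000000000000000000000000000000000000000000000000000000000000000000000000000000000000000000000000000000000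0000000000000000000000000000000000000000000000000000000000000000000000000000000000000000000000000000000000000000000000000000000000000000000000000000000000000000000000000000008000000000000000000000000000000000000000000000000000000000000000000000000000000000000000000000000000000000000000000000000000000000000000000000000000000000000000000000000000000000000000000000000000000000000000000000000000000000000000000000000000000000000000000000000000000000000000000000000000000000000000000000000000000000000000000000000000000000000000000000000000000000000000000000000000000000000000000000000000000000000000000000000000000000000000000000000000000000000000000000000000000000000000000000000000000000000000000000000000000000000000000000000000000000000000000000000000000000000000000000000000000000000000000000000000000000000000000000008000000000000000000000000000000000000000000000000000000000000000000000000000000000000000000000000000000000000000000000000000000000000000000000000000000000000000000000000000000000000000000000000000000000000000000000000000000000000000000000000000000000000000000000000000000000000000000000000000000000000000000000000000000000000000000000000000000000000000000000000000000000000000000000000000000000000000000000000000000000000000000000000000000000000000000000000000000000000000000000000000000000000000000000000000000000000000000000000000000000000000000000000000000000000000000000000000000000000000000000000000000000000000000000000000000000000000000000008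

/-- 2 ^ 584 - 1 -/
def m584 : ℕ := nat_lit 0xffffffffffffffffffffffffffffffffffffffffffffffffffffffffffffffffffffffffffffffffffffffffffffffffffffffffffffffffffffffffffffffffffffffffffffffffff


/-- the translation lattice -/
abbrev V : Type := Fin 8 → GaussianInt

/-- the fibre -/
abbrev Xf : Type := Fin 28 × V

/-- the digit in the slot `s` -/
def dig (y s : ℕ) : ℕ := y / 2 ^ (16 * s) % 2 ^ 16

/-- the entries of a spread code -/
def entA (y : ℕ) (i : Fin 8) (k : Fin 9) : GaussianInt :=
  ⟨(dig y (9 * (8 - k.val) + 162 * i.val) : ℤ) - 8,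
    (dig y (9 * (8 - k.val) + 162 * (i.val + 8)) : ℤ) - 8⟩

/-- the entries of a state -/
def entB (r m : ℕ) (k : Fin 8) (j : Fin 9) : GaussianInt :=
  ⟨(dig r (9 * k.val + j.val) : ℤ) - 128, (dig m (9 * k.val + j.val) : ℤ) - 128⟩

/-- a well formed half of a state -/
def OkB (r : ℕ) : Prop := r < 2 ^ (16 * 72) ∧ ∀ s < 72, dig r s ≤ 256

/-- the linear part of an 8 x 9 matrix -/
def lin (M : Fin 8 → Fin 9 → GaussianInt) (v : V) : V := fun i => ∑ k : Fin 8, M i k.castSucc * v k

/-- the affine map of an 8 x 9 matrix -/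
def act (M : Fin 8 → Fin 9 → GaussianInt) (v : V) : V := lin M v + fun i => M i (Fin.last 8)

/-- force a small number -/
noncomputable def frc (x : ℕ) (k : ℕ → Bool) : Bool :=
  Nat.rec (motive := fun _ => Bool) (k 0) (fun p _ => k (Nat.succ p)) x

theorem frc_eq (x : ℕ) (k : ℕ → Bool) : frc x k = k x := by cases x <;> rfl

/-- conjunction, lazy in the second argument -/
noncomputable def an (a b : Bool) : Bool := Bool.rec false b a

theorem an_eq (a b : Bool) : an a b = (a && b) := by cases a <;> rfl

/-- all elements of a list -/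
noncomputable def allL {α : Type} (l : List α) (f : α → Bool) : Bool :=
  List.rec true (fun x _ ih => an (f x) ih) l

theorem allL_eq {α : Type} (l : List α) (f : α → Bool) : allL l f = l.all f := by
  induction l with
  | nil => rfl
  | cons x l ih => change an (f x) (allL l f) = _; rw [an_eq, ih, List.all_cons]

/-- all numbers `b + i` with `i < n` -/
noncomputable def allN (b n : ℕ) (f : ℕ → Bool) : Bool :=
  Nat.rec (motive := fun _ => Bool) true (fun p ih => an (frc (Nat.add b p) f) ih) n

theorem allN_spec {b n : ℕ} {f : ℕ → Bool} (h : allN b n f = true) (i : ℕ) (hi : i < n) :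
    f (b + i) = true := by
  induction n with
  | zero => omega
  | succ n ih =>
    change an (frc (Nat.add b n) f) (allN b n f) = true at h
    rw [an_eq, Bool.and_eq_true, frc_eq] at h
    rcases Nat.lt_succ_iff_lt_or_eq.1 hi with h' | rfl
    exacts [ih h.2 h', h.1]

/-- spread a code -/
def spr (c : ℕ) : ℕ := Nat.land (Nat.mul (Nat.land (Nat.mul c m1) k1) m2) k2

/-- extract the wanted slots of a product -/
def ext (x : ℕ) : ℕ := Nat.mod (Nat.land (Nat.shiftRight x 1152) km) md

/-- the last part of a step: range check and continuation -/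
noncomputable def step4 (er ei : ℕ) (k : ℕ → ℕ → Bool) : Bool :=
  an (Nat.beq (Nat.land er hi) pat)
    (an (Nat.beq (Nat.land ei hi) pat) (k (Nat.sub er pat) (Nat.sub ei pat)))

/-- the four products -/
noncomputable def step3 (ar ai br bi : ℕ) (k : ℕ → ℕ → Bool) : Bool :=
  step4 (ext (Nat.sub (Nat.add bias (Nat.mul ar br)) (Nat.mul ai bi)))
    (ext (Nat.add (Nat.add bias (Nat.mul ar bi)) (Nat.mul ai br))) k

/-- multiply the state `(r, m)` by the spread code `y` -/
noncomputable def step2 (y r m : ℕ) (k : ℕ → ℕ → Bool) : Bool :=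
  step3 (Nat.add (Nat.land y lowA) cA) (Nat.add (Nat.shiftRight y 20736) cA) (Nat.add r cBr)
    (Nat.add m cBi) k

/-- the code of the arrow `a` at the index `θ` -/
def code (tab : ℕ → ℕ) (a θ : ℕ) : ℕ := Nat.land (Nat.shiftRight (tab a) (Nat.mul 584 θ)) m584

/-- the target index of a code -/
def tgt (c : ℕ) : ℕ := Nat.mod (Nat.shiftRight c 576) 28

theorem tgt_lt (c : ℕ) : tgt c < 28 := Nat.mod_lt _ (by norm_num)

/-- the map of the arrow `a` on the fibre -/
def fib (tab : ℕ → ℕ) (a : ℕ) (x : Xf) : Xf :=
  (⟨tgt (code tab a x.1.val), tgt_lt _⟩, act (entA (spr (code tab a x.1.val))) x.2)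

/-- a list of arrows, applied from left to right -/
def runOps (tab : ℕ → ℕ) (ops : List ℕ) (x : Xf) : Xf := ops.foldl (fun y a => fib tab a y) x

/-- evaluate a list of arrows on a state -/
noncomputable def evl (tab : ℕ → ℕ) (ops : List ℕ) (k : ℕ → ℕ → ℕ → Bool) : ℕ → ℕ → ℕ → Bool :=
  List.rec k (fun a _ ih θ r m => frc a fun a' =>
    step2 (spr (code tab a' θ)) r m fun r' m' => frc (tgt (code tab a' θ)) fun θ' => ih θ' r' m') ops

/-- two lists of arrows give the same map on the fibre over `θ` -/
noncomputable def eqChk (tab : ℕ → ℕ) (o1 o2 : List ℕ) (θ : ℕ) : Bool :=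
  evl tab o1 (fun θ1 r1 m1 => evl tab o2 (fun θ2 r2 m2 =>
    an (Nat.beq θ1 θ2) (an (Nat.beq r1 r2) (Nat.beq m1 m2))) θ idr idi) θ idr idi

/-- a list of arrows gives the map with state `(zr, zi)` on the fibre over `θ` -/
noncomputable def valChk (tab : ℕ → ℕ) (o : List ℕ) (θ zr zi : ℕ) : Bool :=
  evl tab o (fun θ1 r1 m1 => an (Nat.beq θ1 θ) (an (Nat.beq r1 zr) (Nat.beq m1 zi))) θ idr idi

/-- clear the translation column of half a state -/
def clr (r : ℕ) : ℕ := Nat.add (Nat.land r keep) col128

/-- the transposed matrix, with rows of the state reversed, as a spread code -/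
def trA (r m : ℕ) : ℕ :=
  Nat.land (Nat.add (Nat.add (Nat.mul (Nat.sub r o120) mT)
    (Nat.shiftLeft (Nat.mul (Nat.sub m o120) mT) 20736)) off8) k2

/-- the linear part of the code `c` preserves the hermitian form given by the code `hc` -/
noncomputable def herm (c hc zr zi : ℕ) : Bool :=
  step2 (spr c) idr idi fun r m => step2 (spr hc) (clr r) (clr m) fun yr ym =>
    step2 (trA (clr r) (clr m)) yr (Nat.sub o256 ym) fun wr wm =>
      an (Nat.beq wr zr) (Nat.beq wm zi)

/-- the hermitian matrix given by a code (rows reversed) -/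
def Hm (hc : ℕ) (k l : Fin 8) : GaussianInt := entA (spr hc) (Fin.rev k) l.castSucc

/-- the hermitian form given by a code -/
def Qf (hc : ℕ) (v : V) : GaussianInt := ∑ i : Fin 8, ∑ j : Fin 8, star (v i) * Hm hc i j * v j

/-- decode `n` digits in base 4096 -/
noncomputable def decL (n : ℕ) : ℕ → List ℕ :=
  Nat.rec (motive := fun _ => ℕ → List ℕ) (fun _ => [])
    (fun _ ih x => Nat.land x 4095 :: ih (Nat.shiftRight x 12)) n

/-- decode `n` cells: two lengths (six bits each), then the two lists of arrows -/
noncomputable def decC (n : ℕ) : ℕ → List (List ℕ × List ℕ) :=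
  Nat.rec (motive := fun _ => ℕ → List (List ℕ × List ℕ)) (fun _ => [])
    (fun _ ih x =>
      (decL (Nat.land x 63) (Nat.shiftRight x 12),
        decL (Nat.land (Nat.shiftRight x 6) 63)
          (Nat.shiftRight x (Nat.mul 12 (Nat.succ (Nat.land x 63))))) ::
      ih (Nat.shiftRight x
        (Nat.mul 12 (Nat.succ (Nat.add (Nat.land x 63) (Nat.land (Nat.shiftRight x 6) 63)))))) n

/-- decode a packed list of cells -/
noncomputable def decP (x : ℕ) : List (List ℕ × List ℕ) :=
  decC (Nat.land x 4095) (Nat.shiftRight x 12)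

/-- The data of a table.  Rooted words are indexed by `a = 16 c + j` (class `c`, rotation `j`); the
arrow `a` is the slide at this rooted word and the arrow `16 c + 15` is the isotropy map. -/
structure Data where
  tab : ℕ → ℕ
  per : ℕ → ℕ
  sl : ℕ → ℕ
  sli : ℕ → ℕ
  cwc : ℕ → List L
  pk : ℕ → ℕ
  hc : ℕ
  zr : ℕ
  zi : ℕ

namespace Data

variable (D : Data)

/-- valid indices -/
def okA (a : ℕ) : Bool := Nat.blt (a / 16) 131 && Nat.blt (a % 16) (D.per (a / 16))

/-- the word of an index -/
def cw (a : ℕ) : List L := (D.cwc (a / 16)).rotate (a % 16)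

/-- the index after `k` rotations -/
def rotI (a k : ℕ) : ℕ := 16 * (a / 16) + (a % 16 + k) % D.per (a / 16)

/-- the arrows used by `k` rotations -/
def rotO (a k : ℕ) : List ℕ :=
  if D.per (a / 16) = 12 then []
  else List.replicate ((a % 16 + k) / D.per (a / 16)) (16 * (a / 16) + 15)

/-- the index after a forward program -/
def prgI : ℕ → List (ℕ × Bool) → ℕ → ℕ
  | a, [], k => D.rotI a k
  | a, j :: js, k => prgI (D.sl (D.rotI a j.1)) js k

/-- the arrows used by a forward program -/
def prgO : ℕ → List (ℕ × Bool) → ℕ → List ℕ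
  | a, [], k => D.rotO a k
  | a, j :: js, k => D.rotO a j.1 ++ D.rotI a j.1 :: prgO (D.sl (D.rotI a j.1)) js k

/-- the checks at one rooted word that do not involve the fibre -/
def objA (a : ℕ) : Bool :=
  okShape (D.cw a) && D.okA (D.sl a) && (D.sli (D.sl a) == a) &&
    (shape (D.cw (D.sl a)) == shape (slide (D.cw a))) &&
    (progs (D.cw a)).all fun p =>
      p.1.1.all (fun j => j.2) && p.2.1.all (fun j => j.2) &&
        (D.prgI a p.1.1 p.1.2 == D.prgI a p.2.1 p.2.2)

/-- the cells at one rooted word as lists of arrows -/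
def cellsA (a : ℕ) : List (List ℕ × List ℕ) :=
  (progs (D.cw a)).map fun p => (D.prgO a p.1.1 p.1.2, D.prgO a p.2.1 p.2.2)

/-- the cells of a class: the order of the isotropy map, then the cells at its rooted words -/
def cellsC (c : ℕ) : List (List ℕ × List ℕ) :=
  (D.rotO (16 * c) 12, []) :: (List.range (D.per c)).flatMap fun j => D.cellsA (16 * c + j)

/-- the checks for one class that do not involve the fibre -/
noncomputable def objC (c : ℕ) : Bool :=
  Nat.blt 0 (D.per c) && (12 % D.per c == 0) &&
    (shape (D.cwc c) == shape ((D.cwc c).rotate (D.per c))) &&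
    (List.range (D.per c)).all (fun j => D.objA (16 * c + j)) && (decP (D.pk c) == D.cellsC c)

/-- the fibre checks for one class and one index -/
noncomputable def fibC (c θ : ℕ) : Bool :=
  an (allL (decP (D.pk c)) fun p => eqChk D.tab p.1 p.2 θ)
    (an (allN (Nat.mul 16 c) (D.per c) fun a => herm (code D.tab a θ) D.hc D.zr D.zi)
      (Bool.rec (frc (Nat.add (Nat.mul 16 c) 15) fun a => herm (code D.tab a θ) D.hc D.zr D.zi)
        true (Nat.beq (D.per c) 12)))

/-- all checks -/
structure Ok : Prop where
  obj : ∀ c < 131, D.objC c = true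
  fibr : ∀ c < 131, ∀ θ < 28, D.fibC c θ = true
  hz : ∀ i j : Fin 8, entB D.zr D.zi i j.castSucc = star (Hm D.hc i j)
  qfin : ∀ n : ℤ, {v : V | (Qf D.hc v).re = n}.Finite
  qzero : ∀ v : V, (Qf D.hc v).re = 0 → v = 0

/-- the total space -/
abbrev Xc : Type := {a : ℕ // D.okA a = true} × Xf

end Data

/-- a permutation of `ι × V` that is fibrewise affine and preserves `Q` -/
def IsAff {ι : Type} (Q : V → ℤ) (g : ι × V → ι × V) : Prop :=
  ∀ i, ∃ (i' : ι) (M : V →+ V) (b : V), (∀ v, Q (M v) = Q v) ∧ ∀ v, g (i, v) = (i', M v + b)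

end Pool.Agent.MP_61a8e3_al.T

end

section

/-! Part T: digits in base `2 ^ 16`. -/

set_option autoImplicit false

namespace Pool.Agent.MP_61a8e3_al.T

theorem dig_lt (y s : ℕ) : dig y s < 2 ^ 16 := Nat.mod_lt _ (by norm_num)

theorem dig_zero_TDig (y : ℕ) : dig y 0 = y % 2 ^ 16 := by simp [dig]

theorem dig_div_TDig (y j s : ℕ) : dig (y / 2 ^ (16 * j)) s = dig y (s + j) := by
  unfold dig
  rw [Nat.div_div_eq_div_mul, ← pow_add, ← mul_add, add_comm j]

theorem dig_succ_TDig (y s : ℕ) : dig y (s + 1) = dig (y / 2 ^ 16) s := by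
  rw [← dig_div_TDig, mul_one]

theorem dig_mod_TDig (y m s : ℕ) (hs : s < m) : dig (y % 2 ^ (16 * m)) s = dig y s := by
  unfold dig
  obtain ⟨c, rfl⟩ := Nat.exists_eq_add_of_lt hs
  rw [show 16 * (s + c + 1) = 16 * s + (16 + 16 * c) by ring, pow_add,
    Nat.mod_mul_right_div_self, pow_add, Nat.mod_mul_right_mod]

theorem zero_TDig {x n s : ℕ} (h : x < 2 ^ (16 * n)) (hs : n ≤ s) : dig x s = 0 := by
  unfold dig
  rw [Nat.div_eq_of_lt (lt_of_lt_of_le h (Nat.pow_le_pow_right (by norm_num) (by omega))),
    Nat.zero_mod]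

theorem big_TDig {x n : ℕ} (h : x ≤ n) : x < 2 ^ (16 * n) :=
  lt_of_lt_of_le Nat.lt_two_pow_self (Nat.pow_le_pow_right (by norm_num) (by omega))

theorem mod_sum_TDig (n y : ℕ) :
    ∑ s ∈ Finset.range n, dig y s * 2 ^ (16 * s) = y % 2 ^ (16 * n) := by
  induction n with
  | zero => simp [Nat.mod_one]
  | succ n ih =>
    rw [Finset.sum_range_succ, ih, mul_add, pow_add, Nat.mod_mul, mul_one, dig,
      mul_comm (2 ^ (16 * n))]

theorem sum_lt_TDig (n : ℕ) (d : ℕ → ℕ) (h : ∀ s < n, d s < 2 ^ 16) :
    ∑ t ∈ Finset.range n, d t * 2 ^ (16 * t) < 2 ^ (16 * n) := by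
  induction n with
  | zero => simp
  | succ n ih =>
    have h1 := ih fun s hs => h s (by omega)
    have h2 : (d n + 1) * 2 ^ (16 * n) ≤ 2 ^ 16 * 2 ^ (16 * n) :=
      Nat.mul_le_mul_right _ (h n (by omega))
    rw [Finset.sum_range_succ, mul_add, pow_add, mul_one, mul_comm (2 ^ (16 * n))]
    rw [add_mul, one_mul] at h2
    omega

/-- a number is the sum of its digits -/
theorem eq_sum_dig (n y : ℕ) (h : y < 2 ^ (16 * n)) :
    y = ∑ s ∈ Finset.range n, dig y s * 2 ^ (16 * s) := by
  rw [mod_sum_TDig, Nat.mod_eq_of_lt h]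

/-- the digits of a sum with small coefficients -/
theorem dig_sum (n : ℕ) (d : ℕ → ℕ) (h : ∀ s < n, d s < 2 ^ 16) (s : ℕ) :
    dig (∑ t ∈ Finset.range n, d t * 2 ^ (16 * t)) s = if s < n then d s else 0 := by
  induction n with
  | zero => simp [dig]
  | succ n ih =>
    have h1 : ∀ s < n, d s < 2 ^ 16 := fun s hs => h s (by omega)
    have h2 := sum_lt_TDig n d h1
    rcases lt_trichotomy s n with hs | rfl | hs
    · rw [if_pos (by omega), ← dig_mod_TDig _ n s hs, Finset.sum_range_succ,
        Nat.add_mul_mod_self_right, dig_mod_TDig _ n s hs, ih h1, if_pos hs]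
    · rw [if_pos (by omega), Finset.sum_range_succ, dig,
        Nat.add_mul_div_right _ _ (by positivity), Nat.div_eq_of_lt h2, zero_add,
        Nat.mod_eq_of_lt (h s (by omega))]
    · rw [if_neg (by omega)]
      exact zero_TDig (sum_lt_TDig (n + 1) d h) (by omega)

theorem sum_lt (n : ℕ) (d : ℕ → ℕ) (h : ∀ s < n, d s < 2 ^ 16) :
    ∑ t ∈ Finset.range n, d t * 2 ^ (16 * t) < 2 ^ (16 * n) := by
  exact sum_lt_TDig n d h

theorem dig_land (x y s : ℕ) : dig (Nat.land x y) s = Nat.land (dig x s) (dig y s) := by
  refine Nat.eq_of_testBit_eq fun i => ?_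
  change (dig (x &&& y) s).testBit i = (dig x s &&& dig y s).testBit i
  unfold dig
  simp only [Nat.testBit_and, Nat.testBit_mod_two_pow, Nat.testBit_div_two_pow]
  cases decide (i < 16) <;> simp

theorem dig_shiftRight (x j s : ℕ) : dig (Nat.shiftRight x (16 * j)) s = dig x (s + j) := by
  change dig (x >>> (16 * j)) s = _
  rw [Nat.shiftRight_eq_div_pow, dig_div_TDig]

theorem dig_ext {x y : ℕ} (h : ∀ s, dig x s = dig y s) : x = y := by
  refine (eq_sum_dig (x + y) x (big_TDig (by omega))).trans
    (Eq.trans ?_ (eq_sum_dig (x + y) y (big_TDig (by omega))).symm)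
  exact Finset.sum_congr rfl fun s _ => by rw [h s]

theorem dig_add (x y : ℕ) (h : ∀ s, dig x s + dig y s < 2 ^ 16) (s : ℕ) :
    dig (x + y) s = dig x s + dig y s := by
  induction s generalizing x y with
  | zero =>
    have h0 := h 0
    rw [dig_zero_TDig, dig_zero_TDig] at h0
    rw [dig_zero_TDig, dig_zero_TDig, dig_zero_TDig, Nat.add_mod, Nat.mod_eq_of_lt h0]
  | succ s ih =>
    have h0 := h 0
    rw [dig_zero_TDig, dig_zero_TDig] at h0
    rw [dig_succ_TDig, dig_succ_TDig, dig_succ_TDig, Nat.add_div_eq_of_add_mod_lt h0]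
    refine ih _ _ fun j => ?_
    rw [← dig_succ_TDig, ← dig_succ_TDig]
    exact h _

theorem dig_sub (x y : ℕ) (h : ∀ s, dig y s ≤ dig x s) (s : ℕ) :
    dig (x - y) s = dig x s - dig y s := by
  have h1 : ∀ t, dig (∑ t ∈ Finset.range x, (dig x t - dig y t) * 2 ^ (16 * t)) t =
      dig x t - dig y t := fun t => by
    rw [dig_sum x _ fun t _ => lt_of_le_of_lt (Nat.sub_le _ _) (dig_lt x t)]
    split_ifs with h2
    · rfl
    · rw [zero_TDig (big_TDig (le_refl x)) (not_lt.1 h2), Nat.zero_sub]
  generalize ∑ t ∈ Finset.range x, (dig x t - dig y t) * 2 ^ (16 * t) = z at h1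
  have h2 : y + z = x := dig_ext fun t => by
    have h3 := h t
    rw [dig_add y z (fun u => by
      have h4 := h u
      have h5 := dig_lt x u
      rw [h1]
      omega), h1]
    omega
  rw [← h1, show x - y = z by omega]

theorem dig_eq_zero_of_lt {x n s : ℕ} (h : x < 2 ^ (16 * n)) (hs : n ≤ s) : dig x s = 0 := by
  exact zero_TDig h hs

theorem lt_of_dig_eq_zero {x n : ℕ} (h : ∀ s, n ≤ s → dig x s = 0) : x < 2 ^ (16 * n) := by
  have h1 : x / 2 ^ (16 * n) = 0 := dig_ext fun s => by
    rw [dig_div_TDig, h _ (by omega)]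
    simp [dig]
  exact (Nat.div_eq_zero_iff_lt (by positivity)).1 h1

theorem okB_idr : OkB idr := by
  unfold OkB
  decide +kernel

theorem okB_idi : OkB idi := by
  unfold OkB
  decide +kernel

theorem entB_id (k : Fin 8) (j : Fin 9) :
    entB idr idi k j = if j = k.castSucc then 1 else 0 := by
  revert k j
  decide +kernel

theorem act_id (v : V) : act (entB idr idi) v = v := by
  funext i
  simp only [act, lin, entB_id, Pi.add_apply, Fin.castSucc_inj]
  rw [if_neg (Fin.castSucc_lt_last i).ne', add_zero, Finset.sum_eq_single i]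
  · simp
  · intro b _ hb
    rw [if_neg hb, zero_mul]
  · simp

end Pool.Agent.MP_61a8e3_al.T

end

section

/-! Part T: soundness of one multiplication step. -/

set_option autoImplicit false

namespace Pool.Agent.MP_61a8e3_al.T

open Finset

theorem k2_dig_TStep :
    ∀ s < 2592, dig k2 s = if s % 162 % 9 = 0 ∧ s % 162 < 81 then 15 else 0 := by decide +kernel

theorem k2_lt_TStep : k2 < 2 ^ (16 * 2592) := by decide +kernel

theorem km_dig_TStep : ∀ s < 1296, dig km s = if s % 162 < 9 then 65535 else 0 := by
  decide +kernel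

theorem km_lt_TStep : km < 2 ^ (16 * 1296) := by decide +kernel

theorem hi_dig_TStep : ∀ s < 72, dig hi s = 65280 ∧ dig pat s = 32768 := by decide +kernel

theorem pat_lt_TStep : pat < 2 ^ (16 * 72) := by decide +kernel

theorem lowA_dig_TStep : ∀ s < 1296, dig lowA s = 65535 := by decide +kernel

theorem lowA_lt_TStep : lowA < 2 ^ (16 * 1296) := by decide +kernel

theorem md_TStep : md + 1 = 2 ^ (16 * 153) ∧ 2 ^ (16 * 72) < md := by decide +kernel

theorem cA_TStep : cA + ∑ i ∈ range 8, ∑ k ∈ range 9, 8 * 2 ^ (16 * (162 * i + 9 * k)) =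
    2 ^ (16 * (162 * 8 + 9 * 0)) := by decide +kernel

theorem cBr_TStep : cBr + ∑ l ∈ range 8, ∑ j ∈ range 9, 128 * 2 ^ (16 * (9 * l + j)) =
    1 * 2 ^ (16 * (9 * 8 + 8)) + 2 ^ (16 * (9 * 9 + 0)) := by decide +kernel

theorem cBi_TStep : cBi + ∑ l ∈ range 8, ∑ j ∈ range 9, 128 * 2 ^ (16 * (9 * l + j)) =
    0 * 2 ^ (16 * (9 * 8 + 8)) + 2 ^ (16 * (9 * 9 + 0)) := by decide +kernel

theorem bias_TStep : bias = ∑ s ∈ range 1458, 32896 * 2 ^ (16 * s) := by decide +kernel

theorem sum_mul_TStep {M : Type} [AddCommMonoid M] (m n : ℕ) (f : ℕ → M) :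
    ∑ s ∈ range (n * m), f s = ∑ i ∈ range m, ∑ t ∈ range n, f (n * i + t) := by
  induction m with
  | zero => simp
  | succ m ih => rw [Nat.mul_succ, sum_range_add, ih, sum_range_succ]

theorem land_full_TStep (y s : ℕ) : Nat.land (dig y s) 65535 = dig y s :=
  (Nat.and_two_pow_sub_one_eq_mod (dig y s) 16).trans (Nat.mod_eq_of_lt (dig_lt y s))

theorem land_zero_TStep (x : ℕ) : Nat.land x 0 = 0 := Nat.and_zero x

theorem land_hi_TStep {x : ℕ} (hx : x < 2 ^ 16) (h : Nat.land x 65280 = 32768) :
    32768 ≤ x ∧ x < 33024 := by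
  have h1 : (x &&& 65280) >>> 8 = 128 := by rw [show x &&& 65280 = 32768 from h]; rfl
  rw [Nat.shiftRight_and_distrib, show 65280 >>> 8 = 2 ^ 8 - 1 from rfl,
    Nat.and_two_pow_sub_one_eq_mod, Nat.shiftRight_eq_div_pow] at h1
  omega

/-- the coefficients of a product -/
def cv_TStep (a b : ℕ → ℕ → ℤ) (s : ℕ) : ℤ :=
  ∑ k ∈ range 9, if k ≤ s % 162 / 9 ∧ s % 162 / 9 - k < 10 then
    a (s / 162) k * b (s % 162 / 9 - k) (s % 9) else 0

theorem cv_le_TStep {a b : ℕ → ℕ → ℤ} (ha : ∀ i k, |a i k| ≤ 8) (hb : ∀ l j, |b l j| ≤ 128)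
    (s : ℕ) : |cv_TStep a b s| ≤ 9216 := by
  refine (abs_sum_le_sum_abs _ _).trans ((sum_le_card_nsmul _ _ 1024 fun k _ => ?_).trans (by simp))
  split_ifs
  · rw [abs_mul]
    exact (mul_le_mul (ha _ _) (hb _ _) (abs_nonneg _) (by norm_num)).trans (by norm_num)
  · simp

theorem conv_TStep (B : ℤ) (a b : ℕ → ℕ → ℤ) :
    (∑ i ∈ range 9, ∑ k ∈ range 9, a i k * B ^ (162 * i + 9 * k)) *
      (∑ l ∈ range 10, ∑ j ∈ range 9, b l j * B ^ (9 * l + j)) =
      ∑ s ∈ range 1458, cv_TStep a b s * B ^ s := by
  rw [show 1458 = 162 * 9 from rfl, sum_mul_TStep, sum_mul]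
  refine sum_congr rfl fun i _ => ?_
  rw [show range 162 = range (9 * 18) from rfl, sum_mul_TStep]
  have e : ∀ u ∈ range 18, ∀ j ∈ range 9, cv_TStep a b (162 * i + (9 * u + j)) =
      ∑ k ∈ range 9, if k ≤ u ∧ u - k < 10 then a i k * b (u - k) j else 0 := fun u hu j hj => by
    rw [mem_range] at hu hj
    rw [cv_TStep, show (162 * i + (9 * u + j)) % 162 / 9 = u by omega,
      show (162 * i + (9 * u + j)) / 162 = i by omega,
      show (162 * i + (9 * u + j)) % 9 = j by omega]
  have e' : ∑ u ∈ range 18, ∑ j ∈ range 9,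
      cv_TStep a b (162 * i + (9 * u + j)) * B ^ (162 * i + (9 * u + j)) =
      ∑ k ∈ range 9, ∑ u ∈ range 18, ∑ j ∈ range 9,
        (if k ≤ u ∧ u - k < 10 then a i k * b (u - k) j else 0) * B ^ (162 * i + (9 * u + j)) := by
    rw [sum_comm (s := range 9)]
    refine sum_congr rfl fun u hu => ?_
    rw [sum_comm]
    exact sum_congr rfl fun j hj => by rw [e u hu j hj, sum_mul]
  rw [e', sum_mul]
  refine sum_congr rfl fun k hk => ?_
  rw [mem_range] at hk
  rw [mul_sum, ← sum_filter_of_ne (s := range 18) (p := fun u => k ≤ u ∧ u - k < 10)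
    fun u _ hu => by
      by_contra hc
      exact hu (sum_eq_zero fun j _ => by rw [if_neg hc, zero_mul])]
  refine sum_nbij' (fun l => k + l) (fun u => u - k) (fun l hl => ?_) (fun u hu => ?_)
    (fun l _ => by simp) (fun u hu => ?_) fun l hl => ?_
  · simp only [mem_range, mem_filter] at hl ⊢; omega
  · simp only [mem_range, mem_filter] at hu ⊢; omega
  · simp only [mem_range, mem_filter] at hu ⊢; omega
  · rw [mem_range] at hl
    rw [mul_sum]
    refine sum_congr rfl fun j _ => ?_
    rw [if_pos (by omega), Nat.add_sub_cancel_left]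
    ring

theorem cv_at_TStep (a b : ℕ → ℕ → ℤ) {i j : ℕ} (hj : j < 9) :
    cv_TStep a b (162 * i + j + 72) = ∑ l : Fin 8, a i (8 - l) * b l j + a i 0 * b 8 j := by
  rw [cv_TStep, show (162 * i + j + 72) % 162 / 9 = 8 by omega,
    show (162 * i + j + 72) / 162 = i by omega, show (162 * i + j + 72) % 9 = j by omega]
  simp [sum_range_succ, Fin.sum_univ_eight]
  ring

/-- the rows of half a spread code -/
def ra_TStep (w i k : ℕ) : ℤ :=
  if i < 8 then (if k < 9 then (dig w (162 * i + 9 * k) : ℤ) - 8 else 0) else if k = 0 then 1 else 0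

/-- the rows of half a state -/
def rb_TStep (r e l j : ℕ) : ℤ :=
  if l < 8 then (if j < 9 then (dig r (9 * l + j) : ℤ) - 128 else 0)
  else if l = 8 then (if j = 8 then e else 0) else if j = 0 then 1 else 0

theorem ra_le_TStep {w : ℕ} (hw : ∀ s, dig w s ≤ 15) (i k : ℕ) : |ra_TStep w i k| ≤ 8 := by
  have := hw (162 * i + 9 * k)
  unfold ra_TStep
  split_ifs <;> rw [abs_le] <;> omega

theorem rb_le_TStep {r e : ℕ} (hr : OkB r) (he : e ≤ 1) (l j : ℕ) : |rb_TStep r e l j| ≤ 128 := by
  have := hr.2 (9 * l + j)
  unfold rb_TStep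
  split_ifs <;> rw [abs_le] <;> omega

theorem ra_val_TStep {w : ℕ} (h1 : ∀ s, 1296 ≤ s → dig w s = 0)
    (h2 : ∀ s, ¬(s % 162 % 9 = 0 ∧ s % 162 < 81) → dig w s = 0) :
    ((w + cA : ℕ) : ℤ) = ∑ i ∈ range 9, ∑ k ∈ range 9,
      ra_TStep w i k * (2 ^ 16) ^ (162 * i + 9 * k) := by
  have e1 : w = ∑ i ∈ range 8, ∑ k ∈ range 9,
      dig w (162 * i + 9 * k) * 2 ^ (16 * (162 * i + 9 * k)) := by
    refine (eq_sum_dig 1296 w (lt_of_dig_eq_zero h1)).trans ?_
    rw [show 1296 = 162 * 8 from rfl, sum_mul_TStep]
    refine sum_congr rfl fun i _ => ?_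
    have z : ∑ t ∈ range 81, dig w (162 * i + (9 * 9 + t)) * 2 ^ (16 * (162 * i + (9 * 9 + t))) =
        0 := sum_eq_zero fun t ht => by rw [mem_range] at ht; rw [h2 _ (by omega), zero_mul]
    rw [show range 162 = range (9 * 9 + 81) from rfl, sum_range_add, z, add_zero, sum_mul_TStep]
    refine sum_congr rfl fun k hk => ?_
    rw [mem_range] at hk
    rw [sum_eq_single 0 (fun j hj hj' => by
      rw [mem_range] at hj; rw [h2 _ (by omega), zero_mul]) (by simp), add_zero]
  have e2 := congrArg (Nat.cast : ℕ → ℤ) cA_TStep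
  have e3 := congrArg (Nat.cast : ℕ → ℤ) e1
  simp only [Nat.cast_add, Nat.cast_sum, Nat.cast_mul, Nat.cast_pow, Nat.cast_ofNat,
    pow_mul (2 : ℤ) 16] at e2 e3
  generalize (2 : ℤ) ^ 16 = B at e2 e3 ⊢
  rw [sum_range_succ, sum_eq_single (s := range 9) 0 (fun k _ hk => by simp [ra_TStep, hk])
    (by simp), sum_congr rfl fun i hi => sum_congr rfl fun k hk => by
      rw [ra_TStep, if_pos (mem_range.1 hi), if_pos (mem_range.1 hk), sub_mul]]
  simp only [sum_sub_distrib]
  rw [← e3, ← e2, ra_TStep, if_neg (by omega), if_pos rfl, Nat.cast_add]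
  ring

theorem rb_val_TStep {r e c : ℕ} (hr : OkB r)
    (hc : c + ∑ l ∈ range 8, ∑ j ∈ range 9, 128 * 2 ^ (16 * (9 * l + j)) =
      e * 2 ^ (16 * (9 * 8 + 8)) + 2 ^ (16 * (9 * 9 + 0))) :
    ((r + c : ℕ) : ℤ) = ∑ l ∈ range 10, ∑ j ∈ range 9,
      rb_TStep r e l j * (2 ^ 16) ^ (9 * l + j) := by
  have e1 := eq_sum_dig 72 r hr.1
  rw [show range 72 = range (9 * 8) from rfl, sum_mul_TStep] at e1
  have e2 := congrArg (Nat.cast : ℕ → ℤ) hc
  have e3 := congrArg (Nat.cast : ℕ → ℤ) e1
  simp only [Nat.cast_add, Nat.cast_sum, Nat.cast_mul, Nat.cast_pow, Nat.cast_ofNat,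
    pow_mul (2 : ℤ) 16] at e2 e3
  generalize (2 : ℤ) ^ 16 = B at e2 e3 ⊢
  rw [sum_range_succ, sum_range_succ,
    sum_eq_single (s := range 9) 8 (fun k _ hk => by simp [rb_TStep, hk]) (by simp),
    sum_eq_single (s := range 9) 0 (fun k _ hk => by simp [rb_TStep, hk]) (by simp),
    sum_congr rfl fun i hi => sum_congr rfl fun k hk => by
      rw [rb_TStep, if_pos (mem_range.1 hi), if_pos (mem_range.1 hk), sub_mul]]
  simp only [sum_sub_distrib]
  rw [← e3, rb_TStep, rb_TStep, if_neg (by omega), if_pos rfl, if_pos rfl, if_neg (by omega),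
    if_neg (by omega), if_pos rfl, Nat.cast_add]
  linear_combination e2

theorem ext_dig_TStep (x : ℕ) : ext x < 2 ^ (16 * 72) ∧
    ∀ i < 8, ∀ j < 9, dig (ext x) (9 * i + j) = dig x (162 * i + j + 72) := by
  let y := Nat.land (Nat.shiftRight x (16 * 72)) km
  have h1 : ∀ s, dig y s = Nat.land (dig x (s + 72)) (dig km s) := fun s => by
    rw [dig_land, dig_shiftRight]
  have e1 : y = ∑ i ∈ range 8, ∑ j ∈ range 9,
      dig x (162 * i + j + 72) * 2 ^ (16 * (162 * i + j)) := by
    refine (eq_sum_dig 1296 y (lt_of_dig_eq_zero fun s hs => by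
      rw [h1, dig_eq_zero_of_lt km_lt_TStep hs, land_zero_TStep])).trans ?_
    rw [show 1296 = 162 * 8 from rfl, sum_mul_TStep]
    refine sum_congr rfl fun i hi => ?_
    rw [mem_range] at hi
    rw [show range 162 = range (9 + 153) from rfl, sum_range_add, sum_eq_zero (s := range 153)
      fun t ht => by
        rw [mem_range] at ht
        rw [h1, km_dig_TStep _ (by omega), if_neg (by omega), land_zero_TStep, zero_mul], add_zero]
    refine sum_congr rfl fun j hj => ?_
    rw [mem_range] at hj
    rw [h1, km_dig_TStep _ (by omega), if_pos (by omega), land_full_TStep]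
  let d : ℕ → ℕ := fun s => dig x (162 * (s / 9) + s % 9 + 72)
  have e2 : y ≡ ∑ s ∈ range 72, d s * 2 ^ (16 * s) [MOD md] := by
    rw [e1, show range 72 = range (9 * 8) from rfl, sum_mul_TStep]
    refine Nat.ModEq.sum fun i _ => Nat.ModEq.sum fun j hj => ?_
    rw [mem_range] at hj
    have e3 : 2 ^ (16 * 153) ≡ 1 [MOD md] := by
      rw [← md_TStep.1]; exact Nat.add_mod_left _ _
    have e4 := (e3.pow i).mul_right (2 ^ (16 * (9 * i + j)))
    rw [one_pow, one_mul, ← pow_mul, ← pow_add,
      show 16 * 153 * i + 16 * (9 * i + j) = 16 * (162 * i + j) by ring] at e4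
    simp only [d]
    rw [show (9 * i + j) / 9 = i by omega, show (9 * i + j) % 9 = j by omega]
    exact e4.mul_left _
  have e5 := sum_lt 72 d fun s _ => dig_lt _ _
  have e6 : ext x = ∑ s ∈ range 72, d s * 2 ^ (16 * s) :=
    Eq.trans e2 (Nat.mod_eq_of_lt (e5.trans md_TStep.2))
  refine ⟨e6 ▸ e5, fun i hi j hj => ?_⟩
  rw [e6, dig_sum 72 d (fun s _ => dig_lt _ _), if_pos (by omega)]
  simp only [d]
  rw [show (9 * i + j) / 9 = i by omega, show (9 * i + j) % 9 = j by omega]

theorem ext_spec_TStep {x x' y : ℕ} (h : Nat.land (ext y) hi = pat) (hy : y = x - x') (c : ℕ → ℤ)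
    (hc : ∀ s, |c s| ≤ 18432) (hx : (x : ℤ) - x' = bias + ∑ s ∈ range 1458, c s * (2 ^ 16) ^ s) :
    ext y - pat < 2 ^ (16 * 72) ∧ (∀ s < 72, dig (ext y - pat) s < 256) ∧
      ∀ i < 8, ∀ j < 9, (dig (ext y - pat) (9 * i + j) : ℤ) - 128 = c (162 * i + j + 72) := by
  let d : ℕ → ℕ := fun s => (32896 + c s).toNat
  have d1 : ∀ s, (d s : ℤ) = 32896 + c s := fun s =>
    Int.toNat_of_nonneg (by have := abs_le.1 (hc s); omega)
  have d2 : ∀ s < 1458, d s < 2 ^ 16 := fun s _ => by
    have := abs_le.1 (hc s); have := d1 s; omega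
  have e1 : y = ∑ s ∈ range 1458, d s * 2 ^ (16 * s) := by
    have : ((∑ s ∈ range 1458, d s * 2 ^ (16 * s) : ℕ) : ℤ) = x - x' := by
      rw [hx, bias_TStep]
      simp only [Nat.cast_sum, Nat.cast_mul, Nat.cast_pow, Nat.cast_ofNat, pow_mul (2 : ℤ) 16, d1,
        add_mul, sum_add_distrib]
    generalize ∑ s ∈ range 1458, d s * 2 ^ (16 * s) = S at this ⊢
    omega
  obtain ⟨f1, f2⟩ := ext_dig_TStep y
  generalize ext y = er at h f1 f2 ⊢
  have g1 : ∀ s < 72, 32768 ≤ dig er s ∧ dig er s < 33024 := fun s hs =>
    land_hi_TStep (dig_lt _ _) (by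
      rw [← (hi_dig_TStep s hs).1, ← dig_land, h, (hi_dig_TStep s hs).2])
  have g2 : ∀ s < 72, dig (er - pat) s = dig er s - 32768 := fun s hs => by
    rw [dig_sub er pat (fun s => ?_), (hi_dig_TStep s hs).2]
    by_cases hs : s < 72
    · rw [(hi_dig_TStep s hs).2]; exact (g1 s hs).1
    · rw [dig_eq_zero_of_lt pat_lt_TStep (not_lt.1 hs)]; exact Nat.zero_le _
  refine ⟨(Nat.sub_le _ _).trans_lt f1, fun s hs => ?_, fun i hi j hj => ?_⟩
  · have := g1 s hs; have := g2 s hs; omega
  · have a1 := g1 (9 * i + j) (by omega)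
    have a2 := g2 (9 * i + j) (by omega)
    have a3 := f2 i hi j hj
    rw [e1, dig_sum 1458 d d2, if_pos (by omega)] at a3
    have := d1 (162 * i + j + 72)
    omega

theorem step2_sound (z r m : ℕ) (hr : OkB r) (hm : OkB m) (k : ℕ → ℕ → Bool)
    (h : step2 (Nat.land z k2) r m k = true) :
    ∃ r' m', OkB r' ∧ OkB m' ∧ (∀ s < 72, dig m' s < 256) ∧ k r' m' = true ∧
      ∀ (i : Fin 8) (j : Fin 9), entB r' m' i j =
        ∑ l : Fin 8, entA (Nat.land z k2) i l.castSucc * entB r m l j +
          if j = Fin.last 8 then entA (Nat.land z k2) i (Fin.last 8) else 0 := by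
  have y1 : ∀ s, dig (Nat.land z k2) s ≤ 15 ∧ (2592 ≤ s ∨ ¬(s % 162 % 9 = 0 ∧ s % 162 < 81) →
      dig (Nat.land z k2) s = 0) := fun s => by
    have : dig (Nat.land z k2) s ≤ dig k2 s := by rw [dig_land]; exact Nat.and_le_right
    by_cases hs : s < 2592
    · rw [k2_dig_TStep s hs] at this
      split_ifs at this <;> omega
    · rw [dig_eq_zero_of_lt k2_lt_TStep (not_lt.1 hs)] at this
      omega
  generalize Nat.land z k2 = y at h y1 ⊢
  have y2 : ∀ s, dig (Nat.land y lowA) s = if s < 1296 then dig y s else 0 := fun s => by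
    rw [dig_land]
    split_ifs with hs
    · rw [lowA_dig_TStep s hs, land_full_TStep]
    · rw [dig_eq_zero_of_lt lowA_lt_TStep (not_lt.1 hs), land_zero_TStep]
  have y3 : ∀ s, dig (Nat.shiftRight y 20736) s = dig y (s + 1296) := dig_shiftRight y 1296
  have a1 := ra_val_TStep (w := Nat.land y lowA) (fun s hs => by rw [y2, if_neg (by omega)])
    fun s hs => by rw [y2, (y1 s).2 (.inr hs), ite_self]
  have a2 := ra_val_TStep (w := Nat.shiftRight y 20736)
    (fun s hs => by rw [y3, (y1 _).2 (.inl (by omega))])
    fun s hs => by rw [y3, (y1 _).2 (.inr (by omega))]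
  have b1 := rb_val_TStep hr cBr_TStep
  have b2 := rb_val_TStep hm cBi_TStep
  have l1 := ra_le_TStep (w := Nat.land y lowA) fun s => by
    have := (y1 s).1; rw [y2]; split_ifs <;> omega
  have l2 := ra_le_TStep (w := Nat.shiftRight y 20736) fun s => by rw [y3]; exact (y1 _).1
  have l3 := rb_le_TStep hr le_rfl
  have l4 := rb_le_TStep hm zero_le_one
  simp only [step2, step3, step4, an_eq, Bool.and_eq_true, Nat.beq_eq, Nat.add_eq, Nat.mul_eq,
    Nat.sub_eq] at h
  obtain ⟨h1, h2, h3⟩ := h
  obtain ⟨p1, p2, p3⟩ := ext_spec_TStep h1 rfl (fun s => cv_TStep _ _ s - cv_TStep _ _ s)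
    (fun s => (abs_sub _ _).trans (add_le_add (cv_le_TStep l1 l3 s) (cv_le_TStep l2 l4 s)))
    (by
      rw [Nat.cast_add, Nat.cast_mul, Nat.cast_mul, a1, a2, b1, b2, conv_TStep, conv_TStep]
      simp only [sub_mul, sum_sub_distrib, add_sub_assoc])
  obtain ⟨q1, q2, q3⟩ := ext_spec_TStep h2 (Nat.sub_zero _).symm
    (fun s => cv_TStep _ _ s + cv_TStep _ _ s)
    (fun s => (abs_add_le _ _).trans (add_le_add (cv_le_TStep l1 l4 s) (cv_le_TStep l2 l3 s)))
    (by
      rw [Nat.cast_add, Nat.cast_add, Nat.cast_mul, Nat.cast_mul, a1, a2, b1, b2, conv_TStep,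
        conv_TStep]
      simp only [add_mul, sum_add_distrib, add_assoc, Nat.cast_zero, sub_zero])
  refine ⟨_, _, ⟨p1, fun s hs => (p2 s hs).le⟩, ⟨q1, fun s hs => (q2 s hs).le⟩, q2, h3,
    fun i j => ?_⟩
  have hi := i.2
  have hj := j.2
  have c1 : ∀ k < 9, ra_TStep (Nat.land y lowA) i k = (dig y (9 * k + 162 * i) : ℤ) - 8 :=
    fun k hk => by rw [ra_TStep, if_pos hi, if_pos hk, y2, if_pos (by omega), add_comm]
  have c2 : ∀ k < 9, ra_TStep (Nat.shiftRight y 20736) i k =
      (dig y (9 * k + 162 * (i + 8)) : ℤ) - 8 := fun k hk => by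
    rw [ra_TStep, if_pos hi, if_pos hk, y3, show 162 * i + 9 * k + 1296 = 9 * k + 162 * (i + 8) by
      ring]
  have c3 : ∀ (r e : ℕ) (l : Fin 8), rb_TStep r e l j = (dig r (9 * l + j) : ℤ) - 128 :=
    fun r e l => by rw [rb_TStep, if_pos l.2, if_pos hj]
  have c4 : ∀ r e : ℕ, rb_TStep r e 8 j = if j = Fin.last 8 then (e : ℤ) else 0 := fun r e => by
    simp [rb_TStep, Fin.ext_iff]
  have c5 : ∀ l : Fin 8, 8 - (l : ℕ) < 9 := fun l => by omega
  rw [entB, p3 i hi j hj, q3 i hi j hj]
  simp only [cv_at_TStep _ _ hj, c1 _ (c5 _), c2 _ (c5 _), c1 0 (by omega), c2 0 (by omega), c3, c4]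
  ext
  · simp only [Fin.sum_univ_eight, Zsqrtd.re_add, Zsqrtd.re_mul, entA, entB, Fin.val_castSucc]
    split_ifs <;> simp <;> ring
  · simp only [Fin.sum_univ_eight, Zsqrtd.im_add, Zsqrtd.im_mul, entA, entB, Fin.val_castSucc]
    split_ifs <;> simp <;> ring

end Pool.Agent.MP_61a8e3_al.T

end

section

/-! Part T: soundness of the evaluation of lists of arrows. -/

set_option autoImplicit false

namespace Pool.Agent.MP_61a8e3_al.T

theorem act_comp_TEval (A B C : Fin 8 → Fin 9 → GaussianInt)
    (h : ∀ (i : Fin 8) (j : Fin 9), C i j = ∑ l : Fin 8, A i l.castSucc * B l j +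
      if j = Fin.last 8 then A i (Fin.last 8) else 0) (v : V) :
    act C v = act A (act B v) := by
  funext i
  simp only [act, lin, Pi.add_apply, h, Fin.castSucc_ne_last, if_false, if_true, add_zero,
    mul_add, Finset.sum_add_distrib, Finset.mul_sum, Finset.sum_mul]
  rw [Finset.sum_comm, add_assoc]
  simp only [mul_assoc]

theorem evl_cons_TEval (tab : ℕ → ℕ) (a : ℕ) (ops : List ℕ) (k : ℕ → ℕ → ℕ → Bool) (θ r m : ℕ) :
    evl tab (a :: ops) k θ r m = frc a fun a' =>
      step2 (spr (code tab a' θ)) r m fun r' m' =>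
        frc (tgt (code tab a' θ)) fun θ' => evl tab ops k θ' r' m' := rfl

theorem evl_sound (tab : ℕ → ℕ) (ops : List ℕ) (k : ℕ → ℕ → ℕ → Bool) (θ : Fin 28) (r m : ℕ)
    (hr : OkB r) (hm : OkB m) (h : evl tab ops k θ.val r m = true) :
    ∃ (θ' : Fin 28) (r' m' : ℕ), k θ'.val r' m' = true ∧
      ∀ v, runOps tab ops (θ, act (entB r m) v) = (θ', act (entB r' m') v) := by
  induction ops generalizing θ r m with
  | nil => exact ⟨θ, r, m, h, fun v => rfl⟩
  | cons a ops ih =>
    rw [evl_cons_TEval, frc_eq] at h
    obtain ⟨r', m', hr', hm', -, hk, he⟩ :=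
      step2_sound (Nat.mul (Nat.land (Nat.mul (code tab a θ.val) m1) k1) m2) r m hr hm _ h
    rw [frc_eq] at hk
    obtain ⟨θ', r'', m'', hk', hrun⟩ :=
      ih ⟨tgt (code tab a θ.val), tgt_lt _⟩ r' m' hr' hm' hk
    refine ⟨θ', r'', m'', hk', fun v => ?_⟩
    rw [← hrun v, act_comp_TEval _ _ _ he v]
    rfl

theorem eqChk_sound (tab : ℕ → ℕ) (o1 o2 : List ℕ) (θ : Fin 28)
    (h : eqChk tab o1 o2 θ.val = true) (v : V) : runOps tab o1 (θ, v) = runOps tab o2 (θ, v) := by
  obtain ⟨θ1, r1, n1, h1, e1⟩ := evl_sound tab o1 _ θ idr idi okB_idr okB_idi h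
  obtain ⟨θ2, r2, n2, h2, e2⟩ := evl_sound tab o2 _ θ idr idi okB_idr okB_idi h1
  rw [an_eq, an_eq, Bool.and_eq_true, Bool.and_eq_true] at h2
  have a1 : θ1 = θ2 := Fin.ext (Nat.eq_of_beq_eq_true h2.1)
  have a2 : r1 = r2 := Nat.eq_of_beq_eq_true h2.2.1
  have a3 : n1 = n2 := Nat.eq_of_beq_eq_true h2.2.2
  have b1 := e1 v
  have b2 := e2 v
  rw [act_id] at b1 b2
  rw [b1, b2, a1, a2, a3]

theorem valChk_sound (tab : ℕ → ℕ) (o : List ℕ) (θ : Fin 28) (zr zi : ℕ)
    (h : valChk tab o θ.val zr zi = true) (v : V) :
    runOps tab o (θ, v) = (θ, act (entB zr zi) v) := by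
  obtain ⟨θ1, r1, n1, h1, e1⟩ := evl_sound tab o _ θ idr idi okB_idr okB_idi h
  rw [an_eq, an_eq, Bool.and_eq_true, Bool.and_eq_true] at h1
  have a1 : θ1 = θ := Fin.ext (Nat.eq_of_beq_eq_true h1.1)
  have a2 : r1 = zr := Nat.eq_of_beq_eq_true h1.2.1
  have a3 : n1 = zi := Nat.eq_of_beq_eq_true h1.2.2
  have b1 := e1 v
  rw [act_id] at b1
  rw [b1, a1, a2, a3]

theorem runOps_append (tab : ℕ → ℕ) (o1 o2 : List ℕ) (x : Xf) :
    runOps tab (o1 ++ o2) x = runOps tab o2 (runOps tab o1 x) := by
  simp only [runOps, List.foldl_append]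

end Pool.Agent.MP_61a8e3_al.T

end

section

/-! Part T: soundness of the check that a code preserves the hermitian form. -/

set_option autoImplicit false

namespace Pool.Agent.MP_61a8e3_al.T

theorem dig_zero_THerm (s : ℕ) : dig 0 s = 0 := by simp [dig]

theorem dig_cat_THerm {a w : ℕ} (ha : a < 2 ^ (16 * w)) (b s : ℕ) :
    dig (a + 2 ^ (16 * w) * b) s = if s < w then dig a s else dig b (s - w) := by
  unfold dig
  split_ifs with h
  · obtain ⟨t, rfl⟩ : ∃ t, w = s + 1 + t := ⟨w - (s + 1), by omega⟩
    have e : 2 ^ (16 * (s + 1 + t)) * b = 2 ^ (16 * s) * (2 ^ 16 * (2 ^ (16 * t) * b)) := by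
      rw [← mul_assoc, ← mul_assoc, ← pow_add, ← pow_add]
      congr 2
      ring
    rw [e, Nat.add_mul_div_left _ _ (by positivity), Nat.add_mul_mod_self_left]
  · obtain ⟨t, rfl⟩ : ∃ t, s = w + t := ⟨s - w, by omega⟩
    rw [Nat.add_sub_cancel_left, mul_add, pow_add, ← Nat.div_div_eq_div_mul,
      Nat.add_mul_div_left _ _ (by positivity), Nat.div_eq_of_lt ha, zero_add]

theorem sum_succ_THerm (x w n : ℕ) : x * ∑ i ∈ Finset.range (n + 1), 2 ^ (16 * (w * i)) =
    x + 2 ^ (16 * w) * (x * ∑ i ∈ Finset.range n, 2 ^ (16 * (w * i))) := by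
  have e : ∀ i, 2 ^ (16 * (w * (i + 1))) = 2 ^ (16 * w) * 2 ^ (16 * (w * i)) := by
    intro i
    rw [← pow_add]
    congr 1
    ring
  rw [Finset.sum_range_succ']
  simp only [e, ← Finset.mul_sum]
  ring

theorem dig_rep_THerm {x : ℕ} (hx : x < 2 ^ (16 * 161)) (n t : ℕ) :
    dig (x * ∑ i ∈ Finset.range n, 2 ^ (16 * (161 * i))) t =
      if t / 161 < n then dig x (t % 161) else 0 := by
  induction n generalizing t with
  | zero => simp [dig_zero_THerm]
  | succ n ih =>
    rw [sum_succ_THerm, dig_cat_THerm hx, ih]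
    by_cases ht : t < 161
    · rw [if_pos ht, if_pos (by omega), Nat.mod_eq_of_lt ht]
    · have e1 : (t - 161) % 161 = t % 161 := by omega
      rw [if_neg ht, e1]
      by_cases h2 : t / 161 < n + 1
      · rw [if_pos h2, if_pos (by omega)]
      · rw [if_neg h2, if_neg (by omega)]

theorem mT_eq_THerm : mT = 2 ^ (16 * 9) * ∑ i ∈ Finset.range 8, 2 ^ (16 * (161 * i)) := by
  decide +kernel

theorem dig_mT_THerm {x : ℕ} (hx : x < 2 ^ (16 * 72)) (t : ℕ) :
    dig (x * mT) t =
      if t < 9 then 0 else if (t - 9) / 161 < 8 then dig x ((t - 9) % 161) else 0 := by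
  have hx' : x < 2 ^ (16 * 161) := hx.trans_le (Nat.pow_le_pow_right (by omega) (by omega))
  rw [mT_eq_THerm, mul_left_comm, ← zero_add (2 ^ (16 * 9) * _),
    dig_cat_THerm (Nat.two_pow_pos _), dig_zero_THerm, dig_rep_THerm hx']

theorem mT_lt_THerm {x : ℕ} (hx : x < 2 ^ (16 * 72)) : x * mT < 2 ^ (16 * 1296) := by
  refine lt_of_dig_eq_zero fun s hs => ?_
  rw [dig_mT_THerm hx, if_neg (by omega)]
  split_ifs with h
  · exact dig_eq_zero_of_lt hx (by omega)
  · rfl

theorem dig_keep_THerm (s : ℕ) : dig keep s = if s < 72 ∧ s % 9 ≠ 8 then 2 ^ 16 - 1 else 0 := by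
  have h1 : keep < 2 ^ (16 * 72) := by decide +kernel
  have h2 : ∀ s < 72, dig keep s = if s % 9 ≠ 8 then 2 ^ 16 - 1 else 0 := by decide +kernel
  by_cases hs : s < 72
  · simp only [h2 s hs, hs, true_and]
  · rw [dig_eq_zero_of_lt h1 (by omega), if_neg fun h => hs h.1]

theorem dig_col_THerm (s : ℕ) : dig col128 s = if s < 72 ∧ s % 9 = 8 then 128 else 0 := by
  have h1 : col128 < 2 ^ (16 * 72) := by decide +kernel
  have h2 : ∀ s < 72, dig col128 s = if s % 9 = 8 then 128 else 0 := by decide +kernel
  by_cases hs : s < 72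
  · simp only [h2 s hs, hs, true_and]
  · rw [dig_eq_zero_of_lt h1 (by omega), if_neg fun h => hs h.1]

theorem dig_o120_THerm (s : ℕ) : dig o120 s = if s < 72 then 120 else 0 := by
  have h1 : o120 < 2 ^ (16 * 72) := by decide +kernel
  have h2 : ∀ s < 72, dig o120 s = 120 := by decide +kernel
  by_cases hs : s < 72
  · rw [h2 s hs, if_pos hs]
  · rw [dig_eq_zero_of_lt h1 (by omega), if_neg hs]

theorem dig_o256_THerm (s : ℕ) : dig o256 s = if s < 72 then 256 else 0 := by
  have h1 : o256 < 2 ^ (16 * 72) := by decide +kernel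
  have h2 : ∀ s < 72, dig o256 s = 256 := by decide +kernel
  by_cases hs : s < 72
  · rw [h2 s hs, if_pos hs]
  · rw [dig_eq_zero_of_lt h1 (by omega), if_neg hs]

theorem dig_off8_le_THerm (s : ℕ) : dig off8 s ≤ 8 := by
  have h1 : off8 < 2 ^ (16 * 2592) := by decide +kernel
  have h2 : ∀ s < 2592, dig off8 s ≤ 8 := by decide +kernel
  by_cases hs : s < 2592
  · exact h2 s hs
  · rw [dig_eq_zero_of_lt h1 (by omega)]
    omega

theorem dig_off8_THerm : ∀ i < 16, ∀ k < 8, dig off8 (9 * (8 - k) + 162 * i) = 0 := by
  decide +kernel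

theorem dig_k2_THerm : ∀ i < 16, ∀ k < 9, dig k2 (9 * (8 - k) + 162 * i) = 2 ^ 4 - 1 := by
  decide +kernel

theorem land_THerm (x n : ℕ) : Nat.land x (2 ^ n - 1) = x % 2 ^ n :=
  Nat.and_two_pow_sub_one_eq_mod x n

theorem dig_spr_THerm (z i k : ℕ) (hi : i < 16) (hk : k < 9) :
    dig (Nat.land z k2) (9 * (8 - k) + 162 * i) = dig z (9 * (8 - k) + 162 * i) % 16 := by
  rw [dig_land, dig_k2_THerm i hi k hk, land_THerm]
  rfl

theorem dig_clr_THerm (r s : ℕ) :
    dig (clr r) s = if s < 72 then (if s % 9 = 8 then 128 else dig r s) else 0 := by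
  have h1 : ∀ s, dig (Nat.land r keep) s = if s < 72 ∧ s % 9 ≠ 8 then dig r s else 0 := by
    intro s
    rw [dig_land, dig_keep_THerm]
    split_ifs
    · rw [land_THerm, Nat.mod_eq_of_lt (dig_lt _ _)]
    · exact Nat.and_zero _
  change dig (Nat.land r keep + col128) s = _
  rw [dig_add _ _ fun s => ?_, h1, dig_col_THerm]
  · split_ifs <;> omega
  · have := dig_lt r s
    rw [h1, dig_col_THerm]
    split_ifs <;> omega

theorem okB_clr_THerm {r : ℕ} (hr : OkB r) : OkB (clr r) := by
  refine ⟨lt_of_dig_eq_zero fun s hs => ?_, fun s hs => ?_⟩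
  · rw [dig_clr_THerm, if_neg (by omega)]
  · have := hr.2 s hs
    rw [dig_clr_THerm]
    split_ifs <;> omega

theorem entB_clr_THerm (r m : ℕ) (k j : Fin 8) :
    entB (clr r) (clr m) k j.castSucc = entB r m k j.castSucc := by
  have hk := k.2
  have hj := j.2
  have h1 : 9 * k.val + j.val < 72 := by omega
  have h2 : ¬ (9 * k.val + j.val) % 9 = 8 := by omega
  simp only [entB, dig_clr_THerm, Fin.val_castSucc, if_pos h1, if_neg h2]

theorem dig_conj_THerm {m : ℕ} (hm : OkB m) (s : ℕ) :
    dig (Nat.sub o256 m) s = (if s < 72 then 256 else 0) - dig m s := by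
  change dig (o256 - m) s = _
  rw [dig_sub _ _ fun s => ?_, dig_o256_THerm]
  rw [dig_o256_THerm]
  split_ifs with hs
  · exact hm.2 s hs
  · rw [dig_eq_zero_of_lt hm.1 (by omega)]

theorem okB_conj_THerm {m : ℕ} (hm : OkB m) : OkB (Nat.sub o256 m) := by
  refine ⟨lt_of_dig_eq_zero fun s hs => ?_, fun s hs => ?_⟩
  · rw [dig_conj_THerm hm, if_neg (by omega), Nat.zero_sub]
  · rw [dig_conj_THerm hm, if_pos hs]
    omega

theorem entB_conj_THerm (r : ℕ) {m : ℕ} (hm : OkB m) (k : Fin 8) (j : Fin 9) :
    entB r (Nat.sub o256 m) k j = star (entB r m k j) := by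
  have hk := k.2
  have hj := j.2
  have h1 : 9 * k.val + j.val < 72 := by omega
  have h2 := hm.2 _ h1
  refine Zsqrtd.ext rfl ?_
  simp only [entB, dig_conj_THerm hm, if_pos h1, Zsqrtd.im_star]
  omega

/-- half a state with small entries -/
def Sm_THerm (r : ℕ) : Prop :=
  r < 2 ^ (16 * 72) ∧ ∀ s < 72, 120 ≤ dig r s ∧ dig r s ≤ 135

theorem dig_low_THerm {r : ℕ} (hr : Sm_THerm r) (s : ℕ) :
    dig (r - o120) s = if s < 72 then dig r s - 120 else 0 := by
  rw [dig_sub _ _ fun s => ?_, dig_o120_THerm]
  · split_ifs with hs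
    · rfl
    · rw [dig_eq_zero_of_lt hr.1 (by omega)]
  · rw [dig_o120_THerm]
    split_ifs with hs
    · exact (hr.2 s hs).1
    · exact Nat.zero_le _

theorem low_lt_THerm {r : ℕ} (hr : Sm_THerm r) : r - o120 < 2 ^ (16 * 72) :=
  (Nat.sub_le _ _).trans_lt hr.1

theorem dig_low_le_THerm {r : ℕ} (hr : Sm_THerm r) (s : ℕ) : dig (r - o120) s ≤ 15 := by
  rw [dig_low_THerm hr]
  split_ifs with hs
  · have := hr.2 s hs
    omega
  · omega

theorem dig_tr_le_THerm {r : ℕ} (hr : Sm_THerm r) (s : ℕ) : dig ((r - o120) * mT) s ≤ 15 := by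
  rw [dig_mT_THerm (low_lt_THerm hr)]
  split_ifs
  · omega
  · exact dig_low_le_THerm hr _
  · omega

theorem dig_tr_THerm {r : ℕ} (hr : Sm_THerm r) {i k : ℕ} (hi : i < 8) (hk : k < 8) :
    dig ((r - o120) * mT) (9 * (8 - k) + 162 * i) = dig r (9 * (7 - k) + i) - 120 := by
  have e : (9 * (8 - k) + 162 * i - 9) % 161 = 9 * (7 - k) + i := by omega
  rw [dig_mT_THerm (low_lt_THerm hr), if_neg (by omega), if_pos (by omega), e, dig_low_THerm hr,
    if_pos (by omega)]

theorem dig_trA_THerm {r m : ℕ} (hr : Sm_THerm r) (hm : Sm_THerm m) {i k : ℕ} (hi : i < 16)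
    (hk : k < 8) : dig (trA r m) (9 * (8 - k) + 162 * i) =
      if i < 8 then dig r (9 * (7 - k) + i) - 120 else dig m (9 * (7 - k) + (i - 8)) - 120 := by
  have e : trA r m =
      Nat.land ((r - o120) * mT + 2 ^ (16 * 1296) * ((m - o120) * mT) + off8) k2 := by
    have e1 : Nat.shiftLeft ((m - o120) * mT) 20736 = 2 ^ (16 * 1296) * ((m - o120) * mT) := by
      rw [mul_comm (2 ^ _)]
      exact Nat.shiftLeft_eq _ _
    rw [← e1]
    rfl
  have hc := dig_cat_THerm (mT_lt_THerm (low_lt_THerm hr)) ((m - o120) * mT)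
  have hle : ∀ s, dig ((r - o120) * mT + 2 ^ (16 * 1296) * ((m - o120) * mT)) s ≤ 15 := by
    intro s
    rw [hc]
    split_ifs
    · exact dig_tr_le_THerm hr _
    · exact dig_tr_le_THerm hm _
  rw [e, dig_spr_THerm _ i k hi (by omega), dig_add _ _ fun s => ?_, dig_off8_THerm i hi k hk,
    add_zero, Nat.mod_eq_of_lt (Nat.lt_succ_of_le (hle _)), hc]
  · by_cases h : i < 8
    · rw [if_pos (by omega), if_pos h, dig_tr_THerm hr h hk]
    · have e2 : 9 * (8 - k) + 162 * i - 1296 = 9 * (8 - k) + 162 * (i - 8) := by omega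
      rw [if_neg (by omega), if_neg h, e2, dig_tr_THerm hm (by omega) hk]
  · have h1 := hle s
    have h2 := dig_off8_le_THerm s
    omega

theorem entA_trA_THerm {r m : ℕ} (hr : Sm_THerm r) (hm : Sm_THerm m) (i k : Fin 8) :
    entA (trA r m) i k.castSucc = entB r m (Fin.rev k) i.castSucc := by
  have hk := k.2
  have hi := i.2
  have e : 8 - (k.val + 1) = 7 - k.val := by omega
  have h1 := hr.2 (9 * (7 - k.val) + i.val) (by omega)
  have h2 := hm.2 (9 * (7 - k.val) + i.val) (by omega)
  refine Zsqrtd.ext ?_ ?_
  · simp only [entA, entB, Fin.val_castSucc, Fin.val_rev, e]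
    rw [dig_trA_THerm hr hm (by omega) hk, if_pos hi]
    omega
  · simp only [entA, entB, Fin.val_castSucc, Fin.val_rev, e]
    rw [dig_trA_THerm hr hm (by omega) hk, if_neg (by omega), Nat.add_sub_cancel]
    omega

theorem sm_clr_THerm {r : ℕ} (hr : OkB r)
    (h : ∀ k < 8, ∀ j < 8, 120 ≤ dig r (9 * k + j) ∧ dig r (9 * k + j) ≤ 135) :
    Sm_THerm (clr r) := by
  refine ⟨(okB_clr_THerm hr).1, fun s hs => ?_⟩
  rw [dig_clr_THerm, if_pos hs]
  split_ifs with h8
  · omega
  · have := h (s / 9) (by omega) (s % 9) (by omega)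
    rwa [Nat.div_add_mod] at this

theorem castSucc_ne_THerm (j : Fin 8) : ¬ j.castSucc = Fin.last 8 := (Fin.castSucc_lt_last j).ne

theorem herm_sound (c hc zr zi : ℕ) (h : herm c hc zr zi = true) (i j : Fin 8) :
    ∑ k : Fin 8, entA (spr c) k i.castSucc *
      star (∑ l : Fin 8, Hm hc k l * entA (spr c) l j.castSucc) = entB zr zi i j.castSucc := by
  obtain ⟨r, m, hr, hm, -, h1, hA⟩ := step2_sound _ _ _ okB_idr okB_idi _ h
  have hA' : ∀ a b : Fin 8, entB r m a b.castSucc = entA (spr c) a b.castSucc := by
    intro a b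
    rw [hA, if_neg (castSucc_ne_THerm b), add_zero]
    simp only [entB_id, Fin.castSucc_inj, mul_ite, mul_one, mul_zero, Finset.sum_ite_eq,
      Finset.mem_univ, if_true]
    rfl
  have hsr : Sm_THerm (clr r) := sm_clr_THerm hr fun k hk j hj => by
    have e := congrArg Zsqrtd.re (hA' ⟨k, hk⟩ ⟨j, hj⟩)
    simp only [entA, entB, Fin.val_castSucc, spr] at e
    rw [dig_spr_THerm _ k j (by omega) (by omega)] at e
    omega
  have hsm : Sm_THerm (clr m) := sm_clr_THerm hm fun k hk j hj => by
    have e := congrArg Zsqrtd.im (hA' ⟨k, hk⟩ ⟨j, hj⟩)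
    simp only [entA, entB, Fin.val_castSucc, spr] at e
    rw [dig_spr_THerm _ (k + 8) j (by omega) (by omega)] at e
    omega
  obtain ⟨yr, ym, hyr, hym, -, h2, hY⟩ :=
    step2_sound _ _ _ (okB_clr_THerm hr) (okB_clr_THerm hm) _ h1
  obtain ⟨wr, wm, -, -, -, h3, hW⟩ := step2_sound _ _ _ hyr (okB_conj_THerm hym) _ h2
  rw [an_eq, Bool.and_eq_true, Nat.beq_eq, Nat.beq_eq] at h3
  rw [← h3.1, ← h3.2, hW, if_neg (castSucc_ne_THerm j), add_zero, ← Equiv.sum_comp Fin.revPerm]
  refine Finset.sum_congr rfl fun k _ => ?_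
  have e1 := entA_trA_THerm hsr hsm i k
  rw [entB_clr_THerm, hA'] at e1
  rw [entB_conj_THerm _ hym, hY, if_neg (castSucc_ne_THerm j), add_zero]
  simp only [entB_clr_THerm, hA', Hm, Fin.revPerm_apply, Fin.rev_rev]
  rw [← e1]
  rfl

theorem herm_Qf (c hc zr zi : ℕ) (h : herm c hc zr zi = true)
    (hz : ∀ i j : Fin 8, entB zr zi i j.castSucc = star (Hm hc i j)) (v : V) :
    Qf hc (lin (entA (spr c)) v) = Qf hc v := by
  set A : Matrix (Fin 8) (Fin 8) GaussianInt := fun i k => entA (spr c) i k.castSucc with hA
  set H : Matrix (Fin 8) (Fin 8) GaussianInt := fun i k => Hm hc i k with hH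
  have hQ : ∀ w : V, Qf hc w = star w ⬝ᵥ H.mulVec w := by
    intro w
    simp only [Qf, dotProduct, Matrix.mulVec, Finset.mul_sum, Pi.star_apply, hH, mul_assoc]
  have hl : lin (entA (spr c)) v = A.mulVec v := rfl
  have hm : A.conjTranspose * (H * A) = H := by
    ext1 i j
    have e := congrArg star ((herm_sound c hc zr zi h i j).trans (hz i j))
    simp only [star_sum, star_mul', star_star] at e
    simpa only [Matrix.mul_apply, Matrix.conjTranspose_apply] using e
  rw [hQ, hQ, hl, Matrix.star_mulVec, Matrix.mulVec_mulVec, ← Matrix.dotProduct_mulVec,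
    Matrix.mulVec_mulVec, hm]

end Pool.Agent.MP_61a8e3_al.T

end

section

/-! Part T: fibrewise affine isometries and the translation homomorphism. -/

set_option autoImplicit false

namespace Pool.Agent.MP_61a8e3_al.T

theorem iso_bijective (Q : V → ℤ) (hfin : ∀ n : ℤ, {v : V | Q v = n}.Finite)
    (hzero : ∀ v, Q v = Q 0 → v = 0) (M : V →+ V) (hM : ∀ v, Q (M v) = Q v) :
    Function.Bijective M := by
  have hinj : Function.Injective M :=
    (injective_iff_map_eq_zero M).2 fun v hv => hzero v (by rw [← hM v, hv])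
  refine ⟨hinj, fun w => ?_⟩
  have hm : Set.MapsTo M {v : V | Q v = Q w} {v : V | Q v = Q w} := fun v hv => (hM v).trans hv
  obtain ⟨v, -, hv⟩ :=
    (((hfin (Q w)).injOn_iff_bijOn_of_mapsTo hm).1 hinj.injOn).surjOn (show Q w = Q w from rfl)
  exact ⟨v, hv⟩

/-- an injective fibrewise affine isometry over a finite base is surjective -/
theorem IsAff.surjective {ι : Type} [Finite ι] (Q : V → ℤ)
    (hfin : ∀ n : ℤ, {v : V | Q v = n}.Finite) (hzero : ∀ v, Q v = Q 0 → v = 0)
    (g : ι × V → ι × V) (hg : IsAff Q g) (hi : Function.Injective g) : Function.Surjective g := by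
  choose t M b hM hgM using hg
  have hs : ∀ i w, ∃ v, g (i, v) = (t i, w) := fun i w => by
    obtain ⟨v, hv⟩ := (iso_bijective Q hfin hzero (M i) (hM i)).2 (w - b i)
    exact ⟨v, by rw [hgM, hv, sub_add_cancel]⟩
  have ht : Function.Injective t := fun i j hij => by
    obtain ⟨v, hv⟩ := hs i 0
    obtain ⟨w, hw⟩ := hs j 0
    exact congrArg Prod.fst (hi (a₁ := (i, v)) (a₂ := (j, w)) (by rw [hv, hw, hij]))
  rintro ⟨j, w⟩
  obtain ⟨i, rfl⟩ := (Finite.injective_iff_surjective.1 ht) j
  obtain ⟨v, hv⟩ := hs i w
  exact ⟨(i, v), hv⟩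

theorem isAff_closure {ι : Type} (Q : V → ℤ) (hfin : ∀ n : ℤ, {v : V | Q v = n}.Finite)
    (hzero : ∀ v, Q v = Q 0 → v = 0) (s : Set (Equiv.Perm (ι × V))) (hs : ∀ g ∈ s, IsAff Q g)
    (g : Equiv.Perm (ι × V)) (hg : g ∈ Subgroup.closure s) : IsAff Q g := by
  induction hg using Subgroup.closure_induction with
  | mem x hx => exact hs x hx
  | one => exact fun i => ⟨i, AddMonoidHom.id V, 0, fun _ => rfl, fun v => by simp⟩
  | mul x y _ _ hx hy =>
    intro i
    obtain ⟨j, M, b, hM, e⟩ := hy i
    obtain ⟨k, M', b', hM', e'⟩ := hx j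
    refine ⟨k, M'.comp M, M' b + b', fun v => by rw [AddMonoidHom.comp_apply, hM', hM], fun v => ?_⟩
    rw [Equiv.Perm.mul_apply, e, e', map_add, AddMonoidHom.comp_apply, add_assoc]
  | inv x _ hx =>
    intro i
    obtain ⟨⟨j, w⟩, hj⟩ := x.surjective (i, 0)
    obtain ⟨k, M, b, hM, e⟩ := hx j
    have hk : k = i := by rw [e] at hj; exact congrArg Prod.fst hj
    subst hk
    let E : V ≃+ V := AddEquiv.ofBijective M (iso_bijective Q hfin hzero M hM)
    have hE : ∀ v, M (E.symm v) = v := fun v => E.apply_symm_apply v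
    refine ⟨j, (E.symm : V →+ V), -E.symm b, fun v => ?_, fun v => ?_⟩
    · rw [← hM]; exact congrArg Q (hE v)
    · rw [Equiv.Perm.inv_eq_iff_eq, e, map_add, map_neg, hE]
      congr 1
      rw [show M ((E.symm : V →+ V) v) = v from hE v, neg_add_cancel_right]

theorem addHom_ext_TAff {M M' : V →+ V}
    (h : ∀ (k : Fin 8) (e : Bool), M (Pi.single k (if e then 1 else ⟨0, 1⟩)) =
      M' (Pi.single k (if e then 1 else ⟨0, 1⟩))) : M = M' := by
  refine AddMonoidHom.ext fun v => ?_
  have hv : v = ∑ k, ((v k).re • (Pi.single k (1 : GaussianInt) : V) +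
      (v k).im • (Pi.single k (⟨0, 1⟩ : GaussianInt) : V)) := by
    ext1 j
    rw [Finset.sum_apply, Finset.sum_eq_single j]
    · ext <;> simp
    · intro k _ hk
      simp [Pi.single_eq_of_ne (Ne.symm hk)]
    · simp
  rw [hv, map_sum, map_sum]
  refine Finset.sum_congr rfl fun k _ => ?_
  have h1 := h k true
  have h2 := h k false
  simp only [if_true, Bool.false_eq_true, if_false] at h1 h2
  rw [map_add, map_add, map_zsmul, map_zsmul, map_zsmul, map_zsmul, h1, h2]

theorem iso_finite_TAff (Q : V → ℤ) (hfin : ∀ n : ℤ, {v : V | Q v = n}.Finite) :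
    {M : V →+ V | ∀ v, Q (M v) = Q v}.Finite := by
  let e : Fin 8 × Bool → V := fun p => Pi.single p.1 (if p.2 then 1 else ⟨0, 1⟩)
  have h := Set.Finite.pi' (t := fun p : Fin 8 × Bool => {v : V | Q v = Q (e p)})
    fun p => hfin (Q (e p))
  refine Set.Finite.of_finite_image (f := fun (M : V →+ V) p => M (e p)) (h.subset ?_) ?_
  · rintro _ ⟨M, hM, rfl⟩ p
    exact hM (e p)
  · intro M _ M' _ hh
    exact addHom_ext_TAff fun k b => congrFun hh (k, b)

theorem exists_coord_TAff {v : V} (hv : v ≠ 0) : ∃ c : V →+ ℤ, c v ≠ 0 := by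
  obtain ⟨k, hk⟩ := Function.ne_iff.1 hv
  by_cases h : (v k).re = 0
  · refine ⟨⟨⟨fun w => (w k).im, rfl⟩, fun _ _ => rfl⟩, fun h' => hk ?_⟩
    exact Zsqrtd.ext h h'
  · exact ⟨⟨⟨fun w => (w k).re, rfl⟩, fun _ _ => rfl⟩, h⟩

/-- a group acting by fibrewise affine isometries, with one non trivial translation, has a finite
index subgroup that maps onto the integers -/
theorem fin_hom {G ι : Type} [Group G] [Finite ι] (Q : V → ℤ)
    (hfin : ∀ n : ℤ, {v : V | Q v = n}.Finite) (hzero : ∀ v, Q v = Q 0 → v = 0)
    (Φ : G →* Equiv.Perm (ι × V)) (haff : ∀ γ, IsAff Q (Φ γ)) (γ0 : G) (i0 : ι) (v0 : V)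
    (hv : v0 ≠ 0) (h0 : ∀ v, Φ γ0 (i0, v) = (i0, v + v0)) :
    ∃ Λ : Subgroup G, Λ.FiniteIndex ∧ ∃ f : Λ →* Multiplicative ℤ, Function.Surjective f ∧
      ∀ α : Λ, Φ α = 1 → f α = 1 := by
  let Λ : Subgroup G :=
    { carrier := {g | ∃ u, ∀ v, Φ g (i0, v) = (i0, v + u)}
      one_mem' := ⟨0, fun v => by simp⟩
      mul_mem' := by
        rintro a b ⟨u, hu⟩ ⟨w, hw⟩
        exact ⟨w + u, fun v => by rw [map_mul, Equiv.Perm.mul_apply, hw, hu, add_assoc]⟩
      inv_mem' := by
        rintro a ⟨u, hu⟩
        exact ⟨-u, fun v => by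
          rw [map_inv, Equiv.Perm.inv_eq_iff_eq, hu, neg_add_cancel_right]⟩ }
  choose t M b hM hg using fun γ => haff γ i0
  have hrel : ∀ γ δ, t γ = t δ → M γ = M δ → γ⁻¹ * δ ∈ Λ := fun γ δ h1 h2 => by
    obtain ⟨u, hu⟩ := (iso_bijective Q hfin hzero (M γ) (hM γ)).2 (b δ - b γ)
    refine ⟨u, fun v => ?_⟩
    rw [map_mul, map_inv, Equiv.Perm.mul_apply, Equiv.Perm.inv_eq_iff_eq, hg, hg, map_add, hu, h1, h2]
    congr 1; abel
  have hfinM := (iso_finite_TAff Q hfin).to_subtype
  have hq : Finite (G ⧸ Λ) := by
    refine Finite.of_injective (β := ι × {M : V →+ V | ∀ v, Q (M v) = Q v})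
      (fun q => (t q.out, ⟨M q.out, hM q.out⟩)) fun q q' h => ?_
    have h1 : t q.out = t q'.out := congrArg Prod.fst h
    have h2 : M q.out = M q'.out := congrArg (fun p => p.2.1) h
    rw [← q.out_eq, ← q'.out_eq]
    exact QuotientGroup.eq.2 (hrel _ _ h1 h2)
  refine ⟨Λ, Subgroup.finiteIndex_of_finite_quotient, ?_⟩
  obtain ⟨c, hc⟩ := exists_coord_TAff hv
  let u : Λ → V := fun g => (Φ g (i0, 0)).2
  have hu : ∀ (g : Λ) v, Φ g (i0, v) = (i0, v + u g) := fun g v => by
    obtain ⟨w, hw⟩ := g.2
    have : u g = w := by simp only [u]; rw [hw, zero_add]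
    rw [this, hw]
  have hu1 : u 1 = 0 := by simp [u]
  have humul : ∀ g h : Λ, u (g * h) = u g + u h := fun g h => by
    have : Φ (g * h : Λ) (i0, 0) = (i0, u g + u h) := by
      rw [Subgroup.coe_mul, map_mul, Equiv.Perm.mul_apply, hu, hu, zero_add, add_comm]
    exact congrArg Prod.snd this
  have huinv : ∀ g : Λ, u g⁻¹ = -u g := fun g => by
    have := humul g⁻¹ g
    rw [inv_mul_cancel, hu1] at this
    exact eq_neg_of_add_eq_zero_left this.symm
  let H : AddSubgroup ℤ :=
    { carrier := {n | ∃ g : Λ, c (u g) = n}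
      zero_mem' := ⟨1, by rw [hu1, map_zero]⟩
      add_mem' := by
        rintro _ _ ⟨g, rfl⟩ ⟨h, rfl⟩
        exact ⟨g * h, by rw [humul, map_add]⟩
      neg_mem' := by
        rintro _ ⟨g, rfl⟩
        exact ⟨g⁻¹, by rw [huinv, map_neg]⟩ }
  obtain ⟨a, ha⟩ := Int.subgroup_cyclic H
  have hmem : ∀ n, n ∈ H ↔ a ∣ n := fun n => by
    rw [ha, AddSubgroup.mem_closure_singleton]
    exact ⟨fun ⟨k, hk⟩ => ⟨k, by rw [← hk, smul_eq_mul, mul_comm]⟩,
      fun ⟨k, hk⟩ => ⟨k, by rw [hk, smul_eq_mul, mul_comm]⟩⟩
  have hdvd : ∀ g : Λ, a ∣ c (u g) := fun g => (hmem _).1 ⟨g, rfl⟩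
  have ha0 : a ≠ 0 := by
    rintro rfl
    have h1 := hdvd ⟨γ0, v0, h0⟩
    have h2 : u ⟨γ0, v0, h0⟩ = v0 := by simp only [u]; rw [h0, zero_add]
    rw [h2, zero_dvd_iff] at h1
    exact hc h1
  refine ⟨⟨⟨fun g => Multiplicative.ofAdd (c (u g) / a), by rw [hu1, map_zero]; simp⟩,
    fun g h => ?_⟩, fun n => ?_, fun α hα => ?_⟩
  · show Multiplicative.ofAdd (c (u (g * h)) / a) =
      Multiplicative.ofAdd (c (u g) / a) * Multiplicative.ofAdd (c (u h) / a)
    rw [humul, map_add, Int.add_ediv_of_dvd_left (hdvd g), ofAdd_add]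
  · obtain ⟨g, hg'⟩ := (hmem (n.toAdd * a)).2 (Dvd.intro_left _ rfl)
    refine ⟨g, ?_⟩
    show Multiplicative.ofAdd (c (u g) / a) = n
    rw [hg', Int.mul_ediv_cancel _ ha0, ofAdd_toAdd]
  · show Multiplicative.ofAdd (c (u α) / a) = 1
    have : u α = 0 := by simp only [u]; rw [hα]; rfl
    rw [this, map_zero]; simp

end Pool.Agent.MP_61a8e3_al.T

end

section

set_option autoImplicit false

namespace Pool.Agent.MP_61a8e3_al.A

variable {α β γ : Type}

theorem cyc_rot (U V : List α) : ((U ++ V : List α) : Cycle α) = ↑(V ++ U) := by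
  exact Cycle.coe_eq_coe.2 List.isRotated_append

theorem cyc_of_eq {l l' : List α} (U V : List α) (h : l = U ++ V) (h' : l' = V ++ U) :
    (l : Cycle α) = ↑l' := by
  rw [h, h', cyc_rot]

theorem ACyc_rot {l l' : List α} (h : (l : Cycle α) = ↑l') :
    ∃ U V, l = U ++ V ∧ l' = V ++ U := by
  obtain ⟨n, hn, rfl⟩ := List.isRotated_iff_mod.1 (Cycle.coe_eq_coe.1 h)
  exact ⟨l.take n, l.drop n, (List.take_append_drop n l).symm, List.rotate_eq_drop_append_take hn⟩

theorem ACyc_rep (c : Cycle α) : ∃ l : List α, c = ↑l :=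
  Quotient.inductionOn' c fun l => ⟨l, rfl⟩

theorem cyc_head_inj {a : α} {U V : List α} (hn : (a :: U).Nodup)
    (h : ((a :: U : List α) : Cycle α) = ↑(a :: V)) : U = V := by
  obtain ⟨P, Q, h1, h2⟩ := ACyc_rot h
  rcases P with _ | ⟨p, P⟩
  · simp only [List.nil_append, List.append_nil] at h1 h2
    exact List.tail_eq_of_cons_eq (h1.trans h2.symm)
  rcases Q with _ | ⟨q, Q⟩
  · simp only [List.nil_append, List.append_nil] at h1 h2
    exact List.tail_eq_of_cons_eq (h1.trans h2.symm)
  simp only [List.cons_append, List.cons.injEq] at h1 h2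
  obtain ⟨rfl, rfl⟩ := h1
  obtain ⟨rfl, rfl⟩ := h2
  simp at hn

theorem exists_head {c : Cycle α} {a : α} (h : a ∈ c) : ∃ U : List α, c = ↑(a :: U) := by
  obtain ⟨l, rfl⟩ := ACyc_rep c
  obtain ⟨s, t, rfl⟩ := List.append_of_mem (Cycle.mem_coe_iff.1 h)
  exact ⟨t ++ s, cyc_rot s (a :: t)⟩

theorem exists_split {c : Cycle α} {a b : α} (ha : a ∈ c) (hb : b ∈ c) (hab : a ≠ b) :
    ∃ U V : List α, c = ↑(a :: U ++ b :: V) := by
  obtain ⟨T, rfl⟩ := exists_head ha
  have h : b ∈ T := (List.mem_cons.1 (Cycle.mem_coe_iff.1 hb)).resolve_left hab.symm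
  obtain ⟨s, t, rfl⟩ := List.append_of_mem h
  exact ⟨s, t, rfl⟩

theorem split_inj {b : α} {U V U' V' : List α} (hb : b ∉ U) (hb' : b ∉ U')
    (h : U ++ b :: V = U' ++ b :: V') : U = U' ∧ V = V' := by
  induction U generalizing U' with
  | nil =>
    rcases U' with _ | ⟨u, U'⟩
    · simpa using h
    · simp only [List.nil_append, List.cons_append, List.cons.injEq] at h
      exact absurd (h.1 ▸ List.mem_cons_self) hb'
  | cons u U ih =>
    rcases U' with _ | ⟨u', U'⟩
    · simp only [List.nil_append, List.cons_append, List.cons.injEq] at h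
      exact absurd (h.1 ▸ List.mem_cons_self) hb
    · simp only [List.cons_append, List.cons.injEq] at h
      obtain ⟨h1, h2⟩ := ih (fun hh => hb (List.mem_cons_of_mem _ hh))
        (fun hh => hb' (List.mem_cons_of_mem _ hh)) h.2
      exact ⟨by rw [h.1, h1], h2⟩

theorem Nx_of_mid {c : Cycle α} {p q : α} (U V : List α) (h : c = ↑(U ++ p :: q :: V)) :
    Nx c p q := by
  exact ⟨V ++ U, h.trans (cyc_rot U (p :: q :: V))⟩

theorem Nx_wrap {c : Cycle α} {p q : α} (U : List α) (h : c = ↑(q :: U ++ [p])) : Nx c p q := by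
  exact ⟨U, h.trans (cyc_rot (q :: U) [p])⟩

theorem Nx_cases {l : List α} {p q : α} (h : Nx (l : Cycle α) p q) :
    (∃ U V, l = U ++ p :: q :: V) ∨ (∃ U, l = q :: U ++ [p]) := by
  obtain ⟨T, hT⟩ := h
  obtain ⟨P, Q, rfl, h2⟩ := ACyc_rot hT
  rcases Q with _ | ⟨x, _ | ⟨y, Q⟩⟩
  · exact Or.inl ⟨[], T, by simpa using h2.symm⟩
  · simp only [List.cons_append, List.nil_append, List.cons.injEq] at h2
    obtain ⟨rfl, rfl⟩ := h2
    exact Or.inr ⟨T, rfl⟩
  · simp only [List.cons_append, List.cons.injEq] at h2
    obtain ⟨rfl, rfl, rfl⟩ := h2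
    exact Or.inl ⟨P, Q, rfl⟩

theorem Nx_unique {c : Cycle α} (hn : c.Nodup) {p q q' : α} (h : Nx c p q) (h' : Nx c p q') :
    q = q' := by
  obtain ⟨U, rfl⟩ := h
  obtain ⟨U', h'⟩ := h'
  exact List.head_eq_of_cons_eq (cyc_head_inj (Cycle.nodup_coe_iff.1 hn) h')

theorem Nx_unique_left {c : Cycle α} (hn : c.Nodup) {p p' q : α} (h : Nx c p q)
    (h' : Nx c p' q) : p = p' := by
  obtain ⟨U, h⟩ := h
  obtain ⟨U', h'⟩ := h'
  have e : c = ↑(q :: (U ++ [p])) := h.trans (cyc_rot [p] (q :: U))
  have e' : c = ↑(q :: (U' ++ [p'])) := h'.trans (cyc_rot [p'] (q :: U'))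
  rw [e] at hn e'
  have := List.append_inj_right' (cyc_head_inj (Cycle.nodup_coe_iff.1 hn) e') rfl
  exact List.head_eq_of_cons_eq this

theorem Nx_ne {c : Cycle α} (hn : c.Nodup) {p q : α} (h : Nx c p q) : p ≠ q := by
  obtain ⟨U, rfl⟩ := h
  rintro rfl
  simpa using Cycle.nodup_coe_iff.1 hn

theorem Nx_exists {c : Cycle α} {a b : α} (ha : a ∈ c) (hb : b ∈ c) (hab : a ≠ b) :
    ∃ q, Nx c a q := by
  obtain ⟨U, V, h⟩ := exists_split ha hb hab
  rcases U with _ | ⟨q, U⟩
  · exact ⟨b, V, h⟩
  · exact ⟨q, U ++ b :: V, h⟩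

theorem Nx_exists_left {c : Cycle α} {a b : α} (ha : a ∈ c) (hb : b ∈ c) (hab : a ≠ b) :
    ∃ p, Nx c p a := by
  obtain ⟨U, V, h⟩ := exists_split hb ha hab.symm
  rcases List.eq_nil_or_concat' U with rfl | ⟨U, p, rfl⟩
  · exact ⟨b, V, h⟩
  · exact ⟨p, Nx_of_mid (b :: U) V (by simpa using h)⟩

theorem Nx_map (f : α → β) {c : Cycle α} {p q : α} (h : Nx c p q) :
    Nx (c.map f) (f p) (f q) := by
  obtain ⟨U, rfl⟩ := h
  exact ⟨U.map f, rfl⟩

theorem Nx_of_map (f : α → β) {c : Cycle α} {p' q' : β} (h : Nx (c.map f) p' q') :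
    ∃ p q, Nx c p q ∧ f p = p' ∧ f q = q' := by
  obtain ⟨l, rfl⟩ := ACyc_rep c
  rw [Cycle.map_coe] at h
  rcases Nx_cases h with ⟨U, V, h⟩ | ⟨U, h⟩
  · obtain ⟨l1, l2, rfl, -, h2⟩ := List.map_eq_append_iff.1 h
    obtain ⟨p, l3, rfl, hp, h3⟩ := List.map_eq_cons_iff.1 h2
    obtain ⟨q, l4, rfl, hq, -⟩ := List.map_eq_cons_iff.1 h3
    exact ⟨p, q, Nx_of_mid l1 l4 rfl, hp, hq⟩
  · obtain ⟨l1, l2, rfl, h1, h2⟩ := List.map_eq_append_iff.1 h
    obtain ⟨p, l3, rfl, hp, h3⟩ := List.map_eq_cons_iff.1 h2
    obtain ⟨q, l4, rfl, hq, -⟩ := List.map_eq_cons_iff.1 h1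
    obtain rfl := List.map_eq_nil_iff.1 h3
    exact ⟨p, q, Nx_wrap l4 rfl, hp, hq⟩

/-- A block that avoids `x` lies on one side of `x`. -/
theorem block_side {l U V : List α} {x : α} (h : l <:+: U ++ x :: V) (hx : x ∉ l) :
    l <:+: U ∨ l <:+: V := by
  obtain ⟨s, t, h⟩ := h
  rw [List.append_assoc] at h
  rcases List.append_eq_append_iff.1 h with ⟨a, rfl, h1⟩ | ⟨c, rfl, h1⟩
  · rcases List.append_eq_append_iff.1 h1 with ⟨a', rfl, -⟩ | ⟨c', rfl, h2⟩
    · exact Or.inl ⟨s, a', List.append_assoc _ _ _⟩
    · rcases c' with _ | ⟨y, c'⟩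
      · exact Or.inl ⟨s, [], by simp⟩
      · obtain rfl := List.head_eq_of_cons_eq h2
        exact absurd (by simp) hx
  · rcases c with _ | ⟨y, c⟩
    · rcases l with _ | ⟨y, l⟩
      · exact Or.inl ⟨[], U, rfl⟩
      · obtain rfl := List.head_eq_of_cons_eq h1
        exact absurd (by simp) hx
    · exact Or.inr ⟨c, t, by rw [List.append_assoc]; exact (List.tail_eq_of_cons_eq h1).symm⟩

/-- Values along a block: `G` of each entry is `vl` of the previous one; `u` comes in, `v` goes
out. -/
def Blk (G vl : α → β) (U : List α) (u v : β) : Prop := U.map G ++ [v] = u :: U.map vl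

theorem Blk_nil (G vl : α → β) (u v : β) : Blk G vl [] u v ↔ u = v := by
  simp [Blk, eq_comm]

theorem Blk_cons (G vl : α → β) (a : α) (U : List α) (u v : β) :
    Blk G vl (a :: U) u v ↔ G a = u ∧ Blk G vl U (vl a) v := by
  simp [Blk]

theorem Blk_append (G vl : α → β) (U V : List α) (u v : β) :
    Blk G vl (U ++ V) u v ↔ ∃ m, Blk G vl U u m ∧ Blk G vl V m v := by
  induction U generalizing u with
  | nil => simp [Blk_nil]
  | cons a U ih =>
    simp only [List.cons_append, Blk_cons, ih]
    constructor
    · rintro ⟨h, m, h1, h2⟩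
      exact ⟨m, ⟨h, h1⟩, h2⟩
    · rintro ⟨m, ⟨h, h1⟩, h2⟩
      exact ⟨h, m, h1, h2⟩

theorem Blk_map {G vl : α → β} {G' vl' : α → γ} (φ : β → γ) {U : List α} {u v : β}
    (h : ∀ x ∈ U, G' x = φ (G x) ∧ vl' x = φ (vl x)) (hb : Blk G vl U u v) :
    Blk G' vl' U (φ u) (φ v) := by
  induction U generalizing u with
  | nil =>
    rw [Blk_nil] at hb ⊢
    rw [hb]
  | cons a U ih =>
    rw [Blk_cons] at hb ⊢
    obtain ⟨h1, h2⟩ := h a List.mem_cons_self
    rw [h1, h2, hb.1]
    exact ⟨rfl, ih (fun x hx => h x (List.mem_cons_of_mem _ hx)) hb.2⟩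

theorem ACyc_blk (G vl : α → β) (p : α) (T : List α) (a : α)
    (h : ∀ U x y V, a :: (T ++ [p]) = U ++ x :: y :: V → G y = vl x) :
    Blk G vl (T ++ [p]) (vl a) (vl p) := by
  induction T generalizing a with
  | nil => exact (Blk_cons _ _ _ _ _ _).2 ⟨h [] a p [] rfl, (Blk_nil _ _ _ _).2 rfl⟩
  | cons b T ih =>
    refine (Blk_cons _ _ _ _ _ _).2 ⟨h [] a b (T ++ [p]) rfl, ih b fun U x y V e => ?_⟩
    exact h (a :: U) x y V (by rw [List.cons_append, e]; rfl)

theorem Blk_iff_Nx (G vl : α → β) {l : List α} (hl : 2 ≤ l.length) :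
    (∃ u, Blk G vl l u u) ↔ ∀ p q, Nx (l : Cycle α) p q → G q = vl p := by
  constructor
  · rintro ⟨u, hu⟩ p q h
    rcases Nx_cases h with ⟨U, V, rfl⟩ | ⟨U, rfl⟩
    · obtain ⟨m, -, h2⟩ := (Blk_append _ _ _ _ _ _).1 hu
      exact ((Blk_cons _ _ _ _ _ _).1 ((Blk_cons _ _ _ _ _ _).1 h2).2).1
    · obtain ⟨m, h1, h2⟩ := (Blk_append _ _ _ _ _ _).1 hu
      rw [((Blk_cons _ _ _ _ _ _).1 h1).1]
      exact ((Blk_nil _ _ _ _).1 ((Blk_cons _ _ _ _ _ _).1 h2).2).symm
  · intro h
    rcases l with _ | ⟨a, T⟩
    · simp at hl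
    rcases List.eq_nil_or_concat' T with rfl | ⟨T, p, rfl⟩
    · simp at hl
    refine ⟨vl p, (Blk_cons _ _ _ _ _ _).2 ⟨h p a (Nx_wrap T rfl), ACyc_blk G vl p T a ?_⟩⟩
    intro U x y V e
    exact h x y (Nx_of_mid U V (by rw [e]))

theorem IsCut.compl [Fintype α] [DecidableEq α] {c : Cycle α} (hn : c.Nodup) (hf : ∀ x, x ∈ c)
    {A : Finset α} (h : IsCut c A) : IsCut c Aᶜ := by
  obtain ⟨I, J, rfl, h⟩ := h
  refine ⟨J, I, cyc_rot I J, fun x => ?_⟩
  have h1 := List.mem_append.1 (Cycle.mem_coe_iff.1 (hf x))
  have h2 := List.disjoint_of_nodup_append (Cycle.nodup_coe_iff.1 hn)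
  rw [Finset.mem_compl, h]
  exact ⟨h1.resolve_left, fun hJ hI => h2 hI hJ⟩

theorem ACyc_cut_block {x : α} {T : List α} (hn : (x :: T).Nodup) {A : Finset α}
    (hA : IsCut ((x :: T : List α) : Cycle α) A) (hx : x ∉ A) :
    ∃ P I Q, T = P ++ (I ++ Q) ∧ ∀ y, y ∈ A ↔ y ∈ I := by
  obtain ⟨I, J, e, h⟩ := hA
  have h1 : x ∈ ((I ++ J : List α) : Cycle α) := e ▸ Cycle.mem_coe_iff.2 List.mem_cons_self
  have h2 : x ∈ J :=
    (List.mem_append.1 (Cycle.mem_coe_iff.1 h1)).resolve_left fun hh => hx ((h x).2 hh)
  obtain ⟨Q, P, rfl⟩ := List.append_of_mem h2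
  refine ⟨P, I, Q, cyc_head_inj hn (e.trans ?_), h⟩
  exact cyc_of_eq (I ++ Q) (x :: P) (List.append_assoc _ _ _).symm rfl

theorem ACyc_two_blocks {I Q a J Q' : List α} (hn : (I ++ Q).Nodup)
    (h : I ++ Q = a ++ (J ++ Q')) :
    ∃ R K S, I ++ Q = R ++ (K ++ S) ∧ ∀ y, y ∈ K ↔ y ∈ I ∧ y ∈ J := by
  have hd := List.disjoint_of_nodup_append hn
  rcases List.append_eq_append_iff.1 h with ⟨a', rfl, rfl⟩ | ⟨I2, rfl, h1⟩
  · refine ⟨[], [], _, rfl, fun y => ⟨fun hy => absurd hy List.not_mem_nil, fun hy => ?_⟩⟩
    exact (hd hy.1 (by simp [hy.2])).elim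
  · rcases List.append_eq_append_iff.1 h1 with ⟨I3, rfl, rfl⟩ | ⟨J2, rfl, rfl⟩
    · exact ⟨a, J, I3 ++ Q, by simp, fun y => ⟨fun hy => ⟨by simp [hy], hy⟩, fun hy => hy.2⟩⟩
    · refine ⟨a, I2, J2 ++ Q', by simp, fun y => ⟨fun hy => ⟨by simp [hy], by simp [hy]⟩, ?_⟩⟩
      rintro ⟨h1, h2⟩
      rcases List.mem_append.1 h2 with h2 | h2
      · exact h2
      · exact (hd h1 (by simp [h2])).elim

theorem IsCut.inter [DecidableEq α] {c : Cycle α} (hn : c.Nodup) {A B : Finset α}
    (hA : IsCut c A) (hB : IsCut c B) {x : α} (hx : x ∈ c) (hxA : x ∉ A) (hxB : x ∉ B) :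
    IsCut c (A ∩ B) := by
  obtain ⟨T, rfl⟩ := exists_head hx
  have hn' := Cycle.nodup_coe_iff.1 hn
  obtain ⟨P, I, Q, e, hI⟩ := ACyc_cut_block hn' hA hxA
  obtain ⟨P', J, Q', e', hJ⟩ := ACyc_cut_block hn' hB hxB
  have hT : T.Nodup := hn'.of_cons
  have key : ∃ R K S, T = R ++ (K ++ S) ∧ ∀ y, y ∈ K ↔ y ∈ I ∧ y ∈ J := by
    rcases List.append_eq_append_iff.1 (e.symm.trans e') with ⟨a, rfl, h1⟩ | ⟨a, rfl, h1⟩
    · obtain ⟨R, K, S, h2, h3⟩ :=
        ACyc_two_blocks (List.Nodup.of_append_right (e ▸ hT : (P ++ (I ++ Q)).Nodup)) h1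
      exact ⟨P ++ R, K, S, by rw [e, h2, List.append_assoc], h3⟩
    · obtain ⟨R, K, S, h2, h3⟩ :=
        ACyc_two_blocks (List.Nodup.of_append_right (e' ▸ hT : (P' ++ (J ++ Q')).Nodup)) h1
      exact ⟨P' ++ R, K, S, by rw [e', h2, List.append_assoc], fun y => (h3 y).trans and_comm⟩
  obtain ⟨R, K, S, rfl, hK⟩ := key
  refine ⟨K, S ++ x :: R, cyc_of_eq (x :: R) (K ++ S) rfl (List.append_assoc _ _ _).symm,
    fun y => ?_⟩
  rw [Finset.mem_inter, hI, hJ, hK]

/-- A path with at most one colour change splits into two monochromatic pieces. -/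
theorem path_split (P : α → Prop) {Q : List α} (hn : Q.Nodup)
    (h : ∀ U p q V U' p' q' V', Q = U ++ p :: q :: V → ¬ (P p ↔ P q) →
      Q = U' ++ p' :: q' :: V' → ¬ (P p' ↔ P q') → q = q') :
    ∃ Q1 Q2, Q = Q1 ++ Q2 ∧ (∀ x ∈ Q1, ∀ y ∈ Q1, (P x ↔ P y)) ∧
      (∀ x ∈ Q2, ∀ y ∈ Q2, (P x ↔ P y)) := by
  induction Q with
  | nil => exact ⟨[], [], rfl, by simp, by simp⟩
  | cons a Q ih =>
    have hs : ∀ x ∈ [a], ∀ y ∈ [a], (P x ↔ P y) := by
      intro x hx y hy
      rw [List.mem_singleton.1 hx, List.mem_singleton.1 hy]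
    obtain ⟨Q1, Q2, rfl, h1, h2⟩ := ih hn.of_cons fun U p q V U' p' q' V' e c e' c' =>
      h (a :: U) p q V (a :: U') p' q' V' (by rw [e]; rfl) c (by rw [e']; rfl) c'
    rcases Q1 with _ | ⟨b, Q1⟩
    · exact ⟨[a], Q2, rfl, hs, h2⟩
    by_cases hab : P a ↔ P b
    · refine ⟨a :: b :: Q1, Q2, rfl, ?_, h2⟩
      have h3 : ∀ x ∈ a :: b :: Q1, (P x ↔ P b) := by
        intro x hx
        rcases List.mem_cons.1 hx with rfl | hx
        · exact hab
        · exact h1 x hx b List.mem_cons_self
      exact fun x hx y hy => (h3 x hx).trans (h3 y hy).symm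
    rcases Q2 with _ | ⟨d, Q2⟩
    · exact ⟨[a], b :: Q1, by simp, hs, h1⟩
    obtain ⟨Q3, e, he⟩ : ∃ Q3 e, b :: Q1 = Q3 ++ [e] :=
      (List.eq_nil_or_concat' (b :: Q1)).resolve_left (List.cons_ne_nil _ _)
    have hem : e ∈ b :: Q1 := by rw [he]; simp
    by_cases hed : P e ↔ P d
    · refine ⟨[a], b :: Q1 ++ d :: Q2, rfl, hs, ?_⟩
      have h3 : ∀ x ∈ b :: Q1 ++ d :: Q2, (P x ↔ P d) := by
        intro x hx
        rcases List.mem_append.1 hx with hx | hx
        · exact (h1 x hx e hem).trans hed
        · exact h2 x hx d List.mem_cons_self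
      exact fun x hx y hy => (h3 x hx).trans (h3 y hy).symm
    · obtain rfl := h [] a b (Q1 ++ d :: Q2) (a :: Q3) e d Q2 rfl hab (by rw [he]; simp) hed
      exact (List.disjoint_of_nodup_append hn.of_cons List.mem_cons_self List.mem_cons_self).elim

theorem cut_of_two {c : Cycle α} (hn : c.Nodup) {A : Finset α} (hA : ∀ x ∈ A, x ∈ c)
    (h : ∀ p q p' q' p'' q'', Nx c p q → ¬ (p ∈ A ↔ q ∈ A) → Nx c p' q' → ¬ (p' ∈ A ↔ q' ∈ A) →
      Nx c p'' q'' → ¬ (p'' ∈ A ↔ q'' ∈ A) → q = q' ∨ q = q'' ∨ q' = q'') : IsCut c A := by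
  have key : ∃ l : List α, c = ↑l ∧ ∀ U p q V U' p' q' V', l = U ++ p :: q :: V →
      ¬ (p ∈ A ↔ q ∈ A) → l = U' ++ p' :: q' :: V' → ¬ (p' ∈ A ↔ q' ∈ A) → q = q' := by
    by_cases hc : ∃ p q, Nx c p q ∧ ¬ (p ∈ A ↔ q ∈ A)
    · obtain ⟨p, q, ⟨T, hT⟩, hpq⟩ := hc
      have e : c = ↑(q :: T ++ [p]) := hT.trans (cyc_rot [p] (q :: T))
      have hn' : (q :: T ++ [p]).Nodup := Cycle.nodup_coe_iff.1 (e ▸ hn)
      have hq : ∀ U p' V, q :: T ++ [p] ≠ U ++ p' :: q :: V := by
        intro U p' V e'
        have h1 : q ∉ T ++ [p] := (List.nodup_cons.1 hn').1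
        rcases U with _ | ⟨u, U⟩
        · have e2 : T ++ [p] = q :: V := List.tail_eq_of_cons_eq e'
          exact h1 (by rw [e2]; simp)
        · have e2 : T ++ [p] = U ++ p' :: q :: V := List.tail_eq_of_cons_eq e'
          exact h1 (by rw [e2]; simp)
      refine ⟨_, e, fun U p1 q1 V U' p2 q2 V' e1 c1 e2 c2 => ?_⟩
      rcases h p q p1 q1 p2 q2 ⟨T, hT⟩ hpq (Nx_of_mid U V (by rw [e, e1])) c1
        (Nx_of_mid U' V' (by rw [e, e2])) c2 with rfl | rfl | h3
      · exact absurd e1 (hq _ _ _)
      · exact absurd e2 (hq _ _ _)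
      · exact h3
    · obtain ⟨l, rfl⟩ := ACyc_rep c
      refine ⟨l, rfl, fun U p q V U' p' q' V' e1 c1 _ _ => ?_⟩
      exact absurd ⟨p, q, Nx_of_mid U V (by rw [e1]), c1⟩ hc
  obtain ⟨l, rfl, hl⟩ := key
  obtain ⟨Q1, Q2, rfl, h1, h2⟩ := path_split (fun x => x ∈ A) (Cycle.nodup_coe_iff.1 hn) hl
  have hm : ∀ x ∈ A, x ∈ Q1 ∨ x ∈ Q2 := fun x hx =>
    List.mem_append.1 (Cycle.mem_coe_iff.1 (hA x hx))
  by_cases c1 : ∃ x ∈ Q1, x ∈ A <;> by_cases c2 : ∃ x ∈ Q2, x ∈ A
  · obtain ⟨x, hx, hxA⟩ := c1
    obtain ⟨y, hy, hyA⟩ := c2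
    refine ⟨Q1 ++ Q2, [], by rw [List.append_nil], fun z => ⟨fun hz => List.mem_append.2 (hm z hz),
      fun hz => ?_⟩⟩
    rcases List.mem_append.1 hz with hz | hz
    · exact (h1 x hx z hz).1 hxA
    · exact (h2 y hy z hz).1 hyA
  · obtain ⟨x, hx, hxA⟩ := c1
    exact ⟨Q1, Q2, rfl, fun z => ⟨fun hz => (hm z hz).resolve_right fun h' => c2 ⟨z, h', hz⟩,
      fun hz => (h1 x hx z hz).1 hxA⟩⟩
  · obtain ⟨y, hy, hyA⟩ := c2
    exact ⟨Q2, Q1, cyc_rot _ _, fun z => ⟨fun hz => (hm z hz).resolve_left fun h' => c1 ⟨z, h', hz⟩,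
      fun hz => (h2 y hy z hz).1 hyA⟩⟩
  · refine ⟨[], Q1 ++ Q2, rfl, fun z => ⟨fun hz => ?_, fun hz => absurd hz List.not_mem_nil⟩⟩
    rcases hm z hz with h' | h'
    · exact absurd ⟨z, h', hz⟩ c1
    · exact absurd ⟨z, h', hz⟩ c2

theorem cyc_ext {c c' : Cycle α} (hn : c.Nodup) (hn' : c'.Nodup) (hm : ∀ x, x ∈ c ↔ x ∈ c')
    (h : ∀ p q, Nx c p q → Nx c' p q) : c = c' := by
  have step : ∀ (U V P : List α) (a : α), c = ↑(P ++ a :: U) → c' = ↑(P ++ a :: V) →
      U.length = V.length → U = V := by
    intro U
    induction U with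
    | nil => exact fun V _ _ _ _ hl => (List.length_eq_zero_iff.1 hl.symm).symm
    | cons u U ih =>
      intro V P a e e' hl
      rcases V with _ | ⟨v, V⟩
      · simp at hl
      obtain rfl : u = v := Nx_unique hn' (h a u (Nx_of_mid P U e)) (Nx_of_mid P V e')
      rw [ih V (P ++ [a]) u (by simpa using e) (by simpa using e') (by simpa using hl)]
  obtain ⟨l, hl⟩ := ACyc_rep c
  rcases l with _ | ⟨a, U⟩
  · obtain ⟨l', rfl⟩ := ACyc_rep c'
    rcases l' with _ | ⟨a, V⟩
    · exact hl
    · have := (hm a).2 (Cycle.mem_coe_iff.2 List.mem_cons_self)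
      rw [hl] at this
      exact absurd (Cycle.mem_coe_iff.1 this) List.not_mem_nil
  · obtain ⟨V, hV⟩ := exists_head ((hm a).1 (hl ▸ Cycle.mem_coe_iff.2 List.mem_cons_self))
    have hp : (a :: U).Perm (a :: V) := by
      refine (List.perm_ext_iff_of_nodup (Cycle.nodup_coe_iff.1 (hl ▸ hn))
        (Cycle.nodup_coe_iff.1 (hV ▸ hn'))).2 fun x => ?_
      rw [← Cycle.mem_coe_iff, ← Cycle.mem_coe_iff, ← hl, ← hV]
      exact hm x
    rw [hl, hV, step U V [] a hl hV (by simpa using hp.length_eq)]

theorem red_map (π : W) (o : Cycle (Option L)) :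
    red (o.map (Option.map π.1)) = (red o).map π.1 := by
  obtain ⟨l, rfl⟩ := ACyc_rep o
  rw [Cycle.map_coe, red_coe, red_coe, Cycle.map_coe, List.reduceOption_map]

/-- The four-cycle `b ↦ a ↦ bar b ↦ bar a ↦ b`. -/
def ACyc_f (a b l : L) : L :=
  if l = b then a else if l = a then bar b else if l = bar b then bar a else
    if l = bar a then b else l

/-- The inverse four-cycle. -/
def ACyc_g (a b l : L) : L :=
  if l = a then b else if l = bar b then a else if l = bar a then bar b else
    if l = b then bar a else l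

theorem ACyc_fg (a b : L) (h : a.1 ≠ b.1) : (ACyc_f a b b = a ∧ ACyc_f a b a = bar b) ∧
    ∀ l, ACyc_g a b (ACyc_f a b l) = l ∧ ACyc_f a b (ACyc_g a b l) = l ∧
      ACyc_f a b (bar l) = bar (ACyc_f a b l) ∧ (l.1 ≠ a.1 → l.1 ≠ b.1 → ACyc_f a b l = l) := by
  have n1 : a ≠ b := fun e => h (by rw [e])
  have n2 : a ≠ bar b := fun e => h (by rw [e]; rfl)
  have n3 : bar a ≠ b := fun e => h (by rw [← e]; rfl)
  have n4 : bar a ≠ bar b := fun e => n1 (bar_inj e)
  have n5 := bar_ne a
  have n6 := bar_ne b
  refine ⟨by simp [ACyc_f, n1], fun l => ?_⟩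
  by_cases c1 : l = a
  · subst c1
    simp [ACyc_f, ACyc_g, n1, n3, n4, n5, n2.symm]
  by_cases c2 : l = b
  · subst c2
    simp [ACyc_f, ACyc_g, n1, n3, n4, n5, n6, n1.symm, n2.symm, n3.symm, n6.symm]
  by_cases c3 : l = bar a
  · subst c3
    simp [ACyc_f, ACyc_g, n1, n3, n4, n5, n6, n1.symm, n2.symm, n3.symm, n6.symm]
  by_cases c4 : l = bar b
  · subst c4
    simp [ACyc_f, ACyc_g, n1, n4, n5, n6, n2.symm]
  have d1 : bar l ≠ a := fun e => c3 (by rw [← e, bar_bar])
  have d2 : bar l ≠ b := fun e => c4 (by rw [← e, bar_bar])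
  have d3 : bar l ≠ bar a := fun e => c1 (bar_inj e)
  have d4 : bar l ≠ bar b := fun e => c2 (bar_inj e)
  simp [ACyc_f, ACyc_g, c1, c2, c3, c4, d1, d2, d3, d4]

theorem exists_tri {a b : L} (h : a.1 ≠ b.1) : ∃ π : W, IsTri π a b := by
  obtain ⟨h1, h2⟩ := ACyc_fg a b h
  exact ⟨⟨⟨ACyc_f a b, ACyc_g a b, fun l => (h2 l).1, fun l => (h2 l).2.1⟩,
    fun l => (h2 l).2.2.1⟩, h1.1, h1.2, fun l => (h2 l).2.2.2⟩

end Pool.Agent.MP_61a8e3_al.A

end

section

set_option autoImplicit false

namespace Pool.Agent.MP_61a8e3_al.A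

/-- A word containing every letter exactly once. -/
def Valid (u : List L) : Prop := u.Nodup ∧ ∀ l, l ∈ u

theorem mem_allL (l : L) : l ∈ allL := by revert l; decide

theorem Valid.length {u : List L} (h : Valid u) : u.length = 12 := by
  have : u.Perm allL := (List.perm_ext_iff_of_nodup h.1 (by decide)).2
    (fun l => ⟨fun _ => mem_allL l, fun _ => h.2 l⟩)
  rw [this.length_eq]; rfl

theorem valid_of_length {u : List L} (h : u.length = 12) (hm : ∀ l, l ∈ u) : Valid u := by
  have h1 : allL.Subperm u := List.subperm_of_subset (by decide) (fun l _ => hm l)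
  have h2 : allL.Perm u := h1.perm_of_length_le (by rw [h]; decide)
  exact ⟨h2.nodup_iff.1 (by decide), hm⟩

theorem Valid.perm {u v : List L} (h : Valid u) (hp : u.Perm v) : Valid v :=
  ⟨hp.nodup_iff.1 h.1, fun l => hp.mem_iff.1 (h.2 l)⟩

theorem Valid.map {u : List L} (h : Valid u) (π : Equiv.Perm L) : Valid (u.map π) :=
  ⟨h.1.map π.injective, fun l => List.mem_map.2 ⟨π.symm l, h.2 _, by simp⟩⟩

theorem Valid.rotate {u : List L} (h : Valid u) (k : ℕ) : Valid (u.rotate k) :=
  h.perm (List.rotate_perm u k).symm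

theorem valid_w0L : Valid w0L := ⟨by decide, by decide⟩

theorem BList_tw {a : L} {U V : List L} (h : a ∉ U) :
    (U ++ a :: V).takeWhile (fun l => l != a) = U ∧
      (U ++ a :: V).dropWhile (fun l => l != a) = a :: V := by
  induction U with
  | nil => simp
  | cons x U ih =>
    have hx : x ≠ a := fun e => h (by simp [e])
    have hU : a ∉ U := fun e => h (by simp [e])
    simp [List.takeWhile_cons, List.dropWhile_cons, hx, ih hU]

theorem slide_eq {a t : L} {U V : List L} (h : bar a ∉ U) :
    slide (a :: t :: U ++ bar a :: V) = a :: U ++ t :: bar a :: V := by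
  simp only [List.cons_append, slide, (BList_tw h).1, (BList_tw h).2]

theorem unslide_eq {a t : L} {U V : List L} (h : bar a ∉ U) (ht : t ≠ bar a) :
    unslide (a :: U ++ t :: bar a :: V) = a :: t :: U ++ bar a :: V := by
  have h' : bar a ∉ U ++ [t] := by simp [h, Ne.symm ht]
  have e : U ++ t :: bar a :: V = (U ++ [t]) ++ bar a :: V := by simp
  simp only [List.cons_append, unslide]
  rw [e, (BList_tw h').1, (BList_tw h').2]
  simp

/-- A valid word whose second letter is not the inverse of the first has the slide pattern. -/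
theorem Valid.pattern {a t : L} {U : List L} (h : Valid (a :: t :: U)) (ht : t ≠ bar a) :
    ∃ U1 V, U = U1 ++ bar a :: V ∧ bar a ∉ U1 := by
  have hm : bar a ∈ U := by
    have := h.2 (bar a)
    simpa [bar_ne a, Ne.symm ht] using this
  obtain ⟨U1, V, rfl⟩ := List.append_of_mem hm
  refine ⟨U1, V, rfl, fun h1 => ?_⟩
  have h2 := h.1
  simp only [List.nodup_cons, List.nodup_append, List.mem_cons] at h2
  exact h2.2.2.2.2 _ h1 _ (Or.inl rfl) rfl

theorem slide_perm (u : List L) : (slide u).Perm u := by
  match u with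
  | [] => exact List.Perm.refl _
  | [_] => exact List.Perm.refl _
  | a :: t :: U =>
    simp only [slide]
    refine List.Perm.cons _ (List.perm_middle.trans ?_)
    rw [List.takeWhile_append_dropWhile]

theorem slide_head (u : List L) : (slide u).head? = u.head? := by
  match u with
  | [] => rfl
  | [_] => rfl
  | a :: t :: U => rfl

theorem BList_ne (π : W) (a l : L) : (π.1 l != bar (π.1 a)) = (l != bar a) := by
  rw [← W_bar]
  by_cases h : l = bar a
  · simp [h]
  · have : π.1 l ≠ π.1 (bar a) := fun e => h (π.1.injective e)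
    rw [bne_iff_ne.2 h, bne_iff_ne.2 this]

theorem slide_map (π : W) (u : List L) : slide (u.map π.1) = (slide u).map π.1 := by
  match u with
  | [] => rfl
  | [_] => rfl
  | a :: t :: U =>
    simp only [slide, List.map_cons, List.map_append, List.takeWhile_map, List.dropWhile_map]
    have : ((fun l => l != bar (π.1 a)) ∘ π.1) = fun l => l != bar a :=
      funext (fun l => BList_ne π a l)
    rw [this]

theorem idxOf_map (π : Equiv.Perm L) (b : L) (u : List L) :
    (u.map π).idxOf (π b) = u.idxOf b := by
  induction u with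
  | nil => rfl
  | cons x u ih =>
    by_cases h : x = b
    · simp [h]
    · have : π x ≠ π b := fun e => h (π.injective e)
      simp [List.idxOf_cons, h, this, ih]

theorem shape_map (π : W) (u : List L) : shape (u.map π.1) = shape u := by
  unfold shape
  rw [List.map_map]
  apply List.map_congr_left
  intro l _
  simp only [Function.comp]
  rw [← W_bar, idxOf_map]

theorem map_inj_of_valid {u : List L} (h : Valid u) {π σ : W} (e : u.map π.1 = u.map σ.1) :
    π = σ :=
  Subtype.ext (Equiv.ext (fun l => List.map_inj_left.1 e l (h.2 l)))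

theorem iso_of_shape {u v : List L} (hu : Valid u) (hv : Valid v) (h : shape u = shape v) :
    ∃ π : W, v = u.map π.1 := by
  have hl : ∀ l, u.idxOf l < v.length := fun l => by
    rw [hv.length, ← hu.length]; exact List.idxOf_lt_length_of_mem (hu.2 l)
  have hlu : ∀ l, u.idxOf l < u.length := fun l => List.idxOf_lt_length_of_mem (hu.2 l)
  let f : L → L := fun l => v[u.idxOf l]'(hl l)
  have hf : ∀ l, v.idxOf (f l) = u.idxOf l := fun l => List.Nodup.idxOf_getElem hv.1 _ _
  have hinj : Function.Injective f := by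
    intro l m e
    have : u.idxOf l = u.idxOf m := by rw [← hf, ← hf, e]
    exact (List.idxOf_inj (hu.2 l)).1 this
  have hsh : ∀ l, u.idxOf (bar l) = v.idxOf (bar (f l)) := by
    intro l
    have h1 : (shape u)[u.idxOf l]? = (shape v)[u.idxOf l]? := by rw [h]
    unfold shape at h1
    rw [List.getElem?_map, List.getElem?_map, List.getElem?_eq_getElem (hlu l),
      List.getElem?_eq_getElem (hl l)] at h1
    simpa [List.getElem_idxOf] using h1
  refine ⟨⟨Equiv.ofBijective f (Finite.injective_iff_bijective.1 hinj), fun l => ?_⟩, ?_⟩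
  · show f (bar l) = bar (f l)
    have : v.idxOf (f (bar l)) = v.idxOf (bar (f l)) := by rw [hf, hsh]
    exact (List.idxOf_inj (hv.2 _)).1 this
  · apply List.ext_getElem
    · simp [hu.length, hv.length]
    · intro i h1 h2
      simp only [List.getElem_map]
      show v[i] = f _
      simp only [f]
      congr 1
      exact (List.Nodup.idxOf_getElem hu.1 _ _).symm

theorem rotate_idxOf {u : List L} {b : L} (hb : b ∈ u) :
    ∃ U V, u = U ++ b :: V ∧ b ∉ U ∧ u.idxOf b = U.length ∧
      u.rotate (u.idxOf b) = b :: V ++ U := by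
  induction u with
  | nil => simp at hb
  | cons x u ih =>
    by_cases h : x = b
    · subst h
      exact ⟨[], u, rfl, by simp, by simp, by simp⟩
    · obtain ⟨U, V, rfl, h1, h2, -⟩ := ih (by simpa [Ne.symm h] using hb)
      have h3 : (x :: (U ++ b :: V)).idxOf b = (x :: U).length := by
        rw [List.idxOf_cons_ne _ h, h2]; rfl
      refine ⟨x :: U, V, rfl, by simp [Ne.symm h, h1], h3, ?_⟩
      rw [h3, ← List.cons_append, List.rotate_append_length_eq]

theorem head_rotate_idxOf {u : List L} {b : L} (hb : b ∈ u) :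
    (u.rotate (u.idxOf b)).head? = some b := by
  obtain ⟨U, V, -, -, -, h⟩ := rotate_idxOf hb
  rw [h]; rfl

theorem idx_of_head {u : List L} (hu : Valid u) {a : L} {j : ℕ}
    (h : (u.rotate j).head? = some a) : j % 12 = u.idxOf a := by
  have hl := hu.length
  have hj : j % 12 < u.length := by rw [hl]; exact Nat.mod_lt _ (by norm_num)
  rw [← List.rotate_mod, hl, List.head?_rotate hj, List.getElem?_eq_getElem hj] at h
  rw [← Option.some.inj h]
  exact (List.Nodup.idxOf_getElem hu.1 _ _).symm

theorem succL_eq {u : List L} (hu : Valid u) {b c : L} (h : Nx (u : Cycle L) b c) :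
    succL u b = c := by
  obtain ⟨U, V, -, -, -, h4⟩ := rotate_idxOf (hu.2 b)
  obtain ⟨M, hM⟩ := h
  have h5 : ((b :: (V ++ U) : List L) : Cycle L) = ↑(b :: (c :: M)) := by
    rw [← hM, ← List.cons_append, ← h4]
    exact Cycle.coe_eq_coe.2 (List.IsRotated.symm ⟨_, rfl⟩)
  have h6 : (b :: (V ++ U)).Nodup := by
    rw [← List.cons_append, ← h4]; exact (hu.rotate _).1
  have h7 := cyc_head_inj h6 h5
  unfold succL
  rw [h4, List.cons_append, h7]
  rfl

theorem okShape_iff {u : List L} (h : okShape u = true) :
    ∃ a t U, u = a :: t :: U ∧ Valid u ∧ t ≠ bar a ∧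
      simW u (fw [a, t, bar a]) (bar t) = u.map (triF a t) ∧
      ∀ c ∈ cells u, simW u (fw c.1) a = simW u (fw c.2) a := by
  match u, h with
  | a :: t :: U, h =>
    simp only [okShape, Bool.and_eq_true, beq_iff_eq, List.all_eq_true, bne_iff_ne,
      List.contains_iff_mem] at h
    exact ⟨a, t, U, rfl, valid_of_length h.1.1.1.1 (fun l => h.1.1.1.2 l (mem_allL l)),
      h.1.1.2, h.1.2, h.2⟩

theorem triF_eq {π : W} {a b : L} (h : IsTri π a b) (l : L) : π.1 l = triF a b l := by
  unfold triF
  split_ifs with h1 h2 h3 h4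
  · rw [h1, h.1]
  · rw [h2, h.2.1]
  · rw [h3, W_bar, h.1]
  · rw [h4, W_bar, h.2.1, bar_bar]
  · apply h.2.2
    · intro e; rcases eq_or_bar e with e | e
      · exact h2 e
      · exact h4 e
    · intro e; rcases eq_or_bar e with e | e
      · exact h1 e
      · exact h3 e

end Pool.Agent.MP_61a8e3_al.A

end

section

set_option autoImplicit false

namespace Pool.Agent.MP_61a8e3_al.A

theorem perm_apply_inv {α : Type} (f : Equiv.Perm α) (x : α) : f (f⁻¹ x) = x :=
  f.apply_symm_apply x

theorem perm_inv_apply {α : Type} (f : Equiv.Perm α) (x : α) : f⁻¹ (f x) = x :=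
  f.symm_apply_apply x

namespace Tab

variable {Xc : Type} (Tb : Tab Xc)

theorem valid (x : Xc) : Valid (Tb.cw x) := by
  obtain ⟨_, _, _, -, h, -⟩ := okShape_iff (Tb.ok x)
  exact h

theorem ex_T (x : Xc) : ∃ π : W, Tb.cw (Tb.T x) = (slide (Tb.cw x)).map π.1 :=
  iso_of_shape ((Tb.valid x).perm (slide_perm _).symm) (Tb.valid _) (Tb.sh_T x).symm

theorem ex_ρ (x : Xc) : ∃ π : W, Tb.cw (Tb.ρ x) = ((Tb.cw x).rotate 1).map π.1 :=
  iso_of_shape ((Tb.valid x).rotate 1) (Tb.valid _) (Tb.sh_ρ x).symm

/-- Lift of a permutation of `Xc` to labelled points. -/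
def lift (P : Equiv.Perm Xc) (τ : Xc → W) : Equiv.Perm (W × Xc) where
  toFun s := (s.1 * (τ s.2)⁻¹, P s.2)
  invFun s := (s.1 * τ (P⁻¹ s.2), P⁻¹ s.2)
  left_inv s := by simp
  right_inv s := by simp

noncomputable def T' : Equiv.Perm (W × Xc) := lift Tb.T (fun x => (Tb.ex_T x).choose)
noncomputable def ρ' : Equiv.Perm (W × Xc) := lift Tb.ρ (fun x => (Tb.ex_ρ x).choose)

/-- The labelled word of a labelled point. -/
def wd (s : W × Xc) : List L := (Tb.cw s.2).map s.1.1

/-- Relabelling of a labelled point. -/
def lw (π : W) (s : W × Xc) : W × Xc := (π * s.1, s.2)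

theorem wd_valid (s : W × Xc) : Valid (Tb.wd s) := (Tb.valid _).map _

theorem wd_lw (π : W) (s : W × Xc) : Tb.wd (lw π s) = (Tb.wd s).map π.1 := by
  simp [wd, lw]

theorem BSys_map (σ τ : W) (u : List L) : (u.map τ.1).map (σ * τ⁻¹).1 = u.map σ.1 := by
  rw [List.map_map]
  apply List.map_congr_left
  intro l _
  simp

theorem wd_T' (s : W × Xc) : Tb.wd (Tb.T' s) = slide (Tb.wd s) := by
  show (Tb.cw (Tb.T s.2)).map (s.1 * ((Tb.ex_T s.2).choose)⁻¹).1 = _
  have h := (Tb.ex_T s.2).choose_spec
  generalize (Tb.ex_T s.2).choose = τ at h ⊢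
  rw [h, BSys_map, wd, slide_map]

theorem wd_ρ' (s : W × Xc) : Tb.wd (Tb.ρ' s) = (Tb.wd s).rotate 1 := by
  show (Tb.cw (Tb.ρ s.2)).map (s.1 * ((Tb.ex_ρ s.2).choose)⁻¹).1 = _
  have h := (Tb.ex_ρ s.2).choose_spec
  generalize (Tb.ex_ρ s.2).choose = τ at h ⊢
  rw [h, BSys_map, wd, List.map_rotate]

theorem wd_pattern (s : W × Xc) : ∃ a t U V, Tb.wd s = a :: t :: U ++ bar a :: V ∧
    bar a ∉ U ∧ t ≠ bar a := by
  obtain ⟨a, t, U, h, -, ht, -⟩ := okShape_iff (Tb.ok s.2)
  have h1 : Tb.wd s = s.1.1 a :: s.1.1 t :: U.map s.1.1 := by rw [wd, h]; rfl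
  have h2 : s.1.1 t ≠ bar (s.1.1 a) := by
    rw [← W_bar]; exact fun e => ht (s.1.1.injective e)
  obtain ⟨U1, V, hU, hn⟩ := Valid.pattern (h1 ▸ Tb.wd_valid s) h2
  exact ⟨_, _, U1, V, by rw [h1, hU]; rfl, hn, h2⟩

theorem wd_T'inv (s : W × Xc) : Tb.wd (Tb.T'⁻¹ s) = unslide (Tb.wd s) := by
  obtain ⟨a, t, U, V, h, hn, ht⟩ := Tb.wd_pattern (Tb.T'⁻¹ s)
  have h1 := Tb.wd_T' (Tb.T'⁻¹ s)
  rw [perm_apply_inv, h, slide_eq hn] at h1
  rw [h1, unslide_eq hn ht, h]

theorem ext' {s t : W × Xc} (h2 : s.2 = t.2) (h1 : Tb.wd s = Tb.wd t) : s = t := by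
  refine Prod.ext ?_ h2
  unfold wd at h1
  rw [h2] at h1
  exact map_inj_of_valid (Tb.valid _) h1

theorem ρ'_pow (k : ℕ) (s : W × Xc) :
    ((Tb.ρ' ^ k) s).2 = (Tb.ρ ^ k) s.2 ∧ Tb.wd ((Tb.ρ' ^ k) s) = (Tb.wd s).rotate k := by
  induction k with
  | zero => simp
  | succ k ih =>
    rw [pow_succ', pow_succ', Equiv.Perm.mul_apply, Equiv.Perm.mul_apply, wd_ρ', ih.2,
      List.rotate_rotate, ← ih.1]
    exact ⟨rfl, rfl⟩

theorem ρ'_12 : Tb.ρ' ^ 12 = 1 := by
  ext1 s
  apply Tb.ext'
  · rw [(Tb.ρ'_pow 12 s).1, Tb.ρ12]; rfl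
  · rw [(Tb.ρ'_pow 12 s).2, ← (Tb.wd_valid s).length, List.rotate_length]; rfl

theorem lw_T' (π : W) (s : W × Xc) : Tb.T' (lw π s) = lw π (Tb.T' s) := by
  simp [T', lift, lw, mul_assoc]

theorem lw_T'inv (π : W) (s : W × Xc) : Tb.T'⁻¹ (lw π s) = lw π (Tb.T'⁻¹ s) := by
  rw [Equiv.Perm.inv_eq_iff_eq, lw_T', perm_apply_inv]

theorem lw_ρ' (π : W) (k : ℕ) (s : W × Xc) : (Tb.ρ' ^ k) (lw π s) = lw π ((Tb.ρ' ^ k) s) := by
  induction k with
  | zero => rfl
  | succ k ih =>
    rw [pow_succ', Equiv.Perm.mul_apply, Equiv.Perm.mul_apply, ih]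
    simp [ρ', lift, lw, mul_assoc]

/-- Move the root to the letter `b`. -/
noncomputable def go (b : L) (s : W × Xc) : W × Xc := (Tb.ρ' ^ ((Tb.wd s).idxOf b)) s

theorem wd_go (b : L) (s : W × Xc) :
    Tb.wd (Tb.go b s) = (Tb.wd s).rotate ((Tb.wd s).idxOf b) := (Tb.ρ'_pow _ s).2

theorem head_go (b : L) (s : W × Xc) : (Tb.wd (Tb.go b s)).head? = some b := by
  rw [wd_go]; exact head_rotate_idxOf ((Tb.wd_valid s).2 b)

theorem eq_go {a : L} {s : W × Xc} {j : ℕ} (h : (Tb.wd ((Tb.ρ' ^ j) s)).head? = some a) :
    (Tb.ρ' ^ j) s = Tb.go a s := by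
  rw [(Tb.ρ'_pow j s).2] at h
  rw [go, ← idx_of_head (Tb.wd_valid s) h, ← pow_eq_pow_mod j Tb.ρ'_12]

theorem go_pow (a : L) (k : ℕ) (s : W × Xc) : Tb.go a ((Tb.ρ' ^ k) s) = Tb.go a s := by
  have h := Tb.head_go a ((Tb.ρ' ^ k) s)
  rw [go, ← Equiv.Perm.mul_apply, ← pow_add] at h ⊢
  exact Tb.eq_go h

theorem go_go (a b : L) (s : W × Xc) : Tb.go a (Tb.go b s) = Tb.go a s := Tb.go_pow a _ s

theorem go_self {a : L} {s : W × Xc} (h : (Tb.wd s).head? = some a) : Tb.go a s = s :=
  (Tb.eq_go (j := 0) h).symm

theorem go_lw (π : W) (b : L) (s : W × Xc) : Tb.go (π.1 b) (lw π s) = lw π (Tb.go b s) := by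
  rw [go, go, wd_lw, idxOf_map, lw_ρ']

theorem go_lw_go (π : W) (a b : L) (s : W × Xc) :
    Tb.go a (lw π (Tb.go b s)) = Tb.go a (lw π s) := by
  have : lw π (Tb.go b s) = (Tb.ρ' ^ ((Tb.wd s).idxOf b)) (lw π s) := by rw [lw_ρ']; rfl
  rw [this, go_pow]

theorem cyc_go (b : L) (s : W × Xc) : (Tb.wd (Tb.go b s) : Cycle L) = Tb.wd s := by
  rw [wd_go]; exact Cycle.coe_eq_coe.2 (List.IsRotated.symm ⟨_, rfl⟩)

theorem wd_go_of {a : L} {U : List L} {s : W × Xc} (h : (Tb.wd s : Cycle L) = ↑(a :: U)) :
    Tb.wd (Tb.go a s) = a :: U := by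
  have h1 := Tb.head_go a s
  have h2 := (Tb.wd_valid (Tb.go a s)).1
  have h3 := Tb.cyc_go a s
  cases hw : Tb.wd (Tb.go a s) with
  | nil => rw [hw] at h1; simp at h1
  | cons x V =>
    rw [hw] at h1 h2 h3
    obtain rfl : x = a := by simpa using h1
    rw [cyc_head_inj h2 (h3.trans h)]

/-- Signed slide at the root. -/
noncomputable def TT (b : Bool) : Equiv.Perm (W × Xc) := if b then Tb.T' else Tb.T'⁻¹

theorem head_T' (s : W × Xc) : (Tb.wd (Tb.T' s)).head? = (Tb.wd s).head? := by
  rw [wd_T', slide_head]

theorem head_T'inv (s : W × Xc) : (Tb.wd (Tb.T'⁻¹ s)).head? = (Tb.wd s).head? := by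
  rw [← Tb.head_T' (Tb.T'⁻¹ s), perm_apply_inv]

/-- Points with the root at a fixed letter. -/
def E : Type := {s : W × Xc // (Tb.wd s).head? = some (lb 2)}

/-- Normal form. -/
noncomputable def nf (s : W × Xc) : Tb.E := ⟨Tb.go (lb 2) s, Tb.head_go _ s⟩

theorem nf_val (e : Tb.E) : Tb.nf e.1 = e := Subtype.ext (Tb.go_self e.2)

theorem nf_go (b : L) (s : W × Xc) : Tb.nf (Tb.go b s) = Tb.nf s :=
  Subtype.ext (Tb.go_go _ b s)

theorem go_nf (b : L) (s : W × Xc) : Tb.go b (Tb.nf s).1 = Tb.go b s := Tb.go_go b _ s

noncomputable def R (a : L) : Equiv.Perm Tb.E where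
  toFun e := Tb.nf (Tb.T' (Tb.go a e.1))
  invFun e := Tb.nf (Tb.T'⁻¹ (Tb.go a e.1))
  left_inv e := by
    simp only
    rw [go_nf, Tb.go_self (by rw [head_T', head_go]), perm_inv_apply, nf_go, nf_val]
  right_inv e := by
    simp only
    rw [go_nf, Tb.go_self (by rw [head_T'inv, head_go]), perm_apply_inv, nf_go, nf_val]

theorem nf_lw_nf (π : W) (s : W × Xc) : Tb.nf (lw π (Tb.nf s).1) = Tb.nf (lw π s) :=
  Subtype.ext (Tb.go_lw_go π _ _ s)

theorem lw_lw (π σ : W) (s : W × Xc) : lw π (lw σ s) = lw (π * σ) s := by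
  simp [lw, mul_assoc]

theorem lw_one (s : W × Xc) : lw 1 s = s := by simp [lw]

noncomputable def rl : W →* Equiv.Perm Tb.E where
  toFun π :=
    { toFun := fun e => Tb.nf (lw π e.1)
      invFun := fun e => Tb.nf (lw π⁻¹ e.1)
      left_inv := fun e => by
        simp only
        rw [nf_lw_nf, lw_lw, inv_mul_cancel, lw_one, nf_val]
      right_inv := fun e => by
        simp only
        rw [nf_lw_nf, lw_lw, mul_inv_cancel, lw_one, nf_val] }
  map_one' := by
    ext1 e
    show Tb.nf (lw 1 e.1) = e
    rw [lw_one, nf_val]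
  map_mul' π σ := by
    ext1 e
    show Tb.nf (lw (π * σ) e.1) = Tb.nf (lw π (Tb.nf (lw σ e.1)).1)
    rw [nf_lw_nf, lw_lw]

theorem R_nf (a : L) (s : W × Xc) : Tb.R a (Tb.nf s) = Tb.nf (Tb.T' (Tb.go a s)) := by
  show Tb.nf (Tb.T' (Tb.go a (Tb.nf s).1)) = _
  rw [go_nf]

theorem Rinv_nf (a : L) (s : W × Xc) :
    (Tb.R a)⁻¹ (Tb.nf s) = Tb.nf (Tb.T'⁻¹ (Tb.go a s)) := by
  show Tb.nf (Tb.T'⁻¹ (Tb.go a (Tb.nf s).1)) = _
  rw [go_nf]

theorem rl_nf (π : W) (s : W × Xc) : Tb.rl π (Tb.nf s) = Tb.nf (lw π s) := Tb.nf_lw_nf π s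

theorem cyc_nf (s : W × Xc) : (Tb.wd (Tb.nf s).1 : Cycle L) = Tb.wd s := Tb.cyc_go _ s

/-- Execution of a sequence of signed slides on labelled points. -/
noncomputable def exec : W × Xc → List (L × Bool) → L → W × Xc
  | s, [], f => Tb.go f s
  | s, b :: bs, f => exec (Tb.TT b.2 (Tb.go b.1 s)) bs f

/-- The corresponding permutation. -/
noncomputable def RR : List (L × Bool) → Equiv.Perm Tb.E
  | [] => 1
  | b :: bs => RR bs * (if b.2 then Tb.R b.1 else (Tb.R b.1)⁻¹)

theorem wd_TT (b : Bool) (s : W × Xc) : Tb.wd (Tb.TT b s) = sslide b (Tb.wd s) := by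
  cases b
  · exact Tb.wd_T'inv s
  · exact Tb.wd_T' s

theorem TT_snd (b : Bool) (s : W × Xc) :
    (Tb.TT b s).2 = (if b then Tb.T else Tb.T⁻¹) s.2 := by
  cases b <;> rfl

theorem exec_spec (bs : List (L × Bool)) (f : L) (s : W × Xc) :
    Tb.wd (Tb.exec s bs f) = simW (Tb.wd s) bs f ∧
    (Tb.exec s bs f).2 = run Tb.T Tb.ρ (simP (Tb.wd s) bs f).1 (simP (Tb.wd s) bs f).2 s.2 ∧
    Tb.nf (Tb.exec s bs f) = Tb.RR bs (Tb.nf s) := by
  induction bs generalizing s with
  | nil => exact ⟨Tb.wd_go f s, (Tb.ρ'_pow _ s).1, Tb.nf_go f s⟩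
  | cons b bs ih =>
    obtain ⟨h1, h2, h3⟩ := ih (Tb.TT b.2 (Tb.go b.1 s))
    rw [wd_TT, wd_go] at h1 h2
    refine ⟨h1, ?_, ?_⟩
    · rw [TT_snd, go, (Tb.ρ'_pow _ s).1] at h2
      exact h2
    · rw [exec, h3, RR, Equiv.Perm.mul_apply]
      congr 1
      cases b.2
      · exact (Tb.Rinv_nf _ _).symm
      · exact (Tb.R_nf _ _).symm

theorem exec_lw (π : W) (bs : List L) (f : L) (s : W × Xc) :
    Tb.exec (lw π s) (fw (bs.map π.1)) (π.1 f) = lw π (Tb.exec s (fw bs) f) := by
  induction bs generalizing s with
  | nil => exact Tb.go_lw π f s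
  | cons b bs ih =>
    show Tb.exec (Tb.T' (Tb.go (π.1 b) (lw π s))) (fw (bs.map π.1)) (π.1 f) =
      lw π (Tb.exec (Tb.T' (Tb.go b s)) (fw bs) f)
    rw [go_lw, lw_T', ih]

theorem wd_one (x : Xc) : Tb.wd (1, x) = Tb.cw x := by simp [wd]

/-- The cells, at a labelled point. -/
theorem cellE (s : W × Xc) (bs1 bs2 : List L)
    (h : (bs1.map (s.1⁻¹).1, bs2.map (s.1⁻¹).1) ∈ cells (Tb.cw s.2)) :
    Tb.RR (fw bs1) (Tb.nf s) = Tb.RR (fw bs2) (Tb.nf s) := by
  obtain ⟨π, x⟩ := s
  obtain ⟨a, t, U, hx, -, -, -, hc⟩ := okShape_iff (Tb.ok x)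
  have h0 : Tb.exec (1, x) (fw (bs1.map (π⁻¹).1)) a = Tb.exec (1, x) (fw (bs2.map (π⁻¹).1)) a := by
    apply Tb.ext'
    · rw [(Tb.exec_spec _ _ _).2.1, (Tb.exec_spec _ _ _).2.1, wd_one]
      apply Tb.cell x (_, _)
      simp only at h
      rw [hx] at h ⊢
      exact List.mem_cons_of_mem _ (List.mem_map.2 ⟨_, h, rfl⟩)
    · rw [(Tb.exec_spec _ _ _).1, (Tb.exec_spec _ _ _).1, wd_one]
      exact hc _ h
  have e1 : ∀ bs : List L, (bs.map (π⁻¹).1).map π.1 = bs := fun bs => by
    rw [List.map_map]; conv_rhs => rw [← List.map_id bs]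
    apply List.map_congr_left; intro l _; simp
  have h1 := congrArg (lw π) h0
  rw [← exec_lw, ← exec_lw, e1, e1] at h1
  have e2 : lw π ((1 : W), x) = (π, x) := by simp [lw]
  rw [e2] at h1
  rw [← (Tb.exec_spec _ (π.1 a) _).2.2, ← (Tb.exec_spec _ (π.1 a) _).2.2, h1]

theorem cw_eq (s : W × Xc) : Tb.cw s.2 = (Tb.wd s).map (s.1⁻¹).1 := by
  rw [wd, List.map_map]; conv_lhs => rw [← List.map_id (Tb.cw s.2)]
  apply List.map_congr_left; intro l _; simp

theorem triE (s : W × Xc) {a b : L} {U : List L} (h : Tb.wd s = a :: b :: U) {π : W}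
    (hπ : IsTri π a b) : Tb.RR (fw [a, b, bar a]) (Tb.nf s) = Tb.rl π (Tb.nf s) := by
  obtain ⟨σ, x⟩ := s
  obtain ⟨a', t', U', hx, -, -, ht, -⟩ := okShape_iff (Tb.ok x)
  have hw : Tb.wd (σ, x) = σ.1 a' :: σ.1 t' :: U'.map σ.1 := by rw [wd, hx]; rfl
  rw [hw] at h
  obtain ⟨rfl, rfl, -⟩ : σ.1 a' = a ∧ σ.1 t' = b ∧ U'.map σ.1 = U := by simpa using h
  have hπ' : IsTri (σ⁻¹ * π * σ) a' t' := by
    refine ⟨by simp [hπ.1], by simp [hπ.2.1, ← W_bar], fun l h1 h2 => ?_⟩
    have h3 : ∀ m : L, l.1 ≠ m.1 → (σ.1 l).1 ≠ (σ.1 m).1 := by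
      intro m hm e
      rcases eq_or_bar e with e | e
      · exact hm (by rw [σ.1.injective e])
      · rw [← W_bar] at e; exact hm (by rw [σ.1.injective e]; rfl)
    simp [hπ.2.2 _ (h3 _ h1) (h3 _ h2)]
  have h0 : Tb.exec (1, x) (fw [a', t', bar a']) (bar t') = lw (σ⁻¹ * π * σ) (1, x) := by
    apply Tb.ext'
    · rw [(Tb.exec_spec _ _ _).2.1, wd_one]
      have := Tb.cell x (simP (Tb.cw x) (fw [a', t', bar a']) (bar t'), ([], 0)) (by
        rw [hx]; exact List.mem_cons_self)
      rw [this]; rfl
    · rw [(Tb.exec_spec _ _ _).1, wd_lw, wd_one, ht]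
      exact List.map_congr_left (fun l _ => (triF_eq hπ' l).symm)
  have h1 := congrArg (lw σ) h0
  rw [← exec_lw, lw_lw] at h1
  have e2 : lw σ ((1 : W), x) = (σ, x) := by simp [lw]
  have e3 : lw (σ * (σ⁻¹ * π * σ)) ((1 : W), x) = lw π (σ, x) := by simp [lw, mul_assoc]
  rw [e2, e3] at h1
  simp only [List.map_cons, List.map_nil, W_bar] at h1
  rw [← (Tb.exec_spec _ (bar (σ.1 t')) _).2.2, h1, rl_nf]

end Tab

end Pool.Agent.MP_61a8e3_al.A

end

section

set_option autoImplicit false

namespace Pool.Agent.MP_61a8e3_al.A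

theorem fl_one : fl 1 = none := rfl

theorem fl_eq_none {g : F} : fl g = none ↔ g = 1 := by
  simp [fl, List.head?_eq_none_iff]

theorem fl_el (l : L) : fl (el l) = some l := rfl

theorem el_inj {l m : L} (h : el l = el m) : l = m := by
  have := congrArg fl h
  simpa [fl_el] using this

theorem AFree_red {l m : L} : (l.1 = m.1 → l.2 = m.2) ↔ m ≠ bar l := by
  rcases l with ⟨i, b⟩; rcases m with ⟨j, c⟩
  cases b <;> cases c <;> simp [bar, eq_comm]

theorem AFree_mul (g k : F) : g * k = FreeGroup.mk (g.toWord ++ k.toWord) := by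
  rw [← FreeGroup.mul_mk, FreeGroup.mk_toWord, FreeGroup.mk_toWord]

theorem toWord_el_mul {l : L} {g : F} (h : fl g ≠ some (bar l)) :
    (el l * g).toWord = l :: g.toWord := by
  rw [FreeGroup.toWord_mul]
  have h0 : (el l).toWord = [l] := rfl
  rw [h0, List.singleton_append]
  apply FreeGroup.IsReduced.reduce_eq
  have hr : FreeGroup.IsReduced g.toWord := FreeGroup.isReduced_toWord
  unfold fl at h
  cases hw : g.toWord with
  | nil => exact FreeGroup.IsReduced.singleton
  | cons m t =>
    rw [hw] at h hr
    rw [FreeGroup.isReduced_cons_cons]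
    refine ⟨AFree_red.2 ?_, hr⟩
    intro hm; apply h; simp [hm]

theorem AFree_split {g : F} {l : L} (h : fl g = some l) :
    ∃ g', g = el l * g' ∧ fl g' ≠ some (bar l) ∧ g.toWord = l :: g'.toWord := by
  have hr : FreeGroup.IsReduced g.toWord := FreeGroup.isReduced_toWord
  unfold fl at h
  cases hw : g.toWord with
  | nil => simp [hw] at h
  | cons m t =>
    rw [hw] at h hr
    simp only [List.head?_cons, Option.some.injEq] at h
    subst h
    have ht : FreeGroup.IsReduced t := List.IsChain.tail hr
    have htw : (FreeGroup.mk t).toWord = t := by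
      rw [FreeGroup.toWord_mk, ht.reduce_eq]
    refine ⟨FreeGroup.mk t, ?_, ?_, by rw [htw]⟩
    · rw [el, FreeGroup.mul_mk, List.singleton_append, ← hw, FreeGroup.mk_toWord]
    · unfold fl; rw [htw]
      cases t with
      | nil => simp
      | cons n t' =>
        rw [FreeGroup.isReduced_cons_cons] at hr
        simpa using AFree_red.1 hr.1

theorem fl_el_mul (l : L) (g : F) : fl (el l * g) = some l ↔ fl g ≠ some (bar l) := by
  constructor
  · intro h h'
    obtain ⟨g', rfl, hg', -⟩ := AFree_split h'
    rw [← mul_assoc, el_bar, mul_inv_cancel, one_mul] at h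
    exact hg' (by simpa using h)
  · intro h
    unfold fl; rw [toWord_el_mul h]; rfl

theorem fl_induction {P : F → Prop} (h1 : P 1)
    (hs : ∀ l g, fl g ≠ some (bar l) → P g → P (el l * g)) (g : F) : P g := by
  induction hn : g.toWord.length generalizing g with
  | zero =>
    rw [List.length_eq_zero_iff, FreeGroup.toWord_eq_nil_iff] at hn
    rw [hn]; exact h1
  | succ n ih =>
    cases hf : fl g with
    | none => rw [fl_eq_none.1 hf]; exact h1
    | some l =>
      obtain ⟨g', hg, hg', hw⟩ := AFree_split hf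
      rw [hw] at hn
      rw [hg]
      exact hs l g' hg' (ih g' (by simpa using hn))

theorem toWord_mul_of_ne {g k : F} (h : fl k ≠ fl g⁻¹) :
    (g * k).toWord = g.toWord ++ k.toWord := by
  rw [FreeGroup.toWord_mul]
  apply FreeGroup.IsReduced.reduce_eq
  have hg : FreeGroup.IsReduced g.toWord := FreeGroup.isReduced_toWord
  have hk : FreeGroup.IsReduced k.toWord := FreeGroup.isReduced_toWord
  unfold fl at h
  rw [FreeGroup.toWord_inv] at h
  unfold FreeGroup.IsReduced at *
  rw [List.isChain_append]
  refine ⟨hg, hk, ?_⟩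
  intro x hx y hy
  rw [AFree_red]
  intro hxy
  apply h
  rw [Option.mem_def] at hx hy
  rw [hy, hxy, FreeGroup.invRev, List.head?_reverse, List.getLast?_map, hx]
  rfl

theorem fl_mul_of_ne {g k : F} (hg : g ≠ 1) (h : fl k ≠ fl g⁻¹) : fl (g * k) = fl g := by
  unfold fl
  rw [toWord_mul_of_ne h]
  cases hw : g.toWord with
  | nil => exact absurd (FreeGroup.toWord_eq_nil_iff.1 hw) hg
  | cons m t => rfl

theorem norm_mul_of_ne {g k : F} (h : fl k ≠ fl g⁻¹) : (g * k).norm = g.norm + k.norm := by
  unfold FreeGroup.norm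
  rw [toWord_mul_of_ne h, List.length_append]

/-- The elements whose first letter changes under right multiplication by `u`. -/
def Sw (u : F) : Set F := {g | fl g ≠ fl (g * u)}

theorem Sw_el {l : L} {g : F} (h : g ∈ Sw (el l)) : g = 1 ∨ g = (el l)⁻¹ := by
  by_contra hc
  push Not at hc
  obtain ⟨h1, h2⟩ := hc
  apply h
  by_cases hf : fl (el l) = fl g⁻¹
  · have h3 : g * el l ≠ 1 := fun h => h2 (eq_inv_of_mul_eq_one_left h)
    have h4 : fl (el (bar l)) ≠ fl (g * el l)⁻¹ := by
      rw [fl_el, mul_inv_rev, ← el_bar]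
      intro h5
      have := (fl_el_mul (bar l) g⁻¹).1 h5.symm
      apply this
      rw [← hf, fl_el, bar_bar]
    have h6 := fl_mul_of_ne h3 h4
    rw [el_bar, mul_inv_cancel_right] at h6
    exact h6
  · exact (fl_mul_of_ne h1 hf).symm

theorem Sw_mk (l : List L) (g : F) (h : g ∈ Sw (FreeGroup.mk l)) :
    ∃ k, k ≤ l.length ∧ g = (FreeGroup.mk (l.take k))⁻¹ := by
  induction l generalizing g with
  | nil =>
    exfalso; apply h
    rw [← FreeGroup.one_eq_mk, mul_one]
  | cons x t ih =>
    have hx : FreeGroup.mk (x :: t) = el x * FreeGroup.mk t := by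
      rw [el, FreeGroup.mul_mk]; rfl
    by_cases h1 : g ∈ Sw (el x)
    · rcases Sw_el h1 with h2 | h2
      · exact ⟨0, Nat.zero_le _, by rw [h2, List.take_zero, ← FreeGroup.one_eq_mk, inv_one]⟩
      · exact ⟨1, by simp, by rw [h2]; rfl⟩
    · have h2 : g * el x ∈ Sw (FreeGroup.mk t) := by
        intro h3
        apply h
        have h4 : fl g = fl (g * el x) := not_not.1 h1
        rw [hx, ← mul_assoc, ← h3, h4]
      obtain ⟨k, hk, hg⟩ := ih _ h2
      refine ⟨k + 1, by simpa using hk, ?_⟩
      have h5 : FreeGroup.mk ((x :: t).take (k + 1)) = el x * FreeGroup.mk (t.take k) := by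
        rw [el, FreeGroup.mul_mk]; rfl
      rw [h5, mul_inv_rev, ← hg, mul_inv_cancel_right]

theorem Sw_finite (u : F) : (Sw u).Finite := by
  refine Set.Finite.subset ((Set.finite_Iic u.toWord.length).image
    (fun k => (FreeGroup.mk (u.toWord.take k))⁻¹)) ?_
  intro g hg
  obtain ⟨k, hk, rfl⟩ := Sw_mk u.toWord g (by rwa [FreeGroup.mk_toWord])
  exact ⟨k, hk, rfl⟩

theorem cr_subset (u : F) (A : Finset (Option L)) : cr u A ⊆ Sw u := by
  intro g hg h
  apply hg
  rw [h]

theorem cr_finite (u : F) (A : Finset (Option L)) : (cr u A).Finite :=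
  (Sw_finite u).subset (cr_subset u A)

theorem fl_relA (π : W) (g : F) : fl (relA π g) = (fl g).map π.1 := by
  induction g using fl_induction with
  | h1 => rw [map_one]; rfl
  | hs l g hg ih =>
    rw [map_mul, relA_el, (fl_el_mul l g).2 hg, Option.map_some]
    apply (fl_el_mul _ _).2
    rw [ih, ← W_bar]
    intro h
    apply hg
    cases hf : fl g with
    | none => rw [hf] at h; simp at h
    | some m =>
      rw [hf] at h
      simp only [Option.map_some, Option.some.injEq] at h
      rw [π.1.injective h]

theorem exists_fl (x : Option L) : ∃ g : F, fl g = x := by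
  cases x with
  | none => exact ⟨1, rfl⟩
  | some l => exact ⟨el l, rfl⟩

theorem r3_eq : r3 = FreeGroup.mk
    [la 0, lb 0, lA 0, lB 0, la 1, lb 1, lA 1, lB 1, la 2, lb 2, lA 2, lB 2] := by
  decide

end Pool.Agent.MP_61a8e3_al.A

end

section

set_option autoImplicit false

namespace Pool.Agent.MP_61a8e3_al.A

theorem AWh_eq {a l : L} (χ : Option L → ℤ) (h : l.1 = a.1) : whZ a χ (el l) = el l := by
  rw [whZ_el, whL, if_pos h]

theorem whZ_self (a : L) (χ : Option L → ℤ) : whZ a χ (el a) = el a := by
  exact AWh_eq χ rfl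

theorem whZ_self_bar (a : L) (χ : Option L → ℤ) : whZ a χ (el (bar a)) = el (bar a) := by
  exact AWh_eq χ rfl

theorem whZ_of_ne {a l : L} (χ : Option L → ℤ) (h : l.1 ≠ a.1) :
    whZ a χ (el l) =
      el a ^ (χ (some l) - χ none) * el l * el a ^ (χ none - χ (some (bar l))) := by
  rw [whZ_el, whL, if_neg h]

theorem whZ_congr (a : L) {χ ψ : Option L → ℤ}
    (h : ∀ l : L, l.1 ≠ a.1 → χ (some l) - χ none = ψ (some l) - ψ none) :
    whZ a χ = whZ a ψ := by
  refine aut_ext fun l => ?_
  by_cases hl : l.1 = a.1
  · rw [AWh_eq χ hl, AWh_eq ψ hl]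
  · rw [whZ_of_ne χ hl, whZ_of_ne ψ hl, h l hl, ← neg_sub (χ (some (bar l))), h (bar l) hl,
      neg_sub]

theorem whZ_bar (a : L) (χ : Option L → ℤ) : whZ (bar a) χ = whZ a (-χ) := by
  refine aut_ext fun l => ?_
  by_cases hl : l.1 = a.1
  · rw [AWh_eq (a := bar a) χ hl, AWh_eq _ hl]
  · rw [whZ_of_ne (a := bar a) χ hl, whZ_of_ne _ hl, el_bar a]
    simp only [Pi.neg_apply]
    group

theorem AWh_ind1 {A : Finset (Option L)} {x : Option L} (h : x ∈ A) : ind A x = 1 := if_pos h

theorem AWh_ind0 {A : Finset (Option L)} {x : Option L} (h : x ∉ A) : ind A x = 0 := if_neg h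

theorem AWh_ind_congr {A B : Finset (Option L)} {x y : Option L} (h : x ∈ A ↔ y ∈ B) :
    ind A x = ind B y := by
  simp only [ind, h]

theorem AWh_compl (A : Finset (Option L)) (x : Option L) : ind Aᶜ x = 1 - ind A x := by
  by_cases h : x ∈ A
  · rw [AWh_ind1 h, AWh_ind0 (by simpa using h)]
    rfl
  · rw [AWh_ind0 h, AWh_ind1 (by simpa using h)]
    rfl

theorem wh_compl (a : L) (A : Finset (Option L)) : wh (bar a) Aᶜ = wh a A := by
  rw [wh, wh, whZ_bar]
  refine whZ_congr a fun l _ => ?_
  simp only [Pi.neg_apply, AWh_compl]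
  ring

theorem wh_single (a : L) : wh a {some a} = 1 := by
  rw [wh, ← whZ_zero a]
  refine whZ_congr a fun l hl => ?_
  rw [AWh_ind0 (x := none) (by simp), AWh_ind0 (x := some l) (by
    intro h
    rw [Finset.mem_singleton, Option.some.injEq] at h
    exact hl (congrArg Prod.fst h))]
  rfl

theorem mem_aact (π : W) (A : Finset (Option L)) (x : Option L) :
    Option.map π.1 x ∈ aact π A ↔ x ∈ A := by
  exact (Option.map_injective π.1.injective).mem_finset_image

theorem AWh_fst (π : W) (l a : L) : (π.1 l).1 = (π.1 a).1 ↔ l.1 = a.1 := by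
  constructor
  · intro h
    rcases eq_or_bar h with h | h
    · rw [π.1.injective h]
    · rw [← W_bar] at h
      rw [π.1.injective h, bar_fst]
  · intro h
    rcases eq_or_bar h with h | h
    · rw [h]
    · rw [h, W_bar, bar_fst]

theorem wh_relA (π : W) (a : L) (A : Finset (Option L)) :
    relA π * wh a A = wh (π.1 a) (aact π A) * relA π := by
  refine aut_ext fun l => ?_
  rw [MulAut.mul_apply, MulAut.mul_apply, relA_el, wh, wh]
  by_cases hl : l.1 = a.1
  · rw [AWh_eq _ hl, AWh_eq _ ((AWh_fst π l a).2 hl), relA_el]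
  · rw [whZ_of_ne _ hl, whZ_of_ne _ (mt (AWh_fst π l a).1 hl), ← W_bar,
      AWh_ind_congr (x := some (π.1 l)) (mem_aact π A (some l)),
      AWh_ind_congr (x := some (π.1 (bar l))) (mem_aact π A (some (bar l))),
      AWh_ind_congr (A := aact π A) (x := none) (mem_aact π A none)]
    simp only [map_mul, map_zpow, relA_el]

/-- Adding the symbol `none` to the cut composes with a conjugation. -/
theorem wh_insert_none (a : L) {A : Finset (Option L)} (h : none ∉ A) :
    wh a (insert none A) = MulAut.conj (el a)⁻¹ * wh a A := by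
  refine aut_ext fun l => ?_
  rw [MulAut.mul_apply, MulAut.conj_apply, wh, wh]
  by_cases hl : l.1 = a.1
  · rw [AWh_eq _ hl, AWh_eq _ hl]
    rcases eq_or_bar hl with e | e
    · rw [e]
      group
    · rw [e, el_bar]
      group
  · have e : ∀ x : L, ind (insert none A) (some x) = ind A (some x) := fun x =>
      AWh_ind_congr (by simp)
    rw [whZ_of_ne _ hl, whZ_of_ne _ hl, e, e, AWh_ind0 h,
      AWh_ind1 (Finset.mem_insert_self none A)]
    group

/-- The statement of the first-letter formula for the pair `x = fl g`, `y` = new first letter. -/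
def AWh_P (a : L) (A : Finset (Option L)) (x y : Option L) : Prop :=
  (x ∈ A → y = some a) ∧ (x ∉ A → x ≠ some (bar a) → y = x) ∧
    (x = some (bar a) → y = some (bar a) ∨ (y ∈ A ∧ y ≠ some a))

theorem AWh_P_ne {a l : L} {A : Finset (Option L)} {x y : Option L} (h : AWh_P a A x y)
    (hl : l.1 ≠ a.1) (hA : some l ∉ A) (hx : x ≠ some l) : y ≠ some l := by
  have h1 : some a ≠ some l := fun e => hl (congrArg Prod.fst (Option.some.inj e)).symm
  have h2 : some (bar a) ≠ some l := fun e => hl (congrArg Prod.fst (Option.some.inj e)).symm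
  by_cases hxA : x ∈ A
  · rw [h.1 hxA]
    exact h1
  · by_cases hxa : x = some (bar a)
    · rcases h.2.2 hxa with e | e
      · rw [e]
        exact h2
      · exact fun e' => hA (e' ▸ e.1)
    · rw [h.2.1 hxA hxa]
      exact hx

theorem AWh_P_step {a : L} {A : Finset (Option L)} (ha : some a ∈ A) (hb : some (bar a) ∉ A)
    {x : Option L} {u : F} (hx : x ≠ some (bar a)) (h : AWh_P a A x (fl u)) :
    AWh_P a A (some a) (fl (el a * u)) ∧ AWh_P (bar a) Aᶜ (some a) (fl u) := by
  have hne : some a ≠ some (bar a) := fun e => bar_ne a (Option.some.inj e).symm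
  have h1 : fl u = some a ∨ (fl u ∉ A ∧ fl u ≠ some (bar a)) := by
    by_cases hxA : x ∈ A
    · exact Or.inl (h.1 hxA)
    · rw [h.2.1 hxA hx]
      exact Or.inr ⟨hxA, hx⟩
  refine ⟨⟨fun _ => (fl_el_mul a u).2 ?_, fun h => absurd ha h, fun h => absurd h hne⟩,
    fun h => absurd ha (by simpa using h), fun _ h => absurd (by rw [bar_bar]) h, fun _ => ?_⟩
  · rcases h1 with e | e
    · rw [e]
      exact hne
    · exact e.2
  · simpa using h1

theorem AWh_P_other {a l : L} {A : Finset (Option L)} (hl : l.1 ≠ a.1) (hA : some l ∈ A)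
    {u : F} (h : fl u = some l) :
    AWh_P a A (some l) (fl (el a * u)) ∧ AWh_P (bar a) Aᶜ (some l) (fl u) := by
  have h1 : some l ≠ some a := fun e => hl (congrArg Prod.fst (Option.some.inj e))
  have h2 : some l ≠ some (bar a) := fun e => hl (by rw [Option.some.inj e, bar_fst])
  refine ⟨⟨fun _ => (fl_el_mul a u).2 (h ▸ h2), fun h => absurd hA h, fun h => absurd h h2⟩,
    fun h => absurd hA (by simpa using h), fun _ _ => h, fun h => absurd h (by
      rw [bar_bar]
      exact h1)⟩

theorem AWh_fl {a : L} {A : Finset (Option L)} (ha : some a ∈ A) (hb : some (bar a) ∉ A) (g : F) :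
    AWh_P a A (fl g) (fl (el a ^ ind A none * wh a A g)) ∧
      AWh_P (bar a) Aᶜ (fl g) (fl ((el a)⁻¹ * (el a ^ ind A none * wh a A g))) := by
  induction g using fl_induction with
  | h1 =>
    rw [map_one, mul_one, fl_one]
    by_cases hD : none ∈ A
    · rw [AWh_ind1 hD, zpow_one, inv_mul_cancel, fl_one, fl_el]
      simp [AWh_P, hD]
    · rw [AWh_ind0 hD, zpow_zero, mul_one, ← el_bar, fl_one, fl_el]
      simp [AWh_P, hD]
  | hs l g hg ih =>
    rw [(fl_el_mul l g).2 hg, map_mul]
    by_cases hl : l.1 = a.1
    · rw [wh, AWh_eq _ hl, ← wh]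
      rcases eq_or_bar hl with e | e
      · subst e
        have e1 : el l ^ ind A none * (el l * wh l A g) = el l * (el l ^ ind A none * wh l A g) := by
          group
        rw [e1, inv_mul_cancel_left]
        exact AWh_P_step ha hb hg ih.1
      · subst e
        have e1 : el a ^ ind A none * (el (bar a) * wh a A g) =
            (el a)⁻¹ * (el a ^ ind A none * wh a A g) := by
          rw [el_bar]
          group
        have h := AWh_P_step (a := bar a) (A := Aᶜ) (by simpa using hb) (by simpa using ha) hg ih.2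
        rw [bar_bar, compl_compl, el_bar] at h
        rw [e1]
        exact h.symm
    · have h1 : fl (el l * (el a ^ (ind A none - ind A (some (bar l))) * wh a A g)) = some l := by
        rw [fl_el_mul]
        by_cases hA : some (bar l) ∈ A
        · have e1 : el a ^ (ind A none - ind A (some (bar l))) * wh a A g =
              (el a)⁻¹ * (el a ^ ind A none * wh a A g) := by
            rw [AWh_ind1 hA]
            group
          rw [e1]
          exact AWh_P_ne ih.2 hl (by simpa using hA) hg
        · rw [AWh_ind0 hA, sub_zero]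
          exact AWh_P_ne ih.1 hl hA hg
      have e1 : el a ^ ind A none * (wh a A (el l) * wh a A g) = el a ^ ind A (some l) *
          (el l * (el a ^ (ind A none - ind A (some (bar l))) * wh a A g)) := by
        rw [wh, whZ_of_ne _ hl]
        group
      rw [e1]
      by_cases hA : some l ∈ A
      · rw [AWh_ind1 hA, zpow_one, inv_mul_cancel_left]
        exact AWh_P_other hl hA h1
      · have h := AWh_P_other (a := bar a) (A := Aᶜ) hl (by simpa using hA) h1
        rw [bar_bar, compl_compl, el_bar a] at h
        rw [AWh_ind0 hA, zpow_zero, one_mul]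
        exact h.symm

/-- The first-letter formula. -/
theorem fl_wh {a : L} {A : Finset (Option L)} (ha : some a ∈ A) (hb : some (bar a) ∉ A) (g : F) :
    (fl g ∈ A → fl (el a ^ ind A none * wh a A g) = some a) ∧
    (fl g ∉ A → fl g ≠ some (bar a) → fl (el a ^ ind A none * wh a A g) = fl g) ∧
    (fl g = some (bar a) → fl (el a ^ ind A none * wh a A g) = some (bar a) ∨
      (fl (el a ^ ind A none * wh a A g) ∈ A ∧ fl (el a ^ ind A none * wh a A g) ≠ some a)) := by
  exact (AWh_fl ha hb g).1

theorem AWh_ext {α β : MulAut F} (a b : L) (ha : α (el a) = β (el a)) (hb : α (el b) = β (el b))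
    (h : ∀ l : L, l.1 ≠ a.1 → l.1 ≠ b.1 → α (el l) = β (el l)) : α = β := by
  refine aut_ext fun l => ?_
  by_cases h1 : l.1 = a.1
  · rcases eq_or_bar h1 with e | e
    · rw [e, ha]
    · rw [e, el_bar, map_inv, map_inv, ha]
  by_cases h2 : l.1 = b.1
  · rcases eq_or_bar h2 with e | e
    · rw [e, hb]
    · rw [e, el_bar, map_inv, map_inv, hb]
  exact h l h1 h2

theorem AWh_cases {A B : Finset (Option L)} (hd : Disjoint A B) (x : Option L) :
    (ind A x = 0 ∧ ind B x = 0) ∨ (ind A x = 1 ∧ ind B x = 0) ∨ (ind A x = 0 ∧ ind B x = 1) := by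
  by_cases h1 : x ∈ A
  · exact Or.inr (Or.inl ⟨AWh_ind1 h1, AWh_ind0 (Finset.disjoint_left.1 hd h1)⟩)
  · by_cases h2 : x ∈ B
    · exact Or.inr (Or.inr ⟨AWh_ind0 h1, AWh_ind1 h2⟩)
    · exact Or.inl ⟨AWh_ind0 h1, AWh_ind0 h2⟩

theorem AWh_cases' (A : Finset (Option L)) (x : Option L) : ind A x = 0 ∨ ind A x = 1 := by
  by_cases h1 : x ∈ A
  · exact Or.inr (AWh_ind1 h1)
  · exact Or.inl (AWh_ind0 h1)

/-- Two Whitehead automorphisms with disjoint cuts commute. -/
theorem wh_comm {a b : L} {A B : Finset (Option L)} (hd : Disjoint A B) (ha : some a ∈ A)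
    (ha' : some (bar a) ∉ A) (hb : some b ∈ B) (hb' : some (bar b) ∉ B)
    (h1 : some (bar a) ∉ B) (h2 : some (bar b) ∉ A) : wh a A * wh b B = wh b B * wh a A := by
  have h3 : some a ∉ B := Finset.disjoint_left.1 hd ha
  have h4 : some b ∉ A := Finset.disjoint_right.1 hd hb
  have hab : a.1 ≠ b.1 := fun h => by
    rcases eq_or_bar h with e | e
    · exact h3 (e ▸ hb)
    · exact h2 (e ▸ ha)
  refine AWh_ext a b ?_ ?_ fun l l1 l2 => ?_
  · simp only [wh, MulAut.mul_apply, whZ_self, whZ_of_ne _ hab, whZ_of_ne _ hab.symm, map_mul,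
      map_zpow, AWh_ind0 h1, AWh_ind0 h2, AWh_ind0 h3, AWh_ind0 h4]
    rcases AWh_cases hd none with e | e | e <;> rw [e.1, e.2] <;> group
  · simp only [wh, MulAut.mul_apply, whZ_self, whZ_of_ne _ hab, whZ_of_ne _ hab.symm, map_mul,
      map_zpow, AWh_ind0 h1, AWh_ind0 h2, AWh_ind0 h3, AWh_ind0 h4]
    rcases AWh_cases hd none with e | e | e <;> rw [e.1, e.2] <;> group
  · simp only [wh, MulAut.mul_apply, whZ_of_ne _ hab, whZ_of_ne _ hab.symm, map_mul,
      map_zpow, AWh_ind0 h1, AWh_ind0 h2, AWh_ind0 h3, AWh_ind0 h4, whZ_of_ne _ l1,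
      whZ_of_ne _ l2]
    rcases AWh_cases hd none with e | e | e <;> rcases AWh_cases hd (some l) with e' | e' | e' <;>
      rcases AWh_cases hd (some (bar l)) with e'' | e'' | e'' <;>
      rw [e.1, e.2, e'.1, e'.2, e''.1, e''.2] <;> group

/-- The triangle identity. -/
theorem wh_tri {a b : L} {A : Finset (Option L)} {π : W} (hab : a ≠ b) (ha : some a ∈ A)
    (ha' : some (bar a) ∉ A) (hb : some b ∈ A) (hb' : some (bar b) ∉ A) (hπ : IsTri π a b) :
    wh b (insert (some (bar a)) (A.erase (some a))) * wh a A = relA π * wh b A := by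
  have hne : a.1 ≠ b.1 := fun h => by
    rcases eq_or_bar h with e | e
    · exact hab e
    · exact hb' (e ▸ ha)
  set A' := insert (some (bar a)) (A.erase (some a)) with hA'
  have e0 : ind A' none = ind A none := AWh_ind_congr (by simp [hA'])
  have e1 : ind A' (some a) = 0 := AWh_ind0 (by simp [hA', (bar_ne a).symm])
  have e2 : ind A' (some (bar a)) = 1 := AWh_ind1 (Finset.mem_insert_self _ _)
  have e3 : ∀ l : L, l.1 ≠ a.1 → ind A' (some l) = ind A (some l) := fun l hl => by
    have k1 : l ≠ a := fun e => hl (congrArg Prod.fst e)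
    have k2 : l ≠ bar a := fun e => hl (by rw [e, bar_fst])
    exact AWh_ind_congr (by simp [hA', k1, k2])
  refine AWh_ext a b ?_ ?_ fun l l1 l2 => ?_
  · simp only [wh, MulAut.mul_apply, whZ_self, whZ_of_ne _ hne, map_mul, map_zpow, e0, e1, e2,
      AWh_ind1 ha, AWh_ind0 ha', relA_el, hπ.1, hπ.2.1, el_bar]
    rcases AWh_cases' A none with e | e <;> rw [e] <;> group
  · simp only [wh, MulAut.mul_apply, whZ_self, whZ_of_ne _ hne, whZ_of_ne _ hne.symm, map_mul,
      map_zpow, e0, e1, e2, AWh_ind1 hb, AWh_ind0 hb', relA_el, hπ.1]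
    rcases AWh_cases' A none with e | e <;> rw [e] <;> group
  · simp only [wh, MulAut.mul_apply, whZ_of_ne _ hne, whZ_of_ne _ l1, whZ_of_ne _ l2, map_mul,
      map_zpow, e0, e1, e2, e3 l l1, e3 (bar l) l1, relA_el, hπ.1, hπ.2.2 l l1 l2]
    rcases AWh_cases' A none with e | e <;> rcases AWh_cases' A (some l) with e' | e' <;>
      rcases AWh_cases' A (some (bar l)) with e'' | e'' <;> rw [e, e', e''] <;> group

end Pool.Agent.MP_61a8e3_al.A

end

section

set_option autoImplicit false

namespace Pool.Agent.MP_61a8e3_al.A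

/-- The letters of the relator. -/
def AGood_r : List L := [la 0, lb 0, lA 0, lB 0, la 1, lb 1, lA 1, lB 1, la 2, lb 2, lA 2, lB 2]

/-- The standard cycle as a list. -/
def AGood_o : List (Option L) := none :: w0L.map some

/-- Inverses of the initial segments. -/
def AGood_g (k : ℕ) : F := (FreeGroup.mk (AGood_r.take k))⁻¹

/-- The standard labelling of the corners. -/
def AGood_G : Option L → F
  | none => 1
  | some (Sum.inl i, false) => AGood_g (4 * i + 1)
  | some (Sum.inr i, false) => AGood_g (4 * i + 2)
  | some (Sum.inl i, true) => AGood_g (4 * i + 3)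
  | some (Sum.inr i, true) => AGood_g (4 * i + 4)

theorem AGood_r3 : r3 = FreeGroup.mk AGood_r := r3_eq

theorem AGood_o0 : o0 = (AGood_o : Cycle (Option L)) := rfl

theorem AGood_nodup : o0.Nodup := by
  rw [AGood_o0, Cycle.nodup_coe_iff]
  decide +kernel

theorem AGood_full (x : Option L) : x ∈ o0 := by
  rw [AGood_o0, Cycle.mem_coe_iff]
  revert x
  decide +kernel

theorem good_of_fix {β : MulAut F} (h : β r3 = r3) : Good ⟨β, o0⟩ := by
  refine ⟨AGood_nodup, AGood_full, AGood_G, rfl, ?_⟩
  change ∀ p q, Nx (AGood_o : Cycle (Option L)) p q → AGood_G q = val AGood_G (β r3) p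
  rw [h, AGood_r3]
  refine (Blk_iff_Nx _ _ (by decide)).1 ⟨1, ?_⟩
  unfold Blk
  decide +kernel

theorem fix_of_good {β : MulAut F} (h : Good ⟨β, o0⟩) : β r3 = r3 := by
  obtain ⟨-, -, G, h0, h⟩ := h
  change ∀ p q, Nx (AGood_o : Cycle (Option L)) p q → G q = val G (β r3) p at h
  generalize β r3 = w at h
  obtain ⟨u, hu⟩ := (Blk_iff_Nx _ _ (by decide)).2 h
  simp only [AGood_o, w0L, List.map_cons, List.map_nil, Blk_cons, Blk_nil, val] at hu
  obtain ⟨e0, e1, e2, e3, e4, e5, e6, e7, e8, e9, e10, e11, e12, e13⟩ := hu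
  have b1 : ∀ i, bar (la i) = lA i := fun _ => rfl
  have b2 : ∀ i, bar (lA i) = la i := fun _ => rfl
  have b3 : ∀ i, bar (lb i) = lB i := fun _ => rfl
  have b4 : ∀ i, bar (lB i) = lb i := fun _ => rfl
  simp only [b1, b2, b3, b4] at e2 e3 e4 e5 e6 e7 e8 e9 e10 e11 e12 e13
  rw [← e0, h0, e10, e11, e12, e9, e6, e7, e8, e5, e2, e3, e4, e1] at e13
  simp only [← mul_assoc, el, FreeGroup.mul_mk, List.cons_append, List.nil_append] at e13
  rw [r3_eq]
  exact (mul_inv_eq_one.1 e13).symm

theorem good_v0 : Good v0 := good_of_fix rfl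

theorem Good.shift {v : Vx} (h : Good v) {γ : MulAut F} (hγ : γ r3 = r3) :
    Good ⟨v.β * γ, v.o⟩ := by
  obtain ⟨h1, h2, G, h0, h⟩ := h
  refine ⟨h1, h2, G, h0, ?_⟩
  change ∀ p q, Nx v.o p q → G q = val G (v.β (γ r3)) p
  rw [hγ]
  exact h

theorem VMov.mem {v v' : Vx} {a : L} {A : Finset (Option L)} {m n : ℕ} (hg : Good v)
    (h : VMov v a A m n v') : some a ∈ A ∧ some (bar a) ∉ A ∧ IsCut v.o A := by
  obtain ⟨X1, X2, Y1, Y2, ho, hA, -⟩ := h
  have hn := hg.1
  rw [ho, Cycle.nodup_coe_iff] at hn
  refine ⟨(hA _).2 (Or.inl rfl), fun hb => ?_, Y2 ++ some a :: X1, X2 ++ some (bar a) :: Y1, ?_,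
    fun x => ?_⟩
  · simp only [List.nodup_append, List.nodup_cons, List.mem_append, List.mem_cons] at hn
    rcases (hA _).1 hb with h1 | h1 | h1
    · exact bar_ne a (Option.some.inj h1)
    · exact hn.1.2.2 _ (Or.inl (Or.inr h1)) _ (Or.inl rfl) rfl
    · exact hn.2.2 _ (Or.inr (Or.inl rfl)) _ h1 rfl
  · rw [ho]
    exact cyc_of_eq _ Y2 rfl (by simp)
  · rw [hA]
    simp only [List.mem_append, List.mem_cons]
    tauto

theorem AGood_val {a : L} {A : Finset (Option L)} {G G' : Option L → F} {w : F}
    (hG : ∀ q, q ≠ some a → q ≠ some (bar a) →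
      G' q = el a ^ (ind A none - ind A q) * wh a A (G q))
    {x : Option L} (h1 : x ≠ some a) (h2 : x ≠ some (bar a)) :
    val G' (wh a A w) x = el a ^ (ind A none - ind A x) * wh a A (val G w x) := by
  rcases x with _ | l
  · simp [val]
  · have hl : l.1 ≠ a.1 := fun e => (eq_or_bar e).elim (fun e => h1 (by rw [e]))
      fun e => h2 (by rw [e])
    have h3 : some (bar l) ≠ some a := fun e => hl (congrArg Prod.fst (Option.some.inj e) :)
    have h4 : some (bar l) ≠ some (bar a) := fun e =>
      hl (congrArg Prod.fst (Option.some.inj e) :)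
    simp only [val]
    rw [hG _ h3 h4, map_mul]
    unfold wh
    rw [whZ_of_ne _ hl]
    group

theorem Good.vmov {v v' : Vx} {a : L} {A : Finset (Option L)} {m n : ℕ} (hg : Good v)
    (h : VMov v a A m n v') : Good v' := by
  obtain ⟨X1, X2, Y1, Y2, ho, hA, -, -, hβ, ho'⟩ := h
  obtain ⟨hn, hf, G, h0, h⟩ := hg
  have hp : (some a :: X2 ++ X1 ++ some (bar a) :: Y2 ++ Y1).Perm
      (some a :: X1 ++ X2 ++ some (bar a) :: Y1 ++ Y2) := by
    rw [List.perm_iff_count]
    intro x
    simp only [List.count_append, List.count_cons]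
    omega
  rw [ho, Cycle.nodup_coe_iff] at hn
  rw [ho] at h
  obtain ⟨u0, hu⟩ := (Blk_iff_Nx _ _ (by simp; omega)).2 h
  simp only [Blk_append, Blk_cons] at hu
  obtain ⟨u5, ⟨u3, ⟨u2, ⟨e0, b1⟩, b2⟩, e3, b3⟩, b4⟩ := hu
  have hab : some (bar a) ≠ some a := fun e => bar_ne a (Option.some.inj e)
  let G' : Option L → F := fun q =>
    if q = some a then el a ^ ind A none * wh a A u5
    else if q = some (bar a) then el a ^ (ind A none - 1) * wh a A u2
    else el a ^ (ind A none - ind A q) * wh a A (G q)
  have hG : ∀ q, q ≠ some a → q ≠ some (bar a) →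
      G' q = el a ^ (ind A none - ind A q) * wh a A (G q) := fun q h1 h2 => by
    simp only [G', if_neg h1, if_neg h2]
  have hGa : G' (some a) = el a ^ ind A none * wh a A u5 := by simp only [G', if_true]
  have hGb : G' (some (bar a)) = el a ^ (ind A none - 1) * wh a A u2 := by
    simp only [G', if_neg hab, if_true]
  have hblk : ∀ (U : List (Option L)) (c : ℤ) (u u' : F),
      (∀ x ∈ U, x ≠ some a ∧ x ≠ some (bar a) ∧ ind A x = c) → Blk G (val G (v.β r3)) U u u' →
      Blk G' (val G' (wh a A (v.β r3))) U (el a ^ (ind A none - c) * wh a A u)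
        (el a ^ (ind A none - c) * wh a A u') := fun U c u u' hU hb =>
    Blk_map (fun g => el a ^ (ind A none - c) * wh a A g) (fun x hx => by
      obtain ⟨h1, h2, h3⟩ := hU x hx
      rw [hG x h1 h2, AGood_val hG h1 h2, h3]
      exact ⟨rfl, rfl⟩) hb
  have hn' := hn
  simp only [List.nodup_append, List.nodup_cons, List.mem_append, List.mem_cons] at hn'
  obtain ⟨⟨⟨⟨n1, -⟩, -, n2⟩, ⟨n3, -⟩, n4⟩, -, n5⟩ := hn'
  have c1 := hblk X1 1 _ _ (fun x hx => ⟨fun e => n1 (e ▸ hx),
    n4 x (Or.inl (Or.inr hx)) _ (Or.inl rfl), if_pos ((hA x).2 (Or.inr (Or.inl hx)))⟩) b1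
  have c2 := hblk X2 0 _ _ (fun x hx => ⟨(n2 _ (Or.inl rfl) x hx).symm,
    n4 x (Or.inr hx) _ (Or.inl rfl), if_neg fun hx' => by
      rcases (hA x).1 hx' with h1 | h1 | h1
      · exact n2 x (Or.inl h1) x hx rfl
      · exact n2 x (Or.inr h1) x hx rfl
      · exact n5 x (Or.inl (Or.inr hx)) x h1 rfl⟩) b2
  have c3 := hblk Y1 0 _ _ (fun x hx => ⟨(n4 _ (Or.inl (Or.inl rfl)) x (Or.inr hx)).symm,
    fun e => n3 (e ▸ hx), if_neg fun hx' => by
      rcases (hA x).1 hx' with h1 | h1 | h1
      · exact n4 x (Or.inl (Or.inl h1)) x (Or.inr hx) rfl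
      · exact n4 x (Or.inl (Or.inr h1)) x (Or.inr hx) rfl
      · exact n5 x (Or.inr (Or.inr hx)) x h1 rfl⟩) b3
  have c4 := hblk Y2 1 _ _ (fun x hx => ⟨(n5 _ (Or.inl (Or.inl (Or.inl rfl))) x hx).symm,
    (n5 _ (Or.inr (Or.inl rfl)) x hx).symm, if_pos ((hA x).2 (Or.inr (Or.inr hx)))⟩) b4
  have hw : wh a A (el a) = el a := whZ_self a _
  refine ⟨?_, fun x => ?_, G', ?_, ?_⟩
  · rw [ho', Cycle.nodup_coe_iff]
    exact hp.nodup_iff.2 hn
  · have := hf x
    rw [ho, Cycle.mem_coe_iff] at this
    rw [ho', Cycle.mem_coe_iff]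
    exact hp.mem_iff.2 this
  · rw [hG none (by simp) (by simp), h0]
    simp
  · rw [ho', hβ]
    change ∀ p q, _ → G' q = val G' (wh a A (v.β r3)) p
    refine (Blk_iff_Nx _ _ (by simp; omega)).1 ⟨el a ^ ind A none * wh a A u5, ?_⟩
    simp only [Blk_append, Blk_cons]
    refine ⟨el a ^ (ind A none - 1) * wh a A u0, ⟨el a ^ (ind A none - 1) * wh a A u2,
      ⟨el a ^ (ind A none - 0) * wh a A u3, ⟨hGa, ?_⟩, ?_⟩, hGb, ?_⟩, ?_⟩
    · convert c2 using 1
      simp only [val]
      rw [hGb]
      group
    · convert c1 using 1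
      simp only [val]
      rw [e3, map_mul, hw]
      group
    · convert c4 using 1
      simp only [val]
      rw [bar_bar, hGa, el_bar]
      group
    · convert c3 using 1
      · simp only [val]
        rw [bar_bar, e0, el_bar, map_mul, map_inv, hw]
        group
      · rw [sub_zero]

theorem Good.vact {v : Vx} (hg : Good v) (π : W) : Good (vact π v) := by
  obtain ⟨hn, hf, G, h0, h⟩ := hg
  have hi : Function.Injective (Option.map π.1) := Option.map_injective π.1.injective
  have hc : ∀ x : Option L, Option.map π.1.symm (Option.map π.1 x) = x := fun x => by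
    cases x <;> simp
  refine ⟨?_, fun x => ?_, fun q => relA π (G (q.map π.1.symm)), ?_, fun p' q' hpq => ?_⟩
  · change (v.o.map (Option.map π.1)).Nodup
    generalize v.o = o at hn
    induction o using Quotient.inductionOn' with
    | h l => exact List.Nodup.map hi hn
  · change x ∈ v.o.map (Option.map π.1)
    rw [Cycle.mem_map]
    exact ⟨x.map π.1.symm, hf _, by cases x <;> simp⟩
  · simp [h0]
  · obtain ⟨p, q, h1, rfl, rfl⟩ := Nx_of_map _ hpq
    change relA π (G _) = val _ (relA π (v.β r3)) _
    rw [hc, h p q h1]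
    rcases p with _ | l
    · simp [val]
    · simp only [val, Option.map_some]
      rw [map_mul, relA_el, ← W_bar, Equiv.symm_apply_apply]

theorem AGood_fl {K : Option L → F} (h0 : K none = 1)
    (h : ∀ l, ∃ p, p ≠ some (bar l) ∧ K (some l) = el l * K p) (q : Option L) :
    fl (K q) = q := by
  classical
  by_contra hq
  obtain ⟨x, hx, hmax⟩ := Finset.exists_max_image
    (Finset.univ.filter fun x : Option L => fl (K x) ≠ x) (fun x => (K x).norm)
    ⟨q, Finset.mem_filter.2 ⟨Finset.mem_univ _, hq⟩⟩
  have hx' := (Finset.mem_filter.1 hx).2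
  rcases x with _ | l
  · exact hx' (by rw [h0, fl_one])
  · obtain ⟨p, hp, e⟩ := h l
    have h1 : fl (K p) = some (bar l) := by
      by_contra h2
      exact hx' (by rw [e]; exact (fl_el_mul l _).2 h2)
    have h2 := hmax p (Finset.mem_filter.2 ⟨Finset.mem_univ _, fun e' => hp (e' ▸ h1)⟩)
    have h3 : K p = el (bar l) * K (some l) := by rw [e, el_bar, inv_mul_cancel_left]
    have h4 := toWord_el_mul (l := bar l) (g := K (some l)) (by rw [bar_bar]; exact hx')
    simp only [FreeGroup.norm] at h2
    rw [h3, h4, List.length_cons] at h2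
    omega

/-- Each corner of the cycle is realised by a translate of the segment from `1` to `β r3`. -/
theorem Good.wit {v : Vx} (hg : Good v) :
    ∃ G : Option L → F, (∀ q, fl (G q) = q) ∧ ∀ p q, Nx v.o p q → fl (G q * v.β r3) = p := by
  obtain ⟨hn, hf, G, h0, h⟩ := hg
  refine ⟨G, AGood_fl h0 fun l => ?_, fun p q hpq => ?_⟩
  · obtain ⟨q, hq⟩ := Nx_exists (hf (some (bar l))) (hf none) (by simp)
    refine ⟨q, (Nx_ne hn hq).symm, ?_⟩
    rw [h _ _ hq]
    simp only [val]
    rw [bar_bar, el_bar, mul_inv_cancel_left]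
  · rw [h p q hpq]
    refine AGood_fl (K := fun p => val G (v.β r3) p * v.β r3) (by simp [val]) (fun l => ?_) p
    obtain ⟨p', hp'⟩ := Nx_exists_left (hf (some (bar l))) (hf none) (by simp)
    refine ⟨p', Nx_ne hn hp', ?_⟩
    rw [← h _ _ hp']
    simp only [val, mul_assoc]

theorem AGood_sw {g : F} (h : g ∈ Sw r3) : ∃ k : Fin 13, g = AGood_g k := by
  rw [AGood_r3] at h
  obtain ⟨k, hk, e⟩ := Sw_mk _ _ h
  exact ⟨⟨k, Nat.lt_succ_of_le hk⟩, e⟩

theorem AGood_nx (k : Fin 13) : Nx o0 (fl (AGood_g k * r3)) (fl (AGood_g k)) := by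
  have h : ∀ k : Fin 13, ∃ j : Fin 13, (AGood_o.rotate j).take 2 =
      [fl (AGood_g k * FreeGroup.mk AGood_r), fl (AGood_g k)] := by decide +kernel
  obtain ⟨j, hj⟩ := h k
  refine ⟨(AGood_o.rotate j).drop 2, ?_⟩
  have e := List.take_append_drop 2 (AGood_o.rotate j)
  rw [hj] at e
  rw [AGood_o0, AGood_r3, Cycle.coe_eq_coe]
  exact ⟨j, e.symm⟩

theorem o0_unique {o : Cycle (Option L)} (h : Good ⟨1, o⟩) : o = o0 := by
  obtain ⟨G, h1, h2⟩ := h.wit
  refine cyc_ext h.1 AGood_nodup (fun x => iff_of_true (h.2.1 x) (AGood_full x)) fun p q hpq => ?_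
  have h3 : fl (G q * r3) = p := h2 p q hpq
  obtain ⟨k, hk⟩ := AGood_sw (g := G q) (by
    change fl (G q) ≠ fl (G q * r3)
    rw [h1, h3]
    exact (Nx_ne h.1 hpq).symm)
  have := AGood_nx k
  rwa [← hk, h1, h3] at this

theorem cr_r3 (j : X) : ∃ h1 h2 : F, ∀ h ∈ cr r3 {some (j, true)}, h = h1 ∨ h = h2 := by
  have key : ∀ j : X, ∃ k1 k2 : Fin 13, ∀ k : Fin 13, ¬ (fl (AGood_g k) = some (j, true) ↔
      fl (AGood_g k * FreeGroup.mk AGood_r) = some (j, true)) → k = k1 ∨ k = k2 := by
    decide +kernel
  obtain ⟨k1, k2, hk⟩ := key j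
  refine ⟨AGood_g k1, AGood_g k2, fun g hg => ?_⟩
  obtain ⟨k, rfl⟩ := AGood_sw (cr_subset _ _ hg)
  have h1 : ¬ (fl (AGood_g k) ∈ ({some (j, true)} : Finset (Option L)) ↔
      fl (AGood_g k * r3) ∈ ({some (j, true)} : Finset (Option L))) := hg
  rw [Finset.mem_singleton, Finset.mem_singleton, AGood_r3] at h1
  rcases hk k h1 with rfl | rfl
  · exact Or.inl rfl
  · exact Or.inr rfl

theorem red_o0 : red o0 = w0 := rfl

end Pool.Agent.MP_61a8e3_al.A

end

section

set_option autoImplicit false

namespace Pool.Agent.MP_61a8e3_al.A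

variable {E : Type} (S : SlideSys E)

theorem AE1_form (e : E) (a : L) :
    ∃ (t : L) (U V : List L), S.w e = ↑(a :: t :: U ++ bar a :: V) := by
  obtain ⟨U, V, h⟩ := exists_split (S.full e a) (S.full e (bar a)) (bar_ne a).symm
  rcases U with _ | ⟨t, U⟩
  · exact absurd ⟨V, h⟩ (S.nobar e a)
  · exact ⟨t, U, V, h⟩

theorem AE1_nm {a b t : L} {U V : List L} (hn : (a :: U ++ t :: b :: V).Nodup) : b ∉ U ++ [t] := by
  have h : (U ++ [t] ++ b :: V).Nodup := by simpa using (List.nodup_cons.1 hn).2
  exact fun hb => List.disjoint_of_nodup_append h hb (by simp)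

theorem commute_bar (a : L) : Commute (S.R a) (S.R (bar a)) := by
  refine Equiv.ext fun e => ?_
  obtain ⟨t, ht⟩ := Nx_exists (S.full e a) (S.full e (bar a)) (bar_ne a).symm
  obtain ⟨u, hu⟩ := Nx_exists (S.full e (bar a)) (S.full e a) (bar_ne a)
  refine S.comm e a (bar a) t u ht hu (bar_ne a).symm ?_ ?_ ?_ (Nx_ne (S.nodup e) hu).symm
  · rintro rfl; exact S.nobar e a ht
  · rw [bar_bar]; exact (Nx_ne (S.nodup e) ht).symm
  · rintro rfl; exact S.nobar e (bar u) (by rwa [bar_bar])

theorem w_Rinv {e : E} {a t : L} {U V : List L} (h : S.w e = ↑(a :: U ++ t :: bar a :: V)) :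
    S.w ((S.R a)⁻¹ e) = ↑(a :: t :: U ++ bar a :: V) := by
  obtain ⟨t', U', V', h'⟩ := AE1_form S ((S.R a)⁻¹ e) a
  have h1 := S.w_R _ _ _ _ _ h'
  rw [← Equiv.Perm.mul_apply, mul_inv_cancel, Equiv.Perm.one_apply] at h1
  have hn := S.nodup e
  have hn' := hn
  rw [h, Cycle.nodup_coe_iff] at hn
  rw [h1, Cycle.nodup_coe_iff] at hn'
  have h2 : U ++ t :: bar a :: V = U' ++ t' :: bar a :: V' := cyc_head_inj hn (h.symm.trans h1)
  have h3 : (U ++ [t]) ++ bar a :: V = (U' ++ [t']) ++ bar a :: V' := by simpa using h2
  obtain ⟨h4, rfl⟩ := split_inj (AE1_nm hn) (AE1_nm hn') h3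
  obtain ⟨rfl, h5⟩ := List.append_inj' h4 rfl
  obtain rfl : t = t' := by simpa using h5
  exact h'

theorem w_Rpow {e : E} {a : L} {X1 X2 Y : List L}
    (h : S.w e = ↑(a :: X1 ++ X2 ++ bar a :: Y)) :
    S.w ((S.R a ^ X1.length) e) = ↑(a :: X2 ++ X1 ++ bar a :: Y) := by
  induction X1 generalizing e X2 with
  | nil => simpa using h
  | cons t X1 ih =>
    have h1 := S.w_R e a t (X1 ++ X2) Y (by simpa using h)
    have h2 := ih (e := S.R a e) (X2 := X2 ++ [t]) (by simpa using h1)
    rw [List.length_cons, pow_succ, Equiv.Perm.mul_apply]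
    simpa using h2

theorem w_Rinvpow {e : E} {a : L} {X1 X2 Y : List L}
    (h : S.w e = ↑(a :: X2 ++ X1 ++ bar a :: Y)) :
    S.w (((S.R a)⁻¹ ^ X1.length) e) = ↑(a :: X1 ++ X2 ++ bar a :: Y) := by
  induction X1 generalizing e X2 with
  | nil => simpa using h
  | cons t X1 ih =>
    have h1 := ih (e := e) (X2 := X2 ++ [t]) (by simpa using h)
    have h2 := w_Rinv S (U := X1 ++ X2) (t := t) (V := Y) (by simpa using h1)
    rw [List.length_cons, pow_succ', Equiv.Perm.mul_apply]
    simpa using h2

theorem w_Mv {e : E} {a : L} {X1 X2 Y1 Y2 : List L}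
    (h : S.w e = ↑(a :: X1 ++ X2 ++ bar a :: Y1 ++ Y2)) :
    S.w (S.Mv a Y2.length X1.length e) = ↑(a :: X2 ++ X1 ++ bar a :: Y2 ++ Y1) := by
  have h1 := w_Rpow S (X1 := X1) (X2 := X2) (Y := Y1 ++ Y2) (by simpa using h)
  have h2 := w_Rinvpow S (a := bar a) (X1 := Y2) (X2 := Y1) (Y := X2 ++ X1)
    (h1.trans (cyc_of_eq (a :: X2 ++ X1) (bar a :: Y1 ++ Y2) (by simp) (by simp)))
  exact h2.trans (cyc_of_eq (bar a :: Y2 ++ Y1) (a :: X2 ++ X1) (by simp) (by simp))

theorem Mv_zero (a : L) : S.Mv a 0 0 = 1 := by
  simp [SlideSys.Mv]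

theorem Mv_add (a : L) (m n m' n' : ℕ) :
    S.Mv a m n * S.Mv a m' n' = S.Mv a (m + m') (n + n') := by
  have hc : Commute (S.R a ^ n) ((S.R (bar a))⁻¹ ^ m') :=
    (commute_bar S a).inv_right.pow_pow n m'
  unfold SlideSys.Mv
  rw [pow_add, pow_add, mul_assoc, ← mul_assoc (S.R a ^ n), hc.eq]
  simp only [mul_assoc]

theorem AE1_twist {e : E} {a : L} {X1 X2 Y1 Y2 : List L}
    (h : S.w e = ↑(a :: X1 ++ X2 ++ bar a :: Y1 ++ Y2)) :
    (S.R a ^ (X2.length + X1.length)) e = (S.R (bar a) ^ (Y1.length + Y2.length)) e := by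
  have h1 := S.twist e a (X1 ++ X2) (Y1 ++ Y2) (by simpa using h)
  rwa [List.length_append, List.length_append, add_comm X1.length] at h1

theorem Mv_symm {e : E} {a : L} {X1 X2 Y1 Y2 : List L}
    (h : S.w e = ↑(a :: X1 ++ X2 ++ bar a :: Y1 ++ Y2)) :
    S.Mv a Y2.length X1.length e = S.Mv (bar a) X2.length Y1.length e := by
  have h1 := AE1_twist S h
  have hc : Commute (S.R a ^ X2.length) (S.R (bar a) ^ Y2.length) := (commute_bar S a).pow_pow _ _
  apply (S.R a ^ X2.length * S.R (bar a) ^ Y2.length).injective
  rw [← Equiv.Perm.mul_apply, ← Equiv.Perm.mul_apply]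
  have e1 : S.R a ^ X2.length * S.R (bar a) ^ Y2.length * S.Mv a Y2.length X1.length =
      S.R a ^ (X2.length + X1.length) := by
    unfold SlideSys.Mv
    rw [inv_pow, mul_assoc, mul_inv_cancel_left, pow_add]
  have e2 : S.R a ^ X2.length * S.R (bar a) ^ Y2.length * S.Mv (bar a) X2.length Y1.length =
      S.R (bar a) ^ (Y1.length + Y2.length) := by
    unfold SlideSys.Mv
    rw [hc.eq, bar_bar, inv_pow, mul_assoc, mul_inv_cancel_left, add_comm, pow_add]
  rw [e1, e2, h1]

theorem Mv_back {e : E} {a : L} {X1 X2 Y1 Y2 : List L}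
    (h : S.w e = ↑(a :: X1 ++ X2 ++ bar a :: Y1 ++ Y2)) :
    S.Mv a Y1.length X2.length (S.Mv a Y2.length X1.length e) = e := by
  rw [← Equiv.Perm.mul_apply, Mv_add]
  unfold SlideSys.Mv
  rw [Equiv.Perm.mul_apply, AE1_twist S h, ← Equiv.Perm.mul_apply, inv_pow, inv_mul_cancel]
  rfl

theorem rl_Mv (π : W) (a : L) (m n : ℕ) :
    S.rl π * S.Mv a m n = S.Mv (π.1 a) m n * S.rl π := by
  have h1 : SemiconjBy (S.rl π) (S.R a) (S.R (π.1 a)) := S.rl_R π a
  have h2 : SemiconjBy (S.rl π) (S.R (bar a)) (S.R (bar (π.1 a))) := by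
    rw [← W_bar]; exact S.rl_R π (bar a)
  exact ((h2.inv_right.pow_right m).mul_right (h1.pow_right n)).eq

theorem Mv_mem (a : L) (m n : ℕ) : S.Mv a m n ∈ S.Lam := by
  have h : ∀ b, S.R b ∈ S.Lam := fun b => Subgroup.subset_closure (Or.inl ⟨b, rfl⟩)
  exact mul_mem (pow_mem (inv_mem (h _)) m) (pow_mem (h a) n)

theorem rl_mem (π : W) : S.rl π ∈ S.Lam := by
  exact Subgroup.subset_closure (Or.inr ⟨π, rfl⟩)

/-- A slide of `a` over `t` keeps the other adjacencies. -/
theorem Nx_R {e : E} {a t p q : L} (ht : Nx (S.w e) a t) (h : Nx (S.w e) p q) (hpa : p ≠ a)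
    (hpt : p ≠ t) (hq : q ≠ bar a) : Nx (S.w (S.R a e)) p q := by
  obtain ⟨t', U, V, h'⟩ := AE1_form S e a
  obtain rfl : t = t' := Nx_unique (S.nodup e) ht ⟨U ++ bar a :: V, h'⟩
  have h1 := S.w_R _ _ _ _ _ h'
  have hn := S.nodup e
  rw [h'] at h
  rw [h', Cycle.nodup_coe_iff] at hn
  rcases Nx_cases h with ⟨U1, V1, h2⟩ | ⟨U1, h2⟩
  · rcases U1 with _ | ⟨x, _ | ⟨y, U2⟩⟩
    · exact absurd (List.cons.inj h2).1.symm hpa
    · exact absurd (List.cons.inj (List.cons.inj h2).2).1.symm hpt
    · have h3 : U ++ bar a :: V = U2 ++ p :: q :: V1 := (List.cons.inj (List.cons.inj h2).2).2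
      rcases List.append_eq_append_iff.1 h3 with ⟨A, rfl, h4⟩ | ⟨A, rfl, h4⟩
      · exact Nx_of_mid (a :: U ++ t :: A) V1 (h1.trans (by rw [h4]; simp))
      · rcases A with _ | ⟨x1, _ | ⟨x2, A⟩⟩
        · exact Nx_of_mid (a :: U2 ++ [t]) V1 (h1.trans (by rw [← List.nil_append (bar a :: V), ← h4]; simp))
        · exact absurd (List.cons.inj (List.cons.inj h4).2).1 hq
        · obtain ⟨rfl, h5⟩ := List.cons.inj h4
          obtain ⟨rfl, -⟩ := List.cons.inj h5
          exact Nx_of_mid (a :: U2) (A ++ t :: bar a :: V) (h1.trans (by simp))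
  · obtain ⟨rfl, h3⟩ := List.cons.inj h2
    obtain ⟨W, x, hW⟩ := (List.eq_nil_or_concat' (bar a :: V)).resolve_left (by simp)
    have h4 : (t :: U ++ W) ++ [x] = U1 ++ [p] := by
      rw [List.append_assoc, ← hW]; exact h3
    obtain rfl : x = p := by simpa using (List.append_inj' h4 rfl).2
    exact Nx_wrap (U ++ t :: W) (h1.trans (by rw [hW]; simp))

/-- A block `c :: X1` not containing `d` nor its successor `u` survives the slide of `d`, with `u`
inserted before `bar d` if that letter is in the block. -/
theorem block_R {e : E} {c d u : L} {X1 U : List L} (h : S.w e = ↑(c :: X1 ++ U))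
    (hu : Nx (S.w e) d u) (hd : d ∉ c :: X1) (hu' : u ∉ c :: X1) (hc : c ≠ bar d) :
    (bar d ∉ X1 → ∃ U' : List L, S.w (S.R d e) = ↑(c :: X1 ++ U')) ∧
    (∀ P Q, X1 = P ++ bar d :: Q →
      ∃ U' : List L, S.w (S.R d e) = ↑(c :: P ++ u :: bar d :: Q ++ U')) := by
  obtain ⟨U2, V1, rfl⟩ : ∃ U2 V1, U = U2 ++ d :: u :: V1 := by
    have hu2 := hu
    rw [h] at hu2
    rcases Nx_cases hu2 with ⟨U1, V1, h2⟩ | ⟨U1, h2⟩
    · rcases List.append_eq_append_iff.1 h2 with ⟨A, -, h4⟩ | ⟨A, h3, h4⟩
      · exact ⟨A, V1, h4⟩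
      · rcases A with _ | ⟨x, A⟩
        · exact ⟨[], V1, h4.symm⟩
        · obtain ⟨rfl, -⟩ := List.cons.inj h4
          exact absurd (by rw [h3]; simp) hd
    · obtain ⟨rfl, -⟩ := List.cons.inj h2
      exact absurd (by simp) hu'
  refine ⟨fun hb => ?_, ?_⟩
  · have hm := S.full e (bar d)
    rw [h, Cycle.mem_coe_iff] at hm
    have hbu : bar d ≠ u := by rintro rfl; exact S.nobar e d hu
    simp only [List.cons_append, List.mem_cons, List.mem_append, hc.symm, hb, bar_ne d, hbu,
      false_or] at hm
    rcases hm with hm | hm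
    · obtain ⟨P, Q, rfl⟩ := List.append_of_mem hm
      have h1 := S.w_R e d u (V1 ++ c :: X1 ++ P) Q
        (h.trans (cyc_of_eq (c :: X1 ++ P ++ bar d :: Q) (d :: u :: V1) (by simp) (by simp)))
      exact ⟨P ++ u :: bar d :: Q ++ d :: V1,
        h1.trans (cyc_of_eq (d :: V1) (c :: X1 ++ P ++ u :: bar d :: Q) (by simp) (by simp))⟩
    · obtain ⟨P, Q, rfl⟩ := List.append_of_mem hm
      have h1 := S.w_R e d u P (Q ++ c :: X1 ++ U2)
        (h.trans (cyc_of_eq (c :: X1 ++ U2) (d :: u :: P ++ bar d :: Q) (by simp) (by simp)))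
      exact ⟨U2 ++ d :: P ++ u :: bar d :: Q,
        h1.trans (cyc_of_eq (d :: P ++ u :: bar d :: Q) (c :: X1 ++ U2) (by simp) (by simp))⟩
  · rintro P Q rfl
    have h1 := S.w_R e d u (V1 ++ c :: P) (Q ++ U2)
      (h.trans (cyc_of_eq (c :: P ++ bar d :: Q ++ U2) (d :: u :: V1) (by simp) (by simp)))
    exact ⟨U2 ++ d :: V1,
      h1.trans (cyc_of_eq (d :: V1) (c :: P ++ u :: bar d :: Q ++ U2) (by simp) (by simp))⟩

end Pool.Agent.MP_61a8e3_al.A

end

section

set_option autoImplicit false

namespace Pool.Agent.MP_61a8e3_al.A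

variable {E : Type} (S : SlideSys E)

theorem vmov_exists {v : Vx} (hg : Good v) {a : L} {A : Finset (Option L)} (hc : IsCut v.o A)
    (ha : some a ∈ A) (hb : some (bar a) ∉ A) : ∃ m n v', VMov v a A m n v' := by
  obtain ⟨I, J, ho, hI⟩ := hc
  obtain ⟨Y2, X1, rfl⟩ := List.append_of_mem ((hI _).1 ha)
  have hJ : some (bar a) ∈ J := by
    have h := hg.2.1 (some (bar a))
    rw [ho, Cycle.mem_coe_iff, List.mem_append] at h
    exact h.resolve_left (fun h' => hb ((hI _).2 h'))
  obtain ⟨X2, Y1, rfl⟩ := List.append_of_mem hJ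
  refine ⟨cnt Y2, cnt X1, ⟨wh a A * v.β, ↑(some a :: X2 ++ X1 ++ some (bar a) :: Y2 ++ Y1)⟩,
    X1, X2, Y1, Y2, ?_, fun x => ?_, rfl, rfl, rfl, rfl⟩
  · rw [ho]
    exact cyc_of_eq Y2 (some a :: X1 ++ X2 ++ some (bar a) :: Y1) (by simp) (by simp)
  · rw [hI]
    simp only [List.mem_append, List.mem_cons]
    tauto

theorem AMov1_split {α : Type} (P : α → Prop) {U1 U2 V1 V2 : List α} (h : U1 ++ U2 = V1 ++ V2)
    (h1 : ∀ x ∈ U1, P x) (h2 : ∀ x ∈ U2, ¬ P x) (h3 : ∀ x ∈ V1, P x) (h4 : ∀ x ∈ V2, ¬ P x) :
    U1 = V1 ∧ U2 = V2 := by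
  rcases List.append_eq_append_iff.1 h with ⟨T, rfl, rfl⟩ | ⟨T, rfl, rfl⟩
  · have : T = [] := List.eq_nil_iff_forall_not_mem.2 fun x hx =>
      h2 x (List.mem_append_left _ hx) (h3 x (List.mem_append_right _ hx))
    simp [this]
  · have : T = [] := List.eq_nil_iff_forall_not_mem.2 fun x hx =>
      h4 x (List.mem_append_left _ hx) (h1 x (List.mem_append_right _ hx))
    simp [this]

theorem AMov1_facts {α : Type} {a b : α} {A : Finset α} {X1 X2 Y1 Y2 : List α}
    (hn : (a :: X1 ++ X2 ++ b :: Y1 ++ Y2).Nodup)
    (hA : ∀ x, x ∈ A ↔ x = a ∨ x ∈ X1 ∨ x ∈ Y2) :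
    b ∉ X1 ++ X2 ∧ (∀ x ∈ X1, x ∈ A) ∧ (∀ x ∈ X2, ¬ x ∈ A) ∧ (∀ x ∈ Y1, x ∉ A) ∧
      ∀ x ∈ Y2, ¬ x ∉ A := by
  simp only [List.nodup_append, List.nodup_cons, List.mem_append, List.mem_cons] at hn
  simp only [hA, List.mem_append]
  grind

/-- The decomposition in a move is determined by the letter and the cut. -/
theorem decomp_unique {a : L} {A : Finset (Option L)}
    {X1 X2 Y1 Y2 X1' X2' Y1' Y2' : List (Option L)}
    (hn : (some a :: X1 ++ X2 ++ some (bar a) :: Y1 ++ Y2).Nodup)
    (h : ((some a :: X1 ++ X2 ++ some (bar a) :: Y1 ++ Y2 : List (Option L)) : Cycle (Option L)) =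
      ↑(some a :: X1' ++ X2' ++ some (bar a) :: Y1' ++ Y2'))
    (hA : ∀ x, x ∈ A ↔ x = some a ∨ x ∈ X1 ∨ x ∈ Y2)
    (hA' : ∀ x, x ∈ A ↔ x = some a ∨ x ∈ X1' ∨ x ∈ Y2') :
    X1 = X1' ∧ X2 = X2' ∧ Y1 = Y1' ∧ Y2 = Y2' := by
  have hn' : (some a :: X1' ++ X2' ++ some (bar a) :: Y1' ++ Y2').Nodup := by
    rw [← Cycle.nodup_coe_iff, ← h, Cycle.nodup_coe_iff]; exact hn
  obtain ⟨a1, a2, a3, a4, a5⟩ := AMov1_facts hn hA
  obtain ⟨b1, b2, b3, b4, b5⟩ := AMov1_facts hn' hA'
  have e : (X1 ++ X2) ++ some (bar a) :: (Y1 ++ Y2) =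
      (X1' ++ X2') ++ some (bar a) :: (Y1' ++ Y2') :=
    cyc_head_inj (a := some a) (by simpa using hn) (by simpa using h)
  obtain ⟨e1, e2⟩ := split_inj a1 b1 e
  obtain ⟨f1, f2⟩ := AMov1_split (· ∈ A) e1 a2 a3 b2 b3
  obtain ⟨f3, f4⟩ := AMov1_split (· ∉ A) e2 a4 a5 b4 b5
  exact ⟨f1, f2, f3, f4⟩

theorem vmov_unique {v v1 v2 : Vx} (hg : Good v) {a : L} {A : Finset (Option L)}
    {m n m' n' : ℕ} (h1 : VMov v a A m n v1) (h2 : VMov v a A m' n' v2) :
    m = m' ∧ n = n' ∧ v1 = v2 := by
  obtain ⟨X1, X2, Y1, Y2, ho, hA, rfl, rfl, hβ, ho1⟩ := h1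
  obtain ⟨X1', X2', Y1', Y2', ho', hA', rfl, rfl, hβ', ho2⟩ := h2
  have hn := hg.1
  rw [ho, Cycle.nodup_coe_iff] at hn
  obtain ⟨rfl, rfl, rfl, rfl⟩ := decomp_unique hn (ho.symm.trans ho') hA hA'
  exact ⟨rfl, rfl, Vx.ext (hβ.trans hβ'.symm) (ho1.trans ho2.symm)⟩

theorem mov_unique {s s1 s2 : St E} (hs : Ok S s) {a : L} {A : Finset (Option L)}
    (h1 : Mov S s a A s1) (h2 : Mov S s a A s2) : s1 = s2 := by
  obtain ⟨m, n, h1, e1⟩ := h1
  obtain ⟨m', n', h2, e2⟩ := h2
  obtain ⟨rfl, rfl, e⟩ := vmov_unique hs.1 h1 h2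
  exact St.ext e (e1.trans e2.symm)

theorem mov_exists {s : St E} (hs : Ok S s) {a : L} {A : Finset (Option L)}
    (hc : IsCut s.v.o A) (ha : some a ∈ A) (hb : some (bar a) ∉ A) : ∃ s', Mov S s a A s' := by
  obtain ⟨m, n, v', h⟩ := vmov_exists hs.1 hc ha hb
  exact ⟨⟨v', S.Mv a m n s.e⟩, m, n, h, rfl⟩

theorem Mov.mem {s s' : St E} (hs : Ok S s) {a : L} {A : Finset (Option L)}
    (h : Mov S s a A s') :
    some a ∈ A ∧ some (bar a) ∉ A ∧ IsCut s.v.o A ∧ s'.v.β = wh a A * s.v.β := by
  obtain ⟨m, n, h, -⟩ := h
  obtain ⟨h1, h2, h3⟩ := VMov.mem hs.1 h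
  obtain ⟨_, _, _, _, -, -, -, -, hβ, -⟩ := h
  exact ⟨h1, h2, h3, hβ⟩

theorem Ok.mov {s s' : St E} (hs : Ok S s) {a : L} {A : Finset (Option L)}
    (h : Mov S s a A s') : Ok S s' := by
  obtain ⟨m, n, h, he⟩ := h
  refine ⟨Good.vmov hs.1 h, ?_⟩
  obtain ⟨X1, X2, Y1, Y2, ho, -, rfl, rfl, -, ho'⟩ := h
  have h1 := hs.2
  rw [ho, red_coe] at h1
  simp only [List.reduceOption_append, List.reduceOption_cons_of_some] at h1
  rw [he, ho', red_coe]
  simp only [List.reduceOption_append, List.reduceOption_cons_of_some]
  exact w_Mv S h1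

theorem Ok.sact {s : St E} (hs : Ok S s) (π : W) : Ok S (sact S π s) := by
  refine ⟨Good.vact hs.1 π, ?_⟩
  show S.w (S.rl π s.e) = red (s.v.o.map (Option.map π.1))
  rw [S.w_rl, red_map, hs.2]

theorem Ok.adj {s s' : St E} (hs : Ok S s) (h : Adj S s s') : Ok S s' := by
  obtain ⟨a, A, π, s'', h, rfl⟩ := h
  exact Ok.sact S (Ok.mov S hs h) π

theorem Ok.rch {s s' : St E} (hs : Ok S s) (h : Rch S s s') : Ok S s' := by
  induction h with
  | refl => exact hs
  | tail _ h ih => exact Ok.adj S ih h

theorem vact_one (v : Vx) : vact 1 v = v := by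
  obtain ⟨β, o⟩ := v
  refine Vx.ext (by simp [vact]) ?_
  show o.map (Option.map (1 : W).1) = o
  induction o using Quotient.inductionOn' with
  | h l =>
    have : Option.map (1 : W).1 = id := by funext x; cases x <;> rfl
    rw [this]
    show ((l.map id : List (Option L)) : Cycle (Option L)) = ↑l
    rw [List.map_id]

theorem vact_mul (π σ : W) (v : Vx) : vact (π * σ) v = vact π (vact σ v) := by
  obtain ⟨β, o⟩ := v
  refine Vx.ext (by simp [vact, mul_assoc]) ?_
  show o.map (Option.map (π * σ).1) = (o.map (Option.map σ.1)).map (Option.map π.1)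
  induction o using Quotient.inductionOn' with
  | h l =>
    have : Option.map (π * σ).1 = Option.map π.1 ∘ Option.map σ.1 := by
      funext x; cases x <;> rfl
    rw [this]
    show ((l.map (Option.map π.1 ∘ Option.map σ.1) : List (Option L)) : Cycle (Option L)) =
      ↑((l.map (Option.map σ.1)).map (Option.map π.1))
    rw [List.map_map]

theorem sact_one (s : St E) : sact S 1 s = s := by
  refine St.ext (vact_one _) ?_
  show S.rl 1 s.e = s.e
  rw [map_one]; rfl

theorem sact_mul (π σ : W) (s : St E) : sact S (π * σ) s = sact S π (sact S σ s) := by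
  refine St.ext (vact_mul _ _ _) ?_
  show S.rl (π * σ) s.e = S.rl π (S.rl σ s.e)
  rw [map_mul]; rfl

theorem AMov1_cnt (f : L → L) (U : List (Option L)) : cnt (U.map (Option.map f)) = cnt U := by
  unfold cnt
  rw [List.reduceOption_map, List.length_map]

theorem vmov_vact {v v' : Vx} {a : L} {A : Finset (Option L)} {m n : ℕ}
    (h : VMov v a A m n v') (π : W) : VMov (vact π v) (π.1 a) (aact π A) m n (vact π v') := by
  obtain ⟨X1, X2, Y1, Y2, ho, hA, rfl, rfl, hβ, ho'⟩ := h
  have hi : Function.Injective (Option.map π.1 : Option L → Option L) :=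
    Option.map_injective π.1.injective
  refine ⟨X1.map (Option.map π.1), X2.map (Option.map π.1), Y1.map (Option.map π.1),
    Y2.map (Option.map π.1), ?_, fun x => ?_, (AMov1_cnt _ _).symm, (AMov1_cnt _ _).symm, ?_, ?_⟩
  · show v.o.map (Option.map π.1) = _
    rw [ho, Cycle.map_coe]
    simp [W_bar]
  · obtain ⟨y, rfl⟩ : ∃ y, x = Option.map π.1 y :=
      ⟨Option.map π.1.symm x, by cases x <;> simp⟩
    rw [mem_aact, hA, List.mem_map_of_injective hi, List.mem_map_of_injective hi]
    have : Option.map π.1 y = some (π.1 a) ↔ y = some a := hi.eq_iff (b := some a)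
    rw [this]
  · show relA π * v'.β = wh (π.1 a) (aact π A) * (relA π * v.β)
    rw [hβ, ← mul_assoc, wh_relA, mul_assoc]
  · show v'.o.map (Option.map π.1) = _
    rw [ho', Cycle.map_coe]
    simp [W_bar]

theorem mov_sact {s s' : St E} {a : L} {A : Finset (Option L)} (h : Mov S s a A s') (π : W) :
    Mov S (sact S π s) (π.1 a) (aact π A) (sact S π s') := by
  obtain ⟨m, n, h, he⟩ := h
  refine ⟨m, n, vmov_vact h π, ?_⟩
  show S.rl π s'.e = S.Mv (π.1 a) m n (S.rl π s.e)
  rw [he, ← Equiv.Perm.mul_apply, rl_Mv, Equiv.Perm.mul_apply]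

theorem mov_triv {s : St E} (hs : Ok S s) (a : L) : Mov S s a {some a} s := by
  obtain ⟨U, V, h⟩ := exists_split (hs.1.2.1 (some a)) (hs.1.2.1 (some (bar a)))
    (fun h => bar_ne a (Option.some.inj h).symm)
  refine ⟨0, 0, ⟨[], U, V, [], by simpa using h, by simp, rfl, rfl, ?_, by simpa using h⟩, ?_⟩
  · rw [wh_single, one_mul]
  · rw [Mv_zero]; rfl

end Pool.Agent.MP_61a8e3_al.A

end

section

set_option autoImplicit false

namespace Pool.Agent.MP_61a8e3_al.A

variable {E : Type} (S : SlideSys E)

/-- Exactly one of six statements holds. -/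
def AMov2_One (p0 p1 p2 p3 p4 p5 : Prop) : Prop :=
  (p0 ∧ ¬ p1 ∧ ¬ p2 ∧ ¬ p3 ∧ ¬ p4 ∧ ¬ p5) ∨ (¬ p0 ∧ p1 ∧ ¬ p2 ∧ ¬ p3 ∧ ¬ p4 ∧ ¬ p5) ∨
  (¬ p0 ∧ ¬ p1 ∧ p2 ∧ ¬ p3 ∧ ¬ p4 ∧ ¬ p5) ∨ (¬ p0 ∧ ¬ p1 ∧ ¬ p2 ∧ p3 ∧ ¬ p4 ∧ ¬ p5) ∨
  (¬ p0 ∧ ¬ p1 ∧ ¬ p2 ∧ ¬ p3 ∧ p4 ∧ ¬ p5) ∨ (¬ p0 ∧ ¬ p1 ∧ ¬ p2 ∧ ¬ p3 ∧ ¬ p4 ∧ p5)

theorem AMov2_one {p0 p1 p2 p3 p4 p5 : Prop} (k1 : p0 → ¬ p1) (k2 : p0 ∨ p1 → ¬ p2)
    (k3 : p3 → ¬ p4) (k4 : (p0 ∨ p1) ∨ p2 → ¬ (p3 ∨ p4))
    (k5 : ((p0 ∨ p1) ∨ p2) ∨ p3 ∨ p4 → ¬ p5) (h : (((p0 ∨ p1) ∨ p2) ∨ p3 ∨ p4) ∨ p5) :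
    AMov2_One p0 p1 p2 p3 p4 p5 := by
  unfold AMov2_One
  by_cases h0 : p0 <;> by_cases h1 : p1 <;> by_cases h2 : p2 <;> by_cases h3 : p3 <;>
    by_cases h4 : p4 <;> by_cases h5 : p5 <;> simp_all

theorem AMov2_p1 {p0 p1 p2 p3 p4 p5 : Prop} (h : AMov2_One p0 p1 p2 p3 p4 p5) :
    ¬ (p0 ∨ p1 ∨ p5) ↔ p3 ∨ p4 ∨ p2 := by
  rcases h with h | h | h | h | h | h <;> simp [h]

theorem AMov2_p2 {p0 p1 p2 p3 p4 p5 : Prop} (h : AMov2_One p0 p1 p2 p3 p4 p5) :
    p0 ∨ ¬ p3 ∧ ¬ (p0 ∨ p1 ∨ p5) ↔ p0 ∨ p2 ∨ p4 := by
  rcases h with h | h | h | h | h | h <;> simp [h]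

theorem AMov2_p3 {p0 p1 p2 p3 p4 p5 : Prop} (h : AMov2_One p0 p1 p2 p3 p4 p5) (h3 : p3) :
    ¬ (p1 ∨ p2) := by
  rcases h with h | h | h | h | h | h <;> simp_all

theorem AMov2_p4 {p0 p1 p2 p3 p4 p5 : Prop} (h : AMov2_One p0 p1 p2 p3 p4 p5)
    (h1 : p0 ∨ p1 ∨ p5) (h2 : p2 ∨ p4) : False := by
  rcases h with h | h | h | h | h | h <;> simp_all

theorem AMov2_p5 {p0 p1 p2 p3 p4 p5 q r : Prop} (h : AMov2_One p0 p1 (q ∨ p2) p3 (p4 ∨ r) p5) :
    p0 ∨ (p0 ∨ (p1 ∨ q) ∨ r ∨ p5) ∧ ¬ (p0 ∨ p1 ∨ p5) ↔ p0 ∨ q ∨ r := by
  rcases h with h | h | h | h | h | h <;> simp_all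

theorem AMov2_part {α : Type} {a b : α} {X1 X2 Y1 Y2 : List α}
    (hn : (a :: X1 ++ X2 ++ b :: Y1 ++ Y2).Nodup) (x : α)
    (hx : x ∈ a :: X1 ++ X2 ++ b :: Y1 ++ Y2) :
    AMov2_One (x = a) (x ∈ X1) (x ∈ X2) (x = b) (x ∈ Y1) (x ∈ Y2) := by
  simp only [List.nodup_append, List.nodup_cons, List.mem_append, List.mem_cons] at hn hx
  obtain ⟨⟨⟨⟨h1, -⟩, -, h2⟩, ⟨h3, -⟩, h4⟩, -, h5⟩ := hn
  exact AMov2_one (fun e => e ▸ h1) (fun p q => h2 x p x q rfl) (fun e => e ▸ h3)
    (fun p q => h4 x p x q rfl) (fun p q => h5 x p x q rfl) hx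

theorem AMov2_good {v : Vx} (hg : Good v) {l : List (Option L)} (h : v.o = ↑l) :
    l.Nodup ∧ ∀ x, x ∈ l := by
  refine ⟨?_, fun x => ?_⟩
  · have := hg.1
    rwa [h, Cycle.nodup_coe_iff] at this
  · have := hg.2.1 x
    rwa [h, Cycle.mem_coe_iff] at this

theorem AMov2_red (a b : L) (X1 X2 Y1 Y2 : List (Option L)) :
    red ((some a :: X1 ++ X2 ++ some b :: Y1 ++ Y2 : List (Option L)) : Cycle (Option L)) =
      ↑(a :: X1.reduceOption ++ X2.reduceOption ++ b :: Y1.reduceOption ++ Y2.reduceOption) := by
  rw [red_coe]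
  simp only [List.reduceOption_append, List.reduceOption_cons_of_some]

theorem AMov2_cnt (U V : List (Option L)) : cnt (U ++ V) = cnt U + cnt V := by
  simp only [cnt, List.reduceOption_append, List.length_append]

theorem AMov2_ne {a l : L} (h : l.1 ≠ a.1) : some l ≠ some a ∧ some l ≠ some (bar a) := by
  constructor
  · intro e
    exact h (by rw [Option.some.inj e])
  · intro e
    exact h (by rw [Option.some.inj e, bar_fst])

theorem AMov2_wh_back (a : L) (A : Finset (Option L)) :
    wh a (insert (some a) (Aᶜ.erase (some (bar a)))) * wh a A = 1 := by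
  rw [wh, wh, ← whZ_add, ← whZ_zero a]
  refine whZ_congr a fun l hl => ?_
  obtain ⟨h1, h2⟩ := AMov2_ne hl
  by_cases h3 : some l ∈ A <;> by_cases h4 : none ∈ A <;>
    simp only [Pi.add_apply, Pi.zero_apply, ind, Finset.mem_insert, Finset.mem_erase,
      Finset.mem_compl, h1, h3, h4] <;> simp [h2]

theorem AMov2_wh_T2 (a : L) {A B : Finset (Option L)} (hAB : A ⊆ B) :
    wh a (insert (some a) (B \ A)) * wh a A = wh a B := by
  rw [wh, wh, wh, ← whZ_add]
  refine whZ_congr a fun l hl => ?_
  obtain ⟨h1, -⟩ := AMov2_ne hl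
  have key : ∀ x, x ≠ some a → (ind (insert (some a) (B \ A)) + ind A) x = ind B x := by
    intro x hx
    by_cases h3 : x ∈ A
    · simp [ind, hx, h3, hAB h3]
    · by_cases h4 : x ∈ B <;> simp [ind, hx, h3, h4]
  rw [key _ h1, key none (by simp)]

theorem mov_compl {s s' : St E} (hs : Ok S s) {a : L} {A : Finset (Option L)}
    (h : Mov S s a A s') : Mov S s (bar a) Aᶜ s' := by
  obtain ⟨m, n, ⟨X1, X2, Y1, Y2, ho, hA, rfl, rfl, hβ, ho'⟩, he⟩ := h
  obtain ⟨hn, hf⟩ := AMov2_good hs.1 ho
  refine ⟨cnt X2, cnt Y1, ⟨Y1, Y2, X1, X2, ?_, fun x => ?_, rfl, rfl, ?_, ?_⟩, ?_⟩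
  · rw [ho, bar_bar]
    exact cyc_of_eq (some a :: X1 ++ X2) (some (bar a) :: Y1 ++ Y2) (by simp) (by simp)
  · rw [Finset.mem_compl, hA]
    exact AMov2_p1 (AMov2_part hn x (hf x))
  · rw [hβ, wh_compl]
  · rw [ho', bar_bar]
    exact cyc_of_eq (some a :: X2 ++ X1) (some (bar a) :: Y2 ++ Y1) (by simp) (by simp)
  · rw [he]
    exact Mv_symm S (by rw [hs.2, ho, AMov2_red])

theorem vmov_back {v v' : Vx} (hg : Good v) {a : L} {A : Finset (Option L)} {m n : ℕ}
    (h : VMov v a A m n v') :
    ∃ m' n', VMov v' a (insert (some a) (Aᶜ.erase (some (bar a)))) m' n' v ∧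
      ∀ e, S.w e = red v.o → S.Mv a m' n' (S.Mv a m n e) = e := by
  obtain ⟨X1, X2, Y1, Y2, ho, hA, rfl, rfl, hβ, ho'⟩ := h
  obtain ⟨hn, hf⟩ := AMov2_good hg ho
  refine ⟨cnt Y1, cnt X2, ⟨X2, X1, Y2, Y1, ho', fun x => ?_, rfl, rfl, ?_, ho⟩, fun e he => ?_⟩
  · rw [Finset.mem_insert, Finset.mem_erase, Finset.mem_compl, hA]
    exact AMov2_p2 (AMov2_part hn x (hf x))
  · rw [hβ, ← mul_assoc, AMov2_wh_back, one_mul]
  · exact Mv_back S (by rw [he, ho, AMov2_red])

theorem mov_back {s s' : St E} (hs : Ok S s) {a : L} {A : Finset (Option L)}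
    (h : Mov S s a A s') : Mov S s' a (insert (some a) (Aᶜ.erase (some (bar a)))) s := by
  obtain ⟨m, n, hv, he⟩ := h
  obtain ⟨m', n', hv', hb⟩ := vmov_back S hs.1 hv
  exact ⟨m', n', hv', by rw [he, hb _ hs.2]⟩

theorem mov_T2 {s s1 s2 : St E} (hs : Ok S s) {a : L} {A B : Finset (Option L)}
    (h1 : Mov S s a A s1) (h2 : Mov S s a B s2) (hAB : A ⊆ B) :
    Mov S s1 a (insert (some a) (B \ A)) s2 := by
  obtain ⟨m, n, ⟨X1, X2, Y1, Y2, ho, hA, rfl, rfl, hβ, ho1⟩, he⟩ := h1
  obtain ⟨m', n', ⟨X1', X2', Y1', Y2', ho', hB, rfl, rfl, hβ', ho2⟩, he'⟩ := h2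
  obtain ⟨hn, hf⟩ := AMov2_good hs.1 ho
  obtain ⟨hn', hf'⟩ := AMov2_good hs.1 ho'
  have hp := fun x => AMov2_part hn x (hf x)
  have hp' := fun x => AMov2_part hn' x (hf' x)
  have e1 : X1 ++ X2 ++ some (bar a) :: (Y1 ++ Y2) = X1' ++ X2' ++ some (bar a) :: (Y1' ++ Y2') :=
    cyc_head_inj (a := some a) (by simpa using hn) (by simpa using ho.symm.trans ho')
  obtain ⟨e2, e3⟩ := split_inj
    (by rw [List.mem_append]; exact AMov2_p3 (hp _) rfl)
    (by rw [List.mem_append]; exact AMov2_p3 (hp' _) rfl) e1
  obtain ⟨M, rfl, rfl⟩ : ∃ M, X1' = X1 ++ M ∧ X2 = M ++ X2' := by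
    rcases List.append_eq_append_iff.1 e2 with h | ⟨M, h1, h2⟩
    · exact h
    · have hM : M = [] := by
        refine List.eq_nil_iff_forall_not_mem.2 fun x hx => ?_
        have h3 : x ∈ X1 := by rw [h1]; simp [hx]
        have h4 : x ∈ X2' := by rw [h2]; simp [hx]
        exact AMov2_p4 (hp' x) ((hB x).1 (hAB ((hA x).2 (Or.inr (Or.inl h3))))) (Or.inl h4)
      subst hM
      exact ⟨[], by simpa using h1.symm, by simpa using h2.symm⟩
  obtain ⟨N, rfl, rfl⟩ : ∃ N, Y1 = Y1' ++ N ∧ Y2' = N ++ Y2 := by
    rcases List.append_eq_append_iff.1 e3 with ⟨N, h1, h2⟩ | h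
    · have hN : N = [] := by
        refine List.eq_nil_iff_forall_not_mem.2 fun x hx => ?_
        have h3 : x ∈ Y2 := by rw [h2]; simp [hx]
        have h4 : x ∈ Y1' := by rw [h1]; simp [hx]
        exact AMov2_p4 (hp' x) ((hB x).1 (hAB ((hA x).2 (Or.inr (Or.inr h3))))) (Or.inr h4)
      subst hN
      exact ⟨[], by simpa using h1.symm, by simpa using h2.symm⟩
    · exact h
  refine ⟨cnt N, cnt M, ⟨M, X2' ++ X1, Y2 ++ Y1', N, ?_, fun x => ?_, rfl, rfl, ?_, ?_⟩, ?_⟩
  · rw [ho1]; simp only [List.append_assoc, List.cons_append]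
  · have h3 := hp x
    rw [Finset.mem_insert, Finset.mem_sdiff, hA, hB]
    simp only [List.mem_append] at h3 ⊢
    exact AMov2_p5 h3
  · rw [hβ', hβ, ← mul_assoc, AMov2_wh_T2 a hAB]
  · rw [ho2]; simp only [List.append_assoc, List.cons_append]
  · rw [he', he, ← Equiv.Perm.mul_apply, Mv_add, AMov2_cnt, AMov2_cnt, add_comm (cnt X1)]

theorem adj_of_mov {s s' : St E} {a : L} {A : Finset (Option L)} (h : Mov S s a A s') :
    Adj S s s' := by
  exact ⟨a, A, 1, s', h, (sact_one S s').symm⟩

theorem adj_sact {s s' : St E} (h : Adj S s s') (π σ : W) :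
    Adj S (sact S π s) (sact S σ s') := by
  obtain ⟨a, A, τ, s'', h, rfl⟩ := h
  refine ⟨_, _, σ * τ * π⁻¹, _, mov_sact S h π, ?_⟩
  rw [← sact_mul, ← sact_mul, inv_mul_cancel_right]

theorem adj_refl_sact {s : St E} (hs : Ok S s) (π : W) : Adj S s (sact S π s) := by
  exact ⟨la 0, _, π, s, mov_triv S hs _, rfl⟩

theorem adj_symm {s s' : St E} (hs : Ok S s) (h : Adj S s s') : Adj S s' s := by
  obtain ⟨a, A, π, s'', h, rfl⟩ := h
  refine ⟨_, _, π⁻¹, _, mov_sact S (mov_back S hs h) π, ?_⟩
  rw [← sact_mul, inv_mul_cancel, sact_one]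

theorem rch_symm {s s' : St E} (hs : Ok S s) (h : Rch S s s') : Rch S s' s := by
  induction h with
  | refl => exact Relation.ReflTransGen.refl
  | tail h1 h2 ih => exact Relation.ReflTransGen.head (adj_symm S (Ok.rch S hs h1) h2) ih

/-- Moves depend only on the vertex, and are injective on the fibre. -/
theorem adj_lift {s s' t : St E} (h : Adj S s s') (ht : t.v = s.v) :
    ∃ t', Adj S t t' ∧ t'.v = s'.v ∧ (t' = s' → t = s) := by
  obtain ⟨a, A, π, s'', ⟨m, n, hv, he⟩, rfl⟩ := h
  refine ⟨sact S π ⟨s''.v, S.Mv a m n t.e⟩, ⟨a, A, π, _, ⟨m, n, ht ▸ hv, rfl⟩, rfl⟩, rfl,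
    fun e => St.ext ht ?_⟩
  have h1 : S.rl π (S.Mv a m n t.e) = S.rl π s''.e := congrArg St.e e
  rw [he] at h1
  exact (S.Mv a m n).injective ((S.rl π).injective h1)

/-- Precomposition with an automorphism preserves adjacency. -/
theorem adj_shift {s s' : St E} (h : Adj S s s') (γ : MulAut F) :
    Adj S ⟨⟨s.v.β * γ, s.v.o⟩, s.e⟩ ⟨⟨s'.v.β * γ, s'.v.o⟩, s'.e⟩ := by
  obtain ⟨a, A, π, s'', ⟨m, n, ⟨X1, X2, Y1, Y2, ho, hA, hm, hn, hβ, ho'⟩, he⟩, rfl⟩ := h
  refine ⟨a, A, π, ⟨⟨s''.v.β * γ, s''.v.o⟩, s''.e⟩,
    ⟨m, n, ⟨X1, X2, Y1, Y2, ho, hA, hm, hn, ?_, ho'⟩, he⟩, ?_⟩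
  · show s''.v.β * γ = wh a A * (s.v.β * γ)
    rw [hβ, mul_assoc]
  · simp only [sact, vact, mul_assoc]

theorem rch_shift {s s' : St E} (h : Rch S s s') (γ : MulAut F) :
    Rch S ⟨⟨s.v.β * γ, s.v.o⟩, s.e⟩ ⟨⟨s'.v.β * γ, s'.v.o⟩, s'.e⟩ := by
  induction h with
  | refl => exact Relation.ReflTransGen.refl
  | tail _ h2 ih => exact Relation.ReflTransGen.tail ih (adj_shift S h2 γ)

end Pool.Agent.MP_61a8e3_al.A

end

section

set_option autoImplicit false

namespace Pool.Agent.MP_61a8e3_al.A

theorem en_transport (β ω : MulAut F) (h : F) {A B : Finset (Option L)}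
    (H : ∀ g, fl g ∈ A ↔ fl (h * ω g) ∈ B) : en (ω * β) B = en β A := by
  refine Finset.sum_congr rfl fun i _ => ?_
  have e : cr (β (FreeGroup.of i)) A =
      (ω.toEquiv.trans (Equiv.mulLeft h)) ⁻¹' cr ((ω * β) (FreeGroup.of i)) B := by
    ext g
    show ¬ (fl g ∈ A ↔ fl (g * β (FreeGroup.of i)) ∈ A) ↔
      ¬ (fl (h * ω g) ∈ B ↔ fl (h * ω g * ω (β (FreeGroup.of i))) ∈ B)
    rw [H, H, map_mul, mul_assoc]
  rw [e, Set.ncard_preimage_of_injective_subset_range (Equiv.injective _)
    (by rw [Equiv.range_eq_univ]; exact Set.subset_univ _)]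

theorem en_compl (β : MulAut F) (A : Finset (Option L)) : en β Aᶜ = en β A := by
  refine Finset.sum_congr rfl fun i _ => ?_
  congr 1
  ext g
  simp only [cr, Set.mem_ofPred_eq, Finset.mem_compl, not_iff_not]

theorem en_bar (β : MulAut F) (a : L) : en β {some (bar a)} = en β {some a} := by
  rw [← en_compl, ← en_transport β 1 (el a) (B := {some a}), one_mul]
  intro g
  rw [Finset.mem_compl, Finset.mem_singleton, Finset.mem_singleton, MulAut.one_apply, fl_el_mul]

theorem en_submod (β : MulAut F) (A B : Finset (Option L)) :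
    en β (A ∩ B) + en β (A ∪ B) ≤ en β A + en β B := by
  unfold en
  rw [← Finset.sum_add_distrib, ← Finset.sum_add_distrib]
  refine Finset.sum_le_sum fun i _ => ?_
  rw [← Set.ncard_union_add_ncard_inter _ _ (cr_finite _ _) (cr_finite _ _),
    ← Set.ncard_union_add_ncard_inter _ _ (cr_finite _ A) (cr_finite _ B)]
  refine add_le_add (Set.ncard_le_ncard (fun g => ?_) ((cr_finite _ A).union (cr_finite _ B)))
    (Set.ncard_le_ncard (fun g => ?_) ((cr_finite _ A).inter_of_left _))
  · simp only [cr, Set.mem_union, Set.mem_ofPred_eq, Finset.mem_inter, Finset.mem_union]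
    tauto
  · simp only [cr, Set.mem_inter_iff, Set.mem_ofPred_eq, Finset.mem_inter, Finset.mem_union]
    tauto

theorem en_pos (β : MulAut F) {A : Finset (Option L)} {x y : Option L} (hx : x ∈ A)
    (hy : y ∉ A) : 0 < en β A := by
  by_contra hn
  have h0 : en β A = 0 := by omega
  have h1 : ∀ i g, fl g ∈ A ↔ fl (g * β (FreeGroup.of i)) ∈ A := fun i g => by
    have := (Set.ncard_eq_zero (cr_finite _ _)).1
      (Finset.sum_eq_zero_iff.1 h0 i (Finset.mem_univ i))
    by_contra h
    exact Set.notMem_empty g (this ▸ h)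
  have h2 : ∀ u g, fl g ∈ A ↔ fl (g * β u) ∈ A := fun u => by
    induction u using FreeGroup.induction_on with
    | C1 => intro g; rw [map_one, mul_one]
    | of i => exact h1 i
    | inv_of i ih =>
      intro g
      rw [ih (g * β (FreeGroup.of i)⁻¹), map_inv, inv_mul_cancel_right]
    | mul u v ihu ihv =>
      intro g
      rw [ihu g, ihv, map_mul, mul_assoc]
  obtain ⟨g, rfl⟩ := exists_fl x
  obtain ⟨k, rfl⟩ := exists_fl y
  have h3 := (h2 (β.symm (g⁻¹ * k)) g).1 hx
  rw [MulEquiv.apply_symm_apply, mul_inv_cancel_left] at h3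
  exact hy h3

theorem en_wh_self (β : MulAut F) {a : L} {A : Finset (Option L)} (ha : some a ∈ A)
    (hb : some (bar a) ∉ A) : en (wh a A * β) {some a} = en β A := by
  refine en_transport β _ (el a ^ ind A none) fun g => ?_
  obtain ⟨h1, h2, h3⟩ := fl_wh ha hb g
  rw [Finset.mem_singleton]
  refine ⟨h1, fun e => ?_⟩
  by_contra hn
  by_cases h : fl g = some (bar a)
  · rcases h3 h with h4 | h4
    · exact bar_ne a (Option.some.inj (h4.symm.trans e))
    · exact h4.2 e
  · exact hn ((h2 hn h).symm.trans e ▸ ha)

theorem en_wh_out (β : MulAut F) {a : L} {A J : Finset (Option L)} (ha : some a ∈ A)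
    (hb : some (bar a) ∉ A) (hJ : Disjoint J A) (hJ' : some (bar a) ∉ J) :
    en (wh a A * β) J = en β J := by
  refine en_transport β _ (el a ^ ind A none) fun g => ?_
  obtain ⟨h1, h2, h3⟩ := fl_wh ha hb g
  have hd : ∀ x ∈ A, x ∉ J := fun x hx => Finset.disjoint_right.1 hJ hx
  by_cases hA : fl g ∈ A
  · exact iff_of_false (hd _ hA) (h1 hA ▸ hd _ ha)
  · by_cases h : fl g = some (bar a)
    · refine iff_of_false (h ▸ hJ') ?_
      rcases h3 h with h4 | h4
      · exact h4 ▸ hJ'
      · exact hd _ h4.1
    · rw [h2 hA h]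

theorem en_wh_in (β : MulAut F) {a : L} {A J : Finset (Option L)} (ha : some a ∈ A)
    (hb : some (bar a) ∉ A) (hJ : J ⊆ A) (hJ' : some a ∉ J) :
    en (wh a A * β) J = en β J := by
  rw [← wh_compl]
  refine en_wh_out β (Finset.mem_compl.2 hb) ?_
    (Finset.disjoint_left.2 fun x hx h => Finset.mem_compl.1 h (hJ hx)) ?_
  · rw [bar_bar]
    exact fun h => Finset.mem_compl.1 h ha
  · rwa [bar_bar]

theorem en_wh_letter (β : MulAut F) {a l : L} {A : Finset (Option L)} (ha : some a ∈ A)
    (hb : some (bar a) ∉ A) (hl : l.1 ≠ a.1) : en (wh a A * β) {some l} = en β {some l} := by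
  by_cases h : some l ∈ A
  · refine en_wh_in β ha hb (Finset.singleton_subset_iff.2 h) fun e => hl ?_
    rw [← Option.some.inj (Finset.mem_singleton.1 e)]
  · refine en_wh_out β ha hb (Finset.disjoint_singleton_left.2 h) fun e => hl ?_
    rw [← Option.some.inj (Finset.mem_singleton.1 e), bar_fst]

theorem AEn_split (β : MulAut F) (a : L) : En β = 2 * en β {some a} +
    ∑ l ∈ Finset.univ.filter (fun l : L => l.1 ≠ a.1), en β {some l} := by
  have e : Finset.univ.filter (fun l : L => l.1 = a.1) = {bar a, a} := by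
    ext l
    simp only [Finset.mem_filter, Finset.mem_univ, true_and, Finset.mem_insert,
      Finset.mem_singleton]
    refine ⟨fun h => (eq_or_bar h).symm, ?_⟩
    rintro (rfl | rfl) <;> rfl
  rw [En, ← Finset.sum_filter_add_sum_filter_not _ (fun l : L => l.1 = a.1), e,
    Finset.sum_pair (bar_ne a), en_bar, two_mul]

theorem En_wh (β : MulAut F) {a : L} {A : Finset (Option L)} (ha : some a ∈ A)
    (hb : some (bar a) ∉ A) :
    En (wh a A * β) + 2 * en β {some a} = En β + 2 * en β A := by
  rw [AEn_split _ a, AEn_split β a, en_wh_self β ha hb,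
    Finset.sum_congr rfl fun l hl => en_wh_letter β ha hb (Finset.mem_filter.1 hl).2]
  omega

theorem en_relA (β : MulAut F) (π : W) (A : Finset (Option L)) :
    en (relA π * β) (aact π A) = en β A := by
  refine en_transport β _ 1 fun g => ?_
  rw [one_mul, fl_relA, mem_aact]

theorem En_relA (β : MulAut F) (π : W) : En (relA π * β) = En β := by
  unfold En
  rw [← Equiv.sum_comp π.1]
  refine Finset.sum_congr rfl fun l _ => ?_
  rw [← en_relA β π {some l}, aact, Finset.image_singleton]
  rfl

theorem AEn_cr {A : Finset (Option L)} (h : none ∉ A) (l : L) : (cr (el l) A).ncard =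
    (if some l ∈ A then 1 else 0) + if some (bar l) ∈ A then 1 else 0 := by
  have h1 : (1 : F) ∈ cr (el l) A ↔ some l ∈ A := by
    simp only [cr, Set.mem_ofPred_eq, one_mul, fl_one, fl_el, h, false_iff, not_not]
  have h2 : el (bar l) ∈ cr (el l) A ↔ some (bar l) ∈ A := by
    have e : el (bar l) * el l = 1 := by rw [el_bar, inv_mul_cancel]
    simp only [cr, Set.mem_ofPred_eq, e, fl_one, fl_el, h, iff_false, not_not]
  have h3 : ∀ g ∈ cr (el l) A, g = 1 ∨ g = el (bar l) := fun g hg => by
    rw [el_bar]; exact Sw_el (cr_subset _ _ hg)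
  have h4 : (1 : F) ≠ el (bar l) := fun e => by
    have := fl_el (bar l)
    rw [← e, fl_one] at this
    cases this
  split_ifs with a b b
  · refine Eq.trans ?_ (Set.ncard_pair h4)
    congr 1
    refine Set.Subset.antisymm h3 ?_
    rintro g (rfl | rfl)
    exacts [h1.2 a, h2.2 b]
  · refine Set.ncard_eq_one.2 ⟨1, Set.eq_singleton_iff_unique_mem.2 ⟨h1.2 a, fun g hg => ?_⟩⟩
    exact (h3 g hg).resolve_right fun e => b (h2.1 (e ▸ hg))
  · refine Set.ncard_eq_one.2 ⟨_, Set.eq_singleton_iff_unique_mem.2 ⟨h2.2 b, fun g hg => ?_⟩⟩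
    exact (h3 g hg).resolve_left fun e => a (h1.1 (e ▸ hg))
  · rw [Set.eq_empty_of_forall_notMem fun g hg =>
      (h3 g hg).elim (fun e => a (h1.1 (e ▸ hg))) fun e => b (h2.1 (e ▸ hg)), Set.ncard_empty]

/-- At the identity the energy counts letters. -/
theorem en_one {A : Finset (Option L)} (h : none ∉ A) : en 1 A = A.card := by
  have e : A.card = ∑ x : Option L, if x ∈ A then 1 else 0 := by
    rw [← Finset.card_filter, Finset.filter_mem_eq_inter, Finset.univ_inter]
  rw [e, Fintype.sum_option, if_neg h, zero_add, Fintype.sum_prod_type]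
  refine Finset.sum_congr rfl fun i _ => ?_
  rw [Fintype.sum_bool]
  exact AEn_cr h (i, true)

end Pool.Agent.MP_61a8e3_al.A

end

section

set_option autoImplicit false

namespace Pool.Agent.MP_61a8e3_al.A

variable {E : Type} (S : SlideSys E)

theorem ABase_le (u : F) (T : Finset F) (h : ∀ g ∈ T, ∃ l : L, g ∈ cr u {some l}) :
    T.card ≤ ∑ l : L, (cr u {some l}).ncard := by
  classical
  have h1 : T ⊆ Finset.univ.biUnion fun l : L => (cr_finite u {some l}).toFinset := by
    intro g hg
    obtain ⟨l, hl⟩ := h g hg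
    exact Finset.mem_biUnion.2 ⟨l, Finset.mem_univ _, (Set.Finite.mem_toFinset _).2 hl⟩
  refine (Finset.card_le_card h1).trans (Finset.card_biUnion_le.trans_eq ?_)
  exact Finset.sum_congr rfl fun l _ => (Set.ncard_eq_toFinset_card _ _).symm

theorem ABase_fl {u : F} (hu : u ≠ 1) : ∃ l, fl u = some l :=
  Option.ne_none_iff_exists'.1 fun h => hu (fl_eq_none.1 h)

theorem ABase_one {u : F} (hu : u ≠ 1) : ∃ l : L, (1 : F) ∈ cr u {some l} := by
  obtain ⟨l, hl⟩ := ABase_fl hu
  exact ⟨l, by simp [cr, fl_one, hl]⟩

theorem ABase_inv {u : F} (hu : u ≠ 1) : ∃ l : L, u⁻¹ ∈ cr u {some l} := by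
  obtain ⟨l, hl⟩ := ABase_fl (inv_ne_one.2 hu)
  exact ⟨l, by simp [cr, fl_one, hl]⟩

theorem ABase_el_ne (l : L) : el l ≠ 1 := fun h => by
  have := fl_el l
  rw [h, fl_one] at this
  exact absurd this (by simp)

theorem ABase_two {u : F} (hu : u ≠ 1) : 2 ≤ ∑ l : L, (cr u {some l}).ncard := by
  classical
  have h := ABase_le u {1, u⁻¹} (by
    intro g hg
    rcases Finset.mem_insert.1 hg with rfl | hg
    · exact ABase_one hu
    · rw [Finset.mem_singleton.1 hg]
      exact ABase_inv hu)
  rwa [Finset.card_pair (inv_ne_one.2 hu).symm] at h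

theorem ABase_three {u : F} (hu : u ≠ 1) (hl : ∀ l, u ≠ el l) :
    3 ≤ ∑ l : L, (cr u {some l}).ncard := by
  classical
  obtain ⟨l, hfl⟩ := ABase_fl hu
  have h3 : (el l)⁻¹ ∈ cr u {some (bar l)} := by
    have h1 : fl (el (bar l) * u) ≠ some (bar l) := fun h => by
      rw [fl_el_mul, bar_bar] at h
      exact h hfl
    rw [← el_bar]
    simp [cr, fl_el, h1]
  have h := ABase_le u {1, u⁻¹, (el l)⁻¹} (by
    intro g hg
    rcases Finset.mem_insert.1 hg with rfl | hg
    · exact ABase_one hu
    rcases Finset.mem_insert.1 hg with rfl | hg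
    · exact ABase_inv hu
    · rw [Finset.mem_singleton.1 hg]
      exact ⟨_, h3⟩)
  rwa [Finset.card_eq_three.2 ⟨_, _, _, (inv_ne_one.2 hu).symm,
    (inv_ne_one.2 (ABase_el_ne l)).symm, fun h => hl l (inv_injective h), rfl⟩] at h

theorem ABase_letter {β : MulAut F} (h : ∀ l : L, en β {some l} ≤ 1) (i : X) :
    ∃ l, β (FreeGroup.of i) = el l := by
  by_contra hc
  have hne : ∀ j : X, β (FreeGroup.of j) ≠ 1 := fun j h =>
    ABase_el_ne (j, true) (β.injective (h.trans (map_one β).symm))
  have h1 : ∑ _j : X, 2 < ∑ j : X, ∑ l : L, (cr (β (FreeGroup.of j)) {some l}).ncard :=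
    Finset.sum_lt_sum (fun j _ => ABase_two (hne j))
      ⟨i, Finset.mem_univ _, ABase_three (hne i) fun l hl => hc ⟨l, hl⟩⟩
  rw [Finset.sum_comm] at h1
  have h2 : ∑ l : L, ∑ j : X, (cr (β (FreeGroup.of j)) {some l}).ncard ≤ ∑ _l : L, 1 :=
    Finset.sum_le_sum fun l _ => h l
  have h3 := h1.trans_le h2
  simp at h3

theorem ABase_rel {β : MulAut F} (h : ∀ l : L, en β {some l} ≤ 1) : ∃ π : W, β = relA π := by
  have h1 : ∀ l : L, ∃ m, β (el l) = el m := by
    rintro ⟨i, b⟩
    obtain ⟨m, hm⟩ := ABase_letter h i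
    cases b
    · refine ⟨bar m, ?_⟩
      have h1 : el (i, false) = (FreeGroup.of i)⁻¹ := el_bar (i, true)
      rw [h1, map_inv, hm, el_bar]
    · exact ⟨m, hm⟩
  choose p hp using h1
  have hinj : Function.Injective p := fun l m hlm =>
    el_inj (β.injective (by rw [hp, hp, hlm]))
  refine ⟨⟨Equiv.ofBijective p (Finite.injective_iff_bijective.1 hinj), fun l => ?_⟩,
    aut_ext fun l => ?_⟩
  · refine el_inj ?_
    change el (p (bar l)) = el (bar (p l))
    rw [← hp, el_bar, el_bar, map_inv, hp]
  · rw [relA_el, hp]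
    rfl

theorem base_of_small {v : Vx} (hg : Good v) (h : ∀ l : L, en v.β {some l} ≤ 1) :
    ∃ π : W, v = vact π v0 := by
  obtain ⟨π, hπ⟩ := ABase_rel h
  have h1 : (vact π⁻¹ v).β = 1 := by
    change relA π⁻¹ * v.β = 1
    rw [hπ, ← map_mul, inv_mul_cancel, map_one]
  have h2 : Good ⟨1, (vact π⁻¹ v).o⟩ := by
    rw [← h1]
    exact hg.vact π⁻¹
  have h3 : vact π⁻¹ v = v0 := Vx.ext h1 (o0_unique h2)
  exact ⟨π, by rw [← h3, ← vact_mul, mul_inv_cancel, vact_one]⟩

theorem ABase_single {A : Finset (Option L)} {a : L} (h0 : none ∉ A) (ha : some a ∈ A)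
    (h : en 1 A ≤ 1) : A = {some a} := by
  rw [en_one h0] at h
  exact Finset.eq_singleton_iff_unique_mem.2
    ⟨ha, fun x hx => Finset.card_le_one.1 h x hx _ ha⟩

theorem base_adj {e : E} (he : S.w e = w0) (π : W) {s' : St E}
    (h : Adj S (sact S π ⟨v0, e⟩) s') (hE : En s'.v.β ≤ En 1) :
    ∃ σ : W, s' = sact S σ ⟨v0, e⟩ := by
  have hok : Ok S ⟨v0, e⟩ := ⟨good_v0, he.trans red_o0.symm⟩
  have h1 := adj_sact S h π⁻¹ 1
  rw [← sact_mul, inv_mul_cancel, sact_one, sact_one] at h1
  obtain ⟨a, A, τ, s'', hm, rfl⟩ := h1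
  obtain ⟨ha, hb, -, hβ⟩ := Mov.mem S hok hm
  have h2 : En (wh a A * 1) ≤ En 1 := by
    have : En (sact S τ s'').v.β = En s''.v.β := En_relA _ τ
    rw [this, hβ] at hE
    exact hE
  have h3 := En_wh 1 ha hb
  rw [en_one (A := {some a}) (by simp), Finset.card_singleton] at h3
  have h4 : en 1 A ≤ 1 := by omega
  refine ⟨τ, congrArg (sact S τ) ?_⟩
  by_cases h0 : none ∈ A
  · have h5 : Aᶜ = {some (bar a)} :=
      ABase_single (by simpa using h0) (Finset.mem_compl.2 hb) (by rwa [en_compl])
    have h6 := mov_compl S hok hm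
    rw [h5] at h6
    exact mov_unique S hok h6 (mov_triv S hok _)
  · rw [ABase_single h0 ha h4] at hm
    exact mov_unique S hok hm (mov_triv S hok _)

theorem vact_v0_inj {π σ : W} (h : vact π v0 = vact σ v0) : π = σ := by
  have h1 : relA π * 1 = relA σ * 1 := congrArg Vx.β h
  rw [mul_one, mul_one] at h1
  refine Subtype.ext (Equiv.ext fun l => el_inj ?_)
  rw [← relA_el, ← relA_el, h1]

end Pool.Agent.MP_61a8e3_al.A

end

section

set_option autoImplicit false

namespace Pool.Agent.MP_61a8e3_al.A

theorem ADesc1_fl_inv {g : F} {l : L} (h : some l ≠ fl g⁻¹) :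
    fl (g * el l)⁻¹ = some (bar l) := by
  rw [mul_inv_rev, ← el_bar, fl_el_mul, bar_bar]
  exact h.symm

theorem ADesc1_norm_el (l : L) : (el l).norm = 1 := by
  have h : fl (1 : F) ≠ some (bar l) := by rw [fl_one]; simp
  have := toWord_el_mul h
  rw [mul_one] at this
  unfold FreeGroup.norm
  rw [this]; simp

theorem ADesc1_norm {g : F} {l : L} (h : some l ≠ fl g⁻¹) :
    (g * el l).norm = g.norm + 1 := by
  rw [norm_mul_of_ne (by rw [fl_el]; exact h), ADesc1_norm_el]

theorem ADesc1_split {g : F} {l : L} (h : fl g = some l) :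
    ∃ g', g = el l * g' ∧ fl g' ≠ some (bar l) := by
  refine ⟨(el l)⁻¹ * g, by group, ?_⟩
  rw [← fl_el_mul]
  have : el l * ((el l)⁻¹ * g) = g := by group
  rw [this, h]

theorem ADesc1_bound (κ : F → Prop) (k : F) : ∀ g : F, fl k ≠ fl g⁻¹ → ¬ (κ (g * k) ↔ κ g) →
    ∃ (h : F) (l : L), ¬ (κ h ↔ κ (h * el l)) ∧ g.norm ≤ h.norm := by
  induction k using fl_induction with
  | h1 => intro g _ h; simp at h
  | hs l k hk ih =>
    intro g hg h
    have h1 : fl (el l * k) = some l := (fl_el_mul l k).2 hk
    rw [h1] at hg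
    by_cases h2 : κ g ↔ κ (g * el l)
    · obtain ⟨h', m, h3, h4⟩ := ih (g * el l) (by rw [ADesc1_fl_inv hg]; exact hk) (by
        rw [mul_assoc, ← h2]; exact h)
      refine ⟨h', m, h3, ?_⟩
      rw [ADesc1_norm hg] at h4
      omega
    · exact ⟨g, l, h2, le_rfl⟩

theorem ADesc1_one (κ : F → Prop) (hfin : ∀ l : L, {g : F | ¬ (κ g ↔ κ (g * el l))}.Finite)
    (l0 : L) (hnm : ∃ g k, fl g = some l0 ∧ fl k = some l0 ∧ ¬ (κ g ↔ κ k)) :
    ∃ (z : F) (c : L), (∀ k, fl k ≠ some c → fl (z * k) = some l0) ∧
      (∀ g k, fl g = fl k → fl g ≠ some c → (κ (z * g) ↔ κ (z * k))) ∧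
      (∃ k, fl k ≠ some c ∧ ¬ (κ (z * k) ↔ κ z)) := by
  classical
  let N : Set F := {g | fl g = some l0 ∧ ∃ k, fl k ≠ fl g⁻¹ ∧ ¬ (κ (g * k) ↔ κ g)}
  have hne : el l0 ∈ N := by
    obtain ⟨g, k, hg, hk, h⟩ := hnm
    obtain ⟨g', rfl, hg'⟩ := ADesc1_split hg
    obtain ⟨k', rfl, hk'⟩ := ADesc1_split hk
    refine ⟨fl_el l0, ?_⟩
    rw [← el_bar, fl_el]
    by_cases h1 : κ (el l0 * g') ↔ κ (el l0)
    · exact ⟨k', hk', fun h2 => h (h1.trans h2.symm)⟩
    · exact ⟨g', hg', h1⟩
  have hB : (⋃ l : L, {g : F | ¬ (κ g ↔ κ (g * el l))}).Finite := Set.finite_iUnion hfin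
  obtain ⟨M, hM⟩ := (hB.image FreeGroup.norm).bddAbove
  have hbdd : BddAbove (FreeGroup.norm '' N) := by
    refine ⟨M, ?_⟩
    rintro _ ⟨g, ⟨_, k, hk, h⟩, rfl⟩
    obtain ⟨h', l, h1, h2⟩ := ADesc1_bound κ k g hk h
    exact h2.trans (hM ⟨h', Set.mem_iUnion.2 ⟨l, h1⟩, rfl⟩)
  obtain ⟨z, hz, hzn⟩ := Nat.sSup_mem (s := FreeGroup.norm '' N) ⟨_, el l0, hne, rfl⟩ hbdd
  have hmax : ∀ g ∈ N, g.norm ≤ z.norm := fun g hg => by
    rw [hzn]; exact le_csSup hbdd ⟨g, hg, rfl⟩
  obtain ⟨hz0, hzk⟩ := hz
  have hz1 : z ≠ 1 := by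
    rintro rfl
    rw [fl_one] at hz0
    simp at hz0
  obtain ⟨c, hc⟩ : ∃ c, fl z⁻¹ = some c := by
    rcases h : fl z⁻¹ with _ | c
    · exact absurd (inv_eq_one.1 (fl_eq_none.1 h)) hz1
    · exact ⟨c, rfl⟩
  refine ⟨z, c, fun k hk => ?_, fun g k hgk hg => ?_, ?_⟩
  · rw [fl_mul_of_ne hz1 (by rw [hc]; exact hk), hz0]
  · rcases hm : fl g with _ | m
    · rw [fl_eq_none.1 hm, fl_eq_none.1 (hgk ▸ hm : fl k = none)]
    · have hm' : fl k = some m := hgk ▸ hm
      have hmc : some m ≠ fl z⁻¹ := by rw [hc, ← hm]; exact hg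
      have hnot : z * el m ∉ N := fun h => by
        have := hmax _ h
        rw [ADesc1_norm hmc] at this
        omega
      have hmono : ∀ k', fl k' ≠ some (bar m) → (κ (z * (el m * k')) ↔ κ (z * el m)) := by
        intro k' hk'
        by_contra h
        refine hnot ⟨?_, k', ?_, ?_⟩
        · rw [fl_mul_of_ne hz1 (by rw [fl_el]; exact hmc), hz0]
        · rw [ADesc1_fl_inv hmc]; exact hk'
        · rw [mul_assoc]; exact h
      obtain ⟨g', rfl, hg'⟩ := ADesc1_split hm
      obtain ⟨k', rfl, hk'⟩ := ADesc1_split hm'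
      exact (hmono g' hg').trans (hmono k' hk').symm
  · rw [← hc]; exact hzk

/-- In a half-tree that is not monochromatic there is an extreme vertex. -/
theorem extreme (κ : F → Prop) (hfin : ∀ l : L, {g : F | ¬ (κ g ↔ κ (g * el l))}.Finite)
    (v : F) (l0 : L)
    (hnm : ∃ g k, fl g = some l0 ∧ fl k = some l0 ∧ ¬ (κ (v * g) ↔ κ (v * k))) :
    ∃ (z : F) (c : L), (∀ k, fl k ≠ some c → fl (v⁻¹ * (z * k)) = some l0) ∧
      (∀ g k, fl g = fl k → fl g ≠ some c → (κ (z * g) ↔ κ (z * k))) ∧
      (∃ k, fl k ≠ some c ∧ ¬ (κ (z * k) ↔ κ z)) := by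
  obtain ⟨z, c, h1, h2, h3⟩ := ADesc1_one (fun g => κ (v * g)) (fun l => by
    refine Set.Finite.subset ((hfin l).preimage (f := fun g => v * g)
      (mul_right_injective v).injOn) ?_
    intro g hg
    simpa [mul_assoc] using hg) l0 hnm
  refine ⟨v * z, c, fun k hk => ?_, fun g k hgk hg => ?_, ?_⟩
  · have : v⁻¹ * (v * z * k) = z * k := by group
    rw [this]; exact h1 k hk
  · simpa [mul_assoc] using h2 g k hgk hg
  · simpa [mul_assoc] using h3

/-- Parity of the number of crossings. -/
noncomputable def ADesc1_par (j : X) (u : F) : ZMod 2 :=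
  ((cr u {some (j, true)}).ncard : ZMod 2)

theorem ADesc1_symm {s t : Set F} (hs : s.Finite) (ht : t.Finite) :
    (((symmDiff s t).ncard : ℕ) : ZMod 2) = s.ncard + t.ncard := by
  have h1 := Set.ncard_inter_add_ncard_sdiff_eq_ncard s t hs
  have h2 := Set.ncard_inter_add_ncard_sdiff_eq_ncard t s ht
  have h3 : (symmDiff s t).ncard = (s \ t).ncard + (t \ s).ncard := by
    rw [symmDiff_def]
    exact Set.ncard_union_eq disjoint_sdiff_sdiff hs.sdiff ht.sdiff
  rw [Set.inter_comm] at h2
  rw [h3, ← h1, ← h2]
  push_cast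
  have h4 : ∀ x : ZMod 2, x + x = 0 := by decide
  linear_combination (-1 : ZMod 2) * h4 ((s ∩ t).ncard : ZMod 2)

theorem ADesc1_par_mul (j : X) (u w : F) :
    ADesc1_par j (u * w) = ADesc1_par j u + ADesc1_par j w := by
  unfold ADesc1_par
  have h1 : cr (u * w) {some (j, true)} =
      symmDiff (cr u {some (j, true)}) ((fun g => g * u⁻¹) '' cr w {some (j, true)}) := by
    ext g
    have h2 : g ∈ (fun g => g * u⁻¹) '' cr w {some (j, true)} ↔
        g * u ∈ cr w {some (j, true)} := by
      constructor
      · rintro ⟨x, hx, rfl⟩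
        simpa using hx
      · intro h
        exact ⟨g * u, h, by simp⟩
    rw [Set.mem_symmDiff, h2]
    simp only [cr, Set.mem_ofPred_eq, ← mul_assoc]
    tauto
  rw [h1, ADesc1_symm (cr_finite _ _) ((cr_finite _ _).image _),
    Set.ncard_image_of_injective _ (mul_left_injective u⁻¹)]

theorem ADesc1_par_one (j : X) : ADesc1_par j 1 = 0 := by
  have := ADesc1_par_mul j 1 1
  rw [mul_one] at this
  exact left_eq_add.1 this

theorem ADesc1_par_inv (j : X) (u : F) : ADesc1_par j u⁻¹ = ADesc1_par j u := by
  have := ADesc1_par_mul j u u⁻¹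
  rw [mul_inv_cancel, ADesc1_par_one] at this
  revert this
  generalize ADesc1_par j u = x
  generalize ADesc1_par j u⁻¹ = y
  revert x y
  decide

theorem ADesc1_par_true (j i : X) : ADesc1_par j (el (i, true)) = if i = j then 1 else 0 := by
  unfold ADesc1_par
  have hinv : fl (el (i, true))⁻¹ = some (i, false) := by
    rw [← el_bar, fl_el]; rfl
  split_ifs with h
  · subst h
    have : cr (el (i, true)) {some (i, true)} = {1} := by
      ext g
      constructor
      · intro hg
        rcases Sw_el (cr_subset _ _ hg) with rfl | rfl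
        · rfl
        · exfalso
          apply hg
          rw [inv_mul_cancel, fl_one, hinv]
          simp
      · rintro rfl
        show ¬ _
        rw [one_mul, fl_one, fl_el]
        simp
    rw [this]; simp
  · have : cr (el (i, true)) {some (j, true)} = ∅ := by
      ext g
      constructor
      · intro hg
        rcases Sw_el (cr_subset _ _ hg) with rfl | rfl
        · exfalso
          apply hg
          rw [one_mul, fl_one, fl_el]
          simp [h]
        · exfalso
          apply hg
          rw [inv_mul_cancel, fl_one, hinv]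
          simp
      · intro h; exact h.elim
    rw [this]; simp

theorem ADesc1_par_el (j : X) (l : L) : ADesc1_par j (el l) = if l.1 = j then 1 else 0 := by
  rcases l with ⟨i, b⟩
  cases b
  · have h1 : el (i, false) = (el (i, true))⁻¹ := el_bar (i, true)
    rw [h1, ADesc1_par_inv, ADesc1_par_true]
  · exact ADesc1_par_true j i

theorem ADesc1_expand (β : MulAut F) (i : X) (w : F) :
    ADesc1_par i (β w) = ∑ j : X, ADesc1_par j w * ADesc1_par i (β (el (j, true))) := by
  induction w using fl_induction with
  | h1 => simp [ADesc1_par_one]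
  | hs l g _ ih =>
    rw [map_mul, ADesc1_par_mul, ih]
    simp only [ADesc1_par_mul, add_mul, Finset.sum_add_distrib, ADesc1_par_el, ite_mul, one_mul,
      zero_mul, Finset.sum_ite_eq, Finset.mem_univ, if_true]
    congr 1
    rcases l with ⟨j, b⟩
    cases b
    · have h1 : el (j, false) = (el (j, true))⁻¹ := el_bar (j, true)
      rw [h1, map_inv, ADesc1_par_inv]
    · rfl

/-- Every letter crosses some wall of the other basis an odd number of times. -/
theorem exists_odd (β : MulAut F) (a : L) :
    ∃ j : X, Odd (cr (β⁻¹ (el a)) {some (j, true)}).ncard := by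
  by_contra h
  have h0 : ∀ j, ADesc1_par j (β⁻¹ (el a)) = 0 := fun j => by
    have h1 : Even (cr (β⁻¹ (el a)) {some (j, true)}).ncard :=
      Nat.not_odd_iff_even.1 (fun h2 => h ⟨j, h2⟩)
    exact (ZMod.natCast_eq_zero_iff_even).2 h1
  have h1 := ADesc1_expand β a.1 (β⁻¹ (el a))
  rw [MulAut.apply_inv_self, ADesc1_par_el] at h1
  simp only [h0, zero_mul, Finset.sum_const_zero, if_true] at h1
  exact one_ne_zero h1

end Pool.Agent.MP_61a8e3_al.A

end

section

set_option autoImplicit false

namespace Pool.Agent.MP_61a8e3_al.A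

/-- The colouring by the wall of the generator `j` of the basis `β`. -/
def ADesc2_k (β : MulAut F) (j : X) (g : F) : Prop := fl (β⁻¹ g) = some (j, true)

theorem ADesc2_cr (β : MulAut F) (j : X) (u g : F) :
    ¬ (ADesc2_k β j g ↔ ADesc2_k β j (g * u)) ↔ β⁻¹ g ∈ cr (β⁻¹ u) {some (j, true)} := by
  simp only [ADesc2_k, cr, Set.mem_ofPred_eq, Finset.mem_singleton, map_mul]

theorem ADesc2_K1 (β : MulAut F) (j i : X) (g : F)
    (h : ¬ (ADesc2_k β j g ↔ ADesc2_k β j (g * β (FreeGroup.of i)))) : i = j ∧ g = 1 := by
  rw [ADesc2_cr, MulAut.inv_apply_self, ← el_true] at h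
  rcases Sw_el (cr_subset _ _ h) with h1 | h1
  · refine ⟨?_, by simpa using h1⟩
    rw [h1] at h
    simp only [cr, Set.mem_ofPred_eq, Finset.mem_singleton, one_mul, fl_one, fl_el] at h
    simpa using h
  · exfalso
    rw [h1] at h
    simp only [cr, Set.mem_ofPred_eq, Finset.mem_singleton, inv_mul_cancel, fl_one] at h
    rw [← el_bar, fl_el] at h
    simp [bar] at h

theorem ADesc2_K2 (β : MulAut F) (j : X) : ∃ h1 h2 : F, ∀ g,
    ¬ (ADesc2_k β j g ↔ ADesc2_k β j (g * β r3)) → g = h1 ∨ g = h2 := by
  obtain ⟨h1, h2, h⟩ := cr_r3 j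
  refine ⟨β h1, β h2, fun g hg => ?_⟩
  rw [ADesc2_cr, MulAut.inv_apply_self] at hg
  rcases h _ hg with e | e
  · left; rw [← e, MulAut.apply_inv_self]
  · right; rw [← e, MulAut.apply_inv_self]

theorem ADesc2_image (β : MulAut F) (j : X) (u : F) :
    {g : F | ¬ (ADesc2_k β j g ↔ ADesc2_k β j (g * u))} =
      β '' cr (β⁻¹ u) {some (j, true)} := by
  ext g
  rw [Set.mem_ofPred_eq, ADesc2_cr]
  constructor
  · exact fun h => ⟨_, h, MulAut.apply_inv_self _ _ _⟩
  · rintro ⟨k, hk, rfl⟩
    rwa [MulAut.inv_apply_self]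

theorem ADesc2_change {α : Type} (P : α → Prop) {Q : List α} {x y : α} (hx : x ∈ Q) (hy : y ∈ Q)
    (h : ¬ (P x ↔ P y)) : ∃ U p q V, Q = U ++ p :: q :: V ∧ ¬ (P p ↔ P q) := by
  by_contra hc
  have key : ∀ (Q : List α) (a : α), (¬ ∃ U p q V, a :: Q = U ++ p :: q :: V ∧ ¬ (P p ↔ P q)) →
      ∀ z ∈ a :: Q, (P z ↔ P a) := by
    intro Q
    induction Q with
    | nil => intro a _ z hz; rw [List.mem_singleton.1 hz]
    | cons b Q ih =>
      intro a hn z hz
      rcases List.mem_cons.1 hz with rfl | hz
      · rfl
      · have h1 : P a ↔ P b := by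
          by_contra h1
          exact hn ⟨[], a, b, Q, rfl, h1⟩
        rw [h1]
        refine ih b ?_ z hz
        rintro ⟨U, p, q, V, e, h2⟩
        exact hn ⟨a :: U, p, q, V, by rw [e]; rfl, h2⟩
  rcases Q with _ | ⟨a, Q⟩
  · simp at hx
  · exact h ((key Q a hc x hx).trans (key Q a hc y hy).symm)

theorem ADesc2_odd {a : L} {A : Finset (Option L)} (h : Odd (cr (el a) A).ncard) :
    ¬ (some a ∈ A ↔ some (bar a) ∈ A) := by
  intro hi
  have h1 : (1 : F) ∈ cr (el a) A ↔ ¬ (none ∈ A ↔ some a ∈ A) := by
    simp only [cr, Set.mem_ofPred_eq, one_mul, fl_one, fl_el]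
  have h2 : (el a)⁻¹ ∈ cr (el a) A ↔ ¬ (none ∈ A ↔ some a ∈ A) := by
    simp only [cr, Set.mem_ofPred_eq, inv_mul_cancel, fl_one]
    rw [← el_bar, fl_el, ← hi]
    tauto
  have hne : (1 : F) ≠ (el a)⁻¹ := fun e => by
    have := congrArg fl e
    rw [← el_bar, fl_el, fl_one] at this
    simp at this
  by_cases hc : none ∈ A ↔ some a ∈ A
  · have e : cr (el a) A = ∅ := by
      refine Set.eq_empty_of_forall_notMem fun g hg => ?_
      rcases Sw_el (cr_subset _ _ hg) with rfl | rfl
      · exact h1.1 hg hc
      · exact h2.1 hg hc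
    rw [e] at h
    simp at h
  · have e : cr (el a) A = {1, (el a)⁻¹} := by
      ext g
      constructor
      · exact fun hg => Sw_el (cr_subset _ _ hg)
      · rintro (rfl | rfl)
        · exact h1.2 hc
        · exact h2.2 hc
    rw [e, Set.ncard_pair hne] at h
    exact absurd h (by decide)

theorem ADesc2_caseA {v : Vx} (hg : Good v) {a : L} (ha : 2 ≤ en v.β {some a}) {j : X}
    (hj : Odd (cr (v.β⁻¹ (el a)) {some (j, true)}).ncard) {z : F}
    (hz : ∀ g k, fl g = fl k → (ADesc2_k v.β j (z * g) ↔ ADesc2_k v.β j (z * k))) :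
    ∃ (c : L) (A : Finset (Option L)), IsCut v.o A ∧ some c ∈ A ∧ some (bar c) ∉ A ∧
      en v.β A < en v.β {some c} := by
  classical
  obtain ⟨G, hG, hGw⟩ := hg.wit
  obtain ⟨h1, h2, hK2⟩ := ADesc2_K2 v.β j
  set A : Finset (Option L) :=
    Finset.univ.filter fun x => ∃ g, fl g = x ∧ ADesc2_k v.β j (z * g) with hAdef
  have hA : ∀ g, fl g ∈ A ↔ ADesc2_k v.β j (z * g) := fun g => by
    simp only [hAdef, Finset.mem_filter, Finset.mem_univ, true_and]
    exact ⟨fun ⟨k, hk, h⟩ => (hz k g hk).1 h, fun h => ⟨g, rfl, h⟩⟩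
  have hcr : ∀ u g, g ∈ cr u A ↔
      ¬ (ADesc2_k v.β j (z * g) ↔ ADesc2_k v.β j (z * g * u)) := fun u g => by
    simp only [cr, Set.mem_ofPred_eq, hA, mul_assoc]
  have hen : en v.β A ≤ 1 := by
    have h : ∀ i, (cr (v.β (FreeGroup.of i)) A).ncard ≤ if i = j then 1 else 0 := fun i => by
      split_ifs with hi
      · rw [Set.ncard_le_one (cr_finite _ _)]
        intro g hg k hk
        have e1 := (ADesc2_K1 _ _ _ _ ((hcr _ _).1 hg)).2
        have e2 := (ADesc2_K1 _ _ _ _ ((hcr _ _).1 hk)).2
        exact mul_left_cancel (e1.trans e2.symm)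
      · have e : cr (v.β (FreeGroup.of i)) A = ∅ :=
          Set.eq_empty_of_forall_notMem fun g hg => hi (ADesc2_K1 _ _ _ _ ((hcr _ _).1 hg)).1
        rw [e, Set.ncard_empty]
    refine (Finset.sum_le_sum fun i _ => h i).trans ?_
    simp
  have hcut : IsCut v.o A := by
    have key : ∀ p q, Nx v.o p q → ¬ (p ∈ A ↔ q ∈ A) → z * G q = h1 ∨ z * G q = h2 :=
      fun p q hn hc => by
        refine hK2 _ fun h => hc ?_
        rw [← hGw p q hn, hA, ← mul_assoc, ← h, ← hA, hG]
    have inj : ∀ q q', z * G q = z * G q' → q = q' := fun q q' h => by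
      rw [← hG q, mul_left_cancel h, hG]
    refine cut_of_two hg.1 (fun x _ => hg.2.1 x) fun p q p' q' p'' q'' n1 c1 n2 c2 n3 c3 => ?_
    rcases key _ _ n1 c1 with e1 | e1 <;> rcases key _ _ n2 c2 with e2 | e2 <;>
      rcases key _ _ n3 c3 with e3 | e3
    all_goals first
      | exact Or.inl (inj _ _ (e1.trans e2.symm))
      | exact Or.inr (Or.inl (inj _ _ (e1.trans e3.symm)))
      | exact Or.inr (Or.inr (inj _ _ (e2.trans e3.symm)))
  have hodd : Odd (cr (el a) A).ncard := by
    have e : (fun g => z * g) '' cr (el a) A = v.β '' cr (v.β⁻¹ (el a)) {some (j, true)} := by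
      rw [← ADesc2_image]
      ext g
      constructor
      · rintro ⟨k, hk, rfl⟩
        exact (hcr _ _).1 hk
      · intro h
        refine ⟨z⁻¹ * g, (hcr _ _).2 ?_, mul_inv_cancel_left z g⟩
        rwa [mul_inv_cancel_left]
    rw [← Set.ncard_image_of_injective _ (mul_right_injective z), e,
      Set.ncard_image_of_injective _ v.β.injective]
    exact hj
  have h3 := ADesc2_odd hodd
  by_cases h4 : some a ∈ A
  · exact ⟨a, A, hcut, h4, fun h => h3 (iff_of_true h4 h), by omega⟩
  · refine ⟨bar a, A, hcut, ?_, by rwa [bar_bar], by rw [en_bar]; omega⟩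
    by_contra h
    exact h3 (iff_of_false h4 h)

/-- The colour of a direction at the vertex `z`. -/
def ADesc2_col (κ : F → Prop) (z : F) (x : Option L) : Prop := ∃ g, fl g = x ∧ κ (z * g)

theorem ADesc2_col_iff {κ : F → Prop} {z : F} {c : L}
    (h : ∀ g k, fl g = fl k → fl g ≠ some c → (κ (z * g) ↔ κ (z * k))) {g : F}
    (hg : fl g ≠ some c) : ADesc2_col κ z (fl g) ↔ κ (z * g) :=
  ⟨fun ⟨k, hk, h'⟩ => (h g k hk.symm hg).2 h', fun h' => ⟨g, rfl, h'⟩⟩

theorem ADesc2_head {v : Vx} (hg : Good v) (c : L) :
    ∃ Q : List (Option L), v.o = ↑(some c :: Q) ∧ Q.Nodup ∧ ∀ x, x ∈ Q ↔ x ≠ some c := by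
  obtain ⟨Q, hQ⟩ := exists_head (hg.2.1 (some c))
  have hn := hg.1
  rw [hQ, Cycle.nodup_coe_iff, List.nodup_cons] at hn
  refine ⟨Q, hQ, hn.2, fun x => ⟨fun hx e => hn.1 (e ▸ hx), fun hx => ?_⟩⟩
  have := hg.2.1 x
  rw [hQ, Cycle.mem_coe_iff, List.mem_cons] at this
  exact this.resolve_left hx

theorem ADesc2_step {κ : F → Prop} {z w : F} {c : L} {o : Cycle (Option L)} {G : Option L → F}
    (hG : ∀ q, fl (G q) = q) (hGw : ∀ p q, Nx o p q → fl (G q * w) = p)
    (h : ∀ g k, fl g = fl k → fl g ≠ some c → (κ (z * g) ↔ κ (z * k)))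
    {Q U V : List (Option L)} {p q : Option L} (ho : o = ↑(some c :: Q))
    (hQ : ∀ x, x ∈ Q ↔ x ≠ some c) (e : Q = U ++ p :: q :: V)
    (hc : ¬ (ADesc2_col κ z p ↔ ADesc2_col κ z q)) :
    q ≠ some c ∧ ¬ (κ (z * G q) ↔ κ (z * G q * w)) := by
  have hp : p ≠ some c := (hQ p).1 (by simp [e])
  have hq : q ≠ some c := (hQ q).1 (by simp [e])
  have hn : Nx o p q := Nx_of_mid (some c :: U) V (by rw [ho, e]; rfl)
  refine ⟨hq, fun hi => hc ?_⟩
  have h1 := hGw p q hn
  have h2 := ADesc2_col_iff h (g := G q * w) (by rwa [h1])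
  have h3 := ADesc2_col_iff h (g := G q) (by rwa [hG])
  rw [h1] at h2
  rw [hG] at h3
  rw [h2, h3, hi, mul_assoc]

theorem ADesc2_two {κ : F → Prop} {z : F} {c : L}
    (h : ∀ g k, fl g = fl k → fl g ≠ some c → (κ (z * g) ↔ κ (z * k)))
    (h' : ∃ k, fl k ≠ some c ∧ ¬ (κ (z * k) ↔ κ z)) :
    ∃ x y, x ≠ some c ∧ y ≠ some c ∧ ¬ (ADesc2_col κ z x ↔ ADesc2_col κ z y) := by
  obtain ⟨k, hk, hk'⟩ := h'
  have h1 : fl 1 ≠ some c := by simp [fl_one]
  refine ⟨fl k, fl 1, hk, h1, ?_⟩
  rwa [ADesc2_col_iff h hk, ADesc2_col_iff h h1, mul_one]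

theorem ADesc2_bad {κ : F → Prop} {z : F}
    (h : ¬ ∀ g k, fl g = fl k → (κ (z * g) ↔ κ (z * k))) :
    ∃ l : L, ∃ g k, fl g = some l ∧ fl k = some l ∧ ¬ (κ (z * g) ↔ κ (z * k)) := by
  push Not at h
  obtain ⟨g, k, e, h⟩ := h
  rcases hl : fl g with _ | l
  · exfalso
    have e1 := fl_eq_none.1 hl
    have e2 := fl_eq_none.1 (e.symm.trans hl)
    rw [e1, e2] at h
    tauto
  · exact ⟨l, g, k, hl, e.symm.trans hl, by tauto⟩

theorem ADesc2_sum (β : MulAut F) {c : L} {A1 A2 : Finset (Option L)} (h1 : some c ∉ A1)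
    (h2 : some c ∉ A2) (hd : ∀ x, x ∈ A1 → x ∉ A2)
    (h : ∀ i g, fl g ≠ some c → fl (g * β (FreeGroup.of i)) ≠ some c →
      (fl g ∈ A1 ↔ fl (g * β (FreeGroup.of i)) ∈ A1) ∧
      (fl g ∈ A2 ↔ fl (g * β (FreeGroup.of i)) ∈ A2)) :
    en β A1 + en β A2 ≤ en β {some c} := by
  unfold en
  rw [← Finset.sum_add_distrib]
  refine Finset.sum_le_sum fun i _ => ?_
  have sub : ∀ A : Finset (Option L), some c ∉ A →
      (∀ g, fl g ≠ some c → fl (g * β (FreeGroup.of i)) ≠ some c →
        (fl g ∈ A ↔ fl (g * β (FreeGroup.of i)) ∈ A)) →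
      cr (β (FreeGroup.of i)) A ⊆ cr (β (FreeGroup.of i)) {some c} := fun A hA hh g hg hi => by
    simp only [Finset.mem_singleton] at hi
    by_cases e : fl g = some c
    · refine hg ?_
      rw [e, hi.1 e]
    · exact hg (hh g e fun e' => e (hi.2 e'))
  have s1 := sub A1 h1 fun g a b => (h i g a b).1
  have s2 := sub A2 h2 fun g a b => (h i g a b).2
  have hdis : Disjoint (cr (β (FreeGroup.of i)) A1) (cr (β (FreeGroup.of i)) A2) := by
    rw [Set.disjoint_left]
    intro g g1 g2
    have g3 := s1 g1
    simp only [cr, Set.mem_ofPred_eq, Finset.mem_singleton] at g1 g2 g3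
    have a1 := hd (fl g)
    have a2 := hd (fl (g * β (FreeGroup.of i)))
    by_cases e : fl g = some c
    · rw [e] at g1 g2
      tauto
    · have e' : fl (g * β (FreeGroup.of i)) = some c := by tauto
      rw [e'] at g1 g2
      tauto
  rw [← Set.ncard_union_eq hdis (cr_finite _ _) (cr_finite _ _)]
  exact Set.ncard_le_ncard (Set.union_subset s1 s2) (cr_finite _ _)

theorem ADesc2_caseB {v : Vx} (hg : Good v) {j : X}
    (hz : ∀ z, ¬ ∀ g k, fl g = fl k → (ADesc2_k v.β j (z * g) ↔ ADesc2_k v.β j (z * k))) :
    ∃ (c : L) (A : Finset (Option L)), IsCut v.o A ∧ some c ∈ A ∧ some (bar c) ∉ A ∧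
      en v.β A < en v.β {some c} := by
  obtain ⟨G, hG, hGw⟩ := hg.wit
  obtain ⟨h1, h2, hK2⟩ := ADesc2_K2 v.β j
  have hK1 := ADesc2_K1 v.β j
  have hfin : ∀ l : L,
      {g : F | ¬ (ADesc2_k v.β j g ↔ ADesc2_k v.β j (g * el l))}.Finite := fun l => by
    rw [ADesc2_image]
    exact (cr_finite _ _).image _
  generalize ADesc2_k v.β j = κ at hz hK1 hK2 hfin
  obtain ⟨l0, hl0⟩ := ADesc2_bad (hz 1)
  obtain ⟨z, c, E1, E2, E3⟩ := extreme κ hfin 1 l0 hl0
  obtain ⟨l1, hl1⟩ := ADesc2_bad (hz z)
  have e1 : l1 = c := by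
    by_contra hne
    obtain ⟨g, k, a1, a2, a3⟩ := hl1
    exact a3 (E2 g k (a1.trans a2.symm) (by rw [a1]; simpa using hne))
  rw [e1] at hl1
  obtain ⟨z2, c2, F1, F2, F3⟩ := extreme κ hfin z c hl1
  obtain ⟨t, ht, ht'⟩ : ∃ t, fl (z⁻¹ * t) = some c ∧ (t = h1 ∨ t = h2) := by
    obtain ⟨Q, ho, -, hQ⟩ := ADesc2_head hg c2
    obtain ⟨x, y, hx, hy, hxy⟩ := ADesc2_two F2 F3
    obtain ⟨U, p, q, V, e, hc⟩ := ADesc2_change _ ((hQ x).2 hx) ((hQ y).2 hy) hxy
    obtain ⟨a1, a2⟩ := ADesc2_step hG hGw F2 ho hQ e hc
    exact ⟨z2 * G q, F1 _ (by rwa [hG]), hK2 _ a2⟩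
  obtain ⟨Q, ho, hn, hQ⟩ := ADesc2_head hg c
  obtain ⟨x, y, hx, hy, hxy⟩ := ADesc2_two E2 E3
  obtain ⟨Q1, Q2, eQ, m1, m2⟩ := path_split (ADesc2_col κ z) hn
    fun U p q V U' p' q' V' e hc e' hc' => by
      obtain ⟨a1, a2⟩ := ADesc2_step hG hGw E2 ho hQ e hc
      obtain ⟨b1, b2⟩ := ADesc2_step hG hGw E2 ho hQ e' hc'
      have ne : ∀ s, s ≠ some c → z * G s ≠ t := fun s hs e => by
        rw [← e, inv_mul_cancel_left, hG] at ht
        exact hs ht
      have n1 := ne q a1
      have n2 := ne q' b1
      have h : z * G q = z * G q' := by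
        rcases hK2 _ a2 with a | a <;> rcases hK2 _ b2 with b | b <;> rcases ht' with d | d
        all_goals first
          | exact a.trans b.symm
          | exact absurd (a.trans d.symm) n1
          | exact absurd (b.trans d.symm) n2
      rw [← hG q, mul_left_cancel h, hG]
  have hm : ∀ s, s ≠ some c ↔ s ∈ Q1 ∨ s ∈ Q2 := fun s => by
    rw [← hQ, eQ, List.mem_append]
  have hd : ∀ s, s ∈ Q1 → s ∉ Q2 := fun s a b => by
    rw [eQ] at hn
    exact List.disjoint_of_nodup_append hn a b
  obtain ⟨x1, x2, hx1, hx2, h12⟩ : ∃ x1 x2, x1 ∈ Q1 ∧ x2 ∈ Q2 ∧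
      ¬ (ADesc2_col κ z x1 ↔ ADesc2_col κ z x2) := by
    rcases (hm x).1 hx with a | a <;> rcases (hm y).1 hy with b | b
    · exact absurd (m1 x a y b) hxy
    · exact ⟨x, y, a, b, hxy⟩
    · exact ⟨y, x, b, a, fun h => hxy h.symm⟩
    · exact absurd (m2 x a y b) hxy
  have c1 : some c ∉ Q1.toFinset := fun h =>
    (hm _).2 (Or.inl (List.mem_toFinset.1 h)) rfl
  have c2 : some c ∉ Q2.toFinset := fun h =>
    (hm _).2 (Or.inr (List.mem_toFinset.1 h)) rfl
  have hsum : en v.β Q1.toFinset + en v.β Q2.toFinset ≤ en v.β {some c} := by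
    refine ADesc2_sum v.β c1 c2 (fun s a b => hd s (List.mem_toFinset.1 a) (List.mem_toFinset.1 b))
      fun i g a b => ?_
    have hk : ADesc2_col κ z (fl g) ↔ ADesc2_col κ z (fl (g * v.β (FreeGroup.of i))) := by
      rw [ADesc2_col_iff E2 a, ADesc2_col_iff E2 b, ← mul_assoc]
      by_contra hc
      have h3 := E1 g a
      rw [(hK1 i _ hc).2, mul_one, inv_one, fl_one] at h3
      simp at h3
    simp only [List.mem_toFinset]
    rcases (hm _).1 a with a' | a' <;> rcases (hm _).1 b with b' | b'
    · exact ⟨iff_of_true a' b', iff_of_false (hd _ a') (hd _ b')⟩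
    · exact absurd ((m1 _ hx1 _ a').trans (hk.trans (m2 _ b' _ hx2))) h12
    · exact absurd ((m1 _ hx1 _ b').trans (hk.symm.trans (m2 _ a' _ hx2))) h12
    · exact ⟨iff_of_false (fun h => hd _ h a') (fun h => hd _ h b'), iff_of_true a' b'⟩
  have p1 := en_pos v.β (List.mem_toFinset.2 hx1) c1
  have p2 := en_pos v.β (List.mem_toFinset.2 hx2) c2
  rcases (hm (some (bar c))).1 (by simpa using bar_ne c) with a | a
  · refine ⟨bar c, Q1.toFinset, ⟨Q1, Q2 ++ [some c], ?_, fun s => List.mem_toFinset⟩,
      List.mem_toFinset.2 a, by rwa [bar_bar], by rw [en_bar]; omega⟩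
    rw [ho, eQ]
    exact cyc_of_eq [some c] (Q1 ++ Q2) rfl (by simp)
  · refine ⟨bar c, Q2.toFinset, ⟨Q2, some c :: Q1, ?_, fun s => List.mem_toFinset⟩,
      List.mem_toFinset.2 a, by rwa [bar_bar], by rw [en_bar]; omega⟩
    rw [ho, eQ]
    exact cyc_of_eq (some c :: Q1) Q2 rfl rfl

theorem descent {v : Vx} (hg : Good v) {a : L} (ha : 2 ≤ en v.β {some a}) :
    ∃ (c : L) (A : Finset (Option L)), IsCut v.o A ∧ some c ∈ A ∧ some (bar c) ∉ A ∧
      en v.β A < en v.β {some c} := by
  obtain ⟨j, hj⟩ := exists_odd v.β a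
  by_cases h : ∃ z, ∀ g k, fl g = fl k → (ADesc2_k v.β j (z * g) ↔ ADesc2_k v.β j (z * k))
  · obtain ⟨z, hz⟩ := h
    exact ADesc2_caseA hg ha hj hz
  · exact ADesc2_caseB hg fun z hz => h ⟨z, hz⟩

end Pool.Agent.MP_61a8e3_al.A

end

section

set_option autoImplicit false

namespace Pool.Agent.MP_61a8e3_al.A

variable {E : Type} (S : SlideSys E)

/-- Moving the symbol `none` across the next letter. -/
theorem rch_step {β : MulAut F} {e : E} {a : L} {U V : List (Option L)}
    (hs : Ok S ⟨⟨β, ↑(none :: some a :: U ++ some (bar a) :: V)⟩, e⟩) :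
    Adj S ⟨⟨β, ↑(none :: some a :: U ++ some (bar a) :: V)⟩, e⟩
      ⟨⟨MulAut.conj (el a)⁻¹ * β, ↑(none :: V ++ some a :: U ++ [some (bar a)])⟩, e⟩ := by
  have _ := hs
  refine adj_of_mov S (a := a) (A := insert none {some a}) ⟨0, 0, ⟨[], U, V, [none], ?_, ?_, rfl,
    rfl, ?_, ?_⟩, ?_⟩
  · exact cyc_of_eq [none] (some a :: U ++ some (bar a) :: V) (by simp) (by simp)
  · intro x
    simp [or_comm]
  · rw [wh_insert_none a (by simp), wh_single, mul_one]
  · exact cyc_of_eq (none :: V) (some a :: U ++ [some (bar a)]) (by simp) (by simp)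
  · simp [SlideSys.Mv]

/-- from the stage `T` of the loop one reaches the base cycle -/
def ALoop_P (T : List L) (d : F) : Prop :=
  ∀ (β : MulAut F) (e : E), Ok S ⟨⟨β, ↑(none :: T.map some)⟩, e⟩ →
    Rch S ⟨⟨β, ↑(none :: T.map some)⟩, e⟩ ⟨⟨MulAut.conj d * β, o0⟩, e⟩

theorem ALoop_base : ALoop_P S w0L 1 := fun β e _ => by
  rw [map_one, one_mul]
  exact Relation.ReflTransGen.refl

theorem ALoop_back {T T' : List L} {d : F} (a : L) (j : ℕ) (h : ALoop_P S T' d)
    (h1 : T = a :: T.tail.take j ++ bar a :: T.drop (j + 2))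
    (h2 : T' = T.drop (j + 2) ++ a :: T.tail.take j ++ [bar a]) :
    ALoop_P S T (d * (el a)⁻¹) := by
  generalize T.tail.take j = U at h1 h2
  generalize T.drop (j + 2) = V at h1 h2
  subst h1 h2
  intro β e hs
  have e1 : none :: (a :: U ++ bar a :: V).map some =
      none :: some a :: U.map some ++ some (bar a) :: V.map some := by simp
  have e2 : none :: (V ++ a :: U ++ [bar a]).map some =
      none :: V.map some ++ some a :: U.map some ++ [some (bar a)] := by simp
  rw [e1] at hs ⊢
  have h3 := rch_step S hs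
  have h4 := h (MulAut.conj (el a)⁻¹ * β) e
  rw [e2, ← mul_assoc, ← map_mul] at h4
  exact Relation.ReflTransGen.head h3 (h4 (Ok.adj S hs h3))

theorem ALoop_all : ALoop_P S w0L r3 ∧ ∀ k < 12, ∃ d, ALoop_P S (w0L.rotate k) d := by
  have h9 := ALoop_back S (T := w0L.rotate 9) (lA 0) 1 (ALoop_base S) (by decide) (by decide)
  have h10 := ALoop_back S (T := w0L.rotate 10) (lB 0) 9 h9 (by decide) (by decide)
  have h11 := ALoop_back S (T := w0L.rotate 11) (la 0) 9 h10 (by decide) (by decide)
  have h8 := ALoop_back S (T := w0L.rotate 8) (lb 0) 1 h11 (by decide) (by decide)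
  have h5 := ALoop_back S (T := w0L.rotate 5) (lA 1) 1 h8 (by decide) (by decide)
  have h6 := ALoop_back S (T := w0L.rotate 6) (lB 1) 9 h5 (by decide) (by decide)
  have h7 := ALoop_back S (T := w0L.rotate 7) (la 1) 9 h6 (by decide) (by decide)
  have h4 := ALoop_back S (T := w0L.rotate 4) (lb 1) 1 h7 (by decide) (by decide)
  have h1 := ALoop_back S (T := w0L.rotate 1) (lA 2) 1 h4 (by decide) (by decide)
  have h2 := ALoop_back S (T := w0L.rotate 2) (lB 2) 9 h1 (by decide) (by decide)
  have h3 := ALoop_back S (T := w0L.rotate 3) (la 2) 9 h2 (by decide) (by decide)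
  have h0 := ALoop_back S (T := w0L) (lb 2) 1 h3 (by decide) (by decide)
  refine ⟨?_, fun k hk => ?_⟩
  · convert h0 using 1
    rw [r3_eq]
    decide
  · interval_cases k
    exacts [⟨_, h0⟩, ⟨_, h1⟩, ⟨_, h2⟩, ⟨_, h3⟩, ⟨_, h4⟩, ⟨_, h5⟩, ⟨_, h6⟩, ⟨_, h7⟩, ⟨_, h8⟩,
      ⟨_, h9⟩, ⟨_, h10⟩, ⟨_, h11⟩]

theorem ALoop_some {T : List (Option L)} (h : none ∉ T) : T = T.reduceOption.map some := by
  induction T with
  | nil => rfl
  | cons x T ih =>
    cases x with
    | none => simp at h
    | some l =>
      rw [List.reduceOption_cons_of_some, List.map_cons, ← ih fun h' => h (List.mem_cons_of_mem _ h')]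

theorem rch_to_o0 {β : MulAut F} {o : Cycle (Option L)} {e : E} (hs : Ok S ⟨⟨β, o⟩, e⟩)
    (he : S.w e = w0) : ∃ d : F, Rch S ⟨⟨β, o⟩, e⟩ ⟨⟨MulAut.conj d * β, o0⟩, e⟩ := by
  obtain ⟨T, rfl⟩ : ∃ T : List (Option L), o = ↑(none :: T) := exists_head (hs.1.2.1 none)
  have hn : (none :: T).Nodup := Cycle.nodup_coe_iff.1 hs.1.1
  have h1 : (w0L : Cycle L) = ↑T.reduceOption := he.symm.trans hs.2
  obtain ⟨k, hk⟩ : w0L ~r T.reduceOption := Cycle.coe_eq_coe.1 h1
  rw [← List.rotate_mod] at hk
  obtain ⟨d, hd⟩ := (ALoop_all S).2 (k % w0L.length) (Nat.mod_lt _ (by decide))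
  rw [ALoop_some (List.nodup_cons.1 hn).1, ← hk] at hs ⊢
  exact ⟨d, hd β e hs⟩

theorem rch_loop {β : MulAut F} {e : E} (hs : Ok S ⟨⟨β, o0⟩, e⟩) :
    Rch S ⟨⟨β, o0⟩, e⟩ ⟨⟨MulAut.conj r3 * β, o0⟩, e⟩ := (ALoop_all S).1 β e hs

theorem rch_loop_zpow {β : MulAut F} {e : E} (hs : Ok S ⟨⟨β, o0⟩, e⟩) (k : ℤ) :
    Rch S ⟨⟨β, o0⟩, e⟩ ⟨⟨MulAut.conj (r3 ^ k) * β, o0⟩, e⟩ := by
  have hok : ∀ j : ℤ, Ok S ⟨⟨MulAut.conj (r3 ^ j) * β, o0⟩, e⟩ := fun j =>
    ⟨good_of_fix (by
      rw [MulAut.mul_apply, fix_of_good hs.1, MulAut.conj_apply]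
      group), hs.2⟩
  have hst : ∀ j : ℤ, Rch S ⟨⟨MulAut.conj (r3 ^ j) * β, o0⟩, e⟩
      ⟨⟨MulAut.conj (r3 ^ (j + 1)) * β, o0⟩, e⟩ := fun j => by
    have h := rch_loop S (hok j)
    rwa [← mul_assoc, ← map_mul, ← zpow_one_add, add_comm] at h
  induction k using Int.induction_on with
  | zero =>
    rw [zpow_zero, map_one, one_mul]
    exact Relation.ReflTransGen.refl
  | succ k ih => exact ih.trans (hst k)
  | pred k ih =>
    have h := rch_symm S (hok _) (hst (-k - 1))
    rw [sub_add_cancel] at h
    exact ih.trans h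

theorem ALoop_split {T : List (Option L)} {U V : List L} {x : L}
    (h : T.reduceOption = U ++ x :: V) :
    ∃ T1 T2, T = T1 ++ some x :: T2 ∧ T1.reduceOption = U ∧ T2.reduceOption = V := by
  induction T generalizing U with
  | nil => simp at h
  | cons y T ih =>
    cases y with
    | none =>
      obtain ⟨T1, T2, rfl, h1, h2⟩ := ih (U := U) h
      exact ⟨none :: T1, T2, rfl, h1, h2⟩
    | some y =>
      rw [List.reduceOption_cons_of_some] at h
      cases U with
      | nil =>
        obtain ⟨rfl, h2⟩ := List.cons.inj h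
        exact ⟨[], T, rfl, rfl, h2⟩
      | cons u U =>
        obtain ⟨rfl, h2⟩ := List.cons.inj h
        obtain ⟨T1, T2, rfl, h1, h2⟩ := ih h2
        exact ⟨some y :: T1, T2, rfl, by rw [List.reduceOption_cons_of_some, h1], h2⟩

theorem ALoop_head {s : St E} (hs : Ok S s) {a : L} {U : List L}
    (h : red s.v.o = ↑(a :: U)) : ∃ T, s.v.o = ↑(some a :: T) ∧ T.reduceOption = U := by
  obtain ⟨T, hT⟩ := exists_head (hs.1.2.1 (some a))
  refine ⟨T, hT, ?_⟩
  have hn := S.nodup s.e
  rw [hs.2, h] at hn
  rw [hT, red_coe, List.reduceOption_cons_of_some] at h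
  exact (cyc_head_inj (Cycle.nodup_coe_iff.1 hn) h.symm).symm

theorem ALoop_wh (a t : L) {T : List (Option L)} (h : T.reduceOption = []) :
    ∃ (A : Finset (Option L)) (c : F), (∀ x, x ∈ A ↔ x = some a ∨ x = some t ∨ x ∈ T) ∧
      wh a A = MulAut.conj c * sl a t := by
  have hT : ∀ x ∈ T, x = none := fun x hx => by
    cases x with
    | none => rfl
    | some l =>
      have := List.reduceOption_mem_iff.2 hx
      rw [h] at this
      simp at this
  by_cases hn : none ∈ T
  · refine ⟨insert none {some a, some t}, (el a)⁻¹, fun x => ?_, wh_insert_none a (by simp)⟩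
    simp only [Finset.mem_insert, Finset.mem_singleton]
    constructor
    · rintro (rfl | h | h)
      exacts [Or.inr (Or.inr hn), Or.inl h, Or.inr (Or.inl h)]
    · rintro (h | h | h)
      exacts [Or.inr (Or.inl h), Or.inr (Or.inr h), Or.inl (hT x h)]
  · refine ⟨{some a, some t}, 1, fun x => ?_, by rw [map_one, one_mul, sl]⟩
    simp only [Finset.mem_insert, Finset.mem_singleton]
    constructor
    · rintro (h | h)
      exacts [Or.inl h, Or.inr (Or.inl h)]
    · rintro (h | h | h)
      exacts [Or.inl h, Or.inr h, absurd (hT x h ▸ h) hn]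

theorem ALoop_sl (a t : L) : sl (bar a) t = (sl a t)⁻¹ := by
  refine eq_inv_of_mul_eq_one_left ?_
  rw [sl, sl, wh, wh, whZ_bar, ← whZ_add, ← whZ_zero a]
  refine whZ_congr a fun l hl => ?_
  have h1 : l ≠ a := fun h => hl (by rw [h])
  have h2 : l ≠ bar a := fun h => hl (by rw [h, bar_fst])
  simp [ind, h1, h2]

theorem ALoop_conj (ω γ : MulAut F) (c d : F) :
    MulAut.conj c * ω * (MulAut.conj d * γ) = MulAut.conj (c * ω d) * (ω * γ) := by
  ext g
  simp [mul_assoc]

theorem rch_path {γ : MulAut F} {P : Equiv.Perm E} {c : Cycle L} (h : Path S γ P c) {e : E}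
    (he : S.w e = w0) :
    ∃ (d : F) (o : Cycle (Option L)),
      Rch S ⟨v0, e⟩ ⟨⟨MulAut.conj d * γ, o⟩, P e⟩ ∧ red o = c := by
  have h0 : Ok S ⟨v0, e⟩ := ⟨good_v0, he.trans red_o0.symm⟩
  induction h with
  | refl =>
    refine ⟨1, o0, ?_, red_o0⟩
    rw [map_one, one_mul]
    exact Relation.ReflTransGen.refl
  | fwd γ P a t U V _ ih =>
    obtain ⟨d, o, hr, ho⟩ := ih
    obtain ⟨T, hT, h1⟩ := ALoop_head S (Ok.rch S h0 hr) (a := a) (U := t :: U ++ bar a :: V) ho
    obtain ⟨T1, T2, rfl, h2, h3⟩ := ALoop_split (U := []) h1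
    obtain ⟨X2, Y, rfl, h4, h5⟩ := ALoop_split h3
    obtain ⟨A, c, hA, hc⟩ := ALoop_wh a t h2
    refine ⟨c * sl a t d, ((some a :: X2 ++ (T1 ++ [some t]) ++ some (bar a) :: [] ++ Y :
        List (Option L)) : Cycle (Option L)),
      hr.tail (adj_of_mov S (a := a) (A := A) ⟨0, 1, ⟨T1 ++ [some t], X2, Y, [], ?_, ?_, rfl, ?_,
        ?_, rfl⟩, ?_⟩), ?_⟩
    · rw [hT]
      simp
    · intro x
      rw [hA]
      simp [or_comm]
    · simp [cnt, List.reduceOption_append, h2]
    · simp only [hc, ALoop_conj]
    · simp [SlideSys.Mv]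
    · rw [red_coe]
      simp [List.reduceOption_append, h2, h4, h5]
  | bwd γ P a t U V _ ih =>
    obtain ⟨d, o, hr, ho⟩ := ih
    obtain ⟨T, hT, h1⟩ := ALoop_head S (Ok.rch S h0 hr) (a := a) (U := U ++ t :: bar a :: V) ho
    obtain ⟨T1, T2, rfl, h2, h3⟩ := ALoop_split h1
    obtain ⟨T3, T4, rfl, h4, h5⟩ := ALoop_split (U := []) h3
    obtain ⟨A, c, hA, hc⟩ := ALoop_wh (bar a) t h4
    rw [ALoop_sl] at hc
    refine ⟨c * (sl a t)⁻¹ d,
      ((some (bar a) :: T4 ++ [] ++ some (bar (bar a)) :: (some t :: T3) ++ T1 :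
        List (Option L)) : Cycle (Option L)),
      hr.tail (adj_of_mov S (a := bar a) (A := A) ⟨1, 0, ⟨[], T4, T1, some t :: T3, ?_, ?_, ?_,
        rfl, ?_, rfl⟩, ?_⟩), ?_⟩
    · rw [hT]
      exact cyc_of_eq (some a :: T1 ++ some t :: T3) (some (bar a) :: T4) (by simp) (by simp)
    · intro x
      rw [hA]
      simp
    · simp [cnt, h4]
    · simp only [hc, ALoop_conj]
    · simp [SlideSys.Mv]
    · rw [red_coe]
      exact cyc_of_eq (bar a :: V) (a :: t :: U)
        (by simp [List.reduceOption_append, h2, h4, h5]) (by simp)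
  | rel γ P c π _ ih =>
    obtain ⟨d, o, hr, ho⟩ := ih
    refine ⟨relA π d, o.map (Option.map π.1), hr.tail ?_, by rw [red_map, ho]⟩
    have h1 := adj_refl_sact S (Ok.rch S h0 hr) π
    have h2 := ALoop_conj (relA π) γ 1 d
    rw [map_one, one_mul, one_mul] at h2
    rw [← h2]
    exact h1

end Pool.Agent.MP_61a8e3_al.A

end

section

/-! Definitions for part S (Nielsen lifting for the genus 3 surface group). -/

namespace Pool.Agent.MP_61a8e3_al.S

open FreeGroup

abbrev X := Fin 3 ⊕ Fin 3
abbrev F := FreeGroup X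
abbrev Lt := X × Bool

/-- The surface relator. -/
abbrev rel : F :=
  (List.ofFn (fun i : Fin 3 => FreeGroup.of (Sum.inl i : Fin 3 ⊕ Fin 3) *
    FreeGroup.of (Sum.inr i : Fin 3 ⊕ Fin 3) * (FreeGroup.of (Sum.inl i : Fin 3 ⊕ Fin 3))⁻¹ *
    (FreeGroup.of (Sum.inr i : Fin 3 ⊕ Fin 3))⁻¹)).prod

abbrev Pi := PresentedGroup ({rel} : Set F)

/-- The projection onto the surface group. -/
abbrev pr : F →* Pi := PresentedGroup.mk ({rel} : Set F)

/-- The relator as a word. -/
def rw0 : List Lt :=
  [(.inl 0, true), (.inr 0, true), (.inl 0, false), (.inr 0, false),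
   (.inl 1, true), (.inr 1, true), (.inl 1, false), (.inr 1, false),
   (.inl 2, true), (.inr 2, true), (.inl 2, false), (.inr 2, false)]

/-- The relator (`true`) or its inverse (`false`) as a word. -/
def rws (b : Bool) : List Lt := cond b rw0 (invRev rw0)

/-- Inverse dart. -/
def iv {E : Type} (d : E × Bool) : E × Bool := (d.1, !d.2)

/-- Renaming (or labelling) of darts. -/
def lb {E E' : Type} (f : E → E') (d : E × Bool) : E' × Bool := (f d.1, d.2)

/-- Every dart occurs at most once, and the darts come in inverse pairs. -/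
def Good {E : Type} (L : List (E × Bool)) : Prop := L.Nodup ∧ ∀ d ∈ L, iv d ∈ L

/-- `f d` is the start vertex of the dart `d`; `L` is a path from `a` to `b`. -/
def Path {E Ω : Type} (f : E × Bool → Ω) : Ω → List (E × Bool) → Ω → Prop
  | a, [], b => a = b
  | a, d :: L, b => f d = a ∧ Path f (f (iv d)) L b

/-- All faces are closed paths. -/
def Closed {E Ω : Type} (f : E × Bool → Ω) (Cs : List (List (E × Bool))) : Prop :=
  ∀ C ∈ Cs, ∃ a, Path f a C a

/-- `f` is a potential for the cochain `c` on the family of faces `Cs`. -/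
def Pot {E Γ Ω : Type} [Group Γ] [MulAction Γ Ω] (c : E → Γ) (f : E × Bool → Ω)
    (Cs : List (List (E × Bool))) : Prop :=
  Closed f Cs ∧ ∀ e, (e, true) ∈ Cs.flatten → f (e, true) = c e • f (e, false)

/-- `g` is a product of `n` conjugates of the relator or of its inverse. -/
def PC (n : ℕ) (g : F) : Prop :=
  ∃ l : List F, l.length = n ∧ (∀ z ∈ l, IsConj rel z ∨ IsConj rel⁻¹ z) ∧ l.prod = g

/-- A labelled family of faces forming a closed surface. -/
structure Faces {E : Type} (lab : E → X) (Cs : List (List (E × Bool))) : Prop where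
  good : Good Cs.flatten
  labC : ∀ C ∈ Cs, ∃ b, C.map (lb lab) ~r rws b

/-- Two faces of opposite signs share an edge. -/
def Dipole {E : Type} (lab : E → X) (Cs : List (List (E × Bool))) : Prop :=
  ∃ C ∈ Cs, ∃ C' ∈ Cs, ∃ b, ∃ d, C.map (lb lab) ~r rws b ∧ C'.map (lb lab) ~r rws (!b) ∧
    d ∈ C ∧ iv d ∈ C'

/-- Around the start vertex of every dart all twelve labels occur. -/
def WalkP {E : Type} (lab : E → X) (Cs : List (List (E × Bool))) : Prop :=
  ∀ d ∈ Cs.flatten, ∀ l : Lt, ∃ d' ∈ Cs.flatten, lb lab d' = l ∧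
    ∀ (Ω : Type) (f : E × Bool → Ω), Closed f Cs → f d = f d'

/-- A folded configuration for the endomorphism `φ`. -/
structure Final {E : Type} (φ : F →* F) (lab : E → X)
    (P : List (List (E × Bool) × FreeGroup E)) (ψ : F →* FreeGroup E) : Prop where
  faces : Faces lab (P.map Prod.fst)
  conj : ∀ p ∈ P, IsConj (mk p.1) p.2
  prod : ψ rel = (P.map Prod.snd).prod
  lifts : ∀ x, FreeGroup.map lab (ψ x) = φ x
  pot : ∀ (Γ Ω : Type) [Group Γ] [MulAction Γ Ω] (c : E → Γ) (ω : Ω),
    (∀ x, FreeGroup.lift c (ψ x) • ω = ω) → (∀ p ∈ P, FreeGroup.lift c p.2 • ω = ω) →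
    ∃ f : E × Bool → Ω, Pot c f (P.map Prod.fst)

@[simp] theorem iv_iv {E : Type} (d : E × Bool) : iv (iv d) = d := by
  cases d; simp [iv]

theorem iv_ne {E : Type} (d : E × Bool) : iv d ≠ d := by
  rcases d with ⟨e, b⟩; cases b <;> simp [iv]

theorem iv_inj {E : Type} {d d' : E × Bool} (h : iv d = iv d') : d = d' := by
  rw [← iv_iv d, h, iv_iv]

theorem lb_iv {E E' : Type} (f : E → E') (d : E × Bool) : lb f (iv d) = iv (lb f d) := rfl

theorem map_mk_lb {E E' : Type} (f : E → E') (L : List (E × Bool)) :
    FreeGroup.map f (mk L) = mk (L.map (lb f)) := FreeGroup.map.mk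

theorem invRev_eq {E : Type} (L : List (E × Bool)) : invRev L = (L.map iv).reverse := rfl

theorem mem_invRev {E : Type} {L : List (E × Bool)} {d : E × Bool} :
    d ∈ invRev L ↔ iv d ∈ L := by
  rw [invRev_eq, List.mem_reverse, List.mem_map]
  constructor
  · rintro ⟨x, hx, rfl⟩; simpa using hx
  · intro h; exact ⟨_, h, iv_iv d⟩

theorem mk_rw0 : mk rw0 = rel := by decide

theorem mk_rws (b : Bool) : mk (rws b) = cond b rel rel⁻¹ := by
  cases b
  · simp only [rws, cond_false, ← inv_mk, mk_rw0]
  · exact mk_rw0

theorem pr_rel : pr rel = 1 :=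
  (PresentedGroup.mk_eq_one_iff).2 (Subgroup.subset_normalClosure rfl)

theorem isConj_mk_of_isRotated {E : Type} {L L' : List (E × Bool)} (h : L ~r L') :
    IsConj (mk L) (mk L') := by
  obtain ⟨A, B, rfl, rfl⟩ : ∃ A B, L = A ++ B ∧ L' = B ++ A := by
    obtain ⟨n, hn, rfl⟩ := List.isRotated_iff_mod.1 h
    exact ⟨L.take n, L.drop n, (List.take_append_drop n L).symm, List.rotate_eq_drop_append_take hn⟩
  rw [← mul_mk, ← mul_mk]
  exact isConj_iff.2 ⟨(mk A)⁻¹, by group⟩

theorem path_append {E Ω : Type} (f : E × Bool → Ω) (L L' : List (E × Bool)) (a b : Ω) :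
    Path f a (L ++ L') b ↔ ∃ m, Path f a L m ∧ Path f m L' b := by
  induction L generalizing a with
  | nil => simp [Path]
  | cons d L ih =>
    simp only [List.cons_append, Path, ih]
    constructor
    · rintro ⟨h, m, h1, h2⟩; exact ⟨m, ⟨h, h1⟩, h2⟩
    · rintro ⟨m, ⟨h, h1⟩, h2⟩; exact ⟨h, m, h1, h2⟩

theorem path_invRev {E Ω : Type} (f : E × Bool → Ω) (L : List (E × Bool)) (a b : Ω)
    (h : Path f a L b) : Path f b (invRev L) a := by
  induction L generalizing a with
  | nil => simpa [Path] using Eq.symm h
  | cons d L ih =>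
    rw [invRev_cons, path_append]
    refine ⟨f (iv d), ih _ h.2, ?_⟩
    have : invRev [d] = [iv d] := rfl
    rw [this]
    exact ⟨rfl, by simpa [Path] using h.1⟩

theorem path_rotate {E Ω : Type} (f : E × Bool → Ω) {L L' : List (E × Bool)} (h : L ~r L')
    (hL : ∃ a, Path f a L a) : ∃ a, Path f a L' a := by
  obtain ⟨A, B, rfl, rfl⟩ : ∃ A B, L = A ++ B ∧ L' = B ++ A := by
    obtain ⟨n, hn, rfl⟩ := List.isRotated_iff_mod.1 h
    exact ⟨L.take n, L.drop n, (List.take_append_drop n L).symm, List.rotate_eq_drop_append_take hn⟩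
  obtain ⟨a, ha⟩ := hL
  obtain ⟨m, h1, h2⟩ := (path_append f A B a a).1 ha
  exact ⟨m, (path_append f B A m m).2 ⟨a, h2, h1⟩⟩

theorem path_map {E E' Ω : Type} (f : E' × Bool → Ω) (ρ : E → E') (L : List (E × Bool))
    (a b : Ω) : Path f a (L.map (lb ρ)) b ↔ Path (fun d => f (lb ρ d)) a L b := by
  induction L generalizing a with
  | nil => simp [Path]
  | cons d L ih => simp only [List.map_cons, Path, ih, lb_iv]

end Pool.Agent.MP_61a8e3_al.S

end

section

/-! Part D (the kernel of the map to the outer automorphism group of the surface group is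
generated by inner automorphisms and pushes): definitions. -/

set_option autoImplicit false

namespace Pool.Agent.MP_61a8e3_al.D

open A

abbrev Pi := S.Pi
abbrev pr : F →* Pi := S.pr

theorem r3_rel : r3 = S.rel := rfl

theorem pr_r3 : pr r3 = 1 := S.pr_rel

/-- Kill one generator. -/
def kil (s : X) : F →* F := FreeGroup.lift fun x => if x = s then 1 else FreeGroup.of x

/-- Exponent sum of one generator. -/
def ex (z : X) : F →* Multiplicative ℤ :=
  FreeGroup.lift fun x => if x = z then Multiplicative.ofAdd 1 else 1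

/-- The endomorphism `s ↦ b⁻¹ * s * a` fixing the other generators. -/
def tw (s : X) (a b : F) : F →* F :=
  FreeGroup.lift fun x => if x = s then b⁻¹ * FreeGroup.of s * a else FreeGroup.of x

/-- A word of minimal length in its conjugacy class. -/
def MinC (W : List L) : Prop := ∀ g : F, IsConj (FreeGroup.mk W) g → W.length ≤ g.norm

theorem tw_kil (s : X) (a b g : F) : tw s a b (kil s g) = kil s g := by
  have : (tw s a b).comp (kil s) = kil s := FreeGroup.ext_hom _ _ fun x => by
    by_cases h : x = s <;> simp [tw, kil, h]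
  exact DFunLike.congr_fun this g

theorem tw_fix {s : X} (a b : F) {g : F} (h : kil s g = g) : tw s a b g = g := by
  rw [← h, tw_kil]

theorem tw_self (s : X) (a b : F) : tw s a b (FreeGroup.of s) = b⁻¹ * FreeGroup.of s * a := by
  simp [tw]

theorem tw_ne {s x : X} (a b : F) (h : x ≠ s) : tw s a b (FreeGroup.of x) = FreeGroup.of x := by
  simp [tw, h]

theorem tw_tw {s : X} {a b : F} (a' b' : F) (ha : kil s a = a) (hb : kil s b = b) (g : F) :
    tw s a' b' (tw s a b g) = tw s (a' * a) (b' * b) g := by
  have : (tw s a' b').comp (tw s a b) = tw s (a' * a) (b' * b) :=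
    FreeGroup.ext_hom _ _ fun x => by
      by_cases h : x = s
      · subst h
        simp only [MonoidHom.comp_apply, tw_self, map_mul, map_inv, tw_fix a' b' ha,
          tw_fix a' b' hb]
        group
      · simp only [MonoidHom.comp_apply, tw_ne _ _ h]
  exact DFunLike.congr_fun this g

theorem tw_one (s : X) (g : F) : tw s 1 1 g = g := by
  have : tw s 1 1 = MonoidHom.id F := FreeGroup.ext_hom _ _ fun x => by
    by_cases h : x = s <;> simp [tw, h]
  exact DFunLike.congr_fun this g

/-- The commutator block of the handle `j` in the inverse of the relator. -/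
def cm (j : Fin 3) : F := FreeGroup.mk [lb j, la j, lB j, lA j]

def pa : X → F
  | .inl i => el (lb i)
  | .inr i => el (lA i)

def pb : X → F
  | .inl i => cm (i + 2) * cm (i + 1) * el (lb i)
  | .inr i => el (lA i) * (cm (i + 2) * cm (i + 1))

theorem kil_pa : ∀ x : X, kil x (pa x) = pa x := by decide
theorem kil_pb : ∀ x : X, kil x (pb x) = pb x := by decide

/-- The push across the side `x`. -/
def push (x : X) : MulAut F where
  toFun := tw x (pa x) (pb x)
  invFun := tw x (pa x)⁻¹ (pb x)⁻¹
  left_inv := fun g => by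
    rw [tw_tw _ _ (kil_pa x) (kil_pb x), inv_mul_cancel, inv_mul_cancel, tw_one]
  right_inv := fun g => by
    rw [tw_tw _ _ (by rw [map_inv, kil_pa]) (by rw [map_inv, kil_pb]), mul_inv_cancel,
      mul_inv_cancel, tw_one]
  map_mul' := map_mul _

theorem push_apply (x : X) (g : F) : push x g = tw x (pa x) (pb x) g := rfl

/-- Multiple push. -/
def Mh (ρ : F) (χ : Option L → ℤ) : F →* F :=
  FreeGroup.lift fun i => ρ ^ (χ (some (i, true)) - χ none) * FreeGroup.of i *
    ρ ^ (χ none - χ (some (i, false)))

/-- Indicator of one direction. -/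
def dl (q p : Option L) : ℤ := if p = q then 1 else 0

instance inn_normal : (MulAut.conj : F →* MulAut F).range.Normal :=
  ⟨by
    rintro _ ⟨c, rfl⟩ β
    exact ⟨β c, by ext g; simp⟩⟩

abbrev Out := MulAut F ⧸ (MulAut.conj : F →* MulAut F).range

def out : MulAut F →* Out := QuotientGroup.mk' _

theorem out_conj (c : F) : out (MulAut.conj c) = 1 :=
  (QuotientGroup.eq_one_iff _).2 ⟨c, rfl⟩

theorem out_eq {α β : MulAut F} (h : out α = out β) : ∃ c : F, α = MulAut.conj c * β := by
  have h1 : out (α * β⁻¹) = 1 := by rw [map_mul, map_inv, h, mul_inv_cancel]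
  obtain ⟨c, hc⟩ := (QuotientGroup.eq_one_iff _).1 h1
  exact ⟨c, by rw [hc]; group⟩

/-- The multiple push from the corner `u` to the corner `v` is the transported push. -/
def G2 (P : Pi →* Out) (β : MulAut F) (u v : F) (χ : Option L → ℤ) : Prop :=
  Mh (u * β r3 * u⁻¹) χ (v * β r3 * v⁻¹) = u * β r3 * u⁻¹ ∧
    ∃ τ : MulAut F, (∀ g, τ g = Mh (u * β r3 * u⁻¹) χ g) ∧
      out (β⁻¹ * τ * β) = P (pr (β⁻¹ (u⁻¹ * v)))

/-- The invariant carried along moves. -/
def Inv (P : Pi →* Out) (v : Vx) : Prop :=
  ∃ G : Option L → F, G none = 1 ∧ (∀ p q, Nx v.o p q → G q = val G (v.β r3) p) ∧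
    ∀ q, G2 P v.β (G q) (val G (v.β r3) q) (dl q)

/-- The inverse of the relator as a word. -/
def cW : List L := [lb 2, la 2, lB 2, lA 2, lb 1, la 1, lB 1, lA 1, lb 0, la 0, lB 0, lA 0]

/-- Corner values at the base vertex. -/
def G0 : Option L → F
  | none => 1
  | some l => FreeGroup.mk (cW.dropWhile (fun m => m ≠ l))

/-- Dual generators. -/
def gam (x : X) : F := (G0 (some (x, true)))⁻¹ * val G0 r3 (some (x, true))

/-- The outer automorphism group of the surface group, as in the frozen statements. -/
abbrev OutPi := MulAut Pi ⧸ Subgroup.normalClosure (Set.range (MulAut.conj : Pi →* MulAut Pi))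

end Pool.Agent.MP_61a8e3_al.D

end

section

set_option autoImplicit false

namespace Pool.Agent.MP_61a8e3_al.D

open A

theorem DFree1_single (l : L) :
    FreeGroup.mk [l] = if l.2 = true then FreeGroup.of l.1 else (FreeGroup.of l.1)⁻¹ := by
  obtain ⟨x, b⟩ := l
  cases b
  · simp only [Bool.false_eq_true, if_false]
    rfl
  · simp only [if_true]
    rfl

theorem DFree1_cons (l : L) (W : List L) :
    FreeGroup.mk (l :: W) = FreeGroup.mk [l] * FreeGroup.mk W := by
  rw [FreeGroup.mul_mk]; rfl

theorem DFree1_kil_of (s x : X) :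
    kil s (FreeGroup.of x) = if x = s then 1 else FreeGroup.of x := by
  simp [kil]

theorem DFree1_kil_single (s : X) (l : L) :
    kil s (FreeGroup.mk [l]) = if l.1 = s then 1 else FreeGroup.mk [l] := by
  rw [DFree1_single]
  by_cases h : l.1 = s <;> by_cases hb : l.2 = true <;>
    simp [h, hb, DFree1_kil_of]

theorem DFree1_kil_filter (s : X) (W : List L) :
    kil s (FreeGroup.mk W) = FreeGroup.mk (W.filter (fun l => decide (l.1 ≠ s))) := by
  induction W with
  | nil =>
    have : (FreeGroup.mk ([] : List L) : F) = 1 := rfl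
    rw [List.filter_nil, this, _root_.map_one]
  | cons l W ih =>
    rw [DFree1_cons, _root_.map_mul, ih, DFree1_kil_single]
    by_cases h : l.1 = s
    · rw [if_pos h, one_mul, List.filter_cons_of_neg (by simp [h])]
    · rw [if_neg h, List.filter_cons_of_pos (by simp [h]), ← DFree1_cons]

theorem kil_mk {s : X} {W : List L} (h : ∀ l ∈ W, l.1 ≠ s) :
    kil s (FreeGroup.mk W) = FreeGroup.mk W := by
  rw [DFree1_kil_filter, List.filter_eq_self.2]
  intro l hl
  simpa using h l hl

theorem kil_fix_iff {s : X} {g : F} : kil s g = g ↔ ∀ l ∈ g.toWord, l.1 ≠ s := by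
  constructor
  · intro h l hl
    have h1 : g = FreeGroup.mk (g.toWord.filter (fun l => decide (l.1 ≠ s))) := by
      rw [← DFree1_kil_filter, FreeGroup.mk_toWord, h]
    have h2 : g.toWord = FreeGroup.reduce (g.toWord.filter (fun l => decide (l.1 ≠ s))) := by
      conv_lhs => rw [h1]
      rw [FreeGroup.toWord_mk]
    have h3 : List.Sublist g.toWord (g.toWord.filter (fun l => decide (l.1 ≠ s))) := by
      conv_lhs => rw [h2]
      exact FreeGroup.Red.sublist FreeGroup.reduce.red
    have h4 := h3.subset hl
    simpa using (List.mem_filter.1 h4).2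
  · intro h
    have := kil_mk h
    rwa [FreeGroup.mk_toWord] at this

theorem kil_kil (s t : X) (g : F) : kil s (kil t g) = kil t (kil s g) := by
  have : (kil s).comp (kil t) = (kil t).comp (kil s) := FreeGroup.ext_hom _ _ fun x => by
    by_cases h : x = s <;> by_cases h' : x = t <;>
      simp only [MonoidHom.comp_apply, DFree1_kil_of, h, h', if_true, if_false,
        _root_.map_one] <;> simp_all [DFree1_kil_of]
  exact DFunLike.congr_fun this g

theorem kil_idem (s : X) (g : F) : kil s (kil s g) = kil s g := by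
  have : (kil s).comp (kil s) = kil s := FreeGroup.ext_hom _ _ fun x => by
    by_cases h : x = s <;> simp [DFree1_kil_of, h]
  exact DFunLike.congr_fun this g

theorem ex_kil {z : X} {g : F} (h : kil z g = g) : ex z g = 1 := by
  have : (ex z).comp (kil z) = 1 := FreeGroup.ext_hom _ _ fun x => by
    by_cases h : x = z <;> simp [DFree1_kil_of, ex, h]
  rw [← h]
  exact DFunLike.congr_fun this g

theorem DFree1_pow_mk {α : Type} (x : α) (W : List (α × Bool)) (h : ∀ l ∈ W, l.1 = x) :
    ∃ k : ℤ, FreeGroup.mk W = FreeGroup.of x ^ k := by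
  induction W with
  | nil => exact ⟨0, by rw [zpow_zero]; rfl⟩
  | cons l W ih =>
    obtain ⟨k, hk⟩ := ih (fun m hm => h m (List.mem_cons_of_mem _ hm))
    have hl : l.1 = x := h l List.mem_cons_self
    obtain ⟨y, b⟩ := l
    simp only at hl
    subst hl
    have hc : FreeGroup.mk ((y, b) :: W) = FreeGroup.mk [(y, b)] * FreeGroup.mk W := by
      rw [FreeGroup.mul_mk]; rfl
    cases b
    · refine ⟨-1 + k, ?_⟩
      rw [hc, hk, zpow_add, zpow_neg_one]
      rfl
    · refine ⟨1 + k, ?_⟩
      rw [hc, hk, zpow_add, zpow_one]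
      rfl

theorem pow_of_fix {x : X} {g : F} (h : ∀ z, z ≠ x → kil z g = g) :
    ∃ k : ℤ, g = FreeGroup.of x ^ k := by
  have h1 : ∀ l ∈ g.toWord, l.1 = x := by
    intro l hl
    by_contra hne
    exact (kil_fix_iff.1 (h l.1 hne)) l hl rfl
  obtain ⟨k, hk⟩ := DFree1_pow_mk x g.toWord h1
  exact ⟨k, by rw [← hk, FreeGroup.mk_toWord]⟩

theorem DFree1_free_cyc {α : Type} (hc : ∀ a b : FreeGroup α, a * b = b * a) :
    ∃ t : FreeGroup α, ∀ g : FreeGroup α, ∃ k : ℤ, g = t ^ k := by
  classical
  have hsub : ∀ a b : α, a = b := by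
    intro a b
    by_contra hab
    let f : FreeGroup α →* Equiv.Perm (Fin 3) :=
      FreeGroup.lift fun x => if x = a then Equiv.swap 0 1 else Equiv.swap 1 2
    have h1 := congrArg f (hc (FreeGroup.of a) (FreeGroup.of b))
    have hb : ¬ b = a := fun h => hab h.symm
    simp only [f, _root_.map_mul, FreeGroup.lift_apply_of, if_true, hb, if_false] at h1
    revert h1
    decide
  by_cases hne : Nonempty α
  · obtain ⟨x⟩ := hne
    refine ⟨FreeGroup.of x, fun g => ?_⟩
    obtain ⟨k, hk⟩ := DFree1_pow_mk x g.toWord (fun l _ => hsub _ _)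
    exact ⟨k, by rw [← hk, FreeGroup.mk_toWord]⟩
  · refine ⟨1, fun g => ⟨0, ?_⟩⟩
    rw [zpow_zero, ← FreeGroup.mk_toWord (x := g)]
    cases hg : g.toWord with
    | nil => rfl
    | cons l W => exact absurd ⟨l.1⟩ hne

theorem comm_cyc {u v : F} (h : Commute u v) : ∃ (t : F) (i j : ℤ), u = t ^ i ∧ v = t ^ j := by
  classical
  let H : Subgroup F := Subgroup.closure {u, v}
  have hu : u ∈ H := Subgroup.subset_closure (by simp)
  have hv : v ∈ H := Subgroup.subset_closure (by simp)
  have hcomm : ∀ a ∈ H, ∀ b ∈ H, a * b = b * a := by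
    have h1 : ∀ a ∈ ({u, v} : Set F), ∀ b ∈ H, a * b = b * a := by
      intro a ha b hb
      have : H ≤ Subgroup.centralizer {a} := by
        refine (Subgroup.closure_le _).2 ?_
        intro c hc
        rw [SetLike.mem_coe, Subgroup.mem_centralizer_iff]
        intro d hd
        rw [Set.mem_singleton_iff] at hd
        subst hd
        rcases ha with rfl | rfl <;> rcases hc with rfl | rfl
        · rfl
        · exact h.eq
        · exact h.eq.symm
        · rfl
      exact Subgroup.mem_centralizer_iff.1 (this hb) a rfl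
    intro a ha b hb
    have : H ≤ Subgroup.centralizer {b} := by
      refine (Subgroup.closure_le _).2 ?_
      intro c hc
      rw [SetLike.mem_coe, Subgroup.mem_centralizer_iff]
      intro d hd
      rw [Set.mem_singleton_iff] at hd
      subst hd
      exact (h1 c hc d hb).symm
    exact (Subgroup.mem_centralizer_iff.1 (this ha) b rfl).symm
  let e := IsFreeGroup.toFreeGroup H
  have hc : ∀ a b : FreeGroup (IsFreeGroup.Generators H), a * b = b * a := by
    intro a b
    apply e.symm.injective
    rw [_root_.map_mul, _root_.map_mul]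
    exact Subtype.ext (hcomm _ (e.symm a).2 _ (e.symm b).2)
  obtain ⟨t, ht⟩ := DFree1_free_cyc hc
  obtain ⟨i, hi⟩ := ht (e ⟨u, hu⟩)
  obtain ⟨j, hj⟩ := ht (e ⟨v, hv⟩)
  refine ⟨(e.symm t : H), i, j, ?_, ?_⟩
  · have : (⟨u, hu⟩ : H) = e.symm t ^ i := by
      rw [← _root_.map_zpow, ← hi, MulEquiv.symm_apply_apply]
    have h2 := congrArg Subtype.val this
    simpa using h2
  · have : (⟨v, hv⟩ : H) = e.symm t ^ j := by
      rw [← _root_.map_zpow, ← hj, MulEquiv.symm_apply_apply]
    have h2 := congrArg Subtype.val this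
    simpa using h2

end Pool.Agent.MP_61a8e3_al.D

end

section

set_option autoImplicit false

namespace Pool.Agent.MP_61a8e3_al.D

open A

theorem exists_minC (w : F) : ∃ W : List L, MinC W ∧ IsConj (FreeGroup.mk W) w := by
  classical
  have hex : ∃ m : ℕ, ∃ g : F, IsConj g w ∧ g.norm = m := ⟨_, w, IsConj.refl _, rfl⟩
  obtain ⟨g, hg, e⟩ := Nat.find_spec hex
  refine ⟨g.toWord, fun k hk => ?_, by rwa [FreeGroup.mk_toWord]⟩
  rw [FreeGroup.mk_toWord] at hk
  have := Nat.find_min' hex ⟨k, hk.symm.trans hg, rfl⟩
  rwa [← e] at this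

theorem MinC.rot {U V : List L} (h : MinC (U ++ V)) : MinC (V ++ U) := by
  intro g hg
  rw [List.length_append, add_comm, ← List.length_append]
  refine h g (IsConj.trans ?_ hg)
  rw [← FreeGroup.mul_mk, ← FreeGroup.mul_mk]
  exact isConj_iff.2 ⟨FreeGroup.mk V, by group⟩

theorem MinC.reduced {W : List L} (h : MinC W) : FreeGroup.IsReduced W := by
  refine FreeGroup.IsReduced.of_reduce_eq ?_
  have h1 : W.length ≤ (FreeGroup.reduce W).length := h _ (IsConj.refl _)
  have h2 : (FreeGroup.reduce W).Sublist W := FreeGroup.reduce.red.sublist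
  exact h2.eq_of_length (le_antisymm h2.length_le h1)

theorem MinC.reduced_snoc {l : L} {V : List L} (h : MinC (l :: V)) :
    FreeGroup.IsReduced (l :: V ++ [l]) := by
  by_cases hV : V = []
  · subst hV
    simp
  · have h1 : FreeGroup.IsReduced ([l] ++ V) := h.reduced
    have h2 : FreeGroup.IsReduced (V ++ [l]) := (MinC.rot (U := [l]) h).reduced
    exact h1.append_overlap h2 hV

theorem DFree2_mul (p : L → Bool) (x y : F) :
    (x * y).toWord.countP p ≤ x.toWord.countP p + y.toWord.countP p := by
  rw [← List.countP_append]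
  exact (FreeGroup.toWord_mul_sublist x y).countP_le

theorem DFree2_inv (f : X → Bool) (x : F) :
    x⁻¹.toWord.countP (fun l => f l.1) = x.toWord.countP (fun l => f l.1) := by
  rw [FreeGroup.toWord_inv, FreeGroup.invRev, List.countP_reverse, List.countP_map]
  rfl

theorem DFree2_pow (p : L → Bool) (x : F) (m : ℕ) :
    (x ^ m).toWord.countP p ≤ m * x.toWord.countP p := by
  induction m with
  | zero => simp
  | succ m ih =>
    rw [pow_succ, Nat.succ_mul]
    exact (DFree2_mul p _ _).trans (by omega)

theorem DFree2_rep (p : L → Bool) (V : List L) (m : ℕ) :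
    (List.replicate m V).flatten.countP p = m * V.countP p := by
  induction m with
  | zero => simp
  | succ m ih => rw [List.replicate_succ, List.flatten_cons, List.countP_append, ih]; ring

theorem stable {V : List L} (hV : FreeGroup.IsCyclicallyReduced V) {k : F}
    (h : IsConj (FreeGroup.mk V) k) (f : X → Bool) :
    V.countP (fun l => f l.1) ≤ k.toWord.countP (fun l => f l.1) := by
  obtain ⟨c, hc⟩ := isConj_iff.1 h.symm
  have key : ∀ m : ℕ, m * V.countP (fun l => f l.1) ≤
      m * k.toWord.countP (fun l => f l.1) + 2 * c.toWord.countP (fun l => f l.1) := by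
    intro m
    have e : (FreeGroup.mk V ^ m).toWord = (List.replicate m V).flatten := by
      rw [FreeGroup.pow_mk, FreeGroup.toWord_mk, (hV.flatten_replicate m).isReduced.reduce_eq]
    rw [← DFree2_rep, ← e, ← hc, conj_pow]
    have h1 := DFree2_mul (fun l => f l.1) (c * k ^ m) c⁻¹
    have h2 := DFree2_mul (fun l => f l.1) c (k ^ m)
    have h3 := DFree2_pow (fun l => f l.1) k m
    have h4 := DFree2_inv f c
    exact h1.trans ((add_le_add (h2.trans (add_le_add le_rfl h3)) h4.le).trans (le_of_eq (by ring)))
  by_contra hlt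
  have := key (2 * c.toWord.countP (fun l => f l.1) + 1)
  nlinarith

theorem finite_norm_le (n : ℕ) : {g : F | g.norm ≤ n}.Finite :=
  (List.finite_length_le L n).preimage (f := fun g : F => g.toWord)
    FreeGroup.toWord_injective.injOn

end Pool.Agent.MP_61a8e3_al.D

end

section

set_option autoImplicit false

namespace Pool.Agent.MP_61a8e3_al.D

open A

abbrev T3 := Bool × F × Bool

/-- The word of a list of segments. -/
def wd (s : X) (D : List T3) : List L := D.flatMap fun p => (s, p.1) :: p.2.1.toWord

/-- Matching signs along a list of segments. -/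
def Ch : Bool → List T3 → Bool → Prop
  | a, [], b => a = b
  | a, p :: D, b => p.1 = a ∧ Ch p.2.2 D b

def Loc (s : X) (p : T3) : Prop := kil s p.2.1 = p.2.1 ∧ (p.2.2 = !p.1 → p.2.1 ≠ 1)

theorem wd_cons (s : X) (p : T3) (D : List T3) :
    wd s (p :: D) = (s, p.1) :: p.2.1.toWord ++ wd s D := rfl

theorem seg_glue {s : X} {e e' : Bool} {U R : List L} (hU : FreeGroup.IsReduced U)
    (hs : ∀ l ∈ U, l.1 ≠ s) (hne : e' = !e → U ≠ []) (hR : FreeGroup.IsReduced ((s, e') :: R)) :
    FreeGroup.IsReduced ((s, e) :: U ++ (s, e') :: R) := by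
  unfold FreeGroup.IsReduced at *
  rw [List.isChain_append]
  refine ⟨?_, hR, ?_⟩
  · rw [List.isChain_cons]
    exact ⟨fun y hy h => absurd h.symm (hs y (List.mem_of_mem_head? hy)), hU⟩
  · intro x hx y hy h
    obtain rfl : (s, e') = y := by simpa using hy
    rcases List.mem_cons.1 (List.mem_of_mem_getLast? hx) with h1 | h1
    · by_cases hU0 : U = []
      · subst h1
        by_contra h2
        exact hne (by cases e <;> cases e' <;> simp_all) hU0
      · rw [List.getLast?_cons_of_ne_nil hU0] at hx
        exact absurd h (hs x (List.mem_of_mem_getLast? hx))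
    · exact absurd h (hs x h1)

theorem seg_red {s : X} (D : List T3) : ∀ {a b : Bool}, Ch a D b → (∀ p ∈ D, Loc s p) →
    ∃ R, wd s D ++ [(s, b)] = (s, a) :: R ∧ FreeGroup.IsReduced ((s, a) :: R) := by
  induction D with
  | nil =>
    intro a b h _
    obtain rfl : a = b := h
    exact ⟨[], rfl, FreeGroup.IsReduced.singleton⟩
  | cons p D ih =>
    intro a b h hl
    obtain ⟨rfl, h⟩ := h
    obtain ⟨R, h1, h2⟩ := ih h (fun q hq => hl q (List.mem_cons_of_mem _ hq))
    obtain ⟨h3, h4⟩ := hl p List.mem_cons_self
    refine ⟨p.2.1.toWord ++ (s, p.2.2) :: R, ?_, ?_⟩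
    · rw [wd_cons, List.append_assoc, h1]; rfl
    · exact seg_glue FreeGroup.isReduced_toWord (kil_fix_iff.1 h3)
        (fun h h' => h4 h (FreeGroup.toWord_eq_nil_iff.1 h')) h2

theorem seg_cyc {s : X} {D : List T3} {a : Bool} (h : Ch a D a) (hl : ∀ p ∈ D, Loc s p) :
    FreeGroup.IsCyclicallyReduced (wd s D) := by
  obtain ⟨R, h1, h2⟩ := seg_red D h hl
  rw [← h1] at h2
  unfold FreeGroup.IsReduced at h2
  rw [List.isChain_append] at h2
  refine ⟨h2.1, fun x hx y hy => h2.2.2 x hx y ?_⟩
  cases hw : wd s D with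
  | nil => rw [hw] at hy; simp at hy
  | cons c V =>
    rw [hw] at hy h1
    obtain rfl : c = y := by simpa using hy
    simpa using (List.cons.inj h1).1.symm

theorem seg_dec {s : X} (b : Bool) (V : List L) : ∀ (U : List L) (a : Bool),
    (∀ l ∈ U, l.1 ≠ s) → FreeGroup.IsReduced ((s, a) :: U ++ (V ++ [(s, b)])) →
    ∃ D : List T3, D ≠ [] ∧ Ch a D b ∧ (∀ p ∈ D, Loc s p) ∧ wd s D = (s, a) :: U ++ V := by
  have key : ∀ (U R : List L) (a e : Bool), (∀ l ∈ U, l.1 ≠ s) →
      FreeGroup.IsReduced ((s, a) :: U ++ (s, e) :: R) →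
      (FreeGroup.mk U).toWord = U ∧ Loc s (a, FreeGroup.mk U, e) := by
    intro U R a e hU h
    have h1 : FreeGroup.IsReduced U := (List.IsChain.left_of_append h).tail
    have h2 : (FreeGroup.mk U).toWord = U := by rw [FreeGroup.toWord_mk, h1.reduce_eq]
    refine ⟨h2, kil_mk hU, fun he h3 => ?_⟩
    simp only [] at he h3
    rw [h3, FreeGroup.toWord_one] at h2
    subst h2 he
    have := (FreeGroup.isReduced_cons_cons.1 h).1 rfl
    cases a <;> simp at this
  induction V with
  | nil =>
    intro U a hU h
    obtain ⟨h1, h2⟩ := key U [] a b hU h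
    refine ⟨[(a, FreeGroup.mk U, b)], by simp, ⟨rfl, rfl⟩, by simpa using h2, ?_⟩
    rw [wd_cons]; simp only [h1]; rfl
  | cons l V ih =>
    intro U a hU h
    by_cases hl : l.1 = s
    · obtain ⟨x, e⟩ := l
      obtain rfl : x = s := hl
      obtain ⟨h1, h2⟩ := key U _ a e hU h
      obtain ⟨D, -, h3, h4, h5⟩ := ih [] e (by simp) (List.IsChain.right_of_append h)
      refine ⟨(a, FreeGroup.mk U, e) :: D, by simp, ⟨rfl, h3⟩, ?_, ?_⟩
      · intro p hp
        rcases List.mem_cons.1 hp with rfl | hp
        · exact h2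
        · exact h4 p hp
      · rw [wd_cons, h5]; simp only [h1]; rfl
    · obtain ⟨D, h1, h2, h3, h4⟩ := ih (U ++ [l]) a (by
        intro m hm
        rcases List.mem_append.1 hm with hm | hm
        · exact hU m hm
        · rw [List.mem_singleton.1 hm]; exact hl) (by simpa using h)
      exact ⟨D, h1, h2, h3, by simpa using h4⟩

/-- Action of the twist on a segment. -/
def act (a b : F) (p : T3) : T3 := (p.1, cond p.1 a b * p.2.1 * (cond (!p.2.2) a b)⁻¹, p.2.2)

theorem tw_el (s : X) (a b : F) (e : Bool) :
    tw s a b (el (s, e)) = (cond (!e) a b)⁻¹ * el (s, e) * cond e a b := by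
  cases e
  · have : el (s, false) = (FreeGroup.of s)⁻¹ := el_bar (s, true)
    rw [this, map_inv, tw_self]; simp only [cond_false, Bool.not_false, cond_true]; group
  · exact tw_self s a b

theorem mk_wd_cons (s : X) (p : T3) (D : List T3) :
    FreeGroup.mk (wd s (p :: D)) = el (s, p.1) * p.2.1 * FreeGroup.mk (wd s D) := by
  rw [wd_cons, ← FreeGroup.mul_mk]
  congr 1
  conv_rhs => rw [← FreeGroup.mk_toWord (x := p.2.1)]
  rfl

theorem act_mk {s : X} (a b : F) (D : List T3) : ∀ {e e' : Bool}, Ch e D e' →
    (∀ p ∈ D, Loc s p) → tw s a b (FreeGroup.mk (wd s D)) =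
      (cond (!e) a b)⁻¹ * FreeGroup.mk (wd s (D.map (act a b))) * cond (!e') a b := by
  induction D with
  | nil =>
    intro e e' h _
    obtain rfl : e = e' := h
    have : FreeGroup.mk (wd s []) = 1 := rfl
    simp [this]
  | cons p D ih =>
    intro e e' h hl
    obtain ⟨rfl, h⟩ := h
    rw [List.map_cons, mk_wd_cons, mk_wd_cons, map_mul, map_mul, tw_el,
      tw_fix a b (hl p List.mem_cons_self).1, ih h (fun q hq => hl q (List.mem_cons_of_mem _ hq))]
    simp only [act]
    group

theorem act_ch (a b : F) (D : List T3) : ∀ {e e' : Bool}, Ch e D e' → Ch e (D.map (act a b)) e' := by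
  induction D with
  | nil => intro e e' h; exact h
  | cons p D ih => intro e e' h; exact ⟨h.1, ih h.2⟩

theorem act_loc {s : X} {a b : F} (ha : kil s a = a) (hb : kil s b = b) {p : T3} (h : Loc s p) :
    Loc s (act a b p) := by
  have hc : ∀ e : Bool, kil s (cond e a b) = cond e a b := fun e => by cases e <;> assumption
  refine ⟨by simp only [act, map_mul, map_inv, hc, h.1], fun he h1 => h.2 he ?_⟩
  simp only [act] at he h1
  rw [he, Bool.not_not] at h1
  simpa using h1

theorem norm_le_wd (s : X) {D : List T3} {p : T3} (h : p ∈ D) : p.2.1.norm ≤ (wd s D).length := by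
  obtain ⟨D1, D2, rfl⟩ := List.append_of_mem h
  simp only [wd, List.flatMap_append, List.flatMap_cons, List.length_append, List.length_cons,
    FreeGroup.norm]
  omega

theorem seg_pigeon {x y u : F} {K : ℕ} (h : ∀ n : ℕ, (x ^ n * u * (y ^ n)⁻¹).norm ≤ K) :
    u⁻¹ * x * u = y := by
  obtain ⟨n, m, hnm, he⟩ := Set.Finite.exists_lt_map_eq_of_forall_mem
    (f := fun n : ℕ => x ^ n * u * (y ^ n)⁻¹) h (finite_norm_le K)
  obtain ⟨d, rfl⟩ := Nat.exists_eq_add_of_lt hnm
  have h1 : (u⁻¹ * x * u) ^ (d + 1) = y ^ (d + 1) := by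
    have h2 : (u⁻¹ * x * u) ^ (d + 1) = u⁻¹ * x ^ (d + 1) * u := by
      simpa using conj_pow (a := u⁻¹) (b := x) (i := d + 1)
    have h3 : x ^ (d + 1) * u = u * y ^ (d + 1) := by
      calc x ^ (d + 1) * u = (x ^ n)⁻¹ * (x ^ (n + d + 1) * u * (y ^ (n + d + 1))⁻¹) *
            y ^ (n + d + 1) := by group
        _ = u * y ^ (d + 1) := by rw [← he]; group
    rw [h2, mul_assoc, h3]; group
  exact pow_left_injective (Nat.succ_ne_zero d) h1

theorem ex_comm {z : X} {u c : F} (h : Commute u c) (hc : c ≠ 1) (hz : ex z c = 1) :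
    ex z u = 1 := by
  obtain ⟨t, i, j, rfl, rfl⟩ := comm_cyc h
  have hj : j ≠ 0 := fun h => hc (by rw [h, zpow_zero])
  rw [map_zpow] at hz ⊢
  have h1 : j * (ex z t).toAdd = 0 := by simpa using congrArg Multiplicative.toAdd hz
  have h2 : ex z t = 1 := by
    rcases mul_eq_zero.1 h1 with h | h
    · exact absurd h hj
    · exact Multiplicative.toAdd.injective h
  rw [h2, one_zpow]

theorem seg {s : X} {a b : F} (ha : kil s a = a) (hb : kil s b = b) (hab : ¬ IsConj a b)
    (ha1 : a ≠ 1) (hb1 : b ≠ 1) {W : List L} (hW : MinC W) (hs : ∃ l ∈ W, l.1 = s)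
    (h : IsConj (tw s a b (FreeGroup.mk W)) (FreeGroup.mk W)) :
    (∃ u : F, u ≠ 1 ∧ Commute u b ∧ ∀ l ∈ u.toWord, l ∈ W) ∧
      ∀ z, z ≠ s → ex z a = 1 → ex z b = 1 → ex z (FreeGroup.mk W) = 1 := by
  obtain ⟨⟨x, e0⟩, hl, hx⟩ := hs
  obtain rfl : x = s := hx
  obtain ⟨U, V, rfl⟩ := List.append_of_mem hl
  have hW' : MinC ((x, e0) :: (V ++ U)) := MinC.rot hW
  obtain ⟨D, hD0, hD, hL, hwd⟩ := seg_dec e0 (V ++ U) [] e0 (by simp) hW'.reduced_snoc
  have hc : IsConj (FreeGroup.mk (wd x D)) (FreeGroup.mk (U ++ (x, e0) :: V)) := by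
    rw [hwd]
    exact S.isConj_mk_of_isRotated (List.isRotated_append (l := (x, e0) :: V) (l' := U))
  have h1 : IsConj (tw x a b (FreeGroup.mk (wd x D))) (FreeGroup.mk (wd x D)) :=
    (((tw x a b).map_isConj hc).trans h).trans hc.symm
  have hn : ∀ n : ℕ, IsConj (tw x (a ^ n) (b ^ n) (FreeGroup.mk (wd x D)))
      (FreeGroup.mk (wd x D)) := by
    intro n
    induction n with
    | zero => rw [pow_zero, pow_zero, tw_one]
    | succ n ih =>
      rw [pow_succ, pow_succ, ← tw_tw _ _ ha hb]
      exact ((tw x (a ^ n) (b ^ n)).map_isConj h1).trans ih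
  have hall : ∀ p ∈ D, p.2.1⁻¹ * cond p.1 a b * p.2.1 = cond (!p.2.2) a b := by
    intro p hp
    refine seg_pigeon (K := (FreeGroup.mk (wd x D)).toWord.length) fun n => ?_
    have hcp : ∀ e : Bool, cond e (a ^ n) (b ^ n) = cond e a b ^ n := fun e => by cases e <;> rfl
    have h2 : IsConj (FreeGroup.mk (wd x (D.map (act (a ^ n) (b ^ n)))))
        (FreeGroup.mk (wd x D)) := by
      refine IsConj.trans ?_ (hn n)
      rw [act_mk _ _ D hD hL]
      exact isConj_iff.2 ⟨(cond (!e0) (a ^ n) (b ^ n))⁻¹, by rw [inv_inv]⟩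
    have h3 := stable (seg_cyc (act_ch (a ^ n) (b ^ n) D hD) (fun q hq => by
      obtain ⟨q', hq', rfl⟩ := List.mem_map.1 hq
      exact act_loc (by rw [map_pow, ha]) (by rw [map_pow, hb]) (hL q' hq'))) h2 (fun _ => true)
    simp only [List.countP_true] at h3
    have h4 := norm_le_wd x (List.mem_map_of_mem (f := act (a ^ n) (b ^ n)) hp)
    simp only [act, hcp] at h4
    exact h4.trans h3
  have hgood : ∀ p ∈ D, p.2.2 = !p.1 ∧ p.2.1 ≠ 1 ∧ Commute p.2.1 (cond p.1 a b) := by
    rintro ⟨e, u, e'⟩ hp
    have h2 := hall _ hp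
    simp only [] at h2 ⊢
    have h3 : e' = !e := by
      by_contra h3
      apply hab
      have h4 : IsConj (cond e a b) (cond (!e') a b) := isConj_iff.2 ⟨u⁻¹, by rw [inv_inv, h2]⟩
      cases e <;> cases e' <;> simp at h3
      · exact h4.symm
      · exact h4
    refine ⟨h3, (hL _ hp).2 h3, ?_⟩
    rw [h3, Bool.not_not] at h2
    show u * cond e a b = cond e a b * u
    conv_lhs => rw [← h2]
    group
  constructor
  · have : ∃ p ∈ D, p.1 = false := by
      cases D with
      | nil => exact absurd rfl hD0
      | cons p D =>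
        cases hp : p.1
        · exact ⟨p, List.mem_cons_self, hp⟩
        · have h2 := (hgood p List.mem_cons_self).1
          obtain ⟨h3, h4⟩ := hD
          rw [h2, ← h3, hp] at h4
          cases D with
          | nil => exact absurd h4 (by simp [Ch])
          | cons q D => exact ⟨q, by simp, h4.1⟩
    obtain ⟨p, hp, hp1⟩ := this
    obtain ⟨-, h2, h3⟩ := hgood p hp
    rw [hp1] at h3
    refine ⟨p.2.1, h2, h3, fun l hl => ?_⟩
    have : l ∈ wd x D := List.mem_flatMap.2 ⟨p, hp, List.mem_cons_of_mem _ hl⟩
    rw [hwd] at this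
    simp only [List.cons_append, List.nil_append, List.mem_cons, List.mem_append] at this ⊢
    tauto
  · intro z hz hza hzb
    rw [← isConj_iff_eq.1 ((ex z).map_isConj hc)]
    have hs : ∀ e : Bool, ex z (el (x, e)) = 1 := by
      have h2 : ex z (FreeGroup.of x) = 1 := by simp [ex, hz.symm]
      intro e
      cases e
      · have : el (x, false) = (FreeGroup.of x)⁻¹ := el_bar (x, true)
        rw [this, map_inv, h2, inv_one]
      · exact h2
    clear hwd hc h1 hn hall hD hD0 hL
    induction D with
    | nil => exact map_one _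
    | cons p D ih =>
      rw [mk_wd_cons, map_mul, map_mul, hs, ih (fun q hq => hgood q (List.mem_cons_of_mem _ hq)),
        ex_comm (hgood p List.mem_cons_self).2.2 (by cases p.1 <;> assumption)
          (by cases p.1 <;> assumption)]
      rfl

end Pool.Agent.MP_61a8e3_al.D

end

section

set_option autoImplicit false

namespace Pool.Agent.MP_61a8e3_al.D

open A

/-- The handle of a generator. -/
def DOnly_hd : X → Fin 3 := Sum.elim id id

theorem DOnly_d1 : ∀ s : X, kil s.swap (pa s) = 1 ∧ kil s.swap (pb s) ≠ 1 := by decide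

theorem DOnly_d2 : ∀ s : X, pa s ≠ 1 ∧ pb s ≠ 1 := by decide

theorem DOnly_d3 : ∀ s x : X, DOnly_hd x ≠ DOnly_hd s → ex x (pa s) = 1 ∧ ex x (pb s) = 1 := by
  decide

theorem DOnly_d4 : ∀ s t : X, DOnly_hd t ≠ DOnly_hd s → kil t (pb s) ≠ pb s := by decide

theorem DOnly_d5 : ∀ s y : X, ∃ t : X, DOnly_hd t ≠ DOnly_hd s ∧ t ≠ y := by decide

theorem DOnly_nc (s : X) : ¬ IsConj (pa s) (pb s) := fun h => by
  have h1 := (kil s.swap).map_isConj h
  rw [(DOnly_d1 s).1, isConj_one_right] at h1
  exact (DOnly_d1 s).2 h1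

theorem onlyL {α : MulAut F} (hex : ∀ z w, ex z (α w) = ex z w)
    (hc : ∀ x : X, ∃ u : F, ∀ w, push x (α w) = u * α (push x w) * u⁻¹) {x y : X} {w : F}
    (hw : ∀ z, z ≠ x → z ≠ y → kil z w = w) (hx : ex x w ≠ 1) :
    ∃ k : F, IsConj (α w) k ∧ ∀ z, z ≠ x → z ≠ y → kil z k = k := by
  obtain ⟨W, hW, hWc⟩ := exists_minC (α w)
  have hxW : ex x (FreeGroup.mk W) ≠ 1 := by
    rw [isConj_iff_eq.1 ((ex x).map_isConj hWc), hex]
    exact hx
  have C : ∀ s, s ≠ x → s ≠ y → (∃ l ∈ W, l.1 = s) →
      DOnly_hd x = DOnly_hd s ∧ ∀ t, DOnly_hd t ≠ DOnly_hd s → ∃ l ∈ W, l.1 = t := by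
    intro s hsx hsy hs
    obtain ⟨u, hu⟩ := hc s
    have h1 : tw s (pa s) (pb s) (α w) = u * α w * u⁻¹ := by
      have := hu w
      rwa [push_apply, push_apply, tw_fix _ _ (hw s hsx hsy)] at this
    have h2 : IsConj (tw s (pa s) (pb s) (FreeGroup.mk W)) (FreeGroup.mk W) := by
      refine ((tw s (pa s) (pb s)).map_isConj hWc).trans (IsConj.trans ?_ hWc.symm)
      exact (isConj_iff.2 ⟨u, h1.symm⟩).symm
    obtain ⟨⟨v, hv1, hvb, hvW⟩, h3⟩ := seg (kil_pa s) (kil_pb s) (DOnly_nc s) (DOnly_d2 s).1
      (DOnly_d2 s).2 hW hs h2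
    refine ⟨?_, fun t ht => ?_⟩
    · by_contra hne
      exact hxW (h3 x hsx.symm (DOnly_d3 s x hne).1 (DOnly_d3 s x hne).2)
    · by_contra hno
      have hk : kil t v = v := kil_fix_iff.2 fun l hl h => hno ⟨l, hvW l hl, h⟩
      obtain ⟨r, i, j, hi, hj⟩ := comm_cyc hvb
      have hi0 : i ≠ 0 := fun h => hv1 (by rw [hi, h, zpow_zero])
      rw [hi, _root_.map_zpow] at hk
      have hr : kil t r = r := zpow_left_injective hi0 hk
      exact DOnly_d4 s t ht (by rw [hj, _root_.map_zpow, hr])
  refine ⟨FreeGroup.mk W, hWc.symm, fun z hzx hzy => kil_mk fun l hl h => ?_⟩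
  obtain ⟨h1, h2⟩ := C z hzx hzy ⟨l, hl, h⟩
  obtain ⟨t, ht, hty⟩ := DOnly_d5 z y
  have htx : t ≠ x := fun e => ht (e ▸ h1)
  exact ht ((C t htx hty (h2 t ht)).1.symm.trans h1)

end Pool.Agent.MP_61a8e3_al.D

end

section

set_option autoImplicit false

namespace Pool.Agent.MP_61a8e3_al.D

open A

theorem DPair_comm (l : L) : Commute (FreeGroup.of l.1 : F) (el l) := by
  rcases l with ⟨i, b⟩
  cases b
  · have h1 : el (i, false) = (FreeGroup.of i)⁻¹ := el_bar (i, true)
    rw [h1]
    exact (Commute.refl _).inv_right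
  · exact Commute.refl _

theorem DPair_cyc {x y : X} {G : List L} (hG : FreeGroup.IsReduced G)
    (h1 : ∀ l ∈ G.head?, l.1 ≠ x) (h2 : ∀ l ∈ G.getLast?, l.1 ≠ y) :
    FreeGroup.IsCyclicallyReduced ((x, true) :: (G ++ (y, true) :: FreeGroup.invRev G)) := by
  have hI : FreeGroup.IsReduced (FreeGroup.invRev G) :=
    FreeGroup.IsReduced.of_reduce_eq (by rw [FreeGroup.reduce_invRev, hG.reduce_eq])
  have h3 : ∀ l ∈ (FreeGroup.invRev G).head?, l.1 ≠ y := by
    intro l hl
    rw [FreeGroup.invRev, List.head?_reverse, List.getLast?_map, Option.mem_def,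
      Option.map_eq_some_iff] at hl
    obtain ⟨m, hm, rfl⟩ := hl
    exact h2 m hm
  have h4 : ∀ l ∈ (FreeGroup.invRev G).getLast?, l.1 ≠ x := by
    intro l hl
    rw [FreeGroup.invRev, List.getLast?_reverse, List.head?_map, Option.mem_def,
      Option.map_eq_some_iff] at hl
    obtain ⟨m, hm, rfl⟩ := hl
    exact h1 m hm
  refine ⟨?_, ?_⟩
  · unfold FreeGroup.IsReduced at *
    rw [List.isChain_cons, List.isChain_append, List.isChain_cons]
    refine ⟨?_, hG, ⟨fun l hl h => absurd h.symm (h3 l hl), hI⟩, ?_⟩
    · intro l hl h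
      cases G with
      | nil =>
        obtain rfl : (y, true) = l := by simpa using hl
        rfl
      | cons m t =>
        obtain rfl : m = l := by simpa using hl
        exact absurd h.symm (h1 m rfl)
    · intro a ha b hb h
      obtain rfl : (y, true) = b := by simpa using hb
      exact absurd h (h2 a ha)
  · intro a ha b hb h
    obtain rfl : (x, true) = b := by simpa using hb
    rw [← List.cons_append, List.getLast?_append_of_ne_nil _ (List.cons_ne_nil _ _)] at ha
    cases hw : FreeGroup.invRev G with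
    | nil =>
      rw [hw] at ha
      obtain rfl : (y, true) = a := by simpa using ha
      rfl
    | cons m t =>
      rw [hw, List.getLast?_cons_cons, ← hw] at ha
      exact absurd h (h4 a ha)

theorem DPair_aux {x y z : X} (hzx : z ≠ x) (hzy : z ≠ y) {k : F}
    (hk : kil z k = k) (n : ℕ) : ∀ G : List L, G.length = n → FreeGroup.IsReduced G →
      IsConj (FreeGroup.of x * (FreeGroup.mk G * FreeGroup.of y * (FreeGroup.mk G)⁻¹)) k →
      ∀ l ∈ G, l.1 ≠ z := by
  induction n with
  | zero =>
    intro G hG _ _ l hl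
    rw [List.length_eq_zero_iff.1 hG] at hl
    exact absurd hl List.not_mem_nil
  | succ n ih =>
    intro G hG hr h
    by_cases h1 : ∀ l ∈ G.head?, l.1 ≠ x
    · by_cases h2 : ∀ l ∈ G.getLast?, l.1 ≠ y
      · have e : FreeGroup.mk ((x, true) :: (G ++ (y, true) :: FreeGroup.invRev G)) =
            FreeGroup.of x * (FreeGroup.mk G * FreeGroup.of y * (FreeGroup.mk G)⁻¹) := by
          simp only [FreeGroup.of, FreeGroup.inv_mk, FreeGroup.mul_mk, List.append_assoc,
            List.singleton_append]
        have h3 := stable (DPair_cyc hr h1 h2) (e ▸ h) fun t => decide (t = z)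
        have h4 : k.toWord.countP (fun l => decide (l.1 = z)) = 0 :=
          List.countP_eq_zero.2 fun l hl => by simpa using kil_fix_iff.1 hk l hl
        rw [h4, Nat.le_zero, List.countP_eq_zero] at h3
        intro l hl
        simpa using h3 l (List.mem_cons_of_mem _ (List.mem_append_left _ hl))
      · push Not at h2
        obtain ⟨m, hm, hmy⟩ := h2
        obtain ⟨T, rfl⟩ := List.getLast?_eq_some_iff.1 hm
        have e : FreeGroup.mk (T ++ [m]) = FreeGroup.mk T * el m := FreeGroup.mul_mk.symm
        have hc : Commute (FreeGroup.of y : F) (el m) := hmy ▸ DPair_comm m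
        have e2 : FreeGroup.mk T * el m * FreeGroup.of y * (FreeGroup.mk T * el m)⁻¹ =
            FreeGroup.mk T * FreeGroup.of y * (FreeGroup.mk T)⁻¹ := by
          rw [mul_assoc (FreeGroup.mk T), ← hc.eq]
          group
        rw [e, e2] at h
        have h3 := ih T (by simpa using hG) (List.isChain_append.1 hr).1 h
        intro l hl
        rcases List.mem_append.1 hl with hl | hl
        · exact h3 l hl
        · rw [List.mem_singleton.1 hl, hmy]
          exact hzy.symm
    · push Not at h1
      obtain ⟨m, hm, hmx⟩ := h1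
      obtain ⟨T, rfl⟩ := List.head?_eq_some_iff.1 hm
      have e : FreeGroup.mk (m :: T) = el m * FreeGroup.mk T :=
        (FreeGroup.mul_mk (L₁ := [m])).symm
      have hc : Commute (FreeGroup.of x : F) (el m) := hmx ▸ DPair_comm m
      have e2 : FreeGroup.of x * (el m * FreeGroup.mk T * FreeGroup.of y *
          (el m * FreeGroup.mk T)⁻¹) = el m * (FreeGroup.of x *
            (FreeGroup.mk T * FreeGroup.of y * (FreeGroup.mk T)⁻¹)) * (el m)⁻¹ := by
        rw [← mul_assoc (el m) (FreeGroup.of x), ← hc.eq]
        group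
      rw [e, e2] at h
      have h3 := ih T (by simpa using hG) (List.IsChain.tail hr)
        ((isConj_iff.2 ⟨el m, rfl⟩).trans h)
      intro l hl
      rcases List.mem_cons.1 hl with rfl | hl
      · rw [hmx]
        exact hzx.symm
      · exact h3 l hl

set_option linter.unusedVariables false in
theorem pair {x y z : X} (hxy : x ≠ y) (hzx : z ≠ x) (hzy : z ≠ y) {g k : F}
    (h : IsConj (FreeGroup.of x * (g * FreeGroup.of y * g⁻¹)) k) (hk : kil z k = k) :
    kil z g = g :=
  kil_fix_iff.2 (DPair_aux hzx hzy hk _ g.toWord rfl FreeGroup.isReduced_toWord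
    (by rwa [FreeGroup.mk_toWord]))

end Pool.Agent.MP_61a8e3_al.D

end

section

set_option autoImplicit false

namespace Pool.Agent.MP_61a8e3_al.D

open A

theorem Mh_el (ρ : F) (χ : Option L → ℤ) (l : L) :
    Mh ρ χ (el l) = ρ ^ (χ (some l) - χ none) * el l * ρ ^ (χ none - χ (some (bar l))) :=
  lift_el (fun l => ρ ^ (χ (some l) - χ none) * el l * ρ ^ (χ none - χ (some (bar l))))
    (fun l => by simp only [bar_bar, el_bar]; group) l

theorem Mh_of (ρ : F) (χ : Option L → ℤ) (i : X) :
    Mh ρ χ (FreeGroup.of i) = ρ ^ (χ (some (i, true)) - χ none) * FreeGroup.of i *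
      ρ ^ (χ none - χ (some (i, false))) := FreeGroup.lift_apply_of

theorem Mh_zero (ρ g : F) : Mh ρ 0 g = g := by
  have : Mh ρ 0 = MonoidHom.id F := FreeGroup.ext_hom _ _ fun i => by simp [Mh_of]
  rw [this]; rfl

theorem Mh_none (ρ g : F) : Mh ρ (dl none) g = ρ⁻¹ * g * ρ := by
  have : Mh ρ (dl none) = (MulAut.conj ρ⁻¹).toMonoidHom := FreeGroup.ext_hom _ _ fun i => by
    simp [Mh_of, dl]
  rw [this]; simp

theorem Mh_comp {ρ ρ' : F} {χ : Option L → ℤ} (ψ : Option L → ℤ) (h : Mh ρ χ ρ' = ρ) (g : F) :
    Mh ρ χ (Mh ρ' ψ g) = Mh ρ (χ + ψ) g := by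
  have : (Mh ρ χ).comp (Mh ρ' ψ) = Mh ρ (χ + ψ) := FreeGroup.ext_hom _ _ fun i => by
    simp only [MonoidHom.comp_apply, Mh_of, map_mul, map_zpow, h, Pi.add_apply]
    group
  exact DFunLike.congr_fun this g

theorem pr_Mh {ρ : F} (h : pr ρ = 1) (χ : Option L → ℤ) (g : F) : pr (Mh ρ χ g) = pr g := by
  have : pr.comp (Mh ρ χ) = pr := FreeGroup.ext_hom _ _ fun i => by
    simp only [MonoidHom.comp_apply, Mh_of, map_mul, map_zpow, h, one_zpow, one_mul, mul_one]
  exact DFunLike.congr_fun this g

variable {P : Pi →* Out} {β : MulAut F}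

theorem G2.refl (P : Pi →* Out) (β : MulAut F) (u : F) : G2 P β u u 0 :=
  ⟨Mh_zero _ _, 1, fun g => (Mh_zero _ g).symm, by simp⟩

theorem G2.comp {u m v : F} {χ ψ : Option L → ℤ} (h1 : G2 P β u m χ) (h2 : G2 P β m v ψ) :
    G2 P β u v (χ + ψ) := by
  obtain ⟨a1, τ1, b1, c1⟩ := h1
  obtain ⟨a2, τ2, b2, c2⟩ := h2
  refine ⟨by rw [← Mh_comp ψ a1, a2, a1], τ1 * τ2, fun g => ?_, ?_⟩
  · rw [MulAut.mul_apply, b1, b2, Mh_comp ψ a1]
  · have e1 : β⁻¹ * (τ1 * τ2) * β = (β⁻¹ * τ1 * β) * (β⁻¹ * τ2 * β) := by group
    have e2 : u⁻¹ * v = (u⁻¹ * m) * (m⁻¹ * v) := by group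
    rw [e1, e2, map_mul, c1, c2, map_mul β⁻¹ (u⁻¹ * m), map_mul pr, map_mul P]

theorem G2.at_none (P : Pi →* Out) (β : MulAut F) : G2 P β 1 (β r3)⁻¹ (dl none) := by
  refine ⟨by rw [Mh_none]; group, MulAut.conj (β r3)⁻¹, fun g => by rw [Mh_none]; simp, ?_⟩
  have e1 : β⁻¹ * MulAut.conj (β r3)⁻¹ * β = MulAut.conj r3⁻¹ := by
    ext g; simp
  rw [e1, out_conj]
  simp [pr_r3]

theorem G2.blk {G vl : Option L → F} {I : List (Option L)} {u v : F} (hb : Blk G vl I u v)
    (h : ∀ q ∈ I, G2 P β (G q) (vl q) (dl q)) : G2 P β u v (fun p => (I.count p : ℤ)) := by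
  induction I generalizing u with
  | nil =>
    obtain rfl := (Blk_nil _ _ _ _).1 hb
    exact G2.refl P β u
  | cons q I ih =>
    obtain ⟨rfl, h2⟩ := (Blk_cons _ _ _ _ _ _).1 hb
    have := (h q List.mem_cons_self).comp (ih h2 fun p hp => h p (List.mem_cons_of_mem _ hp))
    convert this using 1
    funext p
    simp only [List.count_cons, Pi.add_apply, dl, beq_iff_eq, eq_comm (a := q)]
    split_ifs <;> simp [add_comm]

end Pool.Agent.MP_61a8e3_al.D

end

section

set_option autoImplicit false

namespace Pool.Agent.MP_61a8e3_al.D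

open A

variable {P : Pi →* Out} {β : MulAut F}

theorem DWh_gen (σ : MulAut F) (c : F) {u v : F} {χ χ' : Option L → ℤ} (h : G2 P β u v χ)
    (key : ∀ ρ : F, ∀ l : L, Mh (c * σ ρ * c⁻¹) χ' (σ (el l)) = σ (Mh ρ χ (el l)))
    (hc : ∀ ρ : F, Mh (c * σ ρ * c⁻¹) χ' c * σ ρ * (Mh (c * σ ρ * c⁻¹) χ' c)⁻¹ =
      c * σ ρ * c⁻¹) :
    G2 P (σ * β) (c * σ u) (c * σ v) χ' := by
  obtain ⟨h1, τ, h2, h3⟩ := h
  have e : ∀ w : F, c * σ w * (σ * β) r3 * (c * σ w)⁻¹ = c * σ (w * β r3 * w⁻¹) * c⁻¹ := by
    intro w
    rw [MulAut.mul_apply, _root_.map_mul, _root_.map_mul, _root_.map_inv]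
    group
  have K : ∀ ρ g : F, Mh (c * σ ρ * c⁻¹) χ' (σ g) = σ (Mh ρ χ g) := by
    intro ρ g
    have : (Mh (c * σ ρ * c⁻¹) χ').comp σ.toMonoidHom = σ.toMonoidHom.comp (Mh ρ χ) :=
      FreeGroup.ext_hom _ _ fun i => key ρ (i, true)
    exact DFunLike.congr_fun this g
  unfold G2
  rw [e u, e v]
  refine ⟨?_, σ * τ * σ⁻¹, fun g => ?_, ?_⟩
  · rw [_root_.map_mul (Mh _ χ'), _root_.map_mul (Mh _ χ'), _root_.map_inv (Mh _ χ'), K, h1, hc]
  · rw [MulAut.mul_apply, MulAut.mul_apply, h2, ← K, MulAut.apply_inv_self]
  · have e1 : (σ * β)⁻¹ * (σ * τ * σ⁻¹) * (σ * β) = β⁻¹ * τ * β := by group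
    have e2 : (c * σ u)⁻¹ * (c * σ v) = σ (u⁻¹ * v) := by
      rw [_root_.map_mul, _root_.map_inv]
      group
    rw [e1, e2, h3, mul_inv_rev, MulAut.mul_apply, MulAut.inv_apply_self]

theorem DWh_dl_self (q : Option L) : dl q q = 1 := if_pos rfl

theorem DWh_dl_ne {q p : Option L} (h : p ≠ q) : dl q p = 0 := if_neg h

theorem DWh_dl_none (l : L) : dl (some l) none = 0 := if_neg (by simp)

theorem DWh_dl_fst {l m : L} (h : m.1 ≠ l.1) : dl (some l) (some m) = 0 :=
  if_neg fun e => h (congrArg Prod.fst (Option.some.inj e))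

theorem DWh_fix (ρ : F) {l m : L} (h : m.1 ≠ l.1) : Mh ρ (dl (some l)) (el m) = el m := by
  rw [Mh_el, DWh_dl_none, DWh_dl_fst h, DWh_dl_fst (m := bar m) h]
  simp

theorem DWh_push (ρ : F) (l : L) : Mh ρ (dl (some l)) (el l) = ρ * el l := by
  rw [Mh_el, DWh_dl_none, DWh_dl_self,
    DWh_dl_ne (fun e => bar_ne l (Option.some.inj e))]
  simp

theorem DWh_dl_map (π : W) (q p : Option L) : dl (q.map π.1) (p.map π.1) = dl q p := by
  simp only [dl, (Option.map_injective π.1.injective).eq_iff]

/-- It is enough to check one of the two letters of each generator. -/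
theorem DWh_bar {S T : F → F} (hS : ∀ g, S g⁻¹ = (S g)⁻¹) (hT : ∀ g, T g⁻¹ = (T g)⁻¹) {l : L}
    (h : S (el l) = T (el l)) : S (el (bar l)) = T (el (bar l)) := by
  rw [el_bar, hS, hT, h]

theorem G2.wh_ne {a l : L} (χ : Option L → ℤ) (hl : l.1 ≠ a.1) {u v : F}
    (h : G2 P β u v (dl (some l))) :
    G2 P (whZ a χ * β) (el a ^ (χ none - χ (some l)) * whZ a χ u)
      (el a ^ (χ none - χ (some l)) * whZ a χ v) (dl (some l)) := by
  have hfix : ∀ ρ : F, Mh ρ (dl (some l)) (el a) = el a := fun ρ => DWh_fix ρ hl.symm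
  refine DWh_gen (whZ a χ) _ h (fun ρ m => ?_) (fun ρ => ?_)
  · have main : Mh (el a ^ (χ none - χ (some l)) * whZ a χ ρ * (el a ^ (χ none - χ (some l)))⁻¹)
        (dl (some l)) (whZ a χ (el l)) = whZ a χ (Mh ρ (dl (some l)) (el l)) := by
      rw [DWh_push, _root_.map_mul, whZ_of_ne χ hl, _root_.map_mul, _root_.map_mul, map_zpow,
        map_zpow, hfix, DWh_push]
      group
    by_cases hm : m.1 = l.1
    · rcases eq_or_bar hm with rfl | rfl
      · exact main
      · exact DWh_bar (S := fun g => Mh _ _ (whZ a χ g)) (T := fun g => whZ a χ (Mh _ _ g))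
          (fun g => by simp only [_root_.map_inv]) (fun g => by simp only [_root_.map_inv]) main
    · rw [DWh_fix ρ hm]
      by_cases hma : m.1 = a.1
      · rw [AWh_eq χ hma, DWh_fix _ hm]
      · rw [whZ_of_ne χ hma, _root_.map_mul, _root_.map_mul, map_zpow, map_zpow, hfix,
          DWh_fix _ hm]
  · rw [map_zpow, hfix]

theorem G2.wh_self {a : L} {χ : Option L → ℤ} (h1 : χ (some a) = 1) (h0 : χ (some (bar a)) = 0)
    (h01 : ∀ q, χ q = 0 ∨ χ q = 1) {u v : F} (h : G2 P β u v χ) :
    G2 P (whZ a χ * β) (el a ^ χ none * whZ a χ u) (el a ^ χ none * whZ a χ v)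
      (dl (some a)) := by
  refine DWh_gen (whZ a χ) _ h (fun ρ m => ?_) (fun ρ => ?_)
  · have main : Mh (el a ^ χ none * whZ a χ ρ * (el a ^ χ none)⁻¹) (dl (some a))
        (whZ a χ (el a)) = whZ a χ (Mh ρ χ (el a)) := by
      rw [whZ_self, DWh_push, Mh_el, _root_.map_mul, _root_.map_mul, map_zpow, map_zpow,
        whZ_self, h1, h0]
      rcases h01 none with e | e <;> rw [e] <;> group
    by_cases hm : m.1 = a.1
    · rcases eq_or_bar hm with rfl | rfl
      · exact main
      · exact DWh_bar (S := fun g => Mh _ _ (whZ a χ g)) (T := fun g => whZ a χ (Mh _ _ g))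
          (fun g => by simp only [_root_.map_inv]) (fun g => by simp only [_root_.map_inv]) main
    · rw [Mh_el ρ, _root_.map_mul (whZ a χ), _root_.map_mul (whZ a χ), map_zpow, map_zpow,
        whZ_of_ne χ hm, _root_.map_mul, _root_.map_mul, map_zpow, map_zpow, DWh_push,
        DWh_fix _ hm]
      rcases h01 none with e | e <;> rcases h01 (some m) with e1 | e1 <;>
        rcases h01 (some (bar m)) with e2 | e2 <;> rw [e, e1, e2] <;> group
  · rw [map_zpow, DWh_push]
    rcases h01 none with e | e <;> rw [e] <;> group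

theorem G2.rel (π : W) {q : Option L} {u v : F} (h : G2 P β u v (dl q)) :
    G2 P (relA π * β) (relA π u) (relA π v) (dl (q.map π.1)) := by
  have := DWh_gen (χ' := dl (q.map π.1)) (relA π) 1 h (fun ρ m => by
      have e1 := DWh_dl_map π q (some m)
      have e2 := DWh_dl_map π q (some (bar m))
      have e3 := DWh_dl_map π q none
      rw [Option.map_some] at e1 e2
      rw [Option.map_none] at e3
      rw [one_mul, inv_one, mul_one, relA_el, Mh_el, Mh_el, _root_.map_mul, _root_.map_mul,
        map_zpow, map_zpow, relA_el, ← W_bar, e1, e2, e3])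
    (fun ρ => by simp)
  rwa [one_mul, one_mul] at this

end Pool.Agent.MP_61a8e3_al.D

end

section

set_option autoImplicit false

namespace Pool.Agent.MP_61a8e3_al.D

open A

variable {P : Pi →* Out}

theorem DMove_count {I : List (Option L)} (hn : I.Nodup) {A : Finset (Option L)}
    (h : ∀ x, x ∈ A ↔ x ∈ I) : (fun p => (I.count p : ℤ)) = ind A := by
  funext p
  by_cases hp : p ∈ I
  · rw [List.count_eq_one_of_mem hn hp, AWh_ind1 ((h p).2 hp)]
    rfl
  · rw [List.count_eq_zero_of_not_mem hp, AWh_ind0 fun hx => hp ((h p).1 hx)]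
    rfl

theorem Inv.vmov {v v' : Vx} {a : L} {A : Finset (Option L)} {m n : ℕ} (hg : Good v)
    (h : VMov v a A m n v') (hi : Inv P v) : Inv P v' := by
  obtain ⟨X1, X2, Y1, Y2, ho, hA, -, -, hβ, ho'⟩ := h
  obtain ⟨hn, hf, -⟩ := hg
  obtain ⟨G, h0, h, h2⟩ := hi
  rw [ho, Cycle.nodup_coe_iff] at hn
  rw [ho] at h
  obtain ⟨u0, hu⟩ := (Blk_iff_Nx _ _ (by simp; omega)).2 h
  simp only [Blk_append, Blk_cons] at hu
  obtain ⟨u5, ⟨u3, ⟨u2, ⟨e0, b1⟩, b2⟩, e3, b3⟩, b4⟩ := hu
  have hab : some (bar a) ≠ some a := fun e => bar_ne a (Option.some.inj e)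
  let G' : Option L → F := fun q =>
    if q = some a then el a ^ ind A none * wh a A u5
    else if q = some (bar a) then el a ^ (ind A none - 1) * wh a A u2
    else el a ^ (ind A none - ind A q) * wh a A (G q)
  have hG : ∀ q, q ≠ some a → q ≠ some (bar a) →
      G' q = el a ^ (ind A none - ind A q) * wh a A (G q) := fun q h1 h2 => by
    simp only [G', if_neg h1, if_neg h2]
  have hGa : G' (some a) = el a ^ ind A none * wh a A u5 := by simp only [G', if_true]
  have hGb : G' (some (bar a)) = el a ^ (ind A none - 1) * wh a A u2 := by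
    simp only [G', if_neg hab, if_true]
  have hblk : ∀ (U : List (Option L)) (c : ℤ) (u u' : F),
      (∀ x ∈ U, x ≠ some a ∧ x ≠ some (bar a) ∧ ind A x = c) → Blk G (val G (v.β r3)) U u u' →
      Blk G' (val G' (wh a A (v.β r3))) U (el a ^ (ind A none - c) * wh a A u)
        (el a ^ (ind A none - c) * wh a A u') := fun U c u u' hU hb =>
    Blk_map (fun g => el a ^ (ind A none - c) * wh a A g) (fun x hx => by
      obtain ⟨h1, h2, h3⟩ := hU x hx
      rw [hG x h1 h2, AGood_val hG h1 h2, h3]
      exact ⟨rfl, rfl⟩) hb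
  have hn' := hn
  simp only [List.nodup_append, List.nodup_cons, List.mem_append, List.mem_cons] at hn'
  obtain ⟨⟨⟨⟨n1, -⟩, -, n2⟩, ⟨n3, -⟩, n4⟩, -, n5⟩ := hn'
  have c1 := hblk X1 1 _ _ (fun x hx => ⟨fun e => n1 (e ▸ hx),
    n4 x (Or.inl (Or.inr hx)) _ (Or.inl rfl), if_pos ((hA x).2 (Or.inr (Or.inl hx)))⟩) b1
  have c2 := hblk X2 0 _ _ (fun x hx => ⟨(n2 _ (Or.inl rfl) x hx).symm,
    n4 x (Or.inr hx) _ (Or.inl rfl), if_neg fun hx' => by
      rcases (hA x).1 hx' with h1 | h1 | h1
      · exact n2 x (Or.inl h1) x hx rfl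
      · exact n2 x (Or.inr h1) x hx rfl
      · exact n5 x (Or.inl (Or.inr hx)) x h1 rfl⟩) b2
  have c3 := hblk Y1 0 _ _ (fun x hx => ⟨(n4 _ (Or.inl (Or.inl rfl)) x (Or.inr hx)).symm,
    fun e => n3 (e ▸ hx), if_neg fun hx' => by
      rcases (hA x).1 hx' with h1 | h1 | h1
      · exact n4 x (Or.inl (Or.inl h1)) x (Or.inr hx) rfl
      · exact n4 x (Or.inl (Or.inr h1)) x (Or.inr hx) rfl
      · exact n5 x (Or.inr (Or.inr hx)) x h1 rfl⟩) b3
  have c4 := hblk Y2 1 _ _ (fun x hx => ⟨(n5 _ (Or.inl (Or.inl (Or.inl rfl))) x hx).symm,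
    (n5 _ (Or.inr (Or.inl rfl)) x hx).symm, if_pos ((hA x).2 (Or.inr (Or.inr hx)))⟩) b4
  have hw : wh a A (el a) = el a := whZ_self a _
  refine ⟨G', ?_, ?_, fun q => ?_⟩
  · rw [hG none (by simp) (by simp), h0]
    simp
  · rw [ho', hβ]
    change ∀ p q, _ → G' q = val G' (wh a A (v.β r3)) p
    refine (Blk_iff_Nx _ _ (by simp; omega)).1 ⟨el a ^ ind A none * wh a A u5, ?_⟩
    simp only [Blk_append, Blk_cons]
    refine ⟨el a ^ (ind A none - 1) * wh a A u0, ⟨el a ^ (ind A none - 1) * wh a A u2,
      ⟨el a ^ (ind A none - 0) * wh a A u3, ⟨hGa, ?_⟩, ?_⟩, hGb, ?_⟩, ?_⟩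
    · convert c2 using 1
      simp only [val]
      rw [hGb]
      group
    · convert c1 using 1
      simp only [val]
      rw [e3, map_mul, hw]
      group
    · convert c4 using 1
      simp only [val]
      rw [bar_bar, hGa, el_bar]
      group
    · convert c3 using 1
      · simp only [val]
        rw [bar_bar, e0, el_bar, map_mul, map_inv, hw]
        group
      · rw [sub_zero]
  · rw [hβ]
    change G2 P (wh a A * v.β) (G' q) (val G' (wh a A (v.β r3)) q) (dl q)
    have hI : (Y2 ++ some a :: X1).Nodup ∧ (X2 ++ some (bar a) :: Y1).Nodup ∧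
        ∀ x ∈ X2 ++ some (bar a) :: Y1, x ∉ Y2 ++ some a :: X1 := by
      have hp : (some a :: X1 ++ X2 ++ some (bar a) :: Y1 ++ Y2).Perm
          ((X2 ++ some (bar a) :: Y1) ++ (Y2 ++ some a :: X1)) := by
        rw [List.perm_iff_count]
        intro x
        simp only [List.count_append, List.count_cons]
        omega
      have := List.nodup_append.1 (hp.nodup_iff.1 hn)
      exact ⟨this.2.1, this.1, fun x hx hx' => this.2.2 x hx x hx' rfl⟩
    have hA1 : ∀ x, x ∈ A ↔ x ∈ Y2 ++ some a :: X1 := fun x => by
      rw [hA]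
      simp only [List.mem_append, List.mem_cons]
      tauto
    have hA2 : ∀ x, x ∈ Aᶜ ↔ x ∈ X2 ++ some (bar a) :: Y1 := fun x => by
      rw [Finset.mem_compl, hA1]
      refine ⟨fun hx => ?_, hI.2.2 x⟩
      have := hf x
      rw [ho, Cycle.mem_coe_iff] at this
      simp only [List.mem_append, List.mem_cons] at this hx ⊢
      tauto
    have ha1 : ind A (some a) = 1 := AWh_ind1 ((hA1 _).2 (by simp))
    have ha0 : ind A (some (bar a)) = 0 :=
      AWh_ind0 (Finset.mem_compl.1 ((hA2 _).2 (by simp)))
    by_cases q1 : q = some a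
    · subst q1
      have hb : Blk G (val G (v.β r3)) (Y2 ++ some a :: X1) u5 u2 :=
        (Blk_append _ _ _ _ _ _).2 ⟨u0, b4, (Blk_cons _ _ _ _ _ _).2 ⟨e0, b1⟩⟩
      have g1 := G2.blk hb fun q _ => h2 q
      rw [DMove_count hI.1 hA1] at g1
      have g2 := G2.wh_self ha1 ha0 (AWh_cases' A) g1
      have e : val G' (wh a A (v.β r3)) (some a) = el a ^ ind A none * wh a A u2 := by
        simp only [val]
        rw [hGb]
        group
      rw [hGa, e]
      exact g2
    by_cases q2 : q = some (bar a)
    · subst q2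
      have hb : Blk G (val G (v.β r3)) (X2 ++ some (bar a) :: Y1) u2 u5 :=
        (Blk_append _ _ _ _ _ _).2 ⟨u3, b2, (Blk_cons _ _ _ _ _ _).2 ⟨e3, b3⟩⟩
      have g1 := G2.blk hb fun q _ => h2 q
      rw [DMove_count hI.2.1 hA2] at g1
      have g2 := G2.wh_self (a := bar a) (by rw [AWh_compl, ha0]; rfl)
        (by rw [bar_bar, AWh_compl, ha1]; rfl) (AWh_cases' Aᶜ) g1
      have e : val G' (wh a A (v.β r3)) (some (bar a)) =
          el a ^ (ind A none - 1) * wh a A u5 := by
        simp only [val]
        rw [bar_bar, hGa, el_bar]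
        group
      have e1 : whZ (bar a) (ind Aᶜ) = wh a A := wh_compl a A
      have e2 : el (bar a) ^ ind Aᶜ none = el a ^ (ind A none - 1) := by
        rw [el_bar, AWh_compl]
        group
      rw [e1, e2] at g2
      rw [hGb, e]
      exact g2
    rcases q with _ | l
    · have e : G' none = 1 := by
        rw [hG none (by simp) (by simp), h0]
        simp
      rw [e]
      exact G2.at_none P (wh a A * v.β)
    · have hl : l.1 ≠ a.1 := fun e => (eq_or_bar e).elim (fun e => q1 (by rw [e]))
        fun e => q2 (by rw [e])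
      rw [hG _ q1 q2, AGood_val hG q1 q2]
      exact G2.wh_ne (ind A) hl (h2 (some l))

theorem Inv.vact {v : Vx} (hi : Inv P v) (π : W) : Inv P (vact π v) := by
  obtain ⟨G, h0, h, h2⟩ := hi
  have hc : ∀ x : Option L, Option.map π.1.symm (Option.map π.1 x) = x := fun x => by
    cases x <;> simp
  have hv : ∀ p : Option L, val (fun q => relA π (G (q.map π.1.symm))) (relA π (v.β r3))
      (p.map π.1) = relA π (val G (v.β r3) p) := fun p => by
    rcases p with _ | l
    · simp [val]
    · simp only [val, Option.map_some]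
      rw [map_mul, relA_el, ← W_bar, Equiv.symm_apply_apply]
  refine ⟨fun q => relA π (G (q.map π.1.symm)), ?_, fun p' q' hpq => ?_, fun q' => ?_⟩
  · simp [h0]
  · obtain ⟨p, q, h1, rfl, rfl⟩ := Nx_of_map _ hpq
    change relA π (G _) = val _ (relA π (v.β r3)) _
    rw [hc, h p q h1, hv]
  · obtain ⟨q, rfl⟩ : ∃ q : Option L, q' = q.map π.1 :=
      ⟨q'.map π.1.symm, by cases q' <;> simp⟩
    change G2 P (relA π * v.β) (relA π (G _)) (val _ (relA π (v.β r3)) _) _
    rw [hc, hv]
    exact G2.rel π (h2 q)

theorem Inv.rch {E : Type} (S : SlideSys E) {s s' : St E} (hs : Ok S s) (h : Rch S s s')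
    (hi : Inv P s.v) : Inv P s'.v := by
  induction h with
  | refl => exact hi
  | tail h1 h2 ih =>
    obtain ⟨a, A, π, s'', ⟨m, n, hm, -⟩, rfl⟩ := h2
    exact Inv.vact (Inv.vmov (Ok.rch S hs h1).1 hm ih) π

end Pool.Agent.MP_61a8e3_al.D

end

section

set_option autoImplicit false

namespace Pool.Agent.MP_61a8e3_al.D

open A

/-- The conjugate of the relator at the corner of a letter. -/
def DBase_rho (l : L) : F := G0 (some l) * r3 * (G0 (some l))⁻¹

/-- The pushes as a homomorphism from the free group. -/
def DBase_T : F →* MulAut F := FreeGroup.lift push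

/-- Final segments used by the inverse dual basis. -/
def DBase_sfx : Fin 3 → F :=
  ![1, FreeGroup.mk [lA 0, lb 0, la 0, lB 0],
    FreeGroup.mk [lA 0, lb 0, la 0, lB 0, lA 1, lb 1, la 1, lB 1]]

/-- The inverse dual basis. -/
def DBase_D : X → F
  | .inl i => DBase_sfx i * FreeGroup.mk [lA i, lB i, la i] * (DBase_sfx i)⁻¹
  | .inr i => DBase_sfx i * FreeGroup.mk [lA i, lb i, la i, lB i, la i] * (DBase_sfx i)⁻¹

theorem DBase_t1 : ∀ x y : X, tw x (pa x) (pb x) (FreeGroup.of y) =
    Mh (DBase_rho (x, true)) (dl (some (x, true))) (FreeGroup.of y) := by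
  decide +kernel

theorem DBase_t2 : ∀ x y : X, tw x (pa x)⁻¹ (pb x)⁻¹ (FreeGroup.of y) =
    Mh (DBase_rho (x, false)) (dl (some (x, false))) (FreeGroup.of y) := by
  decide +kernel

theorem DBase_t3 : ∀ l : L, Mh (DBase_rho l) (dl (some l))
    (val G0 r3 (some l) * r3 * (val G0 r3 (some l))⁻¹) = DBase_rho l := by
  decide +kernel

theorem DBase_t4 : ∀ x : X, FreeGroup.lift gam (DBase_D x) = FreeGroup.of x := by
  decide +kernel

theorem DBase_t5 : ∀ l : L,
    FreeGroup.lift DBase_D ((G0 (some l))⁻¹ * val G0 r3 (some l)) = el l := by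
  decide +kernel

theorem DBase_t6 : FreeGroup.lift DBase_D r3 = FreeGroup.mk w0L := by
  decide +kernel

theorem DBase_t7 : Blk G0 (val G0 r3) (w0L.map some) r3⁻¹ 1 := by
  unfold Blk
  decide +kernel

theorem DBase_t8 : ∀ l : L, (w0L.map some).count (some l) = 1 := by
  decide +kernel

theorem DBase_t9 : (w0L.map some).count none = 0 := by
  decide +kernel

theorem DBase_push (x : X) (g : F) :
    push x g = Mh (DBase_rho (x, true)) (dl (some (x, true))) g :=
  DFunLike.congr_fun (FreeGroup.ext_hom _ _ (DBase_t1 x)) g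

theorem DBase_el (l : L) (g : F) : DBase_T (el l) g = Mh (DBase_rho l) (dl (some l)) g := by
  rcases l with ⟨x, b⟩
  cases b
  · have h : el (x, false) = (FreeGroup.of x)⁻¹ := el_bar (x, true)
    rw [h, map_inv, DBase_T, FreeGroup.lift_apply_of]
    exact DFunLike.congr_fun (FreeGroup.ext_hom _ _ (DBase_t2 x)) g
  · rw [el_true, DBase_T, FreeGroup.lift_apply_of]
    exact DBase_push x g

theorem DBase_pr_rho (l : L) : pr (DBase_rho l) = 1 := by
  rw [DBase_rho, map_mul, map_mul, pr_r3, mul_one, map_inv, mul_inv_cancel]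

theorem pr_push (x : X) (g : F) : pr (push x g) = pr g := by
  rw [DBase_push, pr_Mh (DBase_pr_rho _)]

theorem push_norm (x : X) : ∃ u : F, pr u = pr (gam x) ∧ u * push x r3 * u⁻¹ = r3 := by
  refine ⟨(G0 (some (x, true)))⁻¹ * push x (val G0 r3 (some (x, true))), ?_, ?_⟩
  · rw [gam, map_mul, map_mul, pr_push]
  · have h := DBase_t3 (x, true)
    rw [← DBase_push, map_mul, map_mul, map_inv, DBase_rho] at h
    calc _ = (G0 (some (x, true)))⁻¹ * (push x (val G0 r3 (some (x, true))) * push x r3 *
          (push x (val G0 r3 (some (x, true))))⁻¹) * G0 (some (x, true)) := by group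
      _ = r3 := by rw [h]; group

theorem closure_gam : Subgroup.closure (Set.range gam) = ⊤ := by
  rw [eq_top_iff, ← FreeGroup.closure_range_of, Subgroup.closure_le]
  rintro _ ⟨x, rfl⟩
  rw [← FreeGroup.range_lift_eq_closure]
  exact ⟨DBase_D x, DBase_t4 x⟩

theorem DBase_blk (I : List L) : ∀ u v : F, Blk G0 (val G0 r3) (I.map some) u v →
    (∀ g, DBase_T (FreeGroup.mk I) g =
      Mh (u * r3 * u⁻¹) (fun p => ((I.map some).count p : ℤ)) g) ∧
    DBase_T (FreeGroup.mk I) (v * r3 * v⁻¹) = u * r3 * u⁻¹ := by
  induction I with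
  | nil =>
    intro u v h
    rw [List.map_nil, Blk_nil] at h
    subst h
    rw [← FreeGroup.one_eq_mk, map_one]
    exact ⟨fun g => (Mh_zero _ g).symm, rfl⟩
  | cons l I ih =>
    intro u v h
    rw [List.map_cons, Blk_cons] at h
    obtain ⟨rfl, h⟩ := h
    obtain ⟨h1, h2⟩ := ih _ _ h
    have e : FreeGroup.mk (l :: I) = el l * FreeGroup.mk I := rfl
    rw [e, map_mul]
    refine ⟨fun g => ?_, ?_⟩
    · rw [MulAut.mul_apply, h1, DBase_el, Mh_comp _ (DBase_t3 l)]
      congr 2
      funext p
      simp only [Pi.add_apply, dl, List.map_cons, List.count_cons, beq_iff_eq]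
      by_cases hp : p = some l
      · simp [hp, add_comm]
      · simp [hp, Ne.symm hp]
    · rw [MulAut.mul_apply, h2, DBase_el]
      exact DBase_t3 l

theorem DBase_rel : out (DBase_T (FreeGroup.mk w0L)) = 1 := by
  rw [← out_conj (r3⁻¹ * r3 * r3⁻¹⁻¹)]
  congr 1
  refine aut_ext fun l => ?_
  rw [(DBase_blk w0L _ _ DBase_t7).1, Mh_el]
  simp only [DBase_t8, DBase_t9, MulAut.conj_apply]
  simp

theorem DBase_nx (p q : Option L) (h : Nx o0 p q) : G0 q = val G0 r3 p := by
  refine (Blk_iff_Nx _ _ (l := none :: w0L.map some) (by decide)).1 ⟨1, ?_⟩ p q h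
  rw [Blk_cons]
  exact ⟨rfl, DBase_t7⟩

theorem exists_P : ∃ P : Pi →* Out, Inv P v0 := by
  have e : FreeGroup.lift (fun i => out (DBase_T (DBase_D i))) =
      (out.comp DBase_T).comp (FreeGroup.lift DBase_D) :=
    FreeGroup.ext_hom _ _ fun i => by simp
  have hr : ∀ r ∈ ({S.rel} : Set F), FreeGroup.lift (fun i => out (DBase_T (DBase_D i))) r = 1 := by
    rintro _ rfl
    rw [e, ← r3_rel, MonoidHom.comp_apply, DBase_t6]
    exact DBase_rel
  have hP : ∀ g, PresentedGroup.toGroup hr (pr g) = out (DBase_T (FreeGroup.lift DBase_D g)) :=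
    fun g => DFunLike.congr_fun e g
  refine ⟨PresentedGroup.toGroup hr, G0, rfl, DBase_nx, ?_⟩
  rintro (_ | l)
  · exact G2.at_none _ _
  · refine ⟨DBase_t3 l, DBase_T (el l), DBase_el l, ?_⟩
    rw [hP]
    change out (1⁻¹ * DBase_T (el l) * 1) =
      out (DBase_T (FreeGroup.lift DBase_D ((G0 (some l))⁻¹ * val G0 r3 (some l))))
    rw [DBase_t5, inv_one, one_mul, mul_one]

theorem DBase_eqs {G : Option L → F} (h : ∀ p q, Nx o0 p q → G q = val G r3 p) :
    ∃ u, Blk G (val G r3) (none :: w0L.map some) u u :=
  (Blk_iff_Nx _ _ (by decide)).2 h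

theorem DBase_unique {G : Option L → F}
    (h : ∀ p q, Nx o0 p q → G q = val G r3 p) : G = G0 := by
  obtain ⟨u, hu⟩ := DBase_eqs h
  obtain ⟨v, hv⟩ := DBase_eqs DBase_nx
  generalize G0 = G' at hv ⊢
  simp only [w0L, List.map_cons, List.map_nil, Blk_cons, Blk_nil, val] at hu hv
  have b1 : ∀ i, bar (la i) = lA i := fun _ => rfl
  have b2 : ∀ i, bar (lA i) = la i := fun _ => rfl
  have b3 : ∀ i, bar (lb i) = lB i := fun _ => rfl
  have b4 : ∀ i, bar (lB i) = lb i := fun _ => rfl
  simp only [b1, b2, b3, b4] at hu hv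
  obtain ⟨e0, e1, e2, e3, e4, e5, e6, e7, e8, e9, e10, e11, e12, e13⟩ := hu
  obtain ⟨f0, f1, f2, f3, f4, f5, f6, f7, f8, f9, f10, f11, f12, f13⟩ := hv
  have g1 : G (some (lb 2)) = G' (some (lb 2)) := e1.trans f1.symm
  have g4 : G (some (la 2)) = G' (some (la 2)) := by rw [e4, f4, g1]
  have g3 : G (some (lB 2)) = G' (some (lB 2)) := by rw [e3, f3, g4]
  have g2 : G (some (lA 2)) = G' (some (lA 2)) := by rw [e2, f2, g3]
  have g5 : G (some (lb 1)) = G' (some (lb 1)) := by rw [e5, f5, g2]
  have g8 : G (some (la 1)) = G' (some (la 1)) := by rw [e8, f8, g5]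
  have g7 : G (some (lB 1)) = G' (some (lB 1)) := by rw [e7, f7, g8]
  have g6 : G (some (lA 1)) = G' (some (lA 1)) := by rw [e6, f6, g7]
  have g9 : G (some (lb 0)) = G' (some (lb 0)) := by rw [e9, f9, g6]
  have g12 : G (some (la 0)) = G' (some (la 0)) := by rw [e12, f12, g9]
  have g11 : G (some (lB 0)) = G' (some (lB 0)) := by rw [e11, f11, g12]
  have g10 : G (some (lA 0)) = G' (some (lA 0)) := by rw [e10, f10, g11]
  have g0 : G none = G' none := by rw [e0, f0, ← e13, ← f13, g10]
  funext q
  rcases q with _ | ⟨i | i, _ | _⟩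
  · exact g0
  all_goals fin_cases i
  all_goals assumption

theorem inv_o0 {P : Pi →* Out} {α : MulAut F} (hα : α r3 = r3) (h : Inv P ⟨α, o0⟩) (x : X) :
    out (α⁻¹ * push x * α) = P (pr (α⁻¹ (gam x))) := by
  obtain ⟨G, -, h1, h2⟩ := h
  simp only [hα] at h1
  obtain rfl := DBase_unique h1
  obtain ⟨-, τ, hτ, h3⟩ := h2 (some (x, true))
  simp only [hα] at hτ
  have e : τ = push x := MulEquiv.ext fun g => (hτ g).trans (DBase_push x g).symm
  rw [e] at h3
  exact h3

end Pool.Agent.MP_61a8e3_al.D

end

section

/-! Subdivision of edges labelled by words. -/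

namespace Pool.Agent.MP_61a8e3_al.S

open FreeGroup

abbrev SE (T : Type) := (T × ℕ) × X

/-- A word written with fresh edges. -/
def Wf {T : Type} (t : T) : ℕ → List Lt → List (SE T × Bool)
  | _, [] => []
  | n, l :: L => (((t, n), l.1), l.2) :: Wf t (n + 1) L

theorem Wf_lab {T : Type} (t : T) (n : ℕ) (L : List Lt) :
    (Wf t n L).map (lb Prod.snd) = L := by
  induction L generalizing n with
  | nil => rfl
  | cons l L ih => simp only [Wf, List.map_cons, ih]; rfl

theorem Wf_mem {T : Type} (t : T) (n : ℕ) (L : List Lt) (d : SE T × Bool) (h : d ∈ Wf t n L) :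
    d.1.1.1 = t ∧ n ≤ d.1.1.2 := by
  induction L generalizing n with
  | nil => simp [Wf] at h
  | cons l L ih =>
    rcases List.mem_cons.1 h with rfl | h
    · exact ⟨rfl, le_rfl⟩
    · exact ⟨(ih _ h).1, by have := (ih _ h).2; omega⟩

theorem Wf_idx {T : Type} (t : T) (n : ℕ) (L : List Lt) :
    ((Wf t n L).map (fun d => d.1.1.2)).Nodup := by
  induction L generalizing n with
  | nil => simp [Wf]
  | cons l L ih =>
    simp only [Wf, List.map_cons, List.nodup_cons]
    refine ⟨fun h => ?_, ih _⟩
    obtain ⟨d, hd, h⟩ := List.mem_map.1 h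
    have := (Wf_mem _ _ _ _ hd).2
    omega

theorem Wf_not_iv {T : Type} (t : T) (n : ℕ) (L : List Lt) (d : SE T × Bool)
    (h : d ∈ Wf t n L) : iv d ∉ Wf t n L := fun h' =>
  iv_ne d (List.inj_on_of_nodup_map (Wf_idx t n L) h' h rfl)

theorem path_congr {E Ω : Type} (f g : E × Bool → Ω) (L : List (E × Bool)) (a b : Ω)
    (h : ∀ d ∈ L, f d = g d ∧ f (iv d) = g (iv d)) (hp : Path f a L b) : Path g a L b := by
  induction L generalizing a with
  | nil => exact hp
  | cons d L ih =>
    obtain ⟨h1, h2⟩ := h d List.mem_cons_self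
    exact ⟨h1 ▸ hp.1, h2 ▸ ih _ (fun x hx => h x (List.mem_cons_of_mem _ hx)) hp.2⟩

theorem Wf_pot {T Γ Ω : Type} [Group Γ] [MulAction Γ Ω] (c : SE T → Γ) (t : T) (L : List Lt) :
    ∀ (n : ℕ) (a : Ω), ∃ f : SE T × Bool → Ω,
      Path f a (Wf t n L) ((FreeGroup.lift c (mk (Wf t n L)))⁻¹ • a) ∧
      ∀ e s, (e, s) ∈ Wf t n L → f (e, true) = c e • f (e, false) := by
  classical
  induction L with
  | nil =>
    intro n a
    refine ⟨fun _ => a, ?_, fun e s h => by simp [Wf] at h⟩
    simp [Wf, Path, ← one_eq_mk]
  | cons l L ih =>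
    intro n a
    rcases l with ⟨x, b⟩
    set g : Γ := cond b (c ((t, n), x)) (c ((t, n), x))⁻¹ with hg
    obtain ⟨f', h1, h2⟩ := ih (n + 1) (g⁻¹ • a)
    refine ⟨fun d => if d.1.1.2 = n then (if d.2 = b then a else g⁻¹ • a) else f' d, ?_, ?_⟩
    · refine ⟨by simp, ?_⟩
      have e1 : FreeGroup.lift c (mk (Wf t n ((x, b) :: L))) =
          g * FreeGroup.lift c (mk (Wf t (n + 1) L)) := by
        simp only [Wf, lift_mk, List.map_cons, List.prod_cons, hg]
      rw [e1, mul_inv_rev, mul_smul]
      have e2 : (if (iv (((t, n), x), b)).1.1.2 = n then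
          (if (iv (((t, n), x), b)).2 = b then a else g⁻¹ • a) else f' (iv (((t, n), x), b))) =
          g⁻¹ • a := by simp [iv]
      simp only [] at e2 ⊢
      rw [e2]
      refine path_congr f' _ _ _ _ (fun d hd => ?_) h1
      have := (Wf_mem _ _ _ _ hd).2
      have h3 : ¬ d.1.1.2 = n := by omega
      simp [iv, h3]
    · intro e s h
      rcases List.mem_cons.1 h with h | h
      · obtain ⟨rfl, rfl⟩ := Prod.mk.inj h
        cases s <;> simp [hg]
      · have := (Wf_mem _ _ _ _ h).2
        have h3 : ¬ e.1.2 = n := by simp only [] at this; omega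
        simp only [h3, if_false]
        exact h2 e s h

variable {T : Type} (blk : T → List Lt)

/-- The subdivided dart. -/
def ex (s : T × Bool) : List (SE T × Bool) :=
  cond s.2 (Wf s.1 0 (blk s.1)) (invRev (Wf s.1 0 (blk s.1)))

/-- The subdivision homomorphism. -/
def sg : FreeGroup T →* FreeGroup (SE T) := FreeGroup.lift fun t => mk (Wf t 0 (blk t))

theorem mk_ex (L : List (T × Bool)) : mk (L.flatMap (ex blk)) = sg blk (mk L) := by
  induction L with
  | nil => simp [← one_eq_mk]
  | cons s L ih =>
    rw [List.flatMap_cons, ← mul_mk, ih]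
    rcases s with ⟨t, b⟩
    cases b <;> simp [sg, ex, lift_mk, inv_mk]

theorem map_sg (g : FreeGroup T) :
    FreeGroup.map Prod.snd (sg blk g) = FreeGroup.lift (fun t => mk (blk t)) g := by
  have : (FreeGroup.map Prod.snd).comp (sg blk) = FreeGroup.lift (fun t => mk (blk t)) := by
    ext t
    simp only [MonoidHom.comp_apply, sg, lift_apply_of, map_mk_lb, Wf_lab]
  exact DFunLike.congr_fun this g

theorem ex_iv (s : T × Bool) : ex blk (iv s) = invRev (ex blk s) := by
  rcases s with ⟨t, b⟩
  cases b <;> simp [ex, iv]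

theorem mem_ex {s : T × Bool} {d : SE T × Bool} (h : d ∈ ex blk s) :
    (s.2 = true ∧ d ∈ Wf s.1 0 (blk s.1)) ∨ (s.2 = false ∧ iv d ∈ Wf s.1 0 (blk s.1)) := by
  rcases s with ⟨t, b⟩
  cases b
  · exact Or.inr ⟨rfl, mem_invRev.1 h⟩
  · exact Or.inl ⟨rfl, h⟩

theorem nodup_invRev {E : Type} {L : List (E × Bool)} (h : L.Nodup) : (invRev L).Nodup := by
  rw [invRev_eq, List.nodup_reverse]
  exact h.map fun _ _ => iv_inj

theorem sub_good (L : List (T × Bool)) (h : Good L) : Good (L.flatMap (ex blk)) := by
  constructor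
  · rw [List.nodup_flatMap]
    constructor
    · rintro ⟨t, b⟩ -
      have := (Wf_idx t 0 (blk t)).of_map
      cases b
      · exact nodup_invRev this
      · exact this
    · refine List.Pairwise.imp ?_ h.1
      rintro ⟨t, b⟩ ⟨t', b'⟩ hne d hd hd'
      apply hne
      rcases mem_ex blk hd with ⟨h1, h2⟩ | ⟨h1, h2⟩ <;>
        rcases mem_ex blk hd' with ⟨h3, h4⟩ | ⟨h3, h4⟩ <;>
        have h5 := (Wf_mem _ _ _ _ h2).1 <;> have h6 := (Wf_mem _ _ _ _ h4).1 <;>
        simp only [iv] at h1 h2 h3 h4 h5 h6 <;> subst h1 h3 <;>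
        obtain rfl : t = t' := h5.symm.trans h6
      · rfl
      · exact (Wf_not_iv _ _ _ _ h2 h4).elim
      · exact (Wf_not_iv _ _ _ _ h4 h2).elim
      · rfl
  · intro d hd
    obtain ⟨s, hs, hd⟩ := List.mem_flatMap.1 hd
    refine List.mem_flatMap.2 ⟨iv s, h.2 s hs, ?_⟩
    rw [ex_iv, mem_invRev, iv_iv]; exact hd

theorem sub_pot {Γ Ω : Type} [Group Γ] [MulAction Γ Ω] (c : SE T → Γ)
    (Cs : List (List (T × Bool))) (hg : Good Cs.flatten) (f0 : T × Bool → Ω)
    (h : Pot (fun t => FreeGroup.lift c (mk (Wf t 0 (blk t)))) f0 Cs) :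
    ∃ f : SE T × Bool → Ω, Pot c f (Cs.map (List.flatMap (ex blk))) := by
  choose ft h1 h2 using fun t => Wf_pot c t (blk t) 0 (f0 (t, true))
  have key : ∀ t, (t, true) ∈ Cs.flatten →
      Path (fun d => ft d.1.1.1 d) (f0 (t, true)) (Wf t 0 (blk t)) (f0 (t, false)) := by
    intro t ht
    have h3 := h1 t
    have h4 : (FreeGroup.lift c (mk (Wf t 0 (blk t))))⁻¹ • f0 (t, true) = f0 (t, false) := by
      rw [h.2 t ht, inv_smul_smul]
    rw [h4] at h3
    refine path_congr _ _ _ _ _ (fun d hd => ?_) h3
    have := (Wf_mem _ _ _ _ hd).1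
    simp only [iv, this, and_self]
  have key2 : ∀ s ∈ Cs.flatten,
      Path (fun d => ft d.1.1.1 d) (f0 s) (ex blk s) (f0 (iv s)) := by
    rintro ⟨t, b⟩ hs
    cases b
    · exact path_invRev _ _ _ _ (key t (hg.2 _ hs))
    · exact key t hs
  have key3 : ∀ L : List (T × Bool), (∀ s ∈ L, s ∈ Cs.flatten) → ∀ a b, Path f0 a L b →
      Path (fun d => ft d.1.1.1 d) a (L.flatMap (ex blk)) b := by
    intro L
    induction L with
    | nil => intro _ a b hp; exact hp
    | cons s L ih =>
      intro hL a b hp
      rw [List.flatMap_cons, path_append]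
      exact ⟨f0 (iv s), hp.1 ▸ key2 s (hL s List.mem_cons_self),
        ih (fun x hx => hL x (List.mem_cons_of_mem _ hx)) _ _ hp.2⟩
  refine ⟨fun d => ft d.1.1.1 d, ?_, ?_⟩
  · intro C hC
    obtain ⟨C0, hC0, rfl⟩ := List.mem_map.1 hC
    obtain ⟨a, ha⟩ := h.1 C0 hC0
    exact ⟨a, key3 C0 (fun s hs => List.mem_flatten.2 ⟨C0, hC0, hs⟩) a a ha⟩
  · intro e he
    obtain ⟨C, hC, he⟩ := List.mem_flatten.1 he
    obtain ⟨C0, -, rfl⟩ := List.mem_map.1 hC
    obtain ⟨s, -, he⟩ := List.mem_flatMap.1 he
    rcases mem_ex blk he with ⟨-, h3⟩ | ⟨-, h3⟩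
    · have := (Wf_mem _ _ _ _ h3).1
      simp only [] at this ⊢
      rw [this]; exact h2 _ e _ h3
    · have := (Wf_mem _ _ _ _ h3).1
      simp only [iv] at this h3 ⊢
      rw [this]; exact h2 _ e _ h3

theorem flatten_sub (Cs : List (List (T × Bool))) :
    (Cs.map (List.flatMap (ex blk))).flatten = Cs.flatten.flatMap (ex blk) := by
  induction Cs with
  | nil => rfl
  | cons C Cs ih => simp only [List.map_cons, List.flatten_cons, List.flatMap_append, ih]

end Pool.Agent.MP_61a8e3_al.S

end

section

/-! Folding the face with trivial label. -/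

namespace Pool.Agent.MP_61a8e3_al.S

open FreeGroup

theorem fold_split {E : Type} (lab : E → X) (Q : List (E × Bool)) (hne : Q ≠ [])
    (h : mk (Q.map (lb lab)) = 1) :
    ∃ Q1 Q2 : List (E × Bool), ∃ e e' : E, ∃ b : Bool,
      Q = Q1 ++ (e, b) :: (e', !b) :: Q2 ∧ lab e' = lab e := by
  have hr : Red (Q.map (lb lab)) [] := by
    have h1 : reduce (Q.map (lb lab)) = [] := by
      have := congrArg toWord h
      rwa [toWord_mk, toWord_one] at this
    rw [← h1]; exact reduce.red
  rcases Relation.ReflTransGen.cases_head hr with h0 | ⟨L, hs, -⟩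
  · exact absurd (List.map_eq_nil_iff.1 h0) hne
  · generalize hq : Q.map (lb lab) = W at hs
    obtain ⟨L1, L2, x, b⟩ := hs
    rename_i L1 L2 x b
    obtain ⟨Q1, Q', rfl, -, h2⟩ := List.map_eq_append_iff.1 hq
    obtain ⟨d, Q'', rfl, hd, h3⟩ := List.map_eq_cons_iff.1 h2
    obtain ⟨d', Q2, rfl, hd', -⟩ := List.map_eq_cons_iff.1 h3
    rcases d with ⟨e, c⟩
    rcases d' with ⟨e', c'⟩
    simp only [lb, Prod.mk.injEq] at hd hd'
    obtain ⟨h1, rfl⟩ := hd
    obtain ⟨h4, rfl⟩ := hd'
    exact ⟨Q1, Q2, e, e', c, rfl, h4.trans h1.symm⟩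

open Classical in
/-- The renaming of one fold. -/
noncomputable def ren {E : Type} (e e' : E) (x : E) : E := if x = e' then e else x

theorem ren_left {E : Type} (e e' : E) : ren e e' e = e := by
  unfold ren; split_ifs <;> rfl

theorem ren_right {E : Type} (e e' : E) : ren e e' e' = e := by
  unfold ren; simp

theorem ren_cases {E : Type} (e e' x : E) : ren e e' x = x ∨ (x = e' ∧ ren e e' x = e) := by
  unfold ren; split_ifs with h
  · exact Or.inr ⟨h, rfl⟩
  · exact Or.inl rfl

theorem fold_good {E : Type} (e e' : E) (b : Bool) (R : List (E × Bool))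
    (h : Good ((e, b) :: (e', !b) :: R)) : Good (R.map (lb (ren e e'))) := by
  obtain ⟨hn, hc⟩ := h
  rw [List.nodup_cons, List.nodup_cons] at hn
  obtain ⟨h1, h2, h3⟩ := hn
  have h1' : (e, b) ∉ R := fun h => h1 (List.mem_cons_of_mem _ h)
  constructor
  · refine List.Nodup.map_on ?_ h3
    rintro ⟨x, s⟩ hx ⟨y, t⟩ hy hxy
    simp only [lb, Prod.mk.injEq] at hxy
    obtain ⟨hxy, rfl⟩ := hxy
    have key : ∀ s : Bool, (e, s) ∈ R → (e', s) ∈ R → False := by
      intro s ha hb
      by_cases hs : s = b
      · exact h1' (hs ▸ ha)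
      · have : s = !b := by cases s <;> cases b <;> simp_all
        exact h2 (this ▸ hb)
    rcases ren_cases e e' x with hx1 | ⟨hx1, hx2⟩ <;>
      rcases ren_cases e e' y with hy1 | ⟨hy1, hy2⟩
    · rw [← hx1, ← hy1, hxy]
    · have : x = e := by rw [← hx1, hxy, hy2]
      exact (key s (this ▸ hx) (hy1 ▸ hy)).elim
    · have : y = e := by rw [← hy1, ← hxy, hx2]
      exact (key s (this ▸ hy) (hx1 ▸ hx)).elim
    · rw [hx1, hy1]
  · intro z hz
    obtain ⟨x, hx, rfl⟩ := List.mem_map.1 hz
    rw [← lb_iv]
    have hx' := hc x (List.mem_cons_of_mem _ (List.mem_cons_of_mem _ hx))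
    rcases List.mem_cons.1 hx' with hx1 | hx'
    · have h4 := hc (e', !b) (List.mem_cons_of_mem _ List.mem_cons_self)
      rcases List.mem_cons.1 h4 with h5 | h4
      · exact absurd (by rw [← iv_inj (h5.trans hx1.symm)] at hx; exact hx) h2
      rcases List.mem_cons.1 h4 with h5 | h4
      · exact absurd h5 (iv_ne _)
      refine List.mem_map.2 ⟨_, h4, ?_⟩
      rw [hx1]; simp [lb, iv, ren_left, ren_right]
    rcases List.mem_cons.1 hx' with hx1 | hx'
    · have h4 := hc (e, b) List.mem_cons_self
      rcases List.mem_cons.1 h4 with h5 | h4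
      · exact absurd h5 (iv_ne _)
      rcases List.mem_cons.1 h4 with h5 | h4
      · exact absurd (by rw [← iv_inj (h5.trans hx1.symm)] at hx; exact hx) h1'
      refine List.mem_map.2 ⟨_, h4, ?_⟩
      rw [hx1]; simp [lb, iv, ren_left, ren_right]
    · exact List.mem_map.2 ⟨_, hx', rfl⟩

theorem fold_pot {E Γ Ω : Type} [Group Γ] [MulAction Γ Ω] (e e' : E) (b : Bool)
    (Q1 Q2 : List (E × Bool)) (Cs : List (List (E × Bool)))
    (hg : Good ((Q1 ++ (e, b) :: (e', !b) :: Q2) ++ Cs.flatten)) (c : E → Γ) (f : E × Bool → Ω)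
    (h : Pot (c ∘ ren e e') f ((Q1 ++ (e, b) :: (e', !b) :: Q2) :: Cs)) :
    Pot c f (((Q1 ++ Q2) :: Cs).map (List.map (lb (ren e e')))) := by
  obtain ⟨hcl, hed⟩ := h
  obtain ⟨a, ha⟩ := hcl _ List.mem_cons_self
  obtain ⟨m, hp1, hp2, hp3, hp4⟩ := (path_append f _ _ _ _).1 ha
  have m1 : (e, b) ∈ (Q1 ++ (e, b) :: (e', !b) :: Q2) ++ Cs.flatten := by simp
  have m2 : (e', !b) ∈ (Q1 ++ (e, b) :: (e', !b) :: Q2) ++ Cs.flatten := by simp
  have k1 : f (e, true) = c e • f (e, false) := by
    have := hed e (by
      rw [List.flatten_cons]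
      cases b
      · exact hg.2 _ m1
      · exact m1)
    simpa [ren_left] using this
  have k2 : f (e', true) = c e • f (e', false) := by
    have := hed e' (by
      rw [List.flatten_cons]
      cases b
      · exact m2
      · exact hg.2 _ m2)
    simpa [ren_right] using this
  have k3 : ∀ s, f (e', s) = f (e, s) := by
    cases b
    · have h1 : f (e', true) = f (e, true) := hp3
      have h2 : f (e', false) = f (e, false) := by
        rw [k1, k2] at h1; exact smul_left_cancel _ h1
      intro s; cases s <;> assumption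
    · have h2 : f (e', false) = f (e, false) := hp3
      have h1 : f (e', true) = f (e, true) := by rw [k1, k2, h2]
      intro s; cases s <;> assumption
  have hf : (fun d => f (lb (ren e e') d)) = f := by
    funext d
    rcases d with ⟨x, s⟩
    rcases ren_cases e e' x with h1 | ⟨h1, h2⟩
    · simp only [lb, h1]
    · simp only [lb, h2]; rw [h1, k3]
  constructor
  · intro C hC
    obtain ⟨C0, hC0, rfl⟩ := List.mem_map.1 hC
    simp only [path_map, hf]
    rcases List.mem_cons.1 hC0 with rfl | hC0
    · refine ⟨a, (path_append f _ _ _ _).2 ⟨m, hp1, ?_⟩⟩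
      have : f (iv (e', !b)) = m := by
        rw [← hp2, ← k3]; simp [iv]
      rwa [this] at hp4
    · exact hcl _ (List.mem_cons_of_mem _ hC0)
  · intro x hx
    rw [← List.map_flatten] at hx
    obtain ⟨⟨y, s⟩, hy, hyx⟩ := List.mem_map.1 hx
    simp only [lb, Prod.mk.injEq] at hyx
    obtain ⟨rfl, rfl⟩ := hyx
    have h1 := hed y (by
      simp only [List.flatten_cons, List.mem_append, List.mem_cons] at hy ⊢
      tauto)
    have h2 := congrFun hf (y, true)
    have h3 := congrFun hf (y, false)
    simp only [lb] at h2 h3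
    rw [h2, h3]; exact h1

theorem lb_comp {E E' E'' : Type} (f : E → E') (g : E' → E'') (L : List (E × Bool)) :
    (L.map (lb f)).map (lb g) = L.map (lb (g ∘ f)) := by
  rw [List.map_map]; rfl

theorem fold {E : Type} (lab : E → X) (n : ℕ) : ∀ (Q : List (E × Bool))
    (Cs : List (List (E × Bool))), Q.length ≤ n → Good (Q ++ Cs.flatten) →
    mk (Q.map (lb lab)) = 1 →
    ∃ ρ : E → E, (∀ e, lab (ρ e) = lab e) ∧ mk (Q.map (lb ρ)) = 1 ∧
      Good (Cs.map (List.map (lb ρ))).flatten ∧
      ∀ (Γ Ω : Type) [Group Γ] [MulAction Γ Ω] (c : E → Γ) (f : E × Bool → Ω),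
        Pot (c ∘ ρ) f (Q :: Cs) → Pot c f (Cs.map (List.map (lb ρ))) := by
  have hid : ∀ Cs : List (List (E × Bool)), Cs.map (List.map (lb id)) = Cs := by
    intro Cs
    have : (List.map (lb (id : E → E))) = id := by
      funext L; exact List.map_id L
    rw [this, List.map_id]
  have base : ∀ (Cs : List (List (E × Bool))), Good ([] ++ Cs.flatten) →
      ∃ ρ : E → E, (∀ e, lab (ρ e) = lab e) ∧ mk (([] : List (E × Bool)).map (lb ρ)) = 1 ∧
      Good (Cs.map (List.map (lb ρ))).flatten ∧
      ∀ (Γ Ω : Type) [Group Γ] [MulAction Γ Ω] (c : E → Γ) (f : E × Bool → Ω),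
        Pot (c ∘ ρ) f ([] :: Cs) → Pot c f (Cs.map (List.map (lb ρ))) := by
    intro Cs hg
    refine ⟨id, fun _ => rfl, rfl, by rw [hid]; exact hg, ?_⟩
    intro Γ Ω _ _ c f h
    rw [hid]
    exact ⟨fun C hC => h.1 C (List.mem_cons_of_mem _ hC), h.2⟩
  induction n with
  | zero =>
    intro Q Cs hn hg _
    obtain rfl : Q = [] := List.eq_nil_of_length_eq_zero (by omega)
    exact base Cs hg
  | succ n ih =>
    intro Q Cs hn hg hq
    by_cases hne : Q = []
    · subst hne; exact base Cs hg
    obtain ⟨Q1, Q2, e, e', b, rfl, hl⟩ := fold_split lab Q hne hq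
    have hlab : lab ∘ ren e e' = lab := by
      funext x
      rcases ren_cases e e' x with h1 | ⟨h1, h2⟩
      · simp only [Function.comp, h1]
      · simp only [Function.comp, h2]; rw [h1, hl]
    have hg1 : Good ((e, b) :: (e', !b) :: (Q1 ++ Q2 ++ Cs.flatten)) := by
      have hp : List.Perm ((Q1 ++ (e, b) :: (e', !b) :: Q2) ++ Cs.flatten)
          ((e, b) :: (e', !b) :: (Q1 ++ Q2 ++ Cs.flatten)) := by
        rw [← List.cons_append, ← List.cons_append]
        refine List.Perm.append_right _ ?_
        exact List.perm_middle.trans (List.Perm.cons _ List.perm_middle)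
      exact ⟨hp.nodup_iff.1 hg.1, fun d hd => hp.mem_iff.1 (hg.2 d (hp.mem_iff.2 hd))⟩
    have hg2 := fold_good e e' b _ hg1
    have hmk : ∀ {E' : Type} (g : E → E'), g e' = g e →
        mk ((Q1 ++ (e, b) :: (e', !b) :: Q2).map (lb g)) = mk ((Q1 ++ Q2).map (lb g)) := by
      intro E' g hge
      simp only [List.map_append, List.map_cons, lb, hge]
      exact Quot.sound Red.Step.not
    obtain ⟨ρ, h1, h2, h3, h4⟩ := ih ((Q1 ++ Q2).map (lb (ren e e')))
      (Cs.map (List.map (lb (ren e e'))))
      (by simp only [List.length_map, List.length_append, List.length_cons] at hn ⊢; omega)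
      (by rwa [← List.map_flatten, ← List.map_append])
      (by rw [lb_comp, hlab, ← hmk lab hl]; exact hq)
    have hC : (Cs.map (List.map (lb (ren e e')))).map (List.map (lb ρ)) =
        Cs.map (List.map (lb (ρ ∘ ren e e'))) := by
      rw [List.map_map]
      exact List.map_congr_left fun L _ => lb_comp _ _ L
    refine ⟨ρ ∘ ren e e', fun x => ?_, ?_, hC ▸ h3, ?_⟩
    · simp only [Function.comp]; rw [h1]; exact congrFun hlab x
    · rw [hmk _ (by simp only [Function.comp, ren_left, ren_right]), ← lb_comp]; exact h2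
    · intro Γ Ω _ _ c f h
      rw [← hC]
      exact h4 Γ Ω c f (fold_pot e e' b Q1 Q2 Cs hg (c ∘ ρ) f h)

end Pool.Agent.MP_61a8e3_al.S

end

section

/-! The initial configuration and the folded configuration. -/

namespace Pool.Agent.MP_61a8e3_al.S

open FreeGroup

theorem pc_range {n : ℕ} {g : F} (h : PC n g) : ∃ (u : ℕ → F) (ε : ℕ → Bool),
    g = ((List.range n).map (fun j => u j * mk (rws (ε j)) * (u j)⁻¹)).prod := by
  obtain ⟨l, rfl, h, rfl⟩ := h
  have : ∀ j : ℕ, ∃ (u : F) (ε : Bool), ∀ hj : j < l.length,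
      l[j] = u * mk (rws ε) * u⁻¹ := by
    intro j
    by_cases hj : j < l.length
    · rcases h _ (List.getElem_mem hj) with h1 | h1 <;> obtain ⟨u, hu⟩ := isConj_iff.1 h1
      · exact ⟨u, true, fun _ => by rw [mk_rws]; exact hu.symm⟩
      · exact ⟨u, false, fun _ => by rw [mk_rws]; exact hu.symm⟩
    · exact ⟨1, true, fun h => absurd h hj⟩
  choose u ε hu using this
  refine ⟨u, ε, congrArg List.prod (List.ext_getElem (by simp) fun i h1 h2 => ?_)⟩
  simp only [List.getElem_map, List.getElem_range]
  exact hu i h1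

abbrev T0 := X ⊕ ℕ × Bool

/-- A lollipop. -/
def lol (j : ℕ) : List (T0 × Bool) :=
  [(.inr (j, true), true), (.inr (j, false), true), (.inr (j, true), false)]

def Q0 (n : ℕ) : List (T0 × Bool) :=
  rw0.map (lb Sum.inl) ++ invRev ((List.range n).flatMap lol)

def C0 (j : ℕ) : List (T0 × Bool) := [(.inr (j, false), true)]

theorem mem_lols (n : ℕ) (d : T0 × Bool) : d ∈ (List.range n).flatMap lol ↔
    ∃ j < n, d = (.inr (j, true), true) ∨ d = (.inr (j, false), true) ∨
      d = (.inr (j, true), false) := by
  simp [lol]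

theorem mem_C0 (n : ℕ) (d : T0 × Bool) : d ∈ ((List.range n).map C0).flatten ↔
    ∃ j < n, d = (.inr (j, false), true) := by
  simp only [List.mem_flatten, List.mem_map, List.mem_range]
  constructor
  · rintro ⟨_, ⟨j, hj, rfl⟩, h⟩
    exact ⟨j, hj, by simpa [C0] using h⟩
  · rintro ⟨j, hj, rfl⟩
    exact ⟨_, ⟨j, hj, rfl⟩, by simp [C0]⟩

theorem mem_rw0 : ∀ l : Lt, l ∈ rw0 := by
  rintro ⟨x | x, b⟩ <;> fin_cases x <;> cases b <;> simp [rw0]

theorem mem_inl (d : T0 × Bool) : d ∈ rw0.map (lb Sum.inl) ↔ ∃ x, d.1 = .inl x := by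
  constructor
  · intro h
    obtain ⟨l, -, rfl⟩ := List.mem_map.1 h
    exact ⟨_, rfl⟩
  · rintro ⟨x, hx⟩
    exact List.mem_map.2 ⟨(x, d.2), mem_rw0 _, by rw [lb, ← hx]⟩

theorem init_good (n : ℕ) : Good (Q0 n ++ ((List.range n).map C0).flatten) := by
  constructor
  · rw [List.nodup_append, Q0, List.nodup_append]
    refine ⟨⟨?_, nodup_invRev ?_, ?_⟩, ?_, ?_⟩
    · refine List.Nodup.map ?_ (by decide)
      rintro ⟨x, b⟩ ⟨y, c⟩ h
      simpa [lb] using h
    · rw [List.nodup_flatMap]
      refine ⟨fun j _ => by simp [lol], List.Pairwise.imp ?_ List.nodup_range⟩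
      intro j k hne
      simp [Function.onFun, lol, hne.symm]
    · intro d hd d' hd' h
      subst h
      obtain ⟨x, hx⟩ := (mem_inl d).1 hd
      obtain ⟨j, -, h⟩ := (mem_lols n _).1 (mem_invRev.1 hd')
      rcases d with ⟨t, b⟩
      simp only [] at hx
      subst hx
      simp [iv] at h
    · rw [← List.flatMap_def, List.nodup_flatMap]
      refine ⟨fun j _ => by simp [C0], List.Pairwise.imp ?_ List.nodup_range⟩
      intro j k hne
      simp [Function.onFun, C0, hne.symm]
    · intro d hd d' hd' h
      subst h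
      obtain ⟨j, -, rfl⟩ := (mem_C0 n _).1 hd'
      rcases List.mem_append.1 hd with hd | hd
      · obtain ⟨x, hx⟩ := (mem_inl _).1 hd
        simp at hx
      · obtain ⟨j, -, h⟩ := (mem_lols n _).1 (mem_invRev.1 hd)
        simp [iv] at h
  · intro d hd
    simp only [Q0, List.mem_append, mem_invRev, mem_lols, mem_C0, mem_inl, iv_iv] at hd ⊢
    rcases hd with (hd | ⟨j, hj, hd⟩) | ⟨j, hj, rfl⟩
    · exact Or.inl (Or.inl hd)
    · rcases hd with hd | hd | hd
      · refine Or.inl (Or.inr ⟨j, hj, Or.inr (Or.inr ?_)⟩)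
        rw [← iv_iv d, hd]; rfl
      · exact Or.inr ⟨j, hj, hd⟩
      · refine Or.inl (Or.inr ⟨j, hj, Or.inl ?_⟩)
        rw [← iv_iv d, hd]; rfl
    · exact Or.inl (Or.inr ⟨j, hj, Or.inr (Or.inl rfl)⟩)

theorem mk_flatMap {E ι : Type} (l : List ι) (g : ι → List (E × Bool)) :
    mk (l.flatMap g) = (l.map (fun j => mk (g j))).prod := by
  induction l with
  | nil => rfl
  | cons j l ih => rw [List.flatMap_cons, ← mul_mk, ih, List.map_cons, List.prod_cons]

theorem mk_lol (j : ℕ) : mk (lol j) =
    of (.inr (j, true)) * of (.inr (j, false)) * (of (.inr (j, true)))⁻¹ := rfl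

theorem init_pot {Γ Ω : Type} [Group Γ] [MulAction Γ Ω] (n : ℕ) (c : T0 → Γ) (ω : Ω)
    (h1 : ∀ x, c (.inl x) • ω = ω)
    (h2 : ∀ j < n, (c (.inr (j, true)) * c (.inr (j, false)) * (c (.inr (j, true)))⁻¹) • ω = ω) :
    ∃ f : T0 × Bool → Ω, Pot c f (Q0 n :: (List.range n).map C0) := by
  let f : T0 × Bool → Ω := fun d => match d with
    | (.inl _, _) => ω
    | (.inr (_, true), true) => ω
    | (.inr (j, true), false) => (c (.inr (j, true)))⁻¹ • ω
    | (.inr (j, false), _) => (c (.inr (j, true)))⁻¹ • ω
  have p1 : ∀ L : List Lt, Path f ω (L.map (lb Sum.inl)) ω := by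
    intro L
    induction L with
    | nil => rfl
    | cons l L ih => exact ⟨rfl, ih⟩
  have p2 : ∀ L : List ℕ, Path f ω (L.flatMap lol) ω := by
    intro L
    induction L with
    | nil => rfl
    | cons l L ih => exact ⟨rfl, rfl, rfl, ih⟩
  refine ⟨f, ?_, ?_⟩
  · intro C hC
    rcases List.mem_cons.1 hC with rfl | hC
    · exact ⟨ω, (path_append _ _ _ _ _).2 ⟨ω, p1 _, path_invRev _ _ _ _ (p2 _)⟩⟩
    · obtain ⟨j, -, rfl⟩ := List.mem_map.1 hC
      exact ⟨_, rfl, rfl⟩
  · rintro (x | ⟨j, b⟩) he
    · exact (h1 x).symm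
    · cases b
      · have hj : j < n := by
          simp only [List.flatten_cons, Q0, List.mem_append, mem_invRev, mem_lols, mem_C0,
            mem_inl, iv] at he
          rcases he with (he | ⟨k, hk, he⟩) | ⟨k, hk, he⟩
          · simp at he
          · simp at he
          · obtain rfl : j = k := by simpa using he
            exact hk
        have := h2 j hj
        show (c (.inr (j, true)))⁻¹ • ω = c (.inr (j, false)) • (c (.inr (j, true)))⁻¹ • ω
        rw [mul_smul, mul_smul] at this
        rw [inv_smul_eq_iff, this]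
      · show ω = c (.inr (j, true)) • (c (.inr (j, true)))⁻¹ • ω
        rw [smul_inv_smul]

theorem lift_map {E E' Γ : Type} [Group Γ] (c : E' → Γ) (ρ : E → E') (g : FreeGroup E) :
    FreeGroup.lift c (FreeGroup.map ρ g) = FreeGroup.lift (c ∘ ρ) g := by
  have : (FreeGroup.lift c).comp (FreeGroup.map ρ) = FreeGroup.lift (c ∘ ρ) := by
    ext t; simp
  exact DFunLike.congr_fun this g

theorem exists_final (φ : F →* F) (n : ℕ) (h : PC n (φ rel)) :
    ∃ (E : Type) (lab : E → X) (P : List (List (E × Bool) × FreeGroup E))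
      (ψ : F →* FreeGroup E), P.length = n ∧ Final φ lab P ψ := by
  obtain ⟨u, ε, hu⟩ := pc_range h
  let blk : T0 → List Lt := Sum.elim (fun x => (φ (of x)).toWord)
    (fun p => cond p.2 (u p.1).toWord (rws (ε p.1)))
  have hτ : ∀ g : F, FreeGroup.lift (fun t => mk (blk t)) (FreeGroup.map Sum.inl g) = φ g := by
    intro g
    have : (FreeGroup.lift (fun t => mk (blk t))).comp (FreeGroup.map Sum.inl) = φ := by
      ext x : 1; simp [blk, mk_toWord]
    exact DFunLike.congr_fun this g
  have hQ : mk (Q0 n) = FreeGroup.map Sum.inl rel *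
      (((List.range n).map (fun j => mk (lol j))).prod)⁻¹ := by
    rw [Q0, ← mul_mk, ← inv_mk, mk_flatMap, ← map_mk_lb, mk_rw0]
  have hg := sub_good blk _ (init_good n)
  rw [List.flatMap_append, ← flatten_sub] at hg
  obtain ⟨ρ, r1, r2, r3, r4⟩ := fold (Prod.snd : SE T0 → X) _ _ _ le_rfl hg (by
    rw [← map_mk_lb, mk_ex, map_sg, hQ, _root_.map_mul, hτ,
      _root_.map_inv, hu, map_list_prod, List.map_map, mul_inv_eq_one]
    refine congrArg List.prod (List.map_congr_left fun j _ => ?_)
    simp [mk_lol, blk, mk_toWord])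
  have hρ : ∀ g, FreeGroup.map Prod.snd (FreeGroup.map ρ g) =
      FreeGroup.map (Prod.snd : SE T0 → X) g := by
    intro g
    rw [FreeGroup.map.comp]
    congr 2
    funext e; exact r1 e
  have hP : ((List.range n).map (fun j => (((C0 j).flatMap (ex blk)).map (lb ρ),
      FreeGroup.map ρ (sg blk (mk (lol j)))))).map Prod.fst =
      (((List.range n).map C0).map (List.flatMap (ex blk))).map (List.map (lb ρ)) := by
    simp only [List.map_map]; rfl
  refine ⟨SE T0, Prod.snd, (List.range n).map (fun j => (((C0 j).flatMap (ex blk)).map (lb ρ),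
      FreeGroup.map ρ (sg blk (mk (lol j))))),
    (FreeGroup.map ρ).comp ((sg blk).comp (FreeGroup.map Sum.inl)), by simp,
    ⟨hP ▸ r3, ?_⟩, ?_, ?_, ?_, ?_⟩
  · intro C hC
    obtain ⟨p, hp, rfl⟩ := List.mem_map.1 hC
    obtain ⟨j, -, rfl⟩ := List.mem_map.1 hp
    refine ⟨ε j, ?_⟩
    have : (Prod.snd : SE T0 → X) ∘ ρ = Prod.snd := funext r1
    simp only [lb_comp, this, C0, List.flatMap_cons, List.flatMap_nil, List.append_nil, ex,
      cond_true, Wf_lab]
    exact List.IsRotated.refl _
  · intro p hp
    obtain ⟨j, -, rfl⟩ := List.mem_map.1 hp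
    simp only []
    rw [← map_mk_lb, mk_ex]
    refine MonoidHom.map_isConj _ (MonoidHom.map_isConj _ ?_)
    exact isConj_iff.2 ⟨of (.inr (j, true)), rfl⟩
  · rw [← map_mk_lb, mk_ex, hQ, _root_.map_mul, _root_.map_mul, _root_.map_inv, _root_.map_inv,
      mul_inv_eq_one] at r2
    rw [MonoidHom.comp_apply, MonoidHom.comp_apply, r2]
    simp only [map_list_prod, List.map_map]
    rfl
  · intro x
    simp only [MonoidHom.comp_apply]
    rw [hρ, map_sg, hτ]
  · intro Γ Ω _ _ c ω h1 h2
    obtain ⟨f0, hf0⟩ := init_pot n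
      (fun t => FreeGroup.lift (c ∘ ρ) (mk (Wf t 0 (blk t)))) ω
      (fun x => by
        have := h1 (of x)
        simpa only [MonoidHom.comp_apply, lift_map, sg, FreeGroup.map.of, lift_apply_of]
          using this)
      (fun j hj => by
        have := h2 _ (List.mem_map.2 ⟨j, List.mem_range.2 hj, rfl⟩)
        simpa only [lift_map, sg, mk_lol, _root_.map_mul, _root_.map_inv, lift_apply_of]
          using this)
    obtain ⟨f, hf⟩ := sub_pot blk (c ∘ ρ) (Q0 n :: (List.range n).map C0) (init_good n) f0 hf0
    exact ⟨f, hP ▸ r4 Γ Ω c f hf⟩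

end Pool.Agent.MP_61a8e3_al.S

end

section

/-! Free groups of finite rank are Hopfian. -/

namespace Pool.Agent.MP_61a8e3_al.S

open FreeGroup

theorem SHopf_perm {α : Type} (B : Set (FreeGroup α)) (hB : B.Finite) (x : α) :
    ∃ σ : Equiv.Perm B, ∀ (g : B) (h : of x * g.1 ∈ B), σ g = ⟨of x * g.1, h⟩ := by
  have : Finite B := hB
  obtain ⟨σ, hσ⟩ := Equiv.Perm.exists_extending_pair
    (fun g : {g : B // of x * g.1 ∈ B} => g.1)
    (fun g : {g : B // of x * g.1 ∈ B} => (⟨of x * g.1.1, g.2⟩ : B))
    Subtype.val_injective (by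
      intro a b hab
      have h1 : of x * a.1.1 = of x * b.1.1 := congrArg Subtype.val hab
      exact Subtype.ext (Subtype.ext (mul_left_cancel h1)))
  exact ⟨σ, fun g h => hσ ⟨g, h⟩⟩

theorem SHopf_res {α : Type} (w : FreeGroup α) (hw : w ≠ 1) :
    ∃ (Q : Type) (_ : Group Q) (_ : Finite Q) (η : FreeGroup α →* Q), η w ≠ 1 := by
  classical
  obtain ⟨L, rfl⟩ : ∃ L, mk L = w := ⟨w.toWord, mk_toWord⟩
  let B : Set (FreeGroup α) := (fun s => mk s) '' {s | s ∈ L.tails}
  have hB : B.Finite := (List.finite_toSet L.tails).image _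
  have : Finite B := hB
  have hmem : ∀ s, s <:+ L → mk s ∈ B := fun s hs => ⟨s, (List.mem_tails s L).2 hs, rfl⟩
  choose σ hσ using SHopf_perm B hB
  have h1 : (1 : FreeGroup α) ∈ B := hmem [] List.nil_suffix
  have key : ∀ s (hs : s <:+ L), (FreeGroup.lift σ (mk s)) ⟨1, h1⟩ = ⟨mk s, hmem s hs⟩ := by
    intro s
    induction s with
    | nil => intro hs; rfl
    | cons d s ih =>
      intro hs
      have hs' : s <:+ L := (List.suffix_cons d s).trans hs
      have e : mk (d :: s) = mk [d] * mk s := by rw [mul_mk]; rfl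
      rcases d with ⟨x, b⟩
      cases b with
      | true =>
        have e2 : mk ((x, true) :: s) = of x * mk s := e
        have hm : of x * mk s ∈ B := e2 ▸ hmem _ hs
        have : (FreeGroup.lift σ (mk ((x, true) :: s))) ⟨1, h1⟩ = ⟨of x * mk s, hm⟩ := by
          rw [e2, _root_.map_mul, Equiv.Perm.mul_apply, ih hs', FreeGroup.lift_apply_of]
          exact hσ x ⟨mk s, hmem s hs'⟩ hm
        rw [this]
        exact Subtype.ext e2.symm
      | false =>
        have e2 : mk ((x, false) :: s) = (of x)⁻¹ * mk s := by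
          rw [e]; rfl
        have e3 : of x * mk ((x, false) :: s) = mk s := by rw [e2]; group
        have hm : of x * mk ((x, false) :: s) ∈ B := e3 ▸ hmem _ hs'
        have h4 := hσ x ⟨mk ((x, false) :: s), hmem _ hs⟩ hm
        have h5 : (FreeGroup.lift σ (mk ((x, false) :: s))) = (σ x)⁻¹ * FreeGroup.lift σ (mk s) := by
          rw [e2, _root_.map_mul, _root_.map_inv, FreeGroup.lift_apply_of]
        rw [h5, Equiv.Perm.mul_apply, ih hs', Equiv.Perm.inv_eq_iff_eq, h4]
        exact Subtype.ext e3.symm
  refine ⟨Equiv.Perm B, inferInstance, inferInstance, FreeGroup.lift σ, fun h => hw ?_⟩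
  have h2 := key L List.suffix_rfl
  rw [h] at h2
  exact (congrArg Subtype.val h2).symm

theorem hopf {α : Type} [Finite α] (φ : FreeGroup α →* FreeGroup α)
    (h : Function.Surjective φ) : Function.Injective φ := by
  rw [injective_iff_map_eq_one]
  intro w hw
  by_contra hne
  obtain ⟨Q, _, _, η, hη⟩ := SHopf_res w hne
  have : Finite (FreeGroup α →* Q) := Finite.of_equiv _ (FreeGroup.lift (α := α) (β := Q))
  have hinj : Function.Injective (fun ψ : FreeGroup α →* Q => ψ.comp φ) := by
    intro a b hab
    ext x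
    obtain ⟨y, hy⟩ := h (of x)
    have := DFunLike.congr_fun hab y
    simpa [hy] using this
  obtain ⟨ψ, hψ⟩ := Finite.injective_iff_surjective.1 hinj η
  apply hη
  rw [← hψ]
  simp [hw]

end Pool.Agent.MP_61a8e3_al.S

end

section

/-! A lift of an automorphism of the surface group does not kill the relator. -/

namespace Pool.Agent.MP_61a8e3_al.S

open FreeGroup

/-- The Heisenberg group modulo two. -/
@[ext] structure SHeis_H where
  a : ZMod 2
  b : ZMod 2
  c : ZMod 2

instance : Mul SHeis_H := ⟨fun u v => ⟨u.a + v.a, u.b + v.b, u.c + v.c + u.a * v.b⟩⟩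
instance : One SHeis_H := ⟨⟨0, 0, 0⟩⟩
instance : Inv SHeis_H := ⟨fun u => ⟨-u.a, -u.b, -u.c + u.a * u.b⟩⟩

@[simp] theorem SHeis_mul_a (u v : SHeis_H) : (u * v).a = u.a + v.a := rfl
@[simp] theorem SHeis_mul_b (u v : SHeis_H) : (u * v).b = u.b + v.b := rfl
@[simp] theorem SHeis_mul_c (u v : SHeis_H) : (u * v).c = u.c + v.c + u.a * v.b := rfl
@[simp] theorem SHeis_one_a : (1 : SHeis_H).a = 0 := rfl
@[simp] theorem SHeis_one_b : (1 : SHeis_H).b = 0 := rfl
@[simp] theorem SHeis_one_c : (1 : SHeis_H).c = 0 := rfl
@[simp] theorem SHeis_inv_a (u : SHeis_H) : u⁻¹.a = -u.a := rfl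
@[simp] theorem SHeis_inv_b (u : SHeis_H) : u⁻¹.b = -u.b := rfl
@[simp] theorem SHeis_inv_c (u : SHeis_H) : u⁻¹.c = -u.c + u.a * u.b := rfl

instance : Group SHeis_H := Group.ofLeftAxioms
  (fun u v w => by ext <;> simp <;> ring)
  (fun u => by ext <;> simp)
  (fun u => by
    ext <;> simp only [SHeis_mul_a, SHeis_mul_b, SHeis_mul_c, SHeis_inv_a, SHeis_inv_b,
      SHeis_inv_c, SHeis_one_a, SHeis_one_b, SHeis_one_c] <;> ring)

/-- The first coordinate. -/
def SHeis_A : SHeis_H →* Multiplicative (ZMod 2) where
  toFun u := Multiplicative.ofAdd u.a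
  map_one' := rfl
  map_mul' _ _ := rfl

/-- The second coordinate. -/
def SHeis_B : SHeis_H →* Multiplicative (ZMod 2) where
  toFun u := Multiplicative.ofAdd u.b
  map_one' := rfl
  map_mul' _ _ := rfl

theorem SHeis_rel {G : Type*} [Group G] (f : F →* G) :
    f rel = (f (of (.inl 0)) * f (of (.inr 0)) * (f (of (.inl 0)))⁻¹ * (f (of (.inr 0)))⁻¹) *
      ((f (of (.inl 1)) * f (of (.inr 1)) * (f (of (.inl 1)))⁻¹ * (f (of (.inr 1)))⁻¹) *
      (f (of (.inl 2)) * f (of (.inr 2)) * (f (of (.inl 2)))⁻¹ * (f (of (.inr 2)))⁻¹)) := by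
  simp only [rel, List.ofFn_succ, List.ofFn_zero, List.prod_cons, List.prod_nil,
    MonoidHom.map_mul, MonoidHom.map_inv, mul_one]
  rfl

/-- The character dual to the generator `x0`. -/
def SHeis_chi (x0 : X) : Pi →* Multiplicative (ZMod 2) :=
  PresentedGroup.toGroup (f := fun x => Multiplicative.ofAdd (if x = x0 then 1 else 0)) (by
    intro r hr
    rw [Set.mem_singleton_iff.1 hr, SHeis_rel]
    simp)

theorem SHeis_chi_of (x0 x : X) :
    SHeis_chi x0 (pr (of x)) = Multiplicative.ofAdd (if x = x0 then 1 else 0) :=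
  PresentedGroup.toGroup.of _

theorem heis (θ : MulAut Pi) (φ : F →* F) (h : ∀ x, pr (φ x) = θ (pr x)) : φ rel ≠ 1 := by
  intro h0
  let l : F →* Multiplicative (ZMod 2) :=
    ((SHeis_chi (.inl 0)).comp θ.symm.toMonoidHom).comp pr
  let m : F →* Multiplicative (ZMod 2) :=
    ((SHeis_chi (.inr 0)).comp θ.symm.toMonoidHom).comp pr
  let η : F →* SHeis_H := FreeGroup.lift fun x => ⟨(l (of x)).toAdd, (m (of x)).toAdd, 0⟩
  have hA : SHeis_A.comp η = l := FreeGroup.ext_hom _ _ fun x => by simp [η, SHeis_A]
  have hB : SHeis_B.comp η = m := FreeGroup.ext_hom _ _ fun x => by simp [η, SHeis_B]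
  have ha : ∀ x, (η (φ (of x))).a = if x = .inl 0 then 1 else 0 := fun x => by
    have h1 : SHeis_A (η (φ (of x))) = l (φ (of x)) := DFunLike.congr_fun hA _
    have h2 : l (φ (of x)) = SHeis_chi (.inl 0) (pr (of x)) := by
      change SHeis_chi (.inl 0) (θ.symm (pr (φ (of x)))) = _
      rw [h, MulEquiv.symm_apply_apply]
    rw [h2, SHeis_chi_of] at h1
    exact Multiplicative.ofAdd.injective h1
  have hb : ∀ x, (η (φ (of x))).b = if x = .inr 0 then 1 else 0 := fun x => by
    have h1 : SHeis_B (η (φ (of x))) = m (φ (of x)) := DFunLike.congr_fun hB _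
    have h2 : m (φ (of x)) = SHeis_chi (.inr 0) (pr (of x)) := by
      change SHeis_chi (.inr 0) (θ.symm (pr (φ (of x)))) = _
      rw [h, MulEquiv.symm_apply_apply]
    rw [h2, SHeis_chi_of] at h1
    exact Multiplicative.ofAdd.injective h1
  have h3 := SHeis_rel (η.comp φ)
  have h4 : (η.comp φ) rel = 1 := by
    rw [MonoidHom.comp_apply, h0]
    exact η.map_one
  rw [h4] at h3
  have h5 := congrArg SHeis_H.c h3
  simp [ha, hb] at h5
  revert h5
  generalize (η (φ (of (Sum.inl 0)))).c = c1
  generalize (η (φ (of (Sum.inr 0)))).c = c2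
  generalize (η (φ (of (Sum.inl 1)))).c = c3
  generalize (η (φ (of (Sum.inr 1)))).c = c4
  generalize (η (φ (of (Sum.inl 2)))).c = c5
  generalize (η (φ (of (Sum.inr 2)))).c = c6
  revert c1 c2 c3 c4 c5 c6
  decide

end Pool.Agent.MP_61a8e3_al.S

end

section

namespace Pool.Agent.MP_61a8e3_al.S

open FreeGroup

theorem SDipole_rot_eq {α : Type} {x : α} {A B : List α} (hx : x ∉ A)
    (h : (x :: A) ~r (x :: B)) : A = B := by
  obtain ⟨n, hn, h⟩ := List.isRotated_iff_mod.1 h
  rw [List.rotate_eq_drop_append_take hn] at h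
  cases n with
  | zero => simpa using h
  | succ k =>
    simp only [List.drop_succ_cons, List.take_succ_cons] at h
    rcases hd : A.drop k with _ | ⟨y, ys⟩
    · rw [hd] at h
      have h2 : A.take k = A := by
        conv_rhs => rw [← List.take_append_drop k A, hd, List.append_nil]
      simpa [h2] using h
    · rw [hd] at h
      have hy : y = x := by
        simp only [List.cons_append, List.cons.injEq] at h
        exact h.1
      exact absurd (List.mem_of_mem_drop (i := k) (by rw [hd, hy]; simp)) hx

theorem SDipole_invRev_rot {E : Type} {L L' : List (E × Bool)} (h : L ~r L') :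
    invRev L ~r invRev L' := by
  rw [invRev_eq, invRev_eq]
  exact (h.map iv).reverse

theorem SDipole_invRev_rws (b : Bool) : invRev (rws b) = rws (!b) := by
  cases b
  · simp [rws]
  · simp [rws]

theorem SDipole_nodup (b : Bool) : (rws b).Nodup := by
  cases b <;> decide

theorem SDipole_not_rot (b : Bool) : ¬ (rws b ~r rws (!b)) := by
  cases b <;> decide

theorem SDipole_rot_of_mem {α : Type} {x : α} {C : List α} (h : x ∈ C) :
    ∃ A, C ~r (x :: A) := by
  obtain ⟨s, t, rfl⟩ := List.append_of_mem h
  exact ⟨t ++ s, by simpa using List.isRotated_append (l := s) (l' := x :: t)⟩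

theorem SDipole_mk_cons {E : Type} (x : E × Bool) (L : List (E × Bool)) :
    mk (x :: L) = mk [x] * mk L := by
  rw [mul_mk]; rfl

theorem SDipole_mk_iv {E : Type} (x : E × Bool) : mk [iv x] = (mk [x])⁻¹ := by
  rw [inv_mk]; rfl

theorem SDipole_agree {E : Type} (lab : E → X) (a : FreeGroup E →* F) (e : E)
    (ha : ∀ e', e' ≠ e → a (of e') = of (lab e')) (L : List (E × Bool))
    (hL : ∀ x ∈ L, x.1 ≠ e) : a (mk L) = mk (L.map (lb lab)) := by
  induction L with
  | nil => exact _root_.map_one a
  | cons x L ih =>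
    rw [List.map_cons, SDipole_mk_cons, SDipole_mk_cons (lb lab x), _root_.map_mul,
      ih (fun y hy => hL y (List.mem_cons_of_mem _ hy))]
    congr 1
    have hx := ha x.1 (hL x List.mem_cons_self)
    rcases x with ⟨e', _ | _⟩
    · have h1 : mk [(e', false)] = (of e')⁻¹ := SDipole_mk_iv (e', true)
      have h2 : mk [lb lab (e', false)] = (of (lab e'))⁻¹ := SDipole_mk_iv (lab e', true)
      rw [h1, h2, _root_.map_inv, hx]
    · exact hx

theorem SDipole_prod_filter {G : Type} [Group G] [DecidableEq G] (l : List G) :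
    (l.filter (fun z => z ≠ 1)).prod = l.prod := by
  induction l with
  | nil => rfl
  | cons x l ih =>
    by_cases hx : x = 1
    · simpa [hx] using ih
    · simp only [ne_eq, decide_not] at ih
      simp [hx, ih]

theorem SDipole_edge {E : Type} {d x : E × Bool} (h : x.1 = d.1) : x = d ∨ x = iv d := by
  rcases x with ⟨e, b⟩
  rcases d with ⟨e', b'⟩
  simp only at h
  subst h
  cases b <;> cases b' <;> simp [iv]

theorem SDipole_pr_one {L : List Lt} {b : Bool} (h : L ~r rws b) : pr (mk L) = 1 := by
  have h1 := pr.map_isConj (isConj_mk_of_isRotated h)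
  have h2 : pr (mk (rws b)) = 1 := by
    rw [mk_rws]
    cases b
    · simp only [cond_false, _root_.map_inv, pr_rel, inv_one]
    · exact pr_rel
  rw [h2] at h1
  exact isConj_one_left.1 h1

theorem dipole {E : Type} {φ : F →* F} {lab : E → X} {P : List (List (E × Bool) × FreeGroup E)}
    {ψ : F →* FreeGroup E} (h : Final φ lab P ψ) (hd : Dipole lab (P.map Prod.fst)) :
    ∃ φ' : F →* F, (∀ x, pr (φ' x) = pr (φ x)) ∧ ∃ n < P.length, PC n (φ' rel) := by
  classical
  obtain ⟨C, hC, C', hC', b, d, hCb, hCb', hdC, hdC'⟩ := hd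
  have hne : C ≠ C' := by
    rintro rfl
    exact SDipole_not_rot b (hCb.symm.trans hCb')
  obtain ⟨hnd, hpw⟩ := List.nodup_flatten.1 h.faces.good.1
  have hdis : ∀ D ∈ P.map Prod.fst, ∀ D' ∈ P.map Prod.fst, D ≠ D' → List.Disjoint D D' :=
    haveI : Std.Symm (List.Disjoint : List (E × Bool) → List (E × Bool) → Prop) :=
      ⟨fun _ _ hh => List.Disjoint.symm hh⟩
    fun D hD D' hD' hn => hpw.forall hD hD' hn
  obtain ⟨A, hA⟩ := SDipole_rot_of_mem hdC
  obtain ⟨B, hB⟩ := SDipole_rot_of_mem hdC'
  have hAn : d ∉ A := (List.nodup_cons.1 (hA.nodup_iff.1 (hnd C hC))).1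
  have hBn : iv d ∉ B := (List.nodup_cons.1 (hB.nodup_iff.1 (hnd C' hC'))).1
  have hAe : ∀ x ∈ A, x.1 ≠ d.1 := by
    intro x hx he
    rcases SDipole_edge he with rfl | rfl
    · exact hAn hx
    · exact hdis C hC C' hC' hne (hA.mem_iff.2 (List.mem_cons_of_mem _ hx)) hdC'
  have hBe : ∀ x ∈ B, x.1 ≠ d.1 := by
    intro x hx he
    rcases SDipole_edge he with rfl | rfl
    · exact hdis C hC C' hC' hne hdC (hB.mem_iff.2 (List.mem_cons_of_mem _ hx))
    · exact hBn hx
  have hLA : (lb lab d :: A.map (lb lab)) ~r rws b := (hA.map (lb lab)).symm.trans hCb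
  have hLB : (iv (lb lab d) :: B.map (lb lab)) ~r rws (!b) := (hB.map (lb lab)).symm.trans hCb'
  have hLA' : (iv (lb lab d) :: invRev (A.map (lb lab))) ~r rws (!b) := by
    have h1 := SDipole_invRev_rot hLA
    rw [SDipole_invRev_rws, invRev_cons] at h1
    exact (List.isRotated_append (l := [iv (lb lab d)]) (l' := invRev (A.map (lb lab)))).trans h1
  have hBA : B.map (lb lab) = invRev (A.map (lb lab)) :=
    SDipole_rot_eq (List.nodup_cons.1 (hLB.nodup_iff.2 (SDipole_nodup _))).1
      (hLB.trans hLA'.symm)
  let g : F := cond d.2 (mk (A.map (lb lab)))⁻¹ (mk (A.map (lb lab)))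
  let a : FreeGroup E →* F := FreeGroup.lift (fun e' => if e' = d.1 then g else of (lab e'))
  have ha : ∀ e', e' ≠ d.1 → a (of e') = of (lab e') := by
    intro e' he'
    simp [a, he']
  have hae : a (of d.1) = g := by simp [a]
  have had : a (mk [d]) = (mk (A.map (lb lab)))⁻¹ := by
    rcases d with ⟨e, _ | _⟩
    · have h1 : mk [(e, false)] = (of e)⁻¹ := SDipole_mk_iv (e, true)
      rw [h1, _root_.map_inv, hae]
      rfl
    · exact hae
  have hpr : ∀ y, pr (a y) = pr (FreeGroup.map lab y) := by
    have : pr.comp a = pr.comp (FreeGroup.map lab) := by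
      refine FreeGroup.ext_hom _ _ (fun e' => ?_)
      simp only [MonoidHom.comp_apply, FreeGroup.map.of]
      by_cases he' : e' = d.1
      · subst he'
        have h1 := SDipole_pr_one hLA
        rw [SDipole_mk_cons, _root_.map_mul] at h1
        rw [hae]
        rcases d with ⟨e, _ | _⟩
        · have h2 : mk [lb lab (e, false)] = (of (lab e))⁻¹ := SDipole_mk_iv (lab e, true)
          rw [h2, _root_.map_inv] at h1
          exact (inv_mul_eq_one.1 h1).symm
        · have h2 : mk [lb lab (e, true)] = of (lab e) := rfl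
          rw [h2] at h1
          show pr (mk (A.map (lb lab)))⁻¹ = pr (of (lab e))
          rw [_root_.map_inv]
          exact (eq_inv_of_mul_eq_one_left h1).symm
      · rw [ha e' he']
    exact fun y => DFunLike.congr_fun this y
  have hone : ∀ p ∈ P, p.1 = C ∨ p.1 = C' → a p.2 = 1 := by
    intro p hp hc
    have h1 := a.map_isConj (h.conj p hp)
    have h2 : a (mk p.1) = 1 := by
      rcases hc with hc | hc
      · have h3 := a.map_isConj (isConj_mk_of_isRotated hA)
        rw [SDipole_mk_cons, _root_.map_mul, had, SDipole_agree lab a d.1 ha A hAe,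
          inv_mul_cancel] at h3
        rw [hc]
        exact isConj_one_left.1 h3
      · have h3 := a.map_isConj (isConj_mk_of_isRotated hB)
        rw [SDipole_mk_cons, _root_.map_mul, SDipole_mk_iv, _root_.map_inv, had,
          SDipole_agree lab a d.1 ha B hBe, hBA, ← inv_mk, inv_inv, mul_inv_cancel] at h3
        rw [hc]
        exact isConj_one_left.1 h3
    rw [h2] at h1
    exact isConj_one_right.1 h1
  refine ⟨a.comp ψ, fun x => by rw [MonoidHom.comp_apply, hpr, h.lifts], ?_⟩
  refine ⟨(((P.map Prod.snd).map a).filter (fun z => z ≠ 1)).length, ?_, _, rfl, ?_, ?_⟩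
  · obtain ⟨p, hp, hpC⟩ := List.mem_map.1 hC
    have : (((P.map Prod.snd).map a).filter (fun z => z ≠ 1)).length <
        ((P.map Prod.snd).map a).length := by
      refine List.length_filter_lt_length_iff_exists.2 ⟨a p.2, ?_, ?_⟩
      · exact List.mem_map_of_mem (List.mem_map_of_mem hp)
      · simp [hone p hp (Or.inl hpC)]
    simpa using this
  · intro z hz
    obtain ⟨hz, hz1⟩ := List.mem_filter.1 hz
    obtain ⟨w, hw, rfl⟩ := List.mem_map.1 hz
    obtain ⟨p, hp, rfl⟩ := List.mem_map.1 hw
    have hz1 : a p.2 ≠ 1 := by simpa using hz1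
    have hpm : p.1 ∈ P.map Prod.fst := List.mem_map_of_mem hp
    have h1 : p.1 ≠ C := fun hc => hz1 (hone p hp (Or.inl hc))
    have h2 : p.1 ≠ C' := fun hc => hz1 (hone p hp (Or.inr hc))
    have hpe : ∀ x ∈ p.1, x.1 ≠ d.1 := by
      intro x hx he
      rcases SDipole_edge he with rfl | rfl
      · exact hdis _ hpm C hC h1 hx hdC
      · exact hdis _ hpm C' hC' h2 hx hdC'
    obtain ⟨b', hb'⟩ := h.faces.labC _ hpm
    have h3 := a.map_isConj (h.conj p hp)
    rw [SDipole_agree lab a d.1 ha p.1 hpe] at h3
    have h4 := (isConj_mk_of_isRotated hb').symm.trans h3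
    rw [mk_rws] at h4
    cases b'
    · exact Or.inr h4
    · exact Or.inl h4
  · rw [SDipole_prod_filter, MonoidHom.comp_apply, h.prod, map_list_prod]

end Pool.Agent.MP_61a8e3_al.S

end

section

namespace Pool.Agent.MP_61a8e3_al.S

open FreeGroup

/-- The cyclic successor of `iv l` in the word `rws b`. -/
def SWalk_nu (b : Bool) (l : Lt) : Lt :=
  (rws b).getD (((rws b).idxOf (iv l) + 1) % 12) l

theorem SWalk_len (b : Bool) : (rws b).length = 12 := by
  cases b <;> rfl

theorem SWalk_succ : ∀ (b : Bool) (k : Fin 12) (l l2 : Lt),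
    ((rws b).rotate k).take 2 = [l, l2] → l2 = SWalk_nu b (iv l) := by
  decide +kernel

theorem SWalk_trans : ∀ (b : Bool) (l l' : Lt), ∃ k : Fin 12, (SWalk_nu b)^[k] l = l' := by
  decide +kernel

theorem SWalk_step {E : Type} {lab : E → X} {Cs : List (List (E × Bool))} (h : Faces lab Cs)
    (hd : ¬ Dipole lab Cs) (b : Bool) {C : List (E × Bool)} (hC : C ∈ Cs)
    (hb : C.map (lb lab) ~r rws b) {d : E × Bool} (hdC : d ∈ C) :
    ∃ C' ∈ Cs, C'.map (lb lab) ~r rws b ∧ ∃ d' ∈ C', lb lab d' = SWalk_nu b (lb lab d) ∧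
      ∀ (Ω : Type) (f : E × Bool → Ω), Closed f Cs → f d = f d' := by
  have h1 : iv d ∈ Cs.flatten := h.good.2 d (List.mem_flatten.2 ⟨C, hC, hdC⟩)
  obtain ⟨C', hC', hdC'⟩ := List.mem_flatten.1 h1
  obtain ⟨b', hb'⟩ := h.labC C' hC'
  have hbb : b' = b := by
    by_contra hne
    have : b' = !b := by cases b <;> cases b' <;> simp_all
    exact hd ⟨C, hC, C', hC', b, d, hb, this ▸ hb', hdC, hdC'⟩
  subst hbb
  refine ⟨C', hC', hb', ?_⟩
  obtain ⟨A, B, hAB⟩ := List.append_of_mem hdC'
  have hrot : C' ~r iv d :: (B ++ A) := by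
    rw [hAB]
    exact List.isRotated_append
  have hlen : (iv d :: (B ++ A)).length = 12 := by
    rw [← hrot.perm.length_eq, ← List.length_map (f := lb lab), hb'.perm.length_eq, SWalk_len]
  obtain ⟨d2, B', hB'⟩ : ∃ d2 B', B ++ A = d2 :: B' := by
    rcases hBA : B ++ A with _ | ⟨d2, B'⟩
    · rw [hBA] at hlen; simp at hlen
    · exact ⟨d2, B', rfl⟩
  rw [hB'] at hrot
  refine ⟨d2, hrot.symm.mem_iff.1 (by simp), ?_, ?_⟩
  · have h2 : rws b' ~r (iv d :: d2 :: B').map (lb lab) := hb'.symm.trans (hrot.map _)
    obtain ⟨n, hn⟩ := h2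
    have h3 : (rws b').rotate (n % 12) = (iv d :: d2 :: B').map (lb lab) := by
      rw [← hn, ← SWalk_len b', List.rotate_mod]
    have h4 := SWalk_succ b' ⟨n % 12, Nat.mod_lt _ (by norm_num)⟩ (lb lab (iv d)) (lb lab d2)
      (by rw [h3]; rfl)
    rw [h4, lb_iv, iv_iv]
  · intro Ω f hf
    obtain ⟨a, ha⟩ := path_rotate f hrot (hf C' hC')
    have h5 := ha.2.1
    rw [iv_iv] at h5
    exact h5.symm

theorem SWalk_iter {E : Type} {lab : E → X} {Cs : List (List (E × Bool))} (h : Faces lab Cs)
    (hd : ¬ Dipole lab Cs) (b : Bool) {C : List (E × Bool)} (hC : C ∈ Cs)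
    (hb : C.map (lb lab) ~r rws b) {d : E × Bool} (hdC : d ∈ C) (k : ℕ) :
    ∃ C' ∈ Cs, C'.map (lb lab) ~r rws b ∧ ∃ d' ∈ C', lb lab d' = (SWalk_nu b)^[k] (lb lab d) ∧
      ∀ (Ω : Type) (f : E × Bool → Ω), Closed f Cs → f d = f d' := by
  induction k with
  | zero => exact ⟨C, hC, hb, d, hdC, rfl, fun _ _ _ => rfl⟩
  | succ k ih =>
    obtain ⟨C1, hC1, hb1, d1, hd1, hl1, hf1⟩ := ih
    obtain ⟨C2, hC2, hb2, d2, hd2, hl2, hf2⟩ := SWalk_step h hd b hC1 hb1 hd1
    refine ⟨C2, hC2, hb2, d2, hd2, ?_, fun Ω f hf => (hf1 Ω f hf).trans (hf2 Ω f hf)⟩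
    rw [hl2, hl1, Function.iterate_succ_apply']

theorem walk {E : Type} {lab : E → X} {Cs : List (List (E × Bool))} (h : Faces lab Cs)
    (hd : ¬ Dipole lab Cs) : WalkP lab Cs := by
  intro d hdm l
  obtain ⟨C, hC, hdC⟩ := List.mem_flatten.1 hdm
  obtain ⟨b, hb⟩ := h.labC C hC
  obtain ⟨k, hk⟩ := SWalk_trans b (lb lab d) l
  obtain ⟨C', hC', -, d', hd', hl, hf⟩ := SWalk_iter h hd b hC hb hdC k
  exact ⟨d', List.mem_flatten.2 ⟨C', hC', hd'⟩, hl.trans hk, hf⟩

end Pool.Agent.MP_61a8e3_al.S

end

section

/-! A folded configuration whose vertices see all twelve labels has at most one face. -/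

namespace Pool.Agent.MP_61a8e3_al.S

open FreeGroup

theorem SCount_countP {E : Type} (lab : E → X) (p : Lt → Bool) (k : ℕ)
    (hp : ∀ b, (rws b).countP p = k) (Cs : List (List (E × Bool)))
    (h : ∀ C ∈ Cs, ∃ b, C.map (lb lab) ~r rws b) :
    Cs.flatten.countP (fun d => p (lb lab d)) = k * Cs.length := by
  induction Cs with
  | nil => simp
  | cons C Cs ih =>
    rw [List.flatten_cons, List.countP_append, ih (fun C' hC' => h C' (List.mem_cons_of_mem _ hC')),
      List.length_cons]
    obtain ⟨b, hb⟩ := h C List.mem_cons_self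
    have h1 := hb.perm.countP_eq p
    rw [List.countP_map, hp b] at h1
    have h2 : C.countP (fun d => p (lb lab d)) = k := h1
    rw [h2]; ring

theorem SCount_card {α : Type} [DecidableEq α] (D : List α) (hD : D.Nodup) (p : α → Bool) :
    Nat.card {d : α // d ∈ D ∧ p d = true} = D.countP p := by
  have h1 : Nat.card {d : α // d ∈ D ∧ p d = true} = Nat.card (D.filter p).toFinset := by
    refine Nat.card_congr (Equiv.subtypeEquivRight ?_)
    intro d
    simp
  rw [h1, Nat.card_eq_fintype_card, Fintype.card_coe, List.toFinset_card_of_nodup (hD.filter p),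
    List.countP_eq_length_filter]

theorem SCount_finite {α : Type} (D : List α) (p : α → Bool) :
    Finite {d : α // d ∈ D ∧ p d = true} := by
  have : ({d : α | d ∈ D ∧ p d = true} : Set α).Finite :=
    (List.finite_toSet D).subset (fun d hd => hd.1)
  exact this

theorem SCount_lift_mul {E Γ : Type} [CommGroup Γ] (c c' : E → Γ) (w : FreeGroup E) :
    FreeGroup.lift (c * c') w = FreeGroup.lift c w * FreeGroup.lift c' w := by
  have : FreeGroup.lift (c * c') = FreeGroup.lift c * FreeGroup.lift c' := by
    apply FreeGroup.ext_hom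
    intro a
    simp
  rw [this]; rfl

open Classical in
/-- Extension by one of a function on the positive darts of `D`. -/
noncomputable def SCount_ext {E : Type} (D : List (E × Bool)) :
    ({d : E × Bool // d ∈ D ∧ d.2 = true} → ℤˣ) →* (E → ℤˣ) where
  toFun c e := if h : (e, true) ∈ D then c ⟨(e, true), h, rfl⟩ else 1
  map_one' := by
    funext e
    by_cases h : (e, true) ∈ D <;> simp [h]
  map_mul' c c' := by
    funext e
    by_cases h : (e, true) ∈ D <;> simp [h]

theorem SCount_ext_apply {E : Type} (D : List (E × Bool))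
    (c : {d : E × Bool // d ∈ D ∧ d.2 = true} → ℤˣ) (e : E) (h : (e, true) ∈ D) :
    SCount_ext D c e = c ⟨(e, true), h, rfl⟩ := by
  simp [SCount_ext, h]

/-- Evaluation of a cochain on a family of words. -/
noncomputable def SCount_ev {E I : Type} (w : I → FreeGroup E) : (E → ℤˣ) →* (I → ℤˣ) where
  toFun c i := FreeGroup.lift c (w i)
  map_one' := by
    funext i
    have h := SCount_lift_mul (1 : E → ℤˣ) 1 (w i)
    rw [mul_one] at h
    exact left_eq_mul.1 h
  map_mul' c c' := by
    funext i
    exact SCount_lift_mul c c' (w i)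

theorem count {E : Type} {φ : F →* F} {lab : E → X} {P : List (List (E × Bool) × FreeGroup E)}
    {ψ : F →* FreeGroup E} (h : Final φ lab P ψ) (hw : WalkP lab (P.map Prod.fst)) :
    P.length ≤ 1 := by
  classical
  set Cs := P.map Prod.fst with hCs
  have hlen : Cs.length = P.length := by simp [hCs]
  have hnd : Cs.flatten.Nodup := h.faces.good.1
  have hS : Nat.card {d : E × Bool // d ∈ Cs.flatten ∧ d.2 = true} = 6 * P.length := by
    rw [SCount_card _ hnd (fun d => d.2), ← hlen]
    exact SCount_countP lab (fun l => l.2) 6 (by decide) Cs h.faces.labC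
  have hT : Nat.card {d : E × Bool // d ∈ Cs.flatten ∧
      decide (lb lab d = (Sum.inl 0, true)) = true} = 1 * P.length := by
    rw [SCount_card _ hnd (fun d => decide (lb lab d = (Sum.inl 0, true))), ← hlen]
    exact SCount_countP lab (fun l => decide (l = (Sum.inl 0, true))) 1 (by decide) Cs
      h.faces.labC
  have := SCount_finite Cs.flatten (fun d => d.2)
  have := SCount_finite Cs.flatten (fun d => decide (lb lab d = (Sum.inl 0, true)))
  let w : Fin P.length ⊕ X → FreeGroup E := Sum.elim (fun j => (P.get j).2) (fun x => ψ (of x))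
  let Θ := (SCount_ev w).comp (SCount_ext Cs.flatten)
  have hpot : ∀ c : Θ.ker, ∃ f : E × Bool → ℤˣ, Pot (SCount_ext Cs.flatten c.1) f Cs := by
    rintro ⟨c, hc⟩
    have hc' : ∀ i, FreeGroup.lift (SCount_ext Cs.flatten c) (w i) = 1 := fun i =>
      congrFun (MonoidHom.mem_ker.1 hc) i
    refine h.pot ℤˣ ℤˣ _ 1 ?_ ?_
    · intro x
      have h1 : (FreeGroup.lift (SCount_ext Cs.flatten c)).comp ψ = 1 := by
        apply FreeGroup.ext_hom
        intro a
        exact hc' (Sum.inr a)
      have h2 : FreeGroup.lift (SCount_ext Cs.flatten c) (ψ x) = 1 := DFunLike.congr_fun h1 x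
      rw [h2, one_smul]
    · intro p hp
      obtain ⟨j, rfl⟩ := List.mem_iff_get.1 hp
      have h2 : FreeGroup.lift (SCount_ext Cs.flatten c) (P.get j).2 = 1 := hc' (Sum.inl j)
      rw [h2, one_smul]
  choose f hf using hpot
  let r : Θ.ker → ({d : E × Bool // d ∈ Cs.flatten ∧
      decide (lb lab d = (Sum.inl 0, true)) = true} → ℤˣ) := fun c d => f c d.1
  have hr : Function.Injective r := by
    intro c c' hcc
    have key : ∀ d ∈ Cs.flatten, f c d = f c' d := by
      intro d hd
      obtain ⟨d', hd', hl, hall⟩ := hw d hd (Sum.inl 0, true)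
      rw [hall _ _ (hf c).1, hall _ _ (hf c').1]
      exact congrFun hcc ⟨d', hd', decide_eq_true hl⟩
    apply Subtype.ext
    funext ⟨⟨e, b⟩, hd, hb⟩
    have hb' : b = true := hb
    subst hb'
    have h1 := (hf c).2 e hd
    have h2 := (hf c').2 e hd
    have hd2 : (e, false) ∈ Cs.flatten := h.faces.good.2 _ hd
    rw [SCount_ext_apply _ _ _ hd] at h1 h2
    rw [key _ hd, key _ hd2, h2] at h1
    exact (mul_right_cancel h1).symm
  have c2 : Nat.card ℤˣ = 2 := by rw [Nat.card_eq_fintype_card, Fintype.card_units_int]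
  have hk : Nat.card Θ.ker ≤ 2 ^ (1 * P.length) := by
    have := Nat.card_le_card_of_injective r hr
    rwa [Nat.card_fun, c2, hT] at this
  have hi : Θ.ker.index ≤ 2 ^ (P.length + 6) := by
    rw [Subgroup.index_ker]
    have := Nat.card_le_card_of_injective _ (Subtype.val_injective (p := fun x => x ∈ Θ.range))
    rw [Nat.card_fun, c2, Nat.card_sum] at this
    simpa using this
  have hm := Subgroup.card_mul_index Θ.ker
  rw [Nat.card_fun, c2, hS] at hm
  have h3 : 2 ^ (6 * P.length) ≤ 2 ^ (1 * P.length + (P.length + 6)) := by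
    rw [← hm, pow_add]
    exact Nat.mul_le_mul hk hi
  have h4 := (Nat.pow_le_pow_iff_right (by norm_num : 1 < 2)).1 h3
  omega

end Pool.Agent.MP_61a8e3_al.S

end

section

/-! One face: the endomorphism is surjective and preserves the relator up to conjugacy and
inversion. -/

namespace Pool.Agent.MP_61a8e3_al.S

open FreeGroup

theorem SSurj_nodup (b : Bool) : (rws b).Nodup := by
  cases b <;> decide

theorem SSurj_mem (b : Bool) (l : Lt) : l ∈ rws b := by
  have h0 : ∀ l : Lt, l ∈ rw0 := by
    rintro ⟨x | x, s⟩ <;> fin_cases x <;> cases s <;> simp [rw0]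
  cases b
  · exact mem_invRev.2 (h0 _)
  · exact h0 _

theorem SSurj_lift {E : Type} (lab : E → X) (w : FreeGroup E) :
    FreeGroup.lift (fun e => (FreeGroup.of (lab e) : F)) w = FreeGroup.map lab w := by
  have : FreeGroup.lift (fun e => (FreeGroup.of (lab e) : F)) = FreeGroup.map lab := by
    ext e
    simp
  rw [this]

theorem SSurj_top {G : Type} [Group G] (H : Subgroup G) (q : G ⧸ H)
    (hq : ∀ g : G, g • q = q) : H = ⊤ := by
  induction q using QuotientGroup.induction_on with
  | H t =>
    rw [eq_top_iff]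
    intro g _
    have h := hq (t * g * t⁻¹)
    rw [MulAction.Quotient.smul_mk, smul_eq_mul, eq_comm, QuotientGroup.eq] at h
    have e : t⁻¹ * (t * g * t⁻¹ * t) = g := by group
    rwa [e] at h

theorem surj {E : Type} {φ : F →* F} {lab : E → X} {P : List (List (E × Bool) × FreeGroup E)}
    {ψ : F →* FreeGroup E} (h : Final φ lab P ψ) (hw : WalkP lab (P.map Prod.fst))
    (h1 : P.length = 1) :
    Function.Surjective φ ∧ (IsConj (φ rel) rel ∨ IsConj (φ rel) rel⁻¹) := by
  obtain ⟨⟨C, z⟩, rfl⟩ := List.length_eq_one_iff.1 h1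
  have hz : ψ rel = z := by simpa using h.prod
  have hcz : IsConj (mk C) z := h.conj (C, z) (List.mem_singleton.2 rfl)
  obtain ⟨b, hb⟩ := h.faces.labC C (by simp)
  have hgood : Good C := by simpa using h.faces.good
  have hφ : φ rel = FreeGroup.map lab z := by rw [← h.lifts rel, hz]
  constructor
  · have hfix : ∀ x : F, φ x • ((1 : F) : F ⧸ φ.range) = ((1 : F) : F ⧸ φ.range) := by
      intro x
      rw [MulAction.Quotient.smul_mk, smul_eq_mul, eq_comm, QuotientGroup.eq]
      exact ⟨x, by simp⟩
    obtain ⟨f, hcl, hf⟩ := h.pot F (F ⧸ φ.range) (fun e => FreeGroup.of (lab e))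
      ((1 : F) : F ⧸ φ.range)
      (fun x => by rw [SSurj_lift, h.lifts]; exact hfix x)
      (fun p hp => by
        rw [List.mem_singleton.1 hp, SSurj_lift]
        show FreeGroup.map lab z • _ = _
        rw [← hφ]; exact hfix rel)
    have hfl : (List.map Prod.fst [(C, z)]).flatten = C := by simp
    have hnd : (C.map (lb lab)).Nodup := hb.nodup_iff.2 (SSurj_nodup b)
    have hconst : ∀ d ∈ C, ∀ d' ∈ C, f d = f d' := by
      intro d hd d' hd'
      obtain ⟨d'', hd'', hl, hc⟩ := hw d (by rw [hfl]; exact hd) (lb lab d')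
      rw [hfl] at hd''
      have := List.inj_on_of_nodup_map hnd hd'' hd' hl
      rw [← this]
      exact hc _ f hcl
    have hall : ∀ l : Lt, ∃ d ∈ C, lb lab d = l := fun l =>
      List.mem_map.1 (hb.mem_iff.2 (SSurj_mem b l))
    obtain ⟨d0, hd0, -⟩ := hall (.inl 0, true)
    have hgen : ∀ x : X, (FreeGroup.of x : F) • f d0 = f d0 := by
      intro x
      obtain ⟨⟨e, s⟩, hd, hl⟩ := hall (x, true)
      have hs : s = true := congrArg Prod.snd hl
      have he : lab e = x := congrArg Prod.fst hl
      subst hs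
      have hd' : (e, false) ∈ C := hgood.2 _ hd
      have := hf e (by rw [hfl]; exact hd)
      rw [hconst _ hd _ hd0, hconst _ hd' _ hd0] at this
      rw [← he]
      exact this.symm
    have hst : ∀ g : F, g • f d0 = f d0 := by
      intro g
      have hg : g ∈ MulAction.stabilizer F (f d0) := by
        induction g using FreeGroup.induction_on with
        | C1 => exact one_mem _
        | of x => exact hgen x
        | inv_of x hx => exact inv_mem hx
        | mul x y hx hy => exact mul_mem hx hy
      exact hg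
    exact MonoidHom.range_eq_top.1 (SSurj_top _ _ hst)
  · have h2 : IsConj (φ rel) (mk (rws b)) := by
      rw [hφ]
      refine ((FreeGroup.map lab).map_isConj hcz).symm.trans ?_
      rw [map_mk_lb]
      exact isConj_mk_of_isRotated hb
    rw [mk_rws] at h2
    cases b
    · exact Or.inr h2
    · exact Or.inl h2

end Pool.Agent.MP_61a8e3_al.S

end

section

/-! Nielsen lifting: every automorphism of the genus 3 surface group lifts to an automorphism of
the free group that fixes the conjugacy class of the relator up to inversion. -/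

namespace Pool.Agent.MP_61a8e3_al.S

open FreeGroup

theorem pc_of_pr_eq_one (g : F) (h : pr g = 1) : ∃ n, PC n g := by
  have hg : g ∈ Subgroup.normalClosure ({rel} : Set F) := (PresentedGroup.mk_eq_one_iff).1 h
  refine Subgroup.closure_induction (p := fun g _ => ∃ n, PC n g) ?_ ?_ ?_ ?_ hg
  · intro x hx
    obtain ⟨a, ha, hx⟩ := Group.mem_conjugatesOfSet_iff.1 hx
    obtain rfl : a = rel := ha
    exact ⟨1, [x], rfl, by simpa using Or.inl hx, by simp⟩
  · exact ⟨0, [], rfl, by simp, rfl⟩
  · rintro x y - - ⟨n, l, -, hl, rfl⟩ ⟨m, l', -, hl', rfl⟩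
    refine ⟨_, l ++ l', rfl, fun z hz => ?_, List.prod_append⟩
    rcases List.mem_append.1 hz with hz | hz
    · exact hl z hz
    · exact hl' z hz
  · rintro x - ⟨n, l, -, hl, rfl⟩
    refine ⟨_, (l.map fun z => z⁻¹).reverse, rfl, fun z hz => ?_, (List.prod_inv_reverse l).symm⟩
    obtain ⟨w, hw, rfl⟩ := List.mem_map.1 (List.mem_reverse.1 hz)
    rcases hl w hw with h1 | h1 <;> obtain ⟨u, rfl⟩ := isConj_iff.1 h1
    · exact Or.inr (isConj_iff.2 ⟨u, by group⟩)
    · exact Or.inl (isConj_iff.2 ⟨u, by group⟩)

theorem lift_aux (θ : MulAut Pi) (n : ℕ) : ∀ φ : F →* F, (∀ x, pr (φ x) = θ (pr x)) →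
    PC n (φ rel) → ∃ α : MulAut F, (IsConj (α rel) rel ∨ IsConj (α rel) rel⁻¹) ∧
      ∀ x, pr (α x) = θ (pr x) := by
  induction n using Nat.strong_induction_on with
  | _ n ih =>
    intro φ hφ hn
    obtain ⟨E, lab, P, ψ, rfl, hF⟩ := exists_final φ n hn
    by_cases hd : Dipole lab (P.map Prod.fst)
    · obtain ⟨φ', h1, m, hm, h2⟩ := dipole hF hd
      exact ih m hm φ' (fun x => (h1 x).trans (hφ x)) h2
    · have hw := walk hF.faces hd
      have hc := count hF hw
      have h0 : P.length ≠ 0 := by
        intro h0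
        obtain rfl : P = [] := List.eq_nil_of_length_eq_zero h0
        apply heis θ φ hφ
        rw [← hF.lifts, hF.prod]
        exact _root_.map_one _
      obtain ⟨h1, h2⟩ := surj hF hw (by omega)
      exact ⟨MulEquiv.ofBijective φ ⟨hopf φ h1, h1⟩, h2, hφ⟩

theorem liftS (θ : MulAut Pi) : ∃ α : MulAut F,
    (IsConj (α rel) rel ∨ IsConj (α rel) rel⁻¹) ∧ ∀ x, pr (α x) = θ (pr x) := by
  choose y hy using fun x : X => PresentedGroup.mk_surjective ({rel} : Set F) (θ (pr (of x)))
  have h : ∀ x, pr (FreeGroup.lift y x) = θ (pr x) := by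
    have : pr.comp (FreeGroup.lift y) = θ.toMonoidHom.comp pr := by
      ext x : 1
      simpa using hy x
    exact fun x => DFunLike.congr_fun this x
  obtain ⟨n, hn⟩ := pc_of_pr_eq_one (FreeGroup.lift y rel) (by rw [h, pr_rel, _root_.map_one])
  exact lift_aux θ n _ h hn

end Pool.Agent.MP_61a8e3_al.S

end

section

set_option autoImplicit false

namespace Pool.Agent.MP_61a8e3_al.D

open A

theorem DGlue_surj : Function.Surjective (pr : F →* Pi) := PresentedGroup.mk_surjective _

theorem DGlue_ker (α : G3) : pr ((α : MulAut F) r3) = 1 := by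
  have h : IsConj ((α : MulAut F) r3) r3 := α.2
  have h2 := pr.map_isConj h
  rw [pr_r3] at h2
  exact isConj_one_left.1 h2

theorem DGlue_lift (α : G3) :
    FreeGroup.lift (fun x : X => pr ((α : MulAut F) (FreeGroup.of x))) =
      pr.comp (α : MulAut F).toMonoidHom :=
  FreeGroup.ext_hom _ _ fun x => by simp

/-- The endomorphism of the surface group induced by an element of `G3`. -/
def DGlue_d (α : G3) : Pi →* Pi :=
  PresentedGroup.toGroup (f := fun x : X => pr ((α : MulAut F) (FreeGroup.of x))) (by
    intro r hr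
    have hr' : r = r3 := hr
    rw [hr', DGlue_lift]
    exact DGlue_ker α)

theorem DGlue_d_pr (α : G3) (x : F) : DGlue_d α (pr x) = pr ((α : MulAut F) x) := by
  have : (DGlue_d α).comp pr = pr.comp (α : MulAut F).toMonoidHom :=
    FreeGroup.ext_hom _ _ fun z => by
      show DGlue_d α (PresentedGroup.of z) = pr ((α : MulAut F) (FreeGroup.of z))
      unfold DGlue_d
      rw [PresentedGroup.toGroup.of]
  exact DFunLike.congr_fun this x

/-- The automorphism of the surface group induced by an element of `G3`. -/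
def DGlue_e (α : G3) : MulAut Pi where
  toFun := DGlue_d α
  invFun := DGlue_d α⁻¹
  left_inv := fun y => by
    obtain ⟨x, rfl⟩ := DGlue_surj y
    rw [DGlue_d_pr, DGlue_d_pr, Subgroup.coe_inv, MulAut.inv_apply_self]
  right_inv := fun y => by
    obtain ⟨x, rfl⟩ := DGlue_surj y
    rw [DGlue_d_pr, DGlue_d_pr, Subgroup.coe_inv, MulAut.apply_inv_self]
  map_mul' := map_mul _

theorem DGlue_e_pr (α : G3) (x : F) : DGlue_e α (pr x) = pr ((α : MulAut F) x) :=
  DGlue_d_pr α x

/-- The map to the automorphism group of the surface group. -/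
def DGlue_m0 : G3 →* MulAut Pi :=
  MonoidHom.mk' DGlue_e fun α β => by
    ext y
    obtain ⟨x, rfl⟩ := DGlue_surj y
    rw [MulAut.mul_apply, DGlue_e_pr, DGlue_e_pr, DGlue_e_pr, Subgroup.coe_mul, MulAut.mul_apply]

theorem DGlue_m0_pr (α : G3) (x : F) : DGlue_m0 α (pr x) = pr ((α : MulAut F) x) :=
  DGlue_d_pr α x

/-- The projection to the outer automorphism group. -/
abbrev DGlue_q : MulAut Pi →* OutPi := QuotientGroup.mk' _

/-- The map to the outer automorphism group of the surface group. -/
def DGlue_m : G3 →* OutPi := DGlue_q.comp DGlue_m0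

theorem DGlue_inn {θ : MulAut Pi} (h : DGlue_q θ = 1) : ∃ g : Pi, MulAut.conj g = θ := by
  have h1 : θ ∈ Subgroup.normalClosure (Set.range (MulAut.conj : Pi →* MulAut Pi)) :=
    (QuotientGroup.eq_one_iff _).1 h
  haveI : (MulAut.conj : Pi →* MulAut Pi).range.Normal :=
    ⟨by
      rintro _ ⟨c, rfl⟩ β
      exact ⟨β c, by ext g; simp⟩⟩
  have h2 : Subgroup.normalClosure (Set.range (MulAut.conj : Pi →* MulAut Pi)) ≤
      (MulAut.conj : Pi →* MulAut Pi).range :=
    Subgroup.normalClosure_le_normal fun _ hx => hx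
  exact h2 h1

theorem DGlue_mem {θ : MulAut Pi} {α : MulAut F} (h : IsConj (α r3) r3)
    (h2 : ∀ x, pr (α x) = θ (pr x)) : DGlue_q θ ∈ DGlue_m.range := by
  refine ⟨⟨α, h⟩, ?_⟩
  have : DGlue_m0 ⟨α, h⟩ = θ := by
    ext y
    obtain ⟨x, rfl⟩ := DGlue_surj y
    rw [DGlue_m0_pr]
    exact h2 x
  show DGlue_q (DGlue_m0 ⟨α, h⟩) = DGlue_q θ
  rw [this]

theorem DGlue_two {θ₁ θ₂ : MulAut Pi} {α₁ α₂ : MulAut F} (h₁ : IsConj (α₁ r3) r3⁻¹)
    (h₂ : IsConj (α₂ r3) r3⁻¹) (e₁ : ∀ x, pr (α₁ x) = θ₁ (pr x))
    (e₂ : ∀ x, pr (α₂ x) = θ₂ (pr x)) : (DGlue_q θ₁)⁻¹ * DGlue_q θ₂ ∈ DGlue_m.range := by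
  rw [← map_inv, ← map_mul]
  refine DGlue_mem (α := α₁⁻¹ * α₂) ?_ ?_
  · have h3 : IsConj (α₂ r3) (α₁ r3) := h₂.trans h₁.symm
    have h4 : IsConj (α₁⁻¹ (α₂ r3)) (α₁⁻¹ (α₁ r3)) := (α₁⁻¹).toMonoidHom.map_isConj h3
    rw [MulAut.inv_apply_self] at h4
    exact h4
  · intro x
    rw [MulAut.mul_apply, MulAut.mul_apply, ← e₂]
    apply θ₁.injective
    rw [← e₁, MulAut.apply_inv_self, MulAut.apply_inv_self]

theorem DGlue_fin : DGlue_m.range.FiniteIndex := by
  let T : Set OutPi := {o | ∃ (θ : MulAut Pi) (α : MulAut F), DGlue_q θ = o ∧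
    IsConj (α r3) r3⁻¹ ∧ ∀ x, pr (α x) = θ (pr x)}
  have hT : ((QuotientGroup.mk : OutPi → OutPi ⧸ DGlue_m.range) '' T).Subsingleton := by
    rintro _ ⟨_, ⟨θ₁, α₁, rfl, h₁, e₁⟩, rfl⟩ _ ⟨_, ⟨θ₂, α₂, rfl, h₂, e₂⟩, rfl⟩
    exact QuotientGroup.eq.2 (DGlue_two h₁ h₂ e₁ e₂)
  have hU : (Set.univ : Set (OutPi ⧸ DGlue_m.range)) ⊆
      {((1 : OutPi) : OutPi ⧸ DGlue_m.range)} ∪
        (QuotientGroup.mk : OutPi → OutPi ⧸ DGlue_m.range) '' T := by
    intro z _
    obtain ⟨o, rfl⟩ := QuotientGroup.mk_surjective z
    obtain ⟨θ, rfl⟩ := QuotientGroup.mk'_surjective _ o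
    obtain ⟨α, h, e⟩ := S.liftS θ
    rcases h with h | h
    · left
      have h1 : DGlue_q θ ∈ DGlue_m.range := DGlue_mem h e
      refine Set.mem_singleton_iff.2 (Eq.symm (QuotientGroup.eq.2 ?_))
      rw [inv_one, one_mul]
      exact h1
    · right
      exact ⟨DGlue_q θ, ⟨θ, α, rfl, h, e⟩, rfl⟩
  haveI : Finite (OutPi ⧸ DGlue_m.range) :=
    Set.finite_univ_iff.1 (((Set.finite_singleton _).union hT.finite).subset hU)
  exact Subgroup.finiteIndex_of_finite_quotient

theorem DGlue_map (Λ : Subgroup G3) (hΛ : Λ.FiniteIndex) : (Λ.map DGlue_m).FiniteIndex := by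
  have h1 : (Λ.map DGlue_m.rangeRestrict).index ≠ 0 := fun h =>
    hΛ.index_ne_zero (Nat.eq_zero_of_zero_dvd
      (h ▸ Subgroup.index_map_dvd Λ DGlue_m.rangeRestrict_surjective))
  have h2 : (Λ.map DGlue_m.rangeRestrict).map DGlue_m.range.subtype = Λ.map DGlue_m := by
    rw [Subgroup.map_map]
    rfl
  refine ⟨?_⟩
  rw [← h2, Subgroup.index_map_subtype]
  exact mul_ne_zero h1 DGlue_fin.index_ne_zero

theorem glue (Λ : Subgroup G3) (hΛ : Λ.FiniteIndex) {H : Type} [Group H] (f : Λ →* H)
    (hk : ∀ (α : Λ) (g : Pi), (∀ x, pr (((α : G3) : MulAut F) x) = g * pr x * g⁻¹) → f α = 1) :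
    ∃ Γ : Subgroup OutPi, Γ.FiniteIndex ∧ ∃ φ : Γ →* H, φ.range = f.range := by
  refine ⟨Λ.map DGlue_m, DGlue_map Λ hΛ, ?_⟩
  have hs : Function.Surjective (DGlue_m.subgroupMap Λ) := DGlue_m.subgroupMap_surjective Λ
  have hker : (DGlue_m.subgroupMap Λ).ker ≤ f.ker := by
    intro α hα
    have h1 : DGlue_m (α : G3) = 1 := congrArg Subtype.val (MonoidHom.mem_ker.1 hα)
    obtain ⟨g, hg⟩ := DGlue_inn (θ := DGlue_m0 (α : G3)) h1
    refine MonoidHom.mem_ker.2 (hk α g fun x => ?_)
    rw [← DGlue_m0_pr, ← hg, MulAut.conj_apply]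
  let φ : Λ.map DGlue_m →* H :=
    (DGlue_m.subgroupMap Λ).liftOfSurjective hs ⟨f, hker⟩
  have hφ : ∀ α : Λ, φ (DGlue_m.subgroupMap Λ α) = f α := fun α =>
    MonoidHom.liftOfRightInverse_comp_apply _ _ _ _ α
  refine ⟨φ, ?_⟩
  ext y
  constructor
  · rintro ⟨z, rfl⟩
    obtain ⟨α, rfl⟩ := hs z
    exact ⟨α, (hφ α).symm⟩
  · rintro ⟨α, rfl⟩
    exact ⟨_, hφ α⟩

end Pool.Agent.MP_61a8e3_al.D

end
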