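import Pool.Agent.Mg.F61a8e3.Gabd557

section

/-! Part T: the checks on words, classes congruent to 0 modulo 16. -/

set_option autoImplicit false

namespace Pool.Agent.MP_61a8e3_al.T

theorem obs0 :
    dat.objC 0 = true ∧
    dat.objC 16 = true ∧
    dat.objC 32 = true ∧
    dat.objC 48 = true ∧
    dat.objC 64 = true ∧
    dat.objC 80 = true ∧
    dat.objC 96 = true ∧
    dat.objC 112 = true ∧
    dat.objC 128 = true :=
  ⟨by decide +kernel,
   by decide +kernel,
   by decide +kernel,
   by decide +kernel,
   by decide +kernel,
   by decide +kernel,
   by decide +kernel,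
   by decide +kernel,
   by decide +kernel⟩

end Pool.Agent.MP_61a8e3_al.T

end

section

/-! Part T: the checks on words, classes congruent to 4 modulo 16. -/

set_option autoImplicit false

namespace Pool.Agent.MP_61a8e3_al.T

theorem obs4 :
    dat.objC 4 = true ∧
    dat.objC 20 = true ∧
    dat.objC 36 = true ∧
    dat.objC 52 = true ∧
    dat.objC 68 = true ∧
    dat.objC 84 = true ∧
    dat.objC 100 = true ∧
    dat.objC 116 = true :=
  ⟨by decide +kernel,
   by decide +kernel,
   by decide +kernel,
   by decide +kernel,
   by decide +kernel,
   by decide +kernel,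
   by decide +kernel,
   by decide +kernel⟩

end Pool.Agent.MP_61a8e3_al.T

end

section

/-! Part T: the checks on words, classes congruent to 8 modulo 16. -/

set_option autoImplicit false

namespace Pool.Agent.MP_61a8e3_al.T

theorem obs8 :
    dat.objC 8 = true ∧
    dat.objC 24 = true ∧
    dat.objC 40 = true ∧
    dat.objC 56 = true ∧
    dat.objC 72 = true ∧
    dat.objC 88 = true ∧
    dat.objC 104 = true ∧
    dat.objC 120 = true :=
  ⟨by decide +kernel,
   by decide +kernel,
   by decide +kernel,
   by decide +kernel,
   by decide +kernel,
   by decide +kernel,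
   by decide +kernel,
   by decide +kernel⟩

end Pool.Agent.MP_61a8e3_al.T

end

section

/-! Part T: the checks on words, classes congruent to 12 modulo 16. -/

set_option autoImplicit false

namespace Pool.Agent.MP_61a8e3_al.T

theorem obs12 :
    dat.objC 12 = true ∧
    dat.objC 28 = true ∧
    dat.objC 44 = true ∧
    dat.objC 60 = true ∧
    dat.objC 76 = true ∧
    dat.objC 92 = true ∧
    dat.objC 108 = true ∧
    dat.objC 124 = true :=
  ⟨by decide +kernel,
   by decide +kernel,
   by decide +kernel,
   by decide +kernel,
   by decide +kernel,
   by decide +kernel,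
   by decide +kernel,
   by decide +kernel⟩

end Pool.Agent.MP_61a8e3_al.T

end
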