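import Pool.Agent.Mg.F61a8e3.Gabd557

section

/-! Part T: the checks on words, classes congruent to 3 modulo 16. -/

set_option autoImplicit false

namespace Pool.Agent.MP_61a8e3_al.T

theorem obs3 :
    dat.objC 3 = true ∧
    dat.objC 19 = true ∧
    dat.objC 35 = true ∧
    dat.objC 51 = true ∧
    dat.objC 67 = true ∧
    dat.objC 83 = true ∧
    dat.objC 99 = true ∧
    dat.objC 115 = true :=
  ⟨by decide +kernel,
   by decide +kernel,
   by decide +kernel,
   by decide +kernel,
   by decide +kernel,
   by decide +kernel,
   by decide +kernel,
   by decide +kernel⟩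

end Pool.Agent.MP_61a8e3_al.T

end

section

/-! Part T: the checks on words, classes congruent to 7 modulo 16. -/

set_option autoImplicit false

namespace Pool.Agent.MP_61a8e3_al.T

theorem obs7 :
    dat.objC 7 = true ∧
    dat.objC 23 = true ∧
    dat.objC 39 = true ∧
    dat.objC 55 = true ∧
    dat.objC 71 = true ∧
    dat.objC 87 = true ∧
    dat.objC 103 = true ∧
    dat.objC 119 = true :=
  ⟨by decide +kernel,
   by decide +kernel,
   by decide +kernel,
   by decide +kernel,
   by decide +kernel,
   by decide +kernel,
   by decide +kernel,
   by decide +kernel⟩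

end Pool.Agent.MP_61a8e3_al.T

end

section

/-! Part T: the checks on words, classes congruent to 11 modulo 16. -/

set_option autoImplicit false

namespace Pool.Agent.MP_61a8e3_al.T

theorem obs11 :
    dat.objC 11 = true ∧
    dat.objC 27 = true ∧
    dat.objC 43 = true ∧
    dat.objC 59 = true ∧
    dat.objC 75 = true ∧
    dat.objC 91 = true ∧
    dat.objC 107 = true ∧
    dat.objC 123 = true :=
  ⟨by decide +kernel,
   by decide +kernel,
   by decide +kernel,
   by decide +kernel,
   by decide +kernel,
   by decide +kernel,
   by decide +kernel,
   by decide +kernel⟩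

end Pool.Agent.MP_61a8e3_al.T

end

section

/-! Part T: the checks on words, classes congruent to 15 modulo 16. -/

set_option autoImplicit false

namespace Pool.Agent.MP_61a8e3_al.T

theorem obs15 :
    dat.objC 15 = true ∧
    dat.objC 31 = true ∧
    dat.objC 47 = true ∧
    dat.objC 63 = true ∧
    dat.objC 79 = true ∧
    dat.objC 95 = true ∧
    dat.objC 111 = true ∧
    dat.objC 127 = true :=
  ⟨by decide +kernel,
   by decide +kernel,
   by decide +kernel,
   by decide +kernel,
   by decide +kernel,
   by decide +kernel,
   by decide +kernel,
   by decide +kernel⟩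

end Pool.Agent.MP_61a8e3_al.T

end
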