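import Pool.Agent.Mg.F61a8e3.Gabd557

section

/-! Part T: the checks on fibres, classes congruent to 2 modulo 12. -/

set_option autoImplicit false

namespace Pool.Agent.MP_61a8e3_al.T

theorem fbs2 :
    (allN 0 7 (dat.fibC 2) = true ∧ allN 7 7 (dat.fibC 2) = true ∧
      allN 14 7 (dat.fibC 2) = true ∧ allN 21 7 (dat.fibC 2) = true) ∧
    (allN 0 7 (dat.fibC 14) = true ∧ allN 7 7 (dat.fibC 14) = true ∧
      allN 14 7 (dat.fibC 14) = true ∧ allN 21 7 (dat.fibC 14) = true) ∧
    (allN 0 7 (dat.fibC 26) = true ∧ allN 7 7 (dat.fibC 26) = true ∧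
      allN 14 7 (dat.fibC 26) = true ∧ allN 21 7 (dat.fibC 26) = true) ∧
    (allN 0 7 (dat.fibC 38) = true ∧ allN 7 7 (dat.fibC 38) = true ∧
      allN 14 7 (dat.fibC 38) = true ∧ allN 21 7 (dat.fibC 38) = true) ∧
    (allN 0 7 (dat.fibC 50) = true ∧ allN 7 7 (dat.fibC 50) = true ∧
      allN 14 7 (dat.fibC 50) = true ∧ allN 21 7 (dat.fibC 50) = true) ∧
    (allN 0 7 (dat.fibC 62) = true ∧ allN 7 7 (dat.fibC 62) = true ∧
      allN 14 7 (dat.fibC 62) = true ∧ allN 21 7 (dat.fibC 62) = true) ∧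
    (allN 0 7 (dat.fibC 74) = true ∧ allN 7 7 (dat.fibC 74) = true ∧
      allN 14 7 (dat.fibC 74) = true ∧ allN 21 7 (dat.fibC 74) = true) ∧
    (allN 0 7 (dat.fibC 86) = true ∧ allN 7 7 (dat.fibC 86) = true ∧
      allN 14 7 (dat.fibC 86) = true ∧ allN 21 7 (dat.fibC 86) = true) ∧
    (allN 0 7 (dat.fibC 98) = true ∧ allN 7 7 (dat.fibC 98) = true ∧
      allN 14 7 (dat.fibC 98) = true ∧ allN 21 7 (dat.fibC 98) = true) ∧
    (allN 0 7 (dat.fibC 110) = true ∧ allN 7 7 (dat.fibC 110) = true ∧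
      allN 14 7 (dat.fibC 110) = true ∧ allN 21 7 (dat.fibC 110) = true) ∧
    (allN 0 7 (dat.fibC 122) = true ∧ allN 7 7 (dat.fibC 122) = true ∧
      allN 14 7 (dat.fibC 122) = true ∧ allN 21 7 (dat.fibC 122) = true) :=
  ⟨⟨by decide +kernel, by decide +kernel, by decide +kernel, by decide +kernel⟩,
   ⟨by decide +kernel, by decide +kernel, by decide +kernel, by decide +kernel⟩,
   ⟨by decide +kernel, by decide +kernel, by decide +kernel, by decide +kernel⟩,
   ⟨by decide +kernel, by decide +kernel, by decide +kernel, by decide +kernel⟩,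
   ⟨by decide +kernel, by decide +kernel, by decide +kernel, by decide +kernel⟩,
   ⟨by decide +kernel, by decide +kernel, by decide +kernel, by decide +kernel⟩,
   ⟨by decide +kernel, by decide +kernel, by decide +kernel, by decide +kernel⟩,
   ⟨by decide +kernel, by decide +kernel, by decide +kernel, by decide +kernel⟩,
   ⟨by decide +kernel, by decide +kernel, by decide +kernel, by decide +kernel⟩,
   ⟨by decide +kernel, by decide +kernel, by decide +kernel, by decide +kernel⟩,
   ⟨by decide +kernel, by decide +kernel, by decide +kernel, by decide +kernel⟩⟩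

end Pool.Agent.MP_61a8e3_al.T

end

section

/-! Part T: the checks on fibres, classes congruent to 6 modulo 12. -/

set_option autoImplicit false

namespace Pool.Agent.MP_61a8e3_al.T

theorem fbs6 :
    (allN 0 7 (dat.fibC 6) = true ∧ allN 7 7 (dat.fibC 6) = true ∧
      allN 14 7 (dat.fibC 6) = true ∧ allN 21 7 (dat.fibC 6) = true) ∧
    (allN 0 7 (dat.fibC 18) = true ∧ allN 7 7 (dat.fibC 18) = true ∧
      allN 14 7 (dat.fibC 18) = true ∧ allN 21 7 (dat.fibC 18) = true) ∧
    (allN 0 7 (dat.fibC 30) = true ∧ allN 7 7 (dat.fibC 30) = true ∧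
      allN 14 7 (dat.fibC 30) = true ∧ allN 21 7 (dat.fibC 30) = true) ∧
    (allN 0 7 (dat.fibC 42) = true ∧ allN 7 7 (dat.fibC 42) = true ∧
      allN 14 7 (dat.fibC 42) = true ∧ allN 21 7 (dat.fibC 42) = true) ∧
    (allN 0 7 (dat.fibC 54) = true ∧ allN 7 7 (dat.fibC 54) = true ∧
      allN 14 7 (dat.fibC 54) = true ∧ allN 21 7 (dat.fibC 54) = true) ∧
    (allN 0 7 (dat.fibC 66) = true ∧ allN 7 7 (dat.fibC 66) = true ∧
      allN 14 7 (dat.fibC 66) = true ∧ allN 21 7 (dat.fibC 66) = true) ∧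
    (allN 0 7 (dat.fibC 78) = true ∧ allN 7 7 (dat.fibC 78) = true ∧
      allN 14 7 (dat.fibC 78) = true ∧ allN 21 7 (dat.fibC 78) = true) ∧
    (allN 0 7 (dat.fibC 90) = true ∧ allN 7 7 (dat.fibC 90) = true ∧
      allN 14 7 (dat.fibC 90) = true ∧ allN 21 7 (dat.fibC 90) = true) ∧
    (allN 0 7 (dat.fibC 102) = true ∧ allN 7 7 (dat.fibC 102) = true ∧
      allN 14 7 (dat.fibC 102) = true ∧ allN 21 7 (dat.fibC 102) = true) ∧
    (allN 0 7 (dat.fibC 114) = true ∧ allN 7 7 (dat.fibC 114) = true ∧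
      allN 14 7 (dat.fibC 114) = true ∧ allN 21 7 (dat.fibC 114) = true) ∧
    (allN 0 7 (dat.fibC 126) = true ∧ allN 7 7 (dat.fibC 126) = true ∧
      allN 14 7 (dat.fibC 126) = true ∧ allN 21 7 (dat.fibC 126) = true) :=
  ⟨⟨by decide +kernel, by decide +kernel, by decide +kernel, by decide +kernel⟩,
   ⟨by decide +kernel, by decide +kernel, by decide +kernel, by decide +kernel⟩,
   ⟨by decide +kernel, by decide +kernel, by decide +kernel, by decide +kernel⟩,
   ⟨by decide +kernel, by decide +kernel, by decide +kernel, by decide +kernel⟩,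
   ⟨by decide +kernel, by decide +kernel, by decide +kernel, by decide +kernel⟩,
   ⟨by decide +kernel, by decide +kernel, by decide +kernel, by decide +kernel⟩,
   ⟨by decide +kernel, by decide +kernel, by decide +kernel, by decide +kernel⟩,
   ⟨by decide +kernel, by decide +kernel, by decide +kernel, by decide +kernel⟩,
   ⟨by decide +kernel, by decide +kernel, by decide +kernel, by decide +kernel⟩,
   ⟨by decide +kernel, by decide +kernel, by decide +kernel, by decide +kernel⟩,
   ⟨by decide +kernel, by decide +kernel, by decide +kernel, by decide +kernel⟩⟩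

end Pool.Agent.MP_61a8e3_al.T

end

section

/-! Part T: the checks on fibres, classes congruent to 10 modulo 12. -/

set_option autoImplicit false

namespace Pool.Agent.MP_61a8e3_al.T

theorem fbs10 :
    (allN 0 7 (dat.fibC 10) = true ∧ allN 7 7 (dat.fibC 10) = true ∧
      allN 14 7 (dat.fibC 10) = true ∧ allN 21 7 (dat.fibC 10) = true) ∧
    (allN 0 7 (dat.fibC 22) = true ∧ allN 7 7 (dat.fibC 22) = true ∧
      allN 14 7 (dat.fibC 22) = true ∧ allN 21 7 (dat.fibC 22) = true) ∧
    (allN 0 7 (dat.fibC 34) = true ∧ allN 7 7 (dat.fibC 34) = true ∧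
      allN 14 7 (dat.fibC 34) = true ∧ allN 21 7 (dat.fibC 34) = true) ∧
    (allN 0 7 (dat.fibC 46) = true ∧ allN 7 7 (dat.fibC 46) = true ∧
      allN 14 7 (dat.fibC 46) = true ∧ allN 21 7 (dat.fibC 46) = true) ∧
    (allN 0 7 (dat.fibC 58) = true ∧ allN 7 7 (dat.fibC 58) = true ∧
      allN 14 7 (dat.fibC 58) = true ∧ allN 21 7 (dat.fibC 58) = true) ∧
    (allN 0 7 (dat.fibC 70) = true ∧ allN 7 7 (dat.fibC 70) = true ∧
      allN 14 7 (dat.fibC 70) = true ∧ allN 21 7 (dat.fibC 70) = true) ∧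
    (allN 0 7 (dat.fibC 82) = true ∧ allN 7 7 (dat.fibC 82) = true ∧
      allN 14 7 (dat.fibC 82) = true ∧ allN 21 7 (dat.fibC 82) = true) ∧
    (allN 0 7 (dat.fibC 94) = true ∧ allN 7 7 (dat.fibC 94) = true ∧
      allN 14 7 (dat.fibC 94) = true ∧ allN 21 7 (dat.fibC 94) = true) ∧
    (allN 0 7 (dat.fibC 106) = true ∧ allN 7 7 (dat.fibC 106) = true ∧
      allN 14 7 (dat.fibC 106) = true ∧ allN 21 7 (dat.fibC 106) = true) ∧
    (allN 0 7 (dat.fibC 118) = true ∧ allN 7 7 (dat.fibC 118) = true ∧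
      allN 14 7 (dat.fibC 118) = true ∧ allN 21 7 (dat.fibC 118) = true) ∧
    (allN 0 7 (dat.fibC 130) = true ∧ allN 7 7 (dat.fibC 130) = true ∧
      allN 14 7 (dat.fibC 130) = true ∧ allN 21 7 (dat.fibC 130) = true) :=
  ⟨⟨by decide +kernel, by decide +kernel, by decide +kernel, by decide +kernel⟩,
   ⟨by decide +kernel, by decide +kernel, by decide +kernel, by decide +kernel⟩,
   ⟨by decide +kernel, by decide +kernel, by decide +kernel, by decide +kernel⟩,
   ⟨by decide +kernel, by decide +kernel, by decide +kernel, by decide +kernel⟩,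
   ⟨by decide +kernel, by decide +kernel, by decide +kernel, by decide +kernel⟩,
   ⟨by decide +kernel, by decide +kernel, by decide +kernel, by decide +kernel⟩,
   ⟨by decide +kernel, by decide +kernel, by decide +kernel, by decide +kernel⟩,
   ⟨by decide +kernel, by decide +kernel, by decide +kernel, by decide +kernel⟩,
   ⟨by decide +kernel, by decide +kernel, by decide +kernel, by decide +kernel⟩,
   ⟨by decide +kernel, by decide +kernel, by decide +kernel, by decide +kernel⟩,
   ⟨by decide +kernel, by decide +kernel, by decide +kernel, by decide +kernel⟩⟩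

end Pool.Agent.MP_61a8e3_al.T

end
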