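import Pool.Agent.Mg.F61a8e3.Gabd557

section

/-! Part T: the checks on fibres, classes congruent to 1 modulo 12. -/

set_option autoImplicit false

namespace Pool.Agent.MP_61a8e3_al.T

theorem fbs1 :
    (allN 0 7 (dat.fibC 1) = true ∧ allN 7 7 (dat.fibC 1) = true ∧
      allN 14 7 (dat.fibC 1) = true ∧ allN 21 7 (dat.fibC 1) = true) ∧
    (allN 0 7 (dat.fibC 13) = true ∧ allN 7 7 (dat.fibC 13) = true ∧
      allN 14 7 (dat.fibC 13) = true ∧ allN 21 7 (dat.fibC 13) = true) ∧
    (allN 0 7 (dat.fibC 25) = true ∧ allN 7 7 (dat.fibC 25) = true ∧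
      allN 14 7 (dat.fibC 25) = true ∧ allN 21 7 (dat.fibC 25) = true) ∧
    (allN 0 7 (dat.fibC 37) = true ∧ allN 7 7 (dat.fibC 37) = true ∧
      allN 14 7 (dat.fibC 37) = true ∧ allN 21 7 (dat.fibC 37) = true) ∧
    (allN 0 7 (dat.fibC 49) = true ∧ allN 7 7 (dat.fibC 49) = true ∧
      allN 14 7 (dat.fibC 49) = true ∧ allN 21 7 (dat.fibC 49) = true) ∧
    (allN 0 7 (dat.fibC 61) = true ∧ allN 7 7 (dat.fibC 61) = true ∧
      allN 14 7 (dat.fibC 61) = true ∧ allN 21 7 (dat.fibC 61) = true) ∧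
    (allN 0 7 (dat.fibC 73) = true ∧ allN 7 7 (dat.fibC 73) = true ∧
      allN 14 7 (dat.fibC 73) = true ∧ allN 21 7 (dat.fibC 73) = true) ∧
    (allN 0 7 (dat.fibC 85) = true ∧ allN 7 7 (dat.fibC 85) = true ∧
      allN 14 7 (dat.fibC 85) = true ∧ allN 21 7 (dat.fibC 85) = true) ∧
    (allN 0 7 (dat.fibC 97) = true ∧ allN 7 7 (dat.fibC 97) = true ∧
      allN 14 7 (dat.fibC 97) = true ∧ allN 21 7 (dat.fibC 97) = true) ∧
    (allN 0 7 (dat.fibC 109) = true ∧ allN 7 7 (dat.fibC 109) = true ∧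
      allN 14 7 (dat.fibC 109) = true ∧ allN 21 7 (dat.fibC 109) = true) ∧
    (allN 0 7 (dat.fibC 121) = true ∧ allN 7 7 (dat.fibC 121) = true ∧
      allN 14 7 (dat.fibC 121) = true ∧ allN 21 7 (dat.fibC 121) = true) :=
  ⟨⟨by decide +kernel, by decide +kernel, by decide +kernel, by decide +kernel⟩,
   ⟨by decide +kernel, by decide +kernel, by decide +kernel, by decide +kernel⟩,
   ⟨by decide +kernel, by decide +kernel, by decide +kernel, by decide +kernel⟩,
   ⟨by decide +kernel, by decide +kernel, by decide +kernel, by decide +kernel⟩,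
   ⟨by decide +kernel, by decide +kernel, by decide +kernel, by decide +kernel⟩,
   ⟨by decide +kernel, by decide +kernel, by decide +kernel, by decide +kernel⟩,
   ⟨by decide +kernel, by decide +kernel, by decide +kernel, by decide +kernel⟩,
   ⟨by decide +kernel, by decide +kernel, by decide +kernel, by decide +kernel⟩,
   ⟨by decide +kernel, by decide +kernel, by decide +kernel, by decide +kernel⟩,
   ⟨by decide +kernel, by decide +kernel, by decide +kernel, by decide +kernel⟩,
   ⟨by decide +kernel, by decide +kernel, by decide +kernel, by decide +kernel⟩⟩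

end Pool.Agent.MP_61a8e3_al.T

end

section

/-! Part T: the checks on fibres, classes congruent to 5 modulo 12. -/

set_option autoImplicit false

namespace Pool.Agent.MP_61a8e3_al.T

theorem fbs5 :
    (allN 0 7 (dat.fibC 5) = true ∧ allN 7 7 (dat.fibC 5) = true ∧
      allN 14 7 (dat.fibC 5) = true ∧ allN 21 7 (dat.fibC 5) = true) ∧
    (allN 0 7 (dat.fibC 17) = true ∧ allN 7 7 (dat.fibC 17) = true ∧
      allN 14 7 (dat.fibC 17) = true ∧ allN 21 7 (dat.fibC 17) = true) ∧
    (allN 0 7 (dat.fibC 29) = true ∧ allN 7 7 (dat.fibC 29) = true ∧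
      allN 14 7 (dat.fibC 29) = true ∧ allN 21 7 (dat.fibC 29) = true) ∧
    (allN 0 7 (dat.fibC 41) = true ∧ allN 7 7 (dat.fibC 41) = true ∧
      allN 14 7 (dat.fibC 41) = true ∧ allN 21 7 (dat.fibC 41) = true) ∧
    (allN 0 7 (dat.fibC 53) = true ∧ allN 7 7 (dat.fibC 53) = true ∧
      allN 14 7 (dat.fibC 53) = true ∧ allN 21 7 (dat.fibC 53) = true) ∧
    (allN 0 7 (dat.fibC 65) = true ∧ allN 7 7 (dat.fibC 65) = true ∧
      allN 14 7 (dat.fibC 65) = true ∧ allN 21 7 (dat.fibC 65) = true) ∧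
    (allN 0 7 (dat.fibC 77) = true ∧ allN 7 7 (dat.fibC 77) = true ∧
      allN 14 7 (dat.fibC 77) = true ∧ allN 21 7 (dat.fibC 77) = true) ∧
    (allN 0 7 (dat.fibC 89) = true ∧ allN 7 7 (dat.fibC 89) = true ∧
      allN 14 7 (dat.fibC 89) = true ∧ allN 21 7 (dat.fibC 89) = true) ∧
    (allN 0 7 (dat.fibC 101) = true ∧ allN 7 7 (dat.fibC 101) = true ∧
      allN 14 7 (dat.fibC 101) = true ∧ allN 21 7 (dat.fibC 101) = true) ∧
    (allN 0 7 (dat.fibC 113) = true ∧ allN 7 7 (dat.fibC 113) = true ∧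
      allN 14 7 (dat.fibC 113) = true ∧ allN 21 7 (dat.fibC 113) = true) ∧
    (allN 0 7 (dat.fibC 125) = true ∧ allN 7 7 (dat.fibC 125) = true ∧
      allN 14 7 (dat.fibC 125) = true ∧ allN 21 7 (dat.fibC 125) = true) :=
  ⟨⟨by decide +kernel, by decide +kernel, by decide +kernel, by decide +kernel⟩,
   ⟨by decide +kernel, by decide +kernel, by decide +kernel, by decide +kernel⟩,
   ⟨by decide +kernel, by decide +kernel, by decide +kernel, by decide +kernel⟩,
   ⟨by decide +kernel, by decide +kernel, by decide +kernel, by decide +kernel⟩,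
   ⟨by decide +kernel, by decide +kernel, by decide +kernel, by decide +kernel⟩,
   ⟨by decide +kernel, by decide +kernel, by decide +kernel, by decide +kernel⟩,
   ⟨by decide +kernel, by decide +kernel, by decide +kernel, by decide +kernel⟩,
   ⟨by decide +kernel, by decide +kernel, by decide +kernel, by decide +kernel⟩,
   ⟨by decide +kernel, by decide +kernel, by decide +kernel, by decide +kernel⟩,
   ⟨by decide +kernel, by decide +kernel, by decide +kernel, by decide +kernel⟩,
   ⟨by decide +kernel, by decide +kernel, by decide +kernel, by decide +kernel⟩⟩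

end Pool.Agent.MP_61a8e3_al.T

end

section

/-! Part T: the checks on fibres, classes congruent to 9 modulo 12. -/

set_option autoImplicit false

namespace Pool.Agent.MP_61a8e3_al.T

theorem fbs9 :
    (allN 0 7 (dat.fibC 9) = true ∧ allN 7 7 (dat.fibC 9) = true ∧
      allN 14 7 (dat.fibC 9) = true ∧ allN 21 7 (dat.fibC 9) = true) ∧
    (allN 0 7 (dat.fibC 21) = true ∧ allN 7 7 (dat.fibC 21) = true ∧
      allN 14 7 (dat.fibC 21) = true ∧ allN 21 7 (dat.fibC 21) = true) ∧
    (allN 0 7 (dat.fibC 33) = true ∧ allN 7 7 (dat.fibC 33) = true ∧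
      allN 14 7 (dat.fibC 33) = true ∧ allN 21 7 (dat.fibC 33) = true) ∧
    (allN 0 7 (dat.fibC 45) = true ∧ allN 7 7 (dat.fibC 45) = true ∧
      allN 14 7 (dat.fibC 45) = true ∧ allN 21 7 (dat.fibC 45) = true) ∧
    (allN 0 7 (dat.fibC 57) = true ∧ allN 7 7 (dat.fibC 57) = true ∧
      allN 14 7 (dat.fibC 57) = true ∧ allN 21 7 (dat.fibC 57) = true) ∧
    (allN 0 7 (dat.fibC 69) = true ∧ allN 7 7 (dat.fibC 69) = true ∧
      allN 14 7 (dat.fibC 69) = true ∧ allN 21 7 (dat.fibC 69) = true) ∧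
    (allN 0 7 (dat.fibC 81) = true ∧ allN 7 7 (dat.fibC 81) = true ∧
      allN 14 7 (dat.fibC 81) = true ∧ allN 21 7 (dat.fibC 81) = true) ∧
    (allN 0 7 (dat.fibC 93) = true ∧ allN 7 7 (dat.fibC 93) = true ∧
      allN 14 7 (dat.fibC 93) = true ∧ allN 21 7 (dat.fibC 93) = true) ∧
    (allN 0 7 (dat.fibC 105) = true ∧ allN 7 7 (dat.fibC 105) = true ∧
      allN 14 7 (dat.fibC 105) = true ∧ allN 21 7 (dat.fibC 105) = true) ∧
    (allN 0 7 (dat.fibC 117) = true ∧ allN 7 7 (dat.fibC 117) = true ∧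
      allN 14 7 (dat.fibC 117) = true ∧ allN 21 7 (dat.fibC 117) = true) ∧
    (allN 0 7 (dat.fibC 129) = true ∧ allN 7 7 (dat.fibC 129) = true ∧
      allN 14 7 (dat.fibC 129) = true ∧ allN 21 7 (dat.fibC 129) = true) :=
  ⟨⟨by decide +kernel, by decide +kernel, by decide +kernel, by decide +kernel⟩,
   ⟨by decide +kernel, by decide +kernel, by decide +kernel, by decide +kernel⟩,
   ⟨by decide +kernel, by decide +kernel, by decide +kernel, by decide +kernel⟩,
   ⟨by decide +kernel, by decide +kernel, by decide +kernel, by decide +kernel⟩,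
   ⟨by decide +kernel, by decide +kernel, by decide +kernel, by decide +kernel⟩,
   ⟨by decide +kernel, by decide +kernel, by decide +kernel, by decide +kernel⟩,
   ⟨by decide +kernel, by decide +kernel, by decide +kernel, by decide +kernel⟩,
   ⟨by decide +kernel, by decide +kernel, by decide +kernel, by decide +kernel⟩,
   ⟨by decide +kernel, by decide +kernel, by decide +kernel, by decide +kernel⟩,
   ⟨by decide +kernel, by decide +kernel, by decide +kernel, by decide +kernel⟩,
   ⟨by decide +kernel, by decide +kernel, by decide +kernel, by decide +kernel⟩⟩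

end Pool.Agent.MP_61a8e3_al.T

end
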