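import Pool.Agent.Mg.F61a8e3.G14203e
import Pool.Agent.MP_61a8e3_al.DAff
import Pool.Agent.Mg.F61a8e3.Gabd557

section

/-! Part T: checked data give a rooted table. -/

set_option autoImplicit false

namespace Pool.Agent.MP_61a8e3_al.T

open A

namespace Data

variable {D : Data}

theorem okA_iff_TTab {a : ℕ} : D.okA a = true ↔ a / 16 < 131 ∧ a % 16 < D.per (a / 16) := by
  simp [okA, Nat.blt_eq]

theorem objC_TTab (h : D.Ok) {c : ℕ} (hc : c < 131) :
    0 < D.per c ∧ D.per c ∣ 12 ∧ shape (D.cwc c) = shape ((D.cwc c).rotate (D.per c)) ∧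
      (∀ j < D.per c, D.objA (16 * c + j) = true) ∧ decP (D.pk c) = D.cellsC c := by
  have := h.obj c hc
  simp only [objC, Bool.and_eq_true, Nat.blt_eq, beq_iff_eq, List.all_eq_true,
    List.mem_range] at this
  exact ⟨this.1.1.1.1, Nat.dvd_of_mod_eq_zero this.1.1.1.2, this.1.1.2, this.1.2, this.2⟩

theorem per_le_TTab (h : D.Ok) {c : ℕ} (hc : c < 131) : D.per c ≤ 12 :=
  Nat.le_of_dvd (by norm_num) (objC_TTab h hc).2.1

theorem objA_TTab (h : D.Ok) {a : ℕ} (ha : D.okA a = true) :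
    okShape (D.cw a) = true ∧ D.okA (D.sl a) = true ∧ D.sli (D.sl a) = a ∧
      shape (D.cw (D.sl a)) = shape (slide (D.cw a)) ∧ ∀ p ∈ progs (D.cw a),
        (p.1.1.all (fun j => j.2) = true ∧ p.2.1.all (fun j => j.2) = true) ∧
          D.prgI a p.1.1 p.1.2 = D.prgI a p.2.1 p.2.2 := by
  obtain ⟨h1, h2⟩ := okA_iff_TTab.1 ha
  have := (objC_TTab h h1).2.2.2.1 _ h2
  rw [Nat.div_add_mod, objA] at this
  simp only [Bool.and_eq_true, beq_iff_eq] at this
  refine ⟨this.1.1.1.1, this.1.1.1.2, this.1.1.2, this.1.2, fun p hp => ?_⟩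
  simpa only [Bool.and_eq_true, beq_iff_eq] using List.all_eq_true.1 this.2 p hp

theorem fibC_TTab (h : D.Ok) {c : ℕ} (hc : c < 131) (θ : Fin 28) :
    (∀ p ∈ D.cellsC c, ∀ v, runOps D.tab p.1 (θ, v) = runOps D.tab p.2 (θ, v)) ∧
      (∀ j < D.per c, herm (code D.tab (16 * c + j) θ) D.hc D.zr D.zi = true) ∧
      (D.per c ≠ 12 → herm (code D.tab (16 * c + 15) θ) D.hc D.zr D.zi = true) := by
  have := h.fibr c hc θ θ.2
  rw [fibC, an_eq, an_eq, Bool.and_eq_true, Bool.and_eq_true, allL_eq,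
    (objC_TTab h hc).2.2.2.2, List.all_eq_true] at this
  refine ⟨fun p hp => eqChk_sound _ _ _ θ (this.1 p hp), fun j hj => allN_spec this.2.1 j hj,
    fun hp => ?_⟩
  have h2 := this.2.2
  have e : Nat.beq (D.per c) 12 = false := by
    cases e : Nat.beq (D.per c) 12
    · rfl
    · exact absurd (Nat.eq_of_beq_eq_true e) hp
  rw [e] at h2
  exact (frc_eq (16 * c + 15) fun a => herm (code D.tab a θ) D.hc D.zr D.zi).symm.trans h2

theorem rotI_dm_TTab (h : D.Ok) {a : ℕ} (ha : D.okA a = true) (k : ℕ) :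
    D.rotI a k / 16 = a / 16 ∧ D.rotI a k % 16 = (a % 16 + k) % D.per (a / 16) := by
  have h1 := (okA_iff_TTab.1 ha).1
  have h2 := per_le_TTab h h1
  have h3 := Nat.mod_lt (a % 16 + k) (objC_TTab h h1).1
  rw [rotI]
  omega

theorem rotI_ok_TTab (h : D.Ok) {a : ℕ} (ha : D.okA a = true) (k : ℕ) :
    D.okA (D.rotI a k) = true := by
  have h1 := (okA_iff_TTab.1 ha).1
  rw [okA_iff_TTab, (rotI_dm_TTab h ha k).1, (rotI_dm_TTab h ha k).2]
  exact ⟨h1, Nat.mod_lt _ (objC_TTab h h1).1⟩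

/-- the rotation by `k` steps -/
def rot_TTab (h : D.Ok) (k : ℕ) (x : D.Xc) : D.Xc :=
  (⟨D.rotI x.1.1 k, rotI_ok_TTab h x.1.2 k⟩, runOps D.tab (D.rotO x.1.1 k) x.2)

theorem rot_add_TTab (h : D.Ok) (k l : ℕ) (x : D.Xc) :
    rot_TTab h l (rot_TTab h k x) = rot_TTab h (k + l) x := by
  obtain ⟨⟨a, ha⟩, xf⟩ := x
  obtain ⟨e1, e2⟩ := rotI_dm_TTab h ha k
  have hp := (objC_TTab h (okA_iff_TTab.1 ha).1).1
  refine Prod.ext (Subtype.ext ?_) ?_
  · change D.rotI (D.rotI a k) l = D.rotI a (k + l)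
    rw [rotI, e1, e2, rotI, Nat.mod_add_mod, add_assoc]
  · change runOps D.tab (D.rotO (D.rotI a k) l) (runOps D.tab (D.rotO a k) xf) =
      runOps D.tab (D.rotO a (k + l)) xf
    rw [← runOps_append]
    congr 1
    rw [rotO, rotO, rotO, e1, e2]
    split_ifs
    · rfl
    · rw [← List.replicate_add, ← add_assoc]
      congr 1
      conv_rhs => rw [← Nat.mod_add_div (a % 16 + k) (D.per (a / 16)), add_right_comm,
        Nat.add_mul_div_left _ _ hp, add_comm]

theorem rot_zero_TTab (h : D.Ok) (x : D.Xc) : rot_TTab h 0 x = x := by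
  obtain ⟨⟨a, ha⟩, xf⟩ := x
  have h2 := (okA_iff_TTab.1 ha).2
  refine Prod.ext (Subtype.ext ?_) ?_
  · change D.rotI a 0 = a
    rw [rotI, add_zero, Nat.mod_eq_of_lt h2, Nat.div_add_mod]
  · change runOps D.tab (D.rotO a 0) xf = xf
    rw [rotO, add_zero, Nat.div_eq_of_lt h2]
    split_ifs <;> rfl

theorem rot_twelve_TTab (h : D.Ok) (x : D.Xc) : rot_TTab h 12 x = x := by
  obtain ⟨⟨a, ha⟩, θ, v⟩ := x
  obtain ⟨h1, h2⟩ := okA_iff_TTab.1 ha
  obtain ⟨hp, ⟨m, hm⟩, -⟩ := objC_TTab h h1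
  refine Prod.ext (Subtype.ext ?_) ?_
  · change D.rotI a 12 = a
    rw [rotI, hm, Nat.add_mul_mod_self_left, Nat.mod_eq_of_lt h2, Nat.div_add_mod]
  · change runOps D.tab (D.rotO a 12) (θ, v) = (θ, v)
    have e : D.rotO a 12 = D.rotO (16 * (a / 16)) 12 := by
      rw [rotO, rotO, Nat.mul_div_cancel_left _ (by norm_num : 0 < 16), Nat.mul_mod_right]
      split_ifs
      · rfl
      · rw [hm, Nat.add_mul_div_left _ _ hp, Nat.add_mul_div_left _ _ hp, Nat.div_eq_of_lt h2,
          Nat.zero_div]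
    rw [e]
    exact (fibC_TTab h h1 θ).1 _ List.mem_cons_self v

/-- the rotation as a permutation -/
def rho_TTab (h : D.Ok) : Equiv.Perm D.Xc :=
  ⟨rot_TTab h 1, rot_TTab h 11, fun x => by rw [rot_add_TTab, rot_twelve_TTab],
    fun x => by rw [rot_add_TTab, rot_twelve_TTab]⟩

theorem rho_pow_TTab (h : D.Ok) (k : ℕ) (x : D.Xc) : (rho_TTab h ^ k) x = rot_TTab h k x := by
  induction k with
  | zero => rw [rot_zero_TTab]; rfl
  | succ k ih => rw [pow_succ', Equiv.Perm.mul_apply, ih, ← rot_add_TTab]; rfl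

/-- the slide -/
def sl_TTab (h : D.Ok) (x : D.Xc) : D.Xc :=
  (⟨D.sl x.1.1, (objA_TTab h x.1.2).2.1⟩, fib D.tab x.1.1 x.2)

/-- forward programs -/
def runF_TTab (h : D.Ok) : List (ℕ × Bool) → ℕ → D.Xc → D.Xc
  | [], k, x => rot_TTab h k x
  | j :: js, k, x => runF_TTab h js k (sl_TTab h (rot_TTab h j.1 x))

theorem runF_eq_TTab (h : D.Ok) (js : List (ℕ × Bool)) (k : ℕ) (x : D.Xc) :
    (runF_TTab h js k x).1.1 = D.prgI x.1.1 js k ∧
      (runF_TTab h js k x).2 = runOps D.tab (D.prgO x.1.1 js k) x.2 := by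
  induction js generalizing x with
  | nil => exact ⟨rfl, rfl⟩
  | cons j js ih =>
    refine ⟨(ih _).1, (ih _).2.trans ?_⟩
    rw [prgO, runOps_append]
    rfl

theorem cell_TTab (h : D.Ok) (x : D.Xc) (p) (hp : p ∈ progs (D.cw x.1.1)) :
    runF_TTab h p.1.1 p.1.2 x = runF_TTab h p.2.1 p.2.2 x := by
  obtain ⟨⟨a, ha⟩, θ, v⟩ := x
  obtain ⟨h1, h2⟩ := okA_iff_TTab.1 ha
  refine Prod.ext (Subtype.ext ?_) ?_
  · rw [(runF_eq_TTab h _ _ _).1, (runF_eq_TTab h _ _ _).1]
    exact ((objA_TTab h ha).2.2.2.2 p hp).2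
  · rw [(runF_eq_TTab h _ _ _).2, (runF_eq_TTab h _ _ _).2]
    refine (fibC_TTab h h1 θ).1 (D.prgO a p.1.1 p.1.2, D.prgO a p.2.1 p.2.2)
      (List.mem_cons_of_mem _ (List.mem_flatMap.2 ⟨a % 16, List.mem_range.2 h2, ?_⟩)) v
    rw [Nat.div_add_mod]
    exact List.mem_map.2 ⟨p, hp, rfl⟩

theorem tri_TTab {u : List L} (hu : okShape u = true) :
    ∃ js k, (((0, true) :: js, k), ([], 0)) ∈ progs u := by
  match u, hu with
  | a :: t :: U, _ =>
    rw [progs, fw, List.map_cons, simP, List.idxOf_cons_self]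
    exact ⟨_, _, List.mem_cons_self⟩

theorem sl_inj_TTab (h : D.Ok) : Function.Injective (sl_TTab h) := by
  intro x y e
  have e1 : x.1.1 = y.1.1 := by
    have : D.sl x.1.1 = D.sl y.1.1 := congrArg (fun z : D.Xc => z.1.1) e
    rw [← (objA_TTab h x.1.2).2.2.1, this, (objA_TTab h y.1.2).2.2.1]
  obtain ⟨js, k, hp⟩ := tri_TTab (objA_TTab h x.1.2).1
  have h1 := cell_TTab h x _ hp
  have h2 := cell_TTab h y _ (e1 ▸ hp)
  simp only [runF_TTab, rot_zero_TTab] at h1 h2
  rw [← h1, e, h2]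

/-- the form -/
def q_TTab (D : Data) (v : V) : ℤ := (Qf D.hc v).re

theorem q_zero_TTab (h : D.Ok) (v : V) (hv : D.q_TTab v = D.q_TTab 0) : v = 0 :=
  h.qzero v (hv.trans (by simp [q_TTab, Qf]))

theorem fib_aff_TTab (h : D.Ok) {a : ℕ}
    (ha : ∀ θ : Fin 28, herm (code D.tab a θ) D.hc D.zr D.zi = true) :
    IsAff D.q_TTab (fib D.tab a) := fun θ =>
  ⟨⟨_, tgt_lt (code D.tab a θ)⟩, AddMonoidHom.mk' (lin (entA (spr (code D.tab a θ)))) fun u v => by
      ext1 i; simp [lin, mul_add, Finset.sum_add_distrib],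
    fun i => entA (spr (code D.tab a θ)) i (Fin.last 8),
    fun v => congrArg Zsqrtd.re (herm_Qf _ _ _ _ (ha θ) h.hz v), fun _ => rfl⟩

theorem ops_aff_TTab (ops : List ℕ) (ha : ∀ a ∈ ops, IsAff D.q_TTab (fib D.tab a)) :
    IsAff D.q_TTab (runOps D.tab ops) := by
  induction ops with
  | nil => exact fun θ => ⟨θ, AddMonoidHom.id V, 0, fun _ => rfl, fun v => by simp [runOps]⟩
  | cons a ops ih =>
    intro θ
    obtain ⟨θ1, M1, b1, q1, e1⟩ := ha a List.mem_cons_self θ
    obtain ⟨θ2, M2, b2, q2, e2⟩ := ih (fun b hb => ha b (List.mem_cons_of_mem _ hb)) θ1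
    refine ⟨θ2, M2.comp M1, M2 b1 + b2, fun v => (q2 _).trans (q1 v), fun v => ?_⟩
    change runOps D.tab ops (fib D.tab a (θ, v)) = _
    rw [e1, e2, map_add, add_assoc]
    rfl

/-- regrouping -/
def asc_TTab (D : Data) : D.Xc ≃ ({a : ℕ // D.okA a = true} × Fin 28) × V :=
  (Equiv.prodAssoc _ _ _).symm

theorem aff_lift_TTab {g : D.Xc → D.Xc} (s : _ → _) (f : _ → Xf → Xf)
    (hg : ∀ a x, g (a, x) = (s a, f a x)) (hf : ∀ a, IsAff D.q_TTab (f a)) :
    IsAff D.q_TTab (D.asc_TTab ∘ g ∘ D.asc_TTab.symm) := by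
  rintro ⟨a, θ⟩
  obtain ⟨θ', M, b, q, e⟩ := hf a θ
  refine ⟨(s a, θ'), M, b, q, fun v => ?_⟩
  change D.asc_TTab (g (a, (θ, v))) = _
  rw [hg, e]
  rfl

theorem sl_aff_TTab (h : D.Ok) :
    IsAff D.q_TTab (D.asc_TTab ∘ sl_TTab h ∘ D.asc_TTab.symm) := by
  refine aff_lift_TTab (fun a => ⟨_, (objA_TTab h a.2).2.1⟩) (fun a => fib D.tab a.1)
    (fun _ _ => rfl) fun a => fib_aff_TTab h fun θ => ?_
  obtain ⟨h1, h2⟩ := okA_iff_TTab.1 a.2
  have := (fibC_TTab h h1 θ).2.1 _ h2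
  rwa [Nat.div_add_mod] at this

theorem rot_aff_TTab (h : D.Ok) (k : ℕ) :
    IsAff D.q_TTab (D.asc_TTab ∘ rot_TTab h k ∘ D.asc_TTab.symm) := by
  refine aff_lift_TTab (fun a => ⟨_, rotI_ok_TTab h a.2 k⟩) (fun a => runOps D.tab (D.rotO a.1 k))
    (fun _ _ => rfl) fun a => ops_aff_TTab _ fun b hb => fib_aff_TTab h fun θ => ?_
  rw [rotO] at hb
  split_ifs at hb with hp
  · exact absurd hb List.not_mem_nil
  · rw [List.eq_of_mem_replicate hb]
    exact (fibC_TTab h (okA_iff_TTab.1 a.2).1 θ).2.2 hp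

theorem sl_surj_TTab (h : D.Ok) : Function.Surjective (sl_TTab h) := by
  have : Finite {a : ℕ // D.okA a = true} :=
    ((Set.finite_lt_nat 2096).subset fun a (ha : D.okA a = true) => by
      have := (okA_iff_TTab.1 ha).1
      change a < 2096
      omega).to_subtype
  have h1 := IsAff.surjective D.q_TTab h.qfin (q_zero_TTab h) _ (sl_aff_TTab h)
    (D.asc_TTab.injective.comp ((sl_inj_TTab h).comp D.asc_TTab.symm.injective))
  exact ((Equiv.comp_surjective _ _).1 h1).of_comp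

theorem run_eq_TTab (h : D.Ok) (T : Equiv.Perm D.Xc) (hT : ∀ x, T x = sl_TTab h x)
    (js : List (ℕ × Bool)) (k : ℕ) (x : D.Xc) (hj : js.all (fun j => j.2) = true) :
    run T (rho_TTab h) js k x = runF_TTab h js k x := by
  induction js generalizing x with
  | nil => exact rho_pow_TTab h k x
  | cons j js ih =>
    rw [List.all_cons, Bool.and_eq_true] at hj
    rw [run, runF_TTab, if_pos hj.1, ih _ hj.2, hT, rho_pow_TTab]

theorem sh_rot_TTab (h : D.Ok) {a : ℕ} (ha : D.okA a = true) :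
    shape (D.cw (D.rotI a 1)) = shape ((D.cw a).rotate 1) := by
  obtain ⟨h1, h2⟩ := okA_iff_TTab.1 ha
  rw [cw, cw, (rotI_dm_TTab h ha 1).1, (rotI_dm_TTab h ha 1).2, List.rotate_rotate]
  rcases Nat.lt_or_eq_of_le (Nat.succ_le_of_lt h2) with h3 | h3
  · rw [Nat.mod_eq_of_lt h3]
  · rw [Nat.succ_eq_add_one] at h3
    rw [h3, Nat.mod_self, List.rotate_zero]
    exact (objC_TTab h h1).2.2.1

end Data

theorem Data.exists_tab (D : Data) (h : D.Ok) :
    ∃ Tb : Tab D.Xc, (∀ x, Tb.cw x = D.cw x.1.1) ∧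
      (∀ (js : List (ℕ × Bool)) (k : ℕ) (x : D.Xc), js.all (fun j => j.2) = true →
        (run Tb.T Tb.ρ js k x).1.1 = D.prgI x.1.1 js k ∧
          (run Tb.T Tb.ρ js k x).2 = runOps D.tab (D.prgO x.1.1 js k) x.2) ∧
      ∀ g ∈ Subgroup.closure ({Tb.T, Tb.ρ} : Set (Equiv.Perm D.Xc)), ∀ a θ,
        ∃ (a' : {a : ℕ // D.okA a = true}) (θ' : Fin 28) (M : V →+ V) (b : V),
          (∀ v, (Qf D.hc (M v)).re = (Qf D.hc v).re) ∧
            ∀ v, g (a, (θ, v)) = (a', (θ', M v + b)) := by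
  let T : Equiv.Perm D.Xc := Equiv.ofBijective _ ⟨sl_inj_TTab h, sl_surj_TTab h⟩
  have hT : ∀ x, T x = sl_TTab h x := fun _ => rfl
  refine ⟨⟨fun x => D.cw x.1.1, T, rho_TTab h, fun x => (objA_TTab h x.1.2).1,
    fun x => (objA_TTab h x.1.2).2.2.2.1, fun x => sh_rot_TTab h x.1.2,
    fun x => by rw [rho_pow_TTab, rot_twelve_TTab], fun x p hp => ?_⟩, fun _ => rfl,
    fun js k x hj => ?_, fun g hg a θ => ?_⟩
  · obtain ⟨⟨h1, h2⟩, -⟩ := (objA_TTab h x.1.2).2.2.2.2 p hp
    rw [run_eq_TTab h T hT _ _ _ h1, run_eq_TTab h T hT _ _ _ h2, cell_TTab h x p hp]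
  · change (run T (rho_TTab h) js k x).1.1 = _ ∧ (run T (rho_TTab h) js k x).2 = _
    rw [run_eq_TTab h T hT _ _ _ hj]
    exact runF_eq_TTab h js k x
  · let s : Set (Equiv.Perm (({a : ℕ // D.okA a = true} × Fin 28) × V)) := {g | IsAff D.q_TTab g}
    have h1 : D.asc_TTab.permCongrHom g ∈ Subgroup.closure s := by
      refine (Subgroup.closure_le ((Subgroup.closure s).comap
        D.asc_TTab.permCongrHom.toMonoidHom)).2 ?_ hg
      rintro _ (rfl | rfl)
      · exact Subgroup.subset_closure (sl_aff_TTab h)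
      · exact Subgroup.subset_closure (rot_aff_TTab h 1)
    obtain ⟨⟨a', θ'⟩, M, b, q, e⟩ :=
      isAff_closure D.q_TTab h.qfin (q_zero_TTab h) s (fun _ hg => hg) _ h1 (a, θ)
    exact ⟨a', θ', M, b, q, fun v => D.asc_TTab.injective (e v)⟩

end Pool.Agent.MP_61a8e3_al.T

end

section

set_option autoImplicit false

namespace Pool.Agent.MP_61a8e3_al.A

variable {E : Type} (S : SlideSys E)

theorem AE2_split {e : E} {c : L} {X1 U : List L} (h : S.w e = ↑(c :: X1 ++ U))
    (hc : bar c ∉ X1) : ∃ X2 Y : List L, U = X2 ++ bar c :: Y := by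
  have h1 := S.full e (bar c)
  rw [h, Cycle.mem_coe_iff, List.mem_append, List.mem_cons] at h1
  rcases h1 with (h1 | h1) | h1
  · exact absurd h1 (bar_ne c)
  · exact absurd h1 hc
  · exact List.append_of_mem h1

theorem AE2_step {e : E} {c x : L} {X' X2 Y : List L}
    (h : S.w e = ↑(c :: (x :: X') ++ (X2 ++ bar c :: Y))) :
    S.w (S.R c e) = ↑(c :: X' ++ (X2 ++ x :: bar c :: Y)) := by
  have h1 := S.w_R e c x (X' ++ X2) Y (by rw [h]; simp)
  rw [h1]; simp

theorem AE2_step' {e : E} {c x : L} {X' U : List L} (h : S.w e = ↑(c :: (x :: X') ++ U))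
    (hc : bar c ∉ x :: X') : ∃ U' : List L, S.w (S.R c e) = ↑(c :: X' ++ U') := by
  obtain ⟨X2, Y, rfl⟩ := AE2_split S h hc
  exact ⟨_, AE2_step S h⟩

theorem AE2_nodup {e : E} {l : List L} (h : S.w e = ↑l) : l.Nodup := by
  have h1 := S.nodup e
  rwa [h, Cycle.nodup_coe_iff] at h1

theorem AE2_SGR (c d u : L) (h1 : d ≠ c) (h2 : d ≠ bar c) (h3 : u ≠ c) (h4 : u ≠ bar c) (n : ℕ) :
    ∀ (e : E) (X1 U : List L) (k : ℕ), X1.length = n → S.w e = ↑(c :: X1 ++ U) → bar c ∉ X1 →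
      Nx (S.w e) d u → (d ∈ X1 ↔ u ∈ X1) →
      k + (if u ∈ X1 then 1 else 0) = X1.length + (if bar d ∈ X1 then 1 else 0) →
      S.R d ((S.R c ^ X1.length) e) = (S.R c ^ k) (S.R d e) := by
  induction n using Nat.strong_induction_on with
  | _ n ih =>
  intro e X1 U k hn h hc hu h5 hk
  rcases X1 with _ | ⟨x, X'⟩
  · have : k = 0 := by simpa using hk
    subst this
    simp
  have hnd := AE2_nodup S h
  have hcx : Nx (S.w e) c x := ⟨X' ++ U, by rw [h]; simp⟩
  have hub : u ≠ bar d := fun hh => S.nobar e d (hh ▸ hu)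
  have hdu : d ≠ u := Nx_ne (S.nodup e) hu
  have hdb : d ≠ bar d := (bar_ne d).symm
  have hxX : x ∉ X' := by
    simp only [List.cons_append, List.nodup_cons, List.mem_append, not_or] at hnd
    exact hnd.2.1.1
  have hc' : bar c ∉ X' := fun hh => hc (List.mem_cons_of_mem _ hh)
  obtain ⟨X2, Y, rfl⟩ := AE2_split S h hc
  have he1 := AE2_step S h
  rw [List.length_cons] at hn
  by_cases hxd : x = d
  · subst hxd
    have huX : u ∈ X' := by
      have := h5.1 List.mem_cons_self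
      rcases List.mem_cons.1 this with hh | hh
      · exact absurd hh.symm hdu
      · exact hh
    rcases X' with _ | ⟨y, X''⟩
    · simp at huX
    have hy : Nx (S.w e) x y := Nx_of_mid [c] (X'' ++ (X2 ++ bar c :: Y)) (by rw [h]; simp)
    have hyu : y = u := Nx_unique (S.nodup e) hy hu
    subst hyu
    have he1' : S.w (S.R c e) = ↑(c :: (y :: X'') ++ ((X2 ++ [x]) ++ bar c :: Y)) := by
      rw [he1]; simp
    have he2 := AE2_step S he1'
    have hyX : y ∉ X'' := by
      simp only [List.cons_append, List.nodup_cons, List.mem_append, not_or] at hnd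
      exact hnd.2.2.1.1
    have hxX' : x ∉ X'' := fun hh => hxX (List.mem_cons_of_mem _ hh)
    have hc'' : bar c ∉ X'' := fun hh => hc' (List.mem_cons_of_mem _ hh)
    have hu2 : Nx (S.w (S.R c (S.R c e))) x y :=
      Nx_of_mid (c :: X'' ++ X2) (bar c :: Y) (by rw [he2]; simp)
    rw [List.length_cons] at hn
    have hb : bar x ∈ x :: y :: X'' ↔ bar x ∈ X'' := by
      simp only [List.mem_cons, hdb.symm, hub.symm, false_or]
    have hk2 : k = X''.length + (if bar x ∈ X'' then 1 else 0) + 1 := by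
      rw [if_pos (List.mem_cons_of_mem _ List.mem_cons_self)] at hk
      simp only [hb, List.length_cons] at hk
      omega
    have key := ih X''.length (by omega) (S.R c (S.R c e)) X'' _
      (X''.length + (if bar x ∈ X'' then 1 else 0)) rfl he2 hc'' hu2 (by simp [hxX', hyX])
      (by rw [if_neg hyX, add_zero])
    rw [S.pent e c x y hcx hu h4] at key
    rw [hk2, List.length_cons, List.length_cons, pow_succ, pow_succ, pow_succ]
    simpa only [Equiv.Perm.mul_apply] using key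
  have hxu : x ≠ u := fun hh => h1 (Nx_unique_left (S.nodup e) hu (hh ▸ hcx))
  have hu1 : Nx (S.w (S.R c e)) d u := Nx_R S hcx hu h1 (Ne.symm hxd) h4
  have h5' : d ∈ X' ↔ u ∈ X' := by
    simpa only [List.mem_cons, Ne.symm hxd, hxu.symm, false_or] using h5
  have hule : (if u ∈ X' then 1 else 0) ≤ X'.length := by
    split_ifs with hh
    · exact List.length_pos_of_mem hh
    · exact Nat.zero_le _
  have hu0 : u ∈ x :: X' ↔ u ∈ X' := by simp only [List.mem_cons, hxu.symm, false_or]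
  simp only [hu0, List.length_cons] at hk
  by_cases hxb : x = bar d
  · subst hxb
    rw [if_pos List.mem_cons_self] at hk
    obtain ⟨k', rfl⟩ : ∃ k', k = k' + 2 := ⟨k - 2, by omega⟩
    have key := ih X'.length (by omega) (S.R c e) X' _ k' rfl he1 hc' hu1 h5'
      (by rw [if_neg hxX]; omega)
    rw [← S.pent2 e c d u hcx hu h3 h4] at key
    rw [List.length_cons, pow_succ, pow_succ, pow_succ]
    simpa only [Equiv.Perm.mul_apply] using key
  · have hb : bar d ∈ x :: X' ↔ bar d ∈ X' := by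
      simp only [List.mem_cons, Ne.symm hxb, false_or]
    simp only [hb] at hk
    obtain ⟨k', rfl⟩ : ∃ k', k = k' + 1 := ⟨k - 1, by omega⟩
    have key := ih X'.length (by omega) (S.R c e) X' _ k' rfl he1 hc' hu1 h5' (by omega)
    rw [← S.comm e c d x u hcx hu h1.symm hxd hxb h3 h4] at key
    rw [List.length_cons, pow_succ, pow_succ]
    simpa only [Equiv.Perm.mul_apply] using key

/-- One slide of `d` against the passage of `c` over a block. -/
theorem SGR {e : E} {c d u : L} {X1 U : List L} {k : ℕ} (h : S.w e = ↑(c :: X1 ++ U))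
    (hc : bar c ∉ X1) (hu : Nx (S.w e) d u) (h1 : d ≠ c) (h2 : d ≠ bar c) (h3 : u ≠ c)
    (h4 : u ≠ bar c) (h5 : d ∈ X1 ↔ u ∈ X1)
    (hk : k + (if u ∈ X1 then 1 else 0) = X1.length + (if bar d ∈ X1 then 1 else 0)) :
    S.R d ((S.R c ^ X1.length) e) = (S.R c ^ k) (S.R d e) := by
  exact AE2_SGR S c d u h1 h2 h3 h4 _ e X1 U k rfl h hc hu h5 hk

/-- The passage of `d` over a block `Z` against the passage of `c` over a disjoint block. -/
theorem SGZ {e : E} {c d : L} {X1 U Z V : List L} (h : S.w e = ↑(c :: X1 ++ U))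
    (hc : bar c ∉ X1) (hz : S.w e = ↑(d :: Z ++ V)) (h1 : d ≠ c) (h2 : d ≠ bar c)
    (h3 : d ∉ X1) (h4 : ∀ z ∈ Z, z ≠ c ∧ z ≠ bar c ∧ z ≠ bar d ∧ z ∉ X1) :
    (S.R d ^ Z.length) ((S.R c ^ X1.length) e) =
      (S.R c ^ (X1.length + if bar d ∈ X1 then Z.length else 0)) ((S.R d ^ Z.length) e) := by
  induction Z generalizing e X1 U V with
  | nil => simp
  | cons u Z' ih =>
    have hu : Nx (S.w e) d u := ⟨Z' ++ V, by rw [hz]; simp⟩
    obtain ⟨u1, u2, -, u4⟩ := h4 u List.mem_cons_self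
    have hdu : d ≠ u := Nx_ne (S.nodup e) hu
    have hnd := AE2_nodup S hz
    have huZ : u ∉ Z' := by
      simp only [List.cons_append, List.nodup_cons, List.mem_append, not_or] at hnd
      exact hnd.2.1.1
    have h4' : ∀ z ∈ Z', z ≠ c ∧ z ≠ bar c ∧ z ≠ bar d ∧ z ∉ X1 :=
      fun z hz' => h4 z (List.mem_cons_of_mem _ hz')
    obtain ⟨V', hV'⟩ := AE2_step' S hz (fun hh => (h4 _ hh).2.2.1 rfl)
    have hs := SGR S (k := X1.length + (if bar d ∈ X1 then 1 else 0)) h hc hu h1 h2 u1 u2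
      (by simp [h3, u4]) (by rw [if_neg u4, add_zero])
    have hcb : c ≠ bar d := fun hh => h2 (by rw [hh, bar_bar])
    obtain ⟨b1, b2⟩ := block_R S h hu (by simp [h1, h3]) (by simp [u1, u4]) hcb
    rw [List.length_cons, pow_succ, Equiv.Perm.mul_apply, Equiv.Perm.mul_apply, hs]
    by_cases hb : bar d ∈ X1
    · obtain ⟨P, Q, hPQ⟩ := List.append_of_mem hb
      obtain ⟨U', hU'⟩ := b2 P Q hPQ
      have hmem : ∀ z, z ∈ P ++ u :: bar d :: Q ↔ z = u ∨ z ∈ X1 := by
        intro z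
        rw [hPQ]
        simp only [List.mem_append, List.mem_cons]
        tauto
      have hlen : (P ++ u :: bar d :: Q).length = X1.length + 1 := by
        rw [hPQ]; simp only [List.length_append, List.length_cons]; omega
      have key := ih (e := S.R d e) (X1 := P ++ u :: bar d :: Q) (U := U') (V := V')
        (by rw [hU']; simp) (by rw [hmem]; simp [u2.symm, hc]) hV' (by rw [hmem]; simp [hdu, h3])
        (fun z hz' => ⟨(h4' z hz').1, (h4' z hz').2.1, (h4' z hz').2.2.1, by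
          rw [hmem]
          rintro (hh | hh)
          · exact huZ (hh ▸ hz')
          · exact (h4' z hz').2.2.2 hh⟩)
      rw [hlen, if_pos ((hmem _).2 (Or.inr hb))] at key
      rw [if_pos hb, if_pos hb, key]
      congr 2
      omega
    · obtain ⟨U', hU'⟩ := b1 hb
      have key := ih (e := S.R d e) hU' hc hV' h3 h4'
      rw [if_neg hb] at key
      rw [if_neg hb, if_neg hb]
      exact key

end Pool.Agent.MP_61a8e3_al.A

end

section

set_option autoImplicit false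

namespace Pool.Agent.MP_61a8e3_al.A

variable {E : Type} (S : SlideSys E)

theorem AE3_i1 (p : Equiv.Perm E) (n : ℕ) (x : E) : (p ^ n) ((p⁻¹ ^ n) x) = x := by
  rw [← Equiv.Perm.mul_apply, inv_pow, mul_inv_cancel, Equiv.Perm.one_apply]

theorem AE3_i2 (p : Equiv.Perm E) (n : ℕ) (x : E) : (p⁻¹ ^ n) ((p ^ n) x) = x := by
  rw [← Equiv.Perm.mul_apply, inv_pow, inv_mul_cancel, Equiv.Perm.one_apply]

theorem AE3_add (p : Equiv.Perm E) (m n : ℕ) (x : E) : (p ^ (m + n)) x = (p ^ m) ((p ^ n) x) := by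
  rw [pow_add, Equiv.Perm.mul_apply]

theorem AE3_sc {r p q : Equiv.Perm E} (h : SemiconjBy r p q) (x : E) : q (r x) = r (p x) := by
  rw [← Equiv.Perm.mul_apply, ← h.eq, Equiv.Perm.mul_apply]

theorem AE3_rl (π : W) {x y : L} (h : π.1 x = y) : SemiconjBy (S.rl π) (S.R x) (S.R y) :=
  h ▸ S.rl_R π x

theorem AE3_bar (a : L) (m n : ℕ) (x : E) :
    (S.R a ^ n) (((S.R (bar a))⁻¹ ^ m) x) = ((S.R (bar a))⁻¹ ^ m) ((S.R a ^ n) x) :=
  AE3_sc (((commute_bar S a).inv_right.pow_pow n m).symm) x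

theorem AE3_nd {e : E} {l : List L} (h : S.w e = ↑l) : l.Nodup := by
  have := S.nodup e
  rw [h] at this
  exact Cycle.nodup_coe_iff.1 this

/-- the word after a general move of `b`, seen from `bar b` and from a block away from it -/
theorem AE3_word {e : E} {b d : L} {X1 T1 Z T2 Y2 : List L}
    (h : S.w e = ↑(b :: X1 ++ T1 ++ d :: Z ++ T2 ++ Y2)) (hb : bar b ∈ T1 ∨ bar b ∈ T2) :
    ∃ U V : List L,
      S.w (((S.R (bar b))⁻¹ ^ Y2.length) ((S.R b ^ X1.length) e)) = ↑(bar b :: Y2 ++ U) ∧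
      S.w (((S.R (bar b))⁻¹ ^ Y2.length) ((S.R b ^ X1.length) e)) = ↑(d :: Z ++ V) := by
  rcases hb with hb | hb
  · obtain ⟨P, Q, rfl⟩ := List.append_of_mem hb
    have h1 := w_Mv S (a := b) (X1 := X1) (X2 := P) (Y1 := Q ++ d :: Z ++ T2) (Y2 := Y2)
      (h.trans (congrArg _ (by simp)))
    exact ⟨Q ++ d :: Z ++ T2 ++ b :: P ++ X1, T2 ++ b :: P ++ X1 ++ bar b :: Y2 ++ Q,
      h1.trans (cyc_of_eq (b :: P ++ X1) (bar b :: Y2 ++ Q ++ d :: Z ++ T2) (by simp) (by simp)),
      h1.trans (cyc_of_eq (b :: P ++ X1 ++ bar b :: Y2 ++ Q) (d :: Z ++ T2) (by simp) (by simp))⟩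
  · obtain ⟨P, Q, rfl⟩ := List.append_of_mem hb
    have h1 := w_Mv S (a := b) (X1 := X1) (X2 := T1 ++ d :: Z ++ P) (Y1 := Q) (Y2 := Y2)
      (h.trans (congrArg _ (by simp)))
    exact ⟨Q ++ b :: T1 ++ d :: Z ++ P ++ X1, P ++ X1 ++ bar b :: Y2 ++ Q ++ b :: T1,
      h1.trans (cyc_of_eq (b :: T1 ++ d :: Z ++ P ++ X1) (bar b :: Y2 ++ Q) (by simp) (by simp)),
      h1.trans (cyc_of_eq (b :: T1) (d :: Z ++ P ++ X1 ++ bar b :: Y2 ++ Q) (by simp) (by simp))⟩

theorem AE3_s1 {a b : L} {π : W} (hπ : IsTri π a b) (M : List L) : ∀ (e : E) (V : List L),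
    S.w e = ↑(a :: M ++ b :: V) → bar a ∈ V → bar b ∈ V →
    ((S.R (bar b))⁻¹ ^ M.length) (S.R b ((S.R a ^ (M.length + 1)) e)) =
      S.rl π (((S.R (bar b))⁻¹ ^ (M.length + 1)) e) := by
  induction M with
  | nil =>
    intro e V h _ _
    have h1 := S.tri e a b π ⟨V, h⟩ hπ
    have h2 : π.1 (bar b) = bar a := by rw [W_bar, hπ.1]
    simp only [List.length_nil, pow_zero, zero_add, pow_one, Equiv.Perm.one_apply]
    rw [← AE3_sc (AE3_rl S π h2).inv_right, ← h1]
    simp
  | cons u M ih =>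
    intro e V h ha hb
    have hn := AE3_nd S h
    obtain ⟨V1, V2, hV⟩ := List.append_of_mem ha
    obtain ⟨P, Q, hP⟩ := List.append_of_mem hb
    have h1 : S.w (S.R a e) = ↑(a :: M ++ b :: (V1 ++ u :: bar a :: V2)) :=
      (S.w_R e a u (M ++ b :: V1) V2 (h.trans (congrArg _ (by simp [hV])))).trans
        (congrArg _ (by simp))
    have h2 := ih _ _ h1 (by simp) (by rw [hV] at hb; simp at hb ⊢; tauto)
    have h3 := w_Rinvpow S (e := e) (a := bar b) (X1 := a :: u :: M) (X2 := Q) (Y := P)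
      (h.trans (cyc_of_eq (a :: u :: M ++ b :: P) (bar b :: Q) (by simp [hP]) (by simp)))
    have hu : Nx (S.w (((S.R (bar b))⁻¹ ^ (a :: u :: M).length) e)) a u :=
      Nx_of_mid [bar b] (M ++ Q ++ b :: P) (h3.trans (congrArg _ (by simp)))
    simp only [List.nodup_cons, List.nodup_append, List.mem_append, List.mem_cons,
      List.cons_append] at hn
    have hba : bar a ∉ a :: u :: M := by grind
    have h4 := SGR S (k := M.length + 1) (c := bar b) (X1 := a :: u :: M)
      (U := Q ++ bar (bar b) :: P)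
      (h3.trans (congrArg _ (by simp))) (by grind [bar_bar]) hu (by grind) (by grind [bar_bar])
      (by grind) (by grind [bar_bar]) (by simp) (by simp [hba])
    rw [AE3_i1] at h4
    rw [h4, AE3_i2] at h2
    rw [List.length_cons, pow_succ' (S.R (bar b))⁻¹ M.length, pow_succ (S.R a),
      Equiv.Perm.mul_apply, Equiv.Perm.mul_apply, h4, h2, AE3_sc (AE3_rl S π hπ.2.1).inv_right]
    exact congrArg _ (by simp)

theorem AE3_s2 {a b : L} {π : W} (hπ : IsTri π a b) {M Z V : List L} {e : E}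
    (h : S.w e = ↑(a :: M ++ b :: Z ++ V)) (ha : bar a ∈ V) (hb : bar b ∈ V) :
    ((S.R (bar b))⁻¹ ^ M.length) ((S.R b ^ (Z.length + 1))
        ((S.R a ^ (M.length + 1 + Z.length)) e)) =
      S.rl π (((S.R (bar b))⁻¹ ^ (M.length + 1)) ((S.R b ^ Z.length) e)) := by
  have hn := AE3_nd S h
  have h0 := AE3_s1 S hπ M e (Z ++ V) (h.trans (congrArg _ (by simp))) (by simp [ha])
    (by simp [hb])
  obtain ⟨V1, V2, hV⟩ := List.append_of_mem ha
  have h1 := w_Rpow S (e := e) (a := a) (X1 := M ++ [b]) (X2 := Z ++ V1) (Y := V2)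
    (h.trans (congrArg _ (by simp [hV])))
  rw [List.length_append, List.length_singleton] at h1
  simp only [List.nodup_cons, List.nodup_append, List.mem_append, List.mem_cons,
    List.cons_append] at hn
  have hab : bar b ≠ bar a := fun h => by have := bar_inj h; grind
  have h2 : S.w ((S.R a ^ (M.length + 1)) e) = ↑(b :: [bar a] ++ V2 ++ a :: Z ++ V1 ++ M) :=
    h1.trans (cyc_of_eq (a :: Z ++ V1 ++ M) (b :: bar a :: V2) (by simp) (by simp))
  have h3 := SGZ S (c := b) (d := a) (X1 := [bar a]) (Z := Z) (U := V2 ++ a :: Z ++ V1 ++ M)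
    (V := V1 ++ M ++ b :: bar a :: V2) (h2.trans (congrArg _ (by simp))) (by simpa using hab)
    (h1.trans (congrArg _ (by simp))) (by grind) (by grind) (by grind) (by grind)
  obtain ⟨U', V', h4, h5⟩ := AE3_word S h2 (by rw [hV] at hb; simp [hab] at hb; tauto)
  have h6 := SGZ S h4 (by grind [bar_bar]) h5 (by grind) (by grind [bar_bar]) (by grind)
    (by grind [bar_bar])
  have hba : bar a ∉ M := by grind
  simp only [List.length_singleton, pow_one, List.mem_singleton, if_true, hba, if_false,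
    add_zero, AE3_i1] at h3 h6
  rw [add_comm _ Z.length, AE3_add (S.R a), add_comm Z.length, ← h3, h6,
    AE3_i2, h0, AE3_sc ((AE3_rl S π hπ.1).pow_right _), AE3_bar]

/-- The general triangle. -/
theorem T1E {e : E} {a b : L} {U1 U2 U3 V : List L} {π : W}
    (h : S.w e = ↑(U1 ++ a :: U2 ++ b :: U3 ++ V)) (ha : bar a ∈ V) (hb : bar b ∈ V)
    (hπ : IsTri π a b) :
    S.Mv b U2.length (U3.length + 1 + U1.length)
        (S.Mv a U1.length (U2.length + 1 + U3.length) e) =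
      S.rl π (S.Mv b (U1.length + 1 + U2.length) U3.length e) := by
  have hn := AE3_nd S h
  obtain ⟨V1, V2, hV⟩ := List.append_of_mem ha
  have h1 := w_Rinvpow S (e := e) (a := bar a) (X1 := U1) (X2 := V2) (Y := U2 ++ b :: U3 ++ V1)
    (h.trans (cyc_of_eq (U1 ++ a :: U2 ++ b :: U3 ++ V1) (bar a :: V2) (by simp [hV]) (by simp)))
  rw [bar_bar] at h1
  simp only [List.nodup_cons, List.nodup_append, List.mem_append, List.mem_cons] at hn
  have hab : bar b ≠ bar a := fun h => by have := bar_inj h; grind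
  have hb' : bar b ∈ V1 ∨ bar b ∈ V2 := by rw [hV] at hb; simpa [hab] using hb
  have h0 := AE3_s2 S hπ (M := U2) (Z := U3) (V := V1 ++ bar a :: U1 ++ V2)
    (h1.trans (cyc_of_eq (bar a :: U1 ++ V2) (a :: U2 ++ b :: U3 ++ V1) (by simp) (by simp)))
    (by simp) (by simp; tauto)
  have h2 : S.w (((S.R (bar a))⁻¹ ^ U1.length) e) =
      ↑(b :: U3 ++ V1 ++ bar a :: U1 ++ V2 ++ a :: U2) :=
    h1.trans (cyc_of_eq (bar a :: U1 ++ V2 ++ a :: U2) (b :: U3 ++ V1) (by simp) (by simp))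
  have h3 := SGZ S (c := b) (d := bar a) (X1 := U3) (Z := U1)
    (U := V1 ++ bar a :: U1 ++ V2 ++ a :: U2) (V := V2 ++ a :: U2 ++ b :: U3 ++ V1)
    (h2.trans (congrArg _ (by simp))) (by grind) (h1.trans (congrArg _ (by simp))) (by grind)
    hab.symm (by grind) (by grind [bar_bar])
  obtain ⟨U', V', h4, h5⟩ := AE3_word S h2 hb'
  have h6 := SGZ S h4 (by grind [bar_bar]) h5 hab.symm (by grind [bar_bar]) (by grind)
    (by grind [bar_bar])
  have hba : a ∉ U3 := by grind
  simp only [bar_bar, List.mem_cons, true_or, if_true, hba, if_false, add_zero, AE3_i1,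
    List.length_cons] at h3 h6
  have hp : π.1 (bar a) = b := by rw [W_bar, hπ.2.1, bar_bar]
  simp only [SlideSys.Mv, Equiv.Perm.mul_apply]
  rw [← AE3_bar S a, add_comm _ U1.length, AE3_add (S.R b), ← AE3_bar S b, h0,
    AE3_sc ((AE3_rl S π hp).pow_right _), ← h3, h6,
    show U1.length + 1 + U2.length = U2.length + 1 + U1.length by omega, AE3_i2]

end Pool.Agent.MP_61a8e3_al.A

end

section

set_option autoImplicit false

namespace Pool.Agent.MP_61a8e3_al.A

variable {E : Type} (S : SlideSys E)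

theorem AMov3_fix {π : W} {a b : L} (h : IsTri π a b) {x : Option L} (h1 : x ≠ some a)
    (h2 : x ≠ some (bar a)) (h3 : x ≠ some b) (h4 : x ≠ some (bar b)) : Option.map π.1 x = x := by
  cases x with
  | none => rfl
  | some l =>
    refine congrArg some (h.2.2 l (fun e => ?_) fun e => ?_)
    · exact (eq_or_bar e).elim (fun e => h1 (e ▸ rfl)) fun e => h2 (e ▸ rfl)
    · exact (eq_or_bar e).elim (fun e => h3 (e ▸ rfl)) fun e => h4 (e ▸ rfl)

theorem AMov3_map {π : W} {a b : L} (h : IsTri π a b) {U : List (Option L)} (h1 : some a ∉ U)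
    (h2 : some (bar a) ∉ U) (h3 : some b ∉ U) (h4 : some (bar b) ∉ U) :
    U.map (Option.map π.1) = U :=
  (List.map_congr_left fun _ hx => AMov3_fix h (fun e => h1 (e ▸ hx)) (fun e => h2 (e ▸ hx))
    (fun e => h3 (e ▸ hx)) fun e => h4 (e ▸ hx)).trans (List.map_id _)

theorem AMov3_cnt (U V : List (Option L)) (a : L) :
    cnt (U ++ some a :: V) = cnt U + 1 + cnt V := by
  simp only [cnt, List.reduceOption_append, List.reduceOption_cons_of_some, List.length_append,
    List.length_cons]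
  omega

/-- the move given by an explicit decomposition -/
theorem AMov3_eq {s s' : St E} (hs : Ok S s) {a : L} {A : Finset (Option L)} (h : Mov S s a A s')
    {X1 X2 Y1 Y2 : List (Option L)}
    (ho : s.v.o = ↑(some a :: X1 ++ X2 ++ some (bar a) :: Y1 ++ Y2))
    (hA : ∀ x, x ∈ A ↔ x = some a ∨ x ∈ X1 ∨ x ∈ Y2) :
    s' = ⟨⟨wh a A * s.v.β, ↑(some a :: X2 ++ X1 ++ some (bar a) :: Y2 ++ Y1)⟩,
      S.Mv a (cnt Y2) (cnt X1) s.e⟩ :=
  mov_unique S hs h ⟨_, _, ⟨X1, X2, Y1, Y2, ho, hA, rfl, rfl, rfl, rfl⟩, rfl⟩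

theorem AMov3_one {s sa sb : St E} (hs : Ok S s) {a b : L} {A : Finset (Option L)}
    (ha : Mov S s a A sa) (hb : Mov S s b A sb) {U1 U2 U3 X2 Y1 : List (Option L)}
    (ho : s.v.o = ↑(some a :: (U2 ++ some b :: U3) ++ X2 ++ some (bar a) :: Y1 ++ U1))
    (hA : ∀ x, x ∈ A ↔ x = some a ∨ x ∈ U2 ++ some b :: U3 ∨ x ∈ U1) {π : W} (hπ : IsTri π a b) :
    Mov S sa b (insert (some (bar a)) (A.erase (some a))) (sact S π sb) := by
  obtain ⟨a1, a2, -⟩ := ha.mem S hs
  obtain ⟨b1, b2, -⟩ := hb.mem S hs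
  have hn := hs.1.1
  have hf := hs.1.2.1 (some (bar b))
  rw [ho] at hn hf
  rw [Cycle.nodup_coe_iff] at hn
  rw [Cycle.mem_coe_iff] at hf
  have hab : a ≠ b := by
    rintro rfl
    simp at hn
  have hab' : bar b ≠ bar a := fun e => hab (bar_inj e).symm
  have hm : some (bar b) ∈ X2 ∨ some (bar b) ∈ Y1 := by
    have := hA (some (bar b))
    simp only [List.mem_append, List.mem_cons, Option.some.injEq] at hf this
    tauto
  have p1 : π.1 (bar a) = b := by rw [W_bar, hπ.2.1, bar_bar]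
  have p2 : π.1 (bar b) = bar a := by rw [W_bar, hπ.1]
  have hA' : ∀ x, x ∈ A ↔ x = some b ∨ x ∈ U3 ∨ x ∈ U1 ++ some a :: U2 := fun x => by
    simp only [hA, List.mem_append, List.mem_cons]
    tauto
  have hA'' : ∀ x, x ∈ insert (some (bar a)) (A.erase (some a)) ↔
      x = some b ∨ x ∈ U3 ++ some (bar a) :: U1 ∨ x ∈ U2 := fun x => by
    have : x = some a → ¬ (x ∈ U2 ∨ x = some b ∨ x ∈ U3 ∨ x ∈ U1) := by
      rintro rfl
      simp only [List.cons_append, List.nodup_cons, List.mem_append, List.mem_cons] at hn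
      tauto
    simp only [Finset.mem_insert, Finset.mem_erase, hA, List.mem_append, List.mem_cons]
    tauto
  have hβ : relA π * (wh b A * s.v.β) =
      wh b (insert (some (bar a)) (A.erase (some a))) * (wh a A * s.v.β) := by
    rw [← mul_assoc, ← mul_assoc, wh_tri hab a1 a2 b1 b2 hπ]
  have he : S.rl π (S.Mv b (cnt (U1 ++ some a :: U2)) (cnt U3) s.e) =
      S.Mv b (cnt U2) (cnt (U3 ++ some (bar a) :: U1))
        (S.Mv a (cnt U1) (cnt (U2 ++ some b :: U3)) s.e) := by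
    simp only [AMov3_cnt]
    refine (T1E S (V := (X2 ++ some (bar a) :: Y1).reduceOption) ?_ ?_ ?_ hπ).symm
    · rw [hs.2, ho, red_coe]
      exact cyc_of_eq _ U1.reduceOption (List.reduceOption_append _ _)
        (by simp [List.reduceOption_append])
    · simp [List.reduceOption_mem_iff]
    · simpa only [List.reduceOption_mem_iff, List.mem_append, List.mem_cons, Option.some.injEq,
        hab', false_or] using hm
  rw [AMov3_eq S hs ha ho hA]
  have hc := List.nodup_iff_count_le_one.1 hn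
  have c1 := hc (some a)
  have c2 := hc (some (bar a))
  have c3 := hc (some b)
  have c4 := hc (some (bar b))
  have hM : ∀ U : List (Option L), U.count (some a) = 0 → U.count (some (bar a)) = 0 →
      U.count (some b) = 0 → U.count (some (bar b)) = 0 → U.map (Option.map π.1) = U :=
    fun U h1 h2 h3 h4 => AMov3_map hπ (List.count_eq_zero.1 h1) (List.count_eq_zero.1 h2)
      (List.count_eq_zero.1 h3) (List.count_eq_zero.1 h4)
  rcases hm with hm | hm <;> obtain ⟨P, Q, rfl⟩ := List.append_of_mem hm <;>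
    simp only [List.count_append, List.count_cons, beq_self_eq_true, if_true] at c1 c2 c3 c4 <;>
    have m1 := hM U1 (by omega) (by omega) (by omega) (by omega) <;>
    have m2 := hM U2 (by omega) (by omega) (by omega) (by omega) <;>
    have m3 := hM U3 (by omega) (by omega) (by omega) (by omega) <;>
    have m4 := hM P (by omega) (by omega) (by omega) (by omega) <;>
    have m5 := hM Q (by omega) (by omega) (by omega) (by omega)
  · have m6 := hM Y1 (by omega) (by omega) (by omega) (by omega)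
    rw [AMov3_eq S hs hb (X2 := P) (Y1 := Q ++ some (bar a) :: Y1) (ho.trans (cyc_of_eq
      (some a :: U2) (some b :: U3 ++ P ++ some (bar b) :: Q ++ some (bar a) :: Y1 ++ U1)
      (by simp) (by simp))) hA']
    refine ⟨_, _, ⟨U3 ++ some (bar a) :: U1, Y1 ++ some a :: P, Q, U2,
      cyc_of_eq (some a :: P ++ some (bar b) :: Q ++ U2) (some b :: U3 ++ some (bar a) :: U1 ++ Y1)
        (by simp) (by simp), hA'', rfl, rfl, hβ, ?_⟩, he⟩
    exact (Cycle.map_coe _ _).trans (cyc_of_eq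
      (some a :: P ++ U3 ++ some (bar a) :: U1 ++ some (bar b) :: U2 ++ Q) (some b :: Y1)
      (by simp [m1, m2, m3, m4, m5, m6, p1, p2, hπ.1, hπ.2.1]) (by simp))
  · have m6 := hM X2 (by omega) (by omega) (by omega) (by omega)
    rw [AMov3_eq S hs hb (X2 := X2 ++ some (bar a) :: P) (Y1 := Q) (ho.trans (cyc_of_eq
      (some a :: U2) (some b :: U3 ++ X2 ++ some (bar a) :: P ++ some (bar b) :: Q ++ U1)
      (by simp) (by simp))) hA']
    refine ⟨_, _, ⟨U3 ++ some (bar a) :: U1, P, Q ++ some a :: X2, U2,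
      cyc_of_eq (some a :: X2 ++ U2) (some b :: U3 ++ some (bar a) :: U1 ++ P ++ some (bar b) :: Q)
        (by simp) (by simp), hA'', rfl, rfl, hβ, ?_⟩, he⟩
    exact (Cycle.map_coe _ _).trans (cyc_of_eq (some a :: X2)
      (some b :: P ++ U3 ++ some (bar a) :: U1 ++ some (bar b) :: U2 ++ Q)
      (by simp [m1, m2, m3, m4, m5, m6, p1, p2, hπ.1, hπ.2.1]) (by simp))

theorem mov_T1 {s sa sb : St E} (hs : Ok S s) {a b : L} {A : Finset (Option L)}
    (ha : Mov S s a A sa) (hb : Mov S s b A sb) (hab : a ≠ b) :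
    ∃ π : W, Mov S sa b (insert (some (bar a)) (A.erase (some a))) (sact S π sb) := by
  obtain ⟨a1, a2, -⟩ := ha.mem S hs
  obtain ⟨b1, b2, -⟩ := hb.mem S hs
  have h1 : a.1 ≠ b.1 := fun e => (eq_or_bar e).elim hab fun e => b2 (e ▸ a1)
  obtain ⟨m, n, ⟨X1, X2, Y1, Y2, ho, hA, -⟩, -⟩ := id ha
  rcases (hA _).1 b1 with h | h | h
  · exact absurd (Option.some.inj h).symm hab
  · obtain ⟨U2, U3, rfl⟩ := List.append_of_mem h
    obtain ⟨π, hπ⟩ := exists_tri h1
    exact ⟨π, AMov3_one S hs ha hb ho hA hπ⟩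
  obtain ⟨U2, U3, rfl⟩ := List.append_of_mem h
  obtain ⟨π, hπ⟩ := exists_tri h1.symm
  have hf := hs.1.2.1 (some (bar b))
  rw [ho, Cycle.mem_coe_iff] at hf
  obtain ⟨P, Q, e⟩ : ∃ P Q, X2 ++ some (bar a) :: Y1 = P ++ some (bar b) :: Q := by
    refine List.append_of_mem ?_
    have := hA (some (bar b))
    simp only [List.mem_append, List.mem_cons] at hf this ⊢
    tauto
  have h2 := AMov3_one S hs hb ha (U1 := U2) (U2 := U3) (U3 := X1) (X2 := P) (Y1 := Q)
    (ho.trans (cyc_of_eq (some a :: X1 ++ (X2 ++ some (bar a) :: Y1) ++ U2) (some b :: U3)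
      (by simp) (by simp [e]))) (fun x => by
      simp only [hA, List.mem_append, List.mem_cons]
      tauto) hπ
  have h3 := mov_sact S (mov_compl S ((hs.mov S ha).sact S π) (mov_back S (hs.mov S hb) h2)) π⁻¹
  have p1 : π.1 b = bar a := hπ.2.1
  have p2 : π.1 (bar a) = bar b := by rw [W_bar, hπ.1]
  have p3 : π.1 (bar b) = a := by rw [W_bar, p1, bar_bar]
  rw [← sact_mul, inv_mul_cancel, sact_one, show (π⁻¹).1 (bar a) = b by
    rw [← p1]; exact π.1.symm_apply_apply b] at h3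
  refine ⟨π⁻¹, ?_⟩
  convert h3 using 1
  ext x
  have e1 : x = Option.map (π⁻¹).1 (Option.map π.1 x) := by
    cases x with
    | none => rfl
    | some l => exact congrArg some (π.1.symm_apply_apply l).symm
  conv_rhs => rw [e1, mem_aact]
  have n1 := bar_ne a
  have n2 := bar_ne b
  have n3 : bar a ≠ b := fun e => a2 (e ▸ b1)
  have n4 : bar b ≠ a := fun e => b2 (e ▸ a1)
  have n5 : bar b ≠ bar a := fun e => hab (bar_inj e).symm
  by_cases e2 : x = some a
  · simp [e2, hπ.1, n1.symm, n2.symm, n3.symm]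
  by_cases e3 : x = some (bar a)
  · simp [e3, p2, n4]
  by_cases e4 : x = some b
  · simp [e4, p1, n1, b1, hab.symm]
  by_cases e5 : x = some (bar b)
  · simp [e5, p3, n5, b2]
  rw [AMov3_fix hπ e4 e5 e2 e3]
  simp [e2, e3, e4, e5]

end Pool.Agent.MP_61a8e3_al.A

end

section

set_option autoImplicit false

namespace Pool.Agent.MP_61a8e3_al.A

variable {E : Type} (S : SlideSys E)

theorem AE4_occ {c : Cycle L} {l M : List L} (h : c = ↑M) (hl : l <:+: M) :
    ∃ U : List L, c = ↑(l ++ U) := by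
  obtain ⟨s, t, rfl⟩ := hl
  exact ⟨t ++ s, h.trans (cyc_of_eq s (l ++ t) (by simp) (by simp))⟩

theorem AE4_keep {l P Q Y : List L} {x : L} (hx : x ∉ l) (h : l <:+: P ++ x :: Q) :
    l <:+: P ++ x :: Y ++ Q := by
  rcases block_side h hx with h | h
  · exact h.trans ⟨[], x :: Y ++ Q, by simp⟩
  · exact h.trans ⟨P ++ x :: Y, [], by simp⟩

/-- The block before `a` is moved behind `bar a`. -/
theorem AE4_step {e : E} {a : L} {Y X G1 M G2 : List L}
    (h : S.w e = ↑(Y ++ a :: X ++ G1 ++ M ++ G2)) (ha : bar a ∈ G1 ++ G2) :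
    ∃ H1 H2 : List L, S.w (((S.R (bar a))⁻¹ ^ Y.length) e) = ↑(a :: X ++ H1 ++ M ++ H2) ∧
      ((bar a :: Y) <:+: H1 ∨ (bar a :: Y) <:+: H2) ∧
      ∀ l : List L, bar a ∉ l → (l <:+: G1 → l <:+: H1) ∧ (l <:+: G2 → l <:+: H2) := by
  rcases List.mem_append.1 ha with ha | ha
  · obtain ⟨P, Q, rfl⟩ := List.append_of_mem ha
    have h1 : S.w e = ↑(bar a :: (Q ++ M ++ G2) ++ Y ++ bar (bar a) :: (X ++ P)) :=
      h.trans (cyc_of_eq (Y ++ a :: X ++ P) (bar a :: (Q ++ M ++ G2)) (by simp) (by simp))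
    refine ⟨P ++ bar a :: Y ++ Q, G2, (w_Rinvpow S h1).trans
      (cyc_of_eq (bar a :: Y ++ (Q ++ M ++ G2)) (a :: (X ++ P)) (by simp) (by simp)),
      Or.inl ⟨P, Q, by simp⟩, fun l hl => ⟨AE4_keep hl, id⟩⟩
  · obtain ⟨P, Q, rfl⟩ := List.append_of_mem ha
    have h1 : S.w e = ↑(bar a :: Q ++ Y ++ bar (bar a) :: (X ++ G1 ++ M ++ P)) :=
      h.trans (cyc_of_eq (Y ++ a :: X ++ G1 ++ M ++ P) (bar a :: Q) (by simp) (by simp))
    refine ⟨G1, P ++ bar a :: Y ++ Q, (w_Rinvpow S h1).trans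
      (cyc_of_eq (bar a :: Y ++ Q) (a :: (X ++ G1 ++ M ++ P)) (by simp) (by simp)),
      Or.inr ⟨P, Q, by simp⟩, fun l hl => ⟨id, AE4_keep hl⟩⟩

/-- Two disjoint blocks. -/
theorem AE4_sq {e : E} {c d : L} {X Z : List L} (h : ∃ U : List L, S.w e = ↑(c :: X ++ U))
    (hz : ∃ V : List L, S.w e = ↑(d :: Z ++ V)) (h1 : d ≠ c) (h2 : d ≠ bar c)
    (x1 : bar c ∉ X) (x2 : d ∉ X) (x3 : bar d ∉ X) (z1 : c ∉ Z) (z2 : bar c ∉ Z)
    (z3 : bar d ∉ Z) (z4 : ∀ z ∈ Z, z ∉ X) :
    (S.R d ^ Z.length) ((S.R c ^ X.length) e) = (S.R c ^ X.length) ((S.R d ^ Z.length) e) := by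
  obtain ⟨U, h⟩ := h
  obtain ⟨V, hz⟩ := hz
  have := SGZ S h x1 hz h1 h2 x2 fun z hz =>
    ⟨fun h => z1 (h ▸ hz), fun h => z2 (h ▸ hz), fun h => z3 (h ▸ hz), z4 z hz⟩
  rwa [if_neg x3, add_zero] at this

theorem AE4_nodup {Y2 X1 G1 Z2 Z1 G2 : List L} {a b : L}
    (h : (Y2 ++ a :: X1 ++ G1 ++ Z2 ++ b :: Z1 ++ G2).Nodup) :
    a ≠ b ∧ (a ∉ Y2 ∧ a ∉ X1 ∧ a ∉ Z2 ∧ a ∉ Z1) ∧ (b ∉ Y2 ∧ b ∉ X1 ∧ b ∉ Z2 ∧ b ∉ Z1) ∧
      (∀ g ∈ G1 ++ G2, g ≠ a ∧ g ≠ b ∧ g ∉ Y2 ∧ g ∉ X1 ∧ g ∉ Z2 ∧ g ∉ Z1) ∧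
      (∀ z ∈ Z1, z ∉ X1 ∧ z ∉ Y2) ∧ (∀ z ∈ Z2, z ∉ X1 ∧ z ∉ Y2) := by
  classical
  have hc := List.nodup_iff_count_le_one.1 h
  simp only [List.count_append, List.count_cons, beq_iff_eq] at hc
  have key : ∀ {x : L} {l : List L}, x ∈ l → 1 ≤ l.count x := fun hx => List.count_pos_iff.2 hx
  have ha := hc a
  have hb := hc b
  rw [if_pos rfl] at ha hb
  refine ⟨fun hab => ?_, ⟨fun h => ?_, fun h => ?_, fun h => ?_, fun h => ?_⟩,
    ⟨fun h => ?_, fun h => ?_, fun h => ?_, fun h => ?_⟩, fun g hg => ?_,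
    fun z hz => ⟨fun h => ?_, fun h => ?_⟩, fun z hz => ⟨fun h => ?_, fun h => ?_⟩⟩
  · rw [if_pos hab.symm] at ha; omega
  · have := key h; omega
  · have := key h; omega
  · have := key h; omega
  · have := key h; omega
  · have := key h; omega
  · have := key h; omega
  · have := key h; omega
  · have := key h; omega
  · have h1 := key hg
    rw [List.count_append] at h1
    have h2 := hc g
    refine ⟨fun h => ?_, fun h => ?_, fun h => ?_, fun h => ?_, fun h => ?_, fun h => ?_⟩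
    · subst h; omega
    · subst h; omega
    · have := key h; omega
    · have := key h; omega
    · have := key h; omega
    · have := key h; omega
  · have := key h; have := key hz; have := hc z; omega
  · have := key h; have := key hz; have := hc z; omega
  · have := key h; have := key hz; have := hc z; omega
  · have := key h; have := key hz; have := hc z; omega

theorem AE4_alg {A A' B B' : Equiv.Perm E} {x : E} (hA : Commute A A') (hB : Commute B B')
    (h1 : B' (A x) = A (B' x)) (h2 : B' (A' x) = A' (B' x)) (h3 : B (A' x) = A' (B x))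
    (h4 : B (A x) = A (B x)) :
    (A'⁻¹ * A) ((B'⁻¹ * B) (A' (B' x))) = (B'⁻¹ * B) ((A'⁻¹ * A) (A' (B' x))) := by
  have a1 : ∀ y, (A'⁻¹ * A) (A' y) = A y := fun y => by
    rw [← Equiv.Perm.mul_apply, mul_assoc, hA.eq, inv_mul_cancel_left]
  have b1 : ∀ y, (B'⁻¹ * B) (B' y) = B y := fun y => by
    rw [← Equiv.Perm.mul_apply, mul_assoc, hB.eq, inv_mul_cancel_left]
  rw [a1, ← h1, b1, ← h2, b1, h3, a1, h4]

/-- The general square. -/
theorem SqE {e : E} {a b : L} {X1 Y2 Z1 Z2 G1 G2 : List L}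
    (h : S.w e = ↑(Y2 ++ a :: X1 ++ G1 ++ Z2 ++ b :: Z1 ++ G2)) (ha : bar a ∈ G1 ++ G2)
    (hb : bar b ∈ G1 ++ G2) :
    S.Mv a Y2.length X1.length (S.Mv b Z2.length Z1.length e) =
      S.Mv b Z2.length Z1.length (S.Mv a Y2.length X1.length e) := by
  have hn := S.nodup e
  rw [h, Cycle.nodup_coe_iff] at hn
  obtain ⟨hab, ⟨a1, a2, a3, a4⟩, ⟨b1, b2, b3, b4⟩, hG, z1, z2⟩ := AE4_nodup hn
  obtain ⟨-, c0, c1, c2, c3, c4⟩ := hG _ ha
  obtain ⟨d0, -, d1, d2, d3, d4⟩ := hG _ hb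
  have hbar : bar b ≠ bar a := fun h => hab (bar_inj h).symm
  obtain ⟨H1, H2, k1, k2, k3⟩ := AE4_step S (M := Z2 ++ b :: Z1) (G1 := G1) (G2 := G2) (X := X1)
    (Y := Y2) (h.trans (by simp)) ha
  have hb' : bar b ∈ H2 ++ H1 := by
    have := k3 [bar b] (by simpa using hbar.symm)
    simp only [List.singleton_infix_iff] at this
    rcases List.mem_append.1 hb with hb | hb
    · exact List.mem_append_right _ (this.1 hb)
    · exact List.mem_append_left _ (this.2 hb)
  obtain ⟨I1, I2, l1, l2, l3⟩ := AE4_step S (M := a :: X1) (G1 := H2) (G2 := H1) (X := Z1)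
    (Y := Z2) (k1.trans (cyc_of_eq (a :: X1 ++ H1) (Z2 ++ b :: Z1 ++ H2) (by simp) (by simp))) hb'
  have i1 : I1 <:+: b :: Z1 ++ I1 ++ a :: X1 ++ I2 := ⟨b :: Z1, a :: X1 ++ I2, by simp⟩
  have i2 : I2 <:+: b :: Z1 ++ I1 ++ a :: X1 ++ I2 := ⟨b :: Z1 ++ I1 ++ a :: X1, [], by simp⟩
  have oa := AE4_occ (l := a :: X1) l1 ⟨b :: Z1 ++ I1, I2, by simp⟩
  have ob := AE4_occ (l := b :: Z1) l1 ⟨[], I1 ++ a :: X1 ++ I2, by simp⟩
  have ob' := AE4_occ (l := bar b :: Z2) l1 (l2.elim (fun h => h.trans i1) fun h => h.trans i2)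
  have oa' := AE4_occ (l := bar a :: Y2) l1 (by
    have := l3 (bar a :: Y2) (by simp [hbar, d1])
    exact k2.elim (fun h => (this.2 h).trans i2) fun h => (this.1 h).trans i1)
  set x := ((S.R (bar b))⁻¹ ^ Z2.length) (((S.R (bar a))⁻¹ ^ Y2.length) e) with hx
  have he : e = (S.R (bar a) ^ Y2.length) ((S.R (bar b) ^ Z2.length) x) := by
    rw [hx, inv_pow, inv_pow]; simp
  have s1 := AE4_sq S oa ob' d0 hbar c2 d2 (by rwa [bar_bar]) a3 c3 (by rwa [bar_bar])
    fun z hz => (z2 z hz).1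
  have s2 := AE4_sq S oa' ob' hbar (by rwa [bar_bar]) (by rwa [bar_bar]) d1 (by rwa [bar_bar]) c3
    (by rwa [bar_bar]) (by rwa [bar_bar]) fun z hz => (z2 z hz).2
  have s3 := AE4_sq S oa' ob c0.symm (by rw [bar_bar]; exact hab.symm) (by rwa [bar_bar]) b1 d1 c4
    (by rwa [bar_bar]) d4 fun z hz => (z1 z hz).2
  have s4 := AE4_sq S oa ob hab.symm c0.symm c2 b2 d2 a4 c4 d4 fun z hz => (z1 z hz).1
  unfold SlideSys.Mv
  rw [inv_pow, inv_pow, he]
  exact AE4_alg ((commute_bar S a).pow_pow _ _) ((commute_bar S b).pow_pow _ _) s1 s2 s3 s4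

end Pool.Agent.MP_61a8e3_al.A

end

section

set_option autoImplicit false

namespace Pool.Agent.MP_61a8e3_al.A

/-- Two disjoint arcs of a cyclic word. -/
theorem AMov4_arcs {α : Type} {I J U V : List α} (hI : I ≠ []) (hJ : J ≠ [])
    (hn : (I ++ U).Nodup) (h : ((I ++ U : List α) : Cycle α) = ↑(J ++ V))
    (hd : ∀ x ∈ I, x ∉ J) : ∃ G1 G2, U = G1 ++ J ++ G2 := by
  obtain ⟨x, I', rfl⟩ := List.exists_cons_of_ne_nil hI
  obtain ⟨y, J', rfl⟩ := List.exists_cons_of_ne_nil hJ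
  have hx : x ∈ (y :: J') ++ V := by
    have h1 : x ∈ ((x :: I' ++ U : List α) : Cycle α) := by simp
    rw [h] at h1
    exact Cycle.mem_coe_iff.1 h1
  have hxV : x ∈ V := (List.mem_append.1 hx).resolve_left (hd x (by simp))
  obtain ⟨V1, V2, rfl⟩ := List.append_of_mem hxV
  have h2 : ((x :: (I' ++ U) : List α) : Cycle α) = ↑(x :: (V2 ++ ((y :: J') ++ V1))) :=
    h.trans (cyc_of_eq (y :: J' ++ V1) (x :: V2) (by simp) (by simp))
  have h3 := cyc_head_inj hn h2
  rcases List.append_eq_append_iff.1 h3 with ⟨c, -, h4⟩ | ⟨c, h4, h5⟩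
  · exact ⟨c, V1, by simp [h4]⟩
  · rcases c with _ | ⟨z, c⟩
    · exact ⟨[], V1, by simpa using h5.symm⟩
    · have h6 : y = z := by simpa using (List.cons.inj h5).1
      exact absurd (by simp [h6]) (hd z (by simp [h4]))

/-- Replace the symbol `x` by the block `R`. -/
def AMov4_sub (x : Option L) (R l : List (Option L)) : List (Option L) :=
  l.flatMap fun y => if y = x then R else [y]

theorem AMov4_sub_append (x : Option L) (R l l' : List (Option L)) :
    AMov4_sub x R (l ++ l') = AMov4_sub x R l ++ AMov4_sub x R l' := by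
  simp [AMov4_sub]

theorem AMov4_sub_cons (x y : Option L) (R l : List (Option L)) :
    AMov4_sub x R (y :: l) = (if y = x then R else [y]) ++ AMov4_sub x R l := by
  simp [AMov4_sub]

theorem AMov4_sub_not {x : Option L} (R : List (Option L)) {l : List (Option L)} (h : x ∉ l) :
    AMov4_sub x R l = l := by
  induction l with
  | nil => rfl
  | cons y l ih =>
    rw [List.mem_cons, not_or] at h
    rw [AMov4_sub_cons, if_neg (Ne.symm h.1), ih h.2]
    rfl

theorem AMov4_sub_mem {x y : Option L} (R : List (Option L)) {l : List (Option L)} (h : y ∈ l)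
    (hne : y ≠ x) : y ∈ AMov4_sub x R l :=
  List.mem_flatMap.2 ⟨y, h, by simp [hne]⟩

theorem AMov4_sub_comm {x y : Option L} {R T : List (Option L)} (hxy : x ≠ y) (hx : x ∉ T)
    (hy : y ∉ R) (l : List (Option L)) :
    AMov4_sub x R (AMov4_sub y T l) = AMov4_sub y T (AMov4_sub x R l) := by
  induction l with
  | nil => rfl
  | cons z l ih =>
    rw [AMov4_sub_cons, AMov4_sub_cons, AMov4_sub_append, AMov4_sub_append, ih]
    congr 1
    by_cases h1 : z = x
    · subst h1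
      rw [if_neg hxy, if_pos rfl, AMov4_sub_not _ hy, AMov4_sub_cons, if_pos rfl]
      simp [AMov4_sub]
    · by_cases h2 : z = y
      · subst h2
        rw [if_neg h1, if_pos rfl, AMov4_sub_not _ hx, AMov4_sub_cons, if_pos rfl]
        simp [AMov4_sub]
      · rw [if_neg h1, if_neg h2, AMov4_sub_not _ (by simpa using Ne.symm h1),
          AMov4_sub_not _ (by simpa using Ne.symm h2)]

/-- A move in substitution form. -/
theorem AMov4_mk {v : Vx} (hn : v.o.Nodup) {a : L} {A : Finset (Option L)}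
    {Y2 X1 U : List (Option L)} (h : v.o = ↑(Y2 ++ some a :: X1 ++ U)) (hU : some (bar a) ∈ U)
    (hA : ∀ x, x ∈ A ↔ x = some a ∨ x ∈ X1 ∨ x ∈ Y2) :
    VMov v a A (cnt Y2) (cnt X1) ⟨wh a A * v.β,
      ↑(some a :: AMov4_sub (some (bar a)) (X1 ++ some (bar a) :: Y2) U)⟩ := by
  obtain ⟨P, Q, rfl⟩ := List.append_of_mem hU
  rw [h, Cycle.nodup_coe_iff] at hn
  have h1 : (P ++ some (bar a) :: Q).Nodup := (List.nodup_append.1 hn).2.1
  have h2 := List.nodup_middle.1 h1
  rw [List.nodup_cons, List.mem_append, not_or] at h2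
  refine ⟨X1, P, Q, Y2, h.trans (cyc_of_eq Y2 (some a :: X1 ++ (P ++ some (bar a) :: Q))
    (by simp) (by simp)), hA, rfl, rfl, rfl, ?_⟩
  dsimp only
  rw [AMov4_sub_append, AMov4_sub_cons, if_pos rfl, AMov4_sub_not _ h2.1.1,
    AMov4_sub_not _ h2.1.2]
  simp

variable {E : Type} (S : SlideSys E)

theorem mov_Sq {s s1 s2 : St E} (hs : Ok S s) {a b : L} {A B : Finset (Option L)}
    (h1 : Mov S s a A s1) (h2 : Mov S s b B s2) (hd : Disjoint A B)
    (ha : some (bar a) ∉ B) (hb : some (bar b) ∉ A) :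
    ∃ s4, Mov S s1 b B s4 ∧ Mov S s2 a A s4 := by
  obtain ⟨haA, haA', -, -⟩ := Mov.mem S hs h1
  obtain ⟨hbB, hbB', -, -⟩ := Mov.mem S hs h2
  have hs1 := Ok.mov S hs h1
  have hs2 := Ok.mov S hs h2
  obtain ⟨m, n, hv1, he1⟩ := h1
  obtain ⟨m', n', hv2, he2⟩ := h2
  obtain ⟨X1, X2, Y1, Y2, ho, hA, -⟩ := id hv1
  obtain ⟨Z1, W2, W1, Z2, ho', hB, -⟩ := id hv2
  have hn := hs.1.1
  have hoA : s.v.o = ↑((Y2 ++ some a :: X1) ++ (X2 ++ some (bar a) :: Y1)) :=
    ho.trans (cyc_of_eq (some a :: X1 ++ (X2 ++ some (bar a) :: Y1)) Y2 (by simp) (by simp))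
  have hoB : s.v.o = ↑((Z2 ++ some b :: Z1) ++ (W2 ++ some (bar b) :: W1)) :=
    ho'.trans (cyc_of_eq (some b :: Z1 ++ (W2 ++ some (bar b) :: W1)) Z2 (by simp) (by simp))
  have hI : ∀ x, x ∈ Y2 ++ some a :: X1 ↔ x ∈ A := fun x => by
    rw [hA]; simp only [List.mem_append, List.mem_cons]; tauto
  have hJ : ∀ x, x ∈ Z2 ++ some b :: Z1 ↔ x ∈ B := fun x => by
    rw [hB]; simp only [List.mem_append, List.mem_cons]; tauto
  obtain ⟨G1, G2, hG⟩ := AMov4_arcs (by simp) (by simp)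
    (Cycle.nodup_coe_iff.1 (hoA ▸ hn)) (hoA.symm.trans hoB)
    fun x hx hx' => Finset.disjoint_left.1 hd ((hI x).1 hx) ((hJ x).1 hx')
  rw [hG] at hoA
  have hout : ∀ x, x ∉ A → x ∉ B → x ∈ G1 ∨ x ∈ G2 := by
    intro x hxA hxB
    have h3 := hs.1.2.1 x
    rw [hoA, Cycle.mem_coe_iff, List.mem_append, hI, List.mem_append, List.mem_append, hJ] at h3
    tauto
  have hGa := hout _ haA' ha
  have hGb := hout _ hb hbB'
  have hab : (some a : Option L) ≠ some b := fun h => Finset.disjoint_left.1 hd haA (h ▸ hbB)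
  have hbar : (some (bar a) : Option L) ≠ some (bar b) := fun h =>
    hab (congrArg some (bar_inj (Option.some.inj h)))
  have hab' : (some a : Option L) ≠ some (bar b) := fun h => hb (h ▸ haA)
  have hba' : (some b : Option L) ≠ some (bar a) := fun h => ha (h ▸ hbB)
  have haJ : some (bar a) ∉ Z2 ++ some b :: Z1 := fun h => ha ((hJ _).1 h)
  have hbI : some (bar b) ∉ Y2 ++ some a :: X1 := fun h => hb ((hI _).1 h)
  have haR : some (bar a) ∉ Z1 ++ some (bar b) :: Z2 := by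
    simp only [List.mem_append, List.mem_cons] at haJ ⊢
    tauto
  have hbR : some (bar b) ∉ X1 ++ some (bar a) :: Y2 := by
    have := hbar.symm
    simp only [List.mem_append, List.mem_cons] at hbI ⊢
    tauto
  have hoB' : s.v.o = ↑(Z2 ++ some b :: Z1 ++ (G2 ++ (Y2 ++ some a :: X1) ++ G1)) :=
    hoA.trans (cyc_of_eq (Y2 ++ some a :: X1 ++ G1) (Z2 ++ some b :: Z1 ++ G2) (by simp) (by simp))
  obtain ⟨rfl, rfl, e1⟩ := vmov_unique hs.1 hv1
    (AMov4_mk hn hoA (by simp only [List.mem_append]; tauto) hA)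
  obtain ⟨rfl, rfl, e2⟩ := vmov_unique hs.1 hv2
    (AMov4_mk hn hoB' (by simp only [List.mem_append]; tauto) hB)
  set σ := AMov4_sub (some (bar a)) (X1 ++ some (bar a) :: Y2) with hσ
  set τ := AMov4_sub (some (bar b)) (Z1 ++ some (bar b) :: Z2) with hτ
  have o1 : s1.v.o = ↑(Z2 ++ some b :: Z1 ++ (σ G2 ++ some a :: σ G1)) := by
    rw [e1]
    dsimp only
    rw [hσ, AMov4_sub_append, AMov4_sub_append, AMov4_sub_not _ haJ]
    exact cyc_of_eq (some a :: σ G1) (Z2 ++ some b :: Z1 ++ σ G2) (by simp [hσ]) (by simp [hσ])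
  have o2 : s2.v.o = ↑(Y2 ++ some a :: X1 ++ (τ G1 ++ some b :: τ G2)) := by
    rw [e2]
    dsimp only
    rw [hτ, AMov4_sub_append, AMov4_sub_append, AMov4_sub_not _ hbI]
    exact cyc_of_eq (some b :: τ G2) (Y2 ++ some a :: X1 ++ τ G1) (by simp [hτ]) (by simp [hτ])
  have m1 := AMov4_mk hs1.1.1 o1 (by
    rcases hGb with h | h
    · exact List.mem_append_right _ (List.mem_cons_of_mem _ (AMov4_sub_mem _ h hbar.symm))
    · exact List.mem_append_left _ (AMov4_sub_mem _ h hbar.symm)) hB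
  have m2 := AMov4_mk hs2.1.1 o2 (by
    rcases hGa with h | h
    · exact List.mem_append_left _ (AMov4_sub_mem _ h hbar)
    · exact List.mem_append_right _ (List.mem_cons_of_mem _ (AMov4_sub_mem _ h hbar))) hA
  refine ⟨⟨_, S.Mv b (cnt Z2) (cnt Z1) s1.e⟩, ⟨_, _, m1, rfl⟩, cnt Y2, cnt X1, ?_, ?_⟩
  · convert m2 using 1
    refine Vx.ext ?_ ?_
    · dsimp only
      rw [e1, e2]
      dsimp only
      rw [← mul_assoc, ← mul_assoc, wh_comm hd haA haA' hbB hbB' ha hb]
    · dsimp only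
      rw [AMov4_sub_append, AMov4_sub_append, AMov4_sub_cons, AMov4_sub_cons, if_neg hab',
        if_neg hba', hσ, hτ, AMov4_sub_comm hbar haR hbR, AMov4_sub_comm hbar haR hbR]
      exact cyc_of_eq (some b :: τ (σ G2)) (some a :: τ (σ G1)) (by simp [hσ, hτ])
        (by simp [hσ, hτ])
  · dsimp only
    rw [he1, he2]
    refine (SqE S (G1 := G1.reduceOption) (G2 := G2.reduceOption) ?_ ?_ ?_).symm
    · rw [hs.2, hoA, red_coe]
      simp [List.reduceOption_append]
    · simpa [List.reduceOption_mem_iff] using hGa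
    · simpa [List.reduceOption_mem_iff] using hGb

end Pool.Agent.MP_61a8e3_al.A

end

section

set_option autoImplicit false

namespace Pool.Agent.MP_61a8e3_al.A

variable {E : Type} (S : SlideSys E)

/-- Connected in one step, or in two steps through a lower state. -/
def APeak_Con (s s1 s2 : St E) : Prop :=
  Adj S s1 s2 ∨ ∃ m, Adj S s1 m ∧ Adj S m s2 ∧ En m.v.β < En s.v.β

theorem APeak_symm {s s1 s2 : St E} (h2 : Ok S s2) (h : APeak_Con S s s2 s1) :
    APeak_Con S s s1 s2 := by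
  rcases h with h | ⟨m, h, h', e⟩
  · exact Or.inl (adj_symm S h2 h)
  · exact Or.inr ⟨m, adj_symm S (Ok.adj S h2 h) h', adj_symm S h2 h, e⟩

theorem APeak_unl {s s' : St E} {π : W} (h : Adj S (sact S π s) s') : Adj S s s' := by
  simpa only [← sact_mul, inv_mul_cancel, sact_one] using adj_sact S h π⁻¹ 1

theorem APeak_unr {s s' : St E} {π : W} (h : Adj S s (sact S π s')) : Adj S s s' := by
  simpa only [← sact_mul, inv_mul_cancel, sact_one] using adj_sact S h 1 π⁻¹

theorem APeak_En {s s' : St E} (hs : Ok S s) {a : L} {A : Finset (Option L)}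
    (h : Mov S s a A s') :
    En s'.v.β + 2 * en s.v.β {some a} = En s.v.β + 2 * en s.v.β A := by
  obtain ⟨h1, h2, -, h3⟩ := Mov.mem S hs h
  rw [h3, En_wh _ h1 h2]

theorem APeak_in {s s1 s2 : St E} (hs : Ok S s) {a b : L} {A B : Finset (Option L)}
    (h1 : Mov S s a A s1) (h2 : Mov S s b B s2) (hd : Disjoint A B) (hab : b ≠ bar a)
    (ha : some (bar a) ∈ B)
    (he : en s.v.β B < en s.v.β {some a} ∨ (some (bar b) ∉ A ∧
      en s.v.β A + en s.v.β B < en s.v.β {some a} + en s.v.β {some b})) :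
    APeak_Con S s s1 s2 := by
  obtain ⟨a1, a2, -, -⟩ := Mov.mem S hs h1
  obtain ⟨b1, b2, b3, -⟩ := Mov.mem S hs h2
  have haB : some a ∉ B := Finset.disjoint_left.1 hd a1
  have hne : a ≠ b := fun h => haB (h ▸ b1)
  obtain ⟨m, hm⟩ := mov_exists S hs b3 ha (by rwa [bar_bar])
  have hm' := mov_compl S hs hm
  rw [bar_bar] at hm'
  have k1 := mov_T2 S hs h1 hm' (Finset.subset_compl_iff_disjoint_right.2 hd)
  obtain ⟨π, k2⟩ := mov_T1 S hs hm h2 hab.symm
  have e1 := APeak_En S hs hm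
  rw [en_bar] at e1
  rcases he with he | ⟨hb, he⟩
  · exact Or.inr ⟨m, adj_of_mov S k1, APeak_unr S (adj_of_mov S k2), by omega⟩
  have om := Ok.mov S hs hm
  have k3 := mov_back S (Ok.mov S hs h1) k1
  obtain ⟨-, -, c3, -⟩ := Mov.mem S om k3
  have hba : bar b ≠ a := fun h => hab (by rw [← h, bar_bar])
  obtain ⟨s4, k4⟩ := mov_exists S om (a := b) c3 (by simp [hab, hne.symm, b1])
    (by simp [hba, hb, b2])
  obtain ⟨σ, k5⟩ := mov_T1 S om k3 k4 hne
  have k6 := mov_T2 S om k2 k4 fun x hx => by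
    simp only [bar_bar, Finset.mem_insert, Finset.mem_erase, Finset.mem_compl, Finset.mem_sdiff]
      at hx ⊢
    tauto
  refine Or.inr ⟨s4, APeak_unr S (adj_of_mov S k5), adj_symm S (Ok.mov S hs h2)
    (APeak_unl S (adj_of_mov S k6)), ?_⟩
  have e2 := APeak_En S om k3
  have e3 := APeak_En S om k4
  have e4 := APeak_En S hs h1
  have e5 := en_wh_self s.v.β ha (by rwa [bar_bar])
  have e6 := en_wh_letter s.v.β (l := b) ha (by rwa [bar_bar]) fun h =>
    (eq_or_bar h).elim hab fun h => hne (by rw [h, bar_bar])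
  rw [← (Mov.mem S hs hm).2.2.2] at e5 e6
  rw [en_bar] at e5
  omega

theorem APeak_NC {s s1 s2 : St E} (hs : Ok S s) {a b : L} {A B : Finset (Option L)}
    (h1 : Mov S s a A s1) (h2 : Mov S s b B s2) (hd : Disjoint A B)
    (he : en s.v.β A + en s.v.β B < en s.v.β {some a} + en s.v.β {some b}) :
    APeak_Con S s s1 s2 := by
  obtain ⟨a1, a2, -, a4⟩ := Mov.mem S hs h1
  obtain ⟨b1, b2, -, -⟩ := Mov.mem S hs h2
  have o2 := Ok.mov S hs h2
  by_cases hab : b = bar a
  · have := mov_compl S hs h2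
    rw [hab, bar_bar] at this
    exact Or.inl (adj_of_mov S
      (mov_T2 S hs h1 this (Finset.subset_compl_iff_disjoint_right.2 hd)))
  have hba : a ≠ bar b := fun h => hab (by rw [h, bar_bar])
  by_cases ha : some (bar a) ∈ B <;> by_cases hb : some (bar b) ∈ A
  · by_cases h : en s.v.β B < en s.v.β {some a}
    · exact APeak_in S hs h1 h2 hd hab ha (Or.inl h)
    · exact APeak_symm S o2 (APeak_in S hs h2 h1 hd.symm hba hb (Or.inl (by omega)))
  · exact APeak_in S hs h1 h2 hd hab ha (Or.inr ⟨hb, he⟩)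
  · exact APeak_symm S o2 (APeak_in S hs h2 h1 hd.symm hba hb (Or.inr ⟨ha, by omega⟩))
  · obtain ⟨s4, k1, k2⟩ := mov_Sq S hs h1 h2 hd ha hb
    refine Or.inr ⟨s4, adj_of_mov S k1, adj_symm S o2 (adj_of_mov S k2), ?_⟩
    have e1 := APeak_En S (Ok.mov S hs h1) k1
    have e2 := APeak_En S hs h1
    have e3 := en_wh_out s.v.β a1 a2 hd.symm ha
    have e4 := en_wh_letter s.v.β (l := b) a1 a2 fun h =>
      (eq_or_bar h).elim (fun h => Finset.disjoint_left.1 hd a1 (h ▸ b1)) hab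
    rw [← a4] at e3 e4
    omega

theorem APeak_path {s s1 s2 : St E} (e1 : En s1.v.β < En s.v.β) (h : APeak_Con S s s1 s2) :
    Relation.ReflTransGen (fun x y : St E => Adj S x y ∧ En x.v.β < En s.v.β) s1 s2 := by
  rcases h with h | ⟨m, h, h', e⟩
  · exact .single ⟨h, e1⟩
  · exact .tail (.single ⟨h, e1⟩) ⟨h', e⟩

theorem APeak_corner {s s1 s2 : St E} (hs : Ok S s) {a b : L} {A B : Finset (Option L)}
    (h1 : Mov S s a A s1) (h2 : Mov S s b B s2) (e1 : En s1.v.β < En s.v.β)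
    (e2 : En s2.v.β ≤ En s.v.β) (hP : ¬ Relation.ReflTransGen
      (fun x y : St E => Adj S x y ∧ En x.v.β < En s.v.β) s1 s2) (c : L) (h3 : some c ∉ A)
    (h4 : some c ∉ B) (h5 : some (bar c) ∈ A ∨ some (bar c) ∈ B) :
    en s.v.β {some c} ≤ en s.v.β (Aᶜ ∩ Bᶜ) := by
  have k1 := APeak_En S hs h1
  have k2 := APeak_En S hs h2
  by_contra hlt
  by_cases hd : Disjoint A B
  · exact hP (APeak_path S e1 (APeak_NC S hs h1 h2 hd (by omega)))
  obtain ⟨x, hx, hx'⟩ := Finset.not_disjoint_iff.1 hd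
  obtain ⟨n1, n2, -⟩ := hs.1
  obtain ⟨m, hm⟩ := mov_exists S hs (a := c) (IsCut.inter n1
    (IsCut.compl n1 n2 (Mov.mem S hs h1).2.2.1) (IsCut.compl n1 n2 (Mov.mem S hs h2).2.2.1) (n2 x)
    (by simpa using hx) (by simpa using hx')) (by simp [h3, h4]) (by simpa [imp_iff_not_or] using h5)
  have k3 := APeak_En S hs hm
  exact hP ((APeak_path S e1 (APeak_NC S hs h1 hm
    (Finset.disjoint_left.2 fun y hy => by simp [hy]) (by omega))).trans
    (APeak_path S (by omega) (APeak_NC S hs hm h2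
      (Finset.disjoint_right.2 fun y hy => by simp [hy]) (by omega))))

theorem APeak_mov {s s1 s2 : St E} (hs : Ok S s) {a b : L} {A B : Finset (Option L)}
    (h1 : Mov S s a A s1) (h2 : Mov S s b B s2) (e1 : En s1.v.β < En s.v.β)
    (e2 : En s2.v.β ≤ En s.v.β) :
    Relation.ReflTransGen (fun x y : St E => Adj S x y ∧ En x.v.β < En s.v.β) s1 s2 := by
  by_contra hP
  obtain ⟨a1, a2, -, -⟩ := Mov.mem S hs h1
  obtain ⟨b1, b2, -, -⟩ := Mov.mem S hs h2
  have h1' := mov_compl S hs h1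
  have h2' := mov_compl S hs h2
  have c1 := APeak_corner S hs h1 h2 e1 e2 hP
  have c2 := APeak_corner S hs h1' h2 e1 e2 hP
  have c3 := APeak_corner S hs h1 h2' e1 e2 hP
  have c4 := APeak_corner S hs h1' h2' e1 e2 hP
  simp only [compl_compl, Finset.mem_compl, not_not] at c2 c3 c4
  have k1 := APeak_En S hs h1
  have k2 := APeak_En S hs h2
  have k3 := en_submod s.v.β A B
  have k4 := en_submod s.v.β A Bᶜ
  rw [← en_compl _ (A ∪ _), Finset.compl_union] at k3 k4
  rw [compl_compl, en_compl] at k4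
  have d1 : en s.v.β {some a} ≤ en s.v.β (A ∩ B) ∧ some a ∈ B ∨
      en s.v.β {some a} ≤ en s.v.β (A ∩ Bᶜ) ∧ some a ∉ B := by
    by_cases h : some a ∈ B
    exacts [Or.inl ⟨c4 a a1 h (Or.inl a2), h⟩, Or.inr ⟨c2 a a1 h (Or.inl a2), h⟩]
  have d2 : en s.v.β {some a} ≤ en s.v.β (Aᶜ ∩ B) ∨ en s.v.β {some a} ≤ en s.v.β (Aᶜ ∩ Bᶜ) := by
    rw [← en_bar]
    by_cases h : some (bar a) ∈ B
    exacts [Or.inl (c3 _ a2 h (Or.inl (by rwa [bar_bar]))),
      Or.inr (c1 _ a2 h (Or.inl (by rwa [bar_bar])))]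
  have d3 : en s.v.β {some b} ≤ en s.v.β (A ∩ B) ∨ en s.v.β {some b} ≤ en s.v.β (Aᶜ ∩ B) := by
    by_cases h : some b ∈ A
    exacts [Or.inl (c4 b h b1 (Or.inr b2)), Or.inr (c3 b h b1 (Or.inr b2))]
  have d4 : en s.v.β {some b} ≤ en s.v.β (A ∩ Bᶜ) ∨ en s.v.β {some b} ≤ en s.v.β (Aᶜ ∩ Bᶜ) := by
    rw [← en_bar]
    by_cases h : some (bar b) ∈ A
    exacts [Or.inl (c2 _ h b2 (Or.inr (by rwa [bar_bar]))),
      Or.inr (c1 _ h b2 (Or.inr (by rwa [bar_bar])))]
  rcases d1 with ⟨d1, -⟩ | ⟨d1, -⟩ <;> omega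

theorem peak {s s1 s2 : St E} (hs : Ok S s) (h1 : Adj S s s1) (h2 : Adj S s s2)
    (e1 : En s1.v.β < En s.v.β) (e2 : En s2.v.β ≤ En s.v.β) :
    Relation.ReflTransGen (fun x y : St E => Adj S x y ∧ En x.v.β < En s.v.β) s1 s2 := by
  obtain ⟨a, A, π, t1, h1, rfl⟩ := h1
  obtain ⟨b, B, σ, t2, h2, rfl⟩ := h2
  have f1 : En (sact S π t1).v.β = En t1.v.β := En_relA _ _
  have f2 : En (sact S σ t2).v.β = En t2.v.β := En_relA _ _
  have o1 := Ok.mov S hs h1
  have g1 : En t1.v.β < En s.v.β := by omega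
  have g2 : En t2.v.β ≤ En s.v.β := by omega
  have k := (APeak_mov S hs h1 h2 g1 g2).cases_tail
  refine .head ⟨adj_symm S o1 (adj_refl_sact S o1 π), e1⟩ ?_
  rcases k with k | ⟨m, h, h', e⟩
  · rw [k]
    exact .single ⟨adj_refl_sact S o1 σ, g1⟩
  · exact h.tail ⟨by simpa only [sact_one] using adj_sact S h' 1 σ, e⟩

end Pool.Agent.MP_61a8e3_al.A

end

section

set_option autoImplicit false

namespace Pool.Agent.MP_61a8e3_al.A

/-- Abstract monodromy theorem. -/
theorem monodromy {T V : Type} (p : T → V) (N : V → ℕ) (A : T → T → Prop) (B : T → Prop)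
    (n0 : ℕ) (symm : ∀ s t, A s t → A t s)
    (lift : ∀ s s' t, A s s' → p t = p s → ∃ t', A t t' ∧ p t' = p s' ∧ (t' = s' → t = s))
    (pk : ∀ s s1 s2, A s s1 → A s s2 → N (p s1) < N (p s) → N (p s2) ≤ N (p s) →
      Relation.ReflTransGen (fun x y => A x y ∧ N (p x) < N (p s)) s1 s2)
    (hB0 : ∀ s, B s → N (p s) = n0)
    (hB1 : ∀ s s', B s → A s s' → N (p s') ≤ N (p s) → B s')
    (hB2 : ∀ s t, B s → B t → p s = p t → s = t)
    {b b' s t : T} (hb : B b) (hb' : B b') (hs : Relation.ReflTransGen A b s)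
    (ht : Relation.ReflTransGen A b' t) (h : p s = p t) : s = t := by
  have _ := hB0
  let Γ : T → Prop := fun s =>
    ∃ c, B c ∧ Relation.ReflTransGen (fun x y => A x y ∧ N (p y) < N (p x)) s c
  have cs : ∀ s, Γ s → B s ∨ ∃ s1, A s s1 ∧ N (p s1) < N (p s) ∧ Γ s1 := by
    rintro s ⟨c, hc, h1⟩
    rcases h1.cases_head with rfl | ⟨s1, h2, h3⟩
    · exact Or.inl hc
    · exact Or.inr ⟨s1, h2.1, h2.2, c, hc, h3⟩
  have C : ∀ n s, N (p s) < n → Γ s → ∀ s', A s s' → Γ s' := by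
    intro n
    induction n with
    | zero => intro s h; omega
    | succ n ih =>
      intro s hn hs s' h1
      rcases lt_or_ge (N (p s)) (N (p s')) with h2 | h2
      · obtain ⟨c, hc, h3⟩ := hs
        exact ⟨c, hc, h3.head ⟨symm _ _ h1, h2⟩⟩
      rcases cs s hs with h3 | ⟨s1, h3, h4, h5⟩
      · exact ⟨s', hB1 s s' h3 h1 h2, .refl⟩
      · have h6 := pk s s1 s' h3 h1 h4 h2
        clear h1 h2
        induction h6 with
        | refl => exact h5
        | tail _ h7 ih2 => exact ih _ (by omega) ih2 _ h7.1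
  have U : ∀ n s t, N (p s) < n → Γ s → Γ t → p s = p t → s = t := by
    intro n
    induction n with
    | zero => intro s t h; omega
    | succ n ih =>
      have key : ∀ s t s1, N (p s) < n + 1 → Γ t → p s = p t → A s s1 → N (p s1) < N (p s) →
          Γ s1 → s = t := fun s t s1 hn ht h h1 h2 h3 => by
        obtain ⟨t1, h4, h5, h6⟩ := lift s s1 t h1 h.symm
        exact (h6 (ih s1 t1 (by omega) h3 (C _ t (Nat.lt_succ_self _) ht t1 h4) h5.symm).symm).symm
      intro s t hn hs ht h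
      rcases cs s hs with h1 | ⟨s1, h1, h2, h3⟩
      · rcases cs t ht with h4 | ⟨t1, h4, h5, h6⟩
        · exact hB2 s t h1 h4 h
        · exact (key t s t1 (h ▸ hn) hs h.symm h4 h5 h6).symm
      · exact key s t s1 hn ht h h1 h2 h3
  have R : ∀ b s, B b → Relation.ReflTransGen A b s → Γ s := fun b s hb hs => by
    induction hs with
    | refl => exact ⟨b, hb, .refl⟩
    | tail _ h1 ih => exact C _ _ (Nat.lt_succ_self _) ih _ h1
  exact U _ s t (Nat.lt_succ_self _) (R b s hb hs) (R b' t hb' ht) h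

variable {E : Type} (S : SlideSys E)

theorem AMono_sub {r : St E → St E → Prop} (hr : ∀ x y, r x y → Adj S x y) {a b : St E}
    (ha : Ok S a) (h : Relation.ReflTransGen r a b) : ∃ hb : Ok S b,
      Relation.ReflTransGen (fun x y : {s : St E // Ok S s} => r x.1 y.1) ⟨a, ha⟩ ⟨b, hb⟩ := by
  induction h with
  | refl => exact ⟨ha, .refl⟩
  | tail _ h1 ih =>
    obtain ⟨h2, h3⟩ := ih
    exact ⟨Ok.adj S h2 (hr _ _ h1), h3.tail h1⟩

theorem rch_unique {e0 e e' : E} (h0 : S.w e0 = w0) {v : Vx} (h : Rch S ⟨v0, e0⟩ ⟨v, e⟩)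
    (h' : Rch S ⟨v0, e0⟩ ⟨v, e'⟩) : e = e' := by
  have ok0 : Ok S ⟨v0, e0⟩ := ⟨good_v0, h0.trans red_o0.symm⟩
  obtain ⟨k1, r1⟩ := AMono_sub S (fun _ _ h => h) ok0 h
  obtain ⟨k2, r2⟩ := AMono_sub S (fun _ _ h => h) ok0 h'
  have hb : ∃ π, (⟨v0, e0⟩ : St E) = sact S π ⟨v0, e0⟩ := ⟨1, (sact_one S _).symm⟩
  have n0 : ∀ π : W, En (sact S π ⟨v0, e0⟩).v.β = En 1 := fun π => En_relA 1 π
  have key := monodromy (T := {s : St E // Ok S s}) (fun s => s.1.v) (fun v => En v.β)
    (fun s t => Adj S s.1 t.1) (fun s => ∃ π, s.1 = sact S π ⟨v0, e0⟩) (En 1)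
    (fun s t h => adj_symm S s.2 h)
    (fun s s' t h ht => by
      obtain ⟨t', h1, h2, h3⟩ := adj_lift S h ht
      exact ⟨⟨t', Ok.adj S t.2 h1⟩, h1, h2, fun h4 => Subtype.ext (h3 (congrArg Subtype.val h4))⟩)
    (fun s s1 s2 h1 h2 e1 e2 =>
      (AMono_sub S (fun _ _ h => h.1) s1.2 (peak S s.2 h1 h2 e1 e2)).2)
    (fun s ⟨π, h⟩ => by rw [h, n0])
    (fun s s' ⟨π, h⟩ h1 h2 => by
      rw [h] at h1 h2
      exact base_adj S h0 π h1 (h2.trans (n0 π).le))
    (fun s t ⟨π, h1⟩ ⟨σ, h2⟩ h3 => by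
      rw [h1, h2] at h3
      exact Subtype.ext (by rw [h1, h2, vact_v0_inj h3]))
    (b := ⟨_, ok0⟩) (b' := ⟨_, ok0⟩) hb hb r1 r2 rfl
  exact congrArg (fun s : {s : St E // Ok S s} => s.1.e) key

theorem rch_exists {v : Vx} (hg : Good v) :
    ∃ P ∈ S.Lam, ∀ e0, S.w e0 = w0 → Rch S ⟨v0, e0⟩ ⟨v, P e0⟩ := by
  induction hn : En v.β using Nat.strong_induction_on generalizing v with
  | _ n ih =>
    by_cases h : ∀ l : L, en v.β {some l} ≤ 1
    · obtain ⟨π, rfl⟩ := base_of_small hg h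
      exact ⟨S.rl π, rl_mem S π, fun e0 h0 => Relation.ReflTransGen.single
        (adj_refl_sact S (s := ⟨v0, e0⟩) ⟨good_v0, h0.trans red_o0.symm⟩ π)⟩
    · push Not at h
      obtain ⟨a, ha⟩ := h
      obtain ⟨c, A, h1, h2, h3, h4⟩ := descent hg ha
      obtain ⟨m, k, v', h5⟩ := vmov_exists hg h1 h2 h3
      have h6 : v'.β = wh c A * v.β := by
        obtain ⟨_, _, _, _, _, _, _, _, h7, _⟩ := h5
        exact h7
      have h7 := En_wh v.β h2 h3
      obtain ⟨P, hP, h8⟩ := ih (En v'.β) (by rw [h6]; omega) (hg.vmov h5) rfl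
      obtain ⟨m', k', h9, -⟩ := vmov_back S hg h5
      exact ⟨S.Mv c m' k' * P, mul_mem (Mv_mem S c m' k') hP, fun e0 h0 =>
        (h8 e0 h0).tail (adj_of_mov S ⟨m', k', h9, rfl⟩)⟩

end Pool.Agent.MP_61a8e3_al.A

end

section

set_option autoImplicit false

namespace Pool.Agent.MP_61a8e3_al.A

theorem ACent_list {α : Type} {u w : List α} (hw : w.Nodup) (h : u ++ w = w ++ u) :
    u = [] ∨ ∃ v, u = w ++ v := by
  rcases List.append_eq_append_iff.1 h with ⟨a, h1, h2⟩ | ⟨b, h1, -⟩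
  · cases u with
    | nil => exact Or.inl rfl
    | cons x u' =>
      cases a with
      | nil => exact Or.inr ⟨[], by simpa using h1.symm⟩
      | cons y a' =>
        exfalso
        have e : x = y := by
          have := h1.symm.trans h2
          simp only [List.cons_append, List.cons.injEq] at this
          exact this.1
        subst e
        rw [h1, List.cons_append, List.nodup_cons] at hw
        exact hw.1 (by simp)
  · exact Or.inr ⟨b, h1⟩

theorem ACent_step {ρ g : F} (hn : ρ.toWord.Nodup) (h1 : ρ ≠ 1) (h : g * ρ = ρ * g)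
    (hf : fl ρ ≠ fl g⁻¹) : g = 1 ∨ (ρ⁻¹ * g).norm < g.norm := by
  have e1 := toWord_mul_of_ne hf
  have e2 : g.toWord ++ ρ.toWord = ρ.toWord ++ g.toWord := by
    have hs := FreeGroup.toWord_mul_sublist ρ g
    rw [← h, e1] at hs
    exact hs.eq_of_length (by rw [List.length_append, List.length_append, add_comm])
  rcases ACent_list hn e2 with h0 | ⟨v, hv⟩
  · exact Or.inl (FreeGroup.toWord_eq_nil_iff.1 h0)
  · right
    have e3 : ρ⁻¹ * g = FreeGroup.mk v := by
      rw [inv_mul_eq_iff_eq_mul]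
      conv_lhs => rw [← FreeGroup.mk_toWord (x := g), hv, ← FreeGroup.mul_mk, FreeGroup.mk_toWord]
    have e4 : g.norm = ρ.norm + v.length := by
      unfold FreeGroup.norm
      rw [hv, List.length_append]
    have e5 : ρ.norm ≠ 0 := fun h0 => h1 (FreeGroup.norm_eq_zero.1 h0)
    have e6 : (FreeGroup.mk v).norm ≤ v.length := FreeGroup.norm_mk_le
    rw [e3]
    omega

theorem ACent_word : r3.toWord =
    [la 0, lb 0, lA 0, lB 0, la 1, lb 1, lA 1, lB 1, la 2, lb 2, lA 2, lB 2] := by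
  rw [r3_eq, FreeGroup.toWord_mk]
  decide

theorem ACent_word' : r3⁻¹.toWord =
    [lb 2, la 2, lB 2, lA 2, lb 1, la 1, lB 1, lA 1, lb 0, la 0, lB 0, lA 0] := by
  rw [FreeGroup.toWord_inv, ACent_word]
  decide

theorem cent_r3 {g : F} (h : g * r3 = r3 * g) : ∃ k : ℤ, g = r3 ^ k := by
  induction hn : g.norm using Nat.strong_induction_on generalizing g with
  | _ n ih =>
    subst hn
    have n1 : r3.toWord.Nodup := by rw [ACent_word]; decide
    have n2 : r3⁻¹.toWord.Nodup := by rw [ACent_word']; decide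
    have f1 : fl r3 = some (la 0) := by rw [fl, ACent_word]; rfl
    have f2 : fl r3⁻¹ = some (lb 2) := by rw [fl, ACent_word']; rfl
    have r1 : r3 ≠ 1 := fun e => by
      rw [e, fl_one] at f1
      cases f1
    have hc : Commute g r3 := h
    by_cases hf : fl r3 = fl g⁻¹
    · have hf' : fl r3⁻¹ ≠ fl g⁻¹ := by
        rw [← hf, f1, f2]
        decide
      rcases ACent_step n2 (inv_ne_one.2 r1) hc.inv_right.eq hf' with h0 | hlt
      · exact ⟨0, by rw [h0, zpow_zero]⟩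
      · rw [inv_inv] at hlt
        obtain ⟨k, hk⟩ := ih _ hlt ((Commute.refl r3).mul_left hc).eq rfl
        refine ⟨-1 + k, ?_⟩
        rw [zpow_add, ← hk, zpow_neg_one, inv_mul_cancel_left]
    · rcases ACent_step n1 r1 h hf with h0 | hlt
      · exact ⟨0, by rw [h0, zpow_zero]⟩
      · obtain ⟨k, hk⟩ := ih _ hlt ((Commute.refl r3).inv_left.mul_left hc).eq rfl
        refine ⟨1 + k, ?_⟩
        rw [zpow_add, ← hk, zpow_one, mul_inv_cancel_left]

end Pool.Agent.MP_61a8e3_al.A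

end

section

set_option autoImplicit false

namespace Pool.Agent.MP_61a8e3_al.A

def AMain_Act {E : Type} (S : SlideSys E) (γ : MulAut F) (e e' : E) : Prop :=
  ∃ c : F, Rch S ⟨v0, e⟩ ⟨⟨MulAut.conj c * γ, o0⟩, e'⟩

theorem AMain_ok {E : Type} (S : SlideSys E) {e : E} (he : S.w e = w0) : Ok S ⟨v0, e⟩ :=
  ⟨good_v0, he.trans red_o0.symm⟩

theorem AMain_w {E : Type} (S : SlideSys E) {γ : MulAut F} {e e' : E} (he : S.w e = w0)
    (h : AMain_Act S γ e e') : S.w e' = w0 := by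
  obtain ⟨c, h⟩ := h
  exact (Ok.rch S (AMain_ok S he) h).2.trans red_o0

theorem AMain_total {E : Type} (S : SlideSys E) (γ : G3) :
    ∃ P ∈ S.Lam, ∀ e, S.w e = w0 → AMain_Act S γ e (P e) := by
  obtain ⟨c, hc⟩ := isConj_iff.1 (show IsConj ((γ : MulAut F) r3) r3 from γ.2)
  have hg : Good ⟨MulAut.conj c * (γ : MulAut F), o0⟩ := good_of_fix (by
    rw [MulAut.mul_apply, MulAut.conj_apply, hc])
  obtain ⟨P, hP, h⟩ := rch_exists S hg
  exact ⟨P, hP, fun e he => ⟨c, h e he⟩⟩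

theorem AMain_fun {E : Type} (S : SlideSys E) {γ : MulAut F} {e e' e'' : E} (he : S.w e = w0)
    (h : AMain_Act S γ e e') (h' : AMain_Act S γ e e'') : e' = e'' := by
  obtain ⟨c, h⟩ := h
  obtain ⟨c', h'⟩ := h'
  have ok := Ok.rch S (AMain_ok S he) h
  have ok' := Ok.rch S (AMain_ok S he) h'
  have f1 := fix_of_good ok.1
  have f2 := fix_of_good ok'.1
  rw [MulAut.mul_apply, MulAut.conj_apply] at f1 f2
  have hc : c' * c⁻¹ * r3 = r3 * (c' * c⁻¹) := by
    have : γ r3 = c⁻¹ * r3 * c := by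
      conv_rhs => rw [← f1]
      group
    rw [this] at f2
    conv_rhs => rw [← f2]
    group
  obtain ⟨k, hk⟩ := cent_r3 hc
  have h2 := rch_loop_zpow S ok k
  rw [← mul_assoc, ← map_mul, ← hk, inv_mul_cancel_right] at h2
  exact rch_unique S he (h.trans h2) h'

theorem AMain_comp {E : Type} (S : SlideSys E) {γ γ' : MulAut F} {e e' e'' : E}
    (h : AMain_Act S γ e e') (h' : AMain_Act S γ' e' e'') : AMain_Act S (γ' * γ) e e'' := by
  obtain ⟨c, h⟩ := h
  obtain ⟨c', h'⟩ := h'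
  have h2 := rch_shift S h' (MulAut.conj c * γ)
  simp only [v0, one_mul] at h2
  rw [ALoop_conj] at h2
  exact ⟨c' * γ' c, h.trans h2⟩

theorem AMain_one {E : Type} (S : SlideSys E) (e : E) : AMain_Act S 1 e e :=
  ⟨1, by rw [map_one, one_mul]; exact Relation.ReflTransGen.refl⟩

/-- Part A: a slide system gives an action of the stabiliser of the conjugacy class of `r3` on the
fibre over the standard word; explicit slide paths compute it up to inner automorphisms. -/
theorem mainA {E : Type} (S : SlideSys E) :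
    ∃ Φ : G3 →* Equiv.Perm {e : E // S.w e = w0},
      (∀ γ : G3, ∃ P ∈ S.Lam, ∀ e, ((Φ γ e : {e : E // S.w e = w0}) : E) = P e) ∧
      (∀ (γ : G3) (γ0 : MulAut F) (P : Equiv.Perm E) (c : F), Path S γ0 P w0 →
        (γ : MulAut F) = MulAut.conj c * γ0 →
        ∀ e, ((Φ γ e : {e : E // S.w e = w0}) : E) = P e) := by
  choose P hP hA using AMain_total S
  let φ : G3 →* Function.End {e : E // S.w e = w0} :=
    { toFun := fun γ e => ⟨P γ e, AMain_w S e.2 (hA γ e e.2)⟩
      map_one' := funext fun e => Subtype.ext (AMain_fun S e.2 (hA 1 e e.2) (AMain_one S _))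
      map_mul' := fun γ' γ => funext fun e => Subtype.ext (AMain_fun S e.2 (hA (γ' * γ) e e.2)
        (AMain_comp S (hA γ e e.2) (hA γ' _ (AMain_w S e.2 (hA γ e e.2))))) }
  refine ⟨φ.toHomPerm, fun γ => ⟨P γ, hP γ, fun e => rfl⟩, fun γ γ0 Q c hp hγ e => ?_⟩
  change P γ e = Q e
  obtain ⟨d, o, h1, h2⟩ := rch_path S hp e.2
  have ok := Ok.rch S (AMain_ok S e.2) h1
  obtain ⟨d', h3⟩ := rch_to_o0 S ok (ok.2.trans h2)
  refine AMain_fun S e.2 (hA γ e e.2) ⟨d' * d * c⁻¹, ?_⟩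
  have : MulAut.conj (d' * d * c⁻¹) * (γ : MulAut F) = MulAut.conj d' * (MulAut.conj d * γ0) := by
    rw [hγ, ← mul_assoc, ← map_mul, inv_mul_cancel_right, map_mul, mul_assoc]
  rw [this]
  exact h1.trans h3

end Pool.Agent.MP_61a8e3_al.A

end

section

set_option autoImplicit false

namespace Pool.Agent.MP_61a8e3_al.A

theorem succL_map (π : Equiv.Perm L) (u : List L) (b : L) :
    succL (u.map π) (π b) = π (succL u b) := by
  unfold succL
  rw [idxOf_map, ← List.map_rotate, List.getD_map]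

theorem idx_add {u : List L} (hu : Valid u) {a b : L} {U : List L} (h : u = a :: U) (hab : a ≠ b) :
    u.idxOf b + (u.rotate (u.idxOf b)).idxOf a = 12 := by
  obtain ⟨P, Q, h1, h2, h3, h4⟩ := rotate_idxOf (hu.2 b)
  have hl := hu.length
  rw [h4, h3]
  cases P with
  | nil => rw [h] at h1; simp at h1; exact absurd h1.1 hab
  | cons x P =>
    rw [h] at h1
    obtain ⟨rfl, h5⟩ : a = x ∧ U = P ++ b :: Q := by simpa using h1
    have hn := hu.1
    rw [h, h5] at hn hl
    have h6 : a ∉ b :: Q := fun e => (List.nodup_cons.1 hn).1 (List.mem_append_right _ e)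
    rw [List.idxOf_append_of_notMem h6]
    simp at hl ⊢
    omega

namespace Tab

variable {Xc : Type} (Tb : Tab Xc)

theorem RR_replicate (a : L) (n : ℕ) : Tb.RR (fw (List.replicate n a)) = Tb.R a ^ n := by
  induction n with
  | zero => rfl
  | succ n ih =>
    show Tb.RR (fw (List.replicate n a)) * Tb.R a = _
    rw [ih, pow_succ]

theorem go_Nx {e : Tb.E} {a t : L} (h : Nx (Tb.wd e.1 : Cycle L) a t) :
    ∃ U, Tb.wd (Tb.go a e.1) = a :: t :: U := by
  obtain ⟨U, hU⟩ := h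
  exact ⟨U, Tb.wd_go_of hU⟩

theorem nf_go_e (e : Tb.E) (a : L) : Tb.nf (Tb.go a e.1) = e := by rw [nf_go, nf_val]

theorem comm_aux (e : Tb.E) {a b t u : L} (ht : Nx (Tb.wd e.1 : Cycle L) a t)
    (hu : Nx (Tb.wd e.1 : Cycle L) b u) (h1 : a ≠ b) (h2 : t ≠ b) (h3 : t ≠ bar b) (h4 : u ≠ a)
    (h5 : u ≠ bar a) (hi : (Tb.wd (Tb.go a e.1)).idxOf b ≤ 6) :
    Tb.R a (Tb.R b e) = Tb.R b (Tb.R a e) := by
  obtain ⟨U, hU⟩ := Tb.go_Nx ht
  have hs : succL (Tb.wd (Tb.go a e.1)) b = u :=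
    succL_eq (Tb.wd_valid _) (by rw [cyc_go]; exact hu)
  have hb : b ∈ (t :: U).take 6 := by
    have hm := (Tb.wd_valid (Tb.go a e.1)).2 b
    rw [hU] at hi hm
    rw [List.idxOf_cons_ne _ h1] at hi
    have hm' : b ∈ t :: U := by simpa [Ne.symm h1] using hm
    exact (List.mem_take_iff_idxOf_lt hm').2 (by omega)
  have := Tb.cellE (Tb.go a e.1) [b, a] [a, b] (by
    generalize Tb.go a e.1 = s at hU hs
    rw [cw_eq, hU]
    have hs' := succL_map (s.1⁻¹).1 (Tb.wd s) b
    rw [hs, hU] at hs'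
    have inj := (s.1⁻¹).1.injective
    simp only [List.map_cons, List.map_nil, cells, List.mem_append, List.mem_filterMap] at hs' ⊢
    refine Or.inl (Or.inl (Or.inl ⟨(s.1⁻¹).1 b, ?_, ?_⟩))
    · rw [← List.map_cons, ← List.map_take]; exact List.mem_map_of_mem hb
    · rw [hs', ← W_bar, ← W_bar, if_pos ⟨inj.ne h2, inj.ne h3, inj.ne h4, inj.ne h5⟩])
  rw [nf_go_e] at this
  exact this

theorem twist_aux (e : Tb.E) {a : L} {U V : List L}
    (h : (Tb.wd e.1 : Cycle L) = ↑(a :: U ++ bar a :: V)) (hi : U.length ≤ 5) :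
    (Tb.R a ^ U.length) e = (Tb.R (bar a) ^ V.length) e := by
  have hw : Tb.wd (Tb.go a e.1) = a :: (U ++ bar a :: V) := Tb.wd_go_of h
  have hv := Tb.wd_valid (Tb.go a e.1)
  have hl := hv.length
  have hn := hv.1
  rw [hw] at hl hn
  have hi2 : (Tb.wd (Tb.go a e.1)).idxOf (bar a) = U.length + 1 := by
    have h6 : bar a ∉ U := by
      intro e
      simp only [List.nodup_cons, List.nodup_append, List.mem_cons] at hn
      exact hn.2.2.2 _ e _ (Or.inl rfl) rfl
    rw [hw, List.idxOf_cons_ne _ (bar_ne a).symm, List.idxOf_append_of_notMem h6]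
    simp
  have := Tb.cellE (Tb.go a e.1) (List.replicate U.length a) (List.replicate V.length (bar a)) (by
    generalize Tb.go a e.1 = s at hw hi2
    obtain ⟨a', t', U', V', hp, -, -⟩ := Tb.wd_pattern s
    have hi3 := idxOf_map (s.1⁻¹).1 (bar a) (Tb.wd s)
    rw [hi2, W_bar] at hi3
    have ha : a' = a := by rw [hw] at hp; simp at hp; exact hp.1.symm
    subst ha
    rw [cw_eq]
    rw [hp] at hi3 ⊢
    simp only [List.cons_append, List.map_cons, cells, List.mem_append, List.map_replicate]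
      at hi3 ⊢
    refine Or.inr ?_
    rw [hi3, if_pos (by omega), W_bar]
    simp at hl
    have e1 : U.length + 1 - 1 = U.length := by omega
    have e2 : 11 - (U.length + 1) = V.length := by omega
    rw [e1, e2]
    exact List.mem_singleton.2 rfl)
  rw [nf_go_e, RR_replicate, RR_replicate] at this
  exact this

/-- The slide system of a rooted table. -/
noncomputable def sys : SlideSys Tb.E where
  w e := (Tb.wd e.1 : Cycle L)
  R := Tb.R
  rl := Tb.rl
  nodup e := (Tb.wd_valid e.1).1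
  full e l := (Tb.wd_valid e.1).2 l
  nobar e a h := by
    obtain ⟨U, hU⟩ := Tb.go_Nx h
    obtain ⟨a', t', U', V', hp, -, ht⟩ := Tb.wd_pattern (Tb.go a e.1)
    rw [hU] at hp
    simp only [List.cons_append, List.cons.injEq] at hp
    exact ht (by rw [← hp.2.1, hp.1])
  w_R e a t U V h := by
    have hw := Tb.wd_go_of h
    have hn := (Tb.wd_valid (Tb.go a e.1)).1
    rw [hw] at hn
    have h6 : bar a ∉ U := by
      intro e
      simp only [List.append_eq, List.cons_append, List.nodup_cons, List.nodup_append,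
        List.mem_cons] at hn
      exact hn.2.2.2.2 _ e _ (Or.inl rfl) rfl
    show (Tb.wd (Tb.nf (Tb.T' (Tb.go a e.1))).1 : Cycle L) = _
    rw [cyc_nf, wd_T', hw]
    exact congrArg _ (slide_eq h6)
  w_rl π e := by
    show (Tb.wd (Tb.nf (lw π e.1)).1 : Cycle L) = _
    rw [cyc_nf, wd_lw]; rfl
  rl_R π a := by
    ext1 e
    show Tb.rl π (Tb.nf (Tb.T' (Tb.go a e.1))) = Tb.R (π.1 a) (Tb.nf (lw π e.1))
    rw [rl_nf, R_nf, go_lw, lw_T']
  comm e a b t u ht hu h1 h2 h3 h4 h5 := by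
    by_cases hi : (Tb.wd (Tb.go a e.1)).idxOf b ≤ 6
    · exact Tb.comm_aux e ht hu h1 h2 h3 h4 h5 hi
    · refine (Tb.comm_aux e hu ht h1.symm h4 h5 h2 h3 ?_).symm
      obtain ⟨U, hU⟩ := Tb.go_Nx ht
      have := idx_add (Tb.wd_valid (Tb.go a e.1)) hU h1
      rw [← wd_go, go_go] at this
      omega
  pent e a b u ht hu h1 := by
    obtain ⟨U, hU⟩ := Tb.go_Nx ht
    have hs : succL (Tb.wd (Tb.go a e.1)) b = u :=
      succL_eq (Tb.wd_valid _) (by rw [cyc_go]; exact hu)
    have := Tb.cellE (Tb.go a e.1) [a, a, b] [b, a] (by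
      generalize Tb.go a e.1 = s at hU hs
      rw [cw_eq, hU]
      have hs' := succL_map (s.1⁻¹).1 (Tb.wd s) b
      rw [hs, hU] at hs'
      have inj := (s.1⁻¹).1.injective
      simp only [List.map_cons, List.map_nil, cells, List.mem_append] at hs' ⊢
      refine Or.inl (Or.inl (Or.inr ?_))
      rw [hs', ← W_bar, if_pos (inj.ne h1)]
      exact List.mem_singleton.2 rfl)
    rw [nf_go_e] at this
    exact this
  pent2 e a b u ht hu h1 h2 := by
    obtain ⟨U, hU⟩ := Tb.go_Nx ht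
    have hs : succL (Tb.wd (Tb.go a e.1)) b = u :=
      succL_eq (Tb.wd_valid _) (by rw [cyc_go]; exact hu)
    have := Tb.cellE (Tb.go a e.1) [b, a, a] [a, b] (by
      generalize Tb.go a e.1 = s at hU hs
      rw [cw_eq, hU]
      have hs' := succL_map (s.1⁻¹).1 (Tb.wd s) b
      rw [hs, hU] at hs'
      have inj := (s.1⁻¹).1.injective
      simp only [List.map_cons, List.map_nil, cells, List.mem_append, W_bar, bar_bar] at hs' ⊢
      refine Or.inl (Or.inr ?_)
      rw [hs', ← W_bar, if_pos ⟨inj.ne h1, inj.ne h2⟩]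
      exact List.mem_singleton.2 rfl)
    rw [nf_go_e] at this
    exact this
  tri e a b π ht hπ := by
    obtain ⟨U, hU⟩ := Tb.go_Nx ht
    have := Tb.triE (Tb.go a e.1) hU hπ
    rw [nf_go_e] at this
    exact this
  twist e a U V h := by
    by_cases hi : U.length ≤ 5
    · exact Tb.twist_aux e h hi
    · have h' : (Tb.wd e.1 : Cycle L) = ↑(bar a :: V ++ bar (bar a) :: U) := by
        rw [h, bar_bar]; exact cyc_of_eq (a :: U) (bar a :: V) rfl rfl
      have hl : (Tb.wd e.1 : Cycle L).length = 12 := (Tb.wd_valid e.1).length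
      rw [h] at hl
      simp at hl
      have := Tb.twist_aux e h' (by omega)
      rw [bar_bar] at this
      exact this.symm

/-- The fibre over the standard word. -/
def X0 : Type := {x : Xc // shape (Tb.cw x) = shape w0L}

theorem wd_of_w0 {e : Tb.E} (h : Tb.sys.w e = w0) : Tb.wd e.1 = w0L := by
  have := Tb.wd_go_of (a := lb 2) (s := e.1) h
  rw [Tb.go_self e.2] at this
  exact this

theorem ex_lab (x : Tb.X0) : ∃ π : W, w0L = (Tb.cw x.1).map π.1 :=
  iso_of_shape (Tb.valid _) valid_w0L x.2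

/-- The fibre of the slide system is the fibre of the table. -/
noncomputable def fib : {e : Tb.E // Tb.sys.w e = w0} ≃ Tb.X0 where
  toFun e := ⟨e.1.1.2, by rw [← Tb.wd_of_w0 e.2, wd, shape_map]⟩
  invFun x := ⟨⟨((Tb.ex_lab x).choose, x.1), by
      rw [wd, ← (Tb.ex_lab x).choose_spec]; rfl⟩,
    by show (Tb.wd _ : Cycle L) = _; rw [wd, ← (Tb.ex_lab x).choose_spec]; rfl⟩
  left_inv e := by
    apply Subtype.ext; apply Subtype.ext
    refine Tb.ext' rfl ?_
    rw [Tb.wd_of_w0 e.2]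
    exact (Tb.ex_lab _).choose_spec.symm
  right_inv x := rfl

/-- Elements of `Lam` act on the table coordinate through words in `T` and `ρ` that depend only on
the labelled word. -/
theorem lam_spec {P : Equiv.Perm Tb.E} (hP : P ∈ Tb.sys.Lam) (u : List L) :
    ∃ g ∈ Subgroup.closure ({Tb.T, Tb.ρ} : Set (Equiv.Perm Xc)), ∃ u' : List L,
      ∀ e : Tb.E, Tb.wd e.1 = u → (P e).1.2 = g e.1.2 ∧ Tb.wd (P e).1 = u' := by
  have hT : Tb.T ∈ Subgroup.closure ({Tb.T, Tb.ρ} : Set (Equiv.Perm Xc)) :=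
    Subgroup.subset_closure (by simp)
  have hρ : Tb.ρ ∈ Subgroup.closure ({Tb.T, Tb.ρ} : Set (Equiv.Perm Xc)) :=
    Subgroup.subset_closure (by simp)
  have key : ∀ (b : L × Bool) (u : List L),
      ∃ g ∈ Subgroup.closure ({Tb.T, Tb.ρ} : Set (Equiv.Perm Xc)), ∃ u' : List L,
      ∀ e : Tb.E, Tb.wd e.1 = u → ((if b.2 then Tb.R b.1 else (Tb.R b.1)⁻¹) e).1.2 = g e.1.2 ∧
        Tb.wd ((if b.2 then Tb.R b.1 else (Tb.R b.1)⁻¹) e).1 = u' := by
    intro b u
    refine ⟨Tb.ρ ^ (simP u [b] (lb 2)).2 * (if b.2 then Tb.T else Tb.T⁻¹) * Tb.ρ ^ (u.idxOf b.1),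
      mul_mem (mul_mem (pow_mem hρ _) (by split_ifs; exacts [hT, inv_mem hT])) (pow_mem hρ _),
      simW u [b] (lb 2), fun e he => ?_⟩
    obtain ⟨h1, h2, h3⟩ := Tb.exec_spec [b] (lb 2) e.1
    have h4 : Tb.nf (Tb.exec e.1 [b] (lb 2)) = ⟨Tb.exec e.1 [b] (lb 2), Tb.head_go _ _⟩ :=
      Tb.nf_val ⟨_, _⟩
    rw [h4, nf_val, RR, RR, one_mul] at h3
    rw [← h3, ← he]
    exact ⟨h2, h1⟩
  have keyr : ∀ (π : W) (u : List L),
      ∃ g ∈ Subgroup.closure ({Tb.T, Tb.ρ} : Set (Equiv.Perm Xc)), ∃ u' : List L,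
      ∀ e : Tb.E, Tb.wd e.1 = u → (Tb.rl π e).1.2 = g e.1.2 ∧ Tb.wd (Tb.rl π e).1 = u' := by
    intro π u
    refine ⟨Tb.ρ ^ ((u.map π.1).idxOf (lb 2)), pow_mem hρ _,
      (u.map π.1).rotate ((u.map π.1).idxOf (lb 2)), fun e he => ?_⟩
    show (Tb.go (lb 2) (lw π e.1)).2 = _ ∧ Tb.wd (Tb.go (lb 2) (lw π e.1)) = _
    rw [wd_go, go, (Tb.ρ'_pow _ _).1, wd_lw, he]
    exact ⟨rfl, rfl⟩
  induction hP using Subgroup.closure_induction_left generalizing u with
  | one => exact ⟨1, one_mem _, u, fun e he => ⟨rfl, he⟩⟩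
  | mul_left x hx y _ ih =>
    obtain ⟨g, hg, u', h⟩ := ih u
    rcases hx with ⟨a, rfl⟩ | ⟨π, rfl⟩
    · obtain ⟨g', hg', u'', h'⟩ := key (a, true) u'
      refine ⟨g' * g, mul_mem hg' hg, u'', fun e he => ?_⟩
      have := h' (y e) (h e he).2
      rw [(h e he).1] at this
      exact this
    · obtain ⟨g', hg', u'', h'⟩ := keyr π u'
      refine ⟨g' * g, mul_mem hg' hg, u'', fun e he => ?_⟩
      have := h' (y e) (h e he).2
      rw [(h e he).1] at this
      exact this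
  | inv_mul_cancel x hx y _ ih =>
    obtain ⟨g, hg, u', h⟩ := ih u
    rcases hx with ⟨a, rfl⟩ | ⟨π, rfl⟩
    · obtain ⟨g', hg', u'', h'⟩ := key (a, false) u'
      refine ⟨g' * g, mul_mem hg' hg, u'', fun e he => ?_⟩
      have := h' (y e) (h e he).2
      rw [(h e he).1] at this
      exact this
    · obtain ⟨g', hg', u'', h'⟩ := keyr π⁻¹ u'
      refine ⟨g' * g, mul_mem hg' hg, u'', fun e he => ?_⟩
      have := h' (y e) (h e he).2
      rw [(h e he).1, map_inv] at this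
      exact this

theorem path_sim (bs : List (L × Bool)) (f : L) (s : W × Xc) {γ : MulAut F}
    {P : Equiv.Perm Tb.E} (h : Path Tb.sys γ P (Tb.wd s : Cycle L)) :
    Path Tb.sys (simA (Tb.wd s) bs * γ) (Tb.RR bs * P) (simW (Tb.wd s) bs f : Cycle L) := by
  induction bs generalizing s γ P with
  | nil =>
    rw [simA, RR, one_mul, one_mul, simW, ← wd_go, cyc_go]
    exact h
  | cons b bs ih =>
    rw [simA, RR, simW, mul_assoc, mul_assoc, ← wd_go, ← wd_TT]
    apply ih
    rw [← Tb.cyc_go b.1 s] at h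
    have hh := Tb.head_go b.1 s
    generalize Tb.go b.1 s = s' at h hh ⊢
    obtain ⟨b1, b2⟩ := b
    cases b2
    · obtain ⟨a, t, U, V, hp, hn, ht⟩ := Tb.wd_pattern (Tb.T'⁻¹ s')
      have h1 := Tb.wd_T' (Tb.T'⁻¹ s')
      rw [perm_apply_inv, hp, slide_eq hn] at h1
      obtain rfl : a = b1 := by rw [h1] at hh; simpa using hh
      have h2 : mover false (Tb.wd s') = t := by
        rw [h1, mover, if_neg (by simp), unslide_eq hn ht]; rfl
      simp only [h2, TT, Bool.false_eq_true, if_false]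
      rw [hp]
      rw [h1] at h
      exact Path.bwd γ P a t U V h
    · obtain ⟨a, t, U, V, hp, hn, ht⟩ := Tb.wd_pattern s'
      obtain rfl : a = b1 := by rw [hp] at hh; simpa using hh
      have h2 : mover true (Tb.wd s') = t := by rw [hp]; rfl
      simp only [h2, TT, if_true]
      rw [wd_T', hp, slide_eq hn]
      rw [hp] at h
      exact Path.fwd γ P a t U V h

end Tab

/-- Parts A and B together: a rooted table satisfying the cells gives an action of the stabiliser of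
the conjugacy class of `r3` on the fibre over the standard word.  Every element acts through a word
in `T` and `ρ`, and an explicit sequence of signed slides realising `γ` up to a relabelling and an
inner automorphism computes the action. -/
theorem mainAB {Xc : Type} (Tb : Tab Xc) :
    ∃ Φ : G3 →* Equiv.Perm Tb.X0,
      (∀ γ : G3, ∃ g ∈ Subgroup.closure ({Tb.T, Tb.ρ} : Set (Equiv.Perm Xc)),
        ∀ x : Tb.X0, (Φ γ x).1 = g x.1) ∧
      (∀ (γ : G3) (bs : List (L × Bool)) (f : L) (π : W) (c : F),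
        (simW w0L bs f).map π.1 = w0L →
        (γ : MulAut F) = MulAut.conj c * (relA π * simA w0L bs) →
        ∀ x : Tb.X0, (Φ γ x).1 = run Tb.T Tb.ρ (simP w0L bs f).1 (simP w0L bs f).2 x.1) := by
  obtain ⟨Φ, h1, h2⟩ := mainA Tb.sys
  refine ⟨(Tb.fib.permCongrHom : _ →* _).comp Φ, fun γ => ?_, fun γ bs f π c hw hγ x => ?_⟩
  · obtain ⟨P, hP, h⟩ := h1 γ
    obtain ⟨g, hg, u', h'⟩ := Tb.lam_spec hP w0L
    refine ⟨g, hg, fun x => ?_⟩
    show (Φ γ (Tb.fib.symm x)).1.1.2 = _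
    rw [h, (h' _ (Tb.wd_of_w0 (Tb.fib.symm x).2)).1]
    rfl
  · show (Φ γ (Tb.fib.symm x)).1.1.2 = _
    have hs := Tb.wd_of_w0 (Tb.fib.symm x).2
    have hp := Tb.path_sim bs f (Tb.fib.symm x).1.1 (γ := 1) (P := 1) (by rw [hs]; exact Path.refl)
    rw [hs, mul_one, mul_one] at hp
    have hp2 := Path.rel _ _ _ π hp
    rw [Cycle.map_coe, hw] at hp2
    rw [h2 γ _ _ c hp2 hγ]
    obtain ⟨e1, e2, e3⟩ := Tb.exec_spec bs f (Tb.fib.symm x).1.1
    rw [Tb.nf_val, hs] at *
    show (Tb.rl π (Tb.RR bs (Tb.fib.symm x).1)).1.2 = _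
    rw [← e3, Tb.rl_nf]
    show (Tb.go (lb 2) (Tab.lw π _)).2 = _
    rw [Tb.go_self (by rw [Tb.wd_lw, e1, hw]; rfl)]
    exact e2

end Pool.Agent.MP_61a8e3_al.A

end

section

set_option autoImplicit false

namespace Pool.Agent.MP_61a8e3_al.A

/-- The commutator block of a handle, as forward slides. -/
def blk (j : Fin 3) : List (L × Bool) := [(la j, true), (lb j, true), (lA j, true), (lB j, true)]

/-- Signed slides realising the push across a side. -/
def pushSeq : X → List (L × Bool)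
  | .inl i => (lB i, true) :: blk (i + 1) ++ blk (i + 2) ++ [(lb i, false)]
  | .inr i => blk (i + 1) ++ blk (i + 2) ++ [(la i, true), (lA i, false)]

theorem pushSeq_word : ∀ x : X, simW w0L (pushSeq x) (lb 2) = w0L := by decide +kernel

theorem pushSeq_aut_aux : ∀ (x : X) (l : L), D.push x (el l) = simA w0L (pushSeq x) (el l) := by
  decide +kernel

theorem pushSeq_aut (x : X) : D.push x = simA w0L (pushSeq x) := aut_ext (pushSeq_aut_aux x)

/-- The programs of the six pushes. -/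
def pushProg : X → List (ℕ × Bool) × ℕ
  | .inl 0 => ([(10, true), (8, true), (8, true), (1, true), (1, true), (8, true), (8, true),
      (1, true), (1, true), (6, false)], 4)
  | .inl 1 => ([(6, true), (8, true), (8, true), (1, true), (1, true), (8, true), (8, true),
      (1, true), (1, true), (6, false)], 8)
  | .inl 2 => ([(2, true), (8, true), (8, true), (1, true), (1, true), (8, true), (8, true),
      (1, true), (1, true), (6, false)], 0)
  | .inr 0 => ([(7, true), (8, true), (1, true), (1, true), (8, true), (8, true), (1, true),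
      (1, true), (8, true), (10, false)], 3)
  | .inr 1 => ([(3, true), (8, true), (1, true), (1, true), (8, true), (8, true), (1, true),
      (1, true), (8, true), (10, false)], 7)
  | .inr 2 => ([(11, true), (8, true), (1, true), (1, true), (8, true), (8, true), (1, true),
      (1, true), (8, true), (10, false)], 11)

theorem pushSeq_prog : ∀ x : X, simP w0L (pushSeq x) (lb 2) = pushProg x := by decide +kernel

/-- A closed sequence of slides. -/
def loopSeq : List (L × Bool) :=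
  [(lA 2, false), (lB 1, false), (lB 2, true), (lB 2, true), (lB 2, true), (lA 2, true),
    (lb 2, true), (lB 1, true), (la 2, false), (la 2, false), (la 2, false), (lb 2, false)]

/-- Its program (the final rotation exponent is `0`). -/
def loopProg : List (ℕ × Bool) :=
  [(1, false), (5, false), (9, true), (0, true), (0, true), (11, true), (11, true), (11, true),
    (3, false), (0, false), (0, false), (9, false)]

theorem loopSeq_word : simW w0L loopSeq (lb 2) = w0L := by decide +kernel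

theorem loopSeq_prog : simP w0L loopSeq (lb 2) = (loopProg, 0) := by decide +kernel

theorem loopSeq_fix : simA w0L loopSeq r3 = r3 := by decide +kernel

/-- Conjugators for the images of the relator under the pushes. -/
def pushCj : X → List L
  | .inl 0 => [la 0, lB 0, lA 0]
  | .inl 1 => [la 0, lb 0, lA 0, lB 0, la 1, lB 1, lA 1, lb 0, la 0, lB 0, lA 0]
  | .inl 2 => [la 0, lb 0, lA 0, lB 0, la 1, lb 1, lA 1, lB 1, la 2, lB 2, lA 2, lb 1, la 1,
      lB 1, lA 1, lb 0, la 0, lB 0, lA 0]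
  | .inr 0 => [la 0, lb 0, la 0, lB 0, lA 0]
  | .inr 1 => [la 0, lb 0, lA 0, lB 0, la 1, lb 1, la 1, lB 1, lA 1, lb 0, la 0, lB 0, lA 0]
  | .inr 2 => [la 0, lb 0, lA 0, lB 0, la 1, lb 1, lA 1, lB 1, la 2]

theorem push_mem (x : X) : D.push x ∈ G3 := by
  have h : ∀ x : X, FreeGroup.mk (pushCj x) * r3 * (FreeGroup.mk (pushCj x))⁻¹ = D.push x r3 := by
    decide +kernel
  exact (isConj_iff.2 ⟨_, h x⟩ : IsConj r3 (D.push x r3)).symm

theorem conj_mem (c : F) : (MulAut.conj c : MulAut F) ∈ G3 :=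
  (isConj_iff.2 ⟨c, rfl⟩ : IsConj r3 (MulAut.conj c r3)).symm

/-- Everything the table side needs. -/
theorem mainC {Xc : Type} (Tb : Tab Xc) :
    ∃ Φ : G3 →* Equiv.Perm Tb.X0,
      (∀ γ : G3, ∃ g ∈ Subgroup.closure ({Tb.T, Tb.ρ} : Set (Equiv.Perm Xc)),
        ∀ x : Tb.X0, (Φ γ x).1 = g x.1) ∧
      (∀ c : F, Φ ⟨MulAut.conj c, conj_mem c⟩ = 1) ∧
      (∀ (s : X) (x : Tb.X0),
        (Φ ⟨D.push s, push_mem s⟩ x).1 = run Tb.T Tb.ρ (pushProg s).1 (pushProg s).2 x.1) ∧
      (∃ γ : G3, ∀ x : Tb.X0, (Φ γ x).1 = run Tb.T Tb.ρ loopProg 0 x.1) := by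
  obtain ⟨Φ, h1, h2⟩ := mainAB Tb
  refine ⟨Φ, h1, fun c => ?_, fun s x => ?_, ?_⟩
  · ext1 x
    apply Subtype.ext
    exact h2 ⟨MulAut.conj c, conj_mem c⟩ [] (lb 2) 1 c (by decide) (by simp [simA]) x
  · rw [← pushSeq_prog]
    exact h2 ⟨D.push s, push_mem s⟩ (pushSeq s) (lb 2) 1 1 (by rw [pushSeq_word]; decide)
      (by simp [pushSeq_aut]) x
  · have hm : simA w0L loopSeq ∈ G3 := by
      show IsConj (simA w0L loopSeq r3) r3
      rw [loopSeq_fix]
    refine ⟨⟨_, hm⟩, fun x => ?_⟩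
    have := h2 ⟨_, hm⟩ loopSeq (lb 2) 1 1 (by rw [loopSeq_word]; decide) (by simp) x
    rw [loopSeq_prog] at this
    exact this

end Pool.Agent.MP_61a8e3_al.A

end

section

set_option autoImplicit false

namespace Pool.Agent.MP_61a8e3_al.D

open A

theorem DCent_third : ∀ x z : X, ∃ y : X, y ≠ x ∧ y ≠ z := by decide

theorem DCent_ex_self (x : X) : ex x (FreeGroup.of x) = Multiplicative.ofAdd 1 := by simp [ex]

theorem DCent_ex_ne {x y : X} (h : y ≠ x) : ex x (FreeGroup.of y) = 1 := by simp [ex, h]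

theorem DCent_ex_conj (x : X) {u v : F} (h : IsConj u v) : ex x u = ex x v :=
  isConj_iff_eq.1 ((ex x).map_isConj h)

theorem DCent_kil_ne {x y : X} (h : y ≠ x) : kil x (FreeGroup.of y) = FreeGroup.of y := by
  simp [kil, h]

theorem inner_of_pairs {α : MulAut F} (g : X → F)
    (hg : ∀ x, α (FreeGroup.of x) = g x * FreeGroup.of x * (g x)⁻¹)
    (hp : ∀ x y z : X, x ≠ y → z ≠ x → z ≠ y → kil z ((g x)⁻¹ * g y) = (g x)⁻¹ * g y) :
    ∃ c : F, α = MulAut.conj c := by
  have s0 : ∀ x y : X, x ≠ y → (∃ i : ℤ, kil y ((g x)⁻¹ * g y) = FreeGroup.of x ^ i) ∧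
      ∃ i : ℤ, kil x ((g x)⁻¹ * g y) = FreeGroup.of y ^ i := fun x y hxy => by
    refine ⟨pow_of_fix fun t ht => ?_, pow_of_fix fun t ht => ?_⟩
    · by_cases h : t = y
      · rw [h, kil_idem]
      · rw [kil_kil, hp x y t hxy ht h]
    · by_cases h : t = x
      · rw [h, kil_idem]
      · rw [kil_kil, hp x y t hxy h ht]
  have s1 : ∀ x z : X, ∃ i j : ℤ, x ≠ z →
      g z = g x * FreeGroup.of x ^ i * FreeGroup.of z ^ j := fun x z => by
    by_cases hxz : x = z
    · exact ⟨0, 0, fun h => (h hxz).elim⟩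
    obtain ⟨y, h1, h2⟩ := DCent_third x z
    obtain ⟨i, hi⟩ := (s0 x y h1.symm).1
    obtain ⟨j, hj⟩ := (s0 y z h2).2
    refine ⟨i, j, fun _ => ?_⟩
    rw [mul_assoc, ← hi, ← hj, ← map_mul, mul_assoc, mul_inv_cancel_left, hp x z y hxz h1 h2,
      mul_inv_cancel_left]
  obtain ⟨x, z, hxz⟩ : ∃ x z : X, x ≠ z := ⟨.inl 0, .inr 0, by decide⟩
  choose i j hij using s1 x
  have s2 : ∀ y, x ≠ y → i y = i z := fun y hy => by
    by_cases h : y = z
    · rw [h]
    have h1 := ex_kil (hp y z x h hy hxz)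
    rw [hij y hy, hij z hxz] at h1
    simp only [map_mul, map_inv, map_zpow, DCent_ex_self, DCent_ex_ne hy.symm,
      DCent_ex_ne hxz.symm, one_zpow, mul_one] at h1
    have h2 := congrArg Multiplicative.toAdd (mul_left_cancel (inv_mul_eq_one.1 h1))
    simpa using h2
  refine ⟨g x * FreeGroup.of x ^ i z, MulEquiv.toMonoidHom_injective
    (FreeGroup.ext_hom _ _ fun y => ?_)⟩
  change α (FreeGroup.of y) = _ * FreeGroup.of y * _⁻¹
  rw [hg]
  by_cases h : x = y
  · subst h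
    group
  · rw [hij y h, s2 y h]
    group

theorem cent {α : MulAut F} (hex : ∀ z w, ex z (α w) = ex z w)
    (hc : ∀ x : X, ∃ u : F, ∀ w, push x (α w) = u * α (push x w) * u⁻¹) :
    ∃ c : F, α = MulAut.conj c := by
  have s1 : ∀ x : X, ∃ g : F, α (FreeGroup.of x) = g * FreeGroup.of x * g⁻¹ := fun x => by
    obtain ⟨k, h1, h2⟩ := onlyL hex hc (x := x) (y := x) (w := FreeGroup.of x)
      (fun z hz _ => DCent_kil_ne hz.symm) (by rw [DCent_ex_self]; decide)
    obtain ⟨n, rfl⟩ := pow_of_fix fun z hz => h2 z hz hz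
    have h3 := congrArg Multiplicative.toAdd (DCent_ex_conj x h1)
    rw [hex, map_zpow, DCent_ex_self] at h3
    obtain rfl : 1 = n := by simpa using h3
    rw [zpow_one] at h1
    obtain ⟨c, hc⟩ := isConj_iff.1 h1.symm
    exact ⟨c, hc.symm⟩
  choose g hg using s1
  refine inner_of_pairs g hg fun x y z hxy hzx hzy => ?_
  obtain ⟨k, h1, h2⟩ := onlyL hex hc (x := x) (y := y) (w := FreeGroup.of x * FreeGroup.of y)
    (fun z hz hz' => by rw [map_mul, DCent_kil_ne hz.symm, DCent_kil_ne hz'.symm])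
    (by rw [map_mul, DCent_ex_self, DCent_ex_ne hxy.symm]; decide)
  refine pair hxy hzx hzy (IsConj.trans (isConj_iff.2 ⟨g x, ?_⟩) h1) (h2 z hzx hzy)
  rw [map_mul, hg, hg]
  group

end Pool.Agent.MP_61a8e3_al.D

end

section

set_option autoImplicit false

namespace Pool.Agent.MP_61a8e3_al.D

open A

theorem DMain_ex_r3 (z : X) : ex z r3 = 1 := by
  simp only [r3, List.ofFn_succ, List.ofFn_zero, List.prod_cons, List.prod_nil, map_mul, map_inv,
    map_one, mul_inv_cancel_comm, mul_inv_cancel, mul_one]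

theorem DMain_ex_pr (z : X) {g h : F} (e : pr g = pr h) : ex z g = ex z h := by
  have hr : ∀ r ∈ ({S.rel} : Set F), FreeGroup.lift
      (fun x => if x = z then Multiplicative.ofAdd (1 : ℤ) else 1) r = 1 := by
    rintro r rfl
    exact DMain_ex_r3 z
  have key : (PresentedGroup.toGroup hr).comp pr = ex z :=
    FreeGroup.ext_hom _ _ fun x => by
      rw [MonoidHom.comp_apply]
      exact (PresentedGroup.toGroup.of hr).trans (by simp [ex])
  rw [← key, MonoidHom.comp_apply, MonoidHom.comp_apply, e]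

theorem inner_of_id {E : Type} (S : SlideSys E) (e0 : E) (he0 : S.w e0 = w0) {α : MulAut F}
    (hα : α r3 = r3) (h : ∀ x, pr (α x) = pr x) : ∃ c : F, α = MulAut.conj c := by
  obtain ⟨P, hP⟩ := exists_P
  obtain ⟨Pm, -, hr⟩ := rch_exists S (good_of_fix hα)
  have ok0 : Ok S ⟨v0, e0⟩ := ⟨good_v0, he0.trans red_o0.symm⟩
  have hi : Inv P ⟨α, o0⟩ := Inv.rch S ok0 (hr e0 he0) hP
  refine cent (fun z w => DMain_ex_pr z (h w)) fun x => ?_
  have h1 := inv_o0 hα hi x
  have h2 := inv_o0 (α := 1) rfl hP x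
  have h3 : pr (α⁻¹ (gam x)) = pr (gam x) := by
    rw [← h (α⁻¹ (gam x)), MulAut.apply_inv_self]
  have h4 : out (α⁻¹ * push x * α) = out (push x) := by
    rw [h1, h3]
    simpa using h2.symm
  obtain ⟨c, hc⟩ := out_eq h4
  refine ⟨α c, fun w => ?_⟩
  have h5 : α⁻¹ (push x (α w)) = c * push x w * c⁻¹ := by
    simpa using DFunLike.congr_fun hc w
  have h6 := congrArg α h5
  rw [MulAut.apply_inv_self] at h6
  rw [h6, map_mul, map_mul, map_inv]

theorem DMain_conj_mem (c : F) : (MulAut.conj c : MulAut F) ∈ G3 :=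
  (isConj_iff.2 ⟨c, rfl⟩ : IsConj r3 (c * r3 * c⁻¹)).symm

theorem DMain_push_mem (x : X) : push x ∈ G3 := by
  obtain ⟨u, -, hu⟩ := push_norm x
  exact isConj_iff.2 ⟨u, hu⟩

/-- Elements of the surface group whose conjugation is realised in the kernel. -/
def DMain_K {Q : Type} [Group Q] (Φ : G3 →* Q) : Subgroup Pi where
  carrier := {g | ∃ τ : G3, (τ : MulAut F) r3 = r3 ∧ Φ τ = 1 ∧
    ∀ x, pr ((τ : MulAut F) x) = g * pr x * g⁻¹}
  one_mem' := ⟨1, rfl, map_one _, fun x => by simp⟩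
  mul_mem' := by
    rintro a b ⟨σ, h1, h2, h3⟩ ⟨τ, k1, k2, k3⟩
    refine ⟨σ * τ, ?_, by rw [map_mul, h2, k2, mul_one], fun x => ?_⟩
    · rw [Subgroup.coe_mul, MulAut.mul_apply, k1, h1]
    · rw [Subgroup.coe_mul, MulAut.mul_apply, h3, k3]
      group
  inv_mem' := by
    rintro a ⟨σ, h1, h2, h3⟩
    refine ⟨σ⁻¹, ?_, by rw [map_inv, h2, inv_one], fun x => ?_⟩
    · rw [Subgroup.coe_inv]
      conv_lhs => rw [← h1]
      exact MulAut.inv_apply_self F _ _
    · have := h3 ((σ : MulAut F)⁻¹ x)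
      rw [MulAut.apply_inv_self] at this
      rw [Subgroup.coe_inv, this]
      group

theorem DMain_K_top {Q : Type} [Group Q] (Φ : G3 →* Q)
    (hinn : ∀ (γ : G3) (c : F), (γ : MulAut F) = MulAut.conj c → Φ γ = 1)
    (hpush : ∀ (γ : G3) (x : X), (γ : MulAut F) = push x → Φ γ = 1) (g : Pi) :
    g ∈ DMain_K Φ := by
  obtain ⟨w, rfl⟩ := PresentedGroup.mk_surjective _ g
  have hle : Subgroup.closure (Set.range gam) ≤ (DMain_K Φ).comap pr := by
    rw [Subgroup.closure_le]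
    rintro _ ⟨x, rfl⟩
    obtain ⟨u, hu1, hu2⟩ := push_norm x
    refine ⟨(⟨MulAut.conj u, DMain_conj_mem u⟩ : G3) * (⟨push x, DMain_push_mem x⟩ : G3), ?_, ?_,
      fun y => ?_⟩
    · exact hu2
    · rw [map_mul, hinn _ u rfl, hpush _ x rfl, mul_one]
    · change pr (u * push x y * u⁻¹) = _
      rw [map_mul, map_mul, map_inv, hu1, pr_push]
  rw [closure_gam] at hle
  exact hle (Subgroup.mem_top w)

theorem kerD {E : Type} (S : SlideSys E) (e0 : E) (he0 : S.w e0 = w0) {Q : Type} [Group Q]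
    (Φ : G3 →* Q) (hinn : ∀ (γ : G3) (c : F), (γ : MulAut F) = MulAut.conj c → Φ γ = 1)
    (hpush : ∀ (γ : G3) (x : X), (γ : MulAut F) = push x → Φ γ = 1)
    (α : G3) (g : Pi) (h : ∀ x, pr ((α : MulAut F) x) = g * pr x * g⁻¹) : Φ α = 1 := by
  obtain ⟨c, hc⟩ := isConj_iff.1 (show IsConj ((α : MulAut F) r3) r3 from α.2)
  obtain ⟨τ, t1, t2, t3⟩ := DMain_K_top Φ hinn hpush (pr c * g)
  let γ : G3 := ⟨MulAut.conj c, DMain_conj_mem c⟩
  have hv : ∀ x, ((τ⁻¹ * (γ * α) : G3) : MulAut F) x =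
      (τ : MulAut F)⁻¹ (c * (α : MulAut F) x * c⁻¹) := fun x => rfl
  have hinv : ∀ y, pr ((τ : MulAut F)⁻¹ y) = (pr c * g)⁻¹ * pr y * (pr c * g) := fun y => by
    have := t3 ((τ : MulAut F)⁻¹ y)
    rw [MulAut.apply_inv_self] at this
    rw [this]
    group
  obtain ⟨d, hd⟩ := inner_of_id S e0 he0 (α := ((τ⁻¹ * (γ * α) : G3) : MulAut F))
    (by
      rw [hv, hc]
      conv_lhs => rw [← t1]
      exact MulAut.inv_apply_self F _ _)
    (fun x => by
      rw [hv, hinv, map_mul, map_mul, map_inv, h]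
      group)
  have h1 := hinn _ d hd
  rwa [map_mul, map_mul, map_inv, t2, hinn γ c rfl, inv_one, one_mul, one_mul] at h1

end Pool.Agent.MP_61a8e3_al.D

end

section

/-! Assembly of parts A, B, D, S: from a rooted table on which the six pushes act trivially to
finite-index subgroups of the outer automorphism group of the surface group. -/

set_option autoImplicit false

namespace Pool.Agent.MP_61a8e3_al.D

open A

theorem mainABD {Xc : Type} (Tb : Tab Xc) (x0 : Tb.X0)
    (hp : ∀ x : X, ∃ (bs : List (L × Bool)) (f : L) (π : W) (c : F),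
      (simW w0L bs f).map π.1 = w0L ∧ push x = MulAut.conj c * (relA π * simA w0L bs) ∧
      ∀ y : Tb.X0, run Tb.T Tb.ρ (simP w0L bs f).1 (simP w0L bs f).2 y.1 = y.1) :
    ∃ Φ : G3 →* Equiv.Perm Tb.X0,
      (∀ γ : G3, ∃ g ∈ Subgroup.closure ({Tb.T, Tb.ρ} : Set (Equiv.Perm Xc)),
        ∀ x : Tb.X0, (Φ γ x).1 = g x.1) ∧
      (∀ (γ : G3) (bs : List (L × Bool)) (f : L) (π : W) (c : F),
        (simW w0L bs f).map π.1 = w0L →
        (γ : MulAut F) = MulAut.conj c * (relA π * simA w0L bs) →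
        ∀ x : Tb.X0, (Φ γ x).1 = run Tb.T Tb.ρ (simP w0L bs f).1 (simP w0L bs f).2 x.1) ∧
      ∀ (Λ : Subgroup G3), Λ.FiniteIndex → ∀ (H : Type) [Group H] (f : Λ →* H),
        (∀ α : Λ, Φ α = 1 → f α = 1) →
        ∃ Γ : Subgroup OutPi, Γ.FiniteIndex ∧ ∃ φ : Γ →* H, φ.range = f.range := by
  obtain ⟨Φ, h1, h2⟩ := mainAB Tb
  refine ⟨Φ, h1, h2, fun Λ hΛ H _ f hf => glue Λ hΛ f fun α g hg => hf α ?_⟩
  refine kerD Tb.sys (Tb.fib.symm x0).1 (Tb.fib.symm x0).2 Φ (fun γ c hγ => ?_)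
    (fun γ x hγ => ?_) α g hg
  · ext y
    have := h2 γ [] (lb 2) 1 c (by rw [OneMemClass.coe_one, Equiv.Perm.coe_one, List.map_id]; decide)
      (by rw [hγ, map_one, one_mul]; exact (mul_one _).symm) y
    exact Subtype.ext this
  · obtain ⟨bs, f, π, c, e1, e2, e3⟩ := hp x
    ext y
    exact Subtype.ext ((h2 γ bs f π c e1 (hγ.trans e2) y).trans (e3 y))

end Pool.Agent.MP_61a8e3_al.D

end

section

/-! Forward programs for the six pushes and for one closed loop of slides. -/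

set_option autoImplicit false

namespace Pool.Agent.MP_61a8e3_al.T

open A

/-- A relabelling from two explicit maps. -/
def mkW (f g : L → L) (h : ∀ l, g (f l) = l ∧ f (g l) = l ∧ f (bar l) = bar (f l)) : W :=
  ⟨⟨f, g, fun l => (h l).1, fun l => (h l).2.1⟩, fun l => (h l).2.2⟩

/-- The index of the handle of a side. -/
def hd : X → Fin 3
  | .inl i => i
  | .inr i => i

theorem tri_ok : ∀ (i : Fin 3) (l : L), triF (la i) (lb i) (triF (lb i) (la i) l) = l ∧
    triF (lb i) (la i) (triF (la i) (lb i) l) = l ∧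
    triF (lb i) (la i) (bar l) = bar (triF (lb i) (la i) l) := by decide +kernel

/-- The relabelling at the end of a push. -/
def pushW (x : X) : W := mkW _ _ (tri_ok (hd x))

/-- Forward slides realising the push across a side. -/
def pushF : X → List (L × Bool)
  | .inl i => (lB i, true) :: blk (i + 1) ++ blk (i + 2) ++ [(lA i, true), (lB i, true)]
  | .inr i => blk (i + 1) ++ blk (i + 2) ++ [(la i, true), (lB i, true), (la i, true)]

/-- The final root letter. -/
def pushE (x : X) : L := if hd x = 2 then la 2 else lb 2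

/-- The forward programs of the six pushes. -/
def pushP : X → List (ℕ × Bool) × ℕ
  | .inl 0 => ([(10, true), (8, true), (8, true), (1, true), (1, true), (8, true), (8, true),
      (1, true), (1, true), (7, true), (1, true)], 1)
  | .inl 1 => ([(6, true), (8, true), (8, true), (1, true), (1, true), (8, true), (8, true),
      (1, true), (1, true), (7, true), (1, true)], 5)
  | .inl 2 => ([(2, true), (8, true), (8, true), (1, true), (1, true), (8, true), (8, true),
      (1, true), (1, true), (7, true), (1, true)], 9)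
  | .inr 0 => ([(7, true), (8, true), (1, true), (1, true), (8, true), (8, true), (1, true),
      (1, true), (8, true), (11, true), (9, true)], 4)
  | .inr 1 => ([(3, true), (8, true), (1, true), (1, true), (8, true), (8, true), (1, true),
      (1, true), (8, true), (11, true), (9, true)], 8)
  | .inr 2 => ([(11, true), (8, true), (1, true), (1, true), (8, true), (8, true), (1, true),
      (1, true), (8, true), (11, true), (9, true)], 0)

theorem pushF_word : ∀ x : X, (simW w0L (pushF x) (pushE x)).map (pushW x).1 = w0L := by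
  decide +kernel

theorem pushF_aut_aux : ∀ (x : X) (l : L),
    D.push x (el l) = relA (pushW x) (simA w0L (pushF x) (el l)) := by
  decide +kernel

theorem pushF_aut (x : X) : D.push x = relA (pushW x) * simA w0L (pushF x) :=
  aut_ext (pushF_aut_aux x)

theorem pushF_prog : ∀ x : X, simP w0L (pushF x) (pushE x) = pushP x := by decide +kernel

/-- A closed sequence of forward slides. -/
def loopF : List (L × Bool) :=
  fw [lB 2, la 2, lB 2, lb 1, lA 2, lA 2, lA 2, lb 1, la 2, lb 2, lb 2, lb 1, lA 1, lb 2, lb 1,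
    lA 1, lb 1, lA 2]

/-- Its program. -/
def loopP : List (ℕ × Bool) × ℕ :=
  ([(2, true), (9, true), (3, true), (9, true), (1, true), (0, true), (0, true), (11, true),
    (11, true), (11, true), (0, true), (9, true), (1, true), (4, true), (6, true), (4, true),
    (7, true), (1, true)], 9)

/-- The final word of the loop. -/
def loopU : List L :=
  [lB 1, la 2, lb 1, lA 2, la 1, lB 2, lA 1, lb 2, lb 0, lA 0, lB 0, la 0]

theorem loop_ok : ∀ l : L,
    loopU.getD (w0L.idxOf (w0L.getD (loopU.idxOf l) l)) (w0L.getD (loopU.idxOf l) l) = l ∧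
    w0L.getD (loopU.idxOf (loopU.getD (w0L.idxOf l) l)) (loopU.getD (w0L.idxOf l) l) = l ∧
    w0L.getD (loopU.idxOf (bar l)) (bar l) = bar (w0L.getD (loopU.idxOf l) l) := by
  decide +kernel

/-- The relabelling at the end of the loop. -/
def loopW : W :=
  mkW (fun l => w0L.getD (loopU.idxOf l) l) (fun l => loopU.getD (w0L.idxOf l) l) loop_ok

theorem loopF_word : (simW w0L loopF (lB 1)).map loopW.1 = w0L := by decide +kernel

theorem loopF_prog : simP w0L loopF (lB 1) = loopP := by decide +kernel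

theorem loopF_fix : relA loopW (simA w0L loopF r3) = r3 := by decide +kernel

theorem mul_mem_of_fix {α β : MulAut F} (h : α (β r3) = r3) : α * β ∈ G3 := by
  show IsConj (α (β r3)) r3
  rw [h]

/-- Everything the table side needs, with forward programs only. -/
theorem mainT {Xc : Type} (Tb : Tab Xc) (x0 : Tb.X0)
    (hp : ∀ x : X, ∀ y : Tb.X0, run Tb.T Tb.ρ (pushP x).1 (pushP x).2 y.1 = y.1) :
    ∃ Φ : G3 →* Equiv.Perm Tb.X0,
      (∀ γ : G3, ∃ g ∈ Subgroup.closure ({Tb.T, Tb.ρ} : Set (Equiv.Perm Xc)),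
        ∀ x : Tb.X0, (Φ γ x).1 = g x.1) ∧
      (∃ g0 : G3, ∀ y : Tb.X0, (Φ g0 y).1 = run Tb.T Tb.ρ loopP.1 loopP.2 y.1) ∧
      ∀ (Λ : Subgroup G3), Λ.FiniteIndex → ∀ (H : Type) [Group H] (f : Λ →* H),
        (∀ α : Λ, Φ α = 1 → f α = 1) →
        ∃ Γ : Subgroup D.OutPi, Γ.FiniteIndex ∧ ∃ φ : Γ →* H, φ.range = f.range := by
  obtain ⟨Φ, h1, h2, h3⟩ := D.mainABD Tb x0 (fun x =>
    ⟨pushF x, pushE x, pushW x, 1, pushF_word x, by rw [map_one, one_mul]; exact pushF_aut x,
      fun y => by rw [pushF_prog]; exact hp x y⟩)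
  refine ⟨Φ, h1, ?_, h3⟩
  have hm : relA loopW * simA w0L loopF ∈ G3 := mul_mem_of_fix loopF_fix
  refine ⟨⟨_, hm⟩, fun y => ?_⟩
  have := h2 ⟨_, hm⟩ loopF (lB 1) loopW 1 loopF_word (by rw [map_one, one_mul]) y
  rw [loopF_prog] at this
  exact this

end Pool.Agent.MP_61a8e3_al.T

end

section

/-! Part T: from checked data to a finite-index subgroup mapping onto the integers. -/

set_option autoImplicit false

namespace Pool.Agent.MP_61a8e3_al.T

open A

theorem pushP_fw : ∀ x : X, (pushP x).1.all (fun j => j.2) = true := by decide +kernel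

theorem loopP_fw : loopP.1.all (fun j => j.2) = true := by decide +kernel

theorem act_transl (M : Fin 8 → Fin 9 → GaussianInt)
    (hz : ∀ k j : Fin 8, M k j.castSucc = if j = k then 1 else 0) (v : V) :
    act M v = v + fun i => M i (Fin.last 8) := by
  funext i
  simp only [act, lin, hz, Pi.add_apply]
  rw [Finset.sum_eq_single i]
  · simp
  · intro b _ hb
    rw [if_neg hb, zero_mul]
  · simp

theorem Data.final (Dt : Data) (h : Dt.Ok) (h0 : Dt.okA 0 = true)
    (hw : shape (Dt.cw 0) = shape w0L)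
    (hu : ∀ c < 131, ∀ j < Dt.per c, j < 16 → shape (Dt.cw (16 * c + j)) = shape w0L →
      16 * c + j = 0)
    (hpI : ∀ x : X, Dt.prgI 0 (pushP x).1 (pushP x).2 = 0)
    (hp : ∀ x : X, ∀ θ < 28, eqChk Dt.tab (Dt.prgO 0 (pushP x).1 (pushP x).2) [] θ = true)
    (zr zi : ℕ)
    (hl : valChk Dt.tab (Dt.prgO 0 loopP.1 loopP.2) 0 zr zi = true)
    (hz : ∀ k j : Fin 8, entB zr zi k j.castSucc = if j = k then 1 else 0)
    (hne : entB zr zi 0 (Fin.last 8) ≠ 0) :
    ∃ Γ : Subgroup D.OutPi, Γ.FiniteIndex ∧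
      ∃ φ : Γ →* Multiplicative ℤ, Function.Surjective φ := by
  obtain ⟨Tb, hcw, hrun, haff⟩ := Dt.exists_tab h
  have key : ∀ y : Tb.X0, y.1.1 = ⟨0, h0⟩ := by
    rintro ⟨⟨⟨a, ha⟩, xf⟩, hy⟩
    apply Subtype.ext
    show a = 0
    rw [hcw] at hy
    have ha' := ha
    simp only [Data.okA, Bool.and_eq_true, Nat.blt_eq] at ha'
    have e : 16 * (a / 16) + a % 16 = a := Nat.div_add_mod a 16
    have := hu (a / 16) ha'.1 (a % 16) ha'.2 (Nat.mod_lt _ (by norm_num)) (by rw [e]; exact hy)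
    rwa [e] at this
  let e : Fin 28 × V ≃ Tb.X0 :=
    { toFun := fun xf => ⟨(⟨0, h0⟩, xf), by rw [hcw]; exact hw⟩
      invFun := fun y => y.1.2
      left_inv := fun _ => rfl
      right_inv := fun y => Subtype.ext (Prod.ext (key y).symm rfl) }
  have he : ∀ xf, (e xf).1 = (⟨0, h0⟩, xf) := fun _ => rfl
  obtain ⟨Φ, h1, ⟨g0, hg0⟩, h3⟩ := mainT Tb (e (0, 0)) (fun x y => by
    obtain ⟨⟨θ, v⟩, rfl⟩ := e.surjective y
    obtain ⟨r1, r2⟩ := hrun (pushP x).1 (pushP x).2 (e (θ, v)).1 (pushP_fw x)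
    refine Prod.ext (Subtype.ext (r1.trans (hpI x))) (r2.trans ?_)
    exact eqChk_sound Dt.tab _ [] θ (hp x θ.val θ.2) v)
  have hb : (fun i => entB zr zi i (Fin.last 8) : V) ≠ 0 := fun hh => hne (congrFun hh 0)
  obtain ⟨ℓ, hℓ⟩ := exists_coord_TAff hb
  obtain ⟨Λ, hΛ, f, hf, hk⟩ := D.aff_fin e
    {M : V →+ V | ∀ v, (Qf Dt.hc (M v)).re = (Qf Dt.hc v).re}
    (iso_finite_TAff (fun v => (Qf Dt.hc v).re) h.qfin) Φ (fun γ θ => by
      obtain ⟨g, hg, hγ⟩ := h1 γ
      obtain ⟨a', θ', M, b, hM, hv⟩ := haff g hg ⟨0, h0⟩ θ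
      refine ⟨θ', M, hM, b, fun v => ?_⟩
      apply e.symm.injective
      show (Φ γ (e (θ, v))).1.2 = _
      rw [hγ, he, hv]
      rfl) 0 g0 _ (fun v => by
      apply e.symm.injective
      show (Φ g0 (e (0, v))).1.2 = _
      rw [hg0, (hrun loopP.1 loopP.2 (e (0, v)).1 loopP_fw).2]
      refine (valChk_sound Dt.tab _ 0 zr zi hl v).trans ?_
      rw [act_transl _ hz]
      rfl) ℓ hℓ
  obtain ⟨Γ, hΓ, φ, hφ⟩ := h3 Λ hΛ (Multiplicative ℤ) f hk
  refine ⟨Γ, hΓ, φ, ?_⟩
  rw [← MonoidHom.range_eq_top, hφ, MonoidHom.range_eq_top]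
  exact hf

end Pool.Agent.MP_61a8e3_al.T

end

section

/-! Part T: the checks at the base word (pushes and loop). -/

set_option autoImplicit false

namespace Pool.Agent.MP_61a8e3_al.T

open A

/-- real part of the state of the loop -/
def lpR : ℕ := nat_lit 0x7e00810080008000800080008000800080008200800081008000800080008000800080008000800080008100800080008000800080008000800080008000810080008000800080008100800080008000800081008000800080007f00800080008000800080008100800080008100800080008000800080008000810080007f00800080008000800080008000800081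

/-- imaginary part of the state of the loop -/
def lpI : ℕ := nat_lit 0x8000800080008000800080008000800080008000800080008000800080008000800080007e00800080008000800080008000800080008200800080008000800080008000800080007f00800080008000800080008000800080008100800080008000800080008000800080008100800080008000800080008000800080007f00800080008000800080008000800080

theorem end_ok0 : dat.okA 0 = true := by decide +kernel

theorem end_w0 : shape (dat.cw 0) = shape w0L := by decide +kernel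

theorem end_uniq_aux : (allN 0 131 fun c => allN 0 16 fun j =>
    !(Nat.blt j (dat.per c)) || !(shape (dat.cw (16 * c + j)) == shape w0L) ||
      (16 * c + j == 0)) = true := by decide +kernel

theorem end_uniq : ∀ c < 131, ∀ j < dat.per c, j < 16 →
    shape (dat.cw (16 * c + j)) = shape w0L → 16 * c + j = 0 := by
  intro c hc j hj hj' hs
  have h := allN_spec (allN_spec end_uniq_aux c hc) j hj'
  simp only [Nat.zero_add, Bool.or_eq_true, Bool.not_eq_true', beq_iff_eq, beq_eq_false_iff_ne,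
    ne_eq] at h
  rcases h with (h | h) | h
  · have h' : Nat.blt j (dat.per c) = true := by rw [Nat.blt_eq]; exact hj
    rw [h'] at h; exact absurd h (by simp)
  · exact absurd hs h
  · exact h

theorem end_pushI : ∀ x : X, dat.prgI 0 (pushP x).1 (pushP x).2 = 0 := by decide +kernel

theorem end_push_aux : ∀ x : X,
    (allN 0 28 fun θ => eqChk dat.tab (dat.prgO 0 (pushP x).1 (pushP x).2) [] θ) = true := by
  decide +kernel

theorem end_push (x : X) (θ : ℕ) (h : θ < 28) :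
    eqChk dat.tab (dat.prgO 0 (pushP x).1 (pushP x).2) [] θ = true := by
  have := allN_spec (end_push_aux x) θ h
  rwa [Nat.zero_add] at this

theorem end_loop : valChk dat.tab (dat.prgO 0 loopP.1 loopP.2) 0 lpR lpI = true := by
  decide +kernel

theorem end_lin : ∀ k j : Fin 8, entB lpR lpI k j.castSucc = if j = k then 1 else 0 := by
  decide +kernel

theorem end_ne : entB lpR lpI 0 (Fin.last 8) ≠ 0 := by decide +kernel

/-- If the data pass the checks then a finite-index subgroup maps onto the integers. -/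
theorem final_of_ok (h : dat.Ok) : ∃ Γ : Subgroup D.OutPi, Γ.FiniteIndex ∧
    ∃ φ : Γ →* Multiplicative ℤ, Function.Surjective φ :=
  dat.final h end_ok0 end_w0 end_uniq end_pushI end_push lpR lpI end_loop end_lin end_ne

end Pool.Agent.MP_61a8e3_al.T

end
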