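import Pool.Agent.Mg.F61a8e3.Gabd557
import Pool.Agent.Mg.F61a8e3.G2fb3b6
import Pool.Agent.Mg.F61a8e3.G13f9f7
import Pool.Agent.Mg.F61a8e3.G0df600
import Pool.Agent.Mg.F61a8e3.G5378a6
import Pool.Agent.Mg.F61a8e3.G8e24bb
import Pool.Agent.Mg.F61a8e3.G73ad4b
import Pool.Agent.MP_61a8e3_al.DAff
import Pool.Agent.Mg.F61a8e3.Gef5370
import Pool.Agent.MP_61a8e3_al.TTw

section

/-! Part T: the checks on fibres, classes congruent to 3 modulo 12. -/

set_option autoImplicit false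

namespace Pool.Agent.MP_61a8e3_al.T

theorem fbs3 :
    (allN 0 7 (dat.fibC 3) = true ∧ allN 7 7 (dat.fibC 3) = true ∧
      allN 14 7 (dat.fibC 3) = true ∧ allN 21 7 (dat.fibC 3) = true) ∧
    (allN 0 7 (dat.fibC 15) = true ∧ allN 7 7 (dat.fibC 15) = true ∧
      allN 14 7 (dat.fibC 15) = true ∧ allN 21 7 (dat.fibC 15) = true) ∧
    (allN 0 7 (dat.fibC 27) = true ∧ allN 7 7 (dat.fibC 27) = true ∧
      allN 14 7 (dat.fibC 27) = true ∧ allN 21 7 (dat.fibC 27) = true) ∧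
    (allN 0 7 (dat.fibC 39) = true ∧ allN 7 7 (dat.fibC 39) = true ∧
      allN 14 7 (dat.fibC 39) = true ∧ allN 21 7 (dat.fibC 39) = true) ∧
    (allN 0 7 (dat.fibC 51) = true ∧ allN 7 7 (dat.fibC 51) = true ∧
      allN 14 7 (dat.fibC 51) = true ∧ allN 21 7 (dat.fibC 51) = true) ∧
    (allN 0 7 (dat.fibC 63) = true ∧ allN 7 7 (dat.fibC 63) = true ∧
      allN 14 7 (dat.fibC 63) = true ∧ allN 21 7 (dat.fibC 63) = true) ∧
    (allN 0 7 (dat.fibC 75) = true ∧ allN 7 7 (dat.fibC 75) = true ∧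
      allN 14 7 (dat.fibC 75) = true ∧ allN 21 7 (dat.fibC 75) = true) ∧
    (allN 0 7 (dat.fibC 87) = true ∧ allN 7 7 (dat.fibC 87) = true ∧
      allN 14 7 (dat.fibC 87) = true ∧ allN 21 7 (dat.fibC 87) = true) ∧
    (allN 0 7 (dat.fibC 99) = true ∧ allN 7 7 (dat.fibC 99) = true ∧
      allN 14 7 (dat.fibC 99) = true ∧ allN 21 7 (dat.fibC 99) = true) ∧
    (allN 0 7 (dat.fibC 111) = true ∧ allN 7 7 (dat.fibC 111) = true ∧
      allN 14 7 (dat.fibC 111) = true ∧ allN 21 7 (dat.fibC 111) = true) ∧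
    (allN 0 7 (dat.fibC 123) = true ∧ allN 7 7 (dat.fibC 123) = true ∧
      allN 14 7 (dat.fibC 123) = true ∧ allN 21 7 (dat.fibC 123) = true) :=
  ⟨⟨by decide +kernel, by decide +kernel, by decide +kernel, by decide +kernel⟩,
   ⟨by decide +kernel, by decide +kernel, by decide +kernel, by decide +kernel⟩,
   ⟨by decide +kernel, by decide +kernel, by decide +kernel, by decide +kernel⟩,
   ⟨by decide +kernel, by decide +kernel, by decide +kernel, by decide +kernel⟩,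
   ⟨by decide +kernel, by decide +kernel, by decide +kernel, by decide +kernel⟩,
   ⟨by decide +kernel, by decide +kernel, by decide +kernel, by decide +kernel⟩,
   ⟨by decide +kernel, by decide +kernel, by decide +kernel, by decide +kernel⟩,
   ⟨by decide +kernel, by decide +kernel, by decide +kernel, by decide +kernel⟩,
   ⟨by decide +kernel, by decide +kernel, by decide +kernel, by decide +kernel⟩,
   ⟨by decide +kernel, by decide +kernel, by decide +kernel, by decide +kernel⟩,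
   ⟨by decide +kernel, by decide +kernel, by decide +kernel, by decide +kernel⟩⟩

end Pool.Agent.MP_61a8e3_al.T

end

section

/-! Part T: the checks on fibres, classes congruent to 7 modulo 12. -/

set_option autoImplicit false

namespace Pool.Agent.MP_61a8e3_al.T

theorem fbs7 :
    (allN 0 7 (dat.fibC 7) = true ∧ allN 7 7 (dat.fibC 7) = true ∧
      allN 14 7 (dat.fibC 7) = true ∧ allN 21 7 (dat.fibC 7) = true) ∧
    (allN 0 7 (dat.fibC 19) = true ∧ allN 7 7 (dat.fibC 19) = true ∧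
      allN 14 7 (dat.fibC 19) = true ∧ allN 21 7 (dat.fibC 19) = true) ∧
    (allN 0 7 (dat.fibC 31) = true ∧ allN 7 7 (dat.fibC 31) = true ∧
      allN 14 7 (dat.fibC 31) = true ∧ allN 21 7 (dat.fibC 31) = true) ∧
    (allN 0 7 (dat.fibC 43) = true ∧ allN 7 7 (dat.fibC 43) = true ∧
      allN 14 7 (dat.fibC 43) = true ∧ allN 21 7 (dat.fibC 43) = true) ∧
    (allN 0 7 (dat.fibC 55) = true ∧ allN 7 7 (dat.fibC 55) = true ∧
      allN 14 7 (dat.fibC 55) = true ∧ allN 21 7 (dat.fibC 55) = true) ∧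
    (allN 0 7 (dat.fibC 67) = true ∧ allN 7 7 (dat.fibC 67) = true ∧
      allN 14 7 (dat.fibC 67) = true ∧ allN 21 7 (dat.fibC 67) = true) ∧
    (allN 0 7 (dat.fibC 79) = true ∧ allN 7 7 (dat.fibC 79) = true ∧
      allN 14 7 (dat.fibC 79) = true ∧ allN 21 7 (dat.fibC 79) = true) ∧
    (allN 0 7 (dat.fibC 91) = true ∧ allN 7 7 (dat.fibC 91) = true ∧
      allN 14 7 (dat.fibC 91) = true ∧ allN 21 7 (dat.fibC 91) = true) ∧
    (allN 0 7 (dat.fibC 103) = true ∧ allN 7 7 (dat.fibC 103) = true ∧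
      allN 14 7 (dat.fibC 103) = true ∧ allN 21 7 (dat.fibC 103) = true) ∧
    (allN 0 7 (dat.fibC 115) = true ∧ allN 7 7 (dat.fibC 115) = true ∧
      allN 14 7 (dat.fibC 115) = true ∧ allN 21 7 (dat.fibC 115) = true) ∧
    (allN 0 7 (dat.fibC 127) = true ∧ allN 7 7 (dat.fibC 127) = true ∧
      allN 14 7 (dat.fibC 127) = true ∧ allN 21 7 (dat.fibC 127) = true) :=
  ⟨⟨by decide +kernel, by decide +kernel, by decide +kernel, by decide +kernel⟩,
   ⟨by decide +kernel, by decide +kernel, by decide +kernel, by decide +kernel⟩,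
   ⟨by decide +kernel, by decide +kernel, by decide +kernel, by decide +kernel⟩,
   ⟨by decide +kernel, by decide +kernel, by decide +kernel, by decide +kernel⟩,
   ⟨by decide +kernel, by decide +kernel, by decide +kernel, by decide +kernel⟩,
   ⟨by decide +kernel, by decide +kernel, by decide +kernel, by decide +kernel⟩,
   ⟨by decide +kernel, by decide +kernel, by decide +kernel, by decide +kernel⟩,
   ⟨by decide +kernel, by decide +kernel, by decide +kernel, by decide +kernel⟩,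
   ⟨by decide +kernel, by decide +kernel, by decide +kernel, by decide +kernel⟩,
   ⟨by decide +kernel, by decide +kernel, by decide +kernel, by decide +kernel⟩,
   ⟨by decide +kernel, by decide +kernel, by decide +kernel, by decide +kernel⟩⟩

end Pool.Agent.MP_61a8e3_al.T

end

section

/-! Part T: the checks on fibres, classes congruent to 11 modulo 12. -/

set_option autoImplicit false

namespace Pool.Agent.MP_61a8e3_al.T

theorem fbs11 :
    (allN 0 7 (dat.fibC 11) = true ∧ allN 7 7 (dat.fibC 11) = true ∧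
      allN 14 7 (dat.fibC 11) = true ∧ allN 21 7 (dat.fibC 11) = true) ∧
    (allN 0 7 (dat.fibC 23) = true ∧ allN 7 7 (dat.fibC 23) = true ∧
      allN 14 7 (dat.fibC 23) = true ∧ allN 21 7 (dat.fibC 23) = true) ∧
    (allN 0 7 (dat.fibC 35) = true ∧ allN 7 7 (dat.fibC 35) = true ∧
      allN 14 7 (dat.fibC 35) = true ∧ allN 21 7 (dat.fibC 35) = true) ∧
    (allN 0 7 (dat.fibC 47) = true ∧ allN 7 7 (dat.fibC 47) = true ∧
      allN 14 7 (dat.fibC 47) = true ∧ allN 21 7 (dat.fibC 47) = true) ∧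
    (allN 0 7 (dat.fibC 59) = true ∧ allN 7 7 (dat.fibC 59) = true ∧
      allN 14 7 (dat.fibC 59) = true ∧ allN 21 7 (dat.fibC 59) = true) ∧
    (allN 0 7 (dat.fibC 71) = true ∧ allN 7 7 (dat.fibC 71) = true ∧
      allN 14 7 (dat.fibC 71) = true ∧ allN 21 7 (dat.fibC 71) = true) ∧
    (allN 0 7 (dat.fibC 83) = true ∧ allN 7 7 (dat.fibC 83) = true ∧
      allN 14 7 (dat.fibC 83) = true ∧ allN 21 7 (dat.fibC 83) = true) ∧
    (allN 0 7 (dat.fibC 95) = true ∧ allN 7 7 (dat.fibC 95) = true ∧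
      allN 14 7 (dat.fibC 95) = true ∧ allN 21 7 (dat.fibC 95) = true) ∧
    (allN 0 7 (dat.fibC 107) = true ∧ allN 7 7 (dat.fibC 107) = true ∧
      allN 14 7 (dat.fibC 107) = true ∧ allN 21 7 (dat.fibC 107) = true) ∧
    (allN 0 7 (dat.fibC 119) = true ∧ allN 7 7 (dat.fibC 119) = true ∧
      allN 14 7 (dat.fibC 119) = true ∧ allN 21 7 (dat.fibC 119) = true) :=
  ⟨⟨by decide +kernel, by decide +kernel, by decide +kernel, by decide +kernel⟩,
   ⟨by decide +kernel, by decide +kernel, by decide +kernel, by decide +kernel⟩,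
   ⟨by decide +kernel, by decide +kernel, by decide +kernel, by decide +kernel⟩,
   ⟨by decide +kernel, by decide +kernel, by decide +kernel, by decide +kernel⟩,
   ⟨by decide +kernel, by decide +kernel, by decide +kernel, by decide +kernel⟩,
   ⟨by decide +kernel, by decide +kernel, by decide +kernel, by decide +kernel⟩,
   ⟨by decide +kernel, by decide +kernel, by decide +kernel, by decide +kernel⟩,
   ⟨by decide +kernel, by decide +kernel, by decide +kernel, by decide +kernel⟩,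
   ⟨by decide +kernel, by decide +kernel, by decide +kernel, by decide +kernel⟩,
   ⟨by decide +kernel, by decide +kernel, by decide +kernel, by decide +kernel⟩⟩

end Pool.Agent.MP_61a8e3_al.T

end

section

/-! Part T: all checks on classes. -/

set_option autoImplicit false

namespace Pool.Agent.MP_61a8e3_al.T

theorem all28 {f : ℕ → Bool} (H : allN 0 7 f = true ∧ allN 7 7 f = true ∧
    allN 14 7 f = true ∧ allN 21 7 f = true) (θ : ℕ) (h : θ < 28) : f θ = true := by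
  obtain ⟨h0, h1, h2, h3⟩ := H
  by_cases a : θ < 7
  · simpa using allN_spec h0 θ a
  by_cases b : θ < 14
  · have := allN_spec h1 (θ - 7) (by omega)
    rwa [show 7 + (θ - 7) = θ by omega] at this
  by_cases c : θ < 21
  · have := allN_spec h2 (θ - 14) (by omega)
    rwa [show 14 + (θ - 14) = θ by omega] at this
  · have := allN_spec h3 (θ - 21) (by omega)
    rwa [show 21 + (θ - 21) = θ by omega] at this

theorem obj_all (c : ℕ) (h : c < 131) : dat.objC c = true := by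
  interval_cases c
  exacts [
    obs0.1, obs1.1, obs2.1, obs3.1, obs4.1, obs5.1, obs6.1, obs7.1, obs8.1, obs9.1, obs10.1,
    obs11.1, obs12.1, obs13.1, obs14.1, obs15.1, obs0.2.1, obs1.2.1, obs2.2.1, obs3.2.1, obs4.2.1,
    obs5.2.1, obs6.2.1, obs7.2.1, obs8.2.1, obs9.2.1, obs10.2.1, obs11.2.1, obs12.2.1, obs13.2.1,
    obs14.2.1, obs15.2.1, obs0.2.2.1, obs1.2.2.1, obs2.2.2.1, obs3.2.2.1, obs4.2.2.1, obs5.2.2.1,
    obs6.2.2.1, obs7.2.2.1, obs8.2.2.1, obs9.2.2.1, obs10.2.2.1, obs11.2.2.1, obs12.2.2.1,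
    obs13.2.2.1, obs14.2.2.1, obs15.2.2.1, obs0.2.2.2.1, obs1.2.2.2.1, obs2.2.2.2.1, obs3.2.2.2.1,
    obs4.2.2.2.1, obs5.2.2.2.1, obs6.2.2.2.1, obs7.2.2.2.1, obs8.2.2.2.1, obs9.2.2.2.1,
    obs10.2.2.2.1, obs11.2.2.2.1, obs12.2.2.2.1, obs13.2.2.2.1, obs14.2.2.2.1, obs15.2.2.2.1,
    obs0.2.2.2.2.1, obs1.2.2.2.2.1, obs2.2.2.2.2.1, obs3.2.2.2.2.1, obs4.2.2.2.2.1,
    obs5.2.2.2.2.1, obs6.2.2.2.2.1, obs7.2.2.2.2.1, obs8.2.2.2.2.1, obs9.2.2.2.2.1,
    obs10.2.2.2.2.1, obs11.2.2.2.2.1, obs12.2.2.2.2.1, obs13.2.2.2.2.1, obs14.2.2.2.2.1,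
    obs15.2.2.2.2.1, obs0.2.2.2.2.2.1, obs1.2.2.2.2.2.1, obs2.2.2.2.2.2.1, obs3.2.2.2.2.2.1,
    obs4.2.2.2.2.2.1, obs5.2.2.2.2.2.1, obs6.2.2.2.2.2.1, obs7.2.2.2.2.2.1, obs8.2.2.2.2.2.1,
    obs9.2.2.2.2.2.1, obs10.2.2.2.2.2.1, obs11.2.2.2.2.2.1, obs12.2.2.2.2.2.1, obs13.2.2.2.2.2.1,
    obs14.2.2.2.2.2.1, obs15.2.2.2.2.2.1, obs0.2.2.2.2.2.2.1, obs1.2.2.2.2.2.2.1,
    obs2.2.2.2.2.2.2.1, obs3.2.2.2.2.2.2.1, obs4.2.2.2.2.2.2.1, obs5.2.2.2.2.2.2.1,
    obs6.2.2.2.2.2.2.1, obs7.2.2.2.2.2.2.1, obs8.2.2.2.2.2.2.1, obs9.2.2.2.2.2.2.1,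
    obs10.2.2.2.2.2.2.1, obs11.2.2.2.2.2.2.1, obs12.2.2.2.2.2.2.1, obs13.2.2.2.2.2.2.1,
    obs14.2.2.2.2.2.2.1, obs15.2.2.2.2.2.2.1, obs0.2.2.2.2.2.2.2.1, obs1.2.2.2.2.2.2.2.1,
    obs2.2.2.2.2.2.2.2.1, obs3.2.2.2.2.2.2.2, obs4.2.2.2.2.2.2.2, obs5.2.2.2.2.2.2.2,
    obs6.2.2.2.2.2.2.2, obs7.2.2.2.2.2.2.2, obs8.2.2.2.2.2.2.2, obs9.2.2.2.2.2.2.2,
    obs10.2.2.2.2.2.2.2, obs11.2.2.2.2.2.2.2, obs12.2.2.2.2.2.2.2, obs13.2.2.2.2.2.2.2,
    obs14.2.2.2.2.2.2.2, obs15.2.2.2.2.2.2.2, obs0.2.2.2.2.2.2.2.2, obs1.2.2.2.2.2.2.2.2,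
    obs2.2.2.2.2.2.2.2.2]

theorem fib_all (c : ℕ) (h : c < 131) : ∀ θ < 28, dat.fibC c θ = true := by
  interval_cases c
  · exact all28 fbs0.1
  · exact all28 fbs1.1
  · exact all28 fbs2.1
  · exact all28 fbs3.1
  · exact all28 fbs4.1
  · exact all28 fbs5.1
  · exact all28 fbs6.1
  · exact all28 fbs7.1
  · exact all28 fbs8.1
  · exact all28 fbs9.1
  · exact all28 fbs10.1
  · exact all28 fbs11.1
  · exact all28 fbs0.2.1
  · exact all28 fbs1.2.1
  · exact all28 fbs2.2.1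
  · exact all28 fbs3.2.1
  · exact all28 fbs4.2.1
  · exact all28 fbs5.2.1
  · exact all28 fbs6.2.1
  · exact all28 fbs7.2.1
  · exact all28 fbs8.2.1
  · exact all28 fbs9.2.1
  · exact all28 fbs10.2.1
  · exact all28 fbs11.2.1
  · exact all28 fbs0.2.2.1
  · exact all28 fbs1.2.2.1
  · exact all28 fbs2.2.2.1
  · exact all28 fbs3.2.2.1
  · exact all28 fbs4.2.2.1
  · exact all28 fbs5.2.2.1
  · exact all28 fbs6.2.2.1
  · exact all28 fbs7.2.2.1
  · exact all28 fbs8.2.2.1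
  · exact all28 fbs9.2.2.1
  · exact all28 fbs10.2.2.1
  · exact all28 fbs11.2.2.1
  · exact all28 fbs0.2.2.2.1
  · exact all28 fbs1.2.2.2.1
  · exact all28 fbs2.2.2.2.1
  · exact all28 fbs3.2.2.2.1
  · exact all28 fbs4.2.2.2.1
  · exact all28 fbs5.2.2.2.1
  · exact all28 fbs6.2.2.2.1
  · exact all28 fbs7.2.2.2.1
  · exact all28 fbs8.2.2.2.1
  · exact all28 fbs9.2.2.2.1
  · exact all28 fbs10.2.2.2.1
  · exact all28 fbs11.2.2.2.1
  · exact all28 fbs0.2.2.2.2.1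
  · exact all28 fbs1.2.2.2.2.1
  · exact all28 fbs2.2.2.2.2.1
  · exact all28 fbs3.2.2.2.2.1
  · exact all28 fbs4.2.2.2.2.1
  · exact all28 fbs5.2.2.2.2.1
  · exact all28 fbs6.2.2.2.2.1
  · exact all28 fbs7.2.2.2.2.1
  · exact all28 fbs8.2.2.2.2.1
  · exact all28 fbs9.2.2.2.2.1
  · exact all28 fbs10.2.2.2.2.1
  · exact all28 fbs11.2.2.2.2.1
  · exact all28 fbs0.2.2.2.2.2.1
  · exact all28 fbs1.2.2.2.2.2.1
  · exact all28 fbs2.2.2.2.2.2.1
  · exact all28 fbs3.2.2.2.2.2.1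
  · exact all28 fbs4.2.2.2.2.2.1
  · exact all28 fbs5.2.2.2.2.2.1
  · exact all28 fbs6.2.2.2.2.2.1
  · exact all28 fbs7.2.2.2.2.2.1
  · exact all28 fbs8.2.2.2.2.2.1
  · exact all28 fbs9.2.2.2.2.2.1
  · exact all28 fbs10.2.2.2.2.2.1
  · exact all28 fbs11.2.2.2.2.2.1
  · exact all28 fbs0.2.2.2.2.2.2.1
  · exact all28 fbs1.2.2.2.2.2.2.1
  · exact all28 fbs2.2.2.2.2.2.2.1
  · exact all28 fbs3.2.2.2.2.2.2.1
  · exact all28 fbs4.2.2.2.2.2.2.1
  · exact all28 fbs5.2.2.2.2.2.2.1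
  · exact all28 fbs6.2.2.2.2.2.2.1
  · exact all28 fbs7.2.2.2.2.2.2.1
  · exact all28 fbs8.2.2.2.2.2.2.1
  · exact all28 fbs9.2.2.2.2.2.2.1
  · exact all28 fbs10.2.2.2.2.2.2.1
  · exact all28 fbs11.2.2.2.2.2.2.1
  · exact all28 fbs0.2.2.2.2.2.2.2.1
  · exact all28 fbs1.2.2.2.2.2.2.2.1
  · exact all28 fbs2.2.2.2.2.2.2.2.1
  · exact all28 fbs3.2.2.2.2.2.2.2.1
  · exact all28 fbs4.2.2.2.2.2.2.2.1
  · exact all28 fbs5.2.2.2.2.2.2.2.1
  · exact all28 fbs6.2.2.2.2.2.2.2.1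
  · exact all28 fbs7.2.2.2.2.2.2.2.1
  · exact all28 fbs8.2.2.2.2.2.2.2.1
  · exact all28 fbs9.2.2.2.2.2.2.2.1
  · exact all28 fbs10.2.2.2.2.2.2.2.1
  · exact all28 fbs11.2.2.2.2.2.2.2.1
  · exact all28 fbs0.2.2.2.2.2.2.2.2.1
  · exact all28 fbs1.2.2.2.2.2.2.2.2.1
  · exact all28 fbs2.2.2.2.2.2.2.2.2.1
  · exact all28 fbs3.2.2.2.2.2.2.2.2.1
  · exact all28 fbs4.2.2.2.2.2.2.2.2.1
  · exact all28 fbs5.2.2.2.2.2.2.2.2.1
  · exact all28 fbs6.2.2.2.2.2.2.2.2.1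
  · exact all28 fbs7.2.2.2.2.2.2.2.2.1
  · exact all28 fbs8.2.2.2.2.2.2.2.2.1
  · exact all28 fbs9.2.2.2.2.2.2.2.2.1
  · exact all28 fbs10.2.2.2.2.2.2.2.2.1
  · exact all28 fbs11.2.2.2.2.2.2.2.2.1
  · exact all28 fbs0.2.2.2.2.2.2.2.2.2.1
  · exact all28 fbs1.2.2.2.2.2.2.2.2.2.1
  · exact all28 fbs2.2.2.2.2.2.2.2.2.2.1
  · exact all28 fbs3.2.2.2.2.2.2.2.2.2.1
  · exact all28 fbs4.2.2.2.2.2.2.2.2.2.1
  · exact all28 fbs5.2.2.2.2.2.2.2.2.2.1
  · exact all28 fbs6.2.2.2.2.2.2.2.2.2.1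
  · exact all28 fbs7.2.2.2.2.2.2.2.2.2.1
  · exact all28 fbs8.2.2.2.2.2.2.2.2.2.1
  · exact all28 fbs9.2.2.2.2.2.2.2.2.2.1
  · exact all28 fbs10.2.2.2.2.2.2.2.2.2.1
  · exact all28 fbs11.2.2.2.2.2.2.2.2.2
  · exact all28 fbs0.2.2.2.2.2.2.2.2.2.2
  · exact all28 fbs1.2.2.2.2.2.2.2.2.2.2
  · exact all28 fbs2.2.2.2.2.2.2.2.2.2.2
  · exact all28 fbs3.2.2.2.2.2.2.2.2.2.2
  · exact all28 fbs4.2.2.2.2.2.2.2.2.2.2
  · exact all28 fbs5.2.2.2.2.2.2.2.2.2.2
  · exact all28 fbs6.2.2.2.2.2.2.2.2.2.2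
  · exact all28 fbs7.2.2.2.2.2.2.2.2.2.2
  · exact all28 fbs8.2.2.2.2.2.2.2.2.2.2
  · exact all28 fbs9.2.2.2.2.2.2.2.2.2.2
  · exact all28 fbs10.2.2.2.2.2.2.2.2.2.2

end Pool.Agent.MP_61a8e3_al.T

end

section

/-! Part T: the hermitian form of the data is positive definite. -/

set_option autoImplicit false

namespace Pool.Agent.MP_61a8e3_al.T

/-- one tensor factor of the basis matrix -/
def b2 (r c : ℕ) : GaussianInt := if c % 2 = 1 then 1 else if r % 2 = 1 then 0 else ⟨1, 1⟩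

/-- one tensor factor of its adjugate -/
def c2 (r c : ℕ) : GaussianInt :=
  if c % 2 = 1 then (if r % 2 = 1 then ⟨1, 1⟩ else -1) else if r % 2 = 1 then 0 else 1

/-- the basis matrix -/
def Bm : Matrix (Fin 8) (Fin 8) GaussianInt :=
  Matrix.of fun r c => b2 r.val c.val * b2 (r.val / 2) (c.val / 2) * b2 (r.val / 4) (c.val / 4)

/-- a multiple of its inverse -/
def Cm : Matrix (Fin 8) (Fin 8) GaussianInt :=
  Matrix.of fun r c => c2 r.val c.val * c2 (r.val / 2) (c.val / 2) * c2 (r.val / 4) (c.val / 4)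

theorem Bm_gram : ∀ i j : Fin 8, ∑ k : Fin 8, star (Bm k i) * Bm k j = 2 * Hm hcP i j := by
  decide +kernel

theorem Cm_Bm_aux : ∀ i j : Fin 8,
    ∑ k : Fin 8, Cm i k * Bm k j = if i = j then ⟨-2, 2⟩ else 0 := by
  decide +kernel

theorem Cm_Bm : Cm * Bm = (⟨-2, 2⟩ : GaussianInt) • (1 : Matrix (Fin 8) (Fin 8) GaussianInt) := by
  ext1 i j
  rw [Matrix.mul_apply, Cm_Bm_aux, Matrix.smul_apply, Matrix.one_apply]
  split_ifs <;> simp

theorem Bm_inj : Function.Injective (fun v : V => Bm.mulVec v) := by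
  intro v w h
  have h1 : Cm.mulVec (Bm.mulVec v) = Cm.mulVec (Bm.mulVec w) := congrArg _ h
  rw [Matrix.mulVec_mulVec, Matrix.mulVec_mulVec, Cm_Bm, Matrix.smul_mulVec,
    Matrix.smul_mulVec, Matrix.one_mulVec, Matrix.one_mulVec] at h1
  funext i
  have h2 := congrFun h1 i
  simp only [Pi.smul_apply, smul_eq_mul] at h2
  exact mul_left_cancel₀ (by decide) h2

theorem two_Qf (v : V) :
    2 * Qf hcP v = ∑ k : Fin 8, star (Bm.mulVec v k) * Bm.mulVec v k := by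
  have h1 : 2 * Qf hcP v =
      ∑ i : Fin 8, ∑ j : Fin 8, ∑ k : Fin 8, star (Bm k i * v i) * (Bm k j * v j) := by
    unfold Qf
    rw [Finset.mul_sum]
    refine Finset.sum_congr rfl fun i _ => ?_
    rw [Finset.mul_sum]
    refine Finset.sum_congr rfl fun j _ => ?_
    have : 2 * (star (v i) * Hm hcP i j * v j) = star (v i) * (2 * Hm hcP i j) * v j := by ring
    rw [this, ← Bm_gram, Finset.mul_sum, Finset.sum_mul]
    refine Finset.sum_congr rfl fun k _ => ?_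
    rw [star_mul']
    ring
  rw [h1]
  simp only [Matrix.mulVec, dotProduct, star_sum, Finset.sum_mul_sum]
  rw [Finset.sum_comm (s := Finset.univ) (t := Finset.univ)
    (f := fun (k i : Fin 8) => ∑ j : Fin 8, star (Bm k i * v i) * (Bm k j * v j))]
  refine Finset.sum_congr rfl fun i _ => ?_
  rw [Finset.sum_comm]

theorem two_Qf_re (v : V) : ∑ k : Fin 8, (Bm.mulVec v k).norm = 2 * (Qf hcP v).re := by
  have h : ((∑ k : Fin 8, (Bm.mulVec v k).norm : ℤ) : GaussianInt) = 2 * Qf hcP v := by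
    rw [two_Qf, Int.cast_sum]
    refine Finset.sum_congr rfl fun k _ => ?_
    rw [Zsqrtd.norm_eq_mul_conj, mul_comm]
  have h2 := congrArg Zsqrtd.re h
  rw [Zsqrtd.re_intCast] at h2
  rw [h2]
  simp

theorem dat_qfin (n : ℤ) : {v : V | (Qf dat.hc v).re = n}.Finite := by
  refine (D.finite_level (fun v : V => Bm.mulVec v) Bm_inj (2 * n)).subset fun v hv => ?_
  have hv' : (Qf hcP v).re = n := hv
  show ∑ k : Fin 8, (Bm.mulVec v k).norm = 2 * n
  rw [two_Qf_re, hv']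

theorem dat_qzero (v : V) (hv : (Qf dat.hc v).re = 0) : v = 0 := by
  have hv' : (Qf hcP v).re = 0 := hv
  have h := two_Qf_re v
  rw [hv', mul_zero,
    Finset.sum_eq_zero_iff_of_nonneg (fun k _ => GaussianInt.norm_nonneg _)] at h
  apply Bm_inj
  funext k
  simp only [Matrix.mulVec_zero, Pi.zero_apply]
  exact GaussianInt.norm_eq_zero.1 (h k (Finset.mem_univ k))

theorem dat_hz : ∀ i j : Fin 8, entB dat.zr dat.zi i j.castSucc = star (Hm dat.hc i j) := by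
  decide +kernel

end Pool.Agent.MP_61a8e3_al.T

end

section

/-! The final assembly. -/

set_option autoImplicit false

namespace Pool.Agent.MP_61a8e3_al.T

theorem dat_ok : dat.Ok := ⟨obj_all, fib_all, dat_hz, dat_qfin, dat_qzero⟩

theorem main_cyc : ∃ Γ : Subgroup D.OutPi, Γ.FiniteIndex ∧ ∀ h : ℕ, 1 ≤ h →
    ∃ φ : Γ →* Tw.Out (Tw.Surf h), Nonempty (φ.range ≃* Multiplicative ℤ) := by
  obtain ⟨Γ, hΓ, f, hf⟩ := final_of_ok dat_ok
  refine ⟨Γ, hΓ, fun h hh => ?_⟩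
  obtain ⟨j, hj⟩ := Tw.exists_inj_int h hh
  refine ⟨j.comp f, ⟨?_⟩⟩
  have e : (j.comp f).range = j.range := by
    rw [MonoidHom.range_comp, MonoidHom.range_eq_top.2 hf, ← MonoidHom.range_eq_map]
  exact (MulEquiv.subgroupCongr e).trans (MonoidHom.ofInjective hj).symm

end Pool.Agent.MP_61a8e3_al.T

end
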