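import Pool.Agent.Mg.F61a8e3.G86875b

section

/-! Part K: the check of the classes from 7472 to 7919. -/

set_option autoImplicit false
set_option maxRecDepth 100000

namespace Pool.Agent.MP_61a8e3_al.G4.K

theorem chk17 : Rg (cls dat) 7472 7920 := by
  have h := Rg.nil (cls dat) 7472
  replace h := Rg.step 7472 14 7486 h rfl (by decide +kernel)
  replace h := Rg.step 7486 14 7500 h rfl (by decide +kernel)
  replace h := Rg.step 7500 14 7514 h rfl (by decide +kernel)
  replace h := Rg.step 7514 14 7528 h rfl (by decide +kernel)
  replace h := Rg.step 7528 14 7542 h rfl (by decide +kernel)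
  replace h := Rg.step 7542 14 7556 h rfl (by decide +kernel)
  replace h := Rg.step 7556 14 7570 h rfl (by decide +kernel)
  replace h := Rg.step 7570 14 7584 h rfl (by decide +kernel)
  replace h := Rg.step 7584 14 7598 h rfl (by decide +kernel)
  replace h := Rg.step 7598 14 7612 h rfl (by decide +kernel)
  replace h := Rg.step 7612 14 7626 h rfl (by decide +kernel)
  replace h := Rg.step 7626 14 7640 h rfl (by decide +kernel)
  replace h := Rg.step 7640 14 7654 h rfl (by decide +kernel)
  replace h := Rg.step 7654 14 7668 h rfl (by decide +kernel)
  replace h := Rg.step 7668 14 7682 h rfl (by decide +kernel)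
  replace h := Rg.step 7682 14 7696 h rfl (by decide +kernel)
  replace h := Rg.step 7696 14 7710 h rfl (by decide +kernel)
  replace h := Rg.step 7710 14 7724 h rfl (by decide +kernel)
  replace h := Rg.step 7724 14 7738 h rfl (by decide +kernel)
  replace h := Rg.step 7738 14 7752 h rfl (by decide +kernel)
  replace h := Rg.step 7752 14 7766 h rfl (by decide +kernel)
  replace h := Rg.step 7766 14 7780 h rfl (by decide +kernel)
  replace h := Rg.step 7780 14 7794 h rfl (by decide +kernel)
  replace h := Rg.step 7794 14 7808 h rfl (by decide +kernel)
  replace h := Rg.step 7808 14 7822 h rfl (by decide +kernel)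
  replace h := Rg.step 7822 14 7836 h rfl (by decide +kernel)
  replace h := Rg.step 7836 14 7850 h rfl (by decide +kernel)
  replace h := Rg.step 7850 14 7864 h rfl (by decide +kernel)
  replace h := Rg.step 7864 14 7878 h rfl (by decide +kernel)
  replace h := Rg.step 7878 14 7892 h rfl (by decide +kernel)
  replace h := Rg.step 7892 14 7906 h rfl (by decide +kernel)
  replace h := Rg.step 7906 14 7920 h rfl (by decide +kernel)
  exact h

end Pool.Agent.MP_61a8e3_al.G4.K

end

section

/-! Part K: the check of the classes from 7920 to 8367. -/

set_option autoImplicit false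
set_option maxRecDepth 100000

namespace Pool.Agent.MP_61a8e3_al.G4.K

theorem chk18 : Rg (cls dat) 7920 8368 := by
  have h := Rg.nil (cls dat) 7920
  replace h := Rg.step 7920 14 7934 h rfl (by decide +kernel)
  replace h := Rg.step 7934 14 7948 h rfl (by decide +kernel)
  replace h := Rg.step 7948 14 7962 h rfl (by decide +kernel)
  replace h := Rg.step 7962 14 7976 h rfl (by decide +kernel)
  replace h := Rg.step 7976 14 7990 h rfl (by decide +kernel)
  replace h := Rg.step 7990 14 8004 h rfl (by decide +kernel)
  replace h := Rg.step 8004 14 8018 h rfl (by decide +kernel)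
  replace h := Rg.step 8018 14 8032 h rfl (by decide +kernel)
  replace h := Rg.step 8032 14 8046 h rfl (by decide +kernel)
  replace h := Rg.step 8046 14 8060 h rfl (by decide +kernel)
  replace h := Rg.step 8060 14 8074 h rfl (by decide +kernel)
  replace h := Rg.step 8074 14 8088 h rfl (by decide +kernel)
  replace h := Rg.step 8088 14 8102 h rfl (by decide +kernel)
  replace h := Rg.step 8102 14 8116 h rfl (by decide +kernel)
  replace h := Rg.step 8116 14 8130 h rfl (by decide +kernel)
  replace h := Rg.step 8130 14 8144 h rfl (by decide +kernel)
  replace h := Rg.step 8144 14 8158 h rfl (by decide +kernel)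
  replace h := Rg.step 8158 14 8172 h rfl (by decide +kernel)
  replace h := Rg.step 8172 14 8186 h rfl (by decide +kernel)
  replace h := Rg.step 8186 14 8200 h rfl (by decide +kernel)
  replace h := Rg.step 8200 14 8214 h rfl (by decide +kernel)
  replace h := Rg.step 8214 14 8228 h rfl (by decide +kernel)
  replace h := Rg.step 8228 14 8242 h rfl (by decide +kernel)
  replace h := Rg.step 8242 14 8256 h rfl (by decide +kernel)
  replace h := Rg.step 8256 14 8270 h rfl (by decide +kernel)
  replace h := Rg.step 8270 14 8284 h rfl (by decide +kernel)
  replace h := Rg.step 8284 14 8298 h rfl (by decide +kernel)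
  replace h := Rg.step 8298 14 8312 h rfl (by decide +kernel)
  replace h := Rg.step 8312 14 8326 h rfl (by decide +kernel)
  replace h := Rg.step 8326 14 8340 h rfl (by decide +kernel)
  replace h := Rg.step 8340 14 8354 h rfl (by decide +kernel)
  replace h := Rg.step 8354 14 8368 h rfl (by decide +kernel)
  exact h

end Pool.Agent.MP_61a8e3_al.G4.K

end
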